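import Pool.Agent.Helper89.TQ.Ctx

set_option autoImplicit false
set_option linter.all false
set_option maxHeartbeats 4000000

namespace Pool.Agent.Helper24.TQ

open Pool.Agent.Helper89.TQ

theorem c0_11_11_33_k0_k_t12 {n1 n2 n3 A1 A2 A3 B1 B2 B3 m11_1 m11_2 m11_3 m13_1 m13_2 m13_3 m22_1 m22_2 m22_3 m23_1 m23_2 m23_3 m33_1 m33_2 m33_3 : ℤ} (C : Ctx0 n1 n2 n3 A1 A2 A3 B1 B2 B3 m11_1 m11_2 m11_3 m13_1 m13_2 m13_3 m22_1 m22_2 m22_3 m23_1 m23_2 m23_3 m33_1 m33_2 m33_3) :
    ((-1) * A1 ≤ -1 ∧ (-1) * A1 + 1 * A2 + (-1) * n2 ≤ -1) ∨ ((-1) * B1 ≤ -1 ∧ (-1) * B1 + 1 * B2 + (-1) * n2 ≤ -1) := by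
  have h := C.t12
  clear C
  omega

theorem c0_11_11_33_k0_k_t23 {n1 n2 n3 A1 A2 A3 B1 B2 B3 m11_1 m11_2 m11_3 m13_1 m13_2 m13_3 m22_1 m22_2 m22_3 m23_1 m23_2 m23_3 m33_1 m33_2 m33_3 : ℤ} (C : Ctx0 n1 n2 n3 A1 A2 A3 B1 B2 B3 m11_1 m11_2 m11_3 m13_1 m13_2 m13_3 m22_1 m22_2 m22_3 m23_1 m23_2 m23_3 m33_1 m33_2 m33_3) :
    (1 * A1 + (-1) * A2 ≤ -1 ∧ (-1) * A2 + 1 * A3 + (-1) * n3 ≤ -1) ∨ (1 * B1 + (-1) * B2 ≤ -1 ∧ (-1) * B2 + 1 * B3 + (-1) * n3 ≤ -1) := by
  have h := C.t23
  clear C
  omega

theorem c0_11_11_33_k0_k_f13_2 {n1 n2 n3 A1 A2 A3 B1 B2 B3 m11_1 m11_2 m11_3 m13_1 m13_2 m13_3 m22_1 m22_2 m22_3 m23_1 m23_2 m23_3 m33_1 m33_2 m33_3 : ℤ} (C : Ctx0 n1 n2 n3 A1 A2 A3 B1 B2 B3 m11_1 m11_2 m11_3 m13_1 m13_2 m13_3 m22_1 m22_2 m22_3 m23_1 m23_2 m23_3 m33_1 m33_2 m33_3) :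
    ((-1) * A1 + 1 * m13_1 ≤ -1 ∧ 1 * A1 + (-1) * m13_1 ≤ 1) ∨ ((-1) * B3 + 1 * m13_1 ≤ -1 ∧ 1 * B3 + (-1) * m13_1 ≤ 1) := by
  have h := C.f13_2
  clear C
  omega

theorem c0_11_11_33_k0_k_f13_5 {n1 n2 n3 A1 A2 A3 B1 B2 B3 m11_1 m11_2 m11_3 m13_1 m13_2 m13_3 m22_1 m22_2 m22_3 m23_1 m23_2 m23_3 m33_1 m33_2 m33_3 : ℤ} (C : Ctx0 n1 n2 n3 A1 A2 A3 B1 B2 B3 m11_1 m11_2 m11_3 m13_1 m13_2 m13_3 m22_1 m22_2 m22_3 m23_1 m23_2 m23_3 m33_1 m33_2 m33_3) :
    ((-1) * m13_1 + 1 * m13_2 + (-1) * n2 ≤ 0 ∧ 1 * m13_1 + (-1) * m13_2 + 1 * n2 ≤ 0) ∨ ((-1) * B3 + 1 * m13_2 ≤ -1 ∧ 1 * B3 + (-1) * m13_2 ≤ 1) := by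
  have h := C.f13_5
  clear C
  omega

theorem c0_11_11_33_k0_k_f13_8 {n1 n2 n3 A1 A2 A3 B1 B2 B3 m11_1 m11_2 m11_3 m13_1 m13_2 m13_3 m22_1 m22_2 m22_3 m23_1 m23_2 m23_3 m33_1 m33_2 m33_3 : ℤ} (C : Ctx0 n1 n2 n3 A1 A2 A3 B1 B2 B3 m11_1 m11_2 m11_3 m13_1 m13_2 m13_3 m22_1 m22_2 m22_3 m23_1 m23_2 m23_3 m33_1 m33_2 m33_3) :
    ((-1) * m13_2 + 1 * m13_3 + (-1) * n3 ≤ 0 ∧ 1 * m13_2 + (-1) * m13_3 + 1 * n3 ≤ 0) ∨ ((-1) * B3 + 1 * m13_3 ≤ -1 ∧ 1 * B3 + (-1) * m13_3 ≤ 1) := by
  have h := C.f13_8
  clear C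
  omega

theorem c0_11_11_33_k0_k_f22_2 {n1 n2 n3 A1 A2 A3 B1 B2 B3 m11_1 m11_2 m11_3 m13_1 m13_2 m13_3 m22_1 m22_2 m22_3 m23_1 m23_2 m23_3 m33_1 m33_2 m33_3 : ℤ} (C : Ctx0 n1 n2 n3 A1 A2 A3 B1 B2 B3 m11_1 m11_2 m11_3 m13_1 m13_2 m13_3 m22_1 m22_2 m22_3 m23_1 m23_2 m23_3 m33_1 m33_2 m33_3) :
    (1 * m22_1 + (-1) * n1 ≤ 0 ∧ (-1) * m22_1 + 1 * n1 ≤ 0) ∨ ((-1) * B2 + 1 * m22_1 ≤ -1 ∧ 1 * B2 + (-1) * m22_1 ≤ 1) := by
  have h := C.f22_2
  clear C
  omega

theorem c0_11_11_33_k0_k_f22_5 {n1 n2 n3 A1 A2 A3 B1 B2 B3 m11_1 m11_2 m11_3 m13_1 m13_2 m13_3 m22_1 m22_2 m22_3 m23_1 m23_2 m23_3 m33_1 m33_2 m33_3 : ℤ} (C : Ctx0 n1 n2 n3 A1 A2 A3 B1 B2 B3 m11_1 m11_2 m11_3 m13_1 m13_2 m13_3 m22_1 m22_2 m22_3 m23_1 m23_2 m23_3 m33_1 m33_2 m33_3) :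
    ((-1) * m22_1 + 1 * m22_2 + (-1) * n2 ≤ 0 ∧ 1 * m22_1 + (-1) * m22_2 + 1 * n2 ≤ 0) ∨ ((-1) * B2 + 1 * m22_2 ≤ -1 ∧ 1 * B2 + (-1) * m22_2 ≤ 1) := by
  have h := C.f22_5
  clear C
  omega

theorem c0_11_11_33_k0_k_f23_3 {n1 n2 n3 A1 A2 A3 B1 B2 B3 m11_1 m11_2 m11_3 m13_1 m13_2 m13_3 m22_1 m22_2 m22_3 m23_1 m23_2 m23_3 m33_1 m33_2 m33_3 : ℤ} (C : Ctx0 n1 n2 n3 A1 A2 A3 B1 B2 B3 m11_1 m11_2 m11_3 m13_1 m13_2 m13_3 m22_1 m22_2 m22_3 m23_1 m23_2 m23_3 m33_1 m33_2 m33_3) :
    (1 * m23_1 + (-1) * n1 ≤ 0 ∧ (-1) * m23_1 + 1 * n1 ≤ 0) ∨ ((-1) * A2 + 1 * m23_1 ≤ -1 ∧ 1 * A2 + (-1) * m23_1 ≤ 1) ∨ ((-1) * B3 + 1 * m23_1 ≤ -1 ∧ 1 * B3 + (-1) * m23_1 ≤ 1) := by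
  have h := C.f23_3
  clear C
  omega

theorem c0_11_11_33_k0_k_f23_7 {n1 n2 n3 A1 A2 A3 B1 B2 B3 m11_1 m11_2 m11_3 m13_1 m13_2 m13_3 m22_1 m22_2 m22_3 m23_1 m23_2 m23_3 m33_1 m33_2 m33_3 : ℤ} (C : Ctx0 n1 n2 n3 A1 A2 A3 B1 B2 B3 m11_1 m11_2 m11_3 m13_1 m13_2 m13_3 m22_1 m22_2 m22_3 m23_1 m23_2 m23_3 m33_1 m33_2 m33_3) :
    ((-1) * m23_1 + 1 * m23_2 + (-1) * n2 ≤ 0 ∧ 1 * m23_1 + (-1) * m23_2 + 1 * n2 ≤ 0) ∨ ((-1) * A2 + 1 * m23_2 ≤ -1 ∧ 1 * A2 + (-1) * m23_2 ≤ 1) ∨ ((-1) * B3 + 1 * m23_2 ≤ -1 ∧ 1 * B3 + (-1) * m23_2 ≤ 1) := by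
  have h := C.f23_7
  clear C
  omega

theorem c0_11_11_33_k0_k_f23_10 {n1 n2 n3 A1 A2 A3 B1 B2 B3 m11_1 m11_2 m11_3 m13_1 m13_2 m13_3 m22_1 m22_2 m22_3 m23_1 m23_2 m23_3 m33_1 m33_2 m33_3 : ℤ} (C : Ctx0 n1 n2 n3 A1 A2 A3 B1 B2 B3 m11_1 m11_2 m11_3 m13_1 m13_2 m13_3 m22_1 m22_2 m22_3 m23_1 m23_2 m23_3 m33_1 m33_2 m33_3) :
    ((-1) * m23_2 + 1 * m23_3 + (-1) * n3 ≤ 0 ∧ 1 * m23_2 + (-1) * m23_3 + 1 * n3 ≤ 0) ∨ ((-1) * B3 + 1 * m23_3 ≤ -1 ∧ 1 * B3 + (-1) * m23_3 ≤ 1) := by
  have h := C.f23_10
  clear C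
  omega

theorem c0_11_11_33_k0_k_f33_2 {n1 n2 n3 A1 A2 A3 B1 B2 B3 m11_1 m11_2 m11_3 m13_1 m13_2 m13_3 m22_1 m22_2 m22_3 m23_1 m23_2 m23_3 m33_1 m33_2 m33_3 : ℤ} (C : Ctx0 n1 n2 n3 A1 A2 A3 B1 B2 B3 m11_1 m11_2 m11_3 m13_1 m13_2 m13_3 m22_1 m22_2 m22_3 m23_1 m23_2 m23_3 m33_1 m33_2 m33_3) :
    (1 * m33_1 + (-1) * n1 ≤ 0 ∧ (-1) * m33_1 + 1 * n1 ≤ 0) ∨ ((-1) * A3 + 1 * m33_1 ≤ -1 ∧ 1 * A3 + (-1) * m33_1 ≤ 1) := by
  have h := C.f33_2
  clear C
  omega

theorem c0_11_11_33_k0_k_f33_5 {n1 n2 n3 A1 A2 A3 B1 B2 B3 m11_1 m11_2 m11_3 m13_1 m13_2 m13_3 m22_1 m22_2 m22_3 m23_1 m23_2 m23_3 m33_1 m33_2 m33_3 : ℤ} (C : Ctx0 n1 n2 n3 A1 A2 A3 B1 B2 B3 m11_1 m11_2 m11_3 m13_1 m13_2 m13_3 m22_1 m22_2 m22_3 m23_1 m23_2 m23_3 m33_1 m33_2 m33_3) :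
    ((-1) * m33_1 + 1 * m33_2 + (-1) * n2 ≤ 0 ∧ 1 * m33_1 + (-1) * m33_2 + 1 * n2 ≤ 0) ∨ ((-1) * A3 + 1 * m33_2 ≤ -1 ∧ 1 * A3 + (-1) * m33_2 ≤ 1) := by
  have h := C.f33_5
  clear C
  omega

theorem c0_11_11_33_k0_k_f33_8 {n1 n2 n3 A1 A2 A3 B1 B2 B3 m11_1 m11_2 m11_3 m13_1 m13_2 m13_3 m22_1 m22_2 m22_3 m23_1 m23_2 m23_3 m33_1 m33_2 m33_3 : ℤ} (C : Ctx0 n1 n2 n3 A1 A2 A3 B1 B2 B3 m11_1 m11_2 m11_3 m13_1 m13_2 m13_3 m22_1 m22_2 m22_3 m23_1 m23_2 m23_3 m33_1 m33_2 m33_3) :
    ((-1) * m33_2 + 1 * m33_3 + (-1) * n3 ≤ 0 ∧ 1 * m33_2 + (-1) * m33_3 + 1 * n3 ≤ 0) ∨ ((-1) * A3 + 1 * m33_3 ≤ -1 ∧ 1 * A3 + (-1) * m33_3 ≤ 1) := by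
  have h := C.f33_8
  clear C
  omega

theorem c0_11_11_33_k0_k_p11_13B {n1 n2 n3 A1 A2 A3 B1 B2 B3 m11_1 m11_2 m11_3 m13_1 m13_2 m13_3 m22_1 m22_2 m22_3 m23_1 m23_2 m23_3 m33_1 m33_2 m33_3 : ℤ} (C : Ctx0 n1 n2 n3 A1 A2 A3 B1 B2 B3 m11_1 m11_2 m11_3 m13_1 m13_2 m13_3 m22_1 m22_2 m22_3 m23_1 m23_2 m23_3 m33_1 m33_2 m33_3) :
    (1 * B1 ≤ 0) ∨ (1 * A1 ≤ 0) ∨ (1 * B3 ≤ 0) ∨ ((-2) * B1 + 1 * m11_1 + 1 * m13_1 ≤ -1) ∨ ((-2) * B2 + 1 * m11_2 + 1 * m13_2 ≤ -1) ∨ ((-2) * B3 + 1 * m11_3 + 1 * m13_3 ≤ -1) := by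
  have h := C.p11_13B
  clear C
  omega

theorem c0_11_11_33_k0_k_p11_22B {n1 n2 n3 A1 A2 A3 B1 B2 B3 m11_1 m11_2 m11_3 m13_1 m13_2 m13_3 m22_1 m22_2 m22_3 m23_1 m23_2 m23_3 m33_1 m33_2 m33_3 : ℤ} (C : Ctx0 n1 n2 n3 A1 A2 A3 B1 B2 B3 m11_1 m11_2 m11_3 m13_1 m13_2 m13_3 m22_1 m22_2 m22_3 m23_1 m23_2 m23_3 m33_1 m33_2 m33_3) :
    (1 * B1 ≤ 0) ∨ (1 * B2 ≤ 0) ∨ ((-2) * B1 + 1 * m11_1 + 1 * m22_1 ≤ -1) ∨ ((-2) * B2 + 1 * m11_2 + 1 * m22_2 ≤ -1) ∨ ((-2) * B3 + 1 * m11_3 + 1 * m22_3 ≤ -1) := by
  have h := C.p11_22B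
  clear C
  omega

theorem c0_11_11_33_k0_k_p11_23B {n1 n2 n3 A1 A2 A3 B1 B2 B3 m11_1 m11_2 m11_3 m13_1 m13_2 m13_3 m22_1 m22_2 m22_3 m23_1 m23_2 m23_3 m33_1 m33_2 m33_3 : ℤ} (C : Ctx0 n1 n2 n3 A1 A2 A3 B1 B2 B3 m11_1 m11_2 m11_3 m13_1 m13_2 m13_3 m22_1 m22_2 m22_3 m23_1 m23_2 m23_3 m33_1 m33_2 m33_3) :
    (1 * B1 ≤ 0) ∨ (1 * A2 ≤ 0) ∨ (1 * B3 ≤ 0) ∨ ((-2) * B1 + 1 * m11_1 + 1 * m23_1 ≤ -1) ∨ ((-2) * B2 + 1 * m11_2 + 1 * m23_2 ≤ -1) ∨ ((-2) * B3 + 1 * m11_3 + 1 * m23_3 ≤ -1) := by
  have h := C.p11_23B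
  clear C
  omega

theorem c0_11_11_33_k0_k_p11_33A {n1 n2 n3 A1 A2 A3 B1 B2 B3 m11_1 m11_2 m11_3 m13_1 m13_2 m13_3 m22_1 m22_2 m22_3 m23_1 m23_2 m23_3 m33_1 m33_2 m33_3 : ℤ} (C : Ctx0 n1 n2 n3 A1 A2 A3 B1 B2 B3 m11_1 m11_2 m11_3 m13_1 m13_2 m13_3 m22_1 m22_2 m22_3 m23_1 m23_2 m23_3 m33_1 m33_2 m33_3) :
    (1 * B1 ≤ 0) ∨ (1 * A3 ≤ 0) ∨ ((-2) * A1 + 1 * m11_1 + 1 * m33_1 ≤ -1) ∨ ((-2) * A2 + 1 * m11_2 + 1 * m33_2 ≤ -1) ∨ ((-2) * A3 + 1 * m11_3 + 1 * m33_3 ≤ -1) := by
  have h := C.p11_33A
  clear C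
  omega

theorem c0_11_11_33_k0_k_p11_33B {n1 n2 n3 A1 A2 A3 B1 B2 B3 m11_1 m11_2 m11_3 m13_1 m13_2 m13_3 m22_1 m22_2 m22_3 m23_1 m23_2 m23_3 m33_1 m33_2 m33_3 : ℤ} (C : Ctx0 n1 n2 n3 A1 A2 A3 B1 B2 B3 m11_1 m11_2 m11_3 m13_1 m13_2 m13_3 m22_1 m22_2 m22_3 m23_1 m23_2 m23_3 m33_1 m33_2 m33_3) :
    (1 * B1 ≤ 0) ∨ (1 * A3 ≤ 0) ∨ ((-2) * B1 + 1 * m11_1 + 1 * m33_1 ≤ -1) ∨ ((-2) * B2 + 1 * m11_2 + 1 * m33_2 ≤ -1) ∨ ((-2) * B3 + 1 * m11_3 + 1 * m33_3 ≤ -1) := by
  have h := C.p11_33B
  clear C
  omega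

theorem c0_11_11_33_k0_k_p13_22A {n1 n2 n3 A1 A2 A3 B1 B2 B3 m11_1 m11_2 m11_3 m13_1 m13_2 m13_3 m22_1 m22_2 m22_3 m23_1 m23_2 m23_3 m33_1 m33_2 m33_3 : ℤ} (C : Ctx0 n1 n2 n3 A1 A2 A3 B1 B2 B3 m11_1 m11_2 m11_3 m13_1 m13_2 m13_3 m22_1 m22_2 m22_3 m23_1 m23_2 m23_3 m33_1 m33_2 m33_3) :
    (1 * A1 ≤ 0) ∨ (1 * B3 ≤ 0) ∨ (1 * B2 ≤ 0) ∨ ((-2) * A1 + 1 * m13_1 + 1 * m22_1 ≤ -1) ∨ ((-2) * A2 + 1 * m13_2 + 1 * m22_2 ≤ -1) ∨ ((-2) * A3 + 1 * m13_3 + 1 * m22_3 ≤ -1) := by
  have h := C.p13_22A
  clear C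
  omega

theorem c0_11_11_33_k0_k_p13_22B {n1 n2 n3 A1 A2 A3 B1 B2 B3 m11_1 m11_2 m11_3 m13_1 m13_2 m13_3 m22_1 m22_2 m22_3 m23_1 m23_2 m23_3 m33_1 m33_2 m33_3 : ℤ} (C : Ctx0 n1 n2 n3 A1 A2 A3 B1 B2 B3 m11_1 m11_2 m11_3 m13_1 m13_2 m13_3 m22_1 m22_2 m22_3 m23_1 m23_2 m23_3 m33_1 m33_2 m33_3) :
    (1 * A1 ≤ 0) ∨ (1 * B3 ≤ 0) ∨ (1 * B2 ≤ 0) ∨ ((-2) * B1 + 1 * m13_1 + 1 * m22_1 ≤ -1) ∨ ((-2) * B2 + 1 * m13_2 + 1 * m22_2 ≤ -1) ∨ ((-2) * B3 + 1 * m13_3 + 1 * m22_3 ≤ -1) := by
  have h := C.p13_22B
  clear C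
  omega

theorem c0_11_11_33_k0_k_p13_33A {n1 n2 n3 A1 A2 A3 B1 B2 B3 m11_1 m11_2 m11_3 m13_1 m13_2 m13_3 m22_1 m22_2 m22_3 m23_1 m23_2 m23_3 m33_1 m33_2 m33_3 : ℤ} (C : Ctx0 n1 n2 n3 A1 A2 A3 B1 B2 B3 m11_1 m11_2 m11_3 m13_1 m13_2 m13_3 m22_1 m22_2 m22_3 m23_1 m23_2 m23_3 m33_1 m33_2 m33_3) :
    (1 * A1 ≤ 0) ∨ (1 * B3 ≤ 0) ∨ (1 * A3 ≤ 0) ∨ ((-2) * A1 + 1 * m13_1 + 1 * m33_1 ≤ -1) ∨ ((-2) * A2 + 1 * m13_2 + 1 * m33_2 ≤ -1) ∨ ((-2) * A3 + 1 * m13_3 + 1 * m33_3 ≤ -1) := by
  have h := C.p13_33A
  clear C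
  omega

theorem c0_11_11_33_k0_k_p22_33A {n1 n2 n3 A1 A2 A3 B1 B2 B3 m11_1 m11_2 m11_3 m13_1 m13_2 m13_3 m22_1 m22_2 m22_3 m23_1 m23_2 m23_3 m33_1 m33_2 m33_3 : ℤ} (C : Ctx0 n1 n2 n3 A1 A2 A3 B1 B2 B3 m11_1 m11_2 m11_3 m13_1 m13_2 m13_3 m22_1 m22_2 m22_3 m23_1 m23_2 m23_3 m33_1 m33_2 m33_3) :
    (1 * B2 ≤ 0) ∨ (1 * A3 ≤ 0) ∨ ((-2) * A1 + 1 * m22_1 + 1 * m33_1 ≤ -1) ∨ ((-2) * A2 + 1 * m22_2 + 1 * m33_2 ≤ -1) ∨ ((-2) * A3 + 1 * m22_3 + 1 * m33_3 ≤ -1) := by
  have h := C.p22_33A
  clear C
  omega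

theorem c0_11_11_33_k0_k_tmzp {n1 n2 n3 A1 A2 A3 B1 B2 B3 m11_1 m11_2 m11_3 m13_1 m13_2 m13_3 m22_1 m22_2 m22_3 m23_1 m23_2 m23_3 m33_1 m33_2 m33_3 : ℤ} (C : Ctx0 n1 n2 n3 A1 A2 A3 B1 B2 B3 m11_1 m11_2 m11_3 m13_1 m13_2 m13_3 m22_1 m22_2 m22_3 m23_1 m23_2 m23_3 m33_1 m33_2 m33_3) :
    ((-1) * A1 + 1 * n1 ≤ 0) ∨ ((-1) * A1 + 1 * A2 ≤ 0) ∨ ((-1) * A2 + 1 * A3 ≤ 0) ∨ (1 * B1 ≤ 0) ∨ (1 * B1 + (-1) * B2 + 1 * n2 ≤ 0) ∨ (1 * B2 + (-1) * B3 + 1 * n3 ≤ 0) := by
  have h := C.tmzp
  clear C
  omega

theorem c0_11_11_33_k0_k_tmpp {n1 n2 n3 A1 A2 A3 B1 B2 B3 m11_1 m11_2 m11_3 m13_1 m13_2 m13_3 m22_1 m22_2 m22_3 m23_1 m23_2 m23_3 m33_1 m33_2 m33_3 : ℤ} (C : Ctx0 n1 n2 n3 A1 A2 A3 B1 B2 B3 m11_1 m11_2 m11_3 m13_1 m13_2 m13_3 m22_1 m22_2 m22_3 m23_1 m23_2 m23_3 m33_1 m33_2 m33_3) :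
    ((-1) * A1 + 1 * n1 ≤ 0) ∨ ((-1) * A1 + 1 * A2 ≤ 1) ∨ (1 * B1 ≤ 0) ∨ (1 * B1 + (-1) * B2 + 1 * n2 ≤ 1) := by
  have h := C.tmpp
  clear C
  omega

theorem c0_11_11_33_k0_k_tzmp {n1 n2 n3 A1 A2 A3 B1 B2 B3 m11_1 m11_2 m11_3 m13_1 m13_2 m13_3 m22_1 m22_2 m22_3 m23_1 m23_2 m23_3 m33_1 m33_2 m33_3 : ℤ} (C : Ctx0 n1 n2 n3 A1 A2 A3 B1 B2 B3 m11_1 m11_2 m11_3 m13_1 m13_2 m13_3 m22_1 m22_2 m22_3 m23_1 m23_2 m23_3 m33_1 m33_2 m33_3) :
    (1 * A1 + (-1) * A2 + 1 * n2 ≤ 0) ∨ ((-1) * A2 + 1 * A3 ≤ 1) ∨ ((-1) * B1 + 1 * B2 ≤ 0) ∨ (1 * B2 + (-1) * B3 + 1 * n3 ≤ 1) := by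
  have h := C.tzmp
  clear C
  omega

theorem c0_11_11_33_k0_k_tzpm {n1 n2 n3 A1 A2 A3 B1 B2 B3 m11_1 m11_2 m11_3 m13_1 m13_2 m13_3 m22_1 m22_2 m22_3 m23_1 m23_2 m23_3 m33_1 m33_2 m33_3 : ℤ} (C : Ctx0 n1 n2 n3 A1 A2 A3 B1 B2 B3 m11_1 m11_2 m11_3 m13_1 m13_2 m13_3 m22_1 m22_2 m22_3 m23_1 m23_2 m23_3 m33_1 m33_2 m33_3) :
    ((-1) * A1 + 1 * A2 ≤ 0) ∨ (1 * A2 + (-1) * A3 + 1 * n3 ≤ 1) ∨ (1 * B1 + (-1) * B2 + 1 * n2 ≤ 0) ∨ ((-1) * B2 + 1 * B3 ≤ 1) ∨ ((-1) * A2 + 1 * B2 ≤ -1 ∧ (-1) * A3 + 1 * B3 ≤ 1) := by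
  have h := C.tzpm
  clear C
  omega

theorem c0_11_11_33_k0_k_tpmz {n1 n2 n3 A1 A2 A3 B1 B2 B3 m11_1 m11_2 m11_3 m13_1 m13_2 m13_3 m22_1 m22_2 m22_3 m23_1 m23_2 m23_3 m33_1 m33_2 m33_3 : ℤ} (C : Ctx0 n1 n2 n3 A1 A2 A3 B1 B2 B3 m11_1 m11_2 m11_3 m13_1 m13_2 m13_3 m22_1 m22_2 m22_3 m23_1 m23_2 m23_3 m33_1 m33_2 m33_3) :
    (1 * A1 ≤ 0) ∨ (1 * A1 + (-1) * A2 + 1 * n2 ≤ 1) ∨ ((-1) * A2 + 1 * A3 ≤ 0) ∨ ((-1) * B1 + 1 * n1 ≤ 0) ∨ ((-1) * B1 + 1 * B2 ≤ 1) ∨ (1 * B2 + (-1) * B3 + 1 * n3 ≤ 0) := by
  have h := C.tpmz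
  clear C
  omega

theorem c0_11_11_33_k0 {n1 n2 n3 A1 A2 A3 B1 B2 B3 m11_1 m11_2 m11_3 m13_1 m13_2 m13_3 m22_1 m22_2 m22_3 m23_1 m23_2 m23_3 m33_1 m33_2 m33_3 : ℤ}
    (C : Ctx0 n1 n2 n3 A1 A2 A3 B1 B2 B3 m11_1 m11_2 m11_3 m13_1 m13_2 m13_3 m22_1 m22_2 m22_3 m23_1 m23_2 m23_3 m33_1 m33_2 m33_3)
    (e0 : 0 < B1)
    (e1 : 0 < A3)
    (s1 : 0 * A1 + 3 * B1 ≤ m11_1 + m11_1 + m33_1)
    (s2 : 0 * A2 + 3 * B2 ≤ m11_2 + m11_2 + m33_2)
    (s3 : 0 * A3 + 3 * B3 ≤ m11_3 + m11_3 + m33_3) : False := by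
  rcases c0_11_11_33_k0_k_f13_2 C with ⟨c0_0_0, c0_0_1⟩ | ⟨c0_1_0, c0_1_1⟩
  · rcases c0_11_11_33_k0_k_t12 C with ⟨c1_0_0, c1_0_1⟩ | ⟨c1_1_0, c1_1_1⟩
    · rcases c0_11_11_33_k0_k_t23 C with ⟨c2_0_0, c2_0_1⟩ | ⟨c2_1_0, c2_1_1⟩
      · rcases c0_11_11_33_k0_k_f13_5 C with ⟨c3_0_0, c3_0_1⟩ | ⟨c3_1_0, c3_1_1⟩
        · rcases c0_11_11_33_k0_k_f13_8 C with ⟨c4_0_0, c4_0_1⟩ | ⟨c4_1_0, c4_1_1⟩
          · linarith only [C.f11_0, C.f11_1, C.f11_2, C.f13_7, C.f33_7, C.o0, C.o2, c0_0_1, c3_0_1, c4_0_1, s3]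
          · rcases c0_11_11_33_k0_k_f22_2 C with ⟨c5_0_0, c5_0_1⟩ | ⟨c5_1_0, c5_1_1⟩
            · rcases c0_11_11_33_k0_k_f22_5 C with ⟨c6_0_0, c6_0_1⟩ | ⟨c6_1_0, c6_1_1⟩
              · linarith only [C.f11_0, C.f11_1, C.f22_4, C.f33_0, C.f33_3, c5_0_1, c6_0_1, s1, s2]
              · rcases c0_11_11_33_k0_k_p11_22B C with c7_0_0 | c7_1_0 | c7_2_0 | c7_3_0 | c7_4_0
                · linarith only [c7_0_0, e0]
                · linarith only [C.f11_0, C.f22_1, C.f33_0, c5_0_1, c7_1_0, e0, s1]
                · linarith only [C.f11_0, C.f33_0, c5_0_1, c7_2_0, s1]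
                · rcases c0_11_11_33_k0_k_f33_2 C with ⟨c8_0_0, c8_0_1⟩ | ⟨c8_1_0, c8_1_1⟩
                  · rcases c0_11_11_33_k0_k_f33_8 C with ⟨c9_0_0, c9_0_1⟩ | ⟨c9_1_0, c9_1_1⟩
                    · linarith only [C.f11_2, C.f33_7, C.o2, c6_1_1, c7_3_0, c9_0_1, s2, s3]
                    · rcases c0_11_11_33_k0_k_p22_33A C with c12_0_0 | c12_1_0 | c12_2_0 | c12_3_0 | c12_4_0
                      · linarith only [C.f11_0, C.f22_1, C.f33_0, c12_0_0, c5_0_1, e0, s1]
                      · linarith only [c12_1_0, e1]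
                      · linarith only [C.a1, c12_2_0, c5_0_1, c8_0_1]
                      · rcases c0_11_11_33_k0_k_p11_13B C with c13_0_0 | c13_1_0 | c13_2_0 | c13_3_0 | c13_4_0 | c13_5_0
                        · linarith only [c13_0_0, e0]
                        · linarith only [c13_1_0, c1_0_0]
                        · linarith only [C.o2, c13_2_0, e1]
                        · rcases c0_11_11_33_k0_k_f33_5 C with ⟨c14_0_0, c14_0_1⟩ | ⟨c14_1_0, c14_1_1⟩
                          · linarith only [C.f11_0, C.f11_1, c0_0_1, c12_3_0, c13_3_0, c14_0_1, c1_0_1, c6_1_1, c7_3_0, s1]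
                          · rcases c0_11_11_33_k0_k_p13_22A C with c15_0_0 | c15_1_0 | c15_2_0 | c15_3_0 | c15_4_0 | c15_5_0
                            · linarith only [c15_0_0, c1_0_0]
                            · linarith only [C.f11_0, C.f11_1, C.f13_4, C.f22_1, C.f33_0, C.f33_4, C.o0, C.o2, c0_0_1, c15_1_0, c3_0_1, c5_0_1, e0, s1, s2]
                            · linarith only [C.f11_0, C.f22_1, C.f33_0, c15_2_0, c5_0_1, e0, s1]
                            · linarith only [C.f11_0, C.f33_0, c0_0_1, c13_3_0, c15_3_0, c5_0_1, s1]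
                            · rcases c0_11_11_33_k0_k_f23_3 C with ⟨c16_0_0, c16_0_1⟩ | ⟨c16_1_0, c16_1_1⟩ | ⟨c16_2_0, c16_2_1⟩
                              · rcases c0_11_11_33_k0_k_f23_7 C with ⟨c17_0_0, c17_0_1⟩ | ⟨c17_1_0, c17_1_1⟩ | ⟨c17_2_0, c17_2_1⟩
                                · linarith only [C.a1, C.f23_5, c16_0_1, c17_0_1, c1_0_1]
                                · rcases c0_11_11_33_k0_k_f23_10 C with ⟨c18_0_0, c18_0_1⟩ | ⟨c18_1_0, c18_1_1⟩
                                  · linarith only [C.f11_2, C.f23_9, C.f33_7, C.o1, C.o2, c17_1_1, c18_0_1, c6_1_1, c7_3_0, s3]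
                                  · rcases c0_11_11_33_k0_k_p11_23B C with c19_0_0 | c19_1_0 | c19_2_0 | c19_3_0 | c19_4_0 | c19_5_0
                                    · linarith only [c19_0_0, e0]
                                    · linarith only [C.f11_0, C.f22_1, C.f33_0, c12_3_0, c14_1_1, c19_1_0, c5_0_1, c6_1_1, e0, e1, s1]
                                    · linarith only [C.o2, c19_2_0, e1]
                                    · linarith only [C.f11_0, C.f33_0, c16_0_1, c19_3_0, s1]
                                    · rcases c0_11_11_33_k0_k_p13_22B C with c21_0_0 | c21_1_0 | c21_2_0 | c21_3_0 | c21_4_0 | c21_5_0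
                                      · linarith only [c1_0_0, c21_0_0]
                                      · linarith only [C.o2, c21_1_0, e1]
                                      · linarith only [C.f11_0, C.f22_1, C.f33_0, c21_2_0, c5_0_1, e0, s1]
                                      · linarith only [C.f11_0, C.f33_0, C.o0, c0_0_1, c21_3_0, c5_0_1, s1]
                                      · linarith only [C.f11_0, C.f11_1, C.o0, c0_0_1, c12_3_0, c1_0_1, c21_4_0, c3_0_1, c6_1_1, s2]
                                      · linarith only [C.f11_0, C.f11_1, C.f11_2, C.f22_6, C.f33_7, C.o0, C.o2, c0_0_1, c15_4_0, c17_1_1, c19_4_0, c21_5_0, c3_0_1, c4_1_1, c6_1_1, s3]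
                                    · linarith only [C.f33_7, C.o2, c18_1_1, c19_5_0, s3]
                                · linarith only [C.f13_4, C.f23_5, c0_0_1, c17_2_1, c1_0_1, c3_0_1]
                              · linarith only [C.f11_0, C.f11_1, C.f22_1, C.f23_0, C.o0, c0_0_1, c12_3_0, c15_4_0, c16_1_1, c3_0_1, c5_0_1, c6_1_1, s2]
                              · linarith only [C.f11_0, C.f11_1, C.f13_4, C.f22_1, C.f23_0, C.f33_4, C.o0, C.o2, c0_0_1, c16_2_1, c3_0_1, c5_0_1, s2]
                            · linarith only [C.f11_2, C.f22_6, C.f33_7, C.o2, c15_5_0, c4_1_1, c6_1_1, c7_3_0, s3]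
                        · linarith only [c0_0_1, c12_3_0, c13_4_0, c1_0_1, c3_0_1, c6_1_1, s2]
                        · linarith only [C.f33_7, C.o2, c13_5_0, c4_1_1, s3]
                      · linarith only [C.f11_2, C.f22_6, C.o2, c12_4_0, c6_1_1, c7_3_0, c9_1_1, s3]
                  · linarith only [C.f22_1, C.f33_0, C.f33_4, c5_0_1, c6_1_1, c7_3_0, c8_1_1, s2]
                · linarith only [C.b5, C.f22_6, C.f33_7, C.o2, c6_1_1, c7_4_0, s3]
            · rcases c0_11_11_33_k0_k_f22_5 C with ⟨c22_0_0, c22_0_1⟩ | ⟨c22_1_0, c22_1_1⟩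
              · linarith only [C.f22_4, c1_0_1, c22_0_1, c2_0_0, c5_1_1]
              · rcases c0_11_11_33_k0_k_f23_3 C with ⟨c23_0_0, c23_0_1⟩ | ⟨c23_1_0, c23_1_1⟩ | ⟨c23_2_0, c23_2_1⟩
                · rcases c0_11_11_33_k0_k_f23_7 C with ⟨c24_0_0, c24_0_1⟩ | ⟨c24_1_0, c24_1_1⟩ | ⟨c24_2_0, c24_2_1⟩
                  · linarith only [C.a1, C.f23_5, c1_0_1, c23_0_1, c24_0_1]
                  · rcases c0_11_11_33_k0_k_f23_10 C with ⟨c25_0_0, c25_0_1⟩ | ⟨c25_1_0, c25_1_1⟩
                    · rcases c0_11_11_33_k0_k_p11_22B C with c29_0_0 | c29_1_0 | c29_2_0 | c29_3_0 | c29_4_0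
                      · linarith only [c29_0_0, e0]
                      · linarith only [C.b5, C.f11_0, C.f23_1, C.f23_9, C.f33_0, c23_0_1, c24_1_1, c25_0_1, c29_1_0, e0, s1]
                      · linarith only [C.b5, C.f11_0, C.f23_1, C.f23_9, C.f33_0, c23_0_1, c24_1_1, c25_0_1, c29_2_0, c5_1_1, s1]
                      · linarith only [C.f11_2, C.f23_9, C.f33_7, C.o1, C.o2, c22_1_1, c24_1_1, c25_0_1, c29_3_0, s3]
                      · linarith only [C.b5, C.f22_6, C.f33_7, C.o2, c22_1_1, c29_4_0, s3]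
                    · rcases c0_11_11_33_k0_k_p11_23B C with c30_0_0 | c30_1_0 | c30_2_0 | c30_3_0 | c30_4_0 | c30_5_0
                      · linarith only [c30_0_0, e0]
                      · linarith only [C.f11_0, C.f23_1, C.f33_0, c23_0_1, c30_1_0, e0, s1]
                      · linarith only [C.a4, C.f11_0, C.f23_1, C.f33_0, C.o2, c23_0_1, c30_2_0, e0, s1]
                      · linarith only [C.f11_0, C.f33_0, c23_0_1, c30_3_0, s1]
                      · rcases c0_11_11_33_k0_k_f33_2 C with ⟨c31_0_0, c31_0_1⟩ | ⟨c31_1_0, c31_1_1⟩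
                        · rcases c0_11_11_33_k0_k_f33_8 C with ⟨c32_0_0, c32_0_1⟩ | ⟨c32_1_0, c32_1_1⟩
                          · linarith only [C.f11_2, C.f33_7, C.o1, C.o2, c24_1_1, c30_4_0, c32_0_1, s2, s3]
                          · rcases c0_11_11_33_k0_k_tpmz C with c36_0_0 | c36_1_0 | c36_2_0 | c36_3_0 | c36_4_0 | c36_5_0
                            · linarith only [c1_0_0, c36_0_0]
                            · rcases c0_11_11_33_k0_k_p13_22B C with c37_0_0 | c37_1_0 | c37_2_0 | c37_3_0 | c37_4_0 | c37_5_0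
                              · linarith only [c1_0_0, c37_0_0]
                              · linarith only [C.o2, c37_1_0, e1]
                              · linarith only [C.a1, C.f11_0, C.f11_1, C.f23_1, C.f33_0, c1_0_1, c23_0_1, c24_1_1, c30_4_0, c37_2_0, e0, s1]
                              · linarith only [C.f11_0, C.f11_1, C.f23_1, C.f33_0, C.o0, c0_0_1, c1_0_1, c23_0_1, c24_1_1, c30_4_0, c37_3_0, c5_1_1, s1]
                              · rcases c0_11_11_33_k0_k_p22_33A C with c44_0_0 | c44_1_0 | c44_2_0 | c44_3_0 | c44_4_0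
                                · linarith only [C.f11_0, C.f23_1, C.f33_0, c0_0_1, c1_0_1, c22_1_1, c23_0_1, c37_4_0, c3_0_1, c44_0_0, e0, s1]
                                · linarith only [c44_1_0, e1]
                                · linarith only [C.a1, C.f23_1, c0_0_1, c1_0_1, c22_1_1, c23_0_1, c31_0_1, c37_4_0, c3_0_1, c44_2_0, c5_1_1]
                                · linarith only [C.f11_0, C.f11_1, C.o0, c0_0_1, c1_0_1, c22_1_1, c37_4_0, c3_0_1, c44_3_0, s2]
                                · linarith only [C.f11_0, C.f11_1, C.f11_2, C.f22_6, C.o0, C.o2, c0_0_1, c22_1_1, c32_1_1, c37_4_0, c3_0_1, c44_4_0, s3]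
                              · linarith only [C.f11_0, C.f11_1, C.f11_2, C.f22_6, C.f33_7, C.o0, C.o2, c22_1_1, c24_1_1, c30_4_0, c36_1_0, c37_5_0, c4_1_1, s3]
                            · linarith only [C.f33_4, C.o1, c24_1_1, c30_4_0, c36_2_0, s2]
                            · linarith only [C.f11_0, C.f33_0, c36_3_0, s1]
                            · linarith only [C.a1, C.f11_0, C.f11_1, C.f23_1, C.f33_0, c1_0_1, c23_0_1, c24_1_1, c30_4_0, c36_4_0, s1]
                            · linarith only [C.f11_2, C.f33_7, C.o1, C.o2, c24_1_1, c30_4_0, c36_5_0, s3]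
                        · linarith only [C.f23_1, C.f33_0, C.f33_4, C.o1, c23_0_1, c24_1_1, c30_4_0, c31_1_1, s2]
                      · linarith only [C.f33_7, C.o2, c25_1_1, c30_5_0, s3]
                  · linarith only [C.f13_4, C.f23_5, c0_0_1, c1_0_1, c24_2_1, c3_0_1]
                · rcases c0_11_11_33_k0_k_f23_7 C with ⟨c45_0_0, c45_0_1⟩ | ⟨c45_1_0, c45_1_1⟩ | ⟨c45_2_0, c45_2_1⟩
                  · linarith only [C.f23_5, c1_0_1, c23_1_1, c2_0_0, c45_0_1]
                  · rcases c0_11_11_33_k0_k_f23_10 C with ⟨c46_0_0, c46_0_1⟩ | ⟨c46_1_0, c46_1_1⟩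
                    · rcases c0_11_11_33_k0_k_p11_22B C with c50_0_0 | c50_1_0 | c50_2_0 | c50_3_0 | c50_4_0
                      · linarith only [c50_0_0, e0]
                      · linarith only [C.b5, C.f23_9, c1_0_0, c2_0_0, c45_1_1, c46_0_1, c50_1_0]
                      · linarith only [C.b5, C.f11_0, C.f23_9, C.o0, c2_0_0, c45_1_1, c46_0_1, c50_2_0, c5_1_1]
                      · linarith only [C.f11_2, C.f23_9, C.f33_7, C.o1, C.o2, c22_1_1, c45_1_1, c46_0_1, c50_3_0, s3]
                      · linarith only [C.b5, C.f22_6, C.f33_7, C.o2, c22_1_1, c50_4_0, s3]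
                    · rcases c0_11_11_33_k0_k_p11_23B C with c51_0_0 | c51_1_0 | c51_2_0 | c51_3_0 | c51_4_0 | c51_5_0
                      · linarith only [c51_0_0, e0]
                      · linarith only [c1_0_0, c2_0_0, c51_1_0]
                      · linarith only [C.f11_0, C.f33_1, C.o2, c51_2_0, e0, s1]
                      · linarith only [C.f11_0, C.o0, c23_1_1, c2_0_0, c51_3_0]
                      · rcases c0_11_11_33_k0_k_f33_8 C with ⟨c52_0_0, c52_0_1⟩ | ⟨c52_1_0, c52_1_1⟩
                        · linarith only [C.f11_2, C.f33_7, C.o1, C.o2, c45_1_1, c51_4_0, c52_0_1, s2, s3]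
                        · rcases c0_11_11_33_k0_k_tpmz C with c56_0_0 | c56_1_0 | c56_2_0 | c56_3_0 | c56_4_0 | c56_5_0
                          · linarith only [c1_0_0, c56_0_0]
                          · rcases c0_11_11_33_k0_k_p13_22B C with c57_0_0 | c57_1_0 | c57_2_0 | c57_3_0 | c57_4_0 | c57_5_0
                            · linarith only [c1_0_0, c57_0_0]
                            · linarith only [C.f11_0, C.f11_1, C.f33_4, C.o0, C.o2, c2_0_0, c45_1_1, c51_4_0, c56_1_0, c57_1_0, e0, s2]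
                            · linarith only [C.f11_0, C.f11_1, C.o0, c1_0_1, c2_0_0, c45_1_1, c51_4_0, c57_2_0, e0]
                            · linarith only [C.f11_0, C.f11_1, C.o0, c0_0_1, c1_0_1, c2_0_0, c45_1_1, c51_4_0, c57_3_0, c5_1_1]
                            · rcases c0_11_11_33_k0_k_p22_33A C with c63_0_0 | c63_1_0 | c63_2_0 | c63_3_0 | c63_4_0
                              · linarith only [C.o0, c0_0_1, c1_0_1, c22_1_1, c2_0_0, c3_0_1, c57_4_0, c63_0_0, e0]
                              · linarith only [c63_1_0, e1]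
                              · linarith only [C.f11_0, C.f11_1, C.f33_3, C.o0, c0_0_1, c1_0_1, c22_1_1, c2_0_0, c3_0_1, c57_4_0, c5_1_1, c63_2_0, s2]
                              · linarith only [C.f11_0, C.f11_1, C.o0, c0_0_1, c1_0_1, c22_1_1, c3_0_1, c57_4_0, c63_3_0, s2]
                              · linarith only [C.f11_0, C.f11_1, C.f11_2, C.f22_6, C.o0, C.o2, c0_0_1, c22_1_1, c3_0_1, c52_1_1, c57_4_0, c63_4_0, s3]
                            · linarith only [C.f11_0, C.f11_1, C.f11_2, C.f22_6, C.f33_7, C.o0, C.o2, c22_1_1, c45_1_1, c4_1_1, c51_4_0, c56_1_0, c57_5_0, s3]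
                          · linarith only [C.f33_4, C.o1, c45_1_1, c51_4_0, c56_2_0, s2]
                          · linarith only [C.f11_0, C.f33_0, c56_3_0, s1]
                          · linarith only [C.f11_0, C.f11_1, C.o0, c1_0_1, c2_0_0, c45_1_1, c51_4_0, c56_4_0]
                          · linarith only [C.f11_2, C.f33_7, C.o1, C.o2, c45_1_1, c51_4_0, c56_5_0, s3]
                      · linarith only [C.f33_7, C.o2, c46_1_1, c51_5_0, s3]
                  · linarith only [C.f13_4, C.f23_5, c0_0_1, c1_0_1, c3_0_1, c45_2_1]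
                · linarith only [C.f13_4, C.f23_1, c0_0_1, c1_0_1, c23_2_1, c3_0_1]
        · rcases c0_11_11_33_k0_k_f13_8 C with ⟨c64_0_0, c64_0_1⟩ | ⟨c64_1_0, c64_1_1⟩
          · linarith only [C.a4, C.f13_7, c2_0_1, c3_1_1, c64_0_1]
          · rcases c0_11_11_33_k0_k_p11_13B C with c65_0_0 | c65_1_0 | c65_2_0 | c65_3_0 | c65_4_0 | c65_5_0
            · linarith only [c65_0_0, e0]
            · linarith only [c1_0_0, c65_1_0]
            · linarith only [C.f11_0, C.f33_1, C.o2, c65_2_0, e0, s1]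
            · rcases c0_11_11_33_k0_k_f22_2 C with ⟨c69_0_0, c69_0_1⟩ | ⟨c69_1_0, c69_1_1⟩
              · rcases c0_11_11_33_k0_k_f22_5 C with ⟨c70_0_0, c70_0_1⟩ | ⟨c70_1_0, c70_1_1⟩
                · linarith only [C.a4, C.f11_0, C.f13_3, C.f22_4, C.f33_0, C.o1, C.o2, c3_1_1, c65_3_0, c69_0_1, c70_0_1, s1]
                · rcases c0_11_11_33_k0_k_p11_22B C with c71_0_0 | c71_1_0 | c71_2_0 | c71_3_0 | c71_4_0
                  · linarith only [c71_0_0, e0]
                  · linarith only [C.f11_0, C.f22_1, C.f33_0, c69_0_1, c71_1_0, e0, s1]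
                  · linarith only [C.f11_0, C.f33_0, c69_0_1, c71_2_0, s1]
                  · rcases c0_11_11_33_k0_k_p13_22A C with c73_0_0 | c73_1_0 | c73_2_0 | c73_3_0 | c73_4_0 | c73_5_0
                    · linarith only [c1_0_0, c73_0_0]
                    · linarith only [C.f11_0, C.f22_1, C.f33_0, C.f33_4, C.o2, c69_0_1, c70_1_1, c71_3_0, c73_1_0, e0, s1, s2]
                    · linarith only [C.f11_0, C.f22_1, C.f33_0, c69_0_1, c73_2_0, e0, s1]
                    · linarith only [C.f11_0, C.f33_0, c0_0_1, c65_3_0, c69_0_1, c73_3_0, s1]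
                    · rcases c0_11_11_33_k0_k_f23_3 C with ⟨c74_0_0, c74_0_1⟩ | ⟨c74_1_0, c74_1_1⟩ | ⟨c74_2_0, c74_2_1⟩
                      · rcases c0_11_11_33_k0_k_f23_7 C with ⟨c75_0_0, c75_0_1⟩ | ⟨c75_1_0, c75_1_1⟩ | ⟨c75_2_0, c75_2_1⟩
                        · linarith only [C.f11_0, C.f23_5, C.f33_0, c0_0_1, c1_0_1, c65_3_0, c74_0_1, c75_0_1, s1]
                        · rcases c0_11_11_33_k0_k_f23_10 C with ⟨c76_0_0, c76_0_1⟩ | ⟨c76_1_0, c76_1_1⟩
                          · linarith only [C.f11_2, C.f23_9, C.f33_7, C.o1, C.o2, c70_1_1, c71_3_0, c75_1_1, c76_0_1, s3]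
                          · rcases c0_11_11_33_k0_k_p11_23B C with c77_0_0 | c77_1_0 | c77_2_0 | c77_3_0 | c77_4_0 | c77_5_0
                            · linarith only [c77_0_0, e0]
                            · linarith only [C.f11_0, C.f22_1, C.f33_0, C.f33_4, C.o2, c3_1_1, c69_0_1, c70_1_1, c71_3_0, c73_4_0, c77_1_0, e0, s1, s2]
                            · linarith only [C.f11_0, C.f22_1, C.f33_0, C.f33_4, C.o2, c69_0_1, c70_1_1, c71_3_0, c77_2_0, e0, s1, s2]
                            · linarith only [C.f11_0, C.f33_0, c74_0_1, c77_3_0, s1]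
                            · linarith only [C.f33_4, C.o2, c3_1_1, c70_1_1, c73_4_0, c75_1_1, c77_4_0, s2]
                            · linarith only [C.f33_7, C.o2, c76_1_1, c77_5_0, s3]
                        · linarith only [C.a4, C.f23_5, C.o2, c75_2_1]
                      · linarith only [C.f22_1, C.f23_0, C.f33_4, C.o2, c3_1_1, c69_0_1, c70_1_1, c71_3_0, c73_4_0, c74_1_1, s2]
                      · linarith only [C.f22_1, C.f23_0, C.f33_4, C.o2, c69_0_1, c70_1_1, c71_3_0, c74_2_1, s2]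
                    · linarith only [C.f11_2, C.f22_6, C.f33_7, C.o2, c64_1_1, c70_1_1, c71_3_0, c73_5_0, s3]
                  · linarith only [C.b5, C.f22_6, C.f33_7, C.o2, c70_1_1, c71_4_0, s3]
              · rcases c0_11_11_33_k0_k_f22_5 C with ⟨c78_0_0, c78_0_1⟩ | ⟨c78_1_0, c78_1_1⟩
                · linarith only [C.f22_4, c1_0_1, c2_0_0, c69_1_1, c78_0_1]
                · rcases c0_11_11_33_k0_k_f23_3 C with ⟨c79_0_0, c79_0_1⟩ | ⟨c79_1_0, c79_1_1⟩ | ⟨c79_2_0, c79_2_1⟩
                  · rcases c0_11_11_33_k0_k_f23_7 C with ⟨c80_0_0, c80_0_1⟩ | ⟨c80_1_0, c80_1_1⟩ | ⟨c80_2_0, c80_2_1⟩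
                    · linarith only [C.a4, C.f11_0, C.f13_3, C.f23_5, C.f33_0, C.o2, c3_1_1, c65_3_0, c79_0_1, c80_0_1, s1]
                    · rcases c0_11_11_33_k0_k_tmpp C with c81_0_0 | c81_1_0 | c81_2_0 | c81_3_0
                      · linarith only [C.f11_0, C.f33_0, c0_0_1, c65_3_0, c81_0_0, s1]
                      · linarith only [C.f11_0, C.f23_1, C.f33_0, c0_0_1, c65_3_0, c79_0_1, c81_1_0, s1]
                      · linarith only [c81_2_0, e0]
                      · rcases c0_11_11_33_k0_k_f23_10 C with ⟨c82_0_0, c82_0_1⟩ | ⟨c82_1_0, c82_1_1⟩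
                        · linarith only [C.f11_0, C.f11_1, C.f11_2, C.f23_9, C.f33_7, C.o1, C.o2, c80_1_1, c81_3_0, c82_0_1, s3]
                        · rcases c0_11_11_33_k0_k_p11_23B C with c84_0_0 | c84_1_0 | c84_2_0 | c84_3_0 | c84_4_0 | c84_5_0
                          · linarith only [c84_0_0, e0]
                          · linarith only [C.f11_0, C.f23_1, C.f33_0, c79_0_1, c84_1_0, e0, s1]
                          · linarith only [C.f11_0, C.f33_1, C.o2, c84_2_0, e0, s1]
                          · linarith only [C.f11_0, C.f33_0, c79_0_1, c84_3_0, s1]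
                          · rcases c0_11_11_33_k0_k_p13_22A C with c88_0_0 | c88_1_0 | c88_2_0 | c88_3_0 | c88_4_0 | c88_5_0
                            · linarith only [c1_0_0, c88_0_0]
                            · linarith only [C.f11_0, C.f23_1, C.f33_0, C.f33_4, C.o1, C.o2, c79_0_1, c80_1_1, c84_4_0, c88_1_0, e0, s1, s2]
                            · linarith only [C.f11_0, C.f11_1, C.f13_3, C.f23_1, C.f33_0, C.f33_4, C.o2, c3_1_1, c65_3_0, c79_0_1, c80_1_1, c84_4_0, c88_2_0, e0, s1, s2]
                            · linarith only [C.f11_0, C.f11_1, C.f13_3, C.f23_1, C.f33_0, C.f33_4, C.o2, c0_0_1, c3_1_1, c65_3_0, c69_1_1, c79_0_1, c80_1_1, c84_4_0, c88_3_0, s1, s2]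
                            · linarith only [C.f33_4, C.o2, c3_1_1, c78_1_1, c80_1_1, c84_4_0, c88_4_0, s2]
                            · linarith only [C.f11_2, C.f22_6, C.f33_7, C.o1, C.o2, c64_1_1, c78_1_1, c80_1_1, c84_4_0, c88_5_0, s3]
                          · linarith only [C.f33_7, C.o2, c82_1_1, c84_5_0, s3]
                    · linarith only [C.a4, C.f23_5, C.o2, c80_2_1]
                  · rcases c0_11_11_33_k0_k_f23_7 C with ⟨c89_0_0, c89_0_1⟩ | ⟨c89_1_0, c89_1_1⟩ | ⟨c89_2_0, c89_2_1⟩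
                    · linarith only [C.a4, C.f13_0, C.f13_3, C.f23_5, C.o2, c2_0_0, c3_1_1, c79_1_1, c89_0_1]
                    · rcases c0_11_11_33_k0_k_f23_10 C with ⟨c90_0_0, c90_0_1⟩ | ⟨c90_1_0, c90_1_1⟩
                      · rcases c0_11_11_33_k0_k_p11_22B C with c93_0_0 | c93_1_0 | c93_2_0 | c93_3_0 | c93_4_0
                        · linarith only [c93_0_0, e0]
                        · linarith only [C.b5, C.f23_9, C.o0, c2_0_0, c89_1_1, c90_0_1, c93_1_0, e0]
                        · linarith only [C.b5, C.f11_0, C.f23_9, C.o0, c2_0_0, c69_1_1, c89_1_1, c90_0_1, c93_2_0]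
                        · linarith only [C.f11_2, C.f23_9, C.f33_7, C.o1, C.o2, c78_1_1, c89_1_1, c90_0_1, c93_3_0, s3]
                        · linarith only [C.b5, C.f22_6, C.f33_7, C.o2, c78_1_1, c93_4_0, s3]
                      · rcases c0_11_11_33_k0_k_p11_23B C with c94_0_0 | c94_1_0 | c94_2_0 | c94_3_0 | c94_4_0 | c94_5_0
                        · linarith only [c94_0_0, e0]
                        · linarith only [C.o0, c2_0_0, c94_1_0, e0]
                        · linarith only [C.f11_0, C.f33_1, C.o2, c94_2_0, e0, s1]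
                        · linarith only [C.f11_0, C.o0, c2_0_0, c79_1_1, c94_3_0]
                        · rcases c0_11_11_33_k0_k_tmzp C with c106_0_0 | c106_1_0 | c106_2_0 | c106_3_0 | c106_4_0 | c106_5_0
                          · linarith only [C.f11_0, C.f33_0, c0_0_1, c106_0_0, c65_3_0, s1]
                          · linarith only [c106_1_0, c2_0_0]
                          · linarith only [C.f33_4, C.o1, c106_2_0, c89_1_1, c94_4_0, s2]
                          · linarith only [c106_3_0, e0]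
                          · linarith only [C.f11_0, C.f11_1, C.f13_3, C.f33_4, C.o2, c106_4_0, c3_1_1, c65_3_0, s2]
                          · linarith only [C.f11_2, C.f33_7, C.o1, C.o2, c106_5_0, c89_1_1, c94_4_0, s3]
                        · linarith only [C.f33_7, C.o2, c90_1_1, c94_5_0, s3]
                    · linarith only [C.a4, C.f23_5, C.o2, c89_2_1]
                  · linarith only [C.a4, C.f23_1, C.o2, c79_2_1]
            · linarith only [C.a4, C.f33_4, C.o1, C.o2, c3_1_1, c65_4_0, s2]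
            · linarith only [C.f33_7, C.o2, c64_1_1, c65_5_0, s3]
      · rcases c0_11_11_33_k0_k_f13_5 C with ⟨c107_0_0, c107_0_1⟩ | ⟨c107_1_0, c107_1_1⟩
        · rcases c0_11_11_33_k0_k_f13_8 C with ⟨c108_0_0, c108_0_1⟩ | ⟨c108_1_0, c108_1_1⟩
          · linarith only [C.f11_0, C.f11_1, C.f11_2, C.f13_7, C.f33_7, C.o0, C.o2, c0_0_1, c107_0_1, c108_0_1, s3]
          · rcases c0_11_11_33_k0_k_f22_2 C with ⟨c109_0_0, c109_0_1⟩ | ⟨c109_1_0, c109_1_1⟩
            · rcases c0_11_11_33_k0_k_f22_5 C with ⟨c110_0_0, c110_0_1⟩ | ⟨c110_1_0, c110_1_1⟩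
              · linarith only [C.a1, C.f22_4, C.o1, c109_0_1, c110_0_1, c1_0_1]
              · rcases c0_11_11_33_k0_k_p11_22B C with c111_0_0 | c111_1_0 | c111_2_0 | c111_3_0 | c111_4_0
                · linarith only [c111_0_0, e0]
                · linarith only [C.f11_0, C.f22_1, C.f33_0, c109_0_1, c111_1_0, e0, s1]
                · linarith only [C.f11_0, C.f33_0, c109_0_1, c111_2_0, s1]
                · rcases c0_11_11_33_k0_k_f33_2 C with ⟨c112_0_0, c112_0_1⟩ | ⟨c112_1_0, c112_1_1⟩
                  · rcases c0_11_11_33_k0_k_f33_8 C with ⟨c113_0_0, c113_0_1⟩ | ⟨c113_1_0, c113_1_1⟩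
                    · linarith only [C.f11_2, C.f33_7, C.o2, c110_1_1, c111_3_0, c113_0_1, s2, s3]
                    · rcases c0_11_11_33_k0_k_p22_33A C with c116_0_0 | c116_1_0 | c116_2_0 | c116_3_0 | c116_4_0
                      · linarith only [C.f11_0, C.f22_1, C.f33_0, c109_0_1, c116_0_0, e0, s1]
                      · linarith only [c116_1_0, e1]
                      · linarith only [C.a1, c109_0_1, c112_0_1, c116_2_0]
                      · rcases c0_11_11_33_k0_k_p11_13B C with c117_0_0 | c117_1_0 | c117_2_0 | c117_3_0 | c117_4_0 | c117_5_0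
                        · linarith only [c117_0_0, e0]
                        · linarith only [c117_1_0, c1_0_0]
                        · linarith only [C.o2, c117_2_0, e1]
                        · rcases c0_11_11_33_k0_k_f33_5 C with ⟨c118_0_0, c118_0_1⟩ | ⟨c118_1_0, c118_1_1⟩
                          · linarith only [C.f11_0, C.f11_1, c0_0_1, c110_1_1, c111_3_0, c116_3_0, c117_3_0, c118_0_1, c1_0_1, s1]
                          · rcases c0_11_11_33_k0_k_p13_22A C with c119_0_0 | c119_1_0 | c119_2_0 | c119_3_0 | c119_4_0 | c119_5_0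
                            · linarith only [c119_0_0, c1_0_0]
                            · linarith only [C.f11_0, C.f11_1, C.f13_4, C.f22_1, C.f33_0, C.f33_4, C.o0, C.o2, c0_0_1, c107_0_1, c109_0_1, c119_1_0, e0, s1, s2]
                            · linarith only [C.f11_0, C.f22_1, C.f33_0, c109_0_1, c119_2_0, e0, s1]
                            · linarith only [C.f11_0, C.f33_0, c0_0_1, c109_0_1, c117_3_0, c119_3_0, s1]
                            · rcases c0_11_11_33_k0_k_f23_3 C with ⟨c120_0_0, c120_0_1⟩ | ⟨c120_1_0, c120_1_1⟩ | ⟨c120_2_0, c120_2_1⟩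
                              · rcases c0_11_11_33_k0_k_f23_7 C with ⟨c121_0_0, c121_0_1⟩ | ⟨c121_1_0, c121_1_1⟩ | ⟨c121_2_0, c121_2_1⟩
                                · linarith only [C.a1, C.f23_5, c120_0_1, c121_0_1, c1_0_1]
                                · rcases c0_11_11_33_k0_k_f23_10 C with ⟨c122_0_0, c122_0_1⟩ | ⟨c122_1_0, c122_1_1⟩
                                  · linarith only [C.f11_2, C.f23_9, C.f33_7, C.o1, C.o2, c110_1_1, c111_3_0, c121_1_1, c122_0_1, s3]
                                  · rcases c0_11_11_33_k0_k_p11_23B C with c123_0_0 | c123_1_0 | c123_2_0 | c123_3_0 | c123_4_0 | c123_5_0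
                                    · linarith only [c123_0_0, e0]
                                    · linarith only [C.f11_0, C.f22_1, C.f33_0, c109_0_1, c110_1_1, c116_3_0, c118_1_1, c123_1_0, e0, e1, s1]
                                    · linarith only [C.o2, c123_2_0, e1]
                                    · linarith only [C.f11_0, C.f33_0, c120_0_1, c123_3_0, s1]
                                    · rcases c0_11_11_33_k0_k_p13_22B C with c125_0_0 | c125_1_0 | c125_2_0 | c125_3_0 | c125_4_0 | c125_5_0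
                                      · linarith only [c125_0_0, c1_0_0]
                                      · linarith only [C.o2, c125_1_0, e1]
                                      · linarith only [C.f11_0, C.f22_1, C.f33_0, c109_0_1, c125_2_0, e0, s1]
                                      · linarith only [C.f11_0, C.f33_0, C.o0, c0_0_1, c109_0_1, c125_3_0, s1]
                                      · linarith only [C.f11_0, C.f11_1, C.o0, c0_0_1, c107_0_1, c110_1_1, c116_3_0, c125_4_0, c1_0_1, s2]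
                                      · linarith only [C.f11_0, C.f11_1, C.f11_2, C.f22_6, C.f33_7, C.o0, C.o2, c0_0_1, c107_0_1, c108_1_1, c110_1_1, c119_4_0, c121_1_1, c123_4_0, c125_5_0, s3]
                                    · linarith only [C.f33_7, C.o2, c122_1_1, c123_5_0, s3]
                                · linarith only [C.f13_4, C.f23_5, c0_0_1, c107_0_1, c121_2_1, c1_0_1]
                              · linarith only [C.f11_0, C.f11_1, C.f22_1, C.f23_0, C.o0, c0_0_1, c107_0_1, c109_0_1, c110_1_1, c116_3_0, c119_4_0, c120_1_1, s2]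
                              · linarith only [C.f11_0, C.f11_1, C.f13_4, C.f22_1, C.f23_0, C.f33_4, C.o0, C.o2, c0_0_1, c107_0_1, c109_0_1, c120_2_1, s2]
                            · linarith only [C.f11_2, C.f22_6, C.f33_7, C.o2, c108_1_1, c110_1_1, c111_3_0, c119_5_0, s3]
                        · linarith only [c0_0_1, c107_0_1, c110_1_1, c116_3_0, c117_4_0, c1_0_1, s2]
                        · linarith only [C.f33_7, C.o2, c108_1_1, c117_5_0, s3]
                      · linarith only [C.f11_2, C.f22_6, C.o2, c110_1_1, c111_3_0, c113_1_1, c116_4_0, s3]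
                  · linarith only [C.f22_1, C.f33_0, C.f33_4, c109_0_1, c110_1_1, c111_3_0, c112_1_1, s2]
                · linarith only [C.f22_6, C.f33_7, C.o2, c110_1_1, c111_4_0, c2_1_1, s3]
            · rcases c0_11_11_33_k0_k_f22_5 C with ⟨c126_0_0, c126_0_1⟩ | ⟨c126_1_0, c126_1_1⟩
              · linarith only [C.a2, C.f22_4, c109_1_1, c126_0_1, c1_0_1]
              · rcases c0_11_11_33_k0_k_f23_3 C with ⟨c127_0_0, c127_0_1⟩ | ⟨c127_1_0, c127_1_1⟩ | ⟨c127_2_0, c127_2_1⟩
                · rcases c0_11_11_33_k0_k_f23_7 C with ⟨c128_0_0, c128_0_1⟩ | ⟨c128_1_0, c128_1_1⟩ | ⟨c128_2_0, c128_2_1⟩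
                  · linarith only [C.a1, C.f23_5, c127_0_1, c128_0_1, c1_0_1]
                  · rcases c0_11_11_33_k0_k_f23_10 C with ⟨c129_0_0, c129_0_1⟩ | ⟨c129_1_0, c129_1_1⟩
                    · linarith only [C.f23_9, C.o1, c128_1_1, c129_0_1, c2_1_1]
                    · rcases c0_11_11_33_k0_k_p11_23B C with c130_0_0 | c130_1_0 | c130_2_0 | c130_3_0 | c130_4_0 | c130_5_0
                      · linarith only [c130_0_0, e0]
                      · linarith only [C.f11_0, C.f23_1, C.f33_0, c127_0_1, c130_1_0, e0, s1]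
                      · linarith only [C.a4, C.f11_0, C.f23_1, C.f33_0, C.o2, c127_0_1, c130_2_0, e0, s1]
                      · linarith only [C.f11_0, C.f33_0, c127_0_1, c130_3_0, s1]
                      · rcases c0_11_11_33_k0_k_f33_2 C with ⟨c131_0_0, c131_0_1⟩ | ⟨c131_1_0, c131_1_1⟩
                        · rcases c0_11_11_33_k0_k_f33_8 C with ⟨c132_0_0, c132_0_1⟩ | ⟨c132_1_0, c132_1_1⟩
                          · linarith only [C.f11_2, C.f33_7, C.o1, C.o2, c128_1_1, c130_4_0, c132_0_1, s2, s3]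
                          · rcases c0_11_11_33_k0_k_tpmz C with c136_0_0 | c136_1_0 | c136_2_0 | c136_3_0 | c136_4_0 | c136_5_0
                            · linarith only [c136_0_0, c1_0_0]
                            · rcases c0_11_11_33_k0_k_p13_22B C with c137_0_0 | c137_1_0 | c137_2_0 | c137_3_0 | c137_4_0 | c137_5_0
                              · linarith only [c137_0_0, c1_0_0]
                              · linarith only [C.o2, c137_1_0, e1]
                              · linarith only [C.a1, C.f11_0, C.f11_1, C.f23_1, C.f33_0, c127_0_1, c128_1_1, c130_4_0, c137_2_0, c1_0_1, e0, s1]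
                              · linarith only [C.f11_0, C.f11_1, C.f23_1, C.f33_0, C.o0, c0_0_1, c109_1_1, c127_0_1, c128_1_1, c130_4_0, c137_3_0, c1_0_1, s1]
                              · rcases c0_11_11_33_k0_k_p22_33A C with c144_0_0 | c144_1_0 | c144_2_0 | c144_3_0 | c144_4_0
                                · linarith only [C.f11_0, C.f23_1, C.f33_0, c0_0_1, c107_0_1, c126_1_1, c127_0_1, c137_4_0, c144_0_0, c1_0_1, e0, s1]
                                · linarith only [c144_1_0, e1]
                                · linarith only [C.a1, C.f23_1, c0_0_1, c107_0_1, c109_1_1, c126_1_1, c127_0_1, c131_0_1, c137_4_0, c144_2_0, c1_0_1]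
                                · linarith only [C.f11_0, C.f11_1, C.o0, c0_0_1, c107_0_1, c126_1_1, c137_4_0, c144_3_0, c1_0_1, s2]
                                · linarith only [C.f11_0, C.f11_1, C.f11_2, C.f22_6, C.o0, C.o2, c0_0_1, c107_0_1, c126_1_1, c132_1_1, c137_4_0, c144_4_0, s3]
                              · linarith only [C.f11_0, C.f11_1, C.f11_2, C.f22_6, C.f33_7, C.o0, C.o2, c108_1_1, c126_1_1, c128_1_1, c130_4_0, c136_1_0, c137_5_0, s3]
                            · linarith only [C.f33_4, C.o1, c128_1_1, c130_4_0, c136_2_0, s2]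
                            · linarith only [C.f11_0, C.f33_0, c136_3_0, s1]
                            · linarith only [C.a1, C.f11_0, C.f11_1, C.f23_1, C.f33_0, c127_0_1, c128_1_1, c130_4_0, c136_4_0, c1_0_1, s1]
                            · linarith only [c136_5_0, c2_1_1]
                        · linarith only [C.f23_1, C.f33_0, C.f33_4, C.o1, c127_0_1, c128_1_1, c130_4_0, c131_1_1, s2]
                      · linarith only [C.f33_7, C.o2, c129_1_1, c130_5_0, s3]
                  · linarith only [C.f13_4, C.f23_5, c0_0_1, c107_0_1, c128_2_1, c1_0_1]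
                · rcases c0_11_11_33_k0_k_f23_7 C with ⟨c145_0_0, c145_0_1⟩ | ⟨c145_1_0, c145_1_1⟩ | ⟨c145_2_0, c145_2_1⟩
                  · linarith only [C.a2, C.f23_5, c127_1_1, c145_0_1, c1_0_1]
                  · rcases c0_11_11_33_k0_k_f23_10 C with ⟨c146_0_0, c146_0_1⟩ | ⟨c146_1_0, c146_1_1⟩
                    · linarith only [C.f23_9, C.o1, c145_1_1, c146_0_1, c2_1_1]
                    · rcases c0_11_11_33_k0_k_f33_2 C with ⟨c147_0_0, c147_0_1⟩ | ⟨c147_1_0, c147_1_1⟩
                      · rcases c0_11_11_33_k0_k_f33_5 C with ⟨c148_0_0, c148_0_1⟩ | ⟨c148_1_0, c148_1_1⟩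
                        · rcases c0_11_11_33_k0_k_f33_8 C with ⟨c149_0_0, c149_0_1⟩ | ⟨c149_1_0, c149_1_1⟩
                          · linarith only [C.f11_0, C.f11_1, C.f11_2, C.f33_7, C.o2, c148_0_1, c149_0_1, s1, s3]
                          · rcases c0_11_11_33_k0_k_p11_33B C with c150_0_0 | c150_1_0 | c150_2_0 | c150_3_0 | c150_4_0
                            · linarith only [c150_0_0, e0]
                            · linarith only [c150_1_0, e1]
                            · linarith only [C.f11_0, c150_2_0, s1]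
                            · linarith only [C.f11_0, C.f11_1, c148_0_1, c150_3_0, s1, s2]
                            · rcases c0_11_11_33_k0_k_tzmp C with c154_0_0 | c154_1_0 | c154_2_0 | c154_3_0
                              · linarith only [c154_0_0, c1_0_1]
                              · linarith only [C.a1, C.f33_4, c147_0_1, c148_0_1, c154_1_0, c1_0_1]
                              · linarith only [c154_2_0, c2_1_0]
                              · rcases c0_11_11_33_k0_k_p11_13B C with c155_0_0 | c155_1_0 | c155_2_0 | c155_3_0 | c155_4_0 | c155_5_0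
                                · linarith only [c155_0_0, e0]
                                · linarith only [c155_1_0, c1_0_0]
                                · linarith only [C.a1, C.f11_0, C.f11_1, C.f11_2, C.f33_4, C.f33_7, C.o2, c147_0_1, c148_0_1, c154_3_0, c155_2_0, c1_0_0, c2_1_0, s3]
                                · rcases c0_11_11_33_k0_k_p13_33A C with c159_0_0 | c159_1_0 | c159_2_0 | c159_3_0 | c159_4_0 | c159_5_0
                                  · linarith only [c159_0_0, c1_0_0]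
                                  · linarith only [C.f11_0, C.f11_1, C.f11_2, C.f33_4, C.f33_7, C.o2, c148_0_1, c154_3_0, c159_1_0, c2_1_0, e0, s1, s3]
                                  · linarith only [c159_2_0, e1]
                                  · linarith only [C.f11_0, c0_0_1, c155_3_0, c159_3_0, s1]
                                  · linarith only [C.f11_0, c0_0_1, c107_0_1, c148_0_1, c155_3_0, c159_4_0, c1_0_1, s1]
                                  · rcases c0_11_11_33_k0_k_p22_33A C with c160_0_0 | c160_1_0 | c160_2_0 | c160_3_0 | c160_4_0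
                                    · linarith only [c160_0_0, c2_1_0, e0]
                                    · linarith only [c160_1_0, e1]
                                    · linarith only [c0_0_1, c109_1_1, c155_3_0, c160_2_0, c2_1_0, s1]
                                    · linarith only [C.f11_0, C.f11_1, C.f11_2, c0_0_1, c108_1_1, c126_1_1, c148_0_1, c149_1_1, c150_4_0, c155_3_0, c159_5_0, c160_3_0, c1_0_1, c2_1_1, s1]
                                    · linarith only [C.f22_6, C.o2, c126_1_1, c149_1_1, c160_4_0, c2_1_1]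
                                · linarith only [C.f11_0, C.f11_1, C.f11_2, C.f33_7, C.o0, C.o2, c0_0_1, c107_0_1, c154_3_0, c155_4_0, s3]
                                · linarith only [C.f33_7, C.o2, c108_1_1, c155_5_0, s3]
                        · rcases c0_11_11_33_k0_k_f33_8 C with ⟨c161_0_0, c161_0_1⟩ | ⟨c161_1_0, c161_1_1⟩
                          · linarith only [C.f13_4, C.f33_7, C.o1, c0_0_1, c107_0_1, c148_1_1, c161_0_1, c1_0_1, c2_1_1]
                          · rcases c0_11_11_33_k0_k_p11_13B C with c165_0_0 | c165_1_0 | c165_2_0 | c165_3_0 | c165_4_0 | c165_5_0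
                            · linarith only [c165_0_0, e0]
                            · linarith only [c165_1_0, c1_0_0]
                            · linarith only [C.f11_0, C.f33_1, C.o2, c165_2_0, e0, s1]
                            · rcases c0_11_11_33_k0_k_p22_33A C with c166_0_0 | c166_1_0 | c166_2_0 | c166_3_0 | c166_4_0
                              · linarith only [c166_0_0, c2_1_0, e0]
                              · linarith only [c166_1_0, e1]
                              · linarith only [c0_0_1, c109_1_1, c165_3_0, c166_2_0, c2_1_0, s1]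
                              · rcases c0_11_11_33_k0_k_p11_23B C with c167_0_0 | c167_1_0 | c167_2_0 | c167_3_0 | c167_4_0 | c167_5_0
                                · linarith only [c167_0_0, e0]
                                · linarith only [C.f11_0, C.f33_1, c126_1_1, c148_1_1, c166_3_0, c167_1_0, c2_1_0, e0, s1]
                                · linarith only [C.f11_0, C.f33_1, C.o2, c167_2_0, e0, s1]
                                · linarith only [C.f33_1, c126_1_1, c127_1_1, c148_1_1, c166_3_0, c167_3_0, c2_1_0, s1]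
                                · rcases c0_11_11_33_k0_k_p13_22B C with c169_0_0 | c169_1_0 | c169_2_0 | c169_3_0 | c169_4_0 | c169_5_0
                                  · linarith only [c169_0_0, c1_0_0]
                                  · linarith only [C.f11_0, C.f33_1, C.o2, c169_1_0, e0, s1]
                                  · linarith only [C.a2, C.f11_0, C.f11_1, C.o0, c145_1_1, c167_4_0, c169_2_0, c1_0_1, e0]
                                  · linarith only [C.f11_0, C.f11_1, C.f33_1, c0_0_1, c109_1_1, c126_1_1, c145_1_1, c148_1_1, c166_3_0, c167_4_0, c169_3_0, c1_0_1, s1]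
                                  · linarith only [C.f11_0, C.f11_1, C.o0, c0_0_1, c107_0_1, c126_1_1, c166_3_0, c169_4_0, c1_0_1, s2]
                                  · rcases c0_11_11_33_k0_k_tmzp C with c176_0_0 | c176_1_0 | c176_2_0 | c176_3_0 | c176_4_0 | c176_5_0
                                    · linarith only [C.f11_0, C.f11_1, C.f11_2, C.f13_4, C.f22_6, C.f33_0, C.f33_7, C.o2, c0_0_1, c107_0_1, c108_1_1, c126_1_1, c145_1_1, c148_1_1, c166_3_0, c167_4_0, c169_5_0, c176_0_0, s1, s3]
                                    · linarith only [C.f11_0, C.f11_1, C.f11_2, C.f13_4, C.f22_6, C.f33_1, C.f33_7, C.o2, c0_0_1, c107_0_1, c108_1_1, c126_1_1, c145_1_1, c148_1_1, c166_3_0, c167_4_0, c169_5_0, c176_1_0, s1, s3]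
                                    · linarith only [C.f11_0, C.f11_1, C.f11_2, C.f13_4, C.f22_6, C.f33_7, C.o0, c0_0_1, c107_0_1, c108_1_1, c126_1_1, c145_1_1, c167_4_0, c169_5_0, c176_2_0, s3]
                                    · linarith only [c176_3_0, e0]
                                    · linarith only [C.f11_0, C.f11_1, C.f11_2, C.f22_6, C.f33_7, C.o2, c108_1_1, c126_1_1, c169_5_0, c176_4_0, s3]
                                    · linarith only [c176_5_0, c2_1_1]
                                · linarith only [C.f33_7, C.o2, c146_1_1, c167_5_0, s3]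
                              · linarith only [C.f22_6, C.o2, c126_1_1, c161_1_1, c166_4_0, c2_1_1]
                            · rcases c0_11_11_33_k0_k_p22_33A C with c181_0_0 | c181_1_0 | c181_2_0 | c181_3_0 | c181_4_0
                              · linarith only [C.a2, C.f11_0, C.f11_1, C.o0, c0_0_1, c107_0_1, c165_4_0, c181_0_0, c1_0_1, e0]
                              · linarith only [c181_1_0, e1]
                              · linarith only [C.a2, C.f33_3, c0_0_1, c107_0_1, c109_1_1, c165_4_0, c181_2_0, c1_0_1, s2]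
                              · linarith only [c0_0_1, c107_0_1, c126_1_1, c165_4_0, c181_3_0, c1_0_1, s2]
                              · linarith only [C.f11_0, C.f11_1, C.f11_2, C.f22_6, C.o0, C.o2, c0_0_1, c107_0_1, c126_1_1, c161_1_1, c165_4_0, c181_4_0, s3]
                            · linarith only [C.f33_7, C.o2, c108_1_1, c165_5_0, s3]
                      · rcases c0_11_11_33_k0_k_f33_5 C with ⟨c182_0_0, c182_0_1⟩ | ⟨c182_1_0, c182_1_1⟩
                        · linarith only [C.a2, C.f33_4, c147_1_1, c182_0_1, c1_0_1]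
                        · rcases c0_11_11_33_k0_k_f33_8 C with ⟨c183_0_0, c183_0_1⟩ | ⟨c183_1_0, c183_1_1⟩
                          · linarith only [C.f11_0, C.f11_1, C.f11_2, C.f13_4, C.f33_7, C.o0, C.o2, c0_0_1, c107_0_1, c182_1_1, c183_0_1, s3]
                          · rcases c0_11_11_33_k0_k_p11_13B C with c187_0_0 | c187_1_0 | c187_2_0 | c187_3_0 | c187_4_0 | c187_5_0
                            · linarith only [c187_0_0, e0]
                            · linarith only [c187_1_0, c1_0_0]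
                            · linarith only [C.f11_0, C.f33_1, C.o2, c187_2_0, e0, s1]
                            · rcases c0_11_11_33_k0_k_p22_33A C with c188_0_0 | c188_1_0 | c188_2_0 | c188_3_0 | c188_4_0
                              · linarith only [c188_0_0, c2_1_0, e0]
                              · linarith only [c188_1_0, e1]
                              · linarith only [c0_0_1, c109_1_1, c187_3_0, c188_2_0, c2_1_0, s1]
                              · rcases c0_11_11_33_k0_k_p11_23B C with c189_0_0 | c189_1_0 | c189_2_0 | c189_3_0 | c189_4_0 | c189_5_0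
                                · linarith only [c189_0_0, e0]
                                · linarith only [C.f11_0, C.f33_1, c126_1_1, c182_1_1, c188_3_0, c189_1_0, c2_1_0, e0, s1]
                                · linarith only [C.f11_0, C.f33_1, C.o2, c189_2_0, e0, s1]
                                · linarith only [C.f33_1, c126_1_1, c127_1_1, c182_1_1, c188_3_0, c189_3_0, c2_1_0, s1]
                                · rcases c0_11_11_33_k0_k_p13_22B C with c191_0_0 | c191_1_0 | c191_2_0 | c191_3_0 | c191_4_0 | c191_5_0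
                                  · linarith only [c191_0_0, c1_0_0]
                                  · linarith only [C.f11_0, C.f33_1, C.o2, c191_1_0, e0, s1]
                                  · linarith only [C.a2, C.f11_0, C.f11_1, C.o0, c145_1_1, c189_4_0, c191_2_0, c1_0_1, e0]
                                  · linarith only [C.f11_0, C.f11_1, C.f33_1, c0_0_1, c109_1_1, c126_1_1, c145_1_1, c182_1_1, c188_3_0, c189_4_0, c191_3_0, c1_0_1, s1]
                                  · linarith only [C.f11_0, C.f11_1, C.o0, c0_0_1, c107_0_1, c126_1_1, c188_3_0, c191_4_0, c1_0_1, s2]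
                                  · rcases c0_11_11_33_k0_k_tmzp C with c198_0_0 | c198_1_0 | c198_2_0 | c198_3_0 | c198_4_0 | c198_5_0
                                    · linarith only [C.f11_0, C.f11_1, C.f11_2, C.f13_4, C.f22_6, C.f33_0, C.f33_7, C.o2, c0_0_1, c107_0_1, c108_1_1, c126_1_1, c145_1_1, c182_1_1, c188_3_0, c189_4_0, c191_5_0, c198_0_0, s1, s3]
                                    · linarith only [C.f11_0, C.f11_1, C.f11_2, C.f13_4, C.f22_6, C.f33_1, C.f33_7, C.o2, c0_0_1, c107_0_1, c108_1_1, c126_1_1, c145_1_1, c182_1_1, c188_3_0, c189_4_0, c191_5_0, c198_1_0, s1, s3]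
                                    · linarith only [C.f11_0, C.f11_1, C.f11_2, C.f13_4, C.f22_6, C.f33_7, C.o0, c0_0_1, c107_0_1, c108_1_1, c126_1_1, c145_1_1, c189_4_0, c191_5_0, c198_2_0, s3]
                                    · linarith only [c198_3_0, e0]
                                    · linarith only [C.f11_0, C.f11_1, C.f11_2, C.f22_6, C.f33_7, C.o2, c108_1_1, c126_1_1, c191_5_0, c198_4_0, s3]
                                    · linarith only [c198_5_0, c2_1_1]
                                · linarith only [C.f33_7, C.o2, c146_1_1, c189_5_0, s3]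
                              · linarith only [C.f22_6, C.o2, c126_1_1, c183_1_1, c188_4_0, c2_1_1]
                            · rcases c0_11_11_33_k0_k_p11_33A C with c199_0_0 | c199_1_0 | c199_2_0 | c199_3_0 | c199_4_0
                              · linarith only [c199_0_0, e0]
                              · linarith only [c199_1_0, e1]
                              · linarith only [C.a2, C.b3, C.f11_0, C.f33_4, c0_0_1, c107_0_1, c147_1_1, c187_4_0, c199_2_0, c1_0_1, s2]
                              · linarith only [C.b3, C.f11_0, C.f11_1, c0_0_1, c107_0_1, c187_4_0, c199_3_0, c1_0_1, s2]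
                              · linarith only [C.o2, c183_1_1, c199_4_0, s3]
                            · linarith only [C.f33_7, C.o2, c108_1_1, c187_5_0, s3]
                  · linarith only [C.f13_4, C.f23_5, c0_0_1, c107_0_1, c145_2_1, c1_0_1]
                · linarith only [C.f13_4, C.f23_1, c0_0_1, c107_0_1, c127_2_1, c1_0_1]
        · rcases c0_11_11_33_k0_k_f13_8 C with ⟨c200_0_0, c200_0_1⟩ | ⟨c200_1_0, c200_1_1⟩
          · linarith only [C.a4, C.f13_7, C.o1, C.o2, c107_1_1, c200_0_1, c2_1_1]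
          · rcases c0_11_11_33_k0_k_p11_13B C with c201_0_0 | c201_1_0 | c201_2_0 | c201_3_0 | c201_4_0 | c201_5_0
            · linarith only [c201_0_0, e0]
            · linarith only [c1_0_0, c201_1_0]
            · linarith only [C.o2, c201_2_0, e1]
            · rcases c0_11_11_33_k0_k_f33_5 C with ⟨c202_0_0, c202_0_1⟩ | ⟨c202_1_0, c202_1_1⟩
              · linarith only [C.f11_0, C.f13_3, C.f33_4, C.o2, c107_1_1, c201_3_0, c202_0_1, s1]
              · rcases c0_11_11_33_k0_k_f33_8 C with ⟨c203_0_0, c203_0_1⟩ | ⟨c203_1_0, c203_1_1⟩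
                · linarith only [C.a4, C.f33_7, C.o1, C.o2, c202_1_1, c203_0_1, c2_1_1]
                · rcases c0_11_11_33_k0_k_p11_33B C with c204_0_0 | c204_1_0 | c204_2_0 | c204_3_0 | c204_4_0
                  · linarith only [c204_0_0, e0]
                  · linarith only [c204_1_0, e1]
                  · linarith only [C.f11_0, c204_2_0, s1]
                  · linarith only [C.a4, C.o1, c202_1_1, c204_3_0, s2]
                  · rcases c0_11_11_33_k0_k_tmzp C with c206_0_0 | c206_1_0 | c206_2_0 | c206_3_0 | c206_4_0 | c206_5_0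
                    · linarith only [C.f11_0, C.f33_0, c0_0_1, c201_3_0, c206_0_0, s1]
                    · linarith only [C.f11_0, C.f11_1, C.f11_2, C.f13_3, C.f33_1, C.o1, c0_0_1, c107_1_1, c201_3_0, c203_1_1, c204_4_0, c206_1_0, c2_1_1, s1]
                    · rcases c0_11_11_33_k0_k_tzpm C with c208_0_0 | c208_1_0 | c208_2_0 | c208_3_0 | ⟨c208_4_0, c208_4_1⟩
                      · linarith only [C.f11_0, C.f33_1, c0_0_1, c201_3_0, c206_2_0, c208_0_0, s1]
                      · linarith only [C.o1, C.o2, c208_1_0, c2_1_1]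
                      · linarith only [C.f11_0, C.f11_1, C.f13_3, C.f33_4, C.o2, c107_1_1, c201_3_0, c208_2_0, s2]
                      · linarith only [C.a4, C.f11_2, C.f33_4, C.o1, c203_1_1, c204_4_0, c208_3_0, c2_1_1, s2]
                      · rcases c0_11_11_33_k0_k_f23_3 C with ⟨c222_0_0, c222_0_1⟩ | ⟨c222_1_0, c222_1_1⟩ | ⟨c222_2_0, c222_2_1⟩
                        · rcases c0_11_11_33_k0_k_f23_7 C with ⟨c223_0_0, c223_0_1⟩ | ⟨c223_1_0, c223_1_1⟩ | ⟨c223_2_0, c223_2_1⟩
                          · linarith only [C.a4, C.f11_0, C.f13_3, C.f23_5, C.f33_0, C.o2, c107_1_1, c201_3_0, c222_0_1, c223_0_1, s1]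
                          · rcases c0_11_11_33_k0_k_f23_10 C with ⟨c224_0_0, c224_0_1⟩ | ⟨c224_1_0, c224_1_1⟩
                            · linarith only [C.f23_9, c208_4_0, c223_1_1, c224_0_1, c2_1_1]
                            · rcases c0_11_11_33_k0_k_p11_23B C with c225_0_0 | c225_1_0 | c225_2_0 | c225_3_0 | c225_4_0 | c225_5_0
                              · linarith only [c225_0_0, e0]
                              · linarith only [C.f11_0, C.f33_1, c206_2_0, c225_1_0, e0, s1]
                              · linarith only [C.f11_0, C.f33_1, C.o2, c225_2_0, e0, s1]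
                              · linarith only [C.f11_0, C.f33_0, c222_0_1, c225_3_0, s1]
                              · linarith only [C.a4, C.f11_0, C.f11_1, C.f13_3, C.o2, c107_1_1, c201_3_0, c208_4_0, c223_1_1, c225_4_0]
                              · linarith only [C.a4, C.f11_0, C.f11_1, C.f11_2, C.f13_3, C.o2, c107_1_1, c201_3_0, c208_4_0, c224_1_1, c225_5_0, c2_1_1]
                          · linarith only [C.a4, C.f23_5, C.o2, c223_2_1]
                        · rcases c0_11_11_33_k0_k_f23_7 C with ⟨c226_0_0, c226_0_1⟩ | ⟨c226_1_0, c226_1_1⟩ | ⟨c226_2_0, c226_2_1⟩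
                          · linarith only [C.f11_0, C.f13_3, C.f23_5, C.f33_1, C.o2, c107_1_1, c201_3_0, c222_1_1, c226_0_1, s1]
                          · rcases c0_11_11_33_k0_k_f23_10 C with ⟨c227_0_0, c227_0_1⟩ | ⟨c227_1_0, c227_1_1⟩
                            · linarith only [C.f23_9, c208_4_0, c226_1_1, c227_0_1, c2_1_1]
                            · rcases c0_11_11_33_k0_k_p11_23B C with c228_0_0 | c228_1_0 | c228_2_0 | c228_3_0 | c228_4_0 | c228_5_0
                              · linarith only [c228_0_0, e0]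
                              · linarith only [C.f11_0, C.f33_1, c206_2_0, c228_1_0, e0, s1]
                              · linarith only [C.f11_0, C.f33_1, C.o2, c228_2_0, e0, s1]
                              · linarith only [C.f11_0, C.f33_1, c206_2_0, c222_1_1, c228_3_0, s1]
                              · linarith only [C.a4, C.f11_0, C.f11_1, C.f13_3, C.o2, c107_1_1, c201_3_0, c208_4_0, c226_1_1, c228_4_0]
                              · linarith only [C.a4, C.f11_0, C.f11_1, C.f11_2, C.f13_3, C.o2, c107_1_1, c201_3_0, c208_4_0, c227_1_1, c228_5_0, c2_1_1]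
                          · linarith only [C.a4, C.f23_5, C.o2, c226_2_1]
                        · linarith only [C.a4, C.f23_1, C.o2, c222_2_1]
                    · linarith only [c206_3_0, e0]
                    · linarith only [C.f11_0, C.f11_1, C.f13_3, C.f33_4, C.o2, c107_1_1, c201_3_0, c206_4_0, s2]
                    · linarith only [c206_5_0, c2_1_1]
            · linarith only [C.a4, C.f33_4, C.o1, C.o2, c107_1_1, c201_4_0, s2]
            · linarith only [C.f33_7, C.o2, c200_1_1, c201_5_0, s3]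
    · rcases c0_11_11_33_k0_k_t23 C with ⟨c229_0_0, c229_0_1⟩ | ⟨c229_1_0, c229_1_1⟩
      · rcases c0_11_11_33_k0_k_f13_5 C with ⟨c230_0_0, c230_0_1⟩ | ⟨c230_1_0, c230_1_1⟩
        · rcases c0_11_11_33_k0_k_f13_8 C with ⟨c231_0_0, c231_0_1⟩ | ⟨c231_1_0, c231_1_1⟩
          · linarith only [C.f11_0, C.f11_1, C.f11_2, C.f13_7, C.f33_7, C.o0, C.o2, c0_0_1, c230_0_1, c231_0_1, s3]
          · rcases c0_11_11_33_k0_k_p11_13B C with c232_0_0 | c232_1_0 | c232_2_0 | c232_3_0 | c232_4_0 | c232_5_0
            · linarith only [c232_0_0, e0]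
            · linarith only [C.o0, c232_1_0, e0]
            · linarith only [C.f11_0, C.f33_1, C.o2, c232_2_0, e0, s1]
            · rcases c0_11_11_33_k0_k_f22_2 C with ⟨c233_0_0, c233_0_1⟩ | ⟨c233_1_0, c233_1_1⟩
              · rcases c0_11_11_33_k0_k_f22_5 C with ⟨c234_0_0, c234_0_1⟩ | ⟨c234_1_0, c234_1_1⟩
                · linarith only [C.f11_0, C.f22_4, C.f33_0, c1_1_1, c233_0_1, c234_0_1, s1]
                · rcases c0_11_11_33_k0_k_p11_22B C with c235_0_0 | c235_1_0 | c235_2_0 | c235_3_0 | c235_4_0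
                  · linarith only [c235_0_0, e0]
                  · linarith only [C.f11_0, C.f22_1, C.f33_0, c233_0_1, c235_1_0, e0, s1]
                  · linarith only [C.f11_0, C.f33_0, c233_0_1, c235_2_0, s1]
                  · rcases c0_11_11_33_k0_k_p13_22A C with c239_0_0 | c239_1_0 | c239_2_0 | c239_3_0 | c239_4_0 | c239_5_0
                    · linarith only [C.o0, c239_0_0, e0]
                    · linarith only [C.f11_0, C.f11_1, C.f13_4, C.f22_1, C.f33_0, C.f33_4, C.o0, C.o2, c0_0_1, c230_0_1, c233_0_1, c239_1_0, e0, s1, s2]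
                    · linarith only [C.f11_0, C.f22_1, C.f33_0, c233_0_1, c239_2_0, e0, s1]
                    · linarith only [C.f11_0, C.f33_0, c0_0_1, c232_3_0, c233_0_1, c239_3_0, s1]
                    · rcases c0_11_11_33_k0_k_f23_3 C with ⟨c240_0_0, c240_0_1⟩ | ⟨c240_1_0, c240_1_1⟩ | ⟨c240_2_0, c240_2_1⟩
                      · rcases c0_11_11_33_k0_k_f23_7 C with ⟨c241_0_0, c241_0_1⟩ | ⟨c241_1_0, c241_1_1⟩ | ⟨c241_2_0, c241_2_1⟩
                        · linarith only [C.a1, C.a3, C.f23_5, c240_0_1, c241_0_1]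
                        · rcases c0_11_11_33_k0_k_f23_10 C with ⟨c242_0_0, c242_0_1⟩ | ⟨c242_1_0, c242_1_1⟩
                          · linarith only [C.f11_2, C.f23_9, C.f33_7, C.o1, C.o2, c234_1_1, c235_3_0, c241_1_1, c242_0_1, s3]
                          · rcases c0_11_11_33_k0_k_p11_23B C with c243_0_0 | c243_1_0 | c243_2_0 | c243_3_0 | c243_4_0 | c243_5_0
                            · linarith only [c243_0_0, e0]
                            · linarith only [C.o0, c229_0_0, c243_1_0, e0]
                            · linarith only [C.o2, c243_2_0, e1]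
                            · linarith only [C.f11_0, C.f33_0, c240_0_1, c243_3_0, s1]
                            · linarith only [C.f11_0, C.f11_1, C.o0, c0_0_1, c1_1_1, c230_0_1, c234_1_1, c239_4_0, c241_1_1, c243_4_0]
                            · linarith only [C.f33_7, C.o2, c242_1_1, c243_5_0, s3]
                        · linarith only [C.a4, C.f23_5, C.o2, c241_2_1]
                      · linarith only [C.f22_1, C.f23_0, C.o0, c0_0_1, c1_1_1, c230_0_1, c233_0_1, c234_1_1, c239_4_0, c240_1_1]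
                      · linarith only [C.f11_0, C.f11_1, C.f13_4, C.f22_1, C.f23_0, C.f33_4, C.o0, C.o2, c0_0_1, c230_0_1, c233_0_1, c240_2_1, s2]
                    · linarith only [C.f11_2, C.f22_6, C.f33_7, C.o2, c231_1_1, c234_1_1, c235_3_0, c239_5_0, s3]
                  · linarith only [C.b5, C.f22_6, C.f33_7, C.o2, c234_1_1, c235_4_0, s3]
              · rcases c0_11_11_33_k0_k_f22_5 C with ⟨c244_0_0, c244_0_1⟩ | ⟨c244_1_0, c244_1_1⟩
                · linarith only [C.a3, C.f22_4, c229_0_0, c233_1_1, c244_0_1]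
                · rcases c0_11_11_33_k0_k_f23_3 C with ⟨c245_0_0, c245_0_1⟩ | ⟨c245_1_0, c245_1_1⟩ | ⟨c245_2_0, c245_2_1⟩
                  · rcases c0_11_11_33_k0_k_f23_7 C with ⟨c246_0_0, c246_0_1⟩ | ⟨c246_1_0, c246_1_1⟩ | ⟨c246_2_0, c246_2_1⟩
                    · linarith only [C.a3, C.f11_0, C.f23_5, C.f33_0, c0_0_1, c232_3_0, c245_0_1, c246_0_1, s1]
                    · rcases c0_11_11_33_k0_k_tmpp C with c248_0_0 | c248_1_0 | c248_2_0 | c248_3_0
                      · linarith only [C.f11_0, C.f33_0, c0_0_1, c232_3_0, c248_0_0, s1]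
                      · linarith only [C.f11_0, C.f23_1, C.f33_0, c0_0_1, c232_3_0, c245_0_1, c248_1_0, s1]
                      · linarith only [c248_2_0, e0]
                      · rcases c0_11_11_33_k0_k_f23_10 C with ⟨c249_0_0, c249_0_1⟩ | ⟨c249_1_0, c249_1_1⟩
                        · linarith only [C.f11_0, C.f11_1, C.f11_2, C.f23_9, C.f33_7, C.o1, C.o2, c246_1_1, c248_3_0, c249_0_1, s3]
                        · rcases c0_11_11_33_k0_k_p11_23B C with c251_0_0 | c251_1_0 | c251_2_0 | c251_3_0 | c251_4_0 | c251_5_0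
                          · linarith only [c251_0_0, e0]
                          · linarith only [C.f11_0, C.f23_1, C.f33_0, c245_0_1, c251_1_0, e0, s1]
                          · linarith only [C.a4, C.f11_0, C.f23_1, C.f33_0, C.o2, c245_0_1, c251_2_0, e0, s1]
                          · linarith only [C.f11_0, C.f33_0, c245_0_1, c251_3_0, s1]
                          · rcases c0_11_11_33_k0_k_p13_22A C with c257_0_0 | c257_1_0 | c257_2_0 | c257_3_0 | c257_4_0 | c257_5_0
                            · linarith only [C.o0, c257_0_0, e0]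
                            · linarith only [C.a0, C.f11_0, C.f11_1, C.f13_4, C.f23_1, C.f33_0, c0_0_1, c1_1_1, c230_0_1, c245_0_1, c246_1_1, c251_4_0, c257_1_0, s1]
                            · linarith only [C.f11_0, C.f11_1, C.f23_1, C.f33_0, c1_1_1, c245_0_1, c246_1_1, c251_4_0, c257_2_0, e0, s1]
                            · linarith only [C.f11_1, C.f23_1, C.f33_0, c0_0_1, c1_1_1, c232_3_0, c233_1_1, c245_0_1, c246_1_1, c251_4_0, c257_3_0, s1]
                            · linarith only [C.f11_0, C.f11_1, C.o0, c0_0_1, c1_1_1, c230_0_1, c244_1_1, c246_1_1, c251_4_0, c257_4_0]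
                            · linarith only [C.f11_0, C.f11_1, C.f11_2, C.f22_6, C.f33_7, C.o2, c231_1_1, c244_1_1, c248_3_0, c257_5_0, s3]
                          · linarith only [C.f33_7, C.o2, c249_1_1, c251_5_0, s3]
                    · linarith only [C.a4, C.f23_5, C.o2, c246_2_1]
                  · rcases c0_11_11_33_k0_k_f23_7 C with ⟨c258_0_0, c258_0_1⟩ | ⟨c258_1_0, c258_1_1⟩ | ⟨c258_2_0, c258_2_1⟩
                    · linarith only [C.a3, C.f23_5, c229_0_0, c245_1_1, c258_0_1]
                    · rcases c0_11_11_33_k0_k_f23_10 C with ⟨c260_0_0, c260_0_1⟩ | ⟨c260_1_0, c260_1_1⟩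
                      · rcases c0_11_11_33_k0_k_p11_22B C with c263_0_0 | c263_1_0 | c263_2_0 | c263_3_0 | c263_4_0
                        · linarith only [c263_0_0, e0]
                        · linarith only [C.a0, C.b5, C.f23_9, c229_0_0, c258_1_1, c260_0_1, c263_1_0]
                        · linarith only [C.b5, C.f11_0, C.f23_9, C.o0, c229_0_0, c233_1_1, c258_1_1, c260_0_1, c263_2_0]
                        · linarith only [C.f11_2, C.f23_9, C.f33_7, C.o1, C.o2, c244_1_1, c258_1_1, c260_0_1, c263_3_0, s3]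
                        · linarith only [C.b5, C.f22_6, C.f33_7, C.o2, c244_1_1, c263_4_0, s3]
                      · rcases c0_11_11_33_k0_k_p11_23B C with c264_0_0 | c264_1_0 | c264_2_0 | c264_3_0 | c264_4_0 | c264_5_0
                        · linarith only [c264_0_0, e0]
                        · linarith only [C.o0, c229_0_0, c264_1_0, e0]
                        · linarith only [C.f11_0, C.f33_1, C.o2, c264_2_0, e0, s1]
                        · linarith only [C.f11_0, C.o0, c229_0_0, c245_1_1, c264_3_0]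
                        · rcases c0_11_11_33_k0_k_tmzp C with c278_0_0 | c278_1_0 | c278_2_0 | c278_3_0 | c278_4_0 | c278_5_0
                          · linarith only [C.f11_0, C.f33_0, c0_0_1, c232_3_0, c278_0_0, s1]
                          · linarith only [c229_0_0, c278_1_0]
                          · linarith only [C.f33_4, C.o1, c258_1_1, c264_4_0, c278_2_0, s2]
                          · linarith only [c278_3_0, e0]
                          · linarith only [c1_1_1, c278_4_0]
                          · linarith only [C.f11_2, C.f33_7, C.o1, C.o2, c258_1_1, c264_4_0, c278_5_0, s3]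
                        · linarith only [C.f33_7, C.o2, c260_1_1, c264_5_0, s3]
                    · linarith only [C.a4, C.f23_5, C.o2, c258_2_1]
                  · linarith only [C.a4, C.f23_1, C.o2, c245_2_1]
            · linarith only [C.f11_0, C.f11_1, C.o0, c0_0_1, c1_1_1, c230_0_1, c232_4_0]
            · linarith only [C.f33_7, C.o2, c231_1_1, c232_5_0, s3]
        · rcases c0_11_11_33_k0_k_f13_8 C with ⟨c279_0_0, c279_0_1⟩ | ⟨c279_1_0, c279_1_1⟩
          · linarith only [C.a4, C.b5, C.f13_7, C.o1, C.o2, c230_1_1, c279_0_1]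
          · rcases c0_11_11_33_k0_k_p11_13B C with c280_0_0 | c280_1_0 | c280_2_0 | c280_3_0 | c280_4_0 | c280_5_0
            · linarith only [c280_0_0, e0]
            · linarith only [C.o0, c280_1_0, e0]
            · linarith only [C.f11_0, C.f33_1, C.o2, c280_2_0, e0, s1]
            · rcases c0_11_11_33_k0_k_f22_2 C with ⟨c284_0_0, c284_0_1⟩ | ⟨c284_1_0, c284_1_1⟩
              · rcases c0_11_11_33_k0_k_f22_5 C with ⟨c285_0_0, c285_0_1⟩ | ⟨c285_1_0, c285_1_1⟩
                · linarith only [C.a4, C.f11_0, C.f13_3, C.f22_4, C.f33_0, C.o1, C.o2, c230_1_1, c280_3_0, c284_0_1, c285_0_1, s1]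
                · rcases c0_11_11_33_k0_k_p11_22B C with c286_0_0 | c286_1_0 | c286_2_0 | c286_3_0 | c286_4_0
                  · linarith only [c286_0_0, e0]
                  · linarith only [C.f11_0, C.f22_1, C.f33_0, c284_0_1, c286_1_0, e0, s1]
                  · linarith only [C.f11_0, C.f33_0, c284_0_1, c286_2_0, s1]
                  · rcases c0_11_11_33_k0_k_p13_22A C with c288_0_0 | c288_1_0 | c288_2_0 | c288_3_0 | c288_4_0 | c288_5_0
                    · linarith only [C.o0, c288_0_0, e0]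
                    · linarith only [C.f11_0, C.f22_1, C.f33_0, C.f33_4, C.o2, c284_0_1, c285_1_1, c286_3_0, c288_1_0, e0, s1, s2]
                    · linarith only [C.f11_0, C.f22_1, C.f33_0, c284_0_1, c288_2_0, e0, s1]
                    · linarith only [C.f11_0, C.f33_0, c0_0_1, c280_3_0, c284_0_1, c288_3_0, s1]
                    · rcases c0_11_11_33_k0_k_f23_3 C with ⟨c289_0_0, c289_0_1⟩ | ⟨c289_1_0, c289_1_1⟩ | ⟨c289_2_0, c289_2_1⟩
                      · rcases c0_11_11_33_k0_k_f23_7 C with ⟨c290_0_0, c290_0_1⟩ | ⟨c290_1_0, c290_1_1⟩ | ⟨c290_2_0, c290_2_1⟩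
                        · linarith only [C.a3, C.f11_0, C.f23_5, C.f33_0, c0_0_1, c280_3_0, c289_0_1, c290_0_1, s1]
                        · rcases c0_11_11_33_k0_k_f23_10 C with ⟨c291_0_0, c291_0_1⟩ | ⟨c291_1_0, c291_1_1⟩
                          · linarith only [C.f11_2, C.f23_9, C.f33_7, C.o1, C.o2, c285_1_1, c286_3_0, c290_1_1, c291_0_1, s3]
                          · rcases c0_11_11_33_k0_k_p11_23B C with c292_0_0 | c292_1_0 | c292_2_0 | c292_3_0 | c292_4_0 | c292_5_0
                            · linarith only [c292_0_0, e0]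
                            · linarith only [C.f11_0, C.f22_1, C.f33_0, C.f33_4, C.o2, c230_1_1, c284_0_1, c285_1_1, c286_3_0, c288_4_0, c292_1_0, e0, s1, s2]
                            · linarith only [C.f11_0, C.f22_1, C.f33_0, C.f33_4, C.o2, c284_0_1, c285_1_1, c286_3_0, c292_2_0, e0, s1, s2]
                            · linarith only [C.f11_0, C.f33_0, c289_0_1, c292_3_0, s1]
                            · linarith only [C.f33_4, C.o2, c230_1_1, c285_1_1, c288_4_0, c290_1_1, c292_4_0, s2]
                            · linarith only [C.f33_7, C.o2, c291_1_1, c292_5_0, s3]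
                        · linarith only [C.a4, C.f23_5, C.o2, c290_2_1]
                      · linarith only [C.f22_1, C.f23_0, C.f33_4, C.o2, c230_1_1, c284_0_1, c285_1_1, c286_3_0, c288_4_0, c289_1_1, s2]
                      · linarith only [C.f22_1, C.f23_0, C.f33_4, C.o2, c284_0_1, c285_1_1, c286_3_0, c289_2_1, s2]
                    · linarith only [C.f11_2, C.f22_6, C.f33_7, C.o2, c279_1_1, c285_1_1, c286_3_0, c288_5_0, s3]
                  · linarith only [C.b5, C.f22_6, C.f33_7, C.o2, c285_1_1, c286_4_0, s3]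
              · rcases c0_11_11_33_k0_k_f22_5 C with ⟨c293_0_0, c293_0_1⟩ | ⟨c293_1_0, c293_1_1⟩
                · linarith only [C.a3, C.f22_4, c229_0_0, c284_1_1, c293_0_1]
                · rcases c0_11_11_33_k0_k_f23_3 C with ⟨c294_0_0, c294_0_1⟩ | ⟨c294_1_0, c294_1_1⟩ | ⟨c294_2_0, c294_2_1⟩
                  · rcases c0_11_11_33_k0_k_f23_7 C with ⟨c295_0_0, c295_0_1⟩ | ⟨c295_1_0, c295_1_1⟩ | ⟨c295_2_0, c295_2_1⟩
                    · linarith only [C.a4, C.f11_0, C.f13_3, C.f23_5, C.f33_0, C.o2, c230_1_1, c280_3_0, c294_0_1, c295_0_1, s1]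
                    · rcases c0_11_11_33_k0_k_tmpp C with c296_0_0 | c296_1_0 | c296_2_0 | c296_3_0
                      · linarith only [C.f11_0, C.f33_0, c0_0_1, c280_3_0, c296_0_0, s1]
                      · linarith only [C.f11_0, C.f23_1, C.f33_0, c0_0_1, c280_3_0, c294_0_1, c296_1_0, s1]
                      · linarith only [c296_2_0, e0]
                      · rcases c0_11_11_33_k0_k_f23_10 C with ⟨c297_0_0, c297_0_1⟩ | ⟨c297_1_0, c297_1_1⟩
                        · linarith only [C.f11_0, C.f11_1, C.f11_2, C.f23_9, C.f33_7, C.o1, C.o2, c295_1_1, c296_3_0, c297_0_1, s3]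
                        · rcases c0_11_11_33_k0_k_p11_23B C with c299_0_0 | c299_1_0 | c299_2_0 | c299_3_0 | c299_4_0 | c299_5_0
                          · linarith only [c299_0_0, e0]
                          · linarith only [C.f11_0, C.f23_1, C.f33_0, c294_0_1, c299_1_0, e0, s1]
                          · linarith only [C.f11_0, C.f33_1, C.o2, c299_2_0, e0, s1]
                          · linarith only [C.f11_0, C.f33_0, c294_0_1, c299_3_0, s1]
                          · rcases c0_11_11_33_k0_k_p13_22A C with c303_0_0 | c303_1_0 | c303_2_0 | c303_3_0 | c303_4_0 | c303_5_0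
                            · linarith only [C.o0, c303_0_0, e0]
                            · linarith only [C.f11_0, C.f11_1, C.f23_1, C.f33_0, C.f33_4, C.o2, c294_0_1, c295_1_1, c296_3_0, c299_4_0, c303_1_0, e0, s1, s2]
                            · linarith only [C.f11_0, C.f11_1, C.f23_1, C.f33_0, c1_1_1, c294_0_1, c295_1_1, c299_4_0, c303_2_0, e0, s1]
                            · linarith only [C.f11_1, C.f23_1, C.f33_0, c0_0_1, c1_1_1, c280_3_0, c284_1_1, c294_0_1, c295_1_1, c299_4_0, c303_3_0, s1]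
                            · linarith only [C.f33_4, C.o2, c230_1_1, c293_1_1, c295_1_1, c299_4_0, c303_4_0, s2]
                            · linarith only [C.f11_0, C.f11_1, C.f11_2, C.f22_6, C.f33_7, C.o2, c279_1_1, c293_1_1, c296_3_0, c303_5_0, s3]
                          · linarith only [C.f33_7, C.o2, c297_1_1, c299_5_0, s3]
                    · linarith only [C.a4, C.f23_5, C.o2, c295_2_1]
                  · rcases c0_11_11_33_k0_k_f23_7 C with ⟨c304_0_0, c304_0_1⟩ | ⟨c304_1_0, c304_1_1⟩ | ⟨c304_2_0, c304_2_1⟩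
                    · linarith only [C.a3, C.f23_5, c229_0_0, c294_1_1, c304_0_1]
                    · rcases c0_11_11_33_k0_k_f23_10 C with ⟨c305_0_0, c305_0_1⟩ | ⟨c305_1_0, c305_1_1⟩
                      · rcases c0_11_11_33_k0_k_p11_22B C with c308_0_0 | c308_1_0 | c308_2_0 | c308_3_0 | c308_4_0
                        · linarith only [c308_0_0, e0]
                        · linarith only [C.b5, C.f23_9, C.o0, c229_0_0, c304_1_1, c305_0_1, c308_1_0, e0]
                        · linarith only [C.b5, C.f11_0, C.f23_9, C.o0, c229_0_0, c284_1_1, c304_1_1, c305_0_1, c308_2_0]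
                        · linarith only [C.f11_2, C.f23_9, C.f33_7, C.o1, C.o2, c293_1_1, c304_1_1, c305_0_1, c308_3_0, s3]
                        · linarith only [C.b5, C.f22_6, C.f33_7, C.o2, c293_1_1, c308_4_0, s3]
                      · rcases c0_11_11_33_k0_k_p11_23B C with c309_0_0 | c309_1_0 | c309_2_0 | c309_3_0 | c309_4_0 | c309_5_0
                        · linarith only [c309_0_0, e0]
                        · linarith only [C.o0, c229_0_0, c309_1_0, e0]
                        · linarith only [C.f11_0, C.f33_1, C.o2, c309_2_0, e0, s1]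
                        · linarith only [C.f11_0, C.o0, c229_0_0, c294_1_1, c309_3_0]
                        · rcases c0_11_11_33_k0_k_tmzp C with c321_0_0 | c321_1_0 | c321_2_0 | c321_3_0 | c321_4_0 | c321_5_0
                          · linarith only [C.f11_0, C.f33_0, c0_0_1, c280_3_0, c321_0_0, s1]
                          · linarith only [c229_0_0, c321_1_0]
                          · linarith only [C.f33_4, C.o1, c304_1_1, c309_4_0, c321_2_0, s2]
                          · linarith only [c321_3_0, e0]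
                          · linarith only [c1_1_1, c321_4_0]
                          · linarith only [C.f11_2, C.f33_7, C.o1, C.o2, c304_1_1, c309_4_0, c321_5_0, s3]
                        · linarith only [C.f33_7, C.o2, c305_1_1, c309_5_0, s3]
                    · linarith only [C.a4, C.f23_5, C.o2, c304_2_1]
                  · linarith only [C.a4, C.f23_1, C.o2, c294_2_1]
            · linarith only [C.a4, C.f33_4, C.o1, C.o2, c230_1_1, c280_4_0, s2]
            · linarith only [C.f33_7, C.o2, c279_1_1, c280_5_0, s3]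
      · rcases c0_11_11_33_k0_k_f13_5 C with ⟨c322_0_0, c322_0_1⟩ | ⟨c322_1_0, c322_1_1⟩
        · rcases c0_11_11_33_k0_k_f13_8 C with ⟨c323_0_0, c323_0_1⟩ | ⟨c323_1_0, c323_1_1⟩
          · linarith only [C.f11_0, C.f11_1, C.f11_2, C.f13_7, C.f33_7, C.o0, C.o2, c0_0_1, c322_0_1, c323_0_1, s3]
          · rcases c0_11_11_33_k0_k_p11_13B C with c324_0_0 | c324_1_0 | c324_2_0 | c324_3_0 | c324_4_0 | c324_5_0
            · linarith only [c324_0_0, e0]
            · linarith only [C.o0, c324_1_0, e0]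
            · linarith only [C.o2, c324_2_0, e1]
            · rcases c0_11_11_33_k0_k_f22_2 C with ⟨c325_0_0, c325_0_1⟩ | ⟨c325_1_0, c325_1_1⟩
              · rcases c0_11_11_33_k0_k_f22_5 C with ⟨c326_0_0, c326_0_1⟩ | ⟨c326_1_0, c326_1_1⟩
                · linarith only [C.f11_0, C.f22_4, C.f33_0, c1_1_1, c325_0_1, c326_0_1, s1]
                · rcases c0_11_11_33_k0_k_p11_22B C with c327_0_0 | c327_1_0 | c327_2_0 | c327_3_0 | c327_4_0
                  · linarith only [c327_0_0, e0]
                  · linarith only [C.f11_0, C.f22_1, C.f33_0, c325_0_1, c327_1_0, e0, s1]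
                  · linarith only [C.f11_0, C.f33_0, c325_0_1, c327_2_0, s1]
                  · rcases c0_11_11_33_k0_k_p13_22A C with c331_0_0 | c331_1_0 | c331_2_0 | c331_3_0 | c331_4_0 | c331_5_0
                    · linarith only [C.o0, c331_0_0, e0]
                    · linarith only [C.f11_0, C.f11_1, C.f13_4, C.f22_1, C.f33_0, C.f33_4, C.o0, C.o2, c0_0_1, c322_0_1, c325_0_1, c331_1_0, e0, s1, s2]
                    · linarith only [C.f11_0, C.f22_1, C.f33_0, c325_0_1, c331_2_0, e0, s1]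
                    · linarith only [C.f11_0, C.f33_0, c0_0_1, c324_3_0, c325_0_1, c331_3_0, s1]
                    · rcases c0_11_11_33_k0_k_f23_3 C with ⟨c332_0_0, c332_0_1⟩ | ⟨c332_1_0, c332_1_1⟩ | ⟨c332_2_0, c332_2_1⟩
                      · rcases c0_11_11_33_k0_k_f23_7 C with ⟨c333_0_0, c333_0_1⟩ | ⟨c333_1_0, c333_1_1⟩ | ⟨c333_2_0, c333_2_1⟩
                        · linarith only [C.a1, C.a3, C.f23_5, c332_0_1, c333_0_1]
                        · rcases c0_11_11_33_k0_k_f23_10 C with ⟨c334_0_0, c334_0_1⟩ | ⟨c334_1_0, c334_1_1⟩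
                          · linarith only [C.f11_2, C.f23_9, C.f33_7, C.o1, C.o2, c326_1_1, c327_3_0, c333_1_1, c334_0_1, s3]
                          · rcases c0_11_11_33_k0_k_p11_23B C with c335_0_0 | c335_1_0 | c335_2_0 | c335_3_0 | c335_4_0 | c335_5_0
                            · linarith only [c335_0_0, e0]
                            · linarith only [C.a2, C.o0, c335_1_0, e0]
                            · linarith only [C.o2, c335_2_0, e1]
                            · linarith only [C.f11_0, C.f33_0, c332_0_1, c335_3_0, s1]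
                            · linarith only [C.f11_0, C.f11_1, C.o0, c0_0_1, c1_1_1, c322_0_1, c326_1_1, c331_4_0, c333_1_1, c335_4_0]
                            · linarith only [C.f33_7, C.o2, c334_1_1, c335_5_0, s3]
                        · linarith only [C.a4, C.f23_5, C.o2, c333_2_1]
                      · linarith only [C.f22_1, C.f23_0, C.o0, c0_0_1, c1_1_1, c322_0_1, c325_0_1, c326_1_1, c331_4_0, c332_1_1]
                      · linarith only [C.f11_0, C.f11_1, C.f13_4, C.f22_1, C.f23_0, C.f33_4, C.o0, C.o2, c0_0_1, c322_0_1, c325_0_1, c332_2_1, s2]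
                    · linarith only [C.f11_2, C.f22_6, C.f33_7, C.o2, c323_1_1, c326_1_1, c327_3_0, c331_5_0, s3]
                  · linarith only [C.f22_6, C.f33_7, C.o2, c229_1_1, c326_1_1, c327_4_0, s3]
              · rcases c0_11_11_33_k0_k_f22_5 C with ⟨c336_0_0, c336_0_1⟩ | ⟨c336_1_0, c336_1_1⟩
                · linarith only [C.f22_4, c1_1_1, c229_1_0, c325_1_1, c336_0_1]
                · rcases c0_11_11_33_k0_k_f23_3 C with ⟨c338_0_0, c338_0_1⟩ | ⟨c338_1_0, c338_1_1⟩ | ⟨c338_2_0, c338_2_1⟩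
                  · rcases c0_11_11_33_k0_k_f23_7 C with ⟨c339_0_0, c339_0_1⟩ | ⟨c339_1_0, c339_1_1⟩ | ⟨c339_2_0, c339_2_1⟩
                    · linarith only [C.a1, C.a3, C.f23_5, c338_0_1, c339_0_1]
                    · rcases c0_11_11_33_k0_k_f23_10 C with ⟨c340_0_0, c340_0_1⟩ | ⟨c340_1_0, c340_1_1⟩
                      · linarith only [C.f23_9, C.o1, c229_1_1, c339_1_1, c340_0_1]
                      · rcases c0_11_11_33_k0_k_p11_23B C with c341_0_0 | c341_1_0 | c341_2_0 | c341_3_0 | c341_4_0 | c341_5_0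
                        · linarith only [c341_0_0, e0]
                        · linarith only [C.f11_0, C.f23_1, C.f33_0, c338_0_1, c341_1_0, e0, s1]
                        · linarith only [C.a4, C.f11_0, C.f23_1, C.f33_0, C.o2, c338_0_1, c341_2_0, e0, s1]
                        · linarith only [C.f11_0, C.f33_0, c338_0_1, c341_3_0, s1]
                        · rcases c0_11_11_33_k0_k_p13_22A C with c348_0_0 | c348_1_0 | c348_2_0 | c348_3_0 | c348_4_0 | c348_5_0
                          · linarith only [C.o0, c348_0_0, e0]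
                          · linarith only [C.o2, c348_1_0, e1]
                          · linarith only [C.a1, C.a3, C.f11_0, C.f11_1, C.f23_1, C.f33_0, c338_0_1, c339_1_1, c341_4_0, c348_2_0, e0, s1]
                          · linarith only [C.f11_1, C.f23_1, C.f33_0, c0_0_1, c1_1_1, c324_3_0, c325_1_1, c338_0_1, c339_1_1, c341_4_0, c348_3_0, s1]
                          · linarith only [C.f11_0, C.f11_1, C.o0, c0_0_1, c1_1_1, c322_0_1, c336_1_1, c339_1_1, c341_4_0, c348_4_0]
                          · linarith only [C.f11_2, C.f22_6, C.f33_7, C.o1, C.o2, c323_1_1, c336_1_1, c339_1_1, c341_4_0, c348_5_0, s3]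
                        · linarith only [C.f33_7, C.o2, c340_1_1, c341_5_0, s3]
                    · linarith only [C.a4, C.f23_5, C.o2, c339_2_1]
                  · rcases c0_11_11_33_k0_k_f23_7 C with ⟨c349_0_0, c349_0_1⟩ | ⟨c349_1_0, c349_1_1⟩ | ⟨c349_2_0, c349_2_1⟩
                    · linarith only [C.f23_5, c1_1_1, c229_1_0, c338_1_1, c349_0_1]
                    · rcases c0_11_11_33_k0_k_f23_10 C with ⟨c350_0_0, c350_0_1⟩ | ⟨c350_1_0, c350_1_1⟩
                      · linarith only [C.f23_9, C.o1, c229_1_1, c349_1_1, c350_0_1]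
                      · rcases c0_11_11_33_k0_k_f33_5 C with ⟨c353_0_0, c353_0_1⟩ | ⟨c353_1_0, c353_1_1⟩
                        · rcases c0_11_11_33_k0_k_f33_8 C with ⟨c354_0_0, c354_0_1⟩ | ⟨c354_1_0, c354_1_1⟩
                          · linarith only [C.f11_0, C.f33_7, C.o2, c1_1_1, c229_1_1, c353_0_1, c354_0_1, s1]
                          · rcases c0_11_11_33_k0_k_p22_33A C with c358_0_0 | c358_1_0 | c358_2_0 | c358_3_0 | c358_4_0
                            · linarith only [c229_1_0, c358_0_0, e0]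
                            · linarith only [c358_1_0, e1]
                            · linarith only [c0_0_1, c229_1_0, c324_3_0, c325_1_1, c358_2_0, s1]
                            · rcases c0_11_11_33_k0_k_p11_23B C with c359_0_0 | c359_1_0 | c359_2_0 | c359_3_0 | c359_4_0 | c359_5_0
                              · linarith only [c359_0_0, e0]
                              · linarith only [C.f11_0, c1_1_1, c229_1_0, c336_1_1, c353_0_1, c358_3_0, c359_1_0, e0, s1]
                              · linarith only [C.f11_0, C.f33_4, C.o2, c1_1_1, c229_1_0, c353_0_1, c359_2_0, e0, s1]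
                              · linarith only [c1_1_1, c229_1_0, c336_1_1, c338_1_1, c353_0_1, c358_3_0, c359_3_0, s1]
                              · linarith only [C.f11_1, c1_1_1, c336_1_1, c349_1_1, c353_0_1, c358_3_0, c359_4_0, s1]
                              · linarith only [C.f11_0, C.f11_1, C.f11_2, c1_1_1, c229_1_1, c350_1_1, c359_5_0]
                            · linarith only [C.f22_6, C.o2, c229_1_1, c336_1_1, c354_1_1, c358_4_0]
                        · rcases c0_11_11_33_k0_k_f33_8 C with ⟨c360_0_0, c360_0_1⟩ | ⟨c360_1_0, c360_1_1⟩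
                          · linarith only [C.f13_4, C.f33_7, C.o0, c0_0_1, c1_1_1, c229_1_1, c322_0_1, c353_1_1, c360_0_1]
                          · rcases c0_11_11_33_k0_k_p22_33A C with c363_0_0 | c363_1_0 | c363_2_0 | c363_3_0 | c363_4_0
                            · linarith only [c229_1_0, c363_0_0, e0]
                            · linarith only [c363_1_0, e1]
                            · linarith only [c0_0_1, c229_1_0, c324_3_0, c325_1_1, c363_2_0, s1]
                            · rcases c0_11_11_33_k0_k_p11_23B C with c364_0_0 | c364_1_0 | c364_2_0 | c364_3_0 | c364_4_0 | c364_5_0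
                              · linarith only [c364_0_0, e0]
                              · linarith only [C.f11_0, C.f33_1, c229_1_0, c336_1_1, c353_1_1, c363_3_0, c364_1_0, e0, s1]
                              · linarith only [C.f11_0, C.f33_1, C.o2, c364_2_0, e0, s1]
                              · linarith only [C.f33_1, c229_1_0, c336_1_1, c338_1_1, c353_1_1, c363_3_0, c364_3_0, s1]
                              · rcases c0_11_11_33_k0_k_tmzp C with c372_0_0 | c372_1_0 | c372_2_0 | c372_3_0 | c372_4_0 | c372_5_0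
                                · linarith only [C.f11_0, C.f33_0, c0_0_1, c324_3_0, c372_0_0, s1]
                                · linarith only [C.f11_1, C.f33_1, c0_0_1, c1_1_1, c324_3_0, c336_1_1, c349_1_1, c353_1_1, c363_3_0, c364_4_0, c372_1_0, s1]
                                · linarith only [C.f33_4, C.o1, c349_1_1, c364_4_0, c372_2_0, s2]
                                · linarith only [c372_3_0, e0]
                                · linarith only [c1_1_1, c372_4_0]
                                · linarith only [c229_1_1, c372_5_0]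
                              · linarith only [C.f33_7, C.o2, c350_1_1, c364_5_0, s3]
                            · linarith only [C.f22_6, C.o2, c229_1_1, c336_1_1, c360_1_1, c363_4_0]
                    · linarith only [C.a4, C.f23_5, C.o2, c349_2_1]
                  · linarith only [C.a4, C.f23_1, C.o2, c338_2_1]
            · linarith only [C.f11_0, C.f11_1, C.o0, c0_0_1, c1_1_1, c322_0_1, c324_4_0]
            · linarith only [C.f33_7, C.o2, c323_1_1, c324_5_0, s3]
        · rcases c0_11_11_33_k0_k_f13_8 C with ⟨c373_0_0, c373_0_1⟩ | ⟨c373_1_0, c373_1_1⟩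
          · linarith only [C.a4, C.f13_7, C.o1, C.o2, c229_1_1, c322_1_1, c373_0_1]
          · rcases c0_11_11_33_k0_k_p11_13B C with c374_0_0 | c374_1_0 | c374_2_0 | c374_3_0 | c374_4_0 | c374_5_0
            · linarith only [c374_0_0, e0]
            · linarith only [C.o0, c374_1_0, e0]
            · linarith only [C.o2, c374_2_0, e1]
            · rcases c0_11_11_33_k0_k_f33_5 C with ⟨c375_0_0, c375_0_1⟩ | ⟨c375_1_0, c375_1_1⟩
              · linarith only [C.f11_0, C.f13_3, C.f33_4, C.o2, c322_1_1, c374_3_0, c375_0_1, s1]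
              · rcases c0_11_11_33_k0_k_f33_8 C with ⟨c376_0_0, c376_0_1⟩ | ⟨c376_1_0, c376_1_1⟩
                · linarith only [C.a4, C.f33_7, C.o1, C.o2, c229_1_1, c375_1_1, c376_0_1]
                · rcases c0_11_11_33_k0_k_p11_33B C with c377_0_0 | c377_1_0 | c377_2_0 | c377_3_0 | c377_4_0
                  · linarith only [c377_0_0, e0]
                  · linarith only [c377_1_0, e1]
                  · linarith only [C.f11_0, c377_2_0, s1]
                  · linarith only [C.a4, C.o1, c375_1_1, c377_3_0, s2]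
                  · rcases c0_11_11_33_k0_k_tmzp C with c379_0_0 | c379_1_0 | c379_2_0 | c379_3_0 | c379_4_0 | c379_5_0
                    · linarith only [C.f11_0, C.f33_0, c0_0_1, c374_3_0, c379_0_0, s1]
                    · linarith only [C.f11_0, C.f11_1, C.f11_2, C.f13_3, C.f33_1, C.o1, c0_0_1, c229_1_1, c322_1_1, c374_3_0, c376_1_1, c377_4_0, c379_1_0, s1]
                    · rcases c0_11_11_33_k0_k_tmpp C with c380_0_0 | c380_1_0 | c380_2_0 | c380_3_0
                      · linarith only [C.f11_0, C.f33_0, c0_0_1, c374_3_0, c380_0_0, s1]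
                      · linarith only [C.f11_0, C.f33_1, c0_0_1, c374_3_0, c379_2_0, c380_1_0, s1]
                      · linarith only [c380_2_0, e0]
                      · rcases c0_11_11_33_k0_k_tzpm C with c381_0_0 | c381_1_0 | c381_2_0 | c381_3_0 | ⟨c381_4_0, c381_4_1⟩
                        · linarith only [C.f11_0, C.f33_1, c0_0_1, c374_3_0, c379_2_0, c381_0_0, s1]
                        · linarith only [C.f11_0, C.f11_1, C.f11_2, C.o1, c1_1_1, c229_1_1, c376_1_1, c377_4_0, c381_1_0]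
                        · linarith only [c1_1_1, c381_2_0]
                        · linarith only [C.f11_0, C.f11_1, C.f11_2, C.f33_4, c229_1_1, c376_1_1, c377_4_0, c380_3_0, c381_3_0, s2]
                        · rcases c0_11_11_33_k0_k_f23_3 C with ⟨c395_0_0, c395_0_1⟩ | ⟨c395_1_0, c395_1_1⟩ | ⟨c395_2_0, c395_2_1⟩
                          · rcases c0_11_11_33_k0_k_f23_7 C with ⟨c396_0_0, c396_0_1⟩ | ⟨c396_1_0, c396_1_1⟩ | ⟨c396_2_0, c396_2_1⟩
                            · linarith only [C.a4, C.f11_1, C.f11_2, C.f13_3, C.f23_5, C.f33_0, c1_1_1, c229_1_1, c322_1_1, c374_3_0, c376_1_1, c377_4_0, c395_0_1, c396_0_1, s1]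
                            · rcases c0_11_11_33_k0_k_f23_10 C with ⟨c397_0_0, c397_0_1⟩ | ⟨c397_1_0, c397_1_1⟩
                              · linarith only [C.f23_9, c229_1_1, c381_4_0, c396_1_1, c397_0_1]
                              · rcases c0_11_11_33_k0_k_p11_23B C with c398_0_0 | c398_1_0 | c398_2_0 | c398_3_0 | c398_4_0 | c398_5_0
                                · linarith only [c398_0_0, e0]
                                · linarith only [C.f11_0, C.f33_1, c379_2_0, c398_1_0, e0, s1]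
                                · linarith only [C.f11_0, C.f11_1, C.f11_2, C.f33_1, c1_1_1, c229_1_1, c376_1_1, c377_4_0, c398_2_0, e0, s1]
                                · linarith only [C.a1, C.f11_0, C.o0, c395_0_1, c398_3_0]
                                · linarith only [C.f11_0, C.f11_1, c1_1_1, c381_4_0, c396_1_1, c398_4_0]
                                · linarith only [C.f11_0, C.f11_1, C.f11_2, c1_1_1, c229_1_1, c397_1_1, c398_5_0]
                            · linarith only [C.a4, C.f11_0, C.f11_1, C.f11_2, C.f23_5, c1_1_1, c229_1_1, c376_1_1, c377_4_0, c396_2_1]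
                          · rcases c0_11_11_33_k0_k_f23_7 C with ⟨c399_0_0, c399_0_1⟩ | ⟨c399_1_0, c399_1_1⟩ | ⟨c399_2_0, c399_2_1⟩
                            · linarith only [C.a2, C.a4, C.f11_0, C.f11_1, C.f11_2, C.f13_0, C.f13_3, C.f23_5, c1_1_1, c229_1_1, c322_1_1, c376_1_1, c377_4_0, c395_1_1, c399_0_1]
                            · rcases c0_11_11_33_k0_k_f23_10 C with ⟨c400_0_0, c400_0_1⟩ | ⟨c400_1_0, c400_1_1⟩
                              · linarith only [C.f23_9, c229_1_1, c381_4_0, c399_1_1, c400_0_1]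
                              · rcases c0_11_11_33_k0_k_p11_23B C with c401_0_0 | c401_1_0 | c401_2_0 | c401_3_0 | c401_4_0 | c401_5_0
                                · linarith only [c401_0_0, e0]
                                · linarith only [C.f11_0, C.f33_1, c379_2_0, c401_1_0, e0, s1]
                                · linarith only [C.f11_0, C.f11_1, C.f11_2, C.f33_1, c1_1_1, c229_1_1, c376_1_1, c377_4_0, c401_2_0, e0, s1]
                                · linarith only [C.f11_0, C.f33_1, c379_2_0, c395_1_1, c401_3_0, s1]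
                                · linarith only [C.f11_0, C.f11_1, c1_1_1, c381_4_0, c399_1_1, c401_4_0]
                                · linarith only [C.f11_0, C.f11_1, C.f11_2, c1_1_1, c229_1_1, c400_1_1, c401_5_0]
                            · linarith only [C.a4, C.f11_0, C.f11_1, C.f11_2, C.f23_5, c1_1_1, c229_1_1, c376_1_1, c377_4_0, c399_2_1]
                          · linarith only [C.a4, C.f11_0, C.f11_1, C.f11_2, C.f23_1, c1_1_1, c229_1_1, c376_1_1, c377_4_0, c395_2_1]
                    · linarith only [c379_3_0, e0]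
                    · linarith only [c1_1_1, c379_4_0]
                    · linarith only [c229_1_1, c379_5_0]
            · linarith only [C.a4, C.f33_4, C.o1, C.o2, c322_1_1, c374_4_0, s2]
            · linarith only [C.f33_7, C.o2, c373_1_1, c374_5_0, s3]
  · linarith only [C.a2, C.a4, C.f13_0, C.o2, c0_1_1]

end Pool.Agent.Helper24.TQ
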