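import Pool.Agent.Helper89.TQ.Ctx

set_option autoImplicit false
set_option linter.all false
set_option maxHeartbeats 4000000

namespace Pool.Agent.Helper24.TQ

open Pool.Agent.Helper89.TQ

theorem c0_11_11_33_k1_k_t12 {n1 n2 n3 A1 A2 A3 B1 B2 B3 m11_1 m11_2 m11_3 m13_1 m13_2 m13_3 m22_1 m22_2 m22_3 m23_1 m23_2 m23_3 m33_1 m33_2 m33_3 : ℤ} (C : Ctx0 n1 n2 n3 A1 A2 A3 B1 B2 B3 m11_1 m11_2 m11_3 m13_1 m13_2 m13_3 m22_1 m22_2 m22_3 m23_1 m23_2 m23_3 m33_1 m33_2 m33_3) :
    ((-1) * A1 ≤ -1 ∧ (-1) * A1 + 1 * A2 + (-1) * n2 ≤ -1) ∨ ((-1) * B1 ≤ -1 ∧ (-1) * B1 + 1 * B2 + (-1) * n2 ≤ -1) := by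
  have h := C.t12
  clear C
  omega

theorem c0_11_11_33_k1_k_t23 {n1 n2 n3 A1 A2 A3 B1 B2 B3 m11_1 m11_2 m11_3 m13_1 m13_2 m13_3 m22_1 m22_2 m22_3 m23_1 m23_2 m23_3 m33_1 m33_2 m33_3 : ℤ} (C : Ctx0 n1 n2 n3 A1 A2 A3 B1 B2 B3 m11_1 m11_2 m11_3 m13_1 m13_2 m13_3 m22_1 m22_2 m22_3 m23_1 m23_2 m23_3 m33_1 m33_2 m33_3) :
    (1 * A1 + (-1) * A2 ≤ -1 ∧ (-1) * A2 + 1 * A3 + (-1) * n3 ≤ -1) ∨ (1 * B1 + (-1) * B2 ≤ -1 ∧ (-1) * B2 + 1 * B3 + (-1) * n3 ≤ -1) := by
  have h := C.t23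
  clear C
  omega

theorem c0_11_11_33_k1_k_f13_2 {n1 n2 n3 A1 A2 A3 B1 B2 B3 m11_1 m11_2 m11_3 m13_1 m13_2 m13_3 m22_1 m22_2 m22_3 m23_1 m23_2 m23_3 m33_1 m33_2 m33_3 : ℤ} (C : Ctx0 n1 n2 n3 A1 A2 A3 B1 B2 B3 m11_1 m11_2 m11_3 m13_1 m13_2 m13_3 m22_1 m22_2 m22_3 m23_1 m23_2 m23_3 m33_1 m33_2 m33_3) :
    ((-1) * A1 + 1 * m13_1 ≤ -1 ∧ 1 * A1 + (-1) * m13_1 ≤ 1) ∨ ((-1) * B3 + 1 * m13_1 ≤ -1 ∧ 1 * B3 + (-1) * m13_1 ≤ 1) := by
  have h := C.f13_2
  clear C
  omega

theorem c0_11_11_33_k1_k_f13_5 {n1 n2 n3 A1 A2 A3 B1 B2 B3 m11_1 m11_2 m11_3 m13_1 m13_2 m13_3 m22_1 m22_2 m22_3 m23_1 m23_2 m23_3 m33_1 m33_2 m33_3 : ℤ} (C : Ctx0 n1 n2 n3 A1 A2 A3 B1 B2 B3 m11_1 m11_2 m11_3 m13_1 m13_2 m13_3 m22_1 m22_2 m22_3 m23_1 m23_2 m23_3 m33_1 m33_2 m33_3) :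
    ((-1) * m13_1 + 1 * m13_2 + (-1) * n2 ≤ 0 ∧ 1 * m13_1 + (-1) * m13_2 + 1 * n2 ≤ 0) ∨ ((-1) * B3 + 1 * m13_2 ≤ -1 ∧ 1 * B3 + (-1) * m13_2 ≤ 1) := by
  have h := C.f13_5
  clear C
  omega

theorem c0_11_11_33_k1_k_f13_8 {n1 n2 n3 A1 A2 A3 B1 B2 B3 m11_1 m11_2 m11_3 m13_1 m13_2 m13_3 m22_1 m22_2 m22_3 m23_1 m23_2 m23_3 m33_1 m33_2 m33_3 : ℤ} (C : Ctx0 n1 n2 n3 A1 A2 A3 B1 B2 B3 m11_1 m11_2 m11_3 m13_1 m13_2 m13_3 m22_1 m22_2 m22_3 m23_1 m23_2 m23_3 m33_1 m33_2 m33_3) :
    ((-1) * m13_2 + 1 * m13_3 + (-1) * n3 ≤ 0 ∧ 1 * m13_2 + (-1) * m13_3 + 1 * n3 ≤ 0) ∨ ((-1) * B3 + 1 * m13_3 ≤ -1 ∧ 1 * B3 + (-1) * m13_3 ≤ 1) := by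
  have h := C.f13_8
  clear C
  omega

theorem c0_11_11_33_k1_k_f22_2 {n1 n2 n3 A1 A2 A3 B1 B2 B3 m11_1 m11_2 m11_3 m13_1 m13_2 m13_3 m22_1 m22_2 m22_3 m23_1 m23_2 m23_3 m33_1 m33_2 m33_3 : ℤ} (C : Ctx0 n1 n2 n3 A1 A2 A3 B1 B2 B3 m11_1 m11_2 m11_3 m13_1 m13_2 m13_3 m22_1 m22_2 m22_3 m23_1 m23_2 m23_3 m33_1 m33_2 m33_3) :
    (1 * m22_1 + (-1) * n1 ≤ 0 ∧ (-1) * m22_1 + 1 * n1 ≤ 0) ∨ ((-1) * B2 + 1 * m22_1 ≤ -1 ∧ 1 * B2 + (-1) * m22_1 ≤ 1) := by
  have h := C.f22_2
  clear C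
  omega

theorem c0_11_11_33_k1_k_f22_5 {n1 n2 n3 A1 A2 A3 B1 B2 B3 m11_1 m11_2 m11_3 m13_1 m13_2 m13_3 m22_1 m22_2 m22_3 m23_1 m23_2 m23_3 m33_1 m33_2 m33_3 : ℤ} (C : Ctx0 n1 n2 n3 A1 A2 A3 B1 B2 B3 m11_1 m11_2 m11_3 m13_1 m13_2 m13_3 m22_1 m22_2 m22_3 m23_1 m23_2 m23_3 m33_1 m33_2 m33_3) :
    ((-1) * m22_1 + 1 * m22_2 + (-1) * n2 ≤ 0 ∧ 1 * m22_1 + (-1) * m22_2 + 1 * n2 ≤ 0) ∨ ((-1) * B2 + 1 * m22_2 ≤ -1 ∧ 1 * B2 + (-1) * m22_2 ≤ 1) := by
  have h := C.f22_5
  clear C
  omega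

theorem c0_11_11_33_k1_k_f23_3 {n1 n2 n3 A1 A2 A3 B1 B2 B3 m11_1 m11_2 m11_3 m13_1 m13_2 m13_3 m22_1 m22_2 m22_3 m23_1 m23_2 m23_3 m33_1 m33_2 m33_3 : ℤ} (C : Ctx0 n1 n2 n3 A1 A2 A3 B1 B2 B3 m11_1 m11_2 m11_3 m13_1 m13_2 m13_3 m22_1 m22_2 m22_3 m23_1 m23_2 m23_3 m33_1 m33_2 m33_3) :
    (1 * m23_1 + (-1) * n1 ≤ 0 ∧ (-1) * m23_1 + 1 * n1 ≤ 0) ∨ ((-1) * A2 + 1 * m23_1 ≤ -1 ∧ 1 * A2 + (-1) * m23_1 ≤ 1) ∨ ((-1) * B3 + 1 * m23_1 ≤ -1 ∧ 1 * B3 + (-1) * m23_1 ≤ 1) := by
  have h := C.f23_3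
  clear C
  omega

theorem c0_11_11_33_k1_k_f23_7 {n1 n2 n3 A1 A2 A3 B1 B2 B3 m11_1 m11_2 m11_3 m13_1 m13_2 m13_3 m22_1 m22_2 m22_3 m23_1 m23_2 m23_3 m33_1 m33_2 m33_3 : ℤ} (C : Ctx0 n1 n2 n3 A1 A2 A3 B1 B2 B3 m11_1 m11_2 m11_3 m13_1 m13_2 m13_3 m22_1 m22_2 m22_3 m23_1 m23_2 m23_3 m33_1 m33_2 m33_3) :
    ((-1) * m23_1 + 1 * m23_2 + (-1) * n2 ≤ 0 ∧ 1 * m23_1 + (-1) * m23_2 + 1 * n2 ≤ 0) ∨ ((-1) * A2 + 1 * m23_2 ≤ -1 ∧ 1 * A2 + (-1) * m23_2 ≤ 1) ∨ ((-1) * B3 + 1 * m23_2 ≤ -1 ∧ 1 * B3 + (-1) * m23_2 ≤ 1) := by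
  have h := C.f23_7
  clear C
  omega

theorem c0_11_11_33_k1_k_f23_10 {n1 n2 n3 A1 A2 A3 B1 B2 B3 m11_1 m11_2 m11_3 m13_1 m13_2 m13_3 m22_1 m22_2 m22_3 m23_1 m23_2 m23_3 m33_1 m33_2 m33_3 : ℤ} (C : Ctx0 n1 n2 n3 A1 A2 A3 B1 B2 B3 m11_1 m11_2 m11_3 m13_1 m13_2 m13_3 m22_1 m22_2 m22_3 m23_1 m23_2 m23_3 m33_1 m33_2 m33_3) :
    ((-1) * m23_2 + 1 * m23_3 + (-1) * n3 ≤ 0 ∧ 1 * m23_2 + (-1) * m23_3 + 1 * n3 ≤ 0) ∨ ((-1) * B3 + 1 * m23_3 ≤ -1 ∧ 1 * B3 + (-1) * m23_3 ≤ 1) := by
  have h := C.f23_10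
  clear C
  omega

theorem c0_11_11_33_k1_k_f33_5 {n1 n2 n3 A1 A2 A3 B1 B2 B3 m11_1 m11_2 m11_3 m13_1 m13_2 m13_3 m22_1 m22_2 m22_3 m23_1 m23_2 m23_3 m33_1 m33_2 m33_3 : ℤ} (C : Ctx0 n1 n2 n3 A1 A2 A3 B1 B2 B3 m11_1 m11_2 m11_3 m13_1 m13_2 m13_3 m22_1 m22_2 m22_3 m23_1 m23_2 m23_3 m33_1 m33_2 m33_3) :
    ((-1) * m33_1 + 1 * m33_2 + (-1) * n2 ≤ 0 ∧ 1 * m33_1 + (-1) * m33_2 + 1 * n2 ≤ 0) ∨ ((-1) * A3 + 1 * m33_2 ≤ -1 ∧ 1 * A3 + (-1) * m33_2 ≤ 1) := by
  have h := C.f33_5
  clear C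
  omega

theorem c0_11_11_33_k1_k_f33_8 {n1 n2 n3 A1 A2 A3 B1 B2 B3 m11_1 m11_2 m11_3 m13_1 m13_2 m13_3 m22_1 m22_2 m22_3 m23_1 m23_2 m23_3 m33_1 m33_2 m33_3 : ℤ} (C : Ctx0 n1 n2 n3 A1 A2 A3 B1 B2 B3 m11_1 m11_2 m11_3 m13_1 m13_2 m13_3 m22_1 m22_2 m22_3 m23_1 m23_2 m23_3 m33_1 m33_2 m33_3) :
    ((-1) * m33_2 + 1 * m33_3 + (-1) * n3 ≤ 0 ∧ 1 * m33_2 + (-1) * m33_3 + 1 * n3 ≤ 0) ∨ ((-1) * A3 + 1 * m33_3 ≤ -1 ∧ 1 * A3 + (-1) * m33_3 ≤ 1) := by
  have h := C.f33_8
  clear C
  omega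

theorem c0_11_11_33_k1_k_p11_13B {n1 n2 n3 A1 A2 A3 B1 B2 B3 m11_1 m11_2 m11_3 m13_1 m13_2 m13_3 m22_1 m22_2 m22_3 m23_1 m23_2 m23_3 m33_1 m33_2 m33_3 : ℤ} (C : Ctx0 n1 n2 n3 A1 A2 A3 B1 B2 B3 m11_1 m11_2 m11_3 m13_1 m13_2 m13_3 m22_1 m22_2 m22_3 m23_1 m23_2 m23_3 m33_1 m33_2 m33_3) :
    (1 * B1 ≤ 0) ∨ (1 * A1 ≤ 0) ∨ (1 * B3 ≤ 0) ∨ ((-2) * B1 + 1 * m11_1 + 1 * m13_1 ≤ -1) ∨ ((-2) * B2 + 1 * m11_2 + 1 * m13_2 ≤ -1) ∨ ((-2) * B3 + 1 * m11_3 + 1 * m13_3 ≤ -1) := by
  have h := C.p11_13B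
  clear C
  omega

theorem c0_11_11_33_k1_k_p11_22B {n1 n2 n3 A1 A2 A3 B1 B2 B3 m11_1 m11_2 m11_3 m13_1 m13_2 m13_3 m22_1 m22_2 m22_3 m23_1 m23_2 m23_3 m33_1 m33_2 m33_3 : ℤ} (C : Ctx0 n1 n2 n3 A1 A2 A3 B1 B2 B3 m11_1 m11_2 m11_3 m13_1 m13_2 m13_3 m22_1 m22_2 m22_3 m23_1 m23_2 m23_3 m33_1 m33_2 m33_3) :
    (1 * B1 ≤ 0) ∨ (1 * B2 ≤ 0) ∨ ((-2) * B1 + 1 * m11_1 + 1 * m22_1 ≤ -1) ∨ ((-2) * B2 + 1 * m11_2 + 1 * m22_2 ≤ -1) ∨ ((-2) * B3 + 1 * m11_3 + 1 * m22_3 ≤ -1) := by
  have h := C.p11_22B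
  clear C
  omega

theorem c0_11_11_33_k1_k_p11_23A {n1 n2 n3 A1 A2 A3 B1 B2 B3 m11_1 m11_2 m11_3 m13_1 m13_2 m13_3 m22_1 m22_2 m22_3 m23_1 m23_2 m23_3 m33_1 m33_2 m33_3 : ℤ} (C : Ctx0 n1 n2 n3 A1 A2 A3 B1 B2 B3 m11_1 m11_2 m11_3 m13_1 m13_2 m13_3 m22_1 m22_2 m22_3 m23_1 m23_2 m23_3 m33_1 m33_2 m33_3) :
    (1 * B1 ≤ 0) ∨ (1 * A2 ≤ 0) ∨ (1 * B3 ≤ 0) ∨ ((-2) * A1 + 1 * m11_1 + 1 * m23_1 ≤ -1) ∨ ((-2) * A2 + 1 * m11_2 + 1 * m23_2 ≤ -1) ∨ ((-2) * A3 + 1 * m11_3 + 1 * m23_3 ≤ -1) := by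
  have h := C.p11_23A
  clear C
  omega

theorem c0_11_11_33_k1_k_p11_23B {n1 n2 n3 A1 A2 A3 B1 B2 B3 m11_1 m11_2 m11_3 m13_1 m13_2 m13_3 m22_1 m22_2 m22_3 m23_1 m23_2 m23_3 m33_1 m33_2 m33_3 : ℤ} (C : Ctx0 n1 n2 n3 A1 A2 A3 B1 B2 B3 m11_1 m11_2 m11_3 m13_1 m13_2 m13_3 m22_1 m22_2 m22_3 m23_1 m23_2 m23_3 m33_1 m33_2 m33_3) :
    (1 * B1 ≤ 0) ∨ (1 * A2 ≤ 0) ∨ (1 * B3 ≤ 0) ∨ ((-2) * B1 + 1 * m11_1 + 1 * m23_1 ≤ -1) ∨ ((-2) * B2 + 1 * m11_2 + 1 * m23_2 ≤ -1) ∨ ((-2) * B3 + 1 * m11_3 + 1 * m23_3 ≤ -1) := by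
  have h := C.p11_23B
  clear C
  omega

theorem c0_11_11_33_k1_k_p11_33A {n1 n2 n3 A1 A2 A3 B1 B2 B3 m11_1 m11_2 m11_3 m13_1 m13_2 m13_3 m22_1 m22_2 m22_3 m23_1 m23_2 m23_3 m33_1 m33_2 m33_3 : ℤ} (C : Ctx0 n1 n2 n3 A1 A2 A3 B1 B2 B3 m11_1 m11_2 m11_3 m13_1 m13_2 m13_3 m22_1 m22_2 m22_3 m23_1 m23_2 m23_3 m33_1 m33_2 m33_3) :
    (1 * B1 ≤ 0) ∨ (1 * A3 ≤ 0) ∨ ((-2) * A1 + 1 * m11_1 + 1 * m33_1 ≤ -1) ∨ ((-2) * A2 + 1 * m11_2 + 1 * m33_2 ≤ -1) ∨ ((-2) * A3 + 1 * m11_3 + 1 * m33_3 ≤ -1) := by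
  have h := C.p11_33A
  clear C
  omega

theorem c0_11_11_33_k1_k_p11_33B {n1 n2 n3 A1 A2 A3 B1 B2 B3 m11_1 m11_2 m11_3 m13_1 m13_2 m13_3 m22_1 m22_2 m22_3 m23_1 m23_2 m23_3 m33_1 m33_2 m33_3 : ℤ} (C : Ctx0 n1 n2 n3 A1 A2 A3 B1 B2 B3 m11_1 m11_2 m11_3 m13_1 m13_2 m13_3 m22_1 m22_2 m22_3 m23_1 m23_2 m23_3 m33_1 m33_2 m33_3) :
    (1 * B1 ≤ 0) ∨ (1 * A3 ≤ 0) ∨ ((-2) * B1 + 1 * m11_1 + 1 * m33_1 ≤ -1) ∨ ((-2) * B2 + 1 * m11_2 + 1 * m33_2 ≤ -1) ∨ ((-2) * B3 + 1 * m11_3 + 1 * m33_3 ≤ -1) := by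
  have h := C.p11_33B
  clear C
  omega

theorem c0_11_11_33_k1_k_p13_22A {n1 n2 n3 A1 A2 A3 B1 B2 B3 m11_1 m11_2 m11_3 m13_1 m13_2 m13_3 m22_1 m22_2 m22_3 m23_1 m23_2 m23_3 m33_1 m33_2 m33_3 : ℤ} (C : Ctx0 n1 n2 n3 A1 A2 A3 B1 B2 B3 m11_1 m11_2 m11_3 m13_1 m13_2 m13_3 m22_1 m22_2 m22_3 m23_1 m23_2 m23_3 m33_1 m33_2 m33_3) :
    (1 * A1 ≤ 0) ∨ (1 * B3 ≤ 0) ∨ (1 * B2 ≤ 0) ∨ ((-2) * A1 + 1 * m13_1 + 1 * m22_1 ≤ -1) ∨ ((-2) * A2 + 1 * m13_2 + 1 * m22_2 ≤ -1) ∨ ((-2) * A3 + 1 * m13_3 + 1 * m22_3 ≤ -1) := by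
  have h := C.p13_22A
  clear C
  omega

theorem c0_11_11_33_k1_k_p13_33A {n1 n2 n3 A1 A2 A3 B1 B2 B3 m11_1 m11_2 m11_3 m13_1 m13_2 m13_3 m22_1 m22_2 m22_3 m23_1 m23_2 m23_3 m33_1 m33_2 m33_3 : ℤ} (C : Ctx0 n1 n2 n3 A1 A2 A3 B1 B2 B3 m11_1 m11_2 m11_3 m13_1 m13_2 m13_3 m22_1 m22_2 m22_3 m23_1 m23_2 m23_3 m33_1 m33_2 m33_3) :
    (1 * A1 ≤ 0) ∨ (1 * B3 ≤ 0) ∨ (1 * A3 ≤ 0) ∨ ((-2) * A1 + 1 * m13_1 + 1 * m33_1 ≤ -1) ∨ ((-2) * A2 + 1 * m13_2 + 1 * m33_2 ≤ -1) ∨ ((-2) * A3 + 1 * m13_3 + 1 * m33_3 ≤ -1) := by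
  have h := C.p13_33A
  clear C
  omega

theorem c0_11_11_33_k1_k_p22_33A {n1 n2 n3 A1 A2 A3 B1 B2 B3 m11_1 m11_2 m11_3 m13_1 m13_2 m13_3 m22_1 m22_2 m22_3 m23_1 m23_2 m23_3 m33_1 m33_2 m33_3 : ℤ} (C : Ctx0 n1 n2 n3 A1 A2 A3 B1 B2 B3 m11_1 m11_2 m11_3 m13_1 m13_2 m13_3 m22_1 m22_2 m22_3 m23_1 m23_2 m23_3 m33_1 m33_2 m33_3) :
    (1 * B2 ≤ 0) ∨ (1 * A3 ≤ 0) ∨ ((-2) * A1 + 1 * m22_1 + 1 * m33_1 ≤ -1) ∨ ((-2) * A2 + 1 * m22_2 + 1 * m33_2 ≤ -1) ∨ ((-2) * A3 + 1 * m22_3 + 1 * m33_3 ≤ -1) := by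
  have h := C.p22_33A
  clear C
  omega

theorem c0_11_11_33_k1_k_tmpp {n1 n2 n3 A1 A2 A3 B1 B2 B3 m11_1 m11_2 m11_3 m13_1 m13_2 m13_3 m22_1 m22_2 m22_3 m23_1 m23_2 m23_3 m33_1 m33_2 m33_3 : ℤ} (C : Ctx0 n1 n2 n3 A1 A2 A3 B1 B2 B3 m11_1 m11_2 m11_3 m13_1 m13_2 m13_3 m22_1 m22_2 m22_3 m23_1 m23_2 m23_3 m33_1 m33_2 m33_3) :
    ((-1) * A1 + 1 * n1 ≤ 0) ∨ ((-1) * A1 + 1 * A2 ≤ 1) ∨ (1 * B1 ≤ 0) ∨ (1 * B1 + (-1) * B2 + 1 * n2 ≤ 1) := by
  have h := C.tmpp
  clear C
  omega

theorem c0_11_11_33_k1_k_tzmp {n1 n2 n3 A1 A2 A3 B1 B2 B3 m11_1 m11_2 m11_3 m13_1 m13_2 m13_3 m22_1 m22_2 m22_3 m23_1 m23_2 m23_3 m33_1 m33_2 m33_3 : ℤ} (C : Ctx0 n1 n2 n3 A1 A2 A3 B1 B2 B3 m11_1 m11_2 m11_3 m13_1 m13_2 m13_3 m22_1 m22_2 m22_3 m23_1 m23_2 m23_3 m33_1 m33_2 m33_3) :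
    (1 * A1 + (-1) * A2 + 1 * n2 ≤ 0) ∨ ((-1) * A2 + 1 * A3 ≤ 1) ∨ ((-1) * B1 + 1 * B2 ≤ 0) ∨ (1 * B2 + (-1) * B3 + 1 * n3 ≤ 1) := by
  have h := C.tzmp
  clear C
  omega

theorem c0_11_11_33_k1 {n1 n2 n3 A1 A2 A3 B1 B2 B3 m11_1 m11_2 m11_3 m13_1 m13_2 m13_3 m22_1 m22_2 m22_3 m23_1 m23_2 m23_3 m33_1 m33_2 m33_3 : ℤ}
    (C : Ctx0 n1 n2 n3 A1 A2 A3 B1 B2 B3 m11_1 m11_2 m11_3 m13_1 m13_2 m13_3 m22_1 m22_2 m22_3 m23_1 m23_2 m23_3 m33_1 m33_2 m33_3)
    (e0 : 0 < B1)
    (e1 : 0 < A3)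
    (s1 : 1 * A1 + 2 * B1 ≤ m11_1 + m11_1 + m33_1)
    (s2 : 1 * A2 + 2 * B2 ≤ m11_2 + m11_2 + m33_2)
    (s3 : 1 * A3 + 2 * B3 ≤ m11_3 + m11_3 + m33_3) : False := by
  rcases c0_11_11_33_k1_k_f13_2 C with ⟨c0_0_0, c0_0_1⟩ | ⟨c0_1_0, c0_1_1⟩
  · rcases c0_11_11_33_k1_k_t12 C with ⟨c1_0_0, c1_0_1⟩ | ⟨c1_1_0, c1_1_1⟩
    · rcases c0_11_11_33_k1_k_t23 C with ⟨c2_0_0, c2_0_1⟩ | ⟨c2_1_0, c2_1_1⟩
      · rcases c0_11_11_33_k1_k_f13_5 C with ⟨c3_0_0, c3_0_1⟩ | ⟨c3_1_0, c3_1_1⟩
        · rcases c0_11_11_33_k1_k_f13_8 C with ⟨c4_0_0, c4_0_1⟩ | ⟨c4_1_0, c4_1_1⟩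
          · linarith only [C.b5, C.f13_7, C.o1, c0_0_1, c1_0_1, c3_0_1, c4_0_1]
          · rcases c0_11_11_33_k1_k_f22_2 C with ⟨c5_0_0, c5_0_1⟩ | ⟨c5_1_0, c5_1_1⟩
            · rcases c0_11_11_33_k1_k_f22_5 C with ⟨c6_0_0, c6_0_1⟩ | ⟨c6_1_0, c6_1_1⟩
              · linarith only [C.f11_0, C.f22_4, C.f33_0, C.o1, c1_0_1, c5_0_1, c6_0_1, s1]
              · rcases c0_11_11_33_k1_k_p11_22B C with c7_0_0 | c7_1_0 | c7_2_0 | c7_3_0 | c7_4_0
                · linarith only [c7_0_0, e0]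
                · linarith only [C.a1, C.f22_1, c1_0_0, c5_0_1, c7_1_0]
                · linarith only [C.f11_0, C.f33_0, C.o0, c5_0_1, c7_2_0, s1]
                · rcases c0_11_11_33_k1_k_f33_8 C with ⟨c9_0_0, c9_0_1⟩ | ⟨c9_1_0, c9_1_1⟩
                  · linarith only [C.f11_2, C.f33_7, C.o1, C.o2, c6_1_1, c7_3_0, c9_0_1, s2, s3]
                  · rcases c0_11_11_33_k1_k_p13_22A C with c11_0_0 | c11_1_0 | c11_2_0 | c11_3_0 | c11_4_0 | c11_5_0
                    · linarith only [c11_0_0, c1_0_0]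
                    · linarith only [C.o2, c11_1_0, e1]
                    · linarith only [C.f11_0, C.f22_1, C.f33_0, c11_2_0, c1_0_0, c5_0_1, s1]
                    · linarith only [C.f11_0, C.f33_0, c0_0_1, c11_3_0, c5_0_1, s1]
                    · rcases c0_11_11_33_k1_k_p22_33A C with c14_0_0 | c14_1_0 | c14_2_0 | c14_3_0 | c14_4_0
                      · linarith only [C.f11_0, C.f22_1, C.f33_0, C.o0, c14_0_0, c5_0_1, e0, s1]
                      · linarith only [c14_1_0, e1]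
                      · linarith only [C.f11_0, C.f33_0, c14_2_0, c5_0_1, s1]
                      · rcases c0_11_11_33_k1_k_f23_3 C with ⟨c15_0_0, c15_0_1⟩ | ⟨c15_1_0, c15_1_1⟩ | ⟨c15_2_0, c15_2_1⟩
                        · rcases c0_11_11_33_k1_k_f23_7 C with ⟨c16_0_0, c16_0_1⟩ | ⟨c16_1_0, c16_1_1⟩ | ⟨c16_2_0, c16_2_1⟩
                          · linarith only [C.f11_0, C.f23_5, C.f33_0, c15_0_1, c16_0_1, c1_0_1, s1]
                          · rcases c0_11_11_33_k1_k_f23_10 C with ⟨c17_0_0, c17_0_1⟩ | ⟨c17_1_0, c17_1_1⟩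
                            · linarith only [C.f11_2, C.f23_9, C.f33_7, C.o1, c16_1_1, c17_0_1, c6_1_1, c7_3_0, s3]
                            · rcases c0_11_11_33_k1_k_p11_13B C with c18_0_0 | c18_1_0 | c18_2_0 | c18_3_0 | c18_4_0 | c18_5_0
                              · linarith only [c18_0_0, e0]
                              · linarith only [c18_1_0, c1_0_0]
                              · linarith only [C.o2, c18_2_0, e1]
                              · rcases c0_11_11_33_k1_k_f33_5 C with ⟨c19_0_0, c19_0_1⟩ | ⟨c19_1_0, c19_1_1⟩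
                                · linarith only [C.f11_1, c0_0_1, c14_3_0, c18_3_0, c19_0_1, c1_0_1, c6_1_1, c7_3_0, s1]
                                · rcases c0_11_11_33_k1_k_p11_23B C with c22_0_0 | c22_1_0 | c22_2_0 | c22_3_0 | c22_4_0 | c22_5_0
                                  · linarith only [c22_0_0, e0]
                                  · linarith only [C.f11_0, C.f22_1, C.f33_0, c14_3_0, c19_1_1, c1_0_0, c22_1_0, c5_0_1, c6_1_1, e1, s1]
                                  · linarith only [C.o2, c22_2_0, e1]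
                                  · linarith only [C.f11_0, C.f33_0, C.o0, c15_0_1, c22_3_0, s1]
                                  · linarith only [C.f11_0, C.f11_1, C.o0, c0_0_1, c11_4_0, c14_3_0, c16_1_1, c22_4_0, c3_0_1, c6_1_1, s2]
                                  · linarith only [C.f33_7, c17_1_1, c22_5_0, s3]
                              · linarith only [C.f11_0, C.f11_1, C.o0, c0_0_1, c14_3_0, c18_4_0, c1_0_1, c3_0_1, c6_1_1, s2]
                              · linarith only [C.f33_7, c18_5_0, c4_1_1, s3]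
                          · linarith only [C.f13_4, C.f23_5, c0_0_1, c16_2_1, c1_0_1, c3_0_1]
                        · linarith only [C.f11_0, C.f11_1, C.f22_1, C.f23_0, C.o0, c0_0_1, c11_4_0, c14_3_0, c15_1_1, c3_0_1, c5_0_1, c6_1_1, s2]
                        · linarith only [C.f11_0, C.f11_1, C.f13_4, C.f22_1, C.f23_0, C.f33_4, C.o0, C.o2, c0_0_1, c11_4_0, c15_2_1, c3_0_1, c5_0_1, c6_1_1, s2]
                      · linarith only [C.f11_2, C.f22_6, C.o2, c14_4_0, c6_1_1, c7_3_0, c9_1_1, s3]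
                    · linarith only [C.f11_2, C.f22_6, C.f33_7, C.o2, c11_5_0, c4_1_1, c6_1_1, c7_3_0, s3]
                · linarith only [C.b5, C.f22_6, C.f33_7, c6_1_1, c7_4_0, s3]
            · rcases c0_11_11_33_k1_k_f22_5 C with ⟨c23_0_0, c23_0_1⟩ | ⟨c23_1_0, c23_1_1⟩
              · linarith only [C.f22_4, c1_0_1, c23_0_1, c2_0_0, c5_1_1]
              · rcases c0_11_11_33_k1_k_f23_3 C with ⟨c24_0_0, c24_0_1⟩ | ⟨c24_1_0, c24_1_1⟩ | ⟨c24_2_0, c24_2_1⟩
                · rcases c0_11_11_33_k1_k_f23_7 C with ⟨c25_0_0, c25_0_1⟩ | ⟨c25_1_0, c25_1_1⟩ | ⟨c25_2_0, c25_2_1⟩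
                  · linarith only [C.f11_0, C.f23_5, C.f33_0, c1_0_1, c24_0_1, c25_0_1, s1]
                  · rcases c0_11_11_33_k1_k_tmpp C with c26_0_0 | c26_1_0 | c26_2_0 | c26_3_0
                    · linarith only [C.f11_0, C.f33_0, c26_0_0, s1]
                    · linarith only [C.f11_0, C.f23_1, C.f33_0, c24_0_1, c26_1_0, s1]
                    · linarith only [c26_2_0, e0]
                    · rcases c0_11_11_33_k1_k_f23_10 C with ⟨c27_0_0, c27_0_1⟩ | ⟨c27_1_0, c27_1_1⟩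
                      · linarith only [C.f11_0, C.f11_1, C.f11_2, C.f23_9, C.f33_7, C.o1, c25_1_1, c26_3_0, c27_0_1, s3]
                      · rcases c0_11_11_33_k1_k_f33_8 C with ⟨c29_0_0, c29_0_1⟩ | ⟨c29_1_0, c29_1_1⟩
                        · linarith only [C.f11_0, C.f11_1, C.f11_2, C.f33_7, C.o1, C.o2, c26_3_0, c29_0_1, s2, s3]
                        · rcases c0_11_11_33_k1_k_p11_23B C with c31_0_0 | c31_1_0 | c31_2_0 | c31_3_0 | c31_4_0 | c31_5_0
                          · linarith only [c31_0_0, e0]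
                          · linarith only [c1_0_0, c2_0_0, c31_1_0]
                          · linarith only [C.o2, c31_2_0, e1]
                          · linarith only [C.f11_0, C.f33_0, C.o0, c24_0_1, c31_3_0, s1]
                          · rcases c0_11_11_33_k1_k_p11_33A C with c32_0_0 | c32_1_0 | c32_2_0 | c32_3_0 | c32_4_0
                            · linarith only [c32_0_0, e0]
                            · linarith only [c32_1_0, e1]
                            · rcases c0_11_11_33_k1_k_p11_13B C with c33_0_0 | c33_1_0 | c33_2_0 | c33_3_0 | c33_4_0 | c33_5_0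
                              · linarith only [c33_0_0, e0]
                              · linarith only [c1_0_0, c33_1_0]
                              · linarith only [C.o2, c33_2_0, e1]
                              · linarith only [c0_0_1, c32_2_0, c33_3_0, s1]
                              · linarith only [C.b3, C.f11_1, c0_0_1, c32_2_0, c33_4_0, c3_0_1, s1]
                              · linarith only [C.f33_7, c33_5_0, c4_1_1, s3]
                            · linarith only [c25_1_1, c31_4_0, c32_3_0, s2]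
                            · linarith only [C.o2, c29_1_1, c32_4_0, s3]
                          · linarith only [C.f33_7, c27_1_1, c31_5_0, s3]
                  · linarith only [C.f13_4, C.f23_5, c0_0_1, c1_0_1, c25_2_1, c3_0_1]
                · rcases c0_11_11_33_k1_k_f23_7 C with ⟨c34_0_0, c34_0_1⟩ | ⟨c34_1_0, c34_1_1⟩ | ⟨c34_2_0, c34_2_1⟩
                  · linarith only [C.f23_5, c1_0_1, c24_1_1, c2_0_0, c34_0_1]
                  · rcases c0_11_11_33_k1_k_f23_10 C with ⟨c35_0_0, c35_0_1⟩ | ⟨c35_1_0, c35_1_1⟩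
                    · rcases c0_11_11_33_k1_k_p11_22B C with c39_0_0 | c39_1_0 | c39_2_0 | c39_3_0 | c39_4_0
                      · linarith only [c39_0_0, e0]
                      · linarith only [C.b5, C.f23_9, C.o0, c2_0_0, c34_1_1, c35_0_1, c39_1_0, e0]
                      · linarith only [C.b5, C.f11_0, C.f23_9, C.o0, c2_0_0, c34_1_1, c35_0_1, c39_2_0, c5_1_1]
                      · linarith only [C.f11_2, C.f23_9, C.f33_7, C.o1, c23_1_1, c34_1_1, c35_0_1, c39_3_0, s3]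
                      · linarith only [C.b5, C.f22_6, C.f33_7, c23_1_1, c39_4_0, s3]
                    · rcases c0_11_11_33_k1_k_p11_23B C with c40_0_0 | c40_1_0 | c40_2_0 | c40_3_0 | c40_4_0 | c40_5_0
                      · linarith only [c40_0_0, e0]
                      · linarith only [c1_0_0, c2_0_0, c40_1_0]
                      · linarith only [C.f11_0, C.f33_1, C.o2, c1_0_0, c40_2_0, s1]
                      · linarith only [C.f11_0, C.o0, c24_1_1, c2_0_0, c40_3_0]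
                      · rcases c0_11_11_33_k1_k_f33_8 C with ⟨c41_0_0, c41_0_1⟩ | ⟨c41_1_0, c41_1_1⟩
                        · linarith only [C.f23_8, C.f33_7, C.o1, C.o2, c34_1_1, c35_1_1, c40_4_0, c41_0_1, s2]
                        · rcases c0_11_11_33_k1_k_p11_33A C with c43_0_0 | c43_1_0 | c43_2_0 | c43_3_0 | c43_4_0
                          · linarith only [c43_0_0, e0]
                          · linarith only [c43_1_0, e1]
                          · rcases c0_11_11_33_k1_k_p11_13B C with c44_0_0 | c44_1_0 | c44_2_0 | c44_3_0 | c44_4_0 | c44_5_0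
                            · linarith only [c44_0_0, e0]
                            · linarith only [c1_0_0, c44_1_0]
                            · linarith only [C.o2, c44_2_0, e1]
                            · linarith only [c0_0_1, c43_2_0, c44_3_0, s1]
                            · linarith only [C.b3, C.f11_1, c0_0_1, c3_0_1, c43_2_0, c44_4_0, s1]
                            · linarith only [C.f33_7, c44_5_0, c4_1_1, s3]
                          · linarith only [c34_1_1, c40_4_0, c43_3_0, s2]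
                          · linarith only [C.o2, c41_1_1, c43_4_0, s3]
                      · linarith only [C.f33_7, c35_1_1, c40_5_0, s3]
                  · linarith only [C.f13_4, C.f23_5, c0_0_1, c1_0_1, c34_2_1, c3_0_1]
                · linarith only [C.f13_4, C.f23_1, c0_0_1, c1_0_1, c24_2_1, c3_0_1]
        · rcases c0_11_11_33_k1_k_f13_8 C with ⟨c45_0_0, c45_0_1⟩ | ⟨c45_1_0, c45_1_1⟩
          · linarith only [C.a4, C.f13_7, c2_0_1, c3_1_1, c45_0_1]
          · rcases c0_11_11_33_k1_k_f33_5 C with ⟨c46_0_0, c46_0_1⟩ | ⟨c46_1_0, c46_1_1⟩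
            · linarith only [C.f11_0, C.f13_0, C.f13_3, C.f33_4, C.o2, c3_1_1, c46_0_1, s1]
            · rcases c0_11_11_33_k1_k_f33_8 C with ⟨c47_0_0, c47_0_1⟩ | ⟨c47_1_0, c47_1_1⟩
              · linarith only [C.a4, C.b5, C.f33_7, C.o1, C.o2, c46_1_1, c47_0_1]
              · rcases c0_11_11_33_k1_k_p11_13B C with c48_0_0 | c48_1_0 | c48_2_0 | c48_3_0 | c48_4_0 | c48_5_0
                · linarith only [c48_0_0, e0]
                · linarith only [c1_0_0, c48_1_0]
                · linarith only [C.f11_0, C.f33_1, C.o0, C.o2, c48_2_0, e0, s1]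
                · rcases c0_11_11_33_k1_k_p11_33A C with c49_0_0 | c49_1_0 | c49_2_0 | c49_3_0 | c49_4_0
                  · linarith only [c49_0_0, e0]
                  · linarith only [c49_1_0, e1]
                  · linarith only [c0_0_1, c48_3_0, c49_2_0, s1]
                  · rcases c0_11_11_33_k1_k_tmpp C with c52_0_0 | c52_1_0 | c52_2_0 | c52_3_0
                    · linarith only [C.f11_0, C.f33_0, c52_0_0, s1]
                    · linarith only [C.f11_0, C.f11_1, C.f13_3, C.f33_1, C.o2, c3_1_1, c46_1_1, c48_3_0, c49_3_0, c52_1_0, s1]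
                    · linarith only [c52_2_0, e0]
                    · linarith only [C.f11_0, C.f11_1, C.f13_3, C.f33_4, C.o2, c3_1_1, c48_3_0, c49_3_0, c52_3_0, s2]
                  · linarith only [C.b5, C.f11_0, C.f11_1, C.f11_2, C.f13_3, C.f33_4, C.o1, C.o2, c3_1_1, c47_1_1, c48_3_0, c49_4_0, s2]
                · linarith only [C.a4, C.f33_4, C.o1, C.o2, c3_1_1, c48_4_0, s2]
                · linarith only [C.f33_7, c45_1_1, c48_5_0, s3]
      · rcases c0_11_11_33_k1_k_f13_5 C with ⟨c53_0_0, c53_0_1⟩ | ⟨c53_1_0, c53_1_1⟩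
        · rcases c0_11_11_33_k1_k_f13_8 C with ⟨c54_0_0, c54_0_1⟩ | ⟨c54_1_0, c54_1_1⟩
          · linarith only [C.f11_0, C.f11_1, C.f11_2, C.f13_7, C.f33_7, C.o0, c0_0_1, c53_0_1, c54_0_1, s3]
          · rcases c0_11_11_33_k1_k_f23_3 C with ⟨c74_0_0, c74_0_1⟩ | ⟨c74_1_0, c74_1_1⟩ | ⟨c74_2_0, c74_2_1⟩
            · rcases c0_11_11_33_k1_k_f23_7 C with ⟨c75_0_0, c75_0_1⟩ | ⟨c75_1_0, c75_1_1⟩ | ⟨c75_2_0, c75_2_1⟩
              · linarith only [C.f11_0, C.f23_5, C.f33_0, c1_0_1, c74_0_1, c75_0_1, s1]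
              · rcases c0_11_11_33_k1_k_f23_10 C with ⟨c76_0_0, c76_0_1⟩ | ⟨c76_1_0, c76_1_1⟩
                · linarith only [C.f23_9, C.o1, c2_1_1, c75_1_1, c76_0_1]
                · rcases c0_11_11_33_k1_k_p11_23B C with c77_0_0 | c77_1_0 | c77_2_0 | c77_3_0 | c77_4_0 | c77_5_0
                  · linarith only [c77_0_0, e0]
                  · linarith only [C.f11_0, C.f23_1, C.f33_0, c1_0_0, c74_0_1, c77_1_0, s1]
                  · linarith only [C.o2, c77_2_0, e1]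
                  · linarith only [C.f11_0, C.f33_0, C.o0, c74_0_1, c77_3_0, s1]
                  · rcases c0_11_11_33_k1_k_f33_8 C with ⟨c79_0_0, c79_0_1⟩ | ⟨c79_1_0, c79_1_1⟩
                    · linarith only [C.f33_7, C.o1, C.o2, c2_1_1, c75_1_1, c77_4_0, c79_0_1, s2]
                    · rcases c0_11_11_33_k1_k_p11_33A C with c81_0_0 | c81_1_0 | c81_2_0 | c81_3_0 | c81_4_0
                      · linarith only [c81_0_0, e0]
                      · linarith only [c81_1_0, e1]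
                      · rcases c0_11_11_33_k1_k_p11_13B C with c82_0_0 | c82_1_0 | c82_2_0 | c82_3_0 | c82_4_0 | c82_5_0
                        · linarith only [c82_0_0, e0]
                        · linarith only [c1_0_0, c82_1_0]
                        · linarith only [C.o2, c82_2_0, e1]
                        · linarith only [c0_0_1, c81_2_0, c82_3_0, s1]
                        · linarith only [C.b3, C.f11_1, c0_0_1, c53_0_1, c81_2_0, c82_4_0, s1]
                        · linarith only [C.f33_7, c54_1_1, c82_5_0, s3]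
                      · linarith only [c75_1_1, c77_4_0, c81_3_0, s2]
                      · linarith only [C.o2, c79_1_1, c81_4_0, s3]
                  · linarith only [C.f33_7, c76_1_1, c77_5_0, s3]
              · linarith only [C.f13_4, C.f23_5, c0_0_1, c1_0_1, c53_0_1, c75_2_1]
            · rcases c0_11_11_33_k1_k_f23_7 C with ⟨c83_0_0, c83_0_1⟩ | ⟨c83_1_0, c83_1_1⟩ | ⟨c83_2_0, c83_2_1⟩
              · linarith only [C.a2, C.f23_5, c1_0_1, c74_1_1, c83_0_1]
              · rcases c0_11_11_33_k1_k_f23_10 C with ⟨c84_0_0, c84_0_1⟩ | ⟨c84_1_0, c84_1_1⟩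
                · linarith only [C.f23_9, C.o1, c2_1_1, c83_1_1, c84_0_1]
                · rcases c0_11_11_33_k1_k_f33_5 C with ⟨c86_0_0, c86_0_1⟩ | ⟨c86_1_0, c86_1_1⟩
                  · rcases c0_11_11_33_k1_k_f33_8 C with ⟨c87_0_0, c87_0_1⟩ | ⟨c87_1_0, c87_1_1⟩
                    · linarith only [C.f11_0, C.f11_1, C.f11_2, C.f33_7, C.o0, C.o2, c86_0_1, c87_0_1, s1, s3]
                    · rcases c0_11_11_33_k1_k_tzmp C with c94_0_0 | c94_1_0 | c94_2_0 | c94_3_0
                      · linarith only [c1_0_1, c94_0_0]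
                      · linarith only [C.f11_0, C.f33_4, c1_0_1, c86_0_1, c94_1_0, s1]
                      · linarith only [c2_1_0, c94_2_0]
                      · rcases c0_11_11_33_k1_k_p11_13B C with c95_0_0 | c95_1_0 | c95_2_0 | c95_3_0 | c95_4_0 | c95_5_0
                        · linarith only [c95_0_0, e0]
                        · linarith only [c1_0_0, c95_1_0]
                        · linarith only [C.f11_0, C.f11_1, C.f11_2, C.f33_4, C.f33_7, C.o0, C.o2, c2_1_0, c86_0_1, c94_3_0, c95_2_0, e0, s1, s3]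
                        · rcases c0_11_11_33_k1_k_p11_33A C with c96_0_0 | c96_1_0 | c96_2_0 | c96_3_0 | c96_4_0
                          · linarith only [c96_0_0, e0]
                          · linarith only [c96_1_0, e1]
                          · linarith only [c0_0_1, c95_3_0, c96_2_0, s1]
                          · linarith only [C.f11_1, c0_0_1, c1_0_1, c86_0_1, c95_3_0, c96_3_0, s1]
                          · linarith only [C.o2, c87_1_1, c96_4_0, s3]
                        · linarith only [C.f11_0, C.f11_1, C.f11_2, C.f33_7, C.o0, c0_0_1, c53_0_1, c94_3_0, c95_4_0, s3]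
                        · linarith only [C.f33_7, c54_1_1, c95_5_0, s3]
                  · rcases c0_11_11_33_k1_k_f33_8 C with ⟨c97_0_0, c97_0_1⟩ | ⟨c97_1_0, c97_1_1⟩
                    · linarith only [C.f11_0, C.f11_1, C.f11_2, C.f13_4, C.f33_7, C.o0, c0_0_1, c53_0_1, c86_1_1, c97_0_1, s3]
                    · rcases c0_11_11_33_k1_k_p11_13B C with c101_0_0 | c101_1_0 | c101_2_0 | c101_3_0 | c101_4_0 | c101_5_0
                      · linarith only [c101_0_0, e0]
                      · linarith only [c101_1_0, c1_0_0]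
                      · linarith only [C.f11_0, C.f33_1, C.o0, C.o2, c101_2_0, e0, s1]
                      · rcases c0_11_11_33_k1_k_p11_33A C with c102_0_0 | c102_1_0 | c102_2_0 | c102_3_0 | c102_4_0
                        · linarith only [c102_0_0, e0]
                        · linarith only [c102_1_0, e1]
                        · linarith only [c0_0_1, c101_3_0, c102_2_0, s1]
                        · rcases c0_11_11_33_k1_k_p11_23B C with c103_0_0 | c103_1_0 | c103_2_0 | c103_3_0 | c103_4_0 | c103_5_0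
                          · linarith only [c103_0_0, e0]
                          · linarith only [C.a2, c103_1_0, c1_0_0]
                          · linarith only [C.o2, c103_2_0, e1]
                          · linarith only [C.f11_1, C.f33_1, c102_3_0, c103_3_0, c1_0_1, c74_1_1, c86_1_1, s1]
                          · linarith only [c102_3_0, c103_4_0, c83_1_1, s2]
                          · linarith only [C.f11_0, C.f11_1, C.f11_2, c0_0_1, c101_3_0, c102_3_0, c103_5_0, c1_0_1, c2_1_1, c84_1_1, s2]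
                        · linarith only [C.f11_0, C.f11_1, C.f11_2, C.o1, C.o2, c0_0_1, c101_3_0, c102_4_0, c1_0_1, c2_1_1, c97_1_1]
                      · rcases c0_11_11_33_k1_k_p11_33A C with c104_0_0 | c104_1_0 | c104_2_0 | c104_3_0 | c104_4_0
                        · linarith only [c104_0_0, e0]
                        · linarith only [c104_1_0, e1]
                        · linarith only [C.b3, C.f11_1, c0_0_1, c101_4_0, c104_2_0, c53_0_1, s1]
                        · linarith only [c0_0_1, c101_4_0, c104_3_0, c1_0_1, c53_0_1, s2]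
                        · linarith only [C.o2, c104_4_0, c97_1_1, s3]
                      · linarith only [C.f33_7, c101_5_0, c54_1_1, s3]
              · linarith only [C.f13_4, C.f23_5, c0_0_1, c1_0_1, c53_0_1, c83_2_1]
            · linarith only [C.f13_4, C.f23_1, c0_0_1, c1_0_1, c53_0_1, c74_2_1]
        · rcases c0_11_11_33_k1_k_f13_8 C with ⟨c105_0_0, c105_0_1⟩ | ⟨c105_1_0, c105_1_1⟩
          · linarith only [C.a4, C.f13_7, C.o1, C.o2, c105_0_1, c2_1_1, c53_1_1]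
          · rcases c0_11_11_33_k1_k_f33_5 C with ⟨c106_0_0, c106_0_1⟩ | ⟨c106_1_0, c106_1_1⟩
            · linarith only [C.f11_0, C.f13_0, C.f13_3, C.f33_4, C.o2, c106_0_1, c53_1_1, s1]
            · rcases c0_11_11_33_k1_k_f33_8 C with ⟨c107_0_0, c107_0_1⟩ | ⟨c107_1_0, c107_1_1⟩
              · linarith only [C.a4, C.f33_7, C.o1, C.o2, c106_1_1, c107_0_1, c2_1_1]
              · rcases c0_11_11_33_k1_k_p11_13B C with c108_0_0 | c108_1_0 | c108_2_0 | c108_3_0 | c108_4_0 | c108_5_0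
                · linarith only [c108_0_0, e0]
                · linarith only [c108_1_0, c1_0_0]
                · linarith only [C.o2, c108_2_0, e1]
                · rcases c0_11_11_33_k1_k_p11_33A C with c109_0_0 | c109_1_0 | c109_2_0 | c109_3_0 | c109_4_0
                  · linarith only [c109_0_0, e0]
                  · linarith only [c109_1_0, e1]
                  · linarith only [c0_0_1, c108_3_0, c109_2_0, s1]
                  · rcases c0_11_11_33_k1_k_p11_33B C with c110_0_0 | c110_1_0 | c110_2_0 | c110_3_0 | c110_4_0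
                    · linarith only [c110_0_0, e0]
                    · linarith only [c110_1_0, e1]
                    · linarith only [C.f11_0, C.o0, c110_2_0, s1]
                    · linarith only [C.a4, c106_1_1, c109_3_0, c110_3_0, s2]
                    · rcases c0_11_11_33_k1_k_p13_33A C with c112_0_0 | c112_1_0 | c112_2_0 | c112_3_0 | c112_4_0 | c112_5_0
                      · linarith only [c112_0_0, c1_0_0]
                      · linarith only [C.f11_0, C.f11_1, C.f11_2, C.f13_0, C.f13_3, C.f33_1, C.f33_4, C.o0, c107_1_1, c109_3_0, c110_4_0, c112_1_0, c2_1_1, c53_1_1, e0, s1, s2]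
                      · linarith only [c112_2_0, e1]
                      · linarith only [C.f11_0, c0_0_1, c112_3_0, s1]
                      · linarith only [C.a4, C.f11_2, c106_1_1, c107_1_1, c110_4_0, c112_4_0, c2_1_1, c53_1_1, s2]
                      · linarith only [C.f11_0, C.f11_1, C.f11_2, C.f13_3, C.f33_4, c105_1_1, c107_1_1, c108_3_0, c109_3_0, c110_4_0, c112_5_0, c2_1_1, c53_1_1, s2]
                  · linarith only [C.f11_0, C.f11_1, C.f11_2, C.o1, C.o2, c0_0_1, c107_1_1, c108_3_0, c109_4_0, c1_0_1, c2_1_1]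
                · linarith only [C.a4, C.f33_4, C.o1, C.o2, c108_4_0, c53_1_1, s2]
                · linarith only [C.f33_7, c105_1_1, c108_5_0, s3]
    · rcases c0_11_11_33_k1_k_t23 C with ⟨c113_0_0, c113_0_1⟩ | ⟨c113_1_0, c113_1_1⟩
      · rcases c0_11_11_33_k1_k_f13_5 C with ⟨c114_0_0, c114_0_1⟩ | ⟨c114_1_0, c114_1_1⟩
        · rcases c0_11_11_33_k1_k_f13_8 C with ⟨c115_0_0, c115_0_1⟩ | ⟨c115_1_0, c115_1_1⟩
          · linarith only [C.f11_0, C.f11_1, C.f11_2, C.f13_7, C.f33_7, C.o0, c0_0_1, c114_0_1, c115_0_1, s3]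
          · rcases c0_11_11_33_k1_k_p11_13B C with c116_0_0 | c116_1_0 | c116_2_0 | c116_3_0 | c116_4_0 | c116_5_0
            · linarith only [c116_0_0, e0]
            · linarith only [C.o0, c116_1_0, e0]
            · linarith only [C.o2, c116_2_0, e1]
            · rcases c0_11_11_33_k1_k_f22_2 C with ⟨c117_0_0, c117_0_1⟩ | ⟨c117_1_0, c117_1_1⟩
              · rcases c0_11_11_33_k1_k_f22_5 C with ⟨c118_0_0, c118_0_1⟩ | ⟨c118_1_0, c118_1_1⟩
                · linarith only [C.a3, C.f11_0, C.f22_4, C.f33_0, C.o1, c117_0_1, c118_0_1, s1]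
                · rcases c0_11_11_33_k1_k_p11_22B C with c121_0_0 | c121_1_0 | c121_2_0 | c121_3_0 | c121_4_0
                  · linarith only [c121_0_0, e0]
                  · linarith only [C.f11_0, C.f22_1, C.f33_0, C.o0, c117_0_1, c121_1_0, e0, s1]
                  · linarith only [C.f11_0, C.f33_0, C.o0, c117_0_1, c121_2_0, s1]
                  · rcases c0_11_11_33_k1_k_f33_8 C with ⟨c122_0_0, c122_0_1⟩ | ⟨c122_1_0, c122_1_1⟩
                    · linarith only [C.f11_2, C.f33_7, C.o1, C.o2, c118_1_1, c121_3_0, c122_0_1, s2, s3]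
                    · rcases c0_11_11_33_k1_k_p11_33A C with c123_0_0 | c123_1_0 | c123_2_0 | c123_3_0 | c123_4_0
                      · linarith only [c123_0_0, e0]
                      · linarith only [c123_1_0, e1]
                      · linarith only [c0_0_1, c116_3_0, c123_2_0, s1]
                      · rcases c0_11_11_33_k1_k_f23_3 C with ⟨c124_0_0, c124_0_1⟩ | ⟨c124_1_0, c124_1_1⟩ | ⟨c124_2_0, c124_2_1⟩
                        · rcases c0_11_11_33_k1_k_f23_7 C with ⟨c125_0_0, c125_0_1⟩ | ⟨c125_1_0, c125_1_1⟩ | ⟨c125_2_0, c125_2_1⟩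
                          · linarith only [C.a3, C.f11_0, C.f23_5, C.f33_0, c124_0_1, c125_0_1, s1]
                          · rcases c0_11_11_33_k1_k_f23_10 C with ⟨c126_0_0, c126_0_1⟩ | ⟨c126_1_0, c126_1_1⟩
                            · linarith only [C.f11_2, C.f23_9, C.f33_7, c118_1_1, c121_3_0, c123_3_0, c125_1_1, c126_0_1, s2, s3]
                            · rcases c0_11_11_33_k1_k_p11_23B C with c129_0_0 | c129_1_0 | c129_2_0 | c129_3_0 | c129_4_0 | c129_5_0
                              · linarith only [c129_0_0, e0]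
                              · linarith only [C.f11_0, C.f22_1, C.f33_0, C.o0, c117_0_1, c118_1_1, c121_3_0, c123_3_0, c129_1_0, e0, s1, s2]
                              · linarith only [C.f11_0, C.f22_1, C.f33_0, C.f33_4, C.o0, C.o2, c117_0_1, c118_1_1, c121_3_0, c123_3_0, c129_2_0, e0, s1, s2]
                              · linarith only [C.f11_0, C.f33_0, C.o0, c124_0_1, c129_3_0, s1]
                              · linarith only [c123_3_0, c125_1_1, c129_4_0, s2]
                              · linarith only [C.f33_7, c126_1_1, c129_5_0, s3]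
                          · linarith only [C.a4, C.f23_5, C.o2, c125_2_1]
                        · linarith only [C.f22_1, C.f23_0, c117_0_1, c118_1_1, c121_3_0, c123_3_0, c124_1_1, s2]
                        · linarith only [C.f22_1, C.f23_0, C.f33_4, C.o2, c117_0_1, c118_1_1, c121_3_0, c123_3_0, c124_2_1, s2]
                      · linarith only [C.o2, c122_1_1, c123_4_0, s3]
                  · linarith only [C.b5, C.f22_6, C.f33_7, c118_1_1, c121_4_0, s3]
              · rcases c0_11_11_33_k1_k_f22_5 C with ⟨c130_0_0, c130_0_1⟩ | ⟨c130_1_0, c130_1_1⟩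
                · linarith only [C.a3, C.f22_4, c113_0_0, c117_1_1, c130_0_1]
                · rcases c0_11_11_33_k1_k_f23_3 C with ⟨c131_0_0, c131_0_1⟩ | ⟨c131_1_0, c131_1_1⟩ | ⟨c131_2_0, c131_2_1⟩
                  · rcases c0_11_11_33_k1_k_f23_7 C with ⟨c132_0_0, c132_0_1⟩ | ⟨c132_1_0, c132_1_1⟩ | ⟨c132_2_0, c132_2_1⟩
                    · linarith only [C.a3, C.f11_0, C.f23_5, C.f33_0, c131_0_1, c132_0_1, s1]
                    · rcases c0_11_11_33_k1_k_tmpp C with c134_0_0 | c134_1_0 | c134_2_0 | c134_3_0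
                      · linarith only [C.f11_0, C.f33_0, c134_0_0, s1]
                      · linarith only [C.f11_0, C.f23_1, C.f33_0, c131_0_1, c134_1_0, s1]
                      · linarith only [c134_2_0, e0]
                      · rcases c0_11_11_33_k1_k_f23_10 C with ⟨c135_0_0, c135_0_1⟩ | ⟨c135_1_0, c135_1_1⟩
                        · linarith only [C.f11_0, C.f11_1, C.f11_2, C.f23_9, C.f33_7, C.o1, c132_1_1, c134_3_0, c135_0_1, s3]
                        · rcases c0_11_11_33_k1_k_f33_8 C with ⟨c137_0_0, c137_0_1⟩ | ⟨c137_1_0, c137_1_1⟩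
                          · linarith only [C.f11_0, C.f11_1, C.f11_2, C.f33_7, C.o1, C.o2, c134_3_0, c137_0_1, s2, s3]
                          · rcases c0_11_11_33_k1_k_p11_23B C with c140_0_0 | c140_1_0 | c140_2_0 | c140_3_0 | c140_4_0 | c140_5_0
                            · linarith only [c140_0_0, e0]
                            · linarith only [C.f11_0, C.f23_1, C.f33_0, C.o0, c131_0_1, c140_1_0, e0, s1]
                            · linarith only [C.f11_0, C.f11_1, C.f23_1, C.f33_0, C.f33_4, C.o0, C.o2, c131_0_1, c134_3_0, c140_2_0, e0, s1, s2]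
                            · linarith only [C.f11_0, C.f33_0, C.o0, c131_0_1, c140_3_0, s1]
                            · rcases c0_11_11_33_k1_k_p11_33A C with c143_0_0 | c143_1_0 | c143_2_0 | c143_3_0 | c143_4_0
                              · linarith only [c143_0_0, e0]
                              · linarith only [c143_1_0, e1]
                              · linarith only [c0_0_1, c116_3_0, c143_2_0, s1]
                              · linarith only [c132_1_1, c140_4_0, c143_3_0, s2]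
                              · linarith only [C.o2, c137_1_1, c143_4_0, s3]
                            · linarith only [C.f33_7, c135_1_1, c140_5_0, s3]
                    · linarith only [C.a4, C.f23_5, C.o2, c132_2_1]
                  · rcases c0_11_11_33_k1_k_f23_7 C with ⟨c144_0_0, c144_0_1⟩ | ⟨c144_1_0, c144_1_1⟩ | ⟨c144_2_0, c144_2_1⟩
                    · linarith only [C.a3, C.f23_5, c113_0_0, c131_1_1, c144_0_1]
                    · rcases c0_11_11_33_k1_k_f23_10 C with ⟨c146_0_0, c146_0_1⟩ | ⟨c146_1_0, c146_1_1⟩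
                      · rcases c0_11_11_33_k1_k_p11_22B C with c149_0_0 | c149_1_0 | c149_2_0 | c149_3_0 | c149_4_0
                        · linarith only [c149_0_0, e0]
                        · linarith only [C.b5, C.f23_9, C.o0, c113_0_0, c144_1_1, c146_0_1, c149_1_0, e0]
                        · linarith only [C.b5, C.f11_0, C.f23_9, C.o0, c113_0_0, c117_1_1, c144_1_1, c146_0_1, c149_2_0]
                        · linarith only [C.f11_2, C.f23_9, C.f33_7, C.o1, c130_1_1, c144_1_1, c146_0_1, c149_3_0, s3]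
                        · linarith only [C.b5, C.f22_6, C.f33_7, c130_1_1, c149_4_0, s3]
                      · rcases c0_11_11_33_k1_k_p11_23B C with c150_0_0 | c150_1_0 | c150_2_0 | c150_3_0 | c150_4_0 | c150_5_0
                        · linarith only [c150_0_0, e0]
                        · linarith only [C.o0, c113_0_0, c150_1_0, e0]
                        · linarith only [C.f11_0, C.f33_1, C.o0, C.o2, c150_2_0, e0, s1]
                        · linarith only [C.f11_0, C.o0, c113_0_0, c131_1_1, c150_3_0]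
                        · rcases c0_11_11_33_k1_k_f33_8 C with ⟨c151_0_0, c151_0_1⟩ | ⟨c151_1_0, c151_1_1⟩
                          · linarith only [C.f23_8, C.f33_7, C.o1, C.o2, c144_1_1, c146_1_1, c150_4_0, c151_0_1, s2]
                          · rcases c0_11_11_33_k1_k_p11_33A C with c154_0_0 | c154_1_0 | c154_2_0 | c154_3_0 | c154_4_0
                            · linarith only [c154_0_0, e0]
                            · linarith only [c154_1_0, e1]
                            · linarith only [c0_0_1, c116_3_0, c154_2_0, s1]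
                            · linarith only [c144_1_1, c150_4_0, c154_3_0, s2]
                            · linarith only [C.o2, c151_1_1, c154_4_0, s3]
                        · linarith only [C.f33_7, c146_1_1, c150_5_0, s3]
                    · linarith only [C.a4, C.f23_5, C.o2, c144_2_1]
                  · linarith only [C.a4, C.f23_1, C.o2, c131_2_1]
            · linarith only [C.f11_0, C.f11_1, C.o0, c0_0_1, c114_0_1, c116_4_0, c1_1_1]
            · linarith only [C.f33_7, c115_1_1, c116_5_0, s3]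
        · rcases c0_11_11_33_k1_k_f13_8 C with ⟨c155_0_0, c155_0_1⟩ | ⟨c155_1_0, c155_1_1⟩
          · linarith only [C.a4, C.f13_7, c113_0_1, c114_1_1, c155_0_1]
          · rcases c0_11_11_33_k1_k_f33_5 C with ⟨c156_0_0, c156_0_1⟩ | ⟨c156_1_0, c156_1_1⟩
            · linarith only [C.f11_0, C.f13_0, C.f13_3, C.f33_4, C.o2, c114_1_1, c156_0_1, s1]
            · rcases c0_11_11_33_k1_k_f33_8 C with ⟨c157_0_0, c157_0_1⟩ | ⟨c157_1_0, c157_1_1⟩
              · linarith only [C.a4, C.b5, C.f33_7, C.o1, C.o2, c156_1_1, c157_0_1]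
              · rcases c0_11_11_33_k1_k_p11_13B C with c158_0_0 | c158_1_0 | c158_2_0 | c158_3_0 | c158_4_0 | c158_5_0
                · linarith only [c158_0_0, e0]
                · linarith only [C.o0, c158_1_0, e0]
                · linarith only [C.f11_0, C.f33_1, C.o0, C.o2, c158_2_0, e0, s1]
                · rcases c0_11_11_33_k1_k_p11_33A C with c159_0_0 | c159_1_0 | c159_2_0 | c159_3_0 | c159_4_0
                  · linarith only [c159_0_0, e0]
                  · linarith only [c159_1_0, e1]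
                  · linarith only [c0_0_1, c158_3_0, c159_2_0, s1]
                  · rcases c0_11_11_33_k1_k_tmpp C with c162_0_0 | c162_1_0 | c162_2_0 | c162_3_0
                    · linarith only [C.f11_0, C.f33_0, c162_0_0, s1]
                    · linarith only [C.f11_0, C.f11_1, C.f13_3, C.f33_1, C.o2, c114_1_1, c156_1_1, c158_3_0, c159_3_0, c162_1_0, s1]
                    · linarith only [c162_2_0, e0]
                    · linarith only [C.f11_0, C.f11_1, C.f13_3, C.f33_4, C.o2, c114_1_1, c158_3_0, c159_3_0, c162_3_0, s2]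
                  · linarith only [C.b5, C.f11_0, C.f11_1, C.f11_2, C.f13_3, C.f33_4, C.o1, C.o2, c114_1_1, c157_1_1, c158_3_0, c159_4_0, s2]
                · linarith only [C.a4, C.f33_4, C.o1, C.o2, c114_1_1, c158_4_0, s2]
                · linarith only [C.f33_7, c155_1_1, c158_5_0, s3]
      · rcases c0_11_11_33_k1_k_f13_5 C with ⟨c163_0_0, c163_0_1⟩ | ⟨c163_1_0, c163_1_1⟩
        · rcases c0_11_11_33_k1_k_f13_8 C with ⟨c164_0_0, c164_0_1⟩ | ⟨c164_1_0, c164_1_1⟩
          · linarith only [C.a3, C.f13_7, C.o1, c0_0_1, c113_1_1, c163_0_1, c164_0_1]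
          · rcases c0_11_11_33_k1_k_p11_13B C with c165_0_0 | c165_1_0 | c165_2_0 | c165_3_0 | c165_4_0 | c165_5_0
            · linarith only [c165_0_0, e0]
            · linarith only [C.o0, c165_1_0, e0]
            · linarith only [C.o2, c165_2_0, e1]
            · rcases c0_11_11_33_k1_k_f23_3 C with ⟨c181_0_0, c181_0_1⟩ | ⟨c181_1_0, c181_1_1⟩ | ⟨c181_2_0, c181_2_1⟩
              · rcases c0_11_11_33_k1_k_f23_7 C with ⟨c182_0_0, c182_0_1⟩ | ⟨c182_1_0, c182_1_1⟩ | ⟨c182_2_0, c182_2_1⟩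
                · linarith only [C.a3, C.f11_0, C.f23_5, C.f33_0, c181_0_1, c182_0_1, s1]
                · rcases c0_11_11_33_k1_k_f23_10 C with ⟨c183_0_0, c183_0_1⟩ | ⟨c183_1_0, c183_1_1⟩
                  · linarith only [C.f23_9, C.o1, c113_1_1, c182_1_1, c183_0_1]
                  · rcases c0_11_11_33_k1_k_p11_23A C with c184_0_0 | c184_1_0 | c184_2_0 | c184_3_0 | c184_4_0 | c184_5_0
                    · linarith only [c184_0_0, e0]
                    · linarith only [C.a0, C.f11_0, C.f23_1, C.f33_0, c181_0_1, c184_1_0, s1]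
                    · linarith only [C.o2, c184_2_0, e1]
                    · linarith only [C.f33_0, c0_0_1, c165_3_0, c181_0_1, c184_3_0, s1]
                    · rcases c0_11_11_33_k1_k_p11_23B C with c185_0_0 | c185_1_0 | c185_2_0 | c185_3_0 | c185_4_0 | c185_5_0
                      · linarith only [c185_0_0, e0]
                      · linarith only [C.a0, C.f11_0, C.f23_1, C.f33_0, c181_0_1, c185_1_0, s1]
                      · linarith only [C.o2, c185_2_0, e1]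
                      · linarith only [C.f11_0, C.f33_0, C.o0, c181_0_1, c185_3_0, s1]
                      · rcases c0_11_11_33_k1_k_f33_8 C with ⟨c187_0_0, c187_0_1⟩ | ⟨c187_1_0, c187_1_1⟩
                        · linarith only [C.f33_7, C.o2, c113_1_1, c182_1_1, c184_4_0, c185_4_0, c187_0_1, s2]
                        · rcases c0_11_11_33_k1_k_p11_33A C with c191_0_0 | c191_1_0 | c191_2_0 | c191_3_0 | c191_4_0
                          · linarith only [c191_0_0, e0]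
                          · linarith only [c191_1_0, e1]
                          · linarith only [c0_0_1, c165_3_0, c191_2_0, s1]
                          · linarith only [c182_1_1, c185_4_0, c191_3_0, s2]
                          · linarith only [C.f11_0, C.f11_1, C.f11_2, C.o2, c113_1_1, c187_1_1, c191_4_0, c1_1_1]
                      · linarith only [C.f11_0, C.f11_1, C.f11_2, c113_1_1, c183_1_1, c185_5_0, c1_1_1]
                    · linarith only [C.f11_0, C.f11_1, C.f11_2, C.o2, c113_1_1, c183_1_1, c184_5_0, c1_1_1]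
                · linarith only [C.a4, C.f23_5, C.o2, c182_2_1]
              · rcases c0_11_11_33_k1_k_f23_7 C with ⟨c192_0_0, c192_0_1⟩ | ⟨c192_1_0, c192_1_1⟩ | ⟨c192_2_0, c192_2_1⟩
                · linarith only [C.f23_5, c113_1_0, c181_1_1, c192_0_1, c1_1_1]
                · rcases c0_11_11_33_k1_k_f23_10 C with ⟨c193_0_0, c193_0_1⟩ | ⟨c193_1_0, c193_1_1⟩
                  · linarith only [C.f23_9, C.o1, c113_1_1, c192_1_1, c193_0_1]
                  · rcases c0_11_11_33_k1_k_f33_5 C with ⟨c196_0_0, c196_0_1⟩ | ⟨c196_1_0, c196_1_1⟩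
                    · rcases c0_11_11_33_k1_k_f33_8 C with ⟨c197_0_0, c197_0_1⟩ | ⟨c197_1_0, c197_1_1⟩
                      · linarith only [C.f11_0, C.f33_7, C.o0, C.o2, c113_1_1, c196_0_1, c197_0_1, c1_1_1, s1]
                      · rcases c0_11_11_33_k1_k_p11_33A C with c198_0_0 | c198_1_0 | c198_2_0 | c198_3_0 | c198_4_0
                        · linarith only [c198_0_0, e0]
                        · linarith only [c198_1_0, e1]
                        · linarith only [c0_0_1, c165_3_0, c198_2_0, s1]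
                        · linarith only [C.a3, C.f11_1, c0_0_1, c165_3_0, c196_0_1, c198_3_0, s1]
                        · linarith only [C.f11_0, C.f11_1, C.f11_2, C.o2, c113_1_1, c197_1_1, c198_4_0, c1_1_1]
                    · rcases c0_11_11_33_k1_k_f33_8 C with ⟨c199_0_0, c199_0_1⟩ | ⟨c199_1_0, c199_1_1⟩
                      · linarith only [C.f13_4, C.f33_7, C.o0, c0_0_1, c113_1_1, c163_0_1, c196_1_1, c199_0_1, c1_1_1]
                      · rcases c0_11_11_33_k1_k_p11_33A C with c200_0_0 | c200_1_0 | c200_2_0 | c200_3_0 | c200_4_0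
                        · linarith only [c200_0_0, e0]
                        · linarith only [c200_1_0, e1]
                        · linarith only [c0_0_1, c165_3_0, c200_2_0, s1]
                        · rcases c0_11_11_33_k1_k_p11_23B C with c201_0_0 | c201_1_0 | c201_2_0 | c201_3_0 | c201_4_0 | c201_5_0
                          · linarith only [c201_0_0, e0]
                          · linarith only [C.f11_0, C.f11_1, C.f33_1, C.o0, c113_1_0, c196_1_1, c1_1_1, c200_3_0, c201_1_0, e0, s1]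
                          · linarith only [C.f11_0, C.f33_1, C.o0, C.o2, c201_2_0, e0, s1]
                          · linarith only [C.f11_0, C.f11_1, C.f33_1, C.o0, c113_1_0, c181_1_1, c196_1_1, c1_1_1, c200_3_0, c201_3_0, s1]
                          · linarith only [c192_1_1, c200_3_0, c201_4_0, s2]
                          · linarith only [C.f11_0, C.f11_1, C.f11_2, c113_1_1, c193_1_1, c1_1_1, c201_5_0]
                        · linarith only [C.f11_0, C.f11_1, C.f11_2, C.o2, c113_1_1, c199_1_1, c1_1_1, c200_4_0]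
                · linarith only [C.a4, C.f23_5, C.o2, c192_2_1]
              · linarith only [C.a4, C.f23_1, C.o2, c181_2_1]
            · linarith only [C.f11_0, C.f11_1, C.o0, c0_0_1, c163_0_1, c165_4_0, c1_1_1]
            · linarith only [C.f11_0, C.f11_1, C.f11_2, c113_1_1, c164_1_1, c165_5_0, c1_1_1]
        · rcases c0_11_11_33_k1_k_f13_8 C with ⟨c202_0_0, c202_0_1⟩ | ⟨c202_1_0, c202_1_1⟩
          · linarith only [C.a4, C.f13_7, C.o1, C.o2, c113_1_1, c163_1_1, c202_0_1]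
          · rcases c0_11_11_33_k1_k_f33_5 C with ⟨c203_0_0, c203_0_1⟩ | ⟨c203_1_0, c203_1_1⟩
            · linarith only [C.f11_0, C.f13_0, C.f13_3, C.f33_4, C.o2, c163_1_1, c203_0_1, s1]
            · rcases c0_11_11_33_k1_k_f33_8 C with ⟨c204_0_0, c204_0_1⟩ | ⟨c204_1_0, c204_1_1⟩
              · linarith only [C.a4, C.f33_7, C.o1, C.o2, c113_1_1, c203_1_1, c204_0_1]
              · rcases c0_11_11_33_k1_k_p11_13B C with c205_0_0 | c205_1_0 | c205_2_0 | c205_3_0 | c205_4_0 | c205_5_0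
                · linarith only [c205_0_0, e0]
                · linarith only [C.o0, c205_1_0, e0]
                · linarith only [C.o2, c205_2_0, e1]
                · rcases c0_11_11_33_k1_k_p11_33A C with c206_0_0 | c206_1_0 | c206_2_0 | c206_3_0 | c206_4_0
                  · linarith only [c206_0_0, e0]
                  · linarith only [c206_1_0, e1]
                  · linarith only [c0_0_1, c205_3_0, c206_2_0, s1]
                  · rcases c0_11_11_33_k1_k_p11_33B C with c207_0_0 | c207_1_0 | c207_2_0 | c207_3_0 | c207_4_0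
                    · linarith only [c207_0_0, e0]
                    · linarith only [c207_1_0, e1]
                    · linarith only [C.f11_0, C.o0, c207_2_0, s1]
                    · linarith only [C.a4, c203_1_1, c206_3_0, c207_3_0, s2]
                    · rcases c0_11_11_33_k1_k_p13_33A C with c209_0_0 | c209_1_0 | c209_2_0 | c209_3_0 | c209_4_0 | c209_5_0
                      · linarith only [C.o0, c209_0_0, e0]
                      · linarith only [C.f11_0, C.f11_1, C.f11_2, C.f13_0, C.f13_3, C.f33_1, C.f33_4, C.o0, c113_1_1, c163_1_1, c204_1_1, c206_3_0, c207_4_0, c209_1_0, e0, s1, s2]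
                      · linarith only [c209_2_0, e1]
                      · linarith only [C.f11_0, c0_0_1, c209_3_0, s1]
                      · linarith only [C.a4, C.f11_2, c113_1_1, c163_1_1, c203_1_1, c204_1_1, c207_4_0, c209_4_0, s2]
                      · linarith only [C.f11_0, C.f11_1, C.f11_2, C.f13_3, C.f33_4, c113_1_1, c163_1_1, c202_1_1, c204_1_1, c205_3_0, c206_3_0, c207_4_0, c209_5_0, s2]
                  · linarith only [C.o2, c204_1_1, c206_4_0, s3]
                · linarith only [C.a4, C.f33_4, C.o1, C.o2, c163_1_1, c205_4_0, s2]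
                · linarith only [C.f33_7, c202_1_1, c205_5_0, s3]
  · linarith only [C.f11_0, C.f13_0, C.f33_1, C.o2, c0_1_1, s1]

end Pool.Agent.Helper24.TQ
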