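import Pool.Agent.Helper89.TQ.Ctx

set_option autoImplicit false
set_option linter.all false
set_option maxHeartbeats 4000000

namespace Pool.Agent.Helper24.TQ

open Pool.Agent.Helper89.TQ

theorem c0_11_13_23_k0_k_t12 {n1 n2 n3 A1 A2 A3 B1 B2 B3 m11_1 m11_2 m11_3 m13_1 m13_2 m13_3 m22_1 m22_2 m22_3 m23_1 m23_2 m23_3 m33_1 m33_2 m33_3 : ℤ} (C : Ctx0 n1 n2 n3 A1 A2 A3 B1 B2 B3 m11_1 m11_2 m11_3 m13_1 m13_2 m13_3 m22_1 m22_2 m22_3 m23_1 m23_2 m23_3 m33_1 m33_2 m33_3) :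
    ((-1) * A1 ≤ -1 ∧ (-1) * A1 + 1 * A2 + (-1) * n2 ≤ -1) ∨ ((-1) * B1 ≤ -1 ∧ (-1) * B1 + 1 * B2 + (-1) * n2 ≤ -1) := by
  have h := C.t12
  clear C
  omega

theorem c0_11_13_23_k0_k_f13_2 {n1 n2 n3 A1 A2 A3 B1 B2 B3 m11_1 m11_2 m11_3 m13_1 m13_2 m13_3 m22_1 m22_2 m22_3 m23_1 m23_2 m23_3 m33_1 m33_2 m33_3 : ℤ} (C : Ctx0 n1 n2 n3 A1 A2 A3 B1 B2 B3 m11_1 m11_2 m11_3 m13_1 m13_2 m13_3 m22_1 m22_2 m22_3 m23_1 m23_2 m23_3 m33_1 m33_2 m33_3) :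
    ((-1) * A1 + 1 * m13_1 ≤ -1 ∧ 1 * A1 + (-1) * m13_1 ≤ 1) ∨ ((-1) * B3 + 1 * m13_1 ≤ -1 ∧ 1 * B3 + (-1) * m13_1 ≤ 1) := by
  have h := C.f13_2
  clear C
  omega

theorem c0_11_13_23_k0_k_f13_5 {n1 n2 n3 A1 A2 A3 B1 B2 B3 m11_1 m11_2 m11_3 m13_1 m13_2 m13_3 m22_1 m22_2 m22_3 m23_1 m23_2 m23_3 m33_1 m33_2 m33_3 : ℤ} (C : Ctx0 n1 n2 n3 A1 A2 A3 B1 B2 B3 m11_1 m11_2 m11_3 m13_1 m13_2 m13_3 m22_1 m22_2 m22_3 m23_1 m23_2 m23_3 m33_1 m33_2 m33_3) :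
    ((-1) * m13_1 + 1 * m13_2 + (-1) * n2 ≤ 0 ∧ 1 * m13_1 + (-1) * m13_2 + 1 * n2 ≤ 0) ∨ ((-1) * B3 + 1 * m13_2 ≤ -1 ∧ 1 * B3 + (-1) * m13_2 ≤ 1) := by
  have h := C.f13_5
  clear C
  omega

theorem c0_11_13_23_k0_k_f23_7 {n1 n2 n3 A1 A2 A3 B1 B2 B3 m11_1 m11_2 m11_3 m13_1 m13_2 m13_3 m22_1 m22_2 m22_3 m23_1 m23_2 m23_3 m33_1 m33_2 m33_3 : ℤ} (C : Ctx0 n1 n2 n3 A1 A2 A3 B1 B2 B3 m11_1 m11_2 m11_3 m13_1 m13_2 m13_3 m22_1 m22_2 m22_3 m23_1 m23_2 m23_3 m33_1 m33_2 m33_3) :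
    ((-1) * m23_1 + 1 * m23_2 + (-1) * n2 ≤ 0 ∧ 1 * m23_1 + (-1) * m23_2 + 1 * n2 ≤ 0) ∨ ((-1) * A2 + 1 * m23_2 ≤ -1 ∧ 1 * A2 + (-1) * m23_2 ≤ 1) ∨ ((-1) * B3 + 1 * m23_2 ≤ -1 ∧ 1 * B3 + (-1) * m23_2 ≤ 1) := by
  have h := C.f23_7
  clear C
  omega

theorem c0_11_13_23_k0_k_p11_13B {n1 n2 n3 A1 A2 A3 B1 B2 B3 m11_1 m11_2 m11_3 m13_1 m13_2 m13_3 m22_1 m22_2 m22_3 m23_1 m23_2 m23_3 m33_1 m33_2 m33_3 : ℤ} (C : Ctx0 n1 n2 n3 A1 A2 A3 B1 B2 B3 m11_1 m11_2 m11_3 m13_1 m13_2 m13_3 m22_1 m22_2 m22_3 m23_1 m23_2 m23_3 m33_1 m33_2 m33_3) :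
    (1 * B1 ≤ 0) ∨ (1 * A1 ≤ 0) ∨ (1 * B3 ≤ 0) ∨ ((-2) * B1 + 1 * m11_1 + 1 * m13_1 ≤ -1) ∨ ((-2) * B2 + 1 * m11_2 + 1 * m13_2 ≤ -1) ∨ ((-2) * B3 + 1 * m11_3 + 1 * m13_3 ≤ -1) := by
  have h := C.p11_13B
  clear C
  omega

theorem c0_11_13_23_k0_k_p11_23B {n1 n2 n3 A1 A2 A3 B1 B2 B3 m11_1 m11_2 m11_3 m13_1 m13_2 m13_3 m22_1 m22_2 m22_3 m23_1 m23_2 m23_3 m33_1 m33_2 m33_3 : ℤ} (C : Ctx0 n1 n2 n3 A1 A2 A3 B1 B2 B3 m11_1 m11_2 m11_3 m13_1 m13_2 m13_3 m22_1 m22_2 m22_3 m23_1 m23_2 m23_3 m33_1 m33_2 m33_3) :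
    (1 * B1 ≤ 0) ∨ (1 * A2 ≤ 0) ∨ (1 * B3 ≤ 0) ∨ ((-2) * B1 + 1 * m11_1 + 1 * m23_1 ≤ -1) ∨ ((-2) * B2 + 1 * m11_2 + 1 * m23_2 ≤ -1) ∨ ((-2) * B3 + 1 * m11_3 + 1 * m23_3 ≤ -1) := by
  have h := C.p11_23B
  clear C
  omega

theorem c0_11_13_23_k0_k_tzpm {n1 n2 n3 A1 A2 A3 B1 B2 B3 m11_1 m11_2 m11_3 m13_1 m13_2 m13_3 m22_1 m22_2 m22_3 m23_1 m23_2 m23_3 m33_1 m33_2 m33_3 : ℤ} (C : Ctx0 n1 n2 n3 A1 A2 A3 B1 B2 B3 m11_1 m11_2 m11_3 m13_1 m13_2 m13_3 m22_1 m22_2 m22_3 m23_1 m23_2 m23_3 m33_1 m33_2 m33_3) :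
    ((-1) * A1 + 1 * A2 ≤ 0) ∨ (1 * A2 + (-1) * A3 + 1 * n3 ≤ 1) ∨ (1 * B1 + (-1) * B2 + 1 * n2 ≤ 0) ∨ ((-1) * B2 + 1 * B3 ≤ 1) ∨ ((-1) * A2 + 1 * B2 ≤ -1 ∧ (-1) * A3 + 1 * B3 ≤ 1) := by
  have h := C.tzpm
  clear C
  omega

theorem c0_11_13_23_k0 {n1 n2 n3 A1 A2 A3 B1 B2 B3 m11_1 m11_2 m11_3 m13_1 m13_2 m13_3 m22_1 m22_2 m22_3 m23_1 m23_2 m23_3 m33_1 m33_2 m33_3 : ℤ}
    (C : Ctx0 n1 n2 n3 A1 A2 A3 B1 B2 B3 m11_1 m11_2 m11_3 m13_1 m13_2 m13_3 m22_1 m22_2 m22_3 m23_1 m23_2 m23_3 m33_1 m33_2 m33_3)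
    (e0 : 0 < B1)
    (e1 : 0 < A1)
    (e2 : 0 < B3)
    (e3 : 0 < A2)
    (s1 : 0 * A1 + 3 * B1 ≤ m11_1 + m13_1 + m23_1)
    (s2 : 0 * A2 + 3 * B2 ≤ m11_2 + m13_2 + m23_2)
    (s3 : 0 * A3 + 3 * B3 ≤ m11_3 + m13_3 + m23_3) : False := by
  rcases c0_11_13_23_k0_k_f13_2 C with ⟨c0_0_0, c0_0_1⟩ | ⟨c0_1_0, c0_1_1⟩
  · rcases c0_11_13_23_k0_k_t12 C with ⟨c1_0_0, c1_0_1⟩ | ⟨c1_1_0, c1_1_1⟩
    · rcases c0_11_13_23_k0_k_f13_5 C with ⟨c24_0_0, c24_0_1⟩ | ⟨c24_1_0, c24_1_1⟩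
      · rcases c0_11_13_23_k0_k_p11_13B C with c26_0_0 | c26_1_0 | c26_2_0 | c26_3_0 | c26_4_0 | c26_5_0
        · linarith only [c26_0_0, e0]
        · linarith only [c26_1_0, e1]
        · linarith only [c26_2_0, e2]
        · rcases c0_11_13_23_k0_k_f23_7 C with ⟨c27_0_0, c27_0_1⟩ | ⟨c27_1_0, c27_1_1⟩ | ⟨c27_2_0, c27_2_1⟩
          · linarith only [C.f11_0, C.f23_5, c0_0_1, c1_0_1, c26_3_0, c27_0_1, s1]
          · rcases c0_11_13_23_k0_k_p11_23B C with c29_0_0 | c29_1_0 | c29_2_0 | c29_3_0 | c29_4_0 | c29_5_0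
            · linarith only [c29_0_0, e0]
            · linarith only [c29_1_0, e3]
            · linarith only [c29_2_0, e2]
            · linarith only [C.f11_0, c26_3_0, c29_3_0, s1]
            · rcases c0_11_13_23_k0_k_tzpm C with c34_0_0 | c34_1_0 | c34_2_0 | c34_3_0 | ⟨c34_4_0, c34_4_1⟩
              · linarith only [C.f11_0, C.f23_1, c0_0_1, c26_3_0, c34_0_0, s1]
              · linarith only [C.f11_2, C.f13_7, C.f23_9, C.o1, C.o2, c27_1_1, c29_4_0, c34_1_0, s3]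
              · linarith only [C.f11_0, C.f11_1, C.f13_3, C.f23_5, c0_0_1, c1_0_1, c26_3_0, c34_2_0, s2]
              · linarith only [C.f13_4, c29_4_0, c34_3_0, s2]
              · linarith only [C.f11_0, C.f11_1, C.f13_3, c26_3_0, c27_1_1, c29_4_0, c34_4_0, s2]
            · linarith only [C.f13_7, c29_5_0, s3]
          · linarith only [C.a4, C.f23_5, C.o2, c27_2_1]
        · linarith only [C.b3, C.f11_0, C.f11_1, C.f23_5, c0_0_1, c1_0_1, c24_0_1, c26_4_0, s2]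
        · linarith only [C.f23_9, c26_5_0, s3]
      · rcases c0_11_13_23_k0_k_p11_13B C with c36_0_0 | c36_1_0 | c36_2_0 | c36_3_0 | c36_4_0 | c36_5_0
        · linarith only [c36_0_0, e0]
        · linarith only [c36_1_0, e1]
        · linarith only [c36_2_0, e2]
        · rcases c0_11_13_23_k0_k_f23_7 C with ⟨c37_0_0, c37_0_1⟩ | ⟨c37_1_0, c37_1_1⟩ | ⟨c37_2_0, c37_2_1⟩
          · linarith only [C.a4, C.f11_0, C.f13_3, C.f23_5, C.o2, c24_1_1, c36_3_0, c37_0_1, s1]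
          · rcases c0_11_13_23_k0_k_p11_23B C with c39_0_0 | c39_1_0 | c39_2_0 | c39_3_0 | c39_4_0 | c39_5_0
            · linarith only [c39_0_0, e0]
            · linarith only [c39_1_0, e3]
            · linarith only [c39_2_0, e2]
            · linarith only [C.f11_0, c36_3_0, c39_3_0, s1]
            · rcases c0_11_13_23_k0_k_tzpm C with c44_0_0 | c44_1_0 | c44_2_0 | c44_3_0 | ⟨c44_4_0, c44_4_1⟩
              · linarith only [C.f11_0, C.f23_1, c0_0_1, c36_3_0, c44_0_0, s1]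
              · linarith only [C.f11_2, C.f13_7, C.f23_9, C.o1, C.o2, c37_1_1, c39_4_0, c44_1_0, s3]
              · linarith only [C.f11_0, C.f13_3, c36_3_0, c39_4_0, c44_2_0, s2]
              · linarith only [C.f13_4, c39_4_0, c44_3_0, s2]
              · linarith only [C.f11_0, C.f11_1, C.f13_3, c36_3_0, c37_1_1, c39_4_0, c44_4_0, s2]
            · linarith only [C.f13_7, c39_5_0, s3]
          · linarith only [C.a4, C.f23_5, C.o2, c37_2_1]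
        · linarith only [C.a4, C.b3, C.f11_0, C.f11_1, C.f23_5, C.o2, c24_1_1, c36_4_0, s2]
        · linarith only [C.f23_9, c36_5_0, s3]
    · rcases c0_11_13_23_k0_k_f13_5 C with ⟨c67_0_0, c67_0_1⟩ | ⟨c67_1_0, c67_1_1⟩
      · rcases c0_11_13_23_k0_k_p11_13B C with c69_0_0 | c69_1_0 | c69_2_0 | c69_3_0 | c69_4_0 | c69_5_0
        · linarith only [c69_0_0, e0]
        · linarith only [c69_1_0, e1]
        · linarith only [c69_2_0, e2]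
        · rcases c0_11_13_23_k0_k_f23_7 C with ⟨c70_0_0, c70_0_1⟩ | ⟨c70_1_0, c70_1_1⟩ | ⟨c70_2_0, c70_2_1⟩
          · linarith only [C.a3, C.f11_0, C.f23_5, c0_0_1, c69_3_0, c70_0_1, s1]
          · rcases c0_11_13_23_k0_k_p11_23B C with c72_0_0 | c72_1_0 | c72_2_0 | c72_3_0 | c72_4_0 | c72_5_0
            · linarith only [c72_0_0, e0]
            · linarith only [c72_1_0, e3]
            · linarith only [c72_2_0, e2]
            · linarith only [C.f11_0, c69_3_0, c72_3_0, s1]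
            · rcases c0_11_13_23_k0_k_tzpm C with c77_0_0 | c77_1_0 | c77_2_0 | c77_3_0 | ⟨c77_4_0, c77_4_1⟩
              · linarith only [C.f11_0, C.f23_1, c0_0_1, c69_3_0, c77_0_0, s1]
              · linarith only [C.f11_2, C.f13_7, C.f23_9, C.o1, C.o2, c70_1_1, c72_4_0, c77_1_0, s3]
              · linarith only [c1_1_1, c77_2_0]
              · linarith only [C.a4, C.f11_0, C.f11_1, C.f13_4, C.f23_5, C.o0, C.o2, c0_0_1, c67_0_1, c77_3_0, s2]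
              · linarith only [C.f11_0, C.f11_1, C.f13_3, c69_3_0, c70_1_1, c72_4_0, c77_4_0, s2]
            · linarith only [C.f13_7, c72_5_0, s3]
          · linarith only [C.a4, C.f23_5, C.o2, c70_2_1]
        · linarith only [C.a3, C.f11_0, C.f11_1, C.f23_5, c0_0_1, c1_1_1, c67_0_1, c69_4_0, s2]
        · linarith only [C.f23_9, c69_5_0, s3]
      · rcases c0_11_13_23_k0_k_p11_13B C with c79_0_0 | c79_1_0 | c79_2_0 | c79_3_0 | c79_4_0 | c79_5_0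
        · linarith only [c79_0_0, e0]
        · linarith only [c79_1_0, e1]
        · linarith only [c79_2_0, e2]
        · rcases c0_11_13_23_k0_k_f23_7 C with ⟨c80_0_0, c80_0_1⟩ | ⟨c80_1_0, c80_1_1⟩ | ⟨c80_2_0, c80_2_1⟩
          · linarith only [C.a4, C.f11_0, C.f13_3, C.f23_5, C.o2, c67_1_1, c79_3_0, c80_0_1, s1]
          · rcases c0_11_13_23_k0_k_p11_23B C with c82_0_0 | c82_1_0 | c82_2_0 | c82_3_0 | c82_4_0 | c82_5_0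
            · linarith only [c82_0_0, e0]
            · linarith only [c82_1_0, e3]
            · linarith only [c82_2_0, e2]
            · linarith only [C.f11_0, c79_3_0, c82_3_0, s1]
            · rcases c0_11_13_23_k0_k_tzpm C with c87_0_0 | c87_1_0 | c87_2_0 | c87_3_0 | ⟨c87_4_0, c87_4_1⟩
              · linarith only [C.f11_0, C.f23_1, c0_0_1, c79_3_0, c87_0_0, s1]
              · linarith only [C.f11_2, C.f13_7, C.f23_9, C.o1, C.o2, c80_1_1, c82_4_0, c87_1_0, s3]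
              · linarith only [c1_1_1, c87_2_0]
              · linarith only [C.f13_4, c82_4_0, c87_3_0, s2]
              · linarith only [C.f11_0, C.f11_1, C.f13_3, c79_3_0, c80_1_1, c82_4_0, c87_4_0, s2]
            · linarith only [C.f13_7, c82_5_0, s3]
          · linarith only [C.a4, C.f23_5, C.o2, c80_2_1]
        · linarith only [C.a4, C.f11_0, C.f11_1, C.f23_5, C.o2, c1_1_1, c67_1_1, c79_4_0, s2]
        · linarith only [C.f23_9, c79_5_0, s3]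
  · linarith only [C.a2, C.a4, C.f13_0, C.o2, c0_1_1]

end Pool.Agent.Helper24.TQ
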