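import Pool.Agent.Helper89.TQ.Ctx

set_option autoImplicit false
set_option linter.all false
set_option maxHeartbeats 4000000

namespace Pool.Agent.Helper24.TQ

open Pool.Agent.Helper89.TQ

theorem c0_11_13_23_k3_k_f13_8 {n1 n2 n3 A1 A2 A3 B1 B2 B3 m11_1 m11_2 m11_3 m13_1 m13_2 m13_3 m22_1 m22_2 m22_3 m23_1 m23_2 m23_3 m33_1 m33_2 m33_3 : ℤ} (C : Ctx0 n1 n2 n3 A1 A2 A3 B1 B2 B3 m11_1 m11_2 m11_3 m13_1 m13_2 m13_3 m22_1 m22_2 m22_3 m23_1 m23_2 m23_3 m33_1 m33_2 m33_3) :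
    ((-1) * m13_2 + 1 * m13_3 + (-1) * n3 ≤ 0 ∧ 1 * m13_2 + (-1) * m13_3 + 1 * n3 ≤ 0) ∨ ((-1) * B3 + 1 * m13_3 ≤ -1 ∧ 1 * B3 + (-1) * m13_3 ≤ 1) := by
  have h := C.f13_8
  clear C
  omega

theorem c0_11_13_23_k3_k_f23_7 {n1 n2 n3 A1 A2 A3 B1 B2 B3 m11_1 m11_2 m11_3 m13_1 m13_2 m13_3 m22_1 m22_2 m22_3 m23_1 m23_2 m23_3 m33_1 m33_2 m33_3 : ℤ} (C : Ctx0 n1 n2 n3 A1 A2 A3 B1 B2 B3 m11_1 m11_2 m11_3 m13_1 m13_2 m13_3 m22_1 m22_2 m22_3 m23_1 m23_2 m23_3 m33_1 m33_2 m33_3) :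
    ((-1) * m23_1 + 1 * m23_2 + (-1) * n2 ≤ 0 ∧ 1 * m23_1 + (-1) * m23_2 + 1 * n2 ≤ 0) ∨ ((-1) * A2 + 1 * m23_2 ≤ -1 ∧ 1 * A2 + (-1) * m23_2 ≤ 1) ∨ ((-1) * B3 + 1 * m23_2 ≤ -1 ∧ 1 * B3 + (-1) * m23_2 ≤ 1) := by
  have h := C.f23_7
  clear C
  omega

theorem c0_11_13_23_k3_k_f23_10 {n1 n2 n3 A1 A2 A3 B1 B2 B3 m11_1 m11_2 m11_3 m13_1 m13_2 m13_3 m22_1 m22_2 m22_3 m23_1 m23_2 m23_3 m33_1 m33_2 m33_3 : ℤ} (C : Ctx0 n1 n2 n3 A1 A2 A3 B1 B2 B3 m11_1 m11_2 m11_3 m13_1 m13_2 m13_3 m22_1 m22_2 m22_3 m23_1 m23_2 m23_3 m33_1 m33_2 m33_3) :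
    ((-1) * m23_2 + 1 * m23_3 + (-1) * n3 ≤ 0 ∧ 1 * m23_2 + (-1) * m23_3 + 1 * n3 ≤ 0) ∨ ((-1) * B3 + 1 * m23_3 ≤ -1 ∧ 1 * B3 + (-1) * m23_3 ≤ 1) := by
  have h := C.f23_10
  clear C
  omega

theorem c0_11_13_23_k3_k_p13_23A {n1 n2 n3 A1 A2 A3 B1 B2 B3 m11_1 m11_2 m11_3 m13_1 m13_2 m13_3 m22_1 m22_2 m22_3 m23_1 m23_2 m23_3 m33_1 m33_2 m33_3 : ℤ} (C : Ctx0 n1 n2 n3 A1 A2 A3 B1 B2 B3 m11_1 m11_2 m11_3 m13_1 m13_2 m13_3 m22_1 m22_2 m22_3 m23_1 m23_2 m23_3 m33_1 m33_2 m33_3) :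
    (1 * A1 ≤ 0) ∨ (1 * B3 ≤ 0) ∨ (1 * A2 ≤ 0) ∨ ((-2) * A1 + 1 * m13_1 + 1 * m23_1 ≤ -1) ∨ ((-2) * A2 + 1 * m13_2 + 1 * m23_2 ≤ -1) ∨ ((-2) * A3 + 1 * m13_3 + 1 * m23_3 ≤ -1) := by
  have h := C.p13_23A
  clear C
  omega

theorem c0_11_13_23_k3_k_tmpp {n1 n2 n3 A1 A2 A3 B1 B2 B3 m11_1 m11_2 m11_3 m13_1 m13_2 m13_3 m22_1 m22_2 m22_3 m23_1 m23_2 m23_3 m33_1 m33_2 m33_3 : ℤ} (C : Ctx0 n1 n2 n3 A1 A2 A3 B1 B2 B3 m11_1 m11_2 m11_3 m13_1 m13_2 m13_3 m22_1 m22_2 m22_3 m23_1 m23_2 m23_3 m33_1 m33_2 m33_3) :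
    ((-1) * A1 + 1 * n1 ≤ 0) ∨ ((-1) * A1 + 1 * A2 ≤ 1) ∨ (1 * B1 ≤ 0) ∨ (1 * B1 + (-1) * B2 + 1 * n2 ≤ 1) := by
  have h := C.tmpp
  clear C
  omega

theorem c0_11_13_23_k3 {n1 n2 n3 A1 A2 A3 B1 B2 B3 m11_1 m11_2 m11_3 m13_1 m13_2 m13_3 m22_1 m22_2 m22_3 m23_1 m23_2 m23_3 m33_1 m33_2 m33_3 : ℤ}
    (C : Ctx0 n1 n2 n3 A1 A2 A3 B1 B2 B3 m11_1 m11_2 m11_3 m13_1 m13_2 m13_3 m22_1 m22_2 m22_3 m23_1 m23_2 m23_3 m33_1 m33_2 m33_3)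
    (e0 : 0 < B1)
    (e1 : 0 < A1)
    (e2 : 0 < B3)
    (e3 : 0 < A2)
    (s1 : 3 * A1 + 0 * B1 ≤ m11_1 + m13_1 + m23_1)
    (s2 : 3 * A2 + 0 * B2 ≤ m11_2 + m13_2 + m23_2)
    (s3 : 3 * A3 + 0 * B3 ≤ m11_3 + m13_3 + m23_3) : False := by
  rcases c0_11_13_23_k3_k_f23_7 C with ⟨c1_0_0, c1_0_1⟩ | ⟨c1_1_0, c1_1_1⟩ | ⟨c1_2_0, c1_2_1⟩
  · linarith only [C.f11_0, C.f11_1, C.f13_0, C.f13_3, C.f23_5, C.o0, c1_0_1, s1, s2]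
  · rcases c0_11_13_23_k3_k_tmpp C with c2_0_0 | c2_1_0 | c2_2_0 | c2_3_0
    · linarith only [C.f11_0, C.f13_0, C.f23_0, C.o0, c2_0_0, s1]
    · linarith only [C.f11_0, C.f13_0, C.f23_1, C.o0, c2_1_0, s1]
    · linarith only [c2_2_0, e0]
    · rcases c0_11_13_23_k3_k_f13_8 C with ⟨c3_0_0, c3_0_1⟩ | ⟨c3_1_0, c3_1_1⟩
      · linarith only [C.b5, C.f11_0, C.f11_1, C.f13_7, C.f23_5, C.o1, c2_3_0, c3_0_1, s2]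
      · rcases c0_11_13_23_k3_k_p13_23A C with c5_0_0 | c5_1_0 | c5_2_0 | c5_3_0 | c5_4_0 | c5_5_0
        · linarith only [c5_0_0, e1]
        · linarith only [c5_1_0, e2]
        · linarith only [c5_2_0, e3]
        · linarith only [C.f11_0, C.o0, c5_3_0, s1]
        · linarith only [C.f11_0, C.f11_1, C.o1, c2_3_0, c5_4_0, s2]
        · rcases c0_11_13_23_k3_k_f23_10 C with ⟨c6_0_0, c6_0_1⟩ | ⟨c6_1_0, c6_1_1⟩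
          · linarith only [C.f11_0, C.f11_1, C.f11_2, C.o1, C.o2, c1_1_1, c2_3_0, c3_1_1, c5_5_0, c6_0_1, s3]
          · linarith only [C.o2, c3_1_1, c5_5_0, c6_1_1]
  · linarith only [C.a4, C.f23_5, C.o2, c1_2_1]

end Pool.Agent.Helper24.TQ
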