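import Pool.Agent.Helper89.TQ.Ctx

set_option autoImplicit false
set_option linter.all false
set_option maxHeartbeats 4000000

namespace Pool.Agent.Helper24.TQ

open Pool.Agent.Helper89.TQ

theorem c0_11_13_33_k2_k_t12 {n1 n2 n3 A1 A2 A3 B1 B2 B3 m11_1 m11_2 m11_3 m13_1 m13_2 m13_3 m22_1 m22_2 m22_3 m23_1 m23_2 m23_3 m33_1 m33_2 m33_3 : ℤ} (C : Ctx0 n1 n2 n3 A1 A2 A3 B1 B2 B3 m11_1 m11_2 m11_3 m13_1 m13_2 m13_3 m22_1 m22_2 m22_3 m23_1 m23_2 m23_3 m33_1 m33_2 m33_3) :
    ((-1) * A1 ≤ -1 ∧ (-1) * A1 + 1 * A2 + (-1) * n2 ≤ -1) ∨ ((-1) * B1 ≤ -1 ∧ (-1) * B1 + 1 * B2 + (-1) * n2 ≤ -1) := by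
  have h := C.t12
  clear C
  omega

theorem c0_11_13_33_k2_k_t23 {n1 n2 n3 A1 A2 A3 B1 B2 B3 m11_1 m11_2 m11_3 m13_1 m13_2 m13_3 m22_1 m22_2 m22_3 m23_1 m23_2 m23_3 m33_1 m33_2 m33_3 : ℤ} (C : Ctx0 n1 n2 n3 A1 A2 A3 B1 B2 B3 m11_1 m11_2 m11_3 m13_1 m13_2 m13_3 m22_1 m22_2 m22_3 m23_1 m23_2 m23_3 m33_1 m33_2 m33_3) :
    (1 * A1 + (-1) * A2 ≤ -1 ∧ (-1) * A2 + 1 * A3 + (-1) * n3 ≤ -1) ∨ (1 * B1 + (-1) * B2 ≤ -1 ∧ (-1) * B2 + 1 * B3 + (-1) * n3 ≤ -1) := by
  have h := C.t23
  clear C
  omega

theorem c0_11_13_33_k2_k_f13_2 {n1 n2 n3 A1 A2 A3 B1 B2 B3 m11_1 m11_2 m11_3 m13_1 m13_2 m13_3 m22_1 m22_2 m22_3 m23_1 m23_2 m23_3 m33_1 m33_2 m33_3 : ℤ} (C : Ctx0 n1 n2 n3 A1 A2 A3 B1 B2 B3 m11_1 m11_2 m11_3 m13_1 m13_2 m13_3 m22_1 m22_2 m22_3 m23_1 m23_2 m23_3 m33_1 m33_2 m33_3) :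
    ((-1) * A1 + 1 * m13_1 ≤ -1 ∧ 1 * A1 + (-1) * m13_1 ≤ 1) ∨ ((-1) * B3 + 1 * m13_1 ≤ -1 ∧ 1 * B3 + (-1) * m13_1 ≤ 1) := by
  have h := C.f13_2
  clear C
  omega

theorem c0_11_13_33_k2_k_f13_5 {n1 n2 n3 A1 A2 A3 B1 B2 B3 m11_1 m11_2 m11_3 m13_1 m13_2 m13_3 m22_1 m22_2 m22_3 m23_1 m23_2 m23_3 m33_1 m33_2 m33_3 : ℤ} (C : Ctx0 n1 n2 n3 A1 A2 A3 B1 B2 B3 m11_1 m11_2 m11_3 m13_1 m13_2 m13_3 m22_1 m22_2 m22_3 m23_1 m23_2 m23_3 m33_1 m33_2 m33_3) :
    ((-1) * m13_1 + 1 * m13_2 + (-1) * n2 ≤ 0 ∧ 1 * m13_1 + (-1) * m13_2 + 1 * n2 ≤ 0) ∨ ((-1) * B3 + 1 * m13_2 ≤ -1 ∧ 1 * B3 + (-1) * m13_2 ≤ 1) := by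
  have h := C.f13_5
  clear C
  omega

theorem c0_11_13_33_k2_k_f13_8 {n1 n2 n3 A1 A2 A3 B1 B2 B3 m11_1 m11_2 m11_3 m13_1 m13_2 m13_3 m22_1 m22_2 m22_3 m23_1 m23_2 m23_3 m33_1 m33_2 m33_3 : ℤ} (C : Ctx0 n1 n2 n3 A1 A2 A3 B1 B2 B3 m11_1 m11_2 m11_3 m13_1 m13_2 m13_3 m22_1 m22_2 m22_3 m23_1 m23_2 m23_3 m33_1 m33_2 m33_3) :
    ((-1) * m13_2 + 1 * m13_3 + (-1) * n3 ≤ 0 ∧ 1 * m13_2 + (-1) * m13_3 + 1 * n3 ≤ 0) ∨ ((-1) * B3 + 1 * m13_3 ≤ -1 ∧ 1 * B3 + (-1) * m13_3 ≤ 1) := by
  have h := C.f13_8
  clear C
  omega

theorem c0_11_13_33_k2_k_f22_2 {n1 n2 n3 A1 A2 A3 B1 B2 B3 m11_1 m11_2 m11_3 m13_1 m13_2 m13_3 m22_1 m22_2 m22_3 m23_1 m23_2 m23_3 m33_1 m33_2 m33_3 : ℤ} (C : Ctx0 n1 n2 n3 A1 A2 A3 B1 B2 B3 m11_1 m11_2 m11_3 m13_1 m13_2 m13_3 m22_1 m22_2 m22_3 m23_1 m23_2 m23_3 m33_1 m33_2 m33_3) :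
    (1 * m22_1 + (-1) * n1 ≤ 0 ∧ (-1) * m22_1 + 1 * n1 ≤ 0) ∨ ((-1) * B2 + 1 * m22_1 ≤ -1 ∧ 1 * B2 + (-1) * m22_1 ≤ 1) := by
  have h := C.f22_2
  clear C
  omega

theorem c0_11_13_33_k2_k_f22_5 {n1 n2 n3 A1 A2 A3 B1 B2 B3 m11_1 m11_2 m11_3 m13_1 m13_2 m13_3 m22_1 m22_2 m22_3 m23_1 m23_2 m23_3 m33_1 m33_2 m33_3 : ℤ} (C : Ctx0 n1 n2 n3 A1 A2 A3 B1 B2 B3 m11_1 m11_2 m11_3 m13_1 m13_2 m13_3 m22_1 m22_2 m22_3 m23_1 m23_2 m23_3 m33_1 m33_2 m33_3) :
    ((-1) * m22_1 + 1 * m22_2 + (-1) * n2 ≤ 0 ∧ 1 * m22_1 + (-1) * m22_2 + 1 * n2 ≤ 0) ∨ ((-1) * B2 + 1 * m22_2 ≤ -1 ∧ 1 * B2 + (-1) * m22_2 ≤ 1) := by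
  have h := C.f22_5
  clear C
  omega

theorem c0_11_13_33_k2_k_f23_3 {n1 n2 n3 A1 A2 A3 B1 B2 B3 m11_1 m11_2 m11_3 m13_1 m13_2 m13_3 m22_1 m22_2 m22_3 m23_1 m23_2 m23_3 m33_1 m33_2 m33_3 : ℤ} (C : Ctx0 n1 n2 n3 A1 A2 A3 B1 B2 B3 m11_1 m11_2 m11_3 m13_1 m13_2 m13_3 m22_1 m22_2 m22_3 m23_1 m23_2 m23_3 m33_1 m33_2 m33_3) :
    (1 * m23_1 + (-1) * n1 ≤ 0 ∧ (-1) * m23_1 + 1 * n1 ≤ 0) ∨ ((-1) * A2 + 1 * m23_1 ≤ -1 ∧ 1 * A2 + (-1) * m23_1 ≤ 1) ∨ ((-1) * B3 + 1 * m23_1 ≤ -1 ∧ 1 * B3 + (-1) * m23_1 ≤ 1) := by
  have h := C.f23_3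
  clear C
  omega

theorem c0_11_13_33_k2_k_f23_7 {n1 n2 n3 A1 A2 A3 B1 B2 B3 m11_1 m11_2 m11_3 m13_1 m13_2 m13_3 m22_1 m22_2 m22_3 m23_1 m23_2 m23_3 m33_1 m33_2 m33_3 : ℤ} (C : Ctx0 n1 n2 n3 A1 A2 A3 B1 B2 B3 m11_1 m11_2 m11_3 m13_1 m13_2 m13_3 m22_1 m22_2 m22_3 m23_1 m23_2 m23_3 m33_1 m33_2 m33_3) :
    ((-1) * m23_1 + 1 * m23_2 + (-1) * n2 ≤ 0 ∧ 1 * m23_1 + (-1) * m23_2 + 1 * n2 ≤ 0) ∨ ((-1) * A2 + 1 * m23_2 ≤ -1 ∧ 1 * A2 + (-1) * m23_2 ≤ 1) ∨ ((-1) * B3 + 1 * m23_2 ≤ -1 ∧ 1 * B3 + (-1) * m23_2 ≤ 1) := by
  have h := C.f23_7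
  clear C
  omega

theorem c0_11_13_33_k2_k_f23_10 {n1 n2 n3 A1 A2 A3 B1 B2 B3 m11_1 m11_2 m11_3 m13_1 m13_2 m13_3 m22_1 m22_2 m22_3 m23_1 m23_2 m23_3 m33_1 m33_2 m33_3 : ℤ} (C : Ctx0 n1 n2 n3 A1 A2 A3 B1 B2 B3 m11_1 m11_2 m11_3 m13_1 m13_2 m13_3 m22_1 m22_2 m22_3 m23_1 m23_2 m23_3 m33_1 m33_2 m33_3) :
    ((-1) * m23_2 + 1 * m23_3 + (-1) * n3 ≤ 0 ∧ 1 * m23_2 + (-1) * m23_3 + 1 * n3 ≤ 0) ∨ ((-1) * B3 + 1 * m23_3 ≤ -1 ∧ 1 * B3 + (-1) * m23_3 ≤ 1) := by
  have h := C.f23_10
  clear C
  omega

theorem c0_11_13_33_k2_k_f33_2 {n1 n2 n3 A1 A2 A3 B1 B2 B3 m11_1 m11_2 m11_3 m13_1 m13_2 m13_3 m22_1 m22_2 m22_3 m23_1 m23_2 m23_3 m33_1 m33_2 m33_3 : ℤ} (C : Ctx0 n1 n2 n3 A1 A2 A3 B1 B2 B3 m11_1 m11_2 m11_3 m13_1 m13_2 m13_3 m22_1 m22_2 m22_3 m23_1 m23_2 m23_3 m33_1 m33_2 m33_3) :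
    (1 * m33_1 + (-1) * n1 ≤ 0 ∧ (-1) * m33_1 + 1 * n1 ≤ 0) ∨ ((-1) * A3 + 1 * m33_1 ≤ -1 ∧ 1 * A3 + (-1) * m33_1 ≤ 1) := by
  have h := C.f33_2
  clear C
  omega

theorem c0_11_13_33_k2_k_f33_5 {n1 n2 n3 A1 A2 A3 B1 B2 B3 m11_1 m11_2 m11_3 m13_1 m13_2 m13_3 m22_1 m22_2 m22_3 m23_1 m23_2 m23_3 m33_1 m33_2 m33_3 : ℤ} (C : Ctx0 n1 n2 n3 A1 A2 A3 B1 B2 B3 m11_1 m11_2 m11_3 m13_1 m13_2 m13_3 m22_1 m22_2 m22_3 m23_1 m23_2 m23_3 m33_1 m33_2 m33_3) :
    ((-1) * m33_1 + 1 * m33_2 + (-1) * n2 ≤ 0 ∧ 1 * m33_1 + (-1) * m33_2 + 1 * n2 ≤ 0) ∨ ((-1) * A3 + 1 * m33_2 ≤ -1 ∧ 1 * A3 + (-1) * m33_2 ≤ 1) := by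
  have h := C.f33_5
  clear C
  omega

theorem c0_11_13_33_k2_k_f33_8 {n1 n2 n3 A1 A2 A3 B1 B2 B3 m11_1 m11_2 m11_3 m13_1 m13_2 m13_3 m22_1 m22_2 m22_3 m23_1 m23_2 m23_3 m33_1 m33_2 m33_3 : ℤ} (C : Ctx0 n1 n2 n3 A1 A2 A3 B1 B2 B3 m11_1 m11_2 m11_3 m13_1 m13_2 m13_3 m22_1 m22_2 m22_3 m23_1 m23_2 m23_3 m33_1 m33_2 m33_3) :
    ((-1) * m33_2 + 1 * m33_3 + (-1) * n3 ≤ 0 ∧ 1 * m33_2 + (-1) * m33_3 + 1 * n3 ≤ 0) ∨ ((-1) * A3 + 1 * m33_3 ≤ -1 ∧ 1 * A3 + (-1) * m33_3 ≤ 1) := by
  have h := C.f33_8
  clear C
  omega

theorem c0_11_13_33_k2_k_p11_13B {n1 n2 n3 A1 A2 A3 B1 B2 B3 m11_1 m11_2 m11_3 m13_1 m13_2 m13_3 m22_1 m22_2 m22_3 m23_1 m23_2 m23_3 m33_1 m33_2 m33_3 : ℤ} (C : Ctx0 n1 n2 n3 A1 A2 A3 B1 B2 B3 m11_1 m11_2 m11_3 m13_1 m13_2 m13_3 m22_1 m22_2 m22_3 m23_1 m23_2 m23_3 m33_1 m33_2 m33_3) :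
    (1 * B1 ≤ 0) ∨ (1 * A1 ≤ 0) ∨ (1 * B3 ≤ 0) ∨ ((-2) * B1 + 1 * m11_1 + 1 * m13_1 ≤ -1) ∨ ((-2) * B2 + 1 * m11_2 + 1 * m13_2 ≤ -1) ∨ ((-2) * B3 + 1 * m11_3 + 1 * m13_3 ≤ -1) := by
  have h := C.p11_13B
  clear C
  omega

theorem c0_11_13_33_k2_k_p11_22B {n1 n2 n3 A1 A2 A3 B1 B2 B3 m11_1 m11_2 m11_3 m13_1 m13_2 m13_3 m22_1 m22_2 m22_3 m23_1 m23_2 m23_3 m33_1 m33_2 m33_3 : ℤ} (C : Ctx0 n1 n2 n3 A1 A2 A3 B1 B2 B3 m11_1 m11_2 m11_3 m13_1 m13_2 m13_3 m22_1 m22_2 m22_3 m23_1 m23_2 m23_3 m33_1 m33_2 m33_3) :
    (1 * B1 ≤ 0) ∨ (1 * B2 ≤ 0) ∨ ((-2) * B1 + 1 * m11_1 + 1 * m22_1 ≤ -1) ∨ ((-2) * B2 + 1 * m11_2 + 1 * m22_2 ≤ -1) ∨ ((-2) * B3 + 1 * m11_3 + 1 * m22_3 ≤ -1) := by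
  have h := C.p11_22B
  clear C
  omega

theorem c0_11_13_33_k2_k_p11_23A {n1 n2 n3 A1 A2 A3 B1 B2 B3 m11_1 m11_2 m11_3 m13_1 m13_2 m13_3 m22_1 m22_2 m22_3 m23_1 m23_2 m23_3 m33_1 m33_2 m33_3 : ℤ} (C : Ctx0 n1 n2 n3 A1 A2 A3 B1 B2 B3 m11_1 m11_2 m11_3 m13_1 m13_2 m13_3 m22_1 m22_2 m22_3 m23_1 m23_2 m23_3 m33_1 m33_2 m33_3) :
    (1 * B1 ≤ 0) ∨ (1 * A2 ≤ 0) ∨ (1 * B3 ≤ 0) ∨ ((-2) * A1 + 1 * m11_1 + 1 * m23_1 ≤ -1) ∨ ((-2) * A2 + 1 * m11_2 + 1 * m23_2 ≤ -1) ∨ ((-2) * A3 + 1 * m11_3 + 1 * m23_3 ≤ -1) := by
  have h := C.p11_23A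
  clear C
  omega

theorem c0_11_13_33_k2_k_p11_23B {n1 n2 n3 A1 A2 A3 B1 B2 B3 m11_1 m11_2 m11_3 m13_1 m13_2 m13_3 m22_1 m22_2 m22_3 m23_1 m23_2 m23_3 m33_1 m33_2 m33_3 : ℤ} (C : Ctx0 n1 n2 n3 A1 A2 A3 B1 B2 B3 m11_1 m11_2 m11_3 m13_1 m13_2 m13_3 m22_1 m22_2 m22_3 m23_1 m23_2 m23_3 m33_1 m33_2 m33_3) :
    (1 * B1 ≤ 0) ∨ (1 * A2 ≤ 0) ∨ (1 * B3 ≤ 0) ∨ ((-2) * B1 + 1 * m11_1 + 1 * m23_1 ≤ -1) ∨ ((-2) * B2 + 1 * m11_2 + 1 * m23_2 ≤ -1) ∨ ((-2) * B3 + 1 * m11_3 + 1 * m23_3 ≤ -1) := by
  have h := C.p11_23B
  clear C
  omega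

theorem c0_11_13_33_k2_k_p11_33A {n1 n2 n3 A1 A2 A3 B1 B2 B3 m11_1 m11_2 m11_3 m13_1 m13_2 m13_3 m22_1 m22_2 m22_3 m23_1 m23_2 m23_3 m33_1 m33_2 m33_3 : ℤ} (C : Ctx0 n1 n2 n3 A1 A2 A3 B1 B2 B3 m11_1 m11_2 m11_3 m13_1 m13_2 m13_3 m22_1 m22_2 m22_3 m23_1 m23_2 m23_3 m33_1 m33_2 m33_3) :
    (1 * B1 ≤ 0) ∨ (1 * A3 ≤ 0) ∨ ((-2) * A1 + 1 * m11_1 + 1 * m33_1 ≤ -1) ∨ ((-2) * A2 + 1 * m11_2 + 1 * m33_2 ≤ -1) ∨ ((-2) * A3 + 1 * m11_3 + 1 * m33_3 ≤ -1) := by
  have h := C.p11_33A
  clear C
  omega

theorem c0_11_13_33_k2_k_p13_22A {n1 n2 n3 A1 A2 A3 B1 B2 B3 m11_1 m11_2 m11_3 m13_1 m13_2 m13_3 m22_1 m22_2 m22_3 m23_1 m23_2 m23_3 m33_1 m33_2 m33_3 : ℤ} (C : Ctx0 n1 n2 n3 A1 A2 A3 B1 B2 B3 m11_1 m11_2 m11_3 m13_1 m13_2 m13_3 m22_1 m22_2 m22_3 m23_1 m23_2 m23_3 m33_1 m33_2 m33_3) :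
    (1 * A1 ≤ 0) ∨ (1 * B3 ≤ 0) ∨ (1 * B2 ≤ 0) ∨ ((-2) * A1 + 1 * m13_1 + 1 * m22_1 ≤ -1) ∨ ((-2) * A2 + 1 * m13_2 + 1 * m22_2 ≤ -1) ∨ ((-2) * A3 + 1 * m13_3 + 1 * m22_3 ≤ -1) := by
  have h := C.p13_22A
  clear C
  omega

theorem c0_11_13_33_k2_k_p13_22B {n1 n2 n3 A1 A2 A3 B1 B2 B3 m11_1 m11_2 m11_3 m13_1 m13_2 m13_3 m22_1 m22_2 m22_3 m23_1 m23_2 m23_3 m33_1 m33_2 m33_3 : ℤ} (C : Ctx0 n1 n2 n3 A1 A2 A3 B1 B2 B3 m11_1 m11_2 m11_3 m13_1 m13_2 m13_3 m22_1 m22_2 m22_3 m23_1 m23_2 m23_3 m33_1 m33_2 m33_3) :
    (1 * A1 ≤ 0) ∨ (1 * B3 ≤ 0) ∨ (1 * B2 ≤ 0) ∨ ((-2) * B1 + 1 * m13_1 + 1 * m22_1 ≤ -1) ∨ ((-2) * B2 + 1 * m13_2 + 1 * m22_2 ≤ -1) ∨ ((-2) * B3 + 1 * m13_3 + 1 * m22_3 ≤ -1) := by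
  have h := C.p13_22B
  clear C
  omega

theorem c0_11_13_33_k2_k_p13_23A {n1 n2 n3 A1 A2 A3 B1 B2 B3 m11_1 m11_2 m11_3 m13_1 m13_2 m13_3 m22_1 m22_2 m22_3 m23_1 m23_2 m23_3 m33_1 m33_2 m33_3 : ℤ} (C : Ctx0 n1 n2 n3 A1 A2 A3 B1 B2 B3 m11_1 m11_2 m11_3 m13_1 m13_2 m13_3 m22_1 m22_2 m22_3 m23_1 m23_2 m23_3 m33_1 m33_2 m33_3) :
    (1 * A1 ≤ 0) ∨ (1 * B3 ≤ 0) ∨ (1 * A2 ≤ 0) ∨ ((-2) * A1 + 1 * m13_1 + 1 * m23_1 ≤ -1) ∨ ((-2) * A2 + 1 * m13_2 + 1 * m23_2 ≤ -1) ∨ ((-2) * A3 + 1 * m13_3 + 1 * m23_3 ≤ -1) := by
  have h := C.p13_23A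
  clear C
  omega

theorem c0_11_13_33_k2_k_p13_33A {n1 n2 n3 A1 A2 A3 B1 B2 B3 m11_1 m11_2 m11_3 m13_1 m13_2 m13_3 m22_1 m22_2 m22_3 m23_1 m23_2 m23_3 m33_1 m33_2 m33_3 : ℤ} (C : Ctx0 n1 n2 n3 A1 A2 A3 B1 B2 B3 m11_1 m11_2 m11_3 m13_1 m13_2 m13_3 m22_1 m22_2 m22_3 m23_1 m23_2 m23_3 m33_1 m33_2 m33_3) :
    (1 * A1 ≤ 0) ∨ (1 * B3 ≤ 0) ∨ (1 * A3 ≤ 0) ∨ ((-2) * A1 + 1 * m13_1 + 1 * m33_1 ≤ -1) ∨ ((-2) * A2 + 1 * m13_2 + 1 * m33_2 ≤ -1) ∨ ((-2) * A3 + 1 * m13_3 + 1 * m33_3 ≤ -1) := by
  have h := C.p13_33A
  clear C
  omega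

theorem c0_11_13_33_k2_k_p22_33A {n1 n2 n3 A1 A2 A3 B1 B2 B3 m11_1 m11_2 m11_3 m13_1 m13_2 m13_3 m22_1 m22_2 m22_3 m23_1 m23_2 m23_3 m33_1 m33_2 m33_3 : ℤ} (C : Ctx0 n1 n2 n3 A1 A2 A3 B1 B2 B3 m11_1 m11_2 m11_3 m13_1 m13_2 m13_3 m22_1 m22_2 m22_3 m23_1 m23_2 m23_3 m33_1 m33_2 m33_3) :
    (1 * B2 ≤ 0) ∨ (1 * A3 ≤ 0) ∨ ((-2) * A1 + 1 * m22_1 + 1 * m33_1 ≤ -1) ∨ ((-2) * A2 + 1 * m22_2 + 1 * m33_2 ≤ -1) ∨ ((-2) * A3 + 1 * m22_3 + 1 * m33_3 ≤ -1) := by
  have h := C.p22_33A
  clear C
  omega

theorem c0_11_13_33_k2_k_p23_33A {n1 n2 n3 A1 A2 A3 B1 B2 B3 m11_1 m11_2 m11_3 m13_1 m13_2 m13_3 m22_1 m22_2 m22_3 m23_1 m23_2 m23_3 m33_1 m33_2 m33_3 : ℤ} (C : Ctx0 n1 n2 n3 A1 A2 A3 B1 B2 B3 m11_1 m11_2 m11_3 m13_1 m13_2 m13_3 m22_1 m22_2 m22_3 m23_1 m23_2 m23_3 m33_1 m33_2 m33_3) :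
    (1 * A2 ≤ 0) ∨ (1 * B3 ≤ 0) ∨ (1 * A3 ≤ 0) ∨ ((-2) * A1 + 1 * m23_1 + 1 * m33_1 ≤ -1) ∨ ((-2) * A2 + 1 * m23_2 + 1 * m33_2 ≤ -1) ∨ ((-2) * A3 + 1 * m23_3 + 1 * m33_3 ≤ -1) := by
  have h := C.p23_33A
  clear C
  omega

theorem c0_11_13_33_k2_k_tmzp {n1 n2 n3 A1 A2 A3 B1 B2 B3 m11_1 m11_2 m11_3 m13_1 m13_2 m13_3 m22_1 m22_2 m22_3 m23_1 m23_2 m23_3 m33_1 m33_2 m33_3 : ℤ} (C : Ctx0 n1 n2 n3 A1 A2 A3 B1 B2 B3 m11_1 m11_2 m11_3 m13_1 m13_2 m13_3 m22_1 m22_2 m22_3 m23_1 m23_2 m23_3 m33_1 m33_2 m33_3) :
    ((-1) * A1 + 1 * n1 ≤ 0) ∨ ((-1) * A1 + 1 * A2 ≤ 0) ∨ ((-1) * A2 + 1 * A3 ≤ 0) ∨ (1 * B1 ≤ 0) ∨ (1 * B1 + (-1) * B2 + 1 * n2 ≤ 0) ∨ (1 * B2 + (-1) * B3 + 1 * n3 ≤ 0) := by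
  have h := C.tmzp
  clear C
  omega

theorem c0_11_13_33_k2_k_tmpp {n1 n2 n3 A1 A2 A3 B1 B2 B3 m11_1 m11_2 m11_3 m13_1 m13_2 m13_3 m22_1 m22_2 m22_3 m23_1 m23_2 m23_3 m33_1 m33_2 m33_3 : ℤ} (C : Ctx0 n1 n2 n3 A1 A2 A3 B1 B2 B3 m11_1 m11_2 m11_3 m13_1 m13_2 m13_3 m22_1 m22_2 m22_3 m23_1 m23_2 m23_3 m33_1 m33_2 m33_3) :
    ((-1) * A1 + 1 * n1 ≤ 0) ∨ ((-1) * A1 + 1 * A2 ≤ 1) ∨ (1 * B1 ≤ 0) ∨ (1 * B1 + (-1) * B2 + 1 * n2 ≤ 1) := by
  have h := C.tmpp
  clear C
  omega

theorem c0_11_13_33_k2_k_tzmp {n1 n2 n3 A1 A2 A3 B1 B2 B3 m11_1 m11_2 m11_3 m13_1 m13_2 m13_3 m22_1 m22_2 m22_3 m23_1 m23_2 m23_3 m33_1 m33_2 m33_3 : ℤ} (C : Ctx0 n1 n2 n3 A1 A2 A3 B1 B2 B3 m11_1 m11_2 m11_3 m13_1 m13_2 m13_3 m22_1 m22_2 m22_3 m23_1 m23_2 m23_3 m33_1 m33_2 m33_3) :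
    (1 * A1 + (-1) * A2 + 1 * n2 ≤ 0) ∨ ((-1) * A2 + 1 * A3 ≤ 1) ∨ ((-1) * B1 + 1 * B2 ≤ 0) ∨ (1 * B2 + (-1) * B3 + 1 * n3 ≤ 1) := by
  have h := C.tzmp
  clear C
  omega

theorem c0_11_13_33_k2_k_tzpm {n1 n2 n3 A1 A2 A3 B1 B2 B3 m11_1 m11_2 m11_3 m13_1 m13_2 m13_3 m22_1 m22_2 m22_3 m23_1 m23_2 m23_3 m33_1 m33_2 m33_3 : ℤ} (C : Ctx0 n1 n2 n3 A1 A2 A3 B1 B2 B3 m11_1 m11_2 m11_3 m13_1 m13_2 m13_3 m22_1 m22_2 m22_3 m23_1 m23_2 m23_3 m33_1 m33_2 m33_3) :
    ((-1) * A1 + 1 * A2 ≤ 0) ∨ (1 * A2 + (-1) * A3 + 1 * n3 ≤ 1) ∨ (1 * B1 + (-1) * B2 + 1 * n2 ≤ 0) ∨ ((-1) * B2 + 1 * B3 ≤ 1) ∨ ((-1) * A2 + 1 * B2 ≤ -1 ∧ (-1) * A3 + 1 * B3 ≤ 1) := by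
  have h := C.tzpm
  clear C
  omega

theorem c0_11_13_33_k2_k_tpmm {n1 n2 n3 A1 A2 A3 B1 B2 B3 m11_1 m11_2 m11_3 m13_1 m13_2 m13_3 m22_1 m22_2 m22_3 m23_1 m23_2 m23_3 m33_1 m33_2 m33_3 : ℤ} (C : Ctx0 n1 n2 n3 A1 A2 A3 B1 B2 B3 m11_1 m11_2 m11_3 m13_1 m13_2 m13_3 m22_1 m22_2 m22_3 m23_1 m23_2 m23_3 m33_1 m33_2 m33_3) :
    (1 * A1 ≤ 0) ∨ (1 * A1 + (-1) * A2 + 1 * n2 ≤ 1) ∨ ((-1) * B1 + 1 * n1 ≤ 0) ∨ ((-1) * B1 + 1 * B2 ≤ 1) ∨ ((-1) * A3 + 1 * B3 ≤ 1) := by
  have h := C.tpmm
  clear C
  omega

theorem c0_11_13_33_k2 {n1 n2 n3 A1 A2 A3 B1 B2 B3 m11_1 m11_2 m11_3 m13_1 m13_2 m13_3 m22_1 m22_2 m22_3 m23_1 m23_2 m23_3 m33_1 m33_2 m33_3 : ℤ}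
    (C : Ctx0 n1 n2 n3 A1 A2 A3 B1 B2 B3 m11_1 m11_2 m11_3 m13_1 m13_2 m13_3 m22_1 m22_2 m22_3 m23_1 m23_2 m23_3 m33_1 m33_2 m33_3)
    (e0 : 0 < B1)
    (e1 : 0 < A1)
    (e2 : 0 < B3)
    (e3 : 0 < A3)
    (s1 : 2 * A1 + 1 * B1 ≤ m11_1 + m13_1 + m33_1)
    (s2 : 2 * A2 + 1 * B2 ≤ m11_2 + m13_2 + m33_2)
    (s3 : 2 * A3 + 1 * B3 ≤ m11_3 + m13_3 + m33_3) : False := by
  rcases c0_11_13_33_k2_k_f13_2 C with ⟨c0_0_0, c0_0_1⟩ | ⟨c0_1_0, c0_1_1⟩
  · rcases c0_11_13_33_k2_k_t12 C with ⟨c1_0_0, c1_0_1⟩ | ⟨c1_1_0, c1_1_1⟩
    · rcases c0_11_13_33_k2_k_t23 C with ⟨c2_0_0, c2_0_1⟩ | ⟨c2_1_0, c2_1_1⟩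
      · rcases c0_11_13_33_k2_k_f13_5 C with ⟨c3_0_0, c3_0_1⟩ | ⟨c3_1_0, c3_1_1⟩
        · rcases c0_11_13_33_k2_k_f13_8 C with ⟨c4_0_0, c4_0_1⟩ | ⟨c4_1_0, c4_1_1⟩
          · linarith only [C.b5, C.f13_7, C.o1, c0_0_1, c1_0_1, c3_0_1, c4_0_1]
          · rcases c0_11_13_33_k2_k_f22_2 C with ⟨c5_0_0, c5_0_1⟩ | ⟨c5_1_0, c5_1_1⟩
            · rcases c0_11_13_33_k2_k_f22_5 C with ⟨c6_0_0, c6_0_1⟩ | ⟨c6_1_0, c6_1_1⟩
              · linarith only [C.f11_0, C.f13_0, C.f22_4, C.f33_0, C.o1, c1_0_1, c5_0_1, c6_0_1, s1]
              · rcases c0_11_13_33_k2_k_p13_22A C with c7_0_0 | c7_1_0 | c7_2_0 | c7_3_0 | c7_4_0 | c7_5_0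
                · linarith only [c7_0_0, e1]
                · linarith only [c7_1_0, e2]
                · linarith only [C.f11_0, C.f13_0, C.f22_1, C.f33_0, C.o0, c5_0_1, c7_2_0, e0, s1]
                · linarith only [C.f11_0, C.f33_0, c5_0_1, c7_3_0, s1]
                · rcases c0_11_13_33_k2_k_tmpp C with c12_0_0 | c12_1_0 | c12_2_0 | c12_3_0
                  · linarith only [C.f11_0, C.f13_0, C.f33_0, c12_0_0, s1]
                  · linarith only [C.b3, C.f11_0, C.f13_0, C.f22_1, C.f33_0, C.o0, c12_1_0, c3_0_1, c5_0_1, c6_1_1, c7_4_0, s1]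
                  · linarith only [c12_2_0, e0]
                  · rcases c0_11_13_33_k2_k_p13_33A C with c13_0_0 | c13_1_0 | c13_2_0 | c13_3_0 | c13_4_0 | c13_5_0
                    · linarith only [c13_0_0, e1]
                    · linarith only [c13_1_0, e2]
                    · linarith only [c13_2_0, e3]
                    · linarith only [C.f11_0, c13_3_0, s1]
                    · linarith only [C.f11_0, C.f11_1, c12_3_0, c13_4_0, s2]
                    · rcases c0_11_13_33_k2_k_p11_22B C with c14_0_0 | c14_1_0 | c14_2_0 | c14_3_0 | c14_4_0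
                      · linarith only [c14_0_0, e0]
                      · linarith only [C.f11_0, C.f13_0, C.f22_1, C.f33_0, c14_1_0, c5_0_1, e1, s1]
                      · linarith only [C.f13_0, C.f33_0, C.o0, c14_2_0, c5_0_1, s1]
                      · rcases c0_11_13_33_k2_k_p22_33A C with c15_0_0 | c15_1_0 | c15_2_0 | c15_3_0 | c15_4_0
                        · linarith only [C.f11_0, C.f13_0, C.f22_1, C.f33_0, C.o0, c15_0_0, c5_0_1, e0, s1]
                        · linarith only [c15_1_0, e3]
                        · linarith only [C.f11_0, C.f13_0, C.f33_0, c15_2_0, c5_0_1, s1]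
                        · rcases c0_11_13_33_k2_k_f23_3 C with ⟨c16_0_0, c16_0_1⟩ | ⟨c16_1_0, c16_1_1⟩ | ⟨c16_2_0, c16_2_1⟩
                          · rcases c0_11_13_33_k2_k_f23_7 C with ⟨c17_0_0, c17_0_1⟩ | ⟨c17_1_0, c17_1_1⟩ | ⟨c17_2_0, c17_2_1⟩
                            · linarith only [C.f11_0, C.f13_0, C.f23_5, C.f33_0, c16_0_1, c17_0_1, c1_0_1, s1]
                            · rcases c0_11_13_33_k2_k_f23_10 C with ⟨c18_0_0, c18_0_1⟩ | ⟨c18_1_0, c18_1_1⟩
                              · linarith only [C.f11_0, C.f11_1, C.f11_2, C.f23_9, C.o0, c0_0_1, c13_5_0, c14_3_0, c17_1_1, c18_0_1, c3_0_1, c6_1_1, c7_4_0, s3]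
                              · rcases c0_11_13_33_k2_k_p11_13B C with c19_0_0 | c19_1_0 | c19_2_0 | c19_3_0 | c19_4_0 | c19_5_0
                                · linarith only [c19_0_0, e0]
                                · linarith only [c19_1_0, e1]
                                · linarith only [c19_2_0, e2]
                                · rcases c0_11_13_33_k2_k_f33_5 C with ⟨c20_0_0, c20_0_1⟩ | ⟨c20_1_0, c20_1_1⟩
                                  · linarith only [C.f11_0, C.f11_1, c14_3_0, c15_3_0, c19_3_0, c1_0_1, c20_0_1, c6_1_1, s1]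
                                  · rcases c0_11_13_33_k2_k_p11_23B C with c23_0_0 | c23_1_0 | c23_2_0 | c23_3_0 | c23_4_0 | c23_5_0
                                    · linarith only [c23_0_0, e0]
                                    · linarith only [C.f11_0, C.f13_0, C.f22_1, C.f33_0, c15_3_0, c20_1_1, c23_1_0, c5_0_1, c6_1_1, e1, e3, s1]
                                    · linarith only [c23_2_0, e2]
                                    · linarith only [C.f13_0, C.f33_0, C.o0, c16_0_1, c23_3_0, s1]
                                    · rcases c0_11_13_33_k2_k_p11_33A C with c24_0_0 | c24_1_0 | c24_2_0 | c24_3_0 | c24_4_0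
                                      · linarith only [c24_0_0, e0]
                                      · linarith only [c24_1_0, e3]
                                      · linarith only [C.f11_0, c19_3_0, c24_2_0, s1]
                                      · linarith only [C.f11_0, C.f11_1, C.f13_3, c17_1_1, c19_3_0, c23_4_0, c24_3_0, c6_1_1, c7_4_0, s2]
                                      · linarith only [C.f13_7, c24_4_0, s3]
                                    · linarith only [c13_5_0, c18_1_1, c23_5_0, s3]
                                · linarith only [c15_3_0, c19_4_0, c6_1_1, s2]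
                                · linarith only [c13_5_0, c19_5_0, c4_1_1, s3]
                            · linarith only [C.f13_4, C.f23_5, c0_0_1, c17_2_1, c1_0_1, c3_0_1]
                          · linarith only [C.f11_0, C.f11_1, C.f22_1, C.f23_0, C.o0, c0_0_1, c15_3_0, c16_1_1, c3_0_1, c5_0_1, c6_1_1, c7_4_0, s2]
                          · linarith only [C.f13_4, C.f23_1, c0_0_1, c16_2_1, c1_0_1, c3_0_1]
                        · linarith only [C.f11_2, C.f13_7, C.f22_6, c14_3_0, c15_4_0, c6_1_1, s3]
                      · linarith only [C.f11_0, C.f11_1, C.f11_2, C.f22_6, c12_3_0, c13_5_0, c14_4_0, c6_1_1, s3]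
                · linarith only [C.b5, C.f22_6, C.o2, c4_1_1, c6_1_1, c7_5_0]
            · rcases c0_11_13_33_k2_k_f22_5 C with ⟨c25_0_0, c25_0_1⟩ | ⟨c25_1_0, c25_1_1⟩
              · linarith only [C.f22_4, c1_0_1, c25_0_1, c2_0_0, c5_1_1]
              · rcases c0_11_13_33_k2_k_f23_3 C with ⟨c26_0_0, c26_0_1⟩ | ⟨c26_1_0, c26_1_1⟩ | ⟨c26_2_0, c26_2_1⟩
                · rcases c0_11_13_33_k2_k_f23_7 C with ⟨c27_0_0, c27_0_1⟩ | ⟨c27_1_0, c27_1_1⟩ | ⟨c27_2_0, c27_2_1⟩
                  · linarith only [C.f11_0, C.f13_0, C.f23_5, C.f33_0, c1_0_1, c26_0_1, c27_0_1, s1]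
                  · rcases c0_11_13_33_k2_k_tmpp C with c28_0_0 | c28_1_0 | c28_2_0 | c28_3_0
                    · linarith only [C.f11_0, C.f13_0, C.f33_0, c28_0_0, s1]
                    · linarith only [C.f11_0, C.f13_0, C.f23_1, C.f33_0, c26_0_1, c28_1_0, s1]
                    · linarith only [c28_2_0, e0]
                    · rcases c0_11_13_33_k2_k_p13_33A C with c29_0_0 | c29_1_0 | c29_2_0 | c29_3_0 | c29_4_0 | c29_5_0
                      · linarith only [c29_0_0, e1]
                      · linarith only [c29_1_0, e2]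
                      · linarith only [c29_2_0, e3]
                      · linarith only [C.f11_0, c29_3_0, s1]
                      · linarith only [C.f11_0, C.f11_1, c28_3_0, c29_4_0, s2]
                      · rcases c0_11_13_33_k2_k_f23_10 C with ⟨c30_0_0, c30_0_1⟩ | ⟨c30_1_0, c30_1_1⟩
                        · linarith only [C.f11_0, C.f11_1, C.f11_2, C.f23_9, C.o1, c27_1_1, c28_3_0, c29_5_0, c30_0_1, s3]
                        · rcases c0_11_13_33_k2_k_p11_23B C with c32_0_0 | c32_1_0 | c32_2_0 | c32_3_0 | c32_4_0 | c32_5_0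
                          · linarith only [c32_0_0, e0]
                          · linarith only [C.f11_0, C.f13_0, C.f23_1, C.f33_0, c26_0_1, c32_1_0, e1, s1]
                          · linarith only [c32_2_0, e2]
                          · linarith only [C.f13_0, C.f33_0, C.o0, c26_0_1, c32_3_0, s1]
                          · rcases c0_11_13_33_k2_k_p13_22A C with c33_0_0 | c33_1_0 | c33_2_0 | c33_3_0 | c33_4_0 | c33_5_0
                            · linarith only [c33_0_0, e1]
                            · linarith only [c33_1_0, e2]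
                            · linarith only [C.f11_0, C.f11_1, C.f13_0, C.f23_1, C.f33_0, C.o0, c1_0_1, c26_0_1, c27_1_1, c32_4_0, c33_2_0, e0, s1]
                            · linarith only [C.b3, C.f11_1, C.f23_1, C.f33_0, c26_0_1, c27_1_1, c32_4_0, c33_3_0, c5_1_1, s1]
                            · rcases c0_11_13_33_k2_k_p13_22B C with c37_0_0 | c37_1_0 | c37_2_0 | c37_3_0 | c37_4_0 | c37_5_0
                              · linarith only [c37_0_0, e1]
                              · linarith only [c37_1_0, e2]
                              · linarith only [C.f11_0, C.f11_1, C.f13_0, C.f23_1, C.f33_0, C.o0, c1_0_1, c26_0_1, c27_1_1, c32_4_0, c37_2_0, e0, s1]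
                              · linarith only [C.f11_0, C.f11_1, C.f23_1, C.f33_0, C.o0, c1_0_1, c26_0_1, c27_1_1, c32_4_0, c37_3_0, c5_1_1, s1]
                              · rcases c0_11_13_33_k2_k_p11_33A C with c40_0_0 | c40_1_0 | c40_2_0 | c40_3_0 | c40_4_0
                                · linarith only [c40_0_0, e0]
                                · linarith only [c40_1_0, e3]
                                · linarith only [C.b3, c25_1_1, c37_4_0, c3_0_1, c40_2_0, s1]
                                · linarith only [c25_1_1, c37_4_0, c40_3_0, s2]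
                                · linarith only [C.f13_7, c40_4_0, s3]
                              · linarith only [C.f11_0, C.f11_1, C.f11_2, C.f22_6, C.o0, c0_0_1, c25_1_1, c27_1_1, c29_5_0, c32_4_0, c33_4_0, c37_5_0, c3_0_1, c4_1_1, s3]
                            · linarith only [C.f11_2, C.f22_6, C.o1, C.o2, c25_1_1, c27_1_1, c29_5_0, c32_4_0, c33_5_0, c4_1_1, s3]
                          · linarith only [c29_5_0, c30_1_1, c32_5_0, s3]
                  · linarith only [C.f13_4, C.f23_5, c0_0_1, c1_0_1, c27_2_1, c3_0_1]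
                · rcases c0_11_13_33_k2_k_f23_7 C with ⟨c41_0_0, c41_0_1⟩ | ⟨c41_1_0, c41_1_1⟩ | ⟨c41_2_0, c41_2_1⟩
                  · linarith only [C.f23_5, c1_0_1, c26_1_1, c2_0_0, c41_0_1]
                  · rcases c0_11_13_33_k2_k_f23_10 C with ⟨c42_0_0, c42_0_1⟩ | ⟨c42_1_0, c42_1_1⟩
                    · rcases c0_11_13_33_k2_k_f33_2 C with ⟨c44_0_0, c44_0_1⟩ | ⟨c44_1_0, c44_1_1⟩
                      · rcases c0_11_13_33_k2_k_f33_5 C with ⟨c45_0_0, c45_0_1⟩ | ⟨c45_1_0, c45_1_1⟩
                        · rcases c0_11_13_33_k2_k_p11_33A C with c47_0_0 | c47_1_0 | c47_2_0 | c47_3_0 | c47_4_0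
                          · linarith only [c47_0_0, e0]
                          · linarith only [c47_1_0, e3]
                          · rcases c0_11_13_33_k2_k_p11_13B C with c49_0_0 | c49_1_0 | c49_2_0 | c49_3_0 | c49_4_0 | c49_5_0
                            · linarith only [c49_0_0, e0]
                            · linarith only [c49_1_0, e1]
                            · linarith only [c49_2_0, e2]
                            · linarith only [C.f11_0, c47_2_0, c49_3_0, s1]
                            · linarith only [C.b3, C.f11_0, C.f11_1, c3_0_1, c47_2_0, c49_4_0, s1]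
                            · rcases c0_11_13_33_k2_k_p13_33A C with c55_0_0 | c55_1_0 | c55_2_0 | c55_3_0 | c55_4_0 | c55_5_0
                              · linarith only [c55_0_0, e1]
                              · linarith only [c55_1_0, e2]
                              · linarith only [c55_2_0, e3]
                              · linarith only [C.f11_0, c55_3_0, s1]
                              · linarith only [C.f11_0, c1_0_1, c3_0_1, c45_0_1, c55_4_0, s1]
                              · linarith only [c49_5_0, c4_1_1, c55_5_0, s3]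
                          · linarith only [C.b3, C.b5, C.f11_1, C.f13_0, C.f13_3, C.f23_9, c41_1_1, c42_0_1, c45_0_1, c47_3_0, s1, s2]
                          · linarith only [C.f13_7, c47_4_0, s3]
                        · rcases c0_11_13_33_k2_k_p13_33A C with c57_0_0 | c57_1_0 | c57_2_0 | c57_3_0 | c57_4_0 | c57_5_0
                          · linarith only [c57_0_0, e1]
                          · linarith only [c57_1_0, e2]
                          · linarith only [c57_2_0, e3]
                          · linarith only [C.f11_0, c57_3_0, s1]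
                          · linarith only [C.b5, C.f11_0, C.f11_1, C.f22_0, C.f23_9, C.f33_1, C.o0, c0_0_1, c3_0_1, c41_1_1, c42_0_1, c44_0_1, c45_1_1, c57_4_0, c5_1_1, s2]
                          · rcases c0_11_13_33_k2_k_p11_22B C with c61_0_0 | c61_1_0 | c61_2_0 | c61_3_0 | c61_4_0
                            · linarith only [c61_0_0, e0]
                            · linarith only [C.b5, C.f23_9, C.o0, c2_0_0, c41_1_1, c42_0_1, c61_1_0, e0]
                            · linarith only [C.b5, C.f11_0, C.f23_9, C.o0, c2_0_0, c41_1_1, c42_0_1, c5_1_1, c61_2_0]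
                            · linarith only [C.f11_2, C.f23_9, C.o1, c25_1_1, c41_1_1, c42_0_1, c57_5_0, c61_3_0, s3]
                            · linarith only [C.b5, C.f22_6, c25_1_1, c57_5_0, c61_4_0, s3]
                      · rcases c0_11_13_33_k2_k_f33_5 C with ⟨c62_0_0, c62_0_1⟩ | ⟨c62_1_0, c62_1_1⟩
                        · linarith only [C.f33_4, c1_0_1, c2_0_0, c44_1_1, c62_0_1]
                        · rcases c0_11_13_33_k2_k_p13_33A C with c64_0_0 | c64_1_0 | c64_2_0 | c64_3_0 | c64_4_0 | c64_5_0
                          · linarith only [c64_0_0, e1]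
                          · linarith only [c64_1_0, e2]
                          · linarith only [c64_2_0, e3]
                          · linarith only [C.f11_0, c64_3_0, s1]
                          · linarith only [C.a4, C.b5, C.f11_0, C.f11_1, C.f23_9, C.o0, c0_0_1, c3_0_1, c41_1_1, c42_0_1, c62_1_1, c64_4_0, s2]
                          · rcases c0_11_13_33_k2_k_p11_22B C with c68_0_0 | c68_1_0 | c68_2_0 | c68_3_0 | c68_4_0
                            · linarith only [c68_0_0, e0]
                            · linarith only [C.b5, C.f23_9, C.o0, c2_0_0, c41_1_1, c42_0_1, c68_1_0, e0]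
                            · linarith only [C.b5, C.f11_0, C.f23_9, C.o0, c2_0_0, c41_1_1, c42_0_1, c5_1_1, c68_2_0]
                            · linarith only [C.f11_2, C.f23_9, C.o1, c25_1_1, c41_1_1, c42_0_1, c64_5_0, c68_3_0, s3]
                            · linarith only [C.b5, C.f22_6, c25_1_1, c64_5_0, c68_4_0, s3]
                    · rcases c0_11_13_33_k2_k_f33_5 C with ⟨c70_0_0, c70_0_1⟩ | ⟨c70_1_0, c70_1_1⟩
                      · rcases c0_11_13_33_k2_k_p13_33A C with c73_0_0 | c73_1_0 | c73_2_0 | c73_3_0 | c73_4_0 | c73_5_0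
                        · linarith only [c73_0_0, e1]
                        · linarith only [c73_1_0, e2]
                        · linarith only [c73_2_0, e3]
                        · linarith only [C.f11_0, c73_3_0, s1]
                        · linarith only [C.f11_0, c1_0_1, c3_0_1, c70_0_1, c73_4_0, s1]
                        · rcases c0_11_13_33_k2_k_p11_23B C with c74_0_0 | c74_1_0 | c74_2_0 | c74_3_0 | c74_4_0 | c74_5_0
                          · linarith only [c74_0_0, e0]
                          · linarith only [C.o0, c2_0_0, c74_1_0, e0]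
                          · linarith only [c74_2_0, e2]
                          · linarith only [C.f11_0, C.o0, c26_1_1, c2_0_0, c74_3_0]
                          · rcases c0_11_13_33_k2_k_p11_33A C with c76_0_0 | c76_1_0 | c76_2_0 | c76_3_0 | c76_4_0
                            · linarith only [c76_0_0, e0]
                            · linarith only [c76_1_0, e3]
                            · rcases c0_11_13_33_k2_k_p11_13B C with c77_0_0 | c77_1_0 | c77_2_0 | c77_3_0 | c77_4_0 | c77_5_0
                              · linarith only [c77_0_0, e0]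
                              · linarith only [c77_1_0, e1]
                              · linarith only [c77_2_0, e2]
                              · linarith only [C.f11_0, c76_2_0, c77_3_0, s1]
                              · linarith only [C.b3, C.f11_0, C.f11_1, c3_0_1, c76_2_0, c77_4_0, s1]
                              · linarith only [c4_1_1, c73_5_0, c77_5_0, s3]
                            · linarith only [C.b3, C.f11_0, C.f11_1, C.f13_0, c1_0_1, c41_1_1, c70_0_1, c74_4_0, c76_3_0, s1]
                            · linarith only [C.f13_7, c76_4_0, s3]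
                          · linarith only [c42_1_1, c73_5_0, c74_5_0, s3]
                      · rcases c0_11_13_33_k2_k_f33_8 C with ⟨c78_0_0, c78_0_1⟩ | ⟨c78_1_0, c78_1_1⟩
                        · linarith only [C.a4, C.f11_0, C.f11_1, C.f11_2, C.f13_4, C.f13_7, C.f23_5, C.f23_8, C.f33_7, C.o0, c0_0_1, c3_0_1, c42_1_1, c70_1_1, c78_0_1, s3]
                        · rcases c0_11_13_33_k2_k_p11_23B C with c90_0_0 | c90_1_0 | c90_2_0 | c90_3_0 | c90_4_0 | c90_5_0
                          · linarith only [c90_0_0, e0]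
                          · linarith only [C.o0, c2_0_0, c90_1_0, e0]
                          · linarith only [c90_2_0, e2]
                          · linarith only [C.f11_0, C.o0, c26_1_1, c2_0_0, c90_3_0]
                          · rcases c0_11_13_33_k2_k_p13_33A C with c91_0_0 | c91_1_0 | c91_2_0 | c91_3_0 | c91_4_0 | c91_5_0
                            · linarith only [c91_0_0, e1]
                            · linarith only [c91_1_0, e2]
                            · linarith only [c91_2_0, e3]
                            · linarith only [C.f11_0, c91_3_0, s1]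
                            · linarith only [C.o1, c41_1_1, c90_4_0, c91_4_0, s2]
                            · rcases c0_11_13_33_k2_k_p22_33A C with c93_0_0 | c93_1_0 | c93_2_0 | c93_3_0 | c93_4_0
                              · linarith only [C.f11_0, C.f11_1, C.o0, c1_0_1, c2_0_0, c41_1_1, c90_4_0, c93_0_0, e0]
                              · linarith only [c93_1_0, e3]
                              · linarith only [C.b3, C.f11_1, C.f13_0, c2_0_0, c41_1_1, c5_1_1, c90_4_0, c93_2_0, s1]
                              · rcases c0_11_13_33_k2_k_p11_13B C with c94_0_0 | c94_1_0 | c94_2_0 | c94_3_0 | c94_4_0 | c94_5_0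
                                · linarith only [c94_0_0, e0]
                                · linarith only [c94_1_0, e1]
                                · linarith only [c94_2_0, e2]
                                · rcases c0_11_13_33_k2_k_p11_33A C with c95_0_0 | c95_1_0 | c95_2_0 | c95_3_0 | c95_4_0
                                  · linarith only [c95_0_0, e0]
                                  · linarith only [c95_1_0, e3]
                                  · linarith only [C.f11_0, c94_3_0, c95_2_0, s1]
                                  · linarith only [C.f11_0, C.f11_1, C.f13_3, C.f13_4, c41_1_1, c4_1_1, c70_1_1, c78_1_1, c90_4_0, c91_5_0, c94_3_0, c95_3_0, s2]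
                                  · linarith only [C.f13_7, c95_4_0, s3]
                                · linarith only [c25_1_1, c93_3_0, c94_4_0, s2]
                                · linarith only [c4_1_1, c91_5_0, c94_5_0, s3]
                              · linarith only [C.f11_2, C.f13_7, C.f22_6, C.o1, c25_1_1, c41_1_1, c90_4_0, c93_4_0, s3]
                          · rcases c0_11_13_33_k2_k_p13_33A C with c96_0_0 | c96_1_0 | c96_2_0 | c96_3_0 | c96_4_0 | c96_5_0
                            · linarith only [c96_0_0, e1]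
                            · linarith only [c96_1_0, e2]
                            · linarith only [c96_2_0, e3]
                            · linarith only [C.f11_0, c96_3_0, s1]
                            · linarith only [C.b5, C.f11_2, c42_1_1, c90_5_0, c96_4_0, s2]
                            · linarith only [c42_1_1, c90_5_0, c96_5_0, s3]
                  · linarith only [C.f13_4, C.f23_5, c0_0_1, c1_0_1, c3_0_1, c41_2_1]
                · linarith only [C.f13_4, C.f23_1, c0_0_1, c1_0_1, c26_2_1, c3_0_1]
        · rcases c0_11_13_33_k2_k_f13_8 C with ⟨c97_0_0, c97_0_1⟩ | ⟨c97_1_0, c97_1_1⟩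
          · linarith only [C.a4, C.b5, C.f13_7, C.o1, C.o2, c3_1_1, c97_0_1]
          · rcases c0_11_13_33_k2_k_f33_5 C with ⟨c98_0_0, c98_0_1⟩ | ⟨c98_1_0, c98_1_1⟩
            · linarith only [C.f11_0, C.f13_0, C.f13_3, C.f33_4, C.o2, c3_1_1, c98_0_1, s1]
            · rcases c0_11_13_33_k2_k_f22_2 C with ⟨c100_0_0, c100_0_1⟩ | ⟨c100_1_0, c100_1_1⟩
              · rcases c0_11_13_33_k2_k_f22_5 C with ⟨c101_0_0, c101_0_1⟩ | ⟨c101_1_0, c101_1_1⟩
                · linarith only [C.f11_0, C.f11_1, C.f13_0, C.f13_3, C.f22_4, C.f33_0, C.f33_4, C.o0, C.o1, C.o2, c100_0_1, c101_0_1, c3_1_1, s1, s2]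
                · rcases c0_11_13_33_k2_k_p13_22A C with c102_0_0 | c102_1_0 | c102_2_0 | c102_3_0 | c102_4_0 | c102_5_0
                  · linarith only [c102_0_0, e1]
                  · linarith only [c102_1_0, e2]
                  · linarith only [C.f11_0, C.f13_0, C.f22_1, C.f33_0, C.o0, c100_0_1, c102_2_0, e0, s1]
                  · linarith only [C.f11_0, C.f33_0, c100_0_1, c102_3_0, s1]
                  · rcases c0_11_13_33_k2_k_tmpp C with c104_0_0 | c104_1_0 | c104_2_0 | c104_3_0
                    · linarith only [C.f11_0, C.f13_0, C.f33_0, c104_0_0, s1]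
                    · linarith only [C.f11_0, C.f13_0, C.f22_1, C.f33_0, C.o1, c100_0_1, c104_1_0, s1]
                    · linarith only [c104_2_0, e0]
                    · rcases c0_11_13_33_k2_k_f23_3 C with ⟨c105_0_0, c105_0_1⟩ | ⟨c105_1_0, c105_1_1⟩ | ⟨c105_2_0, c105_2_1⟩
                      · rcases c0_11_13_33_k2_k_f23_7 C with ⟨c106_0_0, c106_0_1⟩ | ⟨c106_1_0, c106_1_1⟩ | ⟨c106_2_0, c106_2_1⟩
                        · linarith only [C.f11_0, C.f11_1, C.f13_0, C.f13_3, C.f23_5, C.f33_0, C.f33_4, C.o2, c104_3_0, c105_0_1, c106_0_1, c3_1_1, s1, s2]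
                        · rcases c0_11_13_33_k2_k_f23_10 C with ⟨c107_0_0, c107_0_1⟩ | ⟨c107_1_0, c107_1_1⟩
                          · linarith only [C.a4, C.f11_0, C.f11_1, C.f11_2, C.f13_7, C.f23_9, C.f33_7, c101_1_1, c102_4_0, c104_3_0, c106_1_1, c107_0_1, c3_1_1, s3]
                          · rcases c0_11_13_33_k2_k_p13_22B C with c109_0_0 | c109_1_0 | c109_2_0 | c109_3_0 | c109_4_0 | c109_5_0
                            · linarith only [c109_0_0, e1]
                            · linarith only [c109_1_0, e2]
                            · linarith only [C.f11_0, C.f13_0, C.f22_1, C.f33_0, c100_0_1, c109_2_0, e1, s1]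
                            · linarith only [C.f11_0, C.f33_0, C.o0, c100_0_1, c109_3_0, s1]
                            · linarith only [C.f11_0, C.f11_1, C.f33_4, C.o2, c101_1_1, c102_4_0, c104_3_0, c109_4_0, c3_1_1, s2]
                            · rcases c0_11_13_33_k2_k_p11_23B C with c110_0_0 | c110_1_0 | c110_2_0 | c110_3_0 | c110_4_0 | c110_5_0
                              · linarith only [c110_0_0, e0]
                              · linarith only [C.f11_0, C.f13_0, C.f22_1, C.f33_0, C.o1, c100_0_1, c110_1_0, e1, s1]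
                              · linarith only [c110_2_0, e2]
                              · linarith only [C.f13_0, C.f33_0, C.o0, c105_0_1, c110_3_0, s1]
                              · linarith only [C.f11_2, C.f22_6, C.f33_4, C.f33_7, c101_1_1, c102_4_0, c106_1_1, c109_5_0, c110_4_0, c3_1_1, s2, s3]
                              · rcases c0_11_13_33_k2_k_p13_23A C with c112_0_0 | c112_1_0 | c112_2_0 | c112_3_0 | c112_4_0 | c112_5_0
                                · linarith only [c112_0_0, e1]
                                · linarith only [c112_1_0, e2]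
                                · linarith only [C.a4, C.f11_0, C.f13_0, C.f13_7, C.f22_1, C.f33_0, C.f33_7, c100_0_1, c101_1_1, c102_4_0, c107_1_1, c110_5_0, c112_2_0, c3_1_1, e1, s1, s3]
                                · linarith only [C.f11_0, C.f33_0, c105_0_1, c112_3_0, s1]
                                · linarith only [C.a4, C.f13_7, C.f33_7, c106_1_1, c107_1_1, c110_5_0, c112_4_0, c3_1_1, s3]
                                · linarith only [C.f13_7, C.f33_7, c107_1_1, c110_5_0, c112_5_0, s3]
                        · linarith only [C.f11_0, C.f11_1, C.f13_4, C.f23_5, C.f33_4, C.o2, c104_3_0, c106_2_1, s2]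
                      · linarith only [C.f11_0, C.f11_1, C.f22_1, C.f23_0, C.f33_4, C.o2, c100_0_1, c101_1_1, c102_4_0, c104_3_0, c105_1_1, c3_1_1, s2]
                      · linarith only [C.f11_0, C.f11_1, C.f22_1, C.f23_0, C.f33_4, C.o2, c100_0_1, c101_1_1, c102_4_0, c104_3_0, c105_2_1, s2]
                  · linarith only [C.b5, C.f22_6, C.o2, c101_1_1, c102_5_0, c97_1_1]
              · rcases c0_11_13_33_k2_k_f22_5 C with ⟨c113_0_0, c113_0_1⟩ | ⟨c113_1_0, c113_1_1⟩
                · linarith only [C.a4, C.f13_0, C.f13_3, C.f22_4, C.o2, c100_1_1, c113_0_1, c2_0_0, c3_1_1]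
                · rcases c0_11_13_33_k2_k_f23_3 C with ⟨c114_0_0, c114_0_1⟩ | ⟨c114_1_0, c114_1_1⟩ | ⟨c114_2_0, c114_2_1⟩
                  · rcases c0_11_13_33_k2_k_f23_7 C with ⟨c115_0_0, c115_0_1⟩ | ⟨c115_1_0, c115_1_1⟩ | ⟨c115_2_0, c115_2_1⟩
                    · linarith only [C.f11_0, C.f13_0, C.f23_5, C.f33_0, c114_0_1, c115_0_1, c1_0_1, s1]
                    · rcases c0_11_13_33_k2_k_tmpp C with c116_0_0 | c116_1_0 | c116_2_0 | c116_3_0
                      · linarith only [C.f11_0, C.f13_0, C.f33_0, c116_0_0, s1]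
                      · linarith only [C.f11_0, C.f13_0, C.f23_1, C.f33_0, c114_0_1, c116_1_0, s1]
                      · linarith only [c116_2_0, e0]
                      · rcases c0_11_13_33_k2_k_p13_23A C with c118_0_0 | c118_1_0 | c118_2_0 | c118_3_0 | c118_4_0 | c118_5_0
                        · linarith only [c118_0_0, e1]
                        · linarith only [c118_1_0, e2]
                        · linarith only [C.f11_0, C.f13_0, C.f23_1, C.f33_0, c114_0_1, c118_2_0, e1, s1]
                        · linarith only [C.f11_0, C.f33_0, c114_0_1, c118_3_0, s1]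
                        · linarith only [C.f11_0, C.f11_1, C.f33_4, C.o2, c115_1_1, c116_3_0, c118_4_0, c3_1_1, s2]
                        · rcases c0_11_13_33_k2_k_f23_10 C with ⟨c119_0_0, c119_0_1⟩ | ⟨c119_1_0, c119_1_1⟩
                          · linarith only [C.f11_0, C.f11_1, C.f11_2, C.f33_7, C.o1, C.o2, c115_1_1, c116_3_0, c118_5_0, c119_0_1, s3]
                          · linarith only [C.o2, c118_5_0, c119_1_1, c97_1_1]
                    · linarith only [C.a4, C.f23_5, C.o2, c115_2_1]
                  · rcases c0_11_13_33_k2_k_f23_7 C with ⟨c120_0_0, c120_0_1⟩ | ⟨c120_1_0, c120_1_1⟩ | ⟨c120_2_0, c120_2_1⟩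
                    · linarith only [C.f23_5, c114_1_1, c120_0_1, c1_0_1, c2_0_0]
                    · rcases c0_11_13_33_k2_k_f23_10 C with ⟨c121_0_0, c121_0_1⟩ | ⟨c121_1_0, c121_1_1⟩
                      · rcases c0_11_13_33_k2_k_tpmm C with c124_0_0 | c124_1_0 | c124_2_0 | c124_3_0 | c124_4_0
                        · linarith only [c124_0_0, e1]
                        · linarith only [C.b5, C.f11_0, C.f11_1, C.f11_2, C.f13_0, C.f13_3, C.f13_7, C.f23_9, C.f33_4, C.f33_7, C.o0, c120_1_1, c121_0_1, c124_1_0, c3_1_1, s2, s3]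
                        · linarith only [C.f11_0, C.f13_0, C.f33_0, C.o0, c124_2_0, s1]
                        · linarith only [C.b5, C.f23_9, C.o0, c120_1_1, c121_0_1, c124_3_0, c2_0_0]
                        · rcases c0_11_13_33_k2_k_p11_22B C with c127_0_0 | c127_1_0 | c127_2_0 | c127_3_0 | c127_4_0
                          · linarith only [c127_0_0, e0]
                          · linarith only [C.b5, C.f23_9, C.o0, c120_1_1, c121_0_1, c127_1_0, c2_0_0, e0]
                          · linarith only [C.b5, C.f11_0, C.f23_9, C.o0, c100_1_1, c120_1_1, c121_0_1, c127_2_0, c2_0_0]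
                          · linarith only [C.f11_2, C.f13_7, C.f23_9, C.f33_7, C.o1, c113_1_1, c120_1_1, c121_0_1, c124_4_0, c127_3_0, s3]
                          · linarith only [C.b5, C.f13_7, C.f22_6, C.f33_7, c113_1_1, c124_4_0, c127_4_0, s3]
                      · rcases c0_11_13_33_k2_k_p11_13B C with c142_0_0 | c142_1_0 | c142_2_0 | c142_3_0 | c142_4_0 | c142_5_0
                        · linarith only [c142_0_0, e0]
                        · linarith only [c142_1_0, e1]
                        · linarith only [c142_2_0, e2]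
                        · rcases c0_11_13_33_k2_k_p11_33A C with c143_0_0 | c143_1_0 | c143_2_0 | c143_3_0 | c143_4_0
                          · linarith only [c143_0_0, e0]
                          · linarith only [c143_1_0, e3]
                          · linarith only [C.f11_0, c142_3_0, c143_2_0, s1]
                          · rcases c0_11_13_33_k2_k_p13_23A C with c145_0_0 | c145_1_0 | c145_2_0 | c145_3_0 | c145_4_0 | c145_5_0
                            · linarith only [c145_0_0, e1]
                            · linarith only [c145_1_0, e2]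
                            · linarith only [C.f11_1, C.f13_0, C.f13_3, C.f33_1, c143_3_0, c145_2_0, c3_1_1, c98_1_1, e0, e2, s1]
                            · linarith only [C.f11_1, C.f13_3, C.f33_1, C.o2, c114_1_1, c142_3_0, c143_3_0, c145_3_0, c3_1_1, c98_1_1, s1]
                            · rcases c0_11_13_33_k2_k_p11_22B C with c146_0_0 | c146_1_0 | c146_2_0 | c146_3_0 | c146_4_0
                              · linarith only [c146_0_0, e0]
                              · linarith only [C.b2, c146_1_0, e0]
                              · rcases c0_11_13_33_k2_k_p11_23B C with c147_0_0 | c147_1_0 | c147_2_0 | c147_3_0 | c147_4_0 | c147_5_0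
                                · linarith only [c147_0_0, e0]
                                · linarith only [C.f11_0, C.f13_0, C.f33_1, C.o2, c120_1_1, c145_4_0, c147_1_0, c3_1_1, e1, s1]
                                · linarith only [c147_2_0, e2]
                                · linarith only [C.f13_0, C.f33_1, C.o0, C.o2, c114_1_1, c120_1_1, c145_4_0, c147_3_0, c3_1_1, s1]
                                · linarith only [C.f11_0, C.f11_1, C.f13_0, C.f13_3, C.f33_1, C.o0, C.o2, c100_1_1, c120_1_1, c145_4_0, c146_2_0, c147_4_0, c3_1_1, s1]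
                                · linarith only [C.b5, C.f11_0, C.f11_1, C.f11_2, C.f13_0, C.f13_3, C.f33_1, C.o2, c100_1_1, c121_1_1, c146_2_0, c147_5_0, c3_1_1, s1]
                              · linarith only [C.f33_4, C.o2, c113_1_1, c120_1_1, c145_4_0, c146_3_0, c3_1_1, s2]
                              · linarith only [C.b5, C.f11_2, C.f22_6, C.f33_4, C.o2, c113_1_1, c120_1_1, c145_4_0, c146_4_0, c3_1_1, s2]
                            · linarith only [C.o2, c121_1_1, c145_5_0, c97_1_1]
                          · linarith only [C.f13_7, c143_4_0, s3]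
                        · linarith only [C.b3, C.f11_0, C.f11_1, C.f33_4, C.o1, C.o2, c142_4_0, c3_1_1, s2]
                        · rcases c0_11_13_33_k2_k_p13_23A C with c149_0_0 | c149_1_0 | c149_2_0 | c149_3_0 | c149_4_0 | c149_5_0
                          · linarith only [c149_0_0, e1]
                          · linarith only [c149_1_0, e2]
                          · linarith only [c149_2_0, c2_0_0, e1]
                          · rcases c0_11_13_33_k2_k_p13_33A C with c152_0_0 | c152_1_0 | c152_2_0 | c152_3_0 | c152_4_0 | c152_5_0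
                            · linarith only [c152_0_0, e1]
                            · linarith only [c152_1_0, e2]
                            · linarith only [c152_2_0, e3]
                            · linarith only [C.f11_0, c152_3_0, s1]
                            · linarith only [C.f11_0, C.f33_1, C.f33_7, c114_1_1, c142_5_0, c149_3_0, c152_4_0, c3_1_1, c98_1_1, s1, s3]
                            · linarith only [c142_5_0, c152_5_0, c97_1_1, s3]
                          · linarith only [C.a4, C.f33_7, c120_1_1, c142_5_0, c149_4_0, c3_1_1, s3]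
                          · linarith only [C.f33_7, c121_1_1, c142_5_0, c149_5_0, c97_1_1, s3]
                    · linarith only [C.a4, C.f23_5, C.o2, c120_2_1]
                  · linarith only [C.a4, C.f23_1, C.o2, c114_2_1]
      · rcases c0_11_13_33_k2_k_f13_5 C with ⟨c153_0_0, c153_0_1⟩ | ⟨c153_1_0, c153_1_1⟩
        · rcases c0_11_13_33_k2_k_f13_8 C with ⟨c154_0_0, c154_0_1⟩ | ⟨c154_1_0, c154_1_1⟩
          · linarith only [C.f13_7, C.o1, c0_0_1, c153_0_1, c154_0_1, c1_0_1, c2_1_1]
          · rcases c0_11_13_33_k2_k_f22_2 C with ⟨c155_0_0, c155_0_1⟩ | ⟨c155_1_0, c155_1_1⟩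
            · rcases c0_11_13_33_k2_k_f22_5 C with ⟨c156_0_0, c156_0_1⟩ | ⟨c156_1_0, c156_1_1⟩
              · linarith only [C.f11_0, C.f13_0, C.f22_4, C.f33_0, C.o1, c155_0_1, c156_0_1, c1_0_1, s1]
              · rcases c0_11_13_33_k2_k_p11_22B C with c157_0_0 | c157_1_0 | c157_2_0 | c157_3_0 | c157_4_0
                · linarith only [c157_0_0, e0]
                · linarith only [C.f11_0, C.f13_0, C.f22_1, C.f33_0, c155_0_1, c157_1_0, e1, s1]
                · linarith only [C.f13_0, C.f33_0, C.o0, c155_0_1, c157_2_0, s1]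
                · rcases c0_11_13_33_k2_k_p13_22A C with c158_0_0 | c158_1_0 | c158_2_0 | c158_3_0 | c158_4_0 | c158_5_0
                  · linarith only [c158_0_0, e1]
                  · linarith only [c158_1_0, e2]
                  · linarith only [C.f11_0, C.f13_0, C.f22_1, C.f33_0, C.o0, c155_0_1, c158_2_0, e0, s1]
                  · linarith only [C.f11_0, C.f33_0, c155_0_1, c158_3_0, s1]
                  · rcases c0_11_13_33_k2_k_p13_33A C with c162_0_0 | c162_1_0 | c162_2_0 | c162_3_0 | c162_4_0 | c162_5_0
                    · linarith only [c162_0_0, e1]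
                    · linarith only [c162_1_0, e2]
                    · linarith only [c162_2_0, e3]
                    · linarith only [C.f11_0, c162_3_0, s1]
                    · linarith only [c156_1_1, c157_3_0, c162_4_0, s2]
                    · rcases c0_11_13_33_k2_k_p22_33A C with c164_0_0 | c164_1_0 | c164_2_0 | c164_3_0 | c164_4_0
                      · linarith only [C.f11_0, C.f13_0, C.f22_1, C.f33_0, C.o0, c155_0_1, c164_0_0, e0, s1]
                      · linarith only [c164_1_0, e3]
                      · linarith only [C.f11_0, C.f13_0, C.f33_0, c155_0_1, c164_2_0, s1]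
                      · rcases c0_11_13_33_k2_k_f23_3 C with ⟨c165_0_0, c165_0_1⟩ | ⟨c165_1_0, c165_1_1⟩ | ⟨c165_2_0, c165_2_1⟩
                        · rcases c0_11_13_33_k2_k_f23_7 C with ⟨c166_0_0, c166_0_1⟩ | ⟨c166_1_0, c166_1_1⟩ | ⟨c166_2_0, c166_2_1⟩
                          · linarith only [C.f11_0, C.f13_0, C.f23_5, C.f33_0, c165_0_1, c166_0_1, c1_0_1, s1]
                          · rcases c0_11_13_33_k2_k_f23_10 C with ⟨c167_0_0, c167_0_1⟩ | ⟨c167_1_0, c167_1_1⟩
                            · linarith only [C.f11_0, C.f11_1, C.f11_2, C.f23_9, C.o0, c0_0_1, c153_0_1, c156_1_1, c157_3_0, c158_4_0, c162_5_0, c166_1_1, c167_0_1, s3]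
                            · rcases c0_11_13_33_k2_k_p11_13B C with c168_0_0 | c168_1_0 | c168_2_0 | c168_3_0 | c168_4_0 | c168_5_0
                              · linarith only [c168_0_0, e0]
                              · linarith only [c168_1_0, e1]
                              · linarith only [c168_2_0, e2]
                              · rcases c0_11_13_33_k2_k_f33_5 C with ⟨c169_0_0, c169_0_1⟩ | ⟨c169_1_0, c169_1_1⟩
                                · linarith only [C.f11_0, C.f11_1, c156_1_1, c157_3_0, c164_3_0, c168_3_0, c169_0_1, c1_0_1, s1]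
                                · rcases c0_11_13_33_k2_k_p11_23B C with c172_0_0 | c172_1_0 | c172_2_0 | c172_3_0 | c172_4_0 | c172_5_0
                                  · linarith only [c172_0_0, e0]
                                  · linarith only [C.f11_0, C.f13_0, C.f22_1, C.f33_0, c155_0_1, c156_1_1, c164_3_0, c169_1_1, c172_1_0, e1, e3, s1]
                                  · linarith only [c172_2_0, e2]
                                  · linarith only [C.f13_0, C.f33_0, C.o0, c165_0_1, c172_3_0, s1]
                                  · rcases c0_11_13_33_k2_k_p11_33A C with c173_0_0 | c173_1_0 | c173_2_0 | c173_3_0 | c173_4_0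
                                    · linarith only [c173_0_0, e0]
                                    · linarith only [c173_1_0, e3]
                                    · linarith only [C.f11_0, c168_3_0, c173_2_0, s1]
                                    · linarith only [C.f11_0, C.f11_1, C.f13_3, c156_1_1, c158_4_0, c166_1_1, c168_3_0, c172_4_0, c173_3_0, s2]
                                    · linarith only [C.f13_7, c173_4_0, s3]
                                  · linarith only [c162_5_0, c167_1_1, c172_5_0, s3]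
                              · linarith only [c156_1_1, c164_3_0, c168_4_0, s2]
                              · linarith only [c154_1_1, c162_5_0, c168_5_0, s3]
                          · linarith only [C.f13_4, C.f23_5, c0_0_1, c153_0_1, c166_2_1, c1_0_1]
                        · linarith only [C.f11_0, C.f11_1, C.f22_1, C.f23_0, C.o0, c0_0_1, c153_0_1, c155_0_1, c156_1_1, c158_4_0, c164_3_0, c165_1_1, s2]
                        · linarith only [C.f13_4, C.f23_1, c0_0_1, c153_0_1, c165_2_1, c1_0_1]
                      · linarith only [C.f11_2, C.f13_7, C.f22_6, c156_1_1, c157_3_0, c164_4_0, s3]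
                  · linarith only [C.f22_6, C.o2, c154_1_1, c156_1_1, c158_5_0, c2_1_1]
                · linarith only [C.b3, C.f11_0, C.f11_1, C.f11_2, C.f22_6, c156_1_1, c157_4_0, c2_1_1]
            · rcases c0_11_13_33_k2_k_f22_5 C with ⟨c174_0_0, c174_0_1⟩ | ⟨c174_1_0, c174_1_1⟩
              · linarith only [C.a2, C.f22_4, c155_1_1, c174_0_1, c1_0_1]
              · rcases c0_11_13_33_k2_k_f23_3 C with ⟨c175_0_0, c175_0_1⟩ | ⟨c175_1_0, c175_1_1⟩ | ⟨c175_2_0, c175_2_1⟩
                · rcases c0_11_13_33_k2_k_f23_7 C with ⟨c176_0_0, c176_0_1⟩ | ⟨c176_1_0, c176_1_1⟩ | ⟨c176_2_0, c176_2_1⟩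
                  · linarith only [C.f11_0, C.f13_0, C.f23_5, C.f33_0, c175_0_1, c176_0_1, c1_0_1, s1]
                  · rcases c0_11_13_33_k2_k_f23_10 C with ⟨c177_0_0, c177_0_1⟩ | ⟨c177_1_0, c177_1_1⟩
                    · linarith only [C.f23_9, C.o1, c176_1_1, c177_0_1, c2_1_1]
                    · rcases c0_11_13_33_k2_k_tmpp C with c184_0_0 | c184_1_0 | c184_2_0 | c184_3_0
                      · linarith only [C.f11_0, C.f13_0, C.f33_0, c184_0_0, s1]
                      · linarith only [C.f11_0, C.f13_0, C.f23_1, C.f33_0, c175_0_1, c184_1_0, s1]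
                      · linarith only [c184_2_0, e0]
                      · rcases c0_11_13_33_k2_k_p11_22B C with c186_0_0 | c186_1_0 | c186_2_0 | c186_3_0 | c186_4_0
                        · linarith only [c186_0_0, e0]
                        · linarith only [c186_1_0, c2_1_0, e0]
                        · linarith only [C.f13_0, C.f23_1, C.f33_0, c155_1_1, c175_0_1, c184_3_0, c186_2_0, c1_0_1, s1]
                        · rcases c0_11_13_33_k2_k_p13_33A C with c187_0_0 | c187_1_0 | c187_2_0 | c187_3_0 | c187_4_0 | c187_5_0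
                          · linarith only [c187_0_0, e1]
                          · linarith only [c187_1_0, e2]
                          · linarith only [c187_2_0, e3]
                          · linarith only [C.f11_0, c187_3_0, s1]
                          · linarith only [c174_1_1, c186_3_0, c187_4_0, s2]
                          · rcases c0_11_13_33_k2_k_p11_23B C with c188_0_0 | c188_1_0 | c188_2_0 | c188_3_0 | c188_4_0 | c188_5_0
                            · linarith only [c188_0_0, e0]
                            · linarith only [C.f11_0, C.f13_0, C.f23_1, C.f33_0, c175_0_1, c188_1_0, e1, s1]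
                            · linarith only [c188_2_0, e2]
                            · linarith only [C.f13_0, C.f33_0, C.o0, c175_0_1, c188_3_0, s1]
                            · rcases c0_11_13_33_k2_k_p13_22A C with c189_0_0 | c189_1_0 | c189_2_0 | c189_3_0 | c189_4_0 | c189_5_0
                              · linarith only [c189_0_0, e1]
                              · linarith only [c189_1_0, e2]
                              · linarith only [C.f11_0, C.f11_1, C.f13_0, C.f23_1, C.f33_0, C.o0, c175_0_1, c176_1_1, c188_4_0, c189_2_0, c1_0_1, e0, s1]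
                              · linarith only [C.b3, C.f11_1, C.f23_1, C.f33_0, c155_1_1, c175_0_1, c176_1_1, c188_4_0, c189_3_0, s1]
                              · rcases c0_11_13_33_k2_k_p13_22B C with c190_0_0 | c190_1_0 | c190_2_0 | c190_3_0 | c190_4_0 | c190_5_0
                                · linarith only [c190_0_0, e1]
                                · linarith only [c190_1_0, e2]
                                · linarith only [C.f11_0, C.f11_1, C.f13_0, C.f23_1, C.f33_0, C.o0, c175_0_1, c176_1_1, c188_4_0, c190_2_0, c1_0_1, e0, s1]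
                                · linarith only [C.f11_0, C.f11_1, C.f23_1, C.f33_0, C.o0, c155_1_1, c175_0_1, c176_1_1, c188_4_0, c190_3_0, c1_0_1, s1]
                                · rcases c0_11_13_33_k2_k_p11_33A C with c193_0_0 | c193_1_0 | c193_2_0 | c193_3_0 | c193_4_0
                                  · linarith only [c193_0_0, e0]
                                  · linarith only [c193_1_0, e3]
                                  · linarith only [C.b3, c153_0_1, c174_1_1, c190_4_0, c193_2_0, s1]
                                  · linarith only [c174_1_1, c190_4_0, c193_3_0, s2]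
                                  · linarith only [C.f13_7, c193_4_0, s3]
                                · linarith only [C.f11_0, C.f11_1, C.f11_2, C.f22_6, C.o0, c0_0_1, c153_0_1, c154_1_1, c174_1_1, c176_1_1, c187_5_0, c188_4_0, c189_4_0, c190_5_0, s3]
                              · linarith only [C.f11_2, C.f22_6, C.f33_7, C.o1, C.o2, c174_1_1, c176_1_1, c188_4_0, c189_5_0, s3]
                            · linarith only [c177_1_1, c187_5_0, c188_5_0, s3]
                        · linarith only [C.b3, C.f11_0, C.f11_1, C.f11_2, C.f22_6, c174_1_1, c186_4_0, c2_1_1]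
                  · linarith only [C.f13_4, C.f23_5, c0_0_1, c153_0_1, c176_2_1, c1_0_1]
                · rcases c0_11_13_33_k2_k_f23_7 C with ⟨c194_0_0, c194_0_1⟩ | ⟨c194_1_0, c194_1_1⟩ | ⟨c194_2_0, c194_2_1⟩
                  · linarith only [C.a2, C.f23_5, c175_1_1, c194_0_1, c1_0_1]
                  · rcases c0_11_13_33_k2_k_f23_10 C with ⟨c195_0_0, c195_0_1⟩ | ⟨c195_1_0, c195_1_1⟩
                    · linarith only [C.f23_9, C.o1, c194_1_1, c195_0_1, c2_1_1]
                    · rcases c0_11_13_33_k2_k_f33_5 C with ⟨c197_0_0, c197_0_1⟩ | ⟨c197_1_0, c197_1_1⟩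
                      · rcases c0_11_13_33_k2_k_p23_33A C with c203_0_0 | c203_1_0 | c203_2_0 | c203_3_0 | c203_4_0 | c203_5_0
                        · linarith only [C.a2, c203_0_0, e1]
                        · linarith only [c203_1_0, e2]
                        · linarith only [c203_2_0, e3]
                        · linarith only [C.a2, C.f11_0, C.f13_0, c175_1_1, c203_3_0, s1]
                        · linarith only [C.f11_0, C.f13_0, c194_1_1, c197_0_1, c1_0_1, c203_4_0, s1]
                        · rcases c0_11_13_33_k2_k_tzmp C with c205_0_0 | c205_1_0 | c205_2_0 | c205_3_0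
                          · linarith only [c1_0_1, c205_0_0]
                          · linarith only [C.f11_0, C.f13_0, C.f33_4, c197_0_1, c1_0_1, c205_1_0, s1]
                          · linarith only [c205_2_0, c2_1_0]
                          · rcases c0_11_13_33_k2_k_p11_13B C with c206_0_0 | c206_1_0 | c206_2_0 | c206_3_0 | c206_4_0 | c206_5_0
                            · linarith only [c206_0_0, e0]
                            · linarith only [c206_1_0, e1]
                            · linarith only [c206_2_0, e2]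
                            · rcases c0_11_13_33_k2_k_p11_33A C with c207_0_0 | c207_1_0 | c207_2_0 | c207_3_0 | c207_4_0
                              · linarith only [c207_0_0, e0]
                              · linarith only [c207_1_0, e3]
                              · linarith only [C.f11_0, c206_3_0, c207_2_0, s1]
                              · linarith only [C.f11_0, C.f11_1, c197_0_1, c1_0_1, c206_3_0, c207_3_0, s1]
                              · linarith only [C.f13_7, c207_4_0, s3]
                            · linarith only [C.f11_0, C.f11_1, C.f11_2, C.f13_7, C.o0, c0_0_1, c153_0_1, c195_1_1, c203_5_0, c205_3_0, c206_4_0, s3]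
                            · linarith only [c195_1_1, c203_5_0, c206_5_0, s3]
                      · rcases c0_11_13_33_k2_k_f33_8 C with ⟨c208_0_0, c208_0_1⟩ | ⟨c208_1_0, c208_1_1⟩
                        · linarith only [C.f13_4, C.f33_7, C.o1, c0_0_1, c153_0_1, c197_1_1, c1_0_1, c208_0_1, c2_1_1]
                        · rcases c0_11_13_33_k2_k_p11_22B C with c232_0_0 | c232_1_0 | c232_2_0 | c232_3_0 | c232_4_0
                          · linarith only [c232_0_0, e0]
                          · linarith only [c232_1_0, c2_1_0, e0]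
                          · rcases c0_11_13_33_k2_k_p11_33A C with c237_0_0 | c237_1_0 | c237_2_0 | c237_3_0 | c237_4_0
                            · linarith only [c237_0_0, e0]
                            · linarith only [c237_1_0, e3]
                            · rcases c0_11_13_33_k2_k_p11_13B C with c238_0_0 | c238_1_0 | c238_2_0 | c238_3_0 | c238_4_0 | c238_5_0
                              · linarith only [c238_0_0, e0]
                              · linarith only [c238_1_0, e1]
                              · linarith only [c238_2_0, e2]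
                              · linarith only [C.f11_0, c237_2_0, c238_3_0, s1]
                              · linarith only [C.a2, C.f11_0, C.f11_1, c153_0_1, c155_1_1, c1_0_1, c232_2_0, c237_2_0, c238_4_0, s1]
                              · rcases c0_11_13_33_k2_k_p13_33A C with c241_0_0 | c241_1_0 | c241_2_0 | c241_3_0 | c241_4_0 | c241_5_0
                                · linarith only [c241_0_0, e1]
                                · linarith only [c241_1_0, e2]
                                · linarith only [c241_2_0, e3]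
                                · linarith only [C.f11_0, c241_3_0, s1]
                                · linarith only [C.f11_2, c154_1_1, c238_5_0, c241_4_0, c2_1_1, s2]
                                · linarith only [c154_1_1, c238_5_0, c241_5_0, s3]
                            · rcases c0_11_13_33_k2_k_p11_23B C with c242_0_0 | c242_1_0 | c242_2_0 | c242_3_0 | c242_4_0 | c242_5_0
                              · linarith only [c242_0_0, e0]
                              · linarith only [C.f11_1, C.f13_0, C.f33_1, c197_1_1, c1_0_1, c237_3_0, c242_1_0, e0, s1]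
                              · linarith only [c242_2_0, e2]
                              · linarith only [C.f11_0, C.f11_1, C.f13_0, C.f33_1, c175_1_1, c197_1_1, c1_0_1, c237_3_0, c242_3_0, s1]
                              · linarith only [C.a2, C.f11_0, C.f11_1, C.f13_0, C.f33_1, c155_1_1, c194_1_1, c197_1_1, c1_0_1, c232_2_0, c237_3_0, c242_4_0, s1]
                              · rcases c0_11_13_33_k2_k_p11_13B C with c243_0_0 | c243_1_0 | c243_2_0 | c243_3_0 | c243_4_0 | c243_5_0
                                · linarith only [c243_0_0, e0]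
                                · linarith only [c243_1_0, e1]
                                · linarith only [c243_2_0, e2]
                                · linarith only [C.f11_0, C.f11_1, C.f11_2, C.f33_1, c155_1_1, c195_1_1, c197_1_1, c1_0_1, c232_2_0, c237_3_0, c242_5_0, c243_3_0, c2_1_1, s1]
                                · linarith only [C.a2, C.f11_0, C.f11_1, C.f33_1, c153_0_1, c155_1_1, c197_1_1, c1_0_1, c232_2_0, c237_3_0, c243_4_0, s1]
                                · rcases c0_11_13_33_k2_k_p13_33A C with c246_0_0 | c246_1_0 | c246_2_0 | c246_3_0 | c246_4_0 | c246_5_0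
                                  · linarith only [c246_0_0, e1]
                                  · linarith only [c246_1_0, e2]
                                  · linarith only [c246_2_0, e3]
                                  · linarith only [C.f11_0, c246_3_0, s1]
                                  · linarith only [C.f11_2, c154_1_1, c243_5_0, c246_4_0, c2_1_1, s2]
                                  · linarith only [c154_1_1, c243_5_0, c246_5_0, s3]
                            · linarith only [C.f13_7, c237_4_0, s3]
                          · rcases c0_11_13_33_k2_k_p13_33A C with c247_0_0 | c247_1_0 | c247_2_0 | c247_3_0 | c247_4_0 | c247_5_0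
                            · linarith only [c247_0_0, e1]
                            · linarith only [c247_1_0, e2]
                            · linarith only [c247_2_0, e3]
                            · linarith only [C.f11_0, c247_3_0, s1]
                            · linarith only [c174_1_1, c232_3_0, c247_4_0, s2]
                            · rcases c0_11_13_33_k2_k_p11_13B C with c248_0_0 | c248_1_0 | c248_2_0 | c248_3_0 | c248_4_0 | c248_5_0
                              · linarith only [c248_0_0, e0]
                              · linarith only [c248_1_0, e1]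
                              · linarith only [c248_2_0, e2]
                              · rcases c0_11_13_33_k2_k_p11_33A C with c249_0_0 | c249_1_0 | c249_2_0 | c249_3_0 | c249_4_0
                                · linarith only [c249_0_0, e0]
                                · linarith only [c249_1_0, e3]
                                · linarith only [C.f11_0, c248_3_0, c249_2_0, s1]
                                · rcases c0_11_13_33_k2_k_p11_23B C with c250_0_0 | c250_1_0 | c250_2_0 | c250_3_0 | c250_4_0 | c250_5_0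
                                  · linarith only [c250_0_0, e0]
                                  · linarith only [C.f11_1, C.f13_0, C.f33_1, c197_1_1, c1_0_1, c249_3_0, c250_1_0, e0, s1]
                                  · linarith only [c250_2_0, e2]
                                  · linarith only [C.f11_0, C.f11_1, C.f13_0, C.f33_1, c175_1_1, c197_1_1, c1_0_1, c249_3_0, c250_3_0, s1]
                                  · linarith only [C.f11_0, C.f11_1, C.f13_3, C.f13_4, c154_1_1, c194_1_1, c197_1_1, c208_1_1, c247_5_0, c248_3_0, c249_3_0, c250_4_0, s2]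
                                  · linarith only [c195_1_1, c247_5_0, c250_5_0, s3]
                                · linarith only [C.f13_7, c249_4_0, s3]
                              · rcases c0_11_13_33_k2_k_p11_33A C with c251_0_0 | c251_1_0 | c251_2_0 | c251_3_0 | c251_4_0
                                · linarith only [c251_0_0, e0]
                                · linarith only [c251_1_0, e3]
                                · linarith only [C.b3, C.f11_0, C.f11_1, c153_0_1, c248_4_0, c251_2_0, s1]
                                · linarith only [C.b3, C.f11_0, C.f11_1, c248_4_0, c251_3_0, s2]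
                                · linarith only [C.f13_7, c251_4_0, s3]
                              · linarith only [c154_1_1, c247_5_0, c248_5_0, s3]
                          · linarith only [C.b3, C.f11_0, C.f11_1, C.f11_2, C.f22_6, c174_1_1, c232_4_0, c2_1_1]
                  · linarith only [C.f13_4, C.f23_5, c0_0_1, c153_0_1, c194_2_1, c1_0_1]
                · linarith only [C.f13_4, C.f23_1, c0_0_1, c153_0_1, c175_2_1, c1_0_1]
        · rcases c0_11_13_33_k2_k_f13_8 C with ⟨c252_0_0, c252_0_1⟩ | ⟨c252_1_0, c252_1_1⟩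
          · linarith only [C.a4, C.f13_7, C.o1, C.o2, c153_1_1, c252_0_1, c2_1_1]
          · rcases c0_11_13_33_k2_k_f33_5 C with ⟨c253_0_0, c253_0_1⟩ | ⟨c253_1_0, c253_1_1⟩
            · linarith only [C.f11_0, C.f13_0, C.f13_3, C.f33_4, C.o2, c153_1_1, c253_0_1, s1]
            · rcases c0_11_13_33_k2_k_f22_2 C with ⟨c255_0_0, c255_0_1⟩ | ⟨c255_1_0, c255_1_1⟩
              · rcases c0_11_13_33_k2_k_f22_5 C with ⟨c256_0_0, c256_0_1⟩ | ⟨c256_1_0, c256_1_1⟩
                · linarith only [C.f11_0, C.f11_1, C.f13_0, C.f13_3, C.f22_4, C.f33_0, C.f33_4, C.o0, C.o1, C.o2, c153_1_1, c255_0_1, c256_0_1, s1, s2]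
                · rcases c0_11_13_33_k2_k_p11_22B C with c257_0_0 | c257_1_0 | c257_2_0 | c257_3_0 | c257_4_0
                  · linarith only [c257_0_0, e0]
                  · linarith only [C.f11_0, C.f13_0, C.f22_1, C.f33_0, C.o0, c255_0_1, c257_1_0, e0, s1]
                  · linarith only [C.f13_0, C.f33_0, C.o0, c255_0_1, c257_2_0, s1]
                  · rcases c0_11_13_33_k2_k_p13_22A C with c258_0_0 | c258_1_0 | c258_2_0 | c258_3_0 | c258_4_0 | c258_5_0
                    · linarith only [c258_0_0, e1]
                    · linarith only [c258_1_0, e2]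
                    · linarith only [C.f11_0, C.f13_0, C.f22_1, C.f33_0, C.o0, c255_0_1, c258_2_0, e0, s1]
                    · linarith only [C.f11_0, C.f33_0, c255_0_1, c258_3_0, s1]
                    · rcases c0_11_13_33_k2_k_f23_3 C with ⟨c259_0_0, c259_0_1⟩ | ⟨c259_1_0, c259_1_1⟩ | ⟨c259_2_0, c259_2_1⟩
                      · rcases c0_11_13_33_k2_k_f23_7 C with ⟨c260_0_0, c260_0_1⟩ | ⟨c260_1_0, c260_1_1⟩ | ⟨c260_2_0, c260_2_1⟩
                        · linarith only [C.f11_0, C.f13_0, C.f23_5, C.f33_0, c1_0_1, c259_0_1, c260_0_1, s1]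
                        · rcases c0_11_13_33_k2_k_f23_10 C with ⟨c261_0_0, c261_0_1⟩ | ⟨c261_1_0, c261_1_1⟩
                          · linarith only [C.f23_9, C.o1, c260_1_1, c261_0_1, c2_1_1]
                          · rcases c0_11_13_33_k2_k_p13_22B C with c264_0_0 | c264_1_0 | c264_2_0 | c264_3_0 | c264_4_0 | c264_5_0
                            · linarith only [c264_0_0, e1]
                            · linarith only [c264_1_0, e2]
                            · linarith only [C.f11_0, C.f13_0, C.f22_1, C.f33_0, c255_0_1, c264_2_0, e1, s1]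
                            · linarith only [C.f11_0, C.f33_0, C.o0, c255_0_1, c264_3_0, s1]
                            · linarith only [C.f33_4, C.o2, c153_1_1, c256_1_1, c257_3_0, c258_4_0, c264_4_0, s2]
                            · rcases c0_11_13_33_k2_k_p11_23B C with c265_0_0 | c265_1_0 | c265_2_0 | c265_3_0 | c265_4_0 | c265_5_0
                              · linarith only [c265_0_0, e0]
                              · linarith only [C.f11_0, C.f13_0, C.f22_1, C.f33_0, C.o1, c255_0_1, c265_1_0, e1, s1]
                              · linarith only [c265_2_0, e2]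
                              · linarith only [C.f13_0, C.f33_0, C.o0, c259_0_1, c265_3_0, s1]
                              · linarith only [C.f11_2, C.f22_6, C.f33_4, C.f33_7, c153_1_1, c256_1_1, c258_4_0, c260_1_1, c264_5_0, c265_4_0, s2, s3]
                              · rcases c0_11_13_33_k2_k_p13_23A C with c267_0_0 | c267_1_0 | c267_2_0 | c267_3_0 | c267_4_0 | c267_5_0
                                · linarith only [c267_0_0, e1]
                                · linarith only [c267_1_0, e2]
                                · linarith only [C.f11_1, C.f11_2, C.f13_0, C.f13_3, C.f13_7, C.f22_1, C.f33_0, C.f33_4, C.f33_7, c153_1_1, c255_0_1, c256_1_1, c258_4_0, c261_1_1, c265_5_0, c267_2_0, c2_1_1, e0, s1, s2, s3]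
                                · linarith only [C.f11_0, C.f33_0, c259_0_1, c267_3_0, s1]
                                · linarith only [C.f11_2, C.f13_7, C.f33_4, C.f33_7, c153_1_1, c260_1_1, c261_1_1, c265_5_0, c267_4_0, c2_1_1, s2, s3]
                                · linarith only [C.f13_7, C.f33_7, c261_1_1, c265_5_0, c267_5_0, s3]
                        · linarith only [C.f13_4, C.f23_5, C.f33_4, C.o2, c256_1_1, c257_3_0, c260_2_1, s2]
                      · linarith only [C.f22_1, C.f23_0, C.f33_4, C.o2, c153_1_1, c255_0_1, c256_1_1, c257_3_0, c258_4_0, c259_1_1, s2]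
                      · linarith only [C.a4, C.f23_1, C.o2, c259_2_1]
                    · linarith only [C.f22_6, C.o2, c252_1_1, c256_1_1, c258_5_0, c2_1_1]
                  · linarith only [C.b3, C.f11_0, C.f11_1, C.f11_2, C.f22_6, c256_1_1, c257_4_0, c2_1_1]
              · rcases c0_11_13_33_k2_k_f22_5 C with ⟨c268_0_0, c268_0_1⟩ | ⟨c268_1_0, c268_1_1⟩
                · linarith only [C.a2, C.f22_4, c1_0_1, c255_1_1, c268_0_1]
                · rcases c0_11_13_33_k2_k_f23_3 C with ⟨c269_0_0, c269_0_1⟩ | ⟨c269_1_0, c269_1_1⟩ | ⟨c269_2_0, c269_2_1⟩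
                  · rcases c0_11_13_33_k2_k_f23_7 C with ⟨c270_0_0, c270_0_1⟩ | ⟨c270_1_0, c270_1_1⟩ | ⟨c270_2_0, c270_2_1⟩
                    · linarith only [C.f11_0, C.f13_0, C.f23_5, C.f33_0, c1_0_1, c269_0_1, c270_0_1, s1]
                    · rcases c0_11_13_33_k2_k_f23_10 C with ⟨c271_0_0, c271_0_1⟩ | ⟨c271_1_0, c271_1_1⟩
                      · linarith only [C.f23_9, C.o1, c270_1_1, c271_0_1, c2_1_1]
                      · rcases c0_11_13_33_k2_k_p13_23A C with c272_0_0 | c272_1_0 | c272_2_0 | c272_3_0 | c272_4_0 | c272_5_0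
                        · linarith only [c272_0_0, e1]
                        · linarith only [c272_1_0, e2]
                        · linarith only [C.f11_0, C.f13_0, C.f23_1, C.f33_0, C.o0, c269_0_1, c272_2_0, e0, s1]
                        · linarith only [C.f11_0, C.f33_0, c269_0_1, c272_3_0, s1]
                        · rcases c0_11_13_33_k2_k_p11_22B C with c274_0_0 | c274_1_0 | c274_2_0 | c274_3_0 | c274_4_0
                          · linarith only [c274_0_0, e0]
                          · linarith only [c274_1_0, c2_1_0, e0]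
                          · rcases c0_11_13_33_k2_k_p11_23B C with c276_0_0 | c276_1_0 | c276_2_0 | c276_3_0 | c276_4_0 | c276_5_0
                            · linarith only [c276_0_0, e0]
                            · linarith only [C.f11_0, C.f13_0, C.f23_1, C.f33_0, c269_0_1, c276_1_0, e1, s1]
                            · linarith only [c276_2_0, e2]
                            · linarith only [C.f13_0, C.f33_0, C.o0, c269_0_1, c276_3_0, s1]
                            · linarith only [C.f11_0, C.f11_1, C.f13_0, C.f23_1, C.f33_0, C.o0, c1_0_1, c255_1_1, c269_0_1, c270_1_1, c274_2_0, c276_4_0, s1]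
                            · linarith only [C.f11_0, C.f11_1, C.f11_2, C.f13_0, C.f23_1, C.f33_0, c1_0_1, c255_1_1, c269_0_1, c271_1_1, c274_2_0, c276_5_0, c2_1_1, s1]
                          · linarith only [C.f33_4, C.o2, c153_1_1, c268_1_1, c270_1_1, c272_4_0, c274_3_0, s2]
                          · linarith only [C.f11_2, C.f22_6, C.f33_4, C.o2, c153_1_1, c268_1_1, c270_1_1, c272_4_0, c274_4_0, c2_1_1, s2]
                        · linarith only [C.o2, c252_1_1, c271_1_1, c272_5_0]
                    · linarith only [C.a4, C.f23_5, C.o2, c270_2_1]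
                  · rcases c0_11_13_33_k2_k_f23_7 C with ⟨c277_0_0, c277_0_1⟩ | ⟨c277_1_0, c277_1_1⟩ | ⟨c277_2_0, c277_2_1⟩
                    · linarith only [C.a2, C.f23_5, c1_0_1, c269_1_1, c277_0_1]
                    · rcases c0_11_13_33_k2_k_f23_10 C with ⟨c278_0_0, c278_0_1⟩ | ⟨c278_1_0, c278_1_1⟩
                      · linarith only [C.f23_9, C.o1, c277_1_1, c278_0_1, c2_1_1]
                      · rcases c0_11_13_33_k2_k_p11_13B C with c295_0_0 | c295_1_0 | c295_2_0 | c295_3_0 | c295_4_0 | c295_5_0
                        · linarith only [c295_0_0, e0]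
                        · linarith only [c295_1_0, e1]
                        · linarith only [c295_2_0, e2]
                        · rcases c0_11_13_33_k2_k_p11_33A C with c296_0_0 | c296_1_0 | c296_2_0 | c296_3_0 | c296_4_0
                          · linarith only [c296_0_0, e0]
                          · linarith only [c296_1_0, e3]
                          · linarith only [C.f11_0, c295_3_0, c296_2_0, s1]
                          · rcases c0_11_13_33_k2_k_p11_23A C with c297_0_0 | c297_1_0 | c297_2_0 | c297_3_0 | c297_4_0 | c297_5_0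
                            · linarith only [c297_0_0, e0]
                            · linarith only [C.a2, c297_1_0, e1]
                            · linarith only [c297_2_0, e2]
                            · linarith only [C.f11_0, C.f11_1, C.f13_3, C.f33_1, C.o2, c153_1_1, c253_1_1, c269_1_1, c295_3_0, c296_3_0, c297_3_0, s1]
                            · rcases c0_11_13_33_k2_k_p11_23B C with c298_0_0 | c298_1_0 | c298_2_0 | c298_3_0 | c298_4_0 | c298_5_0
                              · linarith only [c298_0_0, e0]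
                              · linarith only [C.a2, c298_1_0, e1]
                              · linarith only [c298_2_0, e2]
                              · linarith only [C.f11_0, C.f11_1, C.f13_0, C.f13_3, C.f33_1, C.o2, c153_1_1, c269_1_1, c277_1_1, c297_4_0, c298_3_0, s1]
                              · rcases c0_11_13_33_k2_k_p13_22A C with c301_0_0 | c301_1_0 | c301_2_0 | c301_3_0 | c301_4_0 | c301_5_0
                                · linarith only [c301_0_0, e1]
                                · linarith only [c301_1_0, e2]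
                                · linarith only [C.a2, C.f11_0, C.f11_1, C.f13_0, C.f13_3, c277_1_1, c296_3_0, c298_4_0, c301_2_0, e0, s2]
                                · linarith only [C.f11_0, C.f11_1, C.f13_3, C.f33_1, c253_1_1, c255_1_1, c277_1_1, c295_3_0, c296_3_0, c298_4_0, c301_3_0, s1, s2]
                                · linarith only [C.f11_0, C.f11_1, C.f13_3, c268_1_1, c277_1_1, c295_3_0, c296_3_0, c298_4_0, c301_4_0, s2]
                                · linarith only [C.f11_0, C.f11_1, C.f13_3, C.f13_4, C.f22_6, c252_1_1, c253_1_1, c268_1_1, c277_1_1, c295_3_0, c296_3_0, c298_4_0, c2_1_1, c301_5_0, s2]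
                              · linarith only [C.a4, C.f11_0, C.f11_1, C.f11_2, C.f13_3, C.f13_7, C.f33_7, C.o1, c153_1_1, c278_1_1, c295_3_0, c298_5_0, c2_1_1, s3]
                            · linarith only [C.f13_7, C.f33_7, C.o2, c278_1_1, c297_5_0, s3]
                          · linarith only [C.f13_7, c296_4_0, s3]
                        · linarith only [C.b3, C.f11_0, C.f11_1, C.f33_4, C.o1, C.o2, c153_1_1, c295_4_0, s2]
                        · rcases c0_11_13_33_k2_k_p13_23A C with c304_0_0 | c304_1_0 | c304_2_0 | c304_3_0 | c304_4_0 | c304_5_0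
                          · linarith only [c304_0_0, e1]
                          · linarith only [c304_1_0, e2]
                          · linarith only [C.a2, c304_2_0, e1]
                          · rcases c0_11_13_33_k2_k_p13_33A C with c307_0_0 | c307_1_0 | c307_2_0 | c307_3_0 | c307_4_0 | c307_5_0
                            · linarith only [c307_0_0, e1]
                            · linarith only [c307_1_0, e2]
                            · linarith only [c307_2_0, e3]
                            · linarith only [C.f11_0, c307_3_0, s1]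
                            · linarith only [C.f11_0, C.f33_1, C.f33_7, c153_1_1, c253_1_1, c269_1_1, c295_5_0, c304_3_0, c307_4_0, s1, s3]
                            · linarith only [c252_1_1, c295_5_0, c307_5_0, s3]
                          · linarith only [C.a4, C.f33_7, c153_1_1, c277_1_1, c295_5_0, c304_4_0, s3]
                          · linarith only [C.f33_7, c252_1_1, c278_1_1, c295_5_0, c304_5_0, s3]
                    · linarith only [C.a4, C.f23_5, C.o2, c277_2_1]
                  · linarith only [C.a4, C.f23_1, C.o2, c269_2_1]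
    · rcases c0_11_13_33_k2_k_t23 C with ⟨c308_0_0, c308_0_1⟩ | ⟨c308_1_0, c308_1_1⟩
      · rcases c0_11_13_33_k2_k_f13_5 C with ⟨c309_0_0, c309_0_1⟩ | ⟨c309_1_0, c309_1_1⟩
        · rcases c0_11_13_33_k2_k_f13_8 C with ⟨c310_0_0, c310_0_1⟩ | ⟨c310_1_0, c310_1_1⟩
          · linarith only [C.b5, C.f13_7, C.o0, c0_0_1, c1_1_1, c309_0_1, c310_0_1]
          · rcases c0_11_13_33_k2_k_f22_2 C with ⟨c311_0_0, c311_0_1⟩ | ⟨c311_1_0, c311_1_1⟩
            · rcases c0_11_13_33_k2_k_f22_5 C with ⟨c312_0_0, c312_0_1⟩ | ⟨c312_1_0, c312_1_1⟩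
              · linarith only [C.a3, C.f11_0, C.f13_0, C.f22_4, C.f33_0, C.o1, c311_0_1, c312_0_1, s1]
              · rcases c0_11_13_33_k2_k_p13_22A C with c313_0_0 | c313_1_0 | c313_2_0 | c313_3_0 | c313_4_0 | c313_5_0
                · linarith only [c313_0_0, e1]
                · linarith only [c313_1_0, e2]
                · linarith only [C.f11_0, C.f13_0, C.f22_1, C.f33_0, C.o0, c311_0_1, c313_2_0, e0, s1]
                · linarith only [C.f11_0, C.f33_0, c311_0_1, c313_3_0, s1]
                · rcases c0_11_13_33_k2_k_f23_3 C with ⟨c314_0_0, c314_0_1⟩ | ⟨c314_1_0, c314_1_1⟩ | ⟨c314_2_0, c314_2_1⟩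
                  · rcases c0_11_13_33_k2_k_f23_7 C with ⟨c315_0_0, c315_0_1⟩ | ⟨c315_1_0, c315_1_1⟩ | ⟨c315_2_0, c315_2_1⟩
                    · linarith only [C.a3, C.f11_0, C.f13_0, C.f23_5, C.f33_0, c314_0_1, c315_0_1, s1]
                    · rcases c0_11_13_33_k2_k_f23_10 C with ⟨c316_0_0, c316_0_1⟩ | ⟨c316_1_0, c316_1_1⟩
                      · linarith only [C.b5, C.f23_9, C.o0, c0_0_1, c1_1_1, c309_0_1, c312_1_1, c313_4_0, c315_1_1, c316_0_1]
                      · rcases c0_11_13_33_k2_k_p11_23B C with c318_0_0 | c318_1_0 | c318_2_0 | c318_3_0 | c318_4_0 | c318_5_0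
                        · linarith only [c318_0_0, e0]
                        · linarith only [c308_0_0, c318_1_0, e1]
                        · linarith only [c318_2_0, e2]
                        · linarith only [C.f13_0, C.f33_0, C.o0, c314_0_1, c318_3_0, s1]
                        · linarith only [C.f11_0, C.f11_1, C.o0, c0_0_1, c1_1_1, c309_0_1, c312_1_1, c313_4_0, c315_1_1, c318_4_0]
                        · rcases c0_11_13_33_k2_k_p13_33A C with c324_0_0 | c324_1_0 | c324_2_0 | c324_3_0 | c324_4_0 | c324_5_0
                          · linarith only [c324_0_0, e1]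
                          · linarith only [c324_1_0, e2]
                          · linarith only [c324_2_0, e3]
                          · linarith only [C.f11_0, c324_3_0, s1]
                          · linarith only [C.b5, C.f11_2, c316_1_1, c318_5_0, c324_4_0, s2]
                          · linarith only [c316_1_1, c318_5_0, c324_5_0, s3]
                    · linarith only [C.a4, C.f23_5, C.o2, c315_2_1]
                  · linarith only [C.f22_1, C.f23_0, C.o0, c0_0_1, c1_1_1, c309_0_1, c311_0_1, c312_1_1, c313_4_0, c314_1_1]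
                  · linarith only [C.f11_0, C.f11_1, C.f13_4, C.f22_1, C.f23_0, C.f33_4, C.o0, C.o2, c0_0_1, c309_0_1, c311_0_1, c312_1_1, c313_4_0, c314_2_1, s2]
                · linarith only [C.b5, C.f22_6, C.o2, c310_1_1, c312_1_1, c313_5_0]
            · rcases c0_11_13_33_k2_k_f22_5 C with ⟨c325_0_0, c325_0_1⟩ | ⟨c325_1_0, c325_1_1⟩
              · linarith only [C.a3, C.f22_4, c308_0_0, c311_1_1, c325_0_1]
              · rcases c0_11_13_33_k2_k_f23_3 C with ⟨c326_0_0, c326_0_1⟩ | ⟨c326_1_0, c326_1_1⟩ | ⟨c326_2_0, c326_2_1⟩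
                · rcases c0_11_13_33_k2_k_f23_7 C with ⟨c327_0_0, c327_0_1⟩ | ⟨c327_1_0, c327_1_1⟩ | ⟨c327_2_0, c327_2_1⟩
                  · linarith only [C.a3, C.f11_0, C.f13_0, C.f23_5, C.f33_0, c326_0_1, c327_0_1, s1]
                  · rcases c0_11_13_33_k2_k_tmpp C with c329_0_0 | c329_1_0 | c329_2_0 | c329_3_0
                    · linarith only [C.f11_0, C.f13_0, C.f33_0, c329_0_0, s1]
                    · linarith only [C.f11_0, C.f13_0, C.f23_1, C.f33_0, c326_0_1, c329_1_0, s1]
                    · linarith only [c329_2_0, e0]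
                    · rcases c0_11_13_33_k2_k_p13_33A C with c331_0_0 | c331_1_0 | c331_2_0 | c331_3_0 | c331_4_0 | c331_5_0
                      · linarith only [c331_0_0, e1]
                      · linarith only [c331_1_0, e2]
                      · linarith only [c331_2_0, e3]
                      · linarith only [C.f11_0, c331_3_0, s1]
                      · linarith only [C.f11_0, C.f11_1, c329_3_0, c331_4_0, s2]
                      · rcases c0_11_13_33_k2_k_f23_10 C with ⟨c332_0_0, c332_0_1⟩ | ⟨c332_1_0, c332_1_1⟩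
                        · linarith only [C.f11_0, C.f11_1, C.f11_2, C.f23_9, C.o1, c327_1_1, c329_3_0, c331_5_0, c332_0_1, s3]
                        · rcases c0_11_13_33_k2_k_p11_13B C with c333_0_0 | c333_1_0 | c333_2_0 | c333_3_0 | c333_4_0 | c333_5_0
                          · linarith only [c333_0_0, e0]
                          · linarith only [c333_1_0, e1]
                          · linarith only [c333_2_0, e2]
                          · rcases c0_11_13_33_k2_k_f33_8 C with ⟨c334_0_0, c334_0_1⟩ | ⟨c334_1_0, c334_1_1⟩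
                            · linarith only [C.f11_0, C.f11_1, C.f11_2, C.f13_3, C.o1, C.o2, c310_1_1, c329_3_0, c331_5_0, c333_3_0, c334_0_1, s2, s3]
                            · rcases c0_11_13_33_k2_k_p11_23B C with c338_0_0 | c338_1_0 | c338_2_0 | c338_3_0 | c338_4_0 | c338_5_0
                              · linarith only [c338_0_0, e0]
                              · linarith only [C.f11_0, C.f13_0, C.f23_1, C.f33_0, c326_0_1, c338_1_0, e1, s1]
                              · linarith only [c338_2_0, e2]
                              · linarith only [C.f13_0, C.f33_0, C.o0, c326_0_1, c338_3_0, s1]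
                              · rcases c0_11_13_33_k2_k_p11_33A C with c341_0_0 | c341_1_0 | c341_2_0 | c341_3_0 | c341_4_0
                                · linarith only [c341_0_0, e0]
                                · linarith only [c341_1_0, e3]
                                · linarith only [C.f11_0, c333_3_0, c341_2_0, s1]
                                · rcases c0_11_13_33_k2_k_f33_5 C with ⟨c342_0_0, c342_0_1⟩ | ⟨c342_1_0, c342_1_1⟩
                                  · linarith only [C.f11_0, C.f11_1, C.f13_0, C.o0, c1_1_1, c327_1_1, c338_4_0, c341_3_0, c342_0_1, s1]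
                                  · linarith only [C.f11_0, C.f11_1, C.f13_4, C.o0, c0_0_1, c1_1_1, c309_0_1, c310_1_1, c327_1_1, c331_5_0, c334_1_1, c338_4_0, c341_3_0, c342_1_1]
                                · linarith only [C.f13_7, c341_4_0, s3]
                              · linarith only [c331_5_0, c332_1_1, c338_5_0, s3]
                          · linarith only [C.f11_0, C.f11_1, C.o0, c0_0_1, c1_1_1, c309_0_1, c333_4_0]
                          · linarith only [c310_1_1, c331_5_0, c333_5_0, s3]
                  · linarith only [C.a4, C.f23_5, C.o2, c327_2_1]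
                · rcases c0_11_13_33_k2_k_f23_7 C with ⟨c343_0_0, c343_0_1⟩ | ⟨c343_1_0, c343_1_1⟩ | ⟨c343_2_0, c343_2_1⟩
                  · linarith only [C.a3, C.f23_5, c308_0_0, c326_1_1, c343_0_1]
                  · rcases c0_11_13_33_k2_k_f23_10 C with ⟨c345_0_0, c345_0_1⟩ | ⟨c345_1_0, c345_1_1⟩
                    · rcases c0_11_13_33_k2_k_p13_22A C with c347_0_0 | c347_1_0 | c347_2_0 | c347_3_0 | c347_4_0 | c347_5_0
                      · linarith only [c347_0_0, e1]
                      · linarith only [c347_1_0, e2]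
                      · linarith only [C.b5, C.f23_9, C.o0, c308_0_0, c343_1_1, c345_0_1, c347_2_0, e0]
                      · rcases c0_11_13_33_k2_k_tmzp C with c351_0_0 | c351_1_0 | c351_2_0 | c351_3_0 | c351_4_0 | c351_5_0
                        · linarith only [C.f11_0, C.f13_0, C.f33_0, c351_0_0, s1]
                        · linarith only [c308_0_0, c351_1_0]
                        · linarith only [C.b5, C.f11_0, C.f23_9, C.f33_1, c311_1_1, c343_1_1, c345_0_1, c347_3_0, c351_2_0, s1]
                        · linarith only [c351_3_0, e0]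
                        · linarith only [c1_1_1, c351_4_0]
                        · rcases c0_11_13_33_k2_k_tzpm C with c353_0_0 | c353_1_0 | c353_2_0 | c353_3_0 | ⟨c353_4_0, c353_4_1⟩
                          · linarith only [c308_0_0, c353_0_0]
                          · rcases c0_11_13_33_k2_k_p11_22B C with c356_0_0 | c356_1_0 | c356_2_0 | c356_3_0 | c356_4_0
                            · linarith only [c356_0_0, e0]
                            · linarith only [C.b5, C.o0, C.o2, c308_0_0, c353_1_0, c356_1_0, e0]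
                            · linarith only [C.b5, C.f11_0, C.o0, C.o2, c308_0_0, c311_1_1, c353_1_0, c356_2_0]
                            · linarith only [C.f11_2, C.f13_7, C.f33_7, C.o1, c325_1_1, c353_1_0, c356_3_0, s3]
                            · linarith only [C.b5, C.f13_7, C.f22_6, C.f33_7, C.o1, c325_1_1, c353_1_0, c356_4_0, s3]
                          · linarith only [c1_1_1, c353_2_0]
                          · linarith only [C.a4, C.f11_0, C.f11_1, C.f11_2, C.f13_4, C.f13_7, C.f33_7, C.o0, C.o1, c0_0_1, c309_0_1, c351_5_0, c353_3_0, s3]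
                          · linarith only [C.b5, C.f23_9, c343_1_1, c345_0_1, c353_4_0]
                      · linarith only [C.b5, C.f23_9, C.o0, c0_0_1, c1_1_1, c309_0_1, c325_1_1, c343_1_1, c345_0_1, c347_4_0]
                      · linarith only [C.b5, C.f22_6, C.o2, c310_1_1, c325_1_1, c347_5_0]
                    · rcases c0_11_13_33_k2_k_f33_5 C with ⟨c358_0_0, c358_0_1⟩ | ⟨c358_1_0, c358_1_1⟩
                      · rcases c0_11_13_33_k2_k_p13_33A C with c361_0_0 | c361_1_0 | c361_2_0 | c361_3_0 | c361_4_0 | c361_5_0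
                        · linarith only [c361_0_0, e1]
                        · linarith only [c361_1_0, e2]
                        · linarith only [c361_2_0, e3]
                        · linarith only [C.f11_0, c361_3_0, s1]
                        · linarith only [C.a3, C.f11_0, c309_0_1, c358_0_1, c361_4_0, s1]
                        · rcases c0_11_13_33_k2_k_p11_13B C with c362_0_0 | c362_1_0 | c362_2_0 | c362_3_0 | c362_4_0 | c362_5_0
                          · linarith only [c362_0_0, e0]
                          · linarith only [c362_1_0, e1]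
                          · linarith only [c362_2_0, e2]
                          · rcases c0_11_13_33_k2_k_p11_33A C with c366_0_0 | c366_1_0 | c366_2_0 | c366_3_0 | c366_4_0
                            · linarith only [c366_0_0, e0]
                            · linarith only [c366_1_0, e3]
                            · linarith only [C.f11_0, c362_3_0, c366_2_0, s1]
                            · linarith only [C.a3, C.f11_0, C.f11_1, c358_0_1, c362_3_0, c366_3_0, s1]
                            · linarith only [C.f13_7, c366_4_0, s3]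
                          · linarith only [C.f11_0, C.f11_1, C.o0, c0_0_1, c1_1_1, c309_0_1, c362_4_0]
                          · linarith only [c310_1_1, c361_5_0, c362_5_0, s3]
                      · rcases c0_11_13_33_k2_k_p11_13B C with c370_0_0 | c370_1_0 | c370_2_0 | c370_3_0 | c370_4_0 | c370_5_0
                        · linarith only [c370_0_0, e0]
                        · linarith only [c370_1_0, e1]
                        · linarith only [c370_2_0, e2]
                        · rcases c0_11_13_33_k2_k_p11_33A C with c371_0_0 | c371_1_0 | c371_2_0 | c371_3_0 | c371_4_0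
                          · linarith only [c371_0_0, e0]
                          · linarith only [c371_1_0, e3]
                          · linarith only [C.f11_0, c370_3_0, c371_2_0, s1]
                          · rcases c0_11_13_33_k2_k_tzpm C with c372_0_0 | c372_1_0 | c372_2_0 | c372_3_0 | ⟨c372_4_0, c372_4_1⟩
                            · linarith only [c308_0_0, c372_0_0]
                            · linarith only [C.b5, C.f11_2, C.f13_4, C.f13_7, C.f33_7, c358_1_1, c371_3_0, c372_1_0, s2, s3]
                            · linarith only [c1_1_1, c372_2_0]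
                            · linarith only [C.f13_4, c371_3_0, c372_3_0, s2]
                            · rcases c0_11_13_33_k2_k_p11_23B C with c373_0_0 | c373_1_0 | c373_2_0 | c373_3_0 | c373_4_0 | c373_5_0
                              · linarith only [c373_0_0, e0]
                              · linarith only [C.o0, c308_0_0, c373_1_0, e0]
                              · linarith only [c373_2_0, e2]
                              · linarith only [C.f11_0, C.o0, c308_0_0, c326_1_1, c373_3_0]
                              · linarith only [C.f11_0, C.f11_1, C.f13_3, c343_1_1, c370_3_0, c371_3_0, c372_4_0, c373_4_0, s2]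
                              · linarith only [C.f13_7, C.f33_7, c345_1_1, c372_4_1, c373_5_0, s3]
                          · linarith only [C.f13_7, c371_4_0, s3]
                        · linarith only [C.f11_0, C.f11_1, C.o0, c0_0_1, c1_1_1, c309_0_1, c370_4_0]
                        · rcases c0_11_13_33_k2_k_p13_33A C with c374_0_0 | c374_1_0 | c374_2_0 | c374_3_0 | c374_4_0 | c374_5_0
                          · linarith only [c374_0_0, e1]
                          · linarith only [c374_1_0, e2]
                          · linarith only [c374_2_0, e3]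
                          · linarith only [C.f11_0, c374_3_0, s1]
                          · linarith only [C.b5, C.f11_2, c310_1_1, c370_5_0, c374_4_0, s2]
                          · linarith only [c310_1_1, c370_5_0, c374_5_0, s3]
                  · linarith only [C.a4, C.f23_5, C.o2, c343_2_1]
                · linarith only [C.a4, C.f23_1, C.o2, c326_2_1]
        · rcases c0_11_13_33_k2_k_f13_8 C with ⟨c375_0_0, c375_0_1⟩ | ⟨c375_1_0, c375_1_1⟩
          · linarith only [C.a4, C.b5, C.f13_7, C.o1, C.o2, c309_1_1, c375_0_1]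
          · rcases c0_11_13_33_k2_k_f33_5 C with ⟨c376_0_0, c376_0_1⟩ | ⟨c376_1_0, c376_1_1⟩
            · linarith only [C.f11_0, C.f13_0, C.f13_3, C.f33_4, C.o2, c309_1_1, c376_0_1, s1]
            · rcases c0_11_13_33_k2_k_f22_2 C with ⟨c378_0_0, c378_0_1⟩ | ⟨c378_1_0, c378_1_1⟩
              · rcases c0_11_13_33_k2_k_f22_5 C with ⟨c379_0_0, c379_0_1⟩ | ⟨c379_1_0, c379_1_1⟩
                · linarith only [C.f11_0, C.f11_1, C.f13_0, C.f13_3, C.f22_4, C.f33_0, C.f33_4, C.o0, C.o1, C.o2, c309_1_1, c378_0_1, c379_0_1, s1, s2]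
                · rcases c0_11_13_33_k2_k_p13_22A C with c380_0_0 | c380_1_0 | c380_2_0 | c380_3_0 | c380_4_0 | c380_5_0
                  · linarith only [c380_0_0, e1]
                  · linarith only [c380_1_0, e2]
                  · linarith only [C.f11_0, C.f13_0, C.f22_1, C.f33_0, C.o0, c378_0_1, c380_2_0, e0, s1]
                  · linarith only [C.f11_0, C.f33_0, c378_0_1, c380_3_0, s1]
                  · rcases c0_11_13_33_k2_k_tmpp C with c382_0_0 | c382_1_0 | c382_2_0 | c382_3_0
                    · linarith only [C.f11_0, C.f13_0, C.f33_0, c382_0_0, s1]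
                    · linarith only [C.f11_0, C.f13_0, C.f22_1, C.f33_0, C.o1, c378_0_1, c382_1_0, s1]
                    · linarith only [c382_2_0, e0]
                    · rcases c0_11_13_33_k2_k_f23_3 C with ⟨c383_0_0, c383_0_1⟩ | ⟨c383_1_0, c383_1_1⟩ | ⟨c383_2_0, c383_2_1⟩
                      · rcases c0_11_13_33_k2_k_f23_7 C with ⟨c384_0_0, c384_0_1⟩ | ⟨c384_1_0, c384_1_1⟩ | ⟨c384_2_0, c384_2_1⟩
                        · linarith only [C.f11_0, C.f11_1, C.f13_0, C.f13_3, C.f23_5, C.f33_0, C.f33_4, C.o2, c309_1_1, c382_3_0, c383_0_1, c384_0_1, s1, s2]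
                        · rcases c0_11_13_33_k2_k_f23_10 C with ⟨c385_0_0, c385_0_1⟩ | ⟨c385_1_0, c385_1_1⟩
                          · linarith only [C.a4, C.f11_0, C.f11_1, C.f11_2, C.f13_7, C.f23_9, C.f33_7, c309_1_1, c379_1_1, c380_4_0, c382_3_0, c384_1_1, c385_0_1, s3]
                          · rcases c0_11_13_33_k2_k_p11_23B C with c387_0_0 | c387_1_0 | c387_2_0 | c387_3_0 | c387_4_0 | c387_5_0
                            · linarith only [c387_0_0, e0]
                            · linarith only [C.f11_0, C.f13_0, C.f22_1, C.f33_0, C.o1, c378_0_1, c387_1_0, e1, s1]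
                            · linarith only [c387_2_0, e2]
                            · linarith only [C.f13_0, C.f33_0, C.o0, c383_0_1, c387_3_0, s1]
                            · linarith only [C.f11_0, C.f11_1, C.f33_4, C.o2, c1_1_1, c309_1_1, c379_1_1, c380_4_0, c384_1_1, c387_4_0, s2]
                            · rcases c0_11_13_33_k2_k_p13_23A C with c390_0_0 | c390_1_0 | c390_2_0 | c390_3_0 | c390_4_0 | c390_5_0
                              · linarith only [c390_0_0, e1]
                              · linarith only [c390_1_0, e2]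
                              · linarith only [C.f11_0, C.f11_1, C.f13_0, C.f13_3, C.f13_7, C.f22_1, C.f33_0, C.f33_4, C.f33_7, c309_1_1, c378_0_1, c379_1_1, c380_4_0, c382_3_0, c385_1_1, c387_5_0, c390_2_0, e0, s1, s2, s3]
                              · linarith only [C.f11_0, C.f33_0, c383_0_1, c390_3_0, s1]
                              · linarith only [C.f11_0, C.f11_1, C.f13_7, C.f33_4, C.f33_7, c309_1_1, c382_3_0, c384_1_1, c385_1_1, c387_5_0, c390_4_0, s2, s3]
                              · linarith only [C.f13_7, C.f33_7, c385_1_1, c387_5_0, c390_5_0, s3]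
                        · linarith only [C.f11_0, C.f11_1, C.f13_4, C.f23_5, C.f33_4, C.o2, c382_3_0, c384_2_1, s2]
                      · linarith only [C.f11_0, C.f11_1, C.f22_1, C.f23_0, C.f33_4, C.o2, c309_1_1, c378_0_1, c379_1_1, c380_4_0, c382_3_0, c383_1_1, s2]
                      · linarith only [C.f11_0, C.f11_1, C.f22_1, C.f23_0, C.f33_4, C.o2, c378_0_1, c379_1_1, c380_4_0, c382_3_0, c383_2_1, s2]
                  · linarith only [C.b5, C.f22_6, C.o2, c375_1_1, c379_1_1, c380_5_0]
              · rcases c0_11_13_33_k2_k_f22_5 C with ⟨c391_0_0, c391_0_1⟩ | ⟨c391_1_0, c391_1_1⟩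
                · linarith only [C.a3, C.f22_4, c308_0_0, c378_1_1, c391_0_1]
                · rcases c0_11_13_33_k2_k_f23_3 C with ⟨c392_0_0, c392_0_1⟩ | ⟨c392_1_0, c392_1_1⟩ | ⟨c392_2_0, c392_2_1⟩
                  · rcases c0_11_13_33_k2_k_f23_7 C with ⟨c393_0_0, c393_0_1⟩ | ⟨c393_1_0, c393_1_1⟩ | ⟨c393_2_0, c393_2_1⟩
                    · linarith only [C.a3, C.f11_0, C.f13_0, C.f23_5, C.f33_0, c392_0_1, c393_0_1, s1]
                    · rcases c0_11_13_33_k2_k_tmpp C with c394_0_0 | c394_1_0 | c394_2_0 | c394_3_0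
                      · linarith only [C.f11_0, C.f13_0, C.f33_0, c394_0_0, s1]
                      · linarith only [C.f11_0, C.f13_0, C.f23_1, C.f33_0, c392_0_1, c394_1_0, s1]
                      · linarith only [c394_2_0, e0]
                      · rcases c0_11_13_33_k2_k_p13_23A C with c396_0_0 | c396_1_0 | c396_2_0 | c396_3_0 | c396_4_0 | c396_5_0
                        · linarith only [c396_0_0, e1]
                        · linarith only [c396_1_0, e2]
                        · linarith only [C.f11_0, C.f13_0, C.f23_1, C.f33_0, c392_0_1, c396_2_0, e1, s1]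
                        · linarith only [C.f11_0, C.f33_0, c392_0_1, c396_3_0, s1]
                        · linarith only [C.f11_0, C.f11_1, C.f33_4, C.o2, c309_1_1, c393_1_1, c394_3_0, c396_4_0, s2]
                        · rcases c0_11_13_33_k2_k_f23_10 C with ⟨c397_0_0, c397_0_1⟩ | ⟨c397_1_0, c397_1_1⟩
                          · linarith only [C.f11_0, C.f11_1, C.f11_2, C.f33_7, C.o1, C.o2, c393_1_1, c394_3_0, c396_5_0, c397_0_1, s3]
                          · linarith only [C.o2, c375_1_1, c396_5_0, c397_1_1]
                    · linarith only [C.a4, C.f23_5, C.o2, c393_2_1]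
                  · rcases c0_11_13_33_k2_k_f23_7 C with ⟨c398_0_0, c398_0_1⟩ | ⟨c398_1_0, c398_1_1⟩ | ⟨c398_2_0, c398_2_1⟩
                    · linarith only [C.a3, C.f23_5, c308_0_0, c392_1_1, c398_0_1]
                    · rcases c0_11_13_33_k2_k_f23_10 C with ⟨c399_0_0, c399_0_1⟩ | ⟨c399_1_0, c399_1_1⟩
                      · rcases c0_11_13_33_k2_k_tpmm C with c402_0_0 | c402_1_0 | c402_2_0 | c402_3_0 | c402_4_0
                        · linarith only [c402_0_0, e1]
                        · linarith only [C.a4, C.f11_0, C.f11_1, C.f11_2, C.f13_0, C.f13_3, C.f13_7, C.f23_9, C.f33_7, C.o0, c309_1_1, c398_1_1, c399_0_1, c402_1_0, s3]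
                        · linarith only [C.a1, C.o0, c402_2_0]
                        · linarith only [C.b5, C.f23_9, C.o0, c308_0_0, c398_1_1, c399_0_1, c402_3_0]
                        · rcases c0_11_13_33_k2_k_p11_22B C with c405_0_0 | c405_1_0 | c405_2_0 | c405_3_0 | c405_4_0
                          · linarith only [c405_0_0, e0]
                          · linarith only [C.b5, C.f23_9, C.o0, c308_0_0, c398_1_1, c399_0_1, c405_1_0, e0]
                          · linarith only [C.b5, C.f11_0, C.f23_9, C.o0, c308_0_0, c378_1_1, c398_1_1, c399_0_1, c405_2_0]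
                          · linarith only [C.f11_2, C.f13_7, C.f23_9, C.f33_7, C.o1, c391_1_1, c398_1_1, c399_0_1, c402_4_0, c405_3_0, s3]
                          · linarith only [C.b5, C.f13_7, C.f22_6, C.f33_7, c391_1_1, c402_4_0, c405_4_0, s3]
                      · rcases c0_11_13_33_k2_k_p11_13B C with c420_0_0 | c420_1_0 | c420_2_0 | c420_3_0 | c420_4_0 | c420_5_0
                        · linarith only [c420_0_0, e0]
                        · linarith only [c420_1_0, e1]
                        · linarith only [c420_2_0, e2]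
                        · rcases c0_11_13_33_k2_k_p11_33A C with c421_0_0 | c421_1_0 | c421_2_0 | c421_3_0 | c421_4_0
                          · linarith only [c421_0_0, e0]
                          · linarith only [c421_1_0, e3]
                          · linarith only [C.f11_0, c420_3_0, c421_2_0, s1]
                          · rcases c0_11_13_33_k2_k_p13_23A C with c423_0_0 | c423_1_0 | c423_2_0 | c423_3_0 | c423_4_0 | c423_5_0
                            · linarith only [c423_0_0, e1]
                            · linarith only [c423_1_0, e2]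
                            · linarith only [C.f11_1, C.f13_0, C.f13_3, C.f33_1, c309_1_1, c376_1_1, c421_3_0, c423_2_0, e0, e2, s1]
                            · linarith only [C.f11_1, C.f13_3, C.f33_1, C.o2, c309_1_1, c376_1_1, c392_1_1, c420_3_0, c421_3_0, c423_3_0, s1]
                            · rcases c0_11_13_33_k2_k_p11_22B C with c424_0_0 | c424_1_0 | c424_2_0 | c424_3_0 | c424_4_0
                              · linarith only [c424_0_0, e0]
                              · linarith only [C.b2, c424_1_0, e0]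
                              · rcases c0_11_13_33_k2_k_p11_23B C with c425_0_0 | c425_1_0 | c425_2_0 | c425_3_0 | c425_4_0 | c425_5_0
                                · linarith only [c425_0_0, e0]
                                · linarith only [C.f11_0, C.f13_0, C.f33_1, C.o2, c309_1_1, c398_1_1, c423_4_0, c425_1_0, e1, s1]
                                · linarith only [c425_2_0, e2]
                                · linarith only [C.f13_0, C.f33_1, C.o0, C.o2, c309_1_1, c392_1_1, c398_1_1, c423_4_0, c425_3_0, s1]
                                · linarith only [C.f11_0, C.f11_1, C.f13_0, C.f13_3, C.f33_1, C.o0, C.o2, c309_1_1, c378_1_1, c398_1_1, c423_4_0, c424_2_0, c425_4_0, s1]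
                                · linarith only [C.b5, C.f11_0, C.f11_1, C.f11_2, C.f13_0, C.f13_3, C.f33_1, C.o2, c309_1_1, c378_1_1, c399_1_1, c424_2_0, c425_5_0, s1]
                              · linarith only [C.f33_4, C.o2, c309_1_1, c391_1_1, c398_1_1, c423_4_0, c424_3_0, s2]
                              · linarith only [C.b5, C.f11_2, C.f22_6, C.f33_4, C.o2, c309_1_1, c391_1_1, c398_1_1, c423_4_0, c424_4_0, s2]
                            · linarith only [C.o2, c375_1_1, c399_1_1, c423_5_0]
                          · linarith only [C.f13_7, c421_4_0, s3]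
                        · linarith only [C.f11_0, C.f11_1, C.f33_4, C.o1, C.o2, c1_1_1, c309_1_1, c420_4_0, s2]
                        · rcases c0_11_13_33_k2_k_p13_23A C with c427_0_0 | c427_1_0 | c427_2_0 | c427_3_0 | c427_4_0 | c427_5_0
                          · linarith only [c427_0_0, e1]
                          · linarith only [c427_1_0, e2]
                          · linarith only [c308_0_0, c427_2_0, e1]
                          · rcases c0_11_13_33_k2_k_p13_33A C with c430_0_0 | c430_1_0 | c430_2_0 | c430_3_0 | c430_4_0 | c430_5_0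
                            · linarith only [c430_0_0, e1]
                            · linarith only [c430_1_0, e2]
                            · linarith only [c430_2_0, e3]
                            · linarith only [C.f11_0, c430_3_0, s1]
                            · linarith only [C.f11_0, C.f33_1, C.f33_7, c309_1_1, c376_1_1, c392_1_1, c420_5_0, c427_3_0, c430_4_0, s1, s3]
                            · linarith only [c375_1_1, c420_5_0, c430_5_0, s3]
                          · linarith only [C.a4, C.f33_7, c309_1_1, c398_1_1, c420_5_0, c427_4_0, s3]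
                          · linarith only [C.f33_7, c375_1_1, c399_1_1, c420_5_0, c427_5_0, s3]
                    · linarith only [C.a4, C.f23_5, C.o2, c398_2_1]
                  · linarith only [C.a4, C.f23_1, C.o2, c392_2_1]
      · rcases c0_11_13_33_k2_k_f13_5 C with ⟨c431_0_0, c431_0_1⟩ | ⟨c431_1_0, c431_1_1⟩
        · rcases c0_11_13_33_k2_k_f13_8 C with ⟨c432_0_0, c432_0_1⟩ | ⟨c432_1_0, c432_1_1⟩
          · linarith only [C.a3, C.f13_7, C.o1, c0_0_1, c308_1_1, c431_0_1, c432_0_1]
          · rcases c0_11_13_33_k2_k_p11_13B C with c433_0_0 | c433_1_0 | c433_2_0 | c433_3_0 | c433_4_0 | c433_5_0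
            · linarith only [c433_0_0, e0]
            · linarith only [c433_1_0, e1]
            · linarith only [c433_2_0, e2]
            · rcases c0_11_13_33_k2_k_p11_33A C with c434_0_0 | c434_1_0 | c434_2_0 | c434_3_0 | c434_4_0
              · linarith only [c434_0_0, e0]
              · linarith only [c434_1_0, e3]
              · linarith only [C.f11_0, c433_3_0, c434_2_0, s1]
              · rcases c0_11_13_33_k2_k_f33_5 C with ⟨c435_0_0, c435_0_1⟩ | ⟨c435_1_0, c435_1_1⟩
                · linarith only [C.a3, C.f11_0, C.f11_1, c433_3_0, c434_3_0, c435_0_1, s1]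
                · rcases c0_11_13_33_k2_k_f33_8 C with ⟨c436_0_0, c436_0_1⟩ | ⟨c436_1_0, c436_1_1⟩
                  · linarith only [C.f11_0, C.f11_1, C.f13_4, C.f33_7, C.o0, C.o1, C.o2, c0_0_1, c308_1_1, c431_0_1, c435_1_1, c436_0_1, s2]
                  · rcases c0_11_13_33_k2_k_tmzp C with c438_0_0 | c438_1_0 | c438_2_0 | c438_3_0 | c438_4_0 | c438_5_0
                    · linarith only [C.f11_0, C.f13_0, C.f33_0, c438_0_0, s1]
                    · linarith only [C.f11_0, C.f11_1, C.f13_3, C.f33_1, c308_1_0, c433_3_0, c434_3_0, c435_1_1, c438_1_0, s1, s2]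
                    · rcases c0_11_13_33_k2_k_tmpp C with c439_0_0 | c439_1_0 | c439_2_0 | c439_3_0
                      · linarith only [C.f11_0, C.f13_0, C.f33_0, c439_0_0, s1]
                      · linarith only [C.f11_0, C.f13_0, C.f33_1, c438_2_0, c439_1_0, s1]
                      · linarith only [c439_2_0, e0]
                      · rcases c0_11_13_33_k2_k_p13_33A C with c441_0_0 | c441_1_0 | c441_2_0 | c441_3_0 | c441_4_0 | c441_5_0
                        · linarith only [c441_0_0, e1]
                        · linarith only [c441_1_0, e2]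
                        · linarith only [c441_2_0, e3]
                        · linarith only [C.f11_0, c441_3_0, s1]
                        · linarith only [C.f11_0, C.f11_1, c439_3_0, c441_4_0, s2]
                        · linarith only [C.f11_0, C.f11_1, C.f13_4, C.f33_4, c432_1_1, c436_1_1, c438_2_0, c439_3_0, c441_5_0, s2]
                    · linarith only [c438_3_0, e0]
                    · linarith only [c1_1_1, c438_4_0]
                    · linarith only [c308_1_1, c438_5_0]
              · linarith only [C.f13_7, c434_4_0, s3]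
            · linarith only [C.f11_0, C.f11_1, C.o0, c0_0_1, c1_1_1, c431_0_1, c433_4_0]
            · linarith only [C.f11_0, C.f11_1, C.f11_2, c1_1_1, c308_1_1, c432_1_1, c433_5_0]
        · rcases c0_11_13_33_k2_k_f13_8 C with ⟨c442_0_0, c442_0_1⟩ | ⟨c442_1_0, c442_1_1⟩
          · linarith only [C.a4, C.f13_7, C.o1, C.o2, c308_1_1, c431_1_1, c442_0_1]
          · rcases c0_11_13_33_k2_k_f33_5 C with ⟨c443_0_0, c443_0_1⟩ | ⟨c443_1_0, c443_1_1⟩
            · linarith only [C.f11_0, C.f13_0, C.f13_3, C.f33_4, C.o2, c431_1_1, c443_0_1, s1]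
            · rcases c0_11_13_33_k2_k_f33_8 C with ⟨c444_0_0, c444_0_1⟩ | ⟨c444_1_0, c444_1_1⟩
              · linarith only [C.a4, C.f33_7, C.o1, C.o2, c308_1_1, c443_1_1, c444_0_1]
              · rcases c0_11_13_33_k2_k_p11_13B C with c445_0_0 | c445_1_0 | c445_2_0 | c445_3_0 | c445_4_0 | c445_5_0
                · linarith only [c445_0_0, e0]
                · linarith only [c445_1_0, e1]
                · linarith only [c445_2_0, e2]
                · rcases c0_11_13_33_k2_k_p11_33A C with c446_0_0 | c446_1_0 | c446_2_0 | c446_3_0 | c446_4_0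
                  · linarith only [c446_0_0, e0]
                  · linarith only [c446_1_0, e3]
                  · linarith only [C.f11_0, c445_3_0, c446_2_0, s1]
                  · rcases c0_11_13_33_k2_k_tmzp C with c448_0_0 | c448_1_0 | c448_2_0 | c448_3_0 | c448_4_0 | c448_5_0
                    · linarith only [C.f11_0, C.f13_0, C.f33_0, c448_0_0, s1]
                    · linarith only [C.f11_1, C.f13_0, C.f13_3, C.f33_1, C.o2, c431_1_1, c443_1_1, c445_3_0, c446_3_0, c448_1_0, s1]
                    · rcases c0_11_13_33_k2_k_tmpp C with c449_0_0 | c449_1_0 | c449_2_0 | c449_3_0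
                      · linarith only [C.f11_0, C.f13_0, C.f33_0, c449_0_0, s1]
                      · linarith only [C.f11_0, C.f13_0, C.f33_1, c448_2_0, c449_1_0, s1]
                      · linarith only [c449_2_0, e0]
                      · rcases c0_11_13_33_k2_k_p13_33A C with c451_0_0 | c451_1_0 | c451_2_0 | c451_3_0 | c451_4_0 | c451_5_0
                        · linarith only [c451_0_0, e1]
                        · linarith only [c451_1_0, e2]
                        · linarith only [c451_2_0, e3]
                        · linarith only [C.f11_0, c451_3_0, s1]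
                        · linarith only [C.f11_0, C.f11_1, c449_3_0, c451_4_0, s2]
                        · linarith only [C.f11_0, C.f11_1, C.f13_4, C.f33_4, c442_1_1, c444_1_1, c448_2_0, c449_3_0, c451_5_0, s2]
                    · linarith only [c448_3_0, e0]
                    · linarith only [c1_1_1, c448_4_0]
                    · linarith only [c308_1_1, c448_5_0]
                  · linarith only [C.f13_7, c446_4_0, s3]
                · linarith only [C.f11_0, C.f11_1, C.f33_4, C.o1, C.o2, c1_1_1, c431_1_1, c445_4_0, s2]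
                · linarith only [C.f11_0, C.f11_1, C.f11_2, c1_1_1, c308_1_1, c442_1_1, c445_5_0]
  · linarith only [C.f11_0, C.f13_0, C.f33_1, C.o2, c0_1_1, s1]

end Pool.Agent.Helper24.TQ
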