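import Pool.Agent.Helper89.TQ.Ctx

set_option autoImplicit false
set_option linter.all false
set_option maxHeartbeats 4000000

namespace Pool.Agent.Helper24.TQ

open Pool.Agent.Helper89.TQ

theorem c0_11_22_33_k0_k_t12 {n1 n2 n3 A1 A2 A3 B1 B2 B3 m11_1 m11_2 m11_3 m13_1 m13_2 m13_3 m22_1 m22_2 m22_3 m23_1 m23_2 m23_3 m33_1 m33_2 m33_3 : ℤ} (C : Ctx0 n1 n2 n3 A1 A2 A3 B1 B2 B3 m11_1 m11_2 m11_3 m13_1 m13_2 m13_3 m22_1 m22_2 m22_3 m23_1 m23_2 m23_3 m33_1 m33_2 m33_3) :
    ((-1) * A1 ≤ -1 ∧ (-1) * A1 + 1 * A2 + (-1) * n2 ≤ -1) ∨ ((-1) * B1 ≤ -1 ∧ (-1) * B1 + 1 * B2 + (-1) * n2 ≤ -1) := by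
  have h := C.t12
  clear C
  omega

theorem c0_11_22_33_k0_k_t23 {n1 n2 n3 A1 A2 A3 B1 B2 B3 m11_1 m11_2 m11_3 m13_1 m13_2 m13_3 m22_1 m22_2 m22_3 m23_1 m23_2 m23_3 m33_1 m33_2 m33_3 : ℤ} (C : Ctx0 n1 n2 n3 A1 A2 A3 B1 B2 B3 m11_1 m11_2 m11_3 m13_1 m13_2 m13_3 m22_1 m22_2 m22_3 m23_1 m23_2 m23_3 m33_1 m33_2 m33_3) :
    (1 * A1 + (-1) * A2 ≤ -1 ∧ (-1) * A2 + 1 * A3 + (-1) * n3 ≤ -1) ∨ (1 * B1 + (-1) * B2 ≤ -1 ∧ (-1) * B2 + 1 * B3 + (-1) * n3 ≤ -1) := by
  have h := C.t23
  clear C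
  omega

theorem c0_11_22_33_k0_k_f13_2 {n1 n2 n3 A1 A2 A3 B1 B2 B3 m11_1 m11_2 m11_3 m13_1 m13_2 m13_3 m22_1 m22_2 m22_3 m23_1 m23_2 m23_3 m33_1 m33_2 m33_3 : ℤ} (C : Ctx0 n1 n2 n3 A1 A2 A3 B1 B2 B3 m11_1 m11_2 m11_3 m13_1 m13_2 m13_3 m22_1 m22_2 m22_3 m23_1 m23_2 m23_3 m33_1 m33_2 m33_3) :
    ((-1) * A1 + 1 * m13_1 ≤ -1 ∧ 1 * A1 + (-1) * m13_1 ≤ 1) ∨ ((-1) * B3 + 1 * m13_1 ≤ -1 ∧ 1 * B3 + (-1) * m13_1 ≤ 1) := by
  have h := C.f13_2
  clear C
  omega

theorem c0_11_22_33_k0_k_f13_5 {n1 n2 n3 A1 A2 A3 B1 B2 B3 m11_1 m11_2 m11_3 m13_1 m13_2 m13_3 m22_1 m22_2 m22_3 m23_1 m23_2 m23_3 m33_1 m33_2 m33_3 : ℤ} (C : Ctx0 n1 n2 n3 A1 A2 A3 B1 B2 B3 m11_1 m11_2 m11_3 m13_1 m13_2 m13_3 m22_1 m22_2 m22_3 m23_1 m23_2 m23_3 m33_1 m33_2 m33_3) :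
    ((-1) * m13_1 + 1 * m13_2 + (-1) * n2 ≤ 0 ∧ 1 * m13_1 + (-1) * m13_2 + 1 * n2 ≤ 0) ∨ ((-1) * B3 + 1 * m13_2 ≤ -1 ∧ 1 * B3 + (-1) * m13_2 ≤ 1) := by
  have h := C.f13_5
  clear C
  omega

theorem c0_11_22_33_k0_k_f13_8 {n1 n2 n3 A1 A2 A3 B1 B2 B3 m11_1 m11_2 m11_3 m13_1 m13_2 m13_3 m22_1 m22_2 m22_3 m23_1 m23_2 m23_3 m33_1 m33_2 m33_3 : ℤ} (C : Ctx0 n1 n2 n3 A1 A2 A3 B1 B2 B3 m11_1 m11_2 m11_3 m13_1 m13_2 m13_3 m22_1 m22_2 m22_3 m23_1 m23_2 m23_3 m33_1 m33_2 m33_3) :
    ((-1) * m13_2 + 1 * m13_3 + (-1) * n3 ≤ 0 ∧ 1 * m13_2 + (-1) * m13_3 + 1 * n3 ≤ 0) ∨ ((-1) * B3 + 1 * m13_3 ≤ -1 ∧ 1 * B3 + (-1) * m13_3 ≤ 1) := by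
  have h := C.f13_8
  clear C
  omega

theorem c0_11_22_33_k0_k_f22_2 {n1 n2 n3 A1 A2 A3 B1 B2 B3 m11_1 m11_2 m11_3 m13_1 m13_2 m13_3 m22_1 m22_2 m22_3 m23_1 m23_2 m23_3 m33_1 m33_2 m33_3 : ℤ} (C : Ctx0 n1 n2 n3 A1 A2 A3 B1 B2 B3 m11_1 m11_2 m11_3 m13_1 m13_2 m13_3 m22_1 m22_2 m22_3 m23_1 m23_2 m23_3 m33_1 m33_2 m33_3) :
    (1 * m22_1 + (-1) * n1 ≤ 0 ∧ (-1) * m22_1 + 1 * n1 ≤ 0) ∨ ((-1) * B2 + 1 * m22_1 ≤ -1 ∧ 1 * B2 + (-1) * m22_1 ≤ 1) := by
  have h := C.f22_2
  clear C
  omega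

theorem c0_11_22_33_k0_k_f22_5 {n1 n2 n3 A1 A2 A3 B1 B2 B3 m11_1 m11_2 m11_3 m13_1 m13_2 m13_3 m22_1 m22_2 m22_3 m23_1 m23_2 m23_3 m33_1 m33_2 m33_3 : ℤ} (C : Ctx0 n1 n2 n3 A1 A2 A3 B1 B2 B3 m11_1 m11_2 m11_3 m13_1 m13_2 m13_3 m22_1 m22_2 m22_3 m23_1 m23_2 m23_3 m33_1 m33_2 m33_3) :
    ((-1) * m22_1 + 1 * m22_2 + (-1) * n2 ≤ 0 ∧ 1 * m22_1 + (-1) * m22_2 + 1 * n2 ≤ 0) ∨ ((-1) * B2 + 1 * m22_2 ≤ -1 ∧ 1 * B2 + (-1) * m22_2 ≤ 1) := by
  have h := C.f22_5
  clear C
  omega

theorem c0_11_22_33_k0_k_f23_3 {n1 n2 n3 A1 A2 A3 B1 B2 B3 m11_1 m11_2 m11_3 m13_1 m13_2 m13_3 m22_1 m22_2 m22_3 m23_1 m23_2 m23_3 m33_1 m33_2 m33_3 : ℤ} (C : Ctx0 n1 n2 n3 A1 A2 A3 B1 B2 B3 m11_1 m11_2 m11_3 m13_1 m13_2 m13_3 m22_1 m22_2 m22_3 m23_1 m23_2 m23_3 m33_1 m33_2 m33_3) :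
    (1 * m23_1 + (-1) * n1 ≤ 0 ∧ (-1) * m23_1 + 1 * n1 ≤ 0) ∨ ((-1) * A2 + 1 * m23_1 ≤ -1 ∧ 1 * A2 + (-1) * m23_1 ≤ 1) ∨ ((-1) * B3 + 1 * m23_1 ≤ -1 ∧ 1 * B3 + (-1) * m23_1 ≤ 1) := by
  have h := C.f23_3
  clear C
  omega

theorem c0_11_22_33_k0_k_f23_7 {n1 n2 n3 A1 A2 A3 B1 B2 B3 m11_1 m11_2 m11_3 m13_1 m13_2 m13_3 m22_1 m22_2 m22_3 m23_1 m23_2 m23_3 m33_1 m33_2 m33_3 : ℤ} (C : Ctx0 n1 n2 n3 A1 A2 A3 B1 B2 B3 m11_1 m11_2 m11_3 m13_1 m13_2 m13_3 m22_1 m22_2 m22_3 m23_1 m23_2 m23_3 m33_1 m33_2 m33_3) :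
    ((-1) * m23_1 + 1 * m23_2 + (-1) * n2 ≤ 0 ∧ 1 * m23_1 + (-1) * m23_2 + 1 * n2 ≤ 0) ∨ ((-1) * A2 + 1 * m23_2 ≤ -1 ∧ 1 * A2 + (-1) * m23_2 ≤ 1) ∨ ((-1) * B3 + 1 * m23_2 ≤ -1 ∧ 1 * B3 + (-1) * m23_2 ≤ 1) := by
  have h := C.f23_7
  clear C
  omega

theorem c0_11_22_33_k0_k_f23_10 {n1 n2 n3 A1 A2 A3 B1 B2 B3 m11_1 m11_2 m11_3 m13_1 m13_2 m13_3 m22_1 m22_2 m22_3 m23_1 m23_2 m23_3 m33_1 m33_2 m33_3 : ℤ} (C : Ctx0 n1 n2 n3 A1 A2 A3 B1 B2 B3 m11_1 m11_2 m11_3 m13_1 m13_2 m13_3 m22_1 m22_2 m22_3 m23_1 m23_2 m23_3 m33_1 m33_2 m33_3) :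
    ((-1) * m23_2 + 1 * m23_3 + (-1) * n3 ≤ 0 ∧ 1 * m23_2 + (-1) * m23_3 + 1 * n3 ≤ 0) ∨ ((-1) * B3 + 1 * m23_3 ≤ -1 ∧ 1 * B3 + (-1) * m23_3 ≤ 1) := by
  have h := C.f23_10
  clear C
  omega

theorem c0_11_22_33_k0_k_f33_2 {n1 n2 n3 A1 A2 A3 B1 B2 B3 m11_1 m11_2 m11_3 m13_1 m13_2 m13_3 m22_1 m22_2 m22_3 m23_1 m23_2 m23_3 m33_1 m33_2 m33_3 : ℤ} (C : Ctx0 n1 n2 n3 A1 A2 A3 B1 B2 B3 m11_1 m11_2 m11_3 m13_1 m13_2 m13_3 m22_1 m22_2 m22_3 m23_1 m23_2 m23_3 m33_1 m33_2 m33_3) :
    (1 * m33_1 + (-1) * n1 ≤ 0 ∧ (-1) * m33_1 + 1 * n1 ≤ 0) ∨ ((-1) * A3 + 1 * m33_1 ≤ -1 ∧ 1 * A3 + (-1) * m33_1 ≤ 1) := by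
  have h := C.f33_2
  clear C
  omega

theorem c0_11_22_33_k0_k_f33_5 {n1 n2 n3 A1 A2 A3 B1 B2 B3 m11_1 m11_2 m11_3 m13_1 m13_2 m13_3 m22_1 m22_2 m22_3 m23_1 m23_2 m23_3 m33_1 m33_2 m33_3 : ℤ} (C : Ctx0 n1 n2 n3 A1 A2 A3 B1 B2 B3 m11_1 m11_2 m11_3 m13_1 m13_2 m13_3 m22_1 m22_2 m22_3 m23_1 m23_2 m23_3 m33_1 m33_2 m33_3) :
    ((-1) * m33_1 + 1 * m33_2 + (-1) * n2 ≤ 0 ∧ 1 * m33_1 + (-1) * m33_2 + 1 * n2 ≤ 0) ∨ ((-1) * A3 + 1 * m33_2 ≤ -1 ∧ 1 * A3 + (-1) * m33_2 ≤ 1) := by
  have h := C.f33_5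
  clear C
  omega

theorem c0_11_22_33_k0_k_f33_8 {n1 n2 n3 A1 A2 A3 B1 B2 B3 m11_1 m11_2 m11_3 m13_1 m13_2 m13_3 m22_1 m22_2 m22_3 m23_1 m23_2 m23_3 m33_1 m33_2 m33_3 : ℤ} (C : Ctx0 n1 n2 n3 A1 A2 A3 B1 B2 B3 m11_1 m11_2 m11_3 m13_1 m13_2 m13_3 m22_1 m22_2 m22_3 m23_1 m23_2 m23_3 m33_1 m33_2 m33_3) :
    ((-1) * m33_2 + 1 * m33_3 + (-1) * n3 ≤ 0 ∧ 1 * m33_2 + (-1) * m33_3 + 1 * n3 ≤ 0) ∨ ((-1) * A3 + 1 * m33_3 ≤ -1 ∧ 1 * A3 + (-1) * m33_3 ≤ 1) := by
  have h := C.f33_8
  clear C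
  omega

theorem c0_11_22_33_k0_k_p11_13B {n1 n2 n3 A1 A2 A3 B1 B2 B3 m11_1 m11_2 m11_3 m13_1 m13_2 m13_3 m22_1 m22_2 m22_3 m23_1 m23_2 m23_3 m33_1 m33_2 m33_3 : ℤ} (C : Ctx0 n1 n2 n3 A1 A2 A3 B1 B2 B3 m11_1 m11_2 m11_3 m13_1 m13_2 m13_3 m22_1 m22_2 m22_3 m23_1 m23_2 m23_3 m33_1 m33_2 m33_3) :
    (1 * B1 ≤ 0) ∨ (1 * A1 ≤ 0) ∨ (1 * B3 ≤ 0) ∨ ((-2) * B1 + 1 * m11_1 + 1 * m13_1 ≤ -1) ∨ ((-2) * B2 + 1 * m11_2 + 1 * m13_2 ≤ -1) ∨ ((-2) * B3 + 1 * m11_3 + 1 * m13_3 ≤ -1) := by
  have h := C.p11_13B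
  clear C
  omega

theorem c0_11_22_33_k0_k_p11_22B {n1 n2 n3 A1 A2 A3 B1 B2 B3 m11_1 m11_2 m11_3 m13_1 m13_2 m13_3 m22_1 m22_2 m22_3 m23_1 m23_2 m23_3 m33_1 m33_2 m33_3 : ℤ} (C : Ctx0 n1 n2 n3 A1 A2 A3 B1 B2 B3 m11_1 m11_2 m11_3 m13_1 m13_2 m13_3 m22_1 m22_2 m22_3 m23_1 m23_2 m23_3 m33_1 m33_2 m33_3) :
    (1 * B1 ≤ 0) ∨ (1 * B2 ≤ 0) ∨ ((-2) * B1 + 1 * m11_1 + 1 * m22_1 ≤ -1) ∨ ((-2) * B2 + 1 * m11_2 + 1 * m22_2 ≤ -1) ∨ ((-2) * B3 + 1 * m11_3 + 1 * m22_3 ≤ -1) := by
  have h := C.p11_22B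
  clear C
  omega

theorem c0_11_22_33_k0_k_p11_23B {n1 n2 n3 A1 A2 A3 B1 B2 B3 m11_1 m11_2 m11_3 m13_1 m13_2 m13_3 m22_1 m22_2 m22_3 m23_1 m23_2 m23_3 m33_1 m33_2 m33_3 : ℤ} (C : Ctx0 n1 n2 n3 A1 A2 A3 B1 B2 B3 m11_1 m11_2 m11_3 m13_1 m13_2 m13_3 m22_1 m22_2 m22_3 m23_1 m23_2 m23_3 m33_1 m33_2 m33_3) :
    (1 * B1 ≤ 0) ∨ (1 * A2 ≤ 0) ∨ (1 * B3 ≤ 0) ∨ ((-2) * B1 + 1 * m11_1 + 1 * m23_1 ≤ -1) ∨ ((-2) * B2 + 1 * m11_2 + 1 * m23_2 ≤ -1) ∨ ((-2) * B3 + 1 * m11_3 + 1 * m23_3 ≤ -1) := by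
  have h := C.p11_23B
  clear C
  omega

theorem c0_11_22_33_k0_k_p11_33A {n1 n2 n3 A1 A2 A3 B1 B2 B3 m11_1 m11_2 m11_3 m13_1 m13_2 m13_3 m22_1 m22_2 m22_3 m23_1 m23_2 m23_3 m33_1 m33_2 m33_3 : ℤ} (C : Ctx0 n1 n2 n3 A1 A2 A3 B1 B2 B3 m11_1 m11_2 m11_3 m13_1 m13_2 m13_3 m22_1 m22_2 m22_3 m23_1 m23_2 m23_3 m33_1 m33_2 m33_3) :
    (1 * B1 ≤ 0) ∨ (1 * A3 ≤ 0) ∨ ((-2) * A1 + 1 * m11_1 + 1 * m33_1 ≤ -1) ∨ ((-2) * A2 + 1 * m11_2 + 1 * m33_2 ≤ -1) ∨ ((-2) * A3 + 1 * m11_3 + 1 * m33_3 ≤ -1) := by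
  have h := C.p11_33A
  clear C
  omega

theorem c0_11_22_33_k0_k_p11_33B {n1 n2 n3 A1 A2 A3 B1 B2 B3 m11_1 m11_2 m11_3 m13_1 m13_2 m13_3 m22_1 m22_2 m22_3 m23_1 m23_2 m23_3 m33_1 m33_2 m33_3 : ℤ} (C : Ctx0 n1 n2 n3 A1 A2 A3 B1 B2 B3 m11_1 m11_2 m11_3 m13_1 m13_2 m13_3 m22_1 m22_2 m22_3 m23_1 m23_2 m23_3 m33_1 m33_2 m33_3) :
    (1 * B1 ≤ 0) ∨ (1 * A3 ≤ 0) ∨ ((-2) * B1 + 1 * m11_1 + 1 * m33_1 ≤ -1) ∨ ((-2) * B2 + 1 * m11_2 + 1 * m33_2 ≤ -1) ∨ ((-2) * B3 + 1 * m11_3 + 1 * m33_3 ≤ -1) := by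
  have h := C.p11_33B
  clear C
  omega

theorem c0_11_22_33_k0_k_p13_22B {n1 n2 n3 A1 A2 A3 B1 B2 B3 m11_1 m11_2 m11_3 m13_1 m13_2 m13_3 m22_1 m22_2 m22_3 m23_1 m23_2 m23_3 m33_1 m33_2 m33_3 : ℤ} (C : Ctx0 n1 n2 n3 A1 A2 A3 B1 B2 B3 m11_1 m11_2 m11_3 m13_1 m13_2 m13_3 m22_1 m22_2 m22_3 m23_1 m23_2 m23_3 m33_1 m33_2 m33_3) :
    (1 * A1 ≤ 0) ∨ (1 * B3 ≤ 0) ∨ (1 * B2 ≤ 0) ∨ ((-2) * B1 + 1 * m13_1 + 1 * m22_1 ≤ -1) ∨ ((-2) * B2 + 1 * m13_2 + 1 * m22_2 ≤ -1) ∨ ((-2) * B3 + 1 * m13_3 + 1 * m22_3 ≤ -1) := by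
  have h := C.p13_22B
  clear C
  omega

theorem c0_11_22_33_k0_k_p22_33A {n1 n2 n3 A1 A2 A3 B1 B2 B3 m11_1 m11_2 m11_3 m13_1 m13_2 m13_3 m22_1 m22_2 m22_3 m23_1 m23_2 m23_3 m33_1 m33_2 m33_3 : ℤ} (C : Ctx0 n1 n2 n3 A1 A2 A3 B1 B2 B3 m11_1 m11_2 m11_3 m13_1 m13_2 m13_3 m22_1 m22_2 m22_3 m23_1 m23_2 m23_3 m33_1 m33_2 m33_3) :
    (1 * B2 ≤ 0) ∨ (1 * A3 ≤ 0) ∨ ((-2) * A1 + 1 * m22_1 + 1 * m33_1 ≤ -1) ∨ ((-2) * A2 + 1 * m22_2 + 1 * m33_2 ≤ -1) ∨ ((-2) * A3 + 1 * m22_3 + 1 * m33_3 ≤ -1) := by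
  have h := C.p22_33A
  clear C
  omega

theorem c0_11_22_33_k0 {n1 n2 n3 A1 A2 A3 B1 B2 B3 m11_1 m11_2 m11_3 m13_1 m13_2 m13_3 m22_1 m22_2 m22_3 m23_1 m23_2 m23_3 m33_1 m33_2 m33_3 : ℤ}
    (C : Ctx0 n1 n2 n3 A1 A2 A3 B1 B2 B3 m11_1 m11_2 m11_3 m13_1 m13_2 m13_3 m22_1 m22_2 m22_3 m23_1 m23_2 m23_3 m33_1 m33_2 m33_3)
    (e0 : 0 < B1)
    (e1 : 0 < B2)
    (e2 : 0 < A3)
    (s1 : 0 * A1 + 3 * B1 ≤ m11_1 + m22_1 + m33_1)
    (s2 : 0 * A2 + 3 * B2 ≤ m11_2 + m22_2 + m33_2)
    (s3 : 0 * A3 + 3 * B3 ≤ m11_3 + m22_3 + m33_3) : False := by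
  rcases c0_11_22_33_k0_k_f13_2 C with ⟨c0_0_0, c0_0_1⟩ | ⟨c0_1_0, c0_1_1⟩
  · rcases c0_11_22_33_k0_k_t12 C with ⟨c1_0_0, c1_0_1⟩ | ⟨c1_1_0, c1_1_1⟩
    · rcases c0_11_22_33_k0_k_t23 C with ⟨c2_0_0, c2_0_1⟩ | ⟨c2_1_0, c2_1_1⟩
      · rcases c0_11_22_33_k0_k_f13_5 C with ⟨c3_0_0, c3_0_1⟩ | ⟨c3_1_0, c3_1_1⟩
        · rcases c0_11_22_33_k0_k_f13_8 C with ⟨c4_0_0, c4_0_1⟩ | ⟨c4_1_0, c4_1_1⟩
          · linarith only [C.f11_0, C.f11_1, C.f11_2, C.f13_7, C.f22_4, C.f22_6, C.f33_7, C.o0, C.o1, C.o2, c0_0_1, c1_0_1, c3_0_1, c4_0_1, s3]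
          · rcases c0_11_22_33_k0_k_f22_2 C with ⟨c5_0_0, c5_0_1⟩ | ⟨c5_1_0, c5_1_1⟩
            · rcases c0_11_22_33_k0_k_f22_5 C with ⟨c6_0_0, c6_0_1⟩ | ⟨c6_1_0, c6_1_1⟩
              · linarith only [C.a1, C.f22_4, C.o1, c1_0_1, c5_0_1, c6_0_1]
              · rcases c0_11_22_33_k0_k_p11_22B C with c7_0_0 | c7_1_0 | c7_2_0 | c7_3_0 | c7_4_0
                · linarith only [c7_0_0, e0]
                · linarith only [c7_1_0, e1]
                · linarith only [C.a1, C.f11_0, C.o0, c5_0_1, c7_2_0]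
                · rcases c0_11_22_33_k0_k_f33_2 C with ⟨c8_0_0, c8_0_1⟩ | ⟨c8_1_0, c8_1_1⟩
                  · rcases c0_11_22_33_k0_k_f33_8 C with ⟨c9_0_0, c9_0_1⟩ | ⟨c9_1_0, c9_1_1⟩
                    · linarith only [C.f11_2, C.f22_6, C.f33_7, C.o2, c7_3_0, c9_0_1, s2, s3]
                    · rcases c0_11_22_33_k0_k_p11_33B C with c10_0_0 | c10_1_0 | c10_2_0 | c10_3_0 | c10_4_0
                      · linarith only [c10_0_0, e0]
                      · linarith only [c10_1_0, e2]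
                      · linarith only [C.a1, C.f11_0, C.o0, c10_2_0, c8_0_1]
                      · linarith only [C.f22_4, c10_3_0, s2]
                      · rcases c0_11_22_33_k0_k_p13_22B C with c11_0_0 | c11_1_0 | c11_2_0 | c11_3_0 | c11_4_0 | c11_5_0
                        · linarith only [c11_0_0, c1_0_0]
                        · linarith only [C.o2, c11_1_0, e2]
                        · linarith only [c11_2_0, e1]
                        · linarith only [C.a1, C.o0, c0_0_1, c11_3_0, c5_0_1]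
                        · rcases c0_11_22_33_k0_k_p22_33A C with c16_0_0 | c16_1_0 | c16_2_0 | c16_3_0 | c16_4_0
                          · linarith only [c16_0_0, e1]
                          · linarith only [c16_1_0, e2]
                          · linarith only [C.f11_0, C.f11_1, C.f33_0, C.f33_3, C.o0, c0_0_1, c11_4_0, c16_2_0, c3_0_1, c5_0_1, c6_1_1, s2]
                          · linarith only [C.f11_0, C.f11_1, C.o0, c0_0_1, c11_4_0, c16_3_0, c1_0_1, c3_0_1, c6_1_1, s2]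
                          · linarith only [C.f11_0, C.f11_1, C.f11_2, C.f22_6, C.o0, C.o2, c0_0_1, c11_4_0, c16_4_0, c3_0_1, c6_1_1, c9_1_1, s3]
                        · linarith only [c10_4_0, c11_5_0, c4_1_1, s3]
                  · linarith only [C.f22_1, C.f33_0, C.f33_4, c5_0_1, c7_3_0, c8_1_1, s2]
                · linarith only [C.f33_7, C.o2, c7_4_0, s3]
            · rcases c0_11_22_33_k0_k_f22_5 C with ⟨c17_0_0, c17_0_1⟩ | ⟨c17_1_0, c17_1_1⟩
              · linarith only [C.f22_4, c17_0_1, c1_0_1, c2_0_0, c5_1_1]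
              · rcases c0_11_22_33_k0_k_f23_3 C with ⟨c18_0_0, c18_0_1⟩ | ⟨c18_1_0, c18_1_1⟩ | ⟨c18_2_0, c18_2_1⟩
                · rcases c0_11_22_33_k0_k_f23_7 C with ⟨c19_0_0, c19_0_1⟩ | ⟨c19_1_0, c19_1_1⟩ | ⟨c19_2_0, c19_2_1⟩
                  · linarith only [C.a1, C.f23_5, c18_0_1, c19_0_1, c1_0_1]
                  · rcases c0_11_22_33_k0_k_f23_10 C with ⟨c20_0_0, c20_0_1⟩ | ⟨c20_1_0, c20_1_1⟩
                    · rcases c0_11_22_33_k0_k_p11_22B C with c25_0_0 | c25_1_0 | c25_2_0 | c25_3_0 | c25_4_0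
                      · linarith only [c25_0_0, e0]
                      · linarith only [c25_1_0, e1]
                      · linarith only [C.b5, C.f11_0, C.f23_9, C.o0, c19_1_1, c20_0_1, c25_2_0, c2_0_0, c5_1_1]
                      · linarith only [C.f11_2, C.f22_6, C.f23_9, C.f33_7, C.o1, C.o2, c19_1_1, c20_0_1, c25_3_0, s3]
                      · linarith only [C.f33_7, C.o2, c25_4_0, s3]
                    · rcases c0_11_22_33_k0_k_p11_23B C with c26_0_0 | c26_1_0 | c26_2_0 | c26_3_0 | c26_4_0 | c26_5_0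
                      · linarith only [c26_0_0, e0]
                      · linarith only [C.a1, C.f23_1, c18_0_1, c1_0_0, c26_1_0]
                      · linarith only [C.o2, c26_2_0, e2]
                      · linarith only [C.a1, C.f11_0, C.o0, c18_0_1, c26_3_0]
                      · rcases c0_11_22_33_k0_k_f33_2 C with ⟨c27_0_0, c27_0_1⟩ | ⟨c27_1_0, c27_1_1⟩
                        · rcases c0_11_22_33_k0_k_f33_8 C with ⟨c28_0_0, c28_0_1⟩ | ⟨c28_1_0, c28_1_1⟩
                          · linarith only [C.f11_2, C.f22_4, C.f22_6, C.f33_7, C.o1, C.o2, c19_1_1, c26_4_0, c28_0_1, s2, s3]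
                          · rcases c0_11_22_33_k0_k_p11_33B C with c30_0_0 | c30_1_0 | c30_2_0 | c30_3_0 | c30_4_0
                            · linarith only [c30_0_0, e0]
                            · linarith only [c30_1_0, e2]
                            · linarith only [C.a1, C.f11_0, C.o0, c27_0_1, c30_2_0]
                            · linarith only [C.f22_4, c30_3_0, s2]
                            · rcases c0_11_22_33_k0_k_p13_22B C with c31_0_0 | c31_1_0 | c31_2_0 | c31_3_0 | c31_4_0 | c31_5_0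
                              · linarith only [c1_0_0, c31_0_0]
                              · linarith only [C.o2, c31_1_0, e2]
                              · linarith only [c31_2_0, e1]
                              · linarith only [C.a1, C.f11_0, C.f11_1, C.f23_1, C.o0, c0_0_1, c18_0_1, c19_1_1, c1_0_1, c26_4_0, c31_3_0, c5_1_1]
                              · rcases c0_11_22_33_k0_k_p22_33A C with c39_0_0 | c39_1_0 | c39_2_0 | c39_3_0 | c39_4_0
                                · linarith only [c39_0_0, e1]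
                                · linarith only [c39_1_0, e2]
                                · linarith only [C.f11_0, C.f11_1, C.f23_1, C.f33_0, C.f33_3, C.o0, c0_0_1, c17_1_1, c18_0_1, c1_0_1, c31_4_0, c39_2_0, c3_0_1, c5_1_1, s2]
                                · linarith only [C.f11_0, C.f11_1, C.o0, c0_0_1, c17_1_1, c1_0_1, c31_4_0, c39_3_0, c3_0_1, s2]
                                · linarith only [C.f11_0, C.f11_1, C.f11_2, C.f22_6, C.o0, C.o2, c0_0_1, c17_1_1, c28_1_1, c31_4_0, c39_4_0, c3_0_1, s3]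
                              · linarith only [c30_4_0, c31_5_0, c4_1_1, s3]
                        · linarith only [C.f22_4, C.f23_1, C.f33_0, C.f33_4, c18_0_1, c19_1_1, c26_4_0, c27_1_1, s2]
                      · linarith only [C.b3, C.f11_0, C.f11_1, C.f11_2, C.f22_4, C.f22_6, C.f33_7, C.o2, c20_1_1, c26_5_0, s3]
                  · linarith only [C.a4, C.f23_5, C.o2, c19_2_1]
                · rcases c0_11_22_33_k0_k_f23_7 C with ⟨c40_0_0, c40_0_1⟩ | ⟨c40_1_0, c40_1_1⟩ | ⟨c40_2_0, c40_2_1⟩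
                  · linarith only [C.f23_5, c18_1_1, c1_0_1, c2_0_0, c40_0_1]
                  · rcases c0_11_22_33_k0_k_f23_10 C with ⟨c41_0_0, c41_0_1⟩ | ⟨c41_1_0, c41_1_1⟩
                    · rcases c0_11_22_33_k0_k_p11_22B C with c45_0_0 | c45_1_0 | c45_2_0 | c45_3_0 | c45_4_0
                      · linarith only [c45_0_0, e0]
                      · linarith only [c45_1_0, e1]
                      · linarith only [C.b5, C.f11_0, C.f23_9, C.o0, c2_0_0, c40_1_1, c41_0_1, c45_2_0, c5_1_1]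
                      · linarith only [C.f11_2, C.f22_6, C.f23_9, C.f33_7, C.o1, C.o2, c40_1_1, c41_0_1, c45_3_0, s3]
                      · linarith only [C.f33_7, C.o2, c45_4_0, s3]
                    · rcases c0_11_22_33_k0_k_p11_23B C with c46_0_0 | c46_1_0 | c46_2_0 | c46_3_0 | c46_4_0 | c46_5_0
                      · linarith only [c46_0_0, e0]
                      · linarith only [c1_0_0, c2_0_0, c46_1_0]
                      · linarith only [C.o2, c46_2_0, e2]
                      · linarith only [C.f11_0, C.o0, c18_1_1, c2_0_0, c46_3_0]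
                      · rcases c0_11_22_33_k0_k_f33_8 C with ⟨c47_0_0, c47_0_1⟩ | ⟨c47_1_0, c47_1_1⟩
                        · linarith only [C.f11_2, C.f22_4, C.f22_6, C.f33_7, C.o1, C.o2, c40_1_1, c46_4_0, c47_0_1, s2, s3]
                        · rcases c0_11_22_33_k0_k_p11_22B C with c48_0_0 | c48_1_0 | c48_2_0 | c48_3_0 | c48_4_0
                          · linarith only [c48_0_0, e0]
                          · linarith only [c48_1_0, e1]
                          · linarith only [C.f11_0, C.f11_1, C.o0, c1_0_1, c2_0_0, c40_1_1, c46_4_0, c48_2_0, c5_1_1]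
                          · rcases c0_11_22_33_k0_k_p13_22B C with c49_0_0 | c49_1_0 | c49_2_0 | c49_3_0 | c49_4_0 | c49_5_0
                            · linarith only [c1_0_0, c49_0_0]
                            · linarith only [C.f22_4, C.f33_4, C.o0, C.o2, c2_0_0, c40_1_1, c46_4_0, c49_1_0, e0, s2]
                            · linarith only [c49_2_0, e1]
                            · linarith only [C.f11_0, C.f11_1, C.o0, c0_0_1, c1_0_1, c2_0_0, c40_1_1, c46_4_0, c49_3_0, c5_1_1]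
                            · rcases c0_11_22_33_k0_k_p22_33A C with c57_0_0 | c57_1_0 | c57_2_0 | c57_3_0 | c57_4_0
                              · linarith only [c57_0_0, e1]
                              · linarith only [c57_1_0, e2]
                              · linarith only [C.f11_0, C.f11_1, C.f33_3, C.o0, c0_0_1, c17_1_1, c1_0_1, c2_0_0, c3_0_1, c49_4_0, c57_2_0, c5_1_1, s2]
                              · linarith only [C.f11_0, C.f11_1, C.o0, c0_0_1, c17_1_1, c1_0_1, c3_0_1, c49_4_0, c57_3_0, s2]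
                              · linarith only [C.f11_0, C.f11_1, C.f11_2, C.f22_6, C.o0, C.o2, c0_0_1, c17_1_1, c3_0_1, c47_1_1, c49_4_0, c57_4_0, s3]
                            · linarith only [C.f11_2, C.f22_6, C.f33_7, C.o2, c17_1_1, c48_3_0, c49_5_0, c4_1_1, s3]
                          · linarith only [C.f33_7, C.o2, c48_4_0, s3]
                      · linarith only [C.b3, C.f11_0, C.f11_1, C.f11_2, C.f22_4, C.f22_6, C.f33_7, C.o2, c41_1_1, c46_5_0, s3]
                  · linarith only [C.f13_4, C.f23_5, c0_0_1, c1_0_1, c3_0_1, c40_2_1]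
                · linarith only [C.f13_4, C.f23_1, c0_0_1, c18_2_1, c1_0_1, c3_0_1]
        · rcases c0_11_22_33_k0_k_f13_8 C with ⟨c58_0_0, c58_0_1⟩ | ⟨c58_1_0, c58_1_1⟩
          · linarith only [C.a4, C.f13_7, c2_0_1, c3_1_1, c58_0_1]
          · rcases c0_11_22_33_k0_k_p11_13B C with c59_0_0 | c59_1_0 | c59_2_0 | c59_3_0 | c59_4_0 | c59_5_0
            · linarith only [c59_0_0, e0]
            · linarith only [c1_0_0, c59_1_0]
            · linarith only [C.o2, c59_2_0, e2]
            · rcases c0_11_22_33_k0_k_f22_2 C with ⟨c60_0_0, c60_0_1⟩ | ⟨c60_1_0, c60_1_1⟩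
              · rcases c0_11_22_33_k0_k_f22_5 C with ⟨c61_0_0, c61_0_1⟩ | ⟨c61_1_0, c61_1_1⟩
                · linarith only [C.a1, C.f11_0, C.f11_1, C.f13_0, C.f13_3, C.f22_4, C.f33_4, C.o0, C.o2, c3_1_1, c60_0_1, c61_0_1, s2]
                · rcases c0_11_22_33_k0_k_p11_22B C with c62_0_0 | c62_1_0 | c62_2_0 | c62_3_0 | c62_4_0
                  · linarith only [c62_0_0, e0]
                  · linarith only [c62_1_0, e1]
                  · linarith only [C.a1, C.f11_0, C.o0, c60_0_1, c62_2_0]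
                  · linarith only [C.f11_0, C.f11_1, C.f13_3, C.f33_4, C.o2, c3_1_1, c59_3_0, c61_1_1, c62_3_0, s2]
                  · linarith only [C.f33_7, C.o2, c62_4_0, s3]
              · rcases c0_11_22_33_k0_k_f22_5 C with ⟨c63_0_0, c63_0_1⟩ | ⟨c63_1_0, c63_1_1⟩
                · linarith only [C.f22_4, c1_0_1, c2_0_0, c60_1_1, c63_0_1]
                · rcases c0_11_22_33_k0_k_p11_22B C with c64_0_0 | c64_1_0 | c64_2_0 | c64_3_0 | c64_4_0
                  · linarith only [c64_0_0, e0]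
                  · linarith only [c64_1_0, e1]
                  · rcases c0_11_22_33_k0_k_f33_5 C with ⟨c65_0_0, c65_0_1⟩ | ⟨c65_1_0, c65_1_1⟩
                    · linarith only [C.f11_0, C.f13_3, C.f33_4, C.o2, c3_1_1, c59_3_0, c64_2_0, c65_0_1, s1]
                    · rcases c0_11_22_33_k0_k_f33_8 C with ⟨c66_0_0, c66_0_1⟩ | ⟨c66_1_0, c66_1_1⟩
                      · linarith only [C.a4, C.f33_7, c2_0_1, c65_1_1, c66_0_1]
                      · rcases c0_11_22_33_k0_k_p11_33B C with c67_0_0 | c67_1_0 | c67_2_0 | c67_3_0 | c67_4_0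
                        · linarith only [c67_0_0, e0]
                        · linarith only [c67_1_0, e2]
                        · linarith only [C.f11_0, c64_2_0, c67_2_0, s1]
                        · linarith only [C.f22_4, c67_3_0, s2]
                        · linarith only [C.a4, C.f11_0, C.f11_1, C.f11_2, C.f13_0, C.f13_3, C.f22_4, C.f22_6, c2_0_0, c3_1_1, c60_1_1, c64_2_0, c66_1_1, c67_4_0, s3]
                  · linarith only [C.f11_0, C.f11_1, C.f13_3, C.f33_4, C.o2, c3_1_1, c59_3_0, c63_1_1, c64_3_0, s2]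
                  · linarith only [C.f33_7, C.o2, c64_4_0, s3]
            · linarith only [C.f22_4, C.f33_4, C.o2, c3_1_1, c59_4_0, s2]
            · linarith only [C.b3, C.f11_0, C.f11_1, C.f11_2, C.f22_4, C.f22_6, C.f33_7, C.o2, c58_1_1, c59_5_0, s3]
      · rcases c0_11_22_33_k0_k_f13_5 C with ⟨c68_0_0, c68_0_1⟩ | ⟨c68_1_0, c68_1_1⟩
        · rcases c0_11_22_33_k0_k_f13_8 C with ⟨c69_0_0, c69_0_1⟩ | ⟨c69_1_0, c69_1_1⟩
          · linarith only [C.f11_0, C.f11_1, C.f11_2, C.f13_7, C.f22_4, C.f22_6, C.f33_7, C.o0, C.o1, C.o2, c0_0_1, c1_0_1, c68_0_1, c69_0_1, s3]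
          · rcases c0_11_22_33_k0_k_f22_2 C with ⟨c70_0_0, c70_0_1⟩ | ⟨c70_1_0, c70_1_1⟩
            · rcases c0_11_22_33_k0_k_f22_5 C with ⟨c71_0_0, c71_0_1⟩ | ⟨c71_1_0, c71_1_1⟩
              · linarith only [C.a1, C.f22_4, C.o1, c1_0_1, c70_0_1, c71_0_1]
              · rcases c0_11_22_33_k0_k_p11_22B C with c72_0_0 | c72_1_0 | c72_2_0 | c72_3_0 | c72_4_0
                · linarith only [c72_0_0, e0]
                · linarith only [c72_1_0, e1]
                · linarith only [C.a1, C.f11_0, C.o0, c70_0_1, c72_2_0]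
                · rcases c0_11_22_33_k0_k_f33_2 C with ⟨c73_0_0, c73_0_1⟩ | ⟨c73_1_0, c73_1_1⟩
                  · rcases c0_11_22_33_k0_k_f33_8 C with ⟨c74_0_0, c74_0_1⟩ | ⟨c74_1_0, c74_1_1⟩
                    · linarith only [C.f11_2, C.f22_6, C.f33_7, C.o2, c72_3_0, c74_0_1, s2, s3]
                    · rcases c0_11_22_33_k0_k_p11_33B C with c75_0_0 | c75_1_0 | c75_2_0 | c75_3_0 | c75_4_0
                      · linarith only [c75_0_0, e0]
                      · linarith only [c75_1_0, e2]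
                      · linarith only [C.a1, C.f11_0, C.o0, c73_0_1, c75_2_0]
                      · linarith only [C.f22_4, c75_3_0, s2]
                      · rcases c0_11_22_33_k0_k_p13_22B C with c76_0_0 | c76_1_0 | c76_2_0 | c76_3_0 | c76_4_0 | c76_5_0
                        · linarith only [c1_0_0, c76_0_0]
                        · linarith only [C.o2, c76_1_0, e2]
                        · linarith only [c76_2_0, e1]
                        · linarith only [C.a1, C.o0, c0_0_1, c70_0_1, c76_3_0]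
                        · rcases c0_11_22_33_k0_k_p22_33A C with c81_0_0 | c81_1_0 | c81_2_0 | c81_3_0 | c81_4_0
                          · linarith only [c81_0_0, e1]
                          · linarith only [c81_1_0, e2]
                          · linarith only [C.f11_0, C.f11_1, C.f33_0, C.f33_3, C.o0, c0_0_1, c68_0_1, c70_0_1, c71_1_1, c76_4_0, c81_2_0, s2]
                          · linarith only [C.f11_0, C.f11_1, C.o0, c0_0_1, c1_0_1, c68_0_1, c71_1_1, c76_4_0, c81_3_0, s2]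
                          · linarith only [C.f11_0, C.f11_1, C.f11_2, C.f22_6, C.o0, C.o2, c0_0_1, c68_0_1, c71_1_1, c74_1_1, c76_4_0, c81_4_0, s3]
                        · linarith only [c69_1_1, c75_4_0, c76_5_0, s3]
                  · linarith only [C.f22_1, C.f33_0, C.f33_4, c70_0_1, c72_3_0, c73_1_1, s2]
                · linarith only [C.f33_7, C.o2, c72_4_0, s3]
            · rcases c0_11_22_33_k0_k_f22_5 C with ⟨c82_0_0, c82_0_1⟩ | ⟨c82_1_0, c82_1_1⟩
              · linarith only [C.a2, C.f22_4, c1_0_1, c70_1_1, c82_0_1]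
              · rcases c0_11_22_33_k0_k_f33_2 C with ⟨c102_0_0, c102_0_1⟩ | ⟨c102_1_0, c102_1_1⟩
                · rcases c0_11_22_33_k0_k_p11_33B C with c103_0_0 | c103_1_0 | c103_2_0 | c103_3_0 | c103_4_0
                  · linarith only [c103_0_0, e0]
                  · linarith only [c103_1_0, e2]
                  · linarith only [C.a1, C.f11_0, C.o0, c102_0_1, c103_2_0]
                  · linarith only [C.f22_4, c103_3_0, s2]
                  · rcases c0_11_22_33_k0_k_f33_8 C with ⟨c104_0_0, c104_0_1⟩ | ⟨c104_1_0, c104_1_1⟩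
                    · linarith only [C.f11_2, C.f22_4, C.f22_6, c103_4_0, c104_0_1, s2, s3]
                    · rcases c0_11_22_33_k0_k_p13_22B C with c105_0_0 | c105_1_0 | c105_2_0 | c105_3_0 | c105_4_0 | c105_5_0
                      · linarith only [c105_0_0, c1_0_0]
                      · linarith only [C.o2, c105_1_0, e2]
                      · linarith only [c105_2_0, e1]
                      · linarith only [C.o0, c0_0_1, c105_3_0, c2_1_0, c70_1_1]
                      · rcases c0_11_22_33_k0_k_p22_33A C with c110_0_0 | c110_1_0 | c110_2_0 | c110_3_0 | c110_4_0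
                        · linarith only [c110_0_0, e1]
                        · linarith only [c110_1_0, e2]
                        · linarith only [C.a2, C.f11_0, C.f11_1, C.f33_3, C.o0, c0_0_1, c105_4_0, c110_2_0, c1_0_1, c68_0_1, c70_1_1, c82_1_1, s2]
                        · linarith only [C.f11_0, C.f11_1, C.o0, c0_0_1, c105_4_0, c110_3_0, c1_0_1, c68_0_1, c82_1_1, s2]
                        · linarith only [C.f11_0, C.f11_1, C.f11_2, C.f22_6, C.o0, C.o2, c0_0_1, c104_1_1, c105_4_0, c110_4_0, c68_0_1, c82_1_1, s3]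
                      · linarith only [c103_4_0, c105_5_0, c69_1_1, s3]
                · rcases c0_11_22_33_k0_k_f33_5 C with ⟨c111_0_0, c111_0_1⟩ | ⟨c111_1_0, c111_1_1⟩
                  · linarith only [C.a2, C.f33_4, c102_1_1, c111_0_1, c1_0_1]
                  · rcases c0_11_22_33_k0_k_f33_8 C with ⟨c112_0_0, c112_0_1⟩ | ⟨c112_1_0, c112_1_1⟩
                    · linarith only [C.f11_0, C.f11_1, C.f11_2, C.f13_4, C.f22_4, C.f22_6, C.f33_7, C.o0, C.o2, c0_0_1, c111_1_1, c112_0_1, c68_0_1, s2, s3]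
                    · rcases c0_11_22_33_k0_k_p11_33B C with c113_0_0 | c113_1_0 | c113_2_0 | c113_3_0 | c113_4_0
                      · linarith only [c113_0_0, e0]
                      · linarith only [c113_1_0, e2]
                      · linarith only [C.a4, C.f11_0, C.f22_1, C.o1, c102_1_1, c113_2_0, s1]
                      · linarith only [C.f22_4, c113_3_0, s2]
                      · rcases c0_11_22_33_k0_k_p13_22B C with c114_0_0 | c114_1_0 | c114_2_0 | c114_3_0 | c114_4_0 | c114_5_0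
                        · linarith only [c114_0_0, c1_0_0]
                        · linarith only [C.o2, c114_1_0, e2]
                        · linarith only [c114_2_0, e1]
                        · linarith only [C.o0, c0_0_1, c114_3_0, c2_1_0, c70_1_1]
                        · rcases c0_11_22_33_k0_k_p11_33A C with c115_0_0 | c115_1_0 | c115_2_0 | c115_3_0 | c115_4_0
                          · linarith only [c115_0_0, e0]
                          · linarith only [c115_1_0, e2]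
                          · linarith only [C.a2, C.f11_1, C.f33_4, c0_0_1, c102_1_1, c114_4_0, c115_2_0, c1_0_1, c68_0_1, c82_1_1, s2]
                          · linarith only [c0_0_1, c114_4_0, c115_3_0, c1_0_1, c68_0_1, c82_1_1, s2]
                          · linarith only [C.b3, C.f11_0, C.f11_1, C.f11_2, C.f22_4, C.f22_6, C.o2, c112_1_1, c115_4_0, s3]
                        · linarith only [c113_4_0, c114_5_0, c69_1_1, s3]
        · rcases c0_11_22_33_k0_k_f13_8 C with ⟨c116_0_0, c116_0_1⟩ | ⟨c116_1_0, c116_1_1⟩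
          · linarith only [C.a4, C.f13_7, C.o1, C.o2, c116_0_1, c2_1_1, c68_1_1]
          · rcases c0_11_22_33_k0_k_p11_13B C with c117_0_0 | c117_1_0 | c117_2_0 | c117_3_0 | c117_4_0 | c117_5_0
            · linarith only [c117_0_0, e0]
            · linarith only [c117_1_0, c1_0_0]
            · linarith only [C.o2, c117_2_0, e2]
            · rcases c0_11_22_33_k0_k_f22_2 C with ⟨c118_0_0, c118_0_1⟩ | ⟨c118_1_0, c118_1_1⟩
              · rcases c0_11_22_33_k0_k_f22_5 C with ⟨c119_0_0, c119_0_1⟩ | ⟨c119_1_0, c119_1_1⟩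
                · linarith only [C.a1, C.f11_0, C.f11_1, C.f13_0, C.f13_3, C.f22_4, C.f33_4, C.o0, C.o2, c118_0_1, c119_0_1, c68_1_1, s2]
                · rcases c0_11_22_33_k0_k_p11_22B C with c120_0_0 | c120_1_0 | c120_2_0 | c120_3_0 | c120_4_0
                  · linarith only [c120_0_0, e0]
                  · linarith only [c120_1_0, e1]
                  · linarith only [C.a1, C.f11_0, C.o0, c118_0_1, c120_2_0]
                  · linarith only [C.f11_0, C.f11_1, C.f13_3, C.f33_4, C.o2, c117_3_0, c119_1_1, c120_3_0, c68_1_1, s2]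
                  · linarith only [C.f33_7, C.o2, c120_4_0, s3]
              · rcases c0_11_22_33_k0_k_f22_5 C with ⟨c121_0_0, c121_0_1⟩ | ⟨c121_1_0, c121_1_1⟩
                · linarith only [C.a2, C.f22_4, c118_1_1, c121_0_1, c1_0_1]
                · rcases c0_11_22_33_k0_k_p11_22B C with c122_0_0 | c122_1_0 | c122_2_0 | c122_3_0 | c122_4_0
                  · linarith only [c122_0_0, e0]
                  · linarith only [c122_1_0, e1]
                  · rcases c0_11_22_33_k0_k_f33_5 C with ⟨c123_0_0, c123_0_1⟩ | ⟨c123_1_0, c123_1_1⟩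
                    · linarith only [C.f11_0, C.f13_3, C.f33_4, C.o2, c117_3_0, c122_2_0, c123_0_1, c68_1_1, s1]
                    · rcases c0_11_22_33_k0_k_f33_8 C with ⟨c124_0_0, c124_0_1⟩ | ⟨c124_1_0, c124_1_1⟩
                      · linarith only [C.f11_0, C.f33_1, C.f33_7, C.o2, c118_1_1, c122_2_0, c123_1_1, c124_0_1, c2_1_1, s1]
                      · rcases c0_11_22_33_k0_k_p11_33B C with c125_0_0 | c125_1_0 | c125_2_0 | c125_3_0 | c125_4_0
                        · linarith only [c125_0_0, e0]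
                        · linarith only [c125_1_0, e2]
                        · linarith only [C.f11_0, c122_2_0, c125_2_0, s1]
                        · linarith only [C.f22_4, c125_3_0, s2]
                        · linarith only [C.f11_0, C.f11_1, C.f11_2, C.f13_3, C.f22_4, C.f22_6, C.f33_1, c117_3_0, c118_1_1, c122_2_0, c124_1_1, c125_4_0, c68_1_1, s1, s3]
                  · linarith only [C.f11_0, C.f11_1, C.f13_3, C.f33_4, C.o2, c117_3_0, c121_1_1, c122_3_0, c68_1_1, s2]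
                  · linarith only [C.f33_7, C.o2, c122_4_0, s3]
            · linarith only [C.f22_4, C.f33_4, C.o2, c117_4_0, c68_1_1, s2]
            · linarith only [C.b3, C.f11_0, C.f11_1, C.f11_2, C.f22_4, C.f22_6, C.f33_7, C.o2, c116_1_1, c117_5_0, s3]
    · rcases c0_11_22_33_k0_k_t23 C with ⟨c126_0_0, c126_0_1⟩ | ⟨c126_1_0, c126_1_1⟩
      · rcases c0_11_22_33_k0_k_f13_5 C with ⟨c127_0_0, c127_0_1⟩ | ⟨c127_1_0, c127_1_1⟩
        · rcases c0_11_22_33_k0_k_f13_8 C with ⟨c128_0_0, c128_0_1⟩ | ⟨c128_1_0, c128_1_1⟩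
          · linarith only [C.f11_0, C.f11_1, C.f11_2, C.f13_7, C.f22_4, C.f22_6, C.f33_7, C.o0, C.o2, c0_0_1, c127_0_1, c128_0_1, c1_1_1, s3]
          · rcases c0_11_22_33_k0_k_p11_13B C with c129_0_0 | c129_1_0 | c129_2_0 | c129_3_0 | c129_4_0 | c129_5_0
            · linarith only [c129_0_0, e0]
            · linarith only [C.o0, c129_1_0, e0]
            · linarith only [C.o2, c129_2_0, e2]
            · rcases c0_11_22_33_k0_k_f22_2 C with ⟨c130_0_0, c130_0_1⟩ | ⟨c130_1_0, c130_1_1⟩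
              · rcases c0_11_22_33_k0_k_f22_5 C with ⟨c131_0_0, c131_0_1⟩ | ⟨c131_1_0, c131_1_1⟩
                · linarith only [C.a1, C.f22_4, C.o0, c130_0_1, c131_0_1, c1_1_1]
                · rcases c0_11_22_33_k0_k_p11_22B C with c132_0_0 | c132_1_0 | c132_2_0 | c132_3_0 | c132_4_0
                  · linarith only [c132_0_0, e0]
                  · linarith only [c132_1_0, e1]
                  · linarith only [C.a1, C.f11_0, C.o0, c130_0_1, c132_2_0]
                  · rcases c0_11_22_33_k0_k_f33_2 C with ⟨c133_0_0, c133_0_1⟩ | ⟨c133_1_0, c133_1_1⟩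
                    · rcases c0_11_22_33_k0_k_f33_8 C with ⟨c134_0_0, c134_0_1⟩ | ⟨c134_1_0, c134_1_1⟩
                      · linarith only [C.f11_2, C.f22_6, C.f33_7, C.o2, c132_3_0, c134_0_1, s2, s3]
                      · rcases c0_11_22_33_k0_k_p11_33B C with c135_0_0 | c135_1_0 | c135_2_0 | c135_3_0 | c135_4_0
                        · linarith only [c135_0_0, e0]
                        · linarith only [c135_1_0, e2]
                        · linarith only [C.a1, C.f11_0, C.o0, c133_0_1, c135_2_0]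
                        · linarith only [C.f22_4, c135_3_0, s2]
                        · rcases c0_11_22_33_k0_k_p13_22B C with c136_0_0 | c136_1_0 | c136_2_0 | c136_3_0 | c136_4_0 | c136_5_0
                          · linarith only [C.o0, c136_0_0, e0]
                          · linarith only [C.a1, C.f11_2, C.f22_1, C.f22_4, C.f22_6, C.f33_4, C.o0, c130_0_1, c134_1_1, c135_4_0, c136_1_0, e0, s2, s3]
                          · linarith only [c136_2_0, e1]
                          · linarith only [C.a1, C.o0, c0_0_1, c130_0_1, c136_3_0]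
                          · linarith only [C.o0, c0_0_1, c127_0_1, c131_1_1, c136_4_0, c1_1_1]
                          · linarith only [c128_1_1, c135_4_0, c136_5_0, s3]
                    · linarith only [C.f22_1, C.f33_0, C.f33_4, c130_0_1, c132_3_0, c133_1_1, s2]
                  · linarith only [C.f33_7, C.o2, c132_4_0, s3]
              · rcases c0_11_22_33_k0_k_f22_5 C with ⟨c137_0_0, c137_0_1⟩ | ⟨c137_1_0, c137_1_1⟩
                · linarith only [C.a3, C.f22_4, c126_0_0, c130_1_1, c137_0_1]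
                · rcases c0_11_22_33_k0_k_f23_3 C with ⟨c138_0_0, c138_0_1⟩ | ⟨c138_1_0, c138_1_1⟩ | ⟨c138_2_0, c138_2_1⟩
                  · rcases c0_11_22_33_k0_k_f23_7 C with ⟨c139_0_0, c139_0_1⟩ | ⟨c139_1_0, c139_1_1⟩ | ⟨c139_2_0, c139_2_1⟩
                    · linarith only [C.a1, C.a3, C.f23_5, c138_0_1, c139_0_1]
                    · rcases c0_11_22_33_k0_k_f23_10 C with ⟨c141_0_0, c141_0_1⟩ | ⟨c141_1_0, c141_1_1⟩
                      · rcases c0_11_22_33_k0_k_p11_22B C with c145_0_0 | c145_1_0 | c145_2_0 | c145_3_0 | c145_4_0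
                        · linarith only [c145_0_0, e0]
                        · linarith only [c145_1_0, e1]
                        · linarith only [C.a1, C.b5, C.f11_0, C.f23_1, C.f23_9, C.o0, c130_1_1, c138_0_1, c139_1_1, c141_0_1, c145_2_0]
                        · linarith only [C.f11_2, C.f22_6, C.f23_9, C.f33_7, C.o1, C.o2, c139_1_1, c141_0_1, c145_3_0, s3]
                        · linarith only [C.f33_7, C.o2, c145_4_0, s3]
                      · rcases c0_11_22_33_k0_k_p11_23B C with c146_0_0 | c146_1_0 | c146_2_0 | c146_3_0 | c146_4_0 | c146_5_0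
                        · linarith only [c146_0_0, e0]
                        · linarith only [C.a1, C.f23_1, C.o0, c138_0_1, c146_1_0, e0]
                        · linarith only [C.o2, c146_2_0, e2]
                        · linarith only [C.a1, C.f11_0, C.o0, c138_0_1, c146_3_0]
                        · rcases c0_11_22_33_k0_k_f33_2 C with ⟨c147_0_0, c147_0_1⟩ | ⟨c147_1_0, c147_1_1⟩
                          · rcases c0_11_22_33_k0_k_f33_8 C with ⟨c148_0_0, c148_0_1⟩ | ⟨c148_1_0, c148_1_1⟩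
                            · linarith only [C.f11_2, C.f22_4, C.f22_6, C.f33_7, C.o1, C.o2, c139_1_1, c146_4_0, c148_0_1, s2, s3]
                            · rcases c0_11_22_33_k0_k_p11_33B C with c152_0_0 | c152_1_0 | c152_2_0 | c152_3_0 | c152_4_0
                              · linarith only [c152_0_0, e0]
                              · linarith only [c152_1_0, e2]
                              · linarith only [C.a1, C.f11_0, C.o0, c147_0_1, c152_2_0]
                              · linarith only [C.f22_4, c152_3_0, s2]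
                              · rcases c0_11_22_33_k0_k_p13_22B C with c154_0_0 | c154_1_0 | c154_2_0 | c154_3_0 | c154_4_0 | c154_5_0
                                · linarith only [C.o0, c154_0_0, e0]
                                · linarith only [C.a0, C.a1, C.f11_0, C.f11_1, C.f11_2, C.f22_4, C.f22_6, C.f23_1, C.f33_4, c138_0_1, c139_1_1, c146_4_0, c148_1_1, c152_4_0, c154_1_0, c1_1_1, s2, s3]
                                · linarith only [c154_2_0, e1]
                                · linarith only [C.a1, C.f11_0, C.f11_1, C.f23_1, C.o0, c0_0_1, c130_1_1, c138_0_1, c139_1_1, c146_4_0, c154_3_0, c1_1_1]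
                                · linarith only [C.o0, c0_0_1, c127_0_1, c137_1_1, c154_4_0, c1_1_1]
                                · linarith only [c128_1_1, c152_4_0, c154_5_0, s3]
                          · linarith only [C.f22_4, C.f23_1, C.f33_0, C.f33_4, c138_0_1, c139_1_1, c146_4_0, c147_1_1, s2]
                        · linarith only [C.f11_0, C.f11_1, C.f11_2, C.f22_4, C.f22_6, C.f33_7, C.o2, c141_1_1, c146_5_0, c1_1_1, s3]
                    · linarith only [C.a4, C.f23_5, C.o2, c139_2_1]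
                  · rcases c0_11_22_33_k0_k_f23_7 C with ⟨c155_0_0, c155_0_1⟩ | ⟨c155_1_0, c155_1_1⟩ | ⟨c155_2_0, c155_2_1⟩
                    · linarith only [C.a3, C.f23_5, c126_0_0, c138_1_1, c155_0_1]
                    · rcases c0_11_22_33_k0_k_f23_10 C with ⟨c157_0_0, c157_0_1⟩ | ⟨c157_1_0, c157_1_1⟩
                      · rcases c0_11_22_33_k0_k_p11_22B C with c160_0_0 | c160_1_0 | c160_2_0 | c160_3_0 | c160_4_0
                        · linarith only [c160_0_0, e0]
                        · linarith only [c160_1_0, e1]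
                        · linarith only [C.b5, C.f11_0, C.f23_9, C.o0, c126_0_0, c130_1_1, c155_1_1, c157_0_1, c160_2_0]
                        · linarith only [C.f11_2, C.f22_6, C.f23_9, C.f33_7, C.o1, C.o2, c155_1_1, c157_0_1, c160_3_0, s3]
                        · linarith only [C.f33_7, C.o2, c160_4_0, s3]
                      · rcases c0_11_22_33_k0_k_p11_23B C with c161_0_0 | c161_1_0 | c161_2_0 | c161_3_0 | c161_4_0 | c161_5_0
                        · linarith only [c161_0_0, e0]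
                        · linarith only [C.o0, c126_0_0, c161_1_0, e0]
                        · linarith only [C.o2, c161_2_0, e2]
                        · linarith only [C.f11_0, C.o0, c126_0_0, c138_1_1, c161_3_0]
                        · rcases c0_11_22_33_k0_k_f33_8 C with ⟨c162_0_0, c162_0_1⟩ | ⟨c162_1_0, c162_1_1⟩
                          · linarith only [C.f11_2, C.f22_4, C.f22_6, C.f33_7, C.o1, C.o2, c155_1_1, c161_4_0, c162_0_1, s2, s3]
                          · rcases c0_11_22_33_k0_k_p11_33A C with c165_0_0 | c165_1_0 | c165_2_0 | c165_3_0 | c165_4_0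
                            · linarith only [c165_0_0, e0]
                            · linarith only [c165_1_0, e2]
                            · rcases c0_11_22_33_k0_k_f33_2 C with ⟨c166_0_0, c166_0_1⟩ | ⟨c166_1_0, c166_1_1⟩
                              · rcases c0_11_22_33_k0_k_p11_33B C with c167_0_0 | c167_1_0 | c167_2_0 | c167_3_0 | c167_4_0
                                · linarith only [c167_0_0, e0]
                                · linarith only [c167_1_0, e2]
                                · linarith only [C.a1, C.f11_0, C.o0, c166_0_1, c167_2_0]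
                                · linarith only [C.f22_4, c167_3_0, s2]
                                · rcases c0_11_22_33_k0_k_p13_22B C with c169_0_0 | c169_1_0 | c169_2_0 | c169_3_0 | c169_4_0 | c169_5_0
                                  · linarith only [C.o0, c169_0_0, e0]
                                  · linarith only [C.a0, C.f11_0, C.f11_1, C.f11_2, C.f22_4, C.f22_6, C.f33_4, c126_0_0, c155_1_1, c161_4_0, c162_1_1, c167_4_0, c169_1_0, c1_1_1, s2, s3]
                                  · linarith only [c169_2_0, e1]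
                                  · linarith only [C.f11_0, C.f11_1, C.o0, c0_0_1, c126_0_0, c130_1_1, c155_1_1, c161_4_0, c169_3_0, c1_1_1]
                                  · linarith only [C.o0, c0_0_1, c127_0_1, c137_1_1, c169_4_0, c1_1_1]
                                  · linarith only [c128_1_1, c167_4_0, c169_5_0, s3]
                              · linarith only [C.f11_0, C.f22_4, C.f33_4, c0_0_1, c126_0_0, c129_3_0, c155_1_1, c161_4_0, c165_2_0, c166_1_1, s2]
                            · linarith only [C.f11_0, C.f11_1, C.f22_4, c155_1_1, c161_4_0, c165_3_0, c1_1_1, s2]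
                            · linarith only [C.f11_0, C.f11_1, C.f11_2, C.f22_4, C.f22_6, C.o2, c162_1_1, c165_4_0, c1_1_1, s3]
                        · linarith only [C.f11_0, C.f11_1, C.f11_2, C.f22_4, C.f22_6, C.f33_7, C.o2, c157_1_1, c161_5_0, c1_1_1, s3]
                    · linarith only [C.a4, C.f23_5, C.o2, c155_2_1]
                  · linarith only [C.a4, C.f23_1, C.o2, c138_2_1]
            · linarith only [C.f11_0, C.f11_1, C.o0, c0_0_1, c127_0_1, c129_4_0, c1_1_1]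
            · linarith only [C.f11_0, C.f11_1, C.f11_2, C.f22_4, C.f22_6, C.f33_7, C.o2, c128_1_1, c129_5_0, c1_1_1, s3]
        · rcases c0_11_22_33_k0_k_f13_8 C with ⟨c170_0_0, c170_0_1⟩ | ⟨c170_1_0, c170_1_1⟩
          · linarith only [C.a4, C.f13_7, c126_0_1, c127_1_1, c170_0_1]
          · rcases c0_11_22_33_k0_k_p11_13B C with c171_0_0 | c171_1_0 | c171_2_0 | c171_3_0 | c171_4_0 | c171_5_0
            · linarith only [c171_0_0, e0]
            · linarith only [C.o0, c171_1_0, e0]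
            · linarith only [C.o2, c171_2_0, e2]
            · rcases c0_11_22_33_k0_k_f22_2 C with ⟨c172_0_0, c172_0_1⟩ | ⟨c172_1_0, c172_1_1⟩
              · rcases c0_11_22_33_k0_k_f22_5 C with ⟨c173_0_0, c173_0_1⟩ | ⟨c173_1_0, c173_1_1⟩
                · linarith only [C.a1, C.a4, C.f13_0, C.f13_3, C.f22_4, C.o1, C.o2, c127_1_1, c172_0_1, c173_0_1]
                · rcases c0_11_22_33_k0_k_p11_22B C with c174_0_0 | c174_1_0 | c174_2_0 | c174_3_0 | c174_4_0
                  · linarith only [c174_0_0, e0]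
                  · linarith only [c174_1_0, e1]
                  · linarith only [C.a1, C.f11_0, C.o0, c172_0_1, c174_2_0]
                  · linarith only [C.f11_0, C.f11_1, C.f13_3, C.f33_4, C.o2, c127_1_1, c171_3_0, c173_1_1, c174_3_0, s2]
                  · linarith only [C.f33_7, C.o2, c174_4_0, s3]
              · rcases c0_11_22_33_k0_k_f22_5 C with ⟨c175_0_0, c175_0_1⟩ | ⟨c175_1_0, c175_1_1⟩
                · linarith only [C.a3, C.f22_4, c126_0_0, c172_1_1, c175_0_1]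
                · rcases c0_11_22_33_k0_k_p11_22B C with c176_0_0 | c176_1_0 | c176_2_0 | c176_3_0 | c176_4_0
                  · linarith only [c176_0_0, e0]
                  · linarith only [c176_1_0, e1]
                  · rcases c0_11_22_33_k0_k_f33_5 C with ⟨c177_0_0, c177_0_1⟩ | ⟨c177_1_0, c177_1_1⟩
                    · linarith only [C.f11_0, C.f13_3, C.f33_4, C.o2, c127_1_1, c171_3_0, c176_2_0, c177_0_1, s1]
                    · rcases c0_11_22_33_k0_k_f33_8 C with ⟨c178_0_0, c178_0_1⟩ | ⟨c178_1_0, c178_1_1⟩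
                      · linarith only [C.a4, C.f33_7, c126_0_1, c177_1_1, c178_0_1]
                      · rcases c0_11_22_33_k0_k_p11_33B C with c179_0_0 | c179_1_0 | c179_2_0 | c179_3_0 | c179_4_0
                        · linarith only [c179_0_0, e0]
                        · linarith only [c179_1_0, e2]
                        · linarith only [C.f11_0, c176_2_0, c179_2_0, s1]
                        · linarith only [C.f22_4, c179_3_0, s2]
                        · linarith only [C.a4, C.f11_0, C.f11_1, C.f11_2, C.f13_0, C.f13_3, C.f22_4, C.f22_6, c126_0_0, c127_1_1, c172_1_1, c176_2_0, c178_1_1, c179_4_0, s3]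
                  · linarith only [C.f11_0, C.f11_1, C.f13_3, C.f33_4, C.o2, c127_1_1, c171_3_0, c175_1_1, c176_3_0, s2]
                  · linarith only [C.f33_7, C.o2, c176_4_0, s3]
            · linarith only [C.f22_4, C.f33_4, C.o2, c127_1_1, c171_4_0, s2]
            · linarith only [C.f11_0, C.f11_1, C.f11_2, C.f22_4, C.f22_6, C.f33_7, C.o2, c170_1_1, c171_5_0, c1_1_1, s3]
      · rcases c0_11_22_33_k0_k_f13_5 C with ⟨c180_0_0, c180_0_1⟩ | ⟨c180_1_0, c180_1_1⟩
        · rcases c0_11_22_33_k0_k_f13_8 C with ⟨c181_0_0, c181_0_1⟩ | ⟨c181_1_0, c181_1_1⟩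
          · linarith only [C.a3, C.f11_0, C.f11_1, C.f11_2, C.f13_7, C.f22_4, C.f22_6, C.f33_7, C.o0, C.o1, C.o2, c0_0_1, c180_0_1, c181_0_1, s3]
          · rcases c0_11_22_33_k0_k_f22_2 C with ⟨c183_0_0, c183_0_1⟩ | ⟨c183_1_0, c183_1_1⟩
            · rcases c0_11_22_33_k0_k_f22_5 C with ⟨c184_0_0, c184_0_1⟩ | ⟨c184_1_0, c184_1_1⟩
              · linarith only [C.a1, C.a3, C.f22_4, C.o1, c183_0_1, c184_0_1]
              · rcases c0_11_22_33_k0_k_p11_22B C with c185_0_0 | c185_1_0 | c185_2_0 | c185_3_0 | c185_4_0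
                · linarith only [c185_0_0, e0]
                · linarith only [c185_1_0, e1]
                · linarith only [C.a1, C.f11_0, C.o0, c183_0_1, c185_2_0]
                · rcases c0_11_22_33_k0_k_f33_2 C with ⟨c186_0_0, c186_0_1⟩ | ⟨c186_1_0, c186_1_1⟩
                  · rcases c0_11_22_33_k0_k_f33_8 C with ⟨c187_0_0, c187_0_1⟩ | ⟨c187_1_0, c187_1_1⟩
                    · linarith only [C.f11_2, C.f22_6, C.f33_7, C.o2, c185_3_0, c187_0_1, s2, s3]
                    · rcases c0_11_22_33_k0_k_p11_33B C with c188_0_0 | c188_1_0 | c188_2_0 | c188_3_0 | c188_4_0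
                      · linarith only [c188_0_0, e0]
                      · linarith only [c188_1_0, e2]
                      · linarith only [C.a1, C.f11_0, C.o0, c186_0_1, c188_2_0]
                      · linarith only [C.f22_4, c188_3_0, s2]
                      · rcases c0_11_22_33_k0_k_p13_22B C with c189_0_0 | c189_1_0 | c189_2_0 | c189_3_0 | c189_4_0 | c189_5_0
                        · linarith only [C.o0, c189_0_0, e0]
                        · linarith only [C.a1, C.f11_2, C.f22_1, C.f22_4, C.f22_6, C.f33_4, C.o0, c183_0_1, c187_1_1, c188_4_0, c189_1_0, e0, s2, s3]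
                        · linarith only [c189_2_0, e1]
                        · linarith only [C.a1, C.o0, c0_0_1, c183_0_1, c189_3_0]
                        · linarith only [C.o0, c0_0_1, c180_0_1, c184_1_1, c189_4_0, c1_1_1]
                        · linarith only [c181_1_1, c188_4_0, c189_5_0, s3]
                  · linarith only [C.f22_1, C.f33_0, C.f33_4, c183_0_1, c185_3_0, c186_1_1, s2]
                · linarith only [C.f33_7, C.o2, c185_4_0, s3]
            · rcases c0_11_22_33_k0_k_f22_5 C with ⟨c190_0_0, c190_0_1⟩ | ⟨c190_1_0, c190_1_1⟩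
              · linarith only [C.f22_4, c126_1_0, c183_1_1, c190_0_1, c1_1_1]
              · rcases c0_11_22_33_k0_k_p13_22B C with c191_0_0 | c191_1_0 | c191_2_0 | c191_3_0 | c191_4_0 | c191_5_0
                · linarith only [C.o0, c191_0_0, e0]
                · linarith only [C.o2, c191_1_0, e2]
                · linarith only [c191_2_0, e1]
                · linarith only [C.o0, c0_0_1, c126_1_0, c183_1_1, c191_3_0]
                · linarith only [C.o0, c0_0_1, c180_0_1, c190_1_1, c191_4_0, c1_1_1]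
                · rcases c0_11_22_33_k0_k_p11_22B C with c192_0_0 | c192_1_0 | c192_2_0 | c192_3_0 | c192_4_0
                  · linarith only [c192_0_0, e0]
                  · linarith only [c192_1_0, e1]
                  · rcases c0_11_22_33_k0_k_p11_33B C with c193_0_0 | c193_1_0 | c193_2_0 | c193_3_0 | c193_4_0
                    · linarith only [c193_0_0, e0]
                    · linarith only [c193_1_0, e2]
                    · linarith only [C.f11_0, c192_2_0, c193_2_0, s1]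
                    · linarith only [C.f22_4, c193_3_0, s2]
                    · linarith only [c181_1_1, c191_5_0, c193_4_0, s3]
                  · linarith only [C.f11_2, C.f22_6, C.f33_7, C.o2, c181_1_1, c190_1_1, c191_5_0, c192_3_0, s3]
                  · linarith only [C.f33_7, C.o2, c192_4_0, s3]
        · rcases c0_11_22_33_k0_k_f13_8 C with ⟨c194_0_0, c194_0_1⟩ | ⟨c194_1_0, c194_1_1⟩
          · linarith only [C.a4, C.f13_7, C.o1, C.o2, c126_1_1, c180_1_1, c194_0_1]
          · rcases c0_11_22_33_k0_k_p11_13B C with c195_0_0 | c195_1_0 | c195_2_0 | c195_3_0 | c195_4_0 | c195_5_0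
            · linarith only [c195_0_0, e0]
            · linarith only [C.o0, c195_1_0, e0]
            · linarith only [C.o2, c195_2_0, e2]
            · rcases c0_11_22_33_k0_k_f22_2 C with ⟨c196_0_0, c196_0_1⟩ | ⟨c196_1_0, c196_1_1⟩
              · rcases c0_11_22_33_k0_k_f22_5 C with ⟨c197_0_0, c197_0_1⟩ | ⟨c197_1_0, c197_1_1⟩
                · linarith only [C.a1, C.f11_0, C.f11_1, C.f13_0, C.f13_3, C.f22_4, C.f33_4, C.o0, C.o2, c180_1_1, c196_0_1, c197_0_1, s2]
                · rcases c0_11_22_33_k0_k_p11_22B C with c198_0_0 | c198_1_0 | c198_2_0 | c198_3_0 | c198_4_0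
                  · linarith only [c198_0_0, e0]
                  · linarith only [c198_1_0, e1]
                  · linarith only [C.a1, C.f11_0, C.o0, c196_0_1, c198_2_0]
                  · linarith only [C.f11_0, C.f11_1, C.f13_3, C.f33_4, C.o2, c180_1_1, c195_3_0, c197_1_1, c198_3_0, s2]
                  · linarith only [C.f33_7, C.o2, c198_4_0, s3]
              · rcases c0_11_22_33_k0_k_f22_5 C with ⟨c199_0_0, c199_0_1⟩ | ⟨c199_1_0, c199_1_1⟩
                · linarith only [C.a2, C.a4, C.f13_0, C.f13_3, C.f22_4, C.o2, c180_1_1, c196_1_1, c199_0_1]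
                · rcases c0_11_22_33_k0_k_p11_22B C with c200_0_0 | c200_1_0 | c200_2_0 | c200_3_0 | c200_4_0
                  · linarith only [c200_0_0, e0]
                  · linarith only [c200_1_0, e1]
                  · rcases c0_11_22_33_k0_k_f33_5 C with ⟨c201_0_0, c201_0_1⟩ | ⟨c201_1_0, c201_1_1⟩
                    · linarith only [C.f11_0, C.f13_3, C.f33_4, C.o2, c180_1_1, c195_3_0, c200_2_0, c201_0_1, s1]
                    · rcases c0_11_22_33_k0_k_f33_8 C with ⟨c202_0_0, c202_0_1⟩ | ⟨c202_1_0, c202_1_1⟩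
                      · linarith only [C.f11_0, C.f33_1, C.f33_7, C.o2, c126_1_1, c196_1_1, c200_2_0, c201_1_1, c202_0_1, s1]
                      · rcases c0_11_22_33_k0_k_p11_33B C with c203_0_0 | c203_1_0 | c203_2_0 | c203_3_0 | c203_4_0
                        · linarith only [c203_0_0, e0]
                        · linarith only [c203_1_0, e2]
                        · linarith only [C.f11_0, c200_2_0, c203_2_0, s1]
                        · linarith only [C.f22_4, c203_3_0, s2]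
                        · linarith only [C.f11_0, C.f11_1, C.f11_2, C.f13_3, C.f22_4, C.f22_6, C.f33_1, c180_1_1, c195_3_0, c196_1_1, c200_2_0, c202_1_1, c203_4_0, s1, s3]
                  · linarith only [C.f11_0, C.f11_1, C.f13_3, C.f33_4, C.o2, c180_1_1, c195_3_0, c199_1_1, c200_3_0, s2]
                  · linarith only [C.f33_7, C.o2, c200_4_0, s3]
            · linarith only [C.f22_4, C.f33_4, C.o2, c180_1_1, c195_4_0, s2]
            · linarith only [C.f11_0, C.f11_1, C.f11_2, C.f22_4, C.f22_6, C.f33_7, C.o2, c194_1_1, c195_5_0, c1_1_1, s3]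
  · linarith only [C.a2, C.a4, C.f13_0, C.o2, c0_1_1]

end Pool.Agent.Helper24.TQ
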