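import Pool.Agent.Helper89.TQ.Ctx

set_option autoImplicit false
set_option linter.all false
set_option maxHeartbeats 4000000

namespace Pool.Agent.Helper24.TQ

open Pool.Agent.Helper89.TQ

theorem c0_11_22_33_k1_k_t12 {n1 n2 n3 A1 A2 A3 B1 B2 B3 m11_1 m11_2 m11_3 m13_1 m13_2 m13_3 m22_1 m22_2 m22_3 m23_1 m23_2 m23_3 m33_1 m33_2 m33_3 : ℤ} (C : Ctx0 n1 n2 n3 A1 A2 A3 B1 B2 B3 m11_1 m11_2 m11_3 m13_1 m13_2 m13_3 m22_1 m22_2 m22_3 m23_1 m23_2 m23_3 m33_1 m33_2 m33_3) :
    ((-1) * A1 ≤ -1 ∧ (-1) * A1 + 1 * A2 + (-1) * n2 ≤ -1) ∨ ((-1) * B1 ≤ -1 ∧ (-1) * B1 + 1 * B2 + (-1) * n2 ≤ -1) := by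
  have h := C.t12
  clear C
  omega

theorem c0_11_22_33_k1_k_t23 {n1 n2 n3 A1 A2 A3 B1 B2 B3 m11_1 m11_2 m11_3 m13_1 m13_2 m13_3 m22_1 m22_2 m22_3 m23_1 m23_2 m23_3 m33_1 m33_2 m33_3 : ℤ} (C : Ctx0 n1 n2 n3 A1 A2 A3 B1 B2 B3 m11_1 m11_2 m11_3 m13_1 m13_2 m13_3 m22_1 m22_2 m22_3 m23_1 m23_2 m23_3 m33_1 m33_2 m33_3) :
    (1 * A1 + (-1) * A2 ≤ -1 ∧ (-1) * A2 + 1 * A3 + (-1) * n3 ≤ -1) ∨ (1 * B1 + (-1) * B2 ≤ -1 ∧ (-1) * B2 + 1 * B3 + (-1) * n3 ≤ -1) := by
  have h := C.t23
  clear C
  omega

theorem c0_11_22_33_k1_k_f13_2 {n1 n2 n3 A1 A2 A3 B1 B2 B3 m11_1 m11_2 m11_3 m13_1 m13_2 m13_3 m22_1 m22_2 m22_3 m23_1 m23_2 m23_3 m33_1 m33_2 m33_3 : ℤ} (C : Ctx0 n1 n2 n3 A1 A2 A3 B1 B2 B3 m11_1 m11_2 m11_3 m13_1 m13_2 m13_3 m22_1 m22_2 m22_3 m23_1 m23_2 m23_3 m33_1 m33_2 m33_3) :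
    ((-1) * A1 + 1 * m13_1 ≤ -1 ∧ 1 * A1 + (-1) * m13_1 ≤ 1) ∨ ((-1) * B3 + 1 * m13_1 ≤ -1 ∧ 1 * B3 + (-1) * m13_1 ≤ 1) := by
  have h := C.f13_2
  clear C
  omega

theorem c0_11_22_33_k1_k_f13_5 {n1 n2 n3 A1 A2 A3 B1 B2 B3 m11_1 m11_2 m11_3 m13_1 m13_2 m13_3 m22_1 m22_2 m22_3 m23_1 m23_2 m23_3 m33_1 m33_2 m33_3 : ℤ} (C : Ctx0 n1 n2 n3 A1 A2 A3 B1 B2 B3 m11_1 m11_2 m11_3 m13_1 m13_2 m13_3 m22_1 m22_2 m22_3 m23_1 m23_2 m23_3 m33_1 m33_2 m33_3) :
    ((-1) * m13_1 + 1 * m13_2 + (-1) * n2 ≤ 0 ∧ 1 * m13_1 + (-1) * m13_2 + 1 * n2 ≤ 0) ∨ ((-1) * B3 + 1 * m13_2 ≤ -1 ∧ 1 * B3 + (-1) * m13_2 ≤ 1) := by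
  have h := C.f13_5
  clear C
  omega

theorem c0_11_22_33_k1_k_f13_8 {n1 n2 n3 A1 A2 A3 B1 B2 B3 m11_1 m11_2 m11_3 m13_1 m13_2 m13_3 m22_1 m22_2 m22_3 m23_1 m23_2 m23_3 m33_1 m33_2 m33_3 : ℤ} (C : Ctx0 n1 n2 n3 A1 A2 A3 B1 B2 B3 m11_1 m11_2 m11_3 m13_1 m13_2 m13_3 m22_1 m22_2 m22_3 m23_1 m23_2 m23_3 m33_1 m33_2 m33_3) :
    ((-1) * m13_2 + 1 * m13_3 + (-1) * n3 ≤ 0 ∧ 1 * m13_2 + (-1) * m13_3 + 1 * n3 ≤ 0) ∨ ((-1) * B3 + 1 * m13_3 ≤ -1 ∧ 1 * B3 + (-1) * m13_3 ≤ 1) := by
  have h := C.f13_8
  clear C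
  omega

theorem c0_11_22_33_k1_k_f22_2 {n1 n2 n3 A1 A2 A3 B1 B2 B3 m11_1 m11_2 m11_3 m13_1 m13_2 m13_3 m22_1 m22_2 m22_3 m23_1 m23_2 m23_3 m33_1 m33_2 m33_3 : ℤ} (C : Ctx0 n1 n2 n3 A1 A2 A3 B1 B2 B3 m11_1 m11_2 m11_3 m13_1 m13_2 m13_3 m22_1 m22_2 m22_3 m23_1 m23_2 m23_3 m33_1 m33_2 m33_3) :
    (1 * m22_1 + (-1) * n1 ≤ 0 ∧ (-1) * m22_1 + 1 * n1 ≤ 0) ∨ ((-1) * B2 + 1 * m22_1 ≤ -1 ∧ 1 * B2 + (-1) * m22_1 ≤ 1) := by
  have h := C.f22_2
  clear C
  omega

theorem c0_11_22_33_k1_k_f22_5 {n1 n2 n3 A1 A2 A3 B1 B2 B3 m11_1 m11_2 m11_3 m13_1 m13_2 m13_3 m22_1 m22_2 m22_3 m23_1 m23_2 m23_3 m33_1 m33_2 m33_3 : ℤ} (C : Ctx0 n1 n2 n3 A1 A2 A3 B1 B2 B3 m11_1 m11_2 m11_3 m13_1 m13_2 m13_3 m22_1 m22_2 m22_3 m23_1 m23_2 m23_3 m33_1 m33_2 m33_3) :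
    ((-1) * m22_1 + 1 * m22_2 + (-1) * n2 ≤ 0 ∧ 1 * m22_1 + (-1) * m22_2 + 1 * n2 ≤ 0) ∨ ((-1) * B2 + 1 * m22_2 ≤ -1 ∧ 1 * B2 + (-1) * m22_2 ≤ 1) := by
  have h := C.f22_5
  clear C
  omega

theorem c0_11_22_33_k1_k_f23_3 {n1 n2 n3 A1 A2 A3 B1 B2 B3 m11_1 m11_2 m11_3 m13_1 m13_2 m13_3 m22_1 m22_2 m22_3 m23_1 m23_2 m23_3 m33_1 m33_2 m33_3 : ℤ} (C : Ctx0 n1 n2 n3 A1 A2 A3 B1 B2 B3 m11_1 m11_2 m11_3 m13_1 m13_2 m13_3 m22_1 m22_2 m22_3 m23_1 m23_2 m23_3 m33_1 m33_2 m33_3) :
    (1 * m23_1 + (-1) * n1 ≤ 0 ∧ (-1) * m23_1 + 1 * n1 ≤ 0) ∨ ((-1) * A2 + 1 * m23_1 ≤ -1 ∧ 1 * A2 + (-1) * m23_1 ≤ 1) ∨ ((-1) * B3 + 1 * m23_1 ≤ -1 ∧ 1 * B3 + (-1) * m23_1 ≤ 1) := by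
  have h := C.f23_3
  clear C
  omega

theorem c0_11_22_33_k1_k_f23_7 {n1 n2 n3 A1 A2 A3 B1 B2 B3 m11_1 m11_2 m11_3 m13_1 m13_2 m13_3 m22_1 m22_2 m22_3 m23_1 m23_2 m23_3 m33_1 m33_2 m33_3 : ℤ} (C : Ctx0 n1 n2 n3 A1 A2 A3 B1 B2 B3 m11_1 m11_2 m11_3 m13_1 m13_2 m13_3 m22_1 m22_2 m22_3 m23_1 m23_2 m23_3 m33_1 m33_2 m33_3) :
    ((-1) * m23_1 + 1 * m23_2 + (-1) * n2 ≤ 0 ∧ 1 * m23_1 + (-1) * m23_2 + 1 * n2 ≤ 0) ∨ ((-1) * A2 + 1 * m23_2 ≤ -1 ∧ 1 * A2 + (-1) * m23_2 ≤ 1) ∨ ((-1) * B3 + 1 * m23_2 ≤ -1 ∧ 1 * B3 + (-1) * m23_2 ≤ 1) := by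
  have h := C.f23_7
  clear C
  omega

theorem c0_11_22_33_k1_k_f23_10 {n1 n2 n3 A1 A2 A3 B1 B2 B3 m11_1 m11_2 m11_3 m13_1 m13_2 m13_3 m22_1 m22_2 m22_3 m23_1 m23_2 m23_3 m33_1 m33_2 m33_3 : ℤ} (C : Ctx0 n1 n2 n3 A1 A2 A3 B1 B2 B3 m11_1 m11_2 m11_3 m13_1 m13_2 m13_3 m22_1 m22_2 m22_3 m23_1 m23_2 m23_3 m33_1 m33_2 m33_3) :
    ((-1) * m23_2 + 1 * m23_3 + (-1) * n3 ≤ 0 ∧ 1 * m23_2 + (-1) * m23_3 + 1 * n3 ≤ 0) ∨ ((-1) * B3 + 1 * m23_3 ≤ -1 ∧ 1 * B3 + (-1) * m23_3 ≤ 1) := by
  have h := C.f23_10
  clear C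
  omega

theorem c0_11_22_33_k1_k_f33_2 {n1 n2 n3 A1 A2 A3 B1 B2 B3 m11_1 m11_2 m11_3 m13_1 m13_2 m13_3 m22_1 m22_2 m22_3 m23_1 m23_2 m23_3 m33_1 m33_2 m33_3 : ℤ} (C : Ctx0 n1 n2 n3 A1 A2 A3 B1 B2 B3 m11_1 m11_2 m11_3 m13_1 m13_2 m13_3 m22_1 m22_2 m22_3 m23_1 m23_2 m23_3 m33_1 m33_2 m33_3) :
    (1 * m33_1 + (-1) * n1 ≤ 0 ∧ (-1) * m33_1 + 1 * n1 ≤ 0) ∨ ((-1) * A3 + 1 * m33_1 ≤ -1 ∧ 1 * A3 + (-1) * m33_1 ≤ 1) := by
  have h := C.f33_2
  clear C
  omega

theorem c0_11_22_33_k1_k_f33_5 {n1 n2 n3 A1 A2 A3 B1 B2 B3 m11_1 m11_2 m11_3 m13_1 m13_2 m13_3 m22_1 m22_2 m22_3 m23_1 m23_2 m23_3 m33_1 m33_2 m33_3 : ℤ} (C : Ctx0 n1 n2 n3 A1 A2 A3 B1 B2 B3 m11_1 m11_2 m11_3 m13_1 m13_2 m13_3 m22_1 m22_2 m22_3 m23_1 m23_2 m23_3 m33_1 m33_2 m33_3) :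
    ((-1) * m33_1 + 1 * m33_2 + (-1) * n2 ≤ 0 ∧ 1 * m33_1 + (-1) * m33_2 + 1 * n2 ≤ 0) ∨ ((-1) * A3 + 1 * m33_2 ≤ -1 ∧ 1 * A3 + (-1) * m33_2 ≤ 1) := by
  have h := C.f33_5
  clear C
  omega

theorem c0_11_22_33_k1_k_f33_8 {n1 n2 n3 A1 A2 A3 B1 B2 B3 m11_1 m11_2 m11_3 m13_1 m13_2 m13_3 m22_1 m22_2 m22_3 m23_1 m23_2 m23_3 m33_1 m33_2 m33_3 : ℤ} (C : Ctx0 n1 n2 n3 A1 A2 A3 B1 B2 B3 m11_1 m11_2 m11_3 m13_1 m13_2 m13_3 m22_1 m22_2 m22_3 m23_1 m23_2 m23_3 m33_1 m33_2 m33_3) :
    ((-1) * m33_2 + 1 * m33_3 + (-1) * n3 ≤ 0 ∧ 1 * m33_2 + (-1) * m33_3 + 1 * n3 ≤ 0) ∨ ((-1) * A3 + 1 * m33_3 ≤ -1 ∧ 1 * A3 + (-1) * m33_3 ≤ 1) := by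
  have h := C.f33_8
  clear C
  omega

theorem c0_11_22_33_k1_k_p11_13B {n1 n2 n3 A1 A2 A3 B1 B2 B3 m11_1 m11_2 m11_3 m13_1 m13_2 m13_3 m22_1 m22_2 m22_3 m23_1 m23_2 m23_3 m33_1 m33_2 m33_3 : ℤ} (C : Ctx0 n1 n2 n3 A1 A2 A3 B1 B2 B3 m11_1 m11_2 m11_3 m13_1 m13_2 m13_3 m22_1 m22_2 m22_3 m23_1 m23_2 m23_3 m33_1 m33_2 m33_3) :
    (1 * B1 ≤ 0) ∨ (1 * A1 ≤ 0) ∨ (1 * B3 ≤ 0) ∨ ((-2) * B1 + 1 * m11_1 + 1 * m13_1 ≤ -1) ∨ ((-2) * B2 + 1 * m11_2 + 1 * m13_2 ≤ -1) ∨ ((-2) * B3 + 1 * m11_3 + 1 * m13_3 ≤ -1) := by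
  have h := C.p11_13B
  clear C
  omega

theorem c0_11_22_33_k1_k_p11_22B {n1 n2 n3 A1 A2 A3 B1 B2 B3 m11_1 m11_2 m11_3 m13_1 m13_2 m13_3 m22_1 m22_2 m22_3 m23_1 m23_2 m23_3 m33_1 m33_2 m33_3 : ℤ} (C : Ctx0 n1 n2 n3 A1 A2 A3 B1 B2 B3 m11_1 m11_2 m11_3 m13_1 m13_2 m13_3 m22_1 m22_2 m22_3 m23_1 m23_2 m23_3 m33_1 m33_2 m33_3) :
    (1 * B1 ≤ 0) ∨ (1 * B2 ≤ 0) ∨ ((-2) * B1 + 1 * m11_1 + 1 * m22_1 ≤ -1) ∨ ((-2) * B2 + 1 * m11_2 + 1 * m22_2 ≤ -1) ∨ ((-2) * B3 + 1 * m11_3 + 1 * m22_3 ≤ -1) := by
  have h := C.p11_22B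
  clear C
  omega

theorem c0_11_22_33_k1_k_p11_23B {n1 n2 n3 A1 A2 A3 B1 B2 B3 m11_1 m11_2 m11_3 m13_1 m13_2 m13_3 m22_1 m22_2 m22_3 m23_1 m23_2 m23_3 m33_1 m33_2 m33_3 : ℤ} (C : Ctx0 n1 n2 n3 A1 A2 A3 B1 B2 B3 m11_1 m11_2 m11_3 m13_1 m13_2 m13_3 m22_1 m22_2 m22_3 m23_1 m23_2 m23_3 m33_1 m33_2 m33_3) :
    (1 * B1 ≤ 0) ∨ (1 * A2 ≤ 0) ∨ (1 * B3 ≤ 0) ∨ ((-2) * B1 + 1 * m11_1 + 1 * m23_1 ≤ -1) ∨ ((-2) * B2 + 1 * m11_2 + 1 * m23_2 ≤ -1) ∨ ((-2) * B3 + 1 * m11_3 + 1 * m23_3 ≤ -1) := by
  have h := C.p11_23B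
  clear C
  omega

theorem c0_11_22_33_k1_k_p11_33A {n1 n2 n3 A1 A2 A3 B1 B2 B3 m11_1 m11_2 m11_3 m13_1 m13_2 m13_3 m22_1 m22_2 m22_3 m23_1 m23_2 m23_3 m33_1 m33_2 m33_3 : ℤ} (C : Ctx0 n1 n2 n3 A1 A2 A3 B1 B2 B3 m11_1 m11_2 m11_3 m13_1 m13_2 m13_3 m22_1 m22_2 m22_3 m23_1 m23_2 m23_3 m33_1 m33_2 m33_3) :
    (1 * B1 ≤ 0) ∨ (1 * A3 ≤ 0) ∨ ((-2) * A1 + 1 * m11_1 + 1 * m33_1 ≤ -1) ∨ ((-2) * A2 + 1 * m11_2 + 1 * m33_2 ≤ -1) ∨ ((-2) * A3 + 1 * m11_3 + 1 * m33_3 ≤ -1) := by
  have h := C.p11_33A
  clear C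
  omega

theorem c0_11_22_33_k1_k_p11_33B {n1 n2 n3 A1 A2 A3 B1 B2 B3 m11_1 m11_2 m11_3 m13_1 m13_2 m13_3 m22_1 m22_2 m22_3 m23_1 m23_2 m23_3 m33_1 m33_2 m33_3 : ℤ} (C : Ctx0 n1 n2 n3 A1 A2 A3 B1 B2 B3 m11_1 m11_2 m11_3 m13_1 m13_2 m13_3 m22_1 m22_2 m22_3 m23_1 m23_2 m23_3 m33_1 m33_2 m33_3) :
    (1 * B1 ≤ 0) ∨ (1 * A3 ≤ 0) ∨ ((-2) * B1 + 1 * m11_1 + 1 * m33_1 ≤ -1) ∨ ((-2) * B2 + 1 * m11_2 + 1 * m33_2 ≤ -1) ∨ ((-2) * B3 + 1 * m11_3 + 1 * m33_3 ≤ -1) := by
  have h := C.p11_33B
  clear C
  omega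

theorem c0_11_22_33_k1_k_p13_33A {n1 n2 n3 A1 A2 A3 B1 B2 B3 m11_1 m11_2 m11_3 m13_1 m13_2 m13_3 m22_1 m22_2 m22_3 m23_1 m23_2 m23_3 m33_1 m33_2 m33_3 : ℤ} (C : Ctx0 n1 n2 n3 A1 A2 A3 B1 B2 B3 m11_1 m11_2 m11_3 m13_1 m13_2 m13_3 m22_1 m22_2 m22_3 m23_1 m23_2 m23_3 m33_1 m33_2 m33_3) :
    (1 * A1 ≤ 0) ∨ (1 * B3 ≤ 0) ∨ (1 * A3 ≤ 0) ∨ ((-2) * A1 + 1 * m13_1 + 1 * m33_1 ≤ -1) ∨ ((-2) * A2 + 1 * m13_2 + 1 * m33_2 ≤ -1) ∨ ((-2) * A3 + 1 * m13_3 + 1 * m33_3 ≤ -1) := by
  have h := C.p13_33A
  clear C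
  omega

theorem c0_11_22_33_k1_k_p22_33A {n1 n2 n3 A1 A2 A3 B1 B2 B3 m11_1 m11_2 m11_3 m13_1 m13_2 m13_3 m22_1 m22_2 m22_3 m23_1 m23_2 m23_3 m33_1 m33_2 m33_3 : ℤ} (C : Ctx0 n1 n2 n3 A1 A2 A3 B1 B2 B3 m11_1 m11_2 m11_3 m13_1 m13_2 m13_3 m22_1 m22_2 m22_3 m23_1 m23_2 m23_3 m33_1 m33_2 m33_3) :
    (1 * B2 ≤ 0) ∨ (1 * A3 ≤ 0) ∨ ((-2) * A1 + 1 * m22_1 + 1 * m33_1 ≤ -1) ∨ ((-2) * A2 + 1 * m22_2 + 1 * m33_2 ≤ -1) ∨ ((-2) * A3 + 1 * m22_3 + 1 * m33_3 ≤ -1) := by
  have h := C.p22_33A
  clear C
  omega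

theorem c0_11_22_33_k1_k_tzmp {n1 n2 n3 A1 A2 A3 B1 B2 B3 m11_1 m11_2 m11_3 m13_1 m13_2 m13_3 m22_1 m22_2 m22_3 m23_1 m23_2 m23_3 m33_1 m33_2 m33_3 : ℤ} (C : Ctx0 n1 n2 n3 A1 A2 A3 B1 B2 B3 m11_1 m11_2 m11_3 m13_1 m13_2 m13_3 m22_1 m22_2 m22_3 m23_1 m23_2 m23_3 m33_1 m33_2 m33_3) :
    (1 * A1 + (-1) * A2 + 1 * n2 ≤ 0) ∨ ((-1) * A2 + 1 * A3 ≤ 1) ∨ ((-1) * B1 + 1 * B2 ≤ 0) ∨ (1 * B2 + (-1) * B3 + 1 * n3 ≤ 1) := by
  have h := C.tzmp
  clear C
  omega

theorem c0_11_22_33_k1 {n1 n2 n3 A1 A2 A3 B1 B2 B3 m11_1 m11_2 m11_3 m13_1 m13_2 m13_3 m22_1 m22_2 m22_3 m23_1 m23_2 m23_3 m33_1 m33_2 m33_3 : ℤ}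
    (C : Ctx0 n1 n2 n3 A1 A2 A3 B1 B2 B3 m11_1 m11_2 m11_3 m13_1 m13_2 m13_3 m22_1 m22_2 m22_3 m23_1 m23_2 m23_3 m33_1 m33_2 m33_3)
    (e0 : 0 < B1)
    (e1 : 0 < B2)
    (e2 : 0 < A3)
    (s1 : 1 * A1 + 2 * B1 ≤ m11_1 + m22_1 + m33_1)
    (s2 : 1 * A2 + 2 * B2 ≤ m11_2 + m22_2 + m33_2)
    (s3 : 1 * A3 + 2 * B3 ≤ m11_3 + m22_3 + m33_3) : False := by
  rcases c0_11_22_33_k1_k_f13_2 C with ⟨c0_0_0, c0_0_1⟩ | ⟨c0_1_0, c0_1_1⟩
  · rcases c0_11_22_33_k1_k_t12 C with ⟨c1_0_0, c1_0_1⟩ | ⟨c1_1_0, c1_1_1⟩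
    · rcases c0_11_22_33_k1_k_t23 C with ⟨c2_0_0, c2_0_1⟩ | ⟨c2_1_0, c2_1_1⟩
      · rcases c0_11_22_33_k1_k_f13_5 C with ⟨c3_0_0, c3_0_1⟩ | ⟨c3_1_0, c3_1_1⟩
        · rcases c0_11_22_33_k1_k_f13_8 C with ⟨c4_0_0, c4_0_1⟩ | ⟨c4_1_0, c4_1_1⟩
          · linarith only [C.f11_0, C.f11_1, C.f11_2, C.f13_7, C.f22_4, C.f22_6, C.f33_7, C.o0, C.o1, c0_0_1, c1_0_1, c3_0_1, c4_0_1, s3]
          · rcases c0_11_22_33_k1_k_f22_2 C with ⟨c5_0_0, c5_0_1⟩ | ⟨c5_1_0, c5_1_1⟩
            · rcases c0_11_22_33_k1_k_f22_5 C with ⟨c6_0_0, c6_0_1⟩ | ⟨c6_1_0, c6_1_1⟩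
              · linarith only [C.a1, C.f22_4, C.o1, c1_0_1, c5_0_1, c6_0_1]
              · rcases c0_11_22_33_k1_k_p11_22B C with c7_0_0 | c7_1_0 | c7_2_0 | c7_3_0 | c7_4_0
                · linarith only [c7_0_0, e0]
                · linarith only [c7_1_0, e1]
                · linarith only [C.a1, C.f11_0, C.o0, c5_0_1, c7_2_0]
                · rcases c0_11_22_33_k1_k_f33_2 C with ⟨c8_0_0, c8_0_1⟩ | ⟨c8_1_0, c8_1_1⟩
                  · rcases c0_11_22_33_k1_k_f33_8 C with ⟨c9_0_0, c9_0_1⟩ | ⟨c9_1_0, c9_1_1⟩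
                    · linarith only [C.f11_2, C.f22_6, C.f33_7, C.o1, C.o2, c7_3_0, c9_0_1, s2, s3]
                    · rcases c0_11_22_33_k1_k_p22_33A C with c12_0_0 | c12_1_0 | c12_2_0 | c12_3_0 | c12_4_0
                      · linarith only [c12_0_0, e1]
                      · linarith only [c12_1_0, e2]
                      · linarith only [C.a1, c12_2_0, c5_0_1, c8_0_1]
                      · rcases c0_11_22_33_k1_k_f23_3 C with ⟨c13_0_0, c13_0_1⟩ | ⟨c13_1_0, c13_1_1⟩ | ⟨c13_2_0, c13_2_1⟩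
                        · rcases c0_11_22_33_k1_k_f23_7 C with ⟨c14_0_0, c14_0_1⟩ | ⟨c14_1_0, c14_1_1⟩ | ⟨c14_2_0, c14_2_1⟩
                          · linarith only [C.a1, C.f23_5, c13_0_1, c14_0_1, c1_0_1]
                          · rcases c0_11_22_33_k1_k_f23_10 C with ⟨c15_0_0, c15_0_1⟩ | ⟨c15_1_0, c15_1_1⟩
                            · linarith only [C.f11_2, C.f22_6, C.f23_9, C.f33_7, C.o1, c14_1_1, c15_0_1, c7_3_0, s3]
                            · rcases c0_11_22_33_k1_k_p11_13B C with c16_0_0 | c16_1_0 | c16_2_0 | c16_3_0 | c16_4_0 | c16_5_0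
                              · linarith only [c16_0_0, e0]
                              · linarith only [c16_1_0, c1_0_0]
                              · linarith only [C.o2, c16_2_0, e2]
                              · rcases c0_11_22_33_k1_k_p11_23B C with c17_0_0 | c17_1_0 | c17_2_0 | c17_3_0 | c17_4_0 | c17_5_0
                                · linarith only [c17_0_0, e0]
                                · linarith only [c17_1_0, c1_0_0, c2_0_0]
                                · linarith only [C.o2, c17_2_0, e2]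
                                · linarith only [C.a1, C.f11_0, C.o0, c13_0_1, c17_3_0]
                                · linarith only [c12_3_0, c14_1_1, c17_4_0, s2]
                                · linarith only [C.f11_0, C.f11_1, C.f11_2, C.f22_4, C.f22_6, C.f33_7, c0_0_1, c12_3_0, c15_1_1, c16_3_0, c17_5_0, c1_0_1, s2, s3]
                              · linarith only [c0_0_1, c12_3_0, c16_4_0, c1_0_1, c3_0_1, s2]
                              · linarith only [C.b3, C.f11_0, C.f11_1, C.f11_2, C.f22_4, C.f22_6, C.f33_7, c16_5_0, c4_1_1, s3]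
                          · linarith only [C.f13_4, C.f23_5, c0_0_1, c14_2_1, c1_0_1, c3_0_1]
                        · linarith only [C.f22_1, C.f23_0, c12_3_0, c13_1_1, c5_0_1, c6_1_1, c7_3_0, s2]
                        · linarith only [C.f22_1, C.f23_0, C.f33_4, C.o2, c12_3_0, c13_2_1, c5_0_1, c6_1_1, c7_3_0, s2]
                      · linarith only [C.f11_2, C.f22_6, C.o2, c12_4_0, c6_1_1, c7_3_0, c9_1_1, s3]
                  · linarith only [C.f22_1, C.f33_0, C.f33_4, C.o1, c5_0_1, c7_3_0, c8_1_1, s2]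
                · linarith only [C.f33_7, c7_4_0, s3]
            · rcases c0_11_22_33_k1_k_f22_5 C with ⟨c18_0_0, c18_0_1⟩ | ⟨c18_1_0, c18_1_1⟩
              · linarith only [C.f22_4, c18_0_1, c1_0_1, c2_0_0, c5_1_1]
              · rcases c0_11_22_33_k1_k_f23_3 C with ⟨c19_0_0, c19_0_1⟩ | ⟨c19_1_0, c19_1_1⟩ | ⟨c19_2_0, c19_2_1⟩
                · rcases c0_11_22_33_k1_k_f23_7 C with ⟨c20_0_0, c20_0_1⟩ | ⟨c20_1_0, c20_1_1⟩ | ⟨c20_2_0, c20_2_1⟩
                  · linarith only [C.a1, C.f23_5, c19_0_1, c1_0_1, c20_0_1]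
                  · rcases c0_11_22_33_k1_k_f23_10 C with ⟨c21_0_0, c21_0_1⟩ | ⟨c21_1_0, c21_1_1⟩
                    · rcases c0_11_22_33_k1_k_p11_22B C with c25_0_0 | c25_1_0 | c25_2_0 | c25_3_0 | c25_4_0
                      · linarith only [c25_0_0, e0]
                      · linarith only [c25_1_0, e1]
                      · linarith only [C.b5, C.f11_0, C.f23_9, C.o0, c20_1_1, c21_0_1, c25_2_0, c2_0_0, c5_1_1]
                      · linarith only [C.f11_2, C.f22_6, C.f23_9, C.f33_7, C.o1, c20_1_1, c21_0_1, c25_3_0, s3]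
                      · linarith only [C.f33_7, c25_4_0, s3]
                    · rcases c0_11_22_33_k1_k_p11_23B C with c26_0_0 | c26_1_0 | c26_2_0 | c26_3_0 | c26_4_0 | c26_5_0
                      · linarith only [c26_0_0, e0]
                      · linarith only [C.o1, c26_1_0, e1]
                      · linarith only [C.o2, c26_2_0, e2]
                      · linarith only [C.a1, C.f11_0, C.o0, c19_0_1, c26_3_0]
                      · rcases c0_11_22_33_k1_k_f33_2 C with ⟨c27_0_0, c27_0_1⟩ | ⟨c27_1_0, c27_1_1⟩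
                        · rcases c0_11_22_33_k1_k_f33_8 C with ⟨c28_0_0, c28_0_1⟩ | ⟨c28_1_0, c28_1_1⟩
                          · linarith only [C.f11_2, C.f22_4, C.f22_6, C.f33_7, C.o1, C.o2, c20_1_1, c26_4_0, c28_0_1, s2, s3]
                          · rcases c0_11_22_33_k1_k_p22_33A C with c33_0_0 | c33_1_0 | c33_2_0 | c33_3_0 | c33_4_0
                            · linarith only [c33_0_0, e1]
                            · linarith only [c33_1_0, e2]
                            · rcases c0_11_22_33_k1_k_p11_13B C with c34_0_0 | c34_1_0 | c34_2_0 | c34_3_0 | c34_4_0 | c34_5_0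
                              · linarith only [c34_0_0, e0]
                              · linarith only [c1_0_0, c34_1_0]
                              · linarith only [C.o2, c34_2_0, e2]
                              · linarith only [C.a1, C.f11_0, C.f11_1, C.f22_4, C.f23_1, C.f33_3, c0_0_1, c19_0_1, c20_1_1, c26_4_0, c27_0_1, c33_2_0, c34_3_0, c5_1_1, s2]
                              · linarith only [C.a1, C.f22_4, C.f23_1, C.f33_3, c0_0_1, c19_0_1, c33_2_0, c34_4_0, c3_0_1, c5_1_1, s2]
                              · linarith only [C.b3, C.f11_0, C.f11_1, C.f11_2, C.f22_4, C.f22_6, C.f33_7, c34_5_0, c4_1_1, s3]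
                            · linarith only [c20_1_1, c26_4_0, c33_3_0, s2]
                            · linarith only [C.f11_2, C.f22_6, C.o1, C.o2, c18_1_1, c20_1_1, c26_4_0, c28_1_1, c33_4_0, s3]
                        · linarith only [C.f22_4, C.f23_1, C.f33_0, C.f33_4, C.o1, c19_0_1, c20_1_1, c26_4_0, c27_1_1, s2]
                      · linarith only [C.b3, C.f11_0, C.f11_1, C.f11_2, C.f22_4, C.f22_6, C.f33_7, c21_1_1, c26_5_0, s3]
                  · linarith only [C.f13_4, C.f23_5, c0_0_1, c1_0_1, c20_2_1, c3_0_1]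
                · rcases c0_11_22_33_k1_k_f23_7 C with ⟨c35_0_0, c35_0_1⟩ | ⟨c35_1_0, c35_1_1⟩ | ⟨c35_2_0, c35_2_1⟩
                  · linarith only [C.f23_5, c19_1_1, c1_0_1, c2_0_0, c35_0_1]
                  · rcases c0_11_22_33_k1_k_f23_10 C with ⟨c36_0_0, c36_0_1⟩ | ⟨c36_1_0, c36_1_1⟩
                    · rcases c0_11_22_33_k1_k_p11_22B C with c40_0_0 | c40_1_0 | c40_2_0 | c40_3_0 | c40_4_0
                      · linarith only [c40_0_0, e0]
                      · linarith only [c40_1_0, e1]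
                      · linarith only [C.b5, C.f11_0, C.f23_9, C.o0, c2_0_0, c35_1_1, c36_0_1, c40_2_0, c5_1_1]
                      · linarith only [C.f11_2, C.f22_6, C.f23_9, C.f33_7, C.o1, c35_1_1, c36_0_1, c40_3_0, s3]
                      · linarith only [C.f33_7, c40_4_0, s3]
                    · rcases c0_11_22_33_k1_k_p11_23B C with c41_0_0 | c41_1_0 | c41_2_0 | c41_3_0 | c41_4_0 | c41_5_0
                      · linarith only [c41_0_0, e0]
                      · linarith only [c1_0_0, c2_0_0, c41_1_0]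
                      · linarith only [C.o2, c41_2_0, e2]
                      · linarith only [C.f11_0, C.o0, c19_1_1, c2_0_0, c41_3_0]
                      · rcases c0_11_22_33_k1_k_f33_8 C with ⟨c42_0_0, c42_0_1⟩ | ⟨c42_1_0, c42_1_1⟩
                        · linarith only [C.f22_4, C.f23_8, C.f33_7, C.o1, C.o2, c36_1_1, c41_4_0, c42_0_1, s2]
                        · rcases c0_11_22_33_k1_k_p22_33A C with c46_0_0 | c46_1_0 | c46_2_0 | c46_3_0 | c46_4_0
                          · linarith only [c46_0_0, e1]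
                          · linarith only [c46_1_0, e2]
                          · rcases c0_11_22_33_k1_k_f33_2 C with ⟨c47_0_0, c47_0_1⟩ | ⟨c47_1_0, c47_1_1⟩
                            · rcases c0_11_22_33_k1_k_p11_13B C with c48_0_0 | c48_1_0 | c48_2_0 | c48_3_0 | c48_4_0 | c48_5_0
                              · linarith only [c48_0_0, e0]
                              · linarith only [c1_0_0, c48_1_0]
                              · linarith only [C.o2, c48_2_0, e2]
                              · linarith only [C.a1, C.f11_0, C.f11_1, C.f22_4, C.f33_3, c0_0_1, c2_0_0, c35_1_1, c41_4_0, c46_2_0, c47_0_1, c48_3_0, c5_1_1, s2]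
                              · linarith only [C.f22_4, C.f33_3, c0_0_1, c2_0_0, c3_0_1, c46_2_0, c48_4_0, c5_1_1, s2]
                              · linarith only [C.b3, C.f11_0, C.f11_1, C.f11_2, C.f22_4, C.f22_6, C.f33_7, c48_5_0, c4_1_1, s3]
                            · linarith only [C.f22_4, C.f33_4, c2_0_0, c35_1_1, c41_4_0, c46_2_0, c47_1_1, c5_1_1, s2]
                          · linarith only [c35_1_1, c41_4_0, c46_3_0, s2]
                          · linarith only [C.f11_2, C.f22_6, C.o1, C.o2, c18_1_1, c35_1_1, c41_4_0, c42_1_1, c46_4_0, s3]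
                      · linarith only [C.b3, C.f11_0, C.f11_1, C.f11_2, C.f22_4, C.f22_6, C.f33_7, c36_1_1, c41_5_0, s3]
                  · linarith only [C.f13_4, C.f23_5, c0_0_1, c1_0_1, c35_2_1, c3_0_1]
                · linarith only [C.f13_4, C.f23_1, c0_0_1, c19_2_1, c1_0_1, c3_0_1]
        · rcases c0_11_22_33_k1_k_f13_8 C with ⟨c49_0_0, c49_0_1⟩ | ⟨c49_1_0, c49_1_1⟩
          · linarith only [C.a4, C.f13_7, c2_0_1, c3_1_1, c49_0_1]
          · rcases c0_11_22_33_k1_k_p11_13B C with c50_0_0 | c50_1_0 | c50_2_0 | c50_3_0 | c50_4_0 | c50_5_0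
            · linarith only [c50_0_0, e0]
            · linarith only [c1_0_0, c50_1_0]
            · linarith only [C.o2, c50_2_0, e2]
            · rcases c0_11_22_33_k1_k_f22_2 C with ⟨c51_0_0, c51_0_1⟩ | ⟨c51_1_0, c51_1_1⟩
              · rcases c0_11_22_33_k1_k_f22_5 C with ⟨c52_0_0, c52_0_1⟩ | ⟨c52_1_0, c52_1_1⟩
                · linarith only [C.a1, C.a4, C.f13_0, C.f13_3, C.f22_4, C.o1, C.o2, c3_1_1, c51_0_1, c52_0_1]
                · rcases c0_11_22_33_k1_k_p11_22B C with c53_0_0 | c53_1_0 | c53_2_0 | c53_3_0 | c53_4_0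
                  · linarith only [c53_0_0, e0]
                  · linarith only [c53_1_0, e1]
                  · linarith only [C.a1, C.f11_0, C.o0, c51_0_1, c53_2_0]
                  · linarith only [C.f11_0, C.f11_1, C.f13_3, C.f33_4, C.o1, C.o2, c3_1_1, c50_3_0, c52_1_1, c53_3_0, s2]
                  · linarith only [C.f33_7, c53_4_0, s3]
              · rcases c0_11_22_33_k1_k_f22_5 C with ⟨c54_0_0, c54_0_1⟩ | ⟨c54_1_0, c54_1_1⟩
                · linarith only [C.f22_4, c1_0_1, c2_0_0, c51_1_1, c54_0_1]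
                · rcases c0_11_22_33_k1_k_p11_22B C with c55_0_0 | c55_1_0 | c55_2_0 | c55_3_0 | c55_4_0
                  · linarith only [c55_0_0, e0]
                  · linarith only [c55_1_0, e1]
                  · rcases c0_11_22_33_k1_k_f33_5 C with ⟨c56_0_0, c56_0_1⟩ | ⟨c56_1_0, c56_1_1⟩
                    · linarith only [C.f13_0, C.f13_3, C.f33_4, C.o2, c3_1_1, c55_2_0, c56_0_1, s1]
                    · rcases c0_11_22_33_k1_k_f33_8 C with ⟨c57_0_0, c57_0_1⟩ | ⟨c57_1_0, c57_1_1⟩
                      · linarith only [C.a4, C.f33_7, c2_0_1, c56_1_1, c57_0_1]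
                      · rcases c0_11_22_33_k1_k_p11_33B C with c58_0_0 | c58_1_0 | c58_2_0 | c58_3_0 | c58_4_0
                        · linarith only [c58_0_0, e0]
                        · linarith only [c58_1_0, e2]
                        · linarith only [C.f11_0, C.o0, c55_2_0, c58_2_0, s1]
                        · linarith only [C.f11_0, C.f22_4, C.o0, c2_0_0, c51_1_1, c55_2_0, c58_3_0, s2]
                        · rcases c0_11_22_33_k1_k_p13_33A C with c61_0_0 | c61_1_0 | c61_2_0 | c61_3_0 | c61_4_0 | c61_5_0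
                          · linarith only [c1_0_0, c61_0_0]
                          · linarith only [C.f11_0, C.f11_1, C.f11_2, C.f13_0, C.f13_3, C.f22_4, C.f22_6, C.f33_1, C.o0, c3_1_1, c51_1_1, c55_2_0, c57_1_1, c58_4_0, c61_1_0, e0, s1, s3]
                          · linarith only [c61_2_0, e2]
                          · linarith only [c0_0_1, c55_2_0, c61_3_0, s1]
                          · linarith only [C.a4, C.f11_0, C.f11_1, C.f11_2, C.f13_0, C.f13_3, C.f22_4, C.f22_6, C.f33_1, c3_1_1, c51_1_1, c55_2_0, c56_1_1, c57_1_1, c58_4_0, c61_4_0, s1, s3]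
                          · linarith only [C.f11_0, C.f11_1, C.f11_2, C.f13_0, C.f13_3, C.f22_4, C.f22_6, C.f33_1, c3_1_1, c49_1_1, c51_1_1, c55_2_0, c57_1_1, c58_4_0, c61_5_0, s1, s3]
                  · linarith only [C.f11_0, C.f11_1, C.f13_3, C.f33_4, C.o1, C.o2, c3_1_1, c50_3_0, c54_1_1, c55_3_0, s2]
                  · linarith only [C.f33_7, c55_4_0, s3]
            · linarith only [C.f22_4, C.f33_4, C.o1, C.o2, c3_1_1, c50_4_0, s2]
            · linarith only [C.b3, C.f11_0, C.f11_1, C.f11_2, C.f22_4, C.f22_6, C.f33_7, c49_1_1, c50_5_0, s3]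
      · rcases c0_11_22_33_k1_k_f13_5 C with ⟨c62_0_0, c62_0_1⟩ | ⟨c62_1_0, c62_1_1⟩
        · rcases c0_11_22_33_k1_k_f13_8 C with ⟨c63_0_0, c63_0_1⟩ | ⟨c63_1_0, c63_1_1⟩
          · linarith only [C.f13_7, C.o1, c0_0_1, c1_0_1, c2_1_1, c62_0_1, c63_0_1]
          · rcases c0_11_22_33_k1_k_f22_2 C with ⟨c64_0_0, c64_0_1⟩ | ⟨c64_1_0, c64_1_1⟩
            · rcases c0_11_22_33_k1_k_f22_5 C with ⟨c65_0_0, c65_0_1⟩ | ⟨c65_1_0, c65_1_1⟩
              · linarith only [C.a1, C.f22_4, C.o1, c1_0_1, c64_0_1, c65_0_1]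
              · rcases c0_11_22_33_k1_k_p11_22B C with c66_0_0 | c66_1_0 | c66_2_0 | c66_3_0 | c66_4_0
                · linarith only [c66_0_0, e0]
                · linarith only [c66_1_0, e1]
                · linarith only [C.a1, C.f11_0, C.o0, c64_0_1, c66_2_0]
                · rcases c0_11_22_33_k1_k_f33_2 C with ⟨c67_0_0, c67_0_1⟩ | ⟨c67_1_0, c67_1_1⟩
                  · rcases c0_11_22_33_k1_k_f33_8 C with ⟨c68_0_0, c68_0_1⟩ | ⟨c68_1_0, c68_1_1⟩
                    · linarith only [C.f11_2, C.f22_6, C.f33_7, C.o1, C.o2, c66_3_0, c68_0_1, s2, s3]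
                    · rcases c0_11_22_33_k1_k_p22_33A C with c71_0_0 | c71_1_0 | c71_2_0 | c71_3_0 | c71_4_0
                      · linarith only [c71_0_0, e1]
                      · linarith only [c71_1_0, e2]
                      · linarith only [C.a1, c64_0_1, c67_0_1, c71_2_0]
                      · rcases c0_11_22_33_k1_k_f23_3 C with ⟨c72_0_0, c72_0_1⟩ | ⟨c72_1_0, c72_1_1⟩ | ⟨c72_2_0, c72_2_1⟩
                        · rcases c0_11_22_33_k1_k_f23_7 C with ⟨c73_0_0, c73_0_1⟩ | ⟨c73_1_0, c73_1_1⟩ | ⟨c73_2_0, c73_2_1⟩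
                          · linarith only [C.a1, C.f23_5, c1_0_1, c72_0_1, c73_0_1]
                          · rcases c0_11_22_33_k1_k_f23_10 C with ⟨c74_0_0, c74_0_1⟩ | ⟨c74_1_0, c74_1_1⟩
                            · linarith only [C.f11_2, C.f22_6, C.f23_9, C.f33_7, C.o1, c66_3_0, c73_1_1, c74_0_1, s3]
                            · rcases c0_11_22_33_k1_k_p11_13B C with c75_0_0 | c75_1_0 | c75_2_0 | c75_3_0 | c75_4_0 | c75_5_0
                              · linarith only [c75_0_0, e0]
                              · linarith only [c1_0_0, c75_1_0]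
                              · linarith only [C.o2, c75_2_0, e2]
                              · rcases c0_11_22_33_k1_k_p11_23B C with c76_0_0 | c76_1_0 | c76_2_0 | c76_3_0 | c76_4_0 | c76_5_0
                                · linarith only [c76_0_0, e0]
                                · linarith only [C.a2, c1_0_0, c76_1_0]
                                · linarith only [C.o2, c76_2_0, e2]
                                · linarith only [C.a1, C.f11_0, C.o0, c72_0_1, c76_3_0]
                                · linarith only [c71_3_0, c73_1_1, c76_4_0, s2]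
                                · linarith only [C.f11_0, C.f11_1, C.f11_2, C.f22_4, C.f22_6, C.f33_7, c0_0_1, c1_0_1, c71_3_0, c74_1_1, c75_3_0, c76_5_0, s2, s3]
                              · linarith only [c0_0_1, c1_0_1, c62_0_1, c71_3_0, c75_4_0, s2]
                              · linarith only [C.b3, C.f11_0, C.f11_1, C.f11_2, C.f22_4, C.f22_6, C.f33_7, c63_1_1, c75_5_0, s3]
                          · linarith only [C.f13_4, C.f23_5, c0_0_1, c1_0_1, c62_0_1, c73_2_1]
                        · linarith only [C.f22_1, C.f23_0, c64_0_1, c65_1_1, c66_3_0, c71_3_0, c72_1_1, s2]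
                        · linarith only [C.f22_1, C.f23_0, C.f33_4, C.o2, c64_0_1, c65_1_1, c66_3_0, c71_3_0, c72_2_1, s2]
                      · linarith only [C.f11_2, C.f22_6, C.o2, c65_1_1, c66_3_0, c68_1_1, c71_4_0, s3]
                  · linarith only [C.f22_1, C.f33_0, C.f33_4, C.o1, c64_0_1, c66_3_0, c67_1_1, s2]
                · linarith only [C.f33_7, c66_4_0, s3]
            · rcases c0_11_22_33_k1_k_f22_5 C with ⟨c77_0_0, c77_0_1⟩ | ⟨c77_1_0, c77_1_1⟩
              · linarith only [C.a2, C.f22_4, c1_0_1, c64_1_1, c77_0_1]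
              · rcases c0_11_22_33_k1_k_f23_3 C with ⟨c78_0_0, c78_0_1⟩ | ⟨c78_1_0, c78_1_1⟩ | ⟨c78_2_0, c78_2_1⟩
                · rcases c0_11_22_33_k1_k_f23_7 C with ⟨c79_0_0, c79_0_1⟩ | ⟨c79_1_0, c79_1_1⟩ | ⟨c79_2_0, c79_2_1⟩
                  · linarith only [C.a1, C.f23_5, c1_0_1, c78_0_1, c79_0_1]
                  · rcases c0_11_22_33_k1_k_f23_10 C with ⟨c80_0_0, c80_0_1⟩ | ⟨c80_1_0, c80_1_1⟩
                    · linarith only [C.f23_9, C.o1, c2_1_1, c79_1_1, c80_0_1]
                    · rcases c0_11_22_33_k1_k_p11_23B C with c81_0_0 | c81_1_0 | c81_2_0 | c81_3_0 | c81_4_0 | c81_5_0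
                      · linarith only [c81_0_0, e0]
                      · linarith only [C.o1, c81_1_0, e1]
                      · linarith only [C.o2, c81_2_0, e2]
                      · linarith only [C.a1, C.f11_0, C.o0, c78_0_1, c81_3_0]
                      · rcases c0_11_22_33_k1_k_f33_2 C with ⟨c82_0_0, c82_0_1⟩ | ⟨c82_1_0, c82_1_1⟩
                        · rcases c0_11_22_33_k1_k_f33_8 C with ⟨c83_0_0, c83_0_1⟩ | ⟨c83_1_0, c83_1_1⟩
                          · linarith only [C.f11_2, C.f22_4, C.f22_6, C.f33_7, C.o1, C.o2, c79_1_1, c81_4_0, c83_0_1, s2, s3]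
                          · rcases c0_11_22_33_k1_k_p22_33A C with c88_0_0 | c88_1_0 | c88_2_0 | c88_3_0 | c88_4_0
                            · linarith only [c88_0_0, e1]
                            · linarith only [c88_1_0, e2]
                            · rcases c0_11_22_33_k1_k_p11_13B C with c89_0_0 | c89_1_0 | c89_2_0 | c89_3_0 | c89_4_0 | c89_5_0
                              · linarith only [c89_0_0, e0]
                              · linarith only [c1_0_0, c89_1_0]
                              · linarith only [C.o2, c89_2_0, e2]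
                              · linarith only [C.a1, C.f11_0, C.f11_1, C.f22_4, C.f23_1, C.f33_3, c0_0_1, c64_1_1, c78_0_1, c79_1_1, c81_4_0, c82_0_1, c88_2_0, c89_3_0, s2]
                              · linarith only [C.a1, C.f22_4, C.f23_1, C.f33_3, c0_0_1, c62_0_1, c64_1_1, c78_0_1, c88_2_0, c89_4_0, s2]
                              · linarith only [C.b3, C.f11_0, C.f11_1, C.f11_2, C.f22_4, C.f22_6, C.f33_7, c63_1_1, c89_5_0, s3]
                            · linarith only [c79_1_1, c81_4_0, c88_3_0, s2]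
                            · linarith only [C.f11_2, C.f22_6, C.o1, C.o2, c77_1_1, c79_1_1, c81_4_0, c83_1_1, c88_4_0, s3]
                        · linarith only [C.f22_4, C.f23_1, C.f33_0, C.f33_4, C.o1, c78_0_1, c79_1_1, c81_4_0, c82_1_1, s2]
                      · linarith only [C.b3, C.f11_0, C.f11_1, C.f11_2, C.f22_4, C.f22_6, C.f33_7, c80_1_1, c81_5_0, s3]
                  · linarith only [C.f13_4, C.f23_5, c0_0_1, c1_0_1, c62_0_1, c79_2_1]
                · rcases c0_11_22_33_k1_k_f23_7 C with ⟨c90_0_0, c90_0_1⟩ | ⟨c90_1_0, c90_1_1⟩ | ⟨c90_2_0, c90_2_1⟩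
                  · linarith only [C.a2, C.f23_5, c1_0_1, c78_1_1, c90_0_1]
                  · rcases c0_11_22_33_k1_k_f23_10 C with ⟨c91_0_0, c91_0_1⟩ | ⟨c91_1_0, c91_1_1⟩
                    · linarith only [C.f23_9, C.o1, c2_1_1, c90_1_1, c91_0_1]
                    · rcases c0_11_22_33_k1_k_f33_2 C with ⟨c92_0_0, c92_0_1⟩ | ⟨c92_1_0, c92_1_1⟩
                      · rcases c0_11_22_33_k1_k_p11_33B C with c93_0_0 | c93_1_0 | c93_2_0 | c93_3_0 | c93_4_0
                        · linarith only [c93_0_0, e0]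
                        · linarith only [c93_1_0, e2]
                        · linarith only [C.a1, C.f11_0, C.o0, c92_0_1, c93_2_0]
                        · linarith only [C.f22_4, C.o1, c93_3_0, s2]
                        · rcases c0_11_22_33_k1_k_f33_8 C with ⟨c94_0_0, c94_0_1⟩ | ⟨c94_1_0, c94_1_1⟩
                          · linarith only [C.f11_2, C.f22_4, C.f23_5, C.f23_8, c2_1_1, c91_1_1, c93_4_0, c94_0_1, s2]
                          · rcases c0_11_22_33_k1_k_f33_5 C with ⟨c96_0_0, c96_0_1⟩ | ⟨c96_1_0, c96_1_1⟩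
                            · rcases c0_11_22_33_k1_k_tzmp C with c99_0_0 | c99_1_0 | c99_2_0 | c99_3_0
                              · linarith only [c1_0_1, c99_0_0]
                              · linarith only [C.a1, C.f33_4, c1_0_1, c92_0_1, c96_0_1, c99_1_0]
                              · linarith only [c2_1_0, c99_2_0]
                              · rcases c0_11_22_33_k1_k_p11_13B C with c100_0_0 | c100_1_0 | c100_2_0 | c100_3_0 | c100_4_0 | c100_5_0
                                · linarith only [c100_0_0, e0]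
                                · linarith only [c100_1_0, c1_0_0]
                                · linarith only [C.f11_0, C.f11_1, C.f11_2, C.f22_1, C.f22_4, C.f22_6, C.f33_4, C.f33_7, C.o0, C.o2, c100_2_0, c96_0_1, c99_3_0, e0, s1, s3]
                                · rcases c0_11_22_33_k1_k_p22_33A C with c104_0_0 | c104_1_0 | c104_2_0 | c104_3_0 | c104_4_0
                                  · linarith only [c104_0_0, e1]
                                  · linarith only [c104_1_0, e2]
                                  · linarith only [c0_0_1, c100_3_0, c104_2_0, s1]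
                                  · rcases c0_11_22_33_k1_k_p11_23B C with c106_0_0 | c106_1_0 | c106_2_0 | c106_3_0 | c106_4_0 | c106_5_0
                                    · linarith only [c106_0_0, e0]
                                    · linarith only [C.f11_0, C.f22_1, c104_3_0, c106_1_0, c1_0_1, c77_1_1, c96_0_1, e0, s1]
                                    · linarith only [C.f11_0, C.f11_1, C.f11_2, C.f22_1, C.f23_0, C.f33_4, c0_0_1, c100_3_0, c104_3_0, c106_2_0, c1_0_1, c2_1_1, c77_1_1, c78_1_1, c92_0_1, c93_4_0, c94_1_1, c96_0_1, e0, s1]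
                                    · linarith only [C.f22_1, c104_3_0, c106_3_0, c1_0_1, c77_1_1, c78_1_1, c96_0_1, s1]
                                    · linarith only [C.f11_0, C.f11_1, C.f22_1, C.f23_0, c0_0_1, c100_3_0, c104_3_0, c106_4_0, c1_0_1, c77_1_1, c78_1_1, c90_1_1, c92_0_1, c96_0_1, s1]
                                    · linarith only [C.f11_0, C.f11_1, C.f11_2, C.f22_1, C.f23_0, c0_0_1, c100_3_0, c104_3_0, c106_5_0, c1_0_1, c2_1_1, c77_1_1, c78_1_1, c91_1_1, c92_0_1, c96_0_1, s1]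
                                  · linarith only [C.f22_6, C.o2, c104_4_0, c2_1_1, c77_1_1, c94_1_1]
                                · linarith only [C.f11_0, C.f11_1, C.f11_2, C.f22_4, C.f22_6, C.f33_7, C.o0, c0_0_1, c100_4_0, c62_0_1, c99_3_0, s3]
                                · linarith only [C.f22_4, C.f22_6, C.f33_7, c100_5_0, c63_1_1, c99_3_0, s3]
                            · rcases c0_11_22_33_k1_k_p11_13B C with c108_0_0 | c108_1_0 | c108_2_0 | c108_3_0 | c108_4_0 | c108_5_0
                              · linarith only [c108_0_0, e0]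
                              · linarith only [c108_1_0, c1_0_0]
                              · linarith only [C.o2, c108_2_0, e2]
                              · rcases c0_11_22_33_k1_k_p22_33A C with c109_0_0 | c109_1_0 | c109_2_0 | c109_3_0 | c109_4_0
                                · linarith only [c109_0_0, e1]
                                · linarith only [c109_1_0, e2]
                                · linarith only [c0_0_1, c108_3_0, c109_2_0, s1]
                                · rcases c0_11_22_33_k1_k_p11_23B C with c110_0_0 | c110_1_0 | c110_2_0 | c110_3_0 | c110_4_0 | c110_5_0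
                                  · linarith only [c110_0_0, e0]
                                  · linarith only [c109_3_0, c110_1_0, c2_1_0, c77_1_1, c96_1_1, e0, e2]
                                  · linarith only [C.o2, c110_2_0, e2]
                                  · linarith only [C.f11_0, C.f22_1, C.f33_1, C.o0, c109_3_0, c110_3_0, c77_1_1, c78_1_1, c96_1_1, s1]
                                  · linarith only [c109_3_0, c110_4_0, c90_1_1, s2]
                                  · linarith only [C.f11_0, C.f11_1, C.f11_2, C.f22_4, C.f22_6, C.f33_7, c0_0_1, c108_3_0, c109_3_0, c110_5_0, c1_0_1, c91_1_1, s2, s3]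
                                · linarith only [C.f22_6, C.o2, c109_4_0, c2_1_1, c77_1_1, c94_1_1]
                              · rcases c0_11_22_33_k1_k_p22_33A C with c115_0_0 | c115_1_0 | c115_2_0 | c115_3_0 | c115_4_0
                                · linarith only [c115_0_0, e1]
                                · linarith only [c115_1_0, e2]
                                · linarith only [C.a2, C.f22_4, C.f33_3, c0_0_1, c108_4_0, c115_2_0, c62_0_1, c64_1_1, s2]
                                · linarith only [c0_0_1, c108_4_0, c115_3_0, c1_0_1, c62_0_1, s2]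
                                · linarith only [C.f11_0, C.f11_1, C.f11_2, C.f22_6, C.o0, C.o2, c0_0_1, c108_4_0, c115_4_0, c62_0_1, c77_1_1, c94_1_1, s3]
                              · linarith only [C.b3, C.f11_0, C.f11_1, C.f11_2, C.f22_4, C.f22_6, C.f33_7, c108_5_0, c63_1_1, s3]
                      · rcases c0_11_22_33_k1_k_f33_5 C with ⟨c116_0_0, c116_0_1⟩ | ⟨c116_1_0, c116_1_1⟩
                        · linarith only [C.a2, C.f33_4, c116_0_1, c1_0_1, c92_1_1]
                        · rcases c0_11_22_33_k1_k_f33_8 C with ⟨c117_0_0, c117_0_1⟩ | ⟨c117_1_0, c117_1_1⟩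
                          · linarith only [C.f11_0, C.f11_1, C.f11_2, C.f13_4, C.f22_4, C.f22_6, C.f33_7, C.o0, C.o1, c0_0_1, c116_1_1, c117_0_1, c1_0_1, c62_0_1, s3]
                          · rcases c0_11_22_33_k1_k_p11_33B C with c118_0_0 | c118_1_0 | c118_2_0 | c118_3_0 | c118_4_0
                            · linarith only [c118_0_0, e0]
                            · linarith only [c118_1_0, e2]
                            · linarith only [C.a4, C.f11_0, C.f22_1, C.o0, C.o1, c118_2_0, c92_1_1, s1]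
                            · linarith only [C.f22_4, C.o1, c118_3_0, s2]
                            · rcases c0_11_22_33_k1_k_p11_13B C with c121_0_0 | c121_1_0 | c121_2_0 | c121_3_0 | c121_4_0 | c121_5_0
                              · linarith only [c121_0_0, e0]
                              · linarith only [c121_1_0, c1_0_0]
                              · linarith only [C.a2, C.f11_2, C.f22_4, C.f33_4, C.o0, c117_1_1, c118_4_0, c121_2_0, c2_1_1, e0, s2]
                              · rcases c0_11_22_33_k1_k_p22_33A C with c122_0_0 | c122_1_0 | c122_2_0 | c122_3_0 | c122_4_0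
                                · linarith only [c122_0_0, e1]
                                · linarith only [c122_1_0, e2]
                                · linarith only [c0_0_1, c121_3_0, c122_2_0, s1]
                                · rcases c0_11_22_33_k1_k_p11_23B C with c123_0_0 | c123_1_0 | c123_2_0 | c123_3_0 | c123_4_0 | c123_5_0
                                  · linarith only [c123_0_0, e0]
                                  · linarith only [c116_1_1, c122_3_0, c123_1_0, c2_1_0, c77_1_1, e0, e2]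
                                  · linarith only [C.o2, c123_2_0, e2]
                                  · linarith only [C.f11_0, C.f22_1, C.f33_1, C.o0, c116_1_1, c122_3_0, c123_3_0, c77_1_1, c78_1_1, s1]
                                  · linarith only [c122_3_0, c123_4_0, c90_1_1, s2]
                                  · linarith only [C.f11_0, C.f11_1, C.f11_2, C.f22_4, C.f22_6, C.f33_7, c0_0_1, c121_3_0, c122_3_0, c123_5_0, c1_0_1, c91_1_1, s2, s3]
                                · linarith only [C.f22_6, C.o2, c117_1_1, c122_4_0, c2_1_1, c77_1_1]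
                              · rcases c0_11_22_33_k1_k_p11_33A C with c124_0_0 | c124_1_0 | c124_2_0 | c124_3_0 | c124_4_0
                                · linarith only [c124_0_0, e0]
                                · linarith only [c124_1_0, e2]
                                · linarith only [C.a2, C.b3, C.f11_0, C.f22_4, C.f33_4, c0_0_1, c121_4_0, c124_2_0, c62_0_1, c92_1_1, s2]
                                · linarith only [C.b3, C.f11_0, C.f11_1, C.f22_4, c0_0_1, c121_4_0, c124_3_0, c1_0_1, c62_0_1, s2]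
                                · linarith only [C.b3, C.f11_0, C.f11_1, C.f11_2, C.f22_4, C.f22_6, C.o2, c117_1_1, c124_4_0, s3]
                              · linarith only [C.b3, C.f11_0, C.f11_1, C.f11_2, C.f22_4, C.f22_6, C.f33_7, c121_5_0, c63_1_1, s3]
                  · linarith only [C.f13_4, C.f23_5, c0_0_1, c1_0_1, c62_0_1, c90_2_1]
                · linarith only [C.f13_4, C.f23_1, c0_0_1, c1_0_1, c62_0_1, c78_2_1]
        · rcases c0_11_22_33_k1_k_f13_8 C with ⟨c125_0_0, c125_0_1⟩ | ⟨c125_1_0, c125_1_1⟩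
          · linarith only [C.a4, C.f13_7, C.o1, C.o2, c125_0_1, c2_1_1, c62_1_1]
          · rcases c0_11_22_33_k1_k_p11_13B C with c126_0_0 | c126_1_0 | c126_2_0 | c126_3_0 | c126_4_0 | c126_5_0
            · linarith only [c126_0_0, e0]
            · linarith only [c126_1_0, c1_0_0]
            · linarith only [C.o2, c126_2_0, e2]
            · rcases c0_11_22_33_k1_k_f22_2 C with ⟨c127_0_0, c127_0_1⟩ | ⟨c127_1_0, c127_1_1⟩
              · rcases c0_11_22_33_k1_k_f22_5 C with ⟨c128_0_0, c128_0_1⟩ | ⟨c128_1_0, c128_1_1⟩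
                · linarith only [C.f11_0, C.f11_1, C.f13_0, C.f13_3, C.f22_4, C.f33_0, C.f33_4, C.o1, C.o2, c127_0_1, c128_0_1, c62_1_1, s1, s2]
                · rcases c0_11_22_33_k1_k_p11_22B C with c129_0_0 | c129_1_0 | c129_2_0 | c129_3_0 | c129_4_0
                  · linarith only [c129_0_0, e0]
                  · linarith only [c129_1_0, e1]
                  · linarith only [C.a1, C.f11_0, C.o0, c127_0_1, c129_2_0]
                  · linarith only [C.f11_0, C.f11_1, C.f13_3, C.f33_4, C.o1, C.o2, c126_3_0, c128_1_1, c129_3_0, c62_1_1, s2]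
                  · linarith only [C.f11_0, C.f11_1, C.f11_2, C.f13_3, C.f22_6, C.f33_4, C.o1, C.o2, c126_3_0, c128_1_1, c129_4_0, c2_1_1, c62_1_1, s2]
              · rcases c0_11_22_33_k1_k_f22_5 C with ⟨c130_0_0, c130_0_1⟩ | ⟨c130_1_0, c130_1_1⟩
                · linarith only [C.a2, C.f22_4, c127_1_1, c130_0_1, c1_0_1]
                · rcases c0_11_22_33_k1_k_p11_22B C with c131_0_0 | c131_1_0 | c131_2_0 | c131_3_0 | c131_4_0
                  · linarith only [c131_0_0, e0]
                  · linarith only [c131_1_0, e1]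
                  · rcases c0_11_22_33_k1_k_f33_5 C with ⟨c132_0_0, c132_0_1⟩ | ⟨c132_1_0, c132_1_1⟩
                    · linarith only [C.f13_0, C.f13_3, C.f33_4, C.o2, c131_2_0, c132_0_1, c62_1_1, s1]
                    · rcases c0_11_22_33_k1_k_f33_8 C with ⟨c133_0_0, c133_0_1⟩ | ⟨c133_1_0, c133_1_1⟩
                      · linarith only [C.f11_0, C.f33_1, C.f33_7, C.o0, C.o2, c127_1_1, c131_2_0, c132_1_1, c133_0_1, c2_1_1, s1]
                      · rcases c0_11_22_33_k1_k_p11_33B C with c134_0_0 | c134_1_0 | c134_2_0 | c134_3_0 | c134_4_0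
                        · linarith only [c134_0_0, e0]
                        · linarith only [c134_1_0, e2]
                        · linarith only [C.f11_0, C.o0, c131_2_0, c134_2_0, s1]
                        · linarith only [C.f11_0, C.f11_1, C.f13_0, C.f13_3, C.f33_1, C.o0, C.o2, c127_1_1, c131_2_0, c132_1_1, c134_3_0, c62_1_1, s1]
                        · linarith only [C.f11_0, C.f11_1, C.f11_2, C.f13_0, C.f13_3, C.f33_1, c127_1_1, c131_2_0, c133_1_1, c134_4_0, c2_1_1, c62_1_1, s1]
                  · linarith only [C.f11_0, C.f11_1, C.f13_3, C.f33_4, C.o1, C.o2, c126_3_0, c130_1_1, c131_3_0, c62_1_1, s2]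
                  · linarith only [C.f11_0, C.f11_1, C.f11_2, C.f13_3, C.f22_6, C.f33_4, C.o1, C.o2, c126_3_0, c130_1_1, c131_4_0, c2_1_1, c62_1_1, s2]
            · linarith only [C.f22_4, C.f33_4, C.o1, C.o2, c126_4_0, c62_1_1, s2]
            · linarith only [C.b3, C.f11_0, C.f11_1, C.f11_2, C.f22_4, C.f22_6, C.f33_7, c125_1_1, c126_5_0, s3]
    · rcases c0_11_22_33_k1_k_t23 C with ⟨c135_0_0, c135_0_1⟩ | ⟨c135_1_0, c135_1_1⟩
      · rcases c0_11_22_33_k1_k_f13_5 C with ⟨c136_0_0, c136_0_1⟩ | ⟨c136_1_0, c136_1_1⟩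
        · rcases c0_11_22_33_k1_k_f13_8 C with ⟨c137_0_0, c137_0_1⟩ | ⟨c137_1_0, c137_1_1⟩
          · linarith only [C.a3, C.f11_0, C.f11_1, C.f11_2, C.f13_7, C.f22_4, C.f22_6, C.f33_7, C.o0, C.o1, c0_0_1, c136_0_1, c137_0_1, s3]
          · rcases c0_11_22_33_k1_k_p11_13B C with c138_0_0 | c138_1_0 | c138_2_0 | c138_3_0 | c138_4_0 | c138_5_0
            · linarith only [c138_0_0, e0]
            · linarith only [C.o0, c138_1_0, e0]
            · linarith only [C.o2, c138_2_0, e2]
            · rcases c0_11_22_33_k1_k_f22_2 C with ⟨c139_0_0, c139_0_1⟩ | ⟨c139_1_0, c139_1_1⟩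
              · rcases c0_11_22_33_k1_k_f22_5 C with ⟨c140_0_0, c140_0_1⟩ | ⟨c140_1_0, c140_1_1⟩
                · linarith only [C.a1, C.a3, C.f22_4, C.o1, c139_0_1, c140_0_1]
                · rcases c0_11_22_33_k1_k_p11_22B C with c141_0_0 | c141_1_0 | c141_2_0 | c141_3_0 | c141_4_0
                  · linarith only [c141_0_0, e0]
                  · linarith only [c141_1_0, e1]
                  · linarith only [C.a1, C.f11_0, C.o0, c139_0_1, c141_2_0]
                  · rcases c0_11_22_33_k1_k_f33_2 C with ⟨c142_0_0, c142_0_1⟩ | ⟨c142_1_0, c142_1_1⟩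
                    · rcases c0_11_22_33_k1_k_f33_8 C with ⟨c143_0_0, c143_0_1⟩ | ⟨c143_1_0, c143_1_1⟩
                      · linarith only [C.f11_2, C.f22_6, C.f33_7, C.o1, C.o2, c141_3_0, c143_0_1, s2, s3]
                      · rcases c0_11_22_33_k1_k_p22_33A C with c147_0_0 | c147_1_0 | c147_2_0 | c147_3_0 | c147_4_0
                        · linarith only [c147_0_0, e1]
                        · linarith only [c147_1_0, e2]
                        · linarith only [C.a1, c139_0_1, c142_0_1, c147_2_0]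
                        · rcases c0_11_22_33_k1_k_f23_3 C with ⟨c148_0_0, c148_0_1⟩ | ⟨c148_1_0, c148_1_1⟩ | ⟨c148_2_0, c148_2_1⟩
                          · rcases c0_11_22_33_k1_k_f23_7 C with ⟨c149_0_0, c149_0_1⟩ | ⟨c149_1_0, c149_1_1⟩ | ⟨c149_2_0, c149_2_1⟩
                            · linarith only [C.a1, C.a3, C.f23_5, c148_0_1, c149_0_1]
                            · rcases c0_11_22_33_k1_k_f23_10 C with ⟨c150_0_0, c150_0_1⟩ | ⟨c150_1_0, c150_1_1⟩
                              · linarith only [C.f11_2, C.f22_6, C.f23_9, C.f33_7, c140_1_1, c141_3_0, c147_3_0, c149_1_1, c150_0_1, s2, s3]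
                              · rcases c0_11_22_33_k1_k_p11_23B C with c151_0_0 | c151_1_0 | c151_2_0 | c151_3_0 | c151_4_0 | c151_5_0
                                · linarith only [c151_0_0, e0]
                                · linarith only [C.a0, c135_0_0, c151_1_0]
                                · linarith only [C.o2, c151_2_0, e2]
                                · linarith only [C.a1, C.f11_0, C.o0, c148_0_1, c151_3_0]
                                · linarith only [c147_3_0, c149_1_1, c151_4_0, s2]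
                                · linarith only [C.a3, C.f11_0, C.f11_1, C.f11_2, C.f22_4, C.f22_6, C.f33_7, c0_0_1, c138_3_0, c147_3_0, c150_1_1, c151_5_0, s2, s3]
                            · linarith only [C.a4, C.f23_5, C.o2, c149_2_1]
                          · linarith only [C.f22_1, C.f23_0, c139_0_1, c140_1_1, c141_3_0, c147_3_0, c148_1_1, s2]
                          · linarith only [C.f22_1, C.f23_0, C.f33_4, C.o2, c139_0_1, c140_1_1, c141_3_0, c147_3_0, c148_2_1, s2]
                        · linarith only [C.f11_2, C.f22_6, C.o2, c140_1_1, c141_3_0, c143_1_1, c147_4_0, s3]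
                    · linarith only [C.f22_1, C.f33_0, C.f33_4, C.o1, c139_0_1, c141_3_0, c142_1_1, s2]
                  · linarith only [C.f33_7, c141_4_0, s3]
              · rcases c0_11_22_33_k1_k_f22_5 C with ⟨c152_0_0, c152_0_1⟩ | ⟨c152_1_0, c152_1_1⟩
                · linarith only [C.a3, C.f22_4, c135_0_0, c139_1_1, c152_0_1]
                · rcases c0_11_22_33_k1_k_f23_3 C with ⟨c153_0_0, c153_0_1⟩ | ⟨c153_1_0, c153_1_1⟩ | ⟨c153_2_0, c153_2_1⟩
                  · rcases c0_11_22_33_k1_k_f23_7 C with ⟨c154_0_0, c154_0_1⟩ | ⟨c154_1_0, c154_1_1⟩ | ⟨c154_2_0, c154_2_1⟩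
                    · linarith only [C.a1, C.a3, C.f23_5, c153_0_1, c154_0_1]
                    · rcases c0_11_22_33_k1_k_f23_10 C with ⟨c156_0_0, c156_0_1⟩ | ⟨c156_1_0, c156_1_1⟩
                      · rcases c0_11_22_33_k1_k_p11_22B C with c159_0_0 | c159_1_0 | c159_2_0 | c159_3_0 | c159_4_0
                        · linarith only [c159_0_0, e0]
                        · linarith only [c159_1_0, e1]
                        · linarith only [C.b5, C.f11_0, C.f23_9, C.o0, c135_0_0, c139_1_1, c154_1_1, c156_0_1, c159_2_0]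
                        · linarith only [C.f11_2, C.f22_6, C.f23_9, C.f33_7, C.o1, c154_1_1, c156_0_1, c159_3_0, s3]
                        · linarith only [C.f33_7, c159_4_0, s3]
                      · rcases c0_11_22_33_k1_k_p11_23B C with c160_0_0 | c160_1_0 | c160_2_0 | c160_3_0 | c160_4_0 | c160_5_0
                        · linarith only [c160_0_0, e0]
                        · linarith only [C.o0, c135_0_0, c160_1_0, e0]
                        · linarith only [C.o2, c160_2_0, e2]
                        · linarith only [C.a1, C.f11_0, C.o0, c153_0_1, c160_3_0]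
                        · rcases c0_11_22_33_k1_k_f33_2 C with ⟨c161_0_0, c161_0_1⟩ | ⟨c161_1_0, c161_1_1⟩
                          · rcases c0_11_22_33_k1_k_f33_8 C with ⟨c162_0_0, c162_0_1⟩ | ⟨c162_1_0, c162_1_1⟩
                            · linarith only [C.f22_4, C.f23_8, C.f33_7, C.o1, C.o2, c156_1_1, c160_4_0, c162_0_1, s2]
                            · rcases c0_11_22_33_k1_k_p22_33A C with c172_0_0 | c172_1_0 | c172_2_0 | c172_3_0 | c172_4_0
                              · linarith only [c172_0_0, e1]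
                              · linarith only [c172_1_0, e2]
                              · linarith only [C.a1, C.f11_0, C.f11_1, c135_0_0, c139_1_1, c154_1_1, c160_4_0, c161_0_1, c172_2_0, c1_1_1]
                              · linarith only [c154_1_1, c160_4_0, c172_3_0, s2]
                              · linarith only [C.f11_2, C.f22_6, C.o1, C.o2, c152_1_1, c154_1_1, c160_4_0, c162_1_1, c172_4_0, s3]
                          · linarith only [C.f22_4, C.f23_1, C.f33_0, C.f33_4, C.o1, c153_0_1, c154_1_1, c160_4_0, c161_1_1, s2]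
                        · linarith only [C.f11_0, C.f11_1, C.f11_2, C.f22_4, C.f22_6, C.f33_7, c156_1_1, c160_5_0, c1_1_1, s3]
                    · linarith only [C.a4, C.f23_5, C.o2, c154_2_1]
                  · rcases c0_11_22_33_k1_k_f23_7 C with ⟨c173_0_0, c173_0_1⟩ | ⟨c173_1_0, c173_1_1⟩ | ⟨c173_2_0, c173_2_1⟩
                    · linarith only [C.a3, C.f23_5, c135_0_0, c153_1_1, c173_0_1]
                    · rcases c0_11_22_33_k1_k_f23_10 C with ⟨c175_0_0, c175_0_1⟩ | ⟨c175_1_0, c175_1_1⟩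
                      · rcases c0_11_22_33_k1_k_p11_22B C with c178_0_0 | c178_1_0 | c178_2_0 | c178_3_0 | c178_4_0
                        · linarith only [c178_0_0, e0]
                        · linarith only [c178_1_0, e1]
                        · linarith only [C.b5, C.f11_0, C.f23_9, C.o0, c135_0_0, c139_1_1, c173_1_1, c175_0_1, c178_2_0]
                        · linarith only [C.f11_2, C.f22_6, C.f23_9, C.f33_7, C.o1, c173_1_1, c175_0_1, c178_3_0, s3]
                        · linarith only [C.f33_7, c178_4_0, s3]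
                      · rcases c0_11_22_33_k1_k_p11_23B C with c179_0_0 | c179_1_0 | c179_2_0 | c179_3_0 | c179_4_0 | c179_5_0
                        · linarith only [c179_0_0, e0]
                        · linarith only [C.a0, c135_0_0, c179_1_0]
                        · linarith only [C.o2, c179_2_0, e2]
                        · linarith only [C.f11_0, C.o0, c135_0_0, c153_1_1, c179_3_0]
                        · rcases c0_11_22_33_k1_k_f33_8 C with ⟨c180_0_0, c180_0_1⟩ | ⟨c180_1_0, c180_1_1⟩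
                          · linarith only [C.f22_4, C.f23_8, C.f33_7, C.o1, C.o2, c175_1_1, c179_4_0, c180_0_1, s2]
                          · rcases c0_11_22_33_k1_k_p11_33A C with c183_0_0 | c183_1_0 | c183_2_0 | c183_3_0 | c183_4_0
                            · linarith only [c183_0_0, e0]
                            · linarith only [c183_1_0, e2]
                            · rcases c0_11_22_33_k1_k_f33_2 C with ⟨c184_0_0, c184_0_1⟩ | ⟨c184_1_0, c184_1_1⟩
                              · rcases c0_11_22_33_k1_k_p22_33A C with c191_0_0 | c191_1_0 | c191_2_0 | c191_3_0 | c191_4_0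
                                · linarith only [c191_0_0, e1]
                                · linarith only [c191_1_0, e2]
                                · linarith only [C.a1, C.f11_0, C.f11_1, c135_0_0, c139_1_1, c173_1_1, c179_4_0, c184_0_1, c191_2_0, c1_1_1]
                                · linarith only [c173_1_1, c179_4_0, c191_3_0, s2]
                                · linarith only [C.f11_2, C.f22_6, C.o1, C.o2, c152_1_1, c173_1_1, c179_4_0, c180_1_1, c191_4_0, s3]
                              · linarith only [C.f11_0, C.f22_4, C.f33_4, C.o1, c0_0_1, c135_0_0, c138_3_0, c173_1_1, c179_4_0, c183_2_0, c184_1_1, s2]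
                            · linarith only [C.f11_0, C.f11_1, C.f22_4, c173_1_1, c179_4_0, c183_3_0, c1_1_1, s2]
                            · linarith only [C.f11_0, C.f11_1, C.f11_2, C.f22_4, C.f22_6, C.o2, c180_1_1, c183_4_0, c1_1_1, s3]
                        · linarith only [C.f11_0, C.f11_1, C.f11_2, C.f22_4, C.f22_6, C.f33_7, c175_1_1, c179_5_0, c1_1_1, s3]
                    · linarith only [C.a4, C.f23_5, C.o2, c173_2_1]
                  · linarith only [C.a4, C.f23_1, C.o2, c153_2_1]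
            · linarith only [C.f11_0, C.f11_1, C.o0, c0_0_1, c136_0_1, c138_4_0, c1_1_1]
            · linarith only [C.f11_0, C.f11_1, C.f11_2, C.f22_4, C.f22_6, C.f33_7, c137_1_1, c138_5_0, c1_1_1, s3]
        · rcases c0_11_22_33_k1_k_f13_8 C with ⟨c192_0_0, c192_0_1⟩ | ⟨c192_1_0, c192_1_1⟩
          · linarith only [C.a4, C.f13_7, c135_0_1, c136_1_1, c192_0_1]
          · rcases c0_11_22_33_k1_k_p11_13B C with c193_0_0 | c193_1_0 | c193_2_0 | c193_3_0 | c193_4_0 | c193_5_0
            · linarith only [c193_0_0, e0]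
            · linarith only [C.o0, c193_1_0, e0]
            · linarith only [C.o2, c193_2_0, e2]
            · rcases c0_11_22_33_k1_k_f22_2 C with ⟨c194_0_0, c194_0_1⟩ | ⟨c194_1_0, c194_1_1⟩
              · rcases c0_11_22_33_k1_k_f22_5 C with ⟨c195_0_0, c195_0_1⟩ | ⟨c195_1_0, c195_1_1⟩
                · linarith only [C.a1, C.a4, C.f13_0, C.f13_3, C.f22_4, C.o1, C.o2, c136_1_1, c194_0_1, c195_0_1]
                · rcases c0_11_22_33_k1_k_p11_22B C with c196_0_0 | c196_1_0 | c196_2_0 | c196_3_0 | c196_4_0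
                  · linarith only [c196_0_0, e0]
                  · linarith only [c196_1_0, e1]
                  · linarith only [C.a1, C.f11_0, C.o0, c194_0_1, c196_2_0]
                  · linarith only [C.f11_0, C.f11_1, C.f13_3, C.f33_4, C.o1, C.o2, c136_1_1, c193_3_0, c195_1_1, c196_3_0, s2]
                  · linarith only [C.f33_7, c196_4_0, s3]
              · rcases c0_11_22_33_k1_k_f22_5 C with ⟨c197_0_0, c197_0_1⟩ | ⟨c197_1_0, c197_1_1⟩
                · linarith only [C.a3, C.f22_4, c135_0_0, c194_1_1, c197_0_1]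
                · rcases c0_11_22_33_k1_k_p11_22B C with c198_0_0 | c198_1_0 | c198_2_0 | c198_3_0 | c198_4_0
                  · linarith only [c198_0_0, e0]
                  · linarith only [c198_1_0, e1]
                  · rcases c0_11_22_33_k1_k_f33_5 C with ⟨c199_0_0, c199_0_1⟩ | ⟨c199_1_0, c199_1_1⟩
                    · linarith only [C.f13_0, C.f13_3, C.f33_4, C.o2, c136_1_1, c198_2_0, c199_0_1, s1]
                    · rcases c0_11_22_33_k1_k_f33_8 C with ⟨c200_0_0, c200_0_1⟩ | ⟨c200_1_0, c200_1_1⟩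
                      · linarith only [C.a4, C.f33_7, c135_0_1, c199_1_1, c200_0_1]
                      · rcases c0_11_22_33_k1_k_p11_33B C with c201_0_0 | c201_1_0 | c201_2_0 | c201_3_0 | c201_4_0
                        · linarith only [c201_0_0, e0]
                        · linarith only [c201_1_0, e2]
                        · linarith only [C.f11_0, C.o0, c198_2_0, c201_2_0, s1]
                        · linarith only [C.f11_0, C.f22_4, C.o0, c135_0_0, c194_1_1, c198_2_0, c201_3_0, s2]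
                        · rcases c0_11_22_33_k1_k_p13_33A C with c204_0_0 | c204_1_0 | c204_2_0 | c204_3_0 | c204_4_0 | c204_5_0
                          · linarith only [C.o0, c204_0_0, e0]
                          · linarith only [C.f11_0, C.f11_1, C.f11_2, C.f13_0, C.f13_3, C.f22_4, C.f22_6, C.f33_1, C.o0, c136_1_1, c194_1_1, c198_2_0, c200_1_1, c201_4_0, c204_1_0, e0, s1, s3]
                          · linarith only [c204_2_0, e2]
                          · linarith only [c0_0_1, c198_2_0, c204_3_0, s1]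
                          · linarith only [C.a4, C.f11_0, C.f11_1, C.f11_2, C.f13_0, C.f13_3, C.f22_4, C.f22_6, C.f33_1, c136_1_1, c194_1_1, c198_2_0, c199_1_1, c200_1_1, c201_4_0, c204_4_0, s1, s3]
                          · linarith only [C.f11_0, C.f11_1, C.f11_2, C.f13_0, C.f13_3, C.f22_4, C.f22_6, C.f33_1, c136_1_1, c192_1_1, c194_1_1, c198_2_0, c200_1_1, c201_4_0, c204_5_0, s1, s3]
                  · linarith only [C.f11_0, C.f11_1, C.f13_3, C.f33_4, C.o1, C.o2, c136_1_1, c193_3_0, c197_1_1, c198_3_0, s2]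
                  · linarith only [C.f33_7, c198_4_0, s3]
            · linarith only [C.f22_4, C.f33_4, C.o1, C.o2, c136_1_1, c193_4_0, s2]
            · linarith only [C.f11_0, C.f11_1, C.f11_2, C.f22_4, C.f22_6, C.f33_7, c192_1_1, c193_5_0, c1_1_1, s3]
      · rcases c0_11_22_33_k1_k_f13_5 C with ⟨c205_0_0, c205_0_1⟩ | ⟨c205_1_0, c205_1_1⟩
        · rcases c0_11_22_33_k1_k_f13_8 C with ⟨c206_0_0, c206_0_1⟩ | ⟨c206_1_0, c206_1_1⟩
          · linarith only [C.a3, C.f13_7, C.o1, c0_0_1, c135_1_1, c205_0_1, c206_0_1]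
          · rcases c0_11_22_33_k1_k_p11_13B C with c207_0_0 | c207_1_0 | c207_2_0 | c207_3_0 | c207_4_0 | c207_5_0
            · linarith only [c207_0_0, e0]
            · linarith only [C.o0, c207_1_0, e0]
            · linarith only [C.o2, c207_2_0, e2]
            · rcases c0_11_22_33_k1_k_f22_2 C with ⟨c208_0_0, c208_0_1⟩ | ⟨c208_1_0, c208_1_1⟩
              · rcases c0_11_22_33_k1_k_f22_5 C with ⟨c209_0_0, c209_0_1⟩ | ⟨c209_1_0, c209_1_1⟩
                · linarith only [C.a1, C.a3, C.f22_4, C.o1, c208_0_1, c209_0_1]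
                · rcases c0_11_22_33_k1_k_p11_22B C with c210_0_0 | c210_1_0 | c210_2_0 | c210_3_0 | c210_4_0
                  · linarith only [c210_0_0, e0]
                  · linarith only [c210_1_0, e1]
                  · linarith only [C.a1, C.f11_0, C.o0, c208_0_1, c210_2_0]
                  · rcases c0_11_22_33_k1_k_f33_2 C with ⟨c211_0_0, c211_0_1⟩ | ⟨c211_1_0, c211_1_1⟩
                    · rcases c0_11_22_33_k1_k_f33_8 C with ⟨c212_0_0, c212_0_1⟩ | ⟨c212_1_0, c212_1_1⟩
                      · linarith only [C.f11_2, C.f22_6, C.f33_7, C.o1, C.o2, c210_3_0, c212_0_1, s2, s3]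
                      · rcases c0_11_22_33_k1_k_p22_33A C with c216_0_0 | c216_1_0 | c216_2_0 | c216_3_0 | c216_4_0
                        · linarith only [c216_0_0, e1]
                        · linarith only [c216_1_0, e2]
                        · linarith only [C.a1, c208_0_1, c211_0_1, c216_2_0]
                        · rcases c0_11_22_33_k1_k_f23_3 C with ⟨c217_0_0, c217_0_1⟩ | ⟨c217_1_0, c217_1_1⟩ | ⟨c217_2_0, c217_2_1⟩
                          · rcases c0_11_22_33_k1_k_f23_7 C with ⟨c218_0_0, c218_0_1⟩ | ⟨c218_1_0, c218_1_1⟩ | ⟨c218_2_0, c218_2_1⟩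
                            · linarith only [C.a1, C.a3, C.f23_5, c217_0_1, c218_0_1]
                            · rcases c0_11_22_33_k1_k_f23_10 C with ⟨c219_0_0, c219_0_1⟩ | ⟨c219_1_0, c219_1_1⟩
                              · linarith only [C.f11_2, C.f22_6, C.f23_9, C.f33_7, c209_1_1, c210_3_0, c216_3_0, c218_1_1, c219_0_1, s2, s3]
                              · rcases c0_11_22_33_k1_k_p11_23B C with c220_0_0 | c220_1_0 | c220_2_0 | c220_3_0 | c220_4_0 | c220_5_0
                                · linarith only [c220_0_0, e0]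
                                · linarith only [C.a2, C.o0, c220_1_0, e0]
                                · linarith only [C.o2, c220_2_0, e2]
                                · linarith only [C.a1, C.f11_0, C.o0, c217_0_1, c220_3_0]
                                · linarith only [c216_3_0, c218_1_1, c220_4_0, s2]
                                · linarith only [C.a3, C.f11_0, C.f11_1, C.f11_2, C.f22_4, C.f22_6, C.f33_7, c0_0_1, c207_3_0, c216_3_0, c219_1_1, c220_5_0, s2, s3]
                            · linarith only [C.a4, C.f23_5, C.o2, c218_2_1]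
                          · linarith only [C.f22_1, C.f23_0, c208_0_1, c209_1_1, c210_3_0, c216_3_0, c217_1_1, s2]
                          · linarith only [C.f22_1, C.f23_0, C.f33_4, C.o2, c208_0_1, c209_1_1, c210_3_0, c216_3_0, c217_2_1, s2]
                        · linarith only [C.f11_2, C.f22_6, C.o2, c209_1_1, c210_3_0, c212_1_1, c216_4_0, s3]
                    · linarith only [C.f22_1, C.f33_0, C.f33_4, C.o1, c208_0_1, c210_3_0, c211_1_1, s2]
                  · linarith only [C.f33_7, c210_4_0, s3]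
              · rcases c0_11_22_33_k1_k_f22_5 C with ⟨c221_0_0, c221_0_1⟩ | ⟨c221_1_0, c221_1_1⟩
                · linarith only [C.f22_4, c135_1_0, c1_1_1, c208_1_1, c221_0_1]
                · rcases c0_11_22_33_k1_k_f23_3 C with ⟨c223_0_0, c223_0_1⟩ | ⟨c223_1_0, c223_1_1⟩ | ⟨c223_2_0, c223_2_1⟩
                  · rcases c0_11_22_33_k1_k_f23_7 C with ⟨c224_0_0, c224_0_1⟩ | ⟨c224_1_0, c224_1_1⟩ | ⟨c224_2_0, c224_2_1⟩
                    · linarith only [C.a1, C.a3, C.f23_5, c223_0_1, c224_0_1]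
                    · rcases c0_11_22_33_k1_k_f23_10 C with ⟨c225_0_0, c225_0_1⟩ | ⟨c225_1_0, c225_1_1⟩
                      · linarith only [C.f23_9, C.o1, c135_1_1, c224_1_1, c225_0_1]
                      · rcases c0_11_22_33_k1_k_p11_23B C with c226_0_0 | c226_1_0 | c226_2_0 | c226_3_0 | c226_4_0 | c226_5_0
                        · linarith only [c226_0_0, e0]
                        · linarith only [C.o1, c226_1_0, e1]
                        · linarith only [C.o2, c226_2_0, e2]
                        · linarith only [C.a1, C.f11_0, C.o0, c223_0_1, c226_3_0]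
                        · rcases c0_11_22_33_k1_k_f33_2 C with ⟨c227_0_0, c227_0_1⟩ | ⟨c227_1_0, c227_1_1⟩
                          · rcases c0_11_22_33_k1_k_f33_8 C with ⟨c228_0_0, c228_0_1⟩ | ⟨c228_1_0, c228_1_1⟩
                            · linarith only [C.f22_4, C.f23_8, C.f33_7, C.o1, C.o2, c225_1_1, c226_4_0, c228_0_1, s2]
                            · rcases c0_11_22_33_k1_k_p22_33A C with c238_0_0 | c238_1_0 | c238_2_0 | c238_3_0 | c238_4_0
                              · linarith only [c238_0_0, e1]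
                              · linarith only [c238_1_0, e2]
                              · linarith only [C.a1, C.f11_0, C.f11_1, C.f23_1, c1_1_1, c208_1_1, c223_0_1, c224_1_1, c226_4_0, c227_0_1, c238_2_0]
                              · linarith only [c224_1_1, c226_4_0, c238_3_0, s2]
                              · linarith only [C.f11_2, C.f22_6, C.o1, C.o2, c221_1_1, c224_1_1, c226_4_0, c228_1_1, c238_4_0, s3]
                          · linarith only [C.f22_4, C.f23_1, C.f33_0, C.f33_4, C.o1, c223_0_1, c224_1_1, c226_4_0, c227_1_1, s2]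
                        · linarith only [C.f11_0, C.f11_1, C.f11_2, C.f22_4, C.f22_6, C.f33_7, c1_1_1, c225_1_1, c226_5_0, s3]
                    · linarith only [C.a4, C.f23_5, C.o2, c224_2_1]
                  · rcases c0_11_22_33_k1_k_f23_7 C with ⟨c239_0_0, c239_0_1⟩ | ⟨c239_1_0, c239_1_1⟩ | ⟨c239_2_0, c239_2_1⟩
                    · linarith only [C.f23_5, c135_1_0, c1_1_1, c223_1_1, c239_0_1]
                    · rcases c0_11_22_33_k1_k_f23_10 C with ⟨c240_0_0, c240_0_1⟩ | ⟨c240_1_0, c240_1_1⟩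
                      · linarith only [C.f23_9, C.o1, c135_1_1, c239_1_1, c240_0_1]
                      · rcases c0_11_22_33_k1_k_f33_2 C with ⟨c242_0_0, c242_0_1⟩ | ⟨c242_1_0, c242_1_1⟩
                        · rcases c0_11_22_33_k1_k_p11_33B C with c243_0_0 | c243_1_0 | c243_2_0 | c243_3_0 | c243_4_0
                          · linarith only [c243_0_0, e0]
                          · linarith only [c243_1_0, e2]
                          · linarith only [C.a1, C.f11_0, C.o0, c242_0_1, c243_2_0]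
                          · linarith only [C.f22_4, C.o1, c243_3_0, s2]
                          · rcases c0_11_22_33_k1_k_f33_8 C with ⟨c244_0_0, c244_0_1⟩ | ⟨c244_1_0, c244_1_1⟩
                            · linarith only [C.f11_2, C.f22_4, C.f23_5, C.f23_8, c135_1_1, c240_1_1, c243_4_0, c244_0_1, s2]
                            · rcases c0_11_22_33_k1_k_p22_33A C with c246_0_0 | c246_1_0 | c246_2_0 | c246_3_0 | c246_4_0
                              · linarith only [c246_0_0, e1]
                              · linarith only [c246_1_0, e2]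
                              · linarith only [c0_0_1, c207_3_0, c246_2_0, s1]
                              · rcases c0_11_22_33_k1_k_p11_23B C with c247_0_0 | c247_1_0 | c247_2_0 | c247_3_0 | c247_4_0 | c247_5_0
                                · linarith only [c247_0_0, e0]
                                · linarith only [C.a2, C.o0, c247_1_0, e0]
                                · linarith only [C.o2, c247_2_0, e2]
                                · rcases c0_11_22_33_k1_k_f33_5 C with ⟨c248_0_0, c248_0_1⟩ | ⟨c248_1_0, c248_1_1⟩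
                                  · linarith only [C.f11_0, C.f11_1, C.f22_1, C.o0, c135_1_0, c221_1_1, c223_1_1, c246_3_0, c247_3_0, c248_0_1, s1, s2]
                                  · linarith only [C.f11_0, C.f22_1, C.f33_1, C.o0, c221_1_1, c223_1_1, c246_3_0, c247_3_0, c248_1_1, s1]
                                · linarith only [c239_1_1, c246_3_0, c247_4_0, s2]
                                · linarith only [C.a3, C.f11_0, C.f11_1, C.f11_2, c0_0_1, c135_1_1, c207_3_0, c240_1_1, c246_3_0, c247_5_0, s2]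
                              · linarith only [C.f22_6, C.o2, c135_1_1, c221_1_1, c244_1_1, c246_4_0]
                        · rcases c0_11_22_33_k1_k_f33_5 C with ⟨c249_0_0, c249_0_1⟩ | ⟨c249_1_0, c249_1_1⟩
                          · linarith only [C.f33_4, c135_1_0, c1_1_1, c242_1_1, c249_0_1]
                          · rcases c0_11_22_33_k1_k_f33_8 C with ⟨c250_0_0, c250_0_1⟩ | ⟨c250_1_0, c250_1_1⟩
                            · linarith only [C.f11_0, C.f11_1, C.f11_2, C.f13_4, C.f22_4, C.f22_6, C.f33_7, C.o0, C.o1, C.o2, c0_0_1, c205_0_1, c249_1_1, c250_0_1, s2, s3]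
                            · rcases c0_11_22_33_k1_k_p11_33B C with c251_0_0 | c251_1_0 | c251_2_0 | c251_3_0 | c251_4_0
                              · linarith only [c251_0_0, e0]
                              · linarith only [c251_1_0, e2]
                              · linarith only [C.a4, C.f11_0, C.f22_1, C.o0, C.o1, c242_1_1, c251_2_0, s1]
                              · linarith only [C.f22_4, C.o1, c251_3_0, s2]
                              · rcases c0_11_22_33_k1_k_p22_33A C with c253_0_0 | c253_1_0 | c253_2_0 | c253_3_0 | c253_4_0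
                                · linarith only [c253_0_0, e1]
                                · linarith only [c253_1_0, e2]
                                · linarith only [c0_0_1, c207_3_0, c253_2_0, s1]
                                · rcases c0_11_22_33_k1_k_p11_23B C with c254_0_0 | c254_1_0 | c254_2_0 | c254_3_0 | c254_4_0 | c254_5_0
                                  · linarith only [c254_0_0, e0]
                                  · linarith only [c135_1_0, c221_1_1, c249_1_1, c253_3_0, c254_1_0, e0, e2]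
                                  · linarith only [C.o2, c254_2_0, e2]
                                  · linarith only [C.f11_0, C.f22_1, C.f33_1, C.o0, c221_1_1, c223_1_1, c249_1_1, c253_3_0, c254_3_0, s1]
                                  · linarith only [c239_1_1, c253_3_0, c254_4_0, s2]
                                  · linarith only [C.a3, C.f11_0, C.f11_1, C.f11_2, C.f22_4, C.f22_6, C.f33_7, c0_0_1, c207_3_0, c240_1_1, c253_3_0, c254_5_0, s2, s3]
                                · linarith only [c250_1_1, c251_4_0, c253_4_0, s3]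
                    · linarith only [C.a4, C.f23_5, C.o2, c239_2_1]
                  · linarith only [C.a4, C.f23_1, C.o2, c223_2_1]
            · linarith only [C.f11_0, C.f11_1, C.o0, c0_0_1, c1_1_1, c205_0_1, c207_4_0]
            · linarith only [C.f11_0, C.f11_1, C.f11_2, C.f22_4, C.f22_6, C.f33_7, c1_1_1, c206_1_1, c207_5_0, s3]
        · rcases c0_11_22_33_k1_k_f13_8 C with ⟨c255_0_0, c255_0_1⟩ | ⟨c255_1_0, c255_1_1⟩
          · linarith only [C.a4, C.f13_7, C.o1, C.o2, c135_1_1, c205_1_1, c255_0_1]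
          · rcases c0_11_22_33_k1_k_p11_13B C with c256_0_0 | c256_1_0 | c256_2_0 | c256_3_0 | c256_4_0 | c256_5_0
            · linarith only [c256_0_0, e0]
            · linarith only [C.o0, c256_1_0, e0]
            · linarith only [C.o2, c256_2_0, e2]
            · rcases c0_11_22_33_k1_k_f22_2 C with ⟨c257_0_0, c257_0_1⟩ | ⟨c257_1_0, c257_1_1⟩
              · rcases c0_11_22_33_k1_k_f22_5 C with ⟨c258_0_0, c258_0_1⟩ | ⟨c258_1_0, c258_1_1⟩
                · linarith only [C.f11_0, C.f11_1, C.f13_0, C.f13_3, C.f22_4, C.f33_0, C.f33_4, C.o1, C.o2, c205_1_1, c257_0_1, c258_0_1, s1, s2]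
                · rcases c0_11_22_33_k1_k_p11_22B C with c259_0_0 | c259_1_0 | c259_2_0 | c259_3_0 | c259_4_0
                  · linarith only [c259_0_0, e0]
                  · linarith only [c259_1_0, e1]
                  · linarith only [C.a1, C.f11_0, C.o0, c257_0_1, c259_2_0]
                  · linarith only [C.f11_0, C.f11_1, C.f13_3, C.f33_4, C.o1, C.o2, c205_1_1, c256_3_0, c258_1_1, c259_3_0, s2]
                  · linarith only [C.f11_0, C.f11_1, C.f11_2, C.f13_3, C.f22_6, C.f33_4, C.o1, C.o2, c135_1_1, c205_1_1, c256_3_0, c258_1_1, c259_4_0, s2]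
              · rcases c0_11_22_33_k1_k_f22_5 C with ⟨c260_0_0, c260_0_1⟩ | ⟨c260_1_0, c260_1_1⟩
                · linarith only [C.a2, C.a4, C.f13_0, C.f13_3, C.f22_4, C.o2, c205_1_1, c257_1_1, c260_0_1]
                · rcases c0_11_22_33_k1_k_p11_22B C with c261_0_0 | c261_1_0 | c261_2_0 | c261_3_0 | c261_4_0
                  · linarith only [c261_0_0, e0]
                  · linarith only [c261_1_0, e1]
                  · rcases c0_11_22_33_k1_k_f33_5 C with ⟨c262_0_0, c262_0_1⟩ | ⟨c262_1_0, c262_1_1⟩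
                    · linarith only [C.f13_0, C.f13_3, C.f33_4, C.o2, c205_1_1, c261_2_0, c262_0_1, s1]
                    · rcases c0_11_22_33_k1_k_f33_8 C with ⟨c263_0_0, c263_0_1⟩ | ⟨c263_1_0, c263_1_1⟩
                      · linarith only [C.f11_0, C.f33_1, C.f33_7, C.o0, C.o2, c135_1_1, c257_1_1, c261_2_0, c262_1_1, c263_0_1, s1]
                      · rcases c0_11_22_33_k1_k_p11_33B C with c264_0_0 | c264_1_0 | c264_2_0 | c264_3_0 | c264_4_0
                        · linarith only [c264_0_0, e0]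
                        · linarith only [c264_1_0, e2]
                        · linarith only [C.f11_0, C.o0, c261_2_0, c264_2_0, s1]
                        · linarith only [C.f11_0, C.f11_1, C.f13_0, C.f13_3, C.f33_1, C.o0, C.o2, c205_1_1, c257_1_1, c261_2_0, c262_1_1, c264_3_0, s1]
                        · linarith only [C.f11_0, C.f11_1, C.f11_2, C.f13_0, C.f13_3, C.f33_1, c135_1_1, c205_1_1, c257_1_1, c261_2_0, c263_1_1, c264_4_0, s1]
                  · linarith only [C.f11_0, C.f11_1, C.f13_3, C.f33_4, C.o1, C.o2, c205_1_1, c256_3_0, c260_1_1, c261_3_0, s2]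
                  · linarith only [C.f11_0, C.f11_1, C.f11_2, C.f13_3, C.f22_6, C.f33_4, C.o1, C.o2, c135_1_1, c205_1_1, c256_3_0, c260_1_1, c261_4_0, s2]
            · linarith only [C.f22_4, C.f33_4, C.o1, C.o2, c205_1_1, c256_4_0, s2]
            · linarith only [C.f11_0, C.f11_1, C.f11_2, C.f22_4, C.f22_6, C.f33_7, c1_1_1, c255_1_1, c256_5_0, s3]
  · linarith only [C.a2, C.a4, C.f13_0, C.o2, c0_1_1]

end Pool.Agent.Helper24.TQ
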