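import Pool.Agent.Helper89.TQ.Ctx

set_option autoImplicit false
set_option linter.all false
set_option maxHeartbeats 4000000

namespace Pool.Agent.Helper24.TQ

open Pool.Agent.Helper89.TQ

theorem c0_11_22_33_k3_k_t12 {n1 n2 n3 A1 A2 A3 B1 B2 B3 m11_1 m11_2 m11_3 m13_1 m13_2 m13_3 m22_1 m22_2 m22_3 m23_1 m23_2 m23_3 m33_1 m33_2 m33_3 : ℤ} (C : Ctx0 n1 n2 n3 A1 A2 A3 B1 B2 B3 m11_1 m11_2 m11_3 m13_1 m13_2 m13_3 m22_1 m22_2 m22_3 m23_1 m23_2 m23_3 m33_1 m33_2 m33_3) :
    ((-1) * A1 ≤ -1 ∧ (-1) * A1 + 1 * A2 + (-1) * n2 ≤ -1) ∨ ((-1) * B1 ≤ -1 ∧ (-1) * B1 + 1 * B2 + (-1) * n2 ≤ -1) := by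
  have h := C.t12
  clear C
  omega

theorem c0_11_22_33_k3_k_t23 {n1 n2 n3 A1 A2 A3 B1 B2 B3 m11_1 m11_2 m11_3 m13_1 m13_2 m13_3 m22_1 m22_2 m22_3 m23_1 m23_2 m23_3 m33_1 m33_2 m33_3 : ℤ} (C : Ctx0 n1 n2 n3 A1 A2 A3 B1 B2 B3 m11_1 m11_2 m11_3 m13_1 m13_2 m13_3 m22_1 m22_2 m22_3 m23_1 m23_2 m23_3 m33_1 m33_2 m33_3) :
    (1 * A1 + (-1) * A2 ≤ -1 ∧ (-1) * A2 + 1 * A3 + (-1) * n3 ≤ -1) ∨ (1 * B1 + (-1) * B2 ≤ -1 ∧ (-1) * B2 + 1 * B3 + (-1) * n3 ≤ -1) := by
  have h := C.t23
  clear C
  omega

theorem c0_11_22_33_k3_k_f13_2 {n1 n2 n3 A1 A2 A3 B1 B2 B3 m11_1 m11_2 m11_3 m13_1 m13_2 m13_3 m22_1 m22_2 m22_3 m23_1 m23_2 m23_3 m33_1 m33_2 m33_3 : ℤ} (C : Ctx0 n1 n2 n3 A1 A2 A3 B1 B2 B3 m11_1 m11_2 m11_3 m13_1 m13_2 m13_3 m22_1 m22_2 m22_3 m23_1 m23_2 m23_3 m33_1 m33_2 m33_3) :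
    ((-1) * A1 + 1 * m13_1 ≤ -1 ∧ 1 * A1 + (-1) * m13_1 ≤ 1) ∨ ((-1) * B3 + 1 * m13_1 ≤ -1 ∧ 1 * B3 + (-1) * m13_1 ≤ 1) := by
  have h := C.f13_2
  clear C
  omega

theorem c0_11_22_33_k3_k_f13_5 {n1 n2 n3 A1 A2 A3 B1 B2 B3 m11_1 m11_2 m11_3 m13_1 m13_2 m13_3 m22_1 m22_2 m22_3 m23_1 m23_2 m23_3 m33_1 m33_2 m33_3 : ℤ} (C : Ctx0 n1 n2 n3 A1 A2 A3 B1 B2 B3 m11_1 m11_2 m11_3 m13_1 m13_2 m13_3 m22_1 m22_2 m22_3 m23_1 m23_2 m23_3 m33_1 m33_2 m33_3) :
    ((-1) * m13_1 + 1 * m13_2 + (-1) * n2 ≤ 0 ∧ 1 * m13_1 + (-1) * m13_2 + 1 * n2 ≤ 0) ∨ ((-1) * B3 + 1 * m13_2 ≤ -1 ∧ 1 * B3 + (-1) * m13_2 ≤ 1) := by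
  have h := C.f13_5
  clear C
  omega

theorem c0_11_22_33_k3_k_f13_8 {n1 n2 n3 A1 A2 A3 B1 B2 B3 m11_1 m11_2 m11_3 m13_1 m13_2 m13_3 m22_1 m22_2 m22_3 m23_1 m23_2 m23_3 m33_1 m33_2 m33_3 : ℤ} (C : Ctx0 n1 n2 n3 A1 A2 A3 B1 B2 B3 m11_1 m11_2 m11_3 m13_1 m13_2 m13_3 m22_1 m22_2 m22_3 m23_1 m23_2 m23_3 m33_1 m33_2 m33_3) :
    ((-1) * m13_2 + 1 * m13_3 + (-1) * n3 ≤ 0 ∧ 1 * m13_2 + (-1) * m13_3 + 1 * n3 ≤ 0) ∨ ((-1) * B3 + 1 * m13_3 ≤ -1 ∧ 1 * B3 + (-1) * m13_3 ≤ 1) := by
  have h := C.f13_8
  clear C
  omega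

theorem c0_11_22_33_k3_k_f22_2 {n1 n2 n3 A1 A2 A3 B1 B2 B3 m11_1 m11_2 m11_3 m13_1 m13_2 m13_3 m22_1 m22_2 m22_3 m23_1 m23_2 m23_3 m33_1 m33_2 m33_3 : ℤ} (C : Ctx0 n1 n2 n3 A1 A2 A3 B1 B2 B3 m11_1 m11_2 m11_3 m13_1 m13_2 m13_3 m22_1 m22_2 m22_3 m23_1 m23_2 m23_3 m33_1 m33_2 m33_3) :
    (1 * m22_1 + (-1) * n1 ≤ 0 ∧ (-1) * m22_1 + 1 * n1 ≤ 0) ∨ ((-1) * B2 + 1 * m22_1 ≤ -1 ∧ 1 * B2 + (-1) * m22_1 ≤ 1) := by
  have h := C.f22_2
  clear C
  omega

theorem c0_11_22_33_k3_k_f22_5 {n1 n2 n3 A1 A2 A3 B1 B2 B3 m11_1 m11_2 m11_3 m13_1 m13_2 m13_3 m22_1 m22_2 m22_3 m23_1 m23_2 m23_3 m33_1 m33_2 m33_3 : ℤ} (C : Ctx0 n1 n2 n3 A1 A2 A3 B1 B2 B3 m11_1 m11_2 m11_3 m13_1 m13_2 m13_3 m22_1 m22_2 m22_3 m23_1 m23_2 m23_3 m33_1 m33_2 m33_3) :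
    ((-1) * m22_1 + 1 * m22_2 + (-1) * n2 ≤ 0 ∧ 1 * m22_1 + (-1) * m22_2 + 1 * n2 ≤ 0) ∨ ((-1) * B2 + 1 * m22_2 ≤ -1 ∧ 1 * B2 + (-1) * m22_2 ≤ 1) := by
  have h := C.f22_5
  clear C
  omega

theorem c0_11_22_33_k3_k_f23_3 {n1 n2 n3 A1 A2 A3 B1 B2 B3 m11_1 m11_2 m11_3 m13_1 m13_2 m13_3 m22_1 m22_2 m22_3 m23_1 m23_2 m23_3 m33_1 m33_2 m33_3 : ℤ} (C : Ctx0 n1 n2 n3 A1 A2 A3 B1 B2 B3 m11_1 m11_2 m11_3 m13_1 m13_2 m13_3 m22_1 m22_2 m22_3 m23_1 m23_2 m23_3 m33_1 m33_2 m33_3) :
    (1 * m23_1 + (-1) * n1 ≤ 0 ∧ (-1) * m23_1 + 1 * n1 ≤ 0) ∨ ((-1) * A2 + 1 * m23_1 ≤ -1 ∧ 1 * A2 + (-1) * m23_1 ≤ 1) ∨ ((-1) * B3 + 1 * m23_1 ≤ -1 ∧ 1 * B3 + (-1) * m23_1 ≤ 1) := by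
  have h := C.f23_3
  clear C
  omega

theorem c0_11_22_33_k3_k_f23_7 {n1 n2 n3 A1 A2 A3 B1 B2 B3 m11_1 m11_2 m11_3 m13_1 m13_2 m13_3 m22_1 m22_2 m22_3 m23_1 m23_2 m23_3 m33_1 m33_2 m33_3 : ℤ} (C : Ctx0 n1 n2 n3 A1 A2 A3 B1 B2 B3 m11_1 m11_2 m11_3 m13_1 m13_2 m13_3 m22_1 m22_2 m22_3 m23_1 m23_2 m23_3 m33_1 m33_2 m33_3) :
    ((-1) * m23_1 + 1 * m23_2 + (-1) * n2 ≤ 0 ∧ 1 * m23_1 + (-1) * m23_2 + 1 * n2 ≤ 0) ∨ ((-1) * A2 + 1 * m23_2 ≤ -1 ∧ 1 * A2 + (-1) * m23_2 ≤ 1) ∨ ((-1) * B3 + 1 * m23_2 ≤ -1 ∧ 1 * B3 + (-1) * m23_2 ≤ 1) := by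
  have h := C.f23_7
  clear C
  omega

theorem c0_11_22_33_k3_k_f23_10 {n1 n2 n3 A1 A2 A3 B1 B2 B3 m11_1 m11_2 m11_3 m13_1 m13_2 m13_3 m22_1 m22_2 m22_3 m23_1 m23_2 m23_3 m33_1 m33_2 m33_3 : ℤ} (C : Ctx0 n1 n2 n3 A1 A2 A3 B1 B2 B3 m11_1 m11_2 m11_3 m13_1 m13_2 m13_3 m22_1 m22_2 m22_3 m23_1 m23_2 m23_3 m33_1 m33_2 m33_3) :
    ((-1) * m23_2 + 1 * m23_3 + (-1) * n3 ≤ 0 ∧ 1 * m23_2 + (-1) * m23_3 + 1 * n3 ≤ 0) ∨ ((-1) * B3 + 1 * m23_3 ≤ -1 ∧ 1 * B3 + (-1) * m23_3 ≤ 1) := by
  have h := C.f23_10
  clear C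
  omega

theorem c0_11_22_33_k3_k_f33_2 {n1 n2 n3 A1 A2 A3 B1 B2 B3 m11_1 m11_2 m11_3 m13_1 m13_2 m13_3 m22_1 m22_2 m22_3 m23_1 m23_2 m23_3 m33_1 m33_2 m33_3 : ℤ} (C : Ctx0 n1 n2 n3 A1 A2 A3 B1 B2 B3 m11_1 m11_2 m11_3 m13_1 m13_2 m13_3 m22_1 m22_2 m22_3 m23_1 m23_2 m23_3 m33_1 m33_2 m33_3) :
    (1 * m33_1 + (-1) * n1 ≤ 0 ∧ (-1) * m33_1 + 1 * n1 ≤ 0) ∨ ((-1) * A3 + 1 * m33_1 ≤ -1 ∧ 1 * A3 + (-1) * m33_1 ≤ 1) := by
  have h := C.f33_2
  clear C
  omega

theorem c0_11_22_33_k3_k_f33_5 {n1 n2 n3 A1 A2 A3 B1 B2 B3 m11_1 m11_2 m11_3 m13_1 m13_2 m13_3 m22_1 m22_2 m22_3 m23_1 m23_2 m23_3 m33_1 m33_2 m33_3 : ℤ} (C : Ctx0 n1 n2 n3 A1 A2 A3 B1 B2 B3 m11_1 m11_2 m11_3 m13_1 m13_2 m13_3 m22_1 m22_2 m22_3 m23_1 m23_2 m23_3 m33_1 m33_2 m33_3) :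
    ((-1) * m33_1 + 1 * m33_2 + (-1) * n2 ≤ 0 ∧ 1 * m33_1 + (-1) * m33_2 + 1 * n2 ≤ 0) ∨ ((-1) * A3 + 1 * m33_2 ≤ -1 ∧ 1 * A3 + (-1) * m33_2 ≤ 1) := by
  have h := C.f33_5
  clear C
  omega

theorem c0_11_22_33_k3_k_f33_8 {n1 n2 n3 A1 A2 A3 B1 B2 B3 m11_1 m11_2 m11_3 m13_1 m13_2 m13_3 m22_1 m22_2 m22_3 m23_1 m23_2 m23_3 m33_1 m33_2 m33_3 : ℤ} (C : Ctx0 n1 n2 n3 A1 A2 A3 B1 B2 B3 m11_1 m11_2 m11_3 m13_1 m13_2 m13_3 m22_1 m22_2 m22_3 m23_1 m23_2 m23_3 m33_1 m33_2 m33_3) :
    ((-1) * m33_2 + 1 * m33_3 + (-1) * n3 ≤ 0 ∧ 1 * m33_2 + (-1) * m33_3 + 1 * n3 ≤ 0) ∨ ((-1) * A3 + 1 * m33_3 ≤ -1 ∧ 1 * A3 + (-1) * m33_3 ≤ 1) := by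
  have h := C.f33_8
  clear C
  omega

theorem c0_11_22_33_k3_k_p11_13B {n1 n2 n3 A1 A2 A3 B1 B2 B3 m11_1 m11_2 m11_3 m13_1 m13_2 m13_3 m22_1 m22_2 m22_3 m23_1 m23_2 m23_3 m33_1 m33_2 m33_3 : ℤ} (C : Ctx0 n1 n2 n3 A1 A2 A3 B1 B2 B3 m11_1 m11_2 m11_3 m13_1 m13_2 m13_3 m22_1 m22_2 m22_3 m23_1 m23_2 m23_3 m33_1 m33_2 m33_3) :
    (1 * B1 ≤ 0) ∨ (1 * A1 ≤ 0) ∨ (1 * B3 ≤ 0) ∨ ((-2) * B1 + 1 * m11_1 + 1 * m13_1 ≤ -1) ∨ ((-2) * B2 + 1 * m11_2 + 1 * m13_2 ≤ -1) ∨ ((-2) * B3 + 1 * m11_3 + 1 * m13_3 ≤ -1) := by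
  have h := C.p11_13B
  clear C
  omega

theorem c0_11_22_33_k3_k_p11_22B {n1 n2 n3 A1 A2 A3 B1 B2 B3 m11_1 m11_2 m11_3 m13_1 m13_2 m13_3 m22_1 m22_2 m22_3 m23_1 m23_2 m23_3 m33_1 m33_2 m33_3 : ℤ} (C : Ctx0 n1 n2 n3 A1 A2 A3 B1 B2 B3 m11_1 m11_2 m11_3 m13_1 m13_2 m13_3 m22_1 m22_2 m22_3 m23_1 m23_2 m23_3 m33_1 m33_2 m33_3) :
    (1 * B1 ≤ 0) ∨ (1 * B2 ≤ 0) ∨ ((-2) * B1 + 1 * m11_1 + 1 * m22_1 ≤ -1) ∨ ((-2) * B2 + 1 * m11_2 + 1 * m22_2 ≤ -1) ∨ ((-2) * B3 + 1 * m11_3 + 1 * m22_3 ≤ -1) := by
  have h := C.p11_22B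
  clear C
  omega

theorem c0_11_22_33_k3_k_p11_23A {n1 n2 n3 A1 A2 A3 B1 B2 B3 m11_1 m11_2 m11_3 m13_1 m13_2 m13_3 m22_1 m22_2 m22_3 m23_1 m23_2 m23_3 m33_1 m33_2 m33_3 : ℤ} (C : Ctx0 n1 n2 n3 A1 A2 A3 B1 B2 B3 m11_1 m11_2 m11_3 m13_1 m13_2 m13_3 m22_1 m22_2 m22_3 m23_1 m23_2 m23_3 m33_1 m33_2 m33_3) :
    (1 * B1 ≤ 0) ∨ (1 * A2 ≤ 0) ∨ (1 * B3 ≤ 0) ∨ ((-2) * A1 + 1 * m11_1 + 1 * m23_1 ≤ -1) ∨ ((-2) * A2 + 1 * m11_2 + 1 * m23_2 ≤ -1) ∨ ((-2) * A3 + 1 * m11_3 + 1 * m23_3 ≤ -1) := by
  have h := C.p11_23A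
  clear C
  omega

theorem c0_11_22_33_k3_k_p11_23B {n1 n2 n3 A1 A2 A3 B1 B2 B3 m11_1 m11_2 m11_3 m13_1 m13_2 m13_3 m22_1 m22_2 m22_3 m23_1 m23_2 m23_3 m33_1 m33_2 m33_3 : ℤ} (C : Ctx0 n1 n2 n3 A1 A2 A3 B1 B2 B3 m11_1 m11_2 m11_3 m13_1 m13_2 m13_3 m22_1 m22_2 m22_3 m23_1 m23_2 m23_3 m33_1 m33_2 m33_3) :
    (1 * B1 ≤ 0) ∨ (1 * A2 ≤ 0) ∨ (1 * B3 ≤ 0) ∨ ((-2) * B1 + 1 * m11_1 + 1 * m23_1 ≤ -1) ∨ ((-2) * B2 + 1 * m11_2 + 1 * m23_2 ≤ -1) ∨ ((-2) * B3 + 1 * m11_3 + 1 * m23_3 ≤ -1) := by
  have h := C.p11_23B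
  clear C
  omega

theorem c0_11_22_33_k3_k_p11_33A {n1 n2 n3 A1 A2 A3 B1 B2 B3 m11_1 m11_2 m11_3 m13_1 m13_2 m13_3 m22_1 m22_2 m22_3 m23_1 m23_2 m23_3 m33_1 m33_2 m33_3 : ℤ} (C : Ctx0 n1 n2 n3 A1 A2 A3 B1 B2 B3 m11_1 m11_2 m11_3 m13_1 m13_2 m13_3 m22_1 m22_2 m22_3 m23_1 m23_2 m23_3 m33_1 m33_2 m33_3) :
    (1 * B1 ≤ 0) ∨ (1 * A3 ≤ 0) ∨ ((-2) * A1 + 1 * m11_1 + 1 * m33_1 ≤ -1) ∨ ((-2) * A2 + 1 * m11_2 + 1 * m33_2 ≤ -1) ∨ ((-2) * A3 + 1 * m11_3 + 1 * m33_3 ≤ -1) := by
  have h := C.p11_33A
  clear C
  omega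

theorem c0_11_22_33_k3_k_p11_33B {n1 n2 n3 A1 A2 A3 B1 B2 B3 m11_1 m11_2 m11_3 m13_1 m13_2 m13_3 m22_1 m22_2 m22_3 m23_1 m23_2 m23_3 m33_1 m33_2 m33_3 : ℤ} (C : Ctx0 n1 n2 n3 A1 A2 A3 B1 B2 B3 m11_1 m11_2 m11_3 m13_1 m13_2 m13_3 m22_1 m22_2 m22_3 m23_1 m23_2 m23_3 m33_1 m33_2 m33_3) :
    (1 * B1 ≤ 0) ∨ (1 * A3 ≤ 0) ∨ ((-2) * B1 + 1 * m11_1 + 1 * m33_1 ≤ -1) ∨ ((-2) * B2 + 1 * m11_2 + 1 * m33_2 ≤ -1) ∨ ((-2) * B3 + 1 * m11_3 + 1 * m33_3 ≤ -1) := by
  have h := C.p11_33B
  clear C
  omega

theorem c0_11_22_33_k3_k_p13_22A {n1 n2 n3 A1 A2 A3 B1 B2 B3 m11_1 m11_2 m11_3 m13_1 m13_2 m13_3 m22_1 m22_2 m22_3 m23_1 m23_2 m23_3 m33_1 m33_2 m33_3 : ℤ} (C : Ctx0 n1 n2 n3 A1 A2 A3 B1 B2 B3 m11_1 m11_2 m11_3 m13_1 m13_2 m13_3 m22_1 m22_2 m22_3 m23_1 m23_2 m23_3 m33_1 m33_2 m33_3) :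
    (1 * A1 ≤ 0) ∨ (1 * B3 ≤ 0) ∨ (1 * B2 ≤ 0) ∨ ((-2) * A1 + 1 * m13_1 + 1 * m22_1 ≤ -1) ∨ ((-2) * A2 + 1 * m13_2 + 1 * m22_2 ≤ -1) ∨ ((-2) * A3 + 1 * m13_3 + 1 * m22_3 ≤ -1) := by
  have h := C.p13_22A
  clear C
  omega

theorem c0_11_22_33_k3_k_p13_23A {n1 n2 n3 A1 A2 A3 B1 B2 B3 m11_1 m11_2 m11_3 m13_1 m13_2 m13_3 m22_1 m22_2 m22_3 m23_1 m23_2 m23_3 m33_1 m33_2 m33_3 : ℤ} (C : Ctx0 n1 n2 n3 A1 A2 A3 B1 B2 B3 m11_1 m11_2 m11_3 m13_1 m13_2 m13_3 m22_1 m22_2 m22_3 m23_1 m23_2 m23_3 m33_1 m33_2 m33_3) :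
    (1 * A1 ≤ 0) ∨ (1 * B3 ≤ 0) ∨ (1 * A2 ≤ 0) ∨ ((-2) * A1 + 1 * m13_1 + 1 * m23_1 ≤ -1) ∨ ((-2) * A2 + 1 * m13_2 + 1 * m23_2 ≤ -1) ∨ ((-2) * A3 + 1 * m13_3 + 1 * m23_3 ≤ -1) := by
  have h := C.p13_23A
  clear C
  omega

theorem c0_11_22_33_k3_k_p13_33A {n1 n2 n3 A1 A2 A3 B1 B2 B3 m11_1 m11_2 m11_3 m13_1 m13_2 m13_3 m22_1 m22_2 m22_3 m23_1 m23_2 m23_3 m33_1 m33_2 m33_3 : ℤ} (C : Ctx0 n1 n2 n3 A1 A2 A3 B1 B2 B3 m11_1 m11_2 m11_3 m13_1 m13_2 m13_3 m22_1 m22_2 m22_3 m23_1 m23_2 m23_3 m33_1 m33_2 m33_3) :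
    (1 * A1 ≤ 0) ∨ (1 * B3 ≤ 0) ∨ (1 * A3 ≤ 0) ∨ ((-2) * A1 + 1 * m13_1 + 1 * m33_1 ≤ -1) ∨ ((-2) * A2 + 1 * m13_2 + 1 * m33_2 ≤ -1) ∨ ((-2) * A3 + 1 * m13_3 + 1 * m33_3 ≤ -1) := by
  have h := C.p13_33A
  clear C
  omega

theorem c0_11_22_33_k3_k_p22_33A {n1 n2 n3 A1 A2 A3 B1 B2 B3 m11_1 m11_2 m11_3 m13_1 m13_2 m13_3 m22_1 m22_2 m22_3 m23_1 m23_2 m23_3 m33_1 m33_2 m33_3 : ℤ} (C : Ctx0 n1 n2 n3 A1 A2 A3 B1 B2 B3 m11_1 m11_2 m11_3 m13_1 m13_2 m13_3 m22_1 m22_2 m22_3 m23_1 m23_2 m23_3 m33_1 m33_2 m33_3) :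
    (1 * B2 ≤ 0) ∨ (1 * A3 ≤ 0) ∨ ((-2) * A1 + 1 * m22_1 + 1 * m33_1 ≤ -1) ∨ ((-2) * A2 + 1 * m22_2 + 1 * m33_2 ≤ -1) ∨ ((-2) * A3 + 1 * m22_3 + 1 * m33_3 ≤ -1) := by
  have h := C.p22_33A
  clear C
  omega

theorem c0_11_22_33_k3_k_tmpp {n1 n2 n3 A1 A2 A3 B1 B2 B3 m11_1 m11_2 m11_3 m13_1 m13_2 m13_3 m22_1 m22_2 m22_3 m23_1 m23_2 m23_3 m33_1 m33_2 m33_3 : ℤ} (C : Ctx0 n1 n2 n3 A1 A2 A3 B1 B2 B3 m11_1 m11_2 m11_3 m13_1 m13_2 m13_3 m22_1 m22_2 m22_3 m23_1 m23_2 m23_3 m33_1 m33_2 m33_3) :
    ((-1) * A1 + 1 * n1 ≤ 0) ∨ ((-1) * A1 + 1 * A2 ≤ 1) ∨ (1 * B1 ≤ 0) ∨ (1 * B1 + (-1) * B2 + 1 * n2 ≤ 1) := by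
  have h := C.tmpp
  clear C
  omega

theorem c0_11_22_33_k3_k_tpmm {n1 n2 n3 A1 A2 A3 B1 B2 B3 m11_1 m11_2 m11_3 m13_1 m13_2 m13_3 m22_1 m22_2 m22_3 m23_1 m23_2 m23_3 m33_1 m33_2 m33_3 : ℤ} (C : Ctx0 n1 n2 n3 A1 A2 A3 B1 B2 B3 m11_1 m11_2 m11_3 m13_1 m13_2 m13_3 m22_1 m22_2 m22_3 m23_1 m23_2 m23_3 m33_1 m33_2 m33_3) :
    (1 * A1 ≤ 0) ∨ (1 * A1 + (-1) * A2 + 1 * n2 ≤ 1) ∨ ((-1) * B1 + 1 * n1 ≤ 0) ∨ ((-1) * B1 + 1 * B2 ≤ 1) ∨ ((-1) * A3 + 1 * B3 ≤ 1) := by
  have h := C.tpmm
  clear C
  omega

theorem c0_11_22_33_k3 {n1 n2 n3 A1 A2 A3 B1 B2 B3 m11_1 m11_2 m11_3 m13_1 m13_2 m13_3 m22_1 m22_2 m22_3 m23_1 m23_2 m23_3 m33_1 m33_2 m33_3 : ℤ}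
    (C : Ctx0 n1 n2 n3 A1 A2 A3 B1 B2 B3 m11_1 m11_2 m11_3 m13_1 m13_2 m13_3 m22_1 m22_2 m22_3 m23_1 m23_2 m23_3 m33_1 m33_2 m33_3)
    (e0 : 0 < B1)
    (e1 : 0 < B2)
    (e2 : 0 < A3)
    (s1 : 3 * A1 + 0 * B1 ≤ m11_1 + m22_1 + m33_1)
    (s2 : 3 * A2 + 0 * B2 ≤ m11_2 + m22_2 + m33_2)
    (s3 : 3 * A3 + 0 * B3 ≤ m11_3 + m22_3 + m33_3) : False := by
  rcases c0_11_22_33_k3_k_f13_2 C with ⟨c0_0_0, c0_0_1⟩ | ⟨c0_1_0, c0_1_1⟩
  · rcases c0_11_22_33_k3_k_t12 C with ⟨c1_0_0, c1_0_1⟩ | ⟨c1_1_0, c1_1_1⟩
    · rcases c0_11_22_33_k3_k_t23 C with ⟨c2_0_0, c2_0_1⟩ | ⟨c2_1_0, c2_1_1⟩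
      · rcases c0_11_22_33_k3_k_f13_5 C with ⟨c3_0_0, c3_0_1⟩ | ⟨c3_1_0, c3_1_1⟩
        · rcases c0_11_22_33_k3_k_f13_8 C with ⟨c4_0_0, c4_0_1⟩ | ⟨c4_1_0, c4_1_1⟩
          · linarith only [C.b5, C.f13_7, C.o1, c0_0_1, c1_0_1, c3_0_1, c4_0_1]
          · rcases c0_11_22_33_k3_k_f22_2 C with ⟨c5_0_0, c5_0_1⟩ | ⟨c5_1_0, c5_1_1⟩
            · rcases c0_11_22_33_k3_k_f22_5 C with ⟨c6_0_0, c6_0_1⟩ | ⟨c6_1_0, c6_1_1⟩
              · linarith only [C.f11_0, C.f22_4, C.f33_0, C.o0, C.o1, c1_0_1, c5_0_1, c6_0_1, s1]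
              · rcases c0_11_22_33_k3_k_p13_22A C with c7_0_0 | c7_1_0 | c7_2_0 | c7_3_0 | c7_4_0 | c7_5_0
                · linarith only [c1_0_0, c7_0_0]
                · linarith only [C.o2, c7_1_0, e2]
                · linarith only [c7_2_0, e1]
                · linarith only [C.f11_0, C.f33_0, C.o0, c0_0_1, c5_0_1, c7_3_0, s1]
                · rcases c0_11_22_33_k3_k_f33_2 C with ⟨c8_0_0, c8_0_1⟩ | ⟨c8_1_0, c8_1_1⟩
                  · rcases c0_11_22_33_k3_k_f33_8 C with ⟨c9_0_0, c9_0_1⟩ | ⟨c9_1_0, c9_1_1⟩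
                    · linarith only [C.f11_0, C.f11_1, C.f11_2, C.f22_6, C.f33_7, C.o0, c0_0_1, c3_0_1, c7_4_0, c9_0_1, s2, s3]
                    · rcases c0_11_22_33_k3_k_p11_33A C with c10_0_0 | c10_1_0 | c10_2_0 | c10_3_0 | c10_4_0
                      · linarith only [c10_0_0, e0]
                      · linarith only [c10_1_0, e2]
                      · rcases c0_11_22_33_k3_k_p11_33B C with c11_0_0 | c11_1_0 | c11_2_0 | c11_3_0 | c11_4_0
                        · linarith only [c11_0_0, e0]
                        · linarith only [c11_1_0, e2]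
                        · linarith only [C.f11_0, C.f22_0, C.o0, c11_2_0, c8_0_1, s1]
                        · linarith only [C.f22_4, C.o1, c11_3_0, s2]
                        · rcases c0_11_22_33_k3_k_p13_33A C with c12_0_0 | c12_1_0 | c12_2_0 | c12_3_0 | c12_4_0 | c12_5_0
                          · linarith only [c12_0_0, c1_0_0]
                          · linarith only [C.f11_0, C.f11_1, C.f22_1, C.f33_0, C.f33_3, C.f33_4, C.o0, C.o2, c0_0_1, c12_1_0, c3_0_1, c5_0_1, c6_1_1, c7_4_0, e0, s2]
                          · linarith only [c12_2_0, e2]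
                          · linarith only [C.f11_0, C.f22_0, C.o0, c0_0_1, c12_3_0, c8_0_1, s1]
                          · linarith only [C.f11_0, C.f11_1, C.f22_4, C.o0, C.o1, c0_0_1, c12_4_0, c3_0_1, s2]
                          · rcases c0_11_22_33_k3_k_p22_33A C with c14_0_0 | c14_1_0 | c14_2_0 | c14_3_0 | c14_4_0
                            · linarith only [c14_0_0, e1]
                            · linarith only [c14_1_0, e2]
                            · linarith only [C.f11_0, C.o0, c14_2_0, s1]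
                            · linarith only [C.f11_0, C.f11_1, C.f11_2, C.f22_6, C.o0, c0_0_1, c11_4_0, c12_5_0, c14_3_0, c3_0_1, c4_1_1, c7_4_0, c9_1_1, s2, s3]
                            · rcases c0_11_22_33_k3_k_f23_3 C with ⟨c15_0_0, c15_0_1⟩ | ⟨c15_1_0, c15_1_1⟩ | ⟨c15_2_0, c15_2_1⟩
                              · rcases c0_11_22_33_k3_k_f23_7 C with ⟨c16_0_0, c16_0_1⟩ | ⟨c16_1_0, c16_1_1⟩ | ⟨c16_2_0, c16_2_1⟩
                                · linarith only [C.f11_0, C.f22_0, C.f23_5, C.f33_0, C.o0, c15_0_1, c16_0_1, c1_0_1, s1]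
                                · rcases c0_11_22_33_k3_k_f23_10 C with ⟨c17_0_0, c17_0_1⟩ | ⟨c17_1_0, c17_1_1⟩
                                  · linarith only [C.f11_0, C.f11_1, C.f11_2, C.f22_6, C.f23_9, C.o0, c0_0_1, c12_5_0, c16_1_1, c17_0_1, c3_0_1, c4_1_1, c7_4_0, c9_1_1, s3]
                                  · rcases c0_11_22_33_k3_k_p13_23A C with c20_0_0 | c20_1_0 | c20_2_0 | c20_3_0 | c20_4_0 | c20_5_0
                                    · linarith only [c1_0_0, c20_0_0]
                                    · linarith only [C.f11_0, C.f11_1, C.f11_2, C.f22_1, C.f22_6, C.f33_0, C.f33_4, C.o0, C.o2, c0_0_1, c14_4_0, c20_1_0, c3_0_1, c5_0_1, c6_1_1, c7_4_0, c9_1_1, e0, s1, s2, s3]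
                                    · linarith only [C.f11_0, C.f11_1, C.f11_2, C.f22_1, C.f22_6, C.f33_0, C.o0, c0_0_1, c14_4_0, c20_2_0, c3_0_1, c5_0_1, c6_1_1, c7_4_0, c9_1_1, e0, s1, s3]
                                    · linarith only [C.f11_0, C.f22_0, C.f33_0, C.o0, c0_0_1, c15_0_1, c20_3_0, s1]
                                    · linarith only [C.f11_0, C.f11_1, C.f11_2, C.f22_6, C.f33_3, C.o0, c0_0_1, c10_2_0, c14_4_0, c16_1_1, c20_4_0, c3_0_1, c9_1_1, s2, s3]
                                    · linarith only [C.o2, c17_1_1, c20_5_0, c4_1_1]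
                                · linarith only [C.f11_0, C.f11_1, C.f13_4, C.f22_4, C.f23_5, C.f33_4, C.o0, C.o1, C.o2, c0_0_1, c16_2_1, c3_0_1, s2]
                              · linarith only [C.f11_0, C.f11_1, C.f11_2, C.f22_1, C.f22_6, C.f23_0, C.o0, c0_0_1, c14_4_0, c15_1_1, c3_0_1, c5_0_1, c6_1_1, c7_4_0, c9_1_1, s3]
                              · linarith only [C.f11_0, C.f11_1, C.f23_1, C.f33_4, C.o0, C.o2, c0_0_1, c15_2_1, c3_0_1, c7_4_0, s2]
                      · linarith only [C.f22_4, C.o1, c10_3_0, s2]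
                      · linarith only [C.b3, C.f11_0, C.f11_1, C.f11_2, C.f22_4, C.f22_6, c10_4_0, c9_1_1, s3]
                  · linarith only [C.f11_0, C.f11_1, C.f22_1, C.f33_0, C.f33_4, C.o0, C.o1, c0_0_1, c3_0_1, c5_0_1, c7_4_0, c8_1_1, s2]
                · linarith only [C.b5, C.f22_6, C.o2, c4_1_1, c6_1_1, c7_5_0]
            · rcases c0_11_22_33_k3_k_f22_5 C with ⟨c21_0_0, c21_0_1⟩ | ⟨c21_1_0, c21_1_1⟩
              · linarith only [C.f22_4, c1_0_1, c21_0_1, c2_0_0, c5_1_1]
              · rcases c0_11_22_33_k3_k_f23_3 C with ⟨c22_0_0, c22_0_1⟩ | ⟨c22_1_0, c22_1_1⟩ | ⟨c22_2_0, c22_2_1⟩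
                · rcases c0_11_22_33_k3_k_f23_7 C with ⟨c23_0_0, c23_0_1⟩ | ⟨c23_1_0, c23_1_1⟩ | ⟨c23_2_0, c23_2_1⟩
                  · linarith only [C.a1, C.f23_5, c1_0_1, c22_0_1, c23_0_1]
                  · rcases c0_11_22_33_k3_k_tmpp C with c24_0_0 | c24_1_0 | c24_2_0 | c24_3_0
                    · linarith only [C.f11_0, C.f22_0, C.f33_0, C.o0, c24_0_0, s1]
                    · linarith only [C.f11_0, C.f22_1, C.f23_1, C.f33_0, C.o0, C.o1, c22_0_1, c24_1_0, s1]
                    · linarith only [c24_2_0, e0]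
                    · rcases c0_11_22_33_k3_k_f33_2 C with ⟨c25_0_0, c25_0_1⟩ | ⟨c25_1_0, c25_1_1⟩
                      · rcases c0_11_22_33_k3_k_f33_8 C with ⟨c26_0_0, c26_0_1⟩ | ⟨c26_1_0, c26_1_1⟩
                        · linarith only [C.b5, C.f11_0, C.f11_1, C.f22_4, C.f33_7, C.o1, C.o2, c24_3_0, c26_0_1, s2]
                        · rcases c0_11_22_33_k3_k_p11_33A C with c27_0_0 | c27_1_0 | c27_2_0 | c27_3_0 | c27_4_0
                          · linarith only [c27_0_0, e0]
                          · linarith only [c27_1_0, e2]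
                          · rcases c0_11_22_33_k3_k_p13_22A C with c29_0_0 | c29_1_0 | c29_2_0 | c29_3_0 | c29_4_0 | c29_5_0
                            · linarith only [c1_0_0, c29_0_0]
                            · linarith only [C.o2, c29_1_0, e2]
                            · linarith only [c29_2_0, e1]
                            · linarith only [c0_0_1, c27_2_0, c29_3_0, s1]
                            · rcases c0_11_22_33_k3_k_p13_33A C with c30_0_0 | c30_1_0 | c30_2_0 | c30_3_0 | c30_4_0 | c30_5_0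
                              · linarith only [c1_0_0, c30_0_0]
                              · linarith only [C.o2, c30_1_0, e2]
                              · linarith only [c30_2_0, e2]
                              · linarith only [C.f11_0, C.f22_0, C.o0, c0_0_1, c25_0_1, c30_3_0, s1]
                              · linarith only [C.f11_0, C.f11_1, C.f22_4, C.o0, C.o1, c0_0_1, c30_4_0, c3_0_1, s2]
                              · rcases c0_11_22_33_k3_k_f23_10 C with ⟨c31_0_0, c31_0_1⟩ | ⟨c31_1_0, c31_1_1⟩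
                                · linarith only [C.f11_0, C.f11_1, C.f11_2, C.f22_6, C.f23_9, C.o0, c0_0_1, c23_1_1, c26_1_1, c29_4_0, c30_5_0, c31_0_1, c3_0_1, c4_1_1, s3]
                                · rcases c0_11_22_33_k3_k_p13_23A C with c32_0_0 | c32_1_0 | c32_2_0 | c32_3_0 | c32_4_0 | c32_5_0
                                  · linarith only [c1_0_0, c32_0_0]
                                  · linarith only [C.f11_0, C.f11_1, C.f22_1, C.f23_1, C.f33_0, C.f33_4, C.o0, C.o1, C.o2, c0_0_1, c22_0_1, c29_4_0, c32_1_0, c3_0_1, e0, s1, s2]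
                                  · linarith only [C.f11_0, C.f22_1, C.f23_1, C.f33_0, C.o0, C.o1, c22_0_1, c32_2_0, e0, s1]
                                  · linarith only [C.f11_0, C.f22_0, C.f33_0, C.o0, c0_0_1, c22_0_1, c32_3_0, s1]
                                  · rcases c0_11_22_33_k3_k_p22_33A C with c35_0_0 | c35_1_0 | c35_2_0 | c35_3_0 | c35_4_0
                                    · linarith only [c35_0_0, e1]
                                    · linarith only [c35_1_0, e2]
                                    · linarith only [C.f11_0, C.f11_1, C.f22_4, C.f23_1, C.f33_0, C.f33_3, C.o0, C.o1, c0_0_1, c22_0_1, c23_1_1, c32_4_0, c35_2_0, c3_0_1, c5_1_1, s2]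
                                    · linarith only [C.f11_0, C.f11_1, C.o0, c0_0_1, c23_1_1, c32_4_0, c35_3_0, c3_0_1, s2]
                                    · linarith only [C.f11_0, C.f11_1, C.f11_2, C.f22_6, C.f33_3, C.o0, c0_0_1, c23_1_1, c26_1_1, c27_2_0, c32_4_0, c35_4_0, c3_0_1, s2, s3]
                                  · linarith only [C.o2, c31_1_1, c32_5_0, c4_1_1]
                            · linarith only [C.f11_0, C.f11_1, C.f11_2, C.f22_6, C.f33_7, C.o2, c21_1_1, c24_3_0, c29_5_0, c4_1_1, s3]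
                          · linarith only [C.f22_4, C.o1, c27_3_0, s2]
                          · linarith only [C.b3, C.f11_0, C.f11_1, C.f11_2, C.f22_4, C.f22_6, c26_1_1, c27_4_0, s3]
                      · linarith only [C.f11_0, C.f11_1, C.f22_4, C.f23_1, C.f33_0, C.f33_4, C.o1, c22_0_1, c24_3_0, c25_1_1, s2]
                  · linarith only [C.f11_0, C.f11_1, C.f13_4, C.f22_4, C.f23_5, C.f33_4, C.o0, C.o1, C.o2, c0_0_1, c23_2_1, c3_0_1, s2]
                · rcases c0_11_22_33_k3_k_f23_7 C with ⟨c36_0_0, c36_0_1⟩ | ⟨c36_1_0, c36_1_1⟩ | ⟨c36_2_0, c36_2_1⟩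
                  · linarith only [C.f23_5, c1_0_1, c22_1_1, c2_0_0, c36_0_1]
                  · rcases c0_11_22_33_k3_k_f23_10 C with ⟨c37_0_0, c37_0_1⟩ | ⟨c37_1_0, c37_1_1⟩
                    · rcases c0_11_22_33_k3_k_f33_2 C with ⟨c39_0_0, c39_0_1⟩ | ⟨c39_1_0, c39_1_1⟩
                      · rcases c0_11_22_33_k3_k_p11_33B C with c40_0_0 | c40_1_0 | c40_2_0 | c40_3_0 | c40_4_0
                        · linarith only [c40_0_0, e0]
                        · linarith only [c40_1_0, e2]
                        · linarith only [C.a1, C.f11_0, C.o0, c39_0_1, c40_2_0]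
                        · linarith only [C.f22_4, C.o1, c40_3_0, s2]
                        · rcases c0_11_22_33_k3_k_f33_8 C with ⟨c41_0_0, c41_0_1⟩ | ⟨c41_1_0, c41_1_1⟩
                          · linarith only [C.b5, C.f11_2, C.f22_4, C.o1, c40_4_0, c41_0_1, s2]
                          · rcases c0_11_22_33_k3_k_p11_33A C with c42_0_0 | c42_1_0 | c42_2_0 | c42_3_0 | c42_4_0
                            · linarith only [c42_0_0, e0]
                            · linarith only [c42_1_0, e2]
                            · rcases c0_11_22_33_k3_k_p13_22A C with c43_0_0 | c43_1_0 | c43_2_0 | c43_3_0 | c43_4_0 | c43_5_0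
                              · linarith only [c1_0_0, c43_0_0]
                              · linarith only [C.o2, c43_1_0, e2]
                              · linarith only [c43_2_0, e1]
                              · linarith only [c0_0_1, c42_2_0, c43_3_0, s1]
                              · rcases c0_11_22_33_k3_k_p13_33A C with c45_0_0 | c45_1_0 | c45_2_0 | c45_3_0 | c45_4_0 | c45_5_0
                                · linarith only [c1_0_0, c45_0_0]
                                · linarith only [C.f11_0, C.f11_1, C.f11_2, C.f22_1, C.f22_6, C.f23_9, C.f33_4, C.f33_7, C.o0, C.o1, c0_0_1, c36_1_1, c37_0_1, c3_0_1, c42_2_0, c43_4_0, c45_1_0, e0, s1, s2, s3]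
                                · linarith only [c45_2_0, e2]
                                · linarith only [C.f11_0, C.f22_0, C.o0, c0_0_1, c39_0_1, c45_3_0, s1]
                                · linarith only [C.f11_0, C.f11_1, C.f22_4, C.o0, C.o1, c0_0_1, c3_0_1, c45_4_0, s2]
                                · linarith only [C.f11_0, C.f11_1, C.f11_2, C.f22_6, C.f23_9, C.o0, c0_0_1, c36_1_1, c37_0_1, c3_0_1, c41_1_1, c43_4_0, c45_5_0, c4_1_1, s3]
                              · linarith only [C.b5, C.f22_6, C.o2, c21_1_1, c43_5_0, c4_1_1]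
                            · linarith only [C.f22_4, C.o1, c42_3_0, s2]
                            · linarith only [C.b3, C.f11_0, C.f11_1, C.f11_2, C.f22_4, C.f22_6, c41_1_1, c42_4_0, s3]
                      · rcases c0_11_22_33_k3_k_f33_5 C with ⟨c46_0_0, c46_0_1⟩ | ⟨c46_1_0, c46_1_1⟩
                        · linarith only [C.f33_4, c1_0_1, c2_0_0, c39_1_1, c46_0_1]
                        · rcases c0_11_22_33_k3_k_f33_8 C with ⟨c47_0_0, c47_0_1⟩ | ⟨c47_1_0, c47_1_1⟩
                          · linarith only [C.b5, C.f11_0, C.f11_1, C.f13_4, C.f22_4, C.f33_7, C.o0, C.o1, C.o2, c0_0_1, c3_0_1, c46_1_1, c47_0_1, s2]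
                          · rcases c0_11_22_33_k3_k_p11_33A C with c48_0_0 | c48_1_0 | c48_2_0 | c48_3_0 | c48_4_0
                            · linarith only [c48_0_0, e0]
                            · linarith only [c48_1_0, e2]
                            · rcases c0_11_22_33_k3_k_p13_22A C with c51_0_0 | c51_1_0 | c51_2_0 | c51_3_0 | c51_4_0 | c51_5_0
                              · linarith only [c1_0_0, c51_0_0]
                              · linarith only [C.f11_1, C.f13_4, C.f22_1, C.f22_4, C.f33_4, C.o1, c0_0_1, c1_0_0, c39_1_1, c3_0_1, c48_2_0, c51_1_0, s1, s2]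
                              · linarith only [c51_2_0, e1]
                              · linarith only [c0_0_1, c48_2_0, c51_3_0, s1]
                              · linarith only [C.f11_1, C.f22_1, C.f33_4, C.o1, c0_0_1, c39_1_1, c3_0_1, c48_2_0, c51_4_0, s1, s2]
                              · linarith only [C.b5, C.f22_6, C.o2, c21_1_1, c4_1_1, c51_5_0]
                            · linarith only [C.f22_4, C.o1, c48_3_0, s2]
                            · linarith only [C.b3, C.f11_0, C.f11_1, C.f11_2, C.f22_4, C.f22_6, c47_1_1, c48_4_0, s3]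
                    · rcases c0_11_22_33_k3_k_f33_2 C with ⟨c52_0_0, c52_0_1⟩ | ⟨c52_1_0, c52_1_1⟩
                      · rcases c0_11_22_33_k3_k_p11_33B C with c53_0_0 | c53_1_0 | c53_2_0 | c53_3_0 | c53_4_0
                        · linarith only [c53_0_0, e0]
                        · linarith only [c53_1_0, e2]
                        · linarith only [C.a1, C.f11_0, C.o0, c52_0_1, c53_2_0]
                        · linarith only [C.f22_4, C.o1, c53_3_0, s2]
                        · rcases c0_11_22_33_k3_k_f33_8 C with ⟨c54_0_0, c54_0_1⟩ | ⟨c54_1_0, c54_1_1⟩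
                          · linarith only [C.f11_2, C.f22_4, C.f23_5, C.f23_8, C.o1, c37_1_1, c53_4_0, c54_0_1, s2]
                          · rcases c0_11_22_33_k3_k_p11_33A C with c55_0_0 | c55_1_0 | c55_2_0 | c55_3_0 | c55_4_0
                            · linarith only [c55_0_0, e0]
                            · linarith only [c55_1_0, e2]
                            · rcases c0_11_22_33_k3_k_p13_22A C with c56_0_0 | c56_1_0 | c56_2_0 | c56_3_0 | c56_4_0 | c56_5_0
                              · linarith only [c1_0_0, c56_0_0]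
                              · linarith only [C.o2, c56_1_0, e2]
                              · linarith only [c56_2_0, e1]
                              · linarith only [c0_0_1, c55_2_0, c56_3_0, s1]
                              · rcases c0_11_22_33_k3_k_p13_23A C with c57_0_0 | c57_1_0 | c57_2_0 | c57_3_0 | c57_4_0 | c57_5_0
                                · linarith only [c1_0_0, c57_0_0]
                                · linarith only [C.f11_0, C.f11_1, C.f22_1, C.f33_3, C.f33_4, C.o0, C.o2, c0_0_1, c21_1_1, c3_0_1, c55_2_0, c56_4_0, c57_1_0, e0, s1, s2]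
                                · linarith only [C.f11_1, C.f22_1, C.f33_3, C.o0, c0_0_1, c21_1_1, c3_0_1, c55_2_0, c56_4_0, c57_2_0, e0, s1, s2]
                                · linarith only [C.f11_1, C.f22_1, C.f33_3, c0_0_1, c21_1_1, c22_1_1, c3_0_1, c55_2_0, c56_4_0, c57_3_0, s1, s2]
                                · rcases c0_11_22_33_k3_k_p22_33A C with c61_0_0 | c61_1_0 | c61_2_0 | c61_3_0 | c61_4_0
                                  · linarith only [c61_0_0, e1]
                                  · linarith only [c61_1_0, e2]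
                                  · linarith only [C.f11_0, C.o0, c61_2_0, s1]
                                  · linarith only [C.f11_1, C.f22_1, C.f23_0, c0_0_1, c21_1_1, c22_1_1, c3_0_1, c52_0_1, c55_2_0, c56_4_0, c61_3_0, s1, s2]
                                  · linarith only [C.f11_1, C.f11_2, C.f22_1, C.f22_6, C.f23_0, c0_0_1, c21_1_1, c22_1_1, c36_1_1, c3_0_1, c52_0_1, c54_1_1, c55_2_0, c57_4_0, c61_4_0, s1, s3]
                                · linarith only [C.o2, c37_1_1, c4_1_1, c57_5_0]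
                              · linarith only [C.b5, C.f22_6, C.o2, c21_1_1, c4_1_1, c56_5_0]
                            · linarith only [C.f22_4, C.o1, c55_3_0, s2]
                            · linarith only [C.b3, C.f11_0, C.f11_1, C.f11_2, C.f22_4, C.f22_6, c54_1_1, c55_4_0, s3]
                      · rcases c0_11_22_33_k3_k_f33_5 C with ⟨c62_0_0, c62_0_1⟩ | ⟨c62_1_0, c62_1_1⟩
                        · linarith only [C.f33_4, c1_0_1, c2_0_0, c52_1_1, c62_0_1]
                        · rcases c0_11_22_33_k3_k_f33_8 C with ⟨c63_0_0, c63_0_1⟩ | ⟨c63_1_0, c63_1_1⟩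
                          · linarith only [C.f11_0, C.f11_1, C.f13_4, C.f22_4, C.f23_5, C.f23_8, C.f33_7, C.o0, C.o1, C.o2, c0_0_1, c37_1_1, c3_0_1, c62_1_1, c63_0_1, s2]
                          · rcases c0_11_22_33_k3_k_p11_33A C with c64_0_0 | c64_1_0 | c64_2_0 | c64_3_0 | c64_4_0
                            · linarith only [c64_0_0, e0]
                            · linarith only [c64_1_0, e2]
                            · rcases c0_11_22_33_k3_k_p13_22A C with c67_0_0 | c67_1_0 | c67_2_0 | c67_3_0 | c67_4_0 | c67_5_0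
                              · linarith only [c1_0_0, c67_0_0]
                              · linarith only [C.f11_1, C.f13_4, C.f22_1, C.f22_4, C.f33_4, C.o1, c0_0_1, c1_0_0, c3_0_1, c52_1_1, c64_2_0, c67_1_0, s1, s2]
                              · linarith only [c67_2_0, e1]
                              · linarith only [c0_0_1, c64_2_0, c67_3_0, s1]
                              · linarith only [C.f11_1, C.f22_1, C.f33_4, C.o1, c0_0_1, c3_0_1, c52_1_1, c64_2_0, c67_4_0, s1, s2]
                              · linarith only [C.f11_1, C.f11_2, C.f13_4, C.f22_1, C.f22_6, C.f33_7, C.o2, c0_0_1, c21_1_1, c3_0_1, c4_1_1, c52_1_1, c64_2_0, c67_5_0, s1, s3]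
                            · linarith only [C.f22_4, C.o1, c64_3_0, s2]
                            · linarith only [C.b3, C.f11_0, C.f11_1, C.f11_2, C.f22_4, C.f22_6, c63_1_1, c64_4_0, s3]
                  · linarith only [C.f11_0, C.f11_1, C.f13_4, C.f22_4, C.f23_5, C.f33_4, C.o0, C.o1, C.o2, c0_0_1, c36_2_1, c3_0_1, s2]
                · linarith only [C.f11_0, C.f11_1, C.f13_4, C.f22_4, C.f23_1, C.f33_4, C.o0, C.o1, C.o2, c0_0_1, c22_2_1, c3_0_1, s2]
        · rcases c0_11_22_33_k3_k_f13_8 C with ⟨c68_0_0, c68_0_1⟩ | ⟨c68_1_0, c68_1_1⟩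
          · linarith only [C.a4, C.b5, C.f13_7, C.o1, C.o2, c3_1_1, c68_0_1]
          · rcases c0_11_22_33_k3_k_f22_2 C with ⟨c70_0_0, c70_0_1⟩ | ⟨c70_1_0, c70_1_1⟩
            · rcases c0_11_22_33_k3_k_f22_5 C with ⟨c71_0_0, c71_0_1⟩ | ⟨c71_1_0, c71_1_1⟩
              · linarith only [C.f11_0, C.f11_1, C.f13_0, C.f13_3, C.f22_4, C.f33_0, C.f33_4, C.o0, C.o1, C.o2, c3_1_1, c70_0_1, c71_0_1, s1, s2]
              · rcases c0_11_22_33_k3_k_p13_22A C with c72_0_0 | c72_1_0 | c72_2_0 | c72_3_0 | c72_4_0 | c72_5_0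
                · linarith only [c1_0_0, c72_0_0]
                · linarith only [C.o2, c72_1_0, e2]
                · linarith only [c72_2_0, e1]
                · linarith only [C.f11_0, C.f33_0, C.o0, c0_0_1, c70_0_1, c72_3_0, s1]
                · rcases c0_11_22_33_k3_k_p11_22B C with c74_0_0 | c74_1_0 | c74_2_0 | c74_3_0 | c74_4_0
                  · linarith only [c74_0_0, e0]
                  · linarith only [c74_1_0, e1]
                  · linarith only [C.a1, C.f11_0, C.o0, c70_0_1, c74_2_0]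
                  · linarith only [C.f33_4, C.o1, C.o2, c3_1_1, c71_1_1, c72_4_0, c74_3_0, s2]
                  · linarith only [C.b5, C.f11_2, C.f22_6, C.f33_4, C.o1, C.o2, c3_1_1, c71_1_1, c72_4_0, c74_4_0, s2]
                · linarith only [C.b5, C.f22_6, C.o2, c68_1_1, c71_1_1, c72_5_0]
            · rcases c0_11_22_33_k3_k_f22_5 C with ⟨c75_0_0, c75_0_1⟩ | ⟨c75_1_0, c75_1_1⟩
              · linarith only [C.f11_0, C.f11_1, C.f13_0, C.f13_3, C.f22_4, C.f33_4, C.o0, C.o1, C.o2, c2_0_0, c3_1_1, c70_1_1, c75_0_1, s2]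
              · rcases c0_11_22_33_k3_k_f23_3 C with ⟨c76_0_0, c76_0_1⟩ | ⟨c76_1_0, c76_1_1⟩ | ⟨c76_2_0, c76_2_1⟩
                · rcases c0_11_22_33_k3_k_tmpp C with c78_0_0 | c78_1_0 | c78_2_0 | c78_3_0
                  · linarith only [C.f11_0, C.f22_0, C.f33_0, C.o0, c78_0_0, s1]
                  · linarith only [C.f11_0, C.f22_1, C.f23_1, C.f33_0, C.o0, C.o1, c76_0_1, c78_1_0, s1]
                  · linarith only [c78_2_0, e0]
                  · rcases c0_11_22_33_k3_k_p11_13B C with c82_0_0 | c82_1_0 | c82_2_0 | c82_3_0 | c82_4_0 | c82_5_0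
                    · linarith only [c82_0_0, e0]
                    · linarith only [c1_0_0, c82_1_0]
                    · linarith only [C.o2, c82_2_0, e2]
                    · linarith only [C.f11_1, C.f13_3, C.f22_4, C.f33_4, C.o1, C.o2, c3_1_1, c78_3_0, c82_3_0, s2]
                    · linarith only [C.f22_4, C.f33_4, C.o1, C.o2, c3_1_1, c82_4_0, s2]
                    · rcases c0_11_22_33_k3_k_p13_22A C with c85_0_0 | c85_1_0 | c85_2_0 | c85_3_0 | c85_4_0 | c85_5_0
                      · linarith only [c1_0_0, c85_0_0]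
                      · linarith only [C.o2, c85_1_0, e2]
                      · linarith only [c85_2_0, e1]
                      · linarith only [C.b5, C.f11_1, C.f11_2, C.f13_3, C.f22_4, C.f23_1, C.f33_0, C.f33_4, C.o1, C.o2, c0_0_1, c3_1_1, c68_1_1, c70_1_1, c76_0_1, c82_5_0, c85_3_0, s1, s2]
                      · linarith only [C.b5, C.f11_2, C.f33_4, C.o1, C.o2, c3_1_1, c68_1_1, c82_5_0, c85_4_0, s2]
                      · linarith only [C.b5, C.f22_6, C.o2, c68_1_1, c75_1_1, c85_5_0]
                · rcases c0_11_22_33_k3_k_f23_7 C with ⟨c86_0_0, c86_0_1⟩ | ⟨c86_1_0, c86_1_1⟩ | ⟨c86_2_0, c86_2_1⟩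
                  · linarith only [C.f11_0, C.f11_1, C.f13_0, C.f13_3, C.f22_4, C.f23_5, C.f33_4, C.o0, C.o1, C.o2, c2_0_0, c3_1_1, c76_1_1, c86_0_1, s2]
                  · rcases c0_11_22_33_k3_k_f23_10 C with ⟨c87_0_0, c87_0_1⟩ | ⟨c87_1_0, c87_1_1⟩
                    · rcases c0_11_22_33_k3_k_tpmm C with c89_0_0 | c89_1_0 | c89_2_0 | c89_3_0 | c89_4_0
                      · linarith only [c1_0_0, c89_0_0]
                      · linarith only [C.f11_0, C.f11_1, C.f13_0, C.f13_3, C.f22_4, C.f33_4, C.o0, C.o1, C.o2, c3_1_1, c89_1_0, s2]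
                      · linarith only [C.a1, C.o0, c89_2_0]
                      · linarith only [C.b5, C.f23_9, C.o0, c2_0_0, c86_1_1, c87_0_1, c89_3_0]
                      · rcases c0_11_22_33_k3_k_p11_33A C with c90_0_0 | c90_1_0 | c90_2_0 | c90_3_0 | c90_4_0
                        · linarith only [c90_0_0, e0]
                        · linarith only [c90_1_0, e2]
                        · rcases c0_11_22_33_k3_k_p13_22A C with c91_0_0 | c91_1_0 | c91_2_0 | c91_3_0 | c91_4_0 | c91_5_0
                          · linarith only [c1_0_0, c91_0_0]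
                          · linarith only [C.o2, c91_1_0, e2]
                          · linarith only [c91_2_0, e1]
                          · linarith only [c0_0_1, c90_2_0, c91_3_0, s1]
                          · rcases c0_11_22_33_k3_k_p11_13B C with c92_0_0 | c92_1_0 | c92_2_0 | c92_3_0 | c92_4_0 | c92_5_0
                            · linarith only [c92_0_0, e0]
                            · linarith only [c1_0_0, c92_1_0]
                            · linarith only [C.o2, c92_2_0, e2]
                            · rcases c0_11_22_33_k3_k_p11_22B C with c96_0_0 | c96_1_0 | c96_2_0 | c96_3_0 | c96_4_0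
                              · linarith only [c96_0_0, e0]
                              · linarith only [c96_1_0, e1]
                              · linarith only [C.b5, C.f11_0, C.f23_9, C.o0, c2_0_0, c70_1_1, c86_1_1, c87_0_1, c96_2_0]
                              · linarith only [C.f11_0, C.f11_1, C.f13_3, C.f33_4, C.o1, C.o2, c3_1_1, c75_1_1, c92_3_0, c96_3_0, s2]
                              · linarith only [C.b5, C.f11_0, C.f11_1, C.f11_2, C.f13_3, C.f22_6, C.f33_4, C.o1, C.o2, c3_1_1, c75_1_1, c92_3_0, c96_4_0, s2]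
                            · linarith only [C.f22_4, C.f33_4, C.o1, C.o2, c3_1_1, c92_4_0, s2]
                            · linarith only [C.f11_2, C.f33_4, c2_0_1, c3_1_1, c68_1_1, c91_4_0, c92_5_0, s2]
                          · linarith only [C.b5, C.f22_6, C.o2, c68_1_1, c75_1_1, c91_5_0]
                        · linarith only [C.f22_4, C.o1, c90_3_0, s2]
                        · linarith only [C.f22_4, C.f22_6, C.f23_9, C.o1, c86_1_1, c87_0_1, c89_4_0, c90_4_0, s3]
                    · rcases c0_11_22_33_k3_k_f33_2 C with ⟨c97_0_0, c97_0_1⟩ | ⟨c97_1_0, c97_1_1⟩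
                      · rcases c0_11_22_33_k3_k_f33_5 C with ⟨c98_0_0, c98_0_1⟩ | ⟨c98_1_0, c98_1_1⟩
                        · linarith only [C.a1, C.f13_0, C.f13_3, C.f33_4, C.o2, c3_1_1, c97_0_1, c98_0_1]
                        · rcases c0_11_22_33_k3_k_f33_8 C with ⟨c99_0_0, c99_0_1⟩ | ⟨c99_1_0, c99_1_1⟩
                          · linarith only [C.a4, C.b5, C.f33_7, C.o1, C.o2, c98_1_1, c99_0_1]
                          · rcases c0_11_22_33_k3_k_p11_33A C with c100_0_0 | c100_1_0 | c100_2_0 | c100_3_0 | c100_4_0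
                            · linarith only [c100_0_0, e0]
                            · linarith only [c100_1_0, e2]
                            · rcases c0_11_22_33_k3_k_p11_33B C with c101_0_0 | c101_1_0 | c101_2_0 | c101_3_0 | c101_4_0
                              · linarith only [c101_0_0, e0]
                              · linarith only [c101_1_0, e2]
                              · linarith only [C.a1, C.f11_0, C.o0, c101_2_0, c97_0_1]
                              · linarith only [C.f22_4, C.o1, c101_3_0, s2]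
                              · rcases c0_11_22_33_k3_k_p13_22A C with c102_0_0 | c102_1_0 | c102_2_0 | c102_3_0 | c102_4_0 | c102_5_0
                                · linarith only [c102_0_0, c1_0_0]
                                · linarith only [C.o2, c102_1_0, e2]
                                · linarith only [c102_2_0, e1]
                                · linarith only [c0_0_1, c100_2_0, c102_3_0, s1]
                                · linarith only [C.f11_2, C.f23_5, C.f23_8, C.f33_4, c101_4_0, c102_4_0, c3_1_1, c87_1_1, c99_1_1, s2]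
                                · linarith only [C.b5, C.f22_6, C.o2, c102_5_0, c68_1_1, c75_1_1]
                            · linarith only [C.f22_4, C.o1, c100_3_0, s2]
                            · linarith only [C.b3, C.f11_0, C.f11_1, C.f11_2, C.f22_4, C.f22_6, c100_4_0, c99_1_1, s3]
                      · rcases c0_11_22_33_k3_k_f33_5 C with ⟨c103_0_0, c103_0_1⟩ | ⟨c103_1_0, c103_1_1⟩
                        · linarith only [C.f11_0, C.f11_1, C.f13_0, C.f13_3, C.f22_4, C.f33_4, C.o0, C.o1, C.o2, c103_0_1, c2_0_0, c3_1_1, c97_1_1, s2]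
                        · rcases c0_11_22_33_k3_k_f33_8 C with ⟨c104_0_0, c104_0_1⟩ | ⟨c104_1_0, c104_1_1⟩
                          · linarith only [C.a4, C.b5, C.f33_7, C.o1, C.o2, c103_1_1, c104_0_1]
                          · rcases c0_11_22_33_k3_k_p11_33A C with c105_0_0 | c105_1_0 | c105_2_0 | c105_3_0 | c105_4_0
                            · linarith only [c105_0_0, e0]
                            · linarith only [c105_1_0, e2]
                            · rcases c0_11_22_33_k3_k_p11_33B C with c106_0_0 | c106_1_0 | c106_2_0 | c106_3_0 | c106_4_0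
                              · linarith only [c106_0_0, e0]
                              · linarith only [c106_1_0, e2]
                              · linarith only [C.a4, C.f11_0, C.f22_1, C.o0, C.o1, c106_2_0, c97_1_1, s1]
                              · linarith only [C.f22_4, C.o1, c106_3_0, s2]
                              · rcases c0_11_22_33_k3_k_p13_22A C with c107_0_0 | c107_1_0 | c107_2_0 | c107_3_0 | c107_4_0 | c107_5_0
                                · linarith only [c107_0_0, c1_0_0]
                                · linarith only [C.o2, c107_1_0, e2]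
                                · linarith only [c107_2_0, e1]
                                · linarith only [c0_0_1, c105_2_0, c107_3_0, s1]
                                · linarith only [C.f11_2, C.f23_5, C.f23_8, C.f33_4, c104_1_1, c106_4_0, c107_4_0, c3_1_1, c87_1_1, s2]
                                · linarith only [C.b5, C.f22_6, C.o2, c107_5_0, c68_1_1, c75_1_1]
                            · linarith only [C.f22_4, C.o1, c105_3_0, s2]
                            · linarith only [C.b3, C.f11_0, C.f11_1, C.f11_2, C.f22_4, C.f22_6, c104_1_1, c105_4_0, s3]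
                  · linarith only [C.a4, C.f23_5, C.o2, c86_2_1]
                · linarith only [C.a4, C.f23_1, C.o2, c76_2_1]
      · rcases c0_11_22_33_k3_k_f13_5 C with ⟨c108_0_0, c108_0_1⟩ | ⟨c108_1_0, c108_1_1⟩
        · rcases c0_11_22_33_k3_k_f13_8 C with ⟨c109_0_0, c109_0_1⟩ | ⟨c109_1_0, c109_1_1⟩
          · linarith only [C.f13_7, C.o1, c0_0_1, c108_0_1, c109_0_1, c1_0_1, c2_1_1]
          · rcases c0_11_22_33_k3_k_f22_2 C with ⟨c110_0_0, c110_0_1⟩ | ⟨c110_1_0, c110_1_1⟩
            · rcases c0_11_22_33_k3_k_f22_5 C with ⟨c111_0_0, c111_0_1⟩ | ⟨c111_1_0, c111_1_1⟩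
              · linarith only [C.f11_0, C.f22_4, C.f33_0, C.o0, C.o1, c110_0_1, c111_0_1, c1_0_1, s1]
              · rcases c0_11_22_33_k3_k_p11_22B C with c112_0_0 | c112_1_0 | c112_2_0 | c112_3_0 | c112_4_0
                · linarith only [c112_0_0, e0]
                · linarith only [c112_1_0, e1]
                · linarith only [C.a1, C.f11_0, C.o0, c110_0_1, c112_2_0]
                · rcases c0_11_22_33_k3_k_f33_8 C with ⟨c114_0_0, c114_0_1⟩ | ⟨c114_1_0, c114_1_1⟩
                  · linarith only [C.f33_7, C.o1, C.o2, c112_3_0, c114_0_1, c2_1_1, s2]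
                  · rcases c0_11_22_33_k3_k_p13_22A C with c117_0_0 | c117_1_0 | c117_2_0 | c117_3_0 | c117_4_0 | c117_5_0
                    · linarith only [c117_0_0, c1_0_0]
                    · linarith only [C.o2, c117_1_0, e2]
                    · linarith only [c117_2_0, e1]
                    · linarith only [C.f11_0, C.f33_0, C.o0, c0_0_1, c110_0_1, c117_3_0, s1]
                    · rcases c0_11_22_33_k3_k_p22_33A C with c120_0_0 | c120_1_0 | c120_2_0 | c120_3_0 | c120_4_0
                      · linarith only [c120_0_0, e1]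
                      · linarith only [c120_1_0, e2]
                      · linarith only [C.f11_0, C.o0, c120_2_0, s1]
                      · linarith only [C.f11_0, C.f11_1, C.o0, c0_0_1, c108_0_1, c111_1_1, c112_3_0, c117_4_0, c120_3_0, s2]
                      · linarith only [C.f22_6, C.o2, c111_1_1, c114_1_1, c120_4_0, c2_1_1]
                    · linarith only [C.f22_6, C.o2, c109_1_1, c111_1_1, c117_5_0, c2_1_1]
                · linarith only [C.b3, C.f11_0, C.f11_1, C.f11_2, C.f22_6, c111_1_1, c112_4_0, c2_1_1]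
            · rcases c0_11_22_33_k3_k_f22_5 C with ⟨c121_0_0, c121_0_1⟩ | ⟨c121_1_0, c121_1_1⟩
              · linarith only [C.a2, C.f22_4, c110_1_1, c121_0_1, c1_0_1]
              · rcases c0_11_22_33_k3_k_f23_3 C with ⟨c122_0_0, c122_0_1⟩ | ⟨c122_1_0, c122_1_1⟩ | ⟨c122_2_0, c122_2_1⟩
                · rcases c0_11_22_33_k3_k_f23_7 C with ⟨c123_0_0, c123_0_1⟩ | ⟨c123_1_0, c123_1_1⟩ | ⟨c123_2_0, c123_2_1⟩
                  · linarith only [C.a1, C.f23_5, c122_0_1, c123_0_1, c1_0_1]
                  · rcases c0_11_22_33_k3_k_f23_10 C with ⟨c124_0_0, c124_0_1⟩ | ⟨c124_1_0, c124_1_1⟩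
                    · linarith only [C.f23_9, C.o1, c123_1_1, c124_0_1, c2_1_1]
                    · rcases c0_11_22_33_k3_k_p13_23A C with c125_0_0 | c125_1_0 | c125_2_0 | c125_3_0 | c125_4_0 | c125_5_0
                      · linarith only [c125_0_0, c1_0_0]
                      · linarith only [C.o2, c125_1_0, e2]
                      · linarith only [C.a1, C.f23_1, C.o0, c122_0_1, c125_2_0, e0]
                      · linarith only [C.f11_0, C.f22_0, C.f33_0, C.o0, c0_0_1, c122_0_1, c125_3_0, s1]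
                      · rcases c0_11_22_33_k3_k_f33_8 C with ⟨c127_0_0, c127_0_1⟩ | ⟨c127_1_0, c127_1_1⟩
                        · linarith only [C.f11_0, C.f11_1, C.f22_4, C.f33_7, C.o0, C.o1, C.o2, c0_0_1, c108_0_1, c123_1_1, c125_4_0, c127_0_1, c2_1_1, s2]
                        · rcases c0_11_22_33_k3_k_p22_33A C with c135_0_0 | c135_1_0 | c135_2_0 | c135_3_0 | c135_4_0
                          · linarith only [c135_0_0, e1]
                          · linarith only [c135_1_0, e2]
                          · linarith only [C.f11_0, C.f11_1, C.f22_4, C.f23_1, C.f33_0, C.f33_3, C.o0, C.o1, c0_0_1, c108_0_1, c110_1_1, c122_0_1, c123_1_1, c125_4_0, c135_2_0, s2]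
                          · linarith only [C.f11_0, C.f11_1, C.o0, c0_0_1, c108_0_1, c123_1_1, c125_4_0, c135_3_0, s2]
                          · linarith only [C.f22_6, C.o2, c121_1_1, c127_1_1, c135_4_0, c2_1_1]
                      · linarith only [C.o2, c109_1_1, c124_1_1, c125_5_0]
                  · linarith only [C.f11_0, C.f11_1, C.f13_4, C.f22_4, C.f23_5, C.f33_4, C.o0, C.o1, C.o2, c0_0_1, c108_0_1, c123_2_1, s2]
                · rcases c0_11_22_33_k3_k_f33_2 C with ⟨c138_0_0, c138_0_1⟩ | ⟨c138_1_0, c138_1_1⟩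
                  · rcases c0_11_22_33_k3_k_p11_33B C with c139_0_0 | c139_1_0 | c139_2_0 | c139_3_0 | c139_4_0
                    · linarith only [c139_0_0, e0]
                    · linarith only [c139_1_0, e2]
                    · linarith only [C.a1, C.f11_0, C.o0, c138_0_1, c139_2_0]
                    · linarith only [C.f22_4, C.o1, c139_3_0, s2]
                    · rcases c0_11_22_33_k3_k_f33_8 C with ⟨c140_0_0, c140_0_1⟩ | ⟨c140_1_0, c140_1_1⟩
                      · linarith only [C.f11_2, C.f22_4, C.o1, c139_4_0, c140_0_1, c2_1_1, s2]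
                      · rcases c0_11_22_33_k3_k_p11_33A C with c141_0_0 | c141_1_0 | c141_2_0 | c141_3_0 | c141_4_0
                        · linarith only [c141_0_0, e0]
                        · linarith only [c141_1_0, e2]
                        · rcases c0_11_22_33_k3_k_p13_22A C with c143_0_0 | c143_1_0 | c143_2_0 | c143_3_0 | c143_4_0 | c143_5_0
                          · linarith only [c143_0_0, c1_0_0]
                          · linarith only [C.o2, c143_1_0, e2]
                          · linarith only [c143_2_0, e1]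
                          · linarith only [c0_0_1, c141_2_0, c143_3_0, s1]
                          · rcases c0_11_22_33_k3_k_p22_33A C with c148_0_0 | c148_1_0 | c148_2_0 | c148_3_0 | c148_4_0
                            · linarith only [c148_0_0, e1]
                            · linarith only [c148_1_0, e2]
                            · linarith only [C.f11_0, C.o0, c148_2_0, s1]
                            · linarith only [C.f11_1, C.f22_1, C.f23_0, c0_0_1, c108_0_1, c121_1_1, c122_1_1, c138_0_1, c141_2_0, c143_4_0, c148_3_0, s1, s2]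
                            · linarith only [C.f22_6, C.o2, c121_1_1, c140_1_1, c148_4_0, c2_1_1]
                          · linarith only [C.f22_6, C.o2, c109_1_1, c121_1_1, c143_5_0, c2_1_1]
                        · linarith only [C.f22_4, C.o1, c141_3_0, s2]
                        · linarith only [C.b3, C.f11_0, C.f11_1, C.f11_2, C.o2, c140_1_1, c141_4_0, c2_1_1]
                  · rcases c0_11_22_33_k3_k_f33_5 C with ⟨c149_0_0, c149_0_1⟩ | ⟨c149_1_0, c149_1_1⟩
                    · linarith only [C.a2, C.f33_4, c138_1_1, c149_0_1, c1_0_1]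
                    · rcases c0_11_22_33_k3_k_f33_8 C with ⟨c150_0_0, c150_0_1⟩ | ⟨c150_1_0, c150_1_1⟩
                      · linarith only [C.f13_4, C.f33_7, C.o1, c0_0_1, c108_0_1, c149_1_1, c150_0_1, c1_0_1, c2_1_1]
                      · rcases c0_11_22_33_k3_k_p11_33A C with c151_0_0 | c151_1_0 | c151_2_0 | c151_3_0 | c151_4_0
                        · linarith only [c151_0_0, e0]
                        · linarith only [c151_1_0, e2]
                        · rcases c0_11_22_33_k3_k_p13_22A C with c156_0_0 | c156_1_0 | c156_2_0 | c156_3_0 | c156_4_0 | c156_5_0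
                          · linarith only [c156_0_0, c1_0_0]
                          · linarith only [C.o2, c156_1_0, e2]
                          · linarith only [c156_2_0, e1]
                          · linarith only [c0_0_1, c151_2_0, c156_3_0, s1]
                          · linarith only [C.f11_1, C.f22_1, C.f33_4, C.o1, c0_0_1, c108_0_1, c138_1_1, c151_2_0, c156_4_0, s1, s2]
                          · linarith only [C.f22_6, C.o2, c109_1_1, c121_1_1, c156_5_0, c2_1_1]
                        · linarith only [C.f22_4, C.o1, c151_3_0, s2]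
                        · linarith only [C.b3, C.f11_0, C.f11_1, C.f11_2, C.o2, c150_1_1, c151_4_0, c2_1_1]
                · linarith only [C.f11_0, C.f11_1, C.f13_4, C.f22_4, C.f23_1, C.f33_4, C.o0, C.o1, C.o2, c0_0_1, c108_0_1, c122_2_1, s2]
        · rcases c0_11_22_33_k3_k_f13_8 C with ⟨c157_0_0, c157_0_1⟩ | ⟨c157_1_0, c157_1_1⟩
          · linarith only [C.a4, C.f13_7, C.o1, C.o2, c108_1_1, c157_0_1, c2_1_1]
          · rcases c0_11_22_33_k3_k_f22_2 C with ⟨c159_0_0, c159_0_1⟩ | ⟨c159_1_0, c159_1_1⟩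
            · rcases c0_11_22_33_k3_k_f22_5 C with ⟨c160_0_0, c160_0_1⟩ | ⟨c160_1_0, c160_1_1⟩
              · linarith only [C.f11_0, C.f11_1, C.f13_0, C.f13_3, C.f22_4, C.f33_0, C.f33_4, C.o0, C.o1, C.o2, c108_1_1, c159_0_1, c160_0_1, s1, s2]
              · rcases c0_11_22_33_k3_k_p11_22B C with c161_0_0 | c161_1_0 | c161_2_0 | c161_3_0 | c161_4_0
                · linarith only [c161_0_0, e0]
                · linarith only [c161_1_0, e1]
                · linarith only [C.f11_0, C.f33_0, C.o0, c159_0_1, c161_2_0, s1]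
                · rcases c0_11_22_33_k3_k_p11_13B C with c165_0_0 | c165_1_0 | c165_2_0 | c165_3_0 | c165_4_0 | c165_5_0
                  · linarith only [c165_0_0, e0]
                  · linarith only [c165_1_0, c1_0_0]
                  · linarith only [C.f11_0, C.f11_1, C.f13_0, C.f13_3, C.f22_1, C.f33_0, C.f33_4, C.o1, C.o2, c108_1_1, c159_0_1, c160_1_1, c161_3_0, c165_2_0, e0, s1, s2]
                  · linarith only [C.f11_0, C.f11_1, C.f13_3, C.f33_4, C.o1, C.o2, c108_1_1, c160_1_1, c161_3_0, c165_3_0, s2]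
                  · linarith only [C.f22_4, C.f33_4, C.o1, C.o2, c108_1_1, c165_4_0, s2]
                  · rcases c0_11_22_33_k3_k_p13_22A C with c168_0_0 | c168_1_0 | c168_2_0 | c168_3_0 | c168_4_0 | c168_5_0
                    · linarith only [c168_0_0, c1_0_0]
                    · linarith only [C.f11_0, C.f11_1, C.f11_2, C.f13_0, C.f13_3, C.f22_1, C.f22_4, C.f33_0, C.f33_4, C.o1, C.o2, c108_1_1, c157_1_1, c159_0_1, c165_5_0, c168_1_0, c2_1_1, e0, s1, s2]
                    · linarith only [c168_2_0, e1]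
                    · linarith only [C.f11_1, C.f11_2, C.f13_3, C.f22_4, C.f33_0, C.f33_4, C.o1, C.o2, c0_0_1, c108_1_1, c157_1_1, c159_0_1, c165_5_0, c168_3_0, c2_1_1, s1, s2]
                    · linarith only [C.f11_2, C.f33_4, C.o1, C.o2, c108_1_1, c157_1_1, c165_5_0, c168_4_0, c2_1_1, s2]
                    · linarith only [C.f22_6, C.o2, c157_1_1, c160_1_1, c168_5_0, c2_1_1]
                · linarith only [C.b3, C.f11_0, C.f11_1, C.f11_2, C.f22_6, c160_1_1, c161_4_0, c2_1_1]
            · rcases c0_11_22_33_k3_k_f22_5 C with ⟨c169_0_0, c169_0_1⟩ | ⟨c169_1_0, c169_1_1⟩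
              · linarith only [C.a2, C.f11_0, C.f11_1, C.f13_0, C.f13_3, C.f22_4, C.f33_4, C.o0, C.o1, C.o2, c108_1_1, c159_1_1, c169_0_1, s2]
              · rcases c0_11_22_33_k3_k_f23_3 C with ⟨c170_0_0, c170_0_1⟩ | ⟨c170_1_0, c170_1_1⟩ | ⟨c170_2_0, c170_2_1⟩
                · rcases c0_11_22_33_k3_k_f23_7 C with ⟨c171_0_0, c171_0_1⟩ | ⟨c171_1_0, c171_1_1⟩ | ⟨c171_2_0, c171_2_1⟩
                  · linarith only [C.a1, C.f11_0, C.f11_1, C.f13_0, C.f13_3, C.f22_4, C.f23_5, C.f33_4, C.o0, C.o1, C.o2, c108_1_1, c170_0_1, c171_0_1, s2]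
                  · rcases c0_11_22_33_k3_k_f23_10 C with ⟨c172_0_0, c172_0_1⟩ | ⟨c172_1_0, c172_1_1⟩
                    · linarith only [C.f23_9, C.o1, c171_1_1, c172_0_1, c2_1_1]
                    · rcases c0_11_22_33_k3_k_p13_23A C with c173_0_0 | c173_1_0 | c173_2_0 | c173_3_0 | c173_4_0 | c173_5_0
                      · linarith only [c173_0_0, c1_0_0]
                      · linarith only [C.o2, c173_1_0, e2]
                      · linarith only [C.a1, C.f23_1, C.o0, c170_0_1, c173_2_0, e0]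
                      · linarith only [C.f11_0, C.f22_0, C.f33_0, C.o0, c0_0_1, c170_0_1, c173_3_0, s1]
                      · rcases c0_11_22_33_k3_k_p11_13B C with c174_0_0 | c174_1_0 | c174_2_0 | c174_3_0 | c174_4_0 | c174_5_0
                        · linarith only [c174_0_0, e0]
                        · linarith only [c174_1_0, c1_0_0]
                        · linarith only [C.o2, c174_2_0, e2]
                        · rcases c0_11_22_33_k3_k_p11_22B C with c178_0_0 | c178_1_0 | c178_2_0 | c178_3_0 | c178_4_0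
                          · linarith only [c178_0_0, e0]
                          · linarith only [c178_1_0, e1]
                          · rcases c0_11_22_33_k3_k_p11_23A C with c179_0_0 | c179_1_0 | c179_2_0 | c179_3_0 | c179_4_0 | c179_5_0
                            · linarith only [c179_0_0, e0]
                            · linarith only [C.o2, c108_1_1, c171_1_1, c173_4_0, c179_1_0, e2]
                            · linarith only [C.o2, c179_2_0, e2]
                            · linarith only [C.f11_0, C.f33_0, C.o0, c170_0_1, c178_2_0, c179_3_0, s1]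
                            · linarith only [C.f11_0, C.f22_4, C.f23_1, C.f33_0, C.f33_4, C.o0, C.o2, c108_1_1, c159_1_1, c170_0_1, c171_1_1, c173_4_0, c178_2_0, c179_4_0, s1, s2]
                            · linarith only [C.f11_0, C.f11_2, C.f22_4, C.f23_1, C.f33_0, C.f33_4, C.o0, C.o2, c108_1_1, c159_1_1, c170_0_1, c171_1_1, c172_1_1, c173_4_0, c178_2_0, c179_5_0, c2_1_1, s1, s2]
                          · linarith only [C.f11_0, C.f11_1, C.f13_3, C.f33_4, C.o1, C.o2, c108_1_1, c169_1_1, c174_3_0, c178_3_0, s2]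
                          · linarith only [C.f11_0, C.f11_1, C.f11_2, C.f13_3, C.f22_6, C.f33_4, C.o1, C.o2, c108_1_1, c169_1_1, c174_3_0, c178_4_0, c2_1_1, s2]
                        · linarith only [C.f22_4, C.f33_4, C.o1, C.o2, c108_1_1, c174_4_0, s2]
                        · linarith only [C.f11_2, C.f22_4, C.f33_4, C.o1, C.o2, c108_1_1, c157_1_1, c171_1_1, c173_4_0, c174_5_0, c2_1_1, s2]
                      · linarith only [C.o2, c157_1_1, c172_1_1, c173_5_0]
                  · linarith only [C.a4, C.f23_5, C.o2, c171_2_1]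
                · rcases c0_11_22_33_k3_k_f33_2 C with ⟨c182_0_0, c182_0_1⟩ | ⟨c182_1_0, c182_1_1⟩
                  · rcases c0_11_22_33_k3_k_f33_5 C with ⟨c183_0_0, c183_0_1⟩ | ⟨c183_1_0, c183_1_1⟩
                    · linarith only [C.f11_0, C.f13_0, C.f13_3, C.f22_0, C.f33_4, C.o0, C.o2, c108_1_1, c182_0_1, c183_0_1, s1]
                    · rcases c0_11_22_33_k3_k_f33_8 C with ⟨c184_0_0, c184_0_1⟩ | ⟨c184_1_0, c184_1_1⟩
                      · linarith only [C.f23_2, C.f33_7, C.o1, c170_1_1, c183_1_1, c184_0_1, c2_1_1]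
                      · rcases c0_11_22_33_k3_k_p11_33A C with c185_0_0 | c185_1_0 | c185_2_0 | c185_3_0 | c185_4_0
                        · linarith only [c185_0_0, e0]
                        · linarith only [c185_1_0, e2]
                        · rcases c0_11_22_33_k3_k_p11_22B C with c186_0_0 | c186_1_0 | c186_2_0 | c186_3_0 | c186_4_0
                          · linarith only [c186_0_0, e0]
                          · linarith only [c186_1_0, e1]
                          · linarith only [C.f11_0, C.o0, c185_2_0, c186_2_0, s1]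
                          · rcases c0_11_22_33_k3_k_p11_13B C with c187_0_0 | c187_1_0 | c187_2_0 | c187_3_0 | c187_4_0 | c187_5_0
                            · linarith only [c187_0_0, e0]
                            · linarith only [c187_1_0, c1_0_0]
                            · linarith only [C.o2, c187_2_0, e2]
                            · linarith only [C.f11_0, C.f11_1, C.f13_3, C.f33_4, C.o1, C.o2, c108_1_1, c169_1_1, c186_3_0, c187_3_0, s2]
                            · linarith only [C.f22_4, C.f33_4, C.o1, C.o2, c108_1_1, c187_4_0, s2]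
                            · rcases c0_11_22_33_k3_k_p13_22A C with c189_0_0 | c189_1_0 | c189_2_0 | c189_3_0 | c189_4_0 | c189_5_0
                              · linarith only [c189_0_0, c1_0_0]
                              · linarith only [C.f11_2, C.f22_1, C.f22_4, C.f33_4, C.o1, C.o2, c157_1_1, c185_2_0, c187_5_0, c189_1_0, c1_0_0, c2_1_1, s1, s2]
                              · linarith only [c189_2_0, e1]
                              · linarith only [c0_0_1, c185_2_0, c189_3_0, s1]
                              · linarith only [C.f11_2, C.f33_4, C.o1, C.o2, c108_1_1, c157_1_1, c187_5_0, c189_4_0, c2_1_1, s2]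
                              · linarith only [C.f22_6, C.o2, c157_1_1, c169_1_1, c189_5_0, c2_1_1]
                          · linarith only [C.b3, C.f11_0, C.f11_1, C.f11_2, C.f22_6, c169_1_1, c186_4_0, c2_1_1]
                        · linarith only [C.f22_4, C.o1, c185_3_0, s2]
                        · linarith only [C.b3, C.f11_0, C.f11_1, C.f11_2, C.o2, c184_1_1, c185_4_0, c2_1_1]
                  · rcases c0_11_22_33_k3_k_f33_5 C with ⟨c190_0_0, c190_0_1⟩ | ⟨c190_1_0, c190_1_1⟩
                    · linarith only [C.f11_0, C.f11_1, C.f13_0, C.f13_3, C.f22_1, C.f22_4, C.f33_4, C.o0, C.o1, C.o2, c108_1_1, c182_1_1, c190_0_1, s1, s2]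
                    · rcases c0_11_22_33_k3_k_f33_8 C with ⟨c191_0_0, c191_0_1⟩ | ⟨c191_1_0, c191_1_1⟩
                      · linarith only [C.f23_2, C.f33_7, C.o1, c170_1_1, c190_1_1, c191_0_1, c2_1_1]
                      · rcases c0_11_22_33_k3_k_p11_33A C with c192_0_0 | c192_1_0 | c192_2_0 | c192_3_0 | c192_4_0
                        · linarith only [c192_0_0, e0]
                        · linarith only [c192_1_0, e2]
                        · rcases c0_11_22_33_k3_k_p11_22B C with c193_0_0 | c193_1_0 | c193_2_0 | c193_3_0 | c193_4_0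
                          · linarith only [c193_0_0, e0]
                          · linarith only [c193_1_0, e1]
                          · linarith only [C.f11_0, C.o0, c192_2_0, c193_2_0, s1]
                          · rcases c0_11_22_33_k3_k_p11_13B C with c194_0_0 | c194_1_0 | c194_2_0 | c194_3_0 | c194_4_0 | c194_5_0
                            · linarith only [c194_0_0, e0]
                            · linarith only [c194_1_0, c1_0_0]
                            · linarith only [C.o2, c194_2_0, e2]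
                            · linarith only [C.f11_0, C.f11_1, C.f13_3, C.f33_4, C.o1, C.o2, c108_1_1, c169_1_1, c193_3_0, c194_3_0, s2]
                            · linarith only [C.f22_4, C.f33_4, C.o1, C.o2, c108_1_1, c194_4_0, s2]
                            · rcases c0_11_22_33_k3_k_p13_22A C with c196_0_0 | c196_1_0 | c196_2_0 | c196_3_0 | c196_4_0 | c196_5_0
                              · linarith only [c196_0_0, c1_0_0]
                              · linarith only [C.o2, c196_1_0, e2]
                              · linarith only [c196_2_0, e1]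
                              · linarith only [C.f11_1, C.f11_2, C.f13_3, C.f33_1, C.o2, c0_0_1, c108_1_1, c157_1_1, c159_1_1, c194_5_0, c196_3_0, c2_1_1, s1]
                              · linarith only [C.f11_2, C.f33_4, C.o1, C.o2, c108_1_1, c157_1_1, c194_5_0, c196_4_0, c2_1_1, s2]
                              · linarith only [C.f22_6, C.o2, c157_1_1, c169_1_1, c196_5_0, c2_1_1]
                          · linarith only [C.b3, C.f11_0, C.f11_1, C.f11_2, C.f22_6, c169_1_1, c193_4_0, c2_1_1]
                        · linarith only [C.f22_4, C.o1, c192_3_0, s2]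
                        · linarith only [C.b3, C.f11_0, C.f11_1, C.f11_2, C.o2, c191_1_1, c192_4_0, c2_1_1]
                · linarith only [C.a4, C.f23_1, C.o2, c170_2_1]
    · rcases c0_11_22_33_k3_k_t23 C with ⟨c197_0_0, c197_0_1⟩ | ⟨c197_1_0, c197_1_1⟩
      · rcases c0_11_22_33_k3_k_f13_5 C with ⟨c198_0_0, c198_0_1⟩ | ⟨c198_1_0, c198_1_1⟩
        · rcases c0_11_22_33_k3_k_f13_8 C with ⟨c199_0_0, c199_0_1⟩ | ⟨c199_1_0, c199_1_1⟩
          · linarith only [C.b5, C.f13_7, C.o0, c0_0_1, c198_0_1, c199_0_1, c1_1_1]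
          · rcases c0_11_22_33_k3_k_f22_2 C with ⟨c200_0_0, c200_0_1⟩ | ⟨c200_1_0, c200_1_1⟩
            · rcases c0_11_22_33_k3_k_f22_5 C with ⟨c201_0_0, c201_0_1⟩ | ⟨c201_1_0, c201_1_1⟩
              · linarith only [C.a3, C.f11_0, C.f22_4, C.f33_0, C.o0, C.o1, c200_0_1, c201_0_1, s1]
              · rcases c0_11_22_33_k3_k_p13_22A C with c202_0_0 | c202_1_0 | c202_2_0 | c202_3_0 | c202_4_0 | c202_5_0
                · linarith only [C.o0, c202_0_0, e0]
                · linarith only [C.o2, c202_1_0, e2]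
                · linarith only [c202_2_0, e1]
                · linarith only [C.f11_0, C.f33_0, C.o0, c0_0_1, c200_0_1, c202_3_0, s1]
                · rcases c0_11_22_33_k3_k_f23_3 C with ⟨c203_0_0, c203_0_1⟩ | ⟨c203_1_0, c203_1_1⟩ | ⟨c203_2_0, c203_2_1⟩
                  · rcases c0_11_22_33_k3_k_f23_7 C with ⟨c204_0_0, c204_0_1⟩ | ⟨c204_1_0, c204_1_1⟩ | ⟨c204_2_0, c204_2_1⟩
                    · linarith only [C.a1, C.a3, C.f23_5, c203_0_1, c204_0_1]
                    · rcases c0_11_22_33_k3_k_f23_10 C with ⟨c205_0_0, c205_0_1⟩ | ⟨c205_1_0, c205_1_1⟩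
                      · linarith only [C.b5, C.f23_9, C.o0, c0_0_1, c198_0_1, c1_1_1, c201_1_1, c202_4_0, c204_1_1, c205_0_1]
                      · rcases c0_11_22_33_k3_k_f33_8 C with ⟨c207_0_0, c207_0_1⟩ | ⟨c207_1_0, c207_1_1⟩
                        · linarith only [C.f11_0, C.f11_1, C.f11_2, C.f22_6, C.f33_7, C.o0, c0_0_1, c198_0_1, c202_4_0, c207_0_1, s2, s3]
                        · rcases c0_11_22_33_k3_k_p11_33A C with c209_0_0 | c209_1_0 | c209_2_0 | c209_3_0 | c209_4_0
                          · linarith only [c209_0_0, e0]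
                          · linarith only [c209_1_0, e2]
                          · rcases c0_11_22_33_k3_k_p13_23A C with c212_0_0 | c212_1_0 | c212_2_0 | c212_3_0 | c212_4_0 | c212_5_0
                            · linarith only [C.o0, c212_0_0, e0]
                            · linarith only [C.f11_0, C.f11_1, C.f22_1, C.f33_0, C.f33_4, C.o0, C.o2, c0_0_1, c198_0_1, c1_1_1, c200_0_1, c201_1_1, c202_4_0, c212_1_0, e0, s1, s2]
                            · linarith only [C.f11_0, C.f22_1, C.f33_0, C.o0, c0_0_1, c198_0_1, c1_1_1, c200_0_1, c201_1_1, c202_4_0, c212_2_0, e0, s1]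
                            · linarith only [C.f11_0, C.f22_0, C.f33_0, C.o0, c0_0_1, c203_0_1, c212_3_0, s1]
                            · linarith only [C.f11_1, C.f22_4, C.f33_3, C.o0, c0_0_1, c198_0_1, c1_1_1, c204_1_1, c209_2_0, c212_4_0, s2]
                            · linarith only [C.o2, c199_1_1, c205_1_1, c212_5_0]
                          · linarith only [C.f22_4, C.o0, c0_0_1, c198_0_1, c1_1_1, c202_4_0, c209_3_0, s2]
                          · linarith only [C.f11_0, C.f11_1, C.f11_2, C.f22_4, C.f22_6, c1_1_1, c207_1_1, c209_4_0, s3]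
                    · linarith only [C.f11_0, C.f11_1, C.f13_4, C.f22_4, C.f23_5, C.f33_4, C.o0, C.o1, C.o2, c0_0_1, c198_0_1, c204_2_1, s2]
                  · linarith only [C.f22_1, C.f23_0, C.o0, c0_0_1, c198_0_1, c1_1_1, c200_0_1, c201_1_1, c202_4_0, c203_1_1]
                  · linarith only [C.f11_0, C.f11_1, C.f22_1, C.f23_0, C.f33_4, C.o0, C.o2, c0_0_1, c198_0_1, c1_1_1, c200_0_1, c201_1_1, c202_4_0, c203_2_1, s2]
                · linarith only [C.b5, C.f22_6, C.o2, c199_1_1, c201_1_1, c202_5_0]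
            · rcases c0_11_22_33_k3_k_f22_5 C with ⟨c213_0_0, c213_0_1⟩ | ⟨c213_1_0, c213_1_1⟩
              · linarith only [C.a3, C.f22_4, c197_0_0, c200_1_1, c213_0_1]
              · rcases c0_11_22_33_k3_k_f23_3 C with ⟨c214_0_0, c214_0_1⟩ | ⟨c214_1_0, c214_1_1⟩ | ⟨c214_2_0, c214_2_1⟩
                · rcases c0_11_22_33_k3_k_f23_7 C with ⟨c215_0_0, c215_0_1⟩ | ⟨c215_1_0, c215_1_1⟩ | ⟨c215_2_0, c215_2_1⟩
                  · linarith only [C.a1, C.f11_0, C.f11_1, C.f22_4, C.f23_5, C.f33_0, C.f33_3, C.o0, C.o1, c214_0_1, c215_0_1, s2]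
                  · rcases c0_11_22_33_k3_k_tmpp C with c217_0_0 | c217_1_0 | c217_2_0 | c217_3_0
                    · linarith only [C.f11_0, C.f22_0, C.f33_0, C.o0, c217_0_0, s1]
                    · linarith only [C.f11_0, C.f22_1, C.f23_1, C.f33_0, C.o0, C.o1, c214_0_1, c217_1_0, s1]
                    · linarith only [c217_2_0, e0]
                    · rcases c0_11_22_33_k3_k_f33_2 C with ⟨c218_0_0, c218_0_1⟩ | ⟨c218_1_0, c218_1_1⟩
                      · rcases c0_11_22_33_k3_k_f33_8 C with ⟨c219_0_0, c219_0_1⟩ | ⟨c219_1_0, c219_1_1⟩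
                        · linarith only [C.b5, C.f11_0, C.f11_1, C.f22_4, C.f33_7, C.o1, C.o2, c217_3_0, c219_0_1, s2]
                        · rcases c0_11_22_33_k3_k_p11_33A C with c220_0_0 | c220_1_0 | c220_2_0 | c220_3_0 | c220_4_0
                          · linarith only [c220_0_0, e0]
                          · linarith only [c220_1_0, e2]
                          · rcases c0_11_22_33_k3_k_p13_22A C with c222_0_0 | c222_1_0 | c222_2_0 | c222_3_0 | c222_4_0 | c222_5_0
                            · linarith only [C.o0, c222_0_0, e0]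
                            · linarith only [C.o2, c222_1_0, e2]
                            · linarith only [c222_2_0, e1]
                            · linarith only [C.f11_0, C.f11_1, C.f22_4, C.f23_1, C.f33_0, C.f33_3, C.o0, c0_0_1, c200_1_1, c214_0_1, c217_3_0, c222_3_0, s1, s2]
                            · rcases c0_11_22_33_k3_k_f23_10 C with ⟨c223_0_0, c223_0_1⟩ | ⟨c223_1_0, c223_1_1⟩
                              · linarith only [C.b5, C.f23_9, C.o0, c0_0_1, c198_0_1, c1_1_1, c213_1_1, c215_1_1, c222_4_0, c223_0_1]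
                              · rcases c0_11_22_33_k3_k_p13_23A C with c226_0_0 | c226_1_0 | c226_2_0 | c226_3_0 | c226_4_0 | c226_5_0
                                · linarith only [C.a1, C.f11_0, c218_0_1, c220_2_0, c226_0_0, e0]
                                · linarith only [C.o2, c226_1_0, e2]
                                · linarith only [C.a0, C.a1, C.f11_0, C.f22_1, c0_0_1, c198_0_1, c1_1_1, c213_1_1, c218_0_1, c220_2_0, c222_4_0, c226_2_0, s1]
                                · linarith only [C.f11_0, C.f22_0, C.f33_0, C.o0, c0_0_1, c214_0_1, c226_3_0, s1]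
                                · linarith only [C.f11_1, C.f22_4, C.f33_3, C.o0, c0_0_1, c198_0_1, c1_1_1, c215_1_1, c220_2_0, c226_4_0, s2]
                                · linarith only [C.o2, c199_1_1, c223_1_1, c226_5_0]
                            · linarith only [C.b5, C.f22_6, C.o2, c199_1_1, c213_1_1, c222_5_0]
                          · linarith only [C.f22_4, C.o1, c220_3_0, s2]
                          · linarith only [C.b5, C.f11_0, C.f11_1, C.f11_2, C.o2, c1_1_1, c219_1_1, c220_4_0]
                      · linarith only [C.f11_0, C.f11_1, C.f22_4, C.f23_1, C.f33_0, C.f33_4, C.o1, c214_0_1, c217_3_0, c218_1_1, s2]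
                  · linarith only [C.f11_0, C.f11_1, C.f13_4, C.f22_4, C.f23_5, C.f33_4, C.o0, C.o1, C.o2, c0_0_1, c198_0_1, c215_2_1, s2]
                · rcases c0_11_22_33_k3_k_f23_7 C with ⟨c227_0_0, c227_0_1⟩ | ⟨c227_1_0, c227_1_1⟩ | ⟨c227_2_0, c227_2_1⟩
                  · linarith only [C.a3, C.f23_5, c197_0_0, c214_1_1, c227_0_1]
                  · rcases c0_11_22_33_k3_k_f23_10 C with ⟨c229_0_0, c229_0_1⟩ | ⟨c229_1_0, c229_1_1⟩
                    · rcases c0_11_22_33_k3_k_p13_22A C with c231_0_0 | c231_1_0 | c231_2_0 | c231_3_0 | c231_4_0 | c231_5_0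
                      · linarith only [C.o0, c231_0_0, e0]
                      · linarith only [C.o2, c231_1_0, e2]
                      · linarith only [c231_2_0, e1]
                      · rcases c0_11_22_33_k3_k_p11_33A C with c232_0_0 | c232_1_0 | c232_2_0 | c232_3_0 | c232_4_0
                        · linarith only [c232_0_0, e0]
                        · linarith only [c232_1_0, e2]
                        · linarith only [c0_0_1, c231_3_0, c232_2_0, s1]
                        · linarith only [C.f22_4, C.o1, c232_3_0, s2]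
                        · rcases c0_11_22_33_k3_k_f33_8 C with ⟨c233_0_0, c233_0_1⟩ | ⟨c233_1_0, c233_1_1⟩
                          · linarith only [C.f11_2, C.f22_4, C.f22_6, c0_0_1, c197_0_0, c200_1_1, c231_3_0, c232_4_0, c233_0_1, s2, s3]
                          · linarith only [C.f11_0, C.f11_1, C.f11_2, C.f22_4, C.f22_6, c1_1_1, c232_4_0, c233_1_1, s3]
                      · linarith only [C.b5, C.f23_9, C.o0, c0_0_1, c198_0_1, c1_1_1, c213_1_1, c227_1_1, c229_0_1, c231_4_0]
                      · linarith only [C.b5, C.f22_6, C.o2, c199_1_1, c213_1_1, c231_5_0]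
                    · rcases c0_11_22_33_k3_k_f33_2 C with ⟨c234_0_0, c234_0_1⟩ | ⟨c234_1_0, c234_1_1⟩
                      · rcases c0_11_22_33_k3_k_p11_33B C with c235_0_0 | c235_1_0 | c235_2_0 | c235_3_0 | c235_4_0
                        · linarith only [c235_0_0, e0]
                        · linarith only [c235_1_0, e2]
                        · linarith only [C.f11_0, C.f22_1, C.f23_0, C.o0, C.o1, c214_1_1, c234_0_1, c235_2_0, s1]
                        · linarith only [C.f22_4, C.o1, c235_3_0, s2]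
                        · rcases c0_11_22_33_k3_k_f33_8 C with ⟨c236_0_0, c236_0_1⟩ | ⟨c236_1_0, c236_1_1⟩
                          · linarith only [C.f11_2, C.f22_4, C.f23_5, C.f23_8, C.o1, c229_1_1, c235_4_0, c236_0_1, s2]
                          · rcases c0_11_22_33_k3_k_p11_33A C with c237_0_0 | c237_1_0 | c237_2_0 | c237_3_0 | c237_4_0
                            · linarith only [c237_0_0, e0]
                            · linarith only [c237_1_0, e2]
                            · rcases c0_11_22_33_k3_k_p13_22A C with c238_0_0 | c238_1_0 | c238_2_0 | c238_3_0 | c238_4_0 | c238_5_0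
                              · linarith only [C.o0, c238_0_0, e0]
                              · linarith only [C.o2, c238_1_0, e2]
                              · linarith only [c238_2_0, e1]
                              · linarith only [c0_0_1, c237_2_0, c238_3_0, s1]
                              · rcases c0_11_22_33_k3_k_p13_23A C with c242_0_0 | c242_1_0 | c242_2_0 | c242_3_0 | c242_4_0 | c242_5_0
                                · linarith only [C.f11_0, C.f22_1, C.f23_0, c0_0_1, c198_0_1, c1_1_1, c213_1_1, c214_1_1, c234_0_1, c237_2_0, c238_4_0, c242_0_0, e0, s1]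
                                · linarith only [C.f11_0, C.f11_1, C.f22_1, C.f23_0, C.f33_4, C.o2, c0_0_1, c198_0_1, c1_1_1, c213_1_1, c214_1_1, c234_0_1, c237_2_0, c238_4_0, c242_1_0, e0, s1, s2]
                                · linarith only [C.f11_0, C.f22_1, C.f23_0, c0_0_1, c198_0_1, c1_1_1, c213_1_1, c214_1_1, c234_0_1, c237_2_0, c238_4_0, c242_2_0, e0, s1]
                                · linarith only [C.f11_0, C.f22_1, C.f23_0, c0_0_1, c198_0_1, c1_1_1, c213_1_1, c214_1_1, c234_0_1, c237_2_0, c238_4_0, c242_3_0, s1]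
                                · linarith only [C.f11_0, C.f22_1, C.f23_0, c0_0_1, c198_0_1, c1_1_1, c214_1_1, c227_1_1, c234_0_1, c237_2_0, c242_4_0, s1]
                                · linarith only [C.o2, c199_1_1, c229_1_1, c242_5_0]
                              · linarith only [C.b5, C.f22_6, C.o2, c199_1_1, c213_1_1, c238_5_0]
                            · linarith only [C.f22_4, C.o1, c237_3_0, s2]
                            · linarith only [C.f11_0, C.f11_1, C.f11_2, C.f22_4, C.f22_6, c1_1_1, c236_1_1, c237_4_0, s3]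
                      · rcases c0_11_22_33_k3_k_f33_5 C with ⟨c243_0_0, c243_0_1⟩ | ⟨c243_1_0, c243_1_1⟩
                        · linarith only [C.a3, C.f33_4, c197_0_0, c234_1_1, c243_0_1]
                        · rcases c0_11_22_33_k3_k_f33_8 C with ⟨c244_0_0, c244_0_1⟩ | ⟨c244_1_0, c244_1_1⟩
                          · linarith only [C.f11_0, C.f11_1, C.f11_2, C.f13_4, C.f22_4, C.f22_6, C.f23_5, C.f23_8, C.f33_7, C.o0, C.o1, c0_0_1, c198_0_1, c229_1_1, c243_1_1, c244_0_1, s2, s3]
                          · rcases c0_11_22_33_k3_k_p11_33A C with c245_0_0 | c245_1_0 | c245_2_0 | c245_3_0 | c245_4_0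
                            · linarith only [c245_0_0, e0]
                            · linarith only [c245_1_0, e2]
                            · rcases c0_11_22_33_k3_k_p13_22A C with c248_0_0 | c248_1_0 | c248_2_0 | c248_3_0 | c248_4_0 | c248_5_0
                              · linarith only [C.f11_0, c234_1_1, c245_2_0, c248_0_0, e0, e2]
                              · linarith only [C.f11_0, C.f13_4, C.f22_1, c0_0_1, c198_0_1, c1_1_1, c234_1_1, c245_2_0, c248_1_0, e2, s1]
                              · linarith only [c248_2_0, e1]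
                              · linarith only [c0_0_1, c245_2_0, c248_3_0, s1]
                              · linarith only [C.f11_1, C.f22_1, C.f33_4, C.o1, c0_0_1, c198_0_1, c234_1_1, c245_2_0, c248_4_0, s1, s2]
                              · linarith only [C.f11_0, C.f11_1, C.f11_2, C.f13_4, C.f22_1, C.f22_6, C.f33_7, c0_0_1, c198_0_1, c199_1_1, c1_1_1, c213_1_1, c234_1_1, c245_2_0, c248_5_0, s1, s3]
                            · linarith only [C.f22_4, C.o1, c245_3_0, s2]
                            · linarith only [C.f11_0, C.f11_1, C.f11_2, C.f22_4, C.f22_6, c1_1_1, c244_1_1, c245_4_0, s3]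
                  · linarith only [C.f11_0, C.f11_1, C.f13_4, C.f22_4, C.f23_5, C.f33_4, C.o0, C.o1, C.o2, c0_0_1, c198_0_1, c227_2_1, s2]
                · linarith only [C.f11_0, C.f11_1, C.f13_4, C.f22_4, C.f23_1, C.f33_4, C.o0, C.o1, C.o2, c0_0_1, c198_0_1, c214_2_1, s2]
        · rcases c0_11_22_33_k3_k_f13_8 C with ⟨c249_0_0, c249_0_1⟩ | ⟨c249_1_0, c249_1_1⟩
          · linarith only [C.a4, C.f13_7, c197_0_1, c198_1_1, c249_0_1]
          · rcases c0_11_22_33_k3_k_f22_2 C with ⟨c251_0_0, c251_0_1⟩ | ⟨c251_1_0, c251_1_1⟩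
            · rcases c0_11_22_33_k3_k_f22_5 C with ⟨c252_0_0, c252_0_1⟩ | ⟨c252_1_0, c252_1_1⟩
              · linarith only [C.f11_0, C.f11_1, C.f13_0, C.f13_3, C.f22_4, C.f33_0, C.f33_4, C.o0, C.o1, C.o2, c198_1_1, c251_0_1, c252_0_1, s1, s2]
              · rcases c0_11_22_33_k3_k_p13_22A C with c253_0_0 | c253_1_0 | c253_2_0 | c253_3_0 | c253_4_0 | c253_5_0
                · linarith only [C.o0, c253_0_0, e0]
                · linarith only [C.o2, c253_1_0, e2]
                · linarith only [c253_2_0, e1]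
                · linarith only [C.f11_0, C.f33_0, C.o0, c0_0_1, c251_0_1, c253_3_0, s1]
                · rcases c0_11_22_33_k3_k_p11_22B C with c255_0_0 | c255_1_0 | c255_2_0 | c255_3_0 | c255_4_0
                  · linarith only [c255_0_0, e0]
                  · linarith only [c255_1_0, e1]
                  · linarith only [C.a1, C.f11_0, C.o0, c251_0_1, c255_2_0]
                  · linarith only [C.f33_4, C.o1, C.o2, c198_1_1, c252_1_1, c253_4_0, c255_3_0, s2]
                  · linarith only [C.b5, C.f11_2, C.f22_6, C.f33_4, C.o1, C.o2, c198_1_1, c252_1_1, c253_4_0, c255_4_0, s2]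
                · linarith only [C.b5, C.f22_6, C.o2, c249_1_1, c252_1_1, c253_5_0]
            · rcases c0_11_22_33_k3_k_f22_5 C with ⟨c256_0_0, c256_0_1⟩ | ⟨c256_1_0, c256_1_1⟩
              · linarith only [C.f11_0, C.f11_1, C.f13_0, C.f13_3, C.f22_4, C.f33_4, C.o0, C.o1, C.o2, c197_0_0, c198_1_1, c251_1_1, c256_0_1, s2]
              · rcases c0_11_22_33_k3_k_f23_3 C with ⟨c257_0_0, c257_0_1⟩ | ⟨c257_1_0, c257_1_1⟩ | ⟨c257_2_0, c257_2_1⟩
                · rcases c0_11_22_33_k3_k_tmpp C with c259_0_0 | c259_1_0 | c259_2_0 | c259_3_0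
                  · linarith only [C.f11_0, C.f22_0, C.f33_0, C.o0, c259_0_0, s1]
                  · linarith only [C.f11_0, C.f22_1, C.f23_1, C.f33_0, C.o0, C.o1, c257_0_1, c259_1_0, s1]
                  · linarith only [c259_2_0, e0]
                  · rcases c0_11_22_33_k3_k_p13_22A C with c266_0_0 | c266_1_0 | c266_2_0 | c266_3_0 | c266_4_0 | c266_5_0
                    · linarith only [C.f11_0, C.f11_1, C.f13_0, C.f13_3, C.f22_4, C.f33_4, C.o1, C.o2, c198_1_1, c259_3_0, c266_0_0, e0, s2]
                    · linarith only [C.o2, c266_1_0, e2]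
                    · linarith only [c266_2_0, e1]
                    · linarith only [C.f11_0, C.f11_1, C.f13_3, C.f22_4, C.f23_1, C.f33_0, C.f33_4, C.o1, C.o2, c0_0_1, c198_1_1, c251_1_1, c257_0_1, c259_3_0, c266_3_0, s1, s2]
                    · linarith only [C.f11_0, C.f11_1, C.f33_4, C.o1, C.o2, c198_1_1, c259_3_0, c266_4_0, s2]
                    · linarith only [C.b5, C.f22_6, C.o2, c249_1_1, c256_1_1, c266_5_0]
                · rcases c0_11_22_33_k3_k_f23_7 C with ⟨c267_0_0, c267_0_1⟩ | ⟨c267_1_0, c267_1_1⟩ | ⟨c267_2_0, c267_2_1⟩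
                  · linarith only [C.f11_0, C.f11_1, C.f13_0, C.f13_3, C.f22_4, C.f23_5, C.f33_4, C.o0, C.o1, C.o2, c197_0_0, c198_1_1, c257_1_1, c267_0_1, s2]
                  · rcases c0_11_22_33_k3_k_f23_10 C with ⟨c268_0_0, c268_0_1⟩ | ⟨c268_1_0, c268_1_1⟩
                    · rcases c0_11_22_33_k3_k_tpmm C with c270_0_0 | c270_1_0 | c270_2_0 | c270_3_0 | c270_4_0
                      · linarith only [C.o0, c270_0_0, e0]
                      · linarith only [C.f11_0, C.f11_1, C.f13_0, C.f13_3, C.f22_4, C.f33_4, C.o0, C.o1, C.o2, c198_1_1, c270_1_0, s2]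
                      · linarith only [C.a1, C.o0, c270_2_0]
                      · linarith only [C.b5, C.f23_9, C.o0, c197_0_0, c267_1_1, c268_0_1, c270_3_0]
                      · rcases c0_11_22_33_k3_k_p11_33A C with c271_0_0 | c271_1_0 | c271_2_0 | c271_3_0 | c271_4_0
                        · linarith only [c271_0_0, e0]
                        · linarith only [c271_1_0, e2]
                        · rcases c0_11_22_33_k3_k_p13_22A C with c272_0_0 | c272_1_0 | c272_2_0 | c272_3_0 | c272_4_0 | c272_5_0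
                          · linarith only [C.o0, c272_0_0, e0]
                          · linarith only [C.o2, c272_1_0, e2]
                          · linarith only [c272_2_0, e1]
                          · linarith only [c0_0_1, c271_2_0, c272_3_0, s1]
                          · rcases c0_11_22_33_k3_k_p11_13B C with c273_0_0 | c273_1_0 | c273_2_0 | c273_3_0 | c273_4_0 | c273_5_0
                            · linarith only [c273_0_0, e0]
                            · linarith only [C.o0, c273_1_0, e0]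
                            · linarith only [C.o2, c273_2_0, e2]
                            · rcases c0_11_22_33_k3_k_p11_22B C with c277_0_0 | c277_1_0 | c277_2_0 | c277_3_0 | c277_4_0
                              · linarith only [c277_0_0, e0]
                              · linarith only [c277_1_0, e1]
                              · linarith only [C.b5, C.f11_0, C.f23_9, C.o0, c197_0_0, c251_1_1, c267_1_1, c268_0_1, c277_2_0]
                              · linarith only [C.f11_0, C.f11_1, C.f13_3, C.f33_4, C.o1, C.o2, c198_1_1, c256_1_1, c273_3_0, c277_3_0, s2]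
                              · linarith only [C.b5, C.f11_0, C.f11_1, C.f11_2, C.f13_3, C.f22_6, C.f33_4, C.o1, C.o2, c198_1_1, c256_1_1, c273_3_0, c277_4_0, s2]
                            · linarith only [C.f22_4, C.f33_4, C.o1, C.o2, c198_1_1, c273_4_0, s2]
                            · linarith only [C.f11_2, C.f33_4, c197_0_1, c198_1_1, c249_1_1, c272_4_0, c273_5_0, s2]
                          · linarith only [C.b5, C.f22_6, C.o2, c249_1_1, c256_1_1, c272_5_0]
                        · linarith only [C.f22_4, C.o1, c271_3_0, s2]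
                        · linarith only [C.f22_4, C.f22_6, C.f23_9, C.o1, c267_1_1, c268_0_1, c270_4_0, c271_4_0, s3]
                    · rcases c0_11_22_33_k3_k_f33_2 C with ⟨c278_0_0, c278_0_1⟩ | ⟨c278_1_0, c278_1_1⟩
                      · rcases c0_11_22_33_k3_k_f33_5 C with ⟨c279_0_0, c279_0_1⟩ | ⟨c279_1_0, c279_1_1⟩
                        · linarith only [C.f11_0, C.f13_0, C.f13_3, C.f22_0, C.f33_4, C.o0, C.o2, c198_1_1, c278_0_1, c279_0_1, s1]
                        · rcases c0_11_22_33_k3_k_f33_8 C with ⟨c280_0_0, c280_0_1⟩ | ⟨c280_1_0, c280_1_1⟩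
                          · linarith only [C.a4, C.b5, C.f33_7, C.o1, C.o2, c279_1_1, c280_0_1]
                          · rcases c0_11_22_33_k3_k_p11_33A C with c281_0_0 | c281_1_0 | c281_2_0 | c281_3_0 | c281_4_0
                            · linarith only [c281_0_0, e0]
                            · linarith only [c281_1_0, e2]
                            · rcases c0_11_22_33_k3_k_p11_33B C with c282_0_0 | c282_1_0 | c282_2_0 | c282_3_0 | c282_4_0
                              · linarith only [c282_0_0, e0]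
                              · linarith only [c282_1_0, e2]
                              · linarith only [C.a1, C.f11_0, C.o0, c278_0_1, c282_2_0]
                              · linarith only [C.f22_4, C.o1, c282_3_0, s2]
                              · rcases c0_11_22_33_k3_k_p13_22A C with c283_0_0 | c283_1_0 | c283_2_0 | c283_3_0 | c283_4_0 | c283_5_0
                                · linarith only [C.a1, C.f11_0, c278_0_1, c281_2_0, c283_0_0, e0]
                                · linarith only [C.o2, c283_1_0, e2]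
                                · linarith only [c283_2_0, e1]
                                · linarith only [c0_0_1, c281_2_0, c283_3_0, s1]
                                · linarith only [C.f11_2, C.f23_5, C.f23_8, C.f33_4, c198_1_1, c268_1_1, c280_1_1, c282_4_0, c283_4_0, s2]
                                · linarith only [C.b5, C.f22_6, C.o2, c249_1_1, c256_1_1, c283_5_0]
                            · linarith only [C.f22_4, C.o1, c281_3_0, s2]
                            · linarith only [C.f11_0, C.f11_1, C.f11_2, C.f22_4, C.f22_6, c1_1_1, c280_1_1, c281_4_0, s3]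
                      · rcases c0_11_22_33_k3_k_f33_5 C with ⟨c284_0_0, c284_0_1⟩ | ⟨c284_1_0, c284_1_1⟩
                        · linarith only [C.f11_0, C.f11_1, C.f13_0, C.f13_3, C.f22_4, C.f33_4, C.o0, C.o1, C.o2, c197_0_0, c198_1_1, c278_1_1, c284_0_1, s2]
                        · rcases c0_11_22_33_k3_k_f33_8 C with ⟨c285_0_0, c285_0_1⟩ | ⟨c285_1_0, c285_1_1⟩
                          · linarith only [C.a4, C.b5, C.f33_7, C.o1, C.o2, c284_1_1, c285_0_1]
                          · rcases c0_11_22_33_k3_k_p11_33A C with c286_0_0 | c286_1_0 | c286_2_0 | c286_3_0 | c286_4_0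
                            · linarith only [c286_0_0, e0]
                            · linarith only [c286_1_0, e2]
                            · rcases c0_11_22_33_k3_k_p11_33B C with c287_0_0 | c287_1_0 | c287_2_0 | c287_3_0 | c287_4_0
                              · linarith only [c287_0_0, e0]
                              · linarith only [c287_1_0, e2]
                              · linarith only [C.a4, C.f11_0, C.f22_1, C.o0, C.o1, c278_1_1, c287_2_0, s1]
                              · linarith only [C.f22_4, C.o1, c287_3_0, s2]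
                              · rcases c0_11_22_33_k3_k_p13_22A C with c288_0_0 | c288_1_0 | c288_2_0 | c288_3_0 | c288_4_0 | c288_5_0
                                · linarith only [C.f11_0, c278_1_1, c286_2_0, c288_0_0, e0, e2]
                                · linarith only [C.o2, c288_1_0, e2]
                                · linarith only [c288_2_0, e1]
                                · linarith only [c0_0_1, c286_2_0, c288_3_0, s1]
                                · linarith only [C.f11_2, C.f23_5, C.f23_8, C.f33_4, c198_1_1, c268_1_1, c285_1_1, c287_4_0, c288_4_0, s2]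
                                · linarith only [C.b5, C.f22_6, C.o2, c249_1_1, c256_1_1, c288_5_0]
                            · linarith only [C.f22_4, C.o1, c286_3_0, s2]
                            · linarith only [C.f11_0, C.f11_1, C.f11_2, C.f22_4, C.f22_6, c1_1_1, c285_1_1, c286_4_0, s3]
                  · linarith only [C.a4, C.f23_5, C.o2, c267_2_1]
                · linarith only [C.a4, C.f23_1, C.o2, c257_2_1]
      · rcases c0_11_22_33_k3_k_f13_5 C with ⟨c289_0_0, c289_0_1⟩ | ⟨c289_1_0, c289_1_1⟩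
        · rcases c0_11_22_33_k3_k_f13_8 C with ⟨c290_0_0, c290_0_1⟩ | ⟨c290_1_0, c290_1_1⟩
          · linarith only [C.a3, C.f13_7, C.o1, c0_0_1, c197_1_1, c289_0_1, c290_0_1]
          · rcases c0_11_22_33_k3_k_p11_13B C with c291_0_0 | c291_1_0 | c291_2_0 | c291_3_0 | c291_4_0 | c291_5_0
            · linarith only [c291_0_0, e0]
            · linarith only [C.o0, c291_1_0, e0]
            · linarith only [C.o2, c291_2_0, e2]
            · rcases c0_11_22_33_k3_k_f22_2 C with ⟨c292_0_0, c292_0_1⟩ | ⟨c292_1_0, c292_1_1⟩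
              · rcases c0_11_22_33_k3_k_f22_5 C with ⟨c293_0_0, c293_0_1⟩ | ⟨c293_1_0, c293_1_1⟩
                · linarith only [C.a3, C.f11_0, C.f22_4, C.f33_0, C.o0, C.o1, c292_0_1, c293_0_1, s1]
                · rcases c0_11_22_33_k3_k_p11_22B C with c294_0_0 | c294_1_0 | c294_2_0 | c294_3_0 | c294_4_0
                  · linarith only [c294_0_0, e0]
                  · linarith only [c294_1_0, e1]
                  · linarith only [C.a1, C.f11_0, C.o0, c292_0_1, c294_2_0]
                  · rcases c0_11_22_33_k3_k_f33_2 C with ⟨c295_0_0, c295_0_1⟩ | ⟨c295_1_0, c295_1_1⟩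
                    · rcases c0_11_22_33_k3_k_f33_8 C with ⟨c296_0_0, c296_0_1⟩ | ⟨c296_1_0, c296_1_1⟩
                      · linarith only [C.f33_7, C.o1, C.o2, c197_1_1, c294_3_0, c296_0_1, s2]
                      · rcases c0_11_22_33_k3_k_p11_33A C with c297_0_0 | c297_1_0 | c297_2_0 | c297_3_0 | c297_4_0
                        · linarith only [c297_0_0, e0]
                        · linarith only [c297_1_0, e2]
                        · rcases c0_11_22_33_k3_k_p13_22A C with c300_0_0 | c300_1_0 | c300_2_0 | c300_3_0 | c300_4_0 | c300_5_0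
                          · linarith only [C.a1, C.f11_0, c295_0_1, c297_2_0, c300_0_0, e0]
                          · linarith only [C.f33_4, C.o1, C.o2, c294_3_0, c300_1_0, e1, s2]
                          · linarith only [c300_2_0, e1]
                          · linarith only [C.f11_0, C.f33_0, C.o0, c0_0_1, c292_0_1, c300_3_0, s1]
                          · rcases c0_11_22_33_k3_k_f23_3 C with ⟨c301_0_0, c301_0_1⟩ | ⟨c301_1_0, c301_1_1⟩ | ⟨c301_2_0, c301_2_1⟩
                            · rcases c0_11_22_33_k3_k_f23_7 C with ⟨c302_0_0, c302_0_1⟩ | ⟨c302_1_0, c302_1_1⟩ | ⟨c302_2_0, c302_2_1⟩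
                              · linarith only [C.a3, C.f11_0, C.f22_0, C.f23_5, C.f33_0, C.o0, c301_0_1, c302_0_1, s1]
                              · rcases c0_11_22_33_k3_k_f23_10 C with ⟨c303_0_0, c303_0_1⟩ | ⟨c303_1_0, c303_1_1⟩
                                · linarith only [C.f23_9, C.o1, c197_1_1, c302_1_1, c303_0_1]
                                · rcases c0_11_22_33_k3_k_p11_23B C with c304_0_0 | c304_1_0 | c304_2_0 | c304_3_0 | c304_4_0 | c304_5_0
                                  · linarith only [c304_0_0, e0]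
                                  · linarith only [C.f11_0, C.f22_1, C.f33_0, C.o0, c0_0_1, c1_1_1, c289_0_1, c292_0_1, c293_1_1, c300_4_0, c304_1_0, e0, s1]
                                  · linarith only [C.o2, c304_2_0, e2]
                                  · linarith only [C.f11_0, C.f22_0, C.f33_0, C.o0, c301_0_1, c304_3_0, s1]
                                  · linarith only [C.f11_0, C.f11_1, C.o0, c0_0_1, c1_1_1, c289_0_1, c293_1_1, c300_4_0, c302_1_1, c304_4_0]
                                  · linarith only [C.f11_0, C.f11_1, C.f11_2, c197_1_1, c1_1_1, c303_1_1, c304_5_0]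
                              · linarith only [C.f11_0, C.f11_1, C.f13_4, C.f22_4, C.f23_5, C.f33_4, C.o0, C.o1, C.o2, c0_0_1, c289_0_1, c302_2_1, s2]
                            · linarith only [C.f22_1, C.f23_0, C.o0, c0_0_1, c1_1_1, c289_0_1, c292_0_1, c293_1_1, c300_4_0, c301_1_1]
                            · linarith only [C.f11_0, C.f11_1, C.f23_1, C.f33_4, C.o0, C.o2, c0_0_1, c289_0_1, c300_4_0, c301_2_1, s2]
                          · linarith only [C.f22_6, C.o2, c197_1_1, c290_1_1, c293_1_1, c300_5_0]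
                        · linarith only [C.f22_4, C.o1, c297_3_0, s2]
                        · linarith only [C.f11_0, C.f11_1, C.f11_2, C.o2, c197_1_1, c1_1_1, c296_1_1, c297_4_0]
                    · linarith only [C.f22_1, C.f33_0, C.f33_4, C.o1, c292_0_1, c294_3_0, c295_1_1, s2]
                  · linarith only [C.f11_0, C.f11_1, C.f11_2, C.f22_6, c197_1_1, c1_1_1, c293_1_1, c294_4_0]
              · rcases c0_11_22_33_k3_k_f22_5 C with ⟨c305_0_0, c305_0_1⟩ | ⟨c305_1_0, c305_1_1⟩
                · linarith only [C.f22_4, c197_1_0, c1_1_1, c292_1_1, c305_0_1]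
                · rcases c0_11_22_33_k3_k_f23_3 C with ⟨c307_0_0, c307_0_1⟩ | ⟨c307_1_0, c307_1_1⟩ | ⟨c307_2_0, c307_2_1⟩
                  · rcases c0_11_22_33_k3_k_f23_7 C with ⟨c308_0_0, c308_0_1⟩ | ⟨c308_1_0, c308_1_1⟩ | ⟨c308_2_0, c308_2_1⟩
                    · linarith only [C.a1, C.f11_0, C.f11_1, C.f22_4, C.f23_5, C.f33_0, C.f33_3, C.o0, c1_1_1, c307_0_1, c308_0_1, s2]
                    · rcases c0_11_22_33_k3_k_f23_10 C with ⟨c309_0_0, c309_0_1⟩ | ⟨c309_1_0, c309_1_1⟩
                      · linarith only [C.f23_9, C.o1, c197_1_1, c308_1_1, c309_0_1]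
                      · rcases c0_11_22_33_k3_k_p11_23B C with c310_0_0 | c310_1_0 | c310_2_0 | c310_3_0 | c310_4_0 | c310_5_0
                        · linarith only [c310_0_0, e0]
                        · linarith only [C.a2, C.o0, c310_1_0, e0]
                        · linarith only [C.o2, c310_2_0, e2]
                        · linarith only [C.a1, C.f11_0, C.o0, c307_0_1, c310_3_0]
                        · rcases c0_11_22_33_k3_k_p11_22B C with c314_0_0 | c314_1_0 | c314_2_0 | c314_3_0 | c314_4_0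
                          · linarith only [c314_0_0, e0]
                          · linarith only [c314_1_0, e1]
                          · linarith only [C.f11_0, C.f11_1, C.f23_1, C.f33_0, C.o0, c1_1_1, c292_1_1, c307_0_1, c308_1_1, c310_4_0, c314_2_0, s1]
                          · rcases c0_11_22_33_k3_k_p13_22A C with c317_0_0 | c317_1_0 | c317_2_0 | c317_3_0 | c317_4_0 | c317_5_0
                            · linarith only [C.o0, c317_0_0, e0]
                            · linarith only [C.o2, c317_1_0, e2]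
                            · linarith only [c317_2_0, e1]
                            · linarith only [C.f11_0, C.f11_1, C.f23_1, C.f33_0, C.f33_3, C.o0, c0_0_1, c292_1_1, c305_1_1, c307_0_1, c314_3_0, c317_3_0, s1, s2]
                            · linarith only [C.f11_0, C.f11_1, C.o0, c0_0_1, c1_1_1, c289_0_1, c305_1_1, c308_1_1, c310_4_0, c317_4_0]
                            · linarith only [C.f22_6, C.o2, c197_1_1, c290_1_1, c305_1_1, c317_5_0]
                          · linarith only [C.f11_0, C.f11_1, C.f11_2, C.f22_6, c197_1_1, c1_1_1, c305_1_1, c314_4_0]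
                        · linarith only [C.f11_0, C.f11_1, C.f11_2, c197_1_1, c1_1_1, c309_1_1, c310_5_0]
                    · linarith only [C.f11_0, C.f11_1, C.f13_4, C.f22_4, C.f23_5, C.f33_4, C.o0, C.o1, C.o2, c0_0_1, c289_0_1, c308_2_1, s2]
                  · rcases c0_11_22_33_k3_k_f33_2 C with ⟨c321_0_0, c321_0_1⟩ | ⟨c321_1_0, c321_1_1⟩
                    · rcases c0_11_22_33_k3_k_p11_33B C with c322_0_0 | c322_1_0 | c322_2_0 | c322_3_0 | c322_4_0
                      · linarith only [c322_0_0, e0]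
                      · linarith only [c322_1_0, e2]
                      · linarith only [C.a1, C.f11_0, C.o0, c321_0_1, c322_2_0]
                      · linarith only [C.f22_4, C.o1, c322_3_0, s2]
                      · rcases c0_11_22_33_k3_k_f33_8 C with ⟨c323_0_0, c323_0_1⟩ | ⟨c323_1_0, c323_1_1⟩
                        · linarith only [C.f11_2, C.f22_4, C.o1, c197_1_1, c322_4_0, c323_0_1, s2]
                        · rcases c0_11_22_33_k3_k_p11_33A C with c324_0_0 | c324_1_0 | c324_2_0 | c324_3_0 | c324_4_0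
                          · linarith only [c324_0_0, e0]
                          · linarith only [c324_1_0, e2]
                          · rcases c0_11_22_33_k3_k_p13_22A C with c328_0_0 | c328_1_0 | c328_2_0 | c328_3_0 | c328_4_0 | c328_5_0
                            · linarith only [C.o0, c328_0_0, e0]
                            · linarith only [C.o2, c328_1_0, e2]
                            · linarith only [c328_2_0, e1]
                            · linarith only [c0_0_1, c324_2_0, c328_3_0, s1]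
                            · linarith only [C.f11_0, C.f22_1, C.f23_0, c0_0_1, c1_1_1, c289_0_1, c291_3_0, c305_1_1, c307_1_1, c321_0_1, c324_2_0, c328_4_0, s1]
                            · linarith only [C.f22_6, C.o2, c197_1_1, c290_1_1, c305_1_1, c328_5_0]
                          · linarith only [C.f22_4, C.o1, c324_3_0, s2]
                          · linarith only [C.f11_0, C.f11_1, C.f11_2, C.o2, c197_1_1, c1_1_1, c323_1_1, c324_4_0]
                    · rcases c0_11_22_33_k3_k_f33_5 C with ⟨c329_0_0, c329_0_1⟩ | ⟨c329_1_0, c329_1_1⟩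
                      · linarith only [C.f33_4, c197_1_0, c1_1_1, c321_1_1, c329_0_1]
                      · rcases c0_11_22_33_k3_k_f33_8 C with ⟨c330_0_0, c330_0_1⟩ | ⟨c330_1_0, c330_1_1⟩
                        · linarith only [C.f11_0, C.f11_1, C.f13_4, C.f22_4, C.f33_7, C.o0, C.o1, C.o2, c0_0_1, c197_1_1, c289_0_1, c329_1_1, c330_0_1, s2]
                        · rcases c0_11_22_33_k3_k_p11_33A C with c331_0_0 | c331_1_0 | c331_2_0 | c331_3_0 | c331_4_0
                          · linarith only [c331_0_0, e0]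
                          · linarith only [c331_1_0, e2]
                          · rcases c0_11_22_33_k3_k_p11_22B C with c334_0_0 | c334_1_0 | c334_2_0 | c334_3_0 | c334_4_0
                            · linarith only [c334_0_0, e0]
                            · linarith only [c334_1_0, e1]
                            · linarith only [C.f11_0, C.o0, c331_2_0, c334_2_0, s1]
                            · linarith only [C.f11_0, C.f22_1, C.f33_4, C.o1, c0_0_1, c291_3_0, c321_1_1, c331_2_0, c334_3_0, s1, s2]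
                            · linarith only [C.f11_0, C.f11_2, C.f22_1, C.f22_6, C.f33_4, C.o1, c0_0_1, c197_1_1, c291_3_0, c321_1_1, c331_2_0, c334_4_0, s1, s2]
                          · linarith only [C.f22_4, C.o1, c331_3_0, s2]
                          · linarith only [C.f11_0, C.f11_1, C.f11_2, C.o2, c197_1_1, c1_1_1, c330_1_1, c331_4_0]
                  · linarith only [C.f11_0, C.f11_1, C.f13_4, C.f22_4, C.f23_1, C.f33_4, C.o0, C.o1, C.o2, c0_0_1, c289_0_1, c307_2_1, s2]
            · linarith only [C.f11_0, C.f11_1, C.o0, c0_0_1, c1_1_1, c289_0_1, c291_4_0]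
            · linarith only [C.f11_0, C.f11_1, C.f11_2, c197_1_1, c1_1_1, c290_1_1, c291_5_0]
        · rcases c0_11_22_33_k3_k_f13_8 C with ⟨c335_0_0, c335_0_1⟩ | ⟨c335_1_0, c335_1_1⟩
          · linarith only [C.a4, C.f13_7, C.o1, C.o2, c197_1_1, c289_1_1, c335_0_1]
          · rcases c0_11_22_33_k3_k_p11_13B C with c337_0_0 | c337_1_0 | c337_2_0 | c337_3_0 | c337_4_0 | c337_5_0
            · linarith only [c337_0_0, e0]
            · linarith only [C.o0, c337_1_0, e0]
            · linarith only [C.o2, c337_2_0, e2]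
            · rcases c0_11_22_33_k3_k_tmpp C with c338_0_0 | c338_1_0 | c338_2_0 | c338_3_0
              · linarith only [C.f11_0, C.f22_0, C.f33_0, C.o0, c338_0_0, s1]
              · rcases c0_11_22_33_k3_k_f22_2 C with ⟨c339_0_0, c339_0_1⟩ | ⟨c339_1_0, c339_1_1⟩
                · linarith only [C.f11_0, C.f22_1, C.f33_0, C.o0, C.o1, c338_1_0, c339_0_1, s1]
                · rcases c0_11_22_33_k3_k_f22_5 C with ⟨c340_0_0, c340_0_1⟩ | ⟨c340_1_0, c340_1_1⟩
                  · linarith only [C.f11_0, C.f13_0, C.f13_3, C.f22_4, C.f33_1, C.o0, C.o1, C.o2, c289_1_1, c338_1_0, c340_0_1, s1]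
                  · rcases c0_11_22_33_k3_k_f33_5 C with ⟨c344_0_0, c344_0_1⟩ | ⟨c344_1_0, c344_1_1⟩
                    · linarith only [C.f11_0, C.f13_0, C.f13_3, C.f22_1, C.f33_4, C.o0, C.o1, C.o2, c289_1_1, c338_1_0, c344_0_1, s1]
                    · rcases c0_11_22_33_k3_k_f33_8 C with ⟨c345_0_0, c345_0_1⟩ | ⟨c345_1_0, c345_1_1⟩
                      · linarith only [C.f11_0, C.f22_1, C.f33_1, C.f33_7, C.o0, C.o1, C.o2, c197_1_1, c338_1_0, c344_1_1, c345_0_1, s1]
                      · rcases c0_11_22_33_k3_k_p11_22B C with c347_0_0 | c347_1_0 | c347_2_0 | c347_3_0 | c347_4_0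
                        · linarith only [c347_0_0, e0]
                        · linarith only [c347_1_0, e1]
                        · rcases c0_11_22_33_k3_k_p11_33A C with c350_0_0 | c350_1_0 | c350_2_0 | c350_3_0 | c350_4_0
                          · linarith only [c350_0_0, e0]
                          · linarith only [c350_1_0, e2]
                          · linarith only [C.f11_0, C.o0, c347_2_0, c350_2_0, s1]
                          · linarith only [C.f11_0, C.f11_1, C.f13_0, C.f13_3, C.f33_1, C.o0, C.o2, c289_1_1, c338_1_0, c344_1_1, c347_2_0, c350_3_0, s1]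
                          · linarith only [C.f11_0, C.f11_1, C.f11_2, C.f13_0, C.f13_3, C.f33_1, C.o0, C.o2, c197_1_1, c289_1_1, c339_1_1, c345_1_1, c347_2_0, c350_4_0, s1]
                        · linarith only [C.f11_1, C.f13_0, C.f13_3, C.f22_1, C.f33_1, C.o1, C.o2, c289_1_1, c338_1_0, c340_1_1, c347_3_0, s1]
                        · linarith only [C.f11_1, C.f11_2, C.f13_0, C.f13_3, C.f22_1, C.f22_6, C.f33_1, C.o1, C.o2, c197_1_1, c289_1_1, c338_1_0, c340_1_1, c347_4_0, s1]
              · linarith only [c338_2_0, e0]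
              · linarith only [C.f11_1, C.f13_3, C.f22_4, C.f33_4, C.o1, C.o2, c289_1_1, c337_3_0, c338_3_0, s2]
            · linarith only [C.f22_4, C.f33_4, C.o1, C.o2, c289_1_1, c337_4_0, s2]
            · linarith only [C.f11_0, C.f11_1, C.f11_2, c197_1_1, c1_1_1, c335_1_1, c337_5_0]
  · linarith only [C.a2, C.a4, C.f13_0, C.o2, c0_1_1]

end Pool.Agent.Helper24.TQ
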