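import Pool.Agent.Helper89.TQ.Ctx

set_option autoImplicit false
set_option linter.all false
set_option maxHeartbeats 4000000

namespace Pool.Agent.Helper24.TQ

open Pool.Agent.Helper89.TQ

theorem c0_11_23_33_k1_k_t12 {n1 n2 n3 A1 A2 A3 B1 B2 B3 m11_1 m11_2 m11_3 m13_1 m13_2 m13_3 m22_1 m22_2 m22_3 m23_1 m23_2 m23_3 m33_1 m33_2 m33_3 : ℤ} (C : Ctx0 n1 n2 n3 A1 A2 A3 B1 B2 B3 m11_1 m11_2 m11_3 m13_1 m13_2 m13_3 m22_1 m22_2 m22_3 m23_1 m23_2 m23_3 m33_1 m33_2 m33_3) :
    ((-1) * A1 ≤ -1 ∧ (-1) * A1 + 1 * A2 + (-1) * n2 ≤ -1) ∨ ((-1) * B1 ≤ -1 ∧ (-1) * B1 + 1 * B2 + (-1) * n2 ≤ -1) := by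
  have h := C.t12
  clear C
  omega

theorem c0_11_23_33_k1_k_t23 {n1 n2 n3 A1 A2 A3 B1 B2 B3 m11_1 m11_2 m11_3 m13_1 m13_2 m13_3 m22_1 m22_2 m22_3 m23_1 m23_2 m23_3 m33_1 m33_2 m33_3 : ℤ} (C : Ctx0 n1 n2 n3 A1 A2 A3 B1 B2 B3 m11_1 m11_2 m11_3 m13_1 m13_2 m13_3 m22_1 m22_2 m22_3 m23_1 m23_2 m23_3 m33_1 m33_2 m33_3) :
    (1 * A1 + (-1) * A2 ≤ -1 ∧ (-1) * A2 + 1 * A3 + (-1) * n3 ≤ -1) ∨ (1 * B1 + (-1) * B2 ≤ -1 ∧ (-1) * B2 + 1 * B3 + (-1) * n3 ≤ -1) := by
  have h := C.t23
  clear C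
  omega

theorem c0_11_23_33_k1_k_f13_2 {n1 n2 n3 A1 A2 A3 B1 B2 B3 m11_1 m11_2 m11_3 m13_1 m13_2 m13_3 m22_1 m22_2 m22_3 m23_1 m23_2 m23_3 m33_1 m33_2 m33_3 : ℤ} (C : Ctx0 n1 n2 n3 A1 A2 A3 B1 B2 B3 m11_1 m11_2 m11_3 m13_1 m13_2 m13_3 m22_1 m22_2 m22_3 m23_1 m23_2 m23_3 m33_1 m33_2 m33_3) :
    ((-1) * A1 + 1 * m13_1 ≤ -1 ∧ 1 * A1 + (-1) * m13_1 ≤ 1) ∨ ((-1) * B3 + 1 * m13_1 ≤ -1 ∧ 1 * B3 + (-1) * m13_1 ≤ 1) := by
  have h := C.f13_2
  clear C
  omega

theorem c0_11_23_33_k1_k_f13_5 {n1 n2 n3 A1 A2 A3 B1 B2 B3 m11_1 m11_2 m11_3 m13_1 m13_2 m13_3 m22_1 m22_2 m22_3 m23_1 m23_2 m23_3 m33_1 m33_2 m33_3 : ℤ} (C : Ctx0 n1 n2 n3 A1 A2 A3 B1 B2 B3 m11_1 m11_2 m11_3 m13_1 m13_2 m13_3 m22_1 m22_2 m22_3 m23_1 m23_2 m23_3 m33_1 m33_2 m33_3) :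
    ((-1) * m13_1 + 1 * m13_2 + (-1) * n2 ≤ 0 ∧ 1 * m13_1 + (-1) * m13_2 + 1 * n2 ≤ 0) ∨ ((-1) * B3 + 1 * m13_2 ≤ -1 ∧ 1 * B3 + (-1) * m13_2 ≤ 1) := by
  have h := C.f13_5
  clear C
  omega

theorem c0_11_23_33_k1_k_f13_8 {n1 n2 n3 A1 A2 A3 B1 B2 B3 m11_1 m11_2 m11_3 m13_1 m13_2 m13_3 m22_1 m22_2 m22_3 m23_1 m23_2 m23_3 m33_1 m33_2 m33_3 : ℤ} (C : Ctx0 n1 n2 n3 A1 A2 A3 B1 B2 B3 m11_1 m11_2 m11_3 m13_1 m13_2 m13_3 m22_1 m22_2 m22_3 m23_1 m23_2 m23_3 m33_1 m33_2 m33_3) :
    ((-1) * m13_2 + 1 * m13_3 + (-1) * n3 ≤ 0 ∧ 1 * m13_2 + (-1) * m13_3 + 1 * n3 ≤ 0) ∨ ((-1) * B3 + 1 * m13_3 ≤ -1 ∧ 1 * B3 + (-1) * m13_3 ≤ 1) := by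
  have h := C.f13_8
  clear C
  omega

theorem c0_11_23_33_k1_k_f22_2 {n1 n2 n3 A1 A2 A3 B1 B2 B3 m11_1 m11_2 m11_3 m13_1 m13_2 m13_3 m22_1 m22_2 m22_3 m23_1 m23_2 m23_3 m33_1 m33_2 m33_3 : ℤ} (C : Ctx0 n1 n2 n3 A1 A2 A3 B1 B2 B3 m11_1 m11_2 m11_3 m13_1 m13_2 m13_3 m22_1 m22_2 m22_3 m23_1 m23_2 m23_3 m33_1 m33_2 m33_3) :
    (1 * m22_1 + (-1) * n1 ≤ 0 ∧ (-1) * m22_1 + 1 * n1 ≤ 0) ∨ ((-1) * B2 + 1 * m22_1 ≤ -1 ∧ 1 * B2 + (-1) * m22_1 ≤ 1) := by
  have h := C.f22_2
  clear C
  omega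

theorem c0_11_23_33_k1_k_f22_5 {n1 n2 n3 A1 A2 A3 B1 B2 B3 m11_1 m11_2 m11_3 m13_1 m13_2 m13_3 m22_1 m22_2 m22_3 m23_1 m23_2 m23_3 m33_1 m33_2 m33_3 : ℤ} (C : Ctx0 n1 n2 n3 A1 A2 A3 B1 B2 B3 m11_1 m11_2 m11_3 m13_1 m13_2 m13_3 m22_1 m22_2 m22_3 m23_1 m23_2 m23_3 m33_1 m33_2 m33_3) :
    ((-1) * m22_1 + 1 * m22_2 + (-1) * n2 ≤ 0 ∧ 1 * m22_1 + (-1) * m22_2 + 1 * n2 ≤ 0) ∨ ((-1) * B2 + 1 * m22_2 ≤ -1 ∧ 1 * B2 + (-1) * m22_2 ≤ 1) := by
  have h := C.f22_5
  clear C
  omega

theorem c0_11_23_33_k1_k_f23_3 {n1 n2 n3 A1 A2 A3 B1 B2 B3 m11_1 m11_2 m11_3 m13_1 m13_2 m13_3 m22_1 m22_2 m22_3 m23_1 m23_2 m23_3 m33_1 m33_2 m33_3 : ℤ} (C : Ctx0 n1 n2 n3 A1 A2 A3 B1 B2 B3 m11_1 m11_2 m11_3 m13_1 m13_2 m13_3 m22_1 m22_2 m22_3 m23_1 m23_2 m23_3 m33_1 m33_2 m33_3) :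
    (1 * m23_1 + (-1) * n1 ≤ 0 ∧ (-1) * m23_1 + 1 * n1 ≤ 0) ∨ ((-1) * A2 + 1 * m23_1 ≤ -1 ∧ 1 * A2 + (-1) * m23_1 ≤ 1) ∨ ((-1) * B3 + 1 * m23_1 ≤ -1 ∧ 1 * B3 + (-1) * m23_1 ≤ 1) := by
  have h := C.f23_3
  clear C
  omega

theorem c0_11_23_33_k1_k_f23_7 {n1 n2 n3 A1 A2 A3 B1 B2 B3 m11_1 m11_2 m11_3 m13_1 m13_2 m13_3 m22_1 m22_2 m22_3 m23_1 m23_2 m23_3 m33_1 m33_2 m33_3 : ℤ} (C : Ctx0 n1 n2 n3 A1 A2 A3 B1 B2 B3 m11_1 m11_2 m11_3 m13_1 m13_2 m13_3 m22_1 m22_2 m22_3 m23_1 m23_2 m23_3 m33_1 m33_2 m33_3) :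
    ((-1) * m23_1 + 1 * m23_2 + (-1) * n2 ≤ 0 ∧ 1 * m23_1 + (-1) * m23_2 + 1 * n2 ≤ 0) ∨ ((-1) * A2 + 1 * m23_2 ≤ -1 ∧ 1 * A2 + (-1) * m23_2 ≤ 1) ∨ ((-1) * B3 + 1 * m23_2 ≤ -1 ∧ 1 * B3 + (-1) * m23_2 ≤ 1) := by
  have h := C.f23_7
  clear C
  omega

theorem c0_11_23_33_k1_k_f23_10 {n1 n2 n3 A1 A2 A3 B1 B2 B3 m11_1 m11_2 m11_3 m13_1 m13_2 m13_3 m22_1 m22_2 m22_3 m23_1 m23_2 m23_3 m33_1 m33_2 m33_3 : ℤ} (C : Ctx0 n1 n2 n3 A1 A2 A3 B1 B2 B3 m11_1 m11_2 m11_3 m13_1 m13_2 m13_3 m22_1 m22_2 m22_3 m23_1 m23_2 m23_3 m33_1 m33_2 m33_3) :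
    ((-1) * m23_2 + 1 * m23_3 + (-1) * n3 ≤ 0 ∧ 1 * m23_2 + (-1) * m23_3 + 1 * n3 ≤ 0) ∨ ((-1) * B3 + 1 * m23_3 ≤ -1 ∧ 1 * B3 + (-1) * m23_3 ≤ 1) := by
  have h := C.f23_10
  clear C
  omega

theorem c0_11_23_33_k1_k_f33_2 {n1 n2 n3 A1 A2 A3 B1 B2 B3 m11_1 m11_2 m11_3 m13_1 m13_2 m13_3 m22_1 m22_2 m22_3 m23_1 m23_2 m23_3 m33_1 m33_2 m33_3 : ℤ} (C : Ctx0 n1 n2 n3 A1 A2 A3 B1 B2 B3 m11_1 m11_2 m11_3 m13_1 m13_2 m13_3 m22_1 m22_2 m22_3 m23_1 m23_2 m23_3 m33_1 m33_2 m33_3) :
    (1 * m33_1 + (-1) * n1 ≤ 0 ∧ (-1) * m33_1 + 1 * n1 ≤ 0) ∨ ((-1) * A3 + 1 * m33_1 ≤ -1 ∧ 1 * A3 + (-1) * m33_1 ≤ 1) := by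
  have h := C.f33_2
  clear C
  omega

theorem c0_11_23_33_k1_k_f33_5 {n1 n2 n3 A1 A2 A3 B1 B2 B3 m11_1 m11_2 m11_3 m13_1 m13_2 m13_3 m22_1 m22_2 m22_3 m23_1 m23_2 m23_3 m33_1 m33_2 m33_3 : ℤ} (C : Ctx0 n1 n2 n3 A1 A2 A3 B1 B2 B3 m11_1 m11_2 m11_3 m13_1 m13_2 m13_3 m22_1 m22_2 m22_3 m23_1 m23_2 m23_3 m33_1 m33_2 m33_3) :
    ((-1) * m33_1 + 1 * m33_2 + (-1) * n2 ≤ 0 ∧ 1 * m33_1 + (-1) * m33_2 + 1 * n2 ≤ 0) ∨ ((-1) * A3 + 1 * m33_2 ≤ -1 ∧ 1 * A3 + (-1) * m33_2 ≤ 1) := by
  have h := C.f33_5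
  clear C
  omega

theorem c0_11_23_33_k1_k_f33_8 {n1 n2 n3 A1 A2 A3 B1 B2 B3 m11_1 m11_2 m11_3 m13_1 m13_2 m13_3 m22_1 m22_2 m22_3 m23_1 m23_2 m23_3 m33_1 m33_2 m33_3 : ℤ} (C : Ctx0 n1 n2 n3 A1 A2 A3 B1 B2 B3 m11_1 m11_2 m11_3 m13_1 m13_2 m13_3 m22_1 m22_2 m22_3 m23_1 m23_2 m23_3 m33_1 m33_2 m33_3) :
    ((-1) * m33_2 + 1 * m33_3 + (-1) * n3 ≤ 0 ∧ 1 * m33_2 + (-1) * m33_3 + 1 * n3 ≤ 0) ∨ ((-1) * A3 + 1 * m33_3 ≤ -1 ∧ 1 * A3 + (-1) * m33_3 ≤ 1) := by
  have h := C.f33_8
  clear C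
  omega

theorem c0_11_23_33_k1_k_p11_13B {n1 n2 n3 A1 A2 A3 B1 B2 B3 m11_1 m11_2 m11_3 m13_1 m13_2 m13_3 m22_1 m22_2 m22_3 m23_1 m23_2 m23_3 m33_1 m33_2 m33_3 : ℤ} (C : Ctx0 n1 n2 n3 A1 A2 A3 B1 B2 B3 m11_1 m11_2 m11_3 m13_1 m13_2 m13_3 m22_1 m22_2 m22_3 m23_1 m23_2 m23_3 m33_1 m33_2 m33_3) :
    (1 * B1 ≤ 0) ∨ (1 * A1 ≤ 0) ∨ (1 * B3 ≤ 0) ∨ ((-2) * B1 + 1 * m11_1 + 1 * m13_1 ≤ -1) ∨ ((-2) * B2 + 1 * m11_2 + 1 * m13_2 ≤ -1) ∨ ((-2) * B3 + 1 * m11_3 + 1 * m13_3 ≤ -1) := by
  have h := C.p11_13B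
  clear C
  omega

theorem c0_11_23_33_k1_k_p11_22B {n1 n2 n3 A1 A2 A3 B1 B2 B3 m11_1 m11_2 m11_3 m13_1 m13_2 m13_3 m22_1 m22_2 m22_3 m23_1 m23_2 m23_3 m33_1 m33_2 m33_3 : ℤ} (C : Ctx0 n1 n2 n3 A1 A2 A3 B1 B2 B3 m11_1 m11_2 m11_3 m13_1 m13_2 m13_3 m22_1 m22_2 m22_3 m23_1 m23_2 m23_3 m33_1 m33_2 m33_3) :
    (1 * B1 ≤ 0) ∨ (1 * B2 ≤ 0) ∨ ((-2) * B1 + 1 * m11_1 + 1 * m22_1 ≤ -1) ∨ ((-2) * B2 + 1 * m11_2 + 1 * m22_2 ≤ -1) ∨ ((-2) * B3 + 1 * m11_3 + 1 * m22_3 ≤ -1) := by
  have h := C.p11_22B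
  clear C
  omega

theorem c0_11_23_33_k1_k_p11_23B {n1 n2 n3 A1 A2 A3 B1 B2 B3 m11_1 m11_2 m11_3 m13_1 m13_2 m13_3 m22_1 m22_2 m22_3 m23_1 m23_2 m23_3 m33_1 m33_2 m33_3 : ℤ} (C : Ctx0 n1 n2 n3 A1 A2 A3 B1 B2 B3 m11_1 m11_2 m11_3 m13_1 m13_2 m13_3 m22_1 m22_2 m22_3 m23_1 m23_2 m23_3 m33_1 m33_2 m33_3) :
    (1 * B1 ≤ 0) ∨ (1 * A2 ≤ 0) ∨ (1 * B3 ≤ 0) ∨ ((-2) * B1 + 1 * m11_1 + 1 * m23_1 ≤ -1) ∨ ((-2) * B2 + 1 * m11_2 + 1 * m23_2 ≤ -1) ∨ ((-2) * B3 + 1 * m11_3 + 1 * m23_3 ≤ -1) := by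
  have h := C.p11_23B
  clear C
  omega

theorem c0_11_23_33_k1_k_p11_33A {n1 n2 n3 A1 A2 A3 B1 B2 B3 m11_1 m11_2 m11_3 m13_1 m13_2 m13_3 m22_1 m22_2 m22_3 m23_1 m23_2 m23_3 m33_1 m33_2 m33_3 : ℤ} (C : Ctx0 n1 n2 n3 A1 A2 A3 B1 B2 B3 m11_1 m11_2 m11_3 m13_1 m13_2 m13_3 m22_1 m22_2 m22_3 m23_1 m23_2 m23_3 m33_1 m33_2 m33_3) :
    (1 * B1 ≤ 0) ∨ (1 * A3 ≤ 0) ∨ ((-2) * A1 + 1 * m11_1 + 1 * m33_1 ≤ -1) ∨ ((-2) * A2 + 1 * m11_2 + 1 * m33_2 ≤ -1) ∨ ((-2) * A3 + 1 * m11_3 + 1 * m33_3 ≤ -1) := by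
  have h := C.p11_33A
  clear C
  omega

theorem c0_11_23_33_k1_k_p11_33B {n1 n2 n3 A1 A2 A3 B1 B2 B3 m11_1 m11_2 m11_3 m13_1 m13_2 m13_3 m22_1 m22_2 m22_3 m23_1 m23_2 m23_3 m33_1 m33_2 m33_3 : ℤ} (C : Ctx0 n1 n2 n3 A1 A2 A3 B1 B2 B3 m11_1 m11_2 m11_3 m13_1 m13_2 m13_3 m22_1 m22_2 m22_3 m23_1 m23_2 m23_3 m33_1 m33_2 m33_3) :
    (1 * B1 ≤ 0) ∨ (1 * A3 ≤ 0) ∨ ((-2) * B1 + 1 * m11_1 + 1 * m33_1 ≤ -1) ∨ ((-2) * B2 + 1 * m11_2 + 1 * m33_2 ≤ -1) ∨ ((-2) * B3 + 1 * m11_3 + 1 * m33_3 ≤ -1) := by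
  have h := C.p11_33B
  clear C
  omega

theorem c0_11_23_33_k1_k_p13_22B {n1 n2 n3 A1 A2 A3 B1 B2 B3 m11_1 m11_2 m11_3 m13_1 m13_2 m13_3 m22_1 m22_2 m22_3 m23_1 m23_2 m23_3 m33_1 m33_2 m33_3 : ℤ} (C : Ctx0 n1 n2 n3 A1 A2 A3 B1 B2 B3 m11_1 m11_2 m11_3 m13_1 m13_2 m13_3 m22_1 m22_2 m22_3 m23_1 m23_2 m23_3 m33_1 m33_2 m33_3) :
    (1 * A1 ≤ 0) ∨ (1 * B3 ≤ 0) ∨ (1 * B2 ≤ 0) ∨ ((-2) * B1 + 1 * m13_1 + 1 * m22_1 ≤ -1) ∨ ((-2) * B2 + 1 * m13_2 + 1 * m22_2 ≤ -1) ∨ ((-2) * B3 + 1 * m13_3 + 1 * m22_3 ≤ -1) := by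
  have h := C.p13_22B
  clear C
  omega

theorem c0_11_23_33_k1_k_p13_33A {n1 n2 n3 A1 A2 A3 B1 B2 B3 m11_1 m11_2 m11_3 m13_1 m13_2 m13_3 m22_1 m22_2 m22_3 m23_1 m23_2 m23_3 m33_1 m33_2 m33_3 : ℤ} (C : Ctx0 n1 n2 n3 A1 A2 A3 B1 B2 B3 m11_1 m11_2 m11_3 m13_1 m13_2 m13_3 m22_1 m22_2 m22_3 m23_1 m23_2 m23_3 m33_1 m33_2 m33_3) :
    (1 * A1 ≤ 0) ∨ (1 * B3 ≤ 0) ∨ (1 * A3 ≤ 0) ∨ ((-2) * A1 + 1 * m13_1 + 1 * m33_1 ≤ -1) ∨ ((-2) * A2 + 1 * m13_2 + 1 * m33_2 ≤ -1) ∨ ((-2) * A3 + 1 * m13_3 + 1 * m33_3 ≤ -1) := by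
  have h := C.p13_33A
  clear C
  omega

theorem c0_11_23_33_k1_k_tzpm {n1 n2 n3 A1 A2 A3 B1 B2 B3 m11_1 m11_2 m11_3 m13_1 m13_2 m13_3 m22_1 m22_2 m22_3 m23_1 m23_2 m23_3 m33_1 m33_2 m33_3 : ℤ} (C : Ctx0 n1 n2 n3 A1 A2 A3 B1 B2 B3 m11_1 m11_2 m11_3 m13_1 m13_2 m13_3 m22_1 m22_2 m22_3 m23_1 m23_2 m23_3 m33_1 m33_2 m33_3) :
    ((-1) * A1 + 1 * A2 ≤ 0) ∨ (1 * A2 + (-1) * A3 + 1 * n3 ≤ 1) ∨ (1 * B1 + (-1) * B2 + 1 * n2 ≤ 0) ∨ ((-1) * B2 + 1 * B3 ≤ 1) ∨ ((-1) * A2 + 1 * B2 ≤ -1 ∧ (-1) * A3 + 1 * B3 ≤ 1) := by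
  have h := C.tzpm
  clear C
  omega

theorem c0_11_23_33_k1_k_tpzm {n1 n2 n3 A1 A2 A3 B1 B2 B3 m11_1 m11_2 m11_3 m13_1 m13_2 m13_3 m22_1 m22_2 m22_3 m23_1 m23_2 m23_3 m33_1 m33_2 m33_3 : ℤ} (C : Ctx0 n1 n2 n3 A1 A2 A3 B1 B2 B3 m11_1 m11_2 m11_3 m13_1 m13_2 m13_3 m22_1 m22_2 m22_3 m23_1 m23_2 m23_3 m33_1 m33_2 m33_3) :
    (1 * A1 ≤ 0) ∨ (1 * A1 + (-1) * A2 + 1 * n2 ≤ 0) ∨ (1 * A2 + (-1) * A3 + 1 * n3 ≤ 0) ∨ ((-1) * B1 + 1 * n1 ≤ 0) ∨ ((-1) * B1 + 1 * B2 ≤ 0) ∨ ((-1) * B2 + 1 * B3 ≤ 0) ∨ ((-1) * A3 + 1 * B3 ≤ 1) ∨ (1 * A1 + (-1) * B1 ≤ 1 ∧ 1 * A2 + (-1) * B2 ≤ 0) := by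
  have h := C.tpzm
  clear C
  omega

theorem c0_11_23_33_k1 {n1 n2 n3 A1 A2 A3 B1 B2 B3 m11_1 m11_2 m11_3 m13_1 m13_2 m13_3 m22_1 m22_2 m22_3 m23_1 m23_2 m23_3 m33_1 m33_2 m33_3 : ℤ}
    (C : Ctx0 n1 n2 n3 A1 A2 A3 B1 B2 B3 m11_1 m11_2 m11_3 m13_1 m13_2 m13_3 m22_1 m22_2 m22_3 m23_1 m23_2 m23_3 m33_1 m33_2 m33_3)
    (e0 : 0 < B1)
    (e1 : 0 < A2)
    (e2 : 0 < B3)
    (e3 : 0 < A3)
    (s1 : 1 * A1 + 2 * B1 ≤ m11_1 + m23_1 + m33_1)
    (s2 : 1 * A2 + 2 * B2 ≤ m11_2 + m23_2 + m33_2)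
    (s3 : 1 * A3 + 2 * B3 ≤ m11_3 + m23_3 + m33_3) : False := by
  rcases c0_11_23_33_k1_k_f13_2 C with ⟨c0_0_0, c0_0_1⟩ | ⟨c0_1_0, c0_1_1⟩
  · rcases c0_11_23_33_k1_k_t12 C with ⟨c1_0_0, c1_0_1⟩ | ⟨c1_1_0, c1_1_1⟩
    · rcases c0_11_23_33_k1_k_t23 C with ⟨c2_0_0, c2_0_1⟩ | ⟨c2_1_0, c2_1_1⟩
      · rcases c0_11_23_33_k1_k_f13_5 C with ⟨c3_0_0, c3_0_1⟩ | ⟨c3_1_0, c3_1_1⟩
        · rcases c0_11_23_33_k1_k_f13_8 C with ⟨c4_0_0, c4_0_1⟩ | ⟨c4_1_0, c4_1_1⟩
          · linarith only [C.f11_0, C.f11_1, C.f11_2, C.f13_7, C.f23_9, C.f33_7, C.o0, c0_0_1, c3_0_1, c4_0_1, s3]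
          · rcases c0_11_23_33_k1_k_f22_2 C with ⟨c5_0_0, c5_0_1⟩ | ⟨c5_1_0, c5_1_1⟩
            · rcases c0_11_23_33_k1_k_f22_5 C with ⟨c6_0_0, c6_0_1⟩ | ⟨c6_1_0, c6_1_1⟩
              · linarith only [C.a1, C.f22_4, C.o1, c1_0_1, c5_0_1, c6_0_1]
              · rcases c0_11_23_33_k1_k_p11_22B C with c7_0_0 | c7_1_0 | c7_2_0 | c7_3_0 | c7_4_0
                · linarith only [c7_0_0, e0]
                · linarith only [C.a1, C.f22_1, c1_0_0, c5_0_1, c7_1_0]
                · linarith only [C.a1, C.f11_0, C.o0, c5_0_1, c7_2_0]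
                · rcases c0_11_23_33_k1_k_f33_2 C with ⟨c8_0_0, c8_0_1⟩ | ⟨c8_1_0, c8_1_1⟩
                  · rcases c0_11_23_33_k1_k_f33_8 C with ⟨c9_0_0, c9_0_1⟩ | ⟨c9_1_0, c9_1_1⟩
                    · linarith only [C.f11_2, C.f23_5, C.f23_9, C.f33_7, C.o2, c6_1_1, c7_3_0, c9_0_1, s2, s3]
                    · rcases c0_11_23_33_k1_k_p11_33B C with c10_0_0 | c10_1_0 | c10_2_0 | c10_3_0 | c10_4_0
                      · linarith only [c10_0_0, e0]
                      · linarith only [c10_1_0, e3]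
                      · linarith only [C.a1, C.f11_0, C.o0, c10_2_0, c8_0_1]
                      · linarith only [C.f23_5, c10_3_0, s2]
                      · rcases c0_11_23_33_k1_k_p13_22B C with c11_0_0 | c11_1_0 | c11_2_0 | c11_3_0 | c11_4_0 | c11_5_0
                        · linarith only [c11_0_0, c1_0_0]
                        · linarith only [c11_1_0, e2]
                        · linarith only [C.a1, C.f22_1, C.o0, c11_2_0, c5_0_1, e0]
                        · linarith only [C.a1, C.o0, c0_0_1, c11_3_0, c5_0_1]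
                        · rcases c0_11_23_33_k1_k_p13_33A C with c16_0_0 | c16_1_0 | c16_2_0 | c16_3_0 | c16_4_0 | c16_5_0
                          · linarith only [c16_0_0, c1_0_0]
                          · linarith only [c16_1_0, e2]
                          · linarith only [c16_2_0, e3]
                          · linarith only [C.f11_0, C.f11_1, C.f23_5, C.f33_3, C.o0, c0_0_1, c11_4_0, c16_3_0, c3_0_1, c6_1_1, s2]
                          · linarith only [C.f11_0, C.f11_1, C.f23_5, C.o0, c0_0_1, c11_4_0, c16_4_0, c1_0_1, c3_0_1, c6_1_1, s2]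
                          · linarith only [C.f23_9, c10_4_0, c16_5_0, c4_1_1, c9_1_1, s3]
                        · linarith only [C.f11_2, C.f22_6, C.f23_9, C.f33_7, c11_5_0, c4_1_1, c6_1_1, c7_3_0, s3]
                  · linarith only [C.f22_1, C.f23_5, C.f33_0, C.f33_4, c5_0_1, c6_1_1, c7_3_0, c8_1_1, s2]
                · linarith only [C.b5, C.f22_6, C.f23_9, C.f33_7, c6_1_1, c7_4_0, s3]
            · rcases c0_11_23_33_k1_k_f22_5 C with ⟨c17_0_0, c17_0_1⟩ | ⟨c17_1_0, c17_1_1⟩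
              · linarith only [C.f22_4, c17_0_1, c1_0_1, c2_0_0, c5_1_1]
              · rcases c0_11_23_33_k1_k_f23_3 C with ⟨c18_0_0, c18_0_1⟩ | ⟨c18_1_0, c18_1_1⟩ | ⟨c18_2_0, c18_2_1⟩
                · rcases c0_11_23_33_k1_k_f23_7 C with ⟨c19_0_0, c19_0_1⟩ | ⟨c19_1_0, c19_1_1⟩ | ⟨c19_2_0, c19_2_1⟩
                  · linarith only [C.a1, C.f23_5, c18_0_1, c19_0_1, c1_0_1]
                  · rcases c0_11_23_33_k1_k_p11_23B C with c20_0_0 | c20_1_0 | c20_2_0 | c20_3_0 | c20_4_0 | c20_5_0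
                    · linarith only [c20_0_0, e0]
                    · linarith only [c20_1_0, e1]
                    · linarith only [c20_2_0, e2]
                    · linarith only [C.a1, C.f11_0, C.o0, c18_0_1, c20_3_0]
                    · rcases c0_11_23_33_k1_k_f33_2 C with ⟨c22_0_0, c22_0_1⟩ | ⟨c22_1_0, c22_1_1⟩
                      · rcases c0_11_23_33_k1_k_f33_8 C with ⟨c23_0_0, c23_0_1⟩ | ⟨c23_1_0, c23_1_1⟩
                        · linarith only [C.f11_2, C.f23_9, C.f33_7, C.o1, C.o2, c19_1_1, c20_4_0, c23_0_1, s2, s3]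
                        · rcases c0_11_23_33_k1_k_p11_22B C with c24_0_0 | c24_1_0 | c24_2_0 | c24_3_0 | c24_4_0
                          · linarith only [c24_0_0, e0]
                          · linarith only [C.a1, C.f11_0, C.f11_1, C.f23_1, C.o0, c18_0_1, c19_1_1, c1_0_1, c20_4_0, c24_1_0, e0]
                          · linarith only [C.a1, C.f11_0, C.f11_1, C.f23_1, C.o0, c18_0_1, c19_1_1, c1_0_1, c20_4_0, c24_2_0, c5_1_1]
                          · rcases c0_11_23_33_k1_k_p11_33B C with c25_0_0 | c25_1_0 | c25_2_0 | c25_3_0 | c25_4_0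
                            · linarith only [c25_0_0, e0]
                            · linarith only [c25_1_0, e3]
                            · linarith only [C.a1, C.f11_0, C.o0, c22_0_1, c25_2_0]
                            · linarith only [C.f23_5, c25_3_0, s2]
                            · rcases c0_11_23_33_k1_k_p13_22B C with c26_0_0 | c26_1_0 | c26_2_0 | c26_3_0 | c26_4_0 | c26_5_0
                              · linarith only [c1_0_0, c26_0_0]
                              · linarith only [c26_1_0, e2]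
                              · linarith only [C.a1, C.f11_0, C.f11_1, C.f23_1, C.o0, c18_0_1, c19_1_1, c1_0_1, c20_4_0, c26_2_0, e0]
                              · linarith only [C.a1, C.f11_0, C.f11_1, C.f23_1, C.o0, c0_0_1, c18_0_1, c19_1_1, c1_0_1, c20_4_0, c26_3_0, c5_1_1]
                              · rcases c0_11_23_33_k1_k_p13_33A C with c30_0_0 | c30_1_0 | c30_2_0 | c30_3_0 | c30_4_0 | c30_5_0
                                · linarith only [c1_0_0, c30_0_0]
                                · linarith only [c30_1_0, e2]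
                                · linarith only [c30_2_0, e3]
                                · linarith only [C.f11_0, C.f11_1, C.f23_5, C.f33_3, C.o0, c0_0_1, c17_1_1, c26_4_0, c30_3_0, c3_0_1, s2]
                                · linarith only [C.f11_0, C.f11_1, C.f23_5, C.o0, c0_0_1, c17_1_1, c1_0_1, c26_4_0, c30_4_0, c3_0_1, s2]
                                · linarith only [C.f23_9, c23_1_1, c25_4_0, c30_5_0, c4_1_1, s3]
                              · linarith only [C.f11_2, C.f22_6, C.f23_9, C.f33_7, c17_1_1, c24_3_0, c26_5_0, c4_1_1, s3]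
                          · linarith only [C.f11_2, C.f22_6, C.f23_9, C.f33_7, C.o1, c17_1_1, c19_1_1, c20_4_0, c24_4_0, s3]
                      · linarith only [C.f23_1, C.f33_0, C.f33_4, c18_0_1, c20_4_0, c22_1_1, s2]
                    · linarith only [C.f33_7, c20_5_0, s3]
                  · linarith only [C.f13_4, C.f23_5, c0_0_1, c19_2_1, c1_0_1, c3_0_1]
                · rcases c0_11_23_33_k1_k_f23_7 C with ⟨c31_0_0, c31_0_1⟩ | ⟨c31_1_0, c31_1_1⟩ | ⟨c31_2_0, c31_2_1⟩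
                  · linarith only [C.f23_5, c18_1_1, c1_0_1, c2_0_0, c31_0_1]
                  · rcases c0_11_23_33_k1_k_p11_23B C with c32_0_0 | c32_1_0 | c32_2_0 | c32_3_0 | c32_4_0 | c32_5_0
                    · linarith only [c32_0_0, e0]
                    · linarith only [c32_1_0, e1]
                    · linarith only [c32_2_0, e2]
                    · linarith only [C.f11_0, C.o0, c18_1_1, c2_0_0, c32_3_0]
                    · rcases c0_11_23_33_k1_k_f33_8 C with ⟨c34_0_0, c34_0_1⟩ | ⟨c34_1_0, c34_1_1⟩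
                      · linarith only [C.f11_2, C.f23_9, C.f33_7, C.o1, C.o2, c31_1_1, c32_4_0, c34_0_1, s2, s3]
                      · rcases c0_11_23_33_k1_k_p11_22B C with c35_0_0 | c35_1_0 | c35_2_0 | c35_3_0 | c35_4_0
                        · linarith only [c35_0_0, e0]
                        · linarith only [C.f11_0, C.f11_1, C.o0, c1_0_1, c2_0_0, c31_1_1, c32_4_0, c35_1_0, e0]
                        · linarith only [C.f11_0, C.f11_1, C.o0, c1_0_1, c2_0_0, c31_1_1, c32_4_0, c35_2_0, c5_1_1]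
                        · rcases c0_11_23_33_k1_k_p13_22B C with c36_0_0 | c36_1_0 | c36_2_0 | c36_3_0 | c36_4_0 | c36_5_0
                          · linarith only [c1_0_0, c36_0_0]
                          · linarith only [c36_1_0, e2]
                          · linarith only [C.f11_0, C.f11_1, C.o0, c1_0_1, c2_0_0, c31_1_1, c32_4_0, c36_2_0, e0]
                          · linarith only [C.f11_0, C.f11_1, C.o0, c0_0_1, c1_0_1, c2_0_0, c31_1_1, c32_4_0, c36_3_0, c5_1_1]
                          · rcases c0_11_23_33_k1_k_p11_33A C with c37_0_0 | c37_1_0 | c37_2_0 | c37_3_0 | c37_4_0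
                            · linarith only [c37_0_0, e0]
                            · linarith only [c37_1_0, e3]
                            · rcases c0_11_23_33_k1_k_f33_2 C with ⟨c38_0_0, c38_0_1⟩ | ⟨c38_1_0, c38_1_1⟩
                              · rcases c0_11_23_33_k1_k_p11_33B C with c39_0_0 | c39_1_0 | c39_2_0 | c39_3_0 | c39_4_0
                                · linarith only [c39_0_0, e0]
                                · linarith only [c39_1_0, e3]
                                · linarith only [C.a1, C.f11_0, C.o0, c38_0_1, c39_2_0]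
                                · linarith only [C.f23_5, c39_3_0, s2]
                                · rcases c0_11_23_33_k1_k_p13_33A C with c40_0_0 | c40_1_0 | c40_2_0 | c40_3_0 | c40_4_0 | c40_5_0
                                  · linarith only [c1_0_0, c40_0_0]
                                  · linarith only [c40_1_0, e2]
                                  · linarith only [c40_2_0, e3]
                                  · linarith only [C.f11_0, C.f11_1, C.f23_5, C.f33_3, C.o0, c0_0_1, c17_1_1, c36_4_0, c3_0_1, c40_3_0, s2]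
                                  · linarith only [C.f11_0, C.f11_1, C.f23_5, C.o0, c0_0_1, c17_1_1, c1_0_1, c36_4_0, c3_0_1, c40_4_0, s2]
                                  · linarith only [C.f23_9, c34_1_1, c39_4_0, c40_5_0, c4_1_1, s3]
                              · linarith only [C.f11_1, C.f23_5, C.f33_4, c0_0_1, c17_1_1, c1_0_1, c2_0_0, c36_4_0, c37_2_0, c38_1_1, c3_0_1, s2]
                            · linarith only [C.f23_5, c0_0_1, c17_1_1, c1_0_1, c36_4_0, c37_3_0, c3_0_1, s2]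
                            · linarith only [C.f23_9, C.o2, c37_4_0, s3]
                          · linarith only [C.f11_2, C.f22_6, C.f23_9, C.f33_7, c17_1_1, c35_3_0, c36_5_0, c4_1_1, s3]
                        · linarith only [C.f11_2, C.f22_6, C.f23_9, C.f33_7, C.o1, c17_1_1, c31_1_1, c32_4_0, c35_4_0, s3]
                    · linarith only [C.f33_7, c32_5_0, s3]
                  · linarith only [C.f13_4, C.f23_5, c0_0_1, c1_0_1, c31_2_1, c3_0_1]
                · linarith only [C.f13_4, C.f23_1, c0_0_1, c18_2_1, c1_0_1, c3_0_1]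
        · rcases c0_11_23_33_k1_k_f13_8 C with ⟨c41_0_0, c41_0_1⟩ | ⟨c41_1_0, c41_1_1⟩
          · linarith only [C.a4, C.f13_7, c2_0_1, c3_1_1, c41_0_1]
          · rcases c0_11_23_33_k1_k_p11_13B C with c42_0_0 | c42_1_0 | c42_2_0 | c42_3_0 | c42_4_0 | c42_5_0
            · linarith only [c42_0_0, e0]
            · linarith only [c1_0_0, c42_1_0]
            · linarith only [c42_2_0, e2]
            · rcases c0_11_23_33_k1_k_f22_2 C with ⟨c43_0_0, c43_0_1⟩ | ⟨c43_1_0, c43_1_1⟩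
              · rcases c0_11_23_33_k1_k_f22_5 C with ⟨c44_0_0, c44_0_1⟩ | ⟨c44_1_0, c44_1_1⟩
                · linarith only [C.a1, C.f11_0, C.f11_1, C.f13_0, C.f13_3, C.f22_4, C.f23_5, C.f33_4, C.o0, C.o2, c3_1_1, c43_0_1, c44_0_1, s2]
                · rcases c0_11_23_33_k1_k_p11_22B C with c45_0_0 | c45_1_0 | c45_2_0 | c45_3_0 | c45_4_0
                  · linarith only [c45_0_0, e0]
                  · linarith only [C.a1, C.f22_1, c1_0_0, c43_0_1, c45_1_0]
                  · linarith only [C.a1, C.f11_0, C.o0, c43_0_1, c45_2_0]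
                  · linarith only [C.f11_0, C.f11_1, C.f13_3, C.f23_5, C.f33_4, C.o2, c3_1_1, c42_3_0, c44_1_1, c45_3_0, s2]
                  · linarith only [C.b5, C.f22_6, C.f23_9, C.f33_7, c44_1_1, c45_4_0, s3]
              · rcases c0_11_23_33_k1_k_f22_5 C with ⟨c46_0_0, c46_0_1⟩ | ⟨c46_1_0, c46_1_1⟩
                · linarith only [C.a4, C.f13_0, C.f13_3, C.f22_4, C.o2, c2_0_0, c3_1_1, c43_1_1, c46_0_1]
                · rcases c0_11_23_33_k1_k_p11_22B C with c47_0_0 | c47_1_0 | c47_2_0 | c47_3_0 | c47_4_0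
                  · linarith only [c47_0_0, e0]
                  · linarith only [C.b2, c47_1_0, e0]
                  · rcases c0_11_23_33_k1_k_tzpm C with c48_0_0 | c48_1_0 | c48_2_0 | c48_3_0 | ⟨c48_4_0, c48_4_1⟩
                    · linarith only [c2_0_0, c48_0_0]
                    · linarith only [C.b5, C.f11_0, C.o0, C.o2, c2_0_0, c43_1_1, c47_2_0, c48_1_0]
                    · linarith only [C.f11_0, c1_0_1, c2_0_0, c43_1_1, c47_2_0, c48_2_0]
                    · linarith only [C.f11_0, C.f23_2, C.f33_1, C.o0, C.o2, c43_1_1, c47_2_0, c48_3_0, s1]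
                    · rcases c0_11_23_33_k1_k_p11_33B C with c49_0_0 | c49_1_0 | c49_2_0 | c49_3_0 | c49_4_0
                      · linarith only [c49_0_0, e0]
                      · linarith only [c49_1_0, e3]
                      · rcases c0_11_23_33_k1_k_f33_2 C with ⟨c52_0_0, c52_0_1⟩ | ⟨c52_1_0, c52_1_1⟩
                        · linarith only [C.f11_0, C.f23_0, C.o0, c49_2_0, c52_0_1, s1]
                        · linarith only [C.a4, C.f11_0, C.f23_1, C.o0, c49_2_0, c52_1_1, s1]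
                      · linarith only [C.f23_5, c49_3_0, s2]
                      · linarith only [C.f23_9, c48_4_1, c49_4_0, s3]
                  · linarith only [C.f11_0, C.f11_1, C.f13_3, C.f23_5, C.f33_4, C.o2, c3_1_1, c42_3_0, c46_1_1, c47_3_0, s2]
                  · linarith only [C.b5, C.f22_6, C.f23_9, C.f33_7, c46_1_1, c47_4_0, s3]
            · linarith only [C.f23_5, C.f33_4, C.o2, c3_1_1, c42_4_0, s2]
            · linarith only [C.f23_9, C.f33_7, c41_1_1, c42_5_0, s3]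
      · rcases c0_11_23_33_k1_k_f13_5 C with ⟨c53_0_0, c53_0_1⟩ | ⟨c53_1_0, c53_1_1⟩
        · rcases c0_11_23_33_k1_k_f13_8 C with ⟨c54_0_0, c54_0_1⟩ | ⟨c54_1_0, c54_1_1⟩
          · linarith only [C.f11_0, C.f11_1, C.f11_2, C.f13_7, C.f23_9, C.f33_7, C.o0, c0_0_1, c53_0_1, c54_0_1, s3]
          · rcases c0_11_23_33_k1_k_f22_2 C with ⟨c55_0_0, c55_0_1⟩ | ⟨c55_1_0, c55_1_1⟩
            · rcases c0_11_23_33_k1_k_f22_5 C with ⟨c56_0_0, c56_0_1⟩ | ⟨c56_1_0, c56_1_1⟩
              · linarith only [C.a1, C.f22_4, C.o1, c1_0_1, c55_0_1, c56_0_1]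
              · rcases c0_11_23_33_k1_k_p11_22B C with c57_0_0 | c57_1_0 | c57_2_0 | c57_3_0 | c57_4_0
                · linarith only [c57_0_0, e0]
                · linarith only [C.a1, C.f22_1, c1_0_0, c55_0_1, c57_1_0]
                · linarith only [C.a1, C.f11_0, C.o0, c55_0_1, c57_2_0]
                · rcases c0_11_23_33_k1_k_f33_2 C with ⟨c58_0_0, c58_0_1⟩ | ⟨c58_1_0, c58_1_1⟩
                  · rcases c0_11_23_33_k1_k_f33_8 C with ⟨c59_0_0, c59_0_1⟩ | ⟨c59_1_0, c59_1_1⟩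
                    · linarith only [C.f11_2, C.f23_5, C.f23_9, C.f33_7, C.o2, c56_1_1, c57_3_0, c59_0_1, s2, s3]
                    · rcases c0_11_23_33_k1_k_p11_33B C with c60_0_0 | c60_1_0 | c60_2_0 | c60_3_0 | c60_4_0
                      · linarith only [c60_0_0, e0]
                      · linarith only [c60_1_0, e3]
                      · linarith only [C.a1, C.f11_0, C.o0, c58_0_1, c60_2_0]
                      · linarith only [C.f23_5, c60_3_0, s2]
                      · rcases c0_11_23_33_k1_k_p13_22B C with c61_0_0 | c61_1_0 | c61_2_0 | c61_3_0 | c61_4_0 | c61_5_0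
                        · linarith only [c1_0_0, c61_0_0]
                        · linarith only [c61_1_0, e2]
                        · linarith only [C.a1, C.f22_1, C.o0, c55_0_1, c61_2_0, e0]
                        · linarith only [C.a1, C.o0, c0_0_1, c55_0_1, c61_3_0]
                        · rcases c0_11_23_33_k1_k_p13_33A C with c66_0_0 | c66_1_0 | c66_2_0 | c66_3_0 | c66_4_0 | c66_5_0
                          · linarith only [c1_0_0, c66_0_0]
                          · linarith only [c66_1_0, e2]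
                          · linarith only [c66_2_0, e3]
                          · linarith only [C.f11_0, C.f11_1, C.f23_5, C.f33_3, C.o0, c0_0_1, c53_0_1, c56_1_1, c61_4_0, c66_3_0, s2]
                          · linarith only [C.f11_0, C.f11_1, C.f23_5, C.o0, c0_0_1, c1_0_1, c53_0_1, c56_1_1, c61_4_0, c66_4_0, s2]
                          · linarith only [C.f23_9, c54_1_1, c59_1_1, c60_4_0, c66_5_0, s3]
                        · linarith only [C.f11_2, C.f22_6, C.f23_9, C.f33_7, c54_1_1, c56_1_1, c57_3_0, c61_5_0, s3]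
                  · linarith only [C.f22_1, C.f23_5, C.f33_0, C.f33_4, c55_0_1, c56_1_1, c57_3_0, c58_1_1, s2]
                · linarith only [C.f22_6, C.f23_9, C.f33_7, c2_1_1, c56_1_1, c57_4_0, s3]
            · rcases c0_11_23_33_k1_k_f22_5 C with ⟨c67_0_0, c67_0_1⟩ | ⟨c67_1_0, c67_1_1⟩
              · linarith only [C.a2, C.f22_4, c1_0_1, c55_1_1, c67_0_1]
              · rcases c0_11_23_33_k1_k_f33_2 C with ⟨c83_0_0, c83_0_1⟩ | ⟨c83_1_0, c83_1_1⟩
                · rcases c0_11_23_33_k1_k_p11_33B C with c84_0_0 | c84_1_0 | c84_2_0 | c84_3_0 | c84_4_0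
                  · linarith only [c84_0_0, e0]
                  · linarith only [c84_1_0, e3]
                  · linarith only [C.a1, C.f11_0, C.o0, c83_0_1, c84_2_0]
                  · linarith only [C.f23_5, c84_3_0, s2]
                  · rcases c0_11_23_33_k1_k_f33_8 C with ⟨c85_0_0, c85_0_1⟩ | ⟨c85_1_0, c85_1_1⟩
                    · linarith only [C.f11_2, C.f23_5, c2_1_1, c84_4_0, c85_0_1, s2]
                    · rcases c0_11_23_33_k1_k_tpzm C with c87_0_0 | c87_1_0 | c87_2_0 | c87_3_0 | c87_4_0 | c87_5_0 | c87_6_0 | ⟨c87_7_0, c87_7_1⟩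
                      · linarith only [c1_0_0, c87_0_0]
                      · linarith only [c1_0_1, c87_1_0]
                      · linarith only [C.f23_5, C.f23_8, c84_4_0, c87_2_0, s3]
                      · linarith only [C.a1, C.o0, c87_3_0]
                      · linarith only [c2_1_0, c87_4_0]
                      · linarith only [C.f13_4, C.o1, c0_0_1, c1_0_1, c53_0_1, c87_5_0]
                      · linarith only [C.f23_9, c84_4_0, c87_6_0, s3]
                      · rcases c0_11_23_33_k1_k_p13_33A C with c89_0_0 | c89_1_0 | c89_2_0 | c89_3_0 | c89_4_0 | c89_5_0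
                        · linarith only [c1_0_0, c89_0_0]
                        · linarith only [c89_1_0, e2]
                        · linarith only [c89_2_0, e3]
                        · rcases c0_11_23_33_k1_k_p11_22B C with c92_0_0 | c92_1_0 | c92_2_0 | c92_3_0 | c92_4_0
                          · linarith only [c92_0_0, e0]
                          · linarith only [C.f11_0, C.f23_1, c0_0_1, c87_7_1, c89_3_0, c92_1_0, e0, s1]
                          · linarith only [C.f23_1, c0_0_1, c55_1_1, c87_7_1, c89_3_0, c92_2_0, s1]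
                          · rcases c0_11_23_33_k1_k_p13_22B C with c95_0_0 | c95_1_0 | c95_2_0 | c95_3_0 | c95_4_0 | c95_5_0
                            · linarith only [c1_0_0, c95_0_0]
                            · linarith only [c95_1_0, e2]
                            · linarith only [C.f11_0, C.f23_1, c0_0_1, c87_7_1, c89_3_0, c95_2_0, e0, s1]
                            · linarith only [C.f11_0, C.f23_1, C.o0, c0_0_1, c55_1_1, c87_7_1, c89_3_0, c95_3_0, s1]
                            · linarith only [C.f11_0, C.f11_1, C.f23_5, C.f33_3, C.o0, c0_0_1, c53_0_1, c67_1_1, c89_3_0, c95_4_0, s2]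
                            · linarith only [C.f11_2, C.f22_6, C.f23_9, C.f33_7, c54_1_1, c67_1_1, c92_3_0, c95_5_0, s3]
                          · linarith only [C.f22_6, C.f23_5, C.f23_8, C.f33_7, c67_1_1, c87_7_1, c92_4_0, s3]
                        · linarith only [C.f11_0, C.f11_1, C.f23_5, C.o0, c0_0_1, c53_0_1, c87_7_1, c89_4_0, s2]
                        · linarith only [C.f23_9, c54_1_1, c84_4_0, c85_1_1, c89_5_0, s3]
                · rcases c0_11_23_33_k1_k_f33_5 C with ⟨c96_0_0, c96_0_1⟩ | ⟨c96_1_0, c96_1_1⟩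
                  · linarith only [C.a2, C.f33_4, c1_0_1, c83_1_1, c96_0_1]
                  · rcases c0_11_23_33_k1_k_f33_8 C with ⟨c97_0_0, c97_0_1⟩ | ⟨c97_1_0, c97_1_1⟩
                    · linarith only [C.f11_0, C.f11_1, C.f11_2, C.f13_4, C.f23_9, C.f33_7, C.o0, c0_0_1, c53_0_1, c96_1_1, c97_0_1, s3]
                    · rcases c0_11_23_33_k1_k_p11_33B C with c98_0_0 | c98_1_0 | c98_2_0 | c98_3_0 | c98_4_0
                      · linarith only [c98_0_0, e0]
                      · linarith only [c98_1_0, e3]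
                      · linarith only [C.a4, C.f11_0, C.f23_1, C.o0, c83_1_1, c98_2_0, s1]
                      · linarith only [C.f23_5, c98_3_0, s2]
                      · rcases c0_11_23_33_k1_k_tpzm C with c100_0_0 | c100_1_0 | c100_2_0 | c100_3_0 | c100_4_0 | c100_5_0 | c100_6_0 | ⟨c100_7_0, c100_7_1⟩
                        · linarith only [c100_0_0, c1_0_0]
                        · linarith only [c100_1_0, c1_0_1]
                        · linarith only [C.f23_5, C.f23_8, c100_2_0, c98_4_0, s3]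
                        · linarith only [C.a1, C.o0, c100_3_0]
                        · linarith only [c100_4_0, c2_1_0]
                        · linarith only [C.f13_4, C.o1, c0_0_1, c100_5_0, c1_0_1, c53_0_1]
                        · linarith only [C.f23_9, c100_6_0, c98_4_0, s3]
                        · rcases c0_11_23_33_k1_k_p11_33A C with c101_0_0 | c101_1_0 | c101_2_0 | c101_3_0 | c101_4_0
                          · linarith only [c101_0_0, e0]
                          · linarith only [c101_1_0, e3]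
                          · rcases c0_11_23_33_k1_k_p13_22B C with c105_0_0 | c105_1_0 | c105_2_0 | c105_3_0 | c105_4_0 | c105_5_0
                            · linarith only [c105_0_0, c1_0_0]
                            · linarith only [c105_1_0, e2]
                            · linarith only [c100_7_1, c105_2_0, e1]
                            · linarith only [C.a2, C.o0, c0_0_1, c100_7_1, c105_3_0, c55_1_1]
                            · linarith only [C.a2, C.f11_1, C.f23_5, C.f33_4, c0_0_1, c100_7_1, c101_2_0, c105_4_0, c53_0_1, c67_1_1, c83_1_1, s2]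
                            · rcases c0_11_23_33_k1_k_p11_22B C with c107_0_0 | c107_1_0 | c107_2_0 | c107_3_0 | c107_4_0
                              · linarith only [c107_0_0, e0]
                              · linarith only [c100_7_1, c107_1_0, e1]
                              · rcases c0_11_23_33_k1_k_p13_33A C with c112_0_0 | c112_1_0 | c112_2_0 | c112_3_0 | c112_4_0 | c112_5_0
                                · linarith only [c112_0_0, c1_0_0]
                                · linarith only [c112_1_0, e2]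
                                · linarith only [c112_2_0, e3]
                                · linarith only [C.f23_1, c0_0_1, c100_7_1, c107_2_0, c112_3_0, c55_1_1, s1]
                                · linarith only [C.f11_1, C.f11_2, C.f22_6, C.f23_1, C.f23_9, C.f33_1, C.f33_7, C.o0, c0_0_1, c100_7_1, c105_5_0, c107_2_0, c112_4_0, c53_0_1, c54_1_1, c55_1_1, c67_1_1, c96_1_1, s1, s3]
                                · linarith only [C.f23_9, c112_5_0, c54_1_1, c97_1_1, c98_4_0, s3]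
                              · linarith only [C.f11_2, C.f22_6, C.f23_9, C.f33_7, c105_5_0, c107_3_0, c54_1_1, c67_1_1, s3]
                              · linarith only [C.f22_6, C.f23_5, C.f23_8, C.f33_7, c100_7_1, c107_4_0, c67_1_1, s3]
                          · linarith only [C.f23_5, c100_7_1, c101_3_0, s2]
                          · linarith only [C.f23_9, c101_4_0, c98_4_0, s3]
        · rcases c0_11_23_33_k1_k_f13_8 C with ⟨c113_0_0, c113_0_1⟩ | ⟨c113_1_0, c113_1_1⟩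
          · linarith only [C.a4, C.f13_7, C.o1, C.o2, c113_0_1, c2_1_1, c53_1_1]
          · rcases c0_11_23_33_k1_k_p11_13B C with c114_0_0 | c114_1_0 | c114_2_0 | c114_3_0 | c114_4_0 | c114_5_0
            · linarith only [c114_0_0, e0]
            · linarith only [c114_1_0, c1_0_0]
            · linarith only [c114_2_0, e2]
            · rcases c0_11_23_33_k1_k_f23_3 C with ⟨c121_0_0, c121_0_1⟩ | ⟨c121_1_0, c121_1_1⟩ | ⟨c121_2_0, c121_2_1⟩
              · rcases c0_11_23_33_k1_k_f23_7 C with ⟨c122_0_0, c122_0_1⟩ | ⟨c122_1_0, c122_1_1⟩ | ⟨c122_2_0, c122_2_1⟩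
                · linarith only [C.a1, C.f23_5, c121_0_1, c122_0_1, c1_0_1]
                · rcases c0_11_23_33_k1_k_p11_23B C with c124_0_0 | c124_1_0 | c124_2_0 | c124_3_0 | c124_4_0 | c124_5_0
                  · linarith only [c124_0_0, e0]
                  · linarith only [c124_1_0, e1]
                  · linarith only [c124_2_0, e2]
                  · linarith only [C.a1, C.f11_0, C.o0, c121_0_1, c124_3_0]
                  · linarith only [C.f11_0, C.f11_1, C.f13_3, C.f33_4, C.o1, C.o2, c114_3_0, c122_1_1, c124_4_0, c53_1_1, s2]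
                  · linarith only [C.f33_7, c124_5_0, s3]
                · linarith only [C.a4, C.f23_5, C.o2, c122_2_1]
              · rcases c0_11_23_33_k1_k_f23_7 C with ⟨c125_0_0, c125_0_1⟩ | ⟨c125_1_0, c125_1_1⟩ | ⟨c125_2_0, c125_2_1⟩
                · linarith only [C.a2, C.f23_5, c121_1_1, c125_0_1, c1_0_1]
                · rcases c0_11_23_33_k1_k_f23_10 C with ⟨c126_0_0, c126_0_1⟩ | ⟨c126_1_0, c126_1_1⟩
                  · linarith only [C.f23_9, C.o1, c125_1_1, c126_0_1, c2_1_1]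
                  · rcases c0_11_23_33_k1_k_p11_23B C with c127_0_0 | c127_1_0 | c127_2_0 | c127_3_0 | c127_4_0 | c127_5_0
                    · linarith only [c127_0_0, e0]
                    · linarith only [c127_1_0, e1]
                    · linarith only [c127_2_0, e2]
                    · rcases c0_11_23_33_k1_k_f33_5 C with ⟨c128_0_0, c128_0_1⟩ | ⟨c128_1_0, c128_1_1⟩
                      · linarith only [C.f13_0, C.f13_3, C.f33_4, C.o2, c127_3_0, c128_0_1, c53_1_1, s1]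
                      · rcases c0_11_23_33_k1_k_f33_8 C with ⟨c129_0_0, c129_0_1⟩ | ⟨c129_1_0, c129_1_1⟩
                        · linarith only [C.f11_0, C.f23_5, C.f23_8, C.f33_1, C.f33_7, C.o0, C.o2, c121_1_1, c126_1_1, c127_3_0, c128_1_1, c129_0_1, s1]
                        · rcases c0_11_23_33_k1_k_p11_33B C with c134_0_0 | c134_1_0 | c134_2_0 | c134_3_0 | c134_4_0
                          · linarith only [c134_0_0, e0]
                          · linarith only [c134_1_0, e3]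
                          · linarith only [C.f11_0, C.o0, c127_3_0, c134_2_0, s1]
                          · linarith only [C.f11_0, C.f11_1, C.f13_0, C.f13_3, C.f33_1, C.o0, C.o1, C.o2, c121_1_1, c127_3_0, c128_1_1, c134_3_0, c53_1_1, s1]
                          · linarith only [C.f11_0, C.f11_1, C.f11_2, C.f13_0, C.f13_3, C.f33_1, C.o1, c121_1_1, c127_3_0, c129_1_1, c134_4_0, c2_1_1, c53_1_1, s1]
                    · linarith only [C.f11_0, C.f11_1, C.f13_3, C.f33_4, C.o1, C.o2, c114_3_0, c125_1_1, c127_4_0, c53_1_1, s2]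
                    · linarith only [C.f33_7, c127_5_0, s3]
                · linarith only [C.a4, C.f23_5, C.o2, c125_2_1]
              · linarith only [C.a4, C.f23_1, C.o2, c121_2_1]
            · linarith only [C.f23_5, C.f33_4, C.o2, c114_4_0, c53_1_1, s2]
            · linarith only [C.f23_9, C.f33_7, c113_1_1, c114_5_0, s3]
    · rcases c0_11_23_33_k1_k_t23 C with ⟨c135_0_0, c135_0_1⟩ | ⟨c135_1_0, c135_1_1⟩
      · rcases c0_11_23_33_k1_k_f13_5 C with ⟨c136_0_0, c136_0_1⟩ | ⟨c136_1_0, c136_1_1⟩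
        · rcases c0_11_23_33_k1_k_f13_8 C with ⟨c137_0_0, c137_0_1⟩ | ⟨c137_1_0, c137_1_1⟩
          · linarith only [C.a3, C.f11_0, C.f11_1, C.f11_2, C.f13_7, C.f23_5, C.f23_8, C.f33_7, C.o0, c0_0_1, c136_0_1, c137_0_1, s3]
          · rcases c0_11_23_33_k1_k_f22_2 C with ⟨c139_0_0, c139_0_1⟩ | ⟨c139_1_0, c139_1_1⟩
            · rcases c0_11_23_33_k1_k_f22_5 C with ⟨c140_0_0, c140_0_1⟩ | ⟨c140_1_0, c140_1_1⟩
              · linarith only [C.a1, C.f22_4, C.o0, c139_0_1, c140_0_1, c1_1_1]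
              · rcases c0_11_23_33_k1_k_p11_22B C with c141_0_0 | c141_1_0 | c141_2_0 | c141_3_0 | c141_4_0
                · linarith only [c141_0_0, e0]
                · linarith only [C.a0, C.a1, C.f22_1, c139_0_1, c141_1_0]
                · linarith only [C.a1, C.f11_0, C.o0, c139_0_1, c141_2_0]
                · rcases c0_11_23_33_k1_k_p13_22B C with c145_0_0 | c145_1_0 | c145_2_0 | c145_3_0 | c145_4_0 | c145_5_0
                  · linarith only [C.o0, c145_0_0, e0]
                  · linarith only [c145_1_0, e2]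
                  · linarith only [C.a1, C.f22_1, C.o0, c139_0_1, c145_2_0, e0]
                  · linarith only [C.a1, C.o0, c0_0_1, c139_0_1, c145_3_0]
                  · linarith only [C.o0, c0_0_1, c136_0_1, c140_1_1, c145_4_0, c1_1_1]
                  · linarith only [C.f11_2, C.f22_6, C.f23_9, C.f33_7, c137_1_1, c140_1_1, c141_3_0, c145_5_0, s3]
                · linarith only [C.b5, C.f22_6, C.f23_9, C.f33_7, c140_1_1, c141_4_0, s3]
            · rcases c0_11_23_33_k1_k_f22_5 C with ⟨c146_0_0, c146_0_1⟩ | ⟨c146_1_0, c146_1_1⟩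
              · linarith only [C.a3, C.f22_4, c135_0_0, c139_1_1, c146_0_1]
              · rcases c0_11_23_33_k1_k_f23_3 C with ⟨c147_0_0, c147_0_1⟩ | ⟨c147_1_0, c147_1_1⟩ | ⟨c147_2_0, c147_2_1⟩
                · rcases c0_11_23_33_k1_k_f23_7 C with ⟨c148_0_0, c148_0_1⟩ | ⟨c148_1_0, c148_1_1⟩ | ⟨c148_2_0, c148_2_1⟩
                  · linarith only [C.a1, C.a3, C.f23_5, c147_0_1, c148_0_1]
                  · rcases c0_11_23_33_k1_k_p11_23B C with c149_0_0 | c149_1_0 | c149_2_0 | c149_3_0 | c149_4_0 | c149_5_0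
                    · linarith only [c149_0_0, e0]
                    · linarith only [c149_1_0, e1]
                    · linarith only [c149_2_0, e2]
                    · linarith only [C.a1, C.f11_0, C.o0, c147_0_1, c149_3_0]
                    · rcases c0_11_23_33_k1_k_p13_22B C with c158_0_0 | c158_1_0 | c158_2_0 | c158_3_0 | c158_4_0 | c158_5_0
                      · linarith only [C.o0, c158_0_0, e0]
                      · linarith only [c158_1_0, e2]
                      · linarith only [C.a1, C.a3, C.f11_0, C.f11_1, C.f23_1, C.o0, c147_0_1, c148_1_1, c149_4_0, c158_2_0, e0]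
                      · linarith only [C.a1, C.f11_0, C.f11_1, C.f23_1, C.o0, c0_0_1, c139_1_1, c147_0_1, c148_1_1, c149_4_0, c158_3_0, c1_1_1]
                      · linarith only [C.o0, c0_0_1, c136_0_1, c146_1_1, c158_4_0, c1_1_1]
                      · linarith only [C.f11_2, C.f22_6, C.f23_9, C.f33_7, C.o1, c137_1_1, c146_1_1, c148_1_1, c149_4_0, c158_5_0, s3]
                    · linarith only [C.f33_7, c149_5_0, s3]
                  · linarith only [C.a4, C.f23_5, C.o2, c148_2_1]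
                · rcases c0_11_23_33_k1_k_f23_7 C with ⟨c159_0_0, c159_0_1⟩ | ⟨c159_1_0, c159_1_1⟩ | ⟨c159_2_0, c159_2_1⟩
                  · linarith only [C.a3, C.f23_5, c135_0_0, c147_1_1, c159_0_1]
                  · rcases c0_11_23_33_k1_k_p11_23B C with c160_0_0 | c160_1_0 | c160_2_0 | c160_3_0 | c160_4_0 | c160_5_0
                    · linarith only [c160_0_0, e0]
                    · linarith only [c160_1_0, e1]
                    · linarith only [c160_2_0, e2]
                    · linarith only [C.f11_0, C.o0, c135_0_0, c147_1_1, c160_3_0]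
                    · rcases c0_11_23_33_k1_k_p13_22B C with c169_0_0 | c169_1_0 | c169_2_0 | c169_3_0 | c169_4_0 | c169_5_0
                      · linarith only [C.o0, c169_0_0, e0]
                      · linarith only [c169_1_0, e2]
                      · linarith only [C.a3, C.f11_0, C.f11_1, C.o0, c135_0_0, c159_1_1, c160_4_0, c169_2_0, e0]
                      · linarith only [C.f11_0, C.f11_1, C.o0, c0_0_1, c135_0_0, c139_1_1, c159_1_1, c160_4_0, c169_3_0, c1_1_1]
                      · linarith only [C.o0, c0_0_1, c136_0_1, c146_1_1, c169_4_0, c1_1_1]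
                      · linarith only [C.f11_2, C.f22_6, C.f23_9, C.f33_7, C.o1, c137_1_1, c146_1_1, c159_1_1, c160_4_0, c169_5_0, s3]
                    · linarith only [C.f33_7, c160_5_0, s3]
                  · linarith only [C.a4, C.f23_5, C.o2, c159_2_1]
                · linarith only [C.a4, C.f23_1, C.o2, c147_2_1]
        · rcases c0_11_23_33_k1_k_f13_8 C with ⟨c170_0_0, c170_0_1⟩ | ⟨c170_1_0, c170_1_1⟩
          · linarith only [C.a4, C.f13_7, c135_0_1, c136_1_1, c170_0_1]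
          · rcases c0_11_23_33_k1_k_p11_13B C with c171_0_0 | c171_1_0 | c171_2_0 | c171_3_0 | c171_4_0 | c171_5_0
            · linarith only [c171_0_0, e0]
            · linarith only [C.o0, c171_1_0, e0]
            · linarith only [c171_2_0, e2]
            · rcases c0_11_23_33_k1_k_f22_2 C with ⟨c172_0_0, c172_0_1⟩ | ⟨c172_1_0, c172_1_1⟩
              · rcases c0_11_23_33_k1_k_f22_5 C with ⟨c173_0_0, c173_0_1⟩ | ⟨c173_1_0, c173_1_1⟩
                · linarith only [C.a1, C.a4, C.f13_0, C.f13_3, C.f22_4, C.o1, C.o2, c136_1_1, c172_0_1, c173_0_1]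
                · rcases c0_11_23_33_k1_k_p11_22B C with c174_0_0 | c174_1_0 | c174_2_0 | c174_3_0 | c174_4_0
                  · linarith only [c174_0_0, e0]
                  · linarith only [C.a0, C.a1, C.f22_1, c172_0_1, c174_1_0]
                  · linarith only [C.a1, C.f11_0, C.o0, c172_0_1, c174_2_0]
                  · linarith only [C.f11_0, C.f11_1, C.f13_3, C.f23_5, C.f33_4, C.o2, c136_1_1, c171_3_0, c173_1_1, c174_3_0, s2]
                  · linarith only [C.b5, C.f22_6, C.f23_9, C.f33_7, c173_1_1, c174_4_0, s3]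
              · rcases c0_11_23_33_k1_k_f22_5 C with ⟨c175_0_0, c175_0_1⟩ | ⟨c175_1_0, c175_1_1⟩
                · linarith only [C.a4, C.f13_0, C.f13_3, C.f22_4, C.o2, c135_0_0, c136_1_1, c172_1_1, c175_0_1]
                · rcases c0_11_23_33_k1_k_p11_22B C with c176_0_0 | c176_1_0 | c176_2_0 | c176_3_0 | c176_4_0
                  · linarith only [c176_0_0, e0]
                  · linarith only [C.b2, c176_1_0, e0]
                  · rcases c0_11_23_33_k1_k_tzpm C with c177_0_0 | c177_1_0 | c177_2_0 | c177_3_0 | ⟨c177_4_0, c177_4_1⟩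
                    · linarith only [c135_0_0, c177_0_0]
                    · linarith only [C.b5, C.f11_0, C.o0, C.o2, c135_0_0, c172_1_1, c176_2_0, c177_1_0]
                    · linarith only [c177_2_0, c1_1_1]
                    · linarith only [C.a4, C.f11_0, C.o0, C.o2, c135_0_0, c172_1_1, c176_2_0, c177_3_0]
                    · rcases c0_11_23_33_k1_k_p11_33B C with c178_0_0 | c178_1_0 | c178_2_0 | c178_3_0 | c178_4_0
                      · linarith only [c178_0_0, e0]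
                      · linarith only [c178_1_0, e3]
                      · rcases c0_11_23_33_k1_k_f33_2 C with ⟨c181_0_0, c181_0_1⟩ | ⟨c181_1_0, c181_1_1⟩
                        · linarith only [C.f11_0, C.f23_0, C.o0, c178_2_0, c181_0_1, s1]
                        · linarith only [C.a4, C.f11_0, C.f23_1, C.o0, c178_2_0, c181_1_1, s1]
                      · linarith only [C.f23_5, c178_3_0, s2]
                      · linarith only [C.f23_9, c177_4_1, c178_4_0, s3]
                  · linarith only [C.f11_0, C.f11_1, C.f13_3, C.f23_5, C.f33_4, C.o2, c136_1_1, c171_3_0, c175_1_1, c176_3_0, s2]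
                  · linarith only [C.b5, C.f22_6, C.f23_9, C.f33_7, c175_1_1, c176_4_0, s3]
            · linarith only [C.f23_5, C.f33_4, C.o2, c136_1_1, c171_4_0, s2]
            · linarith only [C.f23_9, C.f33_7, c170_1_1, c171_5_0, s3]
      · rcases c0_11_23_33_k1_k_f13_5 C with ⟨c182_0_0, c182_0_1⟩ | ⟨c182_1_0, c182_1_1⟩
        · rcases c0_11_23_33_k1_k_f13_8 C with ⟨c183_0_0, c183_0_1⟩ | ⟨c183_1_0, c183_1_1⟩
          · linarith only [C.f11_0, C.f11_1, C.f11_2, C.f13_7, C.f23_9, C.f33_7, C.o0, c0_0_1, c182_0_1, c183_0_1, s3]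
          · rcases c0_11_23_33_k1_k_f22_2 C with ⟨c185_0_0, c185_0_1⟩ | ⟨c185_1_0, c185_1_1⟩
            · rcases c0_11_23_33_k1_k_f22_5 C with ⟨c186_0_0, c186_0_1⟩ | ⟨c186_1_0, c186_1_1⟩
              · linarith only [C.a1, C.a3, C.f22_4, C.o1, c185_0_1, c186_0_1]
              · rcases c0_11_23_33_k1_k_p11_22B C with c187_0_0 | c187_1_0 | c187_2_0 | c187_3_0 | c187_4_0
                · linarith only [c187_0_0, e0]
                · linarith only [C.a1, C.f22_1, C.o0, c185_0_1, c187_1_0, e0]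
                · linarith only [C.a1, C.f11_0, C.o0, c185_0_1, c187_2_0]
                · rcases c0_11_23_33_k1_k_p13_22B C with c191_0_0 | c191_1_0 | c191_2_0 | c191_3_0 | c191_4_0 | c191_5_0
                  · linarith only [C.o0, c191_0_0, e0]
                  · linarith only [c191_1_0, e2]
                  · linarith only [C.a1, C.f22_1, C.o0, c185_0_1, c191_2_0, e0]
                  · linarith only [C.a1, C.o0, c0_0_1, c185_0_1, c191_3_0]
                  · linarith only [C.o0, c0_0_1, c182_0_1, c186_1_1, c191_4_0, c1_1_1]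
                  · linarith only [C.f11_2, C.f22_6, C.f23_9, C.f33_7, c183_1_1, c186_1_1, c187_3_0, c191_5_0, s3]
                · linarith only [C.f22_6, C.f23_9, C.f33_7, c135_1_1, c186_1_1, c187_4_0, s3]
            · rcases c0_11_23_33_k1_k_f22_5 C with ⟨c192_0_0, c192_0_1⟩ | ⟨c192_1_0, c192_1_1⟩
              · linarith only [C.f22_4, c135_1_0, c185_1_1, c192_0_1, c1_1_1]
              · rcases c0_11_23_33_k1_k_p13_22B C with c193_0_0 | c193_1_0 | c193_2_0 | c193_3_0 | c193_4_0 | c193_5_0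
                · linarith only [C.o0, c193_0_0, e0]
                · linarith only [c193_1_0, e2]
                · linarith only [c135_1_0, c193_2_0, e0]
                · linarith only [C.o0, c0_0_1, c135_1_0, c185_1_1, c193_3_0]
                · linarith only [C.o0, c0_0_1, c182_0_1, c192_1_1, c193_4_0, c1_1_1]
                · rcases c0_11_23_33_k1_k_p11_22B C with c194_0_0 | c194_1_0 | c194_2_0 | c194_3_0 | c194_4_0
                  · linarith only [c194_0_0, e0]
                  · linarith only [c135_1_0, c194_1_0, e0]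
                  · rcases c0_11_23_33_k1_k_f23_3 C with ⟨c195_0_0, c195_0_1⟩ | ⟨c195_1_0, c195_1_1⟩ | ⟨c195_2_0, c195_2_1⟩
                    · rcases c0_11_23_33_k1_k_f23_7 C with ⟨c196_0_0, c196_0_1⟩ | ⟨c196_1_0, c196_1_1⟩ | ⟨c196_2_0, c196_2_1⟩
                      · linarith only [C.a1, C.a3, C.f23_5, c195_0_1, c196_0_1]
                      · rcases c0_11_23_33_k1_k_p11_23B C with c198_0_0 | c198_1_0 | c198_2_0 | c198_3_0 | c198_4_0 | c198_5_0
                        · linarith only [c198_0_0, e0]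
                        · linarith only [c198_1_0, e1]
                        · linarith only [c198_2_0, e2]
                        · linarith only [C.a1, C.f11_0, C.o0, c195_0_1, c198_3_0]
                        · linarith only [C.a1, C.f11_0, C.f11_1, C.f23_1, C.f33_0, C.f33_3, C.o0, c185_1_1, c194_2_0, c195_0_1, c196_1_1, c198_4_0, s2]
                        · linarith only [C.f33_7, c198_5_0, s3]
                      · linarith only [C.a4, C.f23_5, C.o2, c196_2_1]
                    · rcases c0_11_23_33_k1_k_f23_7 C with ⟨c199_0_0, c199_0_1⟩ | ⟨c199_1_0, c199_1_1⟩ | ⟨c199_2_0, c199_2_1⟩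
                      · linarith only [C.f11_0, C.f11_1, C.f11_2, C.f22_6, C.f23_5, C.f23_9, C.f33_7, c135_1_0, c183_1_1, c192_1_1, c193_5_0, c195_1_1, c199_0_1, s3]
                      · rcases c0_11_23_33_k1_k_f23_10 C with ⟨c200_0_0, c200_0_1⟩ | ⟨c200_1_0, c200_1_1⟩
                        · linarith only [C.a2, C.f11_0, C.f23_9, C.o0, c135_1_1, c185_1_1, c194_2_0, c199_1_1, c200_0_1]
                        · rcases c0_11_23_33_k1_k_p11_23B C with c201_0_0 | c201_1_0 | c201_2_0 | c201_3_0 | c201_4_0 | c201_5_0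
                          · linarith only [c201_0_0, e0]
                          · linarith only [c201_1_0, e1]
                          · linarith only [c201_2_0, e2]
                          · rcases c0_11_23_33_k1_k_p11_33B C with c206_0_0 | c206_1_0 | c206_2_0 | c206_3_0 | c206_4_0
                            · linarith only [c206_0_0, e0]
                            · linarith only [c206_1_0, e3]
                            · linarith only [C.f11_0, C.o0, c201_3_0, c206_2_0, s1]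
                            · linarith only [C.f23_5, c206_3_0, s2]
                            · rcases c0_11_23_33_k1_k_f33_8 C with ⟨c207_0_0, c207_0_1⟩ | ⟨c207_1_0, c207_1_1⟩
                              · linarith only [C.f11_0, C.f11_2, C.f23_5, C.f23_8, c135_1_0, c195_1_1, c200_1_1, c201_3_0, c206_4_0, c207_0_1, s2]
                              · rcases c0_11_23_33_k1_k_p13_33A C with c211_0_0 | c211_1_0 | c211_2_0 | c211_3_0 | c211_4_0 | c211_5_0
                                · linarith only [C.o0, c211_0_0, e0]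
                                · linarith only [c211_1_0, e2]
                                · linarith only [c211_2_0, e3]
                                · linarith only [c0_0_1, c201_3_0, c211_3_0, s1]
                                · linarith only [C.f11_0, C.f11_1, C.f23_5, C.o0, c0_0_1, c135_1_0, c182_0_1, c195_1_1, c201_3_0, c211_4_0, s2]
                                · linarith only [C.f23_9, c183_1_1, c206_4_0, c207_1_1, c211_5_0, s3]
                          · linarith only [C.f11_2, C.f22_6, C.f23_9, C.f33_7, C.o1, c183_1_1, c192_1_1, c193_5_0, c199_1_1, c201_4_0, s3]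
                          · linarith only [C.f33_7, c201_5_0, s3]
                      · linarith only [C.a4, C.f23_5, C.o2, c199_2_1]
                    · linarith only [C.a4, C.f23_1, C.o2, c195_2_1]
                  · linarith only [C.f11_2, C.f22_6, C.f23_9, C.f33_7, c183_1_1, c192_1_1, c193_5_0, c194_3_0, s3]
                  · linarith only [C.f22_6, C.f23_9, C.f33_7, c135_1_1, c192_1_1, c194_4_0, s3]
        · rcases c0_11_23_33_k1_k_f13_8 C with ⟨c212_0_0, c212_0_1⟩ | ⟨c212_1_0, c212_1_1⟩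
          · linarith only [C.a4, C.f13_7, C.o1, C.o2, c135_1_1, c182_1_1, c212_0_1]
          · rcases c0_11_23_33_k1_k_p11_13B C with c213_0_0 | c213_1_0 | c213_2_0 | c213_3_0 | c213_4_0 | c213_5_0
            · linarith only [c213_0_0, e0]
            · linarith only [C.o0, c213_1_0, e0]
            · linarith only [c213_2_0, e2]
            · rcases c0_11_23_33_k1_k_f23_3 C with ⟨c220_0_0, c220_0_1⟩ | ⟨c220_1_0, c220_1_1⟩ | ⟨c220_2_0, c220_2_1⟩
              · rcases c0_11_23_33_k1_k_f23_7 C with ⟨c221_0_0, c221_0_1⟩ | ⟨c221_1_0, c221_1_1⟩ | ⟨c221_2_0, c221_2_1⟩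
                · linarith only [C.a1, C.a3, C.f23_5, c220_0_1, c221_0_1]
                · rcases c0_11_23_33_k1_k_p11_23B C with c223_0_0 | c223_1_0 | c223_2_0 | c223_3_0 | c223_4_0 | c223_5_0
                  · linarith only [c223_0_0, e0]
                  · linarith only [c223_1_0, e1]
                  · linarith only [c223_2_0, e2]
                  · linarith only [C.a1, C.f11_0, C.o0, c220_0_1, c223_3_0]
                  · linarith only [C.f11_0, C.f11_1, C.f13_3, C.f33_4, C.o1, C.o2, c182_1_1, c213_3_0, c221_1_1, c223_4_0, s2]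
                  · linarith only [C.f33_7, c223_5_0, s3]
                · linarith only [C.a4, C.f23_5, C.o2, c221_2_1]
              · rcases c0_11_23_33_k1_k_f23_7 C with ⟨c224_0_0, c224_0_1⟩ | ⟨c224_1_0, c224_1_1⟩ | ⟨c224_2_0, c224_2_1⟩
                · linarith only [C.a2, C.a4, C.f13_0, C.f13_3, C.f23_5, C.o2, c182_1_1, c220_1_1, c224_0_1]
                · rcases c0_11_23_33_k1_k_f23_10 C with ⟨c225_0_0, c225_0_1⟩ | ⟨c225_1_0, c225_1_1⟩
                  · linarith only [C.f23_9, C.o1, c135_1_1, c224_1_1, c225_0_1]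
                  · rcases c0_11_23_33_k1_k_p11_23B C with c226_0_0 | c226_1_0 | c226_2_0 | c226_3_0 | c226_4_0 | c226_5_0
                    · linarith only [c226_0_0, e0]
                    · linarith only [c226_1_0, e1]
                    · linarith only [c226_2_0, e2]
                    · rcases c0_11_23_33_k1_k_f33_5 C with ⟨c227_0_0, c227_0_1⟩ | ⟨c227_1_0, c227_1_1⟩
                      · linarith only [C.f13_0, C.f13_3, C.f33_4, C.o2, c182_1_1, c226_3_0, c227_0_1, s1]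
                      · rcases c0_11_23_33_k1_k_f33_8 C with ⟨c228_0_0, c228_0_1⟩ | ⟨c228_1_0, c228_1_1⟩
                        · linarith only [C.f11_0, C.f23_5, C.f23_8, C.f33_1, C.f33_7, C.o0, C.o2, c220_1_1, c225_1_1, c226_3_0, c227_1_1, c228_0_1, s1]
                        · rcases c0_11_23_33_k1_k_p11_33B C with c233_0_0 | c233_1_0 | c233_2_0 | c233_3_0 | c233_4_0
                          · linarith only [c233_0_0, e0]
                          · linarith only [c233_1_0, e3]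
                          · linarith only [C.f11_0, C.o0, c226_3_0, c233_2_0, s1]
                          · linarith only [C.f11_0, C.f11_1, C.f13_0, C.f13_3, C.f33_1, C.o0, C.o1, C.o2, c182_1_1, c220_1_1, c226_3_0, c227_1_1, c233_3_0, s1]
                          · linarith only [C.f11_0, C.f11_1, C.f11_2, C.f13_0, C.f13_3, C.f33_1, C.o1, c135_1_1, c182_1_1, c220_1_1, c226_3_0, c228_1_1, c233_4_0, s1]
                    · linarith only [C.f11_0, C.f11_1, C.f13_3, C.f33_4, C.o1, C.o2, c182_1_1, c213_3_0, c224_1_1, c226_4_0, s2]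
                    · linarith only [C.f33_7, c226_5_0, s3]
                · linarith only [C.a4, C.f23_5, C.o2, c224_2_1]
              · linarith only [C.a4, C.f23_1, C.o2, c220_2_1]
            · linarith only [C.f23_5, C.f33_4, C.o2, c182_1_1, c213_4_0, s2]
            · linarith only [C.f23_9, C.f33_7, c212_1_1, c213_5_0, s3]
  · linarith only [C.a2, C.a4, C.f13_0, C.o2, c0_1_1]

end Pool.Agent.Helper24.TQ
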