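import Pool.Agent.Helper89.TQ.Ctx

set_option autoImplicit false
set_option linter.all false
set_option maxHeartbeats 4000000

namespace Pool.Agent.Helper24.TQ

open Pool.Agent.Helper89.TQ

theorem c0_11_23_33_k2_k_t12 {n1 n2 n3 A1 A2 A3 B1 B2 B3 m11_1 m11_2 m11_3 m13_1 m13_2 m13_3 m22_1 m22_2 m22_3 m23_1 m23_2 m23_3 m33_1 m33_2 m33_3 : ℤ} (C : Ctx0 n1 n2 n3 A1 A2 A3 B1 B2 B3 m11_1 m11_2 m11_3 m13_1 m13_2 m13_3 m22_1 m22_2 m22_3 m23_1 m23_2 m23_3 m33_1 m33_2 m33_3) :
    ((-1) * A1 ≤ -1 ∧ (-1) * A1 + 1 * A2 + (-1) * n2 ≤ -1) ∨ ((-1) * B1 ≤ -1 ∧ (-1) * B1 + 1 * B2 + (-1) * n2 ≤ -1) := by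
  have h := C.t12
  clear C
  omega

theorem c0_11_23_33_k2_k_t23 {n1 n2 n3 A1 A2 A3 B1 B2 B3 m11_1 m11_2 m11_3 m13_1 m13_2 m13_3 m22_1 m22_2 m22_3 m23_1 m23_2 m23_3 m33_1 m33_2 m33_3 : ℤ} (C : Ctx0 n1 n2 n3 A1 A2 A3 B1 B2 B3 m11_1 m11_2 m11_3 m13_1 m13_2 m13_3 m22_1 m22_2 m22_3 m23_1 m23_2 m23_3 m33_1 m33_2 m33_3) :
    (1 * A1 + (-1) * A2 ≤ -1 ∧ (-1) * A2 + 1 * A3 + (-1) * n3 ≤ -1) ∨ (1 * B1 + (-1) * B2 ≤ -1 ∧ (-1) * B2 + 1 * B3 + (-1) * n3 ≤ -1) := by
  have h := C.t23
  clear C
  omega

theorem c0_11_23_33_k2_k_f13_2 {n1 n2 n3 A1 A2 A3 B1 B2 B3 m11_1 m11_2 m11_3 m13_1 m13_2 m13_3 m22_1 m22_2 m22_3 m23_1 m23_2 m23_3 m33_1 m33_2 m33_3 : ℤ} (C : Ctx0 n1 n2 n3 A1 A2 A3 B1 B2 B3 m11_1 m11_2 m11_3 m13_1 m13_2 m13_3 m22_1 m22_2 m22_3 m23_1 m23_2 m23_3 m33_1 m33_2 m33_3) :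
    ((-1) * A1 + 1 * m13_1 ≤ -1 ∧ 1 * A1 + (-1) * m13_1 ≤ 1) ∨ ((-1) * B3 + 1 * m13_1 ≤ -1 ∧ 1 * B3 + (-1) * m13_1 ≤ 1) := by
  have h := C.f13_2
  clear C
  omega

theorem c0_11_23_33_k2_k_f13_5 {n1 n2 n3 A1 A2 A3 B1 B2 B3 m11_1 m11_2 m11_3 m13_1 m13_2 m13_3 m22_1 m22_2 m22_3 m23_1 m23_2 m23_3 m33_1 m33_2 m33_3 : ℤ} (C : Ctx0 n1 n2 n3 A1 A2 A3 B1 B2 B3 m11_1 m11_2 m11_3 m13_1 m13_2 m13_3 m22_1 m22_2 m22_3 m23_1 m23_2 m23_3 m33_1 m33_2 m33_3) :
    ((-1) * m13_1 + 1 * m13_2 + (-1) * n2 ≤ 0 ∧ 1 * m13_1 + (-1) * m13_2 + 1 * n2 ≤ 0) ∨ ((-1) * B3 + 1 * m13_2 ≤ -1 ∧ 1 * B3 + (-1) * m13_2 ≤ 1) := by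
  have h := C.f13_5
  clear C
  omega

theorem c0_11_23_33_k2_k_f13_8 {n1 n2 n3 A1 A2 A3 B1 B2 B3 m11_1 m11_2 m11_3 m13_1 m13_2 m13_3 m22_1 m22_2 m22_3 m23_1 m23_2 m23_3 m33_1 m33_2 m33_3 : ℤ} (C : Ctx0 n1 n2 n3 A1 A2 A3 B1 B2 B3 m11_1 m11_2 m11_3 m13_1 m13_2 m13_3 m22_1 m22_2 m22_3 m23_1 m23_2 m23_3 m33_1 m33_2 m33_3) :
    ((-1) * m13_2 + 1 * m13_3 + (-1) * n3 ≤ 0 ∧ 1 * m13_2 + (-1) * m13_3 + 1 * n3 ≤ 0) ∨ ((-1) * B3 + 1 * m13_3 ≤ -1 ∧ 1 * B3 + (-1) * m13_3 ≤ 1) := by
  have h := C.f13_8
  clear C
  omega

theorem c0_11_23_33_k2_k_f22_2 {n1 n2 n3 A1 A2 A3 B1 B2 B3 m11_1 m11_2 m11_3 m13_1 m13_2 m13_3 m22_1 m22_2 m22_3 m23_1 m23_2 m23_3 m33_1 m33_2 m33_3 : ℤ} (C : Ctx0 n1 n2 n3 A1 A2 A3 B1 B2 B3 m11_1 m11_2 m11_3 m13_1 m13_2 m13_3 m22_1 m22_2 m22_3 m23_1 m23_2 m23_3 m33_1 m33_2 m33_3) :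
    (1 * m22_1 + (-1) * n1 ≤ 0 ∧ (-1) * m22_1 + 1 * n1 ≤ 0) ∨ ((-1) * B2 + 1 * m22_1 ≤ -1 ∧ 1 * B2 + (-1) * m22_1 ≤ 1) := by
  have h := C.f22_2
  clear C
  omega

theorem c0_11_23_33_k2_k_f22_5 {n1 n2 n3 A1 A2 A3 B1 B2 B3 m11_1 m11_2 m11_3 m13_1 m13_2 m13_3 m22_1 m22_2 m22_3 m23_1 m23_2 m23_3 m33_1 m33_2 m33_3 : ℤ} (C : Ctx0 n1 n2 n3 A1 A2 A3 B1 B2 B3 m11_1 m11_2 m11_3 m13_1 m13_2 m13_3 m22_1 m22_2 m22_3 m23_1 m23_2 m23_3 m33_1 m33_2 m33_3) :
    ((-1) * m22_1 + 1 * m22_2 + (-1) * n2 ≤ 0 ∧ 1 * m22_1 + (-1) * m22_2 + 1 * n2 ≤ 0) ∨ ((-1) * B2 + 1 * m22_2 ≤ -1 ∧ 1 * B2 + (-1) * m22_2 ≤ 1) := by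
  have h := C.f22_5
  clear C
  omega

theorem c0_11_23_33_k2_k_f23_3 {n1 n2 n3 A1 A2 A3 B1 B2 B3 m11_1 m11_2 m11_3 m13_1 m13_2 m13_3 m22_1 m22_2 m22_3 m23_1 m23_2 m23_3 m33_1 m33_2 m33_3 : ℤ} (C : Ctx0 n1 n2 n3 A1 A2 A3 B1 B2 B3 m11_1 m11_2 m11_3 m13_1 m13_2 m13_3 m22_1 m22_2 m22_3 m23_1 m23_2 m23_3 m33_1 m33_2 m33_3) :
    (1 * m23_1 + (-1) * n1 ≤ 0 ∧ (-1) * m23_1 + 1 * n1 ≤ 0) ∨ ((-1) * A2 + 1 * m23_1 ≤ -1 ∧ 1 * A2 + (-1) * m23_1 ≤ 1) ∨ ((-1) * B3 + 1 * m23_1 ≤ -1 ∧ 1 * B3 + (-1) * m23_1 ≤ 1) := by
  have h := C.f23_3
  clear C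
  omega

theorem c0_11_23_33_k2_k_f23_7 {n1 n2 n3 A1 A2 A3 B1 B2 B3 m11_1 m11_2 m11_3 m13_1 m13_2 m13_3 m22_1 m22_2 m22_3 m23_1 m23_2 m23_3 m33_1 m33_2 m33_3 : ℤ} (C : Ctx0 n1 n2 n3 A1 A2 A3 B1 B2 B3 m11_1 m11_2 m11_3 m13_1 m13_2 m13_3 m22_1 m22_2 m22_3 m23_1 m23_2 m23_3 m33_1 m33_2 m33_3) :
    ((-1) * m23_1 + 1 * m23_2 + (-1) * n2 ≤ 0 ∧ 1 * m23_1 + (-1) * m23_2 + 1 * n2 ≤ 0) ∨ ((-1) * A2 + 1 * m23_2 ≤ -1 ∧ 1 * A2 + (-1) * m23_2 ≤ 1) ∨ ((-1) * B3 + 1 * m23_2 ≤ -1 ∧ 1 * B3 + (-1) * m23_2 ≤ 1) := by
  have h := C.f23_7
  clear C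
  omega

theorem c0_11_23_33_k2_k_f23_10 {n1 n2 n3 A1 A2 A3 B1 B2 B3 m11_1 m11_2 m11_3 m13_1 m13_2 m13_3 m22_1 m22_2 m22_3 m23_1 m23_2 m23_3 m33_1 m33_2 m33_3 : ℤ} (C : Ctx0 n1 n2 n3 A1 A2 A3 B1 B2 B3 m11_1 m11_2 m11_3 m13_1 m13_2 m13_3 m22_1 m22_2 m22_3 m23_1 m23_2 m23_3 m33_1 m33_2 m33_3) :
    ((-1) * m23_2 + 1 * m23_3 + (-1) * n3 ≤ 0 ∧ 1 * m23_2 + (-1) * m23_3 + 1 * n3 ≤ 0) ∨ ((-1) * B3 + 1 * m23_3 ≤ -1 ∧ 1 * B3 + (-1) * m23_3 ≤ 1) := by
  have h := C.f23_10
  clear C
  omega

theorem c0_11_23_33_k2_k_f33_2 {n1 n2 n3 A1 A2 A3 B1 B2 B3 m11_1 m11_2 m11_3 m13_1 m13_2 m13_3 m22_1 m22_2 m22_3 m23_1 m23_2 m23_3 m33_1 m33_2 m33_3 : ℤ} (C : Ctx0 n1 n2 n3 A1 A2 A3 B1 B2 B3 m11_1 m11_2 m11_3 m13_1 m13_2 m13_3 m22_1 m22_2 m22_3 m23_1 m23_2 m23_3 m33_1 m33_2 m33_3) :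
    (1 * m33_1 + (-1) * n1 ≤ 0 ∧ (-1) * m33_1 + 1 * n1 ≤ 0) ∨ ((-1) * A3 + 1 * m33_1 ≤ -1 ∧ 1 * A3 + (-1) * m33_1 ≤ 1) := by
  have h := C.f33_2
  clear C
  omega

theorem c0_11_23_33_k2_k_f33_5 {n1 n2 n3 A1 A2 A3 B1 B2 B3 m11_1 m11_2 m11_3 m13_1 m13_2 m13_3 m22_1 m22_2 m22_3 m23_1 m23_2 m23_3 m33_1 m33_2 m33_3 : ℤ} (C : Ctx0 n1 n2 n3 A1 A2 A3 B1 B2 B3 m11_1 m11_2 m11_3 m13_1 m13_2 m13_3 m22_1 m22_2 m22_3 m23_1 m23_2 m23_3 m33_1 m33_2 m33_3) :
    ((-1) * m33_1 + 1 * m33_2 + (-1) * n2 ≤ 0 ∧ 1 * m33_1 + (-1) * m33_2 + 1 * n2 ≤ 0) ∨ ((-1) * A3 + 1 * m33_2 ≤ -1 ∧ 1 * A3 + (-1) * m33_2 ≤ 1) := by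
  have h := C.f33_5
  clear C
  omega

theorem c0_11_23_33_k2_k_f33_8 {n1 n2 n3 A1 A2 A3 B1 B2 B3 m11_1 m11_2 m11_3 m13_1 m13_2 m13_3 m22_1 m22_2 m22_3 m23_1 m23_2 m23_3 m33_1 m33_2 m33_3 : ℤ} (C : Ctx0 n1 n2 n3 A1 A2 A3 B1 B2 B3 m11_1 m11_2 m11_3 m13_1 m13_2 m13_3 m22_1 m22_2 m22_3 m23_1 m23_2 m23_3 m33_1 m33_2 m33_3) :
    ((-1) * m33_2 + 1 * m33_3 + (-1) * n3 ≤ 0 ∧ 1 * m33_2 + (-1) * m33_3 + 1 * n3 ≤ 0) ∨ ((-1) * A3 + 1 * m33_3 ≤ -1 ∧ 1 * A3 + (-1) * m33_3 ≤ 1) := by
  have h := C.f33_8
  clear C
  omega

theorem c0_11_23_33_k2_k_p11_13B {n1 n2 n3 A1 A2 A3 B1 B2 B3 m11_1 m11_2 m11_3 m13_1 m13_2 m13_3 m22_1 m22_2 m22_3 m23_1 m23_2 m23_3 m33_1 m33_2 m33_3 : ℤ} (C : Ctx0 n1 n2 n3 A1 A2 A3 B1 B2 B3 m11_1 m11_2 m11_3 m13_1 m13_2 m13_3 m22_1 m22_2 m22_3 m23_1 m23_2 m23_3 m33_1 m33_2 m33_3) :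
    (1 * B1 ≤ 0) ∨ (1 * A1 ≤ 0) ∨ (1 * B3 ≤ 0) ∨ ((-2) * B1 + 1 * m11_1 + 1 * m13_1 ≤ -1) ∨ ((-2) * B2 + 1 * m11_2 + 1 * m13_2 ≤ -1) ∨ ((-2) * B3 + 1 * m11_3 + 1 * m13_3 ≤ -1) := by
  have h := C.p11_13B
  clear C
  omega

theorem c0_11_23_33_k2_k_p11_22B {n1 n2 n3 A1 A2 A3 B1 B2 B3 m11_1 m11_2 m11_3 m13_1 m13_2 m13_3 m22_1 m22_2 m22_3 m23_1 m23_2 m23_3 m33_1 m33_2 m33_3 : ℤ} (C : Ctx0 n1 n2 n3 A1 A2 A3 B1 B2 B3 m11_1 m11_2 m11_3 m13_1 m13_2 m13_3 m22_1 m22_2 m22_3 m23_1 m23_2 m23_3 m33_1 m33_2 m33_3) :
    (1 * B1 ≤ 0) ∨ (1 * B2 ≤ 0) ∨ ((-2) * B1 + 1 * m11_1 + 1 * m22_1 ≤ -1) ∨ ((-2) * B2 + 1 * m11_2 + 1 * m22_2 ≤ -1) ∨ ((-2) * B3 + 1 * m11_3 + 1 * m22_3 ≤ -1) := by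
  have h := C.p11_22B
  clear C
  omega

theorem c0_11_23_33_k2_k_p11_23B {n1 n2 n3 A1 A2 A3 B1 B2 B3 m11_1 m11_2 m11_3 m13_1 m13_2 m13_3 m22_1 m22_2 m22_3 m23_1 m23_2 m23_3 m33_1 m33_2 m33_3 : ℤ} (C : Ctx0 n1 n2 n3 A1 A2 A3 B1 B2 B3 m11_1 m11_2 m11_3 m13_1 m13_2 m13_3 m22_1 m22_2 m22_3 m23_1 m23_2 m23_3 m33_1 m33_2 m33_3) :
    (1 * B1 ≤ 0) ∨ (1 * A2 ≤ 0) ∨ (1 * B3 ≤ 0) ∨ ((-2) * B1 + 1 * m11_1 + 1 * m23_1 ≤ -1) ∨ ((-2) * B2 + 1 * m11_2 + 1 * m23_2 ≤ -1) ∨ ((-2) * B3 + 1 * m11_3 + 1 * m23_3 ≤ -1) := by
  have h := C.p11_23B
  clear C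
  omega

theorem c0_11_23_33_k2_k_p11_33A {n1 n2 n3 A1 A2 A3 B1 B2 B3 m11_1 m11_2 m11_3 m13_1 m13_2 m13_3 m22_1 m22_2 m22_3 m23_1 m23_2 m23_3 m33_1 m33_2 m33_3 : ℤ} (C : Ctx0 n1 n2 n3 A1 A2 A3 B1 B2 B3 m11_1 m11_2 m11_3 m13_1 m13_2 m13_3 m22_1 m22_2 m22_3 m23_1 m23_2 m23_3 m33_1 m33_2 m33_3) :
    (1 * B1 ≤ 0) ∨ (1 * A3 ≤ 0) ∨ ((-2) * A1 + 1 * m11_1 + 1 * m33_1 ≤ -1) ∨ ((-2) * A2 + 1 * m11_2 + 1 * m33_2 ≤ -1) ∨ ((-2) * A3 + 1 * m11_3 + 1 * m33_3 ≤ -1) := by
  have h := C.p11_33A
  clear C
  omega

theorem c0_11_23_33_k2_k_p11_33B {n1 n2 n3 A1 A2 A3 B1 B2 B3 m11_1 m11_2 m11_3 m13_1 m13_2 m13_3 m22_1 m22_2 m22_3 m23_1 m23_2 m23_3 m33_1 m33_2 m33_3 : ℤ} (C : Ctx0 n1 n2 n3 A1 A2 A3 B1 B2 B3 m11_1 m11_2 m11_3 m13_1 m13_2 m13_3 m22_1 m22_2 m22_3 m23_1 m23_2 m23_3 m33_1 m33_2 m33_3) :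
    (1 * B1 ≤ 0) ∨ (1 * A3 ≤ 0) ∨ ((-2) * B1 + 1 * m11_1 + 1 * m33_1 ≤ -1) ∨ ((-2) * B2 + 1 * m11_2 + 1 * m33_2 ≤ -1) ∨ ((-2) * B3 + 1 * m11_3 + 1 * m33_3 ≤ -1) := by
  have h := C.p11_33B
  clear C
  omega

theorem c0_11_23_33_k2_k_p13_22A {n1 n2 n3 A1 A2 A3 B1 B2 B3 m11_1 m11_2 m11_3 m13_1 m13_2 m13_3 m22_1 m22_2 m22_3 m23_1 m23_2 m23_3 m33_1 m33_2 m33_3 : ℤ} (C : Ctx0 n1 n2 n3 A1 A2 A3 B1 B2 B3 m11_1 m11_2 m11_3 m13_1 m13_2 m13_3 m22_1 m22_2 m22_3 m23_1 m23_2 m23_3 m33_1 m33_2 m33_3) :
    (1 * A1 ≤ 0) ∨ (1 * B3 ≤ 0) ∨ (1 * B2 ≤ 0) ∨ ((-2) * A1 + 1 * m13_1 + 1 * m22_1 ≤ -1) ∨ ((-2) * A2 + 1 * m13_2 + 1 * m22_2 ≤ -1) ∨ ((-2) * A3 + 1 * m13_3 + 1 * m22_3 ≤ -1) := by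
  have h := C.p13_22A
  clear C
  omega

theorem c0_11_23_33_k2_k_p13_22B {n1 n2 n3 A1 A2 A3 B1 B2 B3 m11_1 m11_2 m11_3 m13_1 m13_2 m13_3 m22_1 m22_2 m22_3 m23_1 m23_2 m23_3 m33_1 m33_2 m33_3 : ℤ} (C : Ctx0 n1 n2 n3 A1 A2 A3 B1 B2 B3 m11_1 m11_2 m11_3 m13_1 m13_2 m13_3 m22_1 m22_2 m22_3 m23_1 m23_2 m23_3 m33_1 m33_2 m33_3) :
    (1 * A1 ≤ 0) ∨ (1 * B3 ≤ 0) ∨ (1 * B2 ≤ 0) ∨ ((-2) * B1 + 1 * m13_1 + 1 * m22_1 ≤ -1) ∨ ((-2) * B2 + 1 * m13_2 + 1 * m22_2 ≤ -1) ∨ ((-2) * B3 + 1 * m13_3 + 1 * m22_3 ≤ -1) := by
  have h := C.p13_22B
  clear C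
  omega

theorem c0_11_23_33_k2_k_p13_23A {n1 n2 n3 A1 A2 A3 B1 B2 B3 m11_1 m11_2 m11_3 m13_1 m13_2 m13_3 m22_1 m22_2 m22_3 m23_1 m23_2 m23_3 m33_1 m33_2 m33_3 : ℤ} (C : Ctx0 n1 n2 n3 A1 A2 A3 B1 B2 B3 m11_1 m11_2 m11_3 m13_1 m13_2 m13_3 m22_1 m22_2 m22_3 m23_1 m23_2 m23_3 m33_1 m33_2 m33_3) :
    (1 * A1 ≤ 0) ∨ (1 * B3 ≤ 0) ∨ (1 * A2 ≤ 0) ∨ ((-2) * A1 + 1 * m13_1 + 1 * m23_1 ≤ -1) ∨ ((-2) * A2 + 1 * m13_2 + 1 * m23_2 ≤ -1) ∨ ((-2) * A3 + 1 * m13_3 + 1 * m23_3 ≤ -1) := by
  have h := C.p13_23A
  clear C
  omega

theorem c0_11_23_33_k2_k_p13_33A {n1 n2 n3 A1 A2 A3 B1 B2 B3 m11_1 m11_2 m11_3 m13_1 m13_2 m13_3 m22_1 m22_2 m22_3 m23_1 m23_2 m23_3 m33_1 m33_2 m33_3 : ℤ} (C : Ctx0 n1 n2 n3 A1 A2 A3 B1 B2 B3 m11_1 m11_2 m11_3 m13_1 m13_2 m13_3 m22_1 m22_2 m22_3 m23_1 m23_2 m23_3 m33_1 m33_2 m33_3) :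
    (1 * A1 ≤ 0) ∨ (1 * B3 ≤ 0) ∨ (1 * A3 ≤ 0) ∨ ((-2) * A1 + 1 * m13_1 + 1 * m33_1 ≤ -1) ∨ ((-2) * A2 + 1 * m13_2 + 1 * m33_2 ≤ -1) ∨ ((-2) * A3 + 1 * m13_3 + 1 * m33_3 ≤ -1) := by
  have h := C.p13_33A
  clear C
  omega

theorem c0_11_23_33_k2_k_p22_33A {n1 n2 n3 A1 A2 A3 B1 B2 B3 m11_1 m11_2 m11_3 m13_1 m13_2 m13_3 m22_1 m22_2 m22_3 m23_1 m23_2 m23_3 m33_1 m33_2 m33_3 : ℤ} (C : Ctx0 n1 n2 n3 A1 A2 A3 B1 B2 B3 m11_1 m11_2 m11_3 m13_1 m13_2 m13_3 m22_1 m22_2 m22_3 m23_1 m23_2 m23_3 m33_1 m33_2 m33_3) :
    (1 * B2 ≤ 0) ∨ (1 * A3 ≤ 0) ∨ ((-2) * A1 + 1 * m22_1 + 1 * m33_1 ≤ -1) ∨ ((-2) * A2 + 1 * m22_2 + 1 * m33_2 ≤ -1) ∨ ((-2) * A3 + 1 * m22_3 + 1 * m33_3 ≤ -1) := by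
  have h := C.p22_33A
  clear C
  omega

theorem c0_11_23_33_k2_k_p23_33A {n1 n2 n3 A1 A2 A3 B1 B2 B3 m11_1 m11_2 m11_3 m13_1 m13_2 m13_3 m22_1 m22_2 m22_3 m23_1 m23_2 m23_3 m33_1 m33_2 m33_3 : ℤ} (C : Ctx0 n1 n2 n3 A1 A2 A3 B1 B2 B3 m11_1 m11_2 m11_3 m13_1 m13_2 m13_3 m22_1 m22_2 m22_3 m23_1 m23_2 m23_3 m33_1 m33_2 m33_3) :
    (1 * A2 ≤ 0) ∨ (1 * B3 ≤ 0) ∨ (1 * A3 ≤ 0) ∨ ((-2) * A1 + 1 * m23_1 + 1 * m33_1 ≤ -1) ∨ ((-2) * A2 + 1 * m23_2 + 1 * m33_2 ≤ -1) ∨ ((-2) * A3 + 1 * m23_3 + 1 * m33_3 ≤ -1) := by
  have h := C.p23_33A
  clear C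
  omega

theorem c0_11_23_33_k2_k_tmpp {n1 n2 n3 A1 A2 A3 B1 B2 B3 m11_1 m11_2 m11_3 m13_1 m13_2 m13_3 m22_1 m22_2 m22_3 m23_1 m23_2 m23_3 m33_1 m33_2 m33_3 : ℤ} (C : Ctx0 n1 n2 n3 A1 A2 A3 B1 B2 B3 m11_1 m11_2 m11_3 m13_1 m13_2 m13_3 m22_1 m22_2 m22_3 m23_1 m23_2 m23_3 m33_1 m33_2 m33_3) :
    ((-1) * A1 + 1 * n1 ≤ 0) ∨ ((-1) * A1 + 1 * A2 ≤ 1) ∨ (1 * B1 ≤ 0) ∨ (1 * B1 + (-1) * B2 + 1 * n2 ≤ 1) := by
  have h := C.tmpp
  clear C
  omega

theorem c0_11_23_33_k2_k_tzmp {n1 n2 n3 A1 A2 A3 B1 B2 B3 m11_1 m11_2 m11_3 m13_1 m13_2 m13_3 m22_1 m22_2 m22_3 m23_1 m23_2 m23_3 m33_1 m33_2 m33_3 : ℤ} (C : Ctx0 n1 n2 n3 A1 A2 A3 B1 B2 B3 m11_1 m11_2 m11_3 m13_1 m13_2 m13_3 m22_1 m22_2 m22_3 m23_1 m23_2 m23_3 m33_1 m33_2 m33_3) :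
    (1 * A1 + (-1) * A2 + 1 * n2 ≤ 0) ∨ ((-1) * A2 + 1 * A3 ≤ 1) ∨ ((-1) * B1 + 1 * B2 ≤ 0) ∨ (1 * B2 + (-1) * B3 + 1 * n3 ≤ 1) := by
  have h := C.tzmp
  clear C
  omega

theorem c0_11_23_33_k2_k_tpmm {n1 n2 n3 A1 A2 A3 B1 B2 B3 m11_1 m11_2 m11_3 m13_1 m13_2 m13_3 m22_1 m22_2 m22_3 m23_1 m23_2 m23_3 m33_1 m33_2 m33_3 : ℤ} (C : Ctx0 n1 n2 n3 A1 A2 A3 B1 B2 B3 m11_1 m11_2 m11_3 m13_1 m13_2 m13_3 m22_1 m22_2 m22_3 m23_1 m23_2 m23_3 m33_1 m33_2 m33_3) :
    (1 * A1 ≤ 0) ∨ (1 * A1 + (-1) * A2 + 1 * n2 ≤ 1) ∨ ((-1) * B1 + 1 * n1 ≤ 0) ∨ ((-1) * B1 + 1 * B2 ≤ 1) ∨ ((-1) * A3 + 1 * B3 ≤ 1) := by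
  have h := C.tpmm
  clear C
  omega

theorem c0_11_23_33_k2_k_tpzm {n1 n2 n3 A1 A2 A3 B1 B2 B3 m11_1 m11_2 m11_3 m13_1 m13_2 m13_3 m22_1 m22_2 m22_3 m23_1 m23_2 m23_3 m33_1 m33_2 m33_3 : ℤ} (C : Ctx0 n1 n2 n3 A1 A2 A3 B1 B2 B3 m11_1 m11_2 m11_3 m13_1 m13_2 m13_3 m22_1 m22_2 m22_3 m23_1 m23_2 m23_3 m33_1 m33_2 m33_3) :
    (1 * A1 ≤ 0) ∨ (1 * A1 + (-1) * A2 + 1 * n2 ≤ 0) ∨ (1 * A2 + (-1) * A3 + 1 * n3 ≤ 0) ∨ ((-1) * B1 + 1 * n1 ≤ 0) ∨ ((-1) * B1 + 1 * B2 ≤ 0) ∨ ((-1) * B2 + 1 * B3 ≤ 0) ∨ ((-1) * A3 + 1 * B3 ≤ 1) ∨ (1 * A1 + (-1) * B1 ≤ 1 ∧ 1 * A2 + (-1) * B2 ≤ 0) := by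
  have h := C.tpzm
  clear C
  omega

theorem c0_11_23_33_k2 {n1 n2 n3 A1 A2 A3 B1 B2 B3 m11_1 m11_2 m11_3 m13_1 m13_2 m13_3 m22_1 m22_2 m22_3 m23_1 m23_2 m23_3 m33_1 m33_2 m33_3 : ℤ}
    (C : Ctx0 n1 n2 n3 A1 A2 A3 B1 B2 B3 m11_1 m11_2 m11_3 m13_1 m13_2 m13_3 m22_1 m22_2 m22_3 m23_1 m23_2 m23_3 m33_1 m33_2 m33_3)
    (e0 : 0 < B1)
    (e1 : 0 < A2)
    (e2 : 0 < B3)
    (e3 : 0 < A3)
    (s1 : 2 * A1 + 1 * B1 ≤ m11_1 + m23_1 + m33_1)
    (s2 : 2 * A2 + 1 * B2 ≤ m11_2 + m23_2 + m33_2)
    (s3 : 2 * A3 + 1 * B3 ≤ m11_3 + m23_3 + m33_3) : False := by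
  rcases c0_11_23_33_k2_k_f13_2 C with ⟨c0_0_0, c0_0_1⟩ | ⟨c0_1_0, c0_1_1⟩
  · rcases c0_11_23_33_k2_k_t12 C with ⟨c1_0_0, c1_0_1⟩ | ⟨c1_1_0, c1_1_1⟩
    · rcases c0_11_23_33_k2_k_t23 C with ⟨c2_0_0, c2_0_1⟩ | ⟨c2_1_0, c2_1_1⟩
      · rcases c0_11_23_33_k2_k_f13_5 C with ⟨c3_0_0, c3_0_1⟩ | ⟨c3_1_0, c3_1_1⟩
        · rcases c0_11_23_33_k2_k_f13_8 C with ⟨c4_0_0, c4_0_1⟩ | ⟨c4_1_0, c4_1_1⟩
          · linarith only [C.b5, C.f13_7, C.o1, c0_0_1, c1_0_1, c3_0_1, c4_0_1]
          · rcases c0_11_23_33_k2_k_f22_2 C with ⟨c5_0_0, c5_0_1⟩ | ⟨c5_1_0, c5_1_1⟩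
            · rcases c0_11_23_33_k2_k_f22_5 C with ⟨c6_0_0, c6_0_1⟩ | ⟨c6_1_0, c6_1_1⟩
              · linarith only [C.f11_0, C.f11_1, C.f22_4, C.f23_0, C.f23_5, C.f33_0, C.f33_3, C.o0, C.o1, c5_0_1, c6_0_1, s1, s2]
              · rcases c0_11_23_33_k2_k_p13_22A C with c7_0_0 | c7_1_0 | c7_2_0 | c7_3_0 | c7_4_0 | c7_5_0
                · linarith only [c1_0_0, c7_0_0]
                · linarith only [c7_1_0, e2]
                · linarith only [C.a1, C.f22_1, C.o0, c5_0_1, c7_2_0, e0]
                · linarith only [C.f11_0, C.f23_0, C.f33_0, c0_0_1, c5_0_1, c7_3_0, s1]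
                · rcases c0_11_23_33_k2_k_f33_2 C with ⟨c8_0_0, c8_0_1⟩ | ⟨c8_1_0, c8_1_1⟩
                  · rcases c0_11_23_33_k2_k_tmpp C with c14_0_0 | c14_1_0 | c14_2_0 | c14_3_0
                    · linarith only [C.f11_0, C.f23_0, C.f33_0, c14_0_0, s1]
                    · linarith only [C.a1, C.f11_0, C.f11_1, C.f22_1, C.f23_5, C.f33_0, C.f33_3, C.o0, c0_0_1, c14_1_0, c3_0_1, c5_0_1, c6_1_1, c7_4_0, s2]
                    · linarith only [c14_2_0, e0]
                    · rcases c0_11_23_33_k2_k_p13_33A C with c15_0_0 | c15_1_0 | c15_2_0 | c15_3_0 | c15_4_0 | c15_5_0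
                      · linarith only [c15_0_0, c1_0_0]
                      · linarith only [c15_1_0, e2]
                      · linarith only [c15_2_0, e3]
                      · linarith only [C.f11_0, C.f23_0, c0_0_1, c15_3_0, c8_0_1, s1]
                      · linarith only [C.f11_0, C.f11_1, C.f23_5, c0_0_1, c14_3_0, c15_4_0, c1_0_1, c3_0_1, s2]
                      · rcases c0_11_23_33_k2_k_p11_22B C with c16_0_0 | c16_1_0 | c16_2_0 | c16_3_0 | c16_4_0
                        · linarith only [c16_0_0, e0]
                        · linarith only [C.f11_0, C.f22_1, C.f23_0, C.f33_0, c16_1_0, c1_0_0, c5_0_1, s1]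
                        · linarith only [C.f11_0, C.f23_0, C.f33_0, C.o0, c16_2_0, c5_0_1, s1]
                        · rcases c0_11_23_33_k2_k_p22_33A C with c17_0_0 | c17_1_0 | c17_2_0 | c17_3_0 | c17_4_0
                          · linarith only [C.a1, C.f22_1, c17_0_0, c1_0_0, c5_0_1]
                          · linarith only [c17_1_0, e3]
                          · linarith only [C.a1, c17_2_0, c5_0_1, c8_0_1]
                          · rcases c0_11_23_33_k2_k_f23_3 C with ⟨c18_0_0, c18_0_1⟩ | ⟨c18_1_0, c18_1_1⟩ | ⟨c18_2_0, c18_2_1⟩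
                            · rcases c0_11_23_33_k2_k_p11_23B C with c23_0_0 | c23_1_0 | c23_2_0 | c23_3_0 | c23_4_0 | c23_5_0
                              · linarith only [c23_0_0, e0]
                              · linarith only [c23_1_0, e1]
                              · linarith only [c23_2_0, e2]
                              · linarith only [C.f11_0, C.f33_0, C.o0, c18_0_1, c23_3_0, s1]
                              · linarith only [c17_3_0, c23_4_0, c6_1_1, s2]
                              · linarith only [c15_5_0, c23_5_0, c4_1_1, s3]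
                            · linarith only [C.f22_1, C.f23_0, C.f23_5, c16_3_0, c17_3_0, c18_1_1, c5_0_1, c6_1_1, s2]
                            · linarith only [C.f22_1, C.f23_0, C.f23_5, C.f33_4, C.o2, c16_3_0, c17_3_0, c18_2_1, c5_0_1, c6_1_1, s2]
                          · linarith only [C.f11_2, C.f22_6, C.f23_9, c16_3_0, c17_4_0, c6_1_1, s3]
                        · linarith only [C.f11_0, C.f11_1, C.f11_2, C.f22_6, C.f23_9, c14_3_0, c15_5_0, c16_4_0, c4_1_1, c6_1_1, s3]
                  · linarith only [C.a4, C.f11_0, C.f11_1, C.f22_1, C.f23_5, C.f33_0, C.f33_4, C.o0, c0_0_1, c3_0_1, c5_0_1, c6_1_1, c7_4_0, c8_1_1, s2]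
                · linarith only [C.b5, C.f22_6, C.o2, c4_1_1, c6_1_1, c7_5_0]
            · rcases c0_11_23_33_k2_k_f22_5 C with ⟨c24_0_0, c24_0_1⟩ | ⟨c24_1_0, c24_1_1⟩
              · linarith only [C.f22_4, c1_0_1, c24_0_1, c2_0_0, c5_1_1]
              · rcases c0_11_23_33_k2_k_f23_3 C with ⟨c25_0_0, c25_0_1⟩ | ⟨c25_1_0, c25_1_1⟩ | ⟨c25_2_0, c25_2_1⟩
                · rcases c0_11_23_33_k2_k_f23_7 C with ⟨c26_0_0, c26_0_1⟩ | ⟨c26_1_0, c26_1_1⟩ | ⟨c26_2_0, c26_2_1⟩
                  · linarith only [C.a1, C.f23_5, c1_0_1, c25_0_1, c26_0_1]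
                  · rcases c0_11_23_33_k2_k_tmpp C with c27_0_0 | c27_1_0 | c27_2_0 | c27_3_0
                    · linarith only [C.f11_0, C.f23_0, C.f33_0, c27_0_0, s1]
                    · linarith only [C.f11_0, C.f23_1, C.f33_0, c25_0_1, c27_1_0, s1]
                    · linarith only [c27_2_0, e0]
                    · rcases c0_11_23_33_k2_k_f33_2 C with ⟨c28_0_0, c28_0_1⟩ | ⟨c28_1_0, c28_1_1⟩
                      · rcases c0_11_23_33_k2_k_p11_33B C with c30_0_0 | c30_1_0 | c30_2_0 | c30_3_0 | c30_4_0
                        · linarith only [c30_0_0, e0]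
                        · linarith only [c30_1_0, e3]
                        · linarith only [C.f11_0, C.f23_0, C.o0, c28_0_1, c30_2_0, s1]
                        · linarith only [C.f23_5, C.o1, c30_3_0, s2]
                        · rcases c0_11_23_33_k2_k_p13_23A C with c31_0_0 | c31_1_0 | c31_2_0 | c31_3_0 | c31_4_0 | c31_5_0
                          · linarith only [c1_0_0, c31_0_0]
                          · linarith only [c31_1_0, e2]
                          · linarith only [c31_2_0, e1]
                          · linarith only [C.f11_0, C.f33_0, c0_0_1, c25_0_1, c31_3_0, s1]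
                          · rcases c0_11_23_33_k2_k_p13_33A C with c32_0_0 | c32_1_0 | c32_2_0 | c32_3_0 | c32_4_0 | c32_5_0
                            · linarith only [c1_0_0, c32_0_0]
                            · linarith only [c32_1_0, e2]
                            · linarith only [c32_2_0, e3]
                            · linarith only [C.f11_0, C.f23_0, c0_0_1, c28_0_1, c32_3_0, s1]
                            · linarith only [C.f11_0, C.f11_1, C.f23_5, c0_0_1, c1_0_1, c27_3_0, c32_4_0, c3_0_1, s2]
                            · rcases c0_11_23_33_k2_k_p11_23B C with c35_0_0 | c35_1_0 | c35_2_0 | c35_3_0 | c35_4_0 | c35_5_0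
                              · linarith only [c35_0_0, e0]
                              · linarith only [c35_1_0, e1]
                              · linarith only [c35_2_0, e2]
                              · linarith only [C.f11_0, C.f33_0, C.o0, c25_0_1, c35_3_0, s1]
                              · rcases c0_11_23_33_k2_k_p13_22B C with c37_0_0 | c37_1_0 | c37_2_0 | c37_3_0 | c37_4_0 | c37_5_0
                                · linarith only [c1_0_0, c37_0_0]
                                · linarith only [c37_1_0, e2]
                                · linarith only [C.f11_1, C.f23_1, C.f33_0, C.o0, c1_0_1, c25_0_1, c26_1_1, c35_4_0, c37_2_0, e0, s1]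
                                · linarith only [C.f11_1, C.f23_1, C.f33_0, C.o0, c0_0_1, c1_0_1, c25_0_1, c26_1_1, c35_4_0, c37_3_0, c5_1_1, s1]
                                · rcases c0_11_23_33_k2_k_p22_33A C with c42_0_0 | c42_1_0 | c42_2_0 | c42_3_0 | c42_4_0
                                  · linarith only [C.f11_0, C.f11_1, C.f23_1, C.f23_5, C.f33_0, C.f33_3, C.o0, c0_0_1, c24_1_1, c25_0_1, c37_4_0, c3_0_1, c42_0_0, e0, s2]
                                  · linarith only [c42_1_0, e3]
                                  · linarith only [C.f11_0, C.f11_1, C.f23_1, C.f23_5, C.f33_0, C.f33_3, C.o0, C.o1, c0_0_1, c24_1_1, c25_0_1, c37_4_0, c3_0_1, c42_2_0, c5_1_1, s2]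
                                  · linarith only [C.f11_0, C.f11_1, C.f23_5, C.o0, c0_0_1, c1_0_1, c24_1_1, c37_4_0, c3_0_1, c42_3_0, s2]
                                  · linarith only [C.f11_0, C.f11_1, C.f11_2, C.f22_6, C.f23_9, C.o0, c0_0_1, c24_1_1, c37_4_0, c3_0_1, c42_4_0, s3]
                                · linarith only [C.f11_0, C.f11_1, C.f11_2, C.f22_6, C.f23_9, C.o0, c0_0_1, c24_1_1, c26_1_1, c31_4_0, c32_5_0, c35_4_0, c37_5_0, c3_0_1, c4_1_1, s3]
                              · linarith only [c32_5_0, c35_5_0, c4_1_1, s3]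
                          · linarith only [c30_4_0, c31_5_0, c4_1_1, s3]
                      · linarith only [C.f11_0, C.f11_1, C.f23_1, C.f23_5, C.f33_0, C.f33_4, c25_0_1, c27_3_0, c28_1_1, s2]
                  · linarith only [C.f13_4, C.f23_5, c0_0_1, c1_0_1, c26_2_1, c3_0_1]
                · rcases c0_11_23_33_k2_k_f23_7 C with ⟨c43_0_0, c43_0_1⟩ | ⟨c43_1_0, c43_1_1⟩ | ⟨c43_2_0, c43_2_1⟩
                  · linarith only [C.f23_5, c1_0_1, c25_1_1, c2_0_0, c43_0_1]
                  · rcases c0_11_23_33_k2_k_f23_10 C with ⟨c44_0_0, c44_0_1⟩ | ⟨c44_1_0, c44_1_1⟩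
                    · rcases c0_11_23_33_k2_k_p11_33A C with c45_0_0 | c45_1_0 | c45_2_0 | c45_3_0 | c45_4_0
                      · linarith only [c45_0_0, e0]
                      · linarith only [c45_1_0, e3]
                      · rcases c0_11_23_33_k2_k_f33_2 C with ⟨c47_0_0, c47_0_1⟩ | ⟨c47_1_0, c47_1_1⟩
                        · rcases c0_11_23_33_k2_k_p13_33A C with c50_0_0 | c50_1_0 | c50_2_0 | c50_3_0 | c50_4_0 | c50_5_0
                          · linarith only [c1_0_0, c50_0_0]
                          · linarith only [c50_1_0, e2]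
                          · linarith only [c50_2_0, e3]
                          · linarith only [C.b5, C.f11_0, C.f22_0, C.f23_1, C.f23_9, c0_0_1, c43_1_1, c44_0_1, c47_0_1, c50_3_0, c5_1_1, s1]
                          · linarith only [C.b5, C.f11_0, C.f11_1, C.f23_9, C.o0, c0_0_1, c3_0_1, c44_0_1, c50_4_0, s2]
                          · rcases c0_11_23_33_k2_k_p11_22B C with c54_0_0 | c54_1_0 | c54_2_0 | c54_3_0 | c54_4_0
                            · linarith only [c54_0_0, e0]
                            · linarith only [C.b5, C.f23_9, C.o0, c2_0_0, c43_1_1, c44_0_1, c54_1_0, e0]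
                            · linarith only [C.b5, C.f11_0, C.f23_9, C.o0, c2_0_0, c43_1_1, c44_0_1, c54_2_0, c5_1_1]
                            · linarith only [C.f11_2, C.f23_9, C.o1, c24_1_1, c43_1_1, c44_0_1, c4_1_1, c50_5_0, c54_3_0, s3]
                            · linarith only [C.b5, C.f22_6, C.f23_9, c24_1_1, c4_1_1, c50_5_0, c54_4_0, s3]
                        · rcases c0_11_23_33_k2_k_f33_5 C with ⟨c55_0_0, c55_0_1⟩ | ⟨c55_1_0, c55_1_1⟩
                          · linarith only [C.f33_4, c1_0_1, c2_0_0, c47_1_1, c55_0_1]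
                          · rcases c0_11_23_33_k2_k_f33_8 C with ⟨c56_0_0, c56_0_1⟩ | ⟨c56_1_0, c56_1_1⟩
                            · linarith only [C.b5, C.f11_0, C.f11_1, C.f13_4, C.f23_5, C.f33_7, C.o0, C.o1, C.o2, c0_0_1, c3_0_1, c55_1_1, c56_0_1, s2]
                            · rcases c0_11_23_33_k2_k_p13_33A C with c63_0_0 | c63_1_0 | c63_2_0 | c63_3_0 | c63_4_0 | c63_5_0
                              · linarith only [c1_0_0, c63_0_0]
                              · linarith only [c63_1_0, e2]
                              · linarith only [c63_2_0, e3]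
                              · linarith only [C.a4, C.f11_0, C.f23_1, c0_0_1, c47_1_1, c63_3_0, s1]
                              · linarith only [C.b5, C.f11_0, C.f11_1, C.f23_9, C.o0, c0_0_1, c3_0_1, c44_0_1, c63_4_0, s2]
                              · linarith only [C.f11_1, C.f11_2, C.f13_4, C.f23_9, c0_0_1, c2_0_0, c3_0_1, c43_1_1, c44_0_1, c45_2_0, c47_1_1, c4_1_1, c56_1_1, c63_5_0, s3]
                      · linarith only [C.b5, C.f23_9, c44_0_1, c45_3_0, s2]
                      · linarith only [C.f23_9, c45_4_0, s3]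
                    · rcases c0_11_23_33_k2_k_f33_2 C with ⟨c64_0_0, c64_0_1⟩ | ⟨c64_1_0, c64_1_1⟩
                      · rcases c0_11_23_33_k2_k_p11_23B C with c77_0_0 | c77_1_0 | c77_2_0 | c77_3_0 | c77_4_0 | c77_5_0
                        · linarith only [c77_0_0, e0]
                        · linarith only [c77_1_0, e1]
                        · linarith only [c77_2_0, e2]
                        · linarith only [C.f11_0, C.o0, c25_1_1, c2_0_0, c77_3_0]
                        · rcases c0_11_23_33_k2_k_p22_33A C with c81_0_0 | c81_1_0 | c81_2_0 | c81_3_0 | c81_4_0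
                          · linarith only [C.f11_0, C.f11_1, C.o0, c1_0_1, c2_0_0, c43_1_1, c77_4_0, c81_0_0, e0]
                          · linarith only [c81_1_0, e3]
                          · linarith only [C.b3, C.f11_1, C.f23_1, c43_1_1, c5_1_1, c77_4_0, c81_2_0, s1]
                          · linarith only [c24_1_1, c77_4_0, c81_3_0, s2]
                          · linarith only [C.f11_2, C.f22_6, C.f23_9, C.o1, c24_1_1, c43_1_1, c77_4_0, c81_4_0, s3]
                        · rcases c0_11_23_33_k2_k_p13_33A C with c82_0_0 | c82_1_0 | c82_2_0 | c82_3_0 | c82_4_0 | c82_5_0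
                          · linarith only [c1_0_0, c82_0_0]
                          · linarith only [c82_1_0, e2]
                          · linarith only [c82_2_0, e3]
                          · linarith only [C.f11_0, C.f23_0, c0_0_1, c64_0_1, c82_3_0, s1]
                          · linarith only [C.b5, C.f11_2, C.f23_5, c0_0_1, c1_0_1, c3_0_1, c44_1_1, c77_5_0, c82_4_0, s2]
                          · linarith only [c4_1_1, c77_5_0, c82_5_0, s3]
                      · rcases c0_11_23_33_k2_k_p11_23B C with c90_0_0 | c90_1_0 | c90_2_0 | c90_3_0 | c90_4_0 | c90_5_0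
                        · linarith only [c90_0_0, e0]
                        · linarith only [c90_1_0, e1]
                        · linarith only [c90_2_0, e2]
                        · linarith only [C.f11_0, C.o0, c25_1_1, c2_0_0, c90_3_0]
                        · rcases c0_11_23_33_k2_k_p11_33A C with c91_0_0 | c91_1_0 | c91_2_0 | c91_3_0 | c91_4_0
                          · linarith only [c91_0_0, e0]
                          · linarith only [c91_1_0, e3]
                          · rcases c0_11_23_33_k2_k_p11_13B C with c92_0_0 | c92_1_0 | c92_2_0 | c92_3_0 | c92_4_0 | c92_5_0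
                            · linarith only [c92_0_0, e0]
                            · linarith only [c1_0_0, c92_1_0]
                            · linarith only [c92_2_0, e2]
                            · linarith only [C.f11_0, C.f33_4, C.o1, c0_0_1, c2_0_0, c64_1_1, c90_4_0, c91_2_0, c92_3_0, s2]
                            · linarith only [C.b3, C.f11_0, C.f23_5, C.f33_4, c0_0_1, c2_0_0, c3_0_1, c64_1_1, c91_2_0, c92_4_0, s2]
                            · rcases c0_11_23_33_k2_k_p13_33A C with c96_0_0 | c96_1_0 | c96_2_0 | c96_3_0 | c96_4_0 | c96_5_0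
                              · linarith only [c1_0_0, c96_0_0]
                              · linarith only [c96_1_0, e2]
                              · linarith only [c96_2_0, e3]
                              · linarith only [C.f33_4, C.o1, c0_0_1, c2_0_0, c64_1_1, c90_4_0, c96_3_0, s2]
                              · linarith only [C.f11_1, C.f23_5, C.f33_4, c0_0_1, c2_0_0, c3_0_1, c64_1_1, c90_4_0, c91_2_0, c96_4_0, s2]
                              · linarith only [C.f23_9, c4_1_1, c92_5_0, c96_5_0, s3]
                          · linarith only [C.b3, C.f11_0, C.f11_1, c90_4_0, c91_3_0, s2]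
                          · linarith only [C.f23_9, c91_4_0, s3]
                        · rcases c0_11_23_33_k2_k_p13_33A C with c97_0_0 | c97_1_0 | c97_2_0 | c97_3_0 | c97_4_0 | c97_5_0
                          · linarith only [c1_0_0, c97_0_0]
                          · linarith only [c97_1_0, e2]
                          · linarith only [c97_2_0, e3]
                          · linarith only [C.a4, C.f11_0, C.f23_1, c0_0_1, c64_1_1, c97_3_0, s1]
                          · linarith only [C.b5, C.f11_2, C.f23_5, c0_0_1, c1_0_1, c3_0_1, c44_1_1, c90_5_0, c97_4_0, s2]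
                          · linarith only [c4_1_1, c90_5_0, c97_5_0, s3]
                  · linarith only [C.f13_4, C.f23_5, c0_0_1, c1_0_1, c3_0_1, c43_2_1]
                · linarith only [C.f13_4, C.f23_1, c0_0_1, c1_0_1, c25_2_1, c3_0_1]
        · rcases c0_11_23_33_k2_k_f13_8 C with ⟨c98_0_0, c98_0_1⟩ | ⟨c98_1_0, c98_1_1⟩
          · linarith only [C.a4, C.b5, C.f13_7, C.o1, C.o2, c3_1_1, c98_0_1]
          · rcases c0_11_23_33_k2_k_f22_2 C with ⟨c99_0_0, c99_0_1⟩ | ⟨c99_1_0, c99_1_1⟩
            · rcases c0_11_23_33_k2_k_f22_5 C with ⟨c100_0_0, c100_0_1⟩ | ⟨c100_1_0, c100_1_1⟩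
              · linarith only [C.a1, C.f11_0, C.f11_1, C.f13_0, C.f13_3, C.f22_4, C.f23_5, C.f33_4, C.o0, C.o1, C.o2, c100_0_1, c3_1_1, c99_0_1, s2]
              · rcases c0_11_23_33_k2_k_p13_22A C with c101_0_0 | c101_1_0 | c101_2_0 | c101_3_0 | c101_4_0 | c101_5_0
                · linarith only [c101_0_0, c1_0_0]
                · linarith only [c101_1_0, e2]
                · linarith only [C.a1, C.f22_1, c101_2_0, c1_0_0, c99_0_1]
                · linarith only [C.f11_0, C.f23_0, C.f33_0, c0_0_1, c101_3_0, c99_0_1, s1]
                · rcases c0_11_23_33_k2_k_tmpp C with c102_0_0 | c102_1_0 | c102_2_0 | c102_3_0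
                  · linarith only [C.f11_0, C.f23_0, C.f33_0, c102_0_0, s1]
                  · linarith only [C.f11_0, C.f22_1, C.f23_0, C.f33_0, C.o1, c102_1_0, c99_0_1, s1]
                  · linarith only [c102_2_0, e0]
                  · rcases c0_11_23_33_k2_k_f23_3 C with ⟨c103_0_0, c103_0_1⟩ | ⟨c103_1_0, c103_1_1⟩ | ⟨c103_2_0, c103_2_1⟩
                    · rcases c0_11_23_33_k2_k_p11_13B C with c109_0_0 | c109_1_0 | c109_2_0 | c109_3_0 | c109_4_0 | c109_5_0
                      · linarith only [c109_0_0, e0]
                      · linarith only [c109_1_0, c1_0_0]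
                      · linarith only [c109_2_0, e2]
                      · linarith only [C.f11_1, C.f13_3, C.f23_5, C.f33_4, C.o1, C.o2, c102_3_0, c109_3_0, c3_1_1, s2]
                      · linarith only [C.f23_5, C.f33_4, C.o1, C.o2, c109_4_0, c3_1_1, s2]
                      · rcases c0_11_23_33_k2_k_p13_23A C with c113_0_0 | c113_1_0 | c113_2_0 | c113_3_0 | c113_4_0 | c113_5_0
                        · linarith only [c113_0_0, c1_0_0]
                        · linarith only [c113_1_0, e2]
                        · linarith only [c113_2_0, e1]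
                        · linarith only [C.f11_0, C.f33_0, c0_0_1, c103_0_1, c113_3_0, s1]
                        · linarith only [C.f11_0, C.f11_1, C.f23_9, C.f33_4, C.f33_7, c102_3_0, c109_5_0, c113_4_0, c3_1_1, c98_1_1, s2, s3]
                        · linarith only [C.f23_9, C.f33_7, c109_5_0, c113_5_0, c98_1_1, s3]
                    · linarith only [C.f11_0, C.f11_1, C.f22_1, C.f23_0, C.f23_5, C.f33_4, C.o2, c100_1_1, c101_4_0, c102_3_0, c103_1_1, c3_1_1, c99_0_1, s2]
                    · linarith only [C.f11_0, C.f11_1, C.f22_1, C.f23_0, C.f23_5, C.f33_4, C.o2, c100_1_1, c101_4_0, c102_3_0, c103_2_1, c3_1_1, c99_0_1, s2]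
                · linarith only [C.b5, C.f22_6, C.o2, c100_1_1, c101_5_0, c98_1_1]
            · rcases c0_11_23_33_k2_k_f22_5 C with ⟨c114_0_0, c114_0_1⟩ | ⟨c114_1_0, c114_1_1⟩
              · linarith only [C.f22_4, c114_0_1, c1_0_1, c2_0_0, c99_1_1]
              · rcases c0_11_23_33_k2_k_f23_3 C with ⟨c115_0_0, c115_0_1⟩ | ⟨c115_1_0, c115_1_1⟩ | ⟨c115_2_0, c115_2_1⟩
                · rcases c0_11_23_33_k2_k_tmpp C with c117_0_0 | c117_1_0 | c117_2_0 | c117_3_0
                  · linarith only [C.f11_0, C.f23_0, C.f33_0, c117_0_0, s1]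
                  · linarith only [C.f11_0, C.f23_1, C.f33_0, c115_0_1, c117_1_0, s1]
                  · linarith only [c117_2_0, e0]
                  · rcases c0_11_23_33_k2_k_p11_13B C with c121_0_0 | c121_1_0 | c121_2_0 | c121_3_0 | c121_4_0 | c121_5_0
                    · linarith only [c121_0_0, e0]
                    · linarith only [c121_1_0, c1_0_0]
                    · linarith only [c121_2_0, e2]
                    · linarith only [C.f11_1, C.f13_3, C.f23_5, C.f33_4, C.o1, C.o2, c117_3_0, c121_3_0, c3_1_1, s2]
                    · linarith only [C.f23_5, C.f33_4, C.o1, C.o2, c121_4_0, c3_1_1, s2]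
                    · rcases c0_11_23_33_k2_k_p13_23A C with c124_0_0 | c124_1_0 | c124_2_0 | c124_3_0 | c124_4_0 | c124_5_0
                      · linarith only [c124_0_0, c1_0_0]
                      · linarith only [c124_1_0, e2]
                      · linarith only [c124_2_0, e1]
                      · linarith only [C.f11_0, C.f33_0, c0_0_1, c115_0_1, c124_3_0, s1]
                      · linarith only [C.f11_0, C.f11_1, C.f23_9, C.f33_4, C.f33_7, c117_3_0, c121_5_0, c124_4_0, c3_1_1, c98_1_1, s2, s3]
                      · linarith only [C.f23_9, C.f33_7, c121_5_0, c124_5_0, c98_1_1, s3]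
                · rcases c0_11_23_33_k2_k_f23_7 C with ⟨c125_0_0, c125_0_1⟩ | ⟨c125_1_0, c125_1_1⟩ | ⟨c125_2_0, c125_2_1⟩
                  · linarith only [C.f23_5, c115_1_1, c125_0_1, c1_0_1, c2_0_0]
                  · rcases c0_11_23_33_k2_k_f23_10 C with ⟨c126_0_0, c126_0_1⟩ | ⟨c126_1_0, c126_1_1⟩
                    · rcases c0_11_23_33_k2_k_tpmm C with c130_0_0 | c130_1_0 | c130_2_0 | c130_3_0 | c130_4_0
                      · linarith only [c130_0_0, c1_0_0]
                      · linarith only [C.b5, C.f11_0, C.f11_1, C.f13_0, C.f13_3, C.f23_9, C.f33_4, C.o0, C.o2, c126_0_1, c130_1_0, c3_1_1, s2]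
                      · linarith only [C.a1, C.o0, c130_2_0]
                      · linarith only [C.b5, C.f23_9, C.o0, c125_1_1, c126_0_1, c130_3_0, c2_0_0]
                      · rcases c0_11_23_33_k2_k_p11_22B C with c135_0_0 | c135_1_0 | c135_2_0 | c135_3_0 | c135_4_0
                        · linarith only [c135_0_0, e0]
                        · linarith only [C.b5, C.f23_9, C.o0, c125_1_1, c126_0_1, c135_1_0, c2_0_0, e0]
                        · linarith only [C.b5, C.f11_0, C.f23_9, C.o0, c125_1_1, c126_0_1, c135_2_0, c2_0_0, c99_1_1]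
                        · linarith only [C.f11_2, C.f23_9, C.f33_7, C.o1, c114_1_1, c125_1_1, c126_0_1, c130_4_0, c135_3_0, s3]
                        · linarith only [C.b5, C.f22_6, C.f23_9, C.f33_7, c114_1_1, c130_4_0, c135_4_0, s3]
                    · rcases c0_11_23_33_k2_k_f33_2 C with ⟨c136_0_0, c136_0_1⟩ | ⟨c136_1_0, c136_1_1⟩
                      · rcases c0_11_23_33_k2_k_f33_5 C with ⟨c137_0_0, c137_0_1⟩ | ⟨c137_1_0, c137_1_1⟩
                        · linarith only [C.f11_0, C.f13_0, C.f13_3, C.f23_0, C.f33_4, C.o2, c136_0_1, c137_0_1, c3_1_1, s1]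
                        · rcases c0_11_23_33_k2_k_f33_8 C with ⟨c138_0_0, c138_0_1⟩ | ⟨c138_1_0, c138_1_1⟩
                          · linarith only [C.a4, C.b5, C.f33_7, C.o1, C.o2, c137_1_1, c138_0_1]
                          · rcases c0_11_23_33_k2_k_p11_33B C with c139_0_0 | c139_1_0 | c139_2_0 | c139_3_0 | c139_4_0
                            · linarith only [c139_0_0, e0]
                            · linarith only [c139_1_0, e3]
                            · linarith only [C.a1, C.f11_0, C.o0, c136_0_1, c139_2_0]
                            · linarith only [C.f23_5, C.o1, c139_3_0, s2]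
                            · rcases c0_11_23_33_k2_k_p13_23A C with c141_0_0 | c141_1_0 | c141_2_0 | c141_3_0 | c141_4_0 | c141_5_0
                              · linarith only [c141_0_0, c1_0_0]
                              · linarith only [c141_1_0, e2]
                              · linarith only [c141_2_0, e1]
                              · rcases c0_11_23_33_k2_k_p13_33A C with c143_0_0 | c143_1_0 | c143_2_0 | c143_3_0 | c143_4_0 | c143_5_0
                                · linarith only [c143_0_0, c1_0_0]
                                · linarith only [c143_1_0, e2]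
                                · linarith only [c143_2_0, e3]
                                · linarith only [C.f11_0, c0_0_1, c141_3_0, c143_3_0, s1]
                                · linarith only [C.f11_0, C.f33_1, C.o2, c0_0_1, c115_1_1, c137_1_1, c141_3_0, c143_4_0, c3_1_1, s1]
                                · rcases c0_11_23_33_k2_k_p11_13B C with c144_0_0 | c144_1_0 | c144_2_0 | c144_3_0 | c144_4_0 | c144_5_0
                                  · linarith only [c144_0_0, e0]
                                  · linarith only [c144_1_0, c1_0_0]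
                                  · linarith only [c144_2_0, e2]
                                  · rcases c0_11_23_33_k2_k_p11_23B C with c147_0_0 | c147_1_0 | c147_2_0 | c147_3_0 | c147_4_0 | c147_5_0
                                    · linarith only [c147_0_0, e0]
                                    · linarith only [c147_1_0, e1]
                                    · linarith only [c147_2_0, e2]
                                    · linarith only [C.f11_0, C.o0, c115_1_1, c147_3_0, c2_0_0]
                                    · linarith only [C.f11_0, C.f11_1, C.f13_3, C.f33_4, C.o1, C.o2, c125_1_1, c144_3_0, c147_4_0, c3_1_1, s2]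
                                    · linarith only [C.f11_0, C.f11_1, C.f11_2, C.f13_3, C.f23_5, C.f23_8, C.f33_1, C.f33_7, c0_0_1, c115_1_1, c126_1_1, c141_3_0, c144_3_0, c147_5_0, c3_1_1, s1, s3]
                                  · linarith only [C.f23_5, C.f33_4, C.o1, C.o2, c144_4_0, c3_1_1, s2]
                                  · linarith only [C.f23_9, c143_5_0, c144_5_0, c98_1_1, s3]
                              · linarith only [C.b5, C.f11_2, C.f33_4, c138_1_1, c139_4_0, c141_4_0, c3_1_1, s2]
                              · linarith only [C.o2, c126_1_1, c141_5_0, c98_1_1]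
                      · rcases c0_11_23_33_k2_k_f33_5 C with ⟨c148_0_0, c148_0_1⟩ | ⟨c148_1_0, c148_1_1⟩
                        · linarith only [C.f33_4, c136_1_1, c148_0_1, c1_0_1, c2_0_0]
                        · rcases c0_11_23_33_k2_k_f33_8 C with ⟨c149_0_0, c149_0_1⟩ | ⟨c149_1_0, c149_1_1⟩
                          · linarith only [C.a4, C.b5, C.f33_7, C.o1, C.o2, c148_1_1, c149_0_1]
                          · rcases c0_11_23_33_k2_k_p11_33B C with c150_0_0 | c150_1_0 | c150_2_0 | c150_3_0 | c150_4_0
                            · linarith only [c150_0_0, e0]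
                            · linarith only [c150_1_0, e3]
                            · linarith only [C.a4, C.f11_0, C.o0, c136_1_1, c150_2_0, c2_0_0]
                            · linarith only [C.f23_5, C.o1, c150_3_0, s2]
                            · rcases c0_11_23_33_k2_k_p13_23A C with c152_0_0 | c152_1_0 | c152_2_0 | c152_3_0 | c152_4_0 | c152_5_0
                              · linarith only [c152_0_0, c1_0_0]
                              · linarith only [c152_1_0, e2]
                              · linarith only [c152_2_0, e1]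
                              · rcases c0_11_23_33_k2_k_p13_33A C with c154_0_0 | c154_1_0 | c154_2_0 | c154_3_0 | c154_4_0 | c154_5_0
                                · linarith only [c154_0_0, c1_0_0]
                                · linarith only [c154_1_0, e2]
                                · linarith only [c154_2_0, e3]
                                · linarith only [C.f11_0, c0_0_1, c152_3_0, c154_3_0, s1]
                                · linarith only [C.f11_0, C.f33_1, C.o2, c0_0_1, c115_1_1, c148_1_1, c152_3_0, c154_4_0, c3_1_1, s1]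
                                · rcases c0_11_23_33_k2_k_p11_13B C with c155_0_0 | c155_1_0 | c155_2_0 | c155_3_0 | c155_4_0 | c155_5_0
                                  · linarith only [c155_0_0, e0]
                                  · linarith only [c155_1_0, c1_0_0]
                                  · linarith only [c155_2_0, e2]
                                  · rcases c0_11_23_33_k2_k_p11_23B C with c158_0_0 | c158_1_0 | c158_2_0 | c158_3_0 | c158_4_0 | c158_5_0
                                    · linarith only [c158_0_0, e0]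
                                    · linarith only [c158_1_0, e1]
                                    · linarith only [c158_2_0, e2]
                                    · linarith only [C.f11_0, C.o0, c115_1_1, c158_3_0, c2_0_0]
                                    · linarith only [C.f11_0, C.f11_1, C.f13_3, C.f33_4, C.o1, C.o2, c125_1_1, c155_3_0, c158_4_0, c3_1_1, s2]
                                    · linarith only [C.f11_0, C.f11_1, C.f11_2, C.f13_3, C.f23_5, C.f23_8, C.f33_1, C.f33_7, c0_0_1, c115_1_1, c126_1_1, c152_3_0, c155_3_0, c158_5_0, c3_1_1, s1, s3]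
                                  · linarith only [C.f23_5, C.f33_4, C.o1, C.o2, c155_4_0, c3_1_1, s2]
                                  · linarith only [C.f23_9, c154_5_0, c155_5_0, c98_1_1, s3]
                              · linarith only [C.b5, C.f11_2, C.f33_4, c149_1_1, c150_4_0, c152_4_0, c3_1_1, s2]
                              · linarith only [C.o2, c126_1_1, c152_5_0, c98_1_1]
                  · linarith only [C.a4, C.f23_5, C.o2, c125_2_1]
                · linarith only [C.a4, C.f23_1, C.o2, c115_2_1]
      · rcases c0_11_23_33_k2_k_f13_5 C with ⟨c159_0_0, c159_0_1⟩ | ⟨c159_1_0, c159_1_1⟩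
        · rcases c0_11_23_33_k2_k_f13_8 C with ⟨c160_0_0, c160_0_1⟩ | ⟨c160_1_0, c160_1_1⟩
          · linarith only [C.f13_7, C.o1, c0_0_1, c159_0_1, c160_0_1, c1_0_1, c2_1_1]
          · rcases c0_11_23_33_k2_k_f22_2 C with ⟨c161_0_0, c161_0_1⟩ | ⟨c161_1_0, c161_1_1⟩
            · rcases c0_11_23_33_k2_k_f22_5 C with ⟨c162_0_0, c162_0_1⟩ | ⟨c162_1_0, c162_1_1⟩
              · linarith only [C.a1, C.f22_4, C.o1, c161_0_1, c162_0_1, c1_0_1]
              · rcases c0_11_23_33_k2_k_p11_22B C with c163_0_0 | c163_1_0 | c163_2_0 | c163_3_0 | c163_4_0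
                · linarith only [c163_0_0, e0]
                · linarith only [C.f11_0, C.f22_1, C.f23_0, C.f33_0, C.o0, c161_0_1, c163_1_0, e0, s1]
                · linarith only [C.f11_0, C.f23_0, C.f33_0, C.o0, c161_0_1, c163_2_0, s1]
                · rcases c0_11_23_33_k2_k_f33_2 C with ⟨c164_0_0, c164_0_1⟩ | ⟨c164_1_0, c164_1_1⟩
                  · rcases c0_11_23_33_k2_k_p13_33A C with c168_0_0 | c168_1_0 | c168_2_0 | c168_3_0 | c168_4_0 | c168_5_0
                    · linarith only [c168_0_0, c1_0_0]
                    · linarith only [c168_1_0, e2]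
                    · linarith only [c168_2_0, e3]
                    · linarith only [C.f11_0, C.f23_0, c0_0_1, c164_0_1, c168_3_0, s1]
                    · linarith only [C.f23_5, c0_0_1, c159_0_1, c162_1_1, c163_3_0, c168_4_0, c1_0_1, s2]
                    · rcases c0_11_23_33_k2_k_p22_33A C with c171_0_0 | c171_1_0 | c171_2_0 | c171_3_0 | c171_4_0
                      · linarith only [C.a1, C.f22_1, c161_0_1, c171_0_0, c1_0_0]
                      · linarith only [c171_1_0, e3]
                      · linarith only [C.a1, c161_0_1, c164_0_1, c171_2_0]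
                      · rcases c0_11_23_33_k2_k_f23_3 C with ⟨c172_0_0, c172_0_1⟩ | ⟨c172_1_0, c172_1_1⟩ | ⟨c172_2_0, c172_2_1⟩
                        · rcases c0_11_23_33_k2_k_p11_23B C with c177_0_0 | c177_1_0 | c177_2_0 | c177_3_0 | c177_4_0 | c177_5_0
                          · linarith only [c177_0_0, e0]
                          · linarith only [c177_1_0, e1]
                          · linarith only [c177_2_0, e2]
                          · linarith only [C.f11_0, C.f33_0, C.o0, c172_0_1, c177_3_0, s1]
                          · linarith only [c162_1_1, c171_3_0, c177_4_0, s2]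
                          · linarith only [c160_1_1, c168_5_0, c177_5_0, s3]
                        · linarith only [C.f22_1, C.f23_0, C.f23_5, c161_0_1, c162_1_1, c163_3_0, c171_3_0, c172_1_1, s2]
                        · linarith only [C.f22_1, C.f23_0, C.f23_5, C.f33_4, C.o2, c161_0_1, c162_1_1, c163_3_0, c171_3_0, c172_2_1, s2]
                      · linarith only [C.f11_2, C.f22_6, C.f23_9, c162_1_1, c163_3_0, c171_4_0, s3]
                  · linarith only [C.f22_1, C.f23_5, C.f33_0, C.f33_4, C.o1, c161_0_1, c162_1_1, c163_3_0, c164_1_1, s2]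
                · linarith only [C.b3, C.f11_0, C.f11_1, C.f11_2, C.f22_6, c162_1_1, c163_4_0, c2_1_1]
            · rcases c0_11_23_33_k2_k_f22_5 C with ⟨c178_0_0, c178_0_1⟩ | ⟨c178_1_0, c178_1_1⟩
              · linarith only [C.a2, C.f22_4, c161_1_1, c178_0_1, c1_0_1]
              · rcases c0_11_23_33_k2_k_f23_3 C with ⟨c179_0_0, c179_0_1⟩ | ⟨c179_1_0, c179_1_1⟩ | ⟨c179_2_0, c179_2_1⟩
                · rcases c0_11_23_33_k2_k_f23_7 C with ⟨c180_0_0, c180_0_1⟩ | ⟨c180_1_0, c180_1_1⟩ | ⟨c180_2_0, c180_2_1⟩
                  · linarith only [C.a1, C.f23_5, c179_0_1, c180_0_1, c1_0_1]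
                  · rcases c0_11_23_33_k2_k_f23_10 C with ⟨c181_0_0, c181_0_1⟩ | ⟨c181_1_0, c181_1_1⟩
                    · linarith only [C.f23_9, C.o1, c180_1_1, c181_0_1, c2_1_1]
                    · rcases c0_11_23_33_k2_k_p13_23A C with c182_0_0 | c182_1_0 | c182_2_0 | c182_3_0 | c182_4_0 | c182_5_0
                      · linarith only [c182_0_0, c1_0_0]
                      · linarith only [c182_1_0, e2]
                      · linarith only [c182_2_0, e1]
                      · linarith only [C.f11_0, C.f33_0, c0_0_1, c179_0_1, c182_3_0, s1]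
                      · rcases c0_11_23_33_k2_k_tmpp C with c185_0_0 | c185_1_0 | c185_2_0 | c185_3_0
                        · linarith only [C.f11_0, C.f23_0, C.f33_0, c185_0_0, s1]
                        · linarith only [C.f11_0, C.f23_1, C.f33_0, c179_0_1, c185_1_0, s1]
                        · linarith only [c185_2_0, e0]
                        · rcases c0_11_23_33_k2_k_f33_2 C with ⟨c186_0_0, c186_0_1⟩ | ⟨c186_1_0, c186_1_1⟩
                          · rcases c0_11_23_33_k2_k_p11_22B C with c187_0_0 | c187_1_0 | c187_2_0 | c187_3_0 | c187_4_0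
                            · linarith only [c187_0_0, e0]
                            · linarith only [c187_1_0, c2_1_0, e0]
                            · linarith only [C.f11_0, C.f23_1, C.f33_0, c161_1_1, c179_0_1, c185_3_0, c187_2_0, c1_0_1, s1]
                            · rcases c0_11_23_33_k2_k_p13_33A C with c189_0_0 | c189_1_0 | c189_2_0 | c189_3_0 | c189_4_0 | c189_5_0
                              · linarith only [c189_0_0, c1_0_0]
                              · linarith only [c189_1_0, e2]
                              · linarith only [c189_2_0, e3]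
                              · linarith only [C.f11_0, C.f23_0, c0_0_1, c186_0_1, c189_3_0, s1]
                              · linarith only [C.f23_5, c0_0_1, c159_0_1, c178_1_1, c187_3_0, c189_4_0, c1_0_1, s2]
                              · rcases c0_11_23_33_k2_k_p11_23B C with c190_0_0 | c190_1_0 | c190_2_0 | c190_3_0 | c190_4_0 | c190_5_0
                                · linarith only [c190_0_0, e0]
                                · linarith only [c190_1_0, e1]
                                · linarith only [c190_2_0, e2]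
                                · linarith only [C.f11_0, C.f33_0, C.o0, c179_0_1, c190_3_0, s1]
                                · rcases c0_11_23_33_k2_k_p13_22B C with c192_0_0 | c192_1_0 | c192_2_0 | c192_3_0 | c192_4_0 | c192_5_0
                                  · linarith only [c192_0_0, c1_0_0]
                                  · linarith only [c192_1_0, e2]
                                  · linarith only [C.f11_1, C.f23_1, C.f33_0, C.o0, c179_0_1, c180_1_1, c190_4_0, c192_2_0, c1_0_1, e0, s1]
                                  · linarith only [C.f11_1, C.f23_1, C.f33_0, C.o0, c0_0_1, c161_1_1, c179_0_1, c180_1_1, c190_4_0, c192_3_0, c1_0_1, s1]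
                                  · rcases c0_11_23_33_k2_k_p22_33A C with c197_0_0 | c197_1_0 | c197_2_0 | c197_3_0 | c197_4_0
                                    · linarith only [C.f11_0, C.f11_1, C.f23_1, C.f23_5, C.f33_0, C.f33_3, C.o0, c0_0_1, c159_0_1, c178_1_1, c179_0_1, c192_4_0, c197_0_0, e0, s2]
                                    · linarith only [c197_1_0, e3]
                                    · linarith only [C.f11_0, C.f11_1, C.f23_1, C.f23_5, C.f33_0, C.f33_3, C.o0, C.o1, c0_0_1, c159_0_1, c161_1_1, c178_1_1, c179_0_1, c192_4_0, c197_2_0, s2]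
                                    · linarith only [C.f11_0, C.f11_1, C.f23_5, C.o0, c0_0_1, c159_0_1, c178_1_1, c192_4_0, c197_3_0, c1_0_1, s2]
                                    · linarith only [C.f11_0, C.f11_1, C.f11_2, C.f22_6, C.f23_9, C.o0, c0_0_1, c159_0_1, c178_1_1, c192_4_0, c197_4_0, s3]
                                  · linarith only [C.f11_0, C.f11_1, C.f11_2, C.f22_6, C.f23_9, C.o0, c0_0_1, c159_0_1, c160_1_1, c178_1_1, c180_1_1, c182_4_0, c189_5_0, c190_4_0, c192_5_0, s3]
                                · linarith only [c160_1_1, c189_5_0, c190_5_0, s3]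
                            · linarith only [C.b3, C.f11_0, C.f11_1, C.f11_2, C.f22_6, c178_1_1, c187_4_0, c2_1_1]
                          · linarith only [C.f11_0, C.f11_1, C.f23_1, C.f23_5, C.f33_0, C.f33_4, c179_0_1, c185_3_0, c186_1_1, s2]
                      · linarith only [C.o2, c160_1_1, c181_1_1, c182_5_0]
                  · linarith only [C.f13_4, C.f23_5, c0_0_1, c159_0_1, c180_2_1, c1_0_1]
                · rcases c0_11_23_33_k2_k_f23_7 C with ⟨c198_0_0, c198_0_1⟩ | ⟨c198_1_0, c198_1_1⟩ | ⟨c198_2_0, c198_2_1⟩
                  · linarith only [C.a2, C.f23_5, c179_1_1, c198_0_1, c1_0_1]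
                  · rcases c0_11_23_33_k2_k_f23_10 C with ⟨c199_0_0, c199_0_1⟩ | ⟨c199_1_0, c199_1_1⟩
                    · linarith only [C.f23_9, C.o1, c198_1_1, c199_0_1, c2_1_1]
                    · rcases c0_11_23_33_k2_k_f33_2 C with ⟨c200_0_0, c200_0_1⟩ | ⟨c200_1_0, c200_1_1⟩
                      · rcases c0_11_23_33_k2_k_p11_33B C with c201_0_0 | c201_1_0 | c201_2_0 | c201_3_0 | c201_4_0
                        · linarith only [c201_0_0, e0]
                        · linarith only [c201_1_0, e3]
                        · linarith only [C.a1, C.f11_0, C.o0, c200_0_1, c201_2_0]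
                        · linarith only [C.f23_5, C.o1, c201_3_0, s2]
                        · rcases c0_11_23_33_k2_k_f33_8 C with ⟨c202_0_0, c202_0_1⟩ | ⟨c202_1_0, c202_1_1⟩
                          · linarith only [C.f11_2, C.f23_5, C.o1, c201_4_0, c202_0_1, c2_1_1, s2]
                          · rcases c0_11_23_33_k2_k_f33_5 C with ⟨c204_0_0, c204_0_1⟩ | ⟨c204_1_0, c204_1_1⟩
                            · rcases c0_11_23_33_k2_k_p23_33A C with c207_0_0 | c207_1_0 | c207_2_0 | c207_3_0 | c207_4_0 | c207_5_0
                              · linarith only [c207_0_0, e1]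
                              · linarith only [c207_1_0, e2]
                              · linarith only [c207_2_0, e3]
                              · linarith only [C.f11_0, c207_3_0, s1]
                              · linarith only [C.a1, c198_1_1, c1_0_1, c200_0_1, c204_0_1, c207_4_0]
                              · rcases c0_11_23_33_k2_k_tzmp C with c209_0_0 | c209_1_0 | c209_2_0 | c209_3_0
                                · linarith only [c1_0_1, c209_0_0]
                                · linarith only [C.a1, C.f33_4, c1_0_1, c200_0_1, c204_0_1, c209_1_0]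
                                · linarith only [c209_2_0, c2_1_0]
                                · rcases c0_11_23_33_k2_k_p11_13B C with c210_0_0 | c210_1_0 | c210_2_0 | c210_3_0 | c210_4_0 | c210_5_0
                                  · linarith only [c210_0_0, e0]
                                  · linarith only [c1_0_0, c210_1_0]
                                  · linarith only [c210_2_0, e2]
                                  · rcases c0_11_23_33_k2_k_p11_33A C with c211_0_0 | c211_1_0 | c211_2_0 | c211_3_0 | c211_4_0
                                    · linarith only [c211_0_0, e0]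
                                    · linarith only [c211_1_0, e3]
                                    · rcases c0_11_23_33_k2_k_p11_23B C with c212_0_0 | c212_1_0 | c212_2_0 | c212_3_0 | c212_4_0 | c212_5_0
                                      · linarith only [c212_0_0, e0]
                                      · linarith only [c212_1_0, e1]
                                      · linarith only [c212_2_0, e2]
                                      · linarith only [C.f11_0, c211_2_0, c212_3_0, s1]
                                      · rcases c0_11_23_33_k2_k_p22_33A C with c220_0_0 | c220_1_0 | c220_2_0 | c220_3_0 | c220_4_0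
                                        · linarith only [C.f11_2, C.f23_1, c198_1_1, c207_5_0, c209_3_0, c211_2_0, c212_4_0, c220_0_0, e0, s1, s3]
                                        · linarith only [c220_1_0, e3]
                                        · linarith only [C.f11_0, C.f11_2, C.f23_1, c161_1_1, c198_1_1, c207_5_0, c209_3_0, c212_4_0, c220_2_0, s1, s3]
                                        · linarith only [C.a1, C.f11_1, C.f11_2, c178_1_1, c198_1_1, c200_0_1, c204_0_1, c207_5_0, c209_3_0, c211_2_0, c212_4_0, c220_3_0, s3]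
                                        · linarith only [C.f11_2, C.f22_6, C.f23_9, C.o1, c178_1_1, c198_1_1, c212_4_0, c220_4_0, s3]
                                      · linarith only [c199_1_1, c207_5_0, c212_5_0, s3]
                                    · linarith only [C.a1, C.f11_0, C.f11_1, c0_0_1, c1_0_1, c200_0_1, c204_0_1, c210_3_0, c211_3_0]
                                    · linarith only [C.f23_9, c211_4_0, s3]
                                  · linarith only [C.f11_0, C.f11_1, C.f11_2, C.o0, c0_0_1, c159_0_1, c207_5_0, c209_3_0, c210_4_0, s3]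
                                  · linarith only [c160_1_1, c207_5_0, c210_5_0, s3]
                            · rcases c0_11_23_33_k2_k_p11_22B C with c223_0_0 | c223_1_0 | c223_2_0 | c223_3_0 | c223_4_0
                              · linarith only [c223_0_0, e0]
                              · linarith only [c223_1_0, c2_1_0, e0]
                              · rcases c0_11_23_33_k2_k_p11_33A C with c227_0_0 | c227_1_0 | c227_2_0 | c227_3_0 | c227_4_0
                                · linarith only [c227_0_0, e0]
                                · linarith only [c227_1_0, e3]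
                                · rcases c0_11_23_33_k2_k_tpzm C with c230_0_0 | c230_1_0 | c230_2_0 | c230_3_0 | c230_4_0 | c230_5_0 | c230_6_0 | ⟨c230_7_0, c230_7_1⟩
                                  · linarith only [c1_0_0, c230_0_0]
                                  · linarith only [c1_0_1, c230_1_0]
                                  · linarith only [C.a2, C.f11_0, C.o0, C.o2, c161_1_1, c223_2_0, c230_2_0, c2_1_1]
                                  · linarith only [C.a1, C.o0, c230_3_0]
                                  · linarith only [c230_4_0, c2_1_0]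
                                  · linarith only [C.a2, C.f11_0, C.f11_2, C.f23_5, C.f33_4, C.o0, c161_1_1, c201_4_0, c202_1_1, c223_2_0, c230_5_0, c2_1_1, s2]
                                  · rcases c0_11_23_33_k2_k_p11_13B C with c231_0_0 | c231_1_0 | c231_2_0 | c231_3_0 | c231_4_0 | c231_5_0
                                    · linarith only [c231_0_0, e0]
                                    · linarith only [c1_0_0, c231_1_0]
                                    · linarith only [c231_2_0, e2]
                                    · rcases c0_11_23_33_k2_k_p11_23B C with c232_0_0 | c232_1_0 | c232_2_0 | c232_3_0 | c232_4_0 | c232_5_0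
                                      · linarith only [c232_0_0, e0]
                                      · linarith only [c232_1_0, e1]
                                      · linarith only [c232_2_0, e2]
                                      · linarith only [C.f11_0, c227_2_0, c232_3_0, s1]
                                      · linarith only [C.f11_0, C.f11_1, C.f23_1, c0_0_1, c161_1_1, c198_1_1, c1_0_1, c223_2_0, c227_2_0, c231_3_0, c232_4_0, s1]
                                      · linarith only [C.f33_7, c230_6_0, c232_5_0, s3]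
                                    · linarith only [C.a2, C.f11_0, C.f11_1, C.f23_1, c0_0_1, c159_0_1, c161_1_1, c1_0_1, c223_2_0, c227_2_0, c231_4_0, s1]
                                    · linarith only [C.f23_9, C.f33_7, c160_1_1, c230_6_0, c231_5_0, s3]
                                  · linarith only [C.f11_0, C.f23_1, c161_1_1, c223_2_0, c227_2_0, c230_7_1, s1]
                                · rcases c0_11_23_33_k2_k_p11_23B C with c233_0_0 | c233_1_0 | c233_2_0 | c233_3_0 | c233_4_0 | c233_5_0
                                  · linarith only [c233_0_0, e0]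
                                  · linarith only [c233_1_0, e1]
                                  · linarith only [c233_2_0, e2]
                                  · linarith only [C.f11_0, C.f11_1, C.f33_1, C.o0, c179_1_1, c1_0_1, c204_1_1, c227_3_0, c233_3_0, s1]
                                  · linarith only [C.a2, C.f11_0, C.f11_1, c161_1_1, c1_0_1, c223_2_0, c227_3_0, c233_4_0, s2]
                                  · rcases c0_11_23_33_k2_k_p11_13B C with c234_0_0 | c234_1_0 | c234_2_0 | c234_3_0 | c234_4_0 | c234_5_0
                                    · linarith only [c234_0_0, e0]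
                                    · linarith only [c1_0_0, c234_1_0]
                                    · linarith only [c234_2_0, e2]
                                    · linarith only [C.f11_0, C.f11_1, C.f11_2, C.f23_5, c0_0_1, c199_1_1, c1_0_1, c227_3_0, c233_5_0, c234_3_0, c2_1_1, s2]
                                    · linarith only [C.a2, C.f11_0, C.f11_1, C.f23_5, c0_0_1, c159_0_1, c161_1_1, c1_0_1, c223_2_0, c227_3_0, c234_4_0, s2]
                                    · rcases c0_11_23_33_k2_k_p13_33A C with c237_0_0 | c237_1_0 | c237_2_0 | c237_3_0 | c237_4_0 | c237_5_0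
                                      · linarith only [c1_0_0, c237_0_0]
                                      · linarith only [c237_1_0, e2]
                                      · linarith only [c237_2_0, e3]
                                      · linarith only [C.f11_0, C.f23_0, c0_0_1, c200_0_1, c237_3_0, s1]
                                      · linarith only [C.f11_2, C.f23_5, c0_0_1, c159_0_1, c160_1_1, c1_0_1, c234_5_0, c237_4_0, c2_1_1, s2]
                                      · linarith only [C.f23_9, c160_1_1, c234_5_0, c237_5_0, s3]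
                                · linarith only [C.f23_9, c227_4_0, s3]
                              · rcases c0_11_23_33_k2_k_p23_33A C with c240_0_0 | c240_1_0 | c240_2_0 | c240_3_0 | c240_4_0 | c240_5_0
                                · linarith only [c240_0_0, e1]
                                · linarith only [c240_1_0, e2]
                                · linarith only [c240_2_0, e3]
                                · linarith only [C.f11_0, c240_3_0, s1]
                                · linarith only [c178_1_1, c223_3_0, c240_4_0, s2]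
                                · rcases c0_11_23_33_k2_k_tzmp C with c242_0_0 | c242_1_0 | c242_2_0 | c242_3_0
                                  · linarith only [c1_0_1, c242_0_0]
                                  · linarith only [C.f23_5, C.f33_4, c178_1_1, c223_3_0, c242_1_0, s2]
                                  · linarith only [c242_2_0, c2_1_0]
                                  · rcases c0_11_23_33_k2_k_p11_13B C with c243_0_0 | c243_1_0 | c243_2_0 | c243_3_0 | c243_4_0 | c243_5_0
                                    · linarith only [c243_0_0, e0]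
                                    · linarith only [c1_0_0, c243_1_0]
                                    · linarith only [c243_2_0, e2]
                                    · rcases c0_11_23_33_k2_k_p11_33A C with c244_0_0 | c244_1_0 | c244_2_0 | c244_3_0 | c244_4_0
                                      · linarith only [c244_0_0, e0]
                                      · linarith only [c244_1_0, e3]
                                      · rcases c0_11_23_33_k2_k_p11_23B C with c245_0_0 | c245_1_0 | c245_2_0 | c245_3_0 | c245_4_0 | c245_5_0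
                                        · linarith only [c245_0_0, e0]
                                        · linarith only [c245_1_0, e1]
                                        · linarith only [c245_2_0, e2]
                                        · linarith only [C.f11_0, c244_2_0, c245_3_0, s1]
                                        · rcases c0_11_23_33_k2_k_p22_33A C with c251_0_0 | c251_1_0 | c251_2_0 | c251_3_0 | c251_4_0
                                          · linarith only [C.f11_2, C.f23_1, c198_1_1, c240_5_0, c242_3_0, c244_2_0, c245_4_0, c251_0_0, e0, s1, s3]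
                                          · linarith only [c251_1_0, e3]
                                          · linarith only [C.f11_0, C.f11_2, C.f23_1, c161_1_1, c198_1_1, c240_5_0, c242_3_0, c245_4_0, c251_2_0, s1, s3]
                                          · linarith only [c178_1_1, c245_4_0, c251_3_0, s2]
                                          · linarith only [C.f11_2, C.f22_6, C.f23_9, C.o1, c178_1_1, c198_1_1, c245_4_0, c251_4_0, s3]
                                        · linarith only [c199_1_1, c240_5_0, c245_5_0, s3]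
                                      · linarith only [C.f11_0, C.f11_1, C.f23_5, c0_0_1, c178_1_1, c1_0_1, c223_3_0, c243_3_0, c244_3_0, s2]
                                      · linarith only [C.f11_0, C.f11_1, C.f11_2, C.o1, C.o2, c0_0_1, c1_0_1, c202_1_1, c243_3_0, c244_4_0, c2_1_1]
                                    · linarith only [C.f11_0, C.f11_1, C.f11_2, C.o0, c0_0_1, c159_0_1, c240_5_0, c242_3_0, c243_4_0, s3]
                                    · linarith only [c160_1_1, c240_5_0, c243_5_0, s3]
                              · linarith only [C.b3, C.f11_0, C.f11_1, C.f11_2, C.f22_6, c178_1_1, c223_4_0, c2_1_1]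
                      · rcases c0_11_23_33_k2_k_f33_5 C with ⟨c252_0_0, c252_0_1⟩ | ⟨c252_1_0, c252_1_1⟩
                        · linarith only [C.a2, C.f33_4, c1_0_1, c200_1_1, c252_0_1]
                        · rcases c0_11_23_33_k2_k_f33_8 C with ⟨c253_0_0, c253_0_1⟩ | ⟨c253_1_0, c253_1_1⟩
                          · linarith only [C.f13_4, C.f33_7, C.o1, c0_0_1, c159_0_1, c1_0_1, c252_1_1, c253_0_1, c2_1_1]
                          · rcases c0_11_23_33_k2_k_p11_33B C with c254_0_0 | c254_1_0 | c254_2_0 | c254_3_0 | c254_4_0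
                            · linarith only [c254_0_0, e0]
                            · linarith only [c254_1_0, e3]
                            · linarith only [C.a4, C.f11_0, C.f23_1, C.o0, c200_1_1, c254_2_0, s1]
                            · linarith only [C.f23_5, C.o1, c254_3_0, s2]
                            · rcases c0_11_23_33_k2_k_p11_22B C with c258_0_0 | c258_1_0 | c258_2_0 | c258_3_0 | c258_4_0
                              · linarith only [c258_0_0, e0]
                              · linarith only [c258_1_0, c2_1_0, e0]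
                              · rcases c0_11_23_33_k2_k_p11_33A C with c262_0_0 | c262_1_0 | c262_2_0 | c262_3_0 | c262_4_0
                                · linarith only [c262_0_0, e0]
                                · linarith only [c262_1_0, e3]
                                · rcases c0_11_23_33_k2_k_tpzm C with c265_0_0 | c265_1_0 | c265_2_0 | c265_3_0 | c265_4_0 | c265_5_0 | c265_6_0 | ⟨c265_7_0, c265_7_1⟩
                                  · linarith only [c1_0_0, c265_0_0]
                                  · linarith only [c1_0_1, c265_1_0]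
                                  · linarith only [C.a2, C.f11_0, C.o0, C.o2, c161_1_1, c258_2_0, c265_2_0, c2_1_1]
                                  · linarith only [C.a1, C.o0, c265_3_0]
                                  · linarith only [c265_4_0, c2_1_0]
                                  · linarith only [C.a2, C.f11_0, C.f11_2, C.f23_5, C.f33_4, C.o0, c161_1_1, c253_1_1, c254_4_0, c258_2_0, c265_5_0, c2_1_1, s2]
                                  · rcases c0_11_23_33_k2_k_p11_13B C with c266_0_0 | c266_1_0 | c266_2_0 | c266_3_0 | c266_4_0 | c266_5_0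
                                    · linarith only [c266_0_0, e0]
                                    · linarith only [c1_0_0, c266_1_0]
                                    · linarith only [c266_2_0, e2]
                                    · linarith only [C.f11_0, C.f11_2, C.f23_1, C.f23_5, C.f33_4, c0_0_1, c200_1_1, c253_1_1, c254_4_0, c262_2_0, c265_6_0, c266_3_0, c2_1_1, s1, s2]
                                    · linarith only [C.a2, C.f11_0, C.f23_5, C.f33_4, c0_0_1, c159_0_1, c161_1_1, c1_0_1, c200_1_1, c258_2_0, c262_2_0, c266_4_0, s2]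
                                    · linarith only [C.f23_9, C.f33_7, c160_1_1, c265_6_0, c266_5_0, s3]
                                  · linarith only [C.f11_0, C.f23_1, c161_1_1, c258_2_0, c262_2_0, c265_7_1, s1]
                                · rcases c0_11_23_33_k2_k_p11_23B C with c267_0_0 | c267_1_0 | c267_2_0 | c267_3_0 | c267_4_0 | c267_5_0
                                  · linarith only [c267_0_0, e0]
                                  · linarith only [c267_1_0, e1]
                                  · linarith only [c267_2_0, e2]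
                                  · linarith only [C.f11_0, C.f11_1, C.f33_1, C.o0, c179_1_1, c1_0_1, c252_1_1, c262_3_0, c267_3_0, s1]
                                  · linarith only [C.a2, C.f11_0, C.f11_1, c161_1_1, c1_0_1, c258_2_0, c262_3_0, c267_4_0, s2]
                                  · rcases c0_11_23_33_k2_k_p11_13B C with c268_0_0 | c268_1_0 | c268_2_0 | c268_3_0 | c268_4_0 | c268_5_0
                                    · linarith only [c268_0_0, e0]
                                    · linarith only [c1_0_0, c268_1_0]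
                                    · linarith only [c268_2_0, e2]
                                    · linarith only [C.f11_0, C.f11_1, C.f11_2, C.f23_5, c0_0_1, c199_1_1, c1_0_1, c262_3_0, c267_5_0, c268_3_0, c2_1_1, s2]
                                    · linarith only [C.a2, C.f11_0, C.f11_1, C.f23_5, c0_0_1, c159_0_1, c161_1_1, c1_0_1, c258_2_0, c262_3_0, c268_4_0, s2]
                                    · rcases c0_11_23_33_k2_k_p13_33A C with c271_0_0 | c271_1_0 | c271_2_0 | c271_3_0 | c271_4_0 | c271_5_0
                                      · linarith only [c1_0_0, c271_0_0]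
                                      · linarith only [c271_1_0, e2]
                                      · linarith only [c271_2_0, e3]
                                      · linarith only [C.a2, C.f11_2, C.f23_5, C.f33_4, c0_0_1, c160_1_1, c200_1_1, c268_5_0, c271_3_0, c2_1_1, s2]
                                      · linarith only [C.f11_2, C.f23_5, c0_0_1, c159_0_1, c160_1_1, c1_0_1, c268_5_0, c271_4_0, c2_1_1, s2]
                                      · linarith only [C.f23_9, c160_1_1, c268_5_0, c271_5_0, s3]
                                · linarith only [C.f23_9, c262_4_0, s3]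
                              · rcases c0_11_23_33_k2_k_p23_33A C with c274_0_0 | c274_1_0 | c274_2_0 | c274_3_0 | c274_4_0 | c274_5_0
                                · linarith only [c274_0_0, e1]
                                · linarith only [c274_1_0, e2]
                                · linarith only [c274_2_0, e3]
                                · linarith only [C.f11_0, c274_3_0, s1]
                                · linarith only [c178_1_1, c258_3_0, c274_4_0, s2]
                                · rcases c0_11_23_33_k2_k_tzmp C with c276_0_0 | c276_1_0 | c276_2_0 | c276_3_0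
                                  · linarith only [c1_0_1, c276_0_0]
                                  · linarith only [C.f23_5, C.f33_4, c178_1_1, c258_3_0, c276_1_0, s2]
                                  · linarith only [c276_2_0, c2_1_0]
                                  · rcases c0_11_23_33_k2_k_p11_13B C with c277_0_0 | c277_1_0 | c277_2_0 | c277_3_0 | c277_4_0 | c277_5_0
                                    · linarith only [c277_0_0, e0]
                                    · linarith only [c1_0_0, c277_1_0]
                                    · linarith only [c277_2_0, e2]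
                                    · rcases c0_11_23_33_k2_k_p11_33A C with c278_0_0 | c278_1_0 | c278_2_0 | c278_3_0 | c278_4_0
                                      · linarith only [c278_0_0, e0]
                                      · linarith only [c278_1_0, e3]
                                      · linarith only [C.f11_0, C.f23_1, C.f23_5, C.f33_4, c0_0_1, c178_1_1, c200_1_1, c258_3_0, c277_3_0, c278_2_0, s1, s2]
                                      · linarith only [C.f11_0, C.f11_1, C.f23_5, c0_0_1, c178_1_1, c1_0_1, c258_3_0, c277_3_0, c278_3_0, s2]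
                                      · linarith only [C.f11_0, C.f11_1, C.f11_2, C.o1, C.o2, c0_0_1, c1_0_1, c253_1_1, c277_3_0, c278_4_0, c2_1_1]
                                    · linarith only [C.f11_0, C.f11_1, C.f11_2, C.o0, c0_0_1, c159_0_1, c274_5_0, c276_3_0, c277_4_0, s3]
                                    · linarith only [c160_1_1, c274_5_0, c277_5_0, s3]
                              · linarith only [C.b3, C.f11_0, C.f11_1, C.f11_2, C.f22_6, c178_1_1, c258_4_0, c2_1_1]
                  · linarith only [C.f13_4, C.f23_5, c0_0_1, c159_0_1, c198_2_1, c1_0_1]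
                · linarith only [C.f13_4, C.f23_1, c0_0_1, c159_0_1, c179_2_1, c1_0_1]
        · rcases c0_11_23_33_k2_k_f13_8 C with ⟨c279_0_0, c279_0_1⟩ | ⟨c279_1_0, c279_1_1⟩
          · linarith only [C.a4, C.f13_7, C.o1, C.o2, c159_1_1, c279_0_1, c2_1_1]
          · rcases c0_11_23_33_k2_k_f22_2 C with ⟨c280_0_0, c280_0_1⟩ | ⟨c280_1_0, c280_1_1⟩
            · rcases c0_11_23_33_k2_k_f22_5 C with ⟨c281_0_0, c281_0_1⟩ | ⟨c281_1_0, c281_1_1⟩
              · linarith only [C.a1, C.f11_0, C.f11_1, C.f13_0, C.f13_3, C.f22_4, C.f23_5, C.f33_4, C.o0, C.o1, C.o2, c159_1_1, c280_0_1, c281_0_1, s2]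
              · rcases c0_11_23_33_k2_k_p11_22B C with c282_0_0 | c282_1_0 | c282_2_0 | c282_3_0 | c282_4_0
                · linarith only [c282_0_0, e0]
                · linarith only [C.f11_0, C.f22_1, C.f23_0, C.f33_0, c1_0_0, c280_0_1, c282_1_0, s1]
                · linarith only [C.f11_0, C.f23_0, C.f33_0, C.o0, c280_0_1, c282_2_0, s1]
                · rcases c0_11_23_33_k2_k_p11_13B C with c286_0_0 | c286_1_0 | c286_2_0 | c286_3_0 | c286_4_0 | c286_5_0
                  · linarith only [c286_0_0, e0]
                  · linarith only [c1_0_0, c286_1_0]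
                  · linarith only [c286_2_0, e2]
                  · linarith only [C.f11_0, C.f11_1, C.f13_3, C.f23_5, C.f33_4, C.o1, C.o2, c159_1_1, c281_1_1, c282_3_0, c286_3_0, s2]
                  · linarith only [C.f23_5, C.f33_4, C.o1, C.o2, c159_1_1, c286_4_0, s2]
                  · rcases c0_11_23_33_k2_k_p13_22A C with c288_0_0 | c288_1_0 | c288_2_0 | c288_3_0 | c288_4_0 | c288_5_0
                    · linarith only [c1_0_0, c288_0_0]
                    · linarith only [c288_1_0, e2]
                    · linarith only [C.a1, C.f22_1, c1_0_0, c280_0_1, c288_2_0]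
                    · linarith only [C.f11_0, C.f23_0, C.f33_0, c0_0_1, c280_0_1, c288_3_0, s1]
                    · rcases c0_11_23_33_k2_k_f23_3 C with ⟨c289_0_0, c289_0_1⟩ | ⟨c289_1_0, c289_1_1⟩ | ⟨c289_2_0, c289_2_1⟩
                      · rcases c0_11_23_33_k2_k_p13_23A C with c294_0_0 | c294_1_0 | c294_2_0 | c294_3_0 | c294_4_0 | c294_5_0
                        · linarith only [c1_0_0, c294_0_0]
                        · linarith only [c294_1_0, e2]
                        · linarith only [c294_2_0, e1]
                        · linarith only [C.f11_0, C.f33_0, c0_0_1, c289_0_1, c294_3_0, s1]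
                        · linarith only [C.f11_2, C.f23_9, C.f33_4, C.f33_7, c159_1_1, c279_1_1, c286_5_0, c294_4_0, c2_1_1, s2, s3]
                        · linarith only [C.f23_9, C.f33_7, c279_1_1, c286_5_0, c294_5_0, s3]
                      · linarith only [C.f11_2, C.f22_1, C.f23_0, C.f23_5, C.f23_9, C.f33_4, C.f33_7, c159_1_1, c279_1_1, c280_0_1, c281_1_1, c286_5_0, c288_4_0, c289_1_1, c2_1_1, s2, s3]
                      · linarith only [C.f11_2, C.f22_1, C.f23_0, C.f23_5, C.f23_9, C.f33_4, C.f33_7, c159_1_1, c279_1_1, c280_0_1, c281_1_1, c286_5_0, c288_4_0, c289_2_1, c2_1_1, s2, s3]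
                    · linarith only [C.f22_6, C.f23_9, C.f33_7, c279_1_1, c281_1_1, c286_5_0, c288_5_0, c2_1_1, s3]
                · linarith only [C.b3, C.f11_0, C.f11_1, C.f11_2, C.f22_6, c281_1_1, c282_4_0, c2_1_1]
            · rcases c0_11_23_33_k2_k_f22_5 C with ⟨c295_0_0, c295_0_1⟩ | ⟨c295_1_0, c295_1_1⟩
              · linarith only [C.a2, C.f22_4, c1_0_1, c280_1_1, c295_0_1]
              · rcases c0_11_23_33_k2_k_f23_3 C with ⟨c296_0_0, c296_0_1⟩ | ⟨c296_1_0, c296_1_1⟩ | ⟨c296_2_0, c296_2_1⟩
                · rcases c0_11_23_33_k2_k_f23_7 C with ⟨c297_0_0, c297_0_1⟩ | ⟨c297_1_0, c297_1_1⟩ | ⟨c297_2_0, c297_2_1⟩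
                  · linarith only [C.a4, C.f11_0, C.f13_0, C.f13_3, C.f23_5, C.f33_0, C.o2, c159_1_1, c296_0_1, c297_0_1, s1]
                  · rcases c0_11_23_33_k2_k_f23_10 C with ⟨c298_0_0, c298_0_1⟩ | ⟨c298_1_0, c298_1_1⟩
                    · linarith only [C.f23_9, C.o1, c297_1_1, c298_0_1, c2_1_1]
                    · rcases c0_11_23_33_k2_k_p13_23A C with c299_0_0 | c299_1_0 | c299_2_0 | c299_3_0 | c299_4_0 | c299_5_0
                      · linarith only [c1_0_0, c299_0_0]
                      · linarith only [c299_1_0, e2]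
                      · linarith only [c299_2_0, e1]
                      · linarith only [C.f11_0, C.f33_0, c0_0_1, c296_0_1, c299_3_0, s1]
                      · rcases c0_11_23_33_k2_k_p11_23B C with c302_0_0 | c302_1_0 | c302_2_0 | c302_3_0 | c302_4_0 | c302_5_0
                        · linarith only [c302_0_0, e0]
                        · linarith only [c302_1_0, e1]
                        · linarith only [c302_2_0, e2]
                        · linarith only [C.f11_0, C.f33_0, C.o0, c296_0_1, c302_3_0, s1]
                        · linarith only [C.f33_4, C.o1, C.o2, c159_1_1, c297_1_1, c299_4_0, c302_4_0, s2]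
                        · linarith only [C.f11_2, C.f33_4, C.o2, c159_1_1, c298_1_1, c299_4_0, c2_1_1, c302_5_0, s2]
                      · linarith only [C.o2, c279_1_1, c298_1_1, c299_5_0]
                  · linarith only [C.a4, C.f23_5, C.o2, c297_2_1]
                · rcases c0_11_23_33_k2_k_f33_2 C with ⟨c305_0_0, c305_0_1⟩ | ⟨c305_1_0, c305_1_1⟩
                  · rcases c0_11_23_33_k2_k_f33_5 C with ⟨c306_0_0, c306_0_1⟩ | ⟨c306_1_0, c306_1_1⟩
                    · linarith only [C.f11_0, C.f13_0, C.f13_3, C.f23_0, C.f33_4, C.o2, c159_1_1, c305_0_1, c306_0_1, s1]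
                    · rcases c0_11_23_33_k2_k_f33_8 C with ⟨c307_0_0, c307_0_1⟩ | ⟨c307_1_0, c307_1_1⟩
                      · linarith only [C.a4, C.f33_7, C.o1, C.o2, c2_1_1, c306_1_1, c307_0_1]
                      · rcases c0_11_23_33_k2_k_p11_33B C with c308_0_0 | c308_1_0 | c308_2_0 | c308_3_0 | c308_4_0
                        · linarith only [c308_0_0, e0]
                        · linarith only [c308_1_0, e3]
                        · linarith only [C.a1, C.f11_0, C.o0, c305_0_1, c308_2_0]
                        · linarith only [C.f23_5, C.o1, c308_3_0, s2]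
                        · rcases c0_11_23_33_k2_k_p11_22B C with c309_0_0 | c309_1_0 | c309_2_0 | c309_3_0 | c309_4_0
                          · linarith only [c309_0_0, e0]
                          · linarith only [c2_1_0, c309_1_0, e0]
                          · linarith only [C.f11_0, C.f11_1, C.f11_2, C.f13_0, C.f13_3, C.f23_0, C.f33_1, c159_1_1, c280_1_1, c2_1_1, c305_0_1, c307_1_1, c308_4_0, c309_2_0, s1]
                          · rcases c0_11_23_33_k2_k_p11_13B C with c310_0_0 | c310_1_0 | c310_2_0 | c310_3_0 | c310_4_0 | c310_5_0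
                            · linarith only [c310_0_0, e0]
                            · linarith only [c1_0_0, c310_1_0]
                            · linarith only [c310_2_0, e2]
                            · linarith only [C.f11_0, C.f11_1, C.f13_3, C.f23_5, C.f33_4, C.o1, C.o2, c159_1_1, c295_1_1, c309_3_0, c310_3_0, s2]
                            · linarith only [C.f23_5, C.f33_4, C.o1, C.o2, c159_1_1, c310_4_0, s2]
                            · rcases c0_11_23_33_k2_k_p13_33A C with c314_0_0 | c314_1_0 | c314_2_0 | c314_3_0 | c314_4_0 | c314_5_0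
                              · linarith only [c1_0_0, c314_0_0]
                              · linarith only [c314_1_0, e2]
                              · linarith only [c314_2_0, e3]
                              · linarith only [C.f11_0, C.f23_0, c0_0_1, c305_0_1, c314_3_0, s1]
                              · linarith only [C.f11_2, C.f23_5, C.f23_9, C.f33_4, C.f33_7, c159_1_1, c279_1_1, c2_1_1, c310_5_0, c314_4_0, s2, s3]
                              · linarith only [C.f23_9, c279_1_1, c310_5_0, c314_5_0, s3]
                          · linarith only [C.b3, C.f11_0, C.f11_1, C.f11_2, C.f22_6, c295_1_1, c2_1_1, c309_4_0]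
                  · rcases c0_11_23_33_k2_k_f33_5 C with ⟨c315_0_0, c315_0_1⟩ | ⟨c315_1_0, c315_1_1⟩
                    · linarith only [C.a2, C.f33_4, c1_0_1, c305_1_1, c315_0_1]
                    · rcases c0_11_23_33_k2_k_f33_8 C with ⟨c316_0_0, c316_0_1⟩ | ⟨c316_1_0, c316_1_1⟩
                      · linarith only [C.f23_2, C.f33_7, C.o1, c296_1_1, c2_1_1, c315_1_1, c316_0_1]
                      · rcases c0_11_23_33_k2_k_p11_33B C with c317_0_0 | c317_1_0 | c317_2_0 | c317_3_0 | c317_4_0
                        · linarith only [c317_0_0, e0]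
                        · linarith only [c317_1_0, e3]
                        · linarith only [C.a4, C.f11_0, C.f23_1, C.o0, c305_1_1, c317_2_0, s1]
                        · linarith only [C.f23_5, C.o1, c317_3_0, s2]
                        · rcases c0_11_23_33_k2_k_p11_22B C with c318_0_0 | c318_1_0 | c318_2_0 | c318_3_0 | c318_4_0
                          · linarith only [c318_0_0, e0]
                          · linarith only [c2_1_0, c318_1_0, e0]
                          · linarith only [C.a4, C.f11_0, C.f11_1, C.f11_2, C.f13_0, C.f13_3, C.f23_1, C.f33_1, c159_1_1, c280_1_1, c2_1_1, c316_1_1, c317_4_0, c318_2_0, s1]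
                          · rcases c0_11_23_33_k2_k_p11_13B C with c319_0_0 | c319_1_0 | c319_2_0 | c319_3_0 | c319_4_0 | c319_5_0
                            · linarith only [c319_0_0, e0]
                            · linarith only [c1_0_0, c319_1_0]
                            · linarith only [c319_2_0, e2]
                            · linarith only [C.f11_0, C.f11_1, C.f13_3, C.f23_5, C.f33_4, C.o1, C.o2, c159_1_1, c295_1_1, c318_3_0, c319_3_0, s2]
                            · linarith only [C.f23_5, C.f33_4, C.o1, C.o2, c159_1_1, c319_4_0, s2]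
                            · rcases c0_11_23_33_k2_k_p13_33A C with c323_0_0 | c323_1_0 | c323_2_0 | c323_3_0 | c323_4_0 | c323_5_0
                              · linarith only [c1_0_0, c323_0_0]
                              · linarith only [c323_1_0, e2]
                              · linarith only [c323_2_0, e3]
                              · linarith only [C.f11_0, C.f11_2, C.f23_1, C.f23_5, C.f33_4, c0_0_1, c279_1_1, c2_1_1, c305_1_1, c319_5_0, c323_3_0, s1, s2]
                              · linarith only [C.f11_2, C.f23_5, C.f23_9, C.f33_4, C.f33_7, c159_1_1, c279_1_1, c2_1_1, c319_5_0, c323_4_0, s2, s3]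
                              · linarith only [C.f23_9, c279_1_1, c319_5_0, c323_5_0, s3]
                          · linarith only [C.b3, C.f11_0, C.f11_1, C.f11_2, C.f22_6, c295_1_1, c2_1_1, c318_4_0]
                · linarith only [C.a4, C.f23_1, C.o2, c296_2_1]
    · rcases c0_11_23_33_k2_k_t23 C with ⟨c324_0_0, c324_0_1⟩ | ⟨c324_1_0, c324_1_1⟩
      · rcases c0_11_23_33_k2_k_f13_5 C with ⟨c325_0_0, c325_0_1⟩ | ⟨c325_1_0, c325_1_1⟩
        · rcases c0_11_23_33_k2_k_f13_8 C with ⟨c326_0_0, c326_0_1⟩ | ⟨c326_1_0, c326_1_1⟩
          · linarith only [C.b5, C.f13_7, C.o0, c0_0_1, c1_1_1, c325_0_1, c326_0_1]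
          · rcases c0_11_23_33_k2_k_f22_2 C with ⟨c327_0_0, c327_0_1⟩ | ⟨c327_1_0, c327_1_1⟩
            · rcases c0_11_23_33_k2_k_f22_5 C with ⟨c328_0_0, c328_0_1⟩ | ⟨c328_1_0, c328_1_1⟩
              · linarith only [C.a1, C.a3, C.f22_4, C.o1, c327_0_1, c328_0_1]
              · rcases c0_11_23_33_k2_k_p13_22A C with c329_0_0 | c329_1_0 | c329_2_0 | c329_3_0 | c329_4_0 | c329_5_0
                · linarith only [C.o0, c329_0_0, e0]
                · linarith only [c329_1_0, e2]
                · linarith only [C.a1, C.f22_1, C.o0, c327_0_1, c329_2_0, e0]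
                · linarith only [C.f11_0, C.f23_0, C.f33_0, c0_0_1, c327_0_1, c329_3_0, s1]
                · rcases c0_11_23_33_k2_k_f23_3 C with ⟨c330_0_0, c330_0_1⟩ | ⟨c330_1_0, c330_1_1⟩ | ⟨c330_2_0, c330_2_1⟩
                  · rcases c0_11_23_33_k2_k_f23_7 C with ⟨c331_0_0, c331_0_1⟩ | ⟨c331_1_0, c331_1_1⟩ | ⟨c331_2_0, c331_2_1⟩
                    · linarith only [C.a1, C.a3, C.f23_5, c330_0_1, c331_0_1]
                    · rcases c0_11_23_33_k2_k_f23_10 C with ⟨c332_0_0, c332_0_1⟩ | ⟨c332_1_0, c332_1_1⟩
                      · linarith only [C.b5, C.f23_9, C.o0, c0_0_1, c1_1_1, c325_0_1, c328_1_1, c329_4_0, c331_1_1, c332_0_1]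
                      · rcases c0_11_23_33_k2_k_f33_2 C with ⟨c333_0_0, c333_0_1⟩ | ⟨c333_1_0, c333_1_1⟩
                        · rcases c0_11_23_33_k2_k_p11_23B C with c334_0_0 | c334_1_0 | c334_2_0 | c334_3_0 | c334_4_0 | c334_5_0
                          · linarith only [c334_0_0, e0]
                          · linarith only [c334_1_0, e1]
                          · linarith only [c334_2_0, e2]
                          · linarith only [C.f11_0, C.f33_0, C.o0, c330_0_1, c334_3_0, s1]
                          · linarith only [C.f11_0, C.f11_1, C.o0, c0_0_1, c1_1_1, c325_0_1, c328_1_1, c329_4_0, c331_1_1, c334_4_0]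
                          · rcases c0_11_23_33_k2_k_p13_33A C with c340_0_0 | c340_1_0 | c340_2_0 | c340_3_0 | c340_4_0 | c340_5_0
                            · linarith only [C.o0, c340_0_0, e0]
                            · linarith only [c340_1_0, e2]
                            · linarith only [c340_2_0, e3]
                            · linarith only [C.f11_0, C.f23_0, c0_0_1, c333_0_1, c340_3_0, s1]
                            · linarith only [C.a3, C.b5, C.f11_2, C.f23_5, c0_0_1, c325_0_1, c332_1_1, c334_5_0, c340_4_0, s2]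
                            · linarith only [c326_1_1, c334_5_0, c340_5_0, s3]
                        · linarith only [C.a4, C.f11_0, C.f11_1, C.f22_1, C.f23_5, C.f33_0, C.f33_4, C.o0, c0_0_1, c325_0_1, c327_0_1, c328_1_1, c329_4_0, c333_1_1, s2]
                    · linarith only [C.a4, C.f23_5, C.o2, c331_2_1]
                  · linarith only [C.f22_1, C.f23_0, C.o0, c0_0_1, c1_1_1, c325_0_1, c327_0_1, c328_1_1, c329_4_0, c330_1_1]
                  · linarith only [C.f11_0, C.f11_1, C.f13_4, C.f22_1, C.f23_0, C.f23_5, C.f33_4, C.o0, C.o2, c0_0_1, c325_0_1, c327_0_1, c328_1_1, c329_4_0, c330_2_1, s2]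
                · linarith only [C.b5, C.f22_6, C.o2, c326_1_1, c328_1_1, c329_5_0]
            · rcases c0_11_23_33_k2_k_f22_5 C with ⟨c341_0_0, c341_0_1⟩ | ⟨c341_1_0, c341_1_1⟩
              · linarith only [C.a3, C.f22_4, c324_0_0, c327_1_1, c341_0_1]
              · rcases c0_11_23_33_k2_k_f23_3 C with ⟨c342_0_0, c342_0_1⟩ | ⟨c342_1_0, c342_1_1⟩ | ⟨c342_2_0, c342_2_1⟩
                · rcases c0_11_23_33_k2_k_f23_7 C with ⟨c343_0_0, c343_0_1⟩ | ⟨c343_1_0, c343_1_1⟩ | ⟨c343_2_0, c343_2_1⟩
                  · linarith only [C.a3, C.f11_0, C.f23_5, C.f33_0, c342_0_1, c343_0_1, s1]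
                  · rcases c0_11_23_33_k2_k_tmpp C with c345_0_0 | c345_1_0 | c345_2_0 | c345_3_0
                    · linarith only [C.f11_0, C.f23_0, C.f33_0, c345_0_0, s1]
                    · linarith only [C.f11_0, C.f23_1, C.f33_0, c342_0_1, c345_1_0, s1]
                    · linarith only [c345_2_0, e0]
                    · rcases c0_11_23_33_k2_k_f33_2 C with ⟨c346_0_0, c346_0_1⟩ | ⟨c346_1_0, c346_1_1⟩
                      · rcases c0_11_23_33_k2_k_p11_33B C with c348_0_0 | c348_1_0 | c348_2_0 | c348_3_0 | c348_4_0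
                        · linarith only [c348_0_0, e0]
                        · linarith only [c348_1_0, e3]
                        · linarith only [C.f11_0, C.f23_0, C.o0, c346_0_1, c348_2_0, s1]
                        · linarith only [C.f23_5, C.o1, c348_3_0, s2]
                        · rcases c0_11_23_33_k2_k_p13_23A C with c350_0_0 | c350_1_0 | c350_2_0 | c350_3_0 | c350_4_0 | c350_5_0
                          · linarith only [C.o0, c350_0_0, e0]
                          · linarith only [c350_1_0, e2]
                          · linarith only [c350_2_0, e1]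
                          · linarith only [C.f11_0, C.f33_0, c0_0_1, c342_0_1, c350_3_0, s1]
                          · rcases c0_11_23_33_k2_k_p11_23B C with c352_0_0 | c352_1_0 | c352_2_0 | c352_3_0 | c352_4_0 | c352_5_0
                            · linarith only [c352_0_0, e0]
                            · linarith only [c352_1_0, e1]
                            · linarith only [c352_2_0, e2]
                            · linarith only [C.f11_0, C.f33_0, C.o0, c342_0_1, c352_3_0, s1]
                            · linarith only [C.f11_0, C.f11_1, C.o0, c0_0_1, c1_1_1, c325_0_1, c343_1_1, c350_4_0, c352_4_0]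
                            · rcases c0_11_23_33_k2_k_p13_33A C with c353_0_0 | c353_1_0 | c353_2_0 | c353_3_0 | c353_4_0 | c353_5_0
                              · linarith only [C.o0, c353_0_0, e0]
                              · linarith only [c353_1_0, e2]
                              · linarith only [c353_2_0, e3]
                              · linarith only [C.f11_0, C.f23_0, c0_0_1, c346_0_1, c353_3_0, s1]
                              · linarith only [C.a3, C.f11_0, C.f11_1, C.f23_5, c0_0_1, c325_0_1, c345_3_0, c353_4_0, s2]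
                              · linarith only [c326_1_1, c352_5_0, c353_5_0, s3]
                          · linarith only [c326_1_1, c348_4_0, c350_5_0, s3]
                      · linarith only [C.f11_0, C.f11_1, C.f23_1, C.f23_5, C.f33_0, C.f33_4, c342_0_1, c345_3_0, c346_1_1, s2]
                  · linarith only [C.a4, C.f23_5, C.o2, c343_2_1]
                · rcases c0_11_23_33_k2_k_f23_7 C with ⟨c354_0_0, c354_0_1⟩ | ⟨c354_1_0, c354_1_1⟩ | ⟨c354_2_0, c354_2_1⟩
                  · linarith only [C.a3, C.f23_5, c324_0_0, c342_1_1, c354_0_1]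
                  · rcases c0_11_23_33_k2_k_f23_10 C with ⟨c356_0_0, c356_0_1⟩ | ⟨c356_1_0, c356_1_1⟩
                    · rcases c0_11_23_33_k2_k_p13_22A C with c359_0_0 | c359_1_0 | c359_2_0 | c359_3_0 | c359_4_0 | c359_5_0
                      · linarith only [C.o0, c359_0_0, e0]
                      · linarith only [c359_1_0, e2]
                      · linarith only [C.b5, C.f23_9, c354_1_1, c356_0_1, c359_2_0, e1]
                      · rcases c0_11_23_33_k2_k_p13_33A C with c364_0_0 | c364_1_0 | c364_2_0 | c364_3_0 | c364_4_0 | c364_5_0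
                        · linarith only [C.o0, c364_0_0, e0]
                        · linarith only [c364_1_0, e2]
                        · linarith only [c364_2_0, e3]
                        · linarith only [C.b5, C.f11_0, C.f23_1, C.f23_9, c0_0_1, c327_1_1, c354_1_1, c356_0_1, c359_3_0, c364_3_0, s1]
                        · linarith only [C.b5, C.f11_0, C.f11_1, C.f23_9, C.o0, c0_0_1, c325_0_1, c356_0_1, c364_4_0, s2]
                        · rcases c0_11_23_33_k2_k_p11_22B C with c368_0_0 | c368_1_0 | c368_2_0 | c368_3_0 | c368_4_0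
                          · linarith only [c368_0_0, e0]
                          · linarith only [C.b5, C.f23_9, C.o0, c324_0_0, c354_1_1, c356_0_1, c368_1_0, e0]
                          · linarith only [C.b5, C.f11_0, C.f23_9, C.o0, c324_0_0, c327_1_1, c354_1_1, c356_0_1, c368_2_0]
                          · linarith only [C.f11_2, C.f23_9, C.o1, c326_1_1, c341_1_1, c354_1_1, c356_0_1, c364_5_0, c368_3_0, s3]
                          · linarith only [C.b5, C.f22_6, C.f23_9, c326_1_1, c341_1_1, c364_5_0, c368_4_0, s3]
                      · linarith only [C.b5, C.f23_9, C.o0, c0_0_1, c1_1_1, c325_0_1, c341_1_1, c354_1_1, c356_0_1, c359_4_0]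
                      · linarith only [C.b5, C.f22_6, C.o2, c326_1_1, c341_1_1, c359_5_0]
                    · rcases c0_11_23_33_k2_k_f33_2 C with ⟨c369_0_0, c369_0_1⟩ | ⟨c369_1_0, c369_1_1⟩
                      · rcases c0_11_23_33_k2_k_p11_23B C with c389_0_0 | c389_1_0 | c389_2_0 | c389_3_0 | c389_4_0 | c389_5_0
                        · linarith only [c389_0_0, e0]
                        · linarith only [c389_1_0, e1]
                        · linarith only [c389_2_0, e2]
                        · linarith only [C.f11_0, C.o0, c324_0_0, c342_1_1, c389_3_0]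
                        · rcases c0_11_23_33_k2_k_p13_22A C with c391_0_0 | c391_1_0 | c391_2_0 | c391_3_0 | c391_4_0 | c391_5_0
                          · linarith only [C.o0, c391_0_0, e0]
                          · linarith only [c391_1_0, e2]
                          · linarith only [C.f11_0, C.f11_1, C.o0, c1_1_1, c324_0_0, c354_1_1, c389_4_0, c391_2_0, e0]
                          · rcases c0_11_23_33_k2_k_p22_33A C with c397_0_0 | c397_1_0 | c397_2_0 | c397_3_0 | c397_4_0
                            · linarith only [C.a3, C.f11_0, C.f11_1, C.o0, c324_0_0, c354_1_1, c389_4_0, c397_0_0, e0]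
                            · linarith only [c397_1_0, e3]
                            · linarith only [C.f11_1, C.f23_1, c1_1_1, c327_1_1, c354_1_1, c389_4_0, c397_2_0, s1]
                            · linarith only [c341_1_1, c389_4_0, c397_3_0, s2]
                            · linarith only [C.f11_2, C.f22_6, C.f23_9, c0_0_1, c324_0_0, c327_1_1, c341_1_1, c354_1_1, c389_4_0, c391_3_0, c397_4_0, s3]
                          · linarith only [C.f11_0, C.f11_1, C.o0, c0_0_1, c1_1_1, c325_0_1, c341_1_1, c354_1_1, c389_4_0, c391_4_0]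
                          · linarith only [C.f11_2, C.f22_6, C.f23_9, C.f33_7, C.o1, C.o2, c326_1_1, c341_1_1, c354_1_1, c389_4_0, c391_5_0, s3]
                        · rcases c0_11_23_33_k2_k_p13_33A C with c398_0_0 | c398_1_0 | c398_2_0 | c398_3_0 | c398_4_0 | c398_5_0
                          · linarith only [C.o0, c398_0_0, e0]
                          · linarith only [c398_1_0, e2]
                          · linarith only [c398_2_0, e3]
                          · linarith only [C.f11_0, C.f23_0, c0_0_1, c369_0_1, c398_3_0, s1]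
                          · linarith only [C.a3, C.b5, C.f11_2, C.f23_5, c0_0_1, c325_0_1, c356_1_1, c389_5_0, c398_4_0, s2]
                          · linarith only [c326_1_1, c389_5_0, c398_5_0, s3]
                      · rcases c0_11_23_33_k2_k_p11_13B C with c404_0_0 | c404_1_0 | c404_2_0 | c404_3_0 | c404_4_0 | c404_5_0
                        · linarith only [c404_0_0, e0]
                        · linarith only [C.o0, c404_1_0, e0]
                        · linarith only [c404_2_0, e2]
                        · rcases c0_11_23_33_k2_k_p11_23B C with c407_0_0 | c407_1_0 | c407_2_0 | c407_3_0 | c407_4_0 | c407_5_0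
                          · linarith only [c407_0_0, e0]
                          · linarith only [c407_1_0, e1]
                          · linarith only [c407_2_0, e2]
                          · linarith only [C.f11_0, C.o0, c324_0_0, c342_1_1, c407_3_0]
                          · rcases c0_11_23_33_k2_k_p11_33A C with c408_0_0 | c408_1_0 | c408_2_0 | c408_3_0 | c408_4_0
                            · linarith only [c408_0_0, e0]
                            · linarith only [c408_1_0, e3]
                            · linarith only [C.f11_0, C.f33_4, C.o1, c0_0_1, c324_0_0, c369_1_1, c404_3_0, c407_4_0, c408_2_0, s2]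
                            · linarith only [C.a3, C.f11_0, C.f11_1, C.f23_5, c0_0_1, c404_3_0, c407_4_0, c408_3_0, s2]
                            · linarith only [C.f23_9, c408_4_0, s3]
                          · rcases c0_11_23_33_k2_k_p13_33A C with c410_0_0 | c410_1_0 | c410_2_0 | c410_3_0 | c410_4_0 | c410_5_0
                            · linarith only [C.o0, c410_0_0, e0]
                            · linarith only [c410_1_0, e2]
                            · linarith only [c410_2_0, e3]
                            · linarith only [C.b5, C.f11_2, C.f23_5, C.f33_4, c0_0_1, c324_0_0, c356_1_1, c369_1_1, c407_5_0, c410_3_0, s2]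
                            · linarith only [C.a3, C.b5, C.f11_2, C.f23_5, c0_0_1, c325_0_1, c356_1_1, c407_5_0, c410_4_0, s2]
                            · linarith only [c326_1_1, c407_5_0, c410_5_0, s3]
                        · linarith only [C.f11_0, C.f11_1, C.o0, c0_0_1, c1_1_1, c325_0_1, c404_4_0]
                        · rcases c0_11_23_33_k2_k_p13_33A C with c411_0_0 | c411_1_0 | c411_2_0 | c411_3_0 | c411_4_0 | c411_5_0
                          · linarith only [C.o0, c411_0_0, e0]
                          · linarith only [c411_1_0, e2]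
                          · linarith only [c411_2_0, e3]
                          · linarith only [C.b5, C.f11_2, C.f23_5, C.f33_4, c0_0_1, c324_0_0, c326_1_1, c369_1_1, c404_5_0, c411_3_0, s2]
                          · linarith only [C.a3, C.b5, C.f11_2, C.f23_5, c0_0_1, c325_0_1, c326_1_1, c404_5_0, c411_4_0, s2]
                          · linarith only [C.f23_9, c326_1_1, c404_5_0, c411_5_0, s3]
                  · linarith only [C.a4, C.f23_5, C.o2, c354_2_1]
                · linarith only [C.a4, C.f23_1, C.o2, c342_2_1]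
        · rcases c0_11_23_33_k2_k_f13_8 C with ⟨c412_0_0, c412_0_1⟩ | ⟨c412_1_0, c412_1_1⟩
          · linarith only [C.a4, C.b5, C.f13_7, C.o1, C.o2, c325_1_1, c412_0_1]
          · rcases c0_11_23_33_k2_k_f22_2 C with ⟨c413_0_0, c413_0_1⟩ | ⟨c413_1_0, c413_1_1⟩
            · rcases c0_11_23_33_k2_k_f22_5 C with ⟨c414_0_0, c414_0_1⟩ | ⟨c414_1_0, c414_1_1⟩
              · linarith only [C.a1, C.f11_0, C.f11_1, C.f13_0, C.f13_3, C.f22_4, C.f23_5, C.f33_4, C.o0, C.o1, C.o2, c325_1_1, c413_0_1, c414_0_1, s2]
              · rcases c0_11_23_33_k2_k_p13_22A C with c415_0_0 | c415_1_0 | c415_2_0 | c415_3_0 | c415_4_0 | c415_5_0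
                · linarith only [C.o0, c415_0_0, e0]
                · linarith only [c415_1_0, e2]
                · linarith only [C.a0, C.a1, C.f22_1, c413_0_1, c415_2_0]
                · linarith only [C.f11_0, C.f23_0, C.f33_0, c0_0_1, c413_0_1, c415_3_0, s1]
                · rcases c0_11_23_33_k2_k_tmpp C with c416_0_0 | c416_1_0 | c416_2_0 | c416_3_0
                  · linarith only [C.f11_0, C.f23_0, C.f33_0, c416_0_0, s1]
                  · linarith only [C.f11_0, C.f22_1, C.f23_0, C.f33_0, C.o1, c413_0_1, c416_1_0, s1]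
                  · linarith only [c416_2_0, e0]
                  · rcases c0_11_23_33_k2_k_f23_3 C with ⟨c417_0_0, c417_0_1⟩ | ⟨c417_1_0, c417_1_1⟩ | ⟨c417_2_0, c417_2_1⟩
                    · rcases c0_11_23_33_k2_k_p11_13B C with c423_0_0 | c423_1_0 | c423_2_0 | c423_3_0 | c423_4_0 | c423_5_0
                      · linarith only [c423_0_0, e0]
                      · linarith only [C.o0, c423_1_0, e0]
                      · linarith only [c423_2_0, e2]
                      · linarith only [C.f11_1, C.f13_3, C.f23_5, C.f33_4, C.o1, C.o2, c325_1_1, c416_3_0, c423_3_0, s2]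
                      · linarith only [C.f23_5, C.f33_4, C.o1, C.o2, c325_1_1, c423_4_0, s2]
                      · rcases c0_11_23_33_k2_k_p13_23A C with c427_0_0 | c427_1_0 | c427_2_0 | c427_3_0 | c427_4_0 | c427_5_0
                        · linarith only [C.f11_0, C.f11_1, C.f13_0, C.f13_3, C.f23_5, C.f23_9, C.f33_4, C.f33_7, c325_1_1, c412_1_1, c414_1_1, c415_4_0, c416_3_0, c423_5_0, c427_0_0, e0, s2, s3]
                        · linarith only [c427_1_0, e2]
                        · linarith only [c427_2_0, e1]
                        · linarith only [C.f11_0, C.f33_0, c0_0_1, c417_0_1, c427_3_0, s1]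
                        · linarith only [C.f11_0, C.f11_1, C.f23_9, C.f33_4, C.f33_7, c325_1_1, c412_1_1, c416_3_0, c423_5_0, c427_4_0, s2, s3]
                        · linarith only [C.f23_9, C.f33_7, c412_1_1, c423_5_0, c427_5_0, s3]
                    · linarith only [C.f11_0, C.f11_1, C.f22_1, C.f23_0, C.f23_5, C.f33_4, C.o2, c325_1_1, c413_0_1, c414_1_1, c415_4_0, c416_3_0, c417_1_1, s2]
                    · linarith only [C.f11_0, C.f11_1, C.f22_1, C.f23_0, C.f23_5, C.f33_4, C.o2, c325_1_1, c413_0_1, c414_1_1, c415_4_0, c416_3_0, c417_2_1, s2]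
                · linarith only [C.b5, C.f22_6, C.o2, c412_1_1, c414_1_1, c415_5_0]
            · rcases c0_11_23_33_k2_k_f22_5 C with ⟨c428_0_0, c428_0_1⟩ | ⟨c428_1_0, c428_1_1⟩
              · linarith only [C.a3, C.f22_4, c324_0_0, c413_1_1, c428_0_1]
              · rcases c0_11_23_33_k2_k_f23_3 C with ⟨c429_0_0, c429_0_1⟩ | ⟨c429_1_0, c429_1_1⟩ | ⟨c429_2_0, c429_2_1⟩
                · rcases c0_11_23_33_k2_k_tmpp C with c431_0_0 | c431_1_0 | c431_2_0 | c431_3_0
                  · linarith only [C.f11_0, C.f23_0, C.f33_0, c431_0_0, s1]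
                  · linarith only [C.f11_0, C.f23_1, C.f33_0, c429_0_1, c431_1_0, s1]
                  · linarith only [c431_2_0, e0]
                  · rcases c0_11_23_33_k2_k_p11_13B C with c435_0_0 | c435_1_0 | c435_2_0 | c435_3_0 | c435_4_0 | c435_5_0
                    · linarith only [c435_0_0, e0]
                    · linarith only [C.o0, c435_1_0, e0]
                    · linarith only [c435_2_0, e2]
                    · linarith only [C.f11_1, C.f13_3, C.f23_5, C.f33_4, C.o1, C.o2, c325_1_1, c431_3_0, c435_3_0, s2]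
                    · linarith only [C.f23_5, C.f33_4, C.o1, C.o2, c325_1_1, c435_4_0, s2]
                    · rcases c0_11_23_33_k2_k_p13_23A C with c438_0_0 | c438_1_0 | c438_2_0 | c438_3_0 | c438_4_0 | c438_5_0
                      · linarith only [C.o0, c438_0_0, e0]
                      · linarith only [c438_1_0, e2]
                      · linarith only [c438_2_0, e1]
                      · linarith only [C.f11_0, C.f33_0, c0_0_1, c429_0_1, c438_3_0, s1]
                      · linarith only [C.f11_0, C.f11_1, C.f23_9, C.f33_4, C.f33_7, c325_1_1, c412_1_1, c431_3_0, c435_5_0, c438_4_0, s2, s3]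
                      · linarith only [C.f23_9, C.f33_7, c412_1_1, c435_5_0, c438_5_0, s3]
                · rcases c0_11_23_33_k2_k_f23_7 C with ⟨c439_0_0, c439_0_1⟩ | ⟨c439_1_0, c439_1_1⟩ | ⟨c439_2_0, c439_2_1⟩
                  · linarith only [C.a3, C.f23_5, c324_0_0, c429_1_1, c439_0_1]
                  · rcases c0_11_23_33_k2_k_f23_10 C with ⟨c440_0_0, c440_0_1⟩ | ⟨c440_1_0, c440_1_1⟩
                    · rcases c0_11_23_33_k2_k_tpmm C with c444_0_0 | c444_1_0 | c444_2_0 | c444_3_0 | c444_4_0
                      · linarith only [C.o0, c444_0_0, e0]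
                      · linarith only [C.b5, C.f11_0, C.f11_1, C.f13_0, C.f13_3, C.f23_9, C.f33_4, C.o0, C.o2, c325_1_1, c440_0_1, c444_1_0, s2]
                      · linarith only [C.a1, C.o0, c444_2_0]
                      · linarith only [C.b5, C.f23_9, C.o0, c324_0_0, c439_1_1, c440_0_1, c444_3_0]
                      · rcases c0_11_23_33_k2_k_p11_22B C with c449_0_0 | c449_1_0 | c449_2_0 | c449_3_0 | c449_4_0
                        · linarith only [c449_0_0, e0]
                        · linarith only [C.b5, C.f23_9, C.o0, c324_0_0, c439_1_1, c440_0_1, c449_1_0, e0]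
                        · linarith only [C.b5, C.f11_0, C.f23_9, C.o0, c324_0_0, c413_1_1, c439_1_1, c440_0_1, c449_2_0]
                        · linarith only [C.f11_2, C.f23_9, C.f33_7, C.o1, c428_1_1, c439_1_1, c440_0_1, c444_4_0, c449_3_0, s3]
                        · linarith only [C.b5, C.f22_6, C.f23_9, C.f33_7, c428_1_1, c444_4_0, c449_4_0, s3]
                    · rcases c0_11_23_33_k2_k_f33_2 C with ⟨c450_0_0, c450_0_1⟩ | ⟨c450_1_0, c450_1_1⟩
                      · rcases c0_11_23_33_k2_k_f33_5 C with ⟨c451_0_0, c451_0_1⟩ | ⟨c451_1_0, c451_1_1⟩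
                        · linarith only [C.a1, C.f13_0, C.f13_3, C.f33_4, C.o2, c325_1_1, c450_0_1, c451_0_1]
                        · rcases c0_11_23_33_k2_k_f33_8 C with ⟨c452_0_0, c452_0_1⟩ | ⟨c452_1_0, c452_1_1⟩
                          · linarith only [C.a4, C.b5, C.f33_7, C.o1, C.o2, c451_1_1, c452_0_1]
                          · rcases c0_11_23_33_k2_k_p11_33B C with c453_0_0 | c453_1_0 | c453_2_0 | c453_3_0 | c453_4_0
                            · linarith only [c453_0_0, e0]
                            · linarith only [c453_1_0, e3]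
                            · linarith only [C.a1, C.f11_0, C.o0, c450_0_1, c453_2_0]
                            · linarith only [C.f23_5, C.o1, c453_3_0, s2]
                            · rcases c0_11_23_33_k2_k_p13_23A C with c455_0_0 | c455_1_0 | c455_2_0 | c455_3_0 | c455_4_0 | c455_5_0
                              · linarith only [C.o0, c455_0_0, e0]
                              · linarith only [c455_1_0, e2]
                              · linarith only [c455_2_0, e1]
                              · rcases c0_11_23_33_k2_k_p13_33A C with c457_0_0 | c457_1_0 | c457_2_0 | c457_3_0 | c457_4_0 | c457_5_0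
                                · linarith only [C.o0, c457_0_0, e0]
                                · linarith only [c457_1_0, e2]
                                · linarith only [c457_2_0, e3]
                                · linarith only [C.f11_0, c0_0_1, c455_3_0, c457_3_0, s1]
                                · linarith only [C.a4, C.b5, C.f11_2, C.f23_5, c325_1_1, c452_1_1, c453_4_0, c457_4_0, s2]
                                · rcases c0_11_23_33_k2_k_p11_13B C with c458_0_0 | c458_1_0 | c458_2_0 | c458_3_0 | c458_4_0 | c458_5_0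
                                  · linarith only [c458_0_0, e0]
                                  · linarith only [C.o0, c458_1_0, e0]
                                  · linarith only [c458_2_0, e2]
                                  · rcases c0_11_23_33_k2_k_p11_23B C with c461_0_0 | c461_1_0 | c461_2_0 | c461_3_0 | c461_4_0 | c461_5_0
                                    · linarith only [c461_0_0, e0]
                                    · linarith only [c461_1_0, e1]
                                    · linarith only [c461_2_0, e2]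
                                    · linarith only [C.f11_0, C.o0, c324_0_0, c429_1_1, c461_3_0]
                                    · linarith only [C.f11_0, C.f11_1, C.f13_3, C.f33_4, C.o1, C.o2, c325_1_1, c439_1_1, c458_3_0, c461_4_0, s2]
                                    · linarith only [C.f11_0, C.f11_1, C.f11_2, C.f13_3, C.f23_5, C.f23_8, C.f33_1, C.f33_7, c0_0_1, c325_1_1, c429_1_1, c440_1_1, c455_3_0, c458_3_0, c461_5_0, s1, s3]
                                  · linarith only [C.f23_5, C.f33_4, C.o1, C.o2, c325_1_1, c458_4_0, s2]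
                                  · linarith only [C.f23_9, c412_1_1, c457_5_0, c458_5_0, s3]
                              · linarith only [C.b5, C.f11_2, C.f33_4, c325_1_1, c452_1_1, c453_4_0, c455_4_0, s2]
                              · linarith only [C.o2, c412_1_1, c440_1_1, c455_5_0]
                      · rcases c0_11_23_33_k2_k_f33_5 C with ⟨c462_0_0, c462_0_1⟩ | ⟨c462_1_0, c462_1_1⟩
                        · linarith only [C.a3, C.f33_4, c324_0_0, c450_1_1, c462_0_1]
                        · rcases c0_11_23_33_k2_k_f33_8 C with ⟨c463_0_0, c463_0_1⟩ | ⟨c463_1_0, c463_1_1⟩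
                          · linarith only [C.a4, C.b5, C.f33_7, C.o1, C.o2, c462_1_1, c463_0_1]
                          · rcases c0_11_23_33_k2_k_p11_33B C with c464_0_0 | c464_1_0 | c464_2_0 | c464_3_0 | c464_4_0
                            · linarith only [c464_0_0, e0]
                            · linarith only [c464_1_0, e3]
                            · linarith only [C.a4, C.f11_0, C.o0, c324_0_0, c450_1_1, c464_2_0]
                            · linarith only [C.f23_5, C.o1, c464_3_0, s2]
                            · rcases c0_11_23_33_k2_k_p13_23A C with c466_0_0 | c466_1_0 | c466_2_0 | c466_3_0 | c466_4_0 | c466_5_0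
                              · linarith only [C.o0, c466_0_0, e0]
                              · linarith only [c466_1_0, e2]
                              · linarith only [c466_2_0, e1]
                              · rcases c0_11_23_33_k2_k_p13_33A C with c468_0_0 | c468_1_0 | c468_2_0 | c468_3_0 | c468_4_0 | c468_5_0
                                · linarith only [C.o0, c468_0_0, e0]
                                · linarith only [c468_1_0, e2]
                                · linarith only [c468_2_0, e3]
                                · linarith only [C.f11_0, c0_0_1, c466_3_0, c468_3_0, s1]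
                                · linarith only [C.b5, C.f11_0, C.f11_2, C.f23_5, C.f33_1, c0_0_1, c325_1_1, c429_1_1, c463_1_1, c464_4_0, c466_3_0, c468_4_0, s1, s2]
                                · rcases c0_11_23_33_k2_k_p11_13B C with c469_0_0 | c469_1_0 | c469_2_0 | c469_3_0 | c469_4_0 | c469_5_0
                                  · linarith only [c469_0_0, e0]
                                  · linarith only [C.o0, c469_1_0, e0]
                                  · linarith only [c469_2_0, e2]
                                  · rcases c0_11_23_33_k2_k_p11_23B C with c472_0_0 | c472_1_0 | c472_2_0 | c472_3_0 | c472_4_0 | c472_5_0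
                                    · linarith only [c472_0_0, e0]
                                    · linarith only [c472_1_0, e1]
                                    · linarith only [c472_2_0, e2]
                                    · linarith only [C.f11_0, C.o0, c324_0_0, c429_1_1, c472_3_0]
                                    · linarith only [C.f11_0, C.f11_1, C.f13_3, C.f33_4, C.o1, C.o2, c325_1_1, c439_1_1, c469_3_0, c472_4_0, s2]
                                    · linarith only [C.f11_0, C.f11_1, C.f11_2, C.f13_3, C.f23_5, C.f23_8, C.f33_1, C.f33_7, c0_0_1, c325_1_1, c429_1_1, c440_1_1, c466_3_0, c469_3_0, c472_5_0, s1, s3]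
                                  · linarith only [C.f23_5, C.f33_4, C.o1, C.o2, c325_1_1, c469_4_0, s2]
                                  · linarith only [C.f23_9, c412_1_1, c468_5_0, c469_5_0, s3]
                              · linarith only [C.b5, C.f11_2, C.f33_4, c325_1_1, c463_1_1, c464_4_0, c466_4_0, s2]
                              · linarith only [C.o2, c412_1_1, c440_1_1, c466_5_0]
                  · linarith only [C.a4, C.f23_5, C.o2, c439_2_1]
                · linarith only [C.a4, C.f23_1, C.o2, c429_2_1]
      · rcases c0_11_23_33_k2_k_f13_5 C with ⟨c473_0_0, c473_0_1⟩ | ⟨c473_1_0, c473_1_1⟩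
        · rcases c0_11_23_33_k2_k_f13_8 C with ⟨c474_0_0, c474_0_1⟩ | ⟨c474_1_0, c474_1_1⟩
          · linarith only [C.a3, C.f13_7, C.o1, c0_0_1, c324_1_1, c473_0_1, c474_0_1]
          · rcases c0_11_23_33_k2_k_p11_13B C with c475_0_0 | c475_1_0 | c475_2_0 | c475_3_0 | c475_4_0 | c475_5_0
            · linarith only [c475_0_0, e0]
            · linarith only [C.o0, c475_1_0, e0]
            · linarith only [c475_2_0, e2]
            · rcases c0_11_23_33_k2_k_f22_2 C with ⟨c476_0_0, c476_0_1⟩ | ⟨c476_1_0, c476_1_1⟩
              · rcases c0_11_23_33_k2_k_f22_5 C with ⟨c477_0_0, c477_0_1⟩ | ⟨c477_1_0, c477_1_1⟩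
                · linarith only [C.a1, C.f22_4, C.o0, c1_1_1, c476_0_1, c477_0_1]
                · rcases c0_11_23_33_k2_k_p13_22A C with c482_0_0 | c482_1_0 | c482_2_0 | c482_3_0 | c482_4_0 | c482_5_0
                  · linarith only [C.o0, c482_0_0, e0]
                  · linarith only [c482_1_0, e2]
                  · linarith only [C.a1, C.f22_1, C.o0, c476_0_1, c482_2_0, e0]
                  · linarith only [C.f11_0, C.f23_0, C.f33_0, c0_0_1, c476_0_1, c482_3_0, s1]
                  · rcases c0_11_23_33_k2_k_f23_3 C with ⟨c483_0_0, c483_0_1⟩ | ⟨c483_1_0, c483_1_1⟩ | ⟨c483_2_0, c483_2_1⟩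
                    · rcases c0_11_23_33_k2_k_f23_7 C with ⟨c484_0_0, c484_0_1⟩ | ⟨c484_1_0, c484_1_1⟩ | ⟨c484_2_0, c484_2_1⟩
                      · linarith only [C.a3, C.f11_0, C.f23_5, C.f33_0, c483_0_1, c484_0_1, s1]
                      · rcases c0_11_23_33_k2_k_f23_10 C with ⟨c485_0_0, c485_0_1⟩ | ⟨c485_1_0, c485_1_1⟩
                        · linarith only [C.f23_9, C.o1, c324_1_1, c484_1_1, c485_0_1]
                        · rcases c0_11_23_33_k2_k_p11_23B C with c486_0_0 | c486_1_0 | c486_2_0 | c486_3_0 | c486_4_0 | c486_5_0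
                          · linarith only [c486_0_0, e0]
                          · linarith only [c486_1_0, e1]
                          · linarith only [c486_2_0, e2]
                          · linarith only [C.f11_0, C.f33_0, C.o0, c483_0_1, c486_3_0, s1]
                          · linarith only [C.f11_0, C.f11_1, C.o0, c0_0_1, c1_1_1, c473_0_1, c477_1_1, c482_4_0, c484_1_1, c486_4_0]
                          · linarith only [C.f11_0, C.f11_1, C.f11_2, c1_1_1, c324_1_1, c485_1_1, c486_5_0]
                      · linarith only [C.a4, C.f23_5, C.o2, c484_2_1]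
                    · linarith only [C.f22_1, C.f23_0, C.o0, c0_0_1, c1_1_1, c473_0_1, c476_0_1, c477_1_1, c482_4_0, c483_1_1]
                    · linarith only [C.f13_4, C.f22_1, C.f23_0, C.o0, c0_0_1, c1_1_1, c473_0_1, c476_0_1, c483_2_1]
                  · linarith only [C.f22_6, C.o2, c324_1_1, c474_1_1, c477_1_1, c482_5_0]
              · rcases c0_11_23_33_k2_k_f22_5 C with ⟨c487_0_0, c487_0_1⟩ | ⟨c487_1_0, c487_1_1⟩
                · linarith only [C.f22_4, c1_1_1, c324_1_0, c476_1_1, c487_0_1]
                · rcases c0_11_23_33_k2_k_f23_3 C with ⟨c489_0_0, c489_0_1⟩ | ⟨c489_1_0, c489_1_1⟩ | ⟨c489_2_0, c489_2_1⟩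
                  · rcases c0_11_23_33_k2_k_f23_7 C with ⟨c490_0_0, c490_0_1⟩ | ⟨c490_1_0, c490_1_1⟩ | ⟨c490_2_0, c490_2_1⟩
                    · linarith only [C.a3, C.f11_0, C.f23_5, C.f33_0, c489_0_1, c490_0_1, s1]
                    · rcases c0_11_23_33_k2_k_f23_10 C with ⟨c491_0_0, c491_0_1⟩ | ⟨c491_1_0, c491_1_1⟩
                      · linarith only [C.f23_9, C.o1, c324_1_1, c490_1_1, c491_0_1]
                      · rcases c0_11_23_33_k2_k_p11_23B C with c492_0_0 | c492_1_0 | c492_2_0 | c492_3_0 | c492_4_0 | c492_5_0
                        · linarith only [c492_0_0, e0]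
                        · linarith only [c492_1_0, e1]
                        · linarith only [c492_2_0, e2]
                        · linarith only [C.a1, C.f11_0, C.o0, c489_0_1, c492_3_0]
                        · rcases c0_11_23_33_k2_k_p13_22A C with c499_0_0 | c499_1_0 | c499_2_0 | c499_3_0 | c499_4_0 | c499_5_0
                          · linarith only [C.o0, c499_0_0, e0]
                          · linarith only [c499_1_0, e2]
                          · linarith only [C.a3, C.f11_1, C.f23_1, C.f33_0, C.o0, c489_0_1, c490_1_1, c492_4_0, c499_2_0, e0, s1]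
                          · linarith only [C.f11_0, C.f11_1, C.f23_1, C.f33_0, c0_0_1, c1_1_1, c476_1_1, c489_0_1, c490_1_1, c492_4_0, c499_3_0, s1]
                          · linarith only [C.f11_0, C.f11_1, C.o0, c0_0_1, c1_1_1, c473_0_1, c487_1_1, c490_1_1, c492_4_0, c499_4_0]
                          · linarith only [C.f11_2, C.f22_6, C.f23_9, C.f33_7, C.o1, C.o2, c474_1_1, c487_1_1, c490_1_1, c492_4_0, c499_5_0, s3]
                        · linarith only [C.f11_0, C.f11_1, C.f11_2, c1_1_1, c324_1_1, c491_1_1, c492_5_0]
                    · linarith only [C.a4, C.f23_5, C.o2, c490_2_1]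
                  · rcases c0_11_23_33_k2_k_f23_7 C with ⟨c500_0_0, c500_0_1⟩ | ⟨c500_1_0, c500_1_1⟩ | ⟨c500_2_0, c500_2_1⟩
                    · linarith only [C.f23_5, c1_1_1, c324_1_0, c489_1_1, c500_0_1]
                    · rcases c0_11_23_33_k2_k_f23_10 C with ⟨c501_0_0, c501_0_1⟩ | ⟨c501_1_0, c501_1_1⟩
                      · linarith only [C.f23_9, C.o1, c324_1_1, c500_1_1, c501_0_1]
                      · rcases c0_11_23_33_k2_k_f33_2 C with ⟨c503_0_0, c503_0_1⟩ | ⟨c503_1_0, c503_1_1⟩
                        · rcases c0_11_23_33_k2_k_p11_33B C with c504_0_0 | c504_1_0 | c504_2_0 | c504_3_0 | c504_4_0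
                          · linarith only [c504_0_0, e0]
                          · linarith only [c504_1_0, e3]
                          · linarith only [C.a1, C.f11_0, C.o0, c503_0_1, c504_2_0]
                          · linarith only [C.f23_5, C.o1, c504_3_0, s2]
                          · rcases c0_11_23_33_k2_k_f33_8 C with ⟨c505_0_0, c505_0_1⟩ | ⟨c505_1_0, c505_1_1⟩
                            · linarith only [C.f11_2, C.f23_5, C.o1, c324_1_1, c504_4_0, c505_0_1, s2]
                            · rcases c0_11_23_33_k2_k_p22_33A C with c507_0_0 | c507_1_0 | c507_2_0 | c507_3_0 | c507_4_0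
                              · linarith only [c324_1_0, c507_0_0, e0]
                              · linarith only [c507_1_0, e3]
                              · linarith only [C.f11_0, C.f23_0, c0_0_1, c324_1_0, c475_3_0, c476_1_1, c503_0_1, c507_2_0, s1]
                              · rcases c0_11_23_33_k2_k_p11_23B C with c508_0_0 | c508_1_0 | c508_2_0 | c508_3_0 | c508_4_0 | c508_5_0
                                · linarith only [c508_0_0, e0]
                                · linarith only [c508_1_0, e1]
                                · linarith only [c508_2_0, e2]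
                                · rcases c0_11_23_33_k2_k_f33_5 C with ⟨c509_0_0, c509_0_1⟩ | ⟨c509_1_0, c509_1_1⟩
                                  · linarith only [C.a1, C.f11_0, C.f11_1, C.f23_5, C.o0, c324_1_0, c487_1_1, c489_1_1, c503_0_1, c507_3_0, c508_3_0, c509_0_1, s2]
                                  · linarith only [C.f11_0, C.f33_1, C.o0, c324_1_0, c487_1_1, c489_1_1, c507_3_0, c508_3_0, c509_1_1, s1]
                                · linarith only [c487_1_1, c507_3_0, c508_4_0, s2]
                                · linarith only [C.a3, C.f11_0, C.f11_1, C.f11_2, C.f23_5, c0_0_1, c324_1_1, c475_3_0, c487_1_1, c501_1_1, c507_3_0, c508_5_0, s2]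
                              · linarith only [C.f22_6, C.o2, c324_1_1, c487_1_1, c505_1_1, c507_4_0]
                        · rcases c0_11_23_33_k2_k_f33_5 C with ⟨c510_0_0, c510_0_1⟩ | ⟨c510_1_0, c510_1_1⟩
                          · linarith only [C.f33_4, c1_1_1, c324_1_0, c503_1_1, c510_0_1]
                          · rcases c0_11_23_33_k2_k_f33_8 C with ⟨c511_0_0, c511_0_1⟩ | ⟨c511_1_0, c511_1_1⟩
                            · linarith only [C.f11_0, C.f11_1, C.f13_4, C.f23_5, C.f33_7, C.o0, C.o1, C.o2, c0_0_1, c324_1_1, c473_0_1, c510_1_1, c511_0_1, s2]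
                            · rcases c0_11_23_33_k2_k_p22_33A C with c514_0_0 | c514_1_0 | c514_2_0 | c514_3_0 | c514_4_0
                              · linarith only [c324_1_0, c514_0_0, e0]
                              · linarith only [c514_1_0, e3]
                              · linarith only [C.a4, C.f11_0, C.f23_1, c0_0_1, c324_1_0, c475_3_0, c476_1_1, c503_1_1, c514_2_0, s1]
                              · rcases c0_11_23_33_k2_k_p11_23B C with c515_0_0 | c515_1_0 | c515_2_0 | c515_3_0 | c515_4_0 | c515_5_0
                                · linarith only [c515_0_0, e0]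
                                · linarith only [c515_1_0, e1]
                                · linarith only [c515_2_0, e2]
                                · linarith only [C.f11_0, C.f33_1, C.o0, c324_1_0, c487_1_1, c489_1_1, c510_1_1, c514_3_0, c515_3_0, s1]
                                · linarith only [c487_1_1, c514_3_0, c515_4_0, s2]
                                · linarith only [C.a3, C.f11_0, C.f11_1, C.f11_2, C.f23_5, c0_0_1, c324_1_1, c475_3_0, c487_1_1, c501_1_1, c514_3_0, c515_5_0, s2]
                              · linarith only [C.f22_6, C.o2, c324_1_1, c487_1_1, c511_1_1, c514_4_0]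
                    · linarith only [C.a4, C.f23_5, C.o2, c500_2_1]
                  · linarith only [C.a4, C.f23_1, C.o2, c489_2_1]
            · linarith only [C.f11_0, C.f11_1, C.o0, c0_0_1, c1_1_1, c473_0_1, c475_4_0]
            · linarith only [C.f11_0, C.f11_1, C.f11_2, c1_1_1, c324_1_1, c474_1_1, c475_5_0]
        · rcases c0_11_23_33_k2_k_f13_8 C with ⟨c516_0_0, c516_0_1⟩ | ⟨c516_1_0, c516_1_1⟩
          · linarith only [C.a4, C.f13_7, C.o1, C.o2, c324_1_1, c473_1_1, c516_0_1]
          · rcases c0_11_23_33_k2_k_p11_13B C with c517_0_0 | c517_1_0 | c517_2_0 | c517_3_0 | c517_4_0 | c517_5_0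
            · linarith only [c517_0_0, e0]
            · linarith only [C.o0, c517_1_0, e0]
            · linarith only [c517_2_0, e2]
            · rcases c0_11_23_33_k2_k_tmpp C with c518_0_0 | c518_1_0 | c518_2_0 | c518_3_0
              · linarith only [C.f11_0, C.f23_0, C.f33_0, c518_0_0, s1]
              · rcases c0_11_23_33_k2_k_f22_2 C with ⟨c519_0_0, c519_0_1⟩ | ⟨c519_1_0, c519_1_1⟩
                · linarith only [C.f11_0, C.f22_1, C.f23_1, C.f33_0, C.o1, c518_1_0, c519_0_1, s1]
                · rcases c0_11_23_33_k2_k_f22_5 C with ⟨c520_0_0, c520_0_1⟩ | ⟨c520_1_0, c520_1_1⟩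
                  · linarith only [C.f11_0, C.f13_0, C.f13_3, C.f22_4, C.f23_1, C.f33_1, C.o2, c473_1_1, c518_1_0, c519_1_1, c520_0_1, s1]
                  · rcases c0_11_23_33_k2_k_f23_3 C with ⟨c521_0_0, c521_0_1⟩ | ⟨c521_1_0, c521_1_1⟩ | ⟨c521_2_0, c521_2_1⟩
                    · linarith only [C.f11_0, C.f23_1, C.f33_0, c518_1_0, c521_0_1, s1]
                    · rcases c0_11_23_33_k2_k_f23_7 C with ⟨c522_0_0, c522_0_1⟩ | ⟨c522_1_0, c522_1_1⟩ | ⟨c522_2_0, c522_2_1⟩
                      · linarith only [C.f11_0, C.f13_0, C.f13_3, C.f23_5, C.f33_1, C.o2, c473_1_1, c518_1_0, c522_0_1, s1]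
                      · rcases c0_11_23_33_k2_k_f23_10 C with ⟨c523_0_0, c523_0_1⟩ | ⟨c523_1_0, c523_1_1⟩
                        · linarith only [C.f23_9, C.o1, c324_1_1, c522_1_1, c523_0_1]
                        · rcases c0_11_23_33_k2_k_f33_5 C with ⟨c524_0_0, c524_0_1⟩ | ⟨c524_1_0, c524_1_1⟩
                          · linarith only [C.f11_0, C.f13_0, C.f13_3, C.f23_1, C.f33_4, C.o2, c473_1_1, c518_1_0, c524_0_1, s1]
                          · rcases c0_11_23_33_k2_k_f33_8 C with ⟨c525_0_0, c525_0_1⟩ | ⟨c525_1_0, c525_1_1⟩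
                            · linarith only [C.f11_0, C.f23_1, C.f33_1, C.f33_7, C.o1, C.o2, c324_1_1, c518_1_0, c524_1_1, c525_0_1, s1]
                            · rcases c0_11_23_33_k2_k_p11_22B C with c527_0_0 | c527_1_0 | c527_2_0 | c527_3_0 | c527_4_0
                              · linarith only [c527_0_0, e0]
                              · linarith only [c324_1_0, c527_1_0, e0]
                              · rcases c0_11_23_33_k2_k_p11_23B C with c528_0_0 | c528_1_0 | c528_2_0 | c528_3_0 | c528_4_0 | c528_5_0
                                · linarith only [c528_0_0, e0]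
                                · linarith only [c528_1_0, e1]
                                · linarith only [c528_2_0, e2]
                                · rcases c0_11_23_33_k2_k_p11_33A C with c531_0_0 | c531_1_0 | c531_2_0 | c531_3_0 | c531_4_0
                                  · linarith only [c531_0_0, e0]
                                  · linarith only [c531_1_0, e3]
                                  · linarith only [C.f11_0, c528_3_0, c531_2_0, s1]
                                  · linarith only [C.f11_0, C.f11_1, C.f13_0, C.f13_3, C.f33_1, C.o0, C.o2, c473_1_1, c521_1_1, c524_1_1, c528_3_0, c531_3_0, s1]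
                                  · linarith only [C.f11_0, C.f11_1, C.f11_2, C.f13_0, C.f13_3, C.f33_1, C.o0, C.o1, C.o2, c324_1_1, c473_1_1, c521_1_1, c525_1_1, c528_3_0, c531_4_0, s1]
                                · linarith only [C.f11_0, C.f11_1, C.f13_0, C.f13_3, C.f23_1, C.f33_1, C.o0, C.o2, c473_1_1, c519_1_1, c522_1_1, c527_2_0, c528_4_0, s1]
                                · linarith only [C.f11_0, C.f11_1, C.f11_2, C.f13_0, C.f13_3, C.f23_1, C.f33_1, C.o2, c324_1_1, c473_1_1, c518_1_0, c519_1_1, c523_1_1, c527_2_0, c528_5_0, s1]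
                              · linarith only [C.f11_0, C.f11_1, C.f13_3, C.f23_5, C.f33_4, C.o1, C.o2, c473_1_1, c517_3_0, c520_1_1, c527_3_0, s2]
                              · linarith only [C.f11_0, C.f11_1, C.f11_2, C.f13_3, C.f22_6, C.f23_5, C.f33_4, C.o1, C.o2, c324_1_1, c473_1_1, c517_3_0, c520_1_1, c527_4_0, s2]
                      · linarith only [C.f11_0, C.f23_1, C.f23_5, C.f33_1, C.o2, c518_1_0, c522_2_1, s1]
                    · linarith only [C.f11_0, C.f23_1, C.f33_1, C.o2, c518_1_0, c521_2_1, s1]
              · linarith only [c518_2_0, e0]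
              · linarith only [C.f11_1, C.f13_3, C.f23_5, C.f33_4, C.o1, C.o2, c473_1_1, c517_3_0, c518_3_0, s2]
            · linarith only [C.f23_5, C.f33_4, C.o1, C.o2, c473_1_1, c517_4_0, s2]
            · linarith only [C.f11_0, C.f11_1, C.f11_2, c1_1_1, c324_1_1, c516_1_1, c517_5_0]
  · linarith only [C.a2, C.a4, C.f13_0, C.o2, c0_1_1]

end Pool.Agent.Helper24.TQ
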