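import Pool.Agent.Helper89.TQ.Ctx

set_option autoImplicit false
set_option linter.all false
set_option maxHeartbeats 4000000

namespace Pool.Agent.Helper24.TQ

open Pool.Agent.Helper89.TQ

theorem c0_11_23_33_k3_k_t12 {n1 n2 n3 A1 A2 A3 B1 B2 B3 m11_1 m11_2 m11_3 m13_1 m13_2 m13_3 m22_1 m22_2 m22_3 m23_1 m23_2 m23_3 m33_1 m33_2 m33_3 : ℤ} (C : Ctx0 n1 n2 n3 A1 A2 A3 B1 B2 B3 m11_1 m11_2 m11_3 m13_1 m13_2 m13_3 m22_1 m22_2 m22_3 m23_1 m23_2 m23_3 m33_1 m33_2 m33_3) :
    ((-1) * A1 ≤ -1 ∧ (-1) * A1 + 1 * A2 + (-1) * n2 ≤ -1) ∨ ((-1) * B1 ≤ -1 ∧ (-1) * B1 + 1 * B2 + (-1) * n2 ≤ -1) := by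
  have h := C.t12
  clear C
  omega

theorem c0_11_23_33_k3_k_t23 {n1 n2 n3 A1 A2 A3 B1 B2 B3 m11_1 m11_2 m11_3 m13_1 m13_2 m13_3 m22_1 m22_2 m22_3 m23_1 m23_2 m23_3 m33_1 m33_2 m33_3 : ℤ} (C : Ctx0 n1 n2 n3 A1 A2 A3 B1 B2 B3 m11_1 m11_2 m11_3 m13_1 m13_2 m13_3 m22_1 m22_2 m22_3 m23_1 m23_2 m23_3 m33_1 m33_2 m33_3) :
    (1 * A1 + (-1) * A2 ≤ -1 ∧ (-1) * A2 + 1 * A3 + (-1) * n3 ≤ -1) ∨ (1 * B1 + (-1) * B2 ≤ -1 ∧ (-1) * B2 + 1 * B3 + (-1) * n3 ≤ -1) := by
  have h := C.t23
  clear C
  omega

theorem c0_11_23_33_k3_k_f13_2 {n1 n2 n3 A1 A2 A3 B1 B2 B3 m11_1 m11_2 m11_3 m13_1 m13_2 m13_3 m22_1 m22_2 m22_3 m23_1 m23_2 m23_3 m33_1 m33_2 m33_3 : ℤ} (C : Ctx0 n1 n2 n3 A1 A2 A3 B1 B2 B3 m11_1 m11_2 m11_3 m13_1 m13_2 m13_3 m22_1 m22_2 m22_3 m23_1 m23_2 m23_3 m33_1 m33_2 m33_3) :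
    ((-1) * A1 + 1 * m13_1 ≤ -1 ∧ 1 * A1 + (-1) * m13_1 ≤ 1) ∨ ((-1) * B3 + 1 * m13_1 ≤ -1 ∧ 1 * B3 + (-1) * m13_1 ≤ 1) := by
  have h := C.f13_2
  clear C
  omega

theorem c0_11_23_33_k3_k_f13_5 {n1 n2 n3 A1 A2 A3 B1 B2 B3 m11_1 m11_2 m11_3 m13_1 m13_2 m13_3 m22_1 m22_2 m22_3 m23_1 m23_2 m23_3 m33_1 m33_2 m33_3 : ℤ} (C : Ctx0 n1 n2 n3 A1 A2 A3 B1 B2 B3 m11_1 m11_2 m11_3 m13_1 m13_2 m13_3 m22_1 m22_2 m22_3 m23_1 m23_2 m23_3 m33_1 m33_2 m33_3) :
    ((-1) * m13_1 + 1 * m13_2 + (-1) * n2 ≤ 0 ∧ 1 * m13_1 + (-1) * m13_2 + 1 * n2 ≤ 0) ∨ ((-1) * B3 + 1 * m13_2 ≤ -1 ∧ 1 * B3 + (-1) * m13_2 ≤ 1) := by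
  have h := C.f13_5
  clear C
  omega

theorem c0_11_23_33_k3_k_f13_8 {n1 n2 n3 A1 A2 A3 B1 B2 B3 m11_1 m11_2 m11_3 m13_1 m13_2 m13_3 m22_1 m22_2 m22_3 m23_1 m23_2 m23_3 m33_1 m33_2 m33_3 : ℤ} (C : Ctx0 n1 n2 n3 A1 A2 A3 B1 B2 B3 m11_1 m11_2 m11_3 m13_1 m13_2 m13_3 m22_1 m22_2 m22_3 m23_1 m23_2 m23_3 m33_1 m33_2 m33_3) :
    ((-1) * m13_2 + 1 * m13_3 + (-1) * n3 ≤ 0 ∧ 1 * m13_2 + (-1) * m13_3 + 1 * n3 ≤ 0) ∨ ((-1) * B3 + 1 * m13_3 ≤ -1 ∧ 1 * B3 + (-1) * m13_3 ≤ 1) := by
  have h := C.f13_8
  clear C
  omega

theorem c0_11_23_33_k3_k_f22_2 {n1 n2 n3 A1 A2 A3 B1 B2 B3 m11_1 m11_2 m11_3 m13_1 m13_2 m13_3 m22_1 m22_2 m22_3 m23_1 m23_2 m23_3 m33_1 m33_2 m33_3 : ℤ} (C : Ctx0 n1 n2 n3 A1 A2 A3 B1 B2 B3 m11_1 m11_2 m11_3 m13_1 m13_2 m13_3 m22_1 m22_2 m22_3 m23_1 m23_2 m23_3 m33_1 m33_2 m33_3) :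
    (1 * m22_1 + (-1) * n1 ≤ 0 ∧ (-1) * m22_1 + 1 * n1 ≤ 0) ∨ ((-1) * B2 + 1 * m22_1 ≤ -1 ∧ 1 * B2 + (-1) * m22_1 ≤ 1) := by
  have h := C.f22_2
  clear C
  omega

theorem c0_11_23_33_k3_k_f22_5 {n1 n2 n3 A1 A2 A3 B1 B2 B3 m11_1 m11_2 m11_3 m13_1 m13_2 m13_3 m22_1 m22_2 m22_3 m23_1 m23_2 m23_3 m33_1 m33_2 m33_3 : ℤ} (C : Ctx0 n1 n2 n3 A1 A2 A3 B1 B2 B3 m11_1 m11_2 m11_3 m13_1 m13_2 m13_3 m22_1 m22_2 m22_3 m23_1 m23_2 m23_3 m33_1 m33_2 m33_3) :
    ((-1) * m22_1 + 1 * m22_2 + (-1) * n2 ≤ 0 ∧ 1 * m22_1 + (-1) * m22_2 + 1 * n2 ≤ 0) ∨ ((-1) * B2 + 1 * m22_2 ≤ -1 ∧ 1 * B2 + (-1) * m22_2 ≤ 1) := by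
  have h := C.f22_5
  clear C
  omega

theorem c0_11_23_33_k3_k_f23_3 {n1 n2 n3 A1 A2 A3 B1 B2 B3 m11_1 m11_2 m11_3 m13_1 m13_2 m13_3 m22_1 m22_2 m22_3 m23_1 m23_2 m23_3 m33_1 m33_2 m33_3 : ℤ} (C : Ctx0 n1 n2 n3 A1 A2 A3 B1 B2 B3 m11_1 m11_2 m11_3 m13_1 m13_2 m13_3 m22_1 m22_2 m22_3 m23_1 m23_2 m23_3 m33_1 m33_2 m33_3) :
    (1 * m23_1 + (-1) * n1 ≤ 0 ∧ (-1) * m23_1 + 1 * n1 ≤ 0) ∨ ((-1) * A2 + 1 * m23_1 ≤ -1 ∧ 1 * A2 + (-1) * m23_1 ≤ 1) ∨ ((-1) * B3 + 1 * m23_1 ≤ -1 ∧ 1 * B3 + (-1) * m23_1 ≤ 1) := by
  have h := C.f23_3
  clear C
  omega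

theorem c0_11_23_33_k3_k_f23_7 {n1 n2 n3 A1 A2 A3 B1 B2 B3 m11_1 m11_2 m11_3 m13_1 m13_2 m13_3 m22_1 m22_2 m22_3 m23_1 m23_2 m23_3 m33_1 m33_2 m33_3 : ℤ} (C : Ctx0 n1 n2 n3 A1 A2 A3 B1 B2 B3 m11_1 m11_2 m11_3 m13_1 m13_2 m13_3 m22_1 m22_2 m22_3 m23_1 m23_2 m23_3 m33_1 m33_2 m33_3) :
    ((-1) * m23_1 + 1 * m23_2 + (-1) * n2 ≤ 0 ∧ 1 * m23_1 + (-1) * m23_2 + 1 * n2 ≤ 0) ∨ ((-1) * A2 + 1 * m23_2 ≤ -1 ∧ 1 * A2 + (-1) * m23_2 ≤ 1) ∨ ((-1) * B3 + 1 * m23_2 ≤ -1 ∧ 1 * B3 + (-1) * m23_2 ≤ 1) := by
  have h := C.f23_7
  clear C
  omega

theorem c0_11_23_33_k3_k_f23_10 {n1 n2 n3 A1 A2 A3 B1 B2 B3 m11_1 m11_2 m11_3 m13_1 m13_2 m13_3 m22_1 m22_2 m22_3 m23_1 m23_2 m23_3 m33_1 m33_2 m33_3 : ℤ} (C : Ctx0 n1 n2 n3 A1 A2 A3 B1 B2 B3 m11_1 m11_2 m11_3 m13_1 m13_2 m13_3 m22_1 m22_2 m22_3 m23_1 m23_2 m23_3 m33_1 m33_2 m33_3) :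
    ((-1) * m23_2 + 1 * m23_3 + (-1) * n3 ≤ 0 ∧ 1 * m23_2 + (-1) * m23_3 + 1 * n3 ≤ 0) ∨ ((-1) * B3 + 1 * m23_3 ≤ -1 ∧ 1 * B3 + (-1) * m23_3 ≤ 1) := by
  have h := C.f23_10
  clear C
  omega

theorem c0_11_23_33_k3_k_f33_2 {n1 n2 n3 A1 A2 A3 B1 B2 B3 m11_1 m11_2 m11_3 m13_1 m13_2 m13_3 m22_1 m22_2 m22_3 m23_1 m23_2 m23_3 m33_1 m33_2 m33_3 : ℤ} (C : Ctx0 n1 n2 n3 A1 A2 A3 B1 B2 B3 m11_1 m11_2 m11_3 m13_1 m13_2 m13_3 m22_1 m22_2 m22_3 m23_1 m23_2 m23_3 m33_1 m33_2 m33_3) :
    (1 * m33_1 + (-1) * n1 ≤ 0 ∧ (-1) * m33_1 + 1 * n1 ≤ 0) ∨ ((-1) * A3 + 1 * m33_1 ≤ -1 ∧ 1 * A3 + (-1) * m33_1 ≤ 1) := by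
  have h := C.f33_2
  clear C
  omega

theorem c0_11_23_33_k3_k_f33_5 {n1 n2 n3 A1 A2 A3 B1 B2 B3 m11_1 m11_2 m11_3 m13_1 m13_2 m13_3 m22_1 m22_2 m22_3 m23_1 m23_2 m23_3 m33_1 m33_2 m33_3 : ℤ} (C : Ctx0 n1 n2 n3 A1 A2 A3 B1 B2 B3 m11_1 m11_2 m11_3 m13_1 m13_2 m13_3 m22_1 m22_2 m22_3 m23_1 m23_2 m23_3 m33_1 m33_2 m33_3) :
    ((-1) * m33_1 + 1 * m33_2 + (-1) * n2 ≤ 0 ∧ 1 * m33_1 + (-1) * m33_2 + 1 * n2 ≤ 0) ∨ ((-1) * A3 + 1 * m33_2 ≤ -1 ∧ 1 * A3 + (-1) * m33_2 ≤ 1) := by
  have h := C.f33_5
  clear C
  omega

theorem c0_11_23_33_k3_k_f33_8 {n1 n2 n3 A1 A2 A3 B1 B2 B3 m11_1 m11_2 m11_3 m13_1 m13_2 m13_3 m22_1 m22_2 m22_3 m23_1 m23_2 m23_3 m33_1 m33_2 m33_3 : ℤ} (C : Ctx0 n1 n2 n3 A1 A2 A3 B1 B2 B3 m11_1 m11_2 m11_3 m13_1 m13_2 m13_3 m22_1 m22_2 m22_3 m23_1 m23_2 m23_3 m33_1 m33_2 m33_3) :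
    ((-1) * m33_2 + 1 * m33_3 + (-1) * n3 ≤ 0 ∧ 1 * m33_2 + (-1) * m33_3 + 1 * n3 ≤ 0) ∨ ((-1) * A3 + 1 * m33_3 ≤ -1 ∧ 1 * A3 + (-1) * m33_3 ≤ 1) := by
  have h := C.f33_8
  clear C
  omega

theorem c0_11_23_33_k3_k_p11_13B {n1 n2 n3 A1 A2 A3 B1 B2 B3 m11_1 m11_2 m11_3 m13_1 m13_2 m13_3 m22_1 m22_2 m22_3 m23_1 m23_2 m23_3 m33_1 m33_2 m33_3 : ℤ} (C : Ctx0 n1 n2 n3 A1 A2 A3 B1 B2 B3 m11_1 m11_2 m11_3 m13_1 m13_2 m13_3 m22_1 m22_2 m22_3 m23_1 m23_2 m23_3 m33_1 m33_2 m33_3) :
    (1 * B1 ≤ 0) ∨ (1 * A1 ≤ 0) ∨ (1 * B3 ≤ 0) ∨ ((-2) * B1 + 1 * m11_1 + 1 * m13_1 ≤ -1) ∨ ((-2) * B2 + 1 * m11_2 + 1 * m13_2 ≤ -1) ∨ ((-2) * B3 + 1 * m11_3 + 1 * m13_3 ≤ -1) := by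
  have h := C.p11_13B
  clear C
  omega

theorem c0_11_23_33_k3_k_p11_22B {n1 n2 n3 A1 A2 A3 B1 B2 B3 m11_1 m11_2 m11_3 m13_1 m13_2 m13_3 m22_1 m22_2 m22_3 m23_1 m23_2 m23_3 m33_1 m33_2 m33_3 : ℤ} (C : Ctx0 n1 n2 n3 A1 A2 A3 B1 B2 B3 m11_1 m11_2 m11_3 m13_1 m13_2 m13_3 m22_1 m22_2 m22_3 m23_1 m23_2 m23_3 m33_1 m33_2 m33_3) :
    (1 * B1 ≤ 0) ∨ (1 * B2 ≤ 0) ∨ ((-2) * B1 + 1 * m11_1 + 1 * m22_1 ≤ -1) ∨ ((-2) * B2 + 1 * m11_2 + 1 * m22_2 ≤ -1) ∨ ((-2) * B3 + 1 * m11_3 + 1 * m22_3 ≤ -1) := by
  have h := C.p11_22B
  clear C
  omega

theorem c0_11_23_33_k3_k_p11_23B {n1 n2 n3 A1 A2 A3 B1 B2 B3 m11_1 m11_2 m11_3 m13_1 m13_2 m13_3 m22_1 m22_2 m22_3 m23_1 m23_2 m23_3 m33_1 m33_2 m33_3 : ℤ} (C : Ctx0 n1 n2 n3 A1 A2 A3 B1 B2 B3 m11_1 m11_2 m11_3 m13_1 m13_2 m13_3 m22_1 m22_2 m22_3 m23_1 m23_2 m23_3 m33_1 m33_2 m33_3) :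
    (1 * B1 ≤ 0) ∨ (1 * A2 ≤ 0) ∨ (1 * B3 ≤ 0) ∨ ((-2) * B1 + 1 * m11_1 + 1 * m23_1 ≤ -1) ∨ ((-2) * B2 + 1 * m11_2 + 1 * m23_2 ≤ -1) ∨ ((-2) * B3 + 1 * m11_3 + 1 * m23_3 ≤ -1) := by
  have h := C.p11_23B
  clear C
  omega

theorem c0_11_23_33_k3_k_p11_33A {n1 n2 n3 A1 A2 A3 B1 B2 B3 m11_1 m11_2 m11_3 m13_1 m13_2 m13_3 m22_1 m22_2 m22_3 m23_1 m23_2 m23_3 m33_1 m33_2 m33_3 : ℤ} (C : Ctx0 n1 n2 n3 A1 A2 A3 B1 B2 B3 m11_1 m11_2 m11_3 m13_1 m13_2 m13_3 m22_1 m22_2 m22_3 m23_1 m23_2 m23_3 m33_1 m33_2 m33_3) :
    (1 * B1 ≤ 0) ∨ (1 * A3 ≤ 0) ∨ ((-2) * A1 + 1 * m11_1 + 1 * m33_1 ≤ -1) ∨ ((-2) * A2 + 1 * m11_2 + 1 * m33_2 ≤ -1) ∨ ((-2) * A3 + 1 * m11_3 + 1 * m33_3 ≤ -1) := by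
  have h := C.p11_33A
  clear C
  omega

theorem c0_11_23_33_k3_k_p11_33B {n1 n2 n3 A1 A2 A3 B1 B2 B3 m11_1 m11_2 m11_3 m13_1 m13_2 m13_3 m22_1 m22_2 m22_3 m23_1 m23_2 m23_3 m33_1 m33_2 m33_3 : ℤ} (C : Ctx0 n1 n2 n3 A1 A2 A3 B1 B2 B3 m11_1 m11_2 m11_3 m13_1 m13_2 m13_3 m22_1 m22_2 m22_3 m23_1 m23_2 m23_3 m33_1 m33_2 m33_3) :
    (1 * B1 ≤ 0) ∨ (1 * A3 ≤ 0) ∨ ((-2) * B1 + 1 * m11_1 + 1 * m33_1 ≤ -1) ∨ ((-2) * B2 + 1 * m11_2 + 1 * m33_2 ≤ -1) ∨ ((-2) * B3 + 1 * m11_3 + 1 * m33_3 ≤ -1) := by
  have h := C.p11_33B
  clear C
  omega

theorem c0_11_23_33_k3_k_p13_22A {n1 n2 n3 A1 A2 A3 B1 B2 B3 m11_1 m11_2 m11_3 m13_1 m13_2 m13_3 m22_1 m22_2 m22_3 m23_1 m23_2 m23_3 m33_1 m33_2 m33_3 : ℤ} (C : Ctx0 n1 n2 n3 A1 A2 A3 B1 B2 B3 m11_1 m11_2 m11_3 m13_1 m13_2 m13_3 m22_1 m22_2 m22_3 m23_1 m23_2 m23_3 m33_1 m33_2 m33_3) :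
    (1 * A1 ≤ 0) ∨ (1 * B3 ≤ 0) ∨ (1 * B2 ≤ 0) ∨ ((-2) * A1 + 1 * m13_1 + 1 * m22_1 ≤ -1) ∨ ((-2) * A2 + 1 * m13_2 + 1 * m22_2 ≤ -1) ∨ ((-2) * A3 + 1 * m13_3 + 1 * m22_3 ≤ -1) := by
  have h := C.p13_22A
  clear C
  omega

theorem c0_11_23_33_k3_k_p13_23A {n1 n2 n3 A1 A2 A3 B1 B2 B3 m11_1 m11_2 m11_3 m13_1 m13_2 m13_3 m22_1 m22_2 m22_3 m23_1 m23_2 m23_3 m33_1 m33_2 m33_3 : ℤ} (C : Ctx0 n1 n2 n3 A1 A2 A3 B1 B2 B3 m11_1 m11_2 m11_3 m13_1 m13_2 m13_3 m22_1 m22_2 m22_3 m23_1 m23_2 m23_3 m33_1 m33_2 m33_3) :
    (1 * A1 ≤ 0) ∨ (1 * B3 ≤ 0) ∨ (1 * A2 ≤ 0) ∨ ((-2) * A1 + 1 * m13_1 + 1 * m23_1 ≤ -1) ∨ ((-2) * A2 + 1 * m13_2 + 1 * m23_2 ≤ -1) ∨ ((-2) * A3 + 1 * m13_3 + 1 * m23_3 ≤ -1) := by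
  have h := C.p13_23A
  clear C
  omega

theorem c0_11_23_33_k3_k_p13_33A {n1 n2 n3 A1 A2 A3 B1 B2 B3 m11_1 m11_2 m11_3 m13_1 m13_2 m13_3 m22_1 m22_2 m22_3 m23_1 m23_2 m23_3 m33_1 m33_2 m33_3 : ℤ} (C : Ctx0 n1 n2 n3 A1 A2 A3 B1 B2 B3 m11_1 m11_2 m11_3 m13_1 m13_2 m13_3 m22_1 m22_2 m22_3 m23_1 m23_2 m23_3 m33_1 m33_2 m33_3) :
    (1 * A1 ≤ 0) ∨ (1 * B3 ≤ 0) ∨ (1 * A3 ≤ 0) ∨ ((-2) * A1 + 1 * m13_1 + 1 * m33_1 ≤ -1) ∨ ((-2) * A2 + 1 * m13_2 + 1 * m33_2 ≤ -1) ∨ ((-2) * A3 + 1 * m13_3 + 1 * m33_3 ≤ -1) := by
  have h := C.p13_33A
  clear C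
  omega

theorem c0_11_23_33_k3_k_p22_33A {n1 n2 n3 A1 A2 A3 B1 B2 B3 m11_1 m11_2 m11_3 m13_1 m13_2 m13_3 m22_1 m22_2 m22_3 m23_1 m23_2 m23_3 m33_1 m33_2 m33_3 : ℤ} (C : Ctx0 n1 n2 n3 A1 A2 A3 B1 B2 B3 m11_1 m11_2 m11_3 m13_1 m13_2 m13_3 m22_1 m22_2 m22_3 m23_1 m23_2 m23_3 m33_1 m33_2 m33_3) :
    (1 * B2 ≤ 0) ∨ (1 * A3 ≤ 0) ∨ ((-2) * A1 + 1 * m22_1 + 1 * m33_1 ≤ -1) ∨ ((-2) * A2 + 1 * m22_2 + 1 * m33_2 ≤ -1) ∨ ((-2) * A3 + 1 * m22_3 + 1 * m33_3 ≤ -1) := by
  have h := C.p22_33A
  clear C
  omega

theorem c0_11_23_33_k3_k_p23_33A {n1 n2 n3 A1 A2 A3 B1 B2 B3 m11_1 m11_2 m11_3 m13_1 m13_2 m13_3 m22_1 m22_2 m22_3 m23_1 m23_2 m23_3 m33_1 m33_2 m33_3 : ℤ} (C : Ctx0 n1 n2 n3 A1 A2 A3 B1 B2 B3 m11_1 m11_2 m11_3 m13_1 m13_2 m13_3 m22_1 m22_2 m22_3 m23_1 m23_2 m23_3 m33_1 m33_2 m33_3) :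
    (1 * A2 ≤ 0) ∨ (1 * B3 ≤ 0) ∨ (1 * A3 ≤ 0) ∨ ((-2) * A1 + 1 * m23_1 + 1 * m33_1 ≤ -1) ∨ ((-2) * A2 + 1 * m23_2 + 1 * m33_2 ≤ -1) ∨ ((-2) * A3 + 1 * m23_3 + 1 * m33_3 ≤ -1) := by
  have h := C.p23_33A
  clear C
  omega

theorem c0_11_23_33_k3_k_p23_33B {n1 n2 n3 A1 A2 A3 B1 B2 B3 m11_1 m11_2 m11_3 m13_1 m13_2 m13_3 m22_1 m22_2 m22_3 m23_1 m23_2 m23_3 m33_1 m33_2 m33_3 : ℤ} (C : Ctx0 n1 n2 n3 A1 A2 A3 B1 B2 B3 m11_1 m11_2 m11_3 m13_1 m13_2 m13_3 m22_1 m22_2 m22_3 m23_1 m23_2 m23_3 m33_1 m33_2 m33_3) :
    (1 * A2 ≤ 0) ∨ (1 * B3 ≤ 0) ∨ (1 * A3 ≤ 0) ∨ ((-2) * B1 + 1 * m23_1 + 1 * m33_1 ≤ -1) ∨ ((-2) * B2 + 1 * m23_2 + 1 * m33_2 ≤ -1) ∨ ((-2) * B3 + 1 * m23_3 + 1 * m33_3 ≤ -1) := by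
  have h := C.p23_33B
  clear C
  omega

theorem c0_11_23_33_k3_k_tmzp {n1 n2 n3 A1 A2 A3 B1 B2 B3 m11_1 m11_2 m11_3 m13_1 m13_2 m13_3 m22_1 m22_2 m22_3 m23_1 m23_2 m23_3 m33_1 m33_2 m33_3 : ℤ} (C : Ctx0 n1 n2 n3 A1 A2 A3 B1 B2 B3 m11_1 m11_2 m11_3 m13_1 m13_2 m13_3 m22_1 m22_2 m22_3 m23_1 m23_2 m23_3 m33_1 m33_2 m33_3) :
    ((-1) * A1 + 1 * n1 ≤ 0) ∨ ((-1) * A1 + 1 * A2 ≤ 0) ∨ ((-1) * A2 + 1 * A3 ≤ 0) ∨ (1 * B1 ≤ 0) ∨ (1 * B1 + (-1) * B2 + 1 * n2 ≤ 0) ∨ (1 * B2 + (-1) * B3 + 1 * n3 ≤ 0) := by
  have h := C.tmzp
  clear C
  omega

theorem c0_11_23_33_k3_k_tmpp {n1 n2 n3 A1 A2 A3 B1 B2 B3 m11_1 m11_2 m11_3 m13_1 m13_2 m13_3 m22_1 m22_2 m22_3 m23_1 m23_2 m23_3 m33_1 m33_2 m33_3 : ℤ} (C : Ctx0 n1 n2 n3 A1 A2 A3 B1 B2 B3 m11_1 m11_2 m11_3 m13_1 m13_2 m13_3 m22_1 m22_2 m22_3 m23_1 m23_2 m23_3 m33_1 m33_2 m33_3) :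
    ((-1) * A1 + 1 * n1 ≤ 0) ∨ ((-1) * A1 + 1 * A2 ≤ 1) ∨ (1 * B1 ≤ 0) ∨ (1 * B1 + (-1) * B2 + 1 * n2 ≤ 1) := by
  have h := C.tmpp
  clear C
  omega

theorem c0_11_23_33_k3_k_tzpm {n1 n2 n3 A1 A2 A3 B1 B2 B3 m11_1 m11_2 m11_3 m13_1 m13_2 m13_3 m22_1 m22_2 m22_3 m23_1 m23_2 m23_3 m33_1 m33_2 m33_3 : ℤ} (C : Ctx0 n1 n2 n3 A1 A2 A3 B1 B2 B3 m11_1 m11_2 m11_3 m13_1 m13_2 m13_3 m22_1 m22_2 m22_3 m23_1 m23_2 m23_3 m33_1 m33_2 m33_3) :
    ((-1) * A1 + 1 * A2 ≤ 0) ∨ (1 * A2 + (-1) * A3 + 1 * n3 ≤ 1) ∨ (1 * B1 + (-1) * B2 + 1 * n2 ≤ 0) ∨ ((-1) * B2 + 1 * B3 ≤ 1) ∨ ((-1) * A2 + 1 * B2 ≤ -1 ∧ (-1) * A3 + 1 * B3 ≤ 1) := by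
  have h := C.tzpm
  clear C
  omega

theorem c0_11_23_33_k3_k_tpmm {n1 n2 n3 A1 A2 A3 B1 B2 B3 m11_1 m11_2 m11_3 m13_1 m13_2 m13_3 m22_1 m22_2 m22_3 m23_1 m23_2 m23_3 m33_1 m33_2 m33_3 : ℤ} (C : Ctx0 n1 n2 n3 A1 A2 A3 B1 B2 B3 m11_1 m11_2 m11_3 m13_1 m13_2 m13_3 m22_1 m22_2 m22_3 m23_1 m23_2 m23_3 m33_1 m33_2 m33_3) :
    (1 * A1 ≤ 0) ∨ (1 * A1 + (-1) * A2 + 1 * n2 ≤ 1) ∨ ((-1) * B1 + 1 * n1 ≤ 0) ∨ ((-1) * B1 + 1 * B2 ≤ 1) ∨ ((-1) * A3 + 1 * B3 ≤ 1) := by
  have h := C.tpmm
  clear C
  omega

theorem c0_11_23_33_k3_k_F1 {n1 n2 n3 A1 A2 A3 B1 B2 B3 : ℤ} (h : ¬ F1 n1 n2 n3 A1 A2 A3 B1 B2 B3) :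
    ((-1) * A1 + 1 * n1 ≤ 0) ∨ (2 * A1 + (-1) * n1 ≤ 0) ∨ (1 * n2 ≤ 2) ∨ (2 * A1 + (-2) * n1 + 1 * n3 ≤ 2) ∨ (1 * A1 + (-1) * A2 + 1 * n2 ≤ 0) ∨ ((-1) * A1 + 1 * A2 + (-1) * n2 ≤ -2) ∨ (1 * A1 + 1 * A2 + (-1) * A3 + (-1) * n1 + 1 * n3 ≤ 0) ∨ ((-1) * A1 + (-1) * A2 + 1 * A3 + 1 * n1 + (-1) * n3 ≤ -2) ∨ (2 * A1 + (-1) * B1 + (-1) * n1 ≤ -1) ∨ ((-2) * A1 + 1 * B1 + 1 * n1 ≤ -1) ∨ (1 * B1 + (-1) * B2 + 1 * n2 ≤ 0) ∨ ((-1) * B1 + 1 * B2 + (-1) * n2 ≤ -2) ∨ (1 * B2 + (-1) * B3 + 1 * n3 ≤ -1) ∨ ((-1) * B2 + 1 * B3 + (-1) * n3 ≤ -1) := by
  unfold F1 at h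
  omega

theorem c0_11_23_33_k3 {n1 n2 n3 A1 A2 A3 B1 B2 B3 m11_1 m11_2 m11_3 m13_1 m13_2 m13_3 m22_1 m22_2 m22_3 m23_1 m23_2 m23_3 m33_1 m33_2 m33_3 : ℤ}
    (C : Ctx0 n1 n2 n3 A1 A2 A3 B1 B2 B3 m11_1 m11_2 m11_3 m13_1 m13_2 m13_3 m22_1 m22_2 m22_3 m23_1 m23_2 m23_3 m33_1 m33_2 m33_3)
    (e0 : 0 < B1)
    (e1 : 0 < A2)
    (e2 : 0 < B3)
    (e3 : 0 < A3)
    (s1 : 3 * A1 + 0 * B1 ≤ m11_1 + m23_1 + m33_1)
    (s2 : 3 * A2 + 0 * B2 ≤ m11_2 + m23_2 + m33_2)
    (s3 : 3 * A3 + 0 * B3 ≤ m11_3 + m23_3 + m33_3) : F1 n1 n2 n3 A1 A2 A3 B1 B2 B3 ∨ F2 n1 n2 n3 A1 A2 A3 B1 B2 B3 := by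
  by_contra hcon
  have hF1 : ¬ F1 n1 n2 n3 A1 A2 A3 B1 B2 B3 := fun h => hcon (Or.inl h)
  have hF2 : ¬ F2 n1 n2 n3 A1 A2 A3 B1 B2 B3 := fun h => hcon (Or.inr h)
  clear hcon
  rcases c0_11_23_33_k3_k_f13_2 C with ⟨c0_0_0, c0_0_1⟩ | ⟨c0_1_0, c0_1_1⟩
  · rcases c0_11_23_33_k3_k_t12 C with ⟨c1_0_0, c1_0_1⟩ | ⟨c1_1_0, c1_1_1⟩
    · rcases c0_11_23_33_k3_k_t23 C with ⟨c2_0_0, c2_0_1⟩ | ⟨c2_1_0, c2_1_1⟩
      · rcases c0_11_23_33_k3_k_f13_5 C with ⟨c3_0_0, c3_0_1⟩ | ⟨c3_1_0, c3_1_1⟩
        · rcases c0_11_23_33_k3_k_f13_8 C with ⟨c4_0_0, c4_0_1⟩ | ⟨c4_1_0, c4_1_1⟩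
          · first | linarith only [C.b5, C.f13_7, C.o1, c0_0_1, c1_0_1, c3_0_1, c4_0_1] | (have q0 := C.b5; have q1 := C.f13_7; have q2 := C.o1; have q3 := c0_0_1; have q4 := c1_0_1; have q5 := c3_0_1; have q6 := c4_0_1; clear C; omega)
          · rcases c0_11_23_33_k3_k_f22_2 C with ⟨c5_0_0, c5_0_1⟩ | ⟨c5_1_0, c5_1_1⟩
            · rcases c0_11_23_33_k3_k_f22_5 C with ⟨c6_0_0, c6_0_1⟩ | ⟨c6_1_0, c6_1_1⟩
              · first | linarith only [C.a1, C.f22_4, C.o1, c1_0_1, c5_0_1, c6_0_1] | (have q0 := C.a1; have q1 := C.f22_4; have q2 := C.o1; have q3 := c1_0_1; have q4 := c5_0_1; have q5 := c6_0_1; clear C; omega)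
              · rcases c0_11_23_33_k3_k_p13_22A C with c7_0_0 | c7_1_0 | c7_2_0 | c7_3_0 | c7_4_0 | c7_5_0
                · first | linarith only [c1_0_0, c7_0_0] | (have q0 := c1_0_0; have q1 := c7_0_0; clear C; omega)
                · first | linarith only [c7_1_0, e2] | (have q0 := c7_1_0; have q1 := e2; clear C; omega)
                · first | linarith only [C.a1, C.f22_1, C.o0, c5_0_1, c7_2_0, e0] | (have q0 := C.a1; have q1 := C.f22_1; have q2 := C.o0; have q3 := c5_0_1; have q4 := c7_2_0; have q5 := e0; clear C; omega)
                · first | linarith only [C.f11_0, C.f23_0, C.f33_0, C.o0, c0_0_1, c5_0_1, c7_3_0, s1] | (have q0 := C.f11_0; have q1 := C.f23_0; have q2 := C.f33_0; have q3 := C.o0; have q4 := c0_0_1; have q5 := c5_0_1; have q6 := c7_3_0; have q7 := s1; clear C; omega)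
                · rcases c0_11_23_33_k3_k_f33_2 C with ⟨c8_0_0, c8_0_1⟩ | ⟨c8_1_0, c8_1_1⟩
                  · rcases c0_11_23_33_k3_k_f33_8 C with ⟨c9_0_0, c9_0_1⟩ | ⟨c9_1_0, c9_1_1⟩
                    · first | linarith only [C.b5, C.f11_0, C.f11_1, C.f23_5, C.f33_7, C.o0, C.o2, c0_0_1, c3_0_1, c6_1_1, c7_4_0, c9_0_1, s2] | (have q0 := C.b5; have q1 := C.f11_0; have q2 := C.f11_1; have q3 := C.f23_5; have q4 := C.f33_7; have q5 := C.o0; have q6 := C.o2; have q7 := c0_0_1; have q8 := c3_0_1; have q9 := c6_1_1; have q10 := c7_4_0; have q11 := c9_0_1; have q12 := s2; clear C; omega)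
                    · rcases c0_11_23_33_k3_k_p11_33A C with c10_0_0 | c10_1_0 | c10_2_0 | c10_3_0 | c10_4_0
                      · first | linarith only [c10_0_0, e0] | (have q0 := c10_0_0; have q1 := e0; clear C; omega)
                      · first | linarith only [c10_1_0, e3] | (have q0 := c10_1_0; have q1 := e3; clear C; omega)
                      · rcases c0_11_23_33_k3_k_f23_7 C with ⟨c11_0_0, c11_0_1⟩ | ⟨c11_1_0, c11_1_1⟩ | ⟨c11_2_0, c11_2_1⟩
                        · first | linarith only [C.f23_5, c10_2_0, c11_0_1, c1_0_1, s1] | (have q0 := C.f23_5; have q1 := c10_2_0; have q2 := c11_0_1; have q3 := c1_0_1; have q4 := s1; clear C; omega)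
                        · rcases c0_11_23_33_k3_k_p13_33A C with c13_0_0 | c13_1_0 | c13_2_0 | c13_3_0 | c13_4_0 | c13_5_0
                          · first | linarith only [c13_0_0, c1_0_0] | (have q0 := c13_0_0; have q1 := c1_0_0; clear C; omega)
                          · first | linarith only [c13_1_0, e2] | (have q0 := c13_1_0; have q1 := e2; clear C; omega)
                          · first | linarith only [c13_2_0, e3] | (have q0 := c13_2_0; have q1 := e3; clear C; omega)
                          · first | linarith only [C.f11_0, C.f23_0, C.o0, c0_0_1, c13_3_0, c8_0_1, s1] | (have q0 := C.f11_0; have q1 := C.f23_0; have q2 := C.o0; have q3 := c0_0_1; have q4 := c13_3_0; have q5 := c8_0_1; have q6 := s1; clear C; omega)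
                          · first | linarith only [C.f11_0, C.f11_1, C.f23_5, C.o0, c0_0_1, c13_4_0, c3_0_1, s2] | (have q0 := C.f11_0; have q1 := C.f11_1; have q2 := C.f23_5; have q3 := C.o0; have q4 := c0_0_1; have q5 := c13_4_0; have q6 := c3_0_1; have q7 := s2; clear C; omega)
                          · rcases c0_11_23_33_k3_k_f23_10 C with ⟨c14_0_0, c14_0_1⟩ | ⟨c14_1_0, c14_1_1⟩
                            · first | linarith only [C.b5, C.f11_0, C.f11_1, C.f11_2, C.f23_9, C.o0, c0_0_1, c11_1_1, c13_5_0, c14_0_1, c3_0_1, c4_1_1, c6_1_1, c7_4_0, c9_1_1, s3] | (have q0 := C.b5; have q1 := C.f11_0; have q2 := C.f11_1; have q3 := C.f11_2; have q4 := C.f23_9; have q5 := C.o0; have q6 := c0_0_1; have q7 := c11_1_1; have q8 := c13_5_0; have q9 := c14_0_1; have q10 := c3_0_1; have q11 := c4_1_1; have q12 := c6_1_1; have q13 := c7_4_0; have q14 := c9_1_1; have q15 := s3; clear C; omega)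
                            · rcases c0_11_23_33_k3_k_p13_23A C with c15_0_0 | c15_1_0 | c15_2_0 | c15_3_0 | c15_4_0 | c15_5_0
                              · first | linarith only [c15_0_0, c1_0_0] | (have q0 := c15_0_0; have q1 := c1_0_0; clear C; omega)
                              · first | linarith only [c15_1_0, e2] | (have q0 := c15_1_0; have q1 := e2; clear C; omega)
                              · first | linarith only [c15_2_0, e1] | (have q0 := c15_2_0; have q1 := e1; clear C; omega)
                              · first | linarith only [c0_0_1, c10_2_0, c15_3_0, s1] | (have q0 := c0_0_1; have q1 := c10_2_0; have q2 := c15_3_0; have q3 := s1; clear C; omega)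
                              · rcases c0_11_23_33_k3_k_p23_33A C with c19_0_0 | c19_1_0 | c19_2_0 | c19_3_0 | c19_4_0 | c19_5_0
                                · first | linarith only [c19_0_0, e1] | (have q0 := c19_0_0; have q1 := e1; clear C; omega)
                                · first | linarith only [c19_1_0, e2] | (have q0 := c19_1_0; have q1 := e2; clear C; omega)
                                · first | linarith only [c19_2_0, e3] | (have q0 := c19_2_0; have q1 := e3; clear C; omega)
                                · first | linarith only [C.f11_0, C.o0, c19_3_0, s1] | (have q0 := C.f11_0; have q1 := C.o0; have q2 := c19_3_0; have q3 := s1; clear C; omega)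
                                · first | linarith only [C.f11_0, C.f11_1, C.o0, c0_0_1, c11_1_1, c15_4_0, c19_4_0, c3_0_1, s2] | (have q0 := C.f11_0; have q1 := C.f11_1; have q2 := C.o0; have q3 := c0_0_1; have q4 := c11_1_1; have q5 := c15_4_0; have q6 := c19_4_0; have q7 := c3_0_1; have q8 := s2; clear C; omega)
                                · rcases c0_11_23_33_k3_k_p23_33B C with c20_0_0 | c20_1_0 | c20_2_0 | c20_3_0 | c20_4_0 | c20_5_0
                                  · first | linarith only [c20_0_0, e1] | (have q0 := c20_0_0; have q1 := e1; clear C; omega)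
                                  · first | linarith only [c20_1_0, e2] | (have q0 := c20_1_0; have q1 := e2; clear C; omega)
                                  · first | linarith only [c20_2_0, e3] | (have q0 := c20_2_0; have q1 := e3; clear C; omega)
                                  · first | linarith only [C.f11_0, C.o0, c20_3_0, s1] | (have q0 := C.f11_0; have q1 := C.o0; have q2 := c20_3_0; have q3 := s1; clear C; omega)
                                  · first | linarith only [C.f11_0, C.f11_1, C.o0, C.o1, c0_0_1, c11_1_1, c15_4_0, c20_4_0, c3_0_1, s2] | (have q0 := C.f11_0; have q1 := C.f11_1; have q2 := C.o0; have q3 := C.o1; have q4 := c0_0_1; have q5 := c11_1_1; have q6 := c15_4_0; have q7 := c20_4_0; have q8 := c3_0_1; have q9 := s2; clear C; omega)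
                                  · rcases c0_11_23_33_k3_k_tmpp C with c21_0_0 | c21_1_0 | c21_2_0 | c21_3_0
                                    · first | linarith only [C.f11_0, C.f23_0, C.f33_0, C.o0, c21_0_0, s1] | (have q0 := C.f11_0; have q1 := C.f23_0; have q2 := C.f33_0; have q3 := C.o0; have q4 := c21_0_0; have q5 := s1; clear C; omega)
                                    · first | linarith only [C.f11_0, C.f22_1, C.f23_0, C.f33_0, C.o0, C.o1, c21_1_0, c5_0_1, s1] | (have q0 := C.f11_0; have q1 := C.f22_1; have q2 := C.f23_0; have q3 := C.f33_0; have q4 := C.o0; have q5 := C.o1; have q6 := c21_1_0; have q7 := c5_0_1; have q8 := s1; clear C; omega)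
                                    · first | linarith only [c21_2_0, e0] | (have q0 := c21_2_0; have q1 := e0; clear C; omega)
                                    · rcases c0_11_23_33_k3_k_p22_33A C with c22_0_0 | c22_1_0 | c22_2_0 | c22_3_0 | c22_4_0
                                      · first | linarith only [C.f11_0, C.f22_1, C.f23_0, C.f33_0, C.o0, c22_0_0, c5_0_1, e0, s1] | (have q0 := C.f11_0; have q1 := C.f22_1; have q2 := C.f23_0; have q3 := C.f33_0; have q4 := C.o0; have q5 := c22_0_0; have q6 := c5_0_1; have q7 := e0; have q8 := s1; clear C; omega)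
                                      · first | linarith only [c22_1_0, e3] | (have q0 := c22_1_0; have q1 := e3; clear C; omega)
                                      · first | linarith only [C.f11_0, C.f23_0, C.o0, c22_2_0, c5_0_1, s1] | (have q0 := C.f11_0; have q1 := C.f23_0; have q2 := C.o0; have q3 := c22_2_0; have q4 := c5_0_1; have q5 := s1; clear C; omega)
                                      · first | linarith only [C.f11_0, C.f11_1, C.f23_5, c21_3_0, c22_3_0, c6_1_1, s2] | (have q0 := C.f11_0; have q1 := C.f11_1; have q2 := C.f23_5; have q3 := c21_3_0; have q4 := c22_3_0; have q5 := c6_1_1; have q6 := s2; clear C; omega)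
                                      · rcases c0_11_23_33_k3_k_f23_3 C with ⟨c23_0_0, c23_0_1⟩ | ⟨c23_1_0, c23_1_1⟩ | ⟨c23_2_0, c23_2_1⟩
                                        · rcases c0_11_23_33_k3_k_p11_23B C with c24_0_0 | c24_1_0 | c24_2_0 | c24_3_0 | c24_4_0 | c24_5_0
                                          · first | linarith only [c24_0_0, e0] | (have q0 := c24_0_0; have q1 := e0; clear C; omega)
                                          · first | linarith only [c24_1_0, e1] | (have q0 := c24_1_0; have q1 := e1; clear C; omega)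
                                          · first | linarith only [c24_2_0, e2] | (have q0 := c24_2_0; have q1 := e2; clear C; omega)
                                          · first | linarith only [C.f11_0, C.f33_0, C.o0, c23_0_1, c24_3_0, s1] | (have q0 := C.f11_0; have q1 := C.f33_0; have q2 := C.o0; have q3 := c23_0_1; have q4 := c24_3_0; have q5 := s1; clear C; omega)
                                          · first | linarith only [C.f11_0, C.f11_1, C.f11_2, C.f22_6, C.o0, c0_0_1, c11_1_1, c15_4_0, c19_5_0, c22_4_0, c24_4_0, c3_0_1, c6_1_1, c9_1_1, s3] | (have q0 := C.f11_0; have q1 := C.f11_1; have q2 := C.f11_2; have q3 := C.f22_6; have q4 := C.o0; have q5 := c0_0_1; have q6 := c11_1_1; have q7 := c15_4_0; have q8 := c19_5_0; have q9 := c22_4_0; have q10 := c24_4_0; have q11 := c3_0_1; have q12 := c6_1_1; have q13 := c9_1_1; have q14 := s3; clear C; omega)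
                                          · rcases c0_11_23_33_k3_k_tmzp C with c27_0_0 | c27_1_0 | c27_2_0 | c27_3_0 | c27_4_0 | c27_5_0
                                            · first | linarith only [C.f11_0, C.f23_0, C.f33_0, C.o0, c27_0_0, s1] | (have q0 := C.f11_0; have q1 := C.f23_0; have q2 := C.f33_0; have q3 := C.o0; have q4 := c27_0_0; have q5 := s1; clear C; omega)
                                            · first | linarith only [c27_1_0, c2_0_0] | (have q0 := c27_1_0; have q1 := c2_0_0; clear C; omega)
                                            · first | linarith only [C.f11_0, C.f11_1, C.f33_4, C.o0, c0_0_1, c15_4_0, c27_2_0, c3_0_1, s2] | (have q0 := C.f11_0; have q1 := C.f11_1; have q2 := C.f33_4; have q3 := C.o0; have q4 := c0_0_1; have q5 := c15_4_0; have q6 := c27_2_0; have q7 := c3_0_1; have q8 := s2; clear C; omega)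
                                            · first | linarith only [c27_3_0, e0] | (have q0 := c27_3_0; have q1 := e0; clear C; omega)
                                            · first | linarith only [C.f11_0, C.f11_1, C.f11_2, C.f22_6, c19_5_0, c22_4_0, c27_4_0, c6_1_1, c9_1_1, s3] | (have q0 := C.f11_0; have q1 := C.f11_1; have q2 := C.f11_2; have q3 := C.f22_6; have q4 := c19_5_0; have q5 := c22_4_0; have q6 := c27_4_0; have q7 := c6_1_1; have q8 := c9_1_1; have q9 := s3; clear C; omega)
                                            · rcases c0_11_23_33_k3_k_tzpm C with c29_0_0 | c29_1_0 | c29_2_0 | c29_3_0 | ⟨c29_4_0, c29_4_1⟩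
                                              · first | linarith only [c29_0_0, c2_0_0] | (have q0 := c29_0_0; have q1 := c2_0_0; clear C; omega)
                                              · first | linarith only [C.f11_0, C.f11_1, C.f11_2, C.o0, c0_0_1, c11_1_1, c15_4_0, c19_5_0, c29_1_0, c3_0_1, s3] | (have q0 := C.f11_0; have q1 := C.f11_1; have q2 := C.f11_2; have q3 := C.o0; have q4 := c0_0_1; have q5 := c11_1_1; have q6 := c15_4_0; have q7 := c19_5_0; have q8 := c29_1_0; have q9 := c3_0_1; have q10 := s3; clear C; omega)
                                              · first | linarith only [C.f11_0, C.f11_1, C.f11_2, c14_1_1, c19_5_0, c27_5_0, c29_2_0, c9_1_1, s3] | (have q0 := C.f11_0; have q1 := C.f11_1; have q2 := C.f11_2; have q3 := c14_1_1; have q4 := c19_5_0; have q5 := c27_5_0; have q6 := c29_2_0; have q7 := c9_1_1; have q8 := s3; clear C; omega)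
                                              · first | linarith only [C.f11_0, C.f11_1, C.f11_2, C.f33_4, C.o0, c0_0_1, c11_1_1, c15_4_0, c19_5_0, c27_5_0, c29_3_0, c3_0_1, s2, s3] | (have q0 := C.f11_0; have q1 := C.f11_1; have q2 := C.f11_2; have q3 := C.f33_4; have q4 := C.o0; have q5 := c0_0_1; have q6 := c11_1_1; have q7 := c15_4_0; have q8 := c19_5_0; have q9 := c27_5_0; have q10 := c29_3_0; have q11 := c3_0_1; have q12 := s2; have q13 := s3; clear C; omega)
                                              · rcases c0_11_23_33_k3_k_F1 hF1 with c31_0_0 | c31_1_0 | c31_2_0 | c31_3_0 | c31_4_0 | c31_5_0 | c31_6_0 | c31_7_0 | c31_8_0 | c31_9_0 | c31_10_0 | c31_11_0 | c31_12_0 | c31_13_0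
                                                · first | linarith only [C.f11_0, C.f23_0, C.f33_0, C.o0, c31_0_0, s1] | (have q0 := C.f11_0; have q1 := C.f23_0; have q2 := C.f33_0; have q3 := C.o0; have q4 := c31_0_0; have q5 := s1; clear C; omega)
                                                · first | linarith only [C.f11_0, c10_2_0, c31_1_0, c8_0_1, e0] | (have q0 := C.f11_0; have q1 := c10_2_0; have q2 := c31_1_0; have q3 := c8_0_1; have q4 := e0; clear C; omega)
                                                · first | linarith only [C.a1, C.f11_0, C.f11_1, C.f11_2, C.f22_1, C.o0, c14_1_1, c19_5_0, c27_5_0, c31_2_0, c5_0_1, c9_1_1, s3] | (have q0 := C.a1; have q1 := C.f11_0; have q2 := C.f11_1; have q3 := C.f11_2; have q4 := C.f22_1; have q5 := C.o0; have q6 := c14_1_1; have q7 := c19_5_0; have q8 := c27_5_0; have q9 := c31_2_0; have q10 := c5_0_1; have q11 := c9_1_1; have q12 := s3; clear C; omega)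
                                                · first | linarith only [C.f11_1, C.f11_2, C.f33_4, c0_0_1, c10_2_0, c11_1_1, c15_4_0, c19_5_0, c31_3_0, c3_0_1, c8_0_1, s2, s3] | (have q0 := C.f11_1; have q1 := C.f11_2; have q2 := C.f33_4; have q3 := c0_0_1; have q4 := c10_2_0; have q5 := c11_1_1; have q6 := c15_4_0; have q7 := c19_5_0; have q8 := c31_3_0; have q9 := c3_0_1; have q10 := c8_0_1; have q11 := s2; have q12 := s3; clear C; omega)
                                                · first | linarith only [c1_0_1, c31_4_0] | (have q0 := c1_0_1; have q1 := c31_4_0; clear C; omega)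
                                                · first | linarith only [c0_0_1, c11_1_1, c15_4_0, c31_5_0, c3_0_1] | (have q0 := c0_0_1; have q1 := c11_1_1; have q2 := c15_4_0; have q3 := c31_5_0; have q4 := c3_0_1; clear C; omega)
                                                · first | linarith only [C.f11_1, C.f11_2, c0_0_1, c10_2_0, c11_1_1, c15_4_0, c19_5_0, c31_6_0, c3_0_1, c8_0_1, s3] | (have q0 := C.f11_1; have q1 := C.f11_2; have q2 := c0_0_1; have q3 := c10_2_0; have q4 := c11_1_1; have q5 := c15_4_0; have q6 := c19_5_0; have q7 := c31_6_0; have q8 := c3_0_1; have q9 := c8_0_1; have q10 := s3; clear C; omega)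
                                                · first | linarith only [C.f11_2, C.f33_0, C.f33_3, c0_0_1, c14_1_1, c15_4_0, c24_5_0, c29_4_1, c31_7_0, c3_0_1, s2] | (have q0 := C.f11_2; have q1 := C.f33_0; have q2 := C.f33_3; have q3 := c0_0_1; have q4 := c14_1_1; have q5 := c15_4_0; have q6 := c24_5_0; have q7 := c29_4_1; have q8 := c31_7_0; have q9 := c3_0_1; have q10 := s2; clear C; omega)
                                                · first | linarith only [C.f11_0, c10_2_0, c31_8_0, c8_0_1] | (have q0 := C.f11_0; have q1 := c10_2_0; have q2 := c31_8_0; have q3 := c8_0_1; clear C; omega)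
                                                · first | linarith only [C.f11_0, C.f11_1, C.f33_0, C.f33_3, c0_0_1, c11_1_1, c15_4_0, c31_9_0, c3_0_1, s2] | (have q0 := C.f11_0; have q1 := C.f11_1; have q2 := C.f33_0; have q3 := C.f33_3; have q4 := c0_0_1; have q5 := c11_1_1; have q6 := c15_4_0; have q7 := c31_9_0; have q8 := c3_0_1; have q9 := s2; clear C; omega)
                                                · first | linarith only [C.f11_0, C.f11_1, C.f11_2, C.f23_9, C.f33_7, c27_5_0, c29_4_1, c31_10_0, s3] | (have q0 := C.f11_0; have q1 := C.f11_1; have q2 := C.f11_2; have q3 := C.f23_9; have q4 := C.f33_7; have q5 := c27_5_0; have q6 := c29_4_1; have q7 := c31_10_0; have q8 := s3; clear C; omega)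
                                                · first | linarith only [c21_3_0, c31_11_0] | (have q0 := c21_3_0; have q1 := c31_11_0; clear C; omega)
                                                · first | linarith only [C.b5, c31_12_0] | (have q0 := C.b5; have q1 := c31_12_0; clear C; omega)
                                                · first | linarith only [c27_5_0, c31_13_0] | (have q0 := c27_5_0; have q1 := c31_13_0; clear C; omega)
                                        · first | linarith only [C.f11_0, C.f11_1, C.f11_2, C.f22_1, C.f22_6, C.f23_0, C.o0, c0_0_1, c11_1_1, c15_4_0, c19_5_0, c22_4_0, c23_1_1, c3_0_1, c5_0_1, c6_1_1, c9_1_1, s3] | (have q0 := C.f11_0; have q1 := C.f11_1; have q2 := C.f11_2; have q3 := C.f22_1; have q4 := C.f22_6; have q5 := C.f23_0; have q6 := C.o0; have q7 := c0_0_1; have q8 := c11_1_1; have q9 := c15_4_0; have q10 := c19_5_0; have q11 := c22_4_0; have q12 := c23_1_1; have q13 := c3_0_1; have q14 := c5_0_1; have q15 := c6_1_1; have q16 := c9_1_1; have q17 := s3; clear C; omega)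
                                        · first | linarith only [C.f11_0, C.f11_1, C.f23_1, C.f33_4, C.o0, c0_0_1, c14_1_1, c15_4_0, c20_5_0, c23_2_1, c3_0_1, c9_1_1, s2] | (have q0 := C.f11_0; have q1 := C.f11_1; have q2 := C.f23_1; have q3 := C.f33_4; have q4 := C.o0; have q5 := c0_0_1; have q6 := c14_1_1; have q7 := c15_4_0; have q8 := c20_5_0; have q9 := c23_2_1; have q10 := c3_0_1; have q11 := c9_1_1; have q12 := s2; clear C; omega)
                              · first | linarith only [C.o2, c14_1_1, c15_5_0, c4_1_1] | (have q0 := C.o2; have q1 := c14_1_1; have q2 := c15_5_0; have q3 := c4_1_1; clear C; omega)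
                        · first | linarith only [C.f11_0, C.f11_1, C.f13_4, C.f23_5, C.f33_4, C.o0, C.o2, c0_0_1, c11_2_1, c3_0_1, s2] | (have q0 := C.f11_0; have q1 := C.f11_1; have q2 := C.f13_4; have q3 := C.f23_5; have q4 := C.f33_4; have q5 := C.o0; have q6 := C.o2; have q7 := c0_0_1; have q8 := c11_2_1; have q9 := c3_0_1; have q10 := s2; clear C; omega)
                      · first | linarith only [C.f23_5, c10_3_0, s2] | (have q0 := C.f23_5; have q1 := c10_3_0; have q2 := s2; clear C; omega)
                      · first | linarith only [C.b3, C.b5, C.f11_0, C.f11_1, C.f11_2, C.f23_9, c10_4_0, c9_1_1, s3] | (have q0 := C.b3; have q1 := C.b5; have q2 := C.f11_0; have q3 := C.f11_1; have q4 := C.f11_2; have q5 := C.f23_9; have q6 := c10_4_0; have q7 := c9_1_1; have q8 := s3; clear C; omega)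
                  · first | linarith only [C.f11_0, C.f11_1, C.f22_1, C.f23_5, C.f33_0, C.f33_4, C.o0, c0_0_1, c3_0_1, c5_0_1, c6_1_1, c7_4_0, c8_1_1, s2] | (have q0 := C.f11_0; have q1 := C.f11_1; have q2 := C.f22_1; have q3 := C.f23_5; have q4 := C.f33_0; have q5 := C.f33_4; have q6 := C.o0; have q7 := c0_0_1; have q8 := c3_0_1; have q9 := c5_0_1; have q10 := c6_1_1; have q11 := c7_4_0; have q12 := c8_1_1; have q13 := s2; clear C; omega)
                · first | linarith only [C.b5, C.f22_6, C.o2, c4_1_1, c6_1_1, c7_5_0] | (have q0 := C.b5; have q1 := C.f22_6; have q2 := C.o2; have q3 := c4_1_1; have q4 := c6_1_1; have q5 := c7_5_0; clear C; omega)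
            · rcases c0_11_23_33_k3_k_f22_5 C with ⟨c32_0_0, c32_0_1⟩ | ⟨c32_1_0, c32_1_1⟩
              · first | linarith only [C.f22_4, c1_0_1, c2_0_0, c32_0_1, c5_1_1] | (have q0 := C.f22_4; have q1 := c1_0_1; have q2 := c2_0_0; have q3 := c32_0_1; have q4 := c5_1_1; clear C; omega)
              · rcases c0_11_23_33_k3_k_f23_3 C with ⟨c33_0_0, c33_0_1⟩ | ⟨c33_1_0, c33_1_1⟩ | ⟨c33_2_0, c33_2_1⟩
                · rcases c0_11_23_33_k3_k_f23_7 C with ⟨c34_0_0, c34_0_1⟩ | ⟨c34_1_0, c34_1_1⟩ | ⟨c34_2_0, c34_2_1⟩
                  · first | linarith only [C.f11_0, C.f23_5, C.f33_0, C.o0, c1_0_1, c33_0_1, c34_0_1, s1] | (have q0 := C.f11_0; have q1 := C.f23_5; have q2 := C.f33_0; have q3 := C.o0; have q4 := c1_0_1; have q5 := c33_0_1; have q6 := c34_0_1; have q7 := s1; clear C; omega)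
                  · rcases c0_11_23_33_k3_k_tmpp C with c35_0_0 | c35_1_0 | c35_2_0 | c35_3_0
                    · first | linarith only [C.f11_0, C.f23_0, C.f33_0, C.o0, c35_0_0, s1] | (have q0 := C.f11_0; have q1 := C.f23_0; have q2 := C.f33_0; have q3 := C.o0; have q4 := c35_0_0; have q5 := s1; clear C; omega)
                    · first | linarith only [C.f11_0, C.f23_1, C.f33_0, C.o0, c33_0_1, c35_1_0, s1] | (have q0 := C.f11_0; have q1 := C.f23_1; have q2 := C.f33_0; have q3 := C.o0; have q4 := c33_0_1; have q5 := c35_1_0; have q6 := s1; clear C; omega)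
                    · first | linarith only [c35_2_0, e0] | (have q0 := c35_2_0; have q1 := e0; clear C; omega)
                    · rcases c0_11_23_33_k3_k_f33_2 C with ⟨c36_0_0, c36_0_1⟩ | ⟨c36_1_0, c36_1_1⟩
                      · rcases c0_11_23_33_k3_k_f33_8 C with ⟨c37_0_0, c37_0_1⟩ | ⟨c37_1_0, c37_1_1⟩
                        · first | linarith only [C.b5, C.f11_0, C.f11_1, C.f23_5, C.f33_7, C.o1, C.o2, c35_3_0, c37_0_1, s2] | (have q0 := C.b5; have q1 := C.f11_0; have q2 := C.f11_1; have q3 := C.f23_5; have q4 := C.f33_7; have q5 := C.o1; have q6 := C.o2; have q7 := c35_3_0; have q8 := c37_0_1; have q9 := s2; clear C; omega)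
                        · rcases c0_11_23_33_k3_k_p11_33A C with c38_0_0 | c38_1_0 | c38_2_0 | c38_3_0 | c38_4_0
                          · first | linarith only [c38_0_0, e0] | (have q0 := c38_0_0; have q1 := e0; clear C; omega)
                          · first | linarith only [c38_1_0, e3] | (have q0 := c38_1_0; have q1 := e3; clear C; omega)
                          · rcases c0_11_23_33_k3_k_p13_33A C with c40_0_0 | c40_1_0 | c40_2_0 | c40_3_0 | c40_4_0 | c40_5_0
                            · first | linarith only [c1_0_0, c40_0_0] | (have q0 := c1_0_0; have q1 := c40_0_0; clear C; omega)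
                            · first | linarith only [c40_1_0, e2] | (have q0 := c40_1_0; have q1 := e2; clear C; omega)
                            · first | linarith only [c40_2_0, e3] | (have q0 := c40_2_0; have q1 := e3; clear C; omega)
                            · first | linarith only [C.f11_0, C.f23_0, C.o0, c0_0_1, c36_0_1, c40_3_0, s1] | (have q0 := C.f11_0; have q1 := C.f23_0; have q2 := C.o0; have q3 := c0_0_1; have q4 := c36_0_1; have q5 := c40_3_0; have q6 := s1; clear C; omega)
                            · first | linarith only [C.f11_0, C.f11_1, C.f23_5, C.o0, c0_0_1, c3_0_1, c40_4_0, s2] | (have q0 := C.f11_0; have q1 := C.f11_1; have q2 := C.f23_5; have q3 := C.o0; have q4 := c0_0_1; have q5 := c3_0_1; have q6 := c40_4_0; have q7 := s2; clear C; omega)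
                            · rcases c0_11_23_33_k3_k_p22_33A C with c43_0_0 | c43_1_0 | c43_2_0 | c43_3_0 | c43_4_0
                              · first | linarith only [C.f11_0, C.f23_1, C.f33_0, C.o0, c1_0_1, c33_0_1, c35_3_0, c43_0_0, e0, s1] | (have q0 := C.f11_0; have q1 := C.f23_1; have q2 := C.f33_0; have q3 := C.o0; have q4 := c1_0_1; have q5 := c33_0_1; have q6 := c35_3_0; have q7 := c43_0_0; have q8 := e0; have q9 := s1; clear C; omega)
                              · first | linarith only [c43_1_0, e3] | (have q0 := c43_1_0; have q1 := e3; clear C; omega)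
                              · first | linarith only [C.f11_0, C.f23_1, c1_0_1, c35_3_0, c43_2_0, c5_1_1, s1] | (have q0 := C.f11_0; have q1 := C.f23_1; have q2 := c1_0_1; have q3 := c35_3_0; have q4 := c43_2_0; have q5 := c5_1_1; have q6 := s1; clear C; omega)
                              · first | linarith only [C.f11_0, C.f11_1, C.f23_5, c32_1_1, c35_3_0, c43_3_0, s2] | (have q0 := C.f11_0; have q1 := C.f11_1; have q2 := C.f23_5; have q3 := c32_1_1; have q4 := c35_3_0; have q5 := c43_3_0; have q6 := s2; clear C; omega)
                              · rcases c0_11_23_33_k3_k_p13_23A C with c45_0_0 | c45_1_0 | c45_2_0 | c45_3_0 | c45_4_0 | c45_5_0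
                                · first | linarith only [c1_0_0, c45_0_0] | (have q0 := c1_0_0; have q1 := c45_0_0; clear C; omega)
                                · first | linarith only [c45_1_0, e2] | (have q0 := c45_1_0; have q1 := e2; clear C; omega)
                                · first | linarith only [c45_2_0, e1] | (have q0 := c45_2_0; have q1 := e1; clear C; omega)
                                · first | linarith only [C.f11_0, C.f33_0, C.o0, c0_0_1, c33_0_1, c45_3_0, s1] | (have q0 := C.f11_0; have q1 := C.f33_0; have q2 := C.o0; have q3 := c0_0_1; have q4 := c33_0_1; have q5 := c45_3_0; have q6 := s1; clear C; omega)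
                                · rcases c0_11_23_33_k3_k_f23_10 C with ⟨c46_0_0, c46_0_1⟩ | ⟨c46_1_0, c46_1_1⟩
                                  · first | linarith only [C.f11_0, C.f11_1, C.f11_2, C.f23_9, C.o0, c0_0_1, c34_1_1, c37_1_1, c3_0_1, c40_5_0, c45_4_0, c46_0_1, c4_1_1, s3] | (have q0 := C.f11_0; have q1 := C.f11_1; have q2 := C.f11_2; have q3 := C.f23_9; have q4 := C.o0; have q5 := c0_0_1; have q6 := c34_1_1; have q7 := c37_1_1; have q8 := c3_0_1; have q9 := c40_5_0; have q10 := c45_4_0; have q11 := c46_0_1; have q12 := c4_1_1; have q13 := s3; clear C; omega)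
                                  · rcases c0_11_23_33_k3_k_p11_23B C with c47_0_0 | c47_1_0 | c47_2_0 | c47_3_0 | c47_4_0 | c47_5_0
                                    · first | linarith only [c47_0_0, e0] | (have q0 := c47_0_0; have q1 := e0; clear C; omega)
                                    · first | linarith only [c47_1_0, e1] | (have q0 := c47_1_0; have q1 := e1; clear C; omega)
                                    · first | linarith only [c47_2_0, e2] | (have q0 := c47_2_0; have q1 := e2; clear C; omega)
                                    · first | linarith only [C.f11_1, C.f33_0, C.f33_3, C.o0, c0_0_1, c33_0_1, c34_1_1, c3_0_1, c45_4_0, c47_3_0, s2] | (have q0 := C.f11_1; have q1 := C.f33_0; have q2 := C.f33_3; have q3 := C.o0; have q4 := c0_0_1; have q5 := c33_0_1; have q6 := c34_1_1; have q7 := c3_0_1; have q8 := c45_4_0; have q9 := c47_3_0; have q10 := s2; clear C; omega)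
                                    · first | linarith only [C.f11_0, C.f11_1, C.f11_2, C.f22_6, C.f23_9, C.o0, c0_0_1, c32_1_1, c34_1_1, c37_1_1, c3_0_1, c40_5_0, c43_4_0, c45_4_0, c47_4_0, c4_1_1, s3] | (have q0 := C.f11_0; have q1 := C.f11_1; have q2 := C.f11_2; have q3 := C.f22_6; have q4 := C.f23_9; have q5 := C.o0; have q6 := c0_0_1; have q7 := c32_1_1; have q8 := c34_1_1; have q9 := c37_1_1; have q10 := c3_0_1; have q11 := c40_5_0; have q12 := c43_4_0; have q13 := c45_4_0; have q14 := c47_4_0; have q15 := c4_1_1; have q16 := s3; clear C; omega)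
                                    · rcases c0_11_23_33_k3_k_p23_33A C with c50_0_0 | c50_1_0 | c50_2_0 | c50_3_0 | c50_4_0 | c50_5_0
                                      · first | linarith only [c50_0_0, e1] | (have q0 := c50_0_0; have q1 := e1; clear C; omega)
                                      · first | linarith only [c50_1_0, e2] | (have q0 := c50_1_0; have q1 := e2; clear C; omega)
                                      · first | linarith only [c50_2_0, e3] | (have q0 := c50_2_0; have q1 := e3; clear C; omega)
                                      · first | linarith only [C.f11_0, C.f11_1, C.f33_0, C.f33_3, C.o0, c0_0_1, c33_0_1, c34_1_1, c3_0_1, c45_4_0, c50_3_0, s2] | (have q0 := C.f11_0; have q1 := C.f11_1; have q2 := C.f33_0; have q3 := C.f33_3; have q4 := C.o0; have q5 := c0_0_1; have q6 := c33_0_1; have q7 := c34_1_1; have q8 := c3_0_1; have q9 := c45_4_0; have q10 := c50_3_0; have q11 := s2; clear C; omega)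
                                      · first | linarith only [C.f11_0, C.f11_1, C.o0, c0_0_1, c34_1_1, c3_0_1, c45_4_0, c50_4_0, s2] | (have q0 := C.f11_0; have q1 := C.f11_1; have q2 := C.o0; have q3 := c0_0_1; have q4 := c34_1_1; have q5 := c3_0_1; have q6 := c45_4_0; have q7 := c50_4_0; have q8 := s2; clear C; omega)
                                      · rcases c0_11_23_33_k3_k_tmzp C with c52_0_0 | c52_1_0 | c52_2_0 | c52_3_0 | c52_4_0 | c52_5_0
                                        · first | linarith only [C.f11_0, C.f11_1, C.f33_0, C.f33_3, C.o0, c0_0_1, c34_1_1, c3_0_1, c45_4_0, c52_0_0, s2] | (have q0 := C.f11_0; have q1 := C.f11_1; have q2 := C.f33_0; have q3 := C.f33_3; have q4 := C.o0; have q5 := c0_0_1; have q6 := c34_1_1; have q7 := c3_0_1; have q8 := c45_4_0; have q9 := c52_0_0; have q10 := s2; clear C; omega)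
                                        · first | linarith only [c2_0_0, c52_1_0] | (have q0 := c2_0_0; have q1 := c52_1_0; clear C; omega)
                                        · first | linarith only [C.f11_0, C.f11_1, C.f33_4, C.o0, c0_0_1, c3_0_1, c45_4_0, c52_2_0, s2] | (have q0 := C.f11_0; have q1 := C.f11_1; have q2 := C.f33_4; have q3 := C.o0; have q4 := c0_0_1; have q5 := c3_0_1; have q6 := c45_4_0; have q7 := c52_2_0; have q8 := s2; clear C; omega)
                                        · first | linarith only [c52_3_0, e0] | (have q0 := c52_3_0; have q1 := e0; clear C; omega)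
                                        · first | linarith only [C.f11_0, C.f11_1, C.f11_2, C.f22_6, C.f23_9, c32_1_1, c37_1_1, c40_5_0, c43_4_0, c4_1_1, c52_4_0, s3] | (have q0 := C.f11_0; have q1 := C.f11_1; have q2 := C.f11_2; have q3 := C.f22_6; have q4 := C.f23_9; have q5 := c32_1_1; have q6 := c37_1_1; have q7 := c40_5_0; have q8 := c43_4_0; have q9 := c4_1_1; have q10 := c52_4_0; have q11 := s3; clear C; omega)
                                        · rcases c0_11_23_33_k3_k_tzpm C with c54_0_0 | c54_1_0 | c54_2_0 | c54_3_0 | ⟨c54_4_0, c54_4_1⟩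
                                          · first | linarith only [c2_0_0, c54_0_0] | (have q0 := c2_0_0; have q1 := c54_0_0; clear C; omega)
                                          · first | linarith only [C.f11_0, C.f11_1, C.f11_2, C.o0, c0_0_1, c34_1_1, c3_0_1, c45_4_0, c50_5_0, c54_1_0, s3] | (have q0 := C.f11_0; have q1 := C.f11_1; have q2 := C.f11_2; have q3 := C.o0; have q4 := c0_0_1; have q5 := c34_1_1; have q6 := c3_0_1; have q7 := c45_4_0; have q8 := c50_5_0; have q9 := c54_1_0; have q10 := s3; clear C; omega)
                                          · first | linarith only [C.f11_0, C.f11_1, C.f11_2, c37_1_1, c46_1_1, c50_5_0, c52_5_0, c54_2_0, s3] | (have q0 := C.f11_0; have q1 := C.f11_1; have q2 := C.f11_2; have q3 := c37_1_1; have q4 := c46_1_1; have q5 := c50_5_0; have q6 := c52_5_0; have q7 := c54_2_0; have q8 := s3; clear C; omega)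
                                          · first | linarith only [C.f11_0, C.f11_1, C.f11_2, C.f33_4, C.o0, c0_0_1, c34_1_1, c3_0_1, c45_4_0, c50_5_0, c52_5_0, c54_3_0, s2, s3] | (have q0 := C.f11_0; have q1 := C.f11_1; have q2 := C.f11_2; have q3 := C.f33_4; have q4 := C.o0; have q5 := c0_0_1; have q6 := c34_1_1; have q7 := c3_0_1; have q8 := c45_4_0; have q9 := c50_5_0; have q10 := c52_5_0; have q11 := c54_3_0; have q12 := s2; have q13 := s3; clear C; omega)
                                          · rcases c0_11_23_33_k3_k_F1 hF1 with c56_0_0 | c56_1_0 | c56_2_0 | c56_3_0 | c56_4_0 | c56_5_0 | c56_6_0 | c56_7_0 | c56_8_0 | c56_9_0 | c56_10_0 | c56_11_0 | c56_12_0 | c56_13_0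
                                            · first | linarith only [C.f11_0, C.f23_0, C.f33_0, C.o0, c56_0_0, s1] | (have q0 := C.f11_0; have q1 := C.f23_0; have q2 := C.f33_0; have q3 := C.o0; have q4 := c56_0_0; have q5 := s1; clear C; omega)
                                            · first | linarith only [C.f11_0, c36_0_1, c38_2_0, c56_1_0, e0] | (have q0 := C.f11_0; have q1 := c36_0_1; have q2 := c38_2_0; have q3 := c56_1_0; have q4 := e0; clear C; omega)
                                            · first | linarith only [C.a1, C.f11_0, C.f11_1, C.f23_1, C.f23_5, C.f33_0, C.f33_3, C.o0, c33_0_1, c56_2_0, s2] | (have q0 := C.a1; have q1 := C.f11_0; have q2 := C.f11_1; have q3 := C.f23_1; have q4 := C.f23_5; have q5 := C.f33_0; have q6 := C.f33_3; have q7 := C.o0; have q8 := c33_0_1; have q9 := c56_2_0; have q10 := s2; clear C; omega)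
                                            · first | linarith only [C.f11_1, C.f11_2, C.f23_9, C.f33_4, C.f33_7, c0_0_1, c34_1_1, c36_0_1, c38_2_0, c3_0_1, c45_4_0, c54_4_1, c56_3_0, s2, s3] | (have q0 := C.f11_1; have q1 := C.f11_2; have q2 := C.f23_9; have q3 := C.f33_4; have q4 := C.f33_7; have q5 := c0_0_1; have q6 := c34_1_1; have q7 := c36_0_1; have q8 := c38_2_0; have q9 := c3_0_1; have q10 := c45_4_0; have q11 := c54_4_1; have q12 := c56_3_0; have q13 := s2; have q14 := s3; clear C; omega)
                                            · first | linarith only [c1_0_1, c56_4_0] | (have q0 := c1_0_1; have q1 := c56_4_0; clear C; omega)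
                                            · first | linarith only [c0_0_1, c34_1_1, c3_0_1, c45_4_0, c56_5_0] | (have q0 := c0_0_1; have q1 := c34_1_1; have q2 := c3_0_1; have q3 := c45_4_0; have q4 := c56_5_0; clear C; omega)
                                            · first | linarith only [C.f11_1, C.f11_2, C.f23_9, C.f33_7, c0_0_1, c34_1_1, c36_0_1, c38_2_0, c3_0_1, c45_4_0, c54_4_1, c56_6_0, s3] | (have q0 := C.f11_1; have q1 := C.f11_2; have q2 := C.f23_9; have q3 := C.f33_7; have q4 := c0_0_1; have q5 := c34_1_1; have q6 := c36_0_1; have q7 := c38_2_0; have q8 := c3_0_1; have q9 := c45_4_0; have q10 := c54_4_1; have q11 := c56_6_0; have q12 := s3; clear C; omega)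
                                            · first | linarith only [C.f11_2, C.f33_0, C.f33_3, c0_0_1, c3_0_1, c45_4_0, c46_1_1, c47_5_0, c54_4_1, c56_7_0, s2] | (have q0 := C.f11_2; have q1 := C.f33_0; have q2 := C.f33_3; have q3 := c0_0_1; have q4 := c3_0_1; have q5 := c45_4_0; have q6 := c46_1_1; have q7 := c47_5_0; have q8 := c54_4_1; have q9 := c56_7_0; have q10 := s2; clear C; omega)
                                            · first | linarith only [C.f11_0, c36_0_1, c38_2_0, c56_8_0] | (have q0 := C.f11_0; have q1 := c36_0_1; have q2 := c38_2_0; have q3 := c56_8_0; clear C; omega)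
                                            · first | linarith only [C.f11_0, C.f11_1, C.f33_0, C.f33_3, c0_0_1, c34_1_1, c3_0_1, c45_4_0, c56_9_0, s2] | (have q0 := C.f11_0; have q1 := C.f11_1; have q2 := C.f33_0; have q3 := C.f33_3; have q4 := c0_0_1; have q5 := c34_1_1; have q6 := c3_0_1; have q7 := c45_4_0; have q8 := c56_9_0; have q9 := s2; clear C; omega)
                                            · first | linarith only [C.f11_0, C.f11_1, C.f11_2, C.f23_9, C.f33_7, c52_5_0, c54_4_1, c56_10_0, s3] | (have q0 := C.f11_0; have q1 := C.f11_1; have q2 := C.f11_2; have q3 := C.f23_9; have q4 := C.f33_7; have q5 := c52_5_0; have q6 := c54_4_1; have q7 := c56_10_0; have q8 := s3; clear C; omega)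
                                            · first | linarith only [c35_3_0, c56_11_0] | (have q0 := c35_3_0; have q1 := c56_11_0; clear C; omega)
                                            · first | linarith only [C.b5, c56_12_0] | (have q0 := C.b5; have q1 := c56_12_0; clear C; omega)
                                            · first | linarith only [c52_5_0, c56_13_0] | (have q0 := c52_5_0; have q1 := c56_13_0; clear C; omega)
                                · first | linarith only [C.f11_0, C.f11_1, C.f11_2, C.f22_6, C.o2, c32_1_1, c35_3_0, c43_4_0, c45_5_0, c4_1_1, s3] | (have q0 := C.f11_0; have q1 := C.f11_1; have q2 := C.f11_2; have q3 := C.f22_6; have q4 := C.o2; have q5 := c32_1_1; have q6 := c35_3_0; have q7 := c43_4_0; have q8 := c45_5_0; have q9 := c4_1_1; have q10 := s3; clear C; omega)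
                          · first | linarith only [C.f23_5, c38_3_0, s2] | (have q0 := C.f23_5; have q1 := c38_3_0; have q2 := s2; clear C; omega)
                          · first | linarith only [C.b3, C.b5, C.f11_0, C.f11_1, C.f11_2, C.f23_9, c37_1_1, c38_4_0, s3] | (have q0 := C.b3; have q1 := C.b5; have q2 := C.f11_0; have q3 := C.f11_1; have q4 := C.f11_2; have q5 := C.f23_9; have q6 := c37_1_1; have q7 := c38_4_0; have q8 := s3; clear C; omega)
                      · first | linarith only [C.f11_0, C.f11_1, C.f23_1, C.f23_5, C.f33_0, C.f33_4, C.o1, c33_0_1, c35_3_0, c36_1_1, s2] | (have q0 := C.f11_0; have q1 := C.f11_1; have q2 := C.f23_1; have q3 := C.f23_5; have q4 := C.f33_0; have q5 := C.f33_4; have q6 := C.o1; have q7 := c33_0_1; have q8 := c35_3_0; have q9 := c36_1_1; have q10 := s2; clear C; omega)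
                  · first | linarith only [C.f11_0, C.f11_1, C.f13_4, C.f23_5, C.f33_4, C.o0, C.o2, c0_0_1, c34_2_1, c3_0_1, s2] | (have q0 := C.f11_0; have q1 := C.f11_1; have q2 := C.f13_4; have q3 := C.f23_5; have q4 := C.f33_4; have q5 := C.o0; have q6 := C.o2; have q7 := c0_0_1; have q8 := c34_2_1; have q9 := c3_0_1; have q10 := s2; clear C; omega)
                · rcases c0_11_23_33_k3_k_f23_7 C with ⟨c57_0_0, c57_0_1⟩ | ⟨c57_1_0, c57_1_1⟩ | ⟨c57_2_0, c57_2_1⟩
                  · first | linarith only [C.f23_5, c1_0_1, c2_0_0, c33_1_1, c57_0_1] | (have q0 := C.f23_5; have q1 := c1_0_1; have q2 := c2_0_0; have q3 := c33_1_1; have q4 := c57_0_1; clear C; omega)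
                  · rcases c0_11_23_33_k3_k_f23_10 C with ⟨c58_0_0, c58_0_1⟩ | ⟨c58_1_0, c58_1_1⟩
                    · rcases c0_11_23_33_k3_k_f33_2 C with ⟨c60_0_0, c60_0_1⟩ | ⟨c60_1_0, c60_1_1⟩
                      · rcases c0_11_23_33_k3_k_p11_33B C with c61_0_0 | c61_1_0 | c61_2_0 | c61_3_0 | c61_4_0
                        · first | linarith only [c61_0_0, e0] | (have q0 := c61_0_0; have q1 := e0; clear C; omega)
                        · first | linarith only [c61_1_0, e3] | (have q0 := c61_1_0; have q1 := e3; clear C; omega)
                        · first | linarith only [C.a1, C.f11_0, C.o0, c60_0_1, c61_2_0] | (have q0 := C.a1; have q1 := C.f11_0; have q2 := C.o0; have q3 := c60_0_1; have q4 := c61_2_0; clear C; omega)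
                        · first | linarith only [C.f23_5, C.o1, c61_3_0, s2] | (have q0 := C.f23_5; have q1 := C.o1; have q2 := c61_3_0; have q3 := s2; clear C; omega)
                        · rcases c0_11_23_33_k3_k_f33_8 C with ⟨c62_0_0, c62_0_1⟩ | ⟨c62_1_0, c62_1_1⟩
                          · first | linarith only [C.b5, C.f11_2, C.f23_5, C.o1, c61_4_0, c62_0_1, s2] | (have q0 := C.b5; have q1 := C.f11_2; have q2 := C.f23_5; have q3 := C.o1; have q4 := c61_4_0; have q5 := c62_0_1; have q6 := s2; clear C; omega)
                          · rcases c0_11_23_33_k3_k_p11_33A C with c63_0_0 | c63_1_0 | c63_2_0 | c63_3_0 | c63_4_0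
                            · first | linarith only [c63_0_0, e0] | (have q0 := c63_0_0; have q1 := e0; clear C; omega)
                            · first | linarith only [c63_1_0, e3] | (have q0 := c63_1_0; have q1 := e3; clear C; omega)
                            · rcases c0_11_23_33_k3_k_p13_22A C with c64_0_0 | c64_1_0 | c64_2_0 | c64_3_0 | c64_4_0 | c64_5_0
                              · first | linarith only [c1_0_0, c64_0_0] | (have q0 := c1_0_0; have q1 := c64_0_0; clear C; omega)
                              · first | linarith only [c64_1_0, e2] | (have q0 := c64_1_0; have q1 := e2; clear C; omega)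
                              · first | linarith only [C.b5, C.f23_1, C.f23_9, C.o0, c57_1_1, c58_0_1, c63_2_0, c64_2_0, e0, s1] | (have q0 := C.b5; have q1 := C.f23_1; have q2 := C.f23_9; have q3 := C.o0; have q4 := c57_1_1; have q5 := c58_0_1; have q6 := c63_2_0; have q7 := c64_2_0; have q8 := e0; have q9 := s1; clear C; omega)
                              · first | linarith only [C.b5, C.f23_1, C.f23_9, c0_0_1, c57_1_1, c58_0_1, c5_1_1, c63_2_0, c64_3_0, s1] | (have q0 := C.b5; have q1 := C.f23_1; have q2 := C.f23_9; have q3 := c0_0_1; have q4 := c57_1_1; have q5 := c58_0_1; have q6 := c5_1_1; have q7 := c63_2_0; have q8 := c64_3_0; have q9 := s1; clear C; omega)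
                              · rcases c0_11_23_33_k3_k_p13_33A C with c66_0_0 | c66_1_0 | c66_2_0 | c66_3_0 | c66_4_0 | c66_5_0
                                · first | linarith only [c1_0_0, c66_0_0] | (have q0 := c1_0_0; have q1 := c66_0_0; clear C; omega)
                                · first | linarith only [c66_1_0, e2] | (have q0 := c66_1_0; have q1 := e2; clear C; omega)
                                · first | linarith only [c66_2_0, e3] | (have q0 := c66_2_0; have q1 := e3; clear C; omega)
                                · first | linarith only [C.b5, C.f11_0, C.f22_0, C.f23_1, C.f23_9, C.o0, c0_0_1, c57_1_1, c58_0_1, c5_1_1, c60_0_1, c66_3_0, s1] | (have q0 := C.b5; have q1 := C.f11_0; have q2 := C.f22_0; have q3 := C.f23_1; have q4 := C.f23_9; have q5 := C.o0; have q6 := c0_0_1; have q7 := c57_1_1; have q8 := c58_0_1; have q9 := c5_1_1; have q10 := c60_0_1; have q11 := c66_3_0; have q12 := s1; clear C; omega)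
                                · first | linarith only [C.f11_0, C.f11_1, C.f23_5, C.o0, c0_0_1, c3_0_1, c66_4_0, s2] | (have q0 := C.f11_0; have q1 := C.f11_1; have q2 := C.f23_5; have q3 := C.o0; have q4 := c0_0_1; have q5 := c3_0_1; have q6 := c66_4_0; have q7 := s2; clear C; omega)
                                · first | linarith only [C.b5, C.f11_0, C.f11_1, C.f11_2, C.f23_9, C.o0, c0_0_1, c32_1_1, c3_0_1, c4_1_1, c57_1_1, c58_0_1, c62_1_1, c64_4_0, c66_5_0, s3] | (have q0 := C.b5; have q1 := C.f11_0; have q2 := C.f11_1; have q3 := C.f11_2; have q4 := C.f23_9; have q5 := C.o0; have q6 := c0_0_1; have q7 := c32_1_1; have q8 := c3_0_1; have q9 := c4_1_1; have q10 := c57_1_1; have q11 := c58_0_1; have q12 := c62_1_1; have q13 := c64_4_0; have q14 := c66_5_0; have q15 := s3; clear C; omega)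
                              · first | linarith only [C.b5, C.f22_6, C.o2, c32_1_1, c4_1_1, c64_5_0] | (have q0 := C.b5; have q1 := C.f22_6; have q2 := C.o2; have q3 := c32_1_1; have q4 := c4_1_1; have q5 := c64_5_0; clear C; omega)
                            · first | linarith only [C.f23_5, c63_3_0, s2] | (have q0 := C.f23_5; have q1 := c63_3_0; have q2 := s2; clear C; omega)
                            · first | linarith only [C.b3, C.b5, C.f11_0, C.f11_1, C.f11_2, C.f23_9, c62_1_1, c63_4_0, s3] | (have q0 := C.b3; have q1 := C.b5; have q2 := C.f11_0; have q3 := C.f11_1; have q4 := C.f11_2; have q5 := C.f23_9; have q6 := c62_1_1; have q7 := c63_4_0; have q8 := s3; clear C; omega)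
                      · rcases c0_11_23_33_k3_k_f33_5 C with ⟨c67_0_0, c67_0_1⟩ | ⟨c67_1_0, c67_1_1⟩
                        · first | linarith only [C.f33_4, c1_0_1, c2_0_0, c60_1_1, c67_0_1] | (have q0 := C.f33_4; have q1 := c1_0_1; have q2 := c2_0_0; have q3 := c60_1_1; have q4 := c67_0_1; clear C; omega)
                        · rcases c0_11_23_33_k3_k_f33_8 C with ⟨c68_0_0, c68_0_1⟩ | ⟨c68_1_0, c68_1_1⟩
                          · first | linarith only [C.b5, C.f11_0, C.f11_1, C.f13_4, C.f23_5, C.f33_7, C.o0, C.o1, C.o2, c0_0_1, c3_0_1, c67_1_1, c68_0_1, s2] | (have q0 := C.b5; have q1 := C.f11_0; have q2 := C.f11_1; have q3 := C.f13_4; have q4 := C.f23_5; have q5 := C.f33_7; have q6 := C.o0; have q7 := C.o1; have q8 := C.o2; have q9 := c0_0_1; have q10 := c3_0_1; have q11 := c67_1_1; have q12 := c68_0_1; have q13 := s2; clear C; omega)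
                          · rcases c0_11_23_33_k3_k_p11_33A C with c69_0_0 | c69_1_0 | c69_2_0 | c69_3_0 | c69_4_0
                            · first | linarith only [c69_0_0, e0] | (have q0 := c69_0_0; have q1 := e0; clear C; omega)
                            · first | linarith only [c69_1_0, e3] | (have q0 := c69_1_0; have q1 := e3; clear C; omega)
                            · rcases c0_11_23_33_k3_k_p13_22A C with c72_0_0 | c72_1_0 | c72_2_0 | c72_3_0 | c72_4_0 | c72_5_0
                              · first | linarith only [c1_0_0, c72_0_0] | (have q0 := c1_0_0; have q1 := c72_0_0; clear C; omega)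
                              · first | linarith only [c72_1_0, e2] | (have q0 := c72_1_0; have q1 := e2; clear C; omega)
                              · first | linarith only [C.b5, C.f23_1, C.f23_9, c1_0_0, c57_1_1, c58_0_1, c69_2_0, c72_2_0, s1] | (have q0 := C.b5; have q1 := C.f23_1; have q2 := C.f23_9; have q3 := c1_0_0; have q4 := c57_1_1; have q5 := c58_0_1; have q6 := c69_2_0; have q7 := c72_2_0; have q8 := s1; clear C; omega)
                              · first | linarith only [C.b5, C.f23_1, C.f23_9, c0_0_1, c57_1_1, c58_0_1, c5_1_1, c69_2_0, c72_3_0, s1] | (have q0 := C.b5; have q1 := C.f23_1; have q2 := C.f23_9; have q3 := c0_0_1; have q4 := c57_1_1; have q5 := c58_0_1; have q6 := c5_1_1; have q7 := c69_2_0; have q8 := c72_3_0; have q9 := s1; clear C; omega)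
                              · first | linarith only [C.b5, C.f11_1, C.f23_1, C.f23_9, C.f33_4, c0_0_1, c32_1_1, c3_0_1, c58_0_1, c60_1_1, c69_2_0, c72_4_0, s1, s2] | (have q0 := C.b5; have q1 := C.f11_1; have q2 := C.f23_1; have q3 := C.f23_9; have q4 := C.f33_4; have q5 := c0_0_1; have q6 := c32_1_1; have q7 := c3_0_1; have q8 := c58_0_1; have q9 := c60_1_1; have q10 := c69_2_0; have q11 := c72_4_0; have q12 := s1; have q13 := s2; clear C; omega)
                              · first | linarith only [C.b5, C.f22_6, C.o2, c32_1_1, c4_1_1, c72_5_0] | (have q0 := C.b5; have q1 := C.f22_6; have q2 := C.o2; have q3 := c32_1_1; have q4 := c4_1_1; have q5 := c72_5_0; clear C; omega)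
                            · first | linarith only [C.f23_5, c69_3_0, s2] | (have q0 := C.f23_5; have q1 := c69_3_0; have q2 := s2; clear C; omega)
                            · first | linarith only [C.b3, C.b5, C.f11_0, C.f11_1, C.f11_2, C.f23_9, c68_1_1, c69_4_0, s3] | (have q0 := C.b3; have q1 := C.b5; have q2 := C.f11_0; have q3 := C.f11_1; have q4 := C.f11_2; have q5 := C.f23_9; have q6 := c68_1_1; have q7 := c69_4_0; have q8 := s3; clear C; omega)
                    · rcases c0_11_23_33_k3_k_f33_2 C with ⟨c73_0_0, c73_0_1⟩ | ⟨c73_1_0, c73_1_1⟩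
                      · rcases c0_11_23_33_k3_k_p11_33B C with c74_0_0 | c74_1_0 | c74_2_0 | c74_3_0 | c74_4_0
                        · first | linarith only [c74_0_0, e0] | (have q0 := c74_0_0; have q1 := e0; clear C; omega)
                        · first | linarith only [c74_1_0, e3] | (have q0 := c74_1_0; have q1 := e3; clear C; omega)
                        · first | linarith only [C.a1, C.f11_0, C.o0, c73_0_1, c74_2_0] | (have q0 := C.a1; have q1 := C.f11_0; have q2 := C.o0; have q3 := c73_0_1; have q4 := c74_2_0; clear C; omega)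
                        · first | linarith only [C.f23_5, C.o1, c74_3_0, s2] | (have q0 := C.f23_5; have q1 := C.o1; have q2 := c74_3_0; have q3 := s2; clear C; omega)
                        · rcases c0_11_23_33_k3_k_f33_8 C with ⟨c75_0_0, c75_0_1⟩ | ⟨c75_1_0, c75_1_1⟩
                          · first | linarith only [C.b5, C.f11_2, C.f23_5, C.o1, c74_4_0, c75_0_1, s2] | (have q0 := C.b5; have q1 := C.f11_2; have q2 := C.f23_5; have q3 := C.o1; have q4 := c74_4_0; have q5 := c75_0_1; have q6 := s2; clear C; omega)
                          · rcases c0_11_23_33_k3_k_p11_33A C with c76_0_0 | c76_1_0 | c76_2_0 | c76_3_0 | c76_4_0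
                            · first | linarith only [c76_0_0, e0] | (have q0 := c76_0_0; have q1 := e0; clear C; omega)
                            · first | linarith only [c76_1_0, e3] | (have q0 := c76_1_0; have q1 := e3; clear C; omega)
                            · rcases c0_11_23_33_k3_k_p13_23A C with c77_0_0 | c77_1_0 | c77_2_0 | c77_3_0 | c77_4_0 | c77_5_0
                              · first | linarith only [c1_0_0, c77_0_0] | (have q0 := c1_0_0; have q1 := c77_0_0; clear C; omega)
                              · first | linarith only [c77_1_0, e2] | (have q0 := c77_1_0; have q1 := e2; clear C; omega)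
                              · first | linarith only [c77_2_0, e1] | (have q0 := c77_2_0; have q1 := e1; clear C; omega)
                              · first | linarith only [c0_0_1, c76_2_0, c77_3_0, s1] | (have q0 := c0_0_1; have q1 := c76_2_0; have q2 := c77_3_0; have q3 := s1; clear C; omega)
                              · rcases c0_11_23_33_k3_k_p23_33A C with c81_0_0 | c81_1_0 | c81_2_0 | c81_3_0 | c81_4_0 | c81_5_0
                                · first | linarith only [c81_0_0, e1] | (have q0 := c81_0_0; have q1 := e1; clear C; omega)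
                                · first | linarith only [c81_1_0, e2] | (have q0 := c81_1_0; have q1 := e2; clear C; omega)
                                · first | linarith only [c81_2_0, e3] | (have q0 := c81_2_0; have q1 := e3; clear C; omega)
                                · first | linarith only [C.f11_0, C.o0, c81_3_0, s1] | (have q0 := C.f11_0; have q1 := C.o0; have q2 := c81_3_0; have q3 := s1; clear C; omega)
                                · first | linarith only [C.f11_0, C.f11_1, C.o0, c0_0_1, c3_0_1, c57_1_1, c77_4_0, c81_4_0, s2] | (have q0 := C.f11_0; have q1 := C.f11_1; have q2 := C.o0; have q3 := c0_0_1; have q4 := c3_0_1; have q5 := c57_1_1; have q6 := c77_4_0; have q7 := c81_4_0; have q8 := s2; clear C; omega)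
                                · rcases c0_11_23_33_k3_k_tmpp C with c83_0_0 | c83_1_0 | c83_2_0 | c83_3_0
                                  · first | linarith only [C.f11_0, C.f23_0, C.f33_0, C.o0, c83_0_0, s1] | (have q0 := C.f11_0; have q1 := C.f23_0; have q2 := C.f33_0; have q3 := C.o0; have q4 := c83_0_0; have q5 := s1; clear C; omega)
                                  · first | linarith only [C.f23_1, c76_2_0, c83_1_0, s1] | (have q0 := C.f23_1; have q1 := c76_2_0; have q2 := c83_1_0; have q3 := s1; clear C; omega)
                                  · first | linarith only [c83_2_0, e0] | (have q0 := c83_2_0; have q1 := e0; clear C; omega)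
                                  · rcases c0_11_23_33_k3_k_p22_33A C with c84_0_0 | c84_1_0 | c84_2_0 | c84_3_0 | c84_4_0
                                    · first | linarith only [C.f23_1, c1_0_1, c76_2_0, c83_3_0, c84_0_0, e0, s1] | (have q0 := C.f23_1; have q1 := c1_0_1; have q2 := c76_2_0; have q3 := c83_3_0; have q4 := c84_0_0; have q5 := e0; have q6 := s1; clear C; omega)
                                    · first | linarith only [c84_1_0, e3] | (have q0 := c84_1_0; have q1 := e3; clear C; omega)
                                    · first | linarith only [C.f11_0, C.f23_1, c1_0_1, c5_1_1, c83_3_0, c84_2_0, s1] | (have q0 := C.f11_0; have q1 := C.f23_1; have q2 := c1_0_1; have q3 := c5_1_1; have q4 := c83_3_0; have q5 := c84_2_0; have q6 := s1; clear C; omega)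
                                    · first | linarith only [C.f11_0, C.f11_1, C.f23_5, c32_1_1, c83_3_0, c84_3_0, s2] | (have q0 := C.f11_0; have q1 := C.f11_1; have q2 := C.f23_5; have q3 := c32_1_1; have q4 := c83_3_0; have q5 := c84_3_0; have q6 := s2; clear C; omega)
                                    · rcases c0_11_23_33_k3_k_p11_23B C with c85_0_0 | c85_1_0 | c85_2_0 | c85_3_0 | c85_4_0 | c85_5_0
                                      · first | linarith only [c85_0_0, e0] | (have q0 := c85_0_0; have q1 := e0; clear C; omega)
                                      · first | linarith only [c85_1_0, e1] | (have q0 := c85_1_0; have q1 := e1; clear C; omega)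
                                      · first | linarith only [c85_2_0, e2] | (have q0 := c85_2_0; have q1 := e2; clear C; omega)
                                      · first | linarith only [C.f11_0, C.o0, c76_2_0, c85_3_0, s1] | (have q0 := C.f11_0; have q1 := C.o0; have q2 := c76_2_0; have q3 := c85_3_0; have q4 := s1; clear C; omega)
                                      · first | linarith only [C.f11_0, C.f11_1, C.f11_2, C.f22_6, C.o0, c0_0_1, c32_1_1, c3_0_1, c57_1_1, c75_1_1, c77_4_0, c81_5_0, c84_4_0, c85_4_0, s3] | (have q0 := C.f11_0; have q1 := C.f11_1; have q2 := C.f11_2; have q3 := C.f22_6; have q4 := C.o0; have q5 := c0_0_1; have q6 := c32_1_1; have q7 := c3_0_1; have q8 := c57_1_1; have q9 := c75_1_1; have q10 := c77_4_0; have q11 := c81_5_0; have q12 := c84_4_0; have q13 := c85_4_0; have q14 := s3; clear C; omega)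
                                      · rcases c0_11_23_33_k3_k_tmzp C with c88_0_0 | c88_1_0 | c88_2_0 | c88_3_0 | c88_4_0 | c88_5_0
                                        · first | linarith only [C.f11_0, C.f22_0, C.f23_1, C.f33_0, c1_0_1, c5_1_1, c83_3_0, c88_0_0, s1] | (have q0 := C.f11_0; have q1 := C.f22_0; have q2 := C.f23_1; have q3 := C.f33_0; have q4 := c1_0_1; have q5 := c5_1_1; have q6 := c83_3_0; have q7 := c88_0_0; have q8 := s1; clear C; omega)
                                        · first | linarith only [c2_0_0, c88_1_0] | (have q0 := c2_0_0; have q1 := c88_1_0; clear C; omega)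
                                        · first | linarith only [C.f11_0, C.f11_1, C.f23_5, C.f33_4, C.o1, c83_3_0, c88_2_0, s2] | (have q0 := C.f11_0; have q1 := C.f11_1; have q2 := C.f23_5; have q3 := C.f33_4; have q4 := C.o1; have q5 := c83_3_0; have q6 := c88_2_0; have q7 := s2; clear C; omega)
                                        · first | linarith only [c88_3_0, e0] | (have q0 := c88_3_0; have q1 := e0; clear C; omega)
                                        · first | linarith only [C.f11_0, C.f11_1, C.f11_2, C.f22_6, c32_1_1, c75_1_1, c81_5_0, c84_4_0, c88_4_0, s3] | (have q0 := C.f11_0; have q1 := C.f11_1; have q2 := C.f11_2; have q3 := C.f22_6; have q4 := c32_1_1; have q5 := c75_1_1; have q6 := c81_5_0; have q7 := c84_4_0; have q8 := c88_4_0; have q9 := s3; clear C; omega)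
                                        · rcases c0_11_23_33_k3_k_tzpm C with c90_0_0 | c90_1_0 | c90_2_0 | c90_3_0 | ⟨c90_4_0, c90_4_1⟩
                                          · first | linarith only [c2_0_0, c90_0_0] | (have q0 := c2_0_0; have q1 := c90_0_0; clear C; omega)
                                          · first | linarith only [C.f11_0, C.f11_1, C.f11_2, C.o0, c0_0_1, c3_0_1, c57_1_1, c77_4_0, c81_5_0, c90_1_0, s3] | (have q0 := C.f11_0; have q1 := C.f11_1; have q2 := C.f11_2; have q3 := C.o0; have q4 := c0_0_1; have q5 := c3_0_1; have q6 := c57_1_1; have q7 := c77_4_0; have q8 := c81_5_0; have q9 := c90_1_0; have q10 := s3; clear C; omega)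
                                          · first | linarith only [C.f11_0, C.f11_1, C.f11_2, c58_1_1, c75_1_1, c81_5_0, c88_5_0, c90_2_0, s3] | (have q0 := C.f11_0; have q1 := C.f11_1; have q2 := C.f11_2; have q3 := c58_1_1; have q4 := c75_1_1; have q5 := c81_5_0; have q6 := c88_5_0; have q7 := c90_2_0; have q8 := s3; clear C; omega)
                                          · first | linarith only [C.f11_0, C.f11_1, C.f11_2, C.f33_4, C.o0, c0_0_1, c3_0_1, c57_1_1, c77_4_0, c81_5_0, c88_5_0, c90_3_0, s2, s3] | (have q0 := C.f11_0; have q1 := C.f11_1; have q2 := C.f11_2; have q3 := C.f33_4; have q4 := C.o0; have q5 := c0_0_1; have q6 := c3_0_1; have q7 := c57_1_1; have q8 := c77_4_0; have q9 := c81_5_0; have q10 := c88_5_0; have q11 := c90_3_0; have q12 := s2; have q13 := s3; clear C; omega)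
                                          · rcases c0_11_23_33_k3_k_F1 hF1 with c92_0_0 | c92_1_0 | c92_2_0 | c92_3_0 | c92_4_0 | c92_5_0 | c92_6_0 | c92_7_0 | c92_8_0 | c92_9_0 | c92_10_0 | c92_11_0 | c92_12_0 | c92_13_0
                                            · first | linarith only [C.b5, C.f11_1, C.f11_2, C.f22_0, C.f23_1, C.f33_0, c1_0_1, c58_1_1, c5_1_1, c85_5_0, c92_0_0, s1] | (have q0 := C.b5; have q1 := C.f11_1; have q2 := C.f11_2; have q3 := C.f22_0; have q4 := C.f23_1; have q5 := C.f33_0; have q6 := c1_0_1; have q7 := c58_1_1; have q8 := c5_1_1; have q9 := c85_5_0; have q10 := c92_0_0; have q11 := s1; clear C; omega)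
                                            · first | linarith only [C.f11_0, c73_0_1, c76_2_0, c92_1_0, e0] | (have q0 := C.f11_0; have q1 := c73_0_1; have q2 := c76_2_0; have q3 := c92_1_0; have q4 := e0; clear C; omega)
                                            · first | linarith only [C.f23_1, c1_0_1, c76_2_0, c92_2_0, s1] | (have q0 := C.f23_1; have q1 := c1_0_1; have q2 := c76_2_0; have q3 := c92_2_0; have q4 := s1; clear C; omega)
                                            · first | linarith only [C.f11_1, C.f11_2, C.f23_9, C.f33_4, C.f33_7, c0_0_1, c3_0_1, c57_1_1, c73_0_1, c76_2_0, c77_4_0, c90_4_1, c92_3_0, s2, s3] | (have q0 := C.f11_1; have q1 := C.f11_2; have q2 := C.f23_9; have q3 := C.f33_4; have q4 := C.f33_7; have q5 := c0_0_1; have q6 := c3_0_1; have q7 := c57_1_1; have q8 := c73_0_1; have q9 := c76_2_0; have q10 := c77_4_0; have q11 := c90_4_1; have q12 := c92_3_0; have q13 := s2; have q14 := s3; clear C; omega)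
                                            · first | linarith only [c1_0_1, c92_4_0] | (have q0 := c1_0_1; have q1 := c92_4_0; clear C; omega)
                                            · first | linarith only [c0_0_1, c3_0_1, c57_1_1, c77_4_0, c92_5_0] | (have q0 := c0_0_1; have q1 := c3_0_1; have q2 := c57_1_1; have q3 := c77_4_0; have q4 := c92_5_0; clear C; omega)
                                            · first | linarith only [C.f11_1, C.f11_2, C.f23_9, C.f33_7, c0_0_1, c3_0_1, c57_1_1, c73_0_1, c76_2_0, c77_4_0, c90_4_1, c92_6_0, s3] | (have q0 := C.f11_1; have q1 := C.f11_2; have q2 := C.f23_9; have q3 := C.f33_7; have q4 := c0_0_1; have q5 := c3_0_1; have q6 := c57_1_1; have q7 := c73_0_1; have q8 := c76_2_0; have q9 := c77_4_0; have q10 := c90_4_1; have q11 := c92_6_0; have q12 := s3; clear C; omega)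
                                            · first | linarith only [C.f11_2, C.f33_0, C.f33_3, c0_0_1, c3_0_1, c58_1_1, c77_4_0, c85_5_0, c90_4_1, c92_7_0, s2] | (have q0 := C.f11_2; have q1 := C.f33_0; have q2 := C.f33_3; have q3 := c0_0_1; have q4 := c3_0_1; have q5 := c58_1_1; have q6 := c77_4_0; have q7 := c85_5_0; have q8 := c90_4_1; have q9 := c92_7_0; have q10 := s2; clear C; omega)
                                            · first | linarith only [C.f11_0, c73_0_1, c76_2_0, c92_8_0] | (have q0 := C.f11_0; have q1 := c73_0_1; have q2 := c76_2_0; have q3 := c92_8_0; clear C; omega)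
                                            · first | linarith only [C.f11_0, C.f11_1, C.f33_0, C.f33_3, c0_0_1, c3_0_1, c57_1_1, c77_4_0, c92_9_0, s2] | (have q0 := C.f11_0; have q1 := C.f11_1; have q2 := C.f33_0; have q3 := C.f33_3; have q4 := c0_0_1; have q5 := c3_0_1; have q6 := c57_1_1; have q7 := c77_4_0; have q8 := c92_9_0; have q9 := s2; clear C; omega)
                                            · first | linarith only [C.f11_0, C.f11_1, C.f11_2, C.f23_9, C.f33_7, c88_5_0, c90_4_1, c92_10_0, s3] | (have q0 := C.f11_0; have q1 := C.f11_1; have q2 := C.f11_2; have q3 := C.f23_9; have q4 := C.f33_7; have q5 := c88_5_0; have q6 := c90_4_1; have q7 := c92_10_0; have q8 := s3; clear C; omega)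
                                            · first | linarith only [c83_3_0, c92_11_0] | (have q0 := c83_3_0; have q1 := c92_11_0; clear C; omega)
                                            · first | linarith only [C.b5, c92_12_0] | (have q0 := C.b5; have q1 := c92_12_0; clear C; omega)
                                            · first | linarith only [c88_5_0, c92_13_0] | (have q0 := c88_5_0; have q1 := c92_13_0; clear C; omega)
                              · first | linarith only [C.o2, c4_1_1, c58_1_1, c77_5_0] | (have q0 := C.o2; have q1 := c4_1_1; have q2 := c58_1_1; have q3 := c77_5_0; clear C; omega)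
                            · first | linarith only [C.f23_5, c76_3_0, s2] | (have q0 := C.f23_5; have q1 := c76_3_0; have q2 := s2; clear C; omega)
                            · first | linarith only [C.b3, C.b5, C.f11_0, C.f11_1, C.f11_2, C.f23_9, c75_1_1, c76_4_0, s3] | (have q0 := C.b3; have q1 := C.b5; have q2 := C.f11_0; have q3 := C.f11_1; have q4 := C.f11_2; have q5 := C.f23_9; have q6 := c75_1_1; have q7 := c76_4_0; have q8 := s3; clear C; omega)
                      · rcases c0_11_23_33_k3_k_f33_5 C with ⟨c93_0_0, c93_0_1⟩ | ⟨c93_1_0, c93_1_1⟩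
                        · first | linarith only [C.f33_4, c1_0_1, c2_0_0, c73_1_1, c93_0_1] | (have q0 := C.f33_4; have q1 := c1_0_1; have q2 := c2_0_0; have q3 := c73_1_1; have q4 := c93_0_1; clear C; omega)
                        · rcases c0_11_23_33_k3_k_f33_8 C with ⟨c94_0_0, c94_0_1⟩ | ⟨c94_1_0, c94_1_1⟩
                          · first | linarith only [C.b5, C.f11_0, C.f11_1, C.f13_4, C.f23_5, C.f33_7, C.o0, C.o1, C.o2, c0_0_1, c3_0_1, c93_1_1, c94_0_1, s2] | (have q0 := C.b5; have q1 := C.f11_0; have q2 := C.f11_1; have q3 := C.f13_4; have q4 := C.f23_5; have q5 := C.f33_7; have q6 := C.o0; have q7 := C.o1; have q8 := C.o2; have q9 := c0_0_1; have q10 := c3_0_1; have q11 := c93_1_1; have q12 := c94_0_1; have q13 := s2; clear C; omega)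
                          · rcases c0_11_23_33_k3_k_p11_33A C with c95_0_0 | c95_1_0 | c95_2_0 | c95_3_0 | c95_4_0
                            · first | linarith only [c95_0_0, e0] | (have q0 := c95_0_0; have q1 := e0; clear C; omega)
                            · first | linarith only [c95_1_0, e3] | (have q0 := c95_1_0; have q1 := e3; clear C; omega)
                            · rcases c0_11_23_33_k3_k_p13_23A C with c97_0_0 | c97_1_0 | c97_2_0 | c97_3_0 | c97_4_0 | c97_5_0
                              · first | linarith only [c1_0_0, c97_0_0] | (have q0 := c1_0_0; have q1 := c97_0_0; clear C; omega)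
                              · first | linarith only [c97_1_0, e2] | (have q0 := c97_1_0; have q1 := e2; clear C; omega)
                              · first | linarith only [c97_2_0, e1] | (have q0 := c97_2_0; have q1 := e1; clear C; omega)
                              · first | linarith only [c0_0_1, c95_2_0, c97_3_0, s1] | (have q0 := c0_0_1; have q1 := c95_2_0; have q2 := c97_3_0; have q3 := s1; clear C; omega)
                              · first | linarith only [C.f11_1, C.f23_1, C.f33_4, c0_0_1, c3_0_1, c73_1_1, c95_2_0, c97_4_0, s1, s2] | (have q0 := C.f11_1; have q1 := C.f23_1; have q2 := C.f33_4; have q3 := c0_0_1; have q4 := c3_0_1; have q5 := c73_1_1; have q6 := c95_2_0; have q7 := c97_4_0; have q8 := s1; have q9 := s2; clear C; omega)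
                              · first | linarith only [C.o2, c4_1_1, c58_1_1, c97_5_0] | (have q0 := C.o2; have q1 := c4_1_1; have q2 := c58_1_1; have q3 := c97_5_0; clear C; omega)
                            · first | linarith only [C.f23_5, c95_3_0, s2] | (have q0 := C.f23_5; have q1 := c95_3_0; have q2 := s2; clear C; omega)
                            · first | linarith only [C.b3, C.b5, C.f11_0, C.f11_1, C.f11_2, C.f23_9, c94_1_1, c95_4_0, s3] | (have q0 := C.b3; have q1 := C.b5; have q2 := C.f11_0; have q3 := C.f11_1; have q4 := C.f11_2; have q5 := C.f23_9; have q6 := c94_1_1; have q7 := c95_4_0; have q8 := s3; clear C; omega)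
                  · first | linarith only [C.f11_0, C.f11_1, C.f13_4, C.f23_5, C.f33_4, C.o0, C.o2, c0_0_1, c3_0_1, c57_2_1, s2] | (have q0 := C.f11_0; have q1 := C.f11_1; have q2 := C.f13_4; have q3 := C.f23_5; have q4 := C.f33_4; have q5 := C.o0; have q6 := C.o2; have q7 := c0_0_1; have q8 := c3_0_1; have q9 := c57_2_1; have q10 := s2; clear C; omega)
                · first | linarith only [C.f11_0, C.f11_1, C.f13_4, C.f23_1, C.f23_5, C.f33_4, C.o0, C.o2, c0_0_1, c33_2_1, c3_0_1, s2] | (have q0 := C.f11_0; have q1 := C.f11_1; have q2 := C.f13_4; have q3 := C.f23_1; have q4 := C.f23_5; have q5 := C.f33_4; have q6 := C.o0; have q7 := C.o2; have q8 := c0_0_1; have q9 := c33_2_1; have q10 := c3_0_1; have q11 := s2; clear C; omega)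
        · rcases c0_11_23_33_k3_k_f13_8 C with ⟨c98_0_0, c98_0_1⟩ | ⟨c98_1_0, c98_1_1⟩
          · first | linarith only [C.a4, C.b5, C.f13_7, C.o1, C.o2, c3_1_1, c98_0_1] | (have q0 := C.a4; have q1 := C.b5; have q2 := C.f13_7; have q3 := C.o1; have q4 := C.o2; have q5 := c3_1_1; have q6 := c98_0_1; clear C; omega)
          · rcases c0_11_23_33_k3_k_f22_2 C with ⟨c100_0_0, c100_0_1⟩ | ⟨c100_1_0, c100_1_1⟩
            · rcases c0_11_23_33_k3_k_f22_5 C with ⟨c101_0_0, c101_0_1⟩ | ⟨c101_1_0, c101_1_1⟩
              · first | linarith only [C.a1, C.f11_0, C.f11_1, C.f13_0, C.f13_3, C.f22_4, C.f23_5, C.f33_4, C.o0, C.o1, C.o2, c100_0_1, c101_0_1, c3_1_1, s2] | (have q0 := C.a1; have q1 := C.f11_0; have q2 := C.f11_1; have q3 := C.f13_0; have q4 := C.f13_3; have q5 := C.f22_4; have q6 := C.f23_5; have q7 := C.f33_4; have q8 := C.o0; have q9 := C.o1; have q10 := C.o2; have q11 := c100_0_1; have q12 := c101_0_1; have q13 := c3_1_1; have q14 := s2; clear C; omega)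
              · rcases c0_11_23_33_k3_k_p13_22A C with c102_0_0 | c102_1_0 | c102_2_0 | c102_3_0 | c102_4_0 | c102_5_0
                · first | linarith only [c102_0_0, c1_0_0] | (have q0 := c102_0_0; have q1 := c1_0_0; clear C; omega)
                · first | linarith only [c102_1_0, e2] | (have q0 := c102_1_0; have q1 := e2; clear C; omega)
                · first | linarith only [C.a1, C.f22_1, c100_0_1, c102_2_0, c1_0_0] | (have q0 := C.a1; have q1 := C.f22_1; have q2 := c100_0_1; have q3 := c102_2_0; have q4 := c1_0_0; clear C; omega)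
                · first | linarith only [C.f11_0, C.f23_0, C.f33_0, C.o0, c0_0_1, c100_0_1, c102_3_0, s1] | (have q0 := C.f11_0; have q1 := C.f23_0; have q2 := C.f33_0; have q3 := C.o0; have q4 := c0_0_1; have q5 := c100_0_1; have q6 := c102_3_0; have q7 := s1; clear C; omega)
                · rcases c0_11_23_33_k3_k_p11_22B C with c104_0_0 | c104_1_0 | c104_2_0 | c104_3_0 | c104_4_0
                  · first | linarith only [c104_0_0, e0] | (have q0 := c104_0_0; have q1 := e0; clear C; omega)
                  · first | linarith only [C.f11_0, C.f22_1, C.f23_0, C.f33_0, C.o0, c100_0_1, c104_1_0, e0, s1] | (have q0 := C.f11_0; have q1 := C.f22_1; have q2 := C.f23_0; have q3 := C.f33_0; have q4 := C.o0; have q5 := c100_0_1; have q6 := c104_1_0; have q7 := e0; have q8 := s1; clear C; omega)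
                  · first | linarith only [C.f11_0, C.f23_0, C.f33_0, C.o0, c100_0_1, c104_2_0, s1] | (have q0 := C.f11_0; have q1 := C.f23_0; have q2 := C.f33_0; have q3 := C.o0; have q4 := c100_0_1; have q5 := c104_2_0; have q6 := s1; clear C; omega)
                  · first | linarith only [C.f23_5, C.f33_4, C.o2, c101_1_1, c102_4_0, c104_3_0, c3_1_1, s2] | (have q0 := C.f23_5; have q1 := C.f33_4; have q2 := C.o2; have q3 := c101_1_1; have q4 := c102_4_0; have q5 := c104_3_0; have q6 := c3_1_1; have q7 := s2; clear C; omega)
                  · first | linarith only [C.b5, C.f11_2, C.f22_6, C.f23_5, C.f33_4, C.o2, c101_1_1, c102_4_0, c104_4_0, c3_1_1, s2] | (have q0 := C.b5; have q1 := C.f11_2; have q2 := C.f22_6; have q3 := C.f23_5; have q4 := C.f33_4; have q5 := C.o2; have q6 := c101_1_1; have q7 := c102_4_0; have q8 := c104_4_0; have q9 := c3_1_1; have q10 := s2; clear C; omega)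
                · first | linarith only [C.b5, C.f22_6, C.o2, c101_1_1, c102_5_0, c98_1_1] | (have q0 := C.b5; have q1 := C.f22_6; have q2 := C.o2; have q3 := c101_1_1; have q4 := c102_5_0; have q5 := c98_1_1; clear C; omega)
            · rcases c0_11_23_33_k3_k_f22_5 C with ⟨c105_0_0, c105_0_1⟩ | ⟨c105_1_0, c105_1_1⟩
              · first | linarith only [C.f11_0, C.f11_1, C.f13_0, C.f13_3, C.f22_4, C.f23_5, C.f33_4, C.o0, C.o2, c100_1_1, c105_0_1, c2_0_0, c3_1_1, s2] | (have q0 := C.f11_0; have q1 := C.f11_1; have q2 := C.f13_0; have q3 := C.f13_3; have q4 := C.f22_4; have q5 := C.f23_5; have q6 := C.f33_4; have q7 := C.o0; have q8 := C.o2; have q9 := c100_1_1; have q10 := c105_0_1; have q11 := c2_0_0; have q12 := c3_1_1; have q13 := s2; clear C; omega)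
              · rcases c0_11_23_33_k3_k_f23_3 C with ⟨c106_0_0, c106_0_1⟩ | ⟨c106_1_0, c106_1_1⟩ | ⟨c106_2_0, c106_2_1⟩
                · rcases c0_11_23_33_k3_k_tmpp C with c108_0_0 | c108_1_0 | c108_2_0 | c108_3_0
                  · first | linarith only [C.f11_0, C.f23_0, C.f33_0, C.o0, c108_0_0, s1] | (have q0 := C.f11_0; have q1 := C.f23_0; have q2 := C.f33_0; have q3 := C.o0; have q4 := c108_0_0; have q5 := s1; clear C; omega)
                  · first | linarith only [C.f11_0, C.f23_1, C.f33_0, C.o0, c106_0_1, c108_1_0, s1] | (have q0 := C.f11_0; have q1 := C.f23_1; have q2 := C.f33_0; have q3 := C.o0; have q4 := c106_0_1; have q5 := c108_1_0; have q6 := s1; clear C; omega)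
                  · first | linarith only [c108_2_0, e0] | (have q0 := c108_2_0; have q1 := e0; clear C; omega)
                  · rcases c0_11_23_33_k3_k_p11_13B C with c112_0_0 | c112_1_0 | c112_2_0 | c112_3_0 | c112_4_0 | c112_5_0
                    · first | linarith only [c112_0_0, e0] | (have q0 := c112_0_0; have q1 := e0; clear C; omega)
                    · first | linarith only [c112_1_0, c1_0_0] | (have q0 := c112_1_0; have q1 := c1_0_0; clear C; omega)
                    · first | linarith only [c112_2_0, e2] | (have q0 := c112_2_0; have q1 := e2; clear C; omega)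
                    · first | linarith only [C.f11_1, C.f13_3, C.f23_5, C.f33_4, C.o1, C.o2, c108_3_0, c112_3_0, c3_1_1, s2] | (have q0 := C.f11_1; have q1 := C.f13_3; have q2 := C.f23_5; have q3 := C.f33_4; have q4 := C.o1; have q5 := C.o2; have q6 := c108_3_0; have q7 := c112_3_0; have q8 := c3_1_1; have q9 := s2; clear C; omega)
                    · first | linarith only [C.f23_5, C.f33_4, C.o1, C.o2, c112_4_0, c3_1_1, s2] | (have q0 := C.f23_5; have q1 := C.f33_4; have q2 := C.o1; have q3 := C.o2; have q4 := c112_4_0; have q5 := c3_1_1; have q6 := s2; clear C; omega)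
                    · rcases c0_11_23_33_k3_k_p13_22A C with c115_0_0 | c115_1_0 | c115_2_0 | c115_3_0 | c115_4_0 | c115_5_0
                      · first | linarith only [c115_0_0, c1_0_0] | (have q0 := c115_0_0; have q1 := c1_0_0; clear C; omega)
                      · first | linarith only [c115_1_0, e2] | (have q0 := c115_1_0; have q1 := e2; clear C; omega)
                      · first | linarith only [C.b5, C.f11_0, C.f11_1, C.f11_2, C.f13_0, C.f13_3, C.f23_1, C.f23_5, C.f33_0, C.f33_4, C.o1, C.o2, c106_0_1, c112_5_0, c115_2_0, c3_1_1, c98_1_1, e0, s1, s2] | (have q0 := C.b5; have q1 := C.f11_0; have q2 := C.f11_1; have q3 := C.f11_2; have q4 := C.f13_0; have q5 := C.f13_3; have q6 := C.f23_1; have q7 := C.f23_5; have q8 := C.f33_0; have q9 := C.f33_4; have q10 := C.o1; have q11 := C.o2; have q12 := c106_0_1; have q13 := c112_5_0; have q14 := c115_2_0; have q15 := c3_1_1; have q16 := c98_1_1; have q17 := e0; have q18 := s1; have q19 := s2; clear C; omega)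
                      · first | linarith only [C.b5, C.f11_1, C.f11_2, C.f13_3, C.f23_1, C.f23_5, C.f33_0, C.f33_4, C.o2, c0_0_1, c100_1_1, c106_0_1, c112_5_0, c115_3_0, c3_1_1, c98_1_1, s1, s2] | (have q0 := C.b5; have q1 := C.f11_1; have q2 := C.f11_2; have q3 := C.f13_3; have q4 := C.f23_1; have q5 := C.f23_5; have q6 := C.f33_0; have q7 := C.f33_4; have q8 := C.o2; have q9 := c0_0_1; have q10 := c100_1_1; have q11 := c106_0_1; have q12 := c112_5_0; have q13 := c115_3_0; have q14 := c3_1_1; have q15 := c98_1_1; have q16 := s1; have q17 := s2; clear C; omega)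
                      · first | linarith only [C.b5, C.f11_2, C.f23_5, C.f33_4, C.o2, c105_1_1, c112_5_0, c115_4_0, c3_1_1, c98_1_1, s2] | (have q0 := C.b5; have q1 := C.f11_2; have q2 := C.f23_5; have q3 := C.f33_4; have q4 := C.o2; have q5 := c105_1_1; have q6 := c112_5_0; have q7 := c115_4_0; have q8 := c3_1_1; have q9 := c98_1_1; have q10 := s2; clear C; omega)
                      · first | linarith only [C.b5, C.f22_6, C.o2, c105_1_1, c115_5_0, c98_1_1] | (have q0 := C.b5; have q1 := C.f22_6; have q2 := C.o2; have q3 := c105_1_1; have q4 := c115_5_0; have q5 := c98_1_1; clear C; omega)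
                · rcases c0_11_23_33_k3_k_f23_7 C with ⟨c116_0_0, c116_0_1⟩ | ⟨c116_1_0, c116_1_1⟩ | ⟨c116_2_0, c116_2_1⟩
                  · first | linarith only [C.f11_0, C.f11_1, C.f13_0, C.f13_3, C.f23_5, C.f33_4, C.o0, C.o2, c106_1_1, c116_0_1, c2_0_0, c3_1_1, s2] | (have q0 := C.f11_0; have q1 := C.f11_1; have q2 := C.f13_0; have q3 := C.f13_3; have q4 := C.f23_5; have q5 := C.f33_4; have q6 := C.o0; have q7 := C.o2; have q8 := c106_1_1; have q9 := c116_0_1; have q10 := c2_0_0; have q11 := c3_1_1; have q12 := s2; clear C; omega)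
                  · rcases c0_11_23_33_k3_k_f23_10 C with ⟨c117_0_0, c117_0_1⟩ | ⟨c117_1_0, c117_1_1⟩
                    · rcases c0_11_23_33_k3_k_tpmm C with c119_0_0 | c119_1_0 | c119_2_0 | c119_3_0 | c119_4_0
                      · first | linarith only [c119_0_0, c1_0_0] | (have q0 := c119_0_0; have q1 := c1_0_0; clear C; omega)
                      · first | linarith only [C.f11_0, C.f11_1, C.f13_0, C.f13_3, C.f23_5, C.f33_4, C.o0, C.o2, c119_1_0, c3_1_1, s2] | (have q0 := C.f11_0; have q1 := C.f11_1; have q2 := C.f13_0; have q3 := C.f13_3; have q4 := C.f23_5; have q5 := C.f33_4; have q6 := C.o0; have q7 := C.o2; have q8 := c119_1_0; have q9 := c3_1_1; have q10 := s2; clear C; omega)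
                      · first | linarith only [C.a1, C.o0, c119_2_0] | (have q0 := C.a1; have q1 := C.o0; have q2 := c119_2_0; clear C; omega)
                      · first | linarith only [C.b5, C.f23_9, C.o0, c116_1_1, c117_0_1, c119_3_0, c2_0_0] | (have q0 := C.b5; have q1 := C.f23_9; have q2 := C.o0; have q3 := c116_1_1; have q4 := c117_0_1; have q5 := c119_3_0; have q6 := c2_0_0; clear C; omega)
                      · rcases c0_11_23_33_k3_k_p11_33A C with c120_0_0 | c120_1_0 | c120_2_0 | c120_3_0 | c120_4_0
                        · first | linarith only [c120_0_0, e0] | (have q0 := c120_0_0; have q1 := e0; clear C; omega)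
                        · first | linarith only [c120_1_0, e3] | (have q0 := c120_1_0; have q1 := e3; clear C; omega)
                        · rcases c0_11_23_33_k3_k_p13_22A C with c121_0_0 | c121_1_0 | c121_2_0 | c121_3_0 | c121_4_0 | c121_5_0
                          · first | linarith only [c121_0_0, c1_0_0] | (have q0 := c121_0_0; have q1 := c1_0_0; clear C; omega)
                          · first | linarith only [c121_1_0, e2] | (have q0 := c121_1_0; have q1 := e2; clear C; omega)
                          · first | linarith only [C.b5, C.f23_9, c116_1_1, c117_0_1, c121_2_0, e1] | (have q0 := C.b5; have q1 := C.f23_9; have q2 := c116_1_1; have q3 := c117_0_1; have q4 := c121_2_0; have q5 := e1; clear C; omega)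
                          · first | linarith only [C.b5, C.f23_1, C.f23_9, c0_0_1, c100_1_1, c116_1_1, c117_0_1, c120_2_0, c121_3_0, s1] | (have q0 := C.b5; have q1 := C.f23_1; have q2 := C.f23_9; have q3 := c0_0_1; have q4 := c100_1_1; have q5 := c116_1_1; have q6 := c117_0_1; have q7 := c120_2_0; have q8 := c121_3_0; have q9 := s1; clear C; omega)
                          · rcases c0_11_23_33_k3_k_p11_13B C with c122_0_0 | c122_1_0 | c122_2_0 | c122_3_0 | c122_4_0 | c122_5_0
                            · first | linarith only [c122_0_0, e0] | (have q0 := c122_0_0; have q1 := e0; clear C; omega)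
                            · first | linarith only [c122_1_0, c1_0_0] | (have q0 := c122_1_0; have q1 := c1_0_0; clear C; omega)
                            · first | linarith only [c122_2_0, e2] | (have q0 := c122_2_0; have q1 := e2; clear C; omega)
                            · rcases c0_11_23_33_k3_k_p11_22B C with c126_0_0 | c126_1_0 | c126_2_0 | c126_3_0 | c126_4_0
                              · first | linarith only [c126_0_0, e0] | (have q0 := c126_0_0; have q1 := e0; clear C; omega)
                              · first | linarith only [C.b5, C.f23_9, C.o0, c116_1_1, c117_0_1, c126_1_0, c2_0_0, e0] | (have q0 := C.b5; have q1 := C.f23_9; have q2 := C.o0; have q3 := c116_1_1; have q4 := c117_0_1; have q5 := c126_1_0; have q6 := c2_0_0; have q7 := e0; clear C; omega)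
                              · first | linarith only [C.b5, C.f11_0, C.f23_9, C.o0, c100_1_1, c116_1_1, c117_0_1, c126_2_0, c2_0_0] | (have q0 := C.b5; have q1 := C.f11_0; have q2 := C.f23_9; have q3 := C.o0; have q4 := c100_1_1; have q5 := c116_1_1; have q6 := c117_0_1; have q7 := c126_2_0; have q8 := c2_0_0; clear C; omega)
                              · first | linarith only [C.f11_0, C.f11_1, C.f13_3, C.f23_5, C.f33_4, C.o1, C.o2, c105_1_1, c122_3_0, c126_3_0, c3_1_1, s2] | (have q0 := C.f11_0; have q1 := C.f11_1; have q2 := C.f13_3; have q3 := C.f23_5; have q4 := C.f33_4; have q5 := C.o1; have q6 := C.o2; have q7 := c105_1_1; have q8 := c122_3_0; have q9 := c126_3_0; have q10 := c3_1_1; have q11 := s2; clear C; omega)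
                              · first | linarith only [C.b5, C.f11_0, C.f11_1, C.f11_2, C.f13_3, C.f22_6, C.f23_5, C.f33_4, C.o1, C.o2, c105_1_1, c122_3_0, c126_4_0, c3_1_1, s2] | (have q0 := C.b5; have q1 := C.f11_0; have q2 := C.f11_1; have q3 := C.f11_2; have q4 := C.f13_3; have q5 := C.f22_6; have q6 := C.f23_5; have q7 := C.f33_4; have q8 := C.o1; have q9 := C.o2; have q10 := c105_1_1; have q11 := c122_3_0; have q12 := c126_4_0; have q13 := c3_1_1; have q14 := s2; clear C; omega)
                            · first | linarith only [C.f23_5, C.f33_4, C.o1, C.o2, c122_4_0, c3_1_1, s2] | (have q0 := C.f23_5; have q1 := C.f33_4; have q2 := C.o1; have q3 := C.o2; have q4 := c122_4_0; have q5 := c3_1_1; have q6 := s2; clear C; omega)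
                            · first | linarith only [C.b5, C.f11_2, C.f23_5, C.f33_4, C.o2, c105_1_1, c121_4_0, c122_5_0, c3_1_1, c98_1_1, s2] | (have q0 := C.b5; have q1 := C.f11_2; have q2 := C.f23_5; have q3 := C.f33_4; have q4 := C.o2; have q5 := c105_1_1; have q6 := c121_4_0; have q7 := c122_5_0; have q8 := c3_1_1; have q9 := c98_1_1; have q10 := s2; clear C; omega)
                          · first | linarith only [C.b5, C.f22_6, C.o2, c105_1_1, c121_5_0, c98_1_1] | (have q0 := C.b5; have q1 := C.f22_6; have q2 := C.o2; have q3 := c105_1_1; have q4 := c121_5_0; have q5 := c98_1_1; clear C; omega)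
                        · first | linarith only [C.f23_5, c120_3_0, s2] | (have q0 := C.f23_5; have q1 := c120_3_0; have q2 := s2; clear C; omega)
                        · first | linarith only [C.f23_9, c119_4_0, c120_4_0, s3] | (have q0 := C.f23_9; have q1 := c119_4_0; have q2 := c120_4_0; have q3 := s3; clear C; omega)
                    · rcases c0_11_23_33_k3_k_f33_2 C with ⟨c127_0_0, c127_0_1⟩ | ⟨c127_1_0, c127_1_1⟩
                      · rcases c0_11_23_33_k3_k_f33_5 C with ⟨c128_0_0, c128_0_1⟩ | ⟨c128_1_0, c128_1_1⟩
                        · first | linarith only [C.a1, C.f13_0, C.f13_3, C.f33_4, C.o2, c127_0_1, c128_0_1, c3_1_1] | (have q0 := C.a1; have q1 := C.f13_0; have q2 := C.f13_3; have q3 := C.f33_4; have q4 := C.o2; have q5 := c127_0_1; have q6 := c128_0_1; have q7 := c3_1_1; clear C; omega)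
                        · rcases c0_11_23_33_k3_k_f33_8 C with ⟨c129_0_0, c129_0_1⟩ | ⟨c129_1_0, c129_1_1⟩
                          · first | linarith only [C.b5, C.f22_0, C.f33_1, C.f33_7, C.o2, c100_1_1, c127_0_1, c128_1_1, c129_0_1] | (have q0 := C.b5; have q1 := C.f22_0; have q2 := C.f33_1; have q3 := C.f33_7; have q4 := C.o2; have q5 := c100_1_1; have q6 := c127_0_1; have q7 := c128_1_1; have q8 := c129_0_1; clear C; omega)
                          · rcases c0_11_23_33_k3_k_p11_33A C with c130_0_0 | c130_1_0 | c130_2_0 | c130_3_0 | c130_4_0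
                            · first | linarith only [c130_0_0, e0] | (have q0 := c130_0_0; have q1 := e0; clear C; omega)
                            · first | linarith only [c130_1_0, e3] | (have q0 := c130_1_0; have q1 := e3; clear C; omega)
                            · rcases c0_11_23_33_k3_k_p11_33B C with c131_0_0 | c131_1_0 | c131_2_0 | c131_3_0 | c131_4_0
                              · first | linarith only [c131_0_0, e0] | (have q0 := c131_0_0; have q1 := e0; clear C; omega)
                              · first | linarith only [c131_1_0, e3] | (have q0 := c131_1_0; have q1 := e3; clear C; omega)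
                              · first | linarith only [C.a1, C.f11_0, C.o0, c127_0_1, c131_2_0] | (have q0 := C.a1; have q1 := C.f11_0; have q2 := C.o0; have q3 := c127_0_1; have q4 := c131_2_0; clear C; omega)
                              · first | linarith only [C.f23_5, C.o1, c131_3_0, s2] | (have q0 := C.f23_5; have q1 := C.o1; have q2 := c131_3_0; have q3 := s2; clear C; omega)
                              · rcases c0_11_23_33_k3_k_p13_22A C with c132_0_0 | c132_1_0 | c132_2_0 | c132_3_0 | c132_4_0 | c132_5_0
                                · first | linarith only [c132_0_0, c1_0_0] | (have q0 := c132_0_0; have q1 := c1_0_0; clear C; omega)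
                                · first | linarith only [c132_1_0, e2] | (have q0 := c132_1_0; have q1 := e2; clear C; omega)
                                · first | linarith only [C.b2, c132_2_0, e0] | (have q0 := C.b2; have q1 := c132_2_0; have q2 := e0; clear C; omega)
                                · rcases c0_11_23_33_k3_k_p11_23B C with c133_0_0 | c133_1_0 | c133_2_0 | c133_3_0 | c133_4_0 | c133_5_0
                                  · first | linarith only [c133_0_0, e0] | (have q0 := c133_0_0; have q1 := e0; clear C; omega)
                                  · first | linarith only [c133_1_0, e1] | (have q0 := c133_1_0; have q1 := e1; clear C; omega)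
                                  · first | linarith only [c133_2_0, e2] | (have q0 := c133_2_0; have q1 := e2; clear C; omega)
                                  · first | linarith only [C.a1, C.f11_0, c127_0_1, c130_2_0, c133_3_0, s1] | (have q0 := C.a1; have q1 := C.f11_0; have q2 := c127_0_1; have q3 := c130_2_0; have q4 := c133_3_0; have q5 := s1; clear C; omega)
                                  · first | linarith only [C.f11_1, C.f13_3, C.f23_1, C.f33_1, C.o2, c0_0_1, c100_1_1, c116_1_1, c132_3_0, c133_4_0, c3_1_1, s1] | (have q0 := C.f11_1; have q1 := C.f13_3; have q2 := C.f23_1; have q3 := C.f33_1; have q4 := C.o2; have q5 := c0_0_1; have q6 := c100_1_1; have q7 := c116_1_1; have q8 := c132_3_0; have q9 := c133_4_0; have q10 := c3_1_1; have q11 := s1; clear C; omega)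
                                  · rcases c0_11_23_33_k3_k_p11_13B C with c134_0_0 | c134_1_0 | c134_2_0 | c134_3_0 | c134_4_0 | c134_5_0
                                    · first | linarith only [c134_0_0, e0] | (have q0 := c134_0_0; have q1 := e0; clear C; omega)
                                    · first | linarith only [c134_1_0, c1_0_0] | (have q0 := c134_1_0; have q1 := c1_0_0; clear C; omega)
                                    · first | linarith only [c134_2_0, e2] | (have q0 := c134_2_0; have q1 := e2; clear C; omega)
                                    · first | linarith only [C.f11_0, C.f11_1, C.f11_2, C.f13_3, C.f23_5, C.f23_8, C.f33_4, C.o2, c117_1_1, c133_5_0, c134_3_0, c3_1_1, s2] | (have q0 := C.f11_0; have q1 := C.f11_1; have q2 := C.f11_2; have q3 := C.f13_3; have q4 := C.f23_5; have q5 := C.f23_8; have q6 := C.f33_4; have q7 := C.o2; have q8 := c117_1_1; have q9 := c133_5_0; have q10 := c134_3_0; have q11 := c3_1_1; have q12 := s2; clear C; omega)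
                                    · first | linarith only [C.f23_1, C.f23_5, C.f33_4, C.o2, c0_0_1, c100_1_1, c130_2_0, c132_3_0, c134_4_0, c3_1_1, s1, s2] | (have q0 := C.f23_1; have q1 := C.f23_5; have q2 := C.f33_4; have q3 := C.o2; have q4 := c0_0_1; have q5 := c100_1_1; have q6 := c130_2_0; have q7 := c132_3_0; have q8 := c134_4_0; have q9 := c3_1_1; have q10 := s1; have q11 := s2; clear C; omega)
                                    · rcases c0_11_23_33_k3_k_p13_23A C with c136_0_0 | c136_1_0 | c136_2_0 | c136_3_0 | c136_4_0 | c136_5_0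
                                      · first | linarith only [c136_0_0, c1_0_0] | (have q0 := c136_0_0; have q1 := c1_0_0; clear C; omega)
                                      · first | linarith only [c136_1_0, e2] | (have q0 := c136_1_0; have q1 := e2; clear C; omega)
                                      · first | linarith only [c136_2_0, e1] | (have q0 := c136_2_0; have q1 := e1; clear C; omega)
                                      · first | linarith only [c0_0_1, c130_2_0, c136_3_0, s1] | (have q0 := c0_0_1; have q1 := c130_2_0; have q2 := c136_3_0; have q3 := s1; clear C; omega)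
                                      · first | linarith only [C.b5, C.f11_2, C.f33_4, C.o1, C.o2, c134_5_0, c136_4_0, c3_1_1, c98_1_1, s2] | (have q0 := C.b5; have q1 := C.f11_2; have q2 := C.f33_4; have q3 := C.o1; have q4 := C.o2; have q5 := c134_5_0; have q6 := c136_4_0; have q7 := c3_1_1; have q8 := c98_1_1; have q9 := s2; clear C; omega)
                                      · first | linarith only [C.o2, c117_1_1, c136_5_0, c98_1_1] | (have q0 := C.o2; have q1 := c117_1_1; have q2 := c136_5_0; have q3 := c98_1_1; clear C; omega)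
                                · first | linarith only [C.b5, C.f11_2, C.f23_5, C.f33_4, c105_1_1, c129_1_1, c131_4_0, c132_4_0, c3_1_1, s2] | (have q0 := C.b5; have q1 := C.f11_2; have q2 := C.f23_5; have q3 := C.f33_4; have q4 := c105_1_1; have q5 := c129_1_1; have q6 := c131_4_0; have q7 := c132_4_0; have q8 := c3_1_1; have q9 := s2; clear C; omega)
                                · first | linarith only [C.b5, C.f22_6, C.o2, c105_1_1, c132_5_0, c98_1_1] | (have q0 := C.b5; have q1 := C.f22_6; have q2 := C.o2; have q3 := c105_1_1; have q4 := c132_5_0; have q5 := c98_1_1; clear C; omega)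
                            · first | linarith only [C.f23_5, c130_3_0, s2] | (have q0 := C.f23_5; have q1 := c130_3_0; have q2 := s2; clear C; omega)
                            · first | linarith only [C.b3, C.b5, C.f11_0, C.f11_1, C.f11_2, C.f23_9, c129_1_1, c130_4_0, s3] | (have q0 := C.b3; have q1 := C.b5; have q2 := C.f11_0; have q3 := C.f11_1; have q4 := C.f11_2; have q5 := C.f23_9; have q6 := c129_1_1; have q7 := c130_4_0; have q8 := s3; clear C; omega)
                      · rcases c0_11_23_33_k3_k_f33_5 C with ⟨c137_0_0, c137_0_1⟩ | ⟨c137_1_0, c137_1_1⟩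
                        · first | linarith only [C.f11_0, C.f11_1, C.f13_0, C.f13_3, C.f23_5, C.f33_4, C.o0, C.o2, c127_1_1, c137_0_1, c2_0_0, c3_1_1, s2] | (have q0 := C.f11_0; have q1 := C.f11_1; have q2 := C.f13_0; have q3 := C.f13_3; have q4 := C.f23_5; have q5 := C.f33_4; have q6 := C.o0; have q7 := C.o2; have q8 := c127_1_1; have q9 := c137_0_1; have q10 := c2_0_0; have q11 := c3_1_1; have q12 := s2; clear C; omega)
                        · rcases c0_11_23_33_k3_k_f33_8 C with ⟨c138_0_0, c138_0_1⟩ | ⟨c138_1_0, c138_1_1⟩
                          · first | linarith only [C.a4, C.b5, C.f33_7, C.o1, C.o2, c137_1_1, c138_0_1] | (have q0 := C.a4; have q1 := C.b5; have q2 := C.f33_7; have q3 := C.o1; have q4 := C.o2; have q5 := c137_1_1; have q6 := c138_0_1; clear C; omega)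
                          · rcases c0_11_23_33_k3_k_p11_33A C with c139_0_0 | c139_1_0 | c139_2_0 | c139_3_0 | c139_4_0
                            · first | linarith only [c139_0_0, e0] | (have q0 := c139_0_0; have q1 := e0; clear C; omega)
                            · first | linarith only [c139_1_0, e3] | (have q0 := c139_1_0; have q1 := e3; clear C; omega)
                            · rcases c0_11_23_33_k3_k_p11_33B C with c140_0_0 | c140_1_0 | c140_2_0 | c140_3_0 | c140_4_0
                              · first | linarith only [c140_0_0, e0] | (have q0 := c140_0_0; have q1 := e0; clear C; omega)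
                              · first | linarith only [c140_1_0, e3] | (have q0 := c140_1_0; have q1 := e3; clear C; omega)
                              · first | linarith only [C.a4, C.f11_0, C.f23_1, C.o0, c127_1_1, c140_2_0, s1] | (have q0 := C.a4; have q1 := C.f11_0; have q2 := C.f23_1; have q3 := C.o0; have q4 := c127_1_1; have q5 := c140_2_0; have q6 := s1; clear C; omega)
                              · first | linarith only [C.f23_5, C.o1, c140_3_0, s2] | (have q0 := C.f23_5; have q1 := C.o1; have q2 := c140_3_0; have q3 := s2; clear C; omega)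
                              · rcases c0_11_23_33_k3_k_p13_22A C with c141_0_0 | c141_1_0 | c141_2_0 | c141_3_0 | c141_4_0 | c141_5_0
                                · first | linarith only [c141_0_0, c1_0_0] | (have q0 := c141_0_0; have q1 := c1_0_0; clear C; omega)
                                · first | linarith only [c141_1_0, e2] | (have q0 := c141_1_0; have q1 := e2; clear C; omega)
                                · first | linarith only [C.b2, c141_2_0, e0] | (have q0 := C.b2; have q1 := c141_2_0; have q2 := e0; clear C; omega)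
                                · rcases c0_11_23_33_k3_k_p11_23B C with c142_0_0 | c142_1_0 | c142_2_0 | c142_3_0 | c142_4_0 | c142_5_0
                                  · first | linarith only [c142_0_0, e0] | (have q0 := c142_0_0; have q1 := e0; clear C; omega)
                                  · first | linarith only [c142_1_0, e1] | (have q0 := c142_1_0; have q1 := e1; clear C; omega)
                                  · first | linarith only [c142_2_0, e2] | (have q0 := c142_2_0; have q1 := e2; clear C; omega)
                                  · first | linarith only [C.f11_0, C.o0, c139_2_0, c142_3_0, s1] | (have q0 := C.f11_0; have q1 := C.o0; have q2 := c139_2_0; have q3 := c142_3_0; have q4 := s1; clear C; omega)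
                                  · first | linarith only [C.f11_1, C.f13_3, C.f23_1, C.f33_1, C.o2, c0_0_1, c100_1_1, c116_1_1, c141_3_0, c142_4_0, c3_1_1, s1] | (have q0 := C.f11_1; have q1 := C.f13_3; have q2 := C.f23_1; have q3 := C.f33_1; have q4 := C.o2; have q5 := c0_0_1; have q6 := c100_1_1; have q7 := c116_1_1; have q8 := c141_3_0; have q9 := c142_4_0; have q10 := c3_1_1; have q11 := s1; clear C; omega)
                                  · rcases c0_11_23_33_k3_k_p11_13B C with c143_0_0 | c143_1_0 | c143_2_0 | c143_3_0 | c143_4_0 | c143_5_0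
                                    · first | linarith only [c143_0_0, e0] | (have q0 := c143_0_0; have q1 := e0; clear C; omega)
                                    · first | linarith only [c143_1_0, c1_0_0] | (have q0 := c143_1_0; have q1 := c1_0_0; clear C; omega)
                                    · first | linarith only [c143_2_0, e2] | (have q0 := c143_2_0; have q1 := e2; clear C; omega)
                                    · first | linarith only [C.f11_0, C.f11_2, C.f23_1, C.f23_5, C.f23_8, C.f33_4, c0_0_1, c117_1_1, c127_1_1, c139_2_0, c142_5_0, c143_3_0, s1, s2] | (have q0 := C.f11_0; have q1 := C.f11_2; have q2 := C.f23_1; have q3 := C.f23_5; have q4 := C.f23_8; have q5 := C.f33_4; have q6 := c0_0_1; have q7 := c117_1_1; have q8 := c127_1_1; have q9 := c139_2_0; have q10 := c142_5_0; have q11 := c143_3_0; have q12 := s1; have q13 := s2; clear C; omega)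
                                    · first | linarith only [C.f23_1, C.f23_5, C.f33_4, C.o2, c0_0_1, c100_1_1, c139_2_0, c141_3_0, c143_4_0, c3_1_1, s1, s2] | (have q0 := C.f23_1; have q1 := C.f23_5; have q2 := C.f33_4; have q3 := C.o2; have q4 := c0_0_1; have q5 := c100_1_1; have q6 := c139_2_0; have q7 := c141_3_0; have q8 := c143_4_0; have q9 := c3_1_1; have q10 := s1; have q11 := s2; clear C; omega)
                                    · rcases c0_11_23_33_k3_k_p13_23A C with c145_0_0 | c145_1_0 | c145_2_0 | c145_3_0 | c145_4_0 | c145_5_0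
                                      · first | linarith only [c145_0_0, c1_0_0] | (have q0 := c145_0_0; have q1 := c1_0_0; clear C; omega)
                                      · first | linarith only [c145_1_0, e2] | (have q0 := c145_1_0; have q1 := e2; clear C; omega)
                                      · first | linarith only [c145_2_0, e1] | (have q0 := c145_2_0; have q1 := e1; clear C; omega)
                                      · first | linarith only [c0_0_1, c139_2_0, c145_3_0, s1] | (have q0 := c0_0_1; have q1 := c139_2_0; have q2 := c145_3_0; have q3 := s1; clear C; omega)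
                                      · first | linarith only [C.b5, C.f11_2, C.f33_4, C.o1, C.o2, c143_5_0, c145_4_0, c3_1_1, c98_1_1, s2] | (have q0 := C.b5; have q1 := C.f11_2; have q2 := C.f33_4; have q3 := C.o1; have q4 := C.o2; have q5 := c143_5_0; have q6 := c145_4_0; have q7 := c3_1_1; have q8 := c98_1_1; have q9 := s2; clear C; omega)
                                      · first | linarith only [C.o2, c117_1_1, c145_5_0, c98_1_1] | (have q0 := C.o2; have q1 := c117_1_1; have q2 := c145_5_0; have q3 := c98_1_1; clear C; omega)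
                                · first | linarith only [C.b5, C.f11_2, C.f23_5, C.f33_4, c105_1_1, c138_1_1, c140_4_0, c141_4_0, c3_1_1, s2] | (have q0 := C.b5; have q1 := C.f11_2; have q2 := C.f23_5; have q3 := C.f33_4; have q4 := c105_1_1; have q5 := c138_1_1; have q6 := c140_4_0; have q7 := c141_4_0; have q8 := c3_1_1; have q9 := s2; clear C; omega)
                                · first | linarith only [C.b5, C.f22_6, C.o2, c105_1_1, c141_5_0, c98_1_1] | (have q0 := C.b5; have q1 := C.f22_6; have q2 := C.o2; have q3 := c105_1_1; have q4 := c141_5_0; have q5 := c98_1_1; clear C; omega)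
                            · first | linarith only [C.f23_5, c139_3_0, s2] | (have q0 := C.f23_5; have q1 := c139_3_0; have q2 := s2; clear C; omega)
                            · first | linarith only [C.b3, C.b5, C.f11_0, C.f11_1, C.f11_2, C.f23_9, c138_1_1, c139_4_0, s3] | (have q0 := C.b3; have q1 := C.b5; have q2 := C.f11_0; have q3 := C.f11_1; have q4 := C.f11_2; have q5 := C.f23_9; have q6 := c138_1_1; have q7 := c139_4_0; have q8 := s3; clear C; omega)
                  · first | linarith only [C.a4, C.f23_5, C.o2, c116_2_1] | (have q0 := C.a4; have q1 := C.f23_5; have q2 := C.o2; have q3 := c116_2_1; clear C; omega)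
                · first | linarith only [C.a4, C.f23_1, C.o2, c106_2_1] | (have q0 := C.a4; have q1 := C.f23_1; have q2 := C.o2; have q3 := c106_2_1; clear C; omega)
      · rcases c0_11_23_33_k3_k_f13_5 C with ⟨c146_0_0, c146_0_1⟩ | ⟨c146_1_0, c146_1_1⟩
        · rcases c0_11_23_33_k3_k_f13_8 C with ⟨c147_0_0, c147_0_1⟩ | ⟨c147_1_0, c147_1_1⟩
          · first | linarith only [C.f13_7, C.o1, c0_0_1, c146_0_1, c147_0_1, c1_0_1, c2_1_1] | (have q0 := C.f13_7; have q1 := C.o1; have q2 := c0_0_1; have q3 := c146_0_1; have q4 := c147_0_1; have q5 := c1_0_1; have q6 := c2_1_1; clear C; omega)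
          · rcases c0_11_23_33_k3_k_f22_2 C with ⟨c148_0_0, c148_0_1⟩ | ⟨c148_1_0, c148_1_1⟩
            · rcases c0_11_23_33_k3_k_f22_5 C with ⟨c149_0_0, c149_0_1⟩ | ⟨c149_1_0, c149_1_1⟩
              · first | linarith only [C.a1, C.f22_4, C.o1, c148_0_1, c149_0_1, c1_0_1] | (have q0 := C.a1; have q1 := C.f22_4; have q2 := C.o1; have q3 := c148_0_1; have q4 := c149_0_1; have q5 := c1_0_1; clear C; omega)
              · rcases c0_11_23_33_k3_k_p11_22B C with c150_0_0 | c150_1_0 | c150_2_0 | c150_3_0 | c150_4_0
                · first | linarith only [c150_0_0, e0] | (have q0 := c150_0_0; have q1 := e0; clear C; omega)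
                · first | linarith only [C.f11_0, C.f22_1, C.f23_0, C.f33_0, C.o0, c148_0_1, c150_1_0, e0, s1] | (have q0 := C.f11_0; have q1 := C.f22_1; have q2 := C.f23_0; have q3 := C.f33_0; have q4 := C.o0; have q5 := c148_0_1; have q6 := c150_1_0; have q7 := e0; have q8 := s1; clear C; omega)
                · first | linarith only [C.f11_0, C.f23_0, C.f33_0, C.o0, c148_0_1, c150_2_0, s1] | (have q0 := C.f11_0; have q1 := C.f23_0; have q2 := C.f33_0; have q3 := C.o0; have q4 := c148_0_1; have q5 := c150_2_0; have q6 := s1; clear C; omega)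
                · rcases c0_11_23_33_k3_k_f33_8 C with ⟨c152_0_0, c152_0_1⟩ | ⟨c152_1_0, c152_1_1⟩
                  · first | linarith only [C.f23_5, C.f33_7, C.o1, C.o2, c149_1_1, c150_3_0, c152_0_1, c2_1_1, s2] | (have q0 := C.f23_5; have q1 := C.f33_7; have q2 := C.o1; have q3 := C.o2; have q4 := c149_1_1; have q5 := c150_3_0; have q6 := c152_0_1; have q7 := c2_1_1; have q8 := s2; clear C; omega)
                  · rcases c0_11_23_33_k3_k_p22_33A C with c162_0_0 | c162_1_0 | c162_2_0 | c162_3_0 | c162_4_0
                    · first | linarith only [C.f11_0, C.f22_1, C.f23_0, C.f33_0, C.o0, c148_0_1, c162_0_0, e0, s1] | (have q0 := C.f11_0; have q1 := C.f22_1; have q2 := C.f23_0; have q3 := C.f33_0; have q4 := C.o0; have q5 := c148_0_1; have q6 := c162_0_0; have q7 := e0; have q8 := s1; clear C; omega)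
                    · first | linarith only [c162_1_0, e3] | (have q0 := c162_1_0; have q1 := e3; clear C; omega)
                    · first | linarith only [C.f11_0, C.f23_0, C.o0, c148_0_1, c162_2_0, s1] | (have q0 := C.f11_0; have q1 := C.f23_0; have q2 := C.o0; have q3 := c148_0_1; have q4 := c162_2_0; have q5 := s1; clear C; omega)
                    · first | linarith only [C.f23_5, c149_1_1, c150_3_0, c162_3_0, s2] | (have q0 := C.f23_5; have q1 := c149_1_1; have q2 := c150_3_0; have q3 := c162_3_0; have q4 := s2; clear C; omega)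
                    · first | linarith only [C.f22_6, C.o2, c149_1_1, c152_1_1, c162_4_0, c2_1_1] | (have q0 := C.f22_6; have q1 := C.o2; have q2 := c149_1_1; have q3 := c152_1_1; have q4 := c162_4_0; have q5 := c2_1_1; clear C; omega)
                · first | linarith only [C.b3, C.f11_0, C.f11_1, C.f11_2, C.f22_6, c149_1_1, c150_4_0, c2_1_1] | (have q0 := C.b3; have q1 := C.f11_0; have q2 := C.f11_1; have q3 := C.f11_2; have q4 := C.f22_6; have q5 := c149_1_1; have q6 := c150_4_0; have q7 := c2_1_1; clear C; omega)
            · rcases c0_11_23_33_k3_k_f22_5 C with ⟨c163_0_0, c163_0_1⟩ | ⟨c163_1_0, c163_1_1⟩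
              · first | linarith only [C.a2, C.f22_4, c148_1_1, c163_0_1, c1_0_1] | (have q0 := C.a2; have q1 := C.f22_4; have q2 := c148_1_1; have q3 := c163_0_1; have q4 := c1_0_1; clear C; omega)
              · rcases c0_11_23_33_k3_k_f23_3 C with ⟨c164_0_0, c164_0_1⟩ | ⟨c164_1_0, c164_1_1⟩ | ⟨c164_2_0, c164_2_1⟩
                · rcases c0_11_23_33_k3_k_f23_7 C with ⟨c165_0_0, c165_0_1⟩ | ⟨c165_1_0, c165_1_1⟩ | ⟨c165_2_0, c165_2_1⟩
                  · first | linarith only [C.f11_0, C.f23_5, C.f33_0, C.o0, c164_0_1, c165_0_1, c1_0_1, s1] | (have q0 := C.f11_0; have q1 := C.f23_5; have q2 := C.f33_0; have q3 := C.o0; have q4 := c164_0_1; have q5 := c165_0_1; have q6 := c1_0_1; have q7 := s1; clear C; omega)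
                  · rcases c0_11_23_33_k3_k_f23_10 C with ⟨c166_0_0, c166_0_1⟩ | ⟨c166_1_0, c166_1_1⟩
                    · first | linarith only [C.f23_9, C.o1, c165_1_1, c166_0_1, c2_1_1] | (have q0 := C.f23_9; have q1 := C.o1; have q2 := c165_1_1; have q3 := c166_0_1; have q4 := c2_1_1; clear C; omega)
                    · rcases c0_11_23_33_k3_k_p13_23A C with c167_0_0 | c167_1_0 | c167_2_0 | c167_3_0 | c167_4_0 | c167_5_0
                      · first | linarith only [c167_0_0, c1_0_0] | (have q0 := c167_0_0; have q1 := c1_0_0; clear C; omega)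
                      · first | linarith only [c167_1_0, e2] | (have q0 := c167_1_0; have q1 := e2; clear C; omega)
                      · first | linarith only [c167_2_0, e1] | (have q0 := c167_2_0; have q1 := e1; clear C; omega)
                      · first | linarith only [C.f11_0, C.f33_0, C.o0, c0_0_1, c164_0_1, c167_3_0, s1] | (have q0 := C.f11_0; have q1 := C.f33_0; have q2 := C.o0; have q3 := c0_0_1; have q4 := c164_0_1; have q5 := c167_3_0; have q6 := s1; clear C; omega)
                      · rcases c0_11_23_33_k3_k_f33_8 C with ⟨c169_0_0, c169_0_1⟩ | ⟨c169_1_0, c169_1_1⟩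
                        · first | linarith only [C.f11_0, C.f11_1, C.f33_7, C.o0, C.o1, C.o2, c0_0_1, c146_0_1, c167_4_0, c169_0_1, c2_1_1, s2] | (have q0 := C.f11_0; have q1 := C.f11_1; have q2 := C.f33_7; have q3 := C.o0; have q4 := C.o1; have q5 := C.o2; have q6 := c0_0_1; have q7 := c146_0_1; have q8 := c167_4_0; have q9 := c169_0_1; have q10 := c2_1_1; have q11 := s2; clear C; omega)
                        · rcases c0_11_23_33_k3_k_p11_33B C with c171_0_0 | c171_1_0 | c171_2_0 | c171_3_0 | c171_4_0
                          · first | linarith only [c171_0_0, e0] | (have q0 := c171_0_0; have q1 := e0; clear C; omega)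
                          · first | linarith only [c171_1_0, e3] | (have q0 := c171_1_0; have q1 := e3; clear C; omega)
                          · first | linarith only [C.f11_1, C.f33_3, C.o0, c0_0_1, c146_0_1, c165_1_1, c167_4_0, c171_2_0, s2] | (have q0 := C.f11_1; have q1 := C.f33_3; have q2 := C.o0; have q3 := c0_0_1; have q4 := c146_0_1; have q5 := c165_1_1; have q6 := c167_4_0; have q7 := c171_2_0; have q8 := s2; clear C; omega)
                          · first | linarith only [C.f23_5, C.o1, c171_3_0, s2] | (have q0 := C.f23_5; have q1 := C.o1; have q2 := c171_3_0; have q3 := s2; clear C; omega)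
                          · rcases c0_11_23_33_k3_k_p13_33A C with c172_0_0 | c172_1_0 | c172_2_0 | c172_3_0 | c172_4_0 | c172_5_0
                            · first | linarith only [c172_0_0, c1_0_0] | (have q0 := c172_0_0; have q1 := c1_0_0; clear C; omega)
                            · first | linarith only [c172_1_0, e2] | (have q0 := c172_1_0; have q1 := e2; clear C; omega)
                            · first | linarith only [c172_2_0, e3] | (have q0 := c172_2_0; have q1 := e3; clear C; omega)
                            · first | linarith only [C.f11_0, C.f11_1, C.f33_3, C.o0, c0_0_1, c146_0_1, c165_1_1, c167_4_0, c172_3_0, s2] | (have q0 := C.f11_0; have q1 := C.f11_1; have q2 := C.f33_3; have q3 := C.o0; have q4 := c0_0_1; have q5 := c146_0_1; have q6 := c165_1_1; have q7 := c167_4_0; have q8 := c172_3_0; have q9 := s2; clear C; omega)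
                            · first | linarith only [C.f11_0, C.f11_1, C.f23_5, C.o0, c0_0_1, c146_0_1, c172_4_0, s2] | (have q0 := C.f11_0; have q1 := C.f11_1; have q2 := C.f23_5; have q3 := C.o0; have q4 := c0_0_1; have q5 := c146_0_1; have q6 := c172_4_0; have q7 := s2; clear C; omega)
                            · rcases c0_11_23_33_k3_k_p11_22B C with c173_0_0 | c173_1_0 | c173_2_0 | c173_3_0 | c173_4_0
                              · first | linarith only [c173_0_0, e0] | (have q0 := c173_0_0; have q1 := e0; clear C; omega)
                              · first | linarith only [c173_1_0, c2_1_0, e0] | (have q0 := c173_1_0; have q1 := c2_1_0; have q2 := e0; clear C; omega)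
                              · first | linarith only [C.f11_0, C.f11_2, C.f23_1, C.f33_0, C.f33_3, C.o0, c0_0_1, c146_0_1, c147_1_1, c148_1_1, c164_0_1, c167_4_0, c169_1_1, c171_4_0, c172_5_0, c173_2_0, c2_1_1, s2] | (have q0 := C.f11_0; have q1 := C.f11_2; have q2 := C.f23_1; have q3 := C.f33_0; have q4 := C.f33_3; have q5 := C.o0; have q6 := c0_0_1; have q7 := c146_0_1; have q8 := c147_1_1; have q9 := c148_1_1; have q10 := c164_0_1; have q11 := c167_4_0; have q12 := c169_1_1; have q13 := c171_4_0; have q14 := c172_5_0; have q15 := c173_2_0; have q16 := c2_1_1; have q17 := s2; clear C; omega)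
                              · rcases c0_11_23_33_k3_k_p22_33A C with c176_0_0 | c176_1_0 | c176_2_0 | c176_3_0 | c176_4_0
                                · first | linarith only [C.f23_1, C.f33_0, C.f33_3, C.o0, c0_0_1, c146_0_1, c163_1_1, c164_0_1, c167_4_0, c173_3_0, c176_0_0, e0, s2] | (have q0 := C.f23_1; have q1 := C.f33_0; have q2 := C.f33_3; have q3 := C.o0; have q4 := c0_0_1; have q5 := c146_0_1; have q6 := c163_1_1; have q7 := c164_0_1; have q8 := c167_4_0; have q9 := c173_3_0; have q10 := c176_0_0; have q11 := e0; have q12 := s2; clear C; omega)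
                                · first | linarith only [c176_1_0, e3] | (have q0 := c176_1_0; have q1 := e3; clear C; omega)
                                · first | linarith only [C.f11_0, C.f11_1, C.f23_1, C.f33_0, C.f33_3, C.o0, c0_0_1, c146_0_1, c148_1_1, c163_1_1, c164_0_1, c165_1_1, c167_4_0, c173_3_0, c176_2_0, s2] | (have q0 := C.f11_0; have q1 := C.f11_1; have q2 := C.f23_1; have q3 := C.f33_0; have q4 := C.f33_3; have q5 := C.o0; have q6 := c0_0_1; have q7 := c146_0_1; have q8 := c148_1_1; have q9 := c163_1_1; have q10 := c164_0_1; have q11 := c165_1_1; have q12 := c167_4_0; have q13 := c173_3_0; have q14 := c176_2_0; have q15 := s2; clear C; omega)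
                                · first | linarith only [C.f23_5, c163_1_1, c173_3_0, c176_3_0, s2] | (have q0 := C.f23_5; have q1 := c163_1_1; have q2 := c173_3_0; have q3 := c176_3_0; have q4 := s2; clear C; omega)
                                · first | linarith only [C.f22_6, C.o2, c163_1_1, c169_1_1, c176_4_0, c2_1_1] | (have q0 := C.f22_6; have q1 := C.o2; have q2 := c163_1_1; have q3 := c169_1_1; have q4 := c176_4_0; have q5 := c2_1_1; clear C; omega)
                              · first | linarith only [C.f22_6, C.f23_9, c147_1_1, c163_1_1, c169_1_1, c172_5_0, c173_4_0, c2_1_1, s3] | (have q0 := C.f22_6; have q1 := C.f23_9; have q2 := c147_1_1; have q3 := c163_1_1; have q4 := c169_1_1; have q5 := c172_5_0; have q6 := c173_4_0; have q7 := c2_1_1; have q8 := s3; clear C; omega)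
                      · first | linarith only [C.o2, c147_1_1, c166_1_1, c167_5_0] | (have q0 := C.o2; have q1 := c147_1_1; have q2 := c166_1_1; have q3 := c167_5_0; clear C; omega)
                  · first | linarith only [C.f11_0, C.f11_1, C.f13_4, C.f23_5, C.f33_4, C.o0, C.o2, c0_0_1, c146_0_1, c165_2_1, s2] | (have q0 := C.f11_0; have q1 := C.f11_1; have q2 := C.f13_4; have q3 := C.f23_5; have q4 := C.f33_4; have q5 := C.o0; have q6 := C.o2; have q7 := c0_0_1; have q8 := c146_0_1; have q9 := c165_2_1; have q10 := s2; clear C; omega)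
                · rcases c0_11_23_33_k3_k_f23_7 C with ⟨c177_0_0, c177_0_1⟩ | ⟨c177_1_0, c177_1_1⟩ | ⟨c177_2_0, c177_2_1⟩
                  · first | linarith only [C.a2, C.f23_5, c164_1_1, c177_0_1, c1_0_1] | (have q0 := C.a2; have q1 := C.f23_5; have q2 := c164_1_1; have q3 := c177_0_1; have q4 := c1_0_1; clear C; omega)
                  · rcases c0_11_23_33_k3_k_f23_10 C with ⟨c178_0_0, c178_0_1⟩ | ⟨c178_1_0, c178_1_1⟩
                    · first | linarith only [C.f23_9, C.o1, c177_1_1, c178_0_1, c2_1_1] | (have q0 := C.f23_9; have q1 := C.o1; have q2 := c177_1_1; have q3 := c178_0_1; have q4 := c2_1_1; clear C; omega)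
                    · rcases c0_11_23_33_k3_k_f33_2 C with ⟨c179_0_0, c179_0_1⟩ | ⟨c179_1_0, c179_1_1⟩
                      · rcases c0_11_23_33_k3_k_p11_33B C with c180_0_0 | c180_1_0 | c180_2_0 | c180_3_0 | c180_4_0
                        · first | linarith only [c180_0_0, e0] | (have q0 := c180_0_0; have q1 := e0; clear C; omega)
                        · first | linarith only [c180_1_0, e3] | (have q0 := c180_1_0; have q1 := e3; clear C; omega)
                        · first | linarith only [C.a1, C.f11_0, C.o0, c179_0_1, c180_2_0] | (have q0 := C.a1; have q1 := C.f11_0; have q2 := C.o0; have q3 := c179_0_1; have q4 := c180_2_0; clear C; omega)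
                        · first | linarith only [C.f23_5, C.o1, c180_3_0, s2] | (have q0 := C.f23_5; have q1 := C.o1; have q2 := c180_3_0; have q3 := s2; clear C; omega)
                        · rcases c0_11_23_33_k3_k_f33_8 C with ⟨c181_0_0, c181_0_1⟩ | ⟨c181_1_0, c181_1_1⟩
                          · first | linarith only [C.f11_2, C.f23_5, C.o1, c180_4_0, c181_0_1, c2_1_1, s2] | (have q0 := C.f11_2; have q1 := C.f23_5; have q2 := C.o1; have q3 := c180_4_0; have q4 := c181_0_1; have q5 := c2_1_1; have q6 := s2; clear C; omega)
                          · rcases c0_11_23_33_k3_k_p11_33A C with c182_0_0 | c182_1_0 | c182_2_0 | c182_3_0 | c182_4_0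
                            · first | linarith only [c182_0_0, e0] | (have q0 := c182_0_0; have q1 := e0; clear C; omega)
                            · first | linarith only [c182_1_0, e3] | (have q0 := c182_1_0; have q1 := e3; clear C; omega)
                            · rcases c0_11_23_33_k3_k_p13_33A C with c184_0_0 | c184_1_0 | c184_2_0 | c184_3_0 | c184_4_0 | c184_5_0
                              · first | linarith only [c184_0_0, c1_0_0] | (have q0 := c184_0_0; have q1 := c1_0_0; clear C; omega)
                              · first | linarith only [c184_1_0, e2] | (have q0 := c184_1_0; have q1 := e2; clear C; omega)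
                              · first | linarith only [c184_2_0, e3] | (have q0 := c184_2_0; have q1 := e3; clear C; omega)
                              · first | linarith only [C.f11_0, C.f23_0, C.o0, c0_0_1, c179_0_1, c184_3_0, s1] | (have q0 := C.f11_0; have q1 := C.f23_0; have q2 := C.o0; have q3 := c0_0_1; have q4 := c179_0_1; have q5 := c184_3_0; have q6 := s1; clear C; omega)
                              · first | linarith only [C.f11_0, C.f11_1, C.f23_5, C.o0, c0_0_1, c146_0_1, c184_4_0, s2] | (have q0 := C.f11_0; have q1 := C.f11_1; have q2 := C.f23_5; have q3 := C.o0; have q4 := c0_0_1; have q5 := c146_0_1; have q6 := c184_4_0; have q7 := s2; clear C; omega)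
                              · rcases c0_11_23_33_k3_k_p11_22B C with c185_0_0 | c185_1_0 | c185_2_0 | c185_3_0 | c185_4_0
                                · first | linarith only [c185_0_0, e0] | (have q0 := c185_0_0; have q1 := e0; clear C; omega)
                                · first | linarith only [c185_1_0, c2_1_0, e0] | (have q0 := c185_1_0; have q1 := c2_1_0; have q2 := e0; clear C; omega)
                                · first | linarith only [C.f11_0, C.f11_1, C.f11_2, C.f23_1, c147_1_1, c148_1_1, c180_4_0, c181_1_1, c182_2_0, c184_5_0, c185_2_0, c1_0_1, c2_1_1, s1] | (have q0 := C.f11_0; have q1 := C.f11_1; have q2 := C.f11_2; have q3 := C.f23_1; have q4 := c147_1_1; have q5 := c148_1_1; have q6 := c180_4_0; have q7 := c181_1_1; have q8 := c182_2_0; have q9 := c184_5_0; have q10 := c185_2_0; have q11 := c1_0_1; have q12 := c2_1_1; have q13 := s1; clear C; omega)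
                                · rcases c0_11_23_33_k3_k_p22_33A C with c187_0_0 | c187_1_0 | c187_2_0 | c187_3_0 | c187_4_0
                                  · first | linarith only [C.f11_0, C.f11_1, C.f23_1, c163_1_1, c182_2_0, c185_3_0, c187_0_0, c1_0_1, e0, s1] | (have q0 := C.f11_0; have q1 := C.f11_1; have q2 := C.f23_1; have q3 := c163_1_1; have q4 := c182_2_0; have q5 := c185_3_0; have q6 := c187_0_0; have q7 := c1_0_1; have q8 := e0; have q9 := s1; clear C; omega)
                                  · first | linarith only [c187_1_0, e3] | (have q0 := c187_1_0; have q1 := e3; clear C; omega)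
                                  · first | linarith only [C.f11_1, C.f23_1, c148_1_1, c163_1_1, c185_3_0, c187_2_0, c1_0_1, s1] | (have q0 := C.f11_1; have q1 := C.f23_1; have q2 := c148_1_1; have q3 := c163_1_1; have q4 := c185_3_0; have q5 := c187_2_0; have q6 := c1_0_1; have q7 := s1; clear C; omega)
                                  · first | linarith only [C.f23_5, c163_1_1, c185_3_0, c187_3_0, s2] | (have q0 := C.f23_5; have q1 := c163_1_1; have q2 := c185_3_0; have q3 := c187_3_0; have q4 := s2; clear C; omega)
                                  · first | linarith only [C.f22_6, C.o2, c163_1_1, c181_1_1, c187_4_0, c2_1_1] | (have q0 := C.f22_6; have q1 := C.o2; have q2 := c163_1_1; have q3 := c181_1_1; have q4 := c187_4_0; have q5 := c2_1_1; clear C; omega)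
                                · first | linarith only [C.f22_6, C.f23_9, c147_1_1, c163_1_1, c181_1_1, c184_5_0, c185_4_0, c2_1_1, s3] | (have q0 := C.f22_6; have q1 := C.f23_9; have q2 := c147_1_1; have q3 := c163_1_1; have q4 := c181_1_1; have q5 := c184_5_0; have q6 := c185_4_0; have q7 := c2_1_1; have q8 := s3; clear C; omega)
                            · first | linarith only [C.f23_5, c182_3_0, s2] | (have q0 := C.f23_5; have q1 := c182_3_0; have q2 := s2; clear C; omega)
                            · first | linarith only [C.b3, C.f11_0, C.f11_1, C.f11_2, C.f23_9, c181_1_1, c182_4_0, c2_1_1, s3] | (have q0 := C.b3; have q1 := C.f11_0; have q2 := C.f11_1; have q3 := C.f11_2; have q4 := C.f23_9; have q5 := c181_1_1; have q6 := c182_4_0; have q7 := c2_1_1; have q8 := s3; clear C; omega)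
                      · rcases c0_11_23_33_k3_k_f33_5 C with ⟨c188_0_0, c188_0_1⟩ | ⟨c188_1_0, c188_1_1⟩
                        · first | linarith only [C.a2, C.f33_4, c179_1_1, c188_0_1, c1_0_1] | (have q0 := C.a2; have q1 := C.f33_4; have q2 := c179_1_1; have q3 := c188_0_1; have q4 := c1_0_1; clear C; omega)
                        · rcases c0_11_23_33_k3_k_f33_8 C with ⟨c189_0_0, c189_0_1⟩ | ⟨c189_1_0, c189_1_1⟩
                          · first | linarith only [C.f11_0, C.f11_1, C.f13_4, C.f23_5, C.f33_7, C.o0, C.o1, C.o2, c0_0_1, c146_0_1, c188_1_1, c189_0_1, c2_1_1, s2] | (have q0 := C.f11_0; have q1 := C.f11_1; have q2 := C.f13_4; have q3 := C.f23_5; have q4 := C.f33_7; have q5 := C.o0; have q6 := C.o1; have q7 := C.o2; have q8 := c0_0_1; have q9 := c146_0_1; have q10 := c188_1_1; have q11 := c189_0_1; have q12 := c2_1_1; have q13 := s2; clear C; omega)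
                          · rcases c0_11_23_33_k3_k_p11_33A C with c190_0_0 | c190_1_0 | c190_2_0 | c190_3_0 | c190_4_0
                            · first | linarith only [c190_0_0, e0] | (have q0 := c190_0_0; have q1 := e0; clear C; omega)
                            · first | linarith only [c190_1_0, e3] | (have q0 := c190_1_0; have q1 := e3; clear C; omega)
                            · rcases c0_11_23_33_k3_k_p13_23A C with c193_0_0 | c193_1_0 | c193_2_0 | c193_3_0 | c193_4_0 | c193_5_0
                              · first | linarith only [c193_0_0, c1_0_0] | (have q0 := c193_0_0; have q1 := c1_0_0; clear C; omega)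
                              · first | linarith only [c193_1_0, e2] | (have q0 := c193_1_0; have q1 := e2; clear C; omega)
                              · first | linarith only [c193_2_0, e1] | (have q0 := c193_2_0; have q1 := e1; clear C; omega)
                              · first | linarith only [c0_0_1, c190_2_0, c193_3_0, s1] | (have q0 := c0_0_1; have q1 := c190_2_0; have q2 := c193_3_0; have q3 := s1; clear C; omega)
                              · first | linarith only [C.f11_1, C.f23_1, C.f33_4, c0_0_1, c146_0_1, c179_1_1, c190_2_0, c193_4_0, s1, s2] | (have q0 := C.f11_1; have q1 := C.f23_1; have q2 := C.f33_4; have q3 := c0_0_1; have q4 := c146_0_1; have q5 := c179_1_1; have q6 := c190_2_0; have q7 := c193_4_0; have q8 := s1; have q9 := s2; clear C; omega)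
                              · first | linarith only [C.o2, c147_1_1, c178_1_1, c193_5_0] | (have q0 := C.o2; have q1 := c147_1_1; have q2 := c178_1_1; have q3 := c193_5_0; clear C; omega)
                            · first | linarith only [C.f23_5, c190_3_0, s2] | (have q0 := C.f23_5; have q1 := c190_3_0; have q2 := s2; clear C; omega)
                            · first | linarith only [C.b3, C.f11_0, C.f11_1, C.f11_2, C.f23_9, c189_1_1, c190_4_0, c2_1_1, s3] | (have q0 := C.b3; have q1 := C.f11_0; have q2 := C.f11_1; have q3 := C.f11_2; have q4 := C.f23_9; have q5 := c189_1_1; have q6 := c190_4_0; have q7 := c2_1_1; have q8 := s3; clear C; omega)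
                  · first | linarith only [C.f11_0, C.f11_1, C.f13_4, C.f23_5, C.f33_4, C.o0, C.o2, c0_0_1, c146_0_1, c177_2_1, s2] | (have q0 := C.f11_0; have q1 := C.f11_1; have q2 := C.f13_4; have q3 := C.f23_5; have q4 := C.f33_4; have q5 := C.o0; have q6 := C.o2; have q7 := c0_0_1; have q8 := c146_0_1; have q9 := c177_2_1; have q10 := s2; clear C; omega)
                · first | linarith only [C.f11_0, C.f11_1, C.f13_4, C.f23_1, C.f23_5, C.f33_4, C.o0, C.o2, c0_0_1, c146_0_1, c164_2_1, s2] | (have q0 := C.f11_0; have q1 := C.f11_1; have q2 := C.f13_4; have q3 := C.f23_1; have q4 := C.f23_5; have q5 := C.f33_4; have q6 := C.o0; have q7 := C.o2; have q8 := c0_0_1; have q9 := c146_0_1; have q10 := c164_2_1; have q11 := s2; clear C; omega)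
        · rcases c0_11_23_33_k3_k_f13_8 C with ⟨c194_0_0, c194_0_1⟩ | ⟨c194_1_0, c194_1_1⟩
          · first | linarith only [C.a4, C.f13_7, C.o1, C.o2, c146_1_1, c194_0_1, c2_1_1] | (have q0 := C.a4; have q1 := C.f13_7; have q2 := C.o1; have q3 := C.o2; have q4 := c146_1_1; have q5 := c194_0_1; have q6 := c2_1_1; clear C; omega)
          · rcases c0_11_23_33_k3_k_f22_2 C with ⟨c196_0_0, c196_0_1⟩ | ⟨c196_1_0, c196_1_1⟩
            · rcases c0_11_23_33_k3_k_f22_5 C with ⟨c197_0_0, c197_0_1⟩ | ⟨c197_1_0, c197_1_1⟩
              · first | linarith only [C.a1, C.f11_0, C.f11_1, C.f13_0, C.f13_3, C.f22_4, C.f23_5, C.f33_4, C.o0, C.o1, C.o2, c146_1_1, c196_0_1, c197_0_1, s2] | (have q0 := C.a1; have q1 := C.f11_0; have q2 := C.f11_1; have q3 := C.f13_0; have q4 := C.f13_3; have q5 := C.f22_4; have q6 := C.f23_5; have q7 := C.f33_4; have q8 := C.o0; have q9 := C.o1; have q10 := C.o2; have q11 := c146_1_1; have q12 := c196_0_1; have q13 := c197_0_1; have q14 := s2; clear C; omega)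
              · rcases c0_11_23_33_k3_k_p11_22B C with c198_0_0 | c198_1_0 | c198_2_0 | c198_3_0 | c198_4_0
                · first | linarith only [c198_0_0, e0] | (have q0 := c198_0_0; have q1 := e0; clear C; omega)
                · first | linarith only [C.a1, C.f22_1, c196_0_1, c198_1_0, c1_0_0] | (have q0 := C.a1; have q1 := C.f22_1; have q2 := c196_0_1; have q3 := c198_1_0; have q4 := c1_0_0; clear C; omega)
                · first | linarith only [C.f11_0, C.f23_0, C.f33_0, C.o0, c196_0_1, c198_2_0, s1] | (have q0 := C.f11_0; have q1 := C.f23_0; have q2 := C.f33_0; have q3 := C.o0; have q4 := c196_0_1; have q5 := c198_2_0; have q6 := s1; clear C; omega)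
                · rcases c0_11_23_33_k3_k_p11_13B C with c202_0_0 | c202_1_0 | c202_2_0 | c202_3_0 | c202_4_0 | c202_5_0
                  · first | linarith only [c202_0_0, e0] | (have q0 := c202_0_0; have q1 := e0; clear C; omega)
                  · first | linarith only [c1_0_0, c202_1_0] | (have q0 := c1_0_0; have q1 := c202_1_0; clear C; omega)
                  · first | linarith only [c202_2_0, e2] | (have q0 := c202_2_0; have q1 := e2; clear C; omega)
                  · first | linarith only [C.f11_0, C.f11_1, C.f13_3, C.f23_5, C.f33_4, C.o1, C.o2, c146_1_1, c197_1_1, c198_3_0, c202_3_0, s2] | (have q0 := C.f11_0; have q1 := C.f11_1; have q2 := C.f13_3; have q3 := C.f23_5; have q4 := C.f33_4; have q5 := C.o1; have q6 := C.o2; have q7 := c146_1_1; have q8 := c197_1_1; have q9 := c198_3_0; have q10 := c202_3_0; have q11 := s2; clear C; omega)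
                  · first | linarith only [C.f23_5, C.f33_4, C.o1, C.o2, c146_1_1, c202_4_0, s2] | (have q0 := C.f23_5; have q1 := C.f33_4; have q2 := C.o1; have q3 := C.o2; have q4 := c146_1_1; have q5 := c202_4_0; have q6 := s2; clear C; omega)
                  · rcases c0_11_23_33_k3_k_p13_22A C with c207_0_0 | c207_1_0 | c207_2_0 | c207_3_0 | c207_4_0 | c207_5_0
                    · first | linarith only [c1_0_0, c207_0_0] | (have q0 := c1_0_0; have q1 := c207_0_0; clear C; omega)
                    · first | linarith only [c207_1_0, e2] | (have q0 := c207_1_0; have q1 := e2; clear C; omega)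
                    · first | linarith only [C.a1, C.f11_0, C.f11_1, C.f11_2, C.f13_0, C.f13_3, C.f22_1, C.f23_5, C.f33_4, C.o2, c146_1_1, c194_1_1, c196_0_1, c202_5_0, c207_2_0, c2_1_1, e0, e1, s2] | (have q0 := C.a1; have q1 := C.f11_0; have q2 := C.f11_1; have q3 := C.f11_2; have q4 := C.f13_0; have q5 := C.f13_3; have q6 := C.f22_1; have q7 := C.f23_5; have q8 := C.f33_4; have q9 := C.o2; have q10 := c146_1_1; have q11 := c194_1_1; have q12 := c196_0_1; have q13 := c202_5_0; have q14 := c207_2_0; have q15 := c2_1_1; have q16 := e0; have q17 := e1; have q18 := s2; clear C; omega)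
                    · first | linarith only [C.f11_1, C.f11_2, C.f13_3, C.f23_0, C.f23_5, C.f33_0, C.f33_4, C.o1, C.o2, c0_0_1, c146_1_1, c194_1_1, c196_0_1, c202_5_0, c207_3_0, c2_1_1, s1, s2] | (have q0 := C.f11_1; have q1 := C.f11_2; have q2 := C.f13_3; have q3 := C.f23_0; have q4 := C.f23_5; have q5 := C.f33_0; have q6 := C.f33_4; have q7 := C.o1; have q8 := C.o2; have q9 := c0_0_1; have q10 := c146_1_1; have q11 := c194_1_1; have q12 := c196_0_1; have q13 := c202_5_0; have q14 := c207_3_0; have q15 := c2_1_1; have q16 := s1; have q17 := s2; clear C; omega)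
                    · first | linarith only [C.f11_2, C.f23_5, C.f33_4, C.o2, c146_1_1, c194_1_1, c197_1_1, c202_5_0, c207_4_0, c2_1_1, s2] | (have q0 := C.f11_2; have q1 := C.f23_5; have q2 := C.f33_4; have q3 := C.o2; have q4 := c146_1_1; have q5 := c194_1_1; have q6 := c197_1_1; have q7 := c202_5_0; have q8 := c207_4_0; have q9 := c2_1_1; have q10 := s2; clear C; omega)
                    · first | linarith only [C.f22_6, C.o2, c194_1_1, c197_1_1, c207_5_0, c2_1_1] | (have q0 := C.f22_6; have q1 := C.o2; have q2 := c194_1_1; have q3 := c197_1_1; have q4 := c207_5_0; have q5 := c2_1_1; clear C; omega)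
                · first | linarith only [C.b3, C.f11_0, C.f11_1, C.f11_2, C.f22_6, c197_1_1, c198_4_0, c2_1_1] | (have q0 := C.b3; have q1 := C.f11_0; have q2 := C.f11_1; have q3 := C.f11_2; have q4 := C.f22_6; have q5 := c197_1_1; have q6 := c198_4_0; have q7 := c2_1_1; clear C; omega)
            · rcases c0_11_23_33_k3_k_f22_5 C with ⟨c208_0_0, c208_0_1⟩ | ⟨c208_1_0, c208_1_1⟩
              · first | linarith only [C.a2, C.f11_0, C.f11_1, C.f13_0, C.f13_3, C.f22_4, C.f23_5, C.f33_4, C.o0, C.o2, c146_1_1, c196_1_1, c208_0_1, s2] | (have q0 := C.a2; have q1 := C.f11_0; have q2 := C.f11_1; have q3 := C.f13_0; have q4 := C.f13_3; have q5 := C.f22_4; have q6 := C.f23_5; have q7 := C.f33_4; have q8 := C.o0; have q9 := C.o2; have q10 := c146_1_1; have q11 := c196_1_1; have q12 := c208_0_1; have q13 := s2; clear C; omega)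
              · rcases c0_11_23_33_k3_k_f23_3 C with ⟨c209_0_0, c209_0_1⟩ | ⟨c209_1_0, c209_1_1⟩ | ⟨c209_2_0, c209_2_1⟩
                · rcases c0_11_23_33_k3_k_f23_7 C with ⟨c210_0_0, c210_0_1⟩ | ⟨c210_1_0, c210_1_1⟩ | ⟨c210_2_0, c210_2_1⟩
                  · first | linarith only [C.f11_0, C.f11_1, C.f13_0, C.f13_3, C.f23_5, C.f33_0, C.f33_4, C.o0, C.o2, c146_1_1, c209_0_1, c210_0_1, s1, s2] | (have q0 := C.f11_0; have q1 := C.f11_1; have q2 := C.f13_0; have q3 := C.f13_3; have q4 := C.f23_5; have q5 := C.f33_0; have q6 := C.f33_4; have q7 := C.o0; have q8 := C.o2; have q9 := c146_1_1; have q10 := c209_0_1; have q11 := c210_0_1; have q12 := s1; have q13 := s2; clear C; omega)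
                  · rcases c0_11_23_33_k3_k_f23_10 C with ⟨c211_0_0, c211_0_1⟩ | ⟨c211_1_0, c211_1_1⟩
                    · first | linarith only [C.f23_9, C.o1, c210_1_1, c211_0_1, c2_1_1] | (have q0 := C.f23_9; have q1 := C.o1; have q2 := c210_1_1; have q3 := c211_0_1; have q4 := c2_1_1; clear C; omega)
                    · rcases c0_11_23_33_k3_k_p13_23A C with c212_0_0 | c212_1_0 | c212_2_0 | c212_3_0 | c212_4_0 | c212_5_0
                      · first | linarith only [c1_0_0, c212_0_0] | (have q0 := c1_0_0; have q1 := c212_0_0; clear C; omega)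
                      · first | linarith only [c212_1_0, e2] | (have q0 := c212_1_0; have q1 := e2; clear C; omega)
                      · first | linarith only [c212_2_0, e1] | (have q0 := c212_2_0; have q1 := e1; clear C; omega)
                      · first | linarith only [C.f11_0, C.f33_0, C.o0, c0_0_1, c209_0_1, c212_3_0, s1] | (have q0 := C.f11_0; have q1 := C.f33_0; have q2 := C.o0; have q3 := c0_0_1; have q4 := c209_0_1; have q5 := c212_3_0; have q6 := s1; clear C; omega)
                      · rcases c0_11_23_33_k3_k_p11_22B C with c214_0_0 | c214_1_0 | c214_2_0 | c214_3_0 | c214_4_0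
                        · first | linarith only [c214_0_0, e0] | (have q0 := c214_0_0; have q1 := e0; clear C; omega)
                        · first | linarith only [c214_1_0, c2_1_0, e0] | (have q0 := c214_1_0; have q1 := c2_1_0; have q2 := e0; clear C; omega)
                        · rcases c0_11_23_33_k3_k_p11_23B C with c218_0_0 | c218_1_0 | c218_2_0 | c218_3_0 | c218_4_0 | c218_5_0
                          · first | linarith only [c218_0_0, e0] | (have q0 := c218_0_0; have q1 := e0; clear C; omega)
                          · first | linarith only [c218_1_0, e1] | (have q0 := c218_1_0; have q1 := e1; clear C; omega)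
                          · first | linarith only [c218_2_0, e2] | (have q0 := c218_2_0; have q1 := e2; clear C; omega)
                          · first | linarith only [C.f11_0, C.f33_0, C.o0, c209_0_1, c218_3_0, s1] | (have q0 := C.f11_0; have q1 := C.f33_0; have q2 := C.o0; have q3 := c209_0_1; have q4 := c218_3_0; have q5 := s1; clear C; omega)
                          · first | linarith only [C.f11_0, C.f11_1, C.f13_0, C.f13_3, C.f23_1, C.f33_0, C.f33_4, C.o0, C.o2, c146_1_1, c196_1_1, c209_0_1, c210_1_1, c214_2_0, c218_4_0, s1, s2] | (have q0 := C.f11_0; have q1 := C.f11_1; have q2 := C.f13_0; have q3 := C.f13_3; have q4 := C.f23_1; have q5 := C.f33_0; have q6 := C.f33_4; have q7 := C.o0; have q8 := C.o2; have q9 := c146_1_1; have q10 := c196_1_1; have q11 := c209_0_1; have q12 := c210_1_1; have q13 := c214_2_0; have q14 := c218_4_0; have q15 := s1; have q16 := s2; clear C; omega)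
                          · first | linarith only [C.f11_0, C.f11_1, C.f11_2, C.f13_0, C.f13_3, C.f23_1, C.f23_5, C.f33_0, C.f33_4, C.o0, C.o2, c146_1_1, c196_1_1, c209_0_1, c211_1_1, c214_2_0, c218_5_0, c2_1_1, s1, s2] | (have q0 := C.f11_0; have q1 := C.f11_1; have q2 := C.f11_2; have q3 := C.f13_0; have q4 := C.f13_3; have q5 := C.f23_1; have q6 := C.f23_5; have q7 := C.f33_0; have q8 := C.f33_4; have q9 := C.o0; have q10 := C.o2; have q11 := c146_1_1; have q12 := c196_1_1; have q13 := c209_0_1; have q14 := c211_1_1; have q15 := c214_2_0; have q16 := c218_5_0; have q17 := c2_1_1; have q18 := s1; have q19 := s2; clear C; omega)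
                        · first | linarith only [C.f33_4, C.o1, C.o2, c146_1_1, c208_1_1, c212_4_0, c214_3_0, s2] | (have q0 := C.f33_4; have q1 := C.o1; have q2 := C.o2; have q3 := c146_1_1; have q4 := c208_1_1; have q5 := c212_4_0; have q6 := c214_3_0; have q7 := s2; clear C; omega)
                        · first | linarith only [C.f11_2, C.f22_6, C.f33_4, C.o1, C.o2, c146_1_1, c208_1_1, c212_4_0, c214_4_0, c2_1_1, s2] | (have q0 := C.f11_2; have q1 := C.f22_6; have q2 := C.f33_4; have q3 := C.o1; have q4 := C.o2; have q5 := c146_1_1; have q6 := c208_1_1; have q7 := c212_4_0; have q8 := c214_4_0; have q9 := c2_1_1; have q10 := s2; clear C; omega)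
                      · first | linarith only [C.o2, c194_1_1, c211_1_1, c212_5_0] | (have q0 := C.o2; have q1 := c194_1_1; have q2 := c211_1_1; have q3 := c212_5_0; clear C; omega)
                  · first | linarith only [C.a4, C.f23_5, C.o2, c210_2_1] | (have q0 := C.a4; have q1 := C.f23_5; have q2 := C.o2; have q3 := c210_2_1; clear C; omega)
                · rcases c0_11_23_33_k3_k_f23_7 C with ⟨c219_0_0, c219_0_1⟩ | ⟨c219_1_0, c219_1_1⟩ | ⟨c219_2_0, c219_2_1⟩
                  · first | linarith only [C.a2, C.f11_0, C.f11_1, C.f13_0, C.f13_3, C.f23_5, C.f33_4, C.o0, C.o2, c146_1_1, c209_1_1, c219_0_1, s2] | (have q0 := C.a2; have q1 := C.f11_0; have q2 := C.f11_1; have q3 := C.f13_0; have q4 := C.f13_3; have q5 := C.f23_5; have q6 := C.f33_4; have q7 := C.o0; have q8 := C.o2; have q9 := c146_1_1; have q10 := c209_1_1; have q11 := c219_0_1; have q12 := s2; clear C; omega)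
                  · rcases c0_11_23_33_k3_k_f23_10 C with ⟨c220_0_0, c220_0_1⟩ | ⟨c220_1_0, c220_1_1⟩
                    · first | linarith only [C.f23_9, C.o1, c219_1_1, c220_0_1, c2_1_1] | (have q0 := C.f23_9; have q1 := C.o1; have q2 := c219_1_1; have q3 := c220_0_1; have q4 := c2_1_1; clear C; omega)
                    · rcases c0_11_23_33_k3_k_f33_2 C with ⟨c221_0_0, c221_0_1⟩ | ⟨c221_1_0, c221_1_1⟩
                      · rcases c0_11_23_33_k3_k_f33_5 C with ⟨c222_0_0, c222_0_1⟩ | ⟨c222_1_0, c222_1_1⟩
                        · first | linarith only [C.a1, C.f13_0, C.f13_3, C.f33_4, C.o2, c146_1_1, c221_0_1, c222_0_1] | (have q0 := C.a1; have q1 := C.f13_0; have q2 := C.f13_3; have q3 := C.f33_4; have q4 := C.o2; have q5 := c146_1_1; have q6 := c221_0_1; have q7 := c222_0_1; clear C; omega)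
                        · rcases c0_11_23_33_k3_k_f33_8 C with ⟨c223_0_0, c223_0_1⟩ | ⟨c223_1_0, c223_1_1⟩
                          · first | linarith only [C.f22_0, C.f33_1, C.f33_7, C.o2, c196_1_1, c221_0_1, c222_1_1, c223_0_1, c2_1_1] | (have q0 := C.f22_0; have q1 := C.f33_1; have q2 := C.f33_7; have q3 := C.o2; have q4 := c196_1_1; have q5 := c221_0_1; have q6 := c222_1_1; have q7 := c223_0_1; have q8 := c2_1_1; clear C; omega)
                          · rcases c0_11_23_33_k3_k_p11_33A C with c224_0_0 | c224_1_0 | c224_2_0 | c224_3_0 | c224_4_0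
                            · first | linarith only [c224_0_0, e0] | (have q0 := c224_0_0; have q1 := e0; clear C; omega)
                            · first | linarith only [c224_1_0, e3] | (have q0 := c224_1_0; have q1 := e3; clear C; omega)
                            · rcases c0_11_23_33_k3_k_p11_33B C with c225_0_0 | c225_1_0 | c225_2_0 | c225_3_0 | c225_4_0
                              · first | linarith only [c225_0_0, e0] | (have q0 := c225_0_0; have q1 := e0; clear C; omega)
                              · first | linarith only [c225_1_0, e3] | (have q0 := c225_1_0; have q1 := e3; clear C; omega)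
                              · first | linarith only [C.a1, C.f11_0, C.o0, c221_0_1, c225_2_0] | (have q0 := C.a1; have q1 := C.f11_0; have q2 := C.o0; have q3 := c221_0_1; have q4 := c225_2_0; clear C; omega)
                              · first | linarith only [C.f23_5, C.o1, c225_3_0, s2] | (have q0 := C.f23_5; have q1 := C.o1; have q2 := c225_3_0; have q3 := s2; clear C; omega)
                              · rcases c0_11_23_33_k3_k_p11_22B C with c226_0_0 | c226_1_0 | c226_2_0 | c226_3_0 | c226_4_0
                                · first | linarith only [c226_0_0, e0] | (have q0 := c226_0_0; have q1 := e0; clear C; omega)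
                                · first | linarith only [c226_1_0, c2_1_0, e0] | (have q0 := c226_1_0; have q1 := c2_1_0; have q2 := e0; clear C; omega)
                                · first | linarith only [C.f11_0, C.f11_1, C.f11_2, C.f13_0, C.f13_3, C.f23_0, C.f33_1, C.o0, c146_1_1, c196_1_1, c221_0_1, c223_1_1, c225_4_0, c226_2_0, c2_1_1, s1] | (have q0 := C.f11_0; have q1 := C.f11_1; have q2 := C.f11_2; have q3 := C.f13_0; have q4 := C.f13_3; have q5 := C.f23_0; have q6 := C.f33_1; have q7 := C.o0; have q8 := c146_1_1; have q9 := c196_1_1; have q10 := c221_0_1; have q11 := c223_1_1; have q12 := c225_4_0; have q13 := c226_2_0; have q14 := c2_1_1; have q15 := s1; clear C; omega)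
                                · rcases c0_11_23_33_k3_k_p11_13B C with c227_0_0 | c227_1_0 | c227_2_0 | c227_3_0 | c227_4_0 | c227_5_0
                                  · first | linarith only [c227_0_0, e0] | (have q0 := c227_0_0; have q1 := e0; clear C; omega)
                                  · first | linarith only [c1_0_0, c227_1_0] | (have q0 := c1_0_0; have q1 := c227_1_0; clear C; omega)
                                  · first | linarith only [c227_2_0, e2] | (have q0 := c227_2_0; have q1 := e2; clear C; omega)
                                  · first | linarith only [C.f11_0, C.f11_1, C.f13_3, C.f23_5, C.f33_4, C.o1, C.o2, c146_1_1, c208_1_1, c226_3_0, c227_3_0, s2] | (have q0 := C.f11_0; have q1 := C.f11_1; have q2 := C.f13_3; have q3 := C.f23_5; have q4 := C.f33_4; have q5 := C.o1; have q6 := C.o2; have q7 := c146_1_1; have q8 := c208_1_1; have q9 := c226_3_0; have q10 := c227_3_0; have q11 := s2; clear C; omega)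
                                  · first | linarith only [C.f23_5, C.f33_4, C.o1, C.o2, c146_1_1, c227_4_0, s2] | (have q0 := C.f23_5; have q1 := C.f33_4; have q2 := C.o1; have q3 := C.o2; have q4 := c146_1_1; have q5 := c227_4_0; have q6 := s2; clear C; omega)
                                  · rcases c0_11_23_33_k3_k_p13_22A C with c228_0_0 | c228_1_0 | c228_2_0 | c228_3_0 | c228_4_0 | c228_5_0
                                    · first | linarith only [c1_0_0, c228_0_0] | (have q0 := c1_0_0; have q1 := c228_0_0; clear C; omega)
                                    · first | linarith only [c228_1_0, e2] | (have q0 := c228_1_0; have q1 := e2; clear C; omega)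
                                    · first | linarith only [C.f11_0, C.f11_1, C.f11_2, C.f13_0, C.f13_3, C.f23_1, C.f23_5, C.f33_4, C.o2, c146_1_1, c194_1_1, c1_0_0, c224_2_0, c227_5_0, c228_2_0, c2_1_1, e0, s1, s2] | (have q0 := C.f11_0; have q1 := C.f11_1; have q2 := C.f11_2; have q3 := C.f13_0; have q4 := C.f13_3; have q5 := C.f23_1; have q6 := C.f23_5; have q7 := C.f33_4; have q8 := C.o2; have q9 := c146_1_1; have q10 := c194_1_1; have q11 := c1_0_0; have q12 := c224_2_0; have q13 := c227_5_0; have q14 := c228_2_0; have q15 := c2_1_1; have q16 := e0; have q17 := s1; have q18 := s2; clear C; omega)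
                                    · rcases c0_11_23_33_k3_k_p13_23A C with c231_0_0 | c231_1_0 | c231_2_0 | c231_3_0 | c231_4_0 | c231_5_0
                                      · first | linarith only [c1_0_0, c231_0_0] | (have q0 := c1_0_0; have q1 := c231_0_0; clear C; omega)
                                      · first | linarith only [c231_1_0, e2] | (have q0 := c231_1_0; have q1 := e2; clear C; omega)
                                      · first | linarith only [c231_2_0, e1] | (have q0 := c231_2_0; have q1 := e1; clear C; omega)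
                                      · first | linarith only [C.f11_1, C.f11_2, C.f13_3, C.f33_1, C.o2, c0_0_1, c146_1_1, c194_1_1, c196_1_1, c227_5_0, c228_3_0, c231_3_0, c2_1_1, s1] | (have q0 := C.f11_1; have q1 := C.f11_2; have q2 := C.f13_3; have q3 := C.f33_1; have q4 := C.o2; have q5 := c0_0_1; have q6 := c146_1_1; have q7 := c194_1_1; have q8 := c196_1_1; have q9 := c227_5_0; have q10 := c228_3_0; have q11 := c231_3_0; have q12 := c2_1_1; have q13 := s1; clear C; omega)
                                      · first | linarith only [C.f11_1, C.f11_2, C.f13_3, C.f23_1, C.f33_1, C.f33_4, C.o2, c0_0_1, c146_1_1, c194_1_1, c196_1_1, c227_5_0, c228_3_0, c231_4_0, c2_1_1, s1, s2] | (have q0 := C.f11_1; have q1 := C.f11_2; have q2 := C.f13_3; have q3 := C.f23_1; have q4 := C.f33_1; have q5 := C.f33_4; have q6 := C.o2; have q7 := c0_0_1; have q8 := c146_1_1; have q9 := c194_1_1; have q10 := c196_1_1; have q11 := c227_5_0; have q12 := c228_3_0; have q13 := c231_4_0; have q14 := c2_1_1; have q15 := s1; have q16 := s2; clear C; omega)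
                                      · first | linarith only [C.o2, c194_1_1, c220_1_1, c231_5_0] | (have q0 := C.o2; have q1 := c194_1_1; have q2 := c220_1_1; have q3 := c231_5_0; clear C; omega)
                                    · first | linarith only [C.f11_2, C.f23_5, C.f33_4, C.o2, c146_1_1, c194_1_1, c208_1_1, c227_5_0, c228_4_0, c2_1_1, s2] | (have q0 := C.f11_2; have q1 := C.f23_5; have q2 := C.f33_4; have q3 := C.o2; have q4 := c146_1_1; have q5 := c194_1_1; have q6 := c208_1_1; have q7 := c227_5_0; have q8 := c228_4_0; have q9 := c2_1_1; have q10 := s2; clear C; omega)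
                                    · first | linarith only [C.f22_6, C.o2, c194_1_1, c208_1_1, c228_5_0, c2_1_1] | (have q0 := C.f22_6; have q1 := C.o2; have q2 := c194_1_1; have q3 := c208_1_1; have q4 := c228_5_0; have q5 := c2_1_1; clear C; omega)
                                · first | linarith only [C.b3, C.f11_0, C.f11_1, C.f11_2, C.f22_6, c208_1_1, c226_4_0, c2_1_1] | (have q0 := C.b3; have q1 := C.f11_0; have q2 := C.f11_1; have q3 := C.f11_2; have q4 := C.f22_6; have q5 := c208_1_1; have q6 := c226_4_0; have q7 := c2_1_1; clear C; omega)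
                            · first | linarith only [C.f23_5, c224_3_0, s2] | (have q0 := C.f23_5; have q1 := c224_3_0; have q2 := s2; clear C; omega)
                            · first | linarith only [C.b3, C.f11_0, C.f11_1, C.f11_2, C.f23_9, c223_1_1, c224_4_0, c2_1_1, s3] | (have q0 := C.b3; have q1 := C.f11_0; have q2 := C.f11_1; have q3 := C.f11_2; have q4 := C.f23_9; have q5 := c223_1_1; have q6 := c224_4_0; have q7 := c2_1_1; have q8 := s3; clear C; omega)
                      · rcases c0_11_23_33_k3_k_f33_5 C with ⟨c232_0_0, c232_0_1⟩ | ⟨c232_1_0, c232_1_1⟩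
                        · first | linarith only [C.f11_0, C.f11_1, C.f13_0, C.f13_3, C.f23_1, C.f23_5, C.f33_4, C.o0, C.o2, c146_1_1, c221_1_1, c232_0_1, s1, s2] | (have q0 := C.f11_0; have q1 := C.f11_1; have q2 := C.f13_0; have q3 := C.f13_3; have q4 := C.f23_1; have q5 := C.f23_5; have q6 := C.f33_4; have q7 := C.o0; have q8 := C.o2; have q9 := c146_1_1; have q10 := c221_1_1; have q11 := c232_0_1; have q12 := s1; have q13 := s2; clear C; omega)
                        · rcases c0_11_23_33_k3_k_f33_8 C with ⟨c233_0_0, c233_0_1⟩ | ⟨c233_1_0, c233_1_1⟩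
                          · first | linarith only [C.f23_2, C.f33_7, C.o1, c209_1_1, c232_1_1, c233_0_1, c2_1_1] | (have q0 := C.f23_2; have q1 := C.f33_7; have q2 := C.o1; have q3 := c209_1_1; have q4 := c232_1_1; have q5 := c233_0_1; have q6 := c2_1_1; clear C; omega)
                          · rcases c0_11_23_33_k3_k_p11_33A C with c234_0_0 | c234_1_0 | c234_2_0 | c234_3_0 | c234_4_0
                            · first | linarith only [c234_0_0, e0] | (have q0 := c234_0_0; have q1 := e0; clear C; omega)
                            · first | linarith only [c234_1_0, e3] | (have q0 := c234_1_0; have q1 := e3; clear C; omega)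
                            · rcases c0_11_23_33_k3_k_p11_33B C with c235_0_0 | c235_1_0 | c235_2_0 | c235_3_0 | c235_4_0
                              · first | linarith only [c235_0_0, e0] | (have q0 := c235_0_0; have q1 := e0; clear C; omega)
                              · first | linarith only [c235_1_0, e3] | (have q0 := c235_1_0; have q1 := e3; clear C; omega)
                              · first | linarith only [C.a4, C.f11_0, C.f23_1, C.o0, c221_1_1, c235_2_0, s1] | (have q0 := C.a4; have q1 := C.f11_0; have q2 := C.f23_1; have q3 := C.o0; have q4 := c221_1_1; have q5 := c235_2_0; have q6 := s1; clear C; omega)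
                              · first | linarith only [C.f23_5, C.o1, c235_3_0, s2] | (have q0 := C.f23_5; have q1 := C.o1; have q2 := c235_3_0; have q3 := s2; clear C; omega)
                              · rcases c0_11_23_33_k3_k_p11_22B C with c236_0_0 | c236_1_0 | c236_2_0 | c236_3_0 | c236_4_0
                                · first | linarith only [c236_0_0, e0] | (have q0 := c236_0_0; have q1 := e0; clear C; omega)
                                · first | linarith only [c236_1_0, c2_1_0, e0] | (have q0 := c236_1_0; have q1 := c2_1_0; have q2 := e0; clear C; omega)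
                                · first | linarith only [C.a4, C.f11_0, C.f11_1, C.f11_2, C.f13_0, C.f13_3, C.f23_1, C.f33_1, C.o0, c146_1_1, c196_1_1, c233_1_1, c235_4_0, c236_2_0, c2_1_1, s1] | (have q0 := C.a4; have q1 := C.f11_0; have q2 := C.f11_1; have q3 := C.f11_2; have q4 := C.f13_0; have q5 := C.f13_3; have q6 := C.f23_1; have q7 := C.f33_1; have q8 := C.o0; have q9 := c146_1_1; have q10 := c196_1_1; have q11 := c233_1_1; have q12 := c235_4_0; have q13 := c236_2_0; have q14 := c2_1_1; have q15 := s1; clear C; omega)
                                · rcases c0_11_23_33_k3_k_p11_13B C with c237_0_0 | c237_1_0 | c237_2_0 | c237_3_0 | c237_4_0 | c237_5_0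
                                  · first | linarith only [c237_0_0, e0] | (have q0 := c237_0_0; have q1 := e0; clear C; omega)
                                  · first | linarith only [c1_0_0, c237_1_0] | (have q0 := c1_0_0; have q1 := c237_1_0; clear C; omega)
                                  · first | linarith only [c237_2_0, e2] | (have q0 := c237_2_0; have q1 := e2; clear C; omega)
                                  · first | linarith only [C.f11_0, C.f23_1, C.f23_5, C.f33_4, C.o1, c0_0_1, c208_1_1, c221_1_1, c234_2_0, c236_3_0, c237_3_0, s1, s2] | (have q0 := C.f11_0; have q1 := C.f23_1; have q2 := C.f23_5; have q3 := C.f33_4; have q4 := C.o1; have q5 := c0_0_1; have q6 := c208_1_1; have q7 := c221_1_1; have q8 := c234_2_0; have q9 := c236_3_0; have q10 := c237_3_0; have q11 := s1; have q12 := s2; clear C; omega)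
                                  · first | linarith only [C.f23_5, C.f33_4, C.o1, C.o2, c146_1_1, c237_4_0, s2] | (have q0 := C.f23_5; have q1 := C.f33_4; have q2 := C.o1; have q3 := C.o2; have q4 := c146_1_1; have q5 := c237_4_0; have q6 := s2; clear C; omega)
                                  · rcases c0_11_23_33_k3_k_p13_22A C with c238_0_0 | c238_1_0 | c238_2_0 | c238_3_0 | c238_4_0 | c238_5_0
                                    · first | linarith only [c1_0_0, c238_0_0] | (have q0 := c1_0_0; have q1 := c238_0_0; clear C; omega)
                                    · first | linarith only [c238_1_0, e2] | (have q0 := c238_1_0; have q1 := e2; clear C; omega)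
                                    · first | linarith only [C.f11_0, C.f11_2, C.f23_1, C.f23_5, C.f33_4, c194_1_1, c221_1_1, c234_2_0, c237_5_0, c238_2_0, c2_1_1, e0, s1, s2] | (have q0 := C.f11_0; have q1 := C.f11_2; have q2 := C.f23_1; have q3 := C.f23_5; have q4 := C.f33_4; have q5 := c194_1_1; have q6 := c221_1_1; have q7 := c234_2_0; have q8 := c237_5_0; have q9 := c238_2_0; have q10 := c2_1_1; have q11 := e0; have q12 := s1; have q13 := s2; clear C; omega)
                                    · rcases c0_11_23_33_k3_k_p13_23A C with c241_0_0 | c241_1_0 | c241_2_0 | c241_3_0 | c241_4_0 | c241_5_0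
                                      · first | linarith only [c1_0_0, c241_0_0] | (have q0 := c1_0_0; have q1 := c241_0_0; clear C; omega)
                                      · first | linarith only [c241_1_0, e2] | (have q0 := c241_1_0; have q1 := e2; clear C; omega)
                                      · first | linarith only [c241_2_0, e1] | (have q0 := c241_2_0; have q1 := e1; clear C; omega)
                                      · first | linarith only [C.f11_1, C.f11_2, C.f13_3, C.f33_1, C.o2, c0_0_1, c146_1_1, c194_1_1, c196_1_1, c237_5_0, c238_3_0, c241_3_0, c2_1_1, s1] | (have q0 := C.f11_1; have q1 := C.f11_2; have q2 := C.f13_3; have q3 := C.f33_1; have q4 := C.o2; have q5 := c0_0_1; have q6 := c146_1_1; have q7 := c194_1_1; have q8 := c196_1_1; have q9 := c237_5_0; have q10 := c238_3_0; have q11 := c241_3_0; have q12 := c2_1_1; have q13 := s1; clear C; omega)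
                                      · first | linarith only [C.f11_1, C.f11_2, C.f13_3, C.f23_1, C.f33_1, C.f33_4, C.o2, c0_0_1, c146_1_1, c194_1_1, c196_1_1, c237_5_0, c238_3_0, c241_4_0, c2_1_1, s1, s2] | (have q0 := C.f11_1; have q1 := C.f11_2; have q2 := C.f13_3; have q3 := C.f23_1; have q4 := C.f33_1; have q5 := C.f33_4; have q6 := C.o2; have q7 := c0_0_1; have q8 := c146_1_1; have q9 := c194_1_1; have q10 := c196_1_1; have q11 := c237_5_0; have q12 := c238_3_0; have q13 := c241_4_0; have q14 := c2_1_1; have q15 := s1; have q16 := s2; clear C; omega)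
                                      · first | linarith only [C.o2, c194_1_1, c220_1_1, c241_5_0] | (have q0 := C.o2; have q1 := c194_1_1; have q2 := c220_1_1; have q3 := c241_5_0; clear C; omega)
                                    · first | linarith only [C.f11_2, C.f23_5, C.f33_4, C.o2, c146_1_1, c194_1_1, c208_1_1, c237_5_0, c238_4_0, c2_1_1, s2] | (have q0 := C.f11_2; have q1 := C.f23_5; have q2 := C.f33_4; have q3 := C.o2; have q4 := c146_1_1; have q5 := c194_1_1; have q6 := c208_1_1; have q7 := c237_5_0; have q8 := c238_4_0; have q9 := c2_1_1; have q10 := s2; clear C; omega)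
                                    · first | linarith only [C.f22_6, C.o2, c194_1_1, c208_1_1, c238_5_0, c2_1_1] | (have q0 := C.f22_6; have q1 := C.o2; have q2 := c194_1_1; have q3 := c208_1_1; have q4 := c238_5_0; have q5 := c2_1_1; clear C; omega)
                                · first | linarith only [C.b3, C.f11_0, C.f11_1, C.f11_2, C.f22_6, c208_1_1, c236_4_0, c2_1_1] | (have q0 := C.b3; have q1 := C.f11_0; have q2 := C.f11_1; have q3 := C.f11_2; have q4 := C.f22_6; have q5 := c208_1_1; have q6 := c236_4_0; have q7 := c2_1_1; clear C; omega)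
                            · first | linarith only [C.f23_5, c234_3_0, s2] | (have q0 := C.f23_5; have q1 := c234_3_0; have q2 := s2; clear C; omega)
                            · first | linarith only [C.b3, C.f11_0, C.f11_1, C.f11_2, C.f23_9, c233_1_1, c234_4_0, c2_1_1, s3] | (have q0 := C.b3; have q1 := C.f11_0; have q2 := C.f11_1; have q3 := C.f11_2; have q4 := C.f23_9; have q5 := c233_1_1; have q6 := c234_4_0; have q7 := c2_1_1; have q8 := s3; clear C; omega)
                  · first | linarith only [C.a4, C.f23_5, C.o2, c219_2_1] | (have q0 := C.a4; have q1 := C.f23_5; have q2 := C.o2; have q3 := c219_2_1; clear C; omega)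
                · first | linarith only [C.a4, C.f23_1, C.o2, c209_2_1] | (have q0 := C.a4; have q1 := C.f23_1; have q2 := C.o2; have q3 := c209_2_1; clear C; omega)
    · rcases c0_11_23_33_k3_k_t23 C with ⟨c242_0_0, c242_0_1⟩ | ⟨c242_1_0, c242_1_1⟩
      · rcases c0_11_23_33_k3_k_f13_5 C with ⟨c243_0_0, c243_0_1⟩ | ⟨c243_1_0, c243_1_1⟩
        · rcases c0_11_23_33_k3_k_f13_8 C with ⟨c244_0_0, c244_0_1⟩ | ⟨c244_1_0, c244_1_1⟩
          · first | linarith only [C.b5, C.f13_7, C.o0, c0_0_1, c1_1_1, c243_0_1, c244_0_1] | (have q0 := C.b5; have q1 := C.f13_7; have q2 := C.o0; have q3 := c0_0_1; have q4 := c1_1_1; have q5 := c243_0_1; have q6 := c244_0_1; clear C; omega)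
          · rcases c0_11_23_33_k3_k_f22_2 C with ⟨c245_0_0, c245_0_1⟩ | ⟨c245_1_0, c245_1_1⟩
            · rcases c0_11_23_33_k3_k_f22_5 C with ⟨c246_0_0, c246_0_1⟩ | ⟨c246_1_0, c246_1_1⟩
              · first | linarith only [C.f11_0, C.f22_4, C.f23_0, C.f33_0, C.o0, c1_1_1, c245_0_1, c246_0_1, s1] | (have q0 := C.f11_0; have q1 := C.f22_4; have q2 := C.f23_0; have q3 := C.f33_0; have q4 := C.o0; have q5 := c1_1_1; have q6 := c245_0_1; have q7 := c246_0_1; have q8 := s1; clear C; omega)
              · rcases c0_11_23_33_k3_k_p13_22A C with c247_0_0 | c247_1_0 | c247_2_0 | c247_3_0 | c247_4_0 | c247_5_0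
                · first | linarith only [C.o0, c247_0_0, e0] | (have q0 := C.o0; have q1 := c247_0_0; have q2 := e0; clear C; omega)
                · first | linarith only [c247_1_0, e2] | (have q0 := c247_1_0; have q1 := e2; clear C; omega)
                · first | linarith only [C.a1, C.f22_1, C.o0, c245_0_1, c247_2_0, e0] | (have q0 := C.a1; have q1 := C.f22_1; have q2 := C.o0; have q3 := c245_0_1; have q4 := c247_2_0; have q5 := e0; clear C; omega)
                · first | linarith only [C.f11_0, C.f23_0, C.f33_0, C.o0, c0_0_1, c245_0_1, c247_3_0, s1] | (have q0 := C.f11_0; have q1 := C.f23_0; have q2 := C.f33_0; have q3 := C.o0; have q4 := c0_0_1; have q5 := c245_0_1; have q6 := c247_3_0; have q7 := s1; clear C; omega)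
                · rcases c0_11_23_33_k3_k_f23_3 C with ⟨c248_0_0, c248_0_1⟩ | ⟨c248_1_0, c248_1_1⟩ | ⟨c248_2_0, c248_2_1⟩
                  · rcases c0_11_23_33_k3_k_f23_7 C with ⟨c249_0_0, c249_0_1⟩ | ⟨c249_1_0, c249_1_1⟩ | ⟨c249_2_0, c249_2_1⟩
                    · first | linarith only [C.a3, C.f11_0, C.f23_5, C.f33_0, C.o0, c248_0_1, c249_0_1, s1] | (have q0 := C.a3; have q1 := C.f11_0; have q2 := C.f23_5; have q3 := C.f33_0; have q4 := C.o0; have q5 := c248_0_1; have q6 := c249_0_1; have q7 := s1; clear C; omega)
                    · rcases c0_11_23_33_k3_k_f23_10 C with ⟨c250_0_0, c250_0_1⟩ | ⟨c250_1_0, c250_1_1⟩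
                      · first | linarith only [C.b5, C.f23_9, C.o0, c0_0_1, c1_1_1, c243_0_1, c246_1_1, c247_4_0, c249_1_1, c250_0_1] | (have q0 := C.b5; have q1 := C.f23_9; have q2 := C.o0; have q3 := c0_0_1; have q4 := c1_1_1; have q5 := c243_0_1; have q6 := c246_1_1; have q7 := c247_4_0; have q8 := c249_1_1; have q9 := c250_0_1; clear C; omega)
                      · rcases c0_11_23_33_k3_k_f33_2 C with ⟨c251_0_0, c251_0_1⟩ | ⟨c251_1_0, c251_1_1⟩
                        · rcases c0_11_23_33_k3_k_f33_8 C with ⟨c252_0_0, c252_0_1⟩ | ⟨c252_1_0, c252_1_1⟩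
                          · first | linarith only [C.b5, C.f11_0, C.f11_1, C.f23_5, C.f33_7, C.o0, C.o2, c0_0_1, c243_0_1, c246_1_1, c247_4_0, c252_0_1, s2] | (have q0 := C.b5; have q1 := C.f11_0; have q2 := C.f11_1; have q3 := C.f23_5; have q4 := C.f33_7; have q5 := C.o0; have q6 := C.o2; have q7 := c0_0_1; have q8 := c243_0_1; have q9 := c246_1_1; have q10 := c247_4_0; have q11 := c252_0_1; have q12 := s2; clear C; omega)
                          · rcases c0_11_23_33_k3_k_p11_33A C with c254_0_0 | c254_1_0 | c254_2_0 | c254_3_0 | c254_4_0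
                            · first | linarith only [c254_0_0, e0] | (have q0 := c254_0_0; have q1 := e0; clear C; omega)
                            · first | linarith only [c254_1_0, e3] | (have q0 := c254_1_0; have q1 := e3; clear C; omega)
                            · rcases c0_11_23_33_k3_k_p13_23A C with c257_0_0 | c257_1_0 | c257_2_0 | c257_3_0 | c257_4_0 | c257_5_0
                              · first | linarith only [C.o0, c257_0_0, e0] | (have q0 := C.o0; have q1 := c257_0_0; have q2 := e0; clear C; omega)
                              · first | linarith only [c257_1_0, e2] | (have q0 := c257_1_0; have q1 := e2; clear C; omega)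
                              · first | linarith only [c257_2_0, e1] | (have q0 := c257_2_0; have q1 := e1; clear C; omega)
                              · first | linarith only [C.f11_0, C.f33_0, C.o0, c0_0_1, c248_0_1, c257_3_0, s1] | (have q0 := C.f11_0; have q1 := C.f33_0; have q2 := C.o0; have q3 := c0_0_1; have q4 := c248_0_1; have q5 := c257_3_0; have q6 := s1; clear C; omega)
                              · rcases c0_11_23_33_k3_k_p23_33A C with c264_0_0 | c264_1_0 | c264_2_0 | c264_3_0 | c264_4_0 | c264_5_0
                                · first | linarith only [c264_0_0, e1] | (have q0 := c264_0_0; have q1 := e1; clear C; omega)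
                                · first | linarith only [c264_1_0, e2] | (have q0 := c264_1_0; have q1 := e2; clear C; omega)
                                · first | linarith only [c264_2_0, e3] | (have q0 := c264_2_0; have q1 := e3; clear C; omega)
                                · first | linarith only [C.f11_0, C.f11_1, C.f33_0, C.f33_3, C.o0, c0_0_1, c243_0_1, c248_0_1, c249_1_1, c257_4_0, c264_3_0, s2] | (have q0 := C.f11_0; have q1 := C.f11_1; have q2 := C.f33_0; have q3 := C.f33_3; have q4 := C.o0; have q5 := c0_0_1; have q6 := c243_0_1; have q7 := c248_0_1; have q8 := c249_1_1; have q9 := c257_4_0; have q10 := c264_3_0; have q11 := s2; clear C; omega)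
                                · first | linarith only [C.f11_0, C.f11_1, C.o0, c0_0_1, c243_0_1, c249_1_1, c257_4_0, c264_4_0, s2] | (have q0 := C.f11_0; have q1 := C.f11_1; have q2 := C.o0; have q3 := c0_0_1; have q4 := c243_0_1; have q5 := c249_1_1; have q6 := c257_4_0; have q7 := c264_4_0; have q8 := s2; clear C; omega)
                                · rcases c0_11_23_33_k3_k_tmzp C with c266_0_0 | c266_1_0 | c266_2_0 | c266_3_0 | c266_4_0 | c266_5_0
                                  · first | linarith only [C.f11_0, C.f11_1, C.f33_0, C.f33_3, C.o0, c0_0_1, c243_0_1, c249_1_1, c257_4_0, c266_0_0, s2] | (have q0 := C.f11_0; have q1 := C.f11_1; have q2 := C.f33_0; have q3 := C.f33_3; have q4 := C.o0; have q5 := c0_0_1; have q6 := c243_0_1; have q7 := c249_1_1; have q8 := c257_4_0; have q9 := c266_0_0; have q10 := s2; clear C; omega)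
                                  · first | linarith only [c242_0_0, c266_1_0] | (have q0 := c242_0_0; have q1 := c266_1_0; clear C; omega)
                                  · first | linarith only [C.f11_0, C.f11_1, C.f33_4, C.o0, c0_0_1, c243_0_1, c257_4_0, c266_2_0, s2] | (have q0 := C.f11_0; have q1 := C.f11_1; have q2 := C.f33_4; have q3 := C.o0; have q4 := c0_0_1; have q5 := c243_0_1; have q6 := c257_4_0; have q7 := c266_2_0; have q8 := s2; clear C; omega)
                                  · first | linarith only [c266_3_0, e0] | (have q0 := c266_3_0; have q1 := e0; clear C; omega)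
                                  · first | linarith only [c1_1_1, c266_4_0] | (have q0 := c1_1_1; have q1 := c266_4_0; clear C; omega)
                                  · rcases c0_11_23_33_k3_k_tmpp C with c267_0_0 | c267_1_0 | c267_2_0 | c267_3_0
                                    · first | linarith only [C.f11_0, C.f11_1, C.f33_0, C.f33_3, C.o0, c0_0_1, c243_0_1, c249_1_1, c257_4_0, c267_0_0, s2] | (have q0 := C.f11_0; have q1 := C.f11_1; have q2 := C.f33_0; have q3 := C.f33_3; have q4 := C.o0; have q5 := c0_0_1; have q6 := c243_0_1; have q7 := c249_1_1; have q8 := c257_4_0; have q9 := c267_0_0; have q10 := s2; clear C; omega)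
                                    · first | linarith only [C.f11_0, C.f11_1, C.f22_1, C.f33_0, C.f33_3, C.o0, c0_0_1, c1_1_1, c243_0_1, c245_0_1, c249_1_1, c257_4_0, c267_1_0, s2] | (have q0 := C.f11_0; have q1 := C.f11_1; have q2 := C.f22_1; have q3 := C.f33_0; have q4 := C.f33_3; have q5 := C.o0; have q6 := c0_0_1; have q7 := c1_1_1; have q8 := c243_0_1; have q9 := c245_0_1; have q10 := c249_1_1; have q11 := c257_4_0; have q12 := c267_1_0; have q13 := s2; clear C; omega)
                                    · first | linarith only [c267_2_0, e0] | (have q0 := c267_2_0; have q1 := e0; clear C; omega)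
                                    · rcases c0_11_23_33_k3_k_tzpm C with c269_0_0 | c269_1_0 | c269_2_0 | c269_3_0 | ⟨c269_4_0, c269_4_1⟩
                                      · first | linarith only [c242_0_0, c269_0_0] | (have q0 := c242_0_0; have q1 := c269_0_0; clear C; omega)
                                      · first | linarith only [C.b5, C.f11_0, C.f11_1, C.f11_2, C.f23_9, C.f33_7, C.o0, c0_0_1, c1_1_1, c243_0_1, c249_1_1, c257_4_0, c269_1_0, s3] | (have q0 := C.b5; have q1 := C.f11_0; have q2 := C.f11_1; have q3 := C.f11_2; have q4 := C.f23_9; have q5 := C.f33_7; have q6 := C.o0; have q7 := c0_0_1; have q8 := c1_1_1; have q9 := c243_0_1; have q10 := c249_1_1; have q11 := c257_4_0; have q12 := c269_1_0; have q13 := s3; clear C; omega)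
                                      · first | linarith only [c1_1_1, c269_2_0] | (have q0 := c1_1_1; have q1 := c269_2_0; clear C; omega)
                                      · first | linarith only [C.f11_0, C.f11_1, C.f11_2, C.f23_9, C.f33_4, C.f33_7, C.o0, c0_0_1, c1_1_1, c243_0_1, c249_1_1, c257_4_0, c266_5_0, c269_3_0, s2, s3] | (have q0 := C.f11_0; have q1 := C.f11_1; have q2 := C.f11_2; have q3 := C.f23_9; have q4 := C.f33_4; have q5 := C.f33_7; have q6 := C.o0; have q7 := c0_0_1; have q8 := c1_1_1; have q9 := c243_0_1; have q10 := c249_1_1; have q11 := c257_4_0; have q12 := c266_5_0; have q13 := c269_3_0; have q14 := s2; have q15 := s3; clear C; omega)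
                                      · rcases c0_11_23_33_k3_k_F1 hF1 with c271_0_0 | c271_1_0 | c271_2_0 | c271_3_0 | c271_4_0 | c271_5_0 | c271_6_0 | c271_7_0 | c271_8_0 | c271_9_0 | c271_10_0 | c271_11_0 | c271_12_0 | c271_13_0
                                        · first | linarith only [C.f11_0, C.f11_1, C.f23_0, C.f23_5, C.f33_0, C.f33_3, c267_3_0, c269_4_0, c271_0_0, s1, s2] | (have q0 := C.f11_0; have q1 := C.f11_1; have q2 := C.f23_0; have q3 := C.f23_5; have q4 := C.f33_0; have q5 := C.f33_3; have q6 := c267_3_0; have q7 := c269_4_0; have q8 := c271_0_0; have q9 := s1; have q10 := s2; clear C; omega)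
                                        · first | linarith only [C.f11_0, c251_0_1, c254_2_0, c271_1_0, e0] | (have q0 := C.f11_0; have q1 := c251_0_1; have q2 := c254_2_0; have q3 := c271_1_0; have q4 := e0; clear C; omega)
                                        · first | linarith only [C.a1, C.f22_1, C.o0, c1_1_1, c245_0_1, c271_2_0] | (have q0 := C.a1; have q1 := C.f22_1; have q2 := C.o0; have q3 := c1_1_1; have q4 := c245_0_1; have q5 := c271_2_0; clear C; omega)
                                        · first | linarith only [C.b5, C.f11_0, C.f11_1, C.f11_2, C.f23_9, C.f33_4, C.f33_7, c0_0_1, c1_1_1, c243_0_1, c249_1_1, c251_0_1, c254_2_0, c257_4_0, c271_3_0, s2, s3] | (have q0 := C.b5; have q1 := C.f11_0; have q2 := C.f11_1; have q3 := C.f11_2; have q4 := C.f23_9; have q5 := C.f33_4; have q6 := C.f33_7; have q7 := c0_0_1; have q8 := c1_1_1; have q9 := c243_0_1; have q10 := c249_1_1; have q11 := c251_0_1; have q12 := c254_2_0; have q13 := c257_4_0; have q14 := c271_3_0; have q15 := s2; have q16 := s3; clear C; omega)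
                                        · first | linarith only [C.f11_1, C.f23_5, C.f33_3, c254_2_0, c271_4_0, s2] | (have q0 := C.f11_1; have q1 := C.f23_5; have q2 := C.f33_3; have q3 := c254_2_0; have q4 := c271_4_0; have q5 := s2; clear C; omega)
                                        · first | linarith only [c0_0_1, c243_0_1, c249_1_1, c257_4_0, c271_5_0] | (have q0 := c0_0_1; have q1 := c243_0_1; have q2 := c249_1_1; have q3 := c257_4_0; have q4 := c271_5_0; clear C; omega)
                                        · first | linarith only [C.b5, C.f11_0, C.f11_1, C.f11_2, C.f23_9, C.f33_7, c0_0_1, c1_1_1, c243_0_1, c249_1_1, c251_0_1, c254_2_0, c257_4_0, c271_6_0, s3] | (have q0 := C.b5; have q1 := C.f11_0; have q2 := C.f11_1; have q3 := C.f11_2; have q4 := C.f23_9; have q5 := C.f33_7; have q6 := c0_0_1; have q7 := c1_1_1; have q8 := c243_0_1; have q9 := c249_1_1; have q10 := c251_0_1; have q11 := c254_2_0; have q12 := c257_4_0; have q13 := c271_6_0; have q14 := s3; clear C; omega)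
                                        · first | linarith only [C.f11_0, C.f11_1, C.f33_0, C.f33_3, c0_0_1, c243_0_1, c250_1_1, c252_1_1, c257_4_0, c264_5_0, c266_5_0, c267_3_0, c271_7_0, s2] | (have q0 := C.f11_0; have q1 := C.f11_1; have q2 := C.f33_0; have q3 := C.f33_3; have q4 := c0_0_1; have q5 := c243_0_1; have q6 := c250_1_1; have q7 := c252_1_1; have q8 := c257_4_0; have q9 := c264_5_0; have q10 := c266_5_0; have q11 := c267_3_0; have q12 := c271_7_0; have q13 := s2; clear C; omega)
                                        · first | linarith only [C.f11_0, c251_0_1, c254_2_0, c271_8_0] | (have q0 := C.f11_0; have q1 := c251_0_1; have q2 := c254_2_0; have q3 := c271_8_0; clear C; omega)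
                                        · first | linarith only [C.f11_0, C.f11_1, C.f33_0, C.f33_3, c0_0_1, c243_0_1, c249_1_1, c257_4_0, c271_9_0, s2] | (have q0 := C.f11_0; have q1 := C.f11_1; have q2 := C.f33_0; have q3 := C.f33_3; have q4 := c0_0_1; have q5 := c243_0_1; have q6 := c249_1_1; have q7 := c257_4_0; have q8 := c271_9_0; have q9 := s2; clear C; omega)
                                        · first | linarith only [c1_1_1, c271_10_0] | (have q0 := c1_1_1; have q1 := c271_10_0; clear C; omega)
                                        · first | linarith only [c267_3_0, c271_11_0] | (have q0 := c267_3_0; have q1 := c271_11_0; clear C; omega)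
                                        · first | linarith only [C.b5, c271_12_0] | (have q0 := C.b5; have q1 := c271_12_0; clear C; omega)
                                        · first | linarith only [c266_5_0, c271_13_0] | (have q0 := c266_5_0; have q1 := c271_13_0; clear C; omega)
                              · first | linarith only [C.o2, c244_1_1, c250_1_1, c257_5_0] | (have q0 := C.o2; have q1 := c244_1_1; have q2 := c250_1_1; have q3 := c257_5_0; clear C; omega)
                            · first | linarith only [C.f23_5, c254_3_0, s2] | (have q0 := C.f23_5; have q1 := c254_3_0; have q2 := s2; clear C; omega)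
                            · first | linarith only [C.b5, C.f11_0, C.f11_1, C.f11_2, C.f23_9, c1_1_1, c252_1_1, c254_4_0, s3] | (have q0 := C.b5; have q1 := C.f11_0; have q2 := C.f11_1; have q3 := C.f11_2; have q4 := C.f23_9; have q5 := c1_1_1; have q6 := c252_1_1; have q7 := c254_4_0; have q8 := s3; clear C; omega)
                        · first | linarith only [C.f11_0, C.f11_1, C.f22_1, C.f23_5, C.f33_0, C.f33_4, C.o0, c0_0_1, c243_0_1, c245_0_1, c246_1_1, c247_4_0, c251_1_1, s2] | (have q0 := C.f11_0; have q1 := C.f11_1; have q2 := C.f22_1; have q3 := C.f23_5; have q4 := C.f33_0; have q5 := C.f33_4; have q6 := C.o0; have q7 := c0_0_1; have q8 := c243_0_1; have q9 := c245_0_1; have q10 := c246_1_1; have q11 := c247_4_0; have q12 := c251_1_1; have q13 := s2; clear C; omega)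
                    · first | linarith only [C.f11_0, C.f11_1, C.f13_4, C.f23_5, C.f33_4, C.o0, C.o2, c0_0_1, c243_0_1, c249_2_1, s2] | (have q0 := C.f11_0; have q1 := C.f11_1; have q2 := C.f13_4; have q3 := C.f23_5; have q4 := C.f33_4; have q5 := C.o0; have q6 := C.o2; have q7 := c0_0_1; have q8 := c243_0_1; have q9 := c249_2_1; have q10 := s2; clear C; omega)
                  · first | linarith only [C.f22_1, C.f23_0, C.o0, c0_0_1, c1_1_1, c243_0_1, c245_0_1, c246_1_1, c247_4_0, c248_1_1] | (have q0 := C.f22_1; have q1 := C.f23_0; have q2 := C.o0; have q3 := c0_0_1; have q4 := c1_1_1; have q5 := c243_0_1; have q6 := c245_0_1; have q7 := c246_1_1; have q8 := c247_4_0; have q9 := c248_1_1; clear C; omega)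
                  · first | linarith only [C.f11_0, C.f11_1, C.f22_1, C.f23_0, C.f23_5, C.f33_4, C.o0, C.o2, c0_0_1, c243_0_1, c245_0_1, c246_1_1, c247_4_0, c248_2_1, s2] | (have q0 := C.f11_0; have q1 := C.f11_1; have q2 := C.f22_1; have q3 := C.f23_0; have q4 := C.f23_5; have q5 := C.f33_4; have q6 := C.o0; have q7 := C.o2; have q8 := c0_0_1; have q9 := c243_0_1; have q10 := c245_0_1; have q11 := c246_1_1; have q12 := c247_4_0; have q13 := c248_2_1; have q14 := s2; clear C; omega)
                · first | linarith only [C.b5, C.f22_6, C.o2, c244_1_1, c246_1_1, c247_5_0] | (have q0 := C.b5; have q1 := C.f22_6; have q2 := C.o2; have q3 := c244_1_1; have q4 := c246_1_1; have q5 := c247_5_0; clear C; omega)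
            · rcases c0_11_23_33_k3_k_f22_5 C with ⟨c272_0_0, c272_0_1⟩ | ⟨c272_1_0, c272_1_1⟩
              · first | linarith only [C.a3, C.f22_4, c242_0_0, c245_1_1, c272_0_1] | (have q0 := C.a3; have q1 := C.f22_4; have q2 := c242_0_0; have q3 := c245_1_1; have q4 := c272_0_1; clear C; omega)
              · rcases c0_11_23_33_k3_k_f23_3 C with ⟨c273_0_0, c273_0_1⟩ | ⟨c273_1_0, c273_1_1⟩ | ⟨c273_2_0, c273_2_1⟩
                · rcases c0_11_23_33_k3_k_f23_7 C with ⟨c274_0_0, c274_0_1⟩ | ⟨c274_1_0, c274_1_1⟩ | ⟨c274_2_0, c274_2_1⟩
                  · first | linarith only [C.f11_0, C.f11_1, C.f23_5, C.f33_0, C.f33_3, C.o0, c273_0_1, c274_0_1, s1, s2] | (have q0 := C.f11_0; have q1 := C.f11_1; have q2 := C.f23_5; have q3 := C.f33_0; have q4 := C.f33_3; have q5 := C.o0; have q6 := c273_0_1; have q7 := c274_0_1; have q8 := s1; have q9 := s2; clear C; omega)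
                  · rcases c0_11_23_33_k3_k_tmpp C with c276_0_0 | c276_1_0 | c276_2_0 | c276_3_0
                    · first | linarith only [C.f11_0, C.f23_0, C.f33_0, C.o0, c276_0_0, s1] | (have q0 := C.f11_0; have q1 := C.f23_0; have q2 := C.f33_0; have q3 := C.o0; have q4 := c276_0_0; have q5 := s1; clear C; omega)
                    · first | linarith only [C.f11_0, C.f23_1, C.f33_0, C.o0, c273_0_1, c276_1_0, s1] | (have q0 := C.f11_0; have q1 := C.f23_1; have q2 := C.f33_0; have q3 := C.o0; have q4 := c273_0_1; have q5 := c276_1_0; have q6 := s1; clear C; omega)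
                    · first | linarith only [c276_2_0, e0] | (have q0 := c276_2_0; have q1 := e0; clear C; omega)
                    · rcases c0_11_23_33_k3_k_f33_2 C with ⟨c277_0_0, c277_0_1⟩ | ⟨c277_1_0, c277_1_1⟩
                      · rcases c0_11_23_33_k3_k_f33_8 C with ⟨c278_0_0, c278_0_1⟩ | ⟨c278_1_0, c278_1_1⟩
                        · first | linarith only [C.b5, C.f11_0, C.f11_1, C.f23_5, C.f33_7, C.o1, C.o2, c276_3_0, c278_0_1, s2] | (have q0 := C.b5; have q1 := C.f11_0; have q2 := C.f11_1; have q3 := C.f23_5; have q4 := C.f33_7; have q5 := C.o1; have q6 := C.o2; have q7 := c276_3_0; have q8 := c278_0_1; have q9 := s2; clear C; omega)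
                        · rcases c0_11_23_33_k3_k_p11_33A C with c279_0_0 | c279_1_0 | c279_2_0 | c279_3_0 | c279_4_0
                          · first | linarith only [c279_0_0, e0] | (have q0 := c279_0_0; have q1 := e0; clear C; omega)
                          · first | linarith only [c279_1_0, e3] | (have q0 := c279_1_0; have q1 := e3; clear C; omega)
                          · rcases c0_11_23_33_k3_k_p13_33A C with c282_0_0 | c282_1_0 | c282_2_0 | c282_3_0 | c282_4_0 | c282_5_0
                            · first | linarith only [C.o0, c282_0_0, e0] | (have q0 := C.o0; have q1 := c282_0_0; have q2 := e0; clear C; omega)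
                            · first | linarith only [c282_1_0, e2] | (have q0 := c282_1_0; have q1 := e2; clear C; omega)
                            · first | linarith only [c282_2_0, e3] | (have q0 := c282_2_0; have q1 := e3; clear C; omega)
                            · first | linarith only [C.f11_0, C.f23_0, C.o0, c0_0_1, c277_0_1, c282_3_0, s1] | (have q0 := C.f11_0; have q1 := C.f23_0; have q2 := C.o0; have q3 := c0_0_1; have q4 := c277_0_1; have q5 := c282_3_0; have q6 := s1; clear C; omega)
                            · first | linarith only [C.f11_0, C.f11_1, C.f23_5, C.o0, c0_0_1, c243_0_1, c282_4_0, s2] | (have q0 := C.f11_0; have q1 := C.f11_1; have q2 := C.f23_5; have q3 := C.o0; have q4 := c0_0_1; have q5 := c243_0_1; have q6 := c282_4_0; have q7 := s2; clear C; omega)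
                            · rcases c0_11_23_33_k3_k_p22_33A C with c285_0_0 | c285_1_0 | c285_2_0 | c285_3_0 | c285_4_0
                              · first | linarith only [C.f11_0, C.f11_1, C.f23_1, C.f23_5, C.f33_0, C.f33_3, C.o0, c273_0_1, c276_3_0, c285_0_0, e0, s1, s2] | (have q0 := C.f11_0; have q1 := C.f11_1; have q2 := C.f23_1; have q3 := C.f23_5; have q4 := C.f33_0; have q5 := C.f33_3; have q6 := C.o0; have q7 := c273_0_1; have q8 := c276_3_0; have q9 := c285_0_0; have q10 := e0; have q11 := s1; have q12 := s2; clear C; omega)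
                              · first | linarith only [c285_1_0, e3] | (have q0 := c285_1_0; have q1 := e3; clear C; omega)
                              · first | linarith only [C.f11_0, C.f11_1, C.f23_1, C.f23_5, C.f33_0, C.f33_3, C.o0, c245_1_1, c273_0_1, c276_3_0, c285_2_0, s1, s2] | (have q0 := C.f11_0; have q1 := C.f11_1; have q2 := C.f23_1; have q3 := C.f23_5; have q4 := C.f33_0; have q5 := C.f33_3; have q6 := C.o0; have q7 := c245_1_1; have q8 := c273_0_1; have q9 := c276_3_0; have q10 := c285_2_0; have q11 := s1; have q12 := s2; clear C; omega)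
                              · first | linarith only [C.f11_0, C.f11_1, C.f23_5, c272_1_1, c276_3_0, c285_3_0, s2] | (have q0 := C.f11_0; have q1 := C.f11_1; have q2 := C.f23_5; have q3 := c272_1_1; have q4 := c276_3_0; have q5 := c285_3_0; have q6 := s2; clear C; omega)
                              · rcases c0_11_23_33_k3_k_p13_23A C with c286_0_0 | c286_1_0 | c286_2_0 | c286_3_0 | c286_4_0 | c286_5_0
                                · first | linarith only [C.o0, c286_0_0, e0] | (have q0 := C.o0; have q1 := c286_0_0; have q2 := e0; clear C; omega)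
                                · first | linarith only [c286_1_0, e2] | (have q0 := c286_1_0; have q1 := e2; clear C; omega)
                                · first | linarith only [c286_2_0, e1] | (have q0 := c286_2_0; have q1 := e1; clear C; omega)
                                · first | linarith only [C.f11_0, C.f33_0, C.o0, c0_0_1, c273_0_1, c286_3_0, s1] | (have q0 := C.f11_0; have q1 := C.f33_0; have q2 := C.o0; have q3 := c0_0_1; have q4 := c273_0_1; have q5 := c286_3_0; have q6 := s1; clear C; omega)
                                · rcases c0_11_23_33_k3_k_f23_10 C with ⟨c287_0_0, c287_0_1⟩ | ⟨c287_1_0, c287_1_1⟩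
                                  · first | linarith only [C.f11_0, C.f11_1, C.f11_2, C.f23_9, C.o0, c0_0_1, c243_0_1, c244_1_1, c274_1_1, c278_1_1, c282_5_0, c286_4_0, c287_0_1, s3] | (have q0 := C.f11_0; have q1 := C.f11_1; have q2 := C.f11_2; have q3 := C.f23_9; have q4 := C.o0; have q5 := c0_0_1; have q6 := c243_0_1; have q7 := c244_1_1; have q8 := c274_1_1; have q9 := c278_1_1; have q10 := c282_5_0; have q11 := c286_4_0; have q12 := c287_0_1; have q13 := s3; clear C; omega)
                                  · rcases c0_11_23_33_k3_k_p11_23B C with c288_0_0 | c288_1_0 | c288_2_0 | c288_3_0 | c288_4_0 | c288_5_0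
                                    · first | linarith only [c288_0_0, e0] | (have q0 := c288_0_0; have q1 := e0; clear C; omega)
                                    · first | linarith only [c288_1_0, e1] | (have q0 := c288_1_0; have q1 := e1; clear C; omega)
                                    · first | linarith only [c288_2_0, e2] | (have q0 := c288_2_0; have q1 := e2; clear C; omega)
                                    · first | linarith only [C.f11_0, C.f33_0, C.o0, c273_0_1, c288_3_0, s1] | (have q0 := C.f11_0; have q1 := C.f33_0; have q2 := C.o0; have q3 := c273_0_1; have q4 := c288_3_0; have q5 := s1; clear C; omega)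
                                    · first | linarith only [C.f11_0, C.f11_1, C.o0, c0_0_1, c1_1_1, c243_0_1, c274_1_1, c286_4_0, c288_4_0] | (have q0 := C.f11_0; have q1 := C.f11_1; have q2 := C.o0; have q3 := c0_0_1; have q4 := c1_1_1; have q5 := c243_0_1; have q6 := c274_1_1; have q7 := c286_4_0; have q8 := c288_4_0; clear C; omega)
                                    · rcases c0_11_23_33_k3_k_p23_33B C with c291_0_0 | c291_1_0 | c291_2_0 | c291_3_0 | c291_4_0 | c291_5_0
                                      · first | linarith only [c291_0_0, e1] | (have q0 := c291_0_0; have q1 := e1; clear C; omega)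
                                      · first | linarith only [c291_1_0, e2] | (have q0 := c291_1_0; have q1 := e2; clear C; omega)
                                      · first | linarith only [c291_2_0, e3] | (have q0 := c291_2_0; have q1 := e3; clear C; omega)
                                      · first | linarith only [C.f11_0, C.o0, c291_3_0, s1] | (have q0 := C.f11_0; have q1 := C.o0; have q2 := c291_3_0; have q3 := s1; clear C; omega)
                                      · first | linarith only [C.f11_0, C.f11_1, C.o1, c276_3_0, c291_4_0, s2] | (have q0 := C.f11_0; have q1 := C.f11_1; have q2 := C.o1; have q3 := c276_3_0; have q4 := c291_4_0; have q5 := s2; clear C; omega)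
                                      · rcases c0_11_23_33_k3_k_tmzp C with c292_0_0 | c292_1_0 | c292_2_0 | c292_3_0 | c292_4_0 | c292_5_0
                                        · first | linarith only [C.f11_0, C.f23_0, C.f33_0, C.o0, c292_0_0, s1] | (have q0 := C.f11_0; have q1 := C.f23_0; have q2 := C.f33_0; have q3 := C.o0; have q4 := c292_0_0; have q5 := s1; clear C; omega)
                                        · first | linarith only [c242_0_0, c292_1_0] | (have q0 := c242_0_0; have q1 := c292_1_0; clear C; omega)
                                        · first | linarith only [C.f11_0, C.f11_1, C.f23_5, C.f33_4, C.o1, c276_3_0, c292_2_0, s2] | (have q0 := C.f11_0; have q1 := C.f11_1; have q2 := C.f23_5; have q3 := C.f33_4; have q4 := C.o1; have q5 := c276_3_0; have q6 := c292_2_0; have q7 := s2; clear C; omega)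
                                        · first | linarith only [c292_3_0, e0] | (have q0 := c292_3_0; have q1 := e0; clear C; omega)
                                        · first | linarith only [c1_1_1, c292_4_0] | (have q0 := c1_1_1; have q1 := c292_4_0; clear C; omega)
                                        · rcases c0_11_23_33_k3_k_tzpm C with c294_0_0 | c294_1_0 | c294_2_0 | c294_3_0 | ⟨c294_4_0, c294_4_1⟩
                                          · first | linarith only [c242_0_0, c294_0_0] | (have q0 := c242_0_0; have q1 := c294_0_0; clear C; omega)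
                                          · first | linarith only [C.f11_0, C.f11_1, C.f11_2, C.f23_9, C.o0, c0_0_1, c243_0_1, c244_1_1, c274_1_1, c282_5_0, c286_4_0, c294_1_0, s3] | (have q0 := C.f11_0; have q1 := C.f11_1; have q2 := C.f11_2; have q3 := C.f23_9; have q4 := C.o0; have q5 := c0_0_1; have q6 := c243_0_1; have q7 := c244_1_1; have q8 := c274_1_1; have q9 := c282_5_0; have q10 := c286_4_0; have q11 := c294_1_0; have q12 := s3; clear C; omega)
                                          · first | linarith only [c1_1_1, c294_2_0] | (have q0 := c1_1_1; have q1 := c294_2_0; clear C; omega)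
                                          · first | linarith only [C.f11_0, C.f11_1, C.f33_4, C.o0, c0_0_1, c1_1_1, c243_0_1, c274_1_1, c278_1_1, c286_4_0, c287_1_1, c291_5_0, c294_3_0, s2] | (have q0 := C.f11_0; have q1 := C.f11_1; have q2 := C.f33_4; have q3 := C.o0; have q4 := c0_0_1; have q5 := c1_1_1; have q6 := c243_0_1; have q7 := c274_1_1; have q8 := c278_1_1; have q9 := c286_4_0; have q10 := c287_1_1; have q11 := c291_5_0; have q12 := c294_3_0; have q13 := s2; clear C; omega)
                                          · rcases c0_11_23_33_k3_k_F1 hF1 with c296_0_0 | c296_1_0 | c296_2_0 | c296_3_0 | c296_4_0 | c296_5_0 | c296_6_0 | c296_7_0 | c296_8_0 | c296_9_0 | c296_10_0 | c296_11_0 | c296_12_0 | c296_13_0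
                                            · first | linarith only [C.f11_0, C.f11_1, C.f23_0, C.f23_5, C.f33_0, C.f33_3, c276_3_0, c294_4_0, c296_0_0, s1, s2] | (have q0 := C.f11_0; have q1 := C.f11_1; have q2 := C.f23_0; have q3 := C.f23_5; have q4 := C.f33_0; have q5 := C.f33_3; have q6 := c276_3_0; have q7 := c294_4_0; have q8 := c296_0_0; have q9 := s1; have q10 := s2; clear C; omega)
                                            · first | linarith only [C.f11_0, c277_0_1, c279_2_0, c296_1_0, e0] | (have q0 := C.f11_0; have q1 := c277_0_1; have q2 := c279_2_0; have q3 := c296_1_0; have q4 := e0; clear C; omega)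
                                            · first | linarith only [C.a1, C.f11_0, C.f11_1, C.f23_1, C.f23_5, C.f33_0, C.f33_3, C.o0, c273_0_1, c296_2_0, s2] | (have q0 := C.a1; have q1 := C.f11_0; have q2 := C.f11_1; have q3 := C.f23_1; have q4 := C.f23_5; have q5 := C.f33_0; have q6 := C.f33_3; have q7 := C.o0; have q8 := c273_0_1; have q9 := c296_2_0; have q10 := s2; clear C; omega)
                                            · first | linarith only [C.f11_1, C.f11_2, C.f23_9, C.f33_4, C.f33_7, c0_0_1, c243_0_1, c274_1_1, c277_0_1, c279_2_0, c286_4_0, c294_4_1, c296_3_0, s2, s3] | (have q0 := C.f11_1; have q1 := C.f11_2; have q2 := C.f23_9; have q3 := C.f33_4; have q4 := C.f33_7; have q5 := c0_0_1; have q6 := c243_0_1; have q7 := c274_1_1; have q8 := c277_0_1; have q9 := c279_2_0; have q10 := c286_4_0; have q11 := c294_4_1; have q12 := c296_3_0; have q13 := s2; have q14 := s3; clear C; omega)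
                                            · first | linarith only [C.f11_1, C.f23_5, C.f33_3, c279_2_0, c296_4_0, s2] | (have q0 := C.f11_1; have q1 := C.f23_5; have q2 := C.f33_3; have q3 := c279_2_0; have q4 := c296_4_0; have q5 := s2; clear C; omega)
                                            · first | linarith only [c0_0_1, c243_0_1, c274_1_1, c286_4_0, c296_5_0] | (have q0 := c0_0_1; have q1 := c243_0_1; have q2 := c274_1_1; have q3 := c286_4_0; have q4 := c296_5_0; clear C; omega)
                                            · first | linarith only [C.f11_1, C.f11_2, C.f23_9, C.f33_7, c0_0_1, c243_0_1, c274_1_1, c277_0_1, c279_2_0, c286_4_0, c294_4_1, c296_6_0, s3] | (have q0 := C.f11_1; have q1 := C.f11_2; have q2 := C.f23_9; have q3 := C.f33_7; have q4 := c0_0_1; have q5 := c243_0_1; have q6 := c274_1_1; have q7 := c277_0_1; have q8 := c279_2_0; have q9 := c286_4_0; have q10 := c294_4_1; have q11 := c296_6_0; have q12 := s3; clear C; omega)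
                                            · first | linarith only [C.f11_2, C.f33_0, C.f33_3, c0_0_1, c243_0_1, c286_4_0, c287_1_1, c288_5_0, c294_4_1, c296_7_0, s2] | (have q0 := C.f11_2; have q1 := C.f33_0; have q2 := C.f33_3; have q3 := c0_0_1; have q4 := c243_0_1; have q5 := c286_4_0; have q6 := c287_1_1; have q7 := c288_5_0; have q8 := c294_4_1; have q9 := c296_7_0; have q10 := s2; clear C; omega)
                                            · first | linarith only [C.f11_0, c277_0_1, c279_2_0, c296_8_0] | (have q0 := C.f11_0; have q1 := c277_0_1; have q2 := c279_2_0; have q3 := c296_8_0; clear C; omega)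
                                            · first | linarith only [C.f11_0, C.f11_1, C.f33_0, C.f33_3, c0_0_1, c243_0_1, c274_1_1, c286_4_0, c296_9_0, s2] | (have q0 := C.f11_0; have q1 := C.f11_1; have q2 := C.f33_0; have q3 := C.f33_3; have q4 := c0_0_1; have q5 := c243_0_1; have q6 := c274_1_1; have q7 := c286_4_0; have q8 := c296_9_0; have q9 := s2; clear C; omega)
                                            · first | linarith only [c1_1_1, c296_10_0] | (have q0 := c1_1_1; have q1 := c296_10_0; clear C; omega)
                                            · first | linarith only [c276_3_0, c296_11_0] | (have q0 := c276_3_0; have q1 := c296_11_0; clear C; omega)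
                                            · first | linarith only [C.b5, c296_12_0] | (have q0 := C.b5; have q1 := c296_12_0; clear C; omega)
                                            · first | linarith only [c292_5_0, c296_13_0] | (have q0 := c292_5_0; have q1 := c296_13_0; clear C; omega)
                                · first | linarith only [C.f11_0, C.f11_1, C.f11_2, C.f22_6, C.o2, c244_1_1, c272_1_1, c276_3_0, c285_4_0, c286_5_0, s3] | (have q0 := C.f11_0; have q1 := C.f11_1; have q2 := C.f11_2; have q3 := C.f22_6; have q4 := C.o2; have q5 := c244_1_1; have q6 := c272_1_1; have q7 := c276_3_0; have q8 := c285_4_0; have q9 := c286_5_0; have q10 := s3; clear C; omega)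
                          · first | linarith only [C.f23_5, c279_3_0, s2] | (have q0 := C.f23_5; have q1 := c279_3_0; have q2 := s2; clear C; omega)
                          · first | linarith only [C.b5, C.f11_0, C.f11_1, C.f11_2, C.o2, c1_1_1, c278_1_1, c279_4_0] | (have q0 := C.b5; have q1 := C.f11_0; have q2 := C.f11_1; have q3 := C.f11_2; have q4 := C.o2; have q5 := c1_1_1; have q6 := c278_1_1; have q7 := c279_4_0; clear C; omega)
                      · first | linarith only [C.f11_0, C.f11_1, C.f23_1, C.f23_5, C.f33_0, C.f33_4, C.o1, c273_0_1, c276_3_0, c277_1_1, s2] | (have q0 := C.f11_0; have q1 := C.f11_1; have q2 := C.f23_1; have q3 := C.f23_5; have q4 := C.f33_0; have q5 := C.f33_4; have q6 := C.o1; have q7 := c273_0_1; have q8 := c276_3_0; have q9 := c277_1_1; have q10 := s2; clear C; omega)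
                  · first | linarith only [C.f11_0, C.f11_1, C.f13_4, C.f23_5, C.f33_4, C.o0, C.o2, c0_0_1, c243_0_1, c274_2_1, s2] | (have q0 := C.f11_0; have q1 := C.f11_1; have q2 := C.f13_4; have q3 := C.f23_5; have q4 := C.f33_4; have q5 := C.o0; have q6 := C.o2; have q7 := c0_0_1; have q8 := c243_0_1; have q9 := c274_2_1; have q10 := s2; clear C; omega)
                · rcases c0_11_23_33_k3_k_f23_7 C with ⟨c297_0_0, c297_0_1⟩ | ⟨c297_1_0, c297_1_1⟩ | ⟨c297_2_0, c297_2_1⟩
                  · first | linarith only [C.a3, C.f23_5, c242_0_0, c273_1_1, c297_0_1] | (have q0 := C.a3; have q1 := C.f23_5; have q2 := c242_0_0; have q3 := c273_1_1; have q4 := c297_0_1; clear C; omega)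
                  · rcases c0_11_23_33_k3_k_f23_10 C with ⟨c299_0_0, c299_0_1⟩ | ⟨c299_1_0, c299_1_1⟩
                    · rcases c0_11_23_33_k3_k_p13_22A C with c301_0_0 | c301_1_0 | c301_2_0 | c301_3_0 | c301_4_0 | c301_5_0
                      · first | linarith only [C.o0, c301_0_0, e0] | (have q0 := C.o0; have q1 := c301_0_0; have q2 := e0; clear C; omega)
                      · first | linarith only [c301_1_0, e2] | (have q0 := c301_1_0; have q1 := e2; clear C; omega)
                      · first | linarith only [C.b5, C.f23_9, C.o0, c242_0_0, c297_1_1, c299_0_1, c301_2_0, e0] | (have q0 := C.b5; have q1 := C.f23_9; have q2 := C.o0; have q3 := c242_0_0; have q4 := c297_1_1; have q5 := c299_0_1; have q6 := c301_2_0; have q7 := e0; clear C; omega)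
                      · rcases c0_11_23_33_k3_k_p11_33A C with c302_0_0 | c302_1_0 | c302_2_0 | c302_3_0 | c302_4_0
                        · first | linarith only [c302_0_0, e0] | (have q0 := c302_0_0; have q1 := e0; clear C; omega)
                        · first | linarith only [c302_1_0, e3] | (have q0 := c302_1_0; have q1 := e3; clear C; omega)
                        · first | linarith only [C.b5, C.f23_1, C.f23_9, c0_0_1, c245_1_1, c297_1_1, c299_0_1, c301_3_0, c302_2_0, s1] | (have q0 := C.b5; have q1 := C.f23_1; have q2 := C.f23_9; have q3 := c0_0_1; have q4 := c245_1_1; have q5 := c297_1_1; have q6 := c299_0_1; have q7 := c301_3_0; have q8 := c302_2_0; have q9 := s1; clear C; omega)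
                        · first | linarith only [C.f23_5, c302_3_0, s2] | (have q0 := C.f23_5; have q1 := c302_3_0; have q2 := s2; clear C; omega)
                        · rcases c0_11_23_33_k3_k_f33_8 C with ⟨c303_0_0, c303_0_1⟩ | ⟨c303_1_0, c303_1_1⟩
                          · first | linarith only [C.f11_2, C.f23_5, C.f23_8, c302_4_0, c303_0_1, s2, s3] | (have q0 := C.f11_2; have q1 := C.f23_5; have q2 := C.f23_8; have q3 := c302_4_0; have q4 := c303_0_1; have q5 := s2; have q6 := s3; clear C; omega)
                          · first | linarith only [C.b5, C.f11_0, C.f11_1, C.f11_2, C.f23_9, c1_1_1, c302_4_0, c303_1_1, s3] | (have q0 := C.b5; have q1 := C.f11_0; have q2 := C.f11_1; have q3 := C.f11_2; have q4 := C.f23_9; have q5 := c1_1_1; have q6 := c302_4_0; have q7 := c303_1_1; have q8 := s3; clear C; omega)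
                      · first | linarith only [C.b5, C.f23_9, C.o0, c0_0_1, c1_1_1, c243_0_1, c272_1_1, c297_1_1, c299_0_1, c301_4_0] | (have q0 := C.b5; have q1 := C.f23_9; have q2 := C.o0; have q3 := c0_0_1; have q4 := c1_1_1; have q5 := c243_0_1; have q6 := c272_1_1; have q7 := c297_1_1; have q8 := c299_0_1; have q9 := c301_4_0; clear C; omega)
                      · first | linarith only [C.b5, C.f22_6, C.o2, c244_1_1, c272_1_1, c301_5_0] | (have q0 := C.b5; have q1 := C.f22_6; have q2 := C.o2; have q3 := c244_1_1; have q4 := c272_1_1; have q5 := c301_5_0; clear C; omega)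
                    · rcases c0_11_23_33_k3_k_f33_2 C with ⟨c304_0_0, c304_0_1⟩ | ⟨c304_1_0, c304_1_1⟩
                      · rcases c0_11_23_33_k3_k_p11_33B C with c305_0_0 | c305_1_0 | c305_2_0 | c305_3_0 | c305_4_0
                        · first | linarith only [c305_0_0, e0] | (have q0 := c305_0_0; have q1 := e0; clear C; omega)
                        · first | linarith only [c305_1_0, e3] | (have q0 := c305_1_0; have q1 := e3; clear C; omega)
                        · first | linarith only [C.a1, C.f11_0, C.o0, c304_0_1, c305_2_0] | (have q0 := C.a1; have q1 := C.f11_0; have q2 := C.o0; have q3 := c304_0_1; have q4 := c305_2_0; clear C; omega)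
                        · first | linarith only [C.f23_5, C.o1, c305_3_0, s2] | (have q0 := C.f23_5; have q1 := C.o1; have q2 := c305_3_0; have q3 := s2; clear C; omega)
                        · rcases c0_11_23_33_k3_k_f33_8 C with ⟨c306_0_0, c306_0_1⟩ | ⟨c306_1_0, c306_1_1⟩
                          · first | linarith only [C.b5, C.f11_2, C.f23_5, C.o1, c305_4_0, c306_0_1, s2] | (have q0 := C.b5; have q1 := C.f11_2; have q2 := C.f23_5; have q3 := C.o1; have q4 := c305_4_0; have q5 := c306_0_1; have q6 := s2; clear C; omega)
                          · rcases c0_11_23_33_k3_k_p11_33A C with c307_0_0 | c307_1_0 | c307_2_0 | c307_3_0 | c307_4_0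
                            · first | linarith only [c307_0_0, e0] | (have q0 := c307_0_0; have q1 := e0; clear C; omega)
                            · first | linarith only [c307_1_0, e3] | (have q0 := c307_1_0; have q1 := e3; clear C; omega)
                            · rcases c0_11_23_33_k3_k_p13_23A C with c308_0_0 | c308_1_0 | c308_2_0 | c308_3_0 | c308_4_0 | c308_5_0
                              · first | linarith only [C.o0, c308_0_0, e0] | (have q0 := C.o0; have q1 := c308_0_0; have q2 := e0; clear C; omega)
                              · first | linarith only [c308_1_0, e2] | (have q0 := c308_1_0; have q1 := e2; clear C; omega)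
                              · first | linarith only [c308_2_0, e1] | (have q0 := c308_2_0; have q1 := e1; clear C; omega)
                              · first | linarith only [c0_0_1, c307_2_0, c308_3_0, s1] | (have q0 := c0_0_1; have q1 := c307_2_0; have q2 := c308_3_0; have q3 := s1; clear C; omega)
                              · rcases c0_11_23_33_k3_k_p11_23B C with c309_0_0 | c309_1_0 | c309_2_0 | c309_3_0 | c309_4_0 | c309_5_0
                                · first | linarith only [c309_0_0, e0] | (have q0 := c309_0_0; have q1 := e0; clear C; omega)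
                                · first | linarith only [c309_1_0, e1] | (have q0 := c309_1_0; have q1 := e1; clear C; omega)
                                · first | linarith only [c309_2_0, e2] | (have q0 := c309_2_0; have q1 := e2; clear C; omega)
                                · first | linarith only [C.f11_0, C.o0, c307_2_0, c309_3_0, s1] | (have q0 := C.f11_0; have q1 := C.o0; have q2 := c307_2_0; have q3 := c309_3_0; have q4 := s1; clear C; omega)
                                · first | linarith only [C.f11_0, C.f11_1, C.o0, c0_0_1, c1_1_1, c243_0_1, c297_1_1, c308_4_0, c309_4_0] | (have q0 := C.f11_0; have q1 := C.f11_1; have q2 := C.o0; have q3 := c0_0_1; have q4 := c1_1_1; have q5 := c243_0_1; have q6 := c297_1_1; have q7 := c308_4_0; have q8 := c309_4_0; clear C; omega)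
                                · rcases c0_11_23_33_k3_k_p23_33A C with c315_0_0 | c315_1_0 | c315_2_0 | c315_3_0 | c315_4_0 | c315_5_0
                                  · first | linarith only [c315_0_0, e1] | (have q0 := c315_0_0; have q1 := e1; clear C; omega)
                                  · first | linarith only [c315_1_0, e2] | (have q0 := c315_1_0; have q1 := e2; clear C; omega)
                                  · first | linarith only [c315_2_0, e3] | (have q0 := c315_2_0; have q1 := e3; clear C; omega)
                                  · first | linarith only [C.f11_0, C.o0, c315_3_0, s1] | (have q0 := C.f11_0; have q1 := C.o0; have q2 := c315_3_0; have q3 := s1; clear C; omega)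
                                  · first | linarith only [C.b5, C.f11_2, C.o1, c299_1_1, c309_5_0, c315_4_0, s2] | (have q0 := C.b5; have q1 := C.f11_2; have q2 := C.o1; have q3 := c299_1_1; have q4 := c309_5_0; have q5 := c315_4_0; have q6 := s2; clear C; omega)
                                  · rcases c0_11_23_33_k3_k_tmzp C with c317_0_0 | c317_1_0 | c317_2_0 | c317_3_0 | c317_4_0 | c317_5_0
                                    · first | linarith only [C.b5, C.f11_0, C.f11_1, C.f11_2, C.f22_0, C.f23_1, C.f23_5, C.f33_0, C.f33_3, C.o0, c245_1_1, c299_1_1, c309_5_0, c317_0_0, s1, s2] | (have q0 := C.b5; have q1 := C.f11_0; have q2 := C.f11_1; have q3 := C.f11_2; have q4 := C.f22_0; have q5 := C.f23_1; have q6 := C.f23_5; have q7 := C.f33_0; have q8 := C.f33_3; have q9 := C.o0; have q10 := c245_1_1; have q11 := c299_1_1; have q12 := c309_5_0; have q13 := c317_0_0; have q14 := s1; have q15 := s2; clear C; omega)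
                                    · first | linarith only [c242_0_0, c317_1_0] | (have q0 := c242_0_0; have q1 := c317_1_0; clear C; omega)
                                    · first | linarith only [C.b5, C.f11_2, C.f23_5, C.f33_4, C.o1, c299_1_1, c309_5_0, c317_2_0, s2] | (have q0 := C.b5; have q1 := C.f11_2; have q2 := C.f23_5; have q3 := C.f33_4; have q4 := C.o1; have q5 := c299_1_1; have q6 := c309_5_0; have q7 := c317_2_0; have q8 := s2; clear C; omega)
                                    · first | linarith only [c317_3_0, e0] | (have q0 := c317_3_0; have q1 := e0; clear C; omega)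
                                    · first | linarith only [c1_1_1, c317_4_0] | (have q0 := c1_1_1; have q1 := c317_4_0; clear C; omega)
                                    · rcases c0_11_23_33_k3_k_tmpp C with c318_0_0 | c318_1_0 | c318_2_0 | c318_3_0
                                      · first | linarith only [C.b5, C.f11_0, C.f11_1, C.f11_2, C.f22_0, C.f23_1, C.f23_5, C.f33_0, C.f33_3, C.o0, c245_1_1, c299_1_1, c309_5_0, c318_0_0, s1, s2] | (have q0 := C.b5; have q1 := C.f11_0; have q2 := C.f11_1; have q3 := C.f11_2; have q4 := C.f22_0; have q5 := C.f23_1; have q6 := C.f23_5; have q7 := C.f33_0; have q8 := C.f33_3; have q9 := C.o0; have q10 := c245_1_1; have q11 := c299_1_1; have q12 := c309_5_0; have q13 := c318_0_0; have q14 := s1; have q15 := s2; clear C; omega)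
                                      · first | linarith only [C.f23_1, c307_2_0, c318_1_0, s1] | (have q0 := C.f23_1; have q1 := c307_2_0; have q2 := c318_1_0; have q3 := s1; clear C; omega)
                                      · first | linarith only [c318_2_0, e0] | (have q0 := c318_2_0; have q1 := e0; clear C; omega)
                                      · rcases c0_11_23_33_k3_k_tzpm C with c320_0_0 | c320_1_0 | c320_2_0 | c320_3_0 | ⟨c320_4_0, c320_4_1⟩
                                        · first | linarith only [c242_0_0, c320_0_0] | (have q0 := c242_0_0; have q1 := c320_0_0; clear C; omega)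
                                        · first | linarith only [C.f11_0, C.f11_1, C.f11_2, C.o0, c0_0_1, c243_0_1, c297_1_1, c308_4_0, c315_5_0, c320_1_0, s3] | (have q0 := C.f11_0; have q1 := C.f11_1; have q2 := C.f11_2; have q3 := C.o0; have q4 := c0_0_1; have q5 := c243_0_1; have q6 := c297_1_1; have q7 := c308_4_0; have q8 := c315_5_0; have q9 := c320_1_0; have q10 := s3; clear C; omega)
                                        · first | linarith only [c1_1_1, c320_2_0] | (have q0 := c1_1_1; have q1 := c320_2_0; clear C; omega)
                                        · first | linarith only [C.f11_0, C.f11_1, C.f11_2, C.f33_4, C.o0, c0_0_1, c243_0_1, c297_1_1, c308_4_0, c315_5_0, c317_5_0, c320_3_0, s2, s3] | (have q0 := C.f11_0; have q1 := C.f11_1; have q2 := C.f11_2; have q3 := C.f33_4; have q4 := C.o0; have q5 := c0_0_1; have q6 := c243_0_1; have q7 := c297_1_1; have q8 := c308_4_0; have q9 := c315_5_0; have q10 := c317_5_0; have q11 := c320_3_0; have q12 := s2; have q13 := s3; clear C; omega)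
                                        · rcases c0_11_23_33_k3_k_F1 hF1 with c322_0_0 | c322_1_0 | c322_2_0 | c322_3_0 | c322_4_0 | c322_5_0 | c322_6_0 | c322_7_0 | c322_8_0 | c322_9_0 | c322_10_0 | c322_11_0 | c322_12_0 | c322_13_0
                                          · first | linarith only [C.b5, C.f11_1, C.f11_2, C.f22_0, C.f23_1, C.f23_5, C.f33_0, C.f33_3, c245_1_1, c299_1_1, c309_5_0, c320_4_0, c322_0_0, s1, s2] | (have q0 := C.b5; have q1 := C.f11_1; have q2 := C.f11_2; have q3 := C.f22_0; have q4 := C.f23_1; have q5 := C.f23_5; have q6 := C.f33_0; have q7 := C.f33_3; have q8 := c245_1_1; have q9 := c299_1_1; have q10 := c309_5_0; have q11 := c320_4_0; have q12 := c322_0_0; have q13 := s1; have q14 := s2; clear C; omega)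
                                          · first | linarith only [C.f11_0, c304_0_1, c307_2_0, c322_1_0, e0] | (have q0 := C.f11_0; have q1 := c304_0_1; have q2 := c307_2_0; have q3 := c322_1_0; have q4 := e0; clear C; omega)
                                          · first | linarith only [C.f11_1, C.f23_1, C.f23_5, C.f33_3, c307_2_0, c322_2_0, s1, s2] | (have q0 := C.f11_1; have q1 := C.f23_1; have q2 := C.f23_5; have q3 := C.f33_3; have q4 := c307_2_0; have q5 := c322_2_0; have q6 := s1; have q7 := s2; clear C; omega)
                                          · first | linarith only [C.f11_1, C.f11_2, C.f23_9, C.f33_4, C.f33_7, c0_0_1, c243_0_1, c297_1_1, c304_0_1, c307_2_0, c308_4_0, c320_4_1, c322_3_0, s2, s3] | (have q0 := C.f11_1; have q1 := C.f11_2; have q2 := C.f23_9; have q3 := C.f33_4; have q4 := C.f33_7; have q5 := c0_0_1; have q6 := c243_0_1; have q7 := c297_1_1; have q8 := c304_0_1; have q9 := c307_2_0; have q10 := c308_4_0; have q11 := c320_4_1; have q12 := c322_3_0; have q13 := s2; have q14 := s3; clear C; omega)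
                                          · first | linarith only [C.f11_1, C.f23_5, C.f33_3, c307_2_0, c322_4_0, s2] | (have q0 := C.f11_1; have q1 := C.f23_5; have q2 := C.f33_3; have q3 := c307_2_0; have q4 := c322_4_0; have q5 := s2; clear C; omega)
                                          · first | linarith only [c0_0_1, c243_0_1, c297_1_1, c308_4_0, c322_5_0] | (have q0 := c0_0_1; have q1 := c243_0_1; have q2 := c297_1_1; have q3 := c308_4_0; have q4 := c322_5_0; clear C; omega)
                                          · first | linarith only [C.f11_1, C.f11_2, C.f23_9, C.f33_7, c0_0_1, c243_0_1, c297_1_1, c304_0_1, c307_2_0, c308_4_0, c320_4_1, c322_6_0, s3] | (have q0 := C.f11_1; have q1 := C.f11_2; have q2 := C.f23_9; have q3 := C.f33_7; have q4 := c0_0_1; have q5 := c243_0_1; have q6 := c297_1_1; have q7 := c304_0_1; have q8 := c307_2_0; have q9 := c308_4_0; have q10 := c320_4_1; have q11 := c322_6_0; have q12 := s3; clear C; omega)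
                                          · first | linarith only [C.f11_2, C.f33_0, C.f33_3, c0_0_1, c243_0_1, c299_1_1, c308_4_0, c309_5_0, c320_4_1, c322_7_0, s2] | (have q0 := C.f11_2; have q1 := C.f33_0; have q2 := C.f33_3; have q3 := c0_0_1; have q4 := c243_0_1; have q5 := c299_1_1; have q6 := c308_4_0; have q7 := c309_5_0; have q8 := c320_4_1; have q9 := c322_7_0; have q10 := s2; clear C; omega)
                                          · first | linarith only [C.f11_0, c304_0_1, c307_2_0, c322_8_0] | (have q0 := C.f11_0; have q1 := c304_0_1; have q2 := c307_2_0; have q3 := c322_8_0; clear C; omega)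
                                          · first | linarith only [C.f11_0, C.f11_1, C.f33_0, C.f33_3, c0_0_1, c243_0_1, c297_1_1, c308_4_0, c322_9_0, s2] | (have q0 := C.f11_0; have q1 := C.f11_1; have q2 := C.f33_0; have q3 := C.f33_3; have q4 := c0_0_1; have q5 := c243_0_1; have q6 := c297_1_1; have q7 := c308_4_0; have q8 := c322_9_0; have q9 := s2; clear C; omega)
                                          · first | linarith only [c1_1_1, c322_10_0] | (have q0 := c1_1_1; have q1 := c322_10_0; clear C; omega)
                                          · first | linarith only [c318_3_0, c322_11_0] | (have q0 := c318_3_0; have q1 := c322_11_0; clear C; omega)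
                                          · first | linarith only [C.b5, c322_12_0] | (have q0 := C.b5; have q1 := c322_12_0; clear C; omega)
                                          · first | linarith only [c317_5_0, c322_13_0] | (have q0 := c317_5_0; have q1 := c322_13_0; clear C; omega)
                              · first | linarith only [C.o2, c244_1_1, c299_1_1, c308_5_0] | (have q0 := C.o2; have q1 := c244_1_1; have q2 := c299_1_1; have q3 := c308_5_0; clear C; omega)
                            · first | linarith only [C.f23_5, c307_3_0, s2] | (have q0 := C.f23_5; have q1 := c307_3_0; have q2 := s2; clear C; omega)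
                            · first | linarith only [C.b5, C.f11_0, C.f11_1, C.f11_2, C.f23_9, c1_1_1, c306_1_1, c307_4_0, s3] | (have q0 := C.b5; have q1 := C.f11_0; have q2 := C.f11_1; have q3 := C.f11_2; have q4 := C.f23_9; have q5 := c1_1_1; have q6 := c306_1_1; have q7 := c307_4_0; have q8 := s3; clear C; omega)
                      · rcases c0_11_23_33_k3_k_f33_5 C with ⟨c323_0_0, c323_0_1⟩ | ⟨c323_1_0, c323_1_1⟩
                        · first | linarith only [C.a3, C.f33_4, c242_0_0, c304_1_1, c323_0_1] | (have q0 := C.a3; have q1 := C.f33_4; have q2 := c242_0_0; have q3 := c304_1_1; have q4 := c323_0_1; clear C; omega)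
                        · rcases c0_11_23_33_k3_k_f33_8 C with ⟨c324_0_0, c324_0_1⟩ | ⟨c324_1_0, c324_1_1⟩
                          · first | linarith only [C.b5, C.f11_0, C.f11_1, C.f13_4, C.f23_5, C.f33_7, C.o0, C.o1, C.o2, c0_0_1, c243_0_1, c323_1_1, c324_0_1, s2] | (have q0 := C.b5; have q1 := C.f11_0; have q2 := C.f11_1; have q3 := C.f13_4; have q4 := C.f23_5; have q5 := C.f33_7; have q6 := C.o0; have q7 := C.o1; have q8 := C.o2; have q9 := c0_0_1; have q10 := c243_0_1; have q11 := c323_1_1; have q12 := c324_0_1; have q13 := s2; clear C; omega)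
                          · rcases c0_11_23_33_k3_k_p11_33A C with c325_0_0 | c325_1_0 | c325_2_0 | c325_3_0 | c325_4_0
                            · first | linarith only [c325_0_0, e0] | (have q0 := c325_0_0; have q1 := e0; clear C; omega)
                            · first | linarith only [c325_1_0, e3] | (have q0 := c325_1_0; have q1 := e3; clear C; omega)
                            · rcases c0_11_23_33_k3_k_p13_23A C with c327_0_0 | c327_1_0 | c327_2_0 | c327_3_0 | c327_4_0 | c327_5_0
                              · first | linarith only [C.o0, c327_0_0, e0] | (have q0 := C.o0; have q1 := c327_0_0; have q2 := e0; clear C; omega)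
                              · first | linarith only [c327_1_0, e2] | (have q0 := c327_1_0; have q1 := e2; clear C; omega)
                              · first | linarith only [c327_2_0, e1] | (have q0 := c327_2_0; have q1 := e1; clear C; omega)
                              · first | linarith only [c0_0_1, c325_2_0, c327_3_0, s1] | (have q0 := c0_0_1; have q1 := c325_2_0; have q2 := c327_3_0; have q3 := s1; clear C; omega)
                              · first | linarith only [C.f11_1, C.f23_1, C.f33_4, c0_0_1, c243_0_1, c304_1_1, c325_2_0, c327_4_0, s1, s2] | (have q0 := C.f11_1; have q1 := C.f23_1; have q2 := C.f33_4; have q3 := c0_0_1; have q4 := c243_0_1; have q5 := c304_1_1; have q6 := c325_2_0; have q7 := c327_4_0; have q8 := s1; have q9 := s2; clear C; omega)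
                              · first | linarith only [C.o2, c244_1_1, c299_1_1, c327_5_0] | (have q0 := C.o2; have q1 := c244_1_1; have q2 := c299_1_1; have q3 := c327_5_0; clear C; omega)
                            · first | linarith only [C.f23_5, c325_3_0, s2] | (have q0 := C.f23_5; have q1 := c325_3_0; have q2 := s2; clear C; omega)
                            · first | linarith only [C.b5, C.f11_0, C.f11_1, C.f11_2, C.o2, c1_1_1, c324_1_1, c325_4_0] | (have q0 := C.b5; have q1 := C.f11_0; have q2 := C.f11_1; have q3 := C.f11_2; have q4 := C.o2; have q5 := c1_1_1; have q6 := c324_1_1; have q7 := c325_4_0; clear C; omega)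
                  · first | linarith only [C.f11_0, C.f11_1, C.f13_4, C.f23_5, C.f33_4, C.o0, C.o2, c0_0_1, c243_0_1, c297_2_1, s2] | (have q0 := C.f11_0; have q1 := C.f11_1; have q2 := C.f13_4; have q3 := C.f23_5; have q4 := C.f33_4; have q5 := C.o0; have q6 := C.o2; have q7 := c0_0_1; have q8 := c243_0_1; have q9 := c297_2_1; have q10 := s2; clear C; omega)
                · first | linarith only [C.f11_0, C.f11_1, C.f13_4, C.f23_1, C.f23_5, C.f33_4, C.o0, C.o2, c0_0_1, c243_0_1, c273_2_1, s2] | (have q0 := C.f11_0; have q1 := C.f11_1; have q2 := C.f13_4; have q3 := C.f23_1; have q4 := C.f23_5; have q5 := C.f33_4; have q6 := C.o0; have q7 := C.o2; have q8 := c0_0_1; have q9 := c243_0_1; have q10 := c273_2_1; have q11 := s2; clear C; omega)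
        · rcases c0_11_23_33_k3_k_f13_8 C with ⟨c328_0_0, c328_0_1⟩ | ⟨c328_1_0, c328_1_1⟩
          · first | linarith only [C.a4, C.b5, C.f13_7, C.o1, C.o2, c243_1_1, c328_0_1] | (have q0 := C.a4; have q1 := C.b5; have q2 := C.f13_7; have q3 := C.o1; have q4 := C.o2; have q5 := c243_1_1; have q6 := c328_0_1; clear C; omega)
          · rcases c0_11_23_33_k3_k_f22_2 C with ⟨c330_0_0, c330_0_1⟩ | ⟨c330_1_0, c330_1_1⟩
            · rcases c0_11_23_33_k3_k_f22_5 C with ⟨c331_0_0, c331_0_1⟩ | ⟨c331_1_0, c331_1_1⟩
              · first | linarith only [C.a1, C.f11_0, C.f11_1, C.f13_0, C.f13_3, C.f22_4, C.f23_5, C.f33_4, C.o0, C.o1, C.o2, c243_1_1, c330_0_1, c331_0_1, s2] | (have q0 := C.a1; have q1 := C.f11_0; have q2 := C.f11_1; have q3 := C.f13_0; have q4 := C.f13_3; have q5 := C.f22_4; have q6 := C.f23_5; have q7 := C.f33_4; have q8 := C.o0; have q9 := C.o1; have q10 := C.o2; have q11 := c243_1_1; have q12 := c330_0_1; have q13 := c331_0_1; have q14 := s2; clear C; omega)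
              · rcases c0_11_23_33_k3_k_p13_22A C with c332_0_0 | c332_1_0 | c332_2_0 | c332_3_0 | c332_4_0 | c332_5_0
                · first | linarith only [C.o0, c332_0_0, e0] | (have q0 := C.o0; have q1 := c332_0_0; have q2 := e0; clear C; omega)
                · first | linarith only [c332_1_0, e2] | (have q0 := c332_1_0; have q1 := e2; clear C; omega)
                · first | linarith only [C.a0, C.a1, C.f22_1, c330_0_1, c332_2_0] | (have q0 := C.a0; have q1 := C.a1; have q2 := C.f22_1; have q3 := c330_0_1; have q4 := c332_2_0; clear C; omega)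
                · first | linarith only [C.f11_0, C.f23_0, C.f33_0, C.o0, c0_0_1, c330_0_1, c332_3_0, s1] | (have q0 := C.f11_0; have q1 := C.f23_0; have q2 := C.f33_0; have q3 := C.o0; have q4 := c0_0_1; have q5 := c330_0_1; have q6 := c332_3_0; have q7 := s1; clear C; omega)
                · rcases c0_11_23_33_k3_k_p11_22B C with c334_0_0 | c334_1_0 | c334_2_0 | c334_3_0 | c334_4_0
                  · first | linarith only [c334_0_0, e0] | (have q0 := c334_0_0; have q1 := e0; clear C; omega)
                  · first | linarith only [C.f11_0, C.f22_1, C.f23_0, C.f33_0, C.o0, c330_0_1, c334_1_0, e0, s1] | (have q0 := C.f11_0; have q1 := C.f22_1; have q2 := C.f23_0; have q3 := C.f33_0; have q4 := C.o0; have q5 := c330_0_1; have q6 := c334_1_0; have q7 := e0; have q8 := s1; clear C; omega)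
                  · first | linarith only [C.f11_0, C.f23_0, C.f33_0, C.o0, c330_0_1, c334_2_0, s1] | (have q0 := C.f11_0; have q1 := C.f23_0; have q2 := C.f33_0; have q3 := C.o0; have q4 := c330_0_1; have q5 := c334_2_0; have q6 := s1; clear C; omega)
                  · first | linarith only [C.f23_5, C.f33_4, C.o2, c243_1_1, c331_1_1, c332_4_0, c334_3_0, s2] | (have q0 := C.f23_5; have q1 := C.f33_4; have q2 := C.o2; have q3 := c243_1_1; have q4 := c331_1_1; have q5 := c332_4_0; have q6 := c334_3_0; have q7 := s2; clear C; omega)
                  · first | linarith only [C.b5, C.f11_2, C.f22_6, C.f23_5, C.f33_4, C.o2, c243_1_1, c331_1_1, c332_4_0, c334_4_0, s2] | (have q0 := C.b5; have q1 := C.f11_2; have q2 := C.f22_6; have q3 := C.f23_5; have q4 := C.f33_4; have q5 := C.o2; have q6 := c243_1_1; have q7 := c331_1_1; have q8 := c332_4_0; have q9 := c334_4_0; have q10 := s2; clear C; omega)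
                · first | linarith only [C.b5, C.f22_6, C.o2, c328_1_1, c331_1_1, c332_5_0] | (have q0 := C.b5; have q1 := C.f22_6; have q2 := C.o2; have q3 := c328_1_1; have q4 := c331_1_1; have q5 := c332_5_0; clear C; omega)
            · rcases c0_11_23_33_k3_k_f22_5 C with ⟨c335_0_0, c335_0_1⟩ | ⟨c335_1_0, c335_1_1⟩
              · first | linarith only [C.f11_0, C.f11_1, C.f13_0, C.f13_3, C.f22_4, C.f23_5, C.f33_4, C.o0, C.o2, c242_0_0, c243_1_1, c330_1_1, c335_0_1, s2] | (have q0 := C.f11_0; have q1 := C.f11_1; have q2 := C.f13_0; have q3 := C.f13_3; have q4 := C.f22_4; have q5 := C.f23_5; have q6 := C.f33_4; have q7 := C.o0; have q8 := C.o2; have q9 := c242_0_0; have q10 := c243_1_1; have q11 := c330_1_1; have q12 := c335_0_1; have q13 := s2; clear C; omega)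
              · rcases c0_11_23_33_k3_k_f23_3 C with ⟨c336_0_0, c336_0_1⟩ | ⟨c336_1_0, c336_1_1⟩ | ⟨c336_2_0, c336_2_1⟩
                · rcases c0_11_23_33_k3_k_tmpp C with c338_0_0 | c338_1_0 | c338_2_0 | c338_3_0
                  · first | linarith only [C.f11_0, C.f23_0, C.f33_0, C.o0, c338_0_0, s1] | (have q0 := C.f11_0; have q1 := C.f23_0; have q2 := C.f33_0; have q3 := C.o0; have q4 := c338_0_0; have q5 := s1; clear C; omega)
                  · first | linarith only [C.f11_0, C.f23_1, C.f33_0, C.o0, c336_0_1, c338_1_0, s1] | (have q0 := C.f11_0; have q1 := C.f23_1; have q2 := C.f33_0; have q3 := C.o0; have q4 := c336_0_1; have q5 := c338_1_0; have q6 := s1; clear C; omega)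
                  · first | linarith only [c338_2_0, e0] | (have q0 := c338_2_0; have q1 := e0; clear C; omega)
                  · rcases c0_11_23_33_k3_k_p13_22A C with c345_0_0 | c345_1_0 | c345_2_0 | c345_3_0 | c345_4_0 | c345_5_0
                    · first | linarith only [C.f11_0, C.f11_1, C.f13_0, C.f13_3, C.f23_5, C.f33_4, C.o1, C.o2, c243_1_1, c338_3_0, c345_0_0, e0, s2] | (have q0 := C.f11_0; have q1 := C.f11_1; have q2 := C.f13_0; have q3 := C.f13_3; have q4 := C.f23_5; have q5 := C.f33_4; have q6 := C.o1; have q7 := C.o2; have q8 := c243_1_1; have q9 := c338_3_0; have q10 := c345_0_0; have q11 := e0; have q12 := s2; clear C; omega)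
                    · first | linarith only [c345_1_0, e2] | (have q0 := c345_1_0; have q1 := e2; clear C; omega)
                    · first | linarith only [C.f11_0, C.f11_1, C.f13_0, C.f13_3, C.f23_1, C.f23_5, C.f33_0, C.f33_4, C.o1, C.o2, c243_1_1, c336_0_1, c338_3_0, c345_2_0, e0, s1, s2] | (have q0 := C.f11_0; have q1 := C.f11_1; have q2 := C.f13_0; have q3 := C.f13_3; have q4 := C.f23_1; have q5 := C.f23_5; have q6 := C.f33_0; have q7 := C.f33_4; have q8 := C.o1; have q9 := C.o2; have q10 := c243_1_1; have q11 := c336_0_1; have q12 := c338_3_0; have q13 := c345_2_0; have q14 := e0; have q15 := s1; have q16 := s2; clear C; omega)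
                    · first | linarith only [C.f11_0, C.f11_1, C.f13_3, C.f23_1, C.f23_5, C.f33_0, C.f33_4, C.o2, c0_0_1, c243_1_1, c330_1_1, c336_0_1, c338_3_0, c345_3_0, s1, s2] | (have q0 := C.f11_0; have q1 := C.f11_1; have q2 := C.f13_3; have q3 := C.f23_1; have q4 := C.f23_5; have q5 := C.f33_0; have q6 := C.f33_4; have q7 := C.o2; have q8 := c0_0_1; have q9 := c243_1_1; have q10 := c330_1_1; have q11 := c336_0_1; have q12 := c338_3_0; have q13 := c345_3_0; have q14 := s1; have q15 := s2; clear C; omega)
                    · first | linarith only [C.f11_0, C.f11_1, C.f23_5, C.f33_4, C.o2, c243_1_1, c335_1_1, c338_3_0, c345_4_0, s2] | (have q0 := C.f11_0; have q1 := C.f11_1; have q2 := C.f23_5; have q3 := C.f33_4; have q4 := C.o2; have q5 := c243_1_1; have q6 := c335_1_1; have q7 := c338_3_0; have q8 := c345_4_0; have q9 := s2; clear C; omega)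
                    · first | linarith only [C.b5, C.f22_6, C.o2, c328_1_1, c335_1_1, c345_5_0] | (have q0 := C.b5; have q1 := C.f22_6; have q2 := C.o2; have q3 := c328_1_1; have q4 := c335_1_1; have q5 := c345_5_0; clear C; omega)
                · rcases c0_11_23_33_k3_k_f23_7 C with ⟨c346_0_0, c346_0_1⟩ | ⟨c346_1_0, c346_1_1⟩ | ⟨c346_2_0, c346_2_1⟩
                  · first | linarith only [C.f11_0, C.f11_1, C.f13_0, C.f13_3, C.f23_5, C.f33_4, C.o0, C.o2, c242_0_0, c243_1_1, c336_1_1, c346_0_1, s2] | (have q0 := C.f11_0; have q1 := C.f11_1; have q2 := C.f13_0; have q3 := C.f13_3; have q4 := C.f23_5; have q5 := C.f33_4; have q6 := C.o0; have q7 := C.o2; have q8 := c242_0_0; have q9 := c243_1_1; have q10 := c336_1_1; have q11 := c346_0_1; have q12 := s2; clear C; omega)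
                  · rcases c0_11_23_33_k3_k_f23_10 C with ⟨c347_0_0, c347_0_1⟩ | ⟨c347_1_0, c347_1_1⟩
                    · rcases c0_11_23_33_k3_k_tpmm C with c349_0_0 | c349_1_0 | c349_2_0 | c349_3_0 | c349_4_0
                      · first | linarith only [C.o0, c349_0_0, e0] | (have q0 := C.o0; have q1 := c349_0_0; have q2 := e0; clear C; omega)
                      · first | linarith only [C.f11_0, C.f11_1, C.f13_0, C.f13_3, C.f23_5, C.f33_4, C.o0, C.o2, c243_1_1, c349_1_0, s2] | (have q0 := C.f11_0; have q1 := C.f11_1; have q2 := C.f13_0; have q3 := C.f13_3; have q4 := C.f23_5; have q5 := C.f33_4; have q6 := C.o0; have q7 := C.o2; have q8 := c243_1_1; have q9 := c349_1_0; have q10 := s2; clear C; omega)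
                      · first | linarith only [C.a1, C.o0, c349_2_0] | (have q0 := C.a1; have q1 := C.o0; have q2 := c349_2_0; clear C; omega)
                      · first | linarith only [C.b5, C.f23_9, C.o0, c242_0_0, c346_1_1, c347_0_1, c349_3_0] | (have q0 := C.b5; have q1 := C.f23_9; have q2 := C.o0; have q3 := c242_0_0; have q4 := c346_1_1; have q5 := c347_0_1; have q6 := c349_3_0; clear C; omega)
                      · rcases c0_11_23_33_k3_k_p11_33A C with c350_0_0 | c350_1_0 | c350_2_0 | c350_3_0 | c350_4_0
                        · first | linarith only [c350_0_0, e0] | (have q0 := c350_0_0; have q1 := e0; clear C; omega)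
                        · first | linarith only [c350_1_0, e3] | (have q0 := c350_1_0; have q1 := e3; clear C; omega)
                        · rcases c0_11_23_33_k3_k_p13_22A C with c351_0_0 | c351_1_0 | c351_2_0 | c351_3_0 | c351_4_0 | c351_5_0
                          · first | linarith only [C.o0, c351_0_0, e0] | (have q0 := C.o0; have q1 := c351_0_0; have q2 := e0; clear C; omega)
                          · first | linarith only [c351_1_0, e2] | (have q0 := c351_1_0; have q1 := e2; clear C; omega)
                          · first | linarith only [C.b5, C.f23_9, C.o0, c242_0_0, c346_1_1, c347_0_1, c351_2_0, e0] | (have q0 := C.b5; have q1 := C.f23_9; have q2 := C.o0; have q3 := c242_0_0; have q4 := c346_1_1; have q5 := c347_0_1; have q6 := c351_2_0; have q7 := e0; clear C; omega)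
                          · first | linarith only [C.b5, C.f23_1, C.f23_9, c0_0_1, c330_1_1, c346_1_1, c347_0_1, c350_2_0, c351_3_0, s1] | (have q0 := C.b5; have q1 := C.f23_1; have q2 := C.f23_9; have q3 := c0_0_1; have q4 := c330_1_1; have q5 := c346_1_1; have q6 := c347_0_1; have q7 := c350_2_0; have q8 := c351_3_0; have q9 := s1; clear C; omega)
                          · rcases c0_11_23_33_k3_k_p11_13B C with c352_0_0 | c352_1_0 | c352_2_0 | c352_3_0 | c352_4_0 | c352_5_0
                            · first | linarith only [c352_0_0, e0] | (have q0 := c352_0_0; have q1 := e0; clear C; omega)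
                            · first | linarith only [C.o0, c352_1_0, e0] | (have q0 := C.o0; have q1 := c352_1_0; have q2 := e0; clear C; omega)
                            · first | linarith only [c352_2_0, e2] | (have q0 := c352_2_0; have q1 := e2; clear C; omega)
                            · rcases c0_11_23_33_k3_k_p11_22B C with c356_0_0 | c356_1_0 | c356_2_0 | c356_3_0 | c356_4_0
                              · first | linarith only [c356_0_0, e0] | (have q0 := c356_0_0; have q1 := e0; clear C; omega)
                              · first | linarith only [C.b5, C.f23_9, C.o0, c242_0_0, c346_1_1, c347_0_1, c356_1_0, e0] | (have q0 := C.b5; have q1 := C.f23_9; have q2 := C.o0; have q3 := c242_0_0; have q4 := c346_1_1; have q5 := c347_0_1; have q6 := c356_1_0; have q7 := e0; clear C; omega)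
                              · first | linarith only [C.b5, C.f11_0, C.f23_9, C.o0, c242_0_0, c330_1_1, c346_1_1, c347_0_1, c356_2_0] | (have q0 := C.b5; have q1 := C.f11_0; have q2 := C.f23_9; have q3 := C.o0; have q4 := c242_0_0; have q5 := c330_1_1; have q6 := c346_1_1; have q7 := c347_0_1; have q8 := c356_2_0; clear C; omega)
                              · first | linarith only [C.f11_0, C.f11_1, C.f13_3, C.f23_5, C.f33_4, C.o1, C.o2, c243_1_1, c335_1_1, c352_3_0, c356_3_0, s2] | (have q0 := C.f11_0; have q1 := C.f11_1; have q2 := C.f13_3; have q3 := C.f23_5; have q4 := C.f33_4; have q5 := C.o1; have q6 := C.o2; have q7 := c243_1_1; have q8 := c335_1_1; have q9 := c352_3_0; have q10 := c356_3_0; have q11 := s2; clear C; omega)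
                              · first | linarith only [C.b5, C.f11_0, C.f11_1, C.f11_2, C.f13_3, C.f22_6, C.f23_5, C.f33_4, C.o1, C.o2, c243_1_1, c335_1_1, c352_3_0, c356_4_0, s2] | (have q0 := C.b5; have q1 := C.f11_0; have q2 := C.f11_1; have q3 := C.f11_2; have q4 := C.f13_3; have q5 := C.f22_6; have q6 := C.f23_5; have q7 := C.f33_4; have q8 := C.o1; have q9 := C.o2; have q10 := c243_1_1; have q11 := c335_1_1; have q12 := c352_3_0; have q13 := c356_4_0; have q14 := s2; clear C; omega)
                            · first | linarith only [C.f23_5, C.f33_4, C.o1, C.o2, c243_1_1, c352_4_0, s2] | (have q0 := C.f23_5; have q1 := C.f33_4; have q2 := C.o1; have q3 := C.o2; have q4 := c243_1_1; have q5 := c352_4_0; have q6 := s2; clear C; omega)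
                            · first | linarith only [C.b5, C.f11_2, C.f23_5, C.f33_4, C.o2, c243_1_1, c328_1_1, c335_1_1, c351_4_0, c352_5_0, s2] | (have q0 := C.b5; have q1 := C.f11_2; have q2 := C.f23_5; have q3 := C.f33_4; have q4 := C.o2; have q5 := c243_1_1; have q6 := c328_1_1; have q7 := c335_1_1; have q8 := c351_4_0; have q9 := c352_5_0; have q10 := s2; clear C; omega)
                          · first | linarith only [C.b5, C.f22_6, C.o2, c328_1_1, c335_1_1, c351_5_0] | (have q0 := C.b5; have q1 := C.f22_6; have q2 := C.o2; have q3 := c328_1_1; have q4 := c335_1_1; have q5 := c351_5_0; clear C; omega)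
                        · first | linarith only [C.f23_5, c350_3_0, s2] | (have q0 := C.f23_5; have q1 := c350_3_0; have q2 := s2; clear C; omega)
                        · first | linarith only [C.f23_9, c349_4_0, c350_4_0, s3] | (have q0 := C.f23_9; have q1 := c349_4_0; have q2 := c350_4_0; have q3 := s3; clear C; omega)
                    · rcases c0_11_23_33_k3_k_f33_2 C with ⟨c357_0_0, c357_0_1⟩ | ⟨c357_1_0, c357_1_1⟩
                      · rcases c0_11_23_33_k3_k_f33_5 C with ⟨c358_0_0, c358_0_1⟩ | ⟨c358_1_0, c358_1_1⟩
                        · first | linarith only [C.a1, C.f13_0, C.f13_3, C.f33_4, C.o2, c243_1_1, c357_0_1, c358_0_1] | (have q0 := C.a1; have q1 := C.f13_0; have q2 := C.f13_3; have q3 := C.f33_4; have q4 := C.o2; have q5 := c243_1_1; have q6 := c357_0_1; have q7 := c358_0_1; clear C; omega)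
                        · rcases c0_11_23_33_k3_k_f33_8 C with ⟨c359_0_0, c359_0_1⟩ | ⟨c359_1_0, c359_1_1⟩
                          · first | linarith only [C.b5, C.f22_0, C.f33_1, C.f33_7, C.o2, c330_1_1, c357_0_1, c358_1_1, c359_0_1] | (have q0 := C.b5; have q1 := C.f22_0; have q2 := C.f33_1; have q3 := C.f33_7; have q4 := C.o2; have q5 := c330_1_1; have q6 := c357_0_1; have q7 := c358_1_1; have q8 := c359_0_1; clear C; omega)
                          · rcases c0_11_23_33_k3_k_p11_33A C with c360_0_0 | c360_1_0 | c360_2_0 | c360_3_0 | c360_4_0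
                            · first | linarith only [c360_0_0, e0] | (have q0 := c360_0_0; have q1 := e0; clear C; omega)
                            · first | linarith only [c360_1_0, e3] | (have q0 := c360_1_0; have q1 := e3; clear C; omega)
                            · rcases c0_11_23_33_k3_k_p11_33B C with c361_0_0 | c361_1_0 | c361_2_0 | c361_3_0 | c361_4_0
                              · first | linarith only [c361_0_0, e0] | (have q0 := c361_0_0; have q1 := e0; clear C; omega)
                              · first | linarith only [c361_1_0, e3] | (have q0 := c361_1_0; have q1 := e3; clear C; omega)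
                              · first | linarith only [C.a1, C.f11_0, C.o0, c357_0_1, c361_2_0] | (have q0 := C.a1; have q1 := C.f11_0; have q2 := C.o0; have q3 := c357_0_1; have q4 := c361_2_0; clear C; omega)
                              · first | linarith only [C.f23_5, C.o1, c361_3_0, s2] | (have q0 := C.f23_5; have q1 := C.o1; have q2 := c361_3_0; have q3 := s2; clear C; omega)
                              · rcases c0_11_23_33_k3_k_p13_22A C with c362_0_0 | c362_1_0 | c362_2_0 | c362_3_0 | c362_4_0 | c362_5_0
                                · first | linarith only [C.a1, C.f11_0, c357_0_1, c360_2_0, c362_0_0, e0] | (have q0 := C.a1; have q1 := C.f11_0; have q2 := c357_0_1; have q3 := c360_2_0; have q4 := c362_0_0; have q5 := e0; clear C; omega)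
                                · first | linarith only [c362_1_0, e2] | (have q0 := c362_1_0; have q1 := e2; clear C; omega)
                                · first | linarith only [C.b2, c362_2_0, e0] | (have q0 := C.b2; have q1 := c362_2_0; have q2 := e0; clear C; omega)
                                · rcases c0_11_23_33_k3_k_p11_23B C with c363_0_0 | c363_1_0 | c363_2_0 | c363_3_0 | c363_4_0 | c363_5_0
                                  · first | linarith only [c363_0_0, e0] | (have q0 := c363_0_0; have q1 := e0; clear C; omega)
                                  · first | linarith only [c363_1_0, e1] | (have q0 := c363_1_0; have q1 := e1; clear C; omega)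
                                  · first | linarith only [c363_2_0, e2] | (have q0 := c363_2_0; have q1 := e2; clear C; omega)
                                  · first | linarith only [C.a1, C.f11_0, c357_0_1, c360_2_0, c363_3_0, s1] | (have q0 := C.a1; have q1 := C.f11_0; have q2 := c357_0_1; have q3 := c360_2_0; have q4 := c363_3_0; have q5 := s1; clear C; omega)
                                  · first | linarith only [C.f11_1, C.f13_3, C.f23_1, C.f33_1, C.o2, c0_0_1, c243_1_1, c330_1_1, c346_1_1, c362_3_0, c363_4_0, s1] | (have q0 := C.f11_1; have q1 := C.f13_3; have q2 := C.f23_1; have q3 := C.f33_1; have q4 := C.o2; have q5 := c0_0_1; have q6 := c243_1_1; have q7 := c330_1_1; have q8 := c346_1_1; have q9 := c362_3_0; have q10 := c363_4_0; have q11 := s1; clear C; omega)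
                                  · rcases c0_11_23_33_k3_k_p11_13B C with c364_0_0 | c364_1_0 | c364_2_0 | c364_3_0 | c364_4_0 | c364_5_0
                                    · first | linarith only [c364_0_0, e0] | (have q0 := c364_0_0; have q1 := e0; clear C; omega)
                                    · first | linarith only [C.a1, C.f11_0, c357_0_1, c360_2_0, c364_1_0, e0] | (have q0 := C.a1; have q1 := C.f11_0; have q2 := c357_0_1; have q3 := c360_2_0; have q4 := c364_1_0; have q5 := e0; clear C; omega)
                                    · first | linarith only [c364_2_0, e2] | (have q0 := c364_2_0; have q1 := e2; clear C; omega)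
                                    · first | linarith only [C.f11_0, C.f11_1, C.f11_2, C.f13_3, C.f23_5, C.f23_8, C.f33_4, C.o2, c243_1_1, c347_1_1, c363_5_0, c364_3_0, s2] | (have q0 := C.f11_0; have q1 := C.f11_1; have q2 := C.f11_2; have q3 := C.f13_3; have q4 := C.f23_5; have q5 := C.f23_8; have q6 := C.f33_4; have q7 := C.o2; have q8 := c243_1_1; have q9 := c347_1_1; have q10 := c363_5_0; have q11 := c364_3_0; have q12 := s2; clear C; omega)
                                    · first | linarith only [C.f23_1, C.f23_5, C.f33_4, C.o2, c0_0_1, c243_1_1, c330_1_1, c360_2_0, c362_3_0, c364_4_0, s1, s2] | (have q0 := C.f23_1; have q1 := C.f23_5; have q2 := C.f33_4; have q3 := C.o2; have q4 := c0_0_1; have q5 := c243_1_1; have q6 := c330_1_1; have q7 := c360_2_0; have q8 := c362_3_0; have q9 := c364_4_0; have q10 := s1; have q11 := s2; clear C; omega)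
                                    · rcases c0_11_23_33_k3_k_p13_23A C with c366_0_0 | c366_1_0 | c366_2_0 | c366_3_0 | c366_4_0 | c366_5_0
                                      · first | linarith only [C.a1, C.f11_0, c357_0_1, c360_2_0, c366_0_0, e0] | (have q0 := C.a1; have q1 := C.f11_0; have q2 := c357_0_1; have q3 := c360_2_0; have q4 := c366_0_0; have q5 := e0; clear C; omega)
                                      · first | linarith only [c366_1_0, e2] | (have q0 := c366_1_0; have q1 := e2; clear C; omega)
                                      · first | linarith only [c366_2_0, e1] | (have q0 := c366_2_0; have q1 := e1; clear C; omega)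
                                      · first | linarith only [c0_0_1, c360_2_0, c366_3_0, s1] | (have q0 := c0_0_1; have q1 := c360_2_0; have q2 := c366_3_0; have q3 := s1; clear C; omega)
                                      · first | linarith only [C.b5, C.f11_2, C.f23_1, C.f33_4, C.o2, c0_0_1, c243_1_1, c328_1_1, c330_1_1, c360_2_0, c362_3_0, c364_5_0, c366_4_0, s1, s2] | (have q0 := C.b5; have q1 := C.f11_2; have q2 := C.f23_1; have q3 := C.f33_4; have q4 := C.o2; have q5 := c0_0_1; have q6 := c243_1_1; have q7 := c328_1_1; have q8 := c330_1_1; have q9 := c360_2_0; have q10 := c362_3_0; have q11 := c364_5_0; have q12 := c366_4_0; have q13 := s1; have q14 := s2; clear C; omega)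
                                      · first | linarith only [C.o2, c328_1_1, c347_1_1, c366_5_0] | (have q0 := C.o2; have q1 := c328_1_1; have q2 := c347_1_1; have q3 := c366_5_0; clear C; omega)
                                · first | linarith only [C.b5, C.f11_2, C.f23_5, C.f33_4, c243_1_1, c335_1_1, c359_1_1, c361_4_0, c362_4_0, s2] | (have q0 := C.b5; have q1 := C.f11_2; have q2 := C.f23_5; have q3 := C.f33_4; have q4 := c243_1_1; have q5 := c335_1_1; have q6 := c359_1_1; have q7 := c361_4_0; have q8 := c362_4_0; have q9 := s2; clear C; omega)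
                                · first | linarith only [C.b5, C.f22_6, C.o2, c328_1_1, c335_1_1, c362_5_0] | (have q0 := C.b5; have q1 := C.f22_6; have q2 := C.o2; have q3 := c328_1_1; have q4 := c335_1_1; have q5 := c362_5_0; clear C; omega)
                            · first | linarith only [C.f23_5, c360_3_0, s2] | (have q0 := C.f23_5; have q1 := c360_3_0; have q2 := s2; clear C; omega)
                            · first | linarith only [C.b5, C.f11_0, C.f11_1, C.f11_2, C.f23_9, c1_1_1, c359_1_1, c360_4_0, s3] | (have q0 := C.b5; have q1 := C.f11_0; have q2 := C.f11_1; have q3 := C.f11_2; have q4 := C.f23_9; have q5 := c1_1_1; have q6 := c359_1_1; have q7 := c360_4_0; have q8 := s3; clear C; omega)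
                      · rcases c0_11_23_33_k3_k_f33_5 C with ⟨c367_0_0, c367_0_1⟩ | ⟨c367_1_0, c367_1_1⟩
                        · first | linarith only [C.f11_0, C.f11_1, C.f13_0, C.f13_3, C.f23_5, C.f33_4, C.o0, C.o2, c242_0_0, c243_1_1, c357_1_1, c367_0_1, s2] | (have q0 := C.f11_0; have q1 := C.f11_1; have q2 := C.f13_0; have q3 := C.f13_3; have q4 := C.f23_5; have q5 := C.f33_4; have q6 := C.o0; have q7 := C.o2; have q8 := c242_0_0; have q9 := c243_1_1; have q10 := c357_1_1; have q11 := c367_0_1; have q12 := s2; clear C; omega)
                        · rcases c0_11_23_33_k3_k_f33_8 C with ⟨c368_0_0, c368_0_1⟩ | ⟨c368_1_0, c368_1_1⟩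
                          · first | linarith only [C.a4, C.b5, C.f33_7, C.o1, C.o2, c367_1_1, c368_0_1] | (have q0 := C.a4; have q1 := C.b5; have q2 := C.f33_7; have q3 := C.o1; have q4 := C.o2; have q5 := c367_1_1; have q6 := c368_0_1; clear C; omega)
                          · rcases c0_11_23_33_k3_k_p11_33A C with c369_0_0 | c369_1_0 | c369_2_0 | c369_3_0 | c369_4_0
                            · first | linarith only [c369_0_0, e0] | (have q0 := c369_0_0; have q1 := e0; clear C; omega)
                            · first | linarith only [c369_1_0, e3] | (have q0 := c369_1_0; have q1 := e3; clear C; omega)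
                            · rcases c0_11_23_33_k3_k_p11_33B C with c370_0_0 | c370_1_0 | c370_2_0 | c370_3_0 | c370_4_0
                              · first | linarith only [c370_0_0, e0] | (have q0 := c370_0_0; have q1 := e0; clear C; omega)
                              · first | linarith only [c370_1_0, e3] | (have q0 := c370_1_0; have q1 := e3; clear C; omega)
                              · first | linarith only [C.a4, C.f11_0, C.f23_1, C.o0, c357_1_1, c370_2_0, s1] | (have q0 := C.a4; have q1 := C.f11_0; have q2 := C.f23_1; have q3 := C.o0; have q4 := c357_1_1; have q5 := c370_2_0; have q6 := s1; clear C; omega)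
                              · first | linarith only [C.f23_5, C.o1, c370_3_0, s2] | (have q0 := C.f23_5; have q1 := C.o1; have q2 := c370_3_0; have q3 := s2; clear C; omega)
                              · rcases c0_11_23_33_k3_k_p13_22A C with c371_0_0 | c371_1_0 | c371_2_0 | c371_3_0 | c371_4_0 | c371_5_0
                                · first | linarith only [C.f11_0, c357_1_1, c369_2_0, c371_0_0, e0, e3] | (have q0 := C.f11_0; have q1 := c357_1_1; have q2 := c369_2_0; have q3 := c371_0_0; have q4 := e0; have q5 := e3; clear C; omega)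
                                · first | linarith only [c371_1_0, e2] | (have q0 := c371_1_0; have q1 := e2; clear C; omega)
                                · first | linarith only [C.b2, c371_2_0, e0] | (have q0 := C.b2; have q1 := c371_2_0; have q2 := e0; clear C; omega)
                                · rcases c0_11_23_33_k3_k_p11_23B C with c372_0_0 | c372_1_0 | c372_2_0 | c372_3_0 | c372_4_0 | c372_5_0
                                  · first | linarith only [c372_0_0, e0] | (have q0 := c372_0_0; have q1 := e0; clear C; omega)
                                  · first | linarith only [c372_1_0, e1] | (have q0 := c372_1_0; have q1 := e1; clear C; omega)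
                                  · first | linarith only [c372_2_0, e2] | (have q0 := c372_2_0; have q1 := e2; clear C; omega)
                                  · first | linarith only [C.f11_0, C.o0, c369_2_0, c372_3_0, s1] | (have q0 := C.f11_0; have q1 := C.o0; have q2 := c369_2_0; have q3 := c372_3_0; have q4 := s1; clear C; omega)
                                  · first | linarith only [C.f11_1, C.f13_3, C.f23_1, C.f33_1, C.o2, c0_0_1, c243_1_1, c330_1_1, c346_1_1, c371_3_0, c372_4_0, s1] | (have q0 := C.f11_1; have q1 := C.f13_3; have q2 := C.f23_1; have q3 := C.f33_1; have q4 := C.o2; have q5 := c0_0_1; have q6 := c243_1_1; have q7 := c330_1_1; have q8 := c346_1_1; have q9 := c371_3_0; have q10 := c372_4_0; have q11 := s1; clear C; omega)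
                                  · rcases c0_11_23_33_k3_k_p11_13B C with c373_0_0 | c373_1_0 | c373_2_0 | c373_3_0 | c373_4_0 | c373_5_0
                                    · first | linarith only [c373_0_0, e0] | (have q0 := c373_0_0; have q1 := e0; clear C; omega)
                                    · first | linarith only [C.f11_0, c357_1_1, c369_2_0, c373_1_0, e0, e3] | (have q0 := C.f11_0; have q1 := c357_1_1; have q2 := c369_2_0; have q3 := c373_1_0; have q4 := e0; have q5 := e3; clear C; omega)
                                    · first | linarith only [c373_2_0, e2] | (have q0 := c373_2_0; have q1 := e2; clear C; omega)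
                                    · first | linarith only [C.f11_0, C.f11_2, C.f23_1, C.f23_5, C.f23_8, C.f33_4, c0_0_1, c347_1_1, c357_1_1, c369_2_0, c372_5_0, c373_3_0, s1, s2] | (have q0 := C.f11_0; have q1 := C.f11_2; have q2 := C.f23_1; have q3 := C.f23_5; have q4 := C.f23_8; have q5 := C.f33_4; have q6 := c0_0_1; have q7 := c347_1_1; have q8 := c357_1_1; have q9 := c369_2_0; have q10 := c372_5_0; have q11 := c373_3_0; have q12 := s1; have q13 := s2; clear C; omega)
                                    · first | linarith only [C.f23_1, C.f23_5, C.f33_4, C.o2, c0_0_1, c243_1_1, c330_1_1, c369_2_0, c371_3_0, c373_4_0, s1, s2] | (have q0 := C.f23_1; have q1 := C.f23_5; have q2 := C.f33_4; have q3 := C.o2; have q4 := c0_0_1; have q5 := c243_1_1; have q6 := c330_1_1; have q7 := c369_2_0; have q8 := c371_3_0; have q9 := c373_4_0; have q10 := s1; have q11 := s2; clear C; omega)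
                                    · rcases c0_11_23_33_k3_k_p13_23A C with c375_0_0 | c375_1_0 | c375_2_0 | c375_3_0 | c375_4_0 | c375_5_0
                                      · first | linarith only [C.f11_0, c357_1_1, c369_2_0, c375_0_0, e0, e3] | (have q0 := C.f11_0; have q1 := c357_1_1; have q2 := c369_2_0; have q3 := c375_0_0; have q4 := e0; have q5 := e3; clear C; omega)
                                      · first | linarith only [c375_1_0, e2] | (have q0 := c375_1_0; have q1 := e2; clear C; omega)
                                      · first | linarith only [c375_2_0, e1] | (have q0 := c375_2_0; have q1 := e1; clear C; omega)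
                                      · first | linarith only [c0_0_1, c369_2_0, c375_3_0, s1] | (have q0 := c0_0_1; have q1 := c369_2_0; have q2 := c375_3_0; have q3 := s1; clear C; omega)
                                      · first | linarith only [C.b5, C.f11_2, C.f23_1, C.f33_4, C.o2, c0_0_1, c243_1_1, c328_1_1, c330_1_1, c369_2_0, c371_3_0, c373_5_0, c375_4_0, s1, s2] | (have q0 := C.b5; have q1 := C.f11_2; have q2 := C.f23_1; have q3 := C.f33_4; have q4 := C.o2; have q5 := c0_0_1; have q6 := c243_1_1; have q7 := c328_1_1; have q8 := c330_1_1; have q9 := c369_2_0; have q10 := c371_3_0; have q11 := c373_5_0; have q12 := c375_4_0; have q13 := s1; have q14 := s2; clear C; omega)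
                                      · first | linarith only [C.o2, c328_1_1, c347_1_1, c375_5_0] | (have q0 := C.o2; have q1 := c328_1_1; have q2 := c347_1_1; have q3 := c375_5_0; clear C; omega)
                                · first | linarith only [C.b5, C.f11_2, C.f23_5, C.f33_4, c243_1_1, c335_1_1, c368_1_1, c370_4_0, c371_4_0, s2] | (have q0 := C.b5; have q1 := C.f11_2; have q2 := C.f23_5; have q3 := C.f33_4; have q4 := c243_1_1; have q5 := c335_1_1; have q6 := c368_1_1; have q7 := c370_4_0; have q8 := c371_4_0; have q9 := s2; clear C; omega)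
                                · first | linarith only [C.b5, C.f22_6, C.o2, c328_1_1, c335_1_1, c371_5_0] | (have q0 := C.b5; have q1 := C.f22_6; have q2 := C.o2; have q3 := c328_1_1; have q4 := c335_1_1; have q5 := c371_5_0; clear C; omega)
                            · first | linarith only [C.f23_5, c369_3_0, s2] | (have q0 := C.f23_5; have q1 := c369_3_0; have q2 := s2; clear C; omega)
                            · first | linarith only [C.b5, C.f11_0, C.f11_1, C.f11_2, C.f23_9, c1_1_1, c368_1_1, c369_4_0, s3] | (have q0 := C.b5; have q1 := C.f11_0; have q2 := C.f11_1; have q3 := C.f11_2; have q4 := C.f23_9; have q5 := c1_1_1; have q6 := c368_1_1; have q7 := c369_4_0; have q8 := s3; clear C; omega)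
                  · first | linarith only [C.a4, C.f23_5, C.o2, c346_2_1] | (have q0 := C.a4; have q1 := C.f23_5; have q2 := C.o2; have q3 := c346_2_1; clear C; omega)
                · first | linarith only [C.a4, C.f23_1, C.o2, c336_2_1] | (have q0 := C.a4; have q1 := C.f23_1; have q2 := C.o2; have q3 := c336_2_1; clear C; omega)
      · rcases c0_11_23_33_k3_k_f13_5 C with ⟨c376_0_0, c376_0_1⟩ | ⟨c376_1_0, c376_1_1⟩
        · rcases c0_11_23_33_k3_k_f13_8 C with ⟨c377_0_0, c377_0_1⟩ | ⟨c377_1_0, c377_1_1⟩
          · first | linarith only [C.f13_7, C.o0, c0_0_1, c1_1_1, c242_1_1, c376_0_1, c377_0_1] | (have q0 := C.f13_7; have q1 := C.o0; have q2 := c0_0_1; have q3 := c1_1_1; have q4 := c242_1_1; have q5 := c376_0_1; have q6 := c377_0_1; clear C; omega)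
          · rcases c0_11_23_33_k3_k_p11_13B C with c378_0_0 | c378_1_0 | c378_2_0 | c378_3_0 | c378_4_0 | c378_5_0
            · first | linarith only [c378_0_0, e0] | (have q0 := c378_0_0; have q1 := e0; clear C; omega)
            · first | linarith only [C.o0, c378_1_0, e0] | (have q0 := C.o0; have q1 := c378_1_0; have q2 := e0; clear C; omega)
            · first | linarith only [c378_2_0, e2] | (have q0 := c378_2_0; have q1 := e2; clear C; omega)
            · rcases c0_11_23_33_k3_k_f22_2 C with ⟨c379_0_0, c379_0_1⟩ | ⟨c379_1_0, c379_1_1⟩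
              · rcases c0_11_23_33_k3_k_f22_5 C with ⟨c380_0_0, c380_0_1⟩ | ⟨c380_1_0, c380_1_1⟩
                · first | linarith only [C.f11_0, C.f22_4, C.f23_0, C.f33_0, C.o0, c1_1_1, c379_0_1, c380_0_1, s1] | (have q0 := C.f11_0; have q1 := C.f22_4; have q2 := C.f23_0; have q3 := C.f33_0; have q4 := C.o0; have q5 := c1_1_1; have q6 := c379_0_1; have q7 := c380_0_1; have q8 := s1; clear C; omega)
                · rcases c0_11_23_33_k3_k_p11_22B C with c381_0_0 | c381_1_0 | c381_2_0 | c381_3_0 | c381_4_0
                  · first | linarith only [c381_0_0, e0] | (have q0 := c381_0_0; have q1 := e0; clear C; omega)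
                  · first | linarith only [C.f11_0, C.f22_1, C.f23_0, C.f33_0, C.o0, c379_0_1, c381_1_0, e0, s1] | (have q0 := C.f11_0; have q1 := C.f22_1; have q2 := C.f23_0; have q3 := C.f33_0; have q4 := C.o0; have q5 := c379_0_1; have q6 := c381_1_0; have q7 := e0; have q8 := s1; clear C; omega)
                  · first | linarith only [C.f11_0, C.f23_0, C.f33_0, C.o0, c379_0_1, c381_2_0, s1] | (have q0 := C.f11_0; have q1 := C.f23_0; have q2 := C.f33_0; have q3 := C.o0; have q4 := c379_0_1; have q5 := c381_2_0; have q6 := s1; clear C; omega)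
                  · rcases c0_11_23_33_k3_k_f33_8 C with ⟨c383_0_0, c383_0_1⟩ | ⟨c383_1_0, c383_1_1⟩
                    · first | linarith only [C.f23_5, C.f33_7, C.o1, C.o2, c242_1_1, c380_1_1, c381_3_0, c383_0_1, s2] | (have q0 := C.f23_5; have q1 := C.f33_7; have q2 := C.o1; have q3 := C.o2; have q4 := c242_1_1; have q5 := c380_1_1; have q6 := c381_3_0; have q7 := c383_0_1; have q8 := s2; clear C; omega)
                    · rcases c0_11_23_33_k3_k_p11_33A C with c384_0_0 | c384_1_0 | c384_2_0 | c384_3_0 | c384_4_0
                      · first | linarith only [c384_0_0, e0] | (have q0 := c384_0_0; have q1 := e0; clear C; omega)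
                      · first | linarith only [c384_1_0, e3] | (have q0 := c384_1_0; have q1 := e3; clear C; omega)
                      · rcases c0_11_23_33_k3_k_f23_7 C with ⟨c385_0_0, c385_0_1⟩ | ⟨c385_1_0, c385_1_1⟩ | ⟨c385_2_0, c385_2_1⟩
                        · first | linarith only [C.f11_1, C.f23_5, C.f33_3, c384_2_0, c385_0_1, s1, s2] | (have q0 := C.f11_1; have q1 := C.f23_5; have q2 := C.f33_3; have q3 := c384_2_0; have q4 := c385_0_1; have q5 := s1; have q6 := s2; clear C; omega)
                        · rcases c0_11_23_33_k3_k_f23_10 C with ⟨c386_0_0, c386_0_1⟩ | ⟨c386_1_0, c386_1_1⟩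
                          · first | linarith only [C.f23_9, C.o1, c242_1_1, c385_1_1, c386_0_1] | (have q0 := C.f23_9; have q1 := C.o1; have q2 := c242_1_1; have q3 := c385_1_1; have q4 := c386_0_1; clear C; omega)
                          · rcases c0_11_23_33_k3_k_p11_23B C with c387_0_0 | c387_1_0 | c387_2_0 | c387_3_0 | c387_4_0 | c387_5_0
                            · first | linarith only [c387_0_0, e0] | (have q0 := c387_0_0; have q1 := e0; clear C; omega)
                            · first | linarith only [c387_1_0, e1] | (have q0 := c387_1_0; have q1 := e1; clear C; omega)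
                            · first | linarith only [c387_2_0, e2] | (have q0 := c387_2_0; have q1 := e2; clear C; omega)
                            · first | linarith only [C.f11_0, C.o0, c384_2_0, c387_3_0, s1] | (have q0 := C.f11_0; have q1 := C.o0; have q2 := c384_2_0; have q3 := c387_3_0; have q4 := s1; clear C; omega)
                            · rcases c0_11_23_33_k3_k_p13_22A C with c390_0_0 | c390_1_0 | c390_2_0 | c390_3_0 | c390_4_0 | c390_5_0
                              · first | linarith only [C.o0, c390_0_0, e0] | (have q0 := C.o0; have q1 := c390_0_0; have q2 := e0; clear C; omega)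
                              · first | linarith only [c390_1_0, e2] | (have q0 := c390_1_0; have q1 := e2; clear C; omega)
                              · first | linarith only [C.f11_0, C.f22_1, C.f23_0, C.f33_0, C.o0, c379_0_1, c390_2_0, e0, s1] | (have q0 := C.f11_0; have q1 := C.f22_1; have q2 := C.f23_0; have q3 := C.f33_0; have q4 := C.o0; have q5 := c379_0_1; have q6 := c390_2_0; have q7 := e0; have q8 := s1; clear C; omega)
                              · first | linarith only [C.f11_0, C.f23_0, C.f33_0, C.o0, c0_0_1, c379_0_1, c390_3_0, s1] | (have q0 := C.f11_0; have q1 := C.f23_0; have q2 := C.f33_0; have q3 := C.o0; have q4 := c0_0_1; have q5 := c379_0_1; have q6 := c390_3_0; have q7 := s1; clear C; omega)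
                              · first | linarith only [C.f11_0, C.f11_1, C.o0, c0_0_1, c1_1_1, c376_0_1, c380_1_1, c385_1_1, c387_4_0, c390_4_0] | (have q0 := C.f11_0; have q1 := C.f11_1; have q2 := C.o0; have q3 := c0_0_1; have q4 := c1_1_1; have q5 := c376_0_1; have q6 := c380_1_1; have q7 := c385_1_1; have q8 := c387_4_0; have q9 := c390_4_0; clear C; omega)
                              · first | linarith only [C.f22_6, C.o2, c242_1_1, c377_1_1, c380_1_1, c390_5_0] | (have q0 := C.f22_6; have q1 := C.o2; have q2 := c242_1_1; have q3 := c377_1_1; have q4 := c380_1_1; have q5 := c390_5_0; clear C; omega)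
                            · first | linarith only [C.f11_0, C.f11_1, C.f11_2, c1_1_1, c242_1_1, c386_1_1, c387_5_0] | (have q0 := C.f11_0; have q1 := C.f11_1; have q2 := C.f11_2; have q3 := c1_1_1; have q4 := c242_1_1; have q5 := c386_1_1; have q6 := c387_5_0; clear C; omega)
                        · first | linarith only [C.f11_0, C.f11_1, C.f13_4, C.f23_5, C.f33_4, C.o0, C.o2, c0_0_1, c376_0_1, c385_2_1, s2] | (have q0 := C.f11_0; have q1 := C.f11_1; have q2 := C.f13_4; have q3 := C.f23_5; have q4 := C.f33_4; have q5 := C.o0; have q6 := C.o2; have q7 := c0_0_1; have q8 := c376_0_1; have q9 := c385_2_1; have q10 := s2; clear C; omega)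
                      · first | linarith only [C.f23_5, c384_3_0, s2] | (have q0 := C.f23_5; have q1 := c384_3_0; have q2 := s2; clear C; omega)
                      · first | linarith only [C.f11_0, C.f11_1, C.f11_2, C.o2, c1_1_1, c242_1_1, c383_1_1, c384_4_0] | (have q0 := C.f11_0; have q1 := C.f11_1; have q2 := C.f11_2; have q3 := C.o2; have q4 := c1_1_1; have q5 := c242_1_1; have q6 := c383_1_1; have q7 := c384_4_0; clear C; omega)
                  · first | linarith only [C.f11_0, C.f11_1, C.f11_2, C.f22_6, c1_1_1, c242_1_1, c380_1_1, c381_4_0] | (have q0 := C.f11_0; have q1 := C.f11_1; have q2 := C.f11_2; have q3 := C.f22_6; have q4 := c1_1_1; have q5 := c242_1_1; have q6 := c380_1_1; have q7 := c381_4_0; clear C; omega)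
              · rcases c0_11_23_33_k3_k_f22_5 C with ⟨c391_0_0, c391_0_1⟩ | ⟨c391_1_0, c391_1_1⟩
                · first | linarith only [C.f22_4, c1_1_1, c242_1_0, c379_1_1, c391_0_1] | (have q0 := C.f22_4; have q1 := c1_1_1; have q2 := c242_1_0; have q3 := c379_1_1; have q4 := c391_0_1; clear C; omega)
                · rcases c0_11_23_33_k3_k_f23_3 C with ⟨c393_0_0, c393_0_1⟩ | ⟨c393_1_0, c393_1_1⟩ | ⟨c393_2_0, c393_2_1⟩
                  · rcases c0_11_23_33_k3_k_f23_7 C with ⟨c394_0_0, c394_0_1⟩ | ⟨c394_1_0, c394_1_1⟩ | ⟨c394_2_0, c394_2_1⟩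
                    · first | linarith only [C.f11_0, C.f11_1, C.f23_5, C.f33_0, C.f33_3, C.o0, c393_0_1, c394_0_1, s1, s2] | (have q0 := C.f11_0; have q1 := C.f11_1; have q2 := C.f23_5; have q3 := C.f33_0; have q4 := C.f33_3; have q5 := C.o0; have q6 := c393_0_1; have q7 := c394_0_1; have q8 := s1; have q9 := s2; clear C; omega)
                    · rcases c0_11_23_33_k3_k_f23_10 C with ⟨c395_0_0, c395_0_1⟩ | ⟨c395_1_0, c395_1_1⟩
                      · first | linarith only [C.f23_9, C.o1, c242_1_1, c394_1_1, c395_0_1] | (have q0 := C.f23_9; have q1 := C.o1; have q2 := c242_1_1; have q3 := c394_1_1; have q4 := c395_0_1; clear C; omega)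
                      · rcases c0_11_23_33_k3_k_p11_23B C with c396_0_0 | c396_1_0 | c396_2_0 | c396_3_0 | c396_4_0 | c396_5_0
                        · first | linarith only [c396_0_0, e0] | (have q0 := c396_0_0; have q1 := e0; clear C; omega)
                        · first | linarith only [c396_1_0, e1] | (have q0 := c396_1_0; have q1 := e1; clear C; omega)
                        · first | linarith only [c396_2_0, e2] | (have q0 := c396_2_0; have q1 := e2; clear C; omega)
                        · first | linarith only [C.a1, C.f11_0, C.o0, c393_0_1, c396_3_0] | (have q0 := C.a1; have q1 := C.f11_0; have q2 := C.o0; have q3 := c393_0_1; have q4 := c396_3_0; clear C; omega)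
                        · rcases c0_11_23_33_k3_k_p13_22A C with c403_0_0 | c403_1_0 | c403_2_0 | c403_3_0 | c403_4_0 | c403_5_0
                          · first | linarith only [C.o0, c403_0_0, e0] | (have q0 := C.o0; have q1 := c403_0_0; have q2 := e0; clear C; omega)
                          · first | linarith only [c403_1_0, e2] | (have q0 := c403_1_0; have q1 := e2; clear C; omega)
                          · first | linarith only [C.f11_0, C.f11_1, C.f23_1, C.f33_0, C.o0, c1_1_1, c393_0_1, c394_1_1, c396_4_0, c403_2_0, e0, s1] | (have q0 := C.f11_0; have q1 := C.f11_1; have q2 := C.f23_1; have q3 := C.f33_0; have q4 := C.o0; have q5 := c1_1_1; have q6 := c393_0_1; have q7 := c394_1_1; have q8 := c396_4_0; have q9 := c403_2_0; have q10 := e0; have q11 := s1; clear C; omega)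
                          · first | linarith only [C.f11_0, C.f11_1, C.f23_1, C.f33_0, C.o0, c0_0_1, c1_1_1, c379_1_1, c393_0_1, c394_1_1, c396_4_0, c403_3_0, s1] | (have q0 := C.f11_0; have q1 := C.f11_1; have q2 := C.f23_1; have q3 := C.f33_0; have q4 := C.o0; have q5 := c0_0_1; have q6 := c1_1_1; have q7 := c379_1_1; have q8 := c393_0_1; have q9 := c394_1_1; have q10 := c396_4_0; have q11 := c403_3_0; have q12 := s1; clear C; omega)
                          · first | linarith only [C.f11_0, C.f11_1, C.o0, c0_0_1, c1_1_1, c376_0_1, c391_1_1, c394_1_1, c396_4_0, c403_4_0] | (have q0 := C.f11_0; have q1 := C.f11_1; have q2 := C.o0; have q3 := c0_0_1; have q4 := c1_1_1; have q5 := c376_0_1; have q6 := c391_1_1; have q7 := c394_1_1; have q8 := c396_4_0; have q9 := c403_4_0; clear C; omega)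
                          · first | linarith only [C.f22_6, C.o2, c242_1_1, c377_1_1, c391_1_1, c403_5_0] | (have q0 := C.f22_6; have q1 := C.o2; have q2 := c242_1_1; have q3 := c377_1_1; have q4 := c391_1_1; have q5 := c403_5_0; clear C; omega)
                        · first | linarith only [C.f11_0, C.f11_1, C.f11_2, c1_1_1, c242_1_1, c395_1_1, c396_5_0] | (have q0 := C.f11_0; have q1 := C.f11_1; have q2 := C.f11_2; have q3 := c1_1_1; have q4 := c242_1_1; have q5 := c395_1_1; have q6 := c396_5_0; clear C; omega)
                    · first | linarith only [C.f11_0, C.f11_1, C.f13_4, C.f23_5, C.f33_4, C.o0, C.o2, c0_0_1, c376_0_1, c394_2_1, s2] | (have q0 := C.f11_0; have q1 := C.f11_1; have q2 := C.f13_4; have q3 := C.f23_5; have q4 := C.f33_4; have q5 := C.o0; have q6 := C.o2; have q7 := c0_0_1; have q8 := c376_0_1; have q9 := c394_2_1; have q10 := s2; clear C; omega)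
                  · rcases c0_11_23_33_k3_k_f23_7 C with ⟨c404_0_0, c404_0_1⟩ | ⟨c404_1_0, c404_1_1⟩ | ⟨c404_2_0, c404_2_1⟩
                    · first | linarith only [C.f23_5, c1_1_1, c242_1_0, c393_1_1, c404_0_1] | (have q0 := C.f23_5; have q1 := c1_1_1; have q2 := c242_1_0; have q3 := c393_1_1; have q4 := c404_0_1; clear C; omega)
                    · rcases c0_11_23_33_k3_k_f23_10 C with ⟨c405_0_0, c405_0_1⟩ | ⟨c405_1_0, c405_1_1⟩
                      · first | linarith only [C.f23_9, C.o1, c242_1_1, c404_1_1, c405_0_1] | (have q0 := C.f23_9; have q1 := C.o1; have q2 := c242_1_1; have q3 := c404_1_1; have q4 := c405_0_1; clear C; omega)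
                      · rcases c0_11_23_33_k3_k_f33_2 C with ⟨c407_0_0, c407_0_1⟩ | ⟨c407_1_0, c407_1_1⟩
                        · rcases c0_11_23_33_k3_k_p11_33B C with c408_0_0 | c408_1_0 | c408_2_0 | c408_3_0 | c408_4_0
                          · first | linarith only [c408_0_0, e0] | (have q0 := c408_0_0; have q1 := e0; clear C; omega)
                          · first | linarith only [c408_1_0, e3] | (have q0 := c408_1_0; have q1 := e3; clear C; omega)
                          · first | linarith only [C.a1, C.f11_0, C.o0, c407_0_1, c408_2_0] | (have q0 := C.a1; have q1 := C.f11_0; have q2 := C.o0; have q3 := c407_0_1; have q4 := c408_2_0; clear C; omega)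
                          · first | linarith only [C.f23_5, C.o1, c408_3_0, s2] | (have q0 := C.f23_5; have q1 := C.o1; have q2 := c408_3_0; have q3 := s2; clear C; omega)
                          · rcases c0_11_23_33_k3_k_f33_8 C with ⟨c409_0_0, c409_0_1⟩ | ⟨c409_1_0, c409_1_1⟩
                            · first | linarith only [C.f11_2, C.f23_5, C.o1, c242_1_1, c408_4_0, c409_0_1, s2] | (have q0 := C.f11_2; have q1 := C.f23_5; have q2 := C.o1; have q3 := c242_1_1; have q4 := c408_4_0; have q5 := c409_0_1; have q6 := s2; clear C; omega)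
                            · rcases c0_11_23_33_k3_k_p11_33A C with c410_0_0 | c410_1_0 | c410_2_0 | c410_3_0 | c410_4_0
                              · first | linarith only [c410_0_0, e0] | (have q0 := c410_0_0; have q1 := e0; clear C; omega)
                              · first | linarith only [c410_1_0, e3] | (have q0 := c410_1_0; have q1 := e3; clear C; omega)
                              · rcases c0_11_23_33_k3_k_p11_23B C with c411_0_0 | c411_1_0 | c411_2_0 | c411_3_0 | c411_4_0 | c411_5_0
                                · first | linarith only [c411_0_0, e0] | (have q0 := c411_0_0; have q1 := e0; clear C; omega)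
                                · first | linarith only [c411_1_0, e1] | (have q0 := c411_1_0; have q1 := e1; clear C; omega)
                                · first | linarith only [c411_2_0, e2] | (have q0 := c411_2_0; have q1 := e2; clear C; omega)
                                · first | linarith only [C.a1, C.f11_0, c407_0_1, c410_2_0, c411_3_0, s1] | (have q0 := C.a1; have q1 := C.f11_0; have q2 := c407_0_1; have q3 := c410_2_0; have q4 := c411_3_0; have q5 := s1; clear C; omega)
                                · rcases c0_11_23_33_k3_k_p13_22A C with c414_0_0 | c414_1_0 | c414_2_0 | c414_3_0 | c414_4_0 | c414_5_0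
                                  · first | linarith only [C.o0, c414_0_0, e0] | (have q0 := C.o0; have q1 := c414_0_0; have q2 := e0; clear C; omega)
                                  · first | linarith only [c414_1_0, e2] | (have q0 := c414_1_0; have q1 := e2; clear C; omega)
                                  · first | linarith only [C.f11_0, C.f11_1, C.f23_1, C.o0, c1_1_1, c404_1_1, c410_2_0, c411_4_0, c414_2_0, e0, s1] | (have q0 := C.f11_0; have q1 := C.f11_1; have q2 := C.f23_1; have q3 := C.o0; have q4 := c1_1_1; have q5 := c404_1_1; have q6 := c410_2_0; have q7 := c411_4_0; have q8 := c414_2_0; have q9 := e0; have q10 := s1; clear C; omega)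
                                  · first | linarith only [C.f11_0, C.f11_1, C.f23_1, c0_0_1, c1_1_1, c379_1_1, c404_1_1, c410_2_0, c411_4_0, c414_3_0, s1] | (have q0 := C.f11_0; have q1 := C.f11_1; have q2 := C.f23_1; have q3 := c0_0_1; have q4 := c1_1_1; have q5 := c379_1_1; have q6 := c404_1_1; have q7 := c410_2_0; have q8 := c411_4_0; have q9 := c414_3_0; have q10 := s1; clear C; omega)
                                  · first | linarith only [C.f11_0, C.f11_1, C.o0, c0_0_1, c1_1_1, c376_0_1, c391_1_1, c404_1_1, c411_4_0, c414_4_0] | (have q0 := C.f11_0; have q1 := C.f11_1; have q2 := C.o0; have q3 := c0_0_1; have q4 := c1_1_1; have q5 := c376_0_1; have q6 := c391_1_1; have q7 := c404_1_1; have q8 := c411_4_0; have q9 := c414_4_0; clear C; omega)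
                                  · first | linarith only [C.f22_6, C.o2, c242_1_1, c377_1_1, c391_1_1, c414_5_0] | (have q0 := C.f22_6; have q1 := C.o2; have q2 := c242_1_1; have q3 := c377_1_1; have q4 := c391_1_1; have q5 := c414_5_0; clear C; omega)
                                · first | linarith only [C.f11_0, C.f11_1, C.f11_2, c1_1_1, c242_1_1, c405_1_1, c411_5_0] | (have q0 := C.f11_0; have q1 := C.f11_1; have q2 := C.f11_2; have q3 := c1_1_1; have q4 := c242_1_1; have q5 := c405_1_1; have q6 := c411_5_0; clear C; omega)
                              · first | linarith only [C.f23_5, c410_3_0, s2] | (have q0 := C.f23_5; have q1 := c410_3_0; have q2 := s2; clear C; omega)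
                              · first | linarith only [C.f11_0, C.f11_1, C.f11_2, C.o2, c1_1_1, c242_1_1, c409_1_1, c410_4_0] | (have q0 := C.f11_0; have q1 := C.f11_1; have q2 := C.f11_2; have q3 := C.o2; have q4 := c1_1_1; have q5 := c242_1_1; have q6 := c409_1_1; have q7 := c410_4_0; clear C; omega)
                        · rcases c0_11_23_33_k3_k_f33_5 C with ⟨c415_0_0, c415_0_1⟩ | ⟨c415_1_0, c415_1_1⟩
                          · first | linarith only [C.f33_4, c1_1_1, c242_1_0, c407_1_1, c415_0_1] | (have q0 := C.f33_4; have q1 := c1_1_1; have q2 := c242_1_0; have q3 := c407_1_1; have q4 := c415_0_1; clear C; omega)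
                          · rcases c0_11_23_33_k3_k_f33_8 C with ⟨c416_0_0, c416_0_1⟩ | ⟨c416_1_0, c416_1_1⟩
                            · first | linarith only [C.f11_0, C.f11_1, C.f13_4, C.f23_5, C.f33_7, C.o0, C.o1, C.o2, c0_0_1, c242_1_1, c376_0_1, c415_1_1, c416_0_1, s2] | (have q0 := C.f11_0; have q1 := C.f11_1; have q2 := C.f13_4; have q3 := C.f23_5; have q4 := C.f33_7; have q5 := C.o0; have q6 := C.o1; have q7 := C.o2; have q8 := c0_0_1; have q9 := c242_1_1; have q10 := c376_0_1; have q11 := c415_1_1; have q12 := c416_0_1; have q13 := s2; clear C; omega)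
                            · rcases c0_11_23_33_k3_k_p11_33A C with c417_0_0 | c417_1_0 | c417_2_0 | c417_3_0 | c417_4_0
                              · first | linarith only [c417_0_0, e0] | (have q0 := c417_0_0; have q1 := e0; clear C; omega)
                              · first | linarith only [c417_1_0, e3] | (have q0 := c417_1_0; have q1 := e3; clear C; omega)
                              · rcases c0_11_23_33_k3_k_p11_22B C with c419_0_0 | c419_1_0 | c419_2_0 | c419_3_0 | c419_4_0
                                · first | linarith only [c419_0_0, e0] | (have q0 := c419_0_0; have q1 := e0; clear C; omega)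
                                · first | linarith only [c242_1_0, c419_1_0, e0] | (have q0 := c242_1_0; have q1 := c419_1_0; have q2 := e0; clear C; omega)
                                · rcases c0_11_23_33_k3_k_p11_23B C with c421_0_0 | c421_1_0 | c421_2_0 | c421_3_0 | c421_4_0 | c421_5_0
                                  · first | linarith only [c421_0_0, e0] | (have q0 := c421_0_0; have q1 := e0; clear C; omega)
                                  · first | linarith only [c421_1_0, e1] | (have q0 := c421_1_0; have q1 := e1; clear C; omega)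
                                  · first | linarith only [c421_2_0, e2] | (have q0 := c421_2_0; have q1 := e2; clear C; omega)
                                  · first | linarith only [C.f11_0, C.o0, c417_2_0, c421_3_0, s1] | (have q0 := C.f11_0; have q1 := C.o0; have q2 := c417_2_0; have q3 := c421_3_0; have q4 := s1; clear C; omega)
                                  · first | linarith only [C.f11_0, C.f23_1, C.f33_4, C.o0, c379_1_1, c407_1_1, c417_2_0, c419_2_0, c421_4_0, s1, s2] | (have q0 := C.f11_0; have q1 := C.f23_1; have q2 := C.f33_4; have q3 := C.o0; have q4 := c379_1_1; have q5 := c407_1_1; have q6 := c417_2_0; have q7 := c419_2_0; have q8 := c421_4_0; have q9 := s1; have q10 := s2; clear C; omega)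
                                  · first | linarith only [C.f11_0, C.f11_2, C.f23_1, C.f23_5, C.f33_4, c242_1_1, c379_1_1, c405_1_1, c407_1_1, c417_2_0, c419_2_0, c421_5_0, s1, s2] | (have q0 := C.f11_0; have q1 := C.f11_2; have q2 := C.f23_1; have q3 := C.f23_5; have q4 := C.f33_4; have q5 := c242_1_1; have q6 := c379_1_1; have q7 := c405_1_1; have q8 := c407_1_1; have q9 := c417_2_0; have q10 := c419_2_0; have q11 := c421_5_0; have q12 := s1; have q13 := s2; clear C; omega)
                                · first | linarith only [C.f11_0, C.f23_1, C.f23_5, C.f33_4, C.o1, c0_0_1, c378_3_0, c391_1_1, c407_1_1, c417_2_0, c419_3_0, s1, s2] | (have q0 := C.f11_0; have q1 := C.f23_1; have q2 := C.f23_5; have q3 := C.f33_4; have q4 := C.o1; have q5 := c0_0_1; have q6 := c378_3_0; have q7 := c391_1_1; have q8 := c407_1_1; have q9 := c417_2_0; have q10 := c419_3_0; have q11 := s1; have q12 := s2; clear C; omega)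
                                · first | linarith only [C.f11_0, C.f11_2, C.f22_6, C.f23_1, C.f23_5, C.f33_4, C.o1, c0_0_1, c242_1_1, c378_3_0, c391_1_1, c407_1_1, c417_2_0, c419_4_0, s1, s2] | (have q0 := C.f11_0; have q1 := C.f11_2; have q2 := C.f22_6; have q3 := C.f23_1; have q4 := C.f23_5; have q5 := C.f33_4; have q6 := C.o1; have q7 := c0_0_1; have q8 := c242_1_1; have q9 := c378_3_0; have q10 := c391_1_1; have q11 := c407_1_1; have q12 := c417_2_0; have q13 := c419_4_0; have q14 := s1; have q15 := s2; clear C; omega)
                              · first | linarith only [C.f23_5, c417_3_0, s2] | (have q0 := C.f23_5; have q1 := c417_3_0; have q2 := s2; clear C; omega)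
                              · first | linarith only [C.a3, C.f11_0, C.f11_1, C.f11_2, C.f23_9, C.o1, c0_0_1, c242_1_1, c378_3_0, c416_1_1, c417_4_0, s3] | (have q0 := C.a3; have q1 := C.f11_0; have q2 := C.f11_1; have q3 := C.f11_2; have q4 := C.f23_9; have q5 := C.o1; have q6 := c0_0_1; have q7 := c242_1_1; have q8 := c378_3_0; have q9 := c416_1_1; have q10 := c417_4_0; have q11 := s3; clear C; omega)
                    · first | linarith only [C.a4, C.f23_5, C.o2, c404_2_1] | (have q0 := C.a4; have q1 := C.f23_5; have q2 := C.o2; have q3 := c404_2_1; clear C; omega)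
                  · first | linarith only [C.f11_0, C.f11_1, C.f13_4, C.f23_1, C.f23_5, C.f33_4, C.o0, C.o2, c0_0_1, c376_0_1, c393_2_1, s2] | (have q0 := C.f11_0; have q1 := C.f11_1; have q2 := C.f13_4; have q3 := C.f23_1; have q4 := C.f23_5; have q5 := C.f33_4; have q6 := C.o0; have q7 := C.o2; have q8 := c0_0_1; have q9 := c376_0_1; have q10 := c393_2_1; have q11 := s2; clear C; omega)
            · first | linarith only [C.f11_0, C.f11_1, C.o0, c0_0_1, c1_1_1, c376_0_1, c378_4_0] | (have q0 := C.f11_0; have q1 := C.f11_1; have q2 := C.o0; have q3 := c0_0_1; have q4 := c1_1_1; have q5 := c376_0_1; have q6 := c378_4_0; clear C; omega)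
            · first | linarith only [C.f11_0, C.f11_1, C.f11_2, c1_1_1, c242_1_1, c377_1_1, c378_5_0] | (have q0 := C.f11_0; have q1 := C.f11_1; have q2 := C.f11_2; have q3 := c1_1_1; have q4 := c242_1_1; have q5 := c377_1_1; have q6 := c378_5_0; clear C; omega)
        · rcases c0_11_23_33_k3_k_f13_8 C with ⟨c422_0_0, c422_0_1⟩ | ⟨c422_1_0, c422_1_1⟩
          · first | linarith only [C.a4, C.f13_7, C.o1, C.o2, c242_1_1, c376_1_1, c422_0_1] | (have q0 := C.a4; have q1 := C.f13_7; have q2 := C.o1; have q3 := C.o2; have q4 := c242_1_1; have q5 := c376_1_1; have q6 := c422_0_1; clear C; omega)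
          · rcases c0_11_23_33_k3_k_p11_13B C with c424_0_0 | c424_1_0 | c424_2_0 | c424_3_0 | c424_4_0 | c424_5_0
            · first | linarith only [c424_0_0, e0] | (have q0 := c424_0_0; have q1 := e0; clear C; omega)
            · first | linarith only [C.o0, c424_1_0, e0] | (have q0 := C.o0; have q1 := c424_1_0; have q2 := e0; clear C; omega)
            · first | linarith only [c424_2_0, e2] | (have q0 := c424_2_0; have q1 := e2; clear C; omega)
            · rcases c0_11_23_33_k3_k_tmpp C with c425_0_0 | c425_1_0 | c425_2_0 | c425_3_0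
              · first | linarith only [C.f11_0, C.f23_0, C.f33_0, C.o0, c425_0_0, s1] | (have q0 := C.f11_0; have q1 := C.f23_0; have q2 := C.f33_0; have q3 := C.o0; have q4 := c425_0_0; have q5 := s1; clear C; omega)
              · rcases c0_11_23_33_k3_k_f22_2 C with ⟨c426_0_0, c426_0_1⟩ | ⟨c426_1_0, c426_1_1⟩
                · first | linarith only [C.f11_0, C.f22_1, C.f23_1, C.f33_0, C.o0, C.o1, c425_1_0, c426_0_1, s1] | (have q0 := C.f11_0; have q1 := C.f22_1; have q2 := C.f23_1; have q3 := C.f33_0; have q4 := C.o0; have q5 := C.o1; have q6 := c425_1_0; have q7 := c426_0_1; have q8 := s1; clear C; omega)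
                · rcases c0_11_23_33_k3_k_f22_5 C with ⟨c427_0_0, c427_0_1⟩ | ⟨c427_1_0, c427_1_1⟩
                  · first | linarith only [C.f11_0, C.f13_0, C.f13_3, C.f22_4, C.f23_1, C.f33_1, C.o0, C.o2, c376_1_1, c425_1_0, c426_1_1, c427_0_1, s1] | (have q0 := C.f11_0; have q1 := C.f13_0; have q2 := C.f13_3; have q3 := C.f22_4; have q4 := C.f23_1; have q5 := C.f33_1; have q6 := C.o0; have q7 := C.o2; have q8 := c376_1_1; have q9 := c425_1_0; have q10 := c426_1_1; have q11 := c427_0_1; have q12 := s1; clear C; omega)
                  · rcases c0_11_23_33_k3_k_f23_3 C with ⟨c428_0_0, c428_0_1⟩ | ⟨c428_1_0, c428_1_1⟩ | ⟨c428_2_0, c428_2_1⟩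
                    · first | linarith only [C.f11_0, C.f23_1, C.f33_0, C.o0, c425_1_0, c428_0_1, s1] | (have q0 := C.f11_0; have q1 := C.f23_1; have q2 := C.f33_0; have q3 := C.o0; have q4 := c425_1_0; have q5 := c428_0_1; have q6 := s1; clear C; omega)
                    · rcases c0_11_23_33_k3_k_f23_7 C with ⟨c429_0_0, c429_0_1⟩ | ⟨c429_1_0, c429_1_1⟩ | ⟨c429_2_0, c429_2_1⟩
                      · first | linarith only [C.f11_0, C.f13_0, C.f13_3, C.f23_5, C.f33_1, C.o0, C.o2, c376_1_1, c425_1_0, c429_0_1, s1] | (have q0 := C.f11_0; have q1 := C.f13_0; have q2 := C.f13_3; have q3 := C.f23_5; have q4 := C.f33_1; have q5 := C.o0; have q6 := C.o2; have q7 := c376_1_1; have q8 := c425_1_0; have q9 := c429_0_1; have q10 := s1; clear C; omega)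
                      · rcases c0_11_23_33_k3_k_f23_10 C with ⟨c430_0_0, c430_0_1⟩ | ⟨c430_1_0, c430_1_1⟩
                        · first | linarith only [C.f23_9, C.o1, c242_1_1, c429_1_1, c430_0_1] | (have q0 := C.f23_9; have q1 := C.o1; have q2 := c242_1_1; have q3 := c429_1_1; have q4 := c430_0_1; clear C; omega)
                        · rcases c0_11_23_33_k3_k_f33_5 C with ⟨c431_0_0, c431_0_1⟩ | ⟨c431_1_0, c431_1_1⟩
                          · first | linarith only [C.f11_0, C.f13_0, C.f13_3, C.f23_1, C.f33_4, C.o0, C.o2, c376_1_1, c425_1_0, c431_0_1, s1] | (have q0 := C.f11_0; have q1 := C.f13_0; have q2 := C.f13_3; have q3 := C.f23_1; have q4 := C.f33_4; have q5 := C.o0; have q6 := C.o2; have q7 := c376_1_1; have q8 := c425_1_0; have q9 := c431_0_1; have q10 := s1; clear C; omega)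
                          · rcases c0_11_23_33_k3_k_f33_8 C with ⟨c432_0_0, c432_0_1⟩ | ⟨c432_1_0, c432_1_1⟩
                            · first | linarith only [C.f11_0, C.f23_1, C.f33_1, C.f33_7, C.o0, C.o1, C.o2, c242_1_1, c425_1_0, c431_1_1, c432_0_1, s1] | (have q0 := C.f11_0; have q1 := C.f23_1; have q2 := C.f33_1; have q3 := C.f33_7; have q4 := C.o0; have q5 := C.o1; have q6 := C.o2; have q7 := c242_1_1; have q8 := c425_1_0; have q9 := c431_1_1; have q10 := c432_0_1; have q11 := s1; clear C; omega)
                            · rcases c0_11_23_33_k3_k_p11_22B C with c433_0_0 | c433_1_0 | c433_2_0 | c433_3_0 | c433_4_0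
                              · first | linarith only [c433_0_0, e0] | (have q0 := c433_0_0; have q1 := e0; clear C; omega)
                              · first | linarith only [c242_1_0, c433_1_0, e0] | (have q0 := c242_1_0; have q1 := c433_1_0; have q2 := e0; clear C; omega)
                              · rcases c0_11_23_33_k3_k_p11_23B C with c435_0_0 | c435_1_0 | c435_2_0 | c435_3_0 | c435_4_0 | c435_5_0
                                · first | linarith only [c435_0_0, e0] | (have q0 := c435_0_0; have q1 := e0; clear C; omega)
                                · first | linarith only [c435_1_0, e1] | (have q0 := c435_1_0; have q1 := e1; clear C; omega)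
                                · first | linarith only [c435_2_0, e2] | (have q0 := c435_2_0; have q1 := e2; clear C; omega)
                                · rcases c0_11_23_33_k3_k_p11_33A C with c437_0_0 | c437_1_0 | c437_2_0 | c437_3_0 | c437_4_0
                                  · first | linarith only [c437_0_0, e0] | (have q0 := c437_0_0; have q1 := e0; clear C; omega)
                                  · first | linarith only [c437_1_0, e3] | (have q0 := c437_1_0; have q1 := e3; clear C; omega)
                                  · first | linarith only [C.f11_0, C.o0, c435_3_0, c437_2_0, s1] | (have q0 := C.f11_0; have q1 := C.o0; have q2 := c435_3_0; have q3 := c437_2_0; have q4 := s1; clear C; omega)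
                                  · first | linarith only [C.f11_0, C.f11_1, C.f13_0, C.f13_3, C.f33_1, C.o0, C.o2, c376_1_1, c428_1_1, c431_1_1, c435_3_0, c437_3_0, s1] | (have q0 := C.f11_0; have q1 := C.f11_1; have q2 := C.f13_0; have q3 := C.f13_3; have q4 := C.f33_1; have q5 := C.o0; have q6 := C.o2; have q7 := c376_1_1; have q8 := c428_1_1; have q9 := c431_1_1; have q10 := c435_3_0; have q11 := c437_3_0; have q12 := s1; clear C; omega)
                                  · first | linarith only [C.f11_0, C.f11_1, C.f11_2, C.f13_0, C.f13_3, C.f33_1, C.o0, C.o1, C.o2, c242_1_1, c376_1_1, c428_1_1, c432_1_1, c435_3_0, c437_4_0, s1] | (have q0 := C.f11_0; have q1 := C.f11_1; have q2 := C.f11_2; have q3 := C.f13_0; have q4 := C.f13_3; have q5 := C.f33_1; have q6 := C.o0; have q7 := C.o1; have q8 := C.o2; have q9 := c242_1_1; have q10 := c376_1_1; have q11 := c428_1_1; have q12 := c432_1_1; have q13 := c435_3_0; have q14 := c437_4_0; have q15 := s1; clear C; omega)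
                                · first | linarith only [C.f11_0, C.f11_1, C.f13_0, C.f13_3, C.f23_1, C.f33_1, C.o0, C.o2, c376_1_1, c426_1_1, c429_1_1, c433_2_0, c435_4_0, s1] | (have q0 := C.f11_0; have q1 := C.f11_1; have q2 := C.f13_0; have q3 := C.f13_3; have q4 := C.f23_1; have q5 := C.f33_1; have q6 := C.o0; have q7 := C.o2; have q8 := c376_1_1; have q9 := c426_1_1; have q10 := c429_1_1; have q11 := c433_2_0; have q12 := c435_4_0; have q13 := s1; clear C; omega)
                                · first | linarith only [C.f11_0, C.f11_1, C.f11_2, C.f13_0, C.f13_3, C.f23_1, C.f33_1, C.o0, C.o2, c242_1_1, c376_1_1, c425_1_0, c426_1_1, c430_1_1, c433_2_0, c435_5_0, s1] | (have q0 := C.f11_0; have q1 := C.f11_1; have q2 := C.f11_2; have q3 := C.f13_0; have q4 := C.f13_3; have q5 := C.f23_1; have q6 := C.f33_1; have q7 := C.o0; have q8 := C.o2; have q9 := c242_1_1; have q10 := c376_1_1; have q11 := c425_1_0; have q12 := c426_1_1; have q13 := c430_1_1; have q14 := c433_2_0; have q15 := c435_5_0; have q16 := s1; clear C; omega)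
                              · first | linarith only [C.f11_1, C.f13_0, C.f13_3, C.f23_1, C.f33_1, C.o1, C.o2, c376_1_1, c425_1_0, c427_1_1, c433_3_0, s1] | (have q0 := C.f11_1; have q1 := C.f13_0; have q2 := C.f13_3; have q3 := C.f23_1; have q4 := C.f33_1; have q5 := C.o1; have q6 := C.o2; have q7 := c376_1_1; have q8 := c425_1_0; have q9 := c427_1_1; have q10 := c433_3_0; have q11 := s1; clear C; omega)
                              · first | linarith only [C.f11_1, C.f11_2, C.f13_0, C.f13_3, C.f22_6, C.f23_1, C.f33_1, C.o1, C.o2, c242_1_1, c376_1_1, c425_1_0, c427_1_1, c433_4_0, s1] | (have q0 := C.f11_1; have q1 := C.f11_2; have q2 := C.f13_0; have q3 := C.f13_3; have q4 := C.f22_6; have q5 := C.f23_1; have q6 := C.f33_1; have q7 := C.o1; have q8 := C.o2; have q9 := c242_1_1; have q10 := c376_1_1; have q11 := c425_1_0; have q12 := c427_1_1; have q13 := c433_4_0; have q14 := s1; clear C; omega)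
                      · first | linarith only [C.f11_0, C.f23_1, C.f23_5, C.f33_1, C.o0, C.o2, c425_1_0, c429_2_1, s1] | (have q0 := C.f11_0; have q1 := C.f23_1; have q2 := C.f23_5; have q3 := C.f33_1; have q4 := C.o0; have q5 := C.o2; have q6 := c425_1_0; have q7 := c429_2_1; have q8 := s1; clear C; omega)
                    · first | linarith only [C.f11_0, C.f23_1, C.f33_1, C.o0, C.o2, c425_1_0, c428_2_1, s1] | (have q0 := C.f11_0; have q1 := C.f23_1; have q2 := C.f33_1; have q3 := C.o0; have q4 := C.o2; have q5 := c425_1_0; have q6 := c428_2_1; have q7 := s1; clear C; omega)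
              · first | linarith only [c425_2_0, e0] | (have q0 := c425_2_0; have q1 := e0; clear C; omega)
              · first | linarith only [C.f11_1, C.f13_3, C.f23_5, C.f33_4, C.o1, C.o2, c376_1_1, c424_3_0, c425_3_0, s2] | (have q0 := C.f11_1; have q1 := C.f13_3; have q2 := C.f23_5; have q3 := C.f33_4; have q4 := C.o1; have q5 := C.o2; have q6 := c376_1_1; have q7 := c424_3_0; have q8 := c425_3_0; have q9 := s2; clear C; omega)
            · first | linarith only [C.f23_5, C.f33_4, C.o1, C.o2, c376_1_1, c424_4_0, s2] | (have q0 := C.f23_5; have q1 := C.f33_4; have q2 := C.o1; have q3 := C.o2; have q4 := c376_1_1; have q5 := c424_4_0; have q6 := s2; clear C; omega)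
            · first | linarith only [C.f11_0, C.f11_1, C.f11_2, c1_1_1, c242_1_1, c422_1_1, c424_5_0] | (have q0 := C.f11_0; have q1 := C.f11_1; have q2 := C.f11_2; have q3 := c1_1_1; have q4 := c242_1_1; have q5 := c422_1_1; have q6 := c424_5_0; clear C; omega)
  · first | linarith only [C.f11_0, C.f13_0, C.f23_2, C.f33_1, C.o0, C.o2, c0_1_1, s1] | (have q0 := C.f11_0; have q1 := C.f13_0; have q2 := C.f23_2; have q3 := C.f33_1; have q4 := C.o0; have q5 := C.o2; have q6 := c0_1_1; have q7 := s1; clear C; omega)

end Pool.Agent.Helper24.TQ
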