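import Pool.Agent.Helper89.TQ.Ctx

set_option autoImplicit false
set_option linter.all false
set_option maxHeartbeats 4000000

namespace Pool.Agent.Helper24.TQ

open Pool.Agent.Helper89.TQ

theorem c0_11_33_33_k2_k_t12 {n1 n2 n3 A1 A2 A3 B1 B2 B3 m11_1 m11_2 m11_3 m13_1 m13_2 m13_3 m22_1 m22_2 m22_3 m23_1 m23_2 m23_3 m33_1 m33_2 m33_3 : ℤ} (C : Ctx0 n1 n2 n3 A1 A2 A3 B1 B2 B3 m11_1 m11_2 m11_3 m13_1 m13_2 m13_3 m22_1 m22_2 m22_3 m23_1 m23_2 m23_3 m33_1 m33_2 m33_3) :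
    ((-1) * A1 ≤ -1 ∧ (-1) * A1 + 1 * A2 + (-1) * n2 ≤ -1) ∨ ((-1) * B1 ≤ -1 ∧ (-1) * B1 + 1 * B2 + (-1) * n2 ≤ -1) := by
  have h := C.t12
  clear C
  omega

theorem c0_11_33_33_k2_k_t23 {n1 n2 n3 A1 A2 A3 B1 B2 B3 m11_1 m11_2 m11_3 m13_1 m13_2 m13_3 m22_1 m22_2 m22_3 m23_1 m23_2 m23_3 m33_1 m33_2 m33_3 : ℤ} (C : Ctx0 n1 n2 n3 A1 A2 A3 B1 B2 B3 m11_1 m11_2 m11_3 m13_1 m13_2 m13_3 m22_1 m22_2 m22_3 m23_1 m23_2 m23_3 m33_1 m33_2 m33_3) :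
    (1 * A1 + (-1) * A2 ≤ -1 ∧ (-1) * A2 + 1 * A3 + (-1) * n3 ≤ -1) ∨ (1 * B1 + (-1) * B2 ≤ -1 ∧ (-1) * B2 + 1 * B3 + (-1) * n3 ≤ -1) := by
  have h := C.t23
  clear C
  omega

theorem c0_11_33_33_k2_k_f13_2 {n1 n2 n3 A1 A2 A3 B1 B2 B3 m11_1 m11_2 m11_3 m13_1 m13_2 m13_3 m22_1 m22_2 m22_3 m23_1 m23_2 m23_3 m33_1 m33_2 m33_3 : ℤ} (C : Ctx0 n1 n2 n3 A1 A2 A3 B1 B2 B3 m11_1 m11_2 m11_3 m13_1 m13_2 m13_3 m22_1 m22_2 m22_3 m23_1 m23_2 m23_3 m33_1 m33_2 m33_3) :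
    ((-1) * A1 + 1 * m13_1 ≤ -1 ∧ 1 * A1 + (-1) * m13_1 ≤ 1) ∨ ((-1) * B3 + 1 * m13_1 ≤ -1 ∧ 1 * B3 + (-1) * m13_1 ≤ 1) := by
  have h := C.f13_2
  clear C
  omega

theorem c0_11_33_33_k2_k_f13_5 {n1 n2 n3 A1 A2 A3 B1 B2 B3 m11_1 m11_2 m11_3 m13_1 m13_2 m13_3 m22_1 m22_2 m22_3 m23_1 m23_2 m23_3 m33_1 m33_2 m33_3 : ℤ} (C : Ctx0 n1 n2 n3 A1 A2 A3 B1 B2 B3 m11_1 m11_2 m11_3 m13_1 m13_2 m13_3 m22_1 m22_2 m22_3 m23_1 m23_2 m23_3 m33_1 m33_2 m33_3) :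
    ((-1) * m13_1 + 1 * m13_2 + (-1) * n2 ≤ 0 ∧ 1 * m13_1 + (-1) * m13_2 + 1 * n2 ≤ 0) ∨ ((-1) * B3 + 1 * m13_2 ≤ -1 ∧ 1 * B3 + (-1) * m13_2 ≤ 1) := by
  have h := C.f13_5
  clear C
  omega

theorem c0_11_33_33_k2_k_f13_8 {n1 n2 n3 A1 A2 A3 B1 B2 B3 m11_1 m11_2 m11_3 m13_1 m13_2 m13_3 m22_1 m22_2 m22_3 m23_1 m23_2 m23_3 m33_1 m33_2 m33_3 : ℤ} (C : Ctx0 n1 n2 n3 A1 A2 A3 B1 B2 B3 m11_1 m11_2 m11_3 m13_1 m13_2 m13_3 m22_1 m22_2 m22_3 m23_1 m23_2 m23_3 m33_1 m33_2 m33_3) :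
    ((-1) * m13_2 + 1 * m13_3 + (-1) * n3 ≤ 0 ∧ 1 * m13_2 + (-1) * m13_3 + 1 * n3 ≤ 0) ∨ ((-1) * B3 + 1 * m13_3 ≤ -1 ∧ 1 * B3 + (-1) * m13_3 ≤ 1) := by
  have h := C.f13_8
  clear C
  omega

theorem c0_11_33_33_k2_k_f23_3 {n1 n2 n3 A1 A2 A3 B1 B2 B3 m11_1 m11_2 m11_3 m13_1 m13_2 m13_3 m22_1 m22_2 m22_3 m23_1 m23_2 m23_3 m33_1 m33_2 m33_3 : ℤ} (C : Ctx0 n1 n2 n3 A1 A2 A3 B1 B2 B3 m11_1 m11_2 m11_3 m13_1 m13_2 m13_3 m22_1 m22_2 m22_3 m23_1 m23_2 m23_3 m33_1 m33_2 m33_3) :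
    (1 * m23_1 + (-1) * n1 ≤ 0 ∧ (-1) * m23_1 + 1 * n1 ≤ 0) ∨ ((-1) * A2 + 1 * m23_1 ≤ -1 ∧ 1 * A2 + (-1) * m23_1 ≤ 1) ∨ ((-1) * B3 + 1 * m23_1 ≤ -1 ∧ 1 * B3 + (-1) * m23_1 ≤ 1) := by
  have h := C.f23_3
  clear C
  omega

theorem c0_11_33_33_k2_k_f23_7 {n1 n2 n3 A1 A2 A3 B1 B2 B3 m11_1 m11_2 m11_3 m13_1 m13_2 m13_3 m22_1 m22_2 m22_3 m23_1 m23_2 m23_3 m33_1 m33_2 m33_3 : ℤ} (C : Ctx0 n1 n2 n3 A1 A2 A3 B1 B2 B3 m11_1 m11_2 m11_3 m13_1 m13_2 m13_3 m22_1 m22_2 m22_3 m23_1 m23_2 m23_3 m33_1 m33_2 m33_3) :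
    ((-1) * m23_1 + 1 * m23_2 + (-1) * n2 ≤ 0 ∧ 1 * m23_1 + (-1) * m23_2 + 1 * n2 ≤ 0) ∨ ((-1) * A2 + 1 * m23_2 ≤ -1 ∧ 1 * A2 + (-1) * m23_2 ≤ 1) ∨ ((-1) * B3 + 1 * m23_2 ≤ -1 ∧ 1 * B3 + (-1) * m23_2 ≤ 1) := by
  have h := C.f23_7
  clear C
  omega

theorem c0_11_33_33_k2_k_f23_10 {n1 n2 n3 A1 A2 A3 B1 B2 B3 m11_1 m11_2 m11_3 m13_1 m13_2 m13_3 m22_1 m22_2 m22_3 m23_1 m23_2 m23_3 m33_1 m33_2 m33_3 : ℤ} (C : Ctx0 n1 n2 n3 A1 A2 A3 B1 B2 B3 m11_1 m11_2 m11_3 m13_1 m13_2 m13_3 m22_1 m22_2 m22_3 m23_1 m23_2 m23_3 m33_1 m33_2 m33_3) :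
    ((-1) * m23_2 + 1 * m23_3 + (-1) * n3 ≤ 0 ∧ 1 * m23_2 + (-1) * m23_3 + 1 * n3 ≤ 0) ∨ ((-1) * B3 + 1 * m23_3 ≤ -1 ∧ 1 * B3 + (-1) * m23_3 ≤ 1) := by
  have h := C.f23_10
  clear C
  omega

theorem c0_11_33_33_k2_k_f33_5 {n1 n2 n3 A1 A2 A3 B1 B2 B3 m11_1 m11_2 m11_3 m13_1 m13_2 m13_3 m22_1 m22_2 m22_3 m23_1 m23_2 m23_3 m33_1 m33_2 m33_3 : ℤ} (C : Ctx0 n1 n2 n3 A1 A2 A3 B1 B2 B3 m11_1 m11_2 m11_3 m13_1 m13_2 m13_3 m22_1 m22_2 m22_3 m23_1 m23_2 m23_3 m33_1 m33_2 m33_3) :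
    ((-1) * m33_1 + 1 * m33_2 + (-1) * n2 ≤ 0 ∧ 1 * m33_1 + (-1) * m33_2 + 1 * n2 ≤ 0) ∨ ((-1) * A3 + 1 * m33_2 ≤ -1 ∧ 1 * A3 + (-1) * m33_2 ≤ 1) := by
  have h := C.f33_5
  clear C
  omega

theorem c0_11_33_33_k2_k_p11_33B {n1 n2 n3 A1 A2 A3 B1 B2 B3 m11_1 m11_2 m11_3 m13_1 m13_2 m13_3 m22_1 m22_2 m22_3 m23_1 m23_2 m23_3 m33_1 m33_2 m33_3 : ℤ} (C : Ctx0 n1 n2 n3 A1 A2 A3 B1 B2 B3 m11_1 m11_2 m11_3 m13_1 m13_2 m13_3 m22_1 m22_2 m22_3 m23_1 m23_2 m23_3 m33_1 m33_2 m33_3) :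
    (1 * B1 ≤ 0) ∨ (1 * A3 ≤ 0) ∨ ((-2) * B1 + 1 * m11_1 + 1 * m33_1 ≤ -1) ∨ ((-2) * B2 + 1 * m11_2 + 1 * m33_2 ≤ -1) ∨ ((-2) * B3 + 1 * m11_3 + 1 * m33_3 ≤ -1) := by
  have h := C.p11_33B
  clear C
  omega

theorem c0_11_33_33_k2_k_p13_33A {n1 n2 n3 A1 A2 A3 B1 B2 B3 m11_1 m11_2 m11_3 m13_1 m13_2 m13_3 m22_1 m22_2 m22_3 m23_1 m23_2 m23_3 m33_1 m33_2 m33_3 : ℤ} (C : Ctx0 n1 n2 n3 A1 A2 A3 B1 B2 B3 m11_1 m11_2 m11_3 m13_1 m13_2 m13_3 m22_1 m22_2 m22_3 m23_1 m23_2 m23_3 m33_1 m33_2 m33_3) :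
    (1 * A1 ≤ 0) ∨ (1 * B3 ≤ 0) ∨ (1 * A3 ≤ 0) ∨ ((-2) * A1 + 1 * m13_1 + 1 * m33_1 ≤ -1) ∨ ((-2) * A2 + 1 * m13_2 + 1 * m33_2 ≤ -1) ∨ ((-2) * A3 + 1 * m13_3 + 1 * m33_3 ≤ -1) := by
  have h := C.p13_33A
  clear C
  omega

theorem c0_11_33_33_k2_k_p23_33A {n1 n2 n3 A1 A2 A3 B1 B2 B3 m11_1 m11_2 m11_3 m13_1 m13_2 m13_3 m22_1 m22_2 m22_3 m23_1 m23_2 m23_3 m33_1 m33_2 m33_3 : ℤ} (C : Ctx0 n1 n2 n3 A1 A2 A3 B1 B2 B3 m11_1 m11_2 m11_3 m13_1 m13_2 m13_3 m22_1 m22_2 m22_3 m23_1 m23_2 m23_3 m33_1 m33_2 m33_3) :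
    (1 * A2 ≤ 0) ∨ (1 * B3 ≤ 0) ∨ (1 * A3 ≤ 0) ∨ ((-2) * A1 + 1 * m23_1 + 1 * m33_1 ≤ -1) ∨ ((-2) * A2 + 1 * m23_2 + 1 * m33_2 ≤ -1) ∨ ((-2) * A3 + 1 * m23_3 + 1 * m33_3 ≤ -1) := by
  have h := C.p23_33A
  clear C
  omega

theorem c0_11_33_33_k2_k_tzmp {n1 n2 n3 A1 A2 A3 B1 B2 B3 m11_1 m11_2 m11_3 m13_1 m13_2 m13_3 m22_1 m22_2 m22_3 m23_1 m23_2 m23_3 m33_1 m33_2 m33_3 : ℤ} (C : Ctx0 n1 n2 n3 A1 A2 A3 B1 B2 B3 m11_1 m11_2 m11_3 m13_1 m13_2 m13_3 m22_1 m22_2 m22_3 m23_1 m23_2 m23_3 m33_1 m33_2 m33_3) :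
    (1 * A1 + (-1) * A2 + 1 * n2 ≤ 0) ∨ ((-1) * A2 + 1 * A3 ≤ 1) ∨ ((-1) * B1 + 1 * B2 ≤ 0) ∨ (1 * B2 + (-1) * B3 + 1 * n3 ≤ 1) := by
  have h := C.tzmp
  clear C
  omega

theorem c0_11_33_33_k2_k_tzpm {n1 n2 n3 A1 A2 A3 B1 B2 B3 m11_1 m11_2 m11_3 m13_1 m13_2 m13_3 m22_1 m22_2 m22_3 m23_1 m23_2 m23_3 m33_1 m33_2 m33_3 : ℤ} (C : Ctx0 n1 n2 n3 A1 A2 A3 B1 B2 B3 m11_1 m11_2 m11_3 m13_1 m13_2 m13_3 m22_1 m22_2 m22_3 m23_1 m23_2 m23_3 m33_1 m33_2 m33_3) :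
    ((-1) * A1 + 1 * A2 ≤ 0) ∨ (1 * A2 + (-1) * A3 + 1 * n3 ≤ 1) ∨ (1 * B1 + (-1) * B2 + 1 * n2 ≤ 0) ∨ ((-1) * B2 + 1 * B3 ≤ 1) ∨ ((-1) * A2 + 1 * B2 ≤ -1 ∧ (-1) * A3 + 1 * B3 ≤ 1) := by
  have h := C.tzpm
  clear C
  omega

theorem c0_11_33_33_k2_k_tpzm {n1 n2 n3 A1 A2 A3 B1 B2 B3 m11_1 m11_2 m11_3 m13_1 m13_2 m13_3 m22_1 m22_2 m22_3 m23_1 m23_2 m23_3 m33_1 m33_2 m33_3 : ℤ} (C : Ctx0 n1 n2 n3 A1 A2 A3 B1 B2 B3 m11_1 m11_2 m11_3 m13_1 m13_2 m13_3 m22_1 m22_2 m22_3 m23_1 m23_2 m23_3 m33_1 m33_2 m33_3) :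
    (1 * A1 ≤ 0) ∨ (1 * A1 + (-1) * A2 + 1 * n2 ≤ 0) ∨ (1 * A2 + (-1) * A3 + 1 * n3 ≤ 0) ∨ ((-1) * B1 + 1 * n1 ≤ 0) ∨ ((-1) * B1 + 1 * B2 ≤ 0) ∨ ((-1) * B2 + 1 * B3 ≤ 0) ∨ ((-1) * A3 + 1 * B3 ≤ 1) ∨ (1 * A1 + (-1) * B1 ≤ 1 ∧ 1 * A2 + (-1) * B2 ≤ 0) := by
  have h := C.tpzm
  clear C
  omega

theorem c0_11_33_33_k2 {n1 n2 n3 A1 A2 A3 B1 B2 B3 m11_1 m11_2 m11_3 m13_1 m13_2 m13_3 m22_1 m22_2 m22_3 m23_1 m23_2 m23_3 m33_1 m33_2 m33_3 : ℤ}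
    (C : Ctx0 n1 n2 n3 A1 A2 A3 B1 B2 B3 m11_1 m11_2 m11_3 m13_1 m13_2 m13_3 m22_1 m22_2 m22_3 m23_1 m23_2 m23_3 m33_1 m33_2 m33_3)
    (e0 : 0 < B1)
    (e1 : 0 < A3)
    (s1 : 2 * A1 + 1 * B1 ≤ m11_1 + m33_1 + m33_1)
    (s2 : 2 * A2 + 1 * B2 ≤ m11_2 + m33_2 + m33_2)
    (s3 : 2 * A3 + 1 * B3 ≤ m11_3 + m33_3 + m33_3) : False := by
  rcases c0_11_33_33_k2_k_f13_2 C with ⟨c0_0_0, c0_0_1⟩ | ⟨c0_1_0, c0_1_1⟩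
  · rcases c0_11_33_33_k2_k_p11_33B C with c1_0_0 | c1_1_0 | c1_2_0 | c1_3_0 | c1_4_0
    · linarith only [c1_0_0, e0]
    · linarith only [c1_1_0, e1]
    · linarith only [C.f11_0, C.o0, c1_2_0, s1]
    · linarith only [C.b3, C.f11_0, C.f11_1, C.o1, c1_3_0, s2]
    · rcases c0_11_33_33_k2_k_t12 C with ⟨c3_0_0, c3_0_1⟩ | ⟨c3_1_0, c3_1_1⟩
      · rcases c0_11_33_33_k2_k_t23 C with ⟨c4_0_0, c4_0_1⟩ | ⟨c4_1_0, c4_1_1⟩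
        · rcases c0_11_33_33_k2_k_tzpm C with c5_0_0 | c5_1_0 | c5_2_0 | c5_3_0 | ⟨c5_4_0, c5_4_1⟩
          · linarith only [c4_0_0, c5_0_0]
          · linarith only [C.b5, C.f33_7, C.o1, c1_4_0, c5_1_0, s3]
          · rcases c0_11_33_33_k2_k_tzmp C with c7_0_0 | c7_1_0 | c7_2_0 | c7_3_0
            · linarith only [c3_0_1, c7_0_0]
            · linarith only [C.f11_0, C.f11_1, C.f33_4, c5_2_0, c7_1_0, s2]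
            · linarith only [c3_0_1, c4_0_0, c5_2_0, c7_2_0]
            · linarith only [C.f11_0, C.f11_1, C.f11_2, C.f33_7, c5_2_0, c7_3_0, s3]
          · linarith only [C.a4, C.f33_7, C.o1, c1_4_0, c5_3_0, s3]
          · linarith only [C.f33_7, c1_4_0, c5_4_1, s3]
        · rcases c0_11_33_33_k2_k_tpzm C with c8_0_0 | c8_1_0 | c8_2_0 | c8_3_0 | c8_4_0 | c8_5_0 | c8_6_0 | ⟨c8_7_0, c8_7_1⟩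
          · linarith only [c3_0_0, c8_0_0]
          · linarith only [c3_0_1, c8_1_0]
          · linarith only [C.o1, C.o2, c4_1_1, c8_2_0]
          · linarith only [C.f11_0, C.f33_0, C.o0, c8_3_0, s1]
          · linarith only [c4_1_0, c8_4_0]
          · linarith only [C.f11_2, C.f33_4, C.o1, c1_4_0, c4_1_1, c8_5_0, s2, s3]
          · linarith only [C.f33_7, c1_4_0, c8_6_0, s3]
          · rcases c0_11_33_33_k2_k_f13_5 C with ⟨c10_0_0, c10_0_1⟩ | ⟨c10_1_0, c10_1_1⟩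
            · rcases c0_11_33_33_k2_k_f13_8 C with ⟨c11_0_0, c11_0_1⟩ | ⟨c11_1_0, c11_1_1⟩
              · linarith only [C.f11_0, C.f11_1, C.f11_2, C.f13_7, C.f33_7, C.o0, c0_0_1, c10_0_1, c11_0_1, s3]
              · rcases c0_11_33_33_k2_k_p13_33A C with c12_0_0 | c12_1_0 | c12_2_0 | c12_3_0 | c12_4_0 | c12_5_0
                · linarith only [c12_0_0, c3_0_0]
                · linarith only [C.f11_0, C.f33_1, C.f33_7, C.o0, c12_1_0, c1_4_0, e0, s1, s3]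
                · linarith only [c12_2_0, e1]
                · linarith only [C.f11_0, c0_0_1, c12_3_0, s1]
                · linarith only [C.f11_0, C.f11_1, C.o0, c0_0_1, c10_0_1, c12_4_0, c3_0_1, c8_7_1, s2]
                · linarith only [c11_1_1, c12_5_0, c1_4_0, s3]
            · rcases c0_11_33_33_k2_k_f13_8 C with ⟨c13_0_0, c13_0_1⟩ | ⟨c13_1_0, c13_1_1⟩
              · linarith only [C.f11_2, C.f13_7, C.f33_4, C.o1, c10_1_1, c13_0_1, c1_4_0, c4_1_1, s2, s3]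
              · rcases c0_11_33_33_k2_k_f33_5 C with ⟨c14_0_0, c14_0_1⟩ | ⟨c14_1_0, c14_1_1⟩
                · linarith only [C.f11_0, C.f13_0, C.f13_3, C.f33_4, C.f33_7, c10_1_1, c14_0_1, c1_4_0, s1, s3]
                · rcases c0_11_33_33_k2_k_p13_33A C with c17_0_0 | c17_1_0 | c17_2_0 | c17_3_0 | c17_4_0 | c17_5_0
                  · linarith only [c17_0_0, c3_0_0]
                  · linarith only [C.f11_0, C.f33_1, C.f33_7, C.o0, c17_1_0, c1_4_0, e0, s1, s3]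
                  · linarith only [c17_2_0, e1]
                  · linarith only [C.f11_0, c0_0_1, c17_3_0, s1]
                  · linarith only [C.a4, C.f33_7, c10_1_1, c14_1_1, c17_4_0, c1_4_0, s3]
                  · linarith only [c13_1_1, c17_5_0, c1_4_0, s3]
      · rcases c0_11_33_33_k2_k_tzpm C with c18_0_0 | c18_1_0 | c18_2_0 | c18_3_0 | ⟨c18_4_0, c18_4_1⟩
        · rcases c0_11_33_33_k2_k_t23 C with ⟨c19_0_0, c19_0_1⟩ | ⟨c19_1_0, c19_1_1⟩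
          · linarith only [c18_0_0, c19_0_0]
          · rcases c0_11_33_33_k2_k_f23_3 C with ⟨c22_0_0, c22_0_1⟩ | ⟨c22_1_0, c22_1_1⟩ | ⟨c22_2_0, c22_2_1⟩
            · linarith only [C.f11_0, C.f23_1, C.f33_0, c18_0_0, c22_0_1, s1]
            · rcases c0_11_33_33_k2_k_f23_7 C with ⟨c23_0_0, c23_0_1⟩ | ⟨c23_1_0, c23_1_1⟩ | ⟨c23_2_0, c23_2_1⟩
              · linarith only [C.f23_5, c19_1_0, c22_1_1, c23_0_1, c3_1_1]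
              · rcases c0_11_33_33_k2_k_f23_10 C with ⟨c24_0_0, c24_0_1⟩ | ⟨c24_1_0, c24_1_1⟩
                · linarith only [C.f23_9, C.o1, c19_1_1, c23_1_1, c24_0_1]
                · rcases c0_11_33_33_k2_k_p23_33A C with c25_0_0 | c25_1_0 | c25_2_0 | c25_3_0 | c25_4_0 | c25_5_0
                  · linarith only [C.a2, C.o0, c25_0_0, e0]
                  · linarith only [C.f11_0, C.f33_1, C.f33_7, C.o0, c1_4_0, c25_1_0, e0, s1, s3]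
                  · linarith only [c25_2_0, e1]
                  · linarith only [C.a2, C.f11_0, c22_1_1, c25_3_0, s1]
                  · rcases c0_11_33_33_k2_k_f33_5 C with ⟨c26_0_0, c26_0_1⟩ | ⟨c26_1_0, c26_1_1⟩
                    · linarith only [C.a3, C.f11_0, c23_1_1, c25_4_0, c26_0_1, s1]
                    · linarith only [C.f11_0, C.f33_1, c18_0_0, c23_1_1, c25_4_0, c26_1_1, s1]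
                  · linarith only [c1_4_0, c24_1_1, c25_5_0, s3]
              · linarith only [C.f11_0, C.f23_5, C.f33_1, C.f33_7, c18_0_0, c1_4_0, c23_2_1, s1, s3]
            · linarith only [C.f11_0, C.f23_1, C.f33_1, C.f33_7, c18_0_0, c1_4_0, c22_2_1, s1, s3]
        · linarith only [C.b5, C.f33_7, C.o1, c18_1_0, c1_4_0, s3]
        · linarith only [c18_2_0, c3_1_1]
        · linarith only [C.a4, C.f33_7, C.o1, c18_3_0, c1_4_0, s3]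
        · linarith only [C.f33_7, c18_4_1, c1_4_0, s3]
  · linarith only [C.f11_0, C.f13_0, C.f33_1, C.o2, c0_1_1, s1]

end Pool.Agent.Helper24.TQ
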