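import Pool.Agent.Helper89.TQ.Ctx

set_option autoImplicit false
set_option linter.all false
set_option maxHeartbeats 4000000

namespace Pool.Agent.Helper24.TQ

open Pool.Agent.Helper89.TQ

theorem c0_11_33_33_k3_k_t12 {n1 n2 n3 A1 A2 A3 B1 B2 B3 m11_1 m11_2 m11_3 m13_1 m13_2 m13_3 m22_1 m22_2 m22_3 m23_1 m23_2 m23_3 m33_1 m33_2 m33_3 : ℤ} (C : Ctx0 n1 n2 n3 A1 A2 A3 B1 B2 B3 m11_1 m11_2 m11_3 m13_1 m13_2 m13_3 m22_1 m22_2 m22_3 m23_1 m23_2 m23_3 m33_1 m33_2 m33_3) :
    ((-1) * A1 ≤ -1 ∧ (-1) * A1 + 1 * A2 + (-1) * n2 ≤ -1) ∨ ((-1) * B1 ≤ -1 ∧ (-1) * B1 + 1 * B2 + (-1) * n2 ≤ -1) := by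
  have h := C.t12
  clear C
  omega

theorem c0_11_33_33_k3_k_t23 {n1 n2 n3 A1 A2 A3 B1 B2 B3 m11_1 m11_2 m11_3 m13_1 m13_2 m13_3 m22_1 m22_2 m22_3 m23_1 m23_2 m23_3 m33_1 m33_2 m33_3 : ℤ} (C : Ctx0 n1 n2 n3 A1 A2 A3 B1 B2 B3 m11_1 m11_2 m11_3 m13_1 m13_2 m13_3 m22_1 m22_2 m22_3 m23_1 m23_2 m23_3 m33_1 m33_2 m33_3) :
    (1 * A1 + (-1) * A2 ≤ -1 ∧ (-1) * A2 + 1 * A3 + (-1) * n3 ≤ -1) ∨ (1 * B1 + (-1) * B2 ≤ -1 ∧ (-1) * B2 + 1 * B3 + (-1) * n3 ≤ -1) := by
  have h := C.t23
  clear C
  omega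

theorem c0_11_33_33_k3_k_f13_2 {n1 n2 n3 A1 A2 A3 B1 B2 B3 m11_1 m11_2 m11_3 m13_1 m13_2 m13_3 m22_1 m22_2 m22_3 m23_1 m23_2 m23_3 m33_1 m33_2 m33_3 : ℤ} (C : Ctx0 n1 n2 n3 A1 A2 A3 B1 B2 B3 m11_1 m11_2 m11_3 m13_1 m13_2 m13_3 m22_1 m22_2 m22_3 m23_1 m23_2 m23_3 m33_1 m33_2 m33_3) :
    ((-1) * A1 + 1 * m13_1 ≤ -1 ∧ 1 * A1 + (-1) * m13_1 ≤ 1) ∨ ((-1) * B3 + 1 * m13_1 ≤ -1 ∧ 1 * B3 + (-1) * m13_1 ≤ 1) := by
  have h := C.f13_2
  clear C
  omega

theorem c0_11_33_33_k3_k_f13_5 {n1 n2 n3 A1 A2 A3 B1 B2 B3 m11_1 m11_2 m11_3 m13_1 m13_2 m13_3 m22_1 m22_2 m22_3 m23_1 m23_2 m23_3 m33_1 m33_2 m33_3 : ℤ} (C : Ctx0 n1 n2 n3 A1 A2 A3 B1 B2 B3 m11_1 m11_2 m11_3 m13_1 m13_2 m13_3 m22_1 m22_2 m22_3 m23_1 m23_2 m23_3 m33_1 m33_2 m33_3) :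
    ((-1) * m13_1 + 1 * m13_2 + (-1) * n2 ≤ 0 ∧ 1 * m13_1 + (-1) * m13_2 + 1 * n2 ≤ 0) ∨ ((-1) * B3 + 1 * m13_2 ≤ -1 ∧ 1 * B3 + (-1) * m13_2 ≤ 1) := by
  have h := C.f13_5
  clear C
  omega

theorem c0_11_33_33_k3_k_f13_8 {n1 n2 n3 A1 A2 A3 B1 B2 B3 m11_1 m11_2 m11_3 m13_1 m13_2 m13_3 m22_1 m22_2 m22_3 m23_1 m23_2 m23_3 m33_1 m33_2 m33_3 : ℤ} (C : Ctx0 n1 n2 n3 A1 A2 A3 B1 B2 B3 m11_1 m11_2 m11_3 m13_1 m13_2 m13_3 m22_1 m22_2 m22_3 m23_1 m23_2 m23_3 m33_1 m33_2 m33_3) :
    ((-1) * m13_2 + 1 * m13_3 + (-1) * n3 ≤ 0 ∧ 1 * m13_2 + (-1) * m13_3 + 1 * n3 ≤ 0) ∨ ((-1) * B3 + 1 * m13_3 ≤ -1 ∧ 1 * B3 + (-1) * m13_3 ≤ 1) := by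
  have h := C.f13_8
  clear C
  omega

theorem c0_11_33_33_k3_k_f22_2 {n1 n2 n3 A1 A2 A3 B1 B2 B3 m11_1 m11_2 m11_3 m13_1 m13_2 m13_3 m22_1 m22_2 m22_3 m23_1 m23_2 m23_3 m33_1 m33_2 m33_3 : ℤ} (C : Ctx0 n1 n2 n3 A1 A2 A3 B1 B2 B3 m11_1 m11_2 m11_3 m13_1 m13_2 m13_3 m22_1 m22_2 m22_3 m23_1 m23_2 m23_3 m33_1 m33_2 m33_3) :
    (1 * m22_1 + (-1) * n1 ≤ 0 ∧ (-1) * m22_1 + 1 * n1 ≤ 0) ∨ ((-1) * B2 + 1 * m22_1 ≤ -1 ∧ 1 * B2 + (-1) * m22_1 ≤ 1) := by
  have h := C.f22_2
  clear C
  omega

theorem c0_11_33_33_k3_k_f22_5 {n1 n2 n3 A1 A2 A3 B1 B2 B3 m11_1 m11_2 m11_3 m13_1 m13_2 m13_3 m22_1 m22_2 m22_3 m23_1 m23_2 m23_3 m33_1 m33_2 m33_3 : ℤ} (C : Ctx0 n1 n2 n3 A1 A2 A3 B1 B2 B3 m11_1 m11_2 m11_3 m13_1 m13_2 m13_3 m22_1 m22_2 m22_3 m23_1 m23_2 m23_3 m33_1 m33_2 m33_3) :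
    ((-1) * m22_1 + 1 * m22_2 + (-1) * n2 ≤ 0 ∧ 1 * m22_1 + (-1) * m22_2 + 1 * n2 ≤ 0) ∨ ((-1) * B2 + 1 * m22_2 ≤ -1 ∧ 1 * B2 + (-1) * m22_2 ≤ 1) := by
  have h := C.f22_5
  clear C
  omega

theorem c0_11_33_33_k3_k_f23_3 {n1 n2 n3 A1 A2 A3 B1 B2 B3 m11_1 m11_2 m11_3 m13_1 m13_2 m13_3 m22_1 m22_2 m22_3 m23_1 m23_2 m23_3 m33_1 m33_2 m33_3 : ℤ} (C : Ctx0 n1 n2 n3 A1 A2 A3 B1 B2 B3 m11_1 m11_2 m11_3 m13_1 m13_2 m13_3 m22_1 m22_2 m22_3 m23_1 m23_2 m23_3 m33_1 m33_2 m33_3) :
    (1 * m23_1 + (-1) * n1 ≤ 0 ∧ (-1) * m23_1 + 1 * n1 ≤ 0) ∨ ((-1) * A2 + 1 * m23_1 ≤ -1 ∧ 1 * A2 + (-1) * m23_1 ≤ 1) ∨ ((-1) * B3 + 1 * m23_1 ≤ -1 ∧ 1 * B3 + (-1) * m23_1 ≤ 1) := by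
  have h := C.f23_3
  clear C
  omega

theorem c0_11_33_33_k3_k_f23_7 {n1 n2 n3 A1 A2 A3 B1 B2 B3 m11_1 m11_2 m11_3 m13_1 m13_2 m13_3 m22_1 m22_2 m22_3 m23_1 m23_2 m23_3 m33_1 m33_2 m33_3 : ℤ} (C : Ctx0 n1 n2 n3 A1 A2 A3 B1 B2 B3 m11_1 m11_2 m11_3 m13_1 m13_2 m13_3 m22_1 m22_2 m22_3 m23_1 m23_2 m23_3 m33_1 m33_2 m33_3) :
    ((-1) * m23_1 + 1 * m23_2 + (-1) * n2 ≤ 0 ∧ 1 * m23_1 + (-1) * m23_2 + 1 * n2 ≤ 0) ∨ ((-1) * A2 + 1 * m23_2 ≤ -1 ∧ 1 * A2 + (-1) * m23_2 ≤ 1) ∨ ((-1) * B3 + 1 * m23_2 ≤ -1 ∧ 1 * B3 + (-1) * m23_2 ≤ 1) := by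
  have h := C.f23_7
  clear C
  omega

theorem c0_11_33_33_k3_k_f23_10 {n1 n2 n3 A1 A2 A3 B1 B2 B3 m11_1 m11_2 m11_3 m13_1 m13_2 m13_3 m22_1 m22_2 m22_3 m23_1 m23_2 m23_3 m33_1 m33_2 m33_3 : ℤ} (C : Ctx0 n1 n2 n3 A1 A2 A3 B1 B2 B3 m11_1 m11_2 m11_3 m13_1 m13_2 m13_3 m22_1 m22_2 m22_3 m23_1 m23_2 m23_3 m33_1 m33_2 m33_3) :
    ((-1) * m23_2 + 1 * m23_3 + (-1) * n3 ≤ 0 ∧ 1 * m23_2 + (-1) * m23_3 + 1 * n3 ≤ 0) ∨ ((-1) * B3 + 1 * m23_3 ≤ -1 ∧ 1 * B3 + (-1) * m23_3 ≤ 1) := by
  have h := C.f23_10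
  clear C
  omega

theorem c0_11_33_33_k3_k_f33_5 {n1 n2 n3 A1 A2 A3 B1 B2 B3 m11_1 m11_2 m11_3 m13_1 m13_2 m13_3 m22_1 m22_2 m22_3 m23_1 m23_2 m23_3 m33_1 m33_2 m33_3 : ℤ} (C : Ctx0 n1 n2 n3 A1 A2 A3 B1 B2 B3 m11_1 m11_2 m11_3 m13_1 m13_2 m13_3 m22_1 m22_2 m22_3 m23_1 m23_2 m23_3 m33_1 m33_2 m33_3) :
    ((-1) * m33_1 + 1 * m33_2 + (-1) * n2 ≤ 0 ∧ 1 * m33_1 + (-1) * m33_2 + 1 * n2 ≤ 0) ∨ ((-1) * A3 + 1 * m33_2 ≤ -1 ∧ 1 * A3 + (-1) * m33_2 ≤ 1) := by
  have h := C.f33_5
  clear C
  omega

theorem c0_11_33_33_k3_k_f33_8 {n1 n2 n3 A1 A2 A3 B1 B2 B3 m11_1 m11_2 m11_3 m13_1 m13_2 m13_3 m22_1 m22_2 m22_3 m23_1 m23_2 m23_3 m33_1 m33_2 m33_3 : ℤ} (C : Ctx0 n1 n2 n3 A1 A2 A3 B1 B2 B3 m11_1 m11_2 m11_3 m13_1 m13_2 m13_3 m22_1 m22_2 m22_3 m23_1 m23_2 m23_3 m33_1 m33_2 m33_3) :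
    ((-1) * m33_2 + 1 * m33_3 + (-1) * n3 ≤ 0 ∧ 1 * m33_2 + (-1) * m33_3 + 1 * n3 ≤ 0) ∨ ((-1) * A3 + 1 * m33_3 ≤ -1 ∧ 1 * A3 + (-1) * m33_3 ≤ 1) := by
  have h := C.f33_8
  clear C
  omega

theorem c0_11_33_33_k3_k_p11_13B {n1 n2 n3 A1 A2 A3 B1 B2 B3 m11_1 m11_2 m11_3 m13_1 m13_2 m13_3 m22_1 m22_2 m22_3 m23_1 m23_2 m23_3 m33_1 m33_2 m33_3 : ℤ} (C : Ctx0 n1 n2 n3 A1 A2 A3 B1 B2 B3 m11_1 m11_2 m11_3 m13_1 m13_2 m13_3 m22_1 m22_2 m22_3 m23_1 m23_2 m23_3 m33_1 m33_2 m33_3) :
    (1 * B1 ≤ 0) ∨ (1 * A1 ≤ 0) ∨ (1 * B3 ≤ 0) ∨ ((-2) * B1 + 1 * m11_1 + 1 * m13_1 ≤ -1) ∨ ((-2) * B2 + 1 * m11_2 + 1 * m13_2 ≤ -1) ∨ ((-2) * B3 + 1 * m11_3 + 1 * m13_3 ≤ -1) := by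
  have h := C.p11_13B
  clear C
  omega

theorem c0_11_33_33_k3_k_p11_22B {n1 n2 n3 A1 A2 A3 B1 B2 B3 m11_1 m11_2 m11_3 m13_1 m13_2 m13_3 m22_1 m22_2 m22_3 m23_1 m23_2 m23_3 m33_1 m33_2 m33_3 : ℤ} (C : Ctx0 n1 n2 n3 A1 A2 A3 B1 B2 B3 m11_1 m11_2 m11_3 m13_1 m13_2 m13_3 m22_1 m22_2 m22_3 m23_1 m23_2 m23_3 m33_1 m33_2 m33_3) :
    (1 * B1 ≤ 0) ∨ (1 * B2 ≤ 0) ∨ ((-2) * B1 + 1 * m11_1 + 1 * m22_1 ≤ -1) ∨ ((-2) * B2 + 1 * m11_2 + 1 * m22_2 ≤ -1) ∨ ((-2) * B3 + 1 * m11_3 + 1 * m22_3 ≤ -1) := by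
  have h := C.p11_22B
  clear C
  omega

theorem c0_11_33_33_k3_k_p11_23B {n1 n2 n3 A1 A2 A3 B1 B2 B3 m11_1 m11_2 m11_3 m13_1 m13_2 m13_3 m22_1 m22_2 m22_3 m23_1 m23_2 m23_3 m33_1 m33_2 m33_3 : ℤ} (C : Ctx0 n1 n2 n3 A1 A2 A3 B1 B2 B3 m11_1 m11_2 m11_3 m13_1 m13_2 m13_3 m22_1 m22_2 m22_3 m23_1 m23_2 m23_3 m33_1 m33_2 m33_3) :
    (1 * B1 ≤ 0) ∨ (1 * A2 ≤ 0) ∨ (1 * B3 ≤ 0) ∨ ((-2) * B1 + 1 * m11_1 + 1 * m23_1 ≤ -1) ∨ ((-2) * B2 + 1 * m11_2 + 1 * m23_2 ≤ -1) ∨ ((-2) * B3 + 1 * m11_3 + 1 * m23_3 ≤ -1) := by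
  have h := C.p11_23B
  clear C
  omega

theorem c0_11_33_33_k3_k_p11_33B {n1 n2 n3 A1 A2 A3 B1 B2 B3 m11_1 m11_2 m11_3 m13_1 m13_2 m13_3 m22_1 m22_2 m22_3 m23_1 m23_2 m23_3 m33_1 m33_2 m33_3 : ℤ} (C : Ctx0 n1 n2 n3 A1 A2 A3 B1 B2 B3 m11_1 m11_2 m11_3 m13_1 m13_2 m13_3 m22_1 m22_2 m22_3 m23_1 m23_2 m23_3 m33_1 m33_2 m33_3) :
    (1 * B1 ≤ 0) ∨ (1 * A3 ≤ 0) ∨ ((-2) * B1 + 1 * m11_1 + 1 * m33_1 ≤ -1) ∨ ((-2) * B2 + 1 * m11_2 + 1 * m33_2 ≤ -1) ∨ ((-2) * B3 + 1 * m11_3 + 1 * m33_3 ≤ -1) := by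
  have h := C.p11_33B
  clear C
  omega

theorem c0_11_33_33_k3_k_p13_22A {n1 n2 n3 A1 A2 A3 B1 B2 B3 m11_1 m11_2 m11_3 m13_1 m13_2 m13_3 m22_1 m22_2 m22_3 m23_1 m23_2 m23_3 m33_1 m33_2 m33_3 : ℤ} (C : Ctx0 n1 n2 n3 A1 A2 A3 B1 B2 B3 m11_1 m11_2 m11_3 m13_1 m13_2 m13_3 m22_1 m22_2 m22_3 m23_1 m23_2 m23_3 m33_1 m33_2 m33_3) :
    (1 * A1 ≤ 0) ∨ (1 * B3 ≤ 0) ∨ (1 * B2 ≤ 0) ∨ ((-2) * A1 + 1 * m13_1 + 1 * m22_1 ≤ -1) ∨ ((-2) * A2 + 1 * m13_2 + 1 * m22_2 ≤ -1) ∨ ((-2) * A3 + 1 * m13_3 + 1 * m22_3 ≤ -1) := by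
  have h := C.p13_22A
  clear C
  omega

theorem c0_11_33_33_k3_k_p13_22B {n1 n2 n3 A1 A2 A3 B1 B2 B3 m11_1 m11_2 m11_3 m13_1 m13_2 m13_3 m22_1 m22_2 m22_3 m23_1 m23_2 m23_3 m33_1 m33_2 m33_3 : ℤ} (C : Ctx0 n1 n2 n3 A1 A2 A3 B1 B2 B3 m11_1 m11_2 m11_3 m13_1 m13_2 m13_3 m22_1 m22_2 m22_3 m23_1 m23_2 m23_3 m33_1 m33_2 m33_3) :
    (1 * A1 ≤ 0) ∨ (1 * B3 ≤ 0) ∨ (1 * B2 ≤ 0) ∨ ((-2) * B1 + 1 * m13_1 + 1 * m22_1 ≤ -1) ∨ ((-2) * B2 + 1 * m13_2 + 1 * m22_2 ≤ -1) ∨ ((-2) * B3 + 1 * m13_3 + 1 * m22_3 ≤ -1) := by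
  have h := C.p13_22B
  clear C
  omega

theorem c0_11_33_33_k3_k_p13_33A {n1 n2 n3 A1 A2 A3 B1 B2 B3 m11_1 m11_2 m11_3 m13_1 m13_2 m13_3 m22_1 m22_2 m22_3 m23_1 m23_2 m23_3 m33_1 m33_2 m33_3 : ℤ} (C : Ctx0 n1 n2 n3 A1 A2 A3 B1 B2 B3 m11_1 m11_2 m11_3 m13_1 m13_2 m13_3 m22_1 m22_2 m22_3 m23_1 m23_2 m23_3 m33_1 m33_2 m33_3) :
    (1 * A1 ≤ 0) ∨ (1 * B3 ≤ 0) ∨ (1 * A3 ≤ 0) ∨ ((-2) * A1 + 1 * m13_1 + 1 * m33_1 ≤ -1) ∨ ((-2) * A2 + 1 * m13_2 + 1 * m33_2 ≤ -1) ∨ ((-2) * A3 + 1 * m13_3 + 1 * m33_3 ≤ -1) := by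
  have h := C.p13_33A
  clear C
  omega

theorem c0_11_33_33_k3_k_p22_33A {n1 n2 n3 A1 A2 A3 B1 B2 B3 m11_1 m11_2 m11_3 m13_1 m13_2 m13_3 m22_1 m22_2 m22_3 m23_1 m23_2 m23_3 m33_1 m33_2 m33_3 : ℤ} (C : Ctx0 n1 n2 n3 A1 A2 A3 B1 B2 B3 m11_1 m11_2 m11_3 m13_1 m13_2 m13_3 m22_1 m22_2 m22_3 m23_1 m23_2 m23_3 m33_1 m33_2 m33_3) :
    (1 * B2 ≤ 0) ∨ (1 * A3 ≤ 0) ∨ ((-2) * A1 + 1 * m22_1 + 1 * m33_1 ≤ -1) ∨ ((-2) * A2 + 1 * m22_2 + 1 * m33_2 ≤ -1) ∨ ((-2) * A3 + 1 * m22_3 + 1 * m33_3 ≤ -1) := by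
  have h := C.p22_33A
  clear C
  omega

theorem c0_11_33_33_k3_k_p23_33A {n1 n2 n3 A1 A2 A3 B1 B2 B3 m11_1 m11_2 m11_3 m13_1 m13_2 m13_3 m22_1 m22_2 m22_3 m23_1 m23_2 m23_3 m33_1 m33_2 m33_3 : ℤ} (C : Ctx0 n1 n2 n3 A1 A2 A3 B1 B2 B3 m11_1 m11_2 m11_3 m13_1 m13_2 m13_3 m22_1 m22_2 m22_3 m23_1 m23_2 m23_3 m33_1 m33_2 m33_3) :
    (1 * A2 ≤ 0) ∨ (1 * B3 ≤ 0) ∨ (1 * A3 ≤ 0) ∨ ((-2) * A1 + 1 * m23_1 + 1 * m33_1 ≤ -1) ∨ ((-2) * A2 + 1 * m23_2 + 1 * m33_2 ≤ -1) ∨ ((-2) * A3 + 1 * m23_3 + 1 * m33_3 ≤ -1) := by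
  have h := C.p23_33A
  clear C
  omega

theorem c0_11_33_33_k3_k_tmzp {n1 n2 n3 A1 A2 A3 B1 B2 B3 m11_1 m11_2 m11_3 m13_1 m13_2 m13_3 m22_1 m22_2 m22_3 m23_1 m23_2 m23_3 m33_1 m33_2 m33_3 : ℤ} (C : Ctx0 n1 n2 n3 A1 A2 A3 B1 B2 B3 m11_1 m11_2 m11_3 m13_1 m13_2 m13_3 m22_1 m22_2 m22_3 m23_1 m23_2 m23_3 m33_1 m33_2 m33_3) :
    ((-1) * A1 + 1 * n1 ≤ 0) ∨ ((-1) * A1 + 1 * A2 ≤ 0) ∨ ((-1) * A2 + 1 * A3 ≤ 0) ∨ (1 * B1 ≤ 0) ∨ (1 * B1 + (-1) * B2 + 1 * n2 ≤ 0) ∨ (1 * B2 + (-1) * B3 + 1 * n3 ≤ 0) := by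
  have h := C.tmzp
  clear C
  omega

theorem c0_11_33_33_k3_k_tmpp {n1 n2 n3 A1 A2 A3 B1 B2 B3 m11_1 m11_2 m11_3 m13_1 m13_2 m13_3 m22_1 m22_2 m22_3 m23_1 m23_2 m23_3 m33_1 m33_2 m33_3 : ℤ} (C : Ctx0 n1 n2 n3 A1 A2 A3 B1 B2 B3 m11_1 m11_2 m11_3 m13_1 m13_2 m13_3 m22_1 m22_2 m22_3 m23_1 m23_2 m23_3 m33_1 m33_2 m33_3) :
    ((-1) * A1 + 1 * n1 ≤ 0) ∨ ((-1) * A1 + 1 * A2 ≤ 1) ∨ (1 * B1 ≤ 0) ∨ (1 * B1 + (-1) * B2 + 1 * n2 ≤ 1) := by
  have h := C.tmpp
  clear C
  omega

theorem c0_11_33_33_k3_k_tzmp {n1 n2 n3 A1 A2 A3 B1 B2 B3 m11_1 m11_2 m11_3 m13_1 m13_2 m13_3 m22_1 m22_2 m22_3 m23_1 m23_2 m23_3 m33_1 m33_2 m33_3 : ℤ} (C : Ctx0 n1 n2 n3 A1 A2 A3 B1 B2 B3 m11_1 m11_2 m11_3 m13_1 m13_2 m13_3 m22_1 m22_2 m22_3 m23_1 m23_2 m23_3 m33_1 m33_2 m33_3) :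
    (1 * A1 + (-1) * A2 + 1 * n2 ≤ 0) ∨ ((-1) * A2 + 1 * A3 ≤ 1) ∨ ((-1) * B1 + 1 * B2 ≤ 0) ∨ (1 * B2 + (-1) * B3 + 1 * n3 ≤ 1) := by
  have h := C.tzmp
  clear C
  omega

theorem c0_11_33_33_k3 {n1 n2 n3 A1 A2 A3 B1 B2 B3 m11_1 m11_2 m11_3 m13_1 m13_2 m13_3 m22_1 m22_2 m22_3 m23_1 m23_2 m23_3 m33_1 m33_2 m33_3 : ℤ}
    (C : Ctx0 n1 n2 n3 A1 A2 A3 B1 B2 B3 m11_1 m11_2 m11_3 m13_1 m13_2 m13_3 m22_1 m22_2 m22_3 m23_1 m23_2 m23_3 m33_1 m33_2 m33_3)
    (e0 : 0 < B1)
    (e1 : 0 < A3)
    (s1 : 3 * A1 + 0 * B1 ≤ m11_1 + m33_1 + m33_1)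
    (s2 : 3 * A2 + 0 * B2 ≤ m11_2 + m33_2 + m33_2)
    (s3 : 3 * A3 + 0 * B3 ≤ m11_3 + m33_3 + m33_3) : False := by
  rcases c0_11_33_33_k3_k_f13_2 C with ⟨c0_0_0, c0_0_1⟩ | ⟨c0_1_0, c0_1_1⟩
  · rcases c0_11_33_33_k3_k_p11_33B C with c1_0_0 | c1_1_0 | c1_2_0 | c1_3_0 | c1_4_0
    · linarith only [c1_0_0, e0]
    · linarith only [c1_1_0, e1]
    · linarith only [C.f11_0, C.o0, c1_2_0, s1]
    · linarith only [C.b3, C.f11_0, C.f11_1, C.o1, c1_3_0, s2]
    · rcases c0_11_33_33_k3_k_f33_8 C with ⟨c2_0_0, c2_0_1⟩ | ⟨c2_1_0, c2_1_1⟩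
      · linarith only [C.b5, C.f11_2, C.f33_7, C.o1, C.o2, c1_4_0, c2_0_1, s2]
      · rcases c0_11_33_33_k3_k_t12 C with ⟨c3_0_0, c3_0_1⟩ | ⟨c3_1_0, c3_1_1⟩
        · rcases c0_11_33_33_k3_k_t23 C with ⟨c4_0_0, c4_0_1⟩ | ⟨c4_1_0, c4_1_1⟩
          · rcases c0_11_33_33_k3_k_f13_5 C with ⟨c5_0_0, c5_0_1⟩ | ⟨c5_1_0, c5_1_1⟩
            · rcases c0_11_33_33_k3_k_f13_8 C with ⟨c6_0_0, c6_0_1⟩ | ⟨c6_1_0, c6_1_1⟩
              · linarith only [C.b5, C.f13_7, C.o1, c0_0_1, c3_0_1, c5_0_1, c6_0_1]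
              · rcases c0_11_33_33_k3_k_p13_33A C with c7_0_0 | c7_1_0 | c7_2_0 | c7_3_0 | c7_4_0 | c7_5_0
                · linarith only [c3_0_0, c7_0_0]
                · linarith only [C.f11_0, C.f11_1, C.f13_4, C.f33_4, C.o0, C.o2, c0_0_1, c4_0_0, c5_0_1, c7_1_0, e0, s2]
                · linarith only [c7_2_0, e1]
                · linarith only [C.f11_0, C.o0, c0_0_1, c7_3_0, s1]
                · linarith only [C.f11_0, C.f11_1, C.o0, c0_0_1, c3_0_1, c5_0_1, c7_4_0, s2]
                · rcases c0_11_33_33_k3_k_f22_2 C with ⟨c9_0_0, c9_0_1⟩ | ⟨c9_1_0, c9_1_1⟩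
                  · rcases c0_11_33_33_k3_k_f22_5 C with ⟨c10_0_0, c10_0_1⟩ | ⟨c10_1_0, c10_1_1⟩
                    · linarith only [C.f11_0, C.f22_4, C.f33_0, C.o0, C.o1, c10_0_1, c3_0_1, c9_0_1, s1]
                    · rcases c0_11_33_33_k3_k_p11_22B C with c12_0_0 | c12_1_0 | c12_2_0 | c12_3_0 | c12_4_0
                      · linarith only [c12_0_0, e0]
                      · linarith only [C.f11_0, C.f22_1, C.f33_0, C.o0, c12_1_0, c9_0_1, e0, s1]
                      · linarith only [C.f11_0, C.f33_0, C.o0, c12_2_0, c9_0_1, s1]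
                      · rcases c0_11_33_33_k3_k_p13_22A C with c13_0_0 | c13_1_0 | c13_2_0 | c13_3_0 | c13_4_0 | c13_5_0
                        · linarith only [c13_0_0, c3_0_0]
                        · linarith only [C.o2, c13_1_0, e1]
                        · linarith only [C.a1, C.f22_1, c13_2_0, c3_0_0, c9_0_1]
                        · linarith only [C.f11_0, C.f33_0, C.o0, c0_0_1, c13_3_0, c9_0_1, s1]
                        · rcases c0_11_33_33_k3_k_p22_33A C with c14_0_0 | c14_1_0 | c14_2_0 | c14_3_0 | c14_4_0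
                          · linarith only [C.f11_0, C.f22_1, C.f33_0, C.o0, c14_0_0, c9_0_1, e0, s1]
                          · linarith only [c14_1_0, e1]
                          · linarith only [C.f11_0, C.f33_0, C.o0, c14_2_0, c9_0_1, s1]
                          · rcases c0_11_33_33_k3_k_f23_3 C with ⟨c15_0_0, c15_0_1⟩ | ⟨c15_1_0, c15_1_1⟩ | ⟨c15_2_0, c15_2_1⟩
                            · rcases c0_11_33_33_k3_k_f23_7 C with ⟨c16_0_0, c16_0_1⟩ | ⟨c16_1_0, c16_1_1⟩ | ⟨c16_2_0, c16_2_1⟩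
                              · linarith only [C.f11_0, C.f23_5, C.f33_0, C.o0, c15_0_1, c16_0_1, c3_0_1, s1]
                              · rcases c0_11_33_33_k3_k_f23_10 C with ⟨c17_0_0, c17_0_1⟩ | ⟨c17_1_0, c17_1_1⟩
                                · linarith only [C.f11_0, C.f11_1, C.f11_2, C.f23_9, C.f33_7, C.o0, c0_0_1, c10_1_1, c12_3_0, c13_4_0, c16_1_1, c17_0_1, c5_0_1, c6_1_1, c7_5_0, s3]
                                · rcases c0_11_33_33_k3_k_p11_13B C with c18_0_0 | c18_1_0 | c18_2_0 | c18_3_0 | c18_4_0 | c18_5_0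
                                  · linarith only [c18_0_0, e0]
                                  · linarith only [c18_1_0, c3_0_0]
                                  · linarith only [C.o2, c18_2_0, e1]
                                  · rcases c0_11_33_33_k3_k_f33_5 C with ⟨c19_0_0, c19_0_1⟩ | ⟨c19_1_0, c19_1_1⟩
                                    · linarith only [C.f11_0, C.f11_1, c0_0_1, c10_1_1, c12_3_0, c14_3_0, c18_3_0, c19_0_1, c3_0_1, s1]
                                    · rcases c0_11_33_33_k3_k_p11_23B C with c20_0_0 | c20_1_0 | c20_2_0 | c20_3_0 | c20_4_0 | c20_5_0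
                                      · linarith only [c20_0_0, e0]
                                      · linarith only [C.a1, C.f22_1, c10_1_1, c14_3_0, c19_1_1, c20_1_0, c3_0_0, c9_0_1, e1]
                                      · linarith only [C.o2, c20_2_0, e1]
                                      · linarith only [C.f11_0, C.f33_0, C.o0, c15_0_1, c20_3_0, s1]
                                      · rcases c0_11_33_33_k3_k_p13_22B C with c22_0_0 | c22_1_0 | c22_2_0 | c22_3_0 | c22_4_0 | c22_5_0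
                                        · linarith only [c22_0_0, c3_0_0]
                                        · linarith only [C.o2, c22_1_0, e1]
                                        · linarith only [C.f11_0, C.f22_1, C.f33_0, C.o0, c22_2_0, c9_0_1, e0, s1]
                                        · linarith only [C.f11_0, C.f33_0, C.o0, c0_0_1, c22_3_0, c9_0_1, s1]
                                        · linarith only [C.f11_0, C.f11_1, C.o0, c0_0_1, c10_1_1, c14_3_0, c22_4_0, c3_0_1, c5_0_1, s2]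
                                        · linarith only [C.f11_0, C.f11_1, C.f11_2, C.f22_6, C.f33_7, C.o0, c0_0_1, c10_1_1, c13_4_0, c16_1_1, c20_4_0, c22_5_0, c5_0_1, c6_1_1, c7_5_0, s3]
                                      · linarith only [C.f33_7, c17_1_1, c20_5_0, c6_1_1, c7_5_0, s3]
                                  · linarith only [c0_0_1, c10_1_1, c14_3_0, c18_4_0, c3_0_1, c5_0_1, s2]
                                  · linarith only [C.f33_7, c18_5_0, c6_1_1, c7_5_0, s3]
                              · linarith only [C.f11_0, C.f11_1, C.f13_4, C.f23_5, C.f33_4, C.o0, C.o2, c0_0_1, c16_2_1, c5_0_1, s2]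
                            · linarith only [C.f11_0, C.f11_1, C.f22_1, C.f23_0, C.o0, c0_0_1, c10_1_1, c13_4_0, c14_3_0, c15_1_1, c5_0_1, c9_0_1, s2]
                            · linarith only [C.f13_4, C.f23_1, c0_0_1, c15_2_1, c3_0_1, c5_0_1]
                          · linarith only [C.f11_2, C.f22_6, C.f33_7, c10_1_1, c12_3_0, c14_4_0, s3]
                        · linarith only [C.f11_2, C.f22_6, C.f33_7, C.o2, c10_1_1, c12_3_0, c13_5_0, c6_1_1, s3]
                      · linarith only [C.b5, C.f22_6, C.f33_7, c10_1_1, c12_4_0, c6_1_1, c7_5_0, s3]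
                  · rcases c0_11_33_33_k3_k_f22_5 C with ⟨c23_0_0, c23_0_1⟩ | ⟨c23_1_0, c23_1_1⟩
                    · linarith only [C.f22_4, c23_0_1, c3_0_1, c4_0_0, c9_1_1]
                    · rcases c0_11_33_33_k3_k_f23_3 C with ⟨c24_0_0, c24_0_1⟩ | ⟨c24_1_0, c24_1_1⟩ | ⟨c24_2_0, c24_2_1⟩
                      · rcases c0_11_33_33_k3_k_f23_7 C with ⟨c25_0_0, c25_0_1⟩ | ⟨c25_1_0, c25_1_1⟩ | ⟨c25_2_0, c25_2_1⟩
                        · linarith only [C.f11_0, C.f23_5, C.f33_0, C.o0, c24_0_1, c25_0_1, c3_0_1, s1]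
                        · rcases c0_11_33_33_k3_k_tmpp C with c27_0_0 | c27_1_0 | c27_2_0 | c27_3_0
                          · linarith only [C.f11_0, C.f33_0, C.o0, c27_0_0, s1]
                          · linarith only [C.f11_0, C.f23_1, C.f33_0, C.o0, c24_0_1, c27_1_0, s1]
                          · linarith only [c27_2_0, e0]
                          · rcases c0_11_33_33_k3_k_f23_10 C with ⟨c28_0_0, c28_0_1⟩ | ⟨c28_1_0, c28_1_1⟩
                            · linarith only [C.f11_0, C.f11_1, C.f11_2, C.f23_9, C.f33_7, C.o1, c25_1_1, c27_3_0, c28_0_1, c6_1_1, c7_5_0, s3]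
                            · rcases c0_11_33_33_k3_k_p11_22B C with c29_0_0 | c29_1_0 | c29_2_0 | c29_3_0 | c29_4_0
                              · linarith only [c29_0_0, e0]
                              · linarith only [C.f11_0, C.f23_1, C.f33_0, C.o0, c24_0_1, c27_3_0, c29_1_0, c3_0_1, e0, s1]
                              · linarith only [C.f11_0, C.f23_1, C.f33_0, C.o0, c24_0_1, c27_3_0, c29_2_0, c3_0_1, c9_1_1, s1]
                              · rcases c0_11_33_33_k3_k_p11_23B C with c30_0_0 | c30_1_0 | c30_2_0 | c30_3_0 | c30_4_0 | c30_5_0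
                                · linarith only [c30_0_0, e0]
                                · linarith only [C.f11_0, C.f23_1, C.f33_0, C.o0, c24_0_1, c30_1_0, e0, s1]
                                · linarith only [C.f11_0, C.f23_1, C.f33_0, C.f33_4, C.o0, C.o1, C.o2, c23_1_1, c24_0_1, c29_3_0, c30_2_0, e0, s1, s2]
                                · linarith only [C.f11_0, C.f33_0, C.o0, c24_0_1, c30_3_0, s1]
                                · rcases c0_11_33_33_k3_k_p13_22A C with c31_0_0 | c31_1_0 | c31_2_0 | c31_3_0 | c31_4_0 | c31_5_0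
                                  · linarith only [c31_0_0, c3_0_0]
                                  · linarith only [C.o2, c31_1_0, e1]
                                  · linarith only [C.f11_1, C.f23_1, C.f33_0, c24_0_1, c25_1_1, c30_4_0, c31_2_0, c3_0_0, c3_0_1, s1]
                                  · linarith only [C.f11_1, C.f23_1, C.f33_0, c0_0_1, c24_0_1, c25_1_1, c30_4_0, c31_3_0, c3_0_1, c9_1_1, s1]
                                  · rcases c0_11_33_33_k3_k_p13_22B C with c32_0_0 | c32_1_0 | c32_2_0 | c32_3_0 | c32_4_0 | c32_5_0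
                                    · linarith only [c32_0_0, c3_0_0]
                                    · linarith only [C.o2, c32_1_0, e1]
                                    · linarith only [C.f11_0, C.f11_1, C.f23_1, C.f33_0, C.o0, c23_1_1, c24_0_1, c29_3_0, c32_2_0, c3_0_1, e0, s1]
                                    · linarith only [C.f11_1, C.f23_1, C.f33_0, C.o0, c0_0_1, c24_0_1, c25_1_1, c30_4_0, c32_3_0, c3_0_1, c9_1_1, s1]
                                    · rcases c0_11_33_33_k3_k_p22_33A C with c37_0_0 | c37_1_0 | c37_2_0 | c37_3_0 | c37_4_0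
                                      · linarith only [C.f11_0, C.f23_1, C.f33_0, C.o0, c0_0_1, c23_1_1, c24_0_1, c32_4_0, c37_0_0, c3_0_1, c5_0_1, e0, s1]
                                      · linarith only [c37_1_0, e1]
                                      · linarith only [C.f11_0, C.f23_1, C.f33_0, C.o0, c0_0_1, c23_1_1, c24_0_1, c32_4_0, c37_2_0, c3_0_1, c5_0_1, c9_1_1, s1]
                                      · linarith only [C.f11_0, C.f11_1, C.o0, c0_0_1, c23_1_1, c32_4_0, c37_3_0, c3_0_1, c5_0_1, s2]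
                                      · linarith only [C.f11_0, C.f11_1, C.f11_2, C.f22_6, C.f33_7, C.o0, c0_0_1, c23_1_1, c32_4_0, c37_4_0, c5_0_1, s3]
                                    · linarith only [C.f11_0, C.f11_1, C.f11_2, C.f22_6, C.f33_7, C.o0, c0_0_1, c23_1_1, c25_1_1, c30_4_0, c31_4_0, c32_5_0, c5_0_1, c6_1_1, c7_5_0, s3]
                                  · linarith only [C.f11_2, C.f22_6, C.f33_7, C.o1, C.o2, c23_1_1, c25_1_1, c30_4_0, c31_5_0, c6_1_1, s3]
                                · linarith only [C.f33_7, c28_1_1, c30_5_0, c6_1_1, c7_5_0, s3]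
                              · linarith only [C.f11_0, C.f11_1, C.f11_2, C.f22_6, C.f33_7, c23_1_1, c27_3_0, c29_4_0, c6_1_1, c7_5_0, s3]
                        · linarith only [C.f11_0, C.f11_1, C.f13_4, C.f23_5, C.f33_4, C.o0, C.o2, c0_0_1, c25_2_1, c5_0_1, s2]
                      · rcases c0_11_33_33_k3_k_f23_7 C with ⟨c38_0_0, c38_0_1⟩ | ⟨c38_1_0, c38_1_1⟩ | ⟨c38_2_0, c38_2_1⟩
                        · linarith only [C.f23_5, c24_1_1, c38_0_1, c3_0_1, c4_0_0]
                        · rcases c0_11_33_33_k3_k_f23_10 C with ⟨c39_0_0, c39_0_1⟩ | ⟨c39_1_0, c39_1_1⟩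
                          · rcases c0_11_33_33_k3_k_p11_22B C with c43_0_0 | c43_1_0 | c43_2_0 | c43_3_0 | c43_4_0
                            · linarith only [c43_0_0, e0]
                            · linarith only [C.b5, C.f23_9, C.o0, c38_1_1, c39_0_1, c43_1_0, c4_0_0, e0]
                            · linarith only [C.b5, C.f11_0, C.f23_9, C.o0, c38_1_1, c39_0_1, c43_2_0, c4_0_0, c9_1_1]
                            · linarith only [C.f11_2, C.f23_9, C.f33_7, C.o1, c23_1_1, c38_1_1, c39_0_1, c43_3_0, c6_1_1, c7_5_0, s3]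
                            · linarith only [C.b5, C.f22_6, C.f33_7, c23_1_1, c43_4_0, c6_1_1, c7_5_0, s3]
                          · rcases c0_11_33_33_k3_k_p11_23B C with c44_0_0 | c44_1_0 | c44_2_0 | c44_3_0 | c44_4_0 | c44_5_0
                            · linarith only [c44_0_0, e0]
                            · linarith only [C.o0, c44_1_0, c4_0_0, e0]
                            · linarith only [C.o2, c44_2_0, e1]
                            · linarith only [C.f11_0, C.o0, c24_1_1, c44_3_0, c4_0_0]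
                            · rcases c0_11_33_33_k3_k_p22_33A C with c46_0_0 | c46_1_0 | c46_2_0 | c46_3_0 | c46_4_0
                              · linarith only [C.f11_0, C.f11_1, C.o0, c38_1_1, c3_0_1, c44_4_0, c46_0_0, c4_0_0, e0]
                              · linarith only [c46_1_0, e1]
                              · linarith only [C.f11_1, c38_1_1, c3_0_1, c44_4_0, c46_2_0, c4_0_0, c9_1_1, s1]
                              · rcases c0_11_33_33_k3_k_p13_22B C with c50_0_0 | c50_1_0 | c50_2_0 | c50_3_0 | c50_4_0 | c50_5_0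
                                · linarith only [c3_0_0, c50_0_0]
                                · linarith only [C.o2, c50_1_0, e1]
                                · linarith only [C.f11_0, C.f11_1, C.o0, c38_1_1, c3_0_1, c44_4_0, c4_0_0, c50_2_0, e0]
                                · linarith only [C.f11_0, C.f11_1, C.o0, c0_0_1, c38_1_1, c3_0_1, c44_4_0, c4_0_0, c50_3_0, c9_1_1]
                                · linarith only [C.f11_0, C.f11_1, C.o0, c0_0_1, c23_1_1, c3_0_1, c46_3_0, c50_4_0, c5_0_1, s2]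
                                · rcases c0_11_33_33_k3_k_tmzp C with c56_0_0 | c56_1_0 | c56_2_0 | c56_3_0 | c56_4_0 | c56_5_0
                                  · linarith only [C.f11_0, C.f33_0, C.o0, c56_0_0, s1]
                                  · linarith only [c4_0_0, c56_1_0]
                                  · linarith only [C.f33_4, C.o1, c38_1_1, c44_4_0, c56_2_0, s2]
                                  · linarith only [c56_3_0, e0]
                                  · linarith only [C.f11_0, C.f11_1, C.f11_2, C.f22_6, C.f33_7, c23_1_1, c50_5_0, c56_4_0, c6_1_1, c7_5_0, s3]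
                                  · linarith only [C.f11_2, C.f33_7, C.o1, c38_1_1, c44_4_0, c56_5_0, c6_1_1, c7_5_0, s3]
                              · linarith only [C.f11_2, C.f22_6, C.f33_7, C.o1, c23_1_1, c38_1_1, c44_4_0, c46_4_0, s3]
                            · linarith only [C.f33_7, c39_1_1, c44_5_0, c6_1_1, c7_5_0, s3]
                        · linarith only [C.f11_0, C.f11_1, C.f13_4, C.f23_5, C.f33_4, C.o0, C.o2, c0_0_1, c38_2_1, c5_0_1, s2]
                      · linarith only [C.f13_4, C.f23_1, c0_0_1, c24_2_1, c3_0_1, c5_0_1]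
            · rcases c0_11_33_33_k3_k_f13_8 C with ⟨c57_0_0, c57_0_1⟩ | ⟨c57_1_0, c57_1_1⟩
              · linarith only [C.a4, C.b5, C.f13_7, C.o1, C.o2, c57_0_1, c5_1_1]
              · rcases c0_11_33_33_k3_k_p13_33A C with c59_0_0 | c59_1_0 | c59_2_0 | c59_3_0 | c59_4_0 | c59_5_0
                · linarith only [c3_0_0, c59_0_0]
                · linarith only [C.f11_0, C.f33_1, C.o0, C.o2, c59_1_0, e0, s1]
                · linarith only [c59_2_0, e1]
                · linarith only [C.f11_0, C.o0, c0_0_1, c59_3_0, s1]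
                · linarith only [C.b5, C.f11_2, C.f33_4, C.o1, c1_4_0, c2_1_1, c59_4_0, c5_1_1, s2]
                · rcases c0_11_33_33_k3_k_p11_13B C with c60_0_0 | c60_1_0 | c60_2_0 | c60_3_0 | c60_4_0 | c60_5_0
                  · linarith only [c60_0_0, e0]
                  · linarith only [c3_0_0, c60_1_0]
                  · linarith only [C.o2, c60_2_0, e1]
                  · rcases c0_11_33_33_k3_k_tmzp C with c64_0_0 | c64_1_0 | c64_2_0 | c64_3_0 | c64_4_0 | c64_5_0
                    · linarith only [C.f11_0, C.f33_0, C.o0, c64_0_0, s1]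
                    · linarith only [c4_0_0, c64_1_0]
                    · linarith only [C.b5, C.f11_2, C.f33_4, C.o1, c1_4_0, c2_1_1, c57_1_1, c59_5_0, c64_2_0, s2]
                    · linarith only [c64_3_0, e0]
                    · linarith only [C.f11_0, C.f11_1, C.f13_3, C.f33_4, C.o1, C.o2, c5_1_1, c60_3_0, c64_4_0, s2]
                    · rcases c0_11_33_33_k3_k_tmpp C with c65_0_0 | c65_1_0 | c65_2_0 | c65_3_0
                      · linarith only [C.f11_0, C.f33_0, C.o0, c65_0_0, s1]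
                      · rcases c0_11_33_33_k3_k_f22_2 C with ⟨c66_0_0, c66_0_1⟩ | ⟨c66_1_0, c66_1_1⟩
                        · linarith only [C.f11_0, C.f22_1, C.f33_0, C.o0, C.o1, c65_1_0, c66_0_1, s1]
                        · rcases c0_11_33_33_k3_k_f22_5 C with ⟨c67_0_0, c67_0_1⟩ | ⟨c67_1_0, c67_1_1⟩
                          · linarith only [C.f11_0, C.f13_0, C.f13_3, C.f22_4, C.f33_1, C.o0, C.o2, c5_1_1, c66_1_1, c67_0_1, s1]
                          · rcases c0_11_33_33_k3_k_f23_3 C with ⟨c68_0_0, c68_0_1⟩ | ⟨c68_1_0, c68_1_1⟩ | ⟨c68_2_0, c68_2_1⟩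
                            · linarith only [C.f11_0, C.f23_1, C.f33_0, C.o0, c65_1_0, c68_0_1, s1]
                            · rcases c0_11_33_33_k3_k_f23_7 C with ⟨c69_0_0, c69_0_1⟩ | ⟨c69_1_0, c69_1_1⟩ | ⟨c69_2_0, c69_2_1⟩
                              · linarith only [C.f11_0, C.f13_0, C.f13_3, C.f23_5, C.f33_1, C.o0, C.o2, c5_1_1, c68_1_1, c69_0_1, s1]
                              · rcases c0_11_33_33_k3_k_p11_22B C with c70_0_0 | c70_1_0 | c70_2_0 | c70_3_0 | c70_4_0
                                · linarith only [c70_0_0, e0]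
                                · linarith only [C.b2, c70_1_0, e0]
                                · rcases c0_11_33_33_k3_k_f23_10 C with ⟨c71_0_0, c71_0_1⟩ | ⟨c71_1_0, c71_1_1⟩
                                  · linarith only [C.b5, C.f11_0, C.f23_9, C.o0, c4_0_0, c66_1_1, c69_1_1, c70_2_0, c71_0_1]
                                  · rcases c0_11_33_33_k3_k_p11_23B C with c72_0_0 | c72_1_0 | c72_2_0 | c72_3_0 | c72_4_0 | c72_5_0
                                    · linarith only [c72_0_0, e0]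
                                    · linarith only [C.o0, c4_0_0, c72_1_0, e0]
                                    · linarith only [C.f11_0, C.f33_1, C.o0, C.o2, c72_2_0, e0, s1]
                                    · linarith only [C.f11_0, C.o0, c4_0_0, c68_1_1, c72_3_0]
                                    · linarith only [C.f11_0, C.f11_1, C.f11_2, C.f13_0, C.f13_3, C.f33_1, C.f33_7, C.o1, c5_1_1, c60_3_0, c64_5_0, c65_1_0, c69_1_1, c72_4_0, s1, s3]
                                    · linarith only [C.b5, C.f11_0, C.f11_1, C.f11_2, C.f13_0, C.f13_3, C.f33_1, C.f33_7, C.o0, c5_1_1, c66_1_1, c70_2_0, c71_1_1, c72_5_0, s1, s3]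
                                · linarith only [C.f11_0, C.f11_1, C.f11_2, C.f13_0, C.f13_3, C.f33_1, C.f33_7, C.o1, c5_1_1, c60_3_0, c64_5_0, c65_1_0, c67_1_1, c70_3_0, s1, s3]
                                · linarith only [C.b5, C.f11_0, C.f11_1, C.f11_2, C.f13_0, C.f13_3, C.f22_6, C.f33_1, C.f33_7, C.o1, c5_1_1, c60_3_0, c65_1_0, c67_1_1, c70_4_0, s1, s3]
                              · linarith only [C.f11_0, C.f23_5, C.f33_1, C.o0, C.o2, c65_1_0, c69_2_1, s1]
                            · linarith only [C.f11_0, C.f23_1, C.f33_1, C.o0, C.o2, c65_1_0, c68_2_1, s1]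
                      · linarith only [c65_2_0, e0]
                      · linarith only [C.f11_0, C.f11_1, C.f11_2, C.f13_3, C.f33_4, C.f33_7, C.o1, c5_1_1, c60_3_0, c64_5_0, c65_3_0, s2, s3]
                  · linarith only [C.b3, C.f11_0, C.f11_1, C.f33_4, C.o1, C.o2, c5_1_1, c60_4_0, s2]
                  · linarith only [C.f33_7, c57_1_1, c59_5_0, c60_5_0, s3]
          · rcases c0_11_33_33_k3_k_f13_5 C with ⟨c73_0_0, c73_0_1⟩ | ⟨c73_1_0, c73_1_1⟩
            · rcases c0_11_33_33_k3_k_f13_8 C with ⟨c74_0_0, c74_0_1⟩ | ⟨c74_1_0, c74_1_1⟩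
              · linarith only [C.f13_7, C.o1, c0_0_1, c3_0_1, c4_1_1, c73_0_1, c74_0_1]
              · rcases c0_11_33_33_k3_k_p13_33A C with c75_0_0 | c75_1_0 | c75_2_0 | c75_3_0 | c75_4_0 | c75_5_0
                · linarith only [c3_0_0, c75_0_0]
                · linarith only [C.f11_0, C.f33_1, C.o0, C.o2, c75_1_0, e0, s1]
                · linarith only [c75_2_0, e1]
                · linarith only [C.f11_0, C.o0, c0_0_1, c75_3_0, s1]
                · linarith only [C.f11_0, C.f11_1, C.o0, c0_0_1, c3_0_1, c73_0_1, c75_4_0, s2]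
                · rcases c0_11_33_33_k3_k_f22_2 C with ⟨c77_0_0, c77_0_1⟩ | ⟨c77_1_0, c77_1_1⟩
                  · rcases c0_11_33_33_k3_k_f22_5 C with ⟨c78_0_0, c78_0_1⟩ | ⟨c78_1_0, c78_1_1⟩
                    · linarith only [C.f11_0, C.f22_4, C.f33_0, C.o0, C.o1, c3_0_1, c77_0_1, c78_0_1, s1]
                    · rcases c0_11_33_33_k3_k_p11_22B C with c80_0_0 | c80_1_0 | c80_2_0 | c80_3_0 | c80_4_0
                      · linarith only [c80_0_0, e0]
                      · linarith only [C.f11_0, C.f22_1, C.f33_0, C.o0, c77_0_1, c80_1_0, e0, s1]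
                      · linarith only [C.f11_0, C.f33_0, C.o0, c77_0_1, c80_2_0, s1]
                      · rcases c0_11_33_33_k3_k_p13_22A C with c81_0_0 | c81_1_0 | c81_2_0 | c81_3_0 | c81_4_0 | c81_5_0
                        · linarith only [c3_0_0, c81_0_0]
                        · linarith only [C.o2, c81_1_0, e1]
                        · linarith only [C.a1, C.f22_1, c3_0_0, c77_0_1, c81_2_0]
                        · linarith only [C.f11_0, C.f33_0, C.o0, c0_0_1, c77_0_1, c81_3_0, s1]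
                        · rcases c0_11_33_33_k3_k_p22_33A C with c82_0_0 | c82_1_0 | c82_2_0 | c82_3_0 | c82_4_0
                          · linarith only [C.f11_0, C.f22_1, C.f33_0, C.o0, c77_0_1, c82_0_0, e0, s1]
                          · linarith only [c82_1_0, e1]
                          · linarith only [C.f11_0, C.f33_0, C.o0, c77_0_1, c82_2_0, s1]
                          · rcases c0_11_33_33_k3_k_f23_3 C with ⟨c83_0_0, c83_0_1⟩ | ⟨c83_1_0, c83_1_1⟩ | ⟨c83_2_0, c83_2_1⟩
                            · rcases c0_11_33_33_k3_k_f23_7 C with ⟨c84_0_0, c84_0_1⟩ | ⟨c84_1_0, c84_1_1⟩ | ⟨c84_2_0, c84_2_1⟩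
                              · linarith only [C.f11_0, C.f23_5, C.f33_0, C.o0, c3_0_1, c83_0_1, c84_0_1, s1]
                              · rcases c0_11_33_33_k3_k_f23_10 C with ⟨c85_0_0, c85_0_1⟩ | ⟨c85_1_0, c85_1_1⟩
                                · linarith only [C.f11_0, C.f11_1, C.f11_2, C.f23_9, C.f33_7, C.o0, c0_0_1, c73_0_1, c74_1_1, c75_5_0, c78_1_1, c80_3_0, c81_4_0, c84_1_1, c85_0_1, s3]
                                · rcases c0_11_33_33_k3_k_p11_13B C with c86_0_0 | c86_1_0 | c86_2_0 | c86_3_0 | c86_4_0 | c86_5_0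
                                  · linarith only [c86_0_0, e0]
                                  · linarith only [c3_0_0, c86_1_0]
                                  · linarith only [C.o2, c86_2_0, e1]
                                  · rcases c0_11_33_33_k3_k_f33_5 C with ⟨c87_0_0, c87_0_1⟩ | ⟨c87_1_0, c87_1_1⟩
                                    · linarith only [C.f11_0, C.f11_1, c0_0_1, c3_0_1, c78_1_1, c80_3_0, c82_3_0, c86_3_0, c87_0_1, s1]
                                    · rcases c0_11_33_33_k3_k_p11_23B C with c88_0_0 | c88_1_0 | c88_2_0 | c88_3_0 | c88_4_0 | c88_5_0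
                                      · linarith only [c88_0_0, e0]
                                      · linarith only [C.a1, C.f22_1, c3_0_0, c77_0_1, c78_1_1, c82_3_0, c87_1_1, c88_1_0, e1]
                                      · linarith only [C.o2, c88_2_0, e1]
                                      · linarith only [C.f11_0, C.f33_0, C.o0, c83_0_1, c88_3_0, s1]
                                      · rcases c0_11_33_33_k3_k_p13_22B C with c90_0_0 | c90_1_0 | c90_2_0 | c90_3_0 | c90_4_0 | c90_5_0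
                                        · linarith only [c3_0_0, c90_0_0]
                                        · linarith only [C.o2, c90_1_0, e1]
                                        · linarith only [C.f11_0, C.f22_1, C.f33_0, C.o0, c77_0_1, c90_2_0, e0, s1]
                                        · linarith only [C.f11_0, C.f33_0, C.o0, c0_0_1, c77_0_1, c90_3_0, s1]
                                        · linarith only [C.f11_0, C.f11_1, C.o0, c0_0_1, c3_0_1, c73_0_1, c78_1_1, c82_3_0, c90_4_0, s2]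
                                        · linarith only [C.f11_0, C.f11_1, C.f11_2, C.f22_6, C.f33_7, C.o0, c0_0_1, c73_0_1, c74_1_1, c75_5_0, c78_1_1, c81_4_0, c84_1_1, c88_4_0, c90_5_0, s3]
                                      · linarith only [C.f33_7, c74_1_1, c75_5_0, c85_1_1, c88_5_0, s3]
                                  · linarith only [c0_0_1, c3_0_1, c73_0_1, c78_1_1, c82_3_0, c86_4_0, s2]
                                  · linarith only [C.f33_7, c74_1_1, c75_5_0, c86_5_0, s3]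
                              · linarith only [C.f11_0, C.f11_1, C.f13_4, C.f23_5, C.f33_4, C.o0, C.o2, c0_0_1, c73_0_1, c84_2_1, s2]
                            · linarith only [C.f11_0, C.f11_1, C.f22_1, C.f23_0, C.o0, c0_0_1, c73_0_1, c77_0_1, c78_1_1, c81_4_0, c82_3_0, c83_1_1, s2]
                            · linarith only [C.f13_4, C.f23_1, c0_0_1, c3_0_1, c73_0_1, c83_2_1]
                          · linarith only [C.f11_2, C.f22_6, C.f33_7, c78_1_1, c80_3_0, c82_4_0, s3]
                        · linarith only [C.f11_2, C.f22_6, C.f33_7, C.o2, c74_1_1, c78_1_1, c80_3_0, c81_5_0, s3]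
                      · linarith only [C.b3, C.f11_0, C.f11_1, C.f11_2, C.f22_6, c4_1_1, c78_1_1, c80_4_0]
                  · rcases c0_11_33_33_k3_k_f22_5 C with ⟨c91_0_0, c91_0_1⟩ | ⟨c91_1_0, c91_1_1⟩
                    · linarith only [C.a2, C.f22_4, c3_0_1, c77_1_1, c91_0_1]
                    · rcases c0_11_33_33_k3_k_f23_3 C with ⟨c92_0_0, c92_0_1⟩ | ⟨c92_1_0, c92_1_1⟩ | ⟨c92_2_0, c92_2_1⟩
                      · rcases c0_11_33_33_k3_k_f23_7 C with ⟨c93_0_0, c93_0_1⟩ | ⟨c93_1_0, c93_1_1⟩ | ⟨c93_2_0, c93_2_1⟩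
                        · linarith only [C.f11_0, C.f23_5, C.f33_0, C.o0, c3_0_1, c92_0_1, c93_0_1, s1]
                        · rcases c0_11_33_33_k3_k_f23_10 C with ⟨c94_0_0, c94_0_1⟩ | ⟨c94_1_0, c94_1_1⟩
                          · linarith only [C.f23_9, C.o1, c4_1_1, c93_1_1, c94_0_1]
                          · rcases c0_11_33_33_k3_k_p11_22B C with c96_0_0 | c96_1_0 | c96_2_0 | c96_3_0 | c96_4_0
                            · linarith only [c96_0_0, e0]
                            · linarith only [c4_1_0, c96_1_0, e0]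
                            · linarith only [C.f11_0, C.f11_1, C.f11_2, C.f23_1, C.f33_0, C.o0, c1_4_0, c2_1_1, c3_0_1, c4_1_1, c74_1_1, c75_5_0, c77_1_1, c92_0_1, c96_2_0, s1]
                            · rcases c0_11_33_33_k3_k_p11_23B C with c97_0_0 | c97_1_0 | c97_2_0 | c97_3_0 | c97_4_0 | c97_5_0
                              · linarith only [c97_0_0, e0]
                              · linarith only [C.f11_0, C.f23_1, C.f33_0, C.o0, c92_0_1, c97_1_0, e0, s1]
                              · linarith only [C.f11_0, C.f23_1, C.f33_0, C.f33_4, C.o0, C.o1, C.o2, c91_1_1, c92_0_1, c96_3_0, c97_2_0, e0, s1, s2]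
                              · linarith only [C.f11_0, C.f33_0, C.o0, c92_0_1, c97_3_0, s1]
                              · rcases c0_11_33_33_k3_k_p13_22A C with c98_0_0 | c98_1_0 | c98_2_0 | c98_3_0 | c98_4_0 | c98_5_0
                                · linarith only [c3_0_0, c98_0_0]
                                · linarith only [C.o2, c98_1_0, e1]
                                · linarith only [C.f11_1, C.f23_1, C.f33_0, c3_0_0, c3_0_1, c92_0_1, c93_1_1, c97_4_0, c98_2_0, s1]
                                · linarith only [C.f11_1, C.f23_1, C.f33_0, c0_0_1, c3_0_1, c77_1_1, c92_0_1, c93_1_1, c97_4_0, c98_3_0, s1]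
                                · rcases c0_11_33_33_k3_k_p13_22B C with c99_0_0 | c99_1_0 | c99_2_0 | c99_3_0 | c99_4_0 | c99_5_0
                                  · linarith only [c3_0_0, c99_0_0]
                                  · linarith only [C.o2, c99_1_0, e1]
                                  · linarith only [C.f11_0, C.f11_1, C.f23_1, C.f33_0, C.o0, c3_0_1, c91_1_1, c92_0_1, c96_3_0, c99_2_0, e0, s1]
                                  · linarith only [C.f11_1, C.f23_1, C.f33_0, C.o0, c0_0_1, c3_0_1, c77_1_1, c92_0_1, c93_1_1, c97_4_0, c99_3_0, s1]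
                                  · rcases c0_11_33_33_k3_k_p22_33A C with c104_0_0 | c104_1_0 | c104_2_0 | c104_3_0 | c104_4_0
                                    · linarith only [C.f11_0, C.f23_1, C.f33_0, C.o0, c0_0_1, c104_0_0, c3_0_1, c73_0_1, c91_1_1, c92_0_1, c99_4_0, e0, s1]
                                    · linarith only [c104_1_0, e1]
                                    · linarith only [C.f11_0, C.f23_1, C.f33_0, C.o0, c0_0_1, c104_2_0, c3_0_1, c73_0_1, c77_1_1, c91_1_1, c92_0_1, c99_4_0, s1]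
                                    · linarith only [C.f11_0, C.f11_1, C.o0, c0_0_1, c104_3_0, c3_0_1, c73_0_1, c91_1_1, c99_4_0, s2]
                                    · linarith only [C.f11_0, C.f11_1, C.f11_2, C.f22_6, C.f33_7, C.o0, c0_0_1, c104_4_0, c73_0_1, c91_1_1, c99_4_0, s3]
                                  · linarith only [C.f11_0, C.f11_1, C.f11_2, C.f22_6, C.f33_7, C.o0, c0_0_1, c73_0_1, c74_1_1, c75_5_0, c91_1_1, c93_1_1, c97_4_0, c98_4_0, c99_5_0, s3]
                                · linarith only [C.f11_2, C.f22_6, C.f33_7, C.o1, C.o2, c74_1_1, c91_1_1, c93_1_1, c97_4_0, c98_5_0, s3]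
                              · linarith only [C.f33_7, c74_1_1, c75_5_0, c94_1_1, c97_5_0, s3]
                            · linarith only [C.f22_6, C.f33_7, c4_1_1, c74_1_1, c75_5_0, c91_1_1, c96_4_0, s3]
                        · linarith only [C.f11_2, C.f23_5, C.f33_4, C.o1, C.o2, c1_4_0, c2_1_1, c4_1_1, c93_2_1, s2]
                      · rcases c0_11_33_33_k3_k_f23_7 C with ⟨c105_0_0, c105_0_1⟩ | ⟨c105_1_0, c105_1_1⟩ | ⟨c105_2_0, c105_2_1⟩
                        · linarith only [C.a2, C.f23_5, c105_0_1, c3_0_1, c92_1_1]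
                        · rcases c0_11_33_33_k3_k_f23_10 C with ⟨c106_0_0, c106_0_1⟩ | ⟨c106_1_0, c106_1_1⟩
                          · linarith only [C.f23_9, C.o1, c105_1_1, c106_0_1, c4_1_1]
                          · rcases c0_11_33_33_k3_k_f33_5 C with ⟨c108_0_0, c108_0_1⟩ | ⟨c108_1_0, c108_1_1⟩
                            · rcases c0_11_33_33_k3_k_p23_33A C with c110_0_0 | c110_1_0 | c110_2_0 | c110_3_0 | c110_4_0 | c110_5_0
                              · linarith only [C.a2, c110_0_0, c3_0_0]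
                              · linarith only [C.o2, c110_1_0, e1]
                              · linarith only [c110_2_0, e1]
                              · linarith only [C.a2, C.f11_0, C.o0, c110_3_0, c92_1_1, s1]
                              · linarith only [C.f11_0, C.o0, c105_1_1, c108_0_1, c110_4_0, c3_0_1, s1]
                              · rcases c0_11_33_33_k3_k_tzmp C with c112_0_0 | c112_1_0 | c112_2_0 | c112_3_0
                                · linarith only [c112_0_0, c3_0_1]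
                                · linarith only [C.f11_0, C.f33_4, C.o0, c108_0_1, c112_1_0, c3_0_1, s1]
                                · linarith only [c112_2_0, c4_1_0]
                                · rcases c0_11_33_33_k3_k_p11_13B C with c113_0_0 | c113_1_0 | c113_2_0 | c113_3_0 | c113_4_0 | c113_5_0
                                  · linarith only [c113_0_0, e0]
                                  · linarith only [c113_1_0, c3_0_0]
                                  · linarith only [C.f11_0, C.f11_1, C.f11_2, C.f33_4, C.f33_7, C.o0, c108_0_1, c112_3_0, c113_2_0, c4_1_0, e0, s1, s3]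
                                  · rcases c0_11_33_33_k3_k_p22_33A C with c117_0_0 | c117_1_0 | c117_2_0 | c117_3_0 | c117_4_0
                                    · linarith only [c117_0_0, c4_1_0, e0]
                                    · linarith only [c117_1_0, e1]
                                    · linarith only [c0_0_1, c113_3_0, c117_2_0, c4_1_0, c77_1_1, s1]
                                    · linarith only [C.f11_0, C.f11_1, C.f11_2, c0_0_1, c106_1_1, c108_0_1, c110_5_0, c113_3_0, c117_3_0, c1_4_0, c2_1_1, c3_0_1, c4_1_1, c91_1_1, s1]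
                                    · linarith only [C.f22_6, C.o2, c117_4_0, c2_1_1, c4_1_1, c91_1_1]
                                  · linarith only [C.f11_0, C.f11_1, C.f11_2, C.f33_7, C.o0, c0_0_1, c106_1_1, c110_5_0, c112_3_0, c113_4_0, c73_0_1, s3]
                                  · linarith only [C.f33_7, c106_1_1, c110_5_0, c113_5_0, c74_1_1, s3]
                            · rcases c0_11_33_33_k3_k_p11_13B C with c119_0_0 | c119_1_0 | c119_2_0 | c119_3_0 | c119_4_0 | c119_5_0
                              · linarith only [c119_0_0, e0]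
                              · linarith only [c119_1_0, c3_0_0]
                              · linarith only [C.f11_0, C.f33_1, C.o0, C.o2, c119_2_0, e0, s1]
                              · rcases c0_11_33_33_k3_k_p22_33A C with c121_0_0 | c121_1_0 | c121_2_0 | c121_3_0 | c121_4_0
                                · linarith only [c121_0_0, c4_1_0, e0]
                                · linarith only [c121_1_0, e1]
                                · linarith only [c0_0_1, c119_3_0, c121_2_0, c4_1_0, c77_1_1, s1]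
                                · rcases c0_11_33_33_k3_k_p11_23B C with c122_0_0 | c122_1_0 | c122_2_0 | c122_3_0 | c122_4_0 | c122_5_0
                                  · linarith only [c122_0_0, e0]
                                  · linarith only [C.f11_0, C.f33_1, C.o0, c108_1_1, c121_3_0, c122_1_0, c4_1_0, c91_1_1, e0, s1]
                                  · linarith only [C.f11_0, C.f33_1, C.o0, C.o2, c122_2_0, e0, s1]
                                  · linarith only [C.f11_0, C.f33_1, C.o0, c108_1_1, c121_3_0, c122_3_0, c4_1_0, c91_1_1, c92_1_1, s1]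
                                  · rcases c0_11_33_33_k3_k_p13_22B C with c123_0_0 | c123_1_0 | c123_2_0 | c123_3_0 | c123_4_0 | c123_5_0
                                    · linarith only [c123_0_0, c3_0_0]
                                    · linarith only [C.f11_0, C.f33_1, C.o0, C.o2, c123_1_0, e0, s1]
                                    · linarith only [C.a2, C.f11_0, C.f11_1, C.o0, c105_1_1, c122_4_0, c123_2_0, c3_0_1, e0]
                                    · linarith only [C.f11_0, C.f11_1, C.f33_1, C.o0, c0_0_1, c105_1_1, c108_1_1, c121_3_0, c122_4_0, c123_3_0, c3_0_1, c77_1_1, c91_1_1, s1]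
                                    · linarith only [C.f11_0, C.f11_1, C.o0, c0_0_1, c121_3_0, c123_4_0, c3_0_1, c73_0_1, c91_1_1, s2]
                                    · rcases c0_11_33_33_k3_k_tmzp C with c129_0_0 | c129_1_0 | c129_2_0 | c129_3_0 | c129_4_0 | c129_5_0
                                      · linarith only [C.f11_0, C.f33_0, C.o0, c129_0_0, s1]
                                      · linarith only [C.f11_1, C.f33_1, c105_1_1, c108_1_1, c121_3_0, c122_4_0, c129_1_0, c3_0_1, c91_1_1, s1]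
                                      · linarith only [C.f33_4, C.o1, c105_1_1, c122_4_0, c129_2_0, s2]
                                      · linarith only [c129_3_0, e0]
                                      · linarith only [C.f11_0, C.f11_1, C.f11_2, C.f22_6, C.f33_7, c123_5_0, c129_4_0, c74_1_1, c75_5_0, c91_1_1, s3]
                                      · linarith only [c129_5_0, c4_1_1]
                                  · linarith only [C.f33_7, c106_1_1, c122_5_0, c74_1_1, c75_5_0, s3]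
                                · linarith only [C.f22_6, C.o2, c121_4_0, c2_1_1, c4_1_1, c91_1_1]
                              · rcases c0_11_33_33_k3_k_p22_33A C with c133_0_0 | c133_1_0 | c133_2_0 | c133_3_0 | c133_4_0
                                · linarith only [C.a2, C.f11_0, C.f11_1, C.o0, c0_0_1, c119_4_0, c133_0_0, c3_0_1, c73_0_1, e0]
                                · linarith only [c133_1_0, e1]
                                · linarith only [C.a2, C.f11_1, c0_0_1, c119_4_0, c133_2_0, c3_0_1, c73_0_1, c77_1_1, s1]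
                                · linarith only [c0_0_1, c119_4_0, c133_3_0, c3_0_1, c73_0_1, c91_1_1, s2]
                                · linarith only [C.f11_0, C.f11_1, C.f11_2, C.f22_6, C.f33_7, C.o0, c0_0_1, c119_4_0, c133_4_0, c73_0_1, c91_1_1, s3]
                              · linarith only [C.f33_7, c119_5_0, c74_1_1, c75_5_0, s3]
                        · linarith only [C.f11_0, C.f11_1, C.f13_4, C.f23_5, C.f33_4, C.o0, C.o2, c0_0_1, c105_2_1, c73_0_1, s2]
                      · linarith only [C.f13_4, C.f23_1, c0_0_1, c3_0_1, c73_0_1, c92_2_1]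
            · rcases c0_11_33_33_k3_k_f13_8 C with ⟨c134_0_0, c134_0_1⟩ | ⟨c134_1_0, c134_1_1⟩
              · linarith only [C.a4, C.f13_7, C.o1, C.o2, c134_0_1, c4_1_1, c73_1_1]
              · rcases c0_11_33_33_k3_k_p13_33A C with c136_0_0 | c136_1_0 | c136_2_0 | c136_3_0 | c136_4_0 | c136_5_0
                · linarith only [c136_0_0, c3_0_0]
                · linarith only [C.f11_0, C.f33_1, C.o0, C.o2, c136_1_0, e0, s1]
                · linarith only [c136_2_0, e1]
                · linarith only [C.f11_0, C.o0, c0_0_1, c136_3_0, s1]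
                · linarith only [C.f11_2, C.f33_4, C.o1, c136_4_0, c1_4_0, c2_1_1, c4_1_1, c73_1_1, s2]
                · rcases c0_11_33_33_k3_k_p11_13B C with c137_0_0 | c137_1_0 | c137_2_0 | c137_3_0 | c137_4_0 | c137_5_0
                  · linarith only [c137_0_0, e0]
                  · linarith only [c137_1_0, c3_0_0]
                  · linarith only [C.o2, c137_2_0, e1]
                  · rcases c0_11_33_33_k3_k_tmzp C with c141_0_0 | c141_1_0 | c141_2_0 | c141_3_0 | c141_4_0 | c141_5_0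
                    · linarith only [C.f11_0, C.f33_0, C.o0, c141_0_0, s1]
                    · linarith only [C.f11_0, C.f11_1, C.f11_2, C.f13_0, C.f13_3, C.f33_1, C.o1, c137_3_0, c141_1_0, c1_4_0, c2_1_1, c4_1_1, c73_1_1, s1]
                    · linarith only [C.f11_2, C.f33_4, C.o1, c134_1_1, c136_5_0, c141_2_0, c1_4_0, c2_1_1, c4_1_1, s2]
                    · linarith only [c141_3_0, e0]
                    · linarith only [C.f11_0, C.f11_1, C.f13_3, C.f33_4, C.o1, C.o2, c137_3_0, c141_4_0, c73_1_1, s2]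
                    · linarith only [c141_5_0, c4_1_1]
                  · linarith only [C.b3, C.f11_0, C.f11_1, C.f33_4, C.o1, C.o2, c137_4_0, c73_1_1, s2]
                  · linarith only [C.f33_7, c134_1_1, c136_5_0, c137_5_0, s3]
        · rcases c0_11_33_33_k3_k_t23 C with ⟨c142_0_0, c142_0_1⟩ | ⟨c142_1_0, c142_1_1⟩
          · rcases c0_11_33_33_k3_k_f13_5 C with ⟨c143_0_0, c143_0_1⟩ | ⟨c143_1_0, c143_1_1⟩
            · rcases c0_11_33_33_k3_k_f13_8 C with ⟨c144_0_0, c144_0_1⟩ | ⟨c144_1_0, c144_1_1⟩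
              · linarith only [C.b5, C.f13_7, C.o0, c0_0_1, c143_0_1, c144_0_1, c3_1_1]
              · rcases c0_11_33_33_k3_k_p13_33A C with c145_0_0 | c145_1_0 | c145_2_0 | c145_3_0 | c145_4_0 | c145_5_0
                · linarith only [C.o0, c145_0_0, e0]
                · linarith only [C.f11_0, C.f11_1, C.f13_4, C.f33_4, C.o0, C.o2, c0_0_1, c142_0_0, c143_0_1, c145_1_0, e0, s2]
                · linarith only [c145_2_0, e1]
                · linarith only [C.f11_0, C.o0, c0_0_1, c145_3_0, s1]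
                · linarith only [C.a3, C.f11_0, C.f11_1, C.o0, c0_0_1, c143_0_1, c145_4_0, s2]
                · rcases c0_11_33_33_k3_k_tmzp C with c148_0_0 | c148_1_0 | c148_2_0 | c148_3_0 | c148_4_0 | c148_5_0
                  · linarith only [C.f11_0, C.f33_0, C.o0, c148_0_0, s1]
                  · linarith only [c142_0_0, c148_1_0]
                  · linarith only [C.f11_0, C.f11_1, C.f13_4, C.f33_4, C.o0, c0_0_1, c143_0_1, c144_1_1, c145_5_0, c148_2_0, c2_1_1, s2]
                  · linarith only [c148_3_0, e0]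
                  · linarith only [c148_4_0, c3_1_1]
                  · rcases c0_11_33_33_k3_k_tmpp C with c149_0_0 | c149_1_0 | c149_2_0 | c149_3_0
                    · linarith only [C.f11_0, C.f33_0, C.o0, c149_0_0, s1]
                    · rcases c0_11_33_33_k3_k_f22_2 C with ⟨c150_0_0, c150_0_1⟩ | ⟨c150_1_0, c150_1_1⟩
                      · linarith only [C.f11_0, C.f22_1, C.f33_0, C.o0, C.o1, c149_1_0, c150_0_1, s1]
                      · rcases c0_11_33_33_k3_k_f22_5 C with ⟨c151_0_0, c151_0_1⟩ | ⟨c151_1_0, c151_1_1⟩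
                        · linarith only [C.a3, C.f22_4, c142_0_0, c150_1_1, c151_0_1]
                        · rcases c0_11_33_33_k3_k_f23_3 C with ⟨c152_0_0, c152_0_1⟩ | ⟨c152_1_0, c152_1_1⟩ | ⟨c152_2_0, c152_2_1⟩
                          · linarith only [C.f11_0, C.f23_1, C.f33_0, C.o0, c149_1_0, c152_0_1, s1]
                          · rcases c0_11_33_33_k3_k_f23_7 C with ⟨c153_0_0, c153_0_1⟩ | ⟨c153_1_0, c153_1_1⟩ | ⟨c153_2_0, c153_2_1⟩
                            · linarith only [C.a3, C.f23_5, c142_0_0, c152_1_1, c153_0_1]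
                            · rcases c0_11_33_33_k3_k_p11_22B C with c154_0_0 | c154_1_0 | c154_2_0 | c154_3_0 | c154_4_0
                              · linarith only [c154_0_0, e0]
                              · linarith only [C.b2, c154_1_0, e0]
                              · rcases c0_11_33_33_k3_k_f23_10 C with ⟨c155_0_0, c155_0_1⟩ | ⟨c155_1_0, c155_1_1⟩
                                · linarith only [C.b5, C.f11_0, C.f23_9, C.o0, c142_0_0, c150_1_1, c153_1_1, c154_2_0, c155_0_1]
                                · rcases c0_11_33_33_k3_k_p11_23B C with c156_0_0 | c156_1_0 | c156_2_0 | c156_3_0 | c156_4_0 | c156_5_0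
                                  · linarith only [c156_0_0, e0]
                                  · linarith only [C.o0, c142_0_0, c156_1_0, e0]
                                  · linarith only [C.o2, c156_2_0, e1]
                                  · linarith only [C.f11_0, C.o0, c142_0_0, c152_1_1, c156_3_0]
                                  · linarith only [C.f11_0, C.f11_1, C.o0, c142_0_0, c150_1_1, c153_1_1, c154_2_0, c156_4_0, c3_1_1]
                                  · linarith only [C.f33_7, c144_1_1, c145_5_0, c155_1_1, c156_5_0, s3]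
                              · linarith only [C.f11_2, C.f33_7, c144_1_1, c145_5_0, c148_5_0, c151_1_1, c154_3_0, s3]
                              · linarith only [C.b5, C.f22_6, C.f33_7, c144_1_1, c145_5_0, c151_1_1, c154_4_0, s3]
                            · linarith only [C.f11_0, C.f11_1, C.f13_4, C.f23_5, C.f33_4, C.o0, C.o2, c0_0_1, c143_0_1, c153_2_1, s2]
                          · linarith only [C.f11_0, C.f23_1, C.f33_1, C.o0, C.o2, c149_1_0, c152_2_1, s1]
                    · linarith only [c149_2_0, e0]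
                    · linarith only [C.f11_0, C.f11_1, C.f11_2, C.f33_7, c144_1_1, c145_5_0, c148_5_0, c149_3_0, s3]
            · rcases c0_11_33_33_k3_k_f13_8 C with ⟨c157_0_0, c157_0_1⟩ | ⟨c157_1_0, c157_1_1⟩
              · linarith only [C.a4, C.b5, C.f13_7, C.o1, C.o2, c143_1_1, c157_0_1]
              · rcases c0_11_33_33_k3_k_p13_33A C with c159_0_0 | c159_1_0 | c159_2_0 | c159_3_0 | c159_4_0 | c159_5_0
                · linarith only [C.o0, c159_0_0, e0]
                · linarith only [C.f11_0, C.f33_1, C.o0, C.o2, c159_1_0, e0, s1]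
                · linarith only [c159_2_0, e1]
                · linarith only [C.f11_0, C.o0, c0_0_1, c159_3_0, s1]
                · linarith only [C.b5, C.f11_2, C.f33_4, C.o1, c143_1_1, c159_4_0, c1_4_0, c2_1_1, s2]
                · rcases c0_11_33_33_k3_k_p11_13B C with c160_0_0 | c160_1_0 | c160_2_0 | c160_3_0 | c160_4_0 | c160_5_0
                  · linarith only [c160_0_0, e0]
                  · linarith only [C.o0, c160_1_0, e0]
                  · linarith only [C.f11_0, C.f33_1, C.o0, C.o2, c160_2_0, e0, s1]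
                  · rcases c0_11_33_33_k3_k_tmzp C with c164_0_0 | c164_1_0 | c164_2_0 | c164_3_0 | c164_4_0 | c164_5_0
                    · linarith only [C.f11_0, C.f33_0, C.o0, c164_0_0, s1]
                    · linarith only [c142_0_0, c164_1_0]
                    · linarith only [C.b5, C.f11_2, C.f33_4, C.o1, c157_1_1, c159_5_0, c164_2_0, c1_4_0, c2_1_1, s2]
                    · linarith only [c164_3_0, e0]
                    · linarith only [c164_4_0, c3_1_1]
                    · rcases c0_11_33_33_k3_k_tmpp C with c165_0_0 | c165_1_0 | c165_2_0 | c165_3_0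
                      · linarith only [C.f11_0, C.f33_0, C.o0, c165_0_0, s1]
                      · rcases c0_11_33_33_k3_k_f22_2 C with ⟨c166_0_0, c166_0_1⟩ | ⟨c166_1_0, c166_1_1⟩
                        · linarith only [C.f11_0, C.f22_1, C.f33_0, C.o0, C.o1, c165_1_0, c166_0_1, s1]
                        · rcases c0_11_33_33_k3_k_f22_5 C with ⟨c167_0_0, c167_0_1⟩ | ⟨c167_1_0, c167_1_1⟩
                          · linarith only [C.f11_0, C.f13_0, C.f13_3, C.f22_4, C.f33_1, C.o0, C.o2, c143_1_1, c166_1_1, c167_0_1, s1]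
                          · rcases c0_11_33_33_k3_k_f23_3 C with ⟨c168_0_0, c168_0_1⟩ | ⟨c168_1_0, c168_1_1⟩ | ⟨c168_2_0, c168_2_1⟩
                            · linarith only [C.f11_0, C.f23_1, C.f33_0, C.o0, c165_1_0, c168_0_1, s1]
                            · rcases c0_11_33_33_k3_k_f23_7 C with ⟨c169_0_0, c169_0_1⟩ | ⟨c169_1_0, c169_1_1⟩ | ⟨c169_2_0, c169_2_1⟩
                              · linarith only [C.f11_0, C.f13_0, C.f13_3, C.f23_5, C.f33_1, C.o0, C.o2, c143_1_1, c168_1_1, c169_0_1, s1]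
                              · rcases c0_11_33_33_k3_k_p11_22B C with c170_0_0 | c170_1_0 | c170_2_0 | c170_3_0 | c170_4_0
                                · linarith only [c170_0_0, e0]
                                · linarith only [C.b2, c170_1_0, e0]
                                · rcases c0_11_33_33_k3_k_f23_10 C with ⟨c171_0_0, c171_0_1⟩ | ⟨c171_1_0, c171_1_1⟩
                                  · linarith only [C.b5, C.f11_0, C.f23_9, C.o0, c142_0_0, c166_1_1, c169_1_1, c170_2_0, c171_0_1]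
                                  · rcases c0_11_33_33_k3_k_p11_23B C with c172_0_0 | c172_1_0 | c172_2_0 | c172_3_0 | c172_4_0 | c172_5_0
                                    · linarith only [c172_0_0, e0]
                                    · linarith only [C.o0, c142_0_0, c172_1_0, e0]
                                    · linarith only [C.f11_0, C.f33_1, C.o0, C.o2, c172_2_0, e0, s1]
                                    · linarith only [C.f11_0, C.o0, c142_0_0, c168_1_1, c172_3_0]
                                    · linarith only [C.f11_0, C.f11_1, C.f11_2, C.f13_0, C.f13_3, C.f33_1, C.f33_7, C.o1, c143_1_1, c160_3_0, c164_5_0, c165_1_0, c169_1_1, c172_4_0, s1, s3]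
                                    · linarith only [C.b5, C.f11_0, C.f11_1, C.f11_2, C.f13_0, C.f13_3, C.f33_1, C.f33_7, C.o0, c143_1_1, c166_1_1, c170_2_0, c171_1_1, c172_5_0, s1, s3]
                                · linarith only [C.f11_0, C.f11_1, C.f11_2, C.f13_0, C.f13_3, C.f33_1, C.f33_7, C.o1, c143_1_1, c160_3_0, c164_5_0, c165_1_0, c167_1_1, c170_3_0, s1, s3]
                                · linarith only [C.b5, C.f11_0, C.f11_1, C.f11_2, C.f13_0, C.f13_3, C.f22_6, C.f33_1, C.f33_7, C.o1, c143_1_1, c160_3_0, c165_1_0, c167_1_1, c170_4_0, s1, s3]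
                              · linarith only [C.f11_0, C.f23_5, C.f33_1, C.o0, C.o2, c165_1_0, c169_2_1, s1]
                            · linarith only [C.f11_0, C.f23_1, C.f33_1, C.o0, C.o2, c165_1_0, c168_2_1, s1]
                      · linarith only [c165_2_0, e0]
                      · linarith only [C.f11_0, C.f11_1, C.f11_2, C.f13_3, C.f33_4, C.f33_7, C.o1, c143_1_1, c160_3_0, c164_5_0, c165_3_0, s2, s3]
                  · linarith only [C.f11_0, C.f11_1, C.f33_4, C.o1, C.o2, c143_1_1, c160_4_0, c3_1_1, s2]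
                  · linarith only [C.f33_7, c157_1_1, c159_5_0, c160_5_0, s3]
          · rcases c0_11_33_33_k3_k_f13_5 C with ⟨c173_0_0, c173_0_1⟩ | ⟨c173_1_0, c173_1_1⟩
            · rcases c0_11_33_33_k3_k_f13_8 C with ⟨c174_0_0, c174_0_1⟩ | ⟨c174_1_0, c174_1_1⟩
              · linarith only [C.a3, C.f13_7, C.o1, c0_0_1, c142_1_1, c173_0_1, c174_0_1]
              · rcases c0_11_33_33_k3_k_p11_13B C with c175_0_0 | c175_1_0 | c175_2_0 | c175_3_0 | c175_4_0 | c175_5_0
                · linarith only [c175_0_0, e0]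
                · linarith only [C.o0, c175_1_0, e0]
                · linarith only [C.o2, c175_2_0, e1]
                · rcases c0_11_33_33_k3_k_p13_33A C with c176_0_0 | c176_1_0 | c176_2_0 | c176_3_0 | c176_4_0 | c176_5_0
                  · linarith only [C.o0, c176_0_0, e0]
                  · linarith only [C.f11_0, C.f33_1, C.o0, C.o2, c176_1_0, e0, s1]
                  · linarith only [c176_2_0, e1]
                  · linarith only [C.f11_0, C.o0, c0_0_1, c176_3_0, s1]
                  · linarith only [C.a3, C.f11_0, C.f11_1, C.o0, c0_0_1, c173_0_1, c176_4_0, s2]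
                  · rcases c0_11_33_33_k3_k_tmzp C with c178_0_0 | c178_1_0 | c178_2_0 | c178_3_0 | c178_4_0 | c178_5_0
                    · linarith only [C.f11_0, C.f33_0, C.o0, c178_0_0, s1]
                    · rcases c0_11_33_33_k3_k_f22_2 C with ⟨c179_0_0, c179_0_1⟩ | ⟨c179_1_0, c179_1_1⟩
                      · linarith only [C.f11_0, C.f22_1, C.f33_0, C.o0, C.o1, c178_1_0, c179_0_1, s1]
                      · rcases c0_11_33_33_k3_k_f22_5 C with ⟨c180_0_0, c180_0_1⟩ | ⟨c180_1_0, c180_1_1⟩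
                        · linarith only [C.f22_4, c142_1_0, c179_1_1, c180_0_1, c3_1_1]
                        · rcases c0_11_33_33_k3_k_p22_33A C with c190_0_0 | c190_1_0 | c190_2_0 | c190_3_0 | c190_4_0
                          · linarith only [c142_1_0, c190_0_0, e0]
                          · linarith only [c190_1_0, e1]
                          · linarith only [c0_0_1, c142_1_0, c175_3_0, c179_1_1, c190_2_0, s1]
                          · rcases c0_11_33_33_k3_k_f33_5 C with ⟨c191_0_0, c191_0_1⟩ | ⟨c191_1_0, c191_1_1⟩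
                            · linarith only [C.a3, c0_0_1, c142_1_0, c175_3_0, c178_1_0, c180_1_1, c190_3_0, c191_0_1, s1]
                            · linarith only [C.f33_1, c0_0_1, c142_1_0, c175_3_0, c178_1_0, c180_1_1, c190_3_0, c191_1_1, s1]
                          · linarith only [C.f22_6, C.o2, c142_1_1, c180_1_1, c190_4_0, c2_1_1]
                    · linarith only [C.f11_2, C.f33_4, C.o1, c142_1_1, c174_1_1, c176_5_0, c178_2_0, c1_4_0, c2_1_1, s2]
                    · linarith only [c178_3_0, e0]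
                    · linarith only [c178_4_0, c3_1_1]
                    · linarith only [c142_1_1, c178_5_0]
                · linarith only [C.f11_0, C.f11_1, C.o0, c0_0_1, c173_0_1, c175_4_0, c3_1_1]
                · linarith only [C.f11_0, C.f11_1, C.f11_2, c142_1_1, c174_1_1, c175_5_0, c3_1_1]
            · rcases c0_11_33_33_k3_k_f13_8 C with ⟨c192_0_0, c192_0_1⟩ | ⟨c192_1_0, c192_1_1⟩
              · linarith only [C.a4, C.f13_7, C.o1, C.o2, c142_1_1, c173_1_1, c192_0_1]
              · rcases c0_11_33_33_k3_k_p11_13B C with c194_0_0 | c194_1_0 | c194_2_0 | c194_3_0 | c194_4_0 | c194_5_0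
                · linarith only [c194_0_0, e0]
                · linarith only [C.o0, c194_1_0, e0]
                · linarith only [C.o2, c194_2_0, e1]
                · rcases c0_11_33_33_k3_k_p13_33A C with c197_0_0 | c197_1_0 | c197_2_0 | c197_3_0 | c197_4_0 | c197_5_0
                  · linarith only [C.o0, c197_0_0, e0]
                  · linarith only [C.f11_0, C.f33_1, C.o0, C.o2, c197_1_0, e0, s1]
                  · linarith only [c197_2_0, e1]
                  · linarith only [C.f11_0, C.o0, c0_0_1, c197_3_0, s1]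
                  · linarith only [C.f11_2, C.f33_4, C.o1, c142_1_1, c173_1_1, c197_4_0, c1_4_0, c2_1_1, s2]
                  · rcases c0_11_33_33_k3_k_tmzp C with c199_0_0 | c199_1_0 | c199_2_0 | c199_3_0 | c199_4_0 | c199_5_0
                    · linarith only [C.f11_0, C.f33_0, C.o0, c199_0_0, s1]
                    · linarith only [C.f11_0, C.f11_1, C.f11_2, C.f13_0, C.f13_3, C.f33_1, C.o1, c142_1_1, c173_1_1, c194_3_0, c199_1_0, c1_4_0, c2_1_1, s1]
                    · linarith only [C.f11_2, C.f33_4, C.o1, c142_1_1, c192_1_1, c197_5_0, c199_2_0, c1_4_0, c2_1_1, s2]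
                    · linarith only [c199_3_0, e0]
                    · linarith only [c199_4_0, c3_1_1]
                    · linarith only [c142_1_1, c199_5_0]
                · linarith only [C.f11_0, C.f11_1, C.f33_4, C.o1, C.o2, c173_1_1, c194_4_0, c3_1_1, s2]
                · linarith only [C.f11_0, C.f11_1, C.f11_2, c142_1_1, c192_1_1, c194_5_0, c3_1_1]
  · linarith only [C.f11_0, C.f13_0, C.f33_1, C.o0, C.o2, c0_1_1, s1]

end Pool.Agent.Helper24.TQ
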