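import Pool.Agent.Helper89.TQ.Ctx

set_option autoImplicit false
set_option linter.all false
set_option maxHeartbeats 4000000

namespace Pool.Agent.Helper24.TQ

open Pool.Agent.Helper89.TQ

theorem c0_13_22_33_k2_k_t12 {n1 n2 n3 A1 A2 A3 B1 B2 B3 m11_1 m11_2 m11_3 m13_1 m13_2 m13_3 m22_1 m22_2 m22_3 m23_1 m23_2 m23_3 m33_1 m33_2 m33_3 : ℤ} (C : Ctx0 n1 n2 n3 A1 A2 A3 B1 B2 B3 m11_1 m11_2 m11_3 m13_1 m13_2 m13_3 m22_1 m22_2 m22_3 m23_1 m23_2 m23_3 m33_1 m33_2 m33_3) :
    ((-1) * A1 ≤ -1 ∧ (-1) * A1 + 1 * A2 + (-1) * n2 ≤ -1) ∨ ((-1) * B1 ≤ -1 ∧ (-1) * B1 + 1 * B2 + (-1) * n2 ≤ -1) := by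
  have h := C.t12
  clear C
  omega

theorem c0_13_22_33_k2_k_t23 {n1 n2 n3 A1 A2 A3 B1 B2 B3 m11_1 m11_2 m11_3 m13_1 m13_2 m13_3 m22_1 m22_2 m22_3 m23_1 m23_2 m23_3 m33_1 m33_2 m33_3 : ℤ} (C : Ctx0 n1 n2 n3 A1 A2 A3 B1 B2 B3 m11_1 m11_2 m11_3 m13_1 m13_2 m13_3 m22_1 m22_2 m22_3 m23_1 m23_2 m23_3 m33_1 m33_2 m33_3) :
    (1 * A1 + (-1) * A2 ≤ -1 ∧ (-1) * A2 + 1 * A3 + (-1) * n3 ≤ -1) ∨ (1 * B1 + (-1) * B2 ≤ -1 ∧ (-1) * B2 + 1 * B3 + (-1) * n3 ≤ -1) := by
  have h := C.t23
  clear C
  omega

theorem c0_13_22_33_k2_k_f13_2 {n1 n2 n3 A1 A2 A3 B1 B2 B3 m11_1 m11_2 m11_3 m13_1 m13_2 m13_3 m22_1 m22_2 m22_3 m23_1 m23_2 m23_3 m33_1 m33_2 m33_3 : ℤ} (C : Ctx0 n1 n2 n3 A1 A2 A3 B1 B2 B3 m11_1 m11_2 m11_3 m13_1 m13_2 m13_3 m22_1 m22_2 m22_3 m23_1 m23_2 m23_3 m33_1 m33_2 m33_3) :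
    ((-1) * A1 + 1 * m13_1 ≤ -1 ∧ 1 * A1 + (-1) * m13_1 ≤ 1) ∨ ((-1) * B3 + 1 * m13_1 ≤ -1 ∧ 1 * B3 + (-1) * m13_1 ≤ 1) := by
  have h := C.f13_2
  clear C
  omega

theorem c0_13_22_33_k2_k_f13_5 {n1 n2 n3 A1 A2 A3 B1 B2 B3 m11_1 m11_2 m11_3 m13_1 m13_2 m13_3 m22_1 m22_2 m22_3 m23_1 m23_2 m23_3 m33_1 m33_2 m33_3 : ℤ} (C : Ctx0 n1 n2 n3 A1 A2 A3 B1 B2 B3 m11_1 m11_2 m11_3 m13_1 m13_2 m13_3 m22_1 m22_2 m22_3 m23_1 m23_2 m23_3 m33_1 m33_2 m33_3) :
    ((-1) * m13_1 + 1 * m13_2 + (-1) * n2 ≤ 0 ∧ 1 * m13_1 + (-1) * m13_2 + 1 * n2 ≤ 0) ∨ ((-1) * B3 + 1 * m13_2 ≤ -1 ∧ 1 * B3 + (-1) * m13_2 ≤ 1) := by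
  have h := C.f13_5
  clear C
  omega

theorem c0_13_22_33_k2_k_f13_8 {n1 n2 n3 A1 A2 A3 B1 B2 B3 m11_1 m11_2 m11_3 m13_1 m13_2 m13_3 m22_1 m22_2 m22_3 m23_1 m23_2 m23_3 m33_1 m33_2 m33_3 : ℤ} (C : Ctx0 n1 n2 n3 A1 A2 A3 B1 B2 B3 m11_1 m11_2 m11_3 m13_1 m13_2 m13_3 m22_1 m22_2 m22_3 m23_1 m23_2 m23_3 m33_1 m33_2 m33_3) :
    ((-1) * m13_2 + 1 * m13_3 + (-1) * n3 ≤ 0 ∧ 1 * m13_2 + (-1) * m13_3 + 1 * n3 ≤ 0) ∨ ((-1) * B3 + 1 * m13_3 ≤ -1 ∧ 1 * B3 + (-1) * m13_3 ≤ 1) := by
  have h := C.f13_8
  clear C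
  omega

theorem c0_13_22_33_k2_k_f22_2 {n1 n2 n3 A1 A2 A3 B1 B2 B3 m11_1 m11_2 m11_3 m13_1 m13_2 m13_3 m22_1 m22_2 m22_3 m23_1 m23_2 m23_3 m33_1 m33_2 m33_3 : ℤ} (C : Ctx0 n1 n2 n3 A1 A2 A3 B1 B2 B3 m11_1 m11_2 m11_3 m13_1 m13_2 m13_3 m22_1 m22_2 m22_3 m23_1 m23_2 m23_3 m33_1 m33_2 m33_3) :
    (1 * m22_1 + (-1) * n1 ≤ 0 ∧ (-1) * m22_1 + 1 * n1 ≤ 0) ∨ ((-1) * B2 + 1 * m22_1 ≤ -1 ∧ 1 * B2 + (-1) * m22_1 ≤ 1) := by
  have h := C.f22_2
  clear C
  omega

theorem c0_13_22_33_k2_k_f22_5 {n1 n2 n3 A1 A2 A3 B1 B2 B3 m11_1 m11_2 m11_3 m13_1 m13_2 m13_3 m22_1 m22_2 m22_3 m23_1 m23_2 m23_3 m33_1 m33_2 m33_3 : ℤ} (C : Ctx0 n1 n2 n3 A1 A2 A3 B1 B2 B3 m11_1 m11_2 m11_3 m13_1 m13_2 m13_3 m22_1 m22_2 m22_3 m23_1 m23_2 m23_3 m33_1 m33_2 m33_3) :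
    ((-1) * m22_1 + 1 * m22_2 + (-1) * n2 ≤ 0 ∧ 1 * m22_1 + (-1) * m22_2 + 1 * n2 ≤ 0) ∨ ((-1) * B2 + 1 * m22_2 ≤ -1 ∧ 1 * B2 + (-1) * m22_2 ≤ 1) := by
  have h := C.f22_5
  clear C
  omega

theorem c0_13_22_33_k2_k_f23_3 {n1 n2 n3 A1 A2 A3 B1 B2 B3 m11_1 m11_2 m11_3 m13_1 m13_2 m13_3 m22_1 m22_2 m22_3 m23_1 m23_2 m23_3 m33_1 m33_2 m33_3 : ℤ} (C : Ctx0 n1 n2 n3 A1 A2 A3 B1 B2 B3 m11_1 m11_2 m11_3 m13_1 m13_2 m13_3 m22_1 m22_2 m22_3 m23_1 m23_2 m23_3 m33_1 m33_2 m33_3) :
    (1 * m23_1 + (-1) * n1 ≤ 0 ∧ (-1) * m23_1 + 1 * n1 ≤ 0) ∨ ((-1) * A2 + 1 * m23_1 ≤ -1 ∧ 1 * A2 + (-1) * m23_1 ≤ 1) ∨ ((-1) * B3 + 1 * m23_1 ≤ -1 ∧ 1 * B3 + (-1) * m23_1 ≤ 1) := by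
  have h := C.f23_3
  clear C
  omega

theorem c0_13_22_33_k2_k_f23_7 {n1 n2 n3 A1 A2 A3 B1 B2 B3 m11_1 m11_2 m11_3 m13_1 m13_2 m13_3 m22_1 m22_2 m22_3 m23_1 m23_2 m23_3 m33_1 m33_2 m33_3 : ℤ} (C : Ctx0 n1 n2 n3 A1 A2 A3 B1 B2 B3 m11_1 m11_2 m11_3 m13_1 m13_2 m13_3 m22_1 m22_2 m22_3 m23_1 m23_2 m23_3 m33_1 m33_2 m33_3) :
    ((-1) * m23_1 + 1 * m23_2 + (-1) * n2 ≤ 0 ∧ 1 * m23_1 + (-1) * m23_2 + 1 * n2 ≤ 0) ∨ ((-1) * A2 + 1 * m23_2 ≤ -1 ∧ 1 * A2 + (-1) * m23_2 ≤ 1) ∨ ((-1) * B3 + 1 * m23_2 ≤ -1 ∧ 1 * B3 + (-1) * m23_2 ≤ 1) := by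
  have h := C.f23_7
  clear C
  omega

theorem c0_13_22_33_k2_k_f23_10 {n1 n2 n3 A1 A2 A3 B1 B2 B3 m11_1 m11_2 m11_3 m13_1 m13_2 m13_3 m22_1 m22_2 m22_3 m23_1 m23_2 m23_3 m33_1 m33_2 m33_3 : ℤ} (C : Ctx0 n1 n2 n3 A1 A2 A3 B1 B2 B3 m11_1 m11_2 m11_3 m13_1 m13_2 m13_3 m22_1 m22_2 m22_3 m23_1 m23_2 m23_3 m33_1 m33_2 m33_3) :
    ((-1) * m23_2 + 1 * m23_3 + (-1) * n3 ≤ 0 ∧ 1 * m23_2 + (-1) * m23_3 + 1 * n3 ≤ 0) ∨ ((-1) * B3 + 1 * m23_3 ≤ -1 ∧ 1 * B3 + (-1) * m23_3 ≤ 1) := by
  have h := C.f23_10
  clear C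
  omega

theorem c0_13_22_33_k2_k_f33_2 {n1 n2 n3 A1 A2 A3 B1 B2 B3 m11_1 m11_2 m11_3 m13_1 m13_2 m13_3 m22_1 m22_2 m22_3 m23_1 m23_2 m23_3 m33_1 m33_2 m33_3 : ℤ} (C : Ctx0 n1 n2 n3 A1 A2 A3 B1 B2 B3 m11_1 m11_2 m11_3 m13_1 m13_2 m13_3 m22_1 m22_2 m22_3 m23_1 m23_2 m23_3 m33_1 m33_2 m33_3) :
    (1 * m33_1 + (-1) * n1 ≤ 0 ∧ (-1) * m33_1 + 1 * n1 ≤ 0) ∨ ((-1) * A3 + 1 * m33_1 ≤ -1 ∧ 1 * A3 + (-1) * m33_1 ≤ 1) := by
  have h := C.f33_2
  clear C
  omega

theorem c0_13_22_33_k2_k_f33_5 {n1 n2 n3 A1 A2 A3 B1 B2 B3 m11_1 m11_2 m11_3 m13_1 m13_2 m13_3 m22_1 m22_2 m22_3 m23_1 m23_2 m23_3 m33_1 m33_2 m33_3 : ℤ} (C : Ctx0 n1 n2 n3 A1 A2 A3 B1 B2 B3 m11_1 m11_2 m11_3 m13_1 m13_2 m13_3 m22_1 m22_2 m22_3 m23_1 m23_2 m23_3 m33_1 m33_2 m33_3) :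
    ((-1) * m33_1 + 1 * m33_2 + (-1) * n2 ≤ 0 ∧ 1 * m33_1 + (-1) * m33_2 + 1 * n2 ≤ 0) ∨ ((-1) * A3 + 1 * m33_2 ≤ -1 ∧ 1 * A3 + (-1) * m33_2 ≤ 1) := by
  have h := C.f33_5
  clear C
  omega

theorem c0_13_22_33_k2_k_f33_8 {n1 n2 n3 A1 A2 A3 B1 B2 B3 m11_1 m11_2 m11_3 m13_1 m13_2 m13_3 m22_1 m22_2 m22_3 m23_1 m23_2 m23_3 m33_1 m33_2 m33_3 : ℤ} (C : Ctx0 n1 n2 n3 A1 A2 A3 B1 B2 B3 m11_1 m11_2 m11_3 m13_1 m13_2 m13_3 m22_1 m22_2 m22_3 m23_1 m23_2 m23_3 m33_1 m33_2 m33_3) :
    ((-1) * m33_2 + 1 * m33_3 + (-1) * n3 ≤ 0 ∧ 1 * m33_2 + (-1) * m33_3 + 1 * n3 ≤ 0) ∨ ((-1) * A3 + 1 * m33_3 ≤ -1 ∧ 1 * A3 + (-1) * m33_3 ≤ 1) := by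
  have h := C.f33_8
  clear C
  omega

theorem c0_13_22_33_k2_k_p11_13B {n1 n2 n3 A1 A2 A3 B1 B2 B3 m11_1 m11_2 m11_3 m13_1 m13_2 m13_3 m22_1 m22_2 m22_3 m23_1 m23_2 m23_3 m33_1 m33_2 m33_3 : ℤ} (C : Ctx0 n1 n2 n3 A1 A2 A3 B1 B2 B3 m11_1 m11_2 m11_3 m13_1 m13_2 m13_3 m22_1 m22_2 m22_3 m23_1 m23_2 m23_3 m33_1 m33_2 m33_3) :
    (1 * B1 ≤ 0) ∨ (1 * A1 ≤ 0) ∨ (1 * B3 ≤ 0) ∨ ((-2) * B1 + 1 * m11_1 + 1 * m13_1 ≤ -1) ∨ ((-2) * B2 + 1 * m11_2 + 1 * m13_2 ≤ -1) ∨ ((-2) * B3 + 1 * m11_3 + 1 * m13_3 ≤ -1) := by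
  have h := C.p11_13B
  clear C
  omega

theorem c0_13_22_33_k2_k_p11_22B {n1 n2 n3 A1 A2 A3 B1 B2 B3 m11_1 m11_2 m11_3 m13_1 m13_2 m13_3 m22_1 m22_2 m22_3 m23_1 m23_2 m23_3 m33_1 m33_2 m33_3 : ℤ} (C : Ctx0 n1 n2 n3 A1 A2 A3 B1 B2 B3 m11_1 m11_2 m11_3 m13_1 m13_2 m13_3 m22_1 m22_2 m22_3 m23_1 m23_2 m23_3 m33_1 m33_2 m33_3) :
    (1 * B1 ≤ 0) ∨ (1 * B2 ≤ 0) ∨ ((-2) * B1 + 1 * m11_1 + 1 * m22_1 ≤ -1) ∨ ((-2) * B2 + 1 * m11_2 + 1 * m22_2 ≤ -1) ∨ ((-2) * B3 + 1 * m11_3 + 1 * m22_3 ≤ -1) := by
  have h := C.p11_22B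
  clear C
  omega

theorem c0_13_22_33_k2_k_p11_23B {n1 n2 n3 A1 A2 A3 B1 B2 B3 m11_1 m11_2 m11_3 m13_1 m13_2 m13_3 m22_1 m22_2 m22_3 m23_1 m23_2 m23_3 m33_1 m33_2 m33_3 : ℤ} (C : Ctx0 n1 n2 n3 A1 A2 A3 B1 B2 B3 m11_1 m11_2 m11_3 m13_1 m13_2 m13_3 m22_1 m22_2 m22_3 m23_1 m23_2 m23_3 m33_1 m33_2 m33_3) :
    (1 * B1 ≤ 0) ∨ (1 * A2 ≤ 0) ∨ (1 * B3 ≤ 0) ∨ ((-2) * B1 + 1 * m11_1 + 1 * m23_1 ≤ -1) ∨ ((-2) * B2 + 1 * m11_2 + 1 * m23_2 ≤ -1) ∨ ((-2) * B3 + 1 * m11_3 + 1 * m23_3 ≤ -1) := by
  have h := C.p11_23B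
  clear C
  omega

theorem c0_13_22_33_k2_k_p11_33A {n1 n2 n3 A1 A2 A3 B1 B2 B3 m11_1 m11_2 m11_3 m13_1 m13_2 m13_3 m22_1 m22_2 m22_3 m23_1 m23_2 m23_3 m33_1 m33_2 m33_3 : ℤ} (C : Ctx0 n1 n2 n3 A1 A2 A3 B1 B2 B3 m11_1 m11_2 m11_3 m13_1 m13_2 m13_3 m22_1 m22_2 m22_3 m23_1 m23_2 m23_3 m33_1 m33_2 m33_3) :
    (1 * B1 ≤ 0) ∨ (1 * A3 ≤ 0) ∨ ((-2) * A1 + 1 * m11_1 + 1 * m33_1 ≤ -1) ∨ ((-2) * A2 + 1 * m11_2 + 1 * m33_2 ≤ -1) ∨ ((-2) * A3 + 1 * m11_3 + 1 * m33_3 ≤ -1) := by
  have h := C.p11_33A
  clear C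
  omega

theorem c0_13_22_33_k2_k_p11_33B {n1 n2 n3 A1 A2 A3 B1 B2 B3 m11_1 m11_2 m11_3 m13_1 m13_2 m13_3 m22_1 m22_2 m22_3 m23_1 m23_2 m23_3 m33_1 m33_2 m33_3 : ℤ} (C : Ctx0 n1 n2 n3 A1 A2 A3 B1 B2 B3 m11_1 m11_2 m11_3 m13_1 m13_2 m13_3 m22_1 m22_2 m22_3 m23_1 m23_2 m23_3 m33_1 m33_2 m33_3) :
    (1 * B1 ≤ 0) ∨ (1 * A3 ≤ 0) ∨ ((-2) * B1 + 1 * m11_1 + 1 * m33_1 ≤ -1) ∨ ((-2) * B2 + 1 * m11_2 + 1 * m33_2 ≤ -1) ∨ ((-2) * B3 + 1 * m11_3 + 1 * m33_3 ≤ -1) := by
  have h := C.p11_33B
  clear C
  omega

theorem c0_13_22_33_k2_k_p13_22A {n1 n2 n3 A1 A2 A3 B1 B2 B3 m11_1 m11_2 m11_3 m13_1 m13_2 m13_3 m22_1 m22_2 m22_3 m23_1 m23_2 m23_3 m33_1 m33_2 m33_3 : ℤ} (C : Ctx0 n1 n2 n3 A1 A2 A3 B1 B2 B3 m11_1 m11_2 m11_3 m13_1 m13_2 m13_3 m22_1 m22_2 m22_3 m23_1 m23_2 m23_3 m33_1 m33_2 m33_3) :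
    (1 * A1 ≤ 0) ∨ (1 * B3 ≤ 0) ∨ (1 * B2 ≤ 0) ∨ ((-2) * A1 + 1 * m13_1 + 1 * m22_1 ≤ -1) ∨ ((-2) * A2 + 1 * m13_2 + 1 * m22_2 ≤ -1) ∨ ((-2) * A3 + 1 * m13_3 + 1 * m22_3 ≤ -1) := by
  have h := C.p13_22A
  clear C
  omega

theorem c0_13_22_33_k2_k_p13_22B {n1 n2 n3 A1 A2 A3 B1 B2 B3 m11_1 m11_2 m11_3 m13_1 m13_2 m13_3 m22_1 m22_2 m22_3 m23_1 m23_2 m23_3 m33_1 m33_2 m33_3 : ℤ} (C : Ctx0 n1 n2 n3 A1 A2 A3 B1 B2 B3 m11_1 m11_2 m11_3 m13_1 m13_2 m13_3 m22_1 m22_2 m22_3 m23_1 m23_2 m23_3 m33_1 m33_2 m33_3) :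
    (1 * A1 ≤ 0) ∨ (1 * B3 ≤ 0) ∨ (1 * B2 ≤ 0) ∨ ((-2) * B1 + 1 * m13_1 + 1 * m22_1 ≤ -1) ∨ ((-2) * B2 + 1 * m13_2 + 1 * m22_2 ≤ -1) ∨ ((-2) * B3 + 1 * m13_3 + 1 * m22_3 ≤ -1) := by
  have h := C.p13_22B
  clear C
  omega

theorem c0_13_22_33_k2_k_p13_23A {n1 n2 n3 A1 A2 A3 B1 B2 B3 m11_1 m11_2 m11_3 m13_1 m13_2 m13_3 m22_1 m22_2 m22_3 m23_1 m23_2 m23_3 m33_1 m33_2 m33_3 : ℤ} (C : Ctx0 n1 n2 n3 A1 A2 A3 B1 B2 B3 m11_1 m11_2 m11_3 m13_1 m13_2 m13_3 m22_1 m22_2 m22_3 m23_1 m23_2 m23_3 m33_1 m33_2 m33_3) :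
    (1 * A1 ≤ 0) ∨ (1 * B3 ≤ 0) ∨ (1 * A2 ≤ 0) ∨ ((-2) * A1 + 1 * m13_1 + 1 * m23_1 ≤ -1) ∨ ((-2) * A2 + 1 * m13_2 + 1 * m23_2 ≤ -1) ∨ ((-2) * A3 + 1 * m13_3 + 1 * m23_3 ≤ -1) := by
  have h := C.p13_23A
  clear C
  omega

theorem c0_13_22_33_k2_k_p13_33A {n1 n2 n3 A1 A2 A3 B1 B2 B3 m11_1 m11_2 m11_3 m13_1 m13_2 m13_3 m22_1 m22_2 m22_3 m23_1 m23_2 m23_3 m33_1 m33_2 m33_3 : ℤ} (C : Ctx0 n1 n2 n3 A1 A2 A3 B1 B2 B3 m11_1 m11_2 m11_3 m13_1 m13_2 m13_3 m22_1 m22_2 m22_3 m23_1 m23_2 m23_3 m33_1 m33_2 m33_3) :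
    (1 * A1 ≤ 0) ∨ (1 * B3 ≤ 0) ∨ (1 * A3 ≤ 0) ∨ ((-2) * A1 + 1 * m13_1 + 1 * m33_1 ≤ -1) ∨ ((-2) * A2 + 1 * m13_2 + 1 * m33_2 ≤ -1) ∨ ((-2) * A3 + 1 * m13_3 + 1 * m33_3 ≤ -1) := by
  have h := C.p13_33A
  clear C
  omega

theorem c0_13_22_33_k2_k_p22_23B {n1 n2 n3 A1 A2 A3 B1 B2 B3 m11_1 m11_2 m11_3 m13_1 m13_2 m13_3 m22_1 m22_2 m22_3 m23_1 m23_2 m23_3 m33_1 m33_2 m33_3 : ℤ} (C : Ctx0 n1 n2 n3 A1 A2 A3 B1 B2 B3 m11_1 m11_2 m11_3 m13_1 m13_2 m13_3 m22_1 m22_2 m22_3 m23_1 m23_2 m23_3 m33_1 m33_2 m33_3) :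
    (1 * B2 ≤ 0) ∨ (1 * A2 ≤ 0) ∨ (1 * B3 ≤ 0) ∨ ((-2) * B1 + 1 * m22_1 + 1 * m23_1 ≤ -1) ∨ ((-2) * B2 + 1 * m22_2 + 1 * m23_2 ≤ -1) ∨ ((-2) * B3 + 1 * m22_3 + 1 * m23_3 ≤ -1) := by
  have h := C.p22_23B
  clear C
  omega

theorem c0_13_22_33_k2_k_p22_33A {n1 n2 n3 A1 A2 A3 B1 B2 B3 m11_1 m11_2 m11_3 m13_1 m13_2 m13_3 m22_1 m22_2 m22_3 m23_1 m23_2 m23_3 m33_1 m33_2 m33_3 : ℤ} (C : Ctx0 n1 n2 n3 A1 A2 A3 B1 B2 B3 m11_1 m11_2 m11_3 m13_1 m13_2 m13_3 m22_1 m22_2 m22_3 m23_1 m23_2 m23_3 m33_1 m33_2 m33_3) :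
    (1 * B2 ≤ 0) ∨ (1 * A3 ≤ 0) ∨ ((-2) * A1 + 1 * m22_1 + 1 * m33_1 ≤ -1) ∨ ((-2) * A2 + 1 * m22_2 + 1 * m33_2 ≤ -1) ∨ ((-2) * A3 + 1 * m22_3 + 1 * m33_3 ≤ -1) := by
  have h := C.p22_33A
  clear C
  omega

theorem c0_13_22_33_k2_k_p23_33A {n1 n2 n3 A1 A2 A3 B1 B2 B3 m11_1 m11_2 m11_3 m13_1 m13_2 m13_3 m22_1 m22_2 m22_3 m23_1 m23_2 m23_3 m33_1 m33_2 m33_3 : ℤ} (C : Ctx0 n1 n2 n3 A1 A2 A3 B1 B2 B3 m11_1 m11_2 m11_3 m13_1 m13_2 m13_3 m22_1 m22_2 m22_3 m23_1 m23_2 m23_3 m33_1 m33_2 m33_3) :
    (1 * A2 ≤ 0) ∨ (1 * B3 ≤ 0) ∨ (1 * A3 ≤ 0) ∨ ((-2) * A1 + 1 * m23_1 + 1 * m33_1 ≤ -1) ∨ ((-2) * A2 + 1 * m23_2 + 1 * m33_2 ≤ -1) ∨ ((-2) * A3 + 1 * m23_3 + 1 * m33_3 ≤ -1) := by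
  have h := C.p23_33A
  clear C
  omega

theorem c0_13_22_33_k2_k_tmzp {n1 n2 n3 A1 A2 A3 B1 B2 B3 m11_1 m11_2 m11_3 m13_1 m13_2 m13_3 m22_1 m22_2 m22_3 m23_1 m23_2 m23_3 m33_1 m33_2 m33_3 : ℤ} (C : Ctx0 n1 n2 n3 A1 A2 A3 B1 B2 B3 m11_1 m11_2 m11_3 m13_1 m13_2 m13_3 m22_1 m22_2 m22_3 m23_1 m23_2 m23_3 m33_1 m33_2 m33_3) :
    ((-1) * A1 + 1 * n1 ≤ 0) ∨ ((-1) * A1 + 1 * A2 ≤ 0) ∨ ((-1) * A2 + 1 * A3 ≤ 0) ∨ (1 * B1 ≤ 0) ∨ (1 * B1 + (-1) * B2 + 1 * n2 ≤ 0) ∨ (1 * B2 + (-1) * B3 + 1 * n3 ≤ 0) := by
  have h := C.tmzp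
  clear C
  omega

theorem c0_13_22_33_k2_k_tzpm {n1 n2 n3 A1 A2 A3 B1 B2 B3 m11_1 m11_2 m11_3 m13_1 m13_2 m13_3 m22_1 m22_2 m22_3 m23_1 m23_2 m23_3 m33_1 m33_2 m33_3 : ℤ} (C : Ctx0 n1 n2 n3 A1 A2 A3 B1 B2 B3 m11_1 m11_2 m11_3 m13_1 m13_2 m13_3 m22_1 m22_2 m22_3 m23_1 m23_2 m23_3 m33_1 m33_2 m33_3) :
    ((-1) * A1 + 1 * A2 ≤ 0) ∨ (1 * A2 + (-1) * A3 + 1 * n3 ≤ 1) ∨ (1 * B1 + (-1) * B2 + 1 * n2 ≤ 0) ∨ ((-1) * B2 + 1 * B3 ≤ 1) ∨ ((-1) * A2 + 1 * B2 ≤ -1 ∧ (-1) * A3 + 1 * B3 ≤ 1) := by
  have h := C.tzpm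
  clear C
  omega

theorem c0_13_22_33_k2_k_tpmm {n1 n2 n3 A1 A2 A3 B1 B2 B3 m11_1 m11_2 m11_3 m13_1 m13_2 m13_3 m22_1 m22_2 m22_3 m23_1 m23_2 m23_3 m33_1 m33_2 m33_3 : ℤ} (C : Ctx0 n1 n2 n3 A1 A2 A3 B1 B2 B3 m11_1 m11_2 m11_3 m13_1 m13_2 m13_3 m22_1 m22_2 m22_3 m23_1 m23_2 m23_3 m33_1 m33_2 m33_3) :
    (1 * A1 ≤ 0) ∨ (1 * A1 + (-1) * A2 + 1 * n2 ≤ 1) ∨ ((-1) * B1 + 1 * n1 ≤ 0) ∨ ((-1) * B1 + 1 * B2 ≤ 1) ∨ ((-1) * A3 + 1 * B3 ≤ 1) := by
  have h := C.tpmm
  clear C
  omega

theorem c0_13_22_33_k2 {n1 n2 n3 A1 A2 A3 B1 B2 B3 m11_1 m11_2 m11_3 m13_1 m13_2 m13_3 m22_1 m22_2 m22_3 m23_1 m23_2 m23_3 m33_1 m33_2 m33_3 : ℤ}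
    (C : Ctx0 n1 n2 n3 A1 A2 A3 B1 B2 B3 m11_1 m11_2 m11_3 m13_1 m13_2 m13_3 m22_1 m22_2 m22_3 m23_1 m23_2 m23_3 m33_1 m33_2 m33_3)
    (e0 : 0 < A1)
    (e1 : 0 < B3)
    (e2 : 0 < B2)
    (e3 : 0 < A3)
    (s1 : 2 * A1 + 1 * B1 ≤ m13_1 + m22_1 + m33_1)
    (s2 : 2 * A2 + 1 * B2 ≤ m13_2 + m22_2 + m33_2)
    (s3 : 2 * A3 + 1 * B3 ≤ m13_3 + m22_3 + m33_3) : False := by
  rcases c0_13_22_33_k2_k_f13_2 C with ⟨c0_0_0, c0_0_1⟩ | ⟨c0_1_0, c0_1_1⟩
  · rcases c0_13_22_33_k2_k_t12 C with ⟨c1_0_0, c1_0_1⟩ | ⟨c1_1_0, c1_1_1⟩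
    · rcases c0_13_22_33_k2_k_t23 C with ⟨c2_0_0, c2_0_1⟩ | ⟨c2_1_0, c2_1_1⟩
      · rcases c0_13_22_33_k2_k_f13_5 C with ⟨c3_0_0, c3_0_1⟩ | ⟨c3_1_0, c3_1_1⟩
        · rcases c0_13_22_33_k2_k_f13_8 C with ⟨c4_0_0, c4_0_1⟩ | ⟨c4_1_0, c4_1_1⟩
          · linarith only [C.b5, C.f13_7, C.o1, c0_0_1, c1_0_1, c3_0_1, c4_0_1]
          · rcases c0_13_22_33_k2_k_f22_2 C with ⟨c5_0_0, c5_0_1⟩ | ⟨c5_1_0, c5_1_1⟩
            · rcases c0_13_22_33_k2_k_f22_5 C with ⟨c6_0_0, c6_0_1⟩ | ⟨c6_1_0, c6_1_1⟩
              · linarith only [C.a1, C.f22_4, C.o1, c1_0_1, c5_0_1, c6_0_1]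
              · rcases c0_13_22_33_k2_k_f23_3 C with ⟨c7_0_0, c7_0_1⟩ | ⟨c7_1_0, c7_1_1⟩ | ⟨c7_2_0, c7_2_1⟩
                · rcases c0_13_22_33_k2_k_f23_7 C with ⟨c8_0_0, c8_0_1⟩ | ⟨c8_1_0, c8_1_1⟩ | ⟨c8_2_0, c8_2_1⟩
                  · linarith only [C.a1, C.f23_5, c1_0_1, c7_0_1, c8_0_1]
                  · rcases c0_13_22_33_k2_k_f23_10 C with ⟨c9_0_0, c9_0_1⟩ | ⟨c9_1_0, c9_1_1⟩
                    · rcases c0_13_22_33_k2_k_tpmm C with c14_0_0 | c14_1_0 | c14_2_0 | c14_3_0 | c14_4_0
                      · linarith only [c14_0_0, e0]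
                      · rcases c0_13_22_33_k2_k_f33_2 C with ⟨c15_0_0, c15_0_1⟩ | ⟨c15_1_0, c15_1_1⟩
                        · rcases c0_13_22_33_k2_k_p22_33A C with c17_0_0 | c17_1_0 | c17_2_0 | c17_3_0 | c17_4_0
                          · linarith only [c17_0_0, e2]
                          · linarith only [c17_1_0, e3]
                          · linarith only [C.a1, c15_0_1, c17_2_0, c5_0_1]
                          · linarith only [C.b5, C.f13_0, C.f13_3, C.f23_9, c14_1_0, c17_3_0, c8_1_1, c9_0_1, s2]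
                          · linarith only [C.f13_7, c17_4_0, s3]
                        · linarith only [C.f13_0, C.f13_3, C.f22_1, C.f22_4, C.f33_0, C.f33_4, C.o1, c14_1_0, c15_1_1, c5_0_1, s2]
                      · linarith only [C.a1, C.o0, c14_2_0]
                      · linarith only [C.a1, C.f22_1, C.o0, c14_3_0, c5_0_1]
                      · linarith only [C.f13_7, C.f22_4, C.f22_6, C.f23_9, C.f33_7, C.o1, c14_4_0, c8_1_1, c9_0_1, s3]
                    · rcases c0_13_22_33_k2_k_f33_2 C with ⟨c19_0_0, c19_0_1⟩ | ⟨c19_1_0, c19_1_1⟩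
                      · rcases c0_13_22_33_k2_k_p22_33A C with c21_0_0 | c21_1_0 | c21_2_0 | c21_3_0 | c21_4_0
                        · linarith only [c21_0_0, e2]
                        · linarith only [c21_1_0, e3]
                        · linarith only [C.a1, c19_0_1, c21_2_0, c5_0_1]
                        · rcases c0_13_22_33_k2_k_p13_22B C with c22_0_0 | c22_1_0 | c22_2_0 | c22_3_0 | c22_4_0 | c22_5_0
                          · linarith only [c22_0_0, e0]
                          · linarith only [c22_1_0, e1]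
                          · linarith only [c22_2_0, e2]
                          · linarith only [C.a1, C.o0, c0_0_1, c22_3_0, c5_0_1]
                          · linarith only [c21_3_0, c22_4_0, c6_1_1, s2]
                          · rcases c0_13_22_33_k2_k_p23_33A C with c25_0_0 | c25_1_0 | c25_2_0 | c25_3_0 | c25_4_0 | c25_5_0
                            · linarith only [c25_0_0, c2_0_0, e0]
                            · linarith only [c25_1_0, e1]
                            · linarith only [c25_2_0, e3]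
                            · linarith only [C.a1, c19_0_1, c25_3_0, c7_0_1]
                            · rcases c0_13_22_33_k2_k_tzpm C with c29_0_0 | c29_1_0 | c29_2_0 | c29_3_0 | ⟨c29_4_0, c29_4_1⟩
                              · linarith only [c29_0_0, c2_0_0]
                              · linarith only [C.f13_7, C.f22_4, C.f22_6, C.f33_7, C.o1, c29_1_0, s3]
                              · rcases c0_13_22_33_k2_k_tpmm C with c30_0_0 | c30_1_0 | c30_2_0 | c30_3_0 | c30_4_0
                                · linarith only [c30_0_0, e0]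
                                · linarith only [C.f13_0, C.f13_3, C.f22_4, c25_4_0, c30_1_0, c8_1_1, s2]
                                · linarith only [C.a1, C.f13_0, C.f13_3, c21_3_0, c29_2_0, c30_2_0, s2]
                                · linarith only [C.a1, C.f13_0, C.f13_3, C.f22_1, c21_3_0, c29_2_0, c30_3_0, c5_0_1, s2]
                                · linarith only [C.f33_7, c22_5_0, c30_4_0, s3]
                              · linarith only [C.f13_4, C.f22_4, C.f33_4, C.f33_7, C.o1, c22_5_0, c29_3_0, s2, s3]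
                              · linarith only [C.f33_7, c22_5_0, c29_4_1, s3]
                            · linarith only [c22_5_0, c25_5_0, c9_1_1, s3]
                        · linarith only [C.f13_7, c21_4_0, s3]
                      · rcases c0_13_22_33_k2_k_tzpm C with c41_0_0 | c41_1_0 | c41_2_0 | c41_3_0 | ⟨c41_4_0, c41_4_1⟩
                        · linarith only [c2_0_0, c41_0_0]
                        · linarith only [C.f13_4, C.f22_1, C.f22_4, C.f23_5, C.f23_8, C.f33_0, C.f33_4, C.o1, c19_1_1, c41_1_0, c5_0_1, c9_1_1, s2]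
                        · rcases c0_13_22_33_k2_k_tpmm C with c42_0_0 | c42_1_0 | c42_2_0 | c42_3_0 | c42_4_0
                          · linarith only [c42_0_0, e0]
                          · linarith only [C.f13_0, C.f13_3, C.f22_1, C.f22_4, C.f33_0, C.f33_4, C.o1, c19_1_1, c42_1_0, c5_0_1, s2]
                          · linarith only [C.f13_0, C.f13_3, C.f22_4, C.f33_0, C.f33_4, C.o1, c19_1_1, c2_0_0, c41_2_0, c42_2_0, s2]
                          · linarith only [C.f13_0, C.f13_3, C.f22_1, C.f22_4, C.f33_0, C.f33_4, C.o1, c19_1_1, c2_0_0, c41_2_0, c42_3_0, c5_0_1, s2]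
                          · linarith only [C.f13_4, C.f22_1, C.f22_4, C.f33_0, C.f33_4, C.o1, c19_1_1, c42_4_0, c5_0_1, s2]
                        · linarith only [C.f13_4, C.f22_1, C.f22_4, C.f33_0, C.f33_4, C.o1, c19_1_1, c41_3_0, c5_0_1, s2]
                        · linarith only [C.f13_4, C.f22_1, C.f22_4, C.f33_0, C.f33_4, c19_1_1, c41_4_0, c41_4_1, c5_0_1, s2]
                  · linarith only [C.f13_4, C.f22_4, C.f23_5, C.f33_4, C.o2, c8_2_1, s2]
                · rcases c0_13_22_33_k2_k_tzpm C with c44_0_0 | c44_1_0 | c44_2_0 | c44_3_0 | ⟨c44_4_0, c44_4_1⟩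
                  · linarith only [c2_0_0, c44_0_0]
                  · linarith only [C.f13_7, C.f22_4, C.f22_6, C.f33_7, C.o1, c44_1_0, s3]
                  · rcases c0_13_22_33_k2_k_f33_2 C with ⟨c54_0_0, c54_0_1⟩ | ⟨c54_1_0, c54_1_1⟩
                    · rcases c0_13_22_33_k2_k_p22_33A C with c55_0_0 | c55_1_0 | c55_2_0 | c55_3_0 | c55_4_0
                      · linarith only [c55_0_0, e2]
                      · linarith only [c55_1_0, e3]
                      · linarith only [C.a1, c54_0_1, c55_2_0, c5_0_1]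
                      · rcases c0_13_22_33_k2_k_p13_22B C with c59_0_0 | c59_1_0 | c59_2_0 | c59_3_0 | c59_4_0 | c59_5_0
                        · linarith only [c59_0_0, e0]
                        · linarith only [c59_1_0, e1]
                        · linarith only [c59_2_0, e2]
                        · linarith only [C.a1, C.f13_0, C.f13_3, c44_2_0, c55_3_0, c59_3_0, c5_0_1, s2]
                        · linarith only [c55_3_0, c59_4_0, c6_1_1, s2]
                        · rcases c0_13_22_33_k2_k_tpmm C with c64_0_0 | c64_1_0 | c64_2_0 | c64_3_0 | c64_4_0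
                          · linarith only [c64_0_0, e0]
                          · linarith only [C.f13_0, C.f13_3, C.f22_1, C.f23_0, c55_3_0, c5_0_1, c64_1_0, c7_1_1, s2]
                          · linarith only [C.a1, C.f13_0, C.f13_3, c44_2_0, c55_3_0, c64_2_0, s2]
                          · linarith only [C.a1, C.f13_0, C.f13_3, C.f22_1, c44_2_0, c55_3_0, c5_0_1, c64_3_0, s2]
                          · linarith only [C.f33_7, c59_5_0, c64_4_0, s3]
                      · linarith only [C.f13_7, c55_4_0, s3]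
                    · rcases c0_13_22_33_k2_k_tpmm C with c74_0_0 | c74_1_0 | c74_2_0 | c74_3_0 | c74_4_0
                      · linarith only [c74_0_0, e0]
                      · linarith only [C.f13_0, C.f13_3, C.f22_1, C.f22_4, C.f33_0, C.f33_4, C.o1, c54_1_1, c5_0_1, c74_1_0, s2]
                      · linarith only [C.f13_0, C.f13_3, C.f22_4, C.f33_0, C.f33_4, C.o1, c2_0_0, c44_2_0, c54_1_1, c74_2_0, s2]
                      · linarith only [C.f13_0, C.f13_3, C.f22_1, C.f22_4, C.f33_0, C.f33_4, C.o1, c2_0_0, c44_2_0, c54_1_1, c5_0_1, c74_3_0, s2]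
                      · linarith only [C.f13_4, C.f22_1, C.f22_4, C.f33_0, C.f33_4, C.o1, c54_1_1, c5_0_1, c74_4_0, s2]
                  · linarith only [C.f13_4, C.f22_4, C.f33_4, C.o1, C.o2, c44_3_0, s2]
                  · linarith only [C.f22_1, C.f23_0, c44_4_0, c5_0_1, c7_1_1]
                · linarith only [C.f13_4, C.f22_1, C.f22_4, C.f23_0, C.f33_4, C.o1, C.o2, c5_0_1, c7_2_1, s2]
            · rcases c0_13_22_33_k2_k_f22_5 C with ⟨c75_0_0, c75_0_1⟩ | ⟨c75_1_0, c75_1_1⟩
              · linarith only [C.f22_4, c1_0_1, c2_0_0, c5_1_1, c75_0_1]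
              · rcases c0_13_22_33_k2_k_f23_3 C with ⟨c76_0_0, c76_0_1⟩ | ⟨c76_1_0, c76_1_1⟩ | ⟨c76_2_0, c76_2_1⟩
                · rcases c0_13_22_33_k2_k_f23_7 C with ⟨c77_0_0, c77_0_1⟩ | ⟨c77_1_0, c77_1_1⟩ | ⟨c77_2_0, c77_2_1⟩
                  · linarith only [C.a1, C.f23_5, c1_0_1, c76_0_1, c77_0_1]
                  · rcases c0_13_22_33_k2_k_f23_10 C with ⟨c78_0_0, c78_0_1⟩ | ⟨c78_1_0, c78_1_1⟩
                    · rcases c0_13_22_33_k2_k_tpmm C with c83_0_0 | c83_1_0 | c83_2_0 | c83_3_0 | c83_4_0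
                      · linarith only [c83_0_0, e0]
                      · rcases c0_13_22_33_k2_k_f33_2 C with ⟨c84_0_0, c84_0_1⟩ | ⟨c84_1_0, c84_1_1⟩
                        · rcases c0_13_22_33_k2_k_p22_33A C with c86_0_0 | c86_1_0 | c86_2_0 | c86_3_0 | c86_4_0
                          · linarith only [c86_0_0, e2]
                          · linarith only [c86_1_0, e3]
                          · linarith only [C.a1, C.b5, C.f23_9, c2_0_0, c5_1_1, c77_1_1, c78_0_1, c84_0_1, c86_2_0]
                          · linarith only [C.b5, C.f13_0, C.f13_3, C.f23_9, c77_1_1, c78_0_1, c83_1_0, c86_3_0, s2]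
                          · linarith only [C.f13_7, c86_4_0, s3]
                        · linarith only [C.f13_0, C.f13_3, C.f22_4, C.f23_1, C.f33_0, C.f33_4, c76_0_1, c83_1_0, c84_1_1, s2]
                      · linarith only [C.a1, C.o0, c83_2_0]
                      · linarith only [C.b5, C.f23_9, C.o0, c2_0_0, c77_1_1, c78_0_1, c83_3_0]
                      · linarith only [C.f13_7, C.f22_4, C.f22_6, C.f23_9, C.f33_7, C.o1, c77_1_1, c78_0_1, c83_4_0, s3]
                    · rcases c0_13_22_33_k2_k_f33_2 C with ⟨c87_0_0, c87_0_1⟩ | ⟨c87_1_0, c87_1_1⟩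
                      · rcases c0_13_22_33_k2_k_p13_23A C with c99_0_0 | c99_1_0 | c99_2_0 | c99_3_0 | c99_4_0 | c99_5_0
                        · linarith only [c99_0_0, e0]
                        · linarith only [c99_1_0, e1]
                        · linarith only [C.a1, C.f23_1, c76_0_1, c99_2_0, e0]
                        · rcases c0_13_22_33_k2_k_p13_22B C with c100_0_0 | c100_1_0 | c100_2_0 | c100_3_0 | c100_4_0 | c100_5_0
                          · linarith only [c100_0_0, e0]
                          · linarith only [c100_1_0, e1]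
                          · linarith only [c100_2_0, e2]
                          · linarith only [C.f33_0, C.o0, c0_0_1, c100_3_0, c76_0_1, c99_3_0, s1]
                          · rcases c0_13_22_33_k2_k_p22_33A C with c102_0_0 | c102_1_0 | c102_2_0 | c102_3_0 | c102_4_0
                            · linarith only [c102_0_0, e2]
                            · linarith only [c102_1_0, e3]
                            · linarith only [C.a1, C.f23_1, c0_0_1, c100_4_0, c102_2_0, c1_0_1, c3_0_1, c5_1_1, c75_1_1, c76_0_1, c87_0_1]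
                            · linarith only [c100_4_0, c102_3_0, c75_1_1, s2]
                            · linarith only [C.f13_7, c102_4_0, s3]
                          · rcases c0_13_22_33_k2_k_p23_33A C with c104_0_0 | c104_1_0 | c104_2_0 | c104_3_0 | c104_4_0 | c104_5_0
                            · linarith only [C.a1, C.f23_1, c104_0_0, c76_0_1, e0]
                            · linarith only [c104_1_0, e1]
                            · linarith only [c104_2_0, e3]
                            · linarith only [C.a1, c104_3_0, c76_0_1, c87_0_1]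
                            · rcases c0_13_22_33_k2_k_tzpm C with c106_0_0 | c106_1_0 | c106_2_0 | c106_3_0 | ⟨c106_4_0, c106_4_1⟩
                              · linarith only [c106_0_0, c2_0_0]
                              · linarith only [C.f13_7, C.f22_4, C.f22_6, C.f33_7, C.o1, c106_1_0, s3]
                              · rcases c0_13_22_33_k2_k_tpmm C with c107_0_0 | c107_1_0 | c107_2_0 | c107_3_0 | c107_4_0
                                · linarith only [c107_0_0, e0]
                                · linarith only [C.f13_0, C.f13_3, C.f22_4, c104_4_0, c107_1_0, c77_1_1, s2]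
                                · linarith only [C.a1, C.f13_0, C.f13_3, C.f22_4, C.o1, c104_4_0, c106_2_0, c107_2_0, c77_1_1, s2]
                                · linarith only [C.a1, C.f13_0, C.f13_3, C.f22_4, C.f23_1, c104_4_0, c106_2_0, c107_3_0, c76_0_1, c77_1_1, s2]
                                · linarith only [C.f33_7, c100_5_0, c107_4_0, s3]
                              · linarith only [C.f13_4, C.f22_4, C.f33_4, C.f33_7, C.o1, c100_5_0, c106_3_0, s2, s3]
                              · linarith only [C.f33_7, c100_5_0, c106_4_1, s3]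
                            · linarith only [c100_5_0, c104_5_0, c78_1_1, s3]
                        · rcases c0_13_22_33_k2_k_p23_33A C with c109_0_0 | c109_1_0 | c109_2_0 | c109_3_0 | c109_4_0 | c109_5_0
                          · linarith only [C.a1, C.f23_1, c109_0_0, c76_0_1, e0]
                          · linarith only [c109_1_0, e1]
                          · linarith only [c109_2_0, e3]
                          · linarith only [C.a1, c109_3_0, c76_0_1, c87_0_1]
                          · linarith only [C.f22_4, c109_4_0, c77_1_1, c99_4_0, s2]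
                          · rcases c0_13_22_33_k2_k_p22_23B C with c110_0_0 | c110_1_0 | c110_2_0 | c110_3_0 | c110_4_0 | c110_5_0
                            · linarith only [c110_0_0, e2]
                            · linarith only [C.a1, C.f23_1, c110_1_0, c76_0_1, e0]
                            · linarith only [c110_2_0, e1]
                            · linarith only [C.f13_0, C.f33_0, C.o0, c110_3_0, c76_0_1, s1]
                            · rcases c0_13_22_33_k2_k_p13_22B C with c111_0_0 | c111_1_0 | c111_2_0 | c111_3_0 | c111_4_0 | c111_5_0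
                              · linarith only [c111_0_0, e0]
                              · linarith only [c111_1_0, e1]
                              · linarith only [c111_2_0, e2]
                              · linarith only [C.f23_1, C.f33_0, C.o0, c0_0_1, c110_4_0, c111_3_0, c5_1_1, c75_1_1, c76_0_1, c77_1_1, s1]
                              · rcases c0_13_22_33_k2_k_p22_33A C with c113_0_0 | c113_1_0 | c113_2_0 | c113_3_0 | c113_4_0
                                · linarith only [c113_0_0, e2]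
                                · linarith only [c113_1_0, e3]
                                · linarith only [C.a1, C.f23_1, c0_0_1, c111_4_0, c113_2_0, c1_0_1, c3_0_1, c5_1_1, c75_1_1, c76_0_1, c87_0_1]
                                · linarith only [c111_4_0, c113_3_0, c75_1_1, s2]
                                · linarith only [C.f13_7, c113_4_0, s3]
                              · linarith only [c109_5_0, c111_5_0, c78_1_1, s3]
                            · linarith only [C.f13_7, c109_5_0, c110_5_0, c78_1_1, s3]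
                        · linarith only [C.o2, c4_1_1, c78_1_1, c99_5_0]
                      · rcases c0_13_22_33_k2_k_p13_23A C with c116_0_0 | c116_1_0 | c116_2_0 | c116_3_0 | c116_4_0 | c116_5_0
                        · linarith only [c116_0_0, e0]
                        · linarith only [c116_1_0, e1]
                        · linarith only [C.a1, C.f23_1, c116_2_0, c76_0_1, e0]
                        · rcases c0_13_22_33_k2_k_tzpm C with c122_0_0 | c122_1_0 | c122_2_0 | c122_3_0 | ⟨c122_4_0, c122_4_1⟩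
                          · linarith only [c122_0_0, c2_0_0]
                          · linarith only [C.f13_7, C.f22_4, C.f22_6, C.f33_7, C.o1, c122_1_0, s3]
                          · rcases c0_13_22_33_k2_k_tpmm C with c123_0_0 | c123_1_0 | c123_2_0 | c123_3_0 | c123_4_0
                            · linarith only [c123_0_0, e0]
                            · linarith only [C.f13_3, C.f22_4, C.f33_0, C.f33_4, c116_3_0, c123_1_0, c2_0_0, c76_0_1, c87_1_1, s2]
                            · linarith only [C.f13_0, C.f13_3, C.f22_4, C.f33_0, C.f33_4, C.o1, c122_2_0, c123_2_0, c2_0_0, c87_1_1, s2]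
                            · linarith only [C.f13_3, C.f22_4, C.f33_0, C.f33_4, c116_3_0, c122_2_0, c123_3_0, c2_0_0, c76_0_1, c87_1_1, s2]
                            · linarith only [C.f13_4, C.f22_4, C.f33_0, C.f33_4, c0_0_1, c116_3_0, c123_4_0, c2_0_0, c76_0_1, c87_1_1, s2]
                          · linarith only [C.f13_4, C.f22_4, C.f33_0, C.f33_4, C.o1, c0_0_1, c116_3_0, c122_3_0, c2_0_0, c76_0_1, c87_1_1, s2]
                          · linarith only [C.f13_4, C.f22_4, C.f33_0, C.f33_4, c0_0_1, c116_3_0, c122_4_1, c2_0_0, c76_0_1, c87_1_1, s2]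
                        · linarith only [C.f22_4, C.f23_1, C.f33_0, C.f33_4, c116_4_0, c76_0_1, c77_1_1, c87_1_1, s2]
                        · linarith only [C.f13_4, C.f22_4, C.f23_1, C.f33_0, C.f33_4, c116_5_0, c4_1_1, c76_0_1, c78_1_1, c87_1_1, s2]
                  · linarith only [C.f13_4, C.f22_4, C.f23_5, C.f33_4, C.o2, c77_2_1, s2]
                · rcases c0_13_22_33_k2_k_f23_7 C with ⟨c124_0_0, c124_0_1⟩ | ⟨c124_1_0, c124_1_1⟩ | ⟨c124_2_0, c124_2_1⟩
                  · linarith only [C.f23_5, c124_0_1, c1_0_1, c2_0_0, c76_1_1]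
                  · rcases c0_13_22_33_k2_k_f23_10 C with ⟨c125_0_0, c125_0_1⟩ | ⟨c125_1_0, c125_1_1⟩
                    · rcases c0_13_22_33_k2_k_p13_33A C with c126_0_0 | c126_1_0 | c126_2_0 | c126_3_0 | c126_4_0 | c126_5_0
                      · linarith only [c126_0_0, e0]
                      · linarith only [c126_1_0, e1]
                      · linarith only [c126_2_0, e3]
                      · rcases c0_13_22_33_k2_k_tpmm C with c130_0_0 | c130_1_0 | c130_2_0 | c130_3_0 | c130_4_0
                        · linarith only [c130_0_0, e0]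
                        · rcases c0_13_22_33_k2_k_f33_2 C with ⟨c131_0_0, c131_0_1⟩ | ⟨c131_1_0, c131_1_1⟩
                          · rcases c0_13_22_33_k2_k_p22_33A C with c133_0_0 | c133_1_0 | c133_2_0 | c133_3_0 | c133_4_0
                            · linarith only [c133_0_0, e2]
                            · linarith only [c133_1_0, e3]
                            · linarith only [C.a1, C.b5, C.f23_9, c124_1_1, c125_0_1, c131_0_1, c133_2_0, c2_0_0, c5_1_1]
                            · linarith only [C.b5, C.f13_0, C.f13_3, C.f23_9, c124_1_1, c125_0_1, c130_1_0, c133_3_0, s2]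
                            · linarith only [C.f13_7, c133_4_0, s3]
                          · linarith only [C.f13_3, C.f22_4, C.f33_4, c126_3_0, c130_1_0, c131_1_1, c2_0_0, s2]
                        · linarith only [C.a1, C.o0, c130_2_0]
                        · linarith only [C.b5, C.f23_9, C.o0, c124_1_1, c125_0_1, c130_3_0, c2_0_0]
                        · linarith only [C.f13_7, C.f22_4, C.f22_6, C.f23_9, C.f33_7, C.o1, c124_1_1, c125_0_1, c130_4_0, s3]
                      · linarith only [C.f22_4, c126_4_0, s2]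
                      · linarith only [C.f22_4, C.f22_6, C.f23_9, C.o1, c124_1_1, c125_0_1, c126_5_0, s3]
                    · rcases c0_13_22_33_k2_k_f33_2 C with ⟨c134_0_0, c134_0_1⟩ | ⟨c134_1_0, c134_1_1⟩
                      · rcases c0_13_22_33_k2_k_p13_33A C with c150_0_0 | c150_1_0 | c150_2_0 | c150_3_0 | c150_4_0 | c150_5_0
                        · linarith only [c150_0_0, e0]
                        · linarith only [c150_1_0, e1]
                        · linarith only [c150_2_0, e3]
                        · rcases c0_13_22_33_k2_k_p13_22B C with c151_0_0 | c151_1_0 | c151_2_0 | c151_3_0 | c151_4_0 | c151_5_0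
                          · linarith only [c151_0_0, e0]
                          · linarith only [c151_1_0, e1]
                          · linarith only [c151_2_0, e2]
                          · linarith only [C.o0, c0_0_1, c150_3_0, c151_3_0, s1]
                          · rcases c0_13_22_33_k2_k_p22_33A C with c153_0_0 | c153_1_0 | c153_2_0 | c153_3_0 | c153_4_0
                            · linarith only [c153_0_0, e2]
                            · linarith only [c153_1_0, e3]
                            · linarith only [C.a1, c0_0_1, c134_0_1, c151_4_0, c153_2_0, c1_0_1, c2_0_0, c3_0_1, c5_1_1, c75_1_1]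
                            · linarith only [c151_4_0, c153_3_0, c75_1_1, s2]
                            · linarith only [C.f13_7, c153_4_0, s3]
                          · rcases c0_13_22_33_k2_k_p23_33A C with c154_0_0 | c154_1_0 | c154_2_0 | c154_3_0 | c154_4_0 | c154_5_0
                            · linarith only [c154_0_0, c2_0_0, e0]
                            · linarith only [c154_1_0, e1]
                            · linarith only [c154_2_0, e3]
                            · linarith only [C.a1, c134_0_1, c154_3_0, c2_0_0, c76_1_1]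
                            · rcases c0_13_22_33_k2_k_tzpm C with c155_0_0 | c155_1_0 | c155_2_0 | c155_3_0 | ⟨c155_4_0, c155_4_1⟩
                              · linarith only [c155_0_0, c2_0_0]
                              · linarith only [C.f13_7, C.f22_4, C.f22_6, C.f33_7, C.o1, c155_1_0, s3]
                              · rcases c0_13_22_33_k2_k_tpmm C with c156_0_0 | c156_1_0 | c156_2_0 | c156_3_0 | c156_4_0
                                · linarith only [c156_0_0, e0]
                                · linarith only [C.f13_0, C.f13_3, C.f22_4, c124_1_1, c154_4_0, c156_1_0, s2]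
                                · linarith only [C.a1, C.f13_0, C.f13_3, C.f22_4, C.o1, c124_1_1, c154_4_0, c155_2_0, c156_2_0, s2]
                                · linarith only [C.f13_0, C.f13_3, C.f22_4, c124_1_1, c154_4_0, c155_2_0, c156_3_0, c2_0_0, s2]
                                · linarith only [C.f33_7, c151_5_0, c156_4_0, s3]
                              · linarith only [C.f13_4, C.f22_4, C.f33_4, C.f33_7, C.o1, c151_5_0, c155_3_0, s2, s3]
                              · linarith only [C.f33_7, c151_5_0, c155_4_1, s3]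
                            · linarith only [c125_1_1, c151_5_0, c154_5_0, s3]
                        · linarith only [C.f22_4, c150_4_0, s2]
                        · rcases c0_13_22_33_k2_k_p22_23B C with c157_0_0 | c157_1_0 | c157_2_0 | c157_3_0 | c157_4_0 | c157_5_0
                          · linarith only [c157_0_0, e2]
                          · linarith only [c157_1_0, c2_0_0, e0]
                          · linarith only [c157_2_0, e1]
                          · linarith only [C.b2, C.o0, c157_3_0, c2_0_0, c5_1_1, c76_1_1]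
                          · rcases c0_13_22_33_k2_k_p13_22B C with c158_0_0 | c158_1_0 | c158_2_0 | c158_3_0 | c158_4_0 | c158_5_0
                            · linarith only [c158_0_0, e0]
                            · linarith only [c158_1_0, e1]
                            · linarith only [c158_2_0, e2]
                            · linarith only [C.o0, c0_0_1, c124_1_1, c157_4_0, c158_3_0, c2_0_0, c5_1_1, c75_1_1]
                            · rcases c0_13_22_33_k2_k_p22_33A C with c160_0_0 | c160_1_0 | c160_2_0 | c160_3_0 | c160_4_0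
                              · linarith only [c160_0_0, e2]
                              · linarith only [c160_1_0, e3]
                              · linarith only [C.a1, c0_0_1, c134_0_1, c158_4_0, c160_2_0, c1_0_1, c2_0_0, c3_0_1, c5_1_1, c75_1_1]
                              · linarith only [c158_4_0, c160_3_0, c75_1_1, s2]
                              · linarith only [C.f13_7, c160_4_0, s3]
                            · linarith only [c150_5_0, c158_5_0, c4_1_1, s3]
                          · linarith only [c125_1_1, c150_5_0, c157_5_0, s3]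
                      · rcases c0_13_22_33_k2_k_p13_33A C with c173_0_0 | c173_1_0 | c173_2_0 | c173_3_0 | c173_4_0 | c173_5_0
                        · linarith only [c173_0_0, e0]
                        · linarith only [c173_1_0, e1]
                        · linarith only [c173_2_0, e3]
                        · rcases c0_13_22_33_k2_k_tzpm C with c176_0_0 | c176_1_0 | c176_2_0 | c176_3_0 | ⟨c176_4_0, c176_4_1⟩
                          · linarith only [c176_0_0, c2_0_0]
                          · linarith only [C.f13_7, C.f22_4, C.f22_6, C.f33_7, C.o1, c176_1_0, s3]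
                          · rcases c0_13_22_33_k2_k_tpmm C with c177_0_0 | c177_1_0 | c177_2_0 | c177_3_0 | c177_4_0
                            · linarith only [c177_0_0, e0]
                            · linarith only [C.f13_3, C.f22_4, C.f33_4, c134_1_1, c173_3_0, c177_1_0, c2_0_0, s2]
                            · linarith only [C.f13_0, C.f13_3, C.f22_4, C.f33_0, C.f33_4, C.o1, c134_1_1, c176_2_0, c177_2_0, c2_0_0, s2]
                            · linarith only [C.f13_3, C.f22_4, C.f33_4, c134_1_1, c173_3_0, c176_2_0, c177_3_0, c2_0_0, s2]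
                            · linarith only [C.f13_4, C.f22_4, C.f33_4, c0_0_1, c134_1_1, c173_3_0, c177_4_0, c2_0_0, s2]
                          · linarith only [C.f13_4, C.f22_4, C.f33_4, C.o1, c0_0_1, c134_1_1, c173_3_0, c176_3_0, c2_0_0, s2]
                          · linarith only [C.f13_4, C.f22_4, C.f33_4, c0_0_1, c134_1_1, c173_3_0, c176_4_1, c2_0_0, s2]
                        · linarith only [C.f22_4, c173_4_0, s2]
                        · rcases c0_13_22_33_k2_k_p22_23B C with c178_0_0 | c178_1_0 | c178_2_0 | c178_3_0 | c178_4_0 | c178_5_0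
                          · linarith only [c178_0_0, e2]
                          · linarith only [c178_1_0, c2_0_0, e0]
                          · linarith only [c178_2_0, e1]
                          · linarith only [C.b2, C.o0, c178_3_0, c2_0_0, c5_1_1, c76_1_1]
                          · rcases c0_13_22_33_k2_k_p13_22B C with c179_0_0 | c179_1_0 | c179_2_0 | c179_3_0 | c179_4_0 | c179_5_0
                            · linarith only [c179_0_0, e0]
                            · linarith only [c179_1_0, e1]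
                            · linarith only [c179_2_0, e2]
                            · linarith only [C.o0, c0_0_1, c124_1_1, c178_4_0, c179_3_0, c2_0_0, c5_1_1, c75_1_1]
                            · rcases c0_13_22_33_k2_k_p22_33A C with c182_0_0 | c182_1_0 | c182_2_0 | c182_3_0 | c182_4_0
                              · linarith only [c182_0_0, e2]
                              · linarith only [c182_1_0, e3]
                              · linarith only [C.f33_4, c134_1_1, c179_4_0, c182_2_0, c2_0_0, c5_1_1, s2]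
                              · linarith only [c179_4_0, c182_3_0, c75_1_1, s2]
                              · linarith only [C.f13_7, c182_4_0, s3]
                            · linarith only [c173_5_0, c179_5_0, c4_1_1, s3]
                          · linarith only [c125_1_1, c173_5_0, c178_5_0, s3]
                  · linarith only [C.f13_4, C.f22_4, C.f23_5, C.f33_4, C.o2, c124_2_1, s2]
                · linarith only [C.f13_4, C.f22_4, C.f23_1, C.f33_4, C.o2, c76_2_1, s2]
        · rcases c0_13_22_33_k2_k_f13_8 C with ⟨c183_0_0, c183_0_1⟩ | ⟨c183_1_0, c183_1_1⟩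
          · linarith only [C.a4, C.f13_7, C.f22_4, C.f22_6, C.f33_7, C.o1, c183_0_1, c3_1_1, s3]
          · rcases c0_13_22_33_k2_k_f22_2 C with ⟨c184_0_0, c184_0_1⟩ | ⟨c184_1_0, c184_1_1⟩
            · rcases c0_13_22_33_k2_k_f22_5 C with ⟨c185_0_0, c185_0_1⟩ | ⟨c185_1_0, c185_1_1⟩
              · linarith only [C.a1, C.f13_0, C.f13_3, C.f22_4, C.f33_4, C.o1, C.o2, c184_0_1, c185_0_1, c3_1_1, s2]
              · rcases c0_13_22_33_k2_k_p13_22B C with c186_0_0 | c186_1_0 | c186_2_0 | c186_3_0 | c186_4_0 | c186_5_0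
                · linarith only [c186_0_0, e0]
                · linarith only [c186_1_0, e1]
                · linarith only [c186_2_0, e2]
                · linarith only [C.a1, C.o0, c0_0_1, c184_0_1, c186_3_0]
                · linarith only [C.f33_4, C.o1, C.o2, c185_1_1, c186_4_0, c3_1_1, s2]
                · rcases c0_13_22_33_k2_k_tzpm C with c188_0_0 | c188_1_0 | c188_2_0 | c188_3_0 | ⟨c188_4_0, c188_4_1⟩
                  · linarith only [c188_0_0, c2_0_0]
                  · linarith only [C.f13_7, C.f22_4, C.f22_6, C.f33_7, C.o1, c188_1_0, s3]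
                  · rcases c0_13_22_33_k2_k_tpmm C with c190_0_0 | c190_1_0 | c190_2_0 | c190_3_0 | c190_4_0
                    · linarith only [c190_0_0, e0]
                    · linarith only [C.f13_0, C.f13_3, C.f22_4, C.f33_4, C.f33_7, c186_5_0, c190_1_0, c3_1_1, s2, s3]
                    · linarith only [C.a1, C.f13_0, C.f13_3, C.f22_4, C.f33_4, C.f33_7, C.o1, c186_5_0, c188_2_0, c190_2_0, c3_1_1, s2, s3]
                    · linarith only [C.f13_0, C.f13_3, C.f22_4, C.f33_4, C.f33_7, c186_5_0, c188_2_0, c190_3_0, c2_0_0, c3_1_1, s2, s3]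
                    · linarith only [C.f33_7, c186_5_0, c190_4_0, s3]
                  · linarith only [C.f13_4, C.f22_4, C.f33_4, C.o1, C.o2, c188_3_0, s2]
                  · linarith only [C.f33_7, c186_5_0, c188_4_1, s3]
            · rcases c0_13_22_33_k2_k_f22_5 C with ⟨c191_0_0, c191_0_1⟩ | ⟨c191_1_0, c191_1_1⟩
              · linarith only [C.f13_0, C.f13_3, C.f22_4, C.f33_4, C.o2, c184_1_1, c191_0_1, c2_0_0, c3_1_1, s2]
              · rcases c0_13_22_33_k2_k_f23_3 C with ⟨c192_0_0, c192_0_1⟩ | ⟨c192_1_0, c192_1_1⟩ | ⟨c192_2_0, c192_2_1⟩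
                · rcases c0_13_22_33_k2_k_f23_7 C with ⟨c193_0_0, c193_0_1⟩ | ⟨c193_1_0, c193_1_1⟩ | ⟨c193_2_0, c193_2_1⟩
                  · linarith only [C.a1, C.f13_0, C.f13_3, C.f22_4, C.f23_5, C.f33_4, C.o2, c192_0_1, c193_0_1, c3_1_1, s2]
                  · rcases c0_13_22_33_k2_k_f23_10 C with ⟨c195_0_0, c195_0_1⟩ | ⟨c195_1_0, c195_1_1⟩
                    · rcases c0_13_22_33_k2_k_p13_22A C with c196_0_0 | c196_1_0 | c196_2_0 | c196_3_0 | c196_4_0 | c196_5_0
                      · linarith only [c196_0_0, e0]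
                      · linarith only [c196_1_0, e1]
                      · linarith only [c196_2_0, e2]
                      · rcases c0_13_22_33_k2_k_tzpm C with c202_0_0 | c202_1_0 | c202_2_0 | c202_3_0 | ⟨c202_4_0, c202_4_1⟩
                        · linarith only [c202_0_0, c2_0_0]
                        · linarith only [C.f13_7, C.f22_4, C.f22_6, C.f33_7, C.o1, c202_1_0, s3]
                        · rcases c0_13_22_33_k2_k_tpmm C with c203_0_0 | c203_1_0 | c203_2_0 | c203_3_0 | c203_4_0
                          · linarith only [c203_0_0, e0]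
                          · linarith only [C.a4, C.f13_3, C.f13_7, C.f22_4, C.f22_6, C.f23_9, C.f33_7, c184_1_1, c193_1_1, c195_0_1, c196_3_0, c203_1_0, c2_0_0, c3_1_1, s3]
                          · linarith only [C.a4, C.f13_3, C.f13_7, C.f22_0, C.f22_4, C.f22_6, C.f23_9, C.f33_7, c184_1_1, c193_1_1, c195_0_1, c196_3_0, c202_2_0, c203_2_0, c2_0_0, c3_1_1, s3]
                          · linarith only [C.a4, C.f13_3, C.f13_7, C.f22_4, C.f22_6, C.f23_9, C.f33_7, c184_1_1, c193_1_1, c195_0_1, c196_3_0, c202_2_0, c203_3_0, c2_0_0, c3_1_1, s3]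
                          · linarith only [C.f13_7, C.f22_4, C.f22_6, C.f23_9, C.f33_7, c0_0_1, c184_1_1, c193_1_1, c195_0_1, c196_3_0, c203_4_0, c2_0_0, s3]
                        · linarith only [C.a4, C.f13_7, C.f22_4, C.f22_6, C.f23_9, C.f33_7, C.o1, c193_1_1, c195_0_1, c202_3_0, s3]
                        · linarith only [C.f13_7, C.f22_4, C.f22_6, C.f23_9, C.f33_7, c193_1_1, c195_0_1, c202_4_0, c202_4_1, s3]
                      · linarith only [C.a4, C.f13_7, C.f22_6, C.f23_9, C.f33_7, c193_1_1, c195_0_1, c196_4_0, c3_1_1, s3]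
                      · linarith only [C.f13_7, C.f22_4, C.f22_6, C.f23_9, C.f33_7, C.o1, c193_1_1, c195_0_1, c196_5_0, s3]
                    · rcases c0_13_22_33_k2_k_p13_23A C with c204_0_0 | c204_1_0 | c204_2_0 | c204_3_0 | c204_4_0 | c204_5_0
                      · linarith only [c204_0_0, e0]
                      · linarith only [c204_1_0, e1]
                      · linarith only [C.a1, C.f23_1, c192_0_1, c204_2_0, e0]
                      · rcases c0_13_22_33_k2_k_p13_22B C with c205_0_0 | c205_1_0 | c205_2_0 | c205_3_0 | c205_4_0 | c205_5_0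
                        · linarith only [c205_0_0, e0]
                        · linarith only [c205_1_0, e1]
                        · linarith only [c205_2_0, e2]
                        · linarith only [C.f33_0, C.o0, c0_0_1, c192_0_1, c204_3_0, c205_3_0, s1]
                        · linarith only [C.f33_4, C.o1, C.o2, c191_1_1, c205_4_0, c3_1_1, s2]
                        · rcases c0_13_22_33_k2_k_tzpm C with c208_0_0 | c208_1_0 | c208_2_0 | c208_3_0 | ⟨c208_4_0, c208_4_1⟩
                          · linarith only [c208_0_0, c2_0_0]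
                          · linarith only [C.f13_7, C.f22_4, C.f22_6, C.f33_7, C.o1, c208_1_0, s3]
                          · rcases c0_13_22_33_k2_k_tpmm C with c209_0_0 | c209_1_0 | c209_2_0 | c209_3_0 | c209_4_0
                            · linarith only [c209_0_0, e0]
                            · linarith only [C.f13_0, C.f13_3, C.f22_4, C.f33_4, C.f33_7, c205_5_0, c209_1_0, c3_1_1, s2, s3]
                            · linarith only [C.a1, C.f13_0, C.f13_3, C.f22_4, C.f33_4, C.f33_7, C.o1, c205_5_0, c208_2_0, c209_2_0, c3_1_1, s2, s3]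
                            · linarith only [C.f13_0, C.f13_3, C.f22_4, C.f33_4, C.f33_7, c205_5_0, c208_2_0, c209_3_0, c2_0_0, c3_1_1, s2, s3]
                            · linarith only [C.f33_7, c205_5_0, c209_4_0, s3]
                          · linarith only [C.f13_4, C.f22_4, C.f33_4, C.f33_7, C.o1, c205_5_0, c208_3_0, s2, s3]
                          · linarith only [C.f33_7, c205_5_0, c208_4_1, s3]
                      · linarith only [C.f22_4, C.f33_4, C.o2, c193_1_1, c204_4_0, c3_1_1, s2]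
                      · linarith only [C.o2, c183_1_1, c195_1_1, c204_5_0]
                  · linarith only [C.f13_4, C.f22_4, C.f23_5, C.f33_4, C.o2, c193_2_1, s2]
                · rcases c0_13_22_33_k2_k_f23_7 C with ⟨c210_0_0, c210_0_1⟩ | ⟨c210_1_0, c210_1_1⟩ | ⟨c210_2_0, c210_2_1⟩
                  · linarith only [C.f13_0, C.f13_3, C.f22_4, C.f23_5, C.f33_4, C.o2, c192_1_1, c210_0_1, c2_0_0, c3_1_1, s2]
                  · rcases c0_13_22_33_k2_k_f23_10 C with ⟨c212_0_0, c212_0_1⟩ | ⟨c212_1_0, c212_1_1⟩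
                    · rcases c0_13_22_33_k2_k_p13_22A C with c213_0_0 | c213_1_0 | c213_2_0 | c213_3_0 | c213_4_0 | c213_5_0
                      · linarith only [c213_0_0, e0]
                      · linarith only [c213_1_0, e1]
                      · linarith only [c213_2_0, e2]
                      · rcases c0_13_22_33_k2_k_tzpm C with c219_0_0 | c219_1_0 | c219_2_0 | c219_3_0 | ⟨c219_4_0, c219_4_1⟩
                        · linarith only [c219_0_0, c2_0_0]
                        · linarith only [C.f13_7, C.f22_4, C.f22_6, C.f33_7, C.o1, c219_1_0, s3]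
                        · rcases c0_13_22_33_k2_k_tpmm C with c220_0_0 | c220_1_0 | c220_2_0 | c220_3_0 | c220_4_0
                          · linarith only [c220_0_0, e0]
                          · linarith only [C.a4, C.f13_3, C.f13_7, C.f22_4, C.f22_6, C.f23_9, C.f33_7, c184_1_1, c210_1_1, c212_0_1, c213_3_0, c220_1_0, c2_0_0, c3_1_1, s3]
                          · linarith only [C.a1, C.a4, C.f13_3, C.f13_7, C.f22_4, C.f22_6, C.f23_9, C.f33_7, c0_0_1, c184_1_1, c210_1_1, c212_0_1, c213_3_0, c219_2_0, c220_2_0, c2_0_0, c3_1_1, s3]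
                          · linarith only [C.a4, C.f13_3, C.f13_7, C.f22_4, C.f22_6, C.f23_9, C.f33_7, c184_1_1, c210_1_1, c212_0_1, c213_3_0, c219_2_0, c220_3_0, c2_0_0, c3_1_1, s3]
                          · linarith only [C.f13_7, C.f22_4, C.f22_6, C.f23_9, C.f33_7, c0_0_1, c184_1_1, c210_1_1, c212_0_1, c213_3_0, c220_4_0, c2_0_0, s3]
                        · linarith only [C.a4, C.f13_7, C.f22_4, C.f22_6, C.f23_9, C.f33_7, C.o1, c210_1_1, c212_0_1, c219_3_0, s3]
                        · linarith only [C.f13_7, C.f22_4, C.f22_6, C.f23_9, C.f33_7, c210_1_1, c212_0_1, c219_4_0, c219_4_1, s3]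
                      · linarith only [C.a4, C.f13_7, C.f22_6, C.f23_9, C.f33_7, c210_1_1, c212_0_1, c213_4_0, c3_1_1, s3]
                      · linarith only [C.f13_7, C.f22_4, C.f22_6, C.f23_9, C.f33_7, C.o1, c210_1_1, c212_0_1, c213_5_0, s3]
                    · rcases c0_13_22_33_k2_k_p13_22B C with c227_0_0 | c227_1_0 | c227_2_0 | c227_3_0 | c227_4_0 | c227_5_0
                      · linarith only [c227_0_0, e0]
                      · linarith only [c227_1_0, e1]
                      · linarith only [c227_2_0, e2]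
                      · rcases c0_13_22_33_k2_k_p11_23B C with c232_0_0 | c232_1_0 | c232_2_0 | c232_3_0 | c232_4_0 | c232_5_0
                        · linarith only [C.o0, c0_0_1, c184_1_1, c227_3_0, c232_0_0, e2]
                        · linarith only [C.o0, c0_0_1, c184_1_1, c227_3_0, c232_1_0, c2_0_0, e2]
                        · linarith only [c232_2_0, e1]
                        · linarith only [C.f11_0, C.o0, c192_1_1, c232_3_0, c2_0_0]
                        · linarith only [C.f11_0, C.f11_1, C.f13_3, C.f33_1, C.o0, C.o2, c0_0_1, c184_1_1, c210_1_1, c227_3_0, c232_4_0, c2_0_0, c3_1_1, s1]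
                        · linarith only [C.f11_0, C.f11_1, C.f11_2, C.f13_3, C.f13_7, C.f22_4, C.f22_6, C.f33_1, C.f33_7, C.o0, c184_1_1, c212_1_1, c227_3_0, c232_5_0, c3_1_1, s1, s3]
                      · linarith only [C.f33_4, C.o1, C.o2, c191_1_1, c227_4_0, c3_1_1, s2]
                      · rcases c0_13_22_33_k2_k_tzpm C with c235_0_0 | c235_1_0 | c235_2_0 | c235_3_0 | ⟨c235_4_0, c235_4_1⟩
                        · linarith only [c235_0_0, c2_0_0]
                        · linarith only [C.f13_7, C.f22_4, C.f22_6, C.f33_7, C.o1, c235_1_0, s3]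
                        · rcases c0_13_22_33_k2_k_tpmm C with c236_0_0 | c236_1_0 | c236_2_0 | c236_3_0 | c236_4_0
                          · linarith only [c236_0_0, e0]
                          · linarith only [C.f13_0, C.f13_3, C.f22_4, C.f33_4, C.f33_7, c227_5_0, c236_1_0, c3_1_1, s2, s3]
                          · linarith only [C.a1, C.f13_0, C.f13_3, C.f22_4, C.f33_4, C.f33_7, C.o1, c227_5_0, c235_2_0, c236_2_0, c3_1_1, s2, s3]
                          · linarith only [C.f13_0, C.f13_3, C.f22_4, C.f33_4, C.f33_7, c227_5_0, c235_2_0, c236_3_0, c2_0_0, c3_1_1, s2, s3]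
                          · linarith only [C.f33_7, c227_5_0, c236_4_0, s3]
                        · linarith only [C.f13_4, C.f22_4, C.f33_4, C.f33_7, C.o1, c227_5_0, c235_3_0, s2, s3]
                        · linarith only [C.f33_7, c227_5_0, c235_4_1, s3]
                  · linarith only [C.f13_4, C.f22_4, C.f23_5, C.f33_4, C.o2, c210_2_1, s2]
                · linarith only [C.f13_4, C.f22_4, C.f23_1, C.f33_4, C.o2, c192_2_1, s2]
      · rcases c0_13_22_33_k2_k_f13_5 C with ⟨c237_0_0, c237_0_1⟩ | ⟨c237_1_0, c237_1_1⟩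
        · rcases c0_13_22_33_k2_k_f13_8 C with ⟨c238_0_0, c238_0_1⟩ | ⟨c238_1_0, c238_1_1⟩
          · linarith only [C.b3, C.f13_7, C.o0, c0_0_1, c237_0_1, c238_0_1, c2_1_1]
          · rcases c0_13_22_33_k2_k_f22_2 C with ⟨c239_0_0, c239_0_1⟩ | ⟨c239_1_0, c239_1_1⟩
            · rcases c0_13_22_33_k2_k_f22_5 C with ⟨c240_0_0, c240_0_1⟩ | ⟨c240_1_0, c240_1_1⟩
              · linarith only [C.b3, C.f13_0, C.f22_4, C.f33_0, C.o0, c239_0_1, c240_0_1, s1]
              · rcases c0_13_22_33_k2_k_f23_3 C with ⟨c241_0_0, c241_0_1⟩ | ⟨c241_1_0, c241_1_1⟩ | ⟨c241_2_0, c241_2_1⟩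
                · rcases c0_13_22_33_k2_k_f23_7 C with ⟨c242_0_0, c242_0_1⟩ | ⟨c242_1_0, c242_1_1⟩ | ⟨c242_2_0, c242_2_1⟩
                  · linarith only [C.a1, C.f23_5, c1_0_1, c241_0_1, c242_0_1]
                  · rcases c0_13_22_33_k2_k_f23_10 C with ⟨c243_0_0, c243_0_1⟩ | ⟨c243_1_0, c243_1_1⟩
                    · linarith only [C.f23_9, C.o1, c242_1_1, c243_0_1, c2_1_1]
                    · rcases c0_13_22_33_k2_k_f33_2 C with ⟨c245_0_0, c245_0_1⟩ | ⟨c245_1_0, c245_1_1⟩
                      · rcases c0_13_22_33_k2_k_p22_33A C with c247_0_0 | c247_1_0 | c247_2_0 | c247_3_0 | c247_4_0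
                        · linarith only [c247_0_0, e2]
                        · linarith only [c247_1_0, e3]
                        · linarith only [C.a1, c239_0_1, c245_0_1, c247_2_0]
                        · rcases c0_13_22_33_k2_k_p13_22B C with c248_0_0 | c248_1_0 | c248_2_0 | c248_3_0 | c248_4_0 | c248_5_0
                          · linarith only [c248_0_0, e0]
                          · linarith only [c248_1_0, e1]
                          · linarith only [c248_2_0, e2]
                          · linarith only [C.a1, C.o0, c0_0_1, c239_0_1, c248_3_0]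
                          · linarith only [c240_1_1, c247_3_0, c248_4_0, s2]
                          · rcases c0_13_22_33_k2_k_p23_33A C with c251_0_0 | c251_1_0 | c251_2_0 | c251_3_0 | c251_4_0 | c251_5_0
                            · linarith only [C.a1, C.f22_1, C.o1, c239_0_1, c251_0_0, e0]
                            · linarith only [c251_1_0, e1]
                            · linarith only [c251_2_0, e3]
                            · linarith only [C.a1, c241_0_1, c245_0_1, c251_3_0]
                            · rcases c0_13_22_33_k2_k_tzpm C with c255_0_0 | c255_1_0 | c255_2_0 | c255_3_0 | ⟨c255_4_0, c255_4_1⟩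
                              · linarith only [C.a1, C.f22_1, C.o1, c239_0_1, c255_0_0]
                              · linarith only [C.f13_7, C.f22_4, C.f22_6, C.f33_7, C.o1, c255_1_0, s3]
                              · rcases c0_13_22_33_k2_k_tpmm C with c256_0_0 | c256_1_0 | c256_2_0 | c256_3_0 | c256_4_0
                                · linarith only [c256_0_0, e0]
                                · linarith only [C.f13_0, C.f13_3, C.f22_4, c242_1_1, c251_4_0, c256_1_0, s2]
                                · linarith only [C.a1, C.f13_0, C.f13_3, c247_3_0, c255_2_0, c256_2_0, s2]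
                                · linarith only [C.a1, C.f13_0, C.f13_3, C.f22_1, c239_0_1, c247_3_0, c255_2_0, c256_3_0, s2]
                                · linarith only [C.f33_7, c248_5_0, c256_4_0, s3]
                              · linarith only [C.f13_4, C.f22_4, C.f33_4, C.f33_7, C.o1, c248_5_0, c255_3_0, s2, s3]
                              · linarith only [C.f33_7, c248_5_0, c255_4_1, s3]
                            · linarith only [c243_1_1, c248_5_0, c251_5_0, s3]
                        · linarith only [C.f13_7, c247_4_0, s3]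
                      · rcases c0_13_22_33_k2_k_tzpm C with c267_0_0 | c267_1_0 | c267_2_0 | c267_3_0 | ⟨c267_4_0, c267_4_1⟩
                        · linarith only [C.a1, C.f22_1, C.o1, c239_0_1, c267_0_0]
                        · linarith only [C.o1, C.o2, c267_1_0, c2_1_1]
                        · rcases c0_13_22_33_k2_k_tpmm C with c268_0_0 | c268_1_0 | c268_2_0 | c268_3_0 | c268_4_0
                          · linarith only [c268_0_0, e0]
                          · linarith only [C.f13_0, C.f13_3, C.f22_1, C.f22_4, C.f33_0, C.f33_4, C.o1, c239_0_1, c245_1_1, c268_1_0, s2]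
                          · linarith only [C.a1, C.f13_0, C.f13_3, C.f22_1, C.f22_4, C.f33_0, C.f33_4, C.o1, c239_0_1, c245_1_1, c267_2_0, c268_2_0, s2]
                          · linarith only [C.a1, C.f13_0, C.f13_3, C.f22_1, C.f22_4, C.f33_0, C.f33_4, C.o1, c239_0_1, c245_1_1, c267_2_0, c268_3_0, s2]
                          · linarith only [C.f13_4, C.f22_1, C.f22_4, C.f33_0, C.f33_4, C.o1, c239_0_1, c245_1_1, c268_4_0, s2]
                        · linarith only [C.f13_4, C.f22_1, C.f22_4, C.f33_0, C.f33_4, C.o1, c239_0_1, c245_1_1, c267_3_0, s2]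
                        · linarith only [C.f13_4, C.f22_1, C.f22_4, C.f33_0, C.f33_4, c239_0_1, c245_1_1, c267_4_0, c267_4_1, s2]
                  · linarith only [C.f13_4, C.f22_4, C.f23_5, C.f33_4, C.o2, c242_2_1, s2]
                · rcases c0_13_22_33_k2_k_tzpm C with c272_0_0 | c272_1_0 | c272_2_0 | c272_3_0 | ⟨c272_4_0, c272_4_1⟩
                  · linarith only [C.a1, C.f22_1, C.o1, c239_0_1, c272_0_0]
                  · linarith only [C.o1, C.o2, c272_1_0, c2_1_1]
                  · rcases c0_13_22_33_k2_k_f33_2 C with ⟨c274_0_0, c274_0_1⟩ | ⟨c274_1_0, c274_1_1⟩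
                    · rcases c0_13_22_33_k2_k_p22_33A C with c275_0_0 | c275_1_0 | c275_2_0 | c275_3_0 | c275_4_0
                      · linarith only [c275_0_0, e2]
                      · linarith only [c275_1_0, e3]
                      · linarith only [C.a1, c239_0_1, c274_0_1, c275_2_0]
                      · rcases c0_13_22_33_k2_k_p13_22B C with c279_0_0 | c279_1_0 | c279_2_0 | c279_3_0 | c279_4_0 | c279_5_0
                        · linarith only [c279_0_0, e0]
                        · linarith only [c279_1_0, e1]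
                        · linarith only [c279_2_0, e2]
                        · linarith only [C.a1, C.f13_0, C.f13_3, c239_0_1, c272_2_0, c275_3_0, c279_3_0, s2]
                        · linarith only [c240_1_1, c275_3_0, c279_4_0, s2]
                        · rcases c0_13_22_33_k2_k_tpmm C with c284_0_0 | c284_1_0 | c284_2_0 | c284_3_0 | c284_4_0
                          · linarith only [c284_0_0, e0]
                          · linarith only [C.f13_0, C.f13_3, C.f22_1, C.f23_0, c239_0_1, c241_1_1, c275_3_0, c284_1_0, s2]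
                          · linarith only [C.a1, C.f13_0, C.f13_3, c272_2_0, c275_3_0, c284_2_0, s2]
                          · linarith only [C.a1, C.f13_0, C.f13_3, C.f22_1, c239_0_1, c272_2_0, c275_3_0, c284_3_0, s2]
                          · linarith only [C.f33_7, c279_5_0, c284_4_0, s3]
                      · linarith only [C.f13_7, c275_4_0, s3]
                    · rcases c0_13_22_33_k2_k_tpmm C with c294_0_0 | c294_1_0 | c294_2_0 | c294_3_0 | c294_4_0
                      · linarith only [c294_0_0, e0]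
                      · linarith only [C.f13_0, C.f13_3, C.f22_1, C.f22_4, C.f33_0, C.f33_4, C.o1, c239_0_1, c274_1_1, c294_1_0, s2]
                      · linarith only [C.a1, C.f13_0, C.f13_3, C.f22_1, C.f22_4, C.f33_0, C.f33_4, C.o1, c239_0_1, c272_2_0, c274_1_1, c294_2_0, s2]
                      · linarith only [C.a1, C.f13_0, C.f13_3, C.f22_1, C.f22_4, C.f33_0, C.f33_4, C.o1, c239_0_1, c272_2_0, c274_1_1, c294_3_0, s2]
                      · linarith only [C.f13_4, C.f22_1, C.f22_4, C.f33_0, C.f33_4, C.o1, c239_0_1, c274_1_1, c294_4_0, s2]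
                  · linarith only [C.f13_4, C.f22_4, C.f33_4, C.o1, C.o2, c272_3_0, s2]
                  · linarith only [C.f22_1, C.f23_0, c239_0_1, c241_1_1, c272_4_0]
                · linarith only [C.f13_4, C.f22_1, C.f22_4, C.f23_0, C.f33_4, C.o1, C.o2, c239_0_1, c241_2_1, s2]
            · rcases c0_13_22_33_k2_k_f22_5 C with ⟨c295_0_0, c295_0_1⟩ | ⟨c295_1_0, c295_1_1⟩
              · linarith only [C.a2, C.f22_4, c1_0_1, c239_1_1, c295_0_1]
              · rcases c0_13_22_33_k2_k_f23_3 C with ⟨c296_0_0, c296_0_1⟩ | ⟨c296_1_0, c296_1_1⟩ | ⟨c296_2_0, c296_2_1⟩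
                · rcases c0_13_22_33_k2_k_f23_7 C with ⟨c297_0_0, c297_0_1⟩ | ⟨c297_1_0, c297_1_1⟩ | ⟨c297_2_0, c297_2_1⟩
                  · linarith only [C.a1, C.f23_5, c1_0_1, c296_0_1, c297_0_1]
                  · rcases c0_13_22_33_k2_k_f23_10 C with ⟨c298_0_0, c298_0_1⟩ | ⟨c298_1_0, c298_1_1⟩
                    · linarith only [C.f23_9, C.o1, c297_1_1, c298_0_1, c2_1_1]
                    · rcases c0_13_22_33_k2_k_f33_2 C with ⟨c299_0_0, c299_0_1⟩ | ⟨c299_1_0, c299_1_1⟩
                      · rcases c0_13_22_33_k2_k_p13_22B C with c311_0_0 | c311_1_0 | c311_2_0 | c311_3_0 | c311_4_0 | c311_5_0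
                        · linarith only [c311_0_0, e0]
                        · linarith only [c311_1_0, e1]
                        · linarith only [c311_2_0, e2]
                        · linarith only [C.o0, c0_0_1, c239_1_1, c2_1_0, c311_3_0]
                        · rcases c0_13_22_33_k2_k_p22_33A C with c313_0_0 | c313_1_0 | c313_2_0 | c313_3_0 | c313_4_0
                          · linarith only [c313_0_0, e2]
                          · linarith only [c313_1_0, e3]
                          · linarith only [C.a1, C.f23_1, c0_0_1, c1_0_1, c237_0_1, c239_1_1, c295_1_1, c296_0_1, c299_0_1, c311_4_0, c313_2_0]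
                          · linarith only [c295_1_1, c311_4_0, c313_3_0, s2]
                          · linarith only [C.f13_7, c313_4_0, s3]
                        · rcases c0_13_22_33_k2_k_p23_33A C with c315_0_0 | c315_1_0 | c315_2_0 | c315_3_0 | c315_4_0 | c315_5_0
                          · linarith only [C.a1, C.f23_1, c296_0_1, c315_0_0, e0]
                          · linarith only [c315_1_0, e1]
                          · linarith only [c315_2_0, e3]
                          · linarith only [C.a1, c296_0_1, c299_0_1, c315_3_0]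
                          · rcases c0_13_22_33_k2_k_tzpm C with c318_0_0 | c318_1_0 | c318_2_0 | c318_3_0 | ⟨c318_4_0, c318_4_1⟩
                            · linarith only [C.a1, C.f23_1, c296_0_1, c318_0_0]
                            · linarith only [C.f13_7, C.f22_4, C.f22_6, C.f33_7, C.o1, c318_1_0, s3]
                            · rcases c0_13_22_33_k2_k_tpmm C with c319_0_0 | c319_1_0 | c319_2_0 | c319_3_0 | c319_4_0
                              · linarith only [c319_0_0, e0]
                              · linarith only [C.f13_0, C.f13_3, C.f22_4, c297_1_1, c315_4_0, c319_1_0, s2]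
                              · linarith only [C.a1, C.o1, c1_0_1, c318_2_0, c319_2_0]
                              · linarith only [C.a1, C.f23_1, c1_0_1, c296_0_1, c318_2_0, c319_3_0]
                              · linarith only [C.f33_7, c311_5_0, c319_4_0, s3]
                            · linarith only [C.f13_4, C.f22_4, C.f33_4, C.f33_7, C.o1, c311_5_0, c318_3_0, s2, s3]
                            · linarith only [C.f33_7, c311_5_0, c318_4_1, s3]
                          · linarith only [c298_1_1, c311_5_0, c315_5_0, s3]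
                      · rcases c0_13_22_33_k2_k_tzpm C with c328_0_0 | c328_1_0 | c328_2_0 | c328_3_0 | ⟨c328_4_0, c328_4_1⟩
                        · linarith only [C.a1, C.f23_1, c296_0_1, c328_0_0]
                        · linarith only [C.o1, C.o2, c2_1_1, c328_1_0]
                        · rcases c0_13_22_33_k2_k_tpmm C with c329_0_0 | c329_1_0 | c329_2_0 | c329_3_0 | c329_4_0
                          · linarith only [c329_0_0, e0]
                          · linarith only [C.f13_0, C.f13_3, C.f22_4, C.f23_1, C.f33_0, C.f33_4, c296_0_1, c299_1_1, c329_1_0, s2]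
                          · linarith only [C.a1, C.f13_0, C.f13_3, C.f22_4, C.f23_1, C.f33_0, C.f33_4, C.o1, c296_0_1, c299_1_1, c328_2_0, c329_2_0, s2]
                          · linarith only [C.a1, C.f13_0, C.f13_3, C.f22_4, C.f23_1, C.f33_0, C.f33_4, c296_0_1, c299_1_1, c328_2_0, c329_3_0, s2]
                          · linarith only [C.f13_4, C.f22_4, C.f23_1, C.f33_0, C.f33_4, c296_0_1, c299_1_1, c329_4_0, s2]
                        · linarith only [C.f13_4, C.f22_4, C.f23_1, C.f33_0, C.f33_4, C.o1, c296_0_1, c299_1_1, c328_3_0, s2]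
                        · linarith only [C.f13_4, C.f22_4, C.f23_1, C.f33_0, C.f33_4, c296_0_1, c299_1_1, c328_4_1, s2]
                  · linarith only [C.f13_4, C.f22_4, C.f23_5, C.f33_4, C.o2, c297_2_1, s2]
                · rcases c0_13_22_33_k2_k_f23_7 C with ⟨c330_0_0, c330_0_1⟩ | ⟨c330_1_0, c330_1_1⟩ | ⟨c330_2_0, c330_2_1⟩
                  · linarith only [C.a2, C.f23_5, c1_0_1, c296_1_1, c330_0_1]
                  · rcases c0_13_22_33_k2_k_f23_10 C with ⟨c331_0_0, c331_0_1⟩ | ⟨c331_1_0, c331_1_1⟩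
                    · linarith only [C.f23_9, C.o1, c2_1_1, c330_1_1, c331_0_1]
                    · rcases c0_13_22_33_k2_k_p13_22B C with c347_0_0 | c347_1_0 | c347_2_0 | c347_3_0 | c347_4_0 | c347_5_0
                      · linarith only [c347_0_0, e0]
                      · linarith only [c347_1_0, e1]
                      · linarith only [c347_2_0, e2]
                      · linarith only [C.o0, c0_0_1, c239_1_1, c2_1_0, c347_3_0]
                      · rcases c0_13_22_33_k2_k_p22_33A C with c348_0_0 | c348_1_0 | c348_2_0 | c348_3_0 | c348_4_0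
                        · linarith only [c348_0_0, e2]
                        · linarith only [c348_1_0, e3]
                        · linarith only [C.b3, c237_0_1, c295_1_1, c347_4_0, c348_2_0, s1]
                        · linarith only [c295_1_1, c347_4_0, c348_3_0, s2]
                        · linarith only [C.f13_7, c348_4_0, s3]
                      · rcases c0_13_22_33_k2_k_p13_33A C with c349_0_0 | c349_1_0 | c349_2_0 | c349_3_0 | c349_4_0 | c349_5_0
                        · linarith only [c349_0_0, e0]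
                        · linarith only [c349_1_0, e1]
                        · linarith only [c349_2_0, e3]
                        · rcases c0_13_22_33_k2_k_tpmm C with c350_0_0 | c350_1_0 | c350_2_0 | c350_3_0 | c350_4_0
                          · linarith only [c350_0_0, e0]
                          · rcases c0_13_22_33_k2_k_p23_33A C with c352_0_0 | c352_1_0 | c352_2_0 | c352_3_0 | c352_4_0 | c352_5_0
                            · linarith only [C.b3, C.f22_1, c349_3_0, c350_1_0, c352_0_0, e0, s1]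
                            · linarith only [c352_1_0, e1]
                            · linarith only [c352_2_0, e3]
                            · linarith only [C.b3, C.f13_0, C.f22_1, c296_1_1, c350_1_0, c352_3_0, s1]
                            · linarith only [C.f13_0, C.f13_3, C.f22_4, c330_1_1, c350_1_0, c352_4_0, s2]
                            · linarith only [c331_1_1, c347_5_0, c352_5_0, s3]
                          · linarith only [C.a1, C.o0, c350_2_0]
                          · linarith only [C.f22_1, c349_3_0, c350_3_0, s1]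
                          · linarith only [C.f33_7, c347_5_0, c350_4_0, s3]
                        · linarith only [C.f22_4, c349_4_0, s2]
                        · linarith only [c238_1_1, c347_5_0, c349_5_0, s3]
                  · linarith only [C.f13_4, C.f22_4, C.f23_5, C.f33_4, C.o2, c330_2_1, s2]
                · linarith only [C.f13_4, C.f22_4, C.f23_1, C.f33_4, C.o2, c296_2_1, s2]
        · rcases c0_13_22_33_k2_k_f13_8 C with ⟨c353_0_0, c353_0_1⟩ | ⟨c353_1_0, c353_1_1⟩
          · linarith only [C.a4, C.f13_7, C.f22_4, C.f22_6, C.f33_7, C.o1, c237_1_1, c353_0_1, s3]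
          · rcases c0_13_22_33_k2_k_f22_2 C with ⟨c354_0_0, c354_0_1⟩ | ⟨c354_1_0, c354_1_1⟩
            · rcases c0_13_22_33_k2_k_f22_5 C with ⟨c355_0_0, c355_0_1⟩ | ⟨c355_1_0, c355_1_1⟩
              · linarith only [C.a1, C.f13_0, C.f13_3, C.f22_4, C.f33_4, C.o1, C.o2, c237_1_1, c354_0_1, c355_0_1, s2]
              · rcases c0_13_22_33_k2_k_p13_22B C with c356_0_0 | c356_1_0 | c356_2_0 | c356_3_0 | c356_4_0 | c356_5_0
                · linarith only [c356_0_0, e0]
                · linarith only [c356_1_0, e1]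
                · linarith only [c356_2_0, e2]
                · linarith only [C.a1, C.o0, c0_0_1, c354_0_1, c356_3_0]
                · linarith only [C.f33_4, C.o1, C.o2, c237_1_1, c355_1_1, c356_4_0, s2]
                · rcases c0_13_22_33_k2_k_tzpm C with c358_0_0 | c358_1_0 | c358_2_0 | c358_3_0 | ⟨c358_4_0, c358_4_1⟩
                  · linarith only [C.a1, C.f22_1, C.o1, c354_0_1, c358_0_0]
                  · linarith only [C.o1, C.o2, c2_1_1, c358_1_0]
                  · rcases c0_13_22_33_k2_k_tpmm C with c360_0_0 | c360_1_0 | c360_2_0 | c360_3_0 | c360_4_0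
                    · linarith only [c360_0_0, e0]
                    · linarith only [C.f13_0, C.f13_3, C.f22_4, C.f33_4, C.o2, c237_1_1, c360_1_0, s2]
                    · linarith only [C.a1, C.f13_0, C.f13_3, C.f22_4, C.f33_4, C.f33_7, C.o1, c237_1_1, c356_5_0, c358_2_0, c360_2_0, s2, s3]
                    · linarith only [C.a1, C.f13_0, C.f13_3, C.f22_1, C.f22_4, C.f33_4, C.f33_7, C.o1, c237_1_1, c354_0_1, c356_5_0, c358_2_0, c360_3_0, s2, s3]
                    · linarith only [C.f33_7, c356_5_0, c360_4_0, s3]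
                  · linarith only [C.f13_4, C.f22_4, C.f33_4, C.o1, C.o2, c358_3_0, s2]
                  · linarith only [C.f33_7, c356_5_0, c358_4_1, s3]
            · rcases c0_13_22_33_k2_k_f22_5 C with ⟨c361_0_0, c361_0_1⟩ | ⟨c361_1_0, c361_1_1⟩
              · linarith only [C.a2, C.f13_0, C.f13_3, C.f22_4, C.f33_4, C.o2, c237_1_1, c354_1_1, c361_0_1, s2]
              · rcases c0_13_22_33_k2_k_p13_22B C with c362_0_0 | c362_1_0 | c362_2_0 | c362_3_0 | c362_4_0 | c362_5_0
                · linarith only [c362_0_0, e0]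
                · linarith only [c362_1_0, e1]
                · linarith only [c362_2_0, e2]
                · linarith only [C.o0, c0_0_1, c2_1_0, c354_1_1, c362_3_0]
                · linarith only [C.f33_4, C.o1, C.o2, c237_1_1, c361_1_1, c362_4_0, s2]
                · rcases c0_13_22_33_k2_k_p13_33A C with c363_0_0 | c363_1_0 | c363_2_0 | c363_3_0 | c363_4_0 | c363_5_0
                  · linarith only [c363_0_0, e0]
                  · linarith only [c363_1_0, e1]
                  · linarith only [c363_2_0, e3]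
                  · rcases c0_13_22_33_k2_k_tpmm C with c364_0_0 | c364_1_0 | c364_2_0 | c364_3_0 | c364_4_0
                    · linarith only [c364_0_0, e0]
                    · linarith only [C.f13_0, C.f13_3, C.f22_4, C.f33_4, C.o2, c237_1_1, c364_1_0, s2]
                    · linarith only [C.a1, C.o0, c364_2_0]
                    · linarith only [C.f22_1, c363_3_0, c364_3_0, s1]
                    · linarith only [C.f33_7, c362_5_0, c364_4_0, s3]
                  · linarith only [C.f22_4, c363_4_0, s2]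
                  · linarith only [c353_1_1, c362_5_0, c363_5_0, s3]
    · rcases c0_13_22_33_k2_k_t23 C with ⟨c365_0_0, c365_0_1⟩ | ⟨c365_1_0, c365_1_1⟩
      · rcases c0_13_22_33_k2_k_tzpm C with c366_0_0 | c366_1_0 | c366_2_0 | c366_3_0 | ⟨c366_4_0, c366_4_1⟩
        · linarith only [c365_0_0, c366_0_0]
        · linarith only [C.f13_7, C.f22_4, C.f22_6, C.f33_7, C.o1, c366_1_0, s3]
        · linarith only [c1_1_1, c366_2_0]
        · linarith only [C.f13_4, C.f22_4, C.f33_4, C.o1, C.o2, c366_3_0, s2]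
        · rcases c0_13_22_33_k2_k_tmzp C with c367_0_0 | c367_1_0 | c367_2_0 | c367_3_0 | c367_4_0 | c367_5_0
          · rcases c0_13_22_33_k2_k_f33_2 C with ⟨c369_0_0, c369_0_1⟩ | ⟨c369_1_0, c369_1_1⟩
            · rcases c0_13_22_33_k2_k_p11_33B C with c371_0_0 | c371_1_0 | c371_2_0 | c371_3_0 | c371_4_0
              · linarith only [c1_1_0, c371_0_0]
              · linarith only [c371_1_0, e3]
              · linarith only [C.a1, C.f11_0, C.o0, c369_0_1, c371_2_0]
              · rcases c0_13_22_33_k2_k_f33_5 C with ⟨c373_0_0, c373_0_1⟩ | ⟨c373_1_0, c373_1_1⟩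
                · linarith only [C.a1, C.f11_0, C.f11_1, C.f13_0, C.f13_3, C.f22_4, c1_1_1, c366_4_0, c369_0_1, c371_3_0, c373_0_1, s2]
                · linarith only [C.f11_0, C.f11_1, C.f13_4, C.f22_4, c1_1_1, c366_4_0, c366_4_1, c371_3_0, c373_1_1, s2]
              · linarith only [C.f11_0, C.f11_1, C.f11_2, C.f13_7, C.f22_4, C.f22_6, c1_1_1, c366_4_1, c371_4_0, s3]
            · linarith only [C.f13_4, C.f22_4, C.f33_0, C.f33_4, c365_0_0, c366_4_1, c367_0_0, c369_1_1, s2]
          · linarith only [c365_0_0, c367_1_0]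
          · linarith only [C.f13_4, C.f22_4, C.f33_4, c366_4_1, c367_2_0, s2]
          · linarith only [c1_1_0, c367_3_0]
          · linarith only [c1_1_1, c367_4_0]
          · linarith only [C.f13_7, C.f22_4, C.f22_6, C.f33_7, c366_4_1, c367_5_0, s3]
      · rcases c0_13_22_33_k2_k_f13_5 C with ⟨c374_0_0, c374_0_1⟩ | ⟨c374_1_0, c374_1_1⟩
        · rcases c0_13_22_33_k2_k_f13_8 C with ⟨c375_0_0, c375_0_1⟩ | ⟨c375_1_0, c375_1_1⟩
          · linarith only [C.f13_7, C.o0, c0_0_1, c1_1_1, c365_1_1, c374_0_1, c375_0_1]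
          · rcases c0_13_22_33_k2_k_p11_13B C with c376_0_0 | c376_1_0 | c376_2_0 | c376_3_0 | c376_4_0 | c376_5_0
            · linarith only [c1_1_0, c376_0_0]
            · linarith only [c376_1_0, e0]
            · linarith only [c376_2_0, e1]
            · rcases c0_13_22_33_k2_k_p11_33A C with c377_0_0 | c377_1_0 | c377_2_0 | c377_3_0 | c377_4_0
              · linarith only [c1_1_0, c377_0_0]
              · linarith only [c377_1_0, e3]
              · rcases c0_13_22_33_k2_k_f22_5 C with ⟨c378_0_0, c378_0_1⟩ | ⟨c378_1_0, c378_1_1⟩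
                · linarith only [C.f11_0, C.f22_4, c1_1_1, c376_3_0, c377_2_0, c378_0_1, s1]
                · rcases c0_13_22_33_k2_k_p13_22B C with c379_0_0 | c379_1_0 | c379_2_0 | c379_3_0 | c379_4_0 | c379_5_0
                  · linarith only [c379_0_0, e0]
                  · linarith only [c379_1_0, e1]
                  · linarith only [c379_2_0, e2]
                  · linarith only [C.f11_0, c377_2_0, c379_3_0, s1]
                  · linarith only [C.o0, c0_0_1, c1_1_1, c374_0_1, c378_1_1, c379_4_0]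
                  · rcases c0_13_22_33_k2_k_p13_33A C with c380_0_0 | c380_1_0 | c380_2_0 | c380_3_0 | c380_4_0 | c380_5_0
                    · linarith only [c380_0_0, e0]
                    · linarith only [c380_1_0, e1]
                    · linarith only [c380_2_0, e3]
                    · rcases c0_13_22_33_k2_k_tzpm C with c388_0_0 | c388_1_0 | c388_2_0 | c388_3_0 | ⟨c388_4_0, c388_4_1⟩
                      · linarith only [C.f11_0, C.f22_1, C.o1, c0_0_1, c376_3_0, c380_3_0, c388_0_0, s1]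
                      · linarith only [C.f13_7, C.f22_4, C.f22_6, C.f33_7, C.o1, c388_1_0, s3]
                      · linarith only [c1_1_1, c388_2_0]
                      · linarith only [C.f13_4, C.f22_4, C.f33_4, C.f33_7, C.o1, c379_5_0, c388_3_0, s2, s3]
                      · linarith only [C.f33_7, c379_5_0, c388_4_1, s3]
                    · linarith only [C.f22_4, c380_4_0, s2]
                    · linarith only [c375_1_1, c379_5_0, c380_5_0, s3]
              · linarith only [C.f11_0, C.f11_1, C.f13_3, C.f22_4, c376_3_0, c377_3_0, s2]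
              · linarith only [C.f11_0, C.f11_1, C.f11_2, C.f13_7, C.f22_4, C.f22_6, c1_1_1, c377_4_0, s3]
            · linarith only [C.f11_0, C.f11_1, C.o0, c0_0_1, c1_1_1, c374_0_1, c376_4_0]
            · linarith only [C.f11_0, C.f11_1, C.f11_2, c1_1_1, c365_1_1, c375_1_1, c376_5_0]
        · rcases c0_13_22_33_k2_k_f13_8 C with ⟨c389_0_0, c389_0_1⟩ | ⟨c389_1_0, c389_1_1⟩
          · linarith only [C.a4, C.f13_7, C.f22_4, C.f22_6, C.f33_7, C.o1, c374_1_1, c389_0_1, s3]
          · rcases c0_13_22_33_k2_k_p11_13B C with c390_0_0 | c390_1_0 | c390_2_0 | c390_3_0 | c390_4_0 | c390_5_0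
            · linarith only [c1_1_0, c390_0_0]
            · linarith only [c390_1_0, e0]
            · linarith only [c390_2_0, e1]
            · rcases c0_13_22_33_k2_k_p11_33A C with c392_0_0 | c392_1_0 | c392_2_0 | c392_3_0 | c392_4_0
              · linarith only [c1_1_0, c392_0_0]
              · linarith only [c392_1_0, e3]
              · rcases c0_13_22_33_k2_k_f22_5 C with ⟨c393_0_0, c393_0_1⟩ | ⟨c393_1_0, c393_1_1⟩
                · linarith only [C.f11_0, C.f13_3, C.f22_4, C.f33_4, C.o1, C.o2, c374_1_1, c390_3_0, c392_2_0, c393_0_1, s1, s2]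
                · rcases c0_13_22_33_k2_k_p13_22B C with c394_0_0 | c394_1_0 | c394_2_0 | c394_3_0 | c394_4_0 | c394_5_0
                  · linarith only [c394_0_0, e0]
                  · linarith only [c394_1_0, e1]
                  · linarith only [c394_2_0, e2]
                  · linarith only [C.f11_0, c392_2_0, c394_3_0, s1]
                  · linarith only [C.f33_4, C.o1, C.o2, c374_1_1, c393_1_1, c394_4_0, s2]
                  · rcases c0_13_22_33_k2_k_p11_22B C with c395_0_0 | c395_1_0 | c395_2_0 | c395_3_0 | c395_4_0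
                    · linarith only [c1_1_0, c395_0_0]
                    · linarith only [c395_1_0, e2]
                    · rcases c0_13_22_33_k2_k_f22_2 C with ⟨c396_0_0, c396_0_1⟩ | ⟨c396_1_0, c396_1_1⟩
                      · linarith only [C.f11_0, C.f13_0, C.f33_0, C.o0, c395_2_0, c396_0_1, s1]
                      · rcases c0_13_22_33_k2_k_f33_5 C with ⟨c397_0_0, c397_0_1⟩ | ⟨c397_1_0, c397_1_1⟩
                        · linarith only [C.f11_0, C.f13_0, C.f13_3, C.f33_4, C.o2, c374_1_1, c395_2_0, c397_0_1, s1]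
                        · rcases c0_13_22_33_k2_k_f33_8 C with ⟨c398_0_0, c398_0_1⟩ | ⟨c398_1_0, c398_1_1⟩
                          · linarith only [C.f11_0, C.f13_0, C.f13_7, C.f22_4, C.f22_6, C.f33_1, C.f33_7, C.o0, c395_2_0, c396_1_1, c397_1_1, c398_0_1, s1, s3]
                          · rcases c0_13_22_33_k2_k_p11_33B C with c399_0_0 | c399_1_0 | c399_2_0 | c399_3_0 | c399_4_0
                            · linarith only [c1_1_0, c399_0_0]
                            · linarith only [c399_1_0, e3]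
                            · linarith only [C.f11_0, C.f13_0, C.o0, c395_2_0, c399_2_0, s1]
                            · linarith only [C.f11_0, C.f11_1, C.f13_0, C.f13_3, C.f33_1, C.f33_7, C.o0, c374_1_1, c394_5_0, c395_2_0, c396_1_1, c397_1_1, c399_3_0, s1, s3]
                            · linarith only [C.f11_0, C.f11_1, C.f11_2, C.f13_0, C.f13_3, C.f33_1, c365_1_1, c374_1_1, c395_2_0, c396_1_1, c398_1_1, c399_4_0, s1]
                    · linarith only [C.f11_0, C.f11_1, C.f13_3, C.f33_4, C.f33_7, C.o1, c374_1_1, c390_3_0, c393_1_1, c394_5_0, c395_3_0, s2, s3]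
                    · linarith only [C.a4, C.f11_0, C.f11_1, C.f11_2, C.f13_3, C.f13_7, C.f33_7, C.o1, c365_1_1, c374_1_1, c390_3_0, c395_4_0, s3]
              · linarith only [C.f11_0, C.f11_1, C.f13_3, C.f22_4, c390_3_0, c392_3_0, s2]
              · linarith only [C.a3, C.f11_0, C.f11_1, C.f11_2, C.f13_7, C.f22_4, C.f22_6, C.o1, c0_0_1, c390_3_0, c392_4_0, s3]
            · linarith only [C.f11_0, C.f11_1, C.f22_4, C.f33_4, C.o1, C.o2, c1_1_1, c374_1_1, c390_4_0, s2]
            · linarith only [C.f11_0, C.f11_1, C.f11_2, c1_1_1, c365_1_1, c389_1_1, c390_5_0]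
  · linarith only [C.a2, C.a4, C.f13_0, C.o2, c0_1_1]

end Pool.Agent.Helper24.TQ
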