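import Pool.Agent.Helper89.TQ.Ctx

set_option autoImplicit false
set_option linter.all false
set_option maxHeartbeats 4000000

namespace Pool.Agent.Helper24.TQ

open Pool.Agent.Helper89.TQ

theorem c0_13_22_33_k3_k_t12 {n1 n2 n3 A1 A2 A3 B1 B2 B3 m11_1 m11_2 m11_3 m13_1 m13_2 m13_3 m22_1 m22_2 m22_3 m23_1 m23_2 m23_3 m33_1 m33_2 m33_3 : ℤ} (C : Ctx0 n1 n2 n3 A1 A2 A3 B1 B2 B3 m11_1 m11_2 m11_3 m13_1 m13_2 m13_3 m22_1 m22_2 m22_3 m23_1 m23_2 m23_3 m33_1 m33_2 m33_3) :
    ((-1) * A1 ≤ -1 ∧ (-1) * A1 + 1 * A2 + (-1) * n2 ≤ -1) ∨ ((-1) * B1 ≤ -1 ∧ (-1) * B1 + 1 * B2 + (-1) * n2 ≤ -1) := by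
  have h := C.t12
  clear C
  omega

theorem c0_13_22_33_k3_k_t23 {n1 n2 n3 A1 A2 A3 B1 B2 B3 m11_1 m11_2 m11_3 m13_1 m13_2 m13_3 m22_1 m22_2 m22_3 m23_1 m23_2 m23_3 m33_1 m33_2 m33_3 : ℤ} (C : Ctx0 n1 n2 n3 A1 A2 A3 B1 B2 B3 m11_1 m11_2 m11_3 m13_1 m13_2 m13_3 m22_1 m22_2 m22_3 m23_1 m23_2 m23_3 m33_1 m33_2 m33_3) :
    (1 * A1 + (-1) * A2 ≤ -1 ∧ (-1) * A2 + 1 * A3 + (-1) * n3 ≤ -1) ∨ (1 * B1 + (-1) * B2 ≤ -1 ∧ (-1) * B2 + 1 * B3 + (-1) * n3 ≤ -1) := by
  have h := C.t23
  clear C
  omega

theorem c0_13_22_33_k3_k_f13_2 {n1 n2 n3 A1 A2 A3 B1 B2 B3 m11_1 m11_2 m11_3 m13_1 m13_2 m13_3 m22_1 m22_2 m22_3 m23_1 m23_2 m23_3 m33_1 m33_2 m33_3 : ℤ} (C : Ctx0 n1 n2 n3 A1 A2 A3 B1 B2 B3 m11_1 m11_2 m11_3 m13_1 m13_2 m13_3 m22_1 m22_2 m22_3 m23_1 m23_2 m23_3 m33_1 m33_2 m33_3) :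
    ((-1) * A1 + 1 * m13_1 ≤ -1 ∧ 1 * A1 + (-1) * m13_1 ≤ 1) ∨ ((-1) * B3 + 1 * m13_1 ≤ -1 ∧ 1 * B3 + (-1) * m13_1 ≤ 1) := by
  have h := C.f13_2
  clear C
  omega

theorem c0_13_22_33_k3_k_f13_5 {n1 n2 n3 A1 A2 A3 B1 B2 B3 m11_1 m11_2 m11_3 m13_1 m13_2 m13_3 m22_1 m22_2 m22_3 m23_1 m23_2 m23_3 m33_1 m33_2 m33_3 : ℤ} (C : Ctx0 n1 n2 n3 A1 A2 A3 B1 B2 B3 m11_1 m11_2 m11_3 m13_1 m13_2 m13_3 m22_1 m22_2 m22_3 m23_1 m23_2 m23_3 m33_1 m33_2 m33_3) :
    ((-1) * m13_1 + 1 * m13_2 + (-1) * n2 ≤ 0 ∧ 1 * m13_1 + (-1) * m13_2 + 1 * n2 ≤ 0) ∨ ((-1) * B3 + 1 * m13_2 ≤ -1 ∧ 1 * B3 + (-1) * m13_2 ≤ 1) := by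
  have h := C.f13_5
  clear C
  omega

theorem c0_13_22_33_k3_k_f13_8 {n1 n2 n3 A1 A2 A3 B1 B2 B3 m11_1 m11_2 m11_3 m13_1 m13_2 m13_3 m22_1 m22_2 m22_3 m23_1 m23_2 m23_3 m33_1 m33_2 m33_3 : ℤ} (C : Ctx0 n1 n2 n3 A1 A2 A3 B1 B2 B3 m11_1 m11_2 m11_3 m13_1 m13_2 m13_3 m22_1 m22_2 m22_3 m23_1 m23_2 m23_3 m33_1 m33_2 m33_3) :
    ((-1) * m13_2 + 1 * m13_3 + (-1) * n3 ≤ 0 ∧ 1 * m13_2 + (-1) * m13_3 + 1 * n3 ≤ 0) ∨ ((-1) * B3 + 1 * m13_3 ≤ -1 ∧ 1 * B3 + (-1) * m13_3 ≤ 1) := by
  have h := C.f13_8
  clear C
  omega

theorem c0_13_22_33_k3_k_f22_2 {n1 n2 n3 A1 A2 A3 B1 B2 B3 m11_1 m11_2 m11_3 m13_1 m13_2 m13_3 m22_1 m22_2 m22_3 m23_1 m23_2 m23_3 m33_1 m33_2 m33_3 : ℤ} (C : Ctx0 n1 n2 n3 A1 A2 A3 B1 B2 B3 m11_1 m11_2 m11_3 m13_1 m13_2 m13_3 m22_1 m22_2 m22_3 m23_1 m23_2 m23_3 m33_1 m33_2 m33_3) :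
    (1 * m22_1 + (-1) * n1 ≤ 0 ∧ (-1) * m22_1 + 1 * n1 ≤ 0) ∨ ((-1) * B2 + 1 * m22_1 ≤ -1 ∧ 1 * B2 + (-1) * m22_1 ≤ 1) := by
  have h := C.f22_2
  clear C
  omega

theorem c0_13_22_33_k3_k_f22_5 {n1 n2 n3 A1 A2 A3 B1 B2 B3 m11_1 m11_2 m11_3 m13_1 m13_2 m13_3 m22_1 m22_2 m22_3 m23_1 m23_2 m23_3 m33_1 m33_2 m33_3 : ℤ} (C : Ctx0 n1 n2 n3 A1 A2 A3 B1 B2 B3 m11_1 m11_2 m11_3 m13_1 m13_2 m13_3 m22_1 m22_2 m22_3 m23_1 m23_2 m23_3 m33_1 m33_2 m33_3) :
    ((-1) * m22_1 + 1 * m22_2 + (-1) * n2 ≤ 0 ∧ 1 * m22_1 + (-1) * m22_2 + 1 * n2 ≤ 0) ∨ ((-1) * B2 + 1 * m22_2 ≤ -1 ∧ 1 * B2 + (-1) * m22_2 ≤ 1) := by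
  have h := C.f22_5
  clear C
  omega

theorem c0_13_22_33_k3_k_f23_3 {n1 n2 n3 A1 A2 A3 B1 B2 B3 m11_1 m11_2 m11_3 m13_1 m13_2 m13_3 m22_1 m22_2 m22_3 m23_1 m23_2 m23_3 m33_1 m33_2 m33_3 : ℤ} (C : Ctx0 n1 n2 n3 A1 A2 A3 B1 B2 B3 m11_1 m11_2 m11_3 m13_1 m13_2 m13_3 m22_1 m22_2 m22_3 m23_1 m23_2 m23_3 m33_1 m33_2 m33_3) :
    (1 * m23_1 + (-1) * n1 ≤ 0 ∧ (-1) * m23_1 + 1 * n1 ≤ 0) ∨ ((-1) * A2 + 1 * m23_1 ≤ -1 ∧ 1 * A2 + (-1) * m23_1 ≤ 1) ∨ ((-1) * B3 + 1 * m23_1 ≤ -1 ∧ 1 * B3 + (-1) * m23_1 ≤ 1) := by
  have h := C.f23_3
  clear C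
  omega

theorem c0_13_22_33_k3_k_f23_7 {n1 n2 n3 A1 A2 A3 B1 B2 B3 m11_1 m11_2 m11_3 m13_1 m13_2 m13_3 m22_1 m22_2 m22_3 m23_1 m23_2 m23_3 m33_1 m33_2 m33_3 : ℤ} (C : Ctx0 n1 n2 n3 A1 A2 A3 B1 B2 B3 m11_1 m11_2 m11_3 m13_1 m13_2 m13_3 m22_1 m22_2 m22_3 m23_1 m23_2 m23_3 m33_1 m33_2 m33_3) :
    ((-1) * m23_1 + 1 * m23_2 + (-1) * n2 ≤ 0 ∧ 1 * m23_1 + (-1) * m23_2 + 1 * n2 ≤ 0) ∨ ((-1) * A2 + 1 * m23_2 ≤ -1 ∧ 1 * A2 + (-1) * m23_2 ≤ 1) ∨ ((-1) * B3 + 1 * m23_2 ≤ -1 ∧ 1 * B3 + (-1) * m23_2 ≤ 1) := by
  have h := C.f23_7
  clear C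
  omega

theorem c0_13_22_33_k3_k_f23_10 {n1 n2 n3 A1 A2 A3 B1 B2 B3 m11_1 m11_2 m11_3 m13_1 m13_2 m13_3 m22_1 m22_2 m22_3 m23_1 m23_2 m23_3 m33_1 m33_2 m33_3 : ℤ} (C : Ctx0 n1 n2 n3 A1 A2 A3 B1 B2 B3 m11_1 m11_2 m11_3 m13_1 m13_2 m13_3 m22_1 m22_2 m22_3 m23_1 m23_2 m23_3 m33_1 m33_2 m33_3) :
    ((-1) * m23_2 + 1 * m23_3 + (-1) * n3 ≤ 0 ∧ 1 * m23_2 + (-1) * m23_3 + 1 * n3 ≤ 0) ∨ ((-1) * B3 + 1 * m23_3 ≤ -1 ∧ 1 * B3 + (-1) * m23_3 ≤ 1) := by
  have h := C.f23_10
  clear C
  omega

theorem c0_13_22_33_k3_k_f33_2 {n1 n2 n3 A1 A2 A3 B1 B2 B3 m11_1 m11_2 m11_3 m13_1 m13_2 m13_3 m22_1 m22_2 m22_3 m23_1 m23_2 m23_3 m33_1 m33_2 m33_3 : ℤ} (C : Ctx0 n1 n2 n3 A1 A2 A3 B1 B2 B3 m11_1 m11_2 m11_3 m13_1 m13_2 m13_3 m22_1 m22_2 m22_3 m23_1 m23_2 m23_3 m33_1 m33_2 m33_3) :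
    (1 * m33_1 + (-1) * n1 ≤ 0 ∧ (-1) * m33_1 + 1 * n1 ≤ 0) ∨ ((-1) * A3 + 1 * m33_1 ≤ -1 ∧ 1 * A3 + (-1) * m33_1 ≤ 1) := by
  have h := C.f33_2
  clear C
  omega

theorem c0_13_22_33_k3_k_f33_5 {n1 n2 n3 A1 A2 A3 B1 B2 B3 m11_1 m11_2 m11_3 m13_1 m13_2 m13_3 m22_1 m22_2 m22_3 m23_1 m23_2 m23_3 m33_1 m33_2 m33_3 : ℤ} (C : Ctx0 n1 n2 n3 A1 A2 A3 B1 B2 B3 m11_1 m11_2 m11_3 m13_1 m13_2 m13_3 m22_1 m22_2 m22_3 m23_1 m23_2 m23_3 m33_1 m33_2 m33_3) :
    ((-1) * m33_1 + 1 * m33_2 + (-1) * n2 ≤ 0 ∧ 1 * m33_1 + (-1) * m33_2 + 1 * n2 ≤ 0) ∨ ((-1) * A3 + 1 * m33_2 ≤ -1 ∧ 1 * A3 + (-1) * m33_2 ≤ 1) := by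
  have h := C.f33_5
  clear C
  omega

theorem c0_13_22_33_k3_k_f33_8 {n1 n2 n3 A1 A2 A3 B1 B2 B3 m11_1 m11_2 m11_3 m13_1 m13_2 m13_3 m22_1 m22_2 m22_3 m23_1 m23_2 m23_3 m33_1 m33_2 m33_3 : ℤ} (C : Ctx0 n1 n2 n3 A1 A2 A3 B1 B2 B3 m11_1 m11_2 m11_3 m13_1 m13_2 m13_3 m22_1 m22_2 m22_3 m23_1 m23_2 m23_3 m33_1 m33_2 m33_3) :
    ((-1) * m33_2 + 1 * m33_3 + (-1) * n3 ≤ 0 ∧ 1 * m33_2 + (-1) * m33_3 + 1 * n3 ≤ 0) ∨ ((-1) * A3 + 1 * m33_3 ≤ -1 ∧ 1 * A3 + (-1) * m33_3 ≤ 1) := by
  have h := C.f33_8
  clear C
  omega

theorem c0_13_22_33_k3_k_p11_13B {n1 n2 n3 A1 A2 A3 B1 B2 B3 m11_1 m11_2 m11_3 m13_1 m13_2 m13_3 m22_1 m22_2 m22_3 m23_1 m23_2 m23_3 m33_1 m33_2 m33_3 : ℤ} (C : Ctx0 n1 n2 n3 A1 A2 A3 B1 B2 B3 m11_1 m11_2 m11_3 m13_1 m13_2 m13_3 m22_1 m22_2 m22_3 m23_1 m23_2 m23_3 m33_1 m33_2 m33_3) :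
    (1 * B1 ≤ 0) ∨ (1 * A1 ≤ 0) ∨ (1 * B3 ≤ 0) ∨ ((-2) * B1 + 1 * m11_1 + 1 * m13_1 ≤ -1) ∨ ((-2) * B2 + 1 * m11_2 + 1 * m13_2 ≤ -1) ∨ ((-2) * B3 + 1 * m11_3 + 1 * m13_3 ≤ -1) := by
  have h := C.p11_13B
  clear C
  omega

theorem c0_13_22_33_k3_k_p11_22B {n1 n2 n3 A1 A2 A3 B1 B2 B3 m11_1 m11_2 m11_3 m13_1 m13_2 m13_3 m22_1 m22_2 m22_3 m23_1 m23_2 m23_3 m33_1 m33_2 m33_3 : ℤ} (C : Ctx0 n1 n2 n3 A1 A2 A3 B1 B2 B3 m11_1 m11_2 m11_3 m13_1 m13_2 m13_3 m22_1 m22_2 m22_3 m23_1 m23_2 m23_3 m33_1 m33_2 m33_3) :
    (1 * B1 ≤ 0) ∨ (1 * B2 ≤ 0) ∨ ((-2) * B1 + 1 * m11_1 + 1 * m22_1 ≤ -1) ∨ ((-2) * B2 + 1 * m11_2 + 1 * m22_2 ≤ -1) ∨ ((-2) * B3 + 1 * m11_3 + 1 * m22_3 ≤ -1) := by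
  have h := C.p11_22B
  clear C
  omega

theorem c0_13_22_33_k3_k_p11_23B {n1 n2 n3 A1 A2 A3 B1 B2 B3 m11_1 m11_2 m11_3 m13_1 m13_2 m13_3 m22_1 m22_2 m22_3 m23_1 m23_2 m23_3 m33_1 m33_2 m33_3 : ℤ} (C : Ctx0 n1 n2 n3 A1 A2 A3 B1 B2 B3 m11_1 m11_2 m11_3 m13_1 m13_2 m13_3 m22_1 m22_2 m22_3 m23_1 m23_2 m23_3 m33_1 m33_2 m33_3) :
    (1 * B1 ≤ 0) ∨ (1 * A2 ≤ 0) ∨ (1 * B3 ≤ 0) ∨ ((-2) * B1 + 1 * m11_1 + 1 * m23_1 ≤ -1) ∨ ((-2) * B2 + 1 * m11_2 + 1 * m23_2 ≤ -1) ∨ ((-2) * B3 + 1 * m11_3 + 1 * m23_3 ≤ -1) := by
  have h := C.p11_23B
  clear C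
  omega

theorem c0_13_22_33_k3_k_p11_33A {n1 n2 n3 A1 A2 A3 B1 B2 B3 m11_1 m11_2 m11_3 m13_1 m13_2 m13_3 m22_1 m22_2 m22_3 m23_1 m23_2 m23_3 m33_1 m33_2 m33_3 : ℤ} (C : Ctx0 n1 n2 n3 A1 A2 A3 B1 B2 B3 m11_1 m11_2 m11_3 m13_1 m13_2 m13_3 m22_1 m22_2 m22_3 m23_1 m23_2 m23_3 m33_1 m33_2 m33_3) :
    (1 * B1 ≤ 0) ∨ (1 * A3 ≤ 0) ∨ ((-2) * A1 + 1 * m11_1 + 1 * m33_1 ≤ -1) ∨ ((-2) * A2 + 1 * m11_2 + 1 * m33_2 ≤ -1) ∨ ((-2) * A3 + 1 * m11_3 + 1 * m33_3 ≤ -1) := by
  have h := C.p11_33A
  clear C
  omega

theorem c0_13_22_33_k3_k_p11_33B {n1 n2 n3 A1 A2 A3 B1 B2 B3 m11_1 m11_2 m11_3 m13_1 m13_2 m13_3 m22_1 m22_2 m22_3 m23_1 m23_2 m23_3 m33_1 m33_2 m33_3 : ℤ} (C : Ctx0 n1 n2 n3 A1 A2 A3 B1 B2 B3 m11_1 m11_2 m11_3 m13_1 m13_2 m13_3 m22_1 m22_2 m22_3 m23_1 m23_2 m23_3 m33_1 m33_2 m33_3) :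
    (1 * B1 ≤ 0) ∨ (1 * A3 ≤ 0) ∨ ((-2) * B1 + 1 * m11_1 + 1 * m33_1 ≤ -1) ∨ ((-2) * B2 + 1 * m11_2 + 1 * m33_2 ≤ -1) ∨ ((-2) * B3 + 1 * m11_3 + 1 * m33_3 ≤ -1) := by
  have h := C.p11_33B
  clear C
  omega

theorem c0_13_22_33_k3_k_p13_22A {n1 n2 n3 A1 A2 A3 B1 B2 B3 m11_1 m11_2 m11_3 m13_1 m13_2 m13_3 m22_1 m22_2 m22_3 m23_1 m23_2 m23_3 m33_1 m33_2 m33_3 : ℤ} (C : Ctx0 n1 n2 n3 A1 A2 A3 B1 B2 B3 m11_1 m11_2 m11_3 m13_1 m13_2 m13_3 m22_1 m22_2 m22_3 m23_1 m23_2 m23_3 m33_1 m33_2 m33_3) :
    (1 * A1 ≤ 0) ∨ (1 * B3 ≤ 0) ∨ (1 * B2 ≤ 0) ∨ ((-2) * A1 + 1 * m13_1 + 1 * m22_1 ≤ -1) ∨ ((-2) * A2 + 1 * m13_2 + 1 * m22_2 ≤ -1) ∨ ((-2) * A3 + 1 * m13_3 + 1 * m22_3 ≤ -1) := by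
  have h := C.p13_22A
  clear C
  omega

theorem c0_13_22_33_k3_k_p13_22B {n1 n2 n3 A1 A2 A3 B1 B2 B3 m11_1 m11_2 m11_3 m13_1 m13_2 m13_3 m22_1 m22_2 m22_3 m23_1 m23_2 m23_3 m33_1 m33_2 m33_3 : ℤ} (C : Ctx0 n1 n2 n3 A1 A2 A3 B1 B2 B3 m11_1 m11_2 m11_3 m13_1 m13_2 m13_3 m22_1 m22_2 m22_3 m23_1 m23_2 m23_3 m33_1 m33_2 m33_3) :
    (1 * A1 ≤ 0) ∨ (1 * B3 ≤ 0) ∨ (1 * B2 ≤ 0) ∨ ((-2) * B1 + 1 * m13_1 + 1 * m22_1 ≤ -1) ∨ ((-2) * B2 + 1 * m13_2 + 1 * m22_2 ≤ -1) ∨ ((-2) * B3 + 1 * m13_3 + 1 * m22_3 ≤ -1) := by
  have h := C.p13_22B
  clear C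
  omega

theorem c0_13_22_33_k3_k_p13_23A {n1 n2 n3 A1 A2 A3 B1 B2 B3 m11_1 m11_2 m11_3 m13_1 m13_2 m13_3 m22_1 m22_2 m22_3 m23_1 m23_2 m23_3 m33_1 m33_2 m33_3 : ℤ} (C : Ctx0 n1 n2 n3 A1 A2 A3 B1 B2 B3 m11_1 m11_2 m11_3 m13_1 m13_2 m13_3 m22_1 m22_2 m22_3 m23_1 m23_2 m23_3 m33_1 m33_2 m33_3) :
    (1 * A1 ≤ 0) ∨ (1 * B3 ≤ 0) ∨ (1 * A2 ≤ 0) ∨ ((-2) * A1 + 1 * m13_1 + 1 * m23_1 ≤ -1) ∨ ((-2) * A2 + 1 * m13_2 + 1 * m23_2 ≤ -1) ∨ ((-2) * A3 + 1 * m13_3 + 1 * m23_3 ≤ -1) := by
  have h := C.p13_23A
  clear C
  omega

theorem c0_13_22_33_k3_k_p13_33A {n1 n2 n3 A1 A2 A3 B1 B2 B3 m11_1 m11_2 m11_3 m13_1 m13_2 m13_3 m22_1 m22_2 m22_3 m23_1 m23_2 m23_3 m33_1 m33_2 m33_3 : ℤ} (C : Ctx0 n1 n2 n3 A1 A2 A3 B1 B2 B3 m11_1 m11_2 m11_3 m13_1 m13_2 m13_3 m22_1 m22_2 m22_3 m23_1 m23_2 m23_3 m33_1 m33_2 m33_3) :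
    (1 * A1 ≤ 0) ∨ (1 * B3 ≤ 0) ∨ (1 * A3 ≤ 0) ∨ ((-2) * A1 + 1 * m13_1 + 1 * m33_1 ≤ -1) ∨ ((-2) * A2 + 1 * m13_2 + 1 * m33_2 ≤ -1) ∨ ((-2) * A3 + 1 * m13_3 + 1 * m33_3 ≤ -1) := by
  have h := C.p13_33A
  clear C
  omega

theorem c0_13_22_33_k3_k_p22_33A {n1 n2 n3 A1 A2 A3 B1 B2 B3 m11_1 m11_2 m11_3 m13_1 m13_2 m13_3 m22_1 m22_2 m22_3 m23_1 m23_2 m23_3 m33_1 m33_2 m33_3 : ℤ} (C : Ctx0 n1 n2 n3 A1 A2 A3 B1 B2 B3 m11_1 m11_2 m11_3 m13_1 m13_2 m13_3 m22_1 m22_2 m22_3 m23_1 m23_2 m23_3 m33_1 m33_2 m33_3) :
    (1 * B2 ≤ 0) ∨ (1 * A3 ≤ 0) ∨ ((-2) * A1 + 1 * m22_1 + 1 * m33_1 ≤ -1) ∨ ((-2) * A2 + 1 * m22_2 + 1 * m33_2 ≤ -1) ∨ ((-2) * A3 + 1 * m22_3 + 1 * m33_3 ≤ -1) := by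
  have h := C.p22_33A
  clear C
  omega

theorem c0_13_22_33_k3_k_tmzp {n1 n2 n3 A1 A2 A3 B1 B2 B3 m11_1 m11_2 m11_3 m13_1 m13_2 m13_3 m22_1 m22_2 m22_3 m23_1 m23_2 m23_3 m33_1 m33_2 m33_3 : ℤ} (C : Ctx0 n1 n2 n3 A1 A2 A3 B1 B2 B3 m11_1 m11_2 m11_3 m13_1 m13_2 m13_3 m22_1 m22_2 m22_3 m23_1 m23_2 m23_3 m33_1 m33_2 m33_3) :
    ((-1) * A1 + 1 * n1 ≤ 0) ∨ ((-1) * A1 + 1 * A2 ≤ 0) ∨ ((-1) * A2 + 1 * A3 ≤ 0) ∨ (1 * B1 ≤ 0) ∨ (1 * B1 + (-1) * B2 + 1 * n2 ≤ 0) ∨ (1 * B2 + (-1) * B3 + 1 * n3 ≤ 0) := by
  have h := C.tmzp
  clear C
  omega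

theorem c0_13_22_33_k3_k_tzmp {n1 n2 n3 A1 A2 A3 B1 B2 B3 m11_1 m11_2 m11_3 m13_1 m13_2 m13_3 m22_1 m22_2 m22_3 m23_1 m23_2 m23_3 m33_1 m33_2 m33_3 : ℤ} (C : Ctx0 n1 n2 n3 A1 A2 A3 B1 B2 B3 m11_1 m11_2 m11_3 m13_1 m13_2 m13_3 m22_1 m22_2 m22_3 m23_1 m23_2 m23_3 m33_1 m33_2 m33_3) :
    (1 * A1 + (-1) * A2 + 1 * n2 ≤ 0) ∨ ((-1) * A2 + 1 * A3 ≤ 1) ∨ ((-1) * B1 + 1 * B2 ≤ 0) ∨ (1 * B2 + (-1) * B3 + 1 * n3 ≤ 1) := by
  have h := C.tzmp
  clear C
  omega

theorem c0_13_22_33_k3_k_tzpm {n1 n2 n3 A1 A2 A3 B1 B2 B3 m11_1 m11_2 m11_3 m13_1 m13_2 m13_3 m22_1 m22_2 m22_3 m23_1 m23_2 m23_3 m33_1 m33_2 m33_3 : ℤ} (C : Ctx0 n1 n2 n3 A1 A2 A3 B1 B2 B3 m11_1 m11_2 m11_3 m13_1 m13_2 m13_3 m22_1 m22_2 m22_3 m23_1 m23_2 m23_3 m33_1 m33_2 m33_3) :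
    ((-1) * A1 + 1 * A2 ≤ 0) ∨ (1 * A2 + (-1) * A3 + 1 * n3 ≤ 1) ∨ (1 * B1 + (-1) * B2 + 1 * n2 ≤ 0) ∨ ((-1) * B2 + 1 * B3 ≤ 1) ∨ ((-1) * A2 + 1 * B2 ≤ -1 ∧ (-1) * A3 + 1 * B3 ≤ 1) := by
  have h := C.tzpm
  clear C
  omega

theorem c0_13_22_33_k3_k_tpmm {n1 n2 n3 A1 A2 A3 B1 B2 B3 m11_1 m11_2 m11_3 m13_1 m13_2 m13_3 m22_1 m22_2 m22_3 m23_1 m23_2 m23_3 m33_1 m33_2 m33_3 : ℤ} (C : Ctx0 n1 n2 n3 A1 A2 A3 B1 B2 B3 m11_1 m11_2 m11_3 m13_1 m13_2 m13_3 m22_1 m22_2 m22_3 m23_1 m23_2 m23_3 m33_1 m33_2 m33_3) :
    (1 * A1 ≤ 0) ∨ (1 * A1 + (-1) * A2 + 1 * n2 ≤ 1) ∨ ((-1) * B1 + 1 * n1 ≤ 0) ∨ ((-1) * B1 + 1 * B2 ≤ 1) ∨ ((-1) * A3 + 1 * B3 ≤ 1) := by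
  have h := C.tpmm
  clear C
  omega

theorem c0_13_22_33_k3_k_tpmz {n1 n2 n3 A1 A2 A3 B1 B2 B3 m11_1 m11_2 m11_3 m13_1 m13_2 m13_3 m22_1 m22_2 m22_3 m23_1 m23_2 m23_3 m33_1 m33_2 m33_3 : ℤ} (C : Ctx0 n1 n2 n3 A1 A2 A3 B1 B2 B3 m11_1 m11_2 m11_3 m13_1 m13_2 m13_3 m22_1 m22_2 m22_3 m23_1 m23_2 m23_3 m33_1 m33_2 m33_3) :
    (1 * A1 ≤ 0) ∨ (1 * A1 + (-1) * A2 + 1 * n2 ≤ 1) ∨ ((-1) * A2 + 1 * A3 ≤ 0) ∨ ((-1) * B1 + 1 * n1 ≤ 0) ∨ ((-1) * B1 + 1 * B2 ≤ 1) ∨ (1 * B2 + (-1) * B3 + 1 * n3 ≤ 0) := by
  have h := C.tpmz
  clear C
  omega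

theorem c0_13_22_33_k3_k_F2 {n1 n2 n3 A1 A2 A3 B1 B2 B3 : ℤ} (h : ¬ F2 n1 n2 n3 A1 A2 A3 B1 B2 B3) :
    (1 * A1 ≤ 0) ∨ ((-2) * A1 + 1 * n1 ≤ 0) ∨ (1 * n2 ≤ 2) ∨ (2 * A1 + (-1) * n3 ≤ -4) ∨ ((-2) * A1 + 1 * n3 ≤ 2) ∨ (1 * A1 + (-1) * A2 ≤ -2) ∨ ((-1) * A1 + 1 * A2 ≤ 0) ∨ (1 * A1 + 1 * A2 + (-1) * A3 ≤ -2) ∨ ((-1) * A1 + (-1) * A2 + 1 * A3 ≤ 0) ∨ ((-1) * B1 ≤ -1) ∨ (1 * B1 ≤ -1) ∨ (1 * B1 + (-1) * B2 ≤ -2) ∨ ((-1) * B1 + 1 * B2 ≤ 0) ∨ (2 * A1 + 1 * B2 + (-1) * B3 ≤ -3) ∨ ((-2) * A1 + (-1) * B2 + 1 * B3 ≤ 1) := by
  unfold F2 at h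
  omega

theorem c0_13_22_33_k3 {n1 n2 n3 A1 A2 A3 B1 B2 B3 m11_1 m11_2 m11_3 m13_1 m13_2 m13_3 m22_1 m22_2 m22_3 m23_1 m23_2 m23_3 m33_1 m33_2 m33_3 : ℤ}
    (C : Ctx0 n1 n2 n3 A1 A2 A3 B1 B2 B3 m11_1 m11_2 m11_3 m13_1 m13_2 m13_3 m22_1 m22_2 m22_3 m23_1 m23_2 m23_3 m33_1 m33_2 m33_3)
    (e0 : 0 < A1)
    (e1 : 0 < B3)
    (e2 : 0 < B2)
    (e3 : 0 < A3)
    (s1 : 3 * A1 + 0 * B1 ≤ m13_1 + m22_1 + m33_1)
    (s2 : 3 * A2 + 0 * B2 ≤ m13_2 + m22_2 + m33_2)
    (s3 : 3 * A3 + 0 * B3 ≤ m13_3 + m22_3 + m33_3) : F1 n1 n2 n3 A1 A2 A3 B1 B2 B3 ∨ F2 n1 n2 n3 A1 A2 A3 B1 B2 B3 := by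
  by_contra hcon
  have hF1 : ¬ F1 n1 n2 n3 A1 A2 A3 B1 B2 B3 := fun h => hcon (Or.inl h)
  have hF2 : ¬ F2 n1 n2 n3 A1 A2 A3 B1 B2 B3 := fun h => hcon (Or.inr h)
  clear hcon
  rcases c0_13_22_33_k3_k_f13_2 C with ⟨c0_0_0, c0_0_1⟩ | ⟨c0_1_0, c0_1_1⟩
  · rcases c0_13_22_33_k3_k_t12 C with ⟨c1_0_0, c1_0_1⟩ | ⟨c1_1_0, c1_1_1⟩
    · rcases c0_13_22_33_k3_k_t23 C with ⟨c2_0_0, c2_0_1⟩ | ⟨c2_1_0, c2_1_1⟩
      · rcases c0_13_22_33_k3_k_f13_5 C with ⟨c3_0_0, c3_0_1⟩ | ⟨c3_1_0, c3_1_1⟩
        · rcases c0_13_22_33_k3_k_f13_8 C with ⟨c4_0_0, c4_0_1⟩ | ⟨c4_1_0, c4_1_1⟩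
          · first | linarith only [C.b5, C.f13_7, C.o1, c0_0_1, c1_0_1, c3_0_1, c4_0_1] | (have q0 := C.b5; have q1 := C.f13_7; have q2 := C.o1; have q3 := c0_0_1; have q4 := c1_0_1; have q5 := c3_0_1; have q6 := c4_0_1; clear C; omega)
          · rcases c0_13_22_33_k3_k_f22_2 C with ⟨c5_0_0, c5_0_1⟩ | ⟨c5_1_0, c5_1_1⟩
            · rcases c0_13_22_33_k3_k_f22_5 C with ⟨c6_0_0, c6_0_1⟩ | ⟨c6_1_0, c6_1_1⟩
              · first | linarith only [C.a1, C.f22_4, C.o1, c1_0_1, c5_0_1, c6_0_1] | (have q0 := C.a1; have q1 := C.f22_4; have q2 := C.o1; have q3 := c1_0_1; have q4 := c5_0_1; have q5 := c6_0_1; clear C; omega)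
              · rcases c0_13_22_33_k3_k_p13_22A C with c7_0_0 | c7_1_0 | c7_2_0 | c7_3_0 | c7_4_0 | c7_5_0
                · first | linarith only [c7_0_0, e0] | (have q0 := c7_0_0; have q1 := e0; clear C; omega)
                · first | linarith only [c7_1_0, e1] | (have q0 := c7_1_0; have q1 := e1; clear C; omega)
                · first | linarith only [c7_2_0, e2] | (have q0 := c7_2_0; have q1 := e2; clear C; omega)
                · first | linarith only [C.f33_0, c0_0_1, c5_0_1, c7_3_0, s1] | (have q0 := C.f33_0; have q1 := c0_0_1; have q2 := c5_0_1; have q3 := c7_3_0; have q4 := s1; clear C; omega)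
                · rcases c0_13_22_33_k3_k_f33_2 C with ⟨c8_0_0, c8_0_1⟩ | ⟨c8_1_0, c8_1_1⟩
                  · rcases c0_13_22_33_k3_k_f33_8 C with ⟨c9_0_0, c9_0_1⟩ | ⟨c9_1_0, c9_1_1⟩
                    · first | linarith only [C.f33_7, c2_0_1, c7_4_0, c9_0_1, s2] | (have q0 := C.f33_7; have q1 := c2_0_1; have q2 := c7_4_0; have q3 := c9_0_1; have q4 := s2; clear C; omega)
                    · rcases c0_13_22_33_k3_k_p13_33A C with c10_0_0 | c10_1_0 | c10_2_0 | c10_3_0 | c10_4_0 | c10_5_0
                      · first | linarith only [c10_0_0, e0] | (have q0 := c10_0_0; have q1 := e0; clear C; omega)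
                      · first | linarith only [c10_1_0, e1] | (have q0 := c10_1_0; have q1 := e1; clear C; omega)
                      · first | linarith only [c10_2_0, e3] | (have q0 := c10_2_0; have q1 := e3; clear C; omega)
                      · first | linarith only [C.f22_0, c0_0_1, c10_3_0, c8_0_1, s1] | (have q0 := C.f22_0; have q1 := c0_0_1; have q2 := c10_3_0; have q3 := c8_0_1; have q4 := s1; clear C; omega)
                      · first | linarith only [C.b3, C.f22_4, C.o0, c0_0_1, c10_4_0, c3_0_1, c7_4_0, s2] | (have q0 := C.b3; have q1 := C.f22_4; have q2 := C.o0; have q3 := c0_0_1; have q4 := c10_4_0; have q5 := c3_0_1; have q6 := c7_4_0; have q7 := s2; clear C; omega)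
                      · rcases c0_13_22_33_k3_k_p22_33A C with c12_0_0 | c12_1_0 | c12_2_0 | c12_3_0 | c12_4_0
                        · first | linarith only [c12_0_0, e2] | (have q0 := c12_0_0; have q1 := e2; clear C; omega)
                        · first | linarith only [c12_1_0, e3] | (have q0 := c12_1_0; have q1 := e3; clear C; omega)
                        · first | linarith only [C.f13_0, c12_2_0, s1] | (have q0 := C.f13_0; have q1 := c12_2_0; have q2 := s1; clear C; omega)
                        · rcases c0_13_22_33_k3_k_f23_3 C with ⟨c13_0_0, c13_0_1⟩ | ⟨c13_1_0, c13_1_1⟩ | ⟨c13_2_0, c13_2_1⟩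
                          · rcases c0_13_22_33_k3_k_f23_7 C with ⟨c14_0_0, c14_0_1⟩ | ⟨c14_1_0, c14_1_1⟩ | ⟨c14_2_0, c14_2_1⟩
                            · first | linarith only [C.f13_0, C.f13_3, C.f22_0, C.f23_5, C.f33_0, c12_3_0, c13_0_1, c14_0_1, s1, s2] | (have q0 := C.f13_0; have q1 := C.f13_3; have q2 := C.f22_0; have q3 := C.f23_5; have q4 := C.f33_0; have q5 := c12_3_0; have q6 := c13_0_1; have q7 := c14_0_1; have q8 := s1; have q9 := s2; clear C; omega)
                            · rcases c0_13_22_33_k3_k_f23_10 C with ⟨c15_0_0, c15_0_1⟩ | ⟨c15_1_0, c15_1_1⟩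
                              · first | linarith only [C.f22_6, C.f23_9, c10_5_0, c12_3_0, c14_1_1, c15_0_1, c4_1_1, c7_4_0, c9_1_1, s2, s3] | (have q0 := C.f22_6; have q1 := C.f23_9; have q2 := c10_5_0; have q3 := c12_3_0; have q4 := c14_1_1; have q5 := c15_0_1; have q6 := c4_1_1; have q7 := c7_4_0; have q8 := c9_1_1; have q9 := s2; have q10 := s3; clear C; omega)
                              · rcases c0_13_22_33_k3_k_p13_23A C with c17_0_0 | c17_1_0 | c17_2_0 | c17_3_0 | c17_4_0 | c17_5_0
                                · first | linarith only [c17_0_0, e0] | (have q0 := c17_0_0; have q1 := e0; clear C; omega)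
                                · first | linarith only [c17_1_0, e1] | (have q0 := c17_1_0; have q1 := e1; clear C; omega)
                                · first | linarith only [C.f13_0, C.f22_1, C.f33_0, c12_3_0, c17_2_0, c5_0_1, c6_1_1, c7_4_0, e0, s1, s2] | (have q0 := C.f13_0; have q1 := C.f22_1; have q2 := C.f33_0; have q3 := c12_3_0; have q4 := c17_2_0; have q5 := c5_0_1; have q6 := c6_1_1; have q7 := c7_4_0; have q8 := e0; have q9 := s1; have q10 := s2; clear C; omega)
                                · first | linarith only [C.f22_0, C.f33_0, c0_0_1, c13_0_1, c17_3_0, s1] | (have q0 := C.f22_0; have q1 := C.f33_0; have q2 := c0_0_1; have q3 := c13_0_1; have q4 := c17_3_0; have q5 := s1; clear C; omega)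
                                · first | linarith only [c12_3_0, c14_1_1, c17_4_0, s2] | (have q0 := c12_3_0; have q1 := c14_1_1; have q2 := c17_4_0; have q3 := s2; clear C; omega)
                                · first | linarith only [C.o2, c15_1_1, c17_5_0, c4_1_1] | (have q0 := C.o2; have q1 := c15_1_1; have q2 := c17_5_0; have q3 := c4_1_1; clear C; omega)
                            · first | linarith only [C.f23_5, C.f33_4, C.o2, c14_2_1, c7_4_0, s2] | (have q0 := C.f23_5; have q1 := C.f33_4; have q2 := C.o2; have q3 := c14_2_1; have q4 := c7_4_0; have q5 := s2; clear C; omega)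
                          · first | linarith only [C.f22_1, C.f23_0, c12_3_0, c13_1_1, c5_0_1, c6_1_1, c7_4_0, s2] | (have q0 := C.f22_1; have q1 := C.f23_0; have q2 := c12_3_0; have q3 := c13_1_1; have q4 := c5_0_1; have q5 := c6_1_1; have q6 := c7_4_0; have q7 := s2; clear C; omega)
                          · first | linarith only [C.f13_4, C.f22_1, C.f23_0, c12_3_0, c13_2_1, c5_0_1, c6_1_1, c7_4_0, s2] | (have q0 := C.f13_4; have q1 := C.f22_1; have q2 := C.f23_0; have q3 := c12_3_0; have q4 := c13_2_1; have q5 := c5_0_1; have q6 := c6_1_1; have q7 := c7_4_0; have q8 := s2; clear C; omega)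
                        · first | linarith only [c10_5_0, c12_4_0, c9_1_1, s3] | (have q0 := c10_5_0; have q1 := c12_4_0; have q2 := c9_1_1; have q3 := s3; clear C; omega)
                  · first | linarith only [C.f22_1, C.f33_0, C.f33_4, C.o1, c5_0_1, c7_4_0, c8_1_1, s2] | (have q0 := C.f22_1; have q1 := C.f33_0; have q2 := C.f33_4; have q3 := C.o1; have q4 := c5_0_1; have q5 := c7_4_0; have q6 := c8_1_1; have q7 := s2; clear C; omega)
                · first | linarith only [C.f33_7, c7_5_0, s3] | (have q0 := C.f33_7; have q1 := c7_5_0; have q2 := s3; clear C; omega)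
            · rcases c0_13_22_33_k3_k_f22_5 C with ⟨c18_0_0, c18_0_1⟩ | ⟨c18_1_0, c18_1_1⟩
              · first | linarith only [C.f22_4, c18_0_1, c1_0_1, c2_0_0, c5_1_1] | (have q0 := C.f22_4; have q1 := c18_0_1; have q2 := c1_0_1; have q3 := c2_0_0; have q4 := c5_1_1; clear C; omega)
              · rcases c0_13_22_33_k3_k_f23_3 C with ⟨c19_0_0, c19_0_1⟩ | ⟨c19_1_0, c19_1_1⟩ | ⟨c19_2_0, c19_2_1⟩
                · rcases c0_13_22_33_k3_k_f23_7 C with ⟨c20_0_0, c20_0_1⟩ | ⟨c20_1_0, c20_1_1⟩ | ⟨c20_2_0, c20_2_1⟩
                  · first | linarith only [C.a1, C.f13_0, C.f13_3, C.f22_4, C.f23_5, C.f33_0, C.f33_3, C.o1, c19_0_1, c20_0_1, s2] | (have q0 := C.a1; have q1 := C.f13_0; have q2 := C.f13_3; have q3 := C.f22_4; have q4 := C.f23_5; have q5 := C.f33_0; have q6 := C.f33_3; have q7 := C.o1; have q8 := c19_0_1; have q9 := c20_0_1; have q10 := s2; clear C; omega)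
                  · rcases c0_13_22_33_k3_k_f23_10 C with ⟨c21_0_0, c21_0_1⟩ | ⟨c21_1_0, c21_1_1⟩
                    · rcases c0_13_22_33_k3_k_p13_22A C with c22_0_0 | c22_1_0 | c22_2_0 | c22_3_0 | c22_4_0 | c22_5_0
                      · first | linarith only [c22_0_0, e0] | (have q0 := c22_0_0; have q1 := e0; clear C; omega)
                      · first | linarith only [c22_1_0, e1] | (have q0 := c22_1_0; have q1 := e1; clear C; omega)
                      · first | linarith only [c22_2_0, e2] | (have q0 := c22_2_0; have q1 := e2; clear C; omega)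
                      · first | linarith only [C.b5, C.f23_1, C.f23_9, C.f33_0, c0_0_1, c19_0_1, c20_1_1, c21_0_1, c22_3_0, c5_1_1, s1] | (have q0 := C.b5; have q1 := C.f23_1; have q2 := C.f23_9; have q3 := C.f33_0; have q4 := c0_0_1; have q5 := c19_0_1; have q6 := c20_1_1; have q7 := c21_0_1; have q8 := c22_3_0; have q9 := c5_1_1; have q10 := s1; clear C; omega)
                      · rcases c0_13_22_33_k3_k_f33_2 C with ⟨c23_0_0, c23_0_1⟩ | ⟨c23_1_0, c23_1_1⟩
                        · rcases c0_13_22_33_k3_k_f33_8 C with ⟨c24_0_0, c24_0_1⟩ | ⟨c24_1_0, c24_1_1⟩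
                          · first | linarith only [C.b5, C.f13_7, C.f22_4, C.f22_6, C.f33_7, C.o1, c22_4_0, c24_0_1, s2, s3] | (have q0 := C.b5; have q1 := C.f13_7; have q2 := C.f22_4; have q3 := C.f22_6; have q4 := C.f33_7; have q5 := C.o1; have q6 := c22_4_0; have q7 := c24_0_1; have q8 := s2; have q9 := s3; clear C; omega)
                          · rcases c0_13_22_33_k3_k_p13_33A C with c26_0_0 | c26_1_0 | c26_2_0 | c26_3_0 | c26_4_0 | c26_5_0
                            · first | linarith only [c26_0_0, e0] | (have q0 := c26_0_0; have q1 := e0; clear C; omega)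
                            · first | linarith only [c26_1_0, e1] | (have q0 := c26_1_0; have q1 := e1; clear C; omega)
                            · first | linarith only [c26_2_0, e3] | (have q0 := c26_2_0; have q1 := e3; clear C; omega)
                            · first | linarith only [C.f22_0, c0_0_1, c23_0_1, c26_3_0, s1] | (have q0 := C.f22_0; have q1 := c0_0_1; have q2 := c23_0_1; have q3 := c26_3_0; have q4 := s1; clear C; omega)
                            · first | linarith only [C.f22_4, C.o1, c26_4_0, s2] | (have q0 := C.f22_4; have q1 := C.o1; have q2 := c26_4_0; have q3 := s2; clear C; omega)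
                            · first | linarith only [C.f22_4, C.f22_6, C.f23_9, C.o1, c20_1_1, c21_0_1, c24_1_1, c26_5_0, c4_1_1, s3] | (have q0 := C.f22_4; have q1 := C.f22_6; have q2 := C.f23_9; have q3 := C.o1; have q4 := c20_1_1; have q5 := c21_0_1; have q6 := c24_1_1; have q7 := c26_5_0; have q8 := c4_1_1; have q9 := s3; clear C; omega)
                        · first | linarith only [C.f23_1, C.f33_0, C.f33_4, c19_0_1, c22_4_0, c23_1_1, s2] | (have q0 := C.f23_1; have q1 := C.f33_0; have q2 := C.f33_4; have q3 := c19_0_1; have q4 := c22_4_0; have q5 := c23_1_1; have q6 := s2; clear C; omega)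
                      · first | linarith only [C.f33_7, c22_5_0, s3] | (have q0 := C.f33_7; have q1 := c22_5_0; have q2 := s3; clear C; omega)
                    · rcases c0_13_22_33_k3_k_p13_23A C with c27_0_0 | c27_1_0 | c27_2_0 | c27_3_0 | c27_4_0 | c27_5_0
                      · first | linarith only [c27_0_0, e0] | (have q0 := c27_0_0; have q1 := e0; clear C; omega)
                      · first | linarith only [c27_1_0, e1] | (have q0 := c27_1_0; have q1 := e1; clear C; omega)
                      · first | linarith only [c27_2_0, c2_0_0, e0] | (have q0 := c27_2_0; have q1 := c2_0_0; have q2 := e0; clear C; omega)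
                      · first | linarith only [C.f22_0, C.f33_0, c0_0_1, c19_0_1, c27_3_0, s1] | (have q0 := C.f22_0; have q1 := C.f33_0; have q2 := c0_0_1; have q3 := c19_0_1; have q4 := c27_3_0; have q5 := s1; clear C; omega)
                      · rcases c0_13_22_33_k3_k_f33_2 C with ⟨c28_0_0, c28_0_1⟩ | ⟨c28_1_0, c28_1_1⟩
                        · rcases c0_13_22_33_k3_k_f33_8 C with ⟨c29_0_0, c29_0_1⟩ | ⟨c29_1_0, c29_1_1⟩
                          · first | linarith only [C.f13_6, C.f22_4, C.f22_6, C.f33_7, C.o1, c20_1_1, c27_4_0, c29_0_1, s2, s3] | (have q0 := C.f13_6; have q1 := C.f22_4; have q2 := C.f22_6; have q3 := C.f33_7; have q4 := C.o1; have q5 := c20_1_1; have q6 := c27_4_0; have q7 := c29_0_1; have q8 := s2; have q9 := s3; clear C; omega)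
                          · rcases c0_13_22_33_k3_k_p13_33A C with c30_0_0 | c30_1_0 | c30_2_0 | c30_3_0 | c30_4_0 | c30_5_0
                            · first | linarith only [c30_0_0, e0] | (have q0 := c30_0_0; have q1 := e0; clear C; omega)
                            · first | linarith only [c30_1_0, e1] | (have q0 := c30_1_0; have q1 := e1; clear C; omega)
                            · first | linarith only [c30_2_0, e3] | (have q0 := c30_2_0; have q1 := e3; clear C; omega)
                            · first | linarith only [C.f22_0, c0_0_1, c28_0_1, c30_3_0, s1] | (have q0 := C.f22_0; have q1 := c0_0_1; have q2 := c28_0_1; have q3 := c30_3_0; have q4 := s1; clear C; omega)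
                            · first | linarith only [C.f22_4, C.o1, c30_4_0, s2] | (have q0 := C.f22_4; have q1 := C.o1; have q2 := c30_4_0; have q3 := s2; clear C; omega)
                            · rcases c0_13_22_33_k3_k_p22_33A C with c33_0_0 | c33_1_0 | c33_2_0 | c33_3_0 | c33_4_0
                              · first | linarith only [c33_0_0, e2] | (have q0 := c33_0_0; have q1 := e2; clear C; omega)
                              · first | linarith only [c33_1_0, e3] | (have q0 := c33_1_0; have q1 := e3; clear C; omega)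
                              · first | linarith only [C.f13_0, c33_2_0, s1] | (have q0 := C.f13_0; have q1 := c33_2_0; have q2 := s1; clear C; omega)
                              · first | linarith only [c20_1_1, c27_4_0, c33_3_0, s2] | (have q0 := c20_1_1; have q1 := c27_4_0; have q2 := c33_3_0; have q3 := s2; clear C; omega)
                              · first | linarith only [c29_1_1, c30_5_0, c33_4_0, s3] | (have q0 := c29_1_1; have q1 := c30_5_0; have q2 := c33_4_0; have q3 := s3; clear C; omega)
                        · first | linarith only [C.f22_4, C.f23_1, C.f33_0, C.f33_4, C.o1, c19_0_1, c20_1_1, c27_4_0, c28_1_1, s2] | (have q0 := C.f22_4; have q1 := C.f23_1; have q2 := C.f33_0; have q3 := C.f33_4; have q4 := C.o1; have q5 := c19_0_1; have q6 := c20_1_1; have q7 := c27_4_0; have q8 := c28_1_1; have q9 := s2; clear C; omega)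
                      · first | linarith only [C.o2, c21_1_1, c27_5_0, c4_1_1] | (have q0 := C.o2; have q1 := c21_1_1; have q2 := c27_5_0; have q3 := c4_1_1; clear C; omega)
                  · first | linarith only [C.f13_4, C.f22_4, C.f23_5, C.f33_4, C.o1, C.o2, c20_2_1, s2] | (have q0 := C.f13_4; have q1 := C.f22_4; have q2 := C.f23_5; have q3 := C.f33_4; have q4 := C.o1; have q5 := C.o2; have q6 := c20_2_1; have q7 := s2; clear C; omega)
                · rcases c0_13_22_33_k3_k_f23_7 C with ⟨c34_0_0, c34_0_1⟩ | ⟨c34_1_0, c34_1_1⟩ | ⟨c34_2_0, c34_2_1⟩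
                  · first | linarith only [C.f23_5, c19_1_1, c1_0_1, c2_0_0, c34_0_1] | (have q0 := C.f23_5; have q1 := c19_1_1; have q2 := c1_0_1; have q3 := c2_0_0; have q4 := c34_0_1; clear C; omega)
                  · rcases c0_13_22_33_k3_k_f23_10 C with ⟨c35_0_0, c35_0_1⟩ | ⟨c35_1_0, c35_1_1⟩
                    · rcases c0_13_22_33_k3_k_tzpm C with c37_0_0 | c37_1_0 | c37_2_0 | c37_3_0 | ⟨c37_4_0, c37_4_1⟩
                      · first | linarith only [c2_0_0, c37_0_0] | (have q0 := c2_0_0; have q1 := c37_0_0; clear C; omega)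
                      · first | linarith only [C.b5, C.f13_7, C.f22_4, C.f22_6, C.f33_7, C.o1, c37_1_0, s3] | (have q0 := C.b5; have q1 := C.f13_7; have q2 := C.f22_4; have q3 := C.f22_6; have q4 := C.f33_7; have q5 := C.o1; have q6 := c37_1_0; have q7 := s3; clear C; omega)
                      · rcases c0_13_22_33_k3_k_tpmm C with c39_0_0 | c39_1_0 | c39_2_0 | c39_3_0 | c39_4_0
                        · first | linarith only [c39_0_0, e0] | (have q0 := c39_0_0; have q1 := e0; clear C; omega)
                        · rcases c0_13_22_33_k3_k_f33_8 C with ⟨c40_0_0, c40_0_1⟩ | ⟨c40_1_0, c40_1_1⟩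
                          · first | linarith only [C.b3, C.b5, C.f13_0, C.f13_3, C.f13_7, C.f22_4, C.f22_6, C.f33_7, C.o0, c39_1_0, c40_0_1, s2, s3] | (have q0 := C.b3; have q1 := C.b5; have q2 := C.f13_0; have q3 := C.f13_3; have q4 := C.f13_7; have q5 := C.f22_4; have q6 := C.f22_6; have q7 := C.f33_7; have q8 := C.o0; have q9 := c39_1_0; have q10 := c40_0_1; have q11 := s2; have q12 := s3; clear C; omega)
                          · rcases c0_13_22_33_k3_k_p13_33A C with c41_0_0 | c41_1_0 | c41_2_0 | c41_3_0 | c41_4_0 | c41_5_0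
                            · first | linarith only [c41_0_0, e0] | (have q0 := c41_0_0; have q1 := e0; clear C; omega)
                            · first | linarith only [c41_1_0, e1] | (have q0 := c41_1_0; have q1 := e1; clear C; omega)
                            · first | linarith only [c41_2_0, e3] | (have q0 := c41_2_0; have q1 := e3; clear C; omega)
                            · rcases c0_13_22_33_k3_k_f33_2 C with ⟨c42_0_0, c42_0_1⟩ | ⟨c42_1_0, c42_1_1⟩
                              · first | linarith only [C.f22_0, c0_0_1, c41_3_0, c42_0_1, s1] | (have q0 := C.f22_0; have q1 := c0_0_1; have q2 := c41_3_0; have q3 := c42_0_1; have q4 := s1; clear C; omega)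
                              · first | linarith only [C.b3, C.f13_3, C.f22_1, C.f22_4, C.f33_4, C.o0, c39_1_0, c41_3_0, c42_1_1, s1, s2] | (have q0 := C.b3; have q1 := C.f13_3; have q2 := C.f22_1; have q3 := C.f22_4; have q4 := C.f33_4; have q5 := C.o0; have q6 := c39_1_0; have q7 := c41_3_0; have q8 := c42_1_1; have q9 := s1; have q10 := s2; clear C; omega)
                            · first | linarith only [C.b3, C.f22_4, C.o0, c39_1_0, c41_4_0, s2] | (have q0 := C.b3; have q1 := C.f22_4; have q2 := C.o0; have q3 := c39_1_0; have q4 := c41_4_0; have q5 := s2; clear C; omega)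
                            · first | linarith only [C.b3, C.f22_4, C.f22_6, C.f23_9, C.o0, c34_1_1, c35_0_1, c39_1_0, c40_1_1, c41_5_0, c4_1_1, s3] | (have q0 := C.b3; have q1 := C.f22_4; have q2 := C.f22_6; have q3 := C.f23_9; have q4 := C.o0; have q5 := c34_1_1; have q6 := c35_0_1; have q7 := c39_1_0; have q8 := c40_1_1; have q9 := c41_5_0; have q10 := c4_1_1; have q11 := s3; clear C; omega)
                        · first | linarith only [C.a1, C.o0, c39_2_0] | (have q0 := C.a1; have q1 := C.o0; have q2 := c39_2_0; clear C; omega)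
                        · first | linarith only [c1_0_1, c2_0_0, c37_2_0, c39_3_0] | (have q0 := c1_0_1; have q1 := c2_0_0; have q2 := c37_2_0; have q3 := c39_3_0; clear C; omega)
                        · first | linarith only [C.f13_7, C.f22_4, C.f22_6, C.f23_9, C.f33_7, C.o1, c34_1_1, c35_0_1, c39_4_0, s3] | (have q0 := C.f13_7; have q1 := C.f22_4; have q2 := C.f22_6; have q3 := C.f23_9; have q4 := C.f33_7; have q5 := C.o1; have q6 := c34_1_1; have q7 := c35_0_1; have q8 := c39_4_0; have q9 := s3; clear C; omega)
                      · first | linarith only [C.f13_4, C.f22_4, C.f33_4, C.o1, C.o2, c37_3_0, s2] | (have q0 := C.f13_4; have q1 := C.f22_4; have q2 := C.f33_4; have q3 := C.o1; have q4 := C.o2; have q5 := c37_3_0; have q6 := s2; clear C; omega)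
                      · first | linarith only [C.f13_7, C.f22_4, C.f22_6, C.f23_9, C.f33_7, c34_1_1, c35_0_1, c37_4_0, c37_4_1, s3] | (have q0 := C.f13_7; have q1 := C.f22_4; have q2 := C.f22_6; have q3 := C.f23_9; have q4 := C.f33_7; have q5 := c34_1_1; have q6 := c35_0_1; have q7 := c37_4_0; have q8 := c37_4_1; have q9 := s3; clear C; omega)
                    · rcases c0_13_22_33_k3_k_f33_2 C with ⟨c43_0_0, c43_0_1⟩ | ⟨c43_1_0, c43_1_1⟩
                      · rcases c0_13_22_33_k3_k_p13_33A C with c44_0_0 | c44_1_0 | c44_2_0 | c44_3_0 | c44_4_0 | c44_5_0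
                        · first | linarith only [c44_0_0, e0] | (have q0 := c44_0_0; have q1 := e0; clear C; omega)
                        · first | linarith only [c44_1_0, e1] | (have q0 := c44_1_0; have q1 := e1; clear C; omega)
                        · first | linarith only [c44_2_0, e3] | (have q0 := c44_2_0; have q1 := e3; clear C; omega)
                        · first | linarith only [C.f22_0, c0_0_1, c43_0_1, c44_3_0, s1] | (have q0 := C.f22_0; have q1 := c0_0_1; have q2 := c43_0_1; have q3 := c44_3_0; have q4 := s1; clear C; omega)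
                        · first | linarith only [C.f22_4, C.o1, c44_4_0, s2] | (have q0 := C.f22_4; have q1 := C.o1; have q2 := c44_4_0; have q3 := s2; clear C; omega)
                        · rcases c0_13_22_33_k3_k_f33_5 C with ⟨c46_0_0, c46_0_1⟩ | ⟨c46_1_0, c46_1_1⟩
                          · rcases c0_13_22_33_k3_k_f33_8 C with ⟨c47_0_0, c47_0_1⟩ | ⟨c47_1_0, c47_1_1⟩
                            · first | linarith only [C.a1, C.f13_0, C.f13_3, C.f22_4, C.f23_5, C.f23_8, C.f33_7, C.o1, C.o2, c35_1_1, c43_0_1, c46_0_1, c47_0_1, s2] | (have q0 := C.a1; have q1 := C.f13_0; have q2 := C.f13_3; have q3 := C.f22_4; have q4 := C.f23_5; have q5 := C.f23_8; have q6 := C.f33_7; have q7 := C.o1; have q8 := C.o2; have q9 := c35_1_1; have q10 := c43_0_1; have q11 := c46_0_1; have q12 := c47_0_1; have q13 := s2; clear C; omega)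
                            · rcases c0_13_22_33_k3_k_p22_33A C with c48_0_0 | c48_1_0 | c48_2_0 | c48_3_0 | c48_4_0
                              · first | linarith only [c48_0_0, e2] | (have q0 := c48_0_0; have q1 := e2; clear C; omega)
                              · first | linarith only [c48_1_0, e3] | (have q0 := c48_1_0; have q1 := e3; clear C; omega)
                              · first | linarith only [C.f13_0, c48_2_0, s1] | (have q0 := C.f13_0; have q1 := c48_2_0; have q2 := s1; clear C; omega)
                              · rcases c0_13_22_33_k3_k_p13_23A C with c49_0_0 | c49_1_0 | c49_2_0 | c49_3_0 | c49_4_0 | c49_5_0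
                                · first | linarith only [c49_0_0, e0] | (have q0 := c49_0_0; have q1 := e0; clear C; omega)
                                · first | linarith only [c49_1_0, e1] | (have q0 := c49_1_0; have q1 := e1; clear C; omega)
                                · first | linarith only [C.f13_0, C.f13_3, C.f22_1, c18_1_1, c46_0_1, c48_3_0, c49_2_0, e0, s1, s2] | (have q0 := C.f13_0; have q1 := C.f13_3; have q2 := C.f22_1; have q3 := c18_1_1; have q4 := c46_0_1; have q5 := c48_3_0; have q6 := c49_2_0; have q7 := e0; have q8 := s1; have q9 := s2; clear C; omega)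
                                · first | linarith only [C.f13_0, C.f13_3, C.f22_1, c18_1_1, c19_1_1, c46_0_1, c48_3_0, c49_3_0, s1, s2] | (have q0 := C.f13_0; have q1 := C.f13_3; have q2 := C.f22_1; have q3 := c18_1_1; have q4 := c19_1_1; have q5 := c46_0_1; have q6 := c48_3_0; have q7 := c49_3_0; have q8 := s1; have q9 := s2; clear C; omega)
                                · first | linarith only [c34_1_1, c48_3_0, c49_4_0, s2] | (have q0 := c34_1_1; have q1 := c48_3_0; have q2 := c49_4_0; have q3 := s2; clear C; omega)
                                · first | linarith only [C.o2, c35_1_1, c49_5_0, c4_1_1] | (have q0 := C.o2; have q1 := c35_1_1; have q2 := c49_5_0; have q3 := c4_1_1; clear C; omega)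
                              · first | linarith only [c44_5_0, c47_1_1, c48_4_0, s3] | (have q0 := c44_5_0; have q1 := c47_1_1; have q2 := c48_4_0; have q3 := s3; clear C; omega)
                          · rcases c0_13_22_33_k3_k_f33_8 C with ⟨c50_0_0, c50_0_1⟩ | ⟨c50_1_0, c50_1_1⟩
                            · first | linarith only [C.f13_4, C.f23_5, C.f23_8, C.f33_7, c0_0_1, c1_0_1, c35_1_1, c3_0_1, c46_1_1, c50_0_1] | (have q0 := C.f13_4; have q1 := C.f23_5; have q2 := C.f23_8; have q3 := C.f33_7; have q4 := c0_0_1; have q5 := c1_0_1; have q6 := c35_1_1; have q7 := c3_0_1; have q8 := c46_1_1; have q9 := c50_0_1; clear C; omega)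
                            · rcases c0_13_22_33_k3_k_p22_33A C with c51_0_0 | c51_1_0 | c51_2_0 | c51_3_0 | c51_4_0
                              · first | linarith only [c51_0_0, e2] | (have q0 := c51_0_0; have q1 := e2; clear C; omega)
                              · first | linarith only [c51_1_0, e3] | (have q0 := c51_1_0; have q1 := e3; clear C; omega)
                              · first | linarith only [C.f13_0, c51_2_0, s1] | (have q0 := C.f13_0; have q1 := c51_2_0; have q2 := s1; clear C; omega)
                              · rcases c0_13_22_33_k3_k_p13_23A C with c52_0_0 | c52_1_0 | c52_2_0 | c52_3_0 | c52_4_0 | c52_5_0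
                                · first | linarith only [c52_0_0, e0] | (have q0 := c52_0_0; have q1 := e0; clear C; omega)
                                · first | linarith only [c52_1_0, e1] | (have q0 := c52_1_0; have q1 := e1; clear C; omega)
                                · first | linarith only [c2_0_0, c52_2_0, e0] | (have q0 := c2_0_0; have q1 := c52_2_0; have q2 := e0; clear C; omega)
                                · rcases c0_13_22_33_k3_k_tpmz C with c54_0_0 | c54_1_0 | c54_2_0 | c54_3_0 | c54_4_0 | c54_5_0
                                  · first | linarith only [c54_0_0, e0] | (have q0 := c54_0_0; have q1 := e0; clear C; omega)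
                                  · first | linarith only [C.f13_0, C.f13_3, c51_3_0, c54_1_0, s2] | (have q0 := C.f13_0; have q1 := C.f13_3; have q2 := c51_3_0; have q3 := c54_1_0; have q4 := s2; clear C; omega)
                                  · first | linarith only [C.f22_1, C.f33_1, C.o1, c0_0_1, c19_1_1, c52_3_0, c54_2_0, s1] | (have q0 := C.f22_1; have q1 := C.f33_1; have q2 := C.o1; have q3 := c0_0_1; have q4 := c19_1_1; have q5 := c52_3_0; have q6 := c54_2_0; have q7 := s1; clear C; omega)
                                  · first | linarith only [C.a1, C.o0, c54_3_0] | (have q0 := C.a1; have q1 := C.o0; have q2 := c54_3_0; clear C; omega)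
                                  · rcases c0_13_22_33_k3_k_p11_23B C with c55_0_0 | c55_1_0 | c55_2_0 | c55_3_0 | c55_4_0 | c55_5_0
                                    · rcases c0_13_22_33_k3_k_p13_22B C with c58_0_0 | c58_1_0 | c58_2_0 | c58_3_0 | c58_4_0 | c58_5_0
                                      · first | linarith only [c58_0_0, e0] | (have q0 := c58_0_0; have q1 := e0; clear C; omega)
                                      · first | linarith only [c58_1_0, e1] | (have q0 := c58_1_0; have q1 := e1; clear C; omega)
                                      · first | linarith only [c58_2_0, e2] | (have q0 := c58_2_0; have q1 := e2; clear C; omega)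
                                      · first | linarith only [c0_0_1, c55_0_0, c58_3_0, c5_1_1, e0, e2] | (have q0 := c0_0_1; have q1 := c55_0_0; have q2 := c58_3_0; have q3 := c5_1_1; have q4 := e0; have q5 := e2; clear C; omega)
                                      · first | linarith only [C.o1, c18_1_1, c51_3_0, c58_4_0, s2] | (have q0 := C.o1; have q1 := c18_1_1; have q2 := c51_3_0; have q3 := c58_4_0; have q4 := s2; clear C; omega)
                                      · rcases c0_13_22_33_k3_k_tzpm C with c64_0_0 | c64_1_0 | c64_2_0 | c64_3_0 | ⟨c64_4_0, c64_4_1⟩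
                                        · first | linarith only [c2_0_0, c64_0_0] | (have q0 := c2_0_0; have q1 := c64_0_0; clear C; omega)
                                        · first | linarith only [C.f22_4, C.f22_6, c2_0_0, c44_5_0, c54_4_0, c55_0_0, c64_1_0, e0, s3] | (have q0 := C.f22_4; have q1 := C.f22_6; have q2 := c2_0_0; have q3 := c44_5_0; have q4 := c54_4_0; have q5 := c55_0_0; have q6 := c64_1_0; have q7 := e0; have q8 := s3; clear C; omega)
                                        · first | linarith only [C.f13_0, C.f13_3, c2_0_0, c51_3_0, c54_4_0, c64_2_0, s2] | (have q0 := C.f13_0; have q1 := C.f13_3; have q2 := c2_0_0; have q3 := c51_3_0; have q4 := c54_4_0; have q5 := c64_2_0; have q6 := s2; clear C; omega)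
                                        · first | linarith only [C.f13_4, C.f22_4, C.f33_4, C.o2, c2_0_0, c54_4_0, c55_0_0, c64_3_0, e0, s2] | (have q0 := C.f13_4; have q1 := C.f22_4; have q2 := C.f33_4; have q3 := C.o2; have q4 := c2_0_0; have q5 := c54_4_0; have q6 := c55_0_0; have q7 := c64_3_0; have q8 := e0; have q9 := s2; clear C; omega)
                                        · rcases c0_13_22_33_k3_k_F2 hF2 with c66_0_0 | c66_1_0 | c66_2_0 | c66_3_0 | c66_4_0 | c66_5_0 | c66_6_0 | c66_7_0 | c66_8_0 | c66_9_0 | c66_10_0 | c66_11_0 | c66_12_0 | c66_13_0 | c66_14_0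
                                          · first | linarith only [c66_0_0, e0] | (have q0 := c66_0_0; have q1 := e0; clear C; omega)
                                          · first | linarith only [C.f13_0, C.f22_1, C.f33_0, c54_4_0, c55_0_0, c66_1_0, s1] | (have q0 := C.f13_0; have q1 := C.f22_1; have q2 := C.f33_0; have q3 := c54_4_0; have q4 := c55_0_0; have q5 := c66_1_0; have q6 := s1; clear C; omega)
                                          · first | linarith only [C.f13_0, C.f13_3, c2_0_0, c51_3_0, c66_2_0, s2] | (have q0 := C.f13_0; have q1 := C.f13_3; have q2 := c2_0_0; have q3 := c51_3_0; have q4 := c66_2_0; have q5 := s2; clear C; omega)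
                                          · first | linarith only [C.f22_6, c0_0_1, c18_1_1, c19_1_1, c46_1_1, c4_1_1, c51_3_0, c52_3_0, c58_5_0, c64_4_1, c66_3_0, e2] | (have q0 := C.f22_6; have q1 := c0_0_1; have q2 := c18_1_1; have q3 := c19_1_1; have q4 := c46_1_1; have q5 := c4_1_1; have q6 := c51_3_0; have q7 := c52_3_0; have q8 := c58_5_0; have q9 := c64_4_1; have q10 := c66_3_0; have q11 := e2; clear C; omega)
                                          · first | linarith only [C.f13_0, C.f13_7, C.f22_1, C.f22_4, C.f22_6, C.f33_1, C.f33_7, c54_4_0, c55_0_0, c64_4_1, c66_4_0, s1, s3] | (have q0 := C.f13_0; have q1 := C.f13_7; have q2 := C.f22_1; have q3 := C.f22_4; have q4 := C.f22_6; have q5 := C.f33_1; have q6 := C.f33_7; have q7 := c54_4_0; have q8 := c55_0_0; have q9 := c64_4_1; have q10 := c66_4_0; have q11 := s1; have q12 := s3; clear C; omega)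
                                          · first | linarith only [c0_0_1, c19_1_1, c52_3_0, c66_5_0] | (have q0 := c0_0_1; have q1 := c19_1_1; have q2 := c52_3_0; have q3 := c66_5_0; clear C; omega)
                                          · first | linarith only [c2_0_0, c66_6_0] | (have q0 := c2_0_0; have q1 := c66_6_0; clear C; omega)
                                          · first | linarith only [c0_0_1, c18_1_1, c19_1_1, c46_1_1, c51_3_0, c52_3_0, c66_7_0, e2] | (have q0 := c0_0_1; have q1 := c18_1_1; have q2 := c19_1_1; have q3 := c46_1_1; have q4 := c51_3_0; have q5 := c52_3_0; have q6 := c66_7_0; have q7 := e2; clear C; omega)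
                                          · first | linarith only [C.f22_1, C.f33_1, c19_1_1, c52_3_0, c54_4_0, c55_0_0, c66_8_0, s1] | (have q0 := C.f22_1; have q1 := C.f33_1; have q2 := c19_1_1; have q3 := c52_3_0; have q4 := c54_4_0; have q5 := c55_0_0; have q6 := c66_8_0; have q7 := s1; clear C; omega)
                                          · first | linarith only [c55_0_0, c66_9_0] | (have q0 := c55_0_0; have q1 := c66_9_0; clear C; omega)
                                          · first | linarith only [C.b0, c66_10_0] | (have q0 := C.b0; have q1 := c66_10_0; clear C; omega)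
                                          · first | linarith only [c54_4_0, c66_11_0] | (have q0 := c54_4_0; have q1 := c66_11_0; clear C; omega)
                                          · first | linarith only [c55_0_0, c66_12_0, e2] | (have q0 := c55_0_0; have q1 := c66_12_0; have q2 := e2; clear C; omega)
                                          · first | linarith only [c0_0_1, c18_1_1, c19_1_1, c46_1_1, c51_3_0, c52_3_0, c64_4_1, c66_13_0, e2] | (have q0 := c0_0_1; have q1 := c18_1_1; have q2 := c19_1_1; have q3 := c46_1_1; have q4 := c51_3_0; have q5 := c52_3_0; have q6 := c64_4_1; have q7 := c66_13_0; have q8 := e2; clear C; omega)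
                                          · first | linarith only [C.f13_0, C.f22_1, C.f33_1, C.o2, c54_4_0, c55_0_0, c66_14_0, s1] | (have q0 := C.f13_0; have q1 := C.f22_1; have q2 := C.f33_1; have q3 := C.o2; have q4 := c54_4_0; have q5 := c55_0_0; have q6 := c66_14_0; have q7 := s1; clear C; omega)
                                    · first | linarith only [c2_0_0, c55_1_0, e0] | (have q0 := c2_0_0; have q1 := c55_1_0; have q2 := e0; clear C; omega)
                                    · first | linarith only [c55_2_0, e1] | (have q0 := c55_2_0; have q1 := e1; clear C; omega)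
                                    · first | linarith only [C.f11_0, C.o0, c19_1_1, c2_0_0, c55_3_0] | (have q0 := C.f11_0; have q1 := C.o0; have q2 := c19_1_1; have q3 := c2_0_0; have q4 := c55_3_0; clear C; omega)
                                    · first | linarith only [C.f11_0, C.f11_1, C.f13_0, C.f13_3, C.o0, c2_0_0, c34_1_1, c51_3_0, c54_4_0, c55_4_0, s2] | (have q0 := C.f11_0; have q1 := C.f11_1; have q2 := C.f13_0; have q3 := C.f13_3; have q4 := C.o0; have q5 := c2_0_0; have q6 := c34_1_1; have q7 := c51_3_0; have q8 := c54_4_0; have q9 := c55_4_0; have q10 := s2; clear C; omega)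
                                    · first | linarith only [C.f11_0, C.f11_1, C.f11_2, C.f13_0, C.f13_3, C.f22_4, C.f22_6, c2_0_0, c35_1_1, c44_5_0, c4_1_1, c50_1_1, c51_3_0, c54_4_0, c55_5_0, s2, s3] | (have q0 := C.f11_0; have q1 := C.f11_1; have q2 := C.f11_2; have q3 := C.f13_0; have q4 := C.f13_3; have q5 := C.f22_4; have q6 := C.f22_6; have q7 := c2_0_0; have q8 := c35_1_1; have q9 := c44_5_0; have q10 := c4_1_1; have q11 := c50_1_1; have q12 := c51_3_0; have q13 := c54_4_0; have q14 := c55_5_0; have q15 := s2; have q16 := s3; clear C; omega)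
                                  · first | linarith only [C.f22_4, C.f22_6, c44_5_0, c4_1_1, c50_1_1, c54_5_0, s3] | (have q0 := C.f22_4; have q1 := C.f22_6; have q2 := c44_5_0; have q3 := c4_1_1; have q4 := c50_1_1; have q5 := c54_5_0; have q6 := s3; clear C; omega)
                                · first | linarith only [c34_1_1, c51_3_0, c52_4_0, s2] | (have q0 := c34_1_1; have q1 := c51_3_0; have q2 := c52_4_0; have q3 := s2; clear C; omega)
                                · first | linarith only [C.o2, c35_1_1, c4_1_1, c52_5_0] | (have q0 := C.o2; have q1 := c35_1_1; have q2 := c4_1_1; have q3 := c52_5_0; clear C; omega)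
                              · first | linarith only [c44_5_0, c50_1_1, c51_4_0, s3] | (have q0 := c44_5_0; have q1 := c50_1_1; have q2 := c51_4_0; have q3 := s3; clear C; omega)
                      · rcases c0_13_22_33_k3_k_f33_5 C with ⟨c67_0_0, c67_0_1⟩ | ⟨c67_1_0, c67_1_1⟩
                        · first | linarith only [C.f33_4, c1_0_1, c2_0_0, c43_1_1, c67_0_1] | (have q0 := C.f33_4; have q1 := c1_0_1; have q2 := c2_0_0; have q3 := c43_1_1; have q4 := c67_0_1; clear C; omega)
                        · rcases c0_13_22_33_k3_k_f33_8 C with ⟨c68_0_0, c68_0_1⟩ | ⟨c68_1_0, c68_1_1⟩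
                          · first | linarith only [C.f13_4, C.f13_7, C.f22_4, C.f22_6, C.f23_5, C.f23_8, C.f33_7, C.o1, c35_1_1, c67_1_1, c68_0_1, s2, s3] | (have q0 := C.f13_4; have q1 := C.f13_7; have q2 := C.f22_4; have q3 := C.f22_6; have q4 := C.f23_5; have q5 := C.f23_8; have q6 := C.f33_7; have q7 := C.o1; have q8 := c35_1_1; have q9 := c67_1_1; have q10 := c68_0_1; have q11 := s2; have q12 := s3; clear C; omega)
                          · rcases c0_13_22_33_k3_k_p13_33A C with c69_0_0 | c69_1_0 | c69_2_0 | c69_3_0 | c69_4_0 | c69_5_0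
                            · first | linarith only [c69_0_0, e0] | (have q0 := c69_0_0; have q1 := e0; clear C; omega)
                            · first | linarith only [c69_1_0, e1] | (have q0 := c69_1_0; have q1 := e1; clear C; omega)
                            · first | linarith only [c69_2_0, e3] | (have q0 := c69_2_0; have q1 := e3; clear C; omega)
                            · first | linarith only [C.a4, C.f22_1, C.o1, c0_0_1, c43_1_1, c69_3_0, s1] | (have q0 := C.a4; have q1 := C.f22_1; have q2 := C.o1; have q3 := c0_0_1; have q4 := c43_1_1; have q5 := c69_3_0; have q6 := s1; clear C; omega)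
                            · first | linarith only [C.f22_4, C.o1, c69_4_0, s2] | (have q0 := C.f22_4; have q1 := C.o1; have q2 := c69_4_0; have q3 := s2; clear C; omega)
                            · rcases c0_13_22_33_k3_k_p22_33A C with c71_0_0 | c71_1_0 | c71_2_0 | c71_3_0 | c71_4_0
                              · first | linarith only [c71_0_0, e2] | (have q0 := c71_0_0; have q1 := e2; clear C; omega)
                              · first | linarith only [c71_1_0, e3] | (have q0 := c71_1_0; have q1 := e3; clear C; omega)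
                              · first | linarith only [C.f13_0, c71_2_0, s1] | (have q0 := C.f13_0; have q1 := c71_2_0; have q2 := s1; clear C; omega)
                              · rcases c0_13_22_33_k3_k_p13_23A C with c72_0_0 | c72_1_0 | c72_2_0 | c72_3_0 | c72_4_0 | c72_5_0
                                · first | linarith only [c72_0_0, e0] | (have q0 := c72_0_0; have q1 := e0; clear C; omega)
                                · first | linarith only [c72_1_0, e1] | (have q0 := c72_1_0; have q1 := e1; clear C; omega)
                                · first | linarith only [c2_0_0, c72_2_0, e0] | (have q0 := c2_0_0; have q1 := c72_2_0; have q2 := e0; clear C; omega)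
                                · rcases c0_13_22_33_k3_k_tpmz C with c74_0_0 | c74_1_0 | c74_2_0 | c74_3_0 | c74_4_0 | c74_5_0
                                  · first | linarith only [c74_0_0, e0] | (have q0 := c74_0_0; have q1 := e0; clear C; omega)
                                  · first | linarith only [C.f13_0, C.f13_3, c71_3_0, c74_1_0, s2] | (have q0 := C.f13_0; have q1 := C.f13_3; have q2 := c71_3_0; have q3 := c74_1_0; have q4 := s2; clear C; omega)
                                  · first | linarith only [C.f22_1, C.f33_1, C.o1, c0_0_1, c19_1_1, c72_3_0, c74_2_0, s1] | (have q0 := C.f22_1; have q1 := C.f33_1; have q2 := C.o1; have q3 := c0_0_1; have q4 := c19_1_1; have q5 := c72_3_0; have q6 := c74_2_0; have q7 := s1; clear C; omega)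
                                  · first | linarith only [C.a4, C.f13_0, C.f22_1, C.f33_0, C.o0, C.o1, c43_1_1, c74_3_0, s1] | (have q0 := C.a4; have q1 := C.f13_0; have q2 := C.f22_1; have q3 := C.f33_0; have q4 := C.o0; have q5 := C.o1; have q6 := c43_1_1; have q7 := c74_3_0; have q8 := s1; clear C; omega)
                                  · rcases c0_13_22_33_k3_k_p11_23B C with c75_0_0 | c75_1_0 | c75_2_0 | c75_3_0 | c75_4_0 | c75_5_0
                                    · rcases c0_13_22_33_k3_k_p13_22B C with c78_0_0 | c78_1_0 | c78_2_0 | c78_3_0 | c78_4_0 | c78_5_0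
                                      · first | linarith only [c78_0_0, e0] | (have q0 := c78_0_0; have q1 := e0; clear C; omega)
                                      · first | linarith only [c78_1_0, e1] | (have q0 := c78_1_0; have q1 := e1; clear C; omega)
                                      · first | linarith only [c78_2_0, e2] | (have q0 := c78_2_0; have q1 := e2; clear C; omega)
                                      · first | linarith only [c0_0_1, c5_1_1, c75_0_0, c78_3_0, e0, e2] | (have q0 := c0_0_1; have q1 := c5_1_1; have q2 := c75_0_0; have q3 := c78_3_0; have q4 := e0; have q5 := e2; clear C; omega)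
                                      · first | linarith only [C.o1, c18_1_1, c71_3_0, c78_4_0, s2] | (have q0 := C.o1; have q1 := c18_1_1; have q2 := c71_3_0; have q3 := c78_4_0; have q4 := s2; clear C; omega)
                                      · rcases c0_13_22_33_k3_k_tzpm C with c84_0_0 | c84_1_0 | c84_2_0 | c84_3_0 | ⟨c84_4_0, c84_4_1⟩
                                        · first | linarith only [c2_0_0, c84_0_0] | (have q0 := c2_0_0; have q1 := c84_0_0; clear C; omega)
                                        · first | linarith only [C.f22_4, C.f22_6, c2_0_0, c69_5_0, c74_4_0, c75_0_0, c84_1_0, e0, s3] | (have q0 := C.f22_4; have q1 := C.f22_6; have q2 := c2_0_0; have q3 := c69_5_0; have q4 := c74_4_0; have q5 := c75_0_0; have q6 := c84_1_0; have q7 := e0; have q8 := s3; clear C; omega)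
                                        · first | linarith only [c1_0_1, c2_0_0, c74_4_0, c84_2_0] | (have q0 := c1_0_1; have q1 := c2_0_0; have q2 := c74_4_0; have q3 := c84_2_0; clear C; omega)
                                        · first | linarith only [C.f13_4, C.f22_4, C.f33_4, C.o2, c2_0_0, c74_4_0, c75_0_0, c84_3_0, e0, s2] | (have q0 := C.f13_4; have q1 := C.f22_4; have q2 := C.f33_4; have q3 := C.o2; have q4 := c2_0_0; have q5 := c74_4_0; have q6 := c75_0_0; have q7 := c84_3_0; have q8 := e0; have q9 := s2; clear C; omega)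
                                        · rcases c0_13_22_33_k3_k_F2 hF2 with c86_0_0 | c86_1_0 | c86_2_0 | c86_3_0 | c86_4_0 | c86_5_0 | c86_6_0 | c86_7_0 | c86_8_0 | c86_9_0 | c86_10_0 | c86_11_0 | c86_12_0 | c86_13_0 | c86_14_0
                                          · first | linarith only [c86_0_0, e0] | (have q0 := c86_0_0; have q1 := e0; clear C; omega)
                                          · first | linarith only [C.f13_0, C.f22_1, C.f33_0, c74_4_0, c75_0_0, c86_1_0, s1] | (have q0 := C.f13_0; have q1 := C.f22_1; have q2 := C.f33_0; have q3 := c74_4_0; have q4 := c75_0_0; have q5 := c86_1_0; have q6 := s1; clear C; omega)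
                                          · first | linarith only [C.f13_0, C.f13_3, c2_0_0, c71_3_0, c86_2_0, s2] | (have q0 := C.f13_0; have q1 := C.f13_3; have q2 := c2_0_0; have q3 := c71_3_0; have q4 := c86_2_0; have q5 := s2; clear C; omega)
                                          · first | linarith only [C.f22_6, c0_0_1, c18_1_1, c19_1_1, c4_1_1, c67_1_1, c71_3_0, c72_3_0, c78_5_0, c84_4_1, c86_3_0, e2] | (have q0 := C.f22_6; have q1 := c0_0_1; have q2 := c18_1_1; have q3 := c19_1_1; have q4 := c4_1_1; have q5 := c67_1_1; have q6 := c71_3_0; have q7 := c72_3_0; have q8 := c78_5_0; have q9 := c84_4_1; have q10 := c86_3_0; have q11 := e2; clear C; omega)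
                                          · first | linarith only [C.f13_0, C.f13_7, C.f22_1, C.f22_4, C.f22_6, C.f33_1, C.f33_7, c74_4_0, c75_0_0, c84_4_1, c86_4_0, s1, s3] | (have q0 := C.f13_0; have q1 := C.f13_7; have q2 := C.f22_1; have q3 := C.f22_4; have q4 := C.f22_6; have q5 := C.f33_1; have q6 := C.f33_7; have q7 := c74_4_0; have q8 := c75_0_0; have q9 := c84_4_1; have q10 := c86_4_0; have q11 := s1; have q12 := s3; clear C; omega)
                                          · first | linarith only [c0_0_1, c19_1_1, c72_3_0, c86_5_0] | (have q0 := c0_0_1; have q1 := c19_1_1; have q2 := c72_3_0; have q3 := c86_5_0; clear C; omega)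
                                          · first | linarith only [c2_0_0, c86_6_0] | (have q0 := c2_0_0; have q1 := c86_6_0; clear C; omega)
                                          · first | linarith only [c0_0_1, c18_1_1, c19_1_1, c67_1_1, c71_3_0, c72_3_0, c86_7_0, e2] | (have q0 := c0_0_1; have q1 := c18_1_1; have q2 := c19_1_1; have q3 := c67_1_1; have q4 := c71_3_0; have q5 := c72_3_0; have q6 := c86_7_0; have q7 := e2; clear C; omega)
                                          · first | linarith only [C.f22_1, C.f33_1, c19_1_1, c72_3_0, c74_4_0, c75_0_0, c86_8_0, s1] | (have q0 := C.f22_1; have q1 := C.f33_1; have q2 := c19_1_1; have q3 := c72_3_0; have q4 := c74_4_0; have q5 := c75_0_0; have q6 := c86_8_0; have q7 := s1; clear C; omega)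
                                          · first | linarith only [c75_0_0, c86_9_0] | (have q0 := c75_0_0; have q1 := c86_9_0; clear C; omega)
                                          · first | linarith only [C.b0, c86_10_0] | (have q0 := C.b0; have q1 := c86_10_0; clear C; omega)
                                          · first | linarith only [c74_4_0, c86_11_0] | (have q0 := c74_4_0; have q1 := c86_11_0; clear C; omega)
                                          · first | linarith only [c75_0_0, c86_12_0, e2] | (have q0 := c75_0_0; have q1 := c86_12_0; have q2 := e2; clear C; omega)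
                                          · first | linarith only [c0_0_1, c18_1_1, c19_1_1, c67_1_1, c71_3_0, c72_3_0, c84_4_1, c86_13_0, e2] | (have q0 := c0_0_1; have q1 := c18_1_1; have q2 := c19_1_1; have q3 := c67_1_1; have q4 := c71_3_0; have q5 := c72_3_0; have q6 := c84_4_1; have q7 := c86_13_0; have q8 := e2; clear C; omega)
                                          · first | linarith only [C.f13_0, C.f22_1, C.f33_1, C.o2, c74_4_0, c75_0_0, c86_14_0, s1] | (have q0 := C.f13_0; have q1 := C.f22_1; have q2 := C.f33_1; have q3 := C.o2; have q4 := c74_4_0; have q5 := c75_0_0; have q6 := c86_14_0; have q7 := s1; clear C; omega)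
                                    · first | linarith only [c2_0_0, c75_1_0, e0] | (have q0 := c2_0_0; have q1 := c75_1_0; have q2 := e0; clear C; omega)
                                    · first | linarith only [c75_2_0, e1] | (have q0 := c75_2_0; have q1 := e1; clear C; omega)
                                    · first | linarith only [C.f11_0, C.o0, c19_1_1, c2_0_0, c75_3_0] | (have q0 := C.f11_0; have q1 := C.o0; have q2 := c19_1_1; have q3 := c2_0_0; have q4 := c75_3_0; clear C; omega)
                                    · first | linarith only [C.f11_0, C.f11_1, C.f13_0, C.f13_3, C.o0, c2_0_0, c34_1_1, c71_3_0, c74_4_0, c75_4_0, s2] | (have q0 := C.f11_0; have q1 := C.f11_1; have q2 := C.f13_0; have q3 := C.f13_3; have q4 := C.o0; have q5 := c2_0_0; have q6 := c34_1_1; have q7 := c71_3_0; have q8 := c74_4_0; have q9 := c75_4_0; have q10 := s2; clear C; omega)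
                                    · first | linarith only [C.f11_0, C.f11_1, C.f11_2, C.f13_0, C.f13_3, C.f22_4, C.f22_6, c2_0_0, c35_1_1, c4_1_1, c68_1_1, c69_5_0, c71_3_0, c74_4_0, c75_5_0, s2, s3] | (have q0 := C.f11_0; have q1 := C.f11_1; have q2 := C.f11_2; have q3 := C.f13_0; have q4 := C.f13_3; have q5 := C.f22_4; have q6 := C.f22_6; have q7 := c2_0_0; have q8 := c35_1_1; have q9 := c4_1_1; have q10 := c68_1_1; have q11 := c69_5_0; have q12 := c71_3_0; have q13 := c74_4_0; have q14 := c75_5_0; have q15 := s2; have q16 := s3; clear C; omega)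
                                  · first | linarith only [C.f22_4, C.f22_6, c4_1_1, c68_1_1, c69_5_0, c74_5_0, s3] | (have q0 := C.f22_4; have q1 := C.f22_6; have q2 := c4_1_1; have q3 := c68_1_1; have q4 := c69_5_0; have q5 := c74_5_0; have q6 := s3; clear C; omega)
                                · first | linarith only [c34_1_1, c71_3_0, c72_4_0, s2] | (have q0 := c34_1_1; have q1 := c71_3_0; have q2 := c72_4_0; have q3 := s2; clear C; omega)
                                · first | linarith only [C.o2, c35_1_1, c4_1_1, c72_5_0] | (have q0 := C.o2; have q1 := c35_1_1; have q2 := c4_1_1; have q3 := c72_5_0; clear C; omega)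
                              · first | linarith only [c68_1_1, c69_5_0, c71_4_0, s3] | (have q0 := c68_1_1; have q1 := c69_5_0; have q2 := c71_4_0; have q3 := s3; clear C; omega)
                  · first | linarith only [C.f13_4, C.f23_5, c0_0_1, c1_0_1, c34_2_1, c3_0_1] | (have q0 := C.f13_4; have q1 := C.f23_5; have q2 := c0_0_1; have q3 := c1_0_1; have q4 := c34_2_1; have q5 := c3_0_1; clear C; omega)
                · first | linarith only [C.f13_4, C.f23_1, c0_0_1, c19_2_1, c1_0_1, c3_0_1] | (have q0 := C.f13_4; have q1 := C.f23_1; have q2 := c0_0_1; have q3 := c19_2_1; have q4 := c1_0_1; have q5 := c3_0_1; clear C; omega)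
        · rcases c0_13_22_33_k3_k_f13_8 C with ⟨c87_0_0, c87_0_1⟩ | ⟨c87_1_0, c87_1_1⟩
          · first | linarith only [C.a4, C.f13_7, c2_0_1, c3_1_1, c87_0_1] | (have q0 := C.a4; have q1 := C.f13_7; have q2 := c2_0_1; have q3 := c3_1_1; have q4 := c87_0_1; clear C; omega)
          · rcases c0_13_22_33_k3_k_f22_2 C with ⟨c88_0_0, c88_0_1⟩ | ⟨c88_1_0, c88_1_1⟩
            · rcases c0_13_22_33_k3_k_f22_5 C with ⟨c89_0_0, c89_0_1⟩ | ⟨c89_1_0, c89_1_1⟩
              · first | linarith only [C.a1, C.f22_4, C.o1, c1_0_1, c88_0_1, c89_0_1] | (have q0 := C.a1; have q1 := C.f22_4; have q2 := C.o1; have q3 := c1_0_1; have q4 := c88_0_1; have q5 := c89_0_1; clear C; omega)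
              · rcases c0_13_22_33_k3_k_p13_22A C with c90_0_0 | c90_1_0 | c90_2_0 | c90_3_0 | c90_4_0 | c90_5_0
                · first | linarith only [c90_0_0, e0] | (have q0 := c90_0_0; have q1 := e0; clear C; omega)
                · first | linarith only [c90_1_0, e1] | (have q0 := c90_1_0; have q1 := e1; clear C; omega)
                · first | linarith only [c90_2_0, e2] | (have q0 := c90_2_0; have q1 := e2; clear C; omega)
                · first | linarith only [C.f33_0, c0_0_1, c88_0_1, c90_3_0, s1] | (have q0 := C.f33_0; have q1 := c0_0_1; have q2 := c88_0_1; have q3 := c90_3_0; have q4 := s1; clear C; omega)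
                · rcases c0_13_22_33_k3_k_f23_3 C with ⟨c91_0_0, c91_0_1⟩ | ⟨c91_1_0, c91_1_1⟩ | ⟨c91_2_0, c91_2_1⟩
                  · rcases c0_13_22_33_k3_k_f23_7 C with ⟨c92_0_0, c92_0_1⟩ | ⟨c92_1_0, c92_1_1⟩ | ⟨c92_2_0, c92_2_1⟩
                    · first | linarith only [C.b3, C.f13_0, C.f13_3, C.f22_0, C.f22_4, C.f23_5, C.f33_0, C.f33_4, C.o0, C.o2, c3_1_1, c91_0_1, c92_0_1, s1, s2] | (have q0 := C.b3; have q1 := C.f13_0; have q2 := C.f13_3; have q3 := C.f22_0; have q4 := C.f22_4; have q5 := C.f23_5; have q6 := C.f33_0; have q7 := C.f33_4; have q8 := C.o0; have q9 := C.o2; have q10 := c3_1_1; have q11 := c91_0_1; have q12 := c92_0_1; have q13 := s1; have q14 := s2; clear C; omega)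
                    · rcases c0_13_22_33_k3_k_f23_10 C with ⟨c93_0_0, c93_0_1⟩ | ⟨c93_1_0, c93_1_1⟩
                      · first | linarith only [C.b5, C.f13_7, C.f22_6, C.f23_9, C.f33_4, C.f33_7, c3_1_1, c89_1_1, c90_4_0, c92_1_1, c93_0_1, s2, s3] | (have q0 := C.b5; have q1 := C.f13_7; have q2 := C.f22_6; have q3 := C.f23_9; have q4 := C.f33_4; have q5 := C.f33_7; have q6 := c3_1_1; have q7 := c89_1_1; have q8 := c90_4_0; have q9 := c92_1_1; have q10 := c93_0_1; have q11 := s2; have q12 := s3; clear C; omega)
                      · rcases c0_13_22_33_k3_k_p13_23A C with c98_0_0 | c98_1_0 | c98_2_0 | c98_3_0 | c98_4_0 | c98_5_0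
                        · first | linarith only [c98_0_0, e0] | (have q0 := c98_0_0; have q1 := e0; clear C; omega)
                        · first | linarith only [c98_1_0, e1] | (have q0 := c98_1_0; have q1 := e1; clear C; omega)
                        · first | linarith only [C.f13_0, C.f22_1, C.f33_0, C.f33_4, C.o2, c3_1_1, c88_0_1, c89_1_1, c90_4_0, c98_2_0, e0, s1, s2] | (have q0 := C.f13_0; have q1 := C.f22_1; have q2 := C.f33_0; have q3 := C.f33_4; have q4 := C.o2; have q5 := c3_1_1; have q6 := c88_0_1; have q7 := c89_1_1; have q8 := c90_4_0; have q9 := c98_2_0; have q10 := e0; have q11 := s1; have q12 := s2; clear C; omega)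
                        · first | linarith only [C.f22_0, C.f33_0, c0_0_1, c91_0_1, c98_3_0, s1] | (have q0 := C.f22_0; have q1 := C.f33_0; have q2 := c0_0_1; have q3 := c91_0_1; have q4 := c98_3_0; have q5 := s1; clear C; omega)
                        · first | linarith only [C.f33_4, C.o2, c3_1_1, c90_4_0, c92_1_1, c98_4_0, s2] | (have q0 := C.f33_4; have q1 := C.o2; have q2 := c3_1_1; have q3 := c90_4_0; have q4 := c92_1_1; have q5 := c98_4_0; have q6 := s2; clear C; omega)
                        · first | linarith only [C.o2, c87_1_1, c93_1_1, c98_5_0] | (have q0 := C.o2; have q1 := c87_1_1; have q2 := c93_1_1; have q3 := c98_5_0; clear C; omega)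
                    · first | linarith only [C.f23_5, C.f33_4, C.o2, c90_4_0, c92_2_1, s2] | (have q0 := C.f23_5; have q1 := C.f33_4; have q2 := C.o2; have q3 := c90_4_0; have q4 := c92_2_1; have q5 := s2; clear C; omega)
                  · first | linarith only [C.f22_1, C.f23_0, C.f33_4, C.o2, c3_1_1, c88_0_1, c89_1_1, c90_4_0, c91_1_1, s2] | (have q0 := C.f22_1; have q1 := C.f23_0; have q2 := C.f33_4; have q3 := C.o2; have q4 := c3_1_1; have q5 := c88_0_1; have q6 := c89_1_1; have q7 := c90_4_0; have q8 := c91_1_1; have q9 := s2; clear C; omega)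
                  · first | linarith only [C.f22_1, C.f23_0, C.f33_4, C.o2, c3_1_1, c88_0_1, c89_1_1, c90_4_0, c91_2_1, s2] | (have q0 := C.f22_1; have q1 := C.f23_0; have q2 := C.f33_4; have q3 := C.o2; have q4 := c3_1_1; have q5 := c88_0_1; have q6 := c89_1_1; have q7 := c90_4_0; have q8 := c91_2_1; have q9 := s2; clear C; omega)
                · first | linarith only [C.f33_7, c90_5_0, s3] | (have q0 := C.f33_7; have q1 := c90_5_0; have q2 := s3; clear C; omega)
            · rcases c0_13_22_33_k3_k_f22_5 C with ⟨c99_0_0, c99_0_1⟩ | ⟨c99_1_0, c99_1_1⟩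
              · first | linarith only [C.f13_0, C.f13_3, C.f22_4, C.f33_4, C.o1, C.o2, c2_0_0, c3_1_1, c88_1_1, c99_0_1, s2] | (have q0 := C.f13_0; have q1 := C.f13_3; have q2 := C.f22_4; have q3 := C.f33_4; have q4 := C.o1; have q5 := C.o2; have q6 := c2_0_0; have q7 := c3_1_1; have q8 := c88_1_1; have q9 := c99_0_1; have q10 := s2; clear C; omega)
              · rcases c0_13_22_33_k3_k_f23_3 C with ⟨c100_0_0, c100_0_1⟩ | ⟨c100_1_0, c100_1_1⟩ | ⟨c100_2_0, c100_2_1⟩
                · rcases c0_13_22_33_k3_k_f23_7 C with ⟨c101_0_0, c101_0_1⟩ | ⟨c101_1_0, c101_1_1⟩ | ⟨c101_2_0, c101_2_1⟩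
                  · first | linarith only [C.a1, C.f13_0, C.f13_3, C.f22_4, C.f23_5, C.f33_4, C.o1, C.o2, c100_0_1, c101_0_1, c3_1_1, s2] | (have q0 := C.a1; have q1 := C.f13_0; have q2 := C.f13_3; have q3 := C.f22_4; have q4 := C.f23_5; have q5 := C.f33_4; have q6 := C.o1; have q7 := C.o2; have q8 := c100_0_1; have q9 := c101_0_1; have q10 := c3_1_1; have q11 := s2; clear C; omega)
                  · rcases c0_13_22_33_k3_k_p13_23A C with c102_0_0 | c102_1_0 | c102_2_0 | c102_3_0 | c102_4_0 | c102_5_0
                    · first | linarith only [c102_0_0, e0] | (have q0 := c102_0_0; have q1 := e0; clear C; omega)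
                    · first | linarith only [c102_1_0, e1] | (have q0 := c102_1_0; have q1 := e1; clear C; omega)
                    · first | linarith only [C.f13_0, C.f22_1, C.f23_1, C.f33_0, C.o1, c100_0_1, c102_2_0, e0, s1] | (have q0 := C.f13_0; have q1 := C.f22_1; have q2 := C.f23_1; have q3 := C.f33_0; have q4 := C.o1; have q5 := c100_0_1; have q6 := c102_2_0; have q7 := e0; have q8 := s1; clear C; omega)
                    · first | linarith only [C.f22_0, C.f33_0, c0_0_1, c100_0_1, c102_3_0, s1] | (have q0 := C.f22_0; have q1 := C.f33_0; have q2 := c0_0_1; have q3 := c100_0_1; have q4 := c102_3_0; have q5 := s1; clear C; omega)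
                    · first | linarith only [C.f22_4, C.f33_4, C.o1, C.o2, c101_1_1, c102_4_0, c3_1_1, s2] | (have q0 := C.f22_4; have q1 := C.f33_4; have q2 := C.o1; have q3 := C.o2; have q4 := c101_1_1; have q5 := c102_4_0; have q6 := c3_1_1; have q7 := s2; clear C; omega)
                    · rcases c0_13_22_33_k3_k_f23_10 C with ⟨c103_0_0, c103_0_1⟩ | ⟨c103_1_0, c103_1_1⟩
                      · first | linarith only [C.f22_4, C.f22_6, C.f33_7, C.o1, c101_1_1, c102_5_0, c103_0_1, s3] | (have q0 := C.f22_4; have q1 := C.f22_6; have q2 := C.f33_7; have q3 := C.o1; have q4 := c101_1_1; have q5 := c102_5_0; have q6 := c103_0_1; have q7 := s3; clear C; omega)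
                      · first | linarith only [C.o2, c102_5_0, c103_1_1, c87_1_1] | (have q0 := C.o2; have q1 := c102_5_0; have q2 := c103_1_1; have q3 := c87_1_1; clear C; omega)
                  · first | linarith only [C.f13_4, C.f22_4, C.f23_5, C.f33_4, C.o1, C.o2, c101_2_1, s2] | (have q0 := C.f13_4; have q1 := C.f22_4; have q2 := C.f23_5; have q3 := C.f33_4; have q4 := C.o1; have q5 := C.o2; have q6 := c101_2_1; have q7 := s2; clear C; omega)
                · rcases c0_13_22_33_k3_k_f23_7 C with ⟨c104_0_0, c104_0_1⟩ | ⟨c104_1_0, c104_1_1⟩ | ⟨c104_2_0, c104_2_1⟩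
                  · first | linarith only [C.f13_0, C.f13_3, C.f22_4, C.f23_5, C.f33_4, C.o1, C.o2, c100_1_1, c104_0_1, c2_0_0, c3_1_1, s2] | (have q0 := C.f13_0; have q1 := C.f13_3; have q2 := C.f22_4; have q3 := C.f23_5; have q4 := C.f33_4; have q5 := C.o1; have q6 := C.o2; have q7 := c100_1_1; have q8 := c104_0_1; have q9 := c2_0_0; have q10 := c3_1_1; have q11 := s2; clear C; omega)
                  · rcases c0_13_22_33_k3_k_f23_10 C with ⟨c106_0_0, c106_0_1⟩ | ⟨c106_1_0, c106_1_1⟩
                    · rcases c0_13_22_33_k3_k_p13_22A C with c107_0_0 | c107_1_0 | c107_2_0 | c107_3_0 | c107_4_0 | c107_5_0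
                      · first | linarith only [c107_0_0, e0] | (have q0 := c107_0_0; have q1 := e0; clear C; omega)
                      · first | linarith only [c107_1_0, e1] | (have q0 := c107_1_0; have q1 := e1; clear C; omega)
                      · first | linarith only [c107_2_0, e2] | (have q0 := c107_2_0; have q1 := e2; clear C; omega)
                      · rcases c0_13_22_33_k3_k_f33_5 C with ⟨c108_0_0, c108_0_1⟩ | ⟨c108_1_0, c108_1_1⟩
                        · first | linarith only [C.f13_0, C.f13_3, C.f13_7, C.f22_4, C.f22_6, C.f23_9, C.f33_4, C.f33_7, c104_1_1, c106_0_1, c107_3_0, c108_0_1, c2_0_0, c3_1_1, c88_1_1, s1, s3] | (have q0 := C.f13_0; have q1 := C.f13_3; have q2 := C.f13_7; have q3 := C.f22_4; have q4 := C.f22_6; have q5 := C.f23_9; have q6 := C.f33_4; have q7 := C.f33_7; have q8 := c104_1_1; have q9 := c106_0_1; have q10 := c107_3_0; have q11 := c108_0_1; have q12 := c2_0_0; have q13 := c3_1_1; have q14 := c88_1_1; have q15 := s1; have q16 := s3; clear C; omega)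
                        · rcases c0_13_22_33_k3_k_f33_8 C with ⟨c109_0_0, c109_0_1⟩ | ⟨c109_1_0, c109_1_1⟩
                          · first | linarith only [C.a4, C.f33_7, c108_1_1, c109_0_1, c2_0_1] | (have q0 := C.a4; have q1 := C.f33_7; have q2 := c108_1_1; have q3 := c109_0_1; have q4 := c2_0_1; clear C; omega)
                          · rcases c0_13_22_33_k3_k_p13_33A C with c112_0_0 | c112_1_0 | c112_2_0 | c112_3_0 | c112_4_0 | c112_5_0
                            · first | linarith only [c112_0_0, e0] | (have q0 := c112_0_0; have q1 := e0; clear C; omega)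
                            · first | linarith only [c112_1_0, e1] | (have q0 := c112_1_0; have q1 := e1; clear C; omega)
                            · first | linarith only [c112_2_0, e3] | (have q0 := c112_2_0; have q1 := e3; clear C; omega)
                            · first | linarith only [c0_0_1, c107_3_0, c112_3_0, s1] | (have q0 := c0_0_1; have q1 := c107_3_0; have q2 := c112_3_0; have q3 := s1; clear C; omega)
                            · first | linarith only [C.b5, C.f13_7, C.f22_4, C.f22_6, C.f23_9, C.f33_1, C.f33_7, c0_0_1, c104_1_1, c106_0_1, c107_3_0, c108_1_1, c112_4_0, c3_1_1, c88_1_1, s1, s3] | (have q0 := C.b5; have q1 := C.f13_7; have q2 := C.f22_4; have q3 := C.f22_6; have q4 := C.f23_9; have q5 := C.f33_1; have q6 := C.f33_7; have q7 := c0_0_1; have q8 := c104_1_1; have q9 := c106_0_1; have q10 := c107_3_0; have q11 := c108_1_1; have q12 := c112_4_0; have q13 := c3_1_1; have q14 := c88_1_1; have q15 := s1; have q16 := s3; clear C; omega)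
                            · first | linarith only [C.f22_4, C.f22_6, C.f23_9, c0_0_1, c104_1_1, c106_0_1, c107_3_0, c109_1_1, c112_5_0, c2_0_0, c87_1_1, c88_1_1, s3] | (have q0 := C.f22_4; have q1 := C.f22_6; have q2 := C.f23_9; have q3 := c0_0_1; have q4 := c104_1_1; have q5 := c106_0_1; have q6 := c107_3_0; have q7 := c109_1_1; have q8 := c112_5_0; have q9 := c2_0_0; have q10 := c87_1_1; have q11 := c88_1_1; have q12 := s3; clear C; omega)
                      · first | linarith only [C.a4, C.b5, C.f13_7, C.f22_6, C.f23_9, C.f33_7, c104_1_1, c106_0_1, c107_4_0, c3_1_1, c99_1_1, s3] | (have q0 := C.a4; have q1 := C.b5; have q2 := C.f13_7; have q3 := C.f22_6; have q4 := C.f23_9; have q5 := C.f33_7; have q6 := c104_1_1; have q7 := c106_0_1; have q8 := c107_4_0; have q9 := c3_1_1; have q10 := c99_1_1; have q11 := s3; clear C; omega)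
                      · first | linarith only [C.f33_7, c107_5_0, s3] | (have q0 := C.f33_7; have q1 := c107_5_0; have q2 := s3; clear C; omega)
                    · rcases c0_13_22_33_k3_k_p13_23A C with c113_0_0 | c113_1_0 | c113_2_0 | c113_3_0 | c113_4_0 | c113_5_0
                      · first | linarith only [c113_0_0, e0] | (have q0 := c113_0_0; have q1 := e0; clear C; omega)
                      · first | linarith only [c113_1_0, e1] | (have q0 := c113_1_0; have q1 := e1; clear C; omega)
                      · first | linarith only [c113_2_0, c2_0_0, e0] | (have q0 := c113_2_0; have q1 := c2_0_0; have q2 := e0; clear C; omega)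
                      · rcases c0_13_22_33_k3_k_f33_5 C with ⟨c114_0_0, c114_0_1⟩ | ⟨c114_1_0, c114_1_1⟩
                        · first | linarith only [C.f13_0, C.f13_3, C.f22_1, C.f33_4, C.o1, C.o2, c100_1_1, c113_3_0, c114_0_1, c3_1_1, s1] | (have q0 := C.f13_0; have q1 := C.f13_3; have q2 := C.f22_1; have q3 := C.f33_4; have q4 := C.o1; have q5 := C.o2; have q6 := c100_1_1; have q7 := c113_3_0; have q8 := c114_0_1; have q9 := c3_1_1; have q10 := s1; clear C; omega)
                        · rcases c0_13_22_33_k3_k_f33_8 C with ⟨c115_0_0, c115_0_1⟩ | ⟨c115_1_0, c115_1_1⟩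
                          · first | linarith only [C.f13_4, C.f13_7, C.f22_4, C.f22_6, C.f23_5, C.f23_8, C.f33_7, C.o1, c106_1_1, c114_1_1, c115_0_1, s2, s3] | (have q0 := C.f13_4; have q1 := C.f13_7; have q2 := C.f22_4; have q3 := C.f22_6; have q4 := C.f23_5; have q5 := C.f23_8; have q6 := C.f33_7; have q7 := C.o1; have q8 := c106_1_1; have q9 := c114_1_1; have q10 := c115_0_1; have q11 := s2; have q12 := s3; clear C; omega)
                          · rcases c0_13_22_33_k3_k_p13_33A C with c117_0_0 | c117_1_0 | c117_2_0 | c117_3_0 | c117_4_0 | c117_5_0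
                            · first | linarith only [c117_0_0, e0] | (have q0 := c117_0_0; have q1 := e0; clear C; omega)
                            · first | linarith only [c117_1_0, e1] | (have q0 := c117_1_0; have q1 := e1; clear C; omega)
                            · first | linarith only [c117_2_0, e3] | (have q0 := c117_2_0; have q1 := e3; clear C; omega)
                            · first | linarith only [C.f22_1, C.o1, c0_0_1, c100_1_1, c113_3_0, c117_3_0, s1] | (have q0 := C.f22_1; have q1 := C.o1; have q2 := c0_0_1; have q3 := c100_1_1; have q4 := c113_3_0; have q5 := c117_3_0; have q6 := s1; clear C; omega)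
                            · first | linarith only [C.f22_1, C.f33_1, C.o1, C.o2, c0_0_1, c100_1_1, c113_3_0, c114_1_1, c117_4_0, c3_1_1, s1] | (have q0 := C.f22_1; have q1 := C.f33_1; have q2 := C.o1; have q3 := C.o2; have q4 := c0_0_1; have q5 := c100_1_1; have q6 := c113_3_0; have q7 := c114_1_1; have q8 := c117_4_0; have q9 := c3_1_1; have q10 := s1; clear C; omega)
                            · rcases c0_13_22_33_k3_k_p22_33A C with c119_0_0 | c119_1_0 | c119_2_0 | c119_3_0 | c119_4_0
                              · first | linarith only [c119_0_0, e2] | (have q0 := c119_0_0; have q1 := e2; clear C; omega)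
                              · first | linarith only [c119_1_0, e3] | (have q0 := c119_1_0; have q1 := e3; clear C; omega)
                              · first | linarith only [C.f13_0, c119_2_0, s1] | (have q0 := C.f13_0; have q1 := c119_2_0; have q2 := s1; clear C; omega)
                              · rcases c0_13_22_33_k3_k_tpmz C with c120_0_0 | c120_1_0 | c120_2_0 | c120_3_0 | c120_4_0 | c120_5_0
                                · first | linarith only [c120_0_0, e0] | (have q0 := c120_0_0; have q1 := e0; clear C; omega)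
                                · first | linarith only [C.f13_3, C.f22_1, C.f33_1, C.o1, C.o2, c100_1_1, c113_3_0, c120_1_0, c3_1_1, s1] | (have q0 := C.f13_3; have q1 := C.f22_1; have q2 := C.f33_1; have q3 := C.o1; have q4 := C.o2; have q5 := c100_1_1; have q6 := c113_3_0; have q7 := c120_1_0; have q8 := c3_1_1; have q9 := s1; clear C; omega)
                                · first | linarith only [C.f22_1, C.f33_1, C.o1, c0_0_1, c100_1_1, c113_3_0, c120_2_0, s1] | (have q0 := C.f22_1; have q1 := C.f33_1; have q2 := C.o1; have q3 := c0_0_1; have q4 := c100_1_1; have q5 := c113_3_0; have q6 := c120_2_0; have q7 := s1; clear C; omega)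
                                · first | linarith only [C.f22_1, C.f33_0, C.o0, C.o1, c100_1_1, c113_3_0, c120_3_0, s1] | (have q0 := C.f22_1; have q1 := C.f33_0; have q2 := C.o0; have q3 := C.o1; have q4 := c100_1_1; have q5 := c113_3_0; have q6 := c120_3_0; have q7 := s1; clear C; omega)
                                · rcases c0_13_22_33_k3_k_p11_23B C with c121_0_0 | c121_1_0 | c121_2_0 | c121_3_0 | c121_4_0 | c121_5_0
                                  · rcases c0_13_22_33_k3_k_p13_22B C with c124_0_0 | c124_1_0 | c124_2_0 | c124_3_0 | c124_4_0 | c124_5_0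
                                    · first | linarith only [c124_0_0, e0] | (have q0 := c124_0_0; have q1 := e0; clear C; omega)
                                    · first | linarith only [c124_1_0, e1] | (have q0 := c124_1_0; have q1 := e1; clear C; omega)
                                    · first | linarith only [c124_2_0, e2] | (have q0 := c124_2_0; have q1 := e2; clear C; omega)
                                    · first | linarith only [c0_0_1, c121_0_0, c124_3_0, c88_1_1, e0, e2] | (have q0 := c0_0_1; have q1 := c121_0_0; have q2 := c124_3_0; have q3 := c88_1_1; have q4 := e0; have q5 := e2; clear C; omega)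
                                    · first | linarith only [C.f33_4, C.o1, C.o2, c124_4_0, c3_1_1, c99_1_1, s2] | (have q0 := C.f33_4; have q1 := C.o1; have q2 := C.o2; have q3 := c124_4_0; have q4 := c3_1_1; have q5 := c99_1_1; have q6 := s2; clear C; omega)
                                    · rcases c0_13_22_33_k3_k_tzpm C with c130_0_0 | c130_1_0 | c130_2_0 | c130_3_0 | ⟨c130_4_0, c130_4_1⟩
                                      · first | linarith only [c130_0_0, c2_0_0] | (have q0 := c130_0_0; have q1 := c2_0_0; clear C; omega)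
                                      · first | linarith only [C.f13_7, C.f22_4, C.f22_6, C.f23_5, C.f23_8, C.f33_7, c106_1_1, c120_4_0, c121_0_0, c130_1_0, c2_0_0, e0, s3] | (have q0 := C.f13_7; have q1 := C.f22_4; have q2 := C.f22_6; have q3 := C.f23_5; have q4 := C.f23_8; have q5 := C.f33_7; have q6 := c106_1_1; have q7 := c120_4_0; have q8 := c121_0_0; have q9 := c130_1_0; have q10 := c2_0_0; have q11 := e0; have q12 := s3; clear C; omega)
                                      · first | linarith only [C.f13_0, C.f13_3, C.f22_1, C.f33_1, C.o2, c120_4_0, c121_0_0, c130_2_0, c3_1_1, e0, s1] | (have q0 := C.f13_0; have q1 := C.f13_3; have q2 := C.f22_1; have q3 := C.f33_1; have q4 := C.o2; have q5 := c120_4_0; have q6 := c121_0_0; have q7 := c130_2_0; have q8 := c3_1_1; have q9 := e0; have q10 := s1; clear C; omega)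
                                      · first | linarith only [C.f13_0, C.f22_1, C.f33_1, C.o2, c120_4_0, c121_0_0, c130_3_0, e0, s1] | (have q0 := C.f13_0; have q1 := C.f22_1; have q2 := C.f33_1; have q3 := C.o2; have q4 := c120_4_0; have q5 := c121_0_0; have q6 := c130_3_0; have q7 := e0; have q8 := s1; clear C; omega)
                                      · rcases c0_13_22_33_k3_k_F2 hF2 with c132_0_0 | c132_1_0 | c132_2_0 | c132_3_0 | c132_4_0 | c132_5_0 | c132_6_0 | c132_7_0 | c132_8_0 | c132_9_0 | c132_10_0 | c132_11_0 | c132_12_0 | c132_13_0 | c132_14_0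
                                        · first | linarith only [c132_0_0, e0] | (have q0 := c132_0_0; have q1 := e0; clear C; omega)
                                        · first | linarith only [C.f13_0, C.f22_1, C.f33_0, c120_4_0, c121_0_0, c132_1_0, s1] | (have q0 := C.f13_0; have q1 := C.f22_1; have q2 := C.f33_0; have q3 := c120_4_0; have q4 := c121_0_0; have q5 := c132_1_0; have q6 := s1; clear C; omega)
                                        · first | linarith only [C.f13_0, C.f13_3, C.f22_1, C.f33_1, C.o2, c120_4_0, c121_0_0, c132_2_0, c3_1_1, e0, s1] | (have q0 := C.f13_0; have q1 := C.f13_3; have q2 := C.f22_1; have q3 := C.f33_1; have q4 := C.o2; have q5 := c120_4_0; have q6 := c121_0_0; have q7 := c132_2_0; have q8 := c3_1_1; have q9 := e0; have q10 := s1; clear C; omega)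
                                        · first | linarith only [C.f22_6, c0_0_1, c100_1_1, c113_3_0, c114_1_1, c119_3_0, c124_5_0, c130_4_1, c132_3_0, c87_1_1, c99_1_1, e2] | (have q0 := C.f22_6; have q1 := c0_0_1; have q2 := c100_1_1; have q3 := c113_3_0; have q4 := c114_1_1; have q5 := c119_3_0; have q6 := c124_5_0; have q7 := c130_4_1; have q8 := c132_3_0; have q9 := c87_1_1; have q10 := c99_1_1; have q11 := e2; clear C; omega)
                                        · first | linarith only [C.f13_0, C.f13_7, C.f22_1, C.f22_4, C.f22_6, C.f33_1, C.f33_7, c120_4_0, c121_0_0, c130_4_1, c132_4_0, s1, s3] | (have q0 := C.f13_0; have q1 := C.f13_7; have q2 := C.f22_1; have q3 := C.f22_4; have q4 := C.f22_6; have q5 := C.f33_1; have q6 := C.f33_7; have q7 := c120_4_0; have q8 := c121_0_0; have q9 := c130_4_1; have q10 := c132_4_0; have q11 := s1; have q12 := s3; clear C; omega)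
                                        · first | linarith only [c0_0_1, c100_1_1, c113_3_0, c132_5_0] | (have q0 := c0_0_1; have q1 := c100_1_1; have q2 := c113_3_0; have q3 := c132_5_0; clear C; omega)
                                        · first | linarith only [c132_6_0, c2_0_0] | (have q0 := c132_6_0; have q1 := c2_0_0; clear C; omega)
                                        · first | linarith only [c0_0_1, c100_1_1, c113_3_0, c114_1_1, c119_3_0, c132_7_0, c99_1_1, e2] | (have q0 := c0_0_1; have q1 := c100_1_1; have q2 := c113_3_0; have q3 := c114_1_1; have q4 := c119_3_0; have q5 := c132_7_0; have q6 := c99_1_1; have q7 := e2; clear C; omega)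
                                        · first | linarith only [C.f22_1, C.f33_1, c100_1_1, c113_3_0, c120_4_0, c121_0_0, c132_8_0, s1] | (have q0 := C.f22_1; have q1 := C.f33_1; have q2 := c100_1_1; have q3 := c113_3_0; have q4 := c120_4_0; have q5 := c121_0_0; have q6 := c132_8_0; have q7 := s1; clear C; omega)
                                        · first | linarith only [c121_0_0, c132_9_0] | (have q0 := c121_0_0; have q1 := c132_9_0; clear C; omega)
                                        · first | linarith only [C.b0, c132_10_0] | (have q0 := C.b0; have q1 := c132_10_0; clear C; omega)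
                                        · first | linarith only [c120_4_0, c132_11_0] | (have q0 := c120_4_0; have q1 := c132_11_0; clear C; omega)
                                        · first | linarith only [c121_0_0, c132_12_0, e2] | (have q0 := c121_0_0; have q1 := c132_12_0; have q2 := e2; clear C; omega)
                                        · first | linarith only [c0_0_1, c100_1_1, c113_3_0, c114_1_1, c119_3_0, c130_4_1, c132_13_0, c99_1_1, e2] | (have q0 := c0_0_1; have q1 := c100_1_1; have q2 := c113_3_0; have q3 := c114_1_1; have q4 := c119_3_0; have q5 := c130_4_1; have q6 := c132_13_0; have q7 := c99_1_1; have q8 := e2; clear C; omega)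
                                        · first | linarith only [C.f13_0, C.f22_1, C.f33_1, C.o2, c120_4_0, c121_0_0, c132_14_0, s1] | (have q0 := C.f13_0; have q1 := C.f22_1; have q2 := C.f33_1; have q3 := C.o2; have q4 := c120_4_0; have q5 := c121_0_0; have q6 := c132_14_0; have q7 := s1; clear C; omega)
                                  · first | linarith only [c121_1_0, c2_0_0, e0] | (have q0 := c121_1_0; have q1 := c2_0_0; have q2 := e0; clear C; omega)
                                  · first | linarith only [c121_2_0, e1] | (have q0 := c121_2_0; have q1 := e1; clear C; omega)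
                                  · first | linarith only [C.f11_0, C.o0, c100_1_1, c121_3_0, c2_0_0] | (have q0 := C.f11_0; have q1 := C.o0; have q2 := c100_1_1; have q3 := c121_3_0; have q4 := c2_0_0; clear C; omega)
                                  · first | linarith only [C.f11_0, C.f11_1, C.f13_0, C.f13_3, C.f22_1, C.f33_1, C.o0, C.o2, c104_1_1, c120_4_0, c121_4_0, c2_0_0, c3_1_1, s1] | (have q0 := C.f11_0; have q1 := C.f11_1; have q2 := C.f13_0; have q3 := C.f13_3; have q4 := C.f22_1; have q5 := C.f33_1; have q6 := C.o0; have q7 := C.o2; have q8 := c104_1_1; have q9 := c120_4_0; have q10 := c121_4_0; have q11 := c2_0_0; have q12 := c3_1_1; have q13 := s1; clear C; omega)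
                                  · first | linarith only [C.a4, C.f11_0, C.f11_1, C.f11_2, C.f13_0, C.f13_3, C.f13_7, C.f22_1, C.f22_4, C.f22_6, C.f23_5, C.f23_8, C.f33_1, C.f33_7, c106_1_1, c120_4_0, c121_5_0, c3_1_1, s1, s3] | (have q0 := C.a4; have q1 := C.f11_0; have q2 := C.f11_1; have q3 := C.f11_2; have q4 := C.f13_0; have q5 := C.f13_3; have q6 := C.f13_7; have q7 := C.f22_1; have q8 := C.f22_4; have q9 := C.f22_6; have q10 := C.f23_5; have q11 := C.f23_8; have q12 := C.f33_1; have q13 := C.f33_7; have q14 := c106_1_1; have q15 := c120_4_0; have q16 := c121_5_0; have q17 := c3_1_1; have q18 := s1; have q19 := s3; clear C; omega)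
                                · first | linarith only [C.f22_4, C.f22_6, c115_1_1, c117_5_0, c120_5_0, c87_1_1, s3] | (have q0 := C.f22_4; have q1 := C.f22_6; have q2 := c115_1_1; have q3 := c117_5_0; have q4 := c120_5_0; have q5 := c87_1_1; have q6 := s3; clear C; omega)
                              · first | linarith only [c115_1_1, c117_5_0, c119_4_0, s3] | (have q0 := c115_1_1; have q1 := c117_5_0; have q2 := c119_4_0; have q3 := s3; clear C; omega)
                      · first | linarith only [C.f22_4, C.f33_4, C.o1, C.o2, c104_1_1, c113_4_0, c3_1_1, s2] | (have q0 := C.f22_4; have q1 := C.f33_4; have q2 := C.o1; have q3 := C.o2; have q4 := c104_1_1; have q5 := c113_4_0; have q6 := c3_1_1; have q7 := s2; clear C; omega)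
                      · first | linarith only [C.o2, c106_1_1, c113_5_0, c87_1_1] | (have q0 := C.o2; have q1 := c106_1_1; have q2 := c113_5_0; have q3 := c87_1_1; clear C; omega)
                  · first | linarith only [C.f13_4, C.f22_4, C.f23_5, C.f33_4, C.o1, C.o2, c104_2_1, s2] | (have q0 := C.f13_4; have q1 := C.f22_4; have q2 := C.f23_5; have q3 := C.f33_4; have q4 := C.o1; have q5 := C.o2; have q6 := c104_2_1; have q7 := s2; clear C; omega)
                · first | linarith only [C.f13_4, C.f22_4, C.f23_1, C.f33_4, C.o1, C.o2, c100_2_1, s2] | (have q0 := C.f13_4; have q1 := C.f22_4; have q2 := C.f23_1; have q3 := C.f33_4; have q4 := C.o1; have q5 := C.o2; have q6 := c100_2_1; have q7 := s2; clear C; omega)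
      · rcases c0_13_22_33_k3_k_f13_5 C with ⟨c133_0_0, c133_0_1⟩ | ⟨c133_1_0, c133_1_1⟩
        · rcases c0_13_22_33_k3_k_f13_8 C with ⟨c134_0_0, c134_0_1⟩ | ⟨c134_1_0, c134_1_1⟩
          · first | linarith only [C.b3, C.f13_7, C.o0, c0_0_1, c133_0_1, c134_0_1, c2_1_1] | (have q0 := C.b3; have q1 := C.f13_7; have q2 := C.o0; have q3 := c0_0_1; have q4 := c133_0_1; have q5 := c134_0_1; have q6 := c2_1_1; clear C; omega)
          · rcases c0_13_22_33_k3_k_f22_2 C with ⟨c135_0_0, c135_0_1⟩ | ⟨c135_1_0, c135_1_1⟩
            · rcases c0_13_22_33_k3_k_f22_5 C with ⟨c136_0_0, c136_0_1⟩ | ⟨c136_1_0, c136_1_1⟩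
              · first | linarith only [C.a1, C.f22_4, C.o1, c135_0_1, c136_0_1, c1_0_1] | (have q0 := C.a1; have q1 := C.f22_4; have q2 := C.o1; have q3 := c135_0_1; have q4 := c136_0_1; have q5 := c1_0_1; clear C; omega)
              · rcases c0_13_22_33_k3_k_p13_22A C with c137_0_0 | c137_1_0 | c137_2_0 | c137_3_0 | c137_4_0 | c137_5_0
                · first | linarith only [c137_0_0, e0] | (have q0 := c137_0_0; have q1 := e0; clear C; omega)
                · first | linarith only [c137_1_0, e1] | (have q0 := c137_1_0; have q1 := e1; clear C; omega)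
                · first | linarith only [c137_2_0, e2] | (have q0 := c137_2_0; have q1 := e2; clear C; omega)
                · first | linarith only [C.f33_0, c0_0_1, c135_0_1, c137_3_0, s1] | (have q0 := C.f33_0; have q1 := c0_0_1; have q2 := c135_0_1; have q3 := c137_3_0; have q4 := s1; clear C; omega)
                · rcases c0_13_22_33_k3_k_f33_2 C with ⟨c138_0_0, c138_0_1⟩ | ⟨c138_1_0, c138_1_1⟩
                  · rcases c0_13_22_33_k3_k_f33_8 C with ⟨c139_0_0, c139_0_1⟩ | ⟨c139_1_0, c139_1_1⟩
                    · first | linarith only [C.f33_7, C.o1, C.o2, c137_4_0, c139_0_1, c2_1_1, s2] | (have q0 := C.f33_7; have q1 := C.o1; have q2 := C.o2; have q3 := c137_4_0; have q4 := c139_0_1; have q5 := c2_1_1; have q6 := s2; clear C; omega)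
                    · rcases c0_13_22_33_k3_k_p13_33A C with c140_0_0 | c140_1_0 | c140_2_0 | c140_3_0 | c140_4_0 | c140_5_0
                      · first | linarith only [c140_0_0, e0] | (have q0 := c140_0_0; have q1 := e0; clear C; omega)
                      · first | linarith only [c140_1_0, e1] | (have q0 := c140_1_0; have q1 := e1; clear C; omega)
                      · first | linarith only [c140_2_0, e3] | (have q0 := c140_2_0; have q1 := e3; clear C; omega)
                      · first | linarith only [C.f22_0, c0_0_1, c138_0_1, c140_3_0, s1] | (have q0 := C.f22_0; have q1 := c0_0_1; have q2 := c138_0_1; have q3 := c140_3_0; have q4 := s1; clear C; omega)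
                      · first | linarith only [C.b3, C.f22_4, C.o0, c0_0_1, c133_0_1, c137_4_0, c140_4_0, s2] | (have q0 := C.b3; have q1 := C.f22_4; have q2 := C.o0; have q3 := c0_0_1; have q4 := c133_0_1; have q5 := c137_4_0; have q6 := c140_4_0; have q7 := s2; clear C; omega)
                      · rcases c0_13_22_33_k3_k_p22_33A C with c142_0_0 | c142_1_0 | c142_2_0 | c142_3_0 | c142_4_0
                        · first | linarith only [c142_0_0, e2] | (have q0 := c142_0_0; have q1 := e2; clear C; omega)
                        · first | linarith only [c142_1_0, e3] | (have q0 := c142_1_0; have q1 := e3; clear C; omega)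
                        · first | linarith only [C.f13_0, c142_2_0, s1] | (have q0 := C.f13_0; have q1 := c142_2_0; have q2 := s1; clear C; omega)
                        · rcases c0_13_22_33_k3_k_f23_3 C with ⟨c143_0_0, c143_0_1⟩ | ⟨c143_1_0, c143_1_1⟩ | ⟨c143_2_0, c143_2_1⟩
                          · rcases c0_13_22_33_k3_k_f23_7 C with ⟨c144_0_0, c144_0_1⟩ | ⟨c144_1_0, c144_1_1⟩ | ⟨c144_2_0, c144_2_1⟩
                            · first | linarith only [C.f13_0, C.f13_3, C.f22_0, C.f23_5, C.f33_0, c142_3_0, c143_0_1, c144_0_1, s1, s2] | (have q0 := C.f13_0; have q1 := C.f13_3; have q2 := C.f22_0; have q3 := C.f23_5; have q4 := C.f33_0; have q5 := c142_3_0; have q6 := c143_0_1; have q7 := c144_0_1; have q8 := s1; have q9 := s2; clear C; omega)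
                            · rcases c0_13_22_33_k3_k_f23_10 C with ⟨c145_0_0, c145_0_1⟩ | ⟨c145_1_0, c145_1_1⟩
                              · first | linarith only [C.f22_6, C.f23_9, c134_1_1, c137_4_0, c139_1_1, c140_5_0, c142_3_0, c144_1_1, c145_0_1, s2, s3] | (have q0 := C.f22_6; have q1 := C.f23_9; have q2 := c134_1_1; have q3 := c137_4_0; have q4 := c139_1_1; have q5 := c140_5_0; have q6 := c142_3_0; have q7 := c144_1_1; have q8 := c145_0_1; have q9 := s2; have q10 := s3; clear C; omega)
                              · rcases c0_13_22_33_k3_k_p13_23A C with c147_0_0 | c147_1_0 | c147_2_0 | c147_3_0 | c147_4_0 | c147_5_0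
                                · first | linarith only [c147_0_0, e0] | (have q0 := c147_0_0; have q1 := e0; clear C; omega)
                                · first | linarith only [c147_1_0, e1] | (have q0 := c147_1_0; have q1 := e1; clear C; omega)
                                · first | linarith only [C.f13_0, C.f22_1, C.f33_0, c135_0_1, c136_1_1, c137_4_0, c142_3_0, c147_2_0, e0, s1, s2] | (have q0 := C.f13_0; have q1 := C.f22_1; have q2 := C.f33_0; have q3 := c135_0_1; have q4 := c136_1_1; have q5 := c137_4_0; have q6 := c142_3_0; have q7 := c147_2_0; have q8 := e0; have q9 := s1; have q10 := s2; clear C; omega)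
                                · first | linarith only [C.f22_0, C.f33_0, c0_0_1, c143_0_1, c147_3_0, s1] | (have q0 := C.f22_0; have q1 := C.f33_0; have q2 := c0_0_1; have q3 := c143_0_1; have q4 := c147_3_0; have q5 := s1; clear C; omega)
                                · first | linarith only [c142_3_0, c144_1_1, c147_4_0, s2] | (have q0 := c142_3_0; have q1 := c144_1_1; have q2 := c147_4_0; have q3 := s2; clear C; omega)
                                · first | linarith only [C.o2, c134_1_1, c145_1_1, c147_5_0] | (have q0 := C.o2; have q1 := c134_1_1; have q2 := c145_1_1; have q3 := c147_5_0; clear C; omega)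
                            · first | linarith only [C.f23_5, C.f33_4, C.o2, c137_4_0, c144_2_1, s2] | (have q0 := C.f23_5; have q1 := C.f33_4; have q2 := C.o2; have q3 := c137_4_0; have q4 := c144_2_1; have q5 := s2; clear C; omega)
                          · first | linarith only [C.f22_1, C.f23_0, c135_0_1, c136_1_1, c137_4_0, c142_3_0, c143_1_1, s2] | (have q0 := C.f22_1; have q1 := C.f23_0; have q2 := c135_0_1; have q3 := c136_1_1; have q4 := c137_4_0; have q5 := c142_3_0; have q6 := c143_1_1; have q7 := s2; clear C; omega)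
                          · first | linarith only [C.f13_4, C.f22_1, C.f23_0, c135_0_1, c136_1_1, c137_4_0, c142_3_0, c143_2_1, s2] | (have q0 := C.f13_4; have q1 := C.f22_1; have q2 := C.f23_0; have q3 := c135_0_1; have q4 := c136_1_1; have q5 := c137_4_0; have q6 := c142_3_0; have q7 := c143_2_1; have q8 := s2; clear C; omega)
                        · first | linarith only [c139_1_1, c140_5_0, c142_4_0, s3] | (have q0 := c139_1_1; have q1 := c140_5_0; have q2 := c142_4_0; have q3 := s3; clear C; omega)
                  · first | linarith only [C.f22_1, C.f33_0, C.f33_4, C.o1, c135_0_1, c137_4_0, c138_1_1, s2] | (have q0 := C.f22_1; have q1 := C.f33_0; have q2 := C.f33_4; have q3 := C.o1; have q4 := c135_0_1; have q5 := c137_4_0; have q6 := c138_1_1; have q7 := s2; clear C; omega)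
                · first | linarith only [C.f22_6, C.o2, c134_1_1, c136_1_1, c137_5_0, c2_1_1] | (have q0 := C.f22_6; have q1 := C.o2; have q2 := c134_1_1; have q3 := c136_1_1; have q4 := c137_5_0; have q5 := c2_1_1; clear C; omega)
            · rcases c0_13_22_33_k3_k_f22_5 C with ⟨c148_0_0, c148_0_1⟩ | ⟨c148_1_0, c148_1_1⟩
              · first | linarith only [C.a2, C.f22_4, c135_1_1, c148_0_1, c1_0_1] | (have q0 := C.a2; have q1 := C.f22_4; have q2 := c135_1_1; have q3 := c148_0_1; have q4 := c1_0_1; clear C; omega)
              · rcases c0_13_22_33_k3_k_f23_3 C with ⟨c149_0_0, c149_0_1⟩ | ⟨c149_1_0, c149_1_1⟩ | ⟨c149_2_0, c149_2_1⟩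
                · rcases c0_13_22_33_k3_k_f23_7 C with ⟨c150_0_0, c150_0_1⟩ | ⟨c150_1_0, c150_1_1⟩ | ⟨c150_2_0, c150_2_1⟩
                  · first | linarith only [C.a1, C.f13_0, C.f13_3, C.f22_4, C.f23_5, C.f33_0, C.f33_3, C.o1, c149_0_1, c150_0_1, s2] | (have q0 := C.a1; have q1 := C.f13_0; have q2 := C.f13_3; have q3 := C.f22_4; have q4 := C.f23_5; have q5 := C.f33_0; have q6 := C.f33_3; have q7 := C.o1; have q8 := c149_0_1; have q9 := c150_0_1; have q10 := s2; clear C; omega)
                  · rcases c0_13_22_33_k3_k_f23_10 C with ⟨c151_0_0, c151_0_1⟩ | ⟨c151_1_0, c151_1_1⟩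
                    · first | linarith only [C.f23_9, C.o1, c150_1_1, c151_0_1, c2_1_1] | (have q0 := C.f23_9; have q1 := C.o1; have q2 := c150_1_1; have q3 := c151_0_1; have q4 := c2_1_1; clear C; omega)
                    · rcases c0_13_22_33_k3_k_p13_23A C with c152_0_0 | c152_1_0 | c152_2_0 | c152_3_0 | c152_4_0 | c152_5_0
                      · first | linarith only [c152_0_0, e0] | (have q0 := c152_0_0; have q1 := e0; clear C; omega)
                      · first | linarith only [c152_1_0, e1] | (have q0 := c152_1_0; have q1 := e1; clear C; omega)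
                      · first | linarith only [C.a2, c152_2_0, e0] | (have q0 := C.a2; have q1 := c152_2_0; have q2 := e0; clear C; omega)
                      · first | linarith only [C.f22_0, C.f33_0, c0_0_1, c149_0_1, c152_3_0, s1] | (have q0 := C.f22_0; have q1 := C.f33_0; have q2 := c0_0_1; have q3 := c149_0_1; have q4 := c152_3_0; have q5 := s1; clear C; omega)
                      · rcases c0_13_22_33_k3_k_f33_8 C with ⟨c154_0_0, c154_0_1⟩ | ⟨c154_1_0, c154_1_1⟩
                        · first | linarith only [C.f22_4, C.f33_7, C.o1, C.o2, c150_1_1, c152_4_0, c154_0_1, c2_1_1, s2] | (have q0 := C.f22_4; have q1 := C.f33_7; have q2 := C.o1; have q3 := C.o2; have q4 := c150_1_1; have q5 := c152_4_0; have q6 := c154_0_1; have q7 := c2_1_1; have q8 := s2; clear C; omega)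
                        · rcases c0_13_22_33_k3_k_p22_33A C with c158_0_0 | c158_1_0 | c158_2_0 | c158_3_0 | c158_4_0
                          · first | linarith only [c158_0_0, e2] | (have q0 := c158_0_0; have q1 := e2; clear C; omega)
                          · first | linarith only [c158_1_0, e3] | (have q0 := c158_1_0; have q1 := e3; clear C; omega)
                          · first | linarith only [C.f13_0, c158_2_0, s1] | (have q0 := C.f13_0; have q1 := c158_2_0; have q2 := s1; clear C; omega)
                          · first | linarith only [c150_1_1, c152_4_0, c158_3_0, s2] | (have q0 := c150_1_1; have q1 := c152_4_0; have q2 := c158_3_0; have q3 := s2; clear C; omega)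
                          · first | linarith only [C.f22_6, C.o2, c148_1_1, c154_1_1, c158_4_0, c2_1_1] | (have q0 := C.f22_6; have q1 := C.o2; have q2 := c148_1_1; have q3 := c154_1_1; have q4 := c158_4_0; have q5 := c2_1_1; clear C; omega)
                      · first | linarith only [C.o2, c134_1_1, c151_1_1, c152_5_0] | (have q0 := C.o2; have q1 := c134_1_1; have q2 := c151_1_1; have q3 := c152_5_0; clear C; omega)
                  · first | linarith only [C.f13_4, C.f23_5, c0_0_1, c133_0_1, c150_2_1, c1_0_1] | (have q0 := C.f13_4; have q1 := C.f23_5; have q2 := c0_0_1; have q3 := c133_0_1; have q4 := c150_2_1; have q5 := c1_0_1; clear C; omega)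
                · rcases c0_13_22_33_k3_k_f23_7 C with ⟨c159_0_0, c159_0_1⟩ | ⟨c159_1_0, c159_1_1⟩ | ⟨c159_2_0, c159_2_1⟩
                  · first | linarith only [C.a2, C.f23_5, c149_1_1, c159_0_1, c1_0_1] | (have q0 := C.a2; have q1 := C.f23_5; have q2 := c149_1_1; have q3 := c159_0_1; have q4 := c1_0_1; clear C; omega)
                  · rcases c0_13_22_33_k3_k_f23_10 C with ⟨c160_0_0, c160_0_1⟩ | ⟨c160_1_0, c160_1_1⟩
                    · first | linarith only [C.f23_9, C.o1, c159_1_1, c160_0_1, c2_1_1] | (have q0 := C.f23_9; have q1 := C.o1; have q2 := c159_1_1; have q3 := c160_0_1; have q4 := c2_1_1; clear C; omega)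
                    · rcases c0_13_22_33_k3_k_f33_2 C with ⟨c161_0_0, c161_0_1⟩ | ⟨c161_1_0, c161_1_1⟩
                      · rcases c0_13_22_33_k3_k_p13_33A C with c162_0_0 | c162_1_0 | c162_2_0 | c162_3_0 | c162_4_0 | c162_5_0
                        · first | linarith only [c162_0_0, e0] | (have q0 := c162_0_0; have q1 := e0; clear C; omega)
                        · first | linarith only [c162_1_0, e1] | (have q0 := c162_1_0; have q1 := e1; clear C; omega)
                        · first | linarith only [c162_2_0, e3] | (have q0 := c162_2_0; have q1 := e3; clear C; omega)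
                        · first | linarith only [C.f22_0, c0_0_1, c161_0_1, c162_3_0, s1] | (have q0 := C.f22_0; have q1 := c0_0_1; have q2 := c161_0_1; have q3 := c162_3_0; have q4 := s1; clear C; omega)
                        · first | linarith only [C.f22_4, C.o1, c162_4_0, s2] | (have q0 := C.f22_4; have q1 := C.o1; have q2 := c162_4_0; have q3 := s2; clear C; omega)
                        · rcases c0_13_22_33_k3_k_f33_5 C with ⟨c164_0_0, c164_0_1⟩ | ⟨c164_1_0, c164_1_1⟩
                          · rcases c0_13_22_33_k3_k_f33_8 C with ⟨c165_0_0, c165_0_1⟩ | ⟨c165_1_0, c165_1_1⟩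
                            · first | linarith only [C.a1, C.f13_0, C.f13_3, C.f22_4, C.f23_5, C.f23_8, C.f33_7, C.o1, C.o2, c160_1_1, c161_0_1, c164_0_1, c165_0_1, s2] | (have q0 := C.a1; have q1 := C.f13_0; have q2 := C.f13_3; have q3 := C.f22_4; have q4 := C.f23_5; have q5 := C.f23_8; have q6 := C.f33_7; have q7 := C.o1; have q8 := C.o2; have q9 := c160_1_1; have q10 := c161_0_1; have q11 := c164_0_1; have q12 := c165_0_1; have q13 := s2; clear C; omega)
                            · rcases c0_13_22_33_k3_k_p22_33A C with c166_0_0 | c166_1_0 | c166_2_0 | c166_3_0 | c166_4_0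
                              · first | linarith only [c166_0_0, e2] | (have q0 := c166_0_0; have q1 := e2; clear C; omega)
                              · first | linarith only [c166_1_0, e3] | (have q0 := c166_1_0; have q1 := e3; clear C; omega)
                              · first | linarith only [C.f13_0, c166_2_0, s1] | (have q0 := C.f13_0; have q1 := c166_2_0; have q2 := s1; clear C; omega)
                              · rcases c0_13_22_33_k3_k_p13_23A C with c168_0_0 | c168_1_0 | c168_2_0 | c168_3_0 | c168_4_0 | c168_5_0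
                                · first | linarith only [c168_0_0, e0] | (have q0 := c168_0_0; have q1 := e0; clear C; omega)
                                · first | linarith only [c168_1_0, e1] | (have q0 := c168_1_0; have q1 := e1; clear C; omega)
                                · first | linarith only [C.f13_0, C.f13_3, C.f22_1, c148_1_1, c164_0_1, c166_3_0, c168_2_0, e0, s1, s2] | (have q0 := C.f13_0; have q1 := C.f13_3; have q2 := C.f22_1; have q3 := c148_1_1; have q4 := c164_0_1; have q5 := c166_3_0; have q6 := c168_2_0; have q7 := e0; have q8 := s1; have q9 := s2; clear C; omega)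
                                · first | linarith only [C.f13_0, C.f13_3, C.f22_1, c148_1_1, c149_1_1, c164_0_1, c166_3_0, c168_3_0, s1, s2] | (have q0 := C.f13_0; have q1 := C.f13_3; have q2 := C.f22_1; have q3 := c148_1_1; have q4 := c149_1_1; have q5 := c164_0_1; have q6 := c166_3_0; have q7 := c168_3_0; have q8 := s1; have q9 := s2; clear C; omega)
                                · first | linarith only [c159_1_1, c166_3_0, c168_4_0, s2] | (have q0 := c159_1_1; have q1 := c166_3_0; have q2 := c168_4_0; have q3 := s2; clear C; omega)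
                                · first | linarith only [C.o2, c134_1_1, c160_1_1, c168_5_0] | (have q0 := C.o2; have q1 := c134_1_1; have q2 := c160_1_1; have q3 := c168_5_0; clear C; omega)
                              · first | linarith only [c162_5_0, c165_1_1, c166_4_0, s3] | (have q0 := c162_5_0; have q1 := c165_1_1; have q2 := c166_4_0; have q3 := s3; clear C; omega)
                          · rcases c0_13_22_33_k3_k_f33_8 C with ⟨c169_0_0, c169_0_1⟩ | ⟨c169_1_0, c169_1_1⟩
                            · first | linarith only [C.f13_4, C.f23_5, C.f23_8, C.f33_7, c0_0_1, c133_0_1, c160_1_1, c164_1_1, c169_0_1, c1_0_1] | (have q0 := C.f13_4; have q1 := C.f23_5; have q2 := C.f23_8; have q3 := C.f33_7; have q4 := c0_0_1; have q5 := c133_0_1; have q6 := c160_1_1; have q7 := c164_1_1; have q8 := c169_0_1; have q9 := c1_0_1; clear C; omega)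
                            · rcases c0_13_22_33_k3_k_p22_33A C with c170_0_0 | c170_1_0 | c170_2_0 | c170_3_0 | c170_4_0
                              · first | linarith only [c170_0_0, e2] | (have q0 := c170_0_0; have q1 := e2; clear C; omega)
                              · first | linarith only [c170_1_0, e3] | (have q0 := c170_1_0; have q1 := e3; clear C; omega)
                              · first | linarith only [C.f13_0, c170_2_0, s1] | (have q0 := C.f13_0; have q1 := c170_2_0; have q2 := s1; clear C; omega)
                              · rcases c0_13_22_33_k3_k_p13_22B C with c171_0_0 | c171_1_0 | c171_2_0 | c171_3_0 | c171_4_0 | c171_5_0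
                                · first | linarith only [c171_0_0, e0] | (have q0 := c171_0_0; have q1 := e0; clear C; omega)
                                · first | linarith only [c171_1_0, e1] | (have q0 := c171_1_0; have q1 := e1; clear C; omega)
                                · first | linarith only [c171_2_0, e2] | (have q0 := c171_2_0; have q1 := e2; clear C; omega)
                                · first | linarith only [C.o0, c0_0_1, c135_1_1, c171_3_0, c2_1_0] | (have q0 := C.o0; have q1 := c0_0_1; have q2 := c135_1_1; have q3 := c171_3_0; have q4 := c2_1_0; clear C; omega)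
                                · first | linarith only [C.o1, c148_1_1, c170_3_0, c171_4_0, s2] | (have q0 := C.o1; have q1 := c148_1_1; have q2 := c170_3_0; have q3 := c171_4_0; have q4 := s2; clear C; omega)
                                · rcases c0_13_22_33_k3_k_p13_23A C with c172_0_0 | c172_1_0 | c172_2_0 | c172_3_0 | c172_4_0 | c172_5_0
                                  · first | linarith only [c172_0_0, e0] | (have q0 := c172_0_0; have q1 := e0; clear C; omega)
                                  · first | linarith only [c172_1_0, e1] | (have q0 := c172_1_0; have q1 := e1; clear C; omega)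
                                  · first | linarith only [c148_1_1, c164_1_1, c170_3_0, c172_2_0, e2, e3] | (have q0 := c148_1_1; have q1 := c164_1_1; have q2 := c170_3_0; have q3 := c172_2_0; have q4 := e2; have q5 := e3; clear C; omega)
                                  · rcases c0_13_22_33_k3_k_tpmz C with c174_0_0 | c174_1_0 | c174_2_0 | c174_3_0 | c174_4_0 | c174_5_0
                                    · first | linarith only [c174_0_0, e0] | (have q0 := c174_0_0; have q1 := e0; clear C; omega)
                                    · first | linarith only [C.f13_0, C.f13_3, c170_3_0, c174_1_0, s2] | (have q0 := C.f13_0; have q1 := C.f13_3; have q2 := c170_3_0; have q3 := c174_1_0; have q4 := s2; clear C; omega)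
                                    · first | linarith only [C.f22_1, C.f33_1, C.o1, c0_0_1, c149_1_1, c172_3_0, c174_2_0, s1] | (have q0 := C.f22_1; have q1 := C.f33_1; have q2 := C.o1; have q3 := c0_0_1; have q4 := c149_1_1; have q5 := c172_3_0; have q6 := c174_2_0; have q7 := s1; clear C; omega)
                                    · first | linarith only [C.a1, C.o0, c174_3_0] | (have q0 := C.a1; have q1 := C.o0; have q2 := c174_3_0; clear C; omega)
                                    · rcases c0_13_22_33_k3_k_p11_23B C with c175_0_0 | c175_1_0 | c175_2_0 | c175_3_0 | c175_4_0 | c175_5_0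
                                      · rcases c0_13_22_33_k3_k_tzpm C with c183_0_0 | c183_1_0 | c183_2_0 | c183_3_0 | ⟨c183_4_0, c183_4_1⟩
                                        · first | linarith only [C.f13_0, C.f22_1, C.f33_1, c148_1_1, c164_1_1, c170_3_0, c183_0_0, s1] | (have q0 := C.f13_0; have q1 := C.f22_1; have q2 := C.f33_1; have q3 := c148_1_1; have q4 := c164_1_1; have q5 := c170_3_0; have q6 := c183_0_0; have q7 := s1; clear C; omega)
                                        · first | linarith only [C.f13_0, C.f22_1, C.f22_4, C.f22_6, C.f33_1, c162_5_0, c164_1_1, c170_3_0, c174_4_0, c175_0_0, c183_1_0, e0, s1, s3] | (have q0 := C.f13_0; have q1 := C.f22_1; have q2 := C.f22_4; have q3 := C.f22_6; have q4 := C.f33_1; have q5 := c162_5_0; have q6 := c164_1_1; have q7 := c170_3_0; have q8 := c174_4_0; have q9 := c175_0_0; have q10 := c183_1_0; have q11 := e0; have q12 := s1; have q13 := s3; clear C; omega)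
                                        · first | linarith only [C.f13_0, C.f13_3, C.f22_1, C.f33_1, c148_1_1, c164_1_1, c170_3_0, c174_4_0, c183_2_0, s1, s2] | (have q0 := C.f13_0; have q1 := C.f13_3; have q2 := C.f22_1; have q3 := C.f33_1; have q4 := c148_1_1; have q5 := c164_1_1; have q6 := c170_3_0; have q7 := c174_4_0; have q8 := c183_2_0; have q9 := s1; have q10 := s2; clear C; omega)
                                        · first | linarith only [C.f13_0, C.f22_1, C.f33_1, C.o2, c174_4_0, c175_0_0, c183_3_0, e0, s1] | (have q0 := C.f13_0; have q1 := C.f22_1; have q2 := C.f33_1; have q3 := C.o2; have q4 := c174_4_0; have q5 := c175_0_0; have q6 := c183_3_0; have q7 := e0; have q8 := s1; clear C; omega)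
                                        · rcases c0_13_22_33_k3_k_F2 hF2 with c185_0_0 | c185_1_0 | c185_2_0 | c185_3_0 | c185_4_0 | c185_5_0 | c185_6_0 | c185_7_0 | c185_8_0 | c185_9_0 | c185_10_0 | c185_11_0 | c185_12_0 | c185_13_0 | c185_14_0
                                          · first | linarith only [c185_0_0, e0] | (have q0 := c185_0_0; have q1 := e0; clear C; omega)
                                          · first | linarith only [C.f13_0, C.f22_1, C.f33_0, c174_4_0, c175_0_0, c185_1_0, s1] | (have q0 := C.f13_0; have q1 := C.f22_1; have q2 := C.f33_0; have q3 := c174_4_0; have q4 := c175_0_0; have q5 := c185_1_0; have q6 := s1; clear C; omega)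
                                          · first | linarith only [C.f13_0, C.f13_3, C.f22_1, C.f33_1, c148_1_1, c164_1_1, c170_3_0, c185_2_0, s1, s2] | (have q0 := C.f13_0; have q1 := C.f13_3; have q2 := C.f22_1; have q3 := C.f33_1; have q4 := c148_1_1; have q5 := c164_1_1; have q6 := c170_3_0; have q7 := c185_2_0; have q8 := s1; have q9 := s2; clear C; omega)
                                          · first | linarith only [C.b0, C.f22_6, c0_0_1, c134_1_1, c148_1_1, c149_1_1, c164_1_1, c170_3_0, c171_5_0, c172_3_0, c183_4_1, c185_3_0, c2_1_0] | (have q0 := C.b0; have q1 := C.f22_6; have q2 := c0_0_1; have q3 := c134_1_1; have q4 := c148_1_1; have q5 := c149_1_1; have q6 := c164_1_1; have q7 := c170_3_0; have q8 := c171_5_0; have q9 := c172_3_0; have q10 := c183_4_1; have q11 := c185_3_0; have q12 := c2_1_0; clear C; omega)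
                                          · first | linarith only [C.f13_0, C.f13_7, C.f22_1, C.f22_4, C.f22_6, C.f33_1, C.f33_7, c174_4_0, c175_0_0, c183_4_1, c185_4_0, s1, s3] | (have q0 := C.f13_0; have q1 := C.f13_7; have q2 := C.f22_1; have q3 := C.f22_4; have q4 := C.f22_6; have q5 := C.f33_1; have q6 := C.f33_7; have q7 := c174_4_0; have q8 := c175_0_0; have q9 := c183_4_1; have q10 := c185_4_0; have q11 := s1; have q12 := s3; clear C; omega)
                                          · first | linarith only [c0_0_1, c149_1_1, c172_3_0, c185_5_0] | (have q0 := c0_0_1; have q1 := c149_1_1; have q2 := c172_3_0; have q3 := c185_5_0; clear C; omega)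
                                          · first | linarith only [C.f13_0, C.f22_1, C.f33_1, c148_1_1, c164_1_1, c170_3_0, c185_6_0, s1] | (have q0 := C.f13_0; have q1 := C.f22_1; have q2 := C.f33_1; have q3 := c148_1_1; have q4 := c164_1_1; have q5 := c170_3_0; have q6 := c185_6_0; have q7 := s1; clear C; omega)
                                          · first | linarith only [C.b0, c0_0_1, c148_1_1, c149_1_1, c164_1_1, c170_3_0, c172_3_0, c185_7_0, c2_1_0] | (have q0 := C.b0; have q1 := c0_0_1; have q2 := c148_1_1; have q3 := c149_1_1; have q4 := c164_1_1; have q5 := c170_3_0; have q6 := c172_3_0; have q7 := c185_7_0; have q8 := c2_1_0; clear C; omega)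
                                          · first | linarith only [C.f22_1, C.f33_1, c149_1_1, c172_3_0, c174_4_0, c175_0_0, c185_8_0, s1] | (have q0 := C.f22_1; have q1 := C.f33_1; have q2 := c149_1_1; have q3 := c172_3_0; have q4 := c174_4_0; have q5 := c175_0_0; have q6 := c185_8_0; have q7 := s1; clear C; omega)
                                          · first | linarith only [c175_0_0, c185_9_0] | (have q0 := c175_0_0; have q1 := c185_9_0; clear C; omega)
                                          · first | linarith only [C.b0, c185_10_0] | (have q0 := C.b0; have q1 := c185_10_0; clear C; omega)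
                                          · first | linarith only [c174_4_0, c185_11_0] | (have q0 := c174_4_0; have q1 := c185_11_0; clear C; omega)
                                          · first | linarith only [c185_12_0, c2_1_0] | (have q0 := c185_12_0; have q1 := c2_1_0; clear C; omega)
                                          · first | linarith only [C.b0, c0_0_1, c148_1_1, c149_1_1, c164_1_1, c170_3_0, c172_3_0, c183_4_1, c185_13_0, c2_1_0] | (have q0 := C.b0; have q1 := c0_0_1; have q2 := c148_1_1; have q3 := c149_1_1; have q4 := c164_1_1; have q5 := c170_3_0; have q6 := c172_3_0; have q7 := c183_4_1; have q8 := c185_13_0; have q9 := c2_1_0; clear C; omega)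
                                          · first | linarith only [C.f13_0, C.f22_1, C.f33_1, C.o2, c174_4_0, c175_0_0, c185_14_0, s1] | (have q0 := C.f13_0; have q1 := C.f22_1; have q2 := C.f33_1; have q3 := C.o2; have q4 := c174_4_0; have q5 := c175_0_0; have q6 := c185_14_0; have q7 := s1; clear C; omega)
                                      · first | linarith only [C.f13_0, C.f22_1, C.f33_1, c148_1_1, c164_1_1, c170_3_0, c175_1_0, e0, s1] | (have q0 := C.f13_0; have q1 := C.f22_1; have q2 := C.f33_1; have q3 := c148_1_1; have q4 := c164_1_1; have q5 := c170_3_0; have q6 := c175_1_0; have q7 := e0; have q8 := s1; clear C; omega)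
                                      · first | linarith only [c175_2_0, e1] | (have q0 := c175_2_0; have q1 := e1; clear C; omega)
                                      · first | linarith only [C.f11_0, C.f13_0, C.f22_1, C.f33_1, C.o0, c148_1_1, c149_1_1, c164_1_1, c170_3_0, c175_3_0, s1] | (have q0 := C.f11_0; have q1 := C.f13_0; have q2 := C.f22_1; have q3 := C.f33_1; have q4 := C.o0; have q5 := c148_1_1; have q6 := c149_1_1; have q7 := c164_1_1; have q8 := c170_3_0; have q9 := c175_3_0; have q10 := s1; clear C; omega)
                                      · first | linarith only [C.f11_0, C.f11_1, C.f13_0, C.f13_3, C.f22_1, C.f33_1, C.o0, c148_1_1, c159_1_1, c164_1_1, c170_3_0, c174_4_0, c175_4_0, s1, s2] | (have q0 := C.f11_0; have q1 := C.f11_1; have q2 := C.f13_0; have q3 := C.f13_3; have q4 := C.f22_1; have q5 := C.f33_1; have q6 := C.o0; have q7 := c148_1_1; have q8 := c159_1_1; have q9 := c164_1_1; have q10 := c170_3_0; have q11 := c174_4_0; have q12 := c175_4_0; have q13 := s1; have q14 := s2; clear C; omega)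
                                      · first | linarith only [C.f11_0, C.f11_1, C.f11_2, C.f13_0, C.f13_3, C.f22_1, C.f22_4, C.f22_6, C.f33_1, c134_1_1, c160_1_1, c162_5_0, c164_1_1, c169_1_1, c170_3_0, c174_4_0, c175_5_0, s1, s2, s3] | (have q0 := C.f11_0; have q1 := C.f11_1; have q2 := C.f11_2; have q3 := C.f13_0; have q4 := C.f13_3; have q5 := C.f22_1; have q6 := C.f22_4; have q7 := C.f22_6; have q8 := C.f33_1; have q9 := c134_1_1; have q10 := c160_1_1; have q11 := c162_5_0; have q12 := c164_1_1; have q13 := c169_1_1; have q14 := c170_3_0; have q15 := c174_4_0; have q16 := c175_5_0; have q17 := s1; have q18 := s2; have q19 := s3; clear C; omega)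
                                    · first | linarith only [c174_5_0, c2_1_1] | (have q0 := c174_5_0; have q1 := c2_1_1; clear C; omega)
                                  · first | linarith only [c159_1_1, c170_3_0, c172_4_0, s2] | (have q0 := c159_1_1; have q1 := c170_3_0; have q2 := c172_4_0; have q3 := s2; clear C; omega)
                                  · first | linarith only [C.o2, c134_1_1, c160_1_1, c172_5_0] | (have q0 := C.o2; have q1 := c134_1_1; have q2 := c160_1_1; have q3 := c172_5_0; clear C; omega)
                              · first | linarith only [c162_5_0, c169_1_1, c170_4_0, s3] | (have q0 := c162_5_0; have q1 := c169_1_1; have q2 := c170_4_0; have q3 := s3; clear C; omega)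
                      · rcases c0_13_22_33_k3_k_f33_5 C with ⟨c186_0_0, c186_0_1⟩ | ⟨c186_1_0, c186_1_1⟩
                        · first | linarith only [C.a2, C.f33_4, c161_1_1, c186_0_1, c1_0_1] | (have q0 := C.a2; have q1 := C.f33_4; have q2 := c161_1_1; have q3 := c186_0_1; have q4 := c1_0_1; clear C; omega)
                        · rcases c0_13_22_33_k3_k_f33_8 C with ⟨c187_0_0, c187_0_1⟩ | ⟨c187_1_0, c187_1_1⟩
                          · first | linarith only [C.f13_4, C.f13_7, C.f22_4, C.f22_6, C.f23_5, C.f23_8, C.f33_7, C.o1, c160_1_1, c186_1_1, c187_0_1, s2, s3] | (have q0 := C.f13_4; have q1 := C.f13_7; have q2 := C.f22_4; have q3 := C.f22_6; have q4 := C.f23_5; have q5 := C.f23_8; have q6 := C.f33_7; have q7 := C.o1; have q8 := c160_1_1; have q9 := c186_1_1; have q10 := c187_0_1; have q11 := s2; have q12 := s3; clear C; omega)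
                          · rcases c0_13_22_33_k3_k_p22_33A C with c190_0_0 | c190_1_0 | c190_2_0 | c190_3_0 | c190_4_0
                            · first | linarith only [c190_0_0, e2] | (have q0 := c190_0_0; have q1 := e2; clear C; omega)
                            · first | linarith only [c190_1_0, e3] | (have q0 := c190_1_0; have q1 := e3; clear C; omega)
                            · first | linarith only [C.f13_0, c190_2_0, s1] | (have q0 := C.f13_0; have q1 := c190_2_0; have q2 := s1; clear C; omega)
                            · rcases c0_13_22_33_k3_k_p13_23A C with c192_0_0 | c192_1_0 | c192_2_0 | c192_3_0 | c192_4_0 | c192_5_0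
                              · first | linarith only [c192_0_0, e0] | (have q0 := c192_0_0; have q1 := e0; clear C; omega)
                              · first | linarith only [c192_1_0, e1] | (have q0 := c192_1_0; have q1 := e1; clear C; omega)
                              · first | linarith only [C.f13_0, C.f22_1, C.f33_1, c148_1_1, c186_1_1, c190_3_0, c192_2_0, e0, s1] | (have q0 := C.f13_0; have q1 := C.f22_1; have q2 := C.f33_1; have q3 := c148_1_1; have q4 := c186_1_1; have q5 := c190_3_0; have q6 := c192_2_0; have q7 := e0; have q8 := s1; clear C; omega)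
                              · rcases c0_13_22_33_k3_k_tpmz C with c194_0_0 | c194_1_0 | c194_2_0 | c194_3_0 | c194_4_0 | c194_5_0
                                · first | linarith only [c194_0_0, e0] | (have q0 := c194_0_0; have q1 := e0; clear C; omega)
                                · first | linarith only [C.f13_0, C.f13_3, c190_3_0, c194_1_0, s2] | (have q0 := C.f13_0; have q1 := C.f13_3; have q2 := c190_3_0; have q3 := c194_1_0; have q4 := s2; clear C; omega)
                                · first | linarith only [C.f22_1, C.f33_1, C.o1, c0_0_1, c149_1_1, c192_3_0, c194_2_0, s1] | (have q0 := C.f22_1; have q1 := C.f33_1; have q2 := C.o1; have q3 := c0_0_1; have q4 := c149_1_1; have q5 := c192_3_0; have q6 := c194_2_0; have q7 := s1; clear C; omega)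
                                · first | linarith only [C.a4, C.f13_0, C.f22_1, C.f33_0, C.o0, C.o1, c161_1_1, c194_3_0, s1] | (have q0 := C.a4; have q1 := C.f13_0; have q2 := C.f22_1; have q3 := C.f33_0; have q4 := C.o0; have q5 := C.o1; have q6 := c161_1_1; have q7 := c194_3_0; have q8 := s1; clear C; omega)
                                · rcases c0_13_22_33_k3_k_p11_23B C with c195_0_0 | c195_1_0 | c195_2_0 | c195_3_0 | c195_4_0 | c195_5_0
                                  · rcases c0_13_22_33_k3_k_tzmp C with c202_0_0 | c202_1_0 | c202_2_0 | c202_3_0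
                                    · first | linarith only [c1_0_1, c202_0_0] | (have q0 := c1_0_1; have q1 := c202_0_0; clear C; omega)
                                    · first | linarith only [C.f22_1, C.f33_1, c149_1_1, c192_3_0, c194_4_0, c195_0_0, c202_1_0, e0, s1] | (have q0 := C.f22_1; have q1 := C.f33_1; have q2 := c149_1_1; have q3 := c192_3_0; have q4 := c194_4_0; have q5 := c195_0_0; have q6 := c202_1_0; have q7 := e0; have q8 := s1; clear C; omega)
                                    · first | linarith only [c202_2_0, c2_1_0] | (have q0 := c202_2_0; have q1 := c2_1_0; clear C; omega)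
                                    · rcases c0_13_22_33_k3_k_tzpm C with c203_0_0 | c203_1_0 | c203_2_0 | c203_3_0 | ⟨c203_4_0, c203_4_1⟩
                                      · first | linarith only [C.f13_0, C.f22_1, C.f33_1, c148_1_1, c186_1_1, c190_3_0, c203_0_0, s1] | (have q0 := C.f13_0; have q1 := C.f22_1; have q2 := C.f33_1; have q3 := c148_1_1; have q4 := c186_1_1; have q5 := c190_3_0; have q6 := c203_0_0; have q7 := s1; clear C; omega)
                                      · first | linarith only [C.f13_0, C.f22_1, C.f33_1, C.o2, c148_1_1, c186_1_1, c190_3_0, c194_4_0, c195_0_0, c203_1_0, c2_1_1, e0, s1] | (have q0 := C.f13_0; have q1 := C.f22_1; have q2 := C.f33_1; have q3 := C.o2; have q4 := c148_1_1; have q5 := c186_1_1; have q6 := c190_3_0; have q7 := c194_4_0; have q8 := c195_0_0; have q9 := c203_1_0; have q10 := c2_1_1; have q11 := e0; have q12 := s1; clear C; omega)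
                                      · first | linarith only [C.f13_0, C.f13_3, C.f22_1, C.f33_1, c148_1_1, c186_1_1, c190_3_0, c194_4_0, c203_2_0, s1, s2] | (have q0 := C.f13_0; have q1 := C.f13_3; have q2 := C.f22_1; have q3 := C.f33_1; have q4 := c148_1_1; have q5 := c186_1_1; have q6 := c190_3_0; have q7 := c194_4_0; have q8 := c203_2_0; have q9 := s1; have q10 := s2; clear C; omega)
                                      · first | linarith only [C.f13_0, C.f22_1, C.f33_1, C.o2, c194_4_0, c195_0_0, c203_3_0, e0, s1] | (have q0 := C.f13_0; have q1 := C.f22_1; have q2 := C.f33_1; have q3 := C.o2; have q4 := c194_4_0; have q5 := c195_0_0; have q6 := c203_3_0; have q7 := e0; have q8 := s1; clear C; omega)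
                                      · rcases c0_13_22_33_k3_k_F2 hF2 with c205_0_0 | c205_1_0 | c205_2_0 | c205_3_0 | c205_4_0 | c205_5_0 | c205_6_0 | c205_7_0 | c205_8_0 | c205_9_0 | c205_10_0 | c205_11_0 | c205_12_0 | c205_13_0 | c205_14_0
                                        · first | linarith only [c205_0_0, e0] | (have q0 := c205_0_0; have q1 := e0; clear C; omega)
                                        · first | linarith only [C.f13_0, C.f22_1, C.f33_0, c194_4_0, c195_0_0, c205_1_0, s1] | (have q0 := C.f13_0; have q1 := C.f22_1; have q2 := C.f33_0; have q3 := c194_4_0; have q4 := c195_0_0; have q5 := c205_1_0; have q6 := s1; clear C; omega)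
                                        · first | linarith only [C.f13_0, C.f13_3, C.f22_1, C.f33_1, c148_1_1, c186_1_1, c190_3_0, c205_2_0, s1, s2] | (have q0 := C.f13_0; have q1 := C.f13_3; have q2 := C.f22_1; have q3 := C.f33_1; have q4 := c148_1_1; have q5 := c186_1_1; have q6 := c190_3_0; have q7 := c205_2_0; have q8 := s1; have q9 := s2; clear C; omega)
                                        · first | linarith only [C.b0, c0_0_1, c148_1_1, c149_1_1, c186_1_1, c190_3_0, c192_3_0, c202_3_0, c203_4_1, c205_3_0, c2_1_0] | (have q0 := C.b0; have q1 := c0_0_1; have q2 := c148_1_1; have q3 := c149_1_1; have q4 := c186_1_1; have q5 := c190_3_0; have q6 := c192_3_0; have q7 := c202_3_0; have q8 := c203_4_1; have q9 := c205_3_0; have q10 := c2_1_0; clear C; omega)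
                                        · first | linarith only [C.f13_0, C.f22_1, C.f33_1, C.o2, c194_4_0, c195_0_0, c205_4_0, c2_1_1, s1] | (have q0 := C.f13_0; have q1 := C.f22_1; have q2 := C.f33_1; have q3 := C.o2; have q4 := c194_4_0; have q5 := c195_0_0; have q6 := c205_4_0; have q7 := c2_1_1; have q8 := s1; clear C; omega)
                                        · first | linarith only [c0_0_1, c149_1_1, c192_3_0, c205_5_0] | (have q0 := c0_0_1; have q1 := c149_1_1; have q2 := c192_3_0; have q3 := c205_5_0; clear C; omega)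
                                        · first | linarith only [C.f13_0, C.f22_1, C.f33_1, c148_1_1, c186_1_1, c190_3_0, c205_6_0, s1] | (have q0 := C.f13_0; have q1 := C.f22_1; have q2 := C.f33_1; have q3 := c148_1_1; have q4 := c186_1_1; have q5 := c190_3_0; have q6 := c205_6_0; have q7 := s1; clear C; omega)
                                        · first | linarith only [C.b0, c0_0_1, c148_1_1, c149_1_1, c186_1_1, c190_3_0, c192_3_0, c205_7_0, c2_1_0] | (have q0 := C.b0; have q1 := c0_0_1; have q2 := c148_1_1; have q3 := c149_1_1; have q4 := c186_1_1; have q5 := c190_3_0; have q6 := c192_3_0; have q7 := c205_7_0; have q8 := c2_1_0; clear C; omega)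
                                        · first | linarith only [C.f22_1, C.f33_1, c149_1_1, c192_3_0, c194_4_0, c195_0_0, c205_8_0, s1] | (have q0 := C.f22_1; have q1 := C.f33_1; have q2 := c149_1_1; have q3 := c192_3_0; have q4 := c194_4_0; have q5 := c195_0_0; have q6 := c205_8_0; have q7 := s1; clear C; omega)
                                        · first | linarith only [c195_0_0, c205_9_0] | (have q0 := c195_0_0; have q1 := c205_9_0; clear C; omega)
                                        · first | linarith only [C.b0, c205_10_0] | (have q0 := C.b0; have q1 := c205_10_0; clear C; omega)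
                                        · first | linarith only [c194_4_0, c205_11_0] | (have q0 := c194_4_0; have q1 := c205_11_0; clear C; omega)
                                        · first | linarith only [c205_12_0, c2_1_0] | (have q0 := c205_12_0; have q1 := c2_1_0; clear C; omega)
                                        · first | linarith only [C.b0, c0_0_1, c148_1_1, c149_1_1, c186_1_1, c190_3_0, c192_3_0, c203_4_1, c205_13_0, c2_1_0] | (have q0 := C.b0; have q1 := c0_0_1; have q2 := c148_1_1; have q3 := c149_1_1; have q4 := c186_1_1; have q5 := c190_3_0; have q6 := c192_3_0; have q7 := c203_4_1; have q8 := c205_13_0; have q9 := c2_1_0; clear C; omega)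
                                        · first | linarith only [C.f13_0, C.f22_1, C.f33_1, C.o2, c194_4_0, c195_0_0, c205_14_0, s1] | (have q0 := C.f13_0; have q1 := C.f22_1; have q2 := C.f33_1; have q3 := C.o2; have q4 := c194_4_0; have q5 := c195_0_0; have q6 := c205_14_0; have q7 := s1; clear C; omega)
                                  · first | linarith only [C.f13_0, C.f22_1, C.f33_1, c148_1_1, c186_1_1, c190_3_0, c195_1_0, e0, s1] | (have q0 := C.f13_0; have q1 := C.f22_1; have q2 := C.f33_1; have q3 := c148_1_1; have q4 := c186_1_1; have q5 := c190_3_0; have q6 := c195_1_0; have q7 := e0; have q8 := s1; clear C; omega)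
                                  · first | linarith only [c195_2_0, e1] | (have q0 := c195_2_0; have q1 := e1; clear C; omega)
                                  · first | linarith only [C.f11_0, C.f13_0, C.f22_1, C.f33_1, C.o0, c148_1_1, c149_1_1, c186_1_1, c190_3_0, c195_3_0, s1] | (have q0 := C.f11_0; have q1 := C.f13_0; have q2 := C.f22_1; have q3 := C.f33_1; have q4 := C.o0; have q5 := c148_1_1; have q6 := c149_1_1; have q7 := c186_1_1; have q8 := c190_3_0; have q9 := c195_3_0; have q10 := s1; clear C; omega)
                                  · first | linarith only [C.f11_0, C.f11_1, C.f13_0, C.f13_3, C.f22_1, C.f33_1, C.o0, c148_1_1, c159_1_1, c186_1_1, c190_3_0, c194_4_0, c195_4_0, s1, s2] | (have q0 := C.f11_0; have q1 := C.f11_1; have q2 := C.f13_0; have q3 := C.f13_3; have q4 := C.f22_1; have q5 := C.f33_1; have q6 := C.o0; have q7 := c148_1_1; have q8 := c159_1_1; have q9 := c186_1_1; have q10 := c190_3_0; have q11 := c194_4_0; have q12 := c195_4_0; have q13 := s1; have q14 := s2; clear C; omega)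
                                  · first | linarith only [C.f11_0, C.f11_1, C.f11_2, C.f13_0, C.f13_3, C.f22_1, C.f33_1, c148_1_1, c160_1_1, c186_1_1, c190_3_0, c194_4_0, c195_5_0, c2_1_1, s1, s2] | (have q0 := C.f11_0; have q1 := C.f11_1; have q2 := C.f11_2; have q3 := C.f13_0; have q4 := C.f13_3; have q5 := C.f22_1; have q6 := C.f33_1; have q7 := c148_1_1; have q8 := c160_1_1; have q9 := c186_1_1; have q10 := c190_3_0; have q11 := c194_4_0; have q12 := c195_5_0; have q13 := c2_1_1; have q14 := s1; have q15 := s2; clear C; omega)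
                                · first | linarith only [c194_5_0, c2_1_1] | (have q0 := c194_5_0; have q1 := c2_1_1; clear C; omega)
                              · first | linarith only [c159_1_1, c190_3_0, c192_4_0, s2] | (have q0 := c159_1_1; have q1 := c190_3_0; have q2 := c192_4_0; have q3 := s2; clear C; omega)
                              · first | linarith only [C.o2, c134_1_1, c160_1_1, c192_5_0] | (have q0 := C.o2; have q1 := c134_1_1; have q2 := c160_1_1; have q3 := c192_5_0; clear C; omega)
                            · first | linarith only [C.f22_6, C.o2, c148_1_1, c187_1_1, c190_4_0, c2_1_1] | (have q0 := C.f22_6; have q1 := C.o2; have q2 := c148_1_1; have q3 := c187_1_1; have q4 := c190_4_0; have q5 := c2_1_1; clear C; omega)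
                  · first | linarith only [C.f13_4, C.f23_5, c0_0_1, c133_0_1, c159_2_1, c1_0_1] | (have q0 := C.f13_4; have q1 := C.f23_5; have q2 := c0_0_1; have q3 := c133_0_1; have q4 := c159_2_1; have q5 := c1_0_1; clear C; omega)
                · first | linarith only [C.f13_4, C.f23_1, c0_0_1, c133_0_1, c149_2_1, c1_0_1] | (have q0 := C.f13_4; have q1 := C.f23_1; have q2 := c0_0_1; have q3 := c133_0_1; have q4 := c149_2_1; have q5 := c1_0_1; clear C; omega)
        · rcases c0_13_22_33_k3_k_f13_8 C with ⟨c206_0_0, c206_0_1⟩ | ⟨c206_1_0, c206_1_1⟩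
          · first | linarith only [C.f13_7, C.f22_4, C.f33_4, C.o1, C.o2, c133_1_1, c206_0_1, c2_1_1, s2] | (have q0 := C.f13_7; have q1 := C.f22_4; have q2 := C.f33_4; have q3 := C.o1; have q4 := C.o2; have q5 := c133_1_1; have q6 := c206_0_1; have q7 := c2_1_1; have q8 := s2; clear C; omega)
          · rcases c0_13_22_33_k3_k_f22_2 C with ⟨c207_0_0, c207_0_1⟩ | ⟨c207_1_0, c207_1_1⟩
            · rcases c0_13_22_33_k3_k_f22_5 C with ⟨c208_0_0, c208_0_1⟩ | ⟨c208_1_0, c208_1_1⟩
              · first | linarith only [C.a1, C.f13_0, C.f13_3, C.f22_4, C.f33_4, C.o1, C.o2, c133_1_1, c207_0_1, c208_0_1, s2] | (have q0 := C.a1; have q1 := C.f13_0; have q2 := C.f13_3; have q3 := C.f22_4; have q4 := C.f33_4; have q5 := C.o1; have q6 := C.o2; have q7 := c133_1_1; have q8 := c207_0_1; have q9 := c208_0_1; have q10 := s2; clear C; omega)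
              · rcases c0_13_22_33_k3_k_p13_22A C with c209_0_0 | c209_1_0 | c209_2_0 | c209_3_0 | c209_4_0 | c209_5_0
                · first | linarith only [c209_0_0, e0] | (have q0 := c209_0_0; have q1 := e0; clear C; omega)
                · first | linarith only [c209_1_0, e1] | (have q0 := c209_1_0; have q1 := e1; clear C; omega)
                · first | linarith only [c209_2_0, e2] | (have q0 := c209_2_0; have q1 := e2; clear C; omega)
                · first | linarith only [C.f33_0, c0_0_1, c207_0_1, c209_3_0, s1] | (have q0 := C.f33_0; have q1 := c0_0_1; have q2 := c207_0_1; have q3 := c209_3_0; have q4 := s1; clear C; omega)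
                · rcases c0_13_22_33_k3_k_f23_3 C with ⟨c210_0_0, c210_0_1⟩ | ⟨c210_1_0, c210_1_1⟩ | ⟨c210_2_0, c210_2_1⟩
                  · rcases c0_13_22_33_k3_k_f23_7 C with ⟨c211_0_0, c211_0_1⟩ | ⟨c211_1_0, c211_1_1⟩ | ⟨c211_2_0, c211_2_1⟩
                    · first | linarith only [C.f13_0, C.f13_3, C.f22_0, C.f23_5, C.f33_0, C.f33_4, C.o2, c133_1_1, c209_4_0, c210_0_1, c211_0_1, s1, s2] | (have q0 := C.f13_0; have q1 := C.f13_3; have q2 := C.f22_0; have q3 := C.f23_5; have q4 := C.f33_0; have q5 := C.f33_4; have q6 := C.o2; have q7 := c133_1_1; have q8 := c209_4_0; have q9 := c210_0_1; have q10 := c211_0_1; have q11 := s1; have q12 := s2; clear C; omega)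
                    · rcases c0_13_22_33_k3_k_f23_10 C with ⟨c212_0_0, c212_0_1⟩ | ⟨c212_1_0, c212_1_1⟩
                      · first | linarith only [C.f13_7, C.f22_6, C.f23_9, C.f33_4, C.f33_7, c133_1_1, c208_1_1, c209_4_0, c211_1_1, c212_0_1, c2_1_1, s2, s3] | (have q0 := C.f13_7; have q1 := C.f22_6; have q2 := C.f23_9; have q3 := C.f33_4; have q4 := C.f33_7; have q5 := c133_1_1; have q6 := c208_1_1; have q7 := c209_4_0; have q8 := c211_1_1; have q9 := c212_0_1; have q10 := c2_1_1; have q11 := s2; have q12 := s3; clear C; omega)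
                      · rcases c0_13_22_33_k3_k_p13_23A C with c217_0_0 | c217_1_0 | c217_2_0 | c217_3_0 | c217_4_0 | c217_5_0
                        · first | linarith only [c217_0_0, e0] | (have q0 := c217_0_0; have q1 := e0; clear C; omega)
                        · first | linarith only [c217_1_0, e1] | (have q0 := c217_1_0; have q1 := e1; clear C; omega)
                        · first | linarith only [C.f13_0, C.f22_1, C.f33_0, C.f33_4, C.o2, c133_1_1, c207_0_1, c208_1_1, c209_4_0, c217_2_0, e0, s1, s2] | (have q0 := C.f13_0; have q1 := C.f22_1; have q2 := C.f33_0; have q3 := C.f33_4; have q4 := C.o2; have q5 := c133_1_1; have q6 := c207_0_1; have q7 := c208_1_1; have q8 := c209_4_0; have q9 := c217_2_0; have q10 := e0; have q11 := s1; have q12 := s2; clear C; omega)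
                        · first | linarith only [C.f22_0, C.f33_0, c0_0_1, c210_0_1, c217_3_0, s1] | (have q0 := C.f22_0; have q1 := C.f33_0; have q2 := c0_0_1; have q3 := c210_0_1; have q4 := c217_3_0; have q5 := s1; clear C; omega)
                        · first | linarith only [C.f33_4, C.o2, c133_1_1, c209_4_0, c211_1_1, c217_4_0, s2] | (have q0 := C.f33_4; have q1 := C.o2; have q2 := c133_1_1; have q3 := c209_4_0; have q4 := c211_1_1; have q5 := c217_4_0; have q6 := s2; clear C; omega)
                        · first | linarith only [C.o2, c206_1_1, c212_1_1, c217_5_0] | (have q0 := C.o2; have q1 := c206_1_1; have q2 := c212_1_1; have q3 := c217_5_0; clear C; omega)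
                    · first | linarith only [C.f23_5, C.f33_4, C.o2, c209_4_0, c211_2_1, s2] | (have q0 := C.f23_5; have q1 := C.f33_4; have q2 := C.o2; have q3 := c209_4_0; have q4 := c211_2_1; have q5 := s2; clear C; omega)
                  · first | linarith only [C.f22_1, C.f23_0, C.f33_4, C.o2, c133_1_1, c207_0_1, c208_1_1, c209_4_0, c210_1_1, s2] | (have q0 := C.f22_1; have q1 := C.f23_0; have q2 := C.f33_4; have q3 := C.o2; have q4 := c133_1_1; have q5 := c207_0_1; have q6 := c208_1_1; have q7 := c209_4_0; have q8 := c210_1_1; have q9 := s2; clear C; omega)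
                  · first | linarith only [C.f22_1, C.f23_0, C.f33_4, C.o2, c133_1_1, c207_0_1, c208_1_1, c209_4_0, c210_2_1, s2] | (have q0 := C.f22_1; have q1 := C.f23_0; have q2 := C.f33_4; have q3 := C.o2; have q4 := c133_1_1; have q5 := c207_0_1; have q6 := c208_1_1; have q7 := c209_4_0; have q8 := c210_2_1; have q9 := s2; clear C; omega)
                · first | linarith only [C.f33_7, c209_5_0, s3] | (have q0 := C.f33_7; have q1 := c209_5_0; have q2 := s3; clear C; omega)
            · rcases c0_13_22_33_k3_k_f22_5 C with ⟨c218_0_0, c218_0_1⟩ | ⟨c218_1_0, c218_1_1⟩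
              · first | linarith only [C.a2, C.f13_0, C.f13_3, C.f22_4, C.f33_4, C.o1, C.o2, c133_1_1, c207_1_1, c218_0_1, s2] | (have q0 := C.a2; have q1 := C.f13_0; have q2 := C.f13_3; have q3 := C.f22_4; have q4 := C.f33_4; have q5 := C.o1; have q6 := C.o2; have q7 := c133_1_1; have q8 := c207_1_1; have q9 := c218_0_1; have q10 := s2; clear C; omega)
              · rcases c0_13_22_33_k3_k_f23_3 C with ⟨c220_0_0, c220_0_1⟩ | ⟨c220_1_0, c220_1_1⟩ | ⟨c220_2_0, c220_2_1⟩
                · rcases c0_13_22_33_k3_k_f23_7 C with ⟨c221_0_0, c221_0_1⟩ | ⟨c221_1_0, c221_1_1⟩ | ⟨c221_2_0, c221_2_1⟩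
                  · first | linarith only [C.a1, C.f13_0, C.f13_3, C.f22_4, C.f23_5, C.f33_4, C.o1, C.o2, c133_1_1, c220_0_1, c221_0_1, s2] | (have q0 := C.a1; have q1 := C.f13_0; have q2 := C.f13_3; have q3 := C.f22_4; have q4 := C.f23_5; have q5 := C.f33_4; have q6 := C.o1; have q7 := C.o2; have q8 := c133_1_1; have q9 := c220_0_1; have q10 := c221_0_1; have q11 := s2; clear C; omega)
                  · rcases c0_13_22_33_k3_k_f23_10 C with ⟨c222_0_0, c222_0_1⟩ | ⟨c222_1_0, c222_1_1⟩
                    · first | linarith only [C.f23_9, C.o1, c221_1_1, c222_0_1, c2_1_1] | (have q0 := C.f23_9; have q1 := C.o1; have q2 := c221_1_1; have q3 := c222_0_1; have q4 := c2_1_1; clear C; omega)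
                    · rcases c0_13_22_33_k3_k_p13_23A C with c223_0_0 | c223_1_0 | c223_2_0 | c223_3_0 | c223_4_0 | c223_5_0
                      · first | linarith only [c223_0_0, e0] | (have q0 := c223_0_0; have q1 := e0; clear C; omega)
                      · first | linarith only [c223_1_0, e1] | (have q0 := c223_1_0; have q1 := e1; clear C; omega)
                      · first | linarith only [C.a2, c223_2_0, e0] | (have q0 := C.a2; have q1 := c223_2_0; have q2 := e0; clear C; omega)
                      · first | linarith only [C.f22_0, C.f33_0, c0_0_1, c220_0_1, c223_3_0, s1] | (have q0 := C.f22_0; have q1 := C.f33_0; have q2 := c0_0_1; have q3 := c220_0_1; have q4 := c223_3_0; have q5 := s1; clear C; omega)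
                      · first | linarith only [C.f22_4, C.f33_4, C.o1, C.o2, c133_1_1, c221_1_1, c223_4_0, s2] | (have q0 := C.f22_4; have q1 := C.f33_4; have q2 := C.o1; have q3 := C.o2; have q4 := c133_1_1; have q5 := c221_1_1; have q6 := c223_4_0; have q7 := s2; clear C; omega)
                      · first | linarith only [C.o2, c206_1_1, c222_1_1, c223_5_0] | (have q0 := C.o2; have q1 := c206_1_1; have q2 := c222_1_1; have q3 := c223_5_0; clear C; omega)
                  · first | linarith only [C.f13_4, C.f22_4, C.f23_5, C.f33_4, C.o1, C.o2, c221_2_1, s2] | (have q0 := C.f13_4; have q1 := C.f22_4; have q2 := C.f23_5; have q3 := C.f33_4; have q4 := C.o1; have q5 := C.o2; have q6 := c221_2_1; have q7 := s2; clear C; omega)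
                · rcases c0_13_22_33_k3_k_f23_7 C with ⟨c224_0_0, c224_0_1⟩ | ⟨c224_1_0, c224_1_1⟩ | ⟨c224_2_0, c224_2_1⟩
                  · first | linarith only [C.a2, C.f13_0, C.f13_3, C.f22_4, C.f23_5, C.f33_4, C.o1, C.o2, c133_1_1, c220_1_1, c224_0_1, s2] | (have q0 := C.a2; have q1 := C.f13_0; have q2 := C.f13_3; have q3 := C.f22_4; have q4 := C.f23_5; have q5 := C.f33_4; have q6 := C.o1; have q7 := C.o2; have q8 := c133_1_1; have q9 := c220_1_1; have q10 := c224_0_1; have q11 := s2; clear C; omega)
                  · rcases c0_13_22_33_k3_k_f23_10 C with ⟨c225_0_0, c225_0_1⟩ | ⟨c225_1_0, c225_1_1⟩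
                    · first | linarith only [C.f23_9, C.o1, c224_1_1, c225_0_1, c2_1_1] | (have q0 := C.f23_9; have q1 := C.o1; have q2 := c224_1_1; have q3 := c225_0_1; have q4 := c2_1_1; clear C; omega)
                    · rcases c0_13_22_33_k3_k_p13_23A C with c226_0_0 | c226_1_0 | c226_2_0 | c226_3_0 | c226_4_0 | c226_5_0
                      · first | linarith only [c226_0_0, e0] | (have q0 := c226_0_0; have q1 := e0; clear C; omega)
                      · first | linarith only [c226_1_0, e1] | (have q0 := c226_1_0; have q1 := e1; clear C; omega)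
                      · first | linarith only [C.a2, c226_2_0, e0] | (have q0 := C.a2; have q1 := c226_2_0; have q2 := e0; clear C; omega)
                      · rcases c0_13_22_33_k3_k_f33_5 C with ⟨c227_0_0, c227_0_1⟩ | ⟨c227_1_0, c227_1_1⟩
                        · first | linarith only [C.f13_0, C.f13_3, C.f22_1, C.f33_4, C.o1, C.o2, c133_1_1, c220_1_1, c226_3_0, c227_0_1, s1] | (have q0 := C.f13_0; have q1 := C.f13_3; have q2 := C.f22_1; have q3 := C.f33_4; have q4 := C.o1; have q5 := C.o2; have q6 := c133_1_1; have q7 := c220_1_1; have q8 := c226_3_0; have q9 := c227_0_1; have q10 := s1; clear C; omega)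
                        · rcases c0_13_22_33_k3_k_f33_8 C with ⟨c228_0_0, c228_0_1⟩ | ⟨c228_1_0, c228_1_1⟩
                          · first | linarith only [C.f13_4, C.f22_4, C.f33_7, C.o1, C.o2, c227_1_1, c228_0_1, c2_1_1, s2] | (have q0 := C.f13_4; have q1 := C.f22_4; have q2 := C.f33_7; have q3 := C.o1; have q4 := C.o2; have q5 := c227_1_1; have q6 := c228_0_1; have q7 := c2_1_1; have q8 := s2; clear C; omega)
                          · rcases c0_13_22_33_k3_k_p22_33A C with c233_0_0 | c233_1_0 | c233_2_0 | c233_3_0 | c233_4_0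
                            · first | linarith only [c233_0_0, e2] | (have q0 := c233_0_0; have q1 := e2; clear C; omega)
                            · first | linarith only [c233_1_0, e3] | (have q0 := c233_1_0; have q1 := e3; clear C; omega)
                            · first | linarith only [C.f13_0, c233_2_0, s1] | (have q0 := C.f13_0; have q1 := c233_2_0; have q2 := s1; clear C; omega)
                            · rcases c0_13_22_33_k3_k_tpmz C with c234_0_0 | c234_1_0 | c234_2_0 | c234_3_0 | c234_4_0 | c234_5_0
                              · first | linarith only [c234_0_0, e0] | (have q0 := c234_0_0; have q1 := e0; clear C; omega)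
                              · first | linarith only [C.f13_3, C.f22_1, C.f33_1, C.o1, C.o2, c133_1_1, c220_1_1, c226_3_0, c234_1_0, s1] | (have q0 := C.f13_3; have q1 := C.f22_1; have q2 := C.f33_1; have q3 := C.o1; have q4 := C.o2; have q5 := c133_1_1; have q6 := c220_1_1; have q7 := c226_3_0; have q8 := c234_1_0; have q9 := s1; clear C; omega)
                              · first | linarith only [C.f22_1, C.f33_1, C.o1, c0_0_1, c220_1_1, c226_3_0, c234_2_0, s1] | (have q0 := C.f22_1; have q1 := C.f33_1; have q2 := C.o1; have q3 := c0_0_1; have q4 := c220_1_1; have q5 := c226_3_0; have q6 := c234_2_0; have q7 := s1; clear C; omega)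
                              · first | linarith only [C.f22_1, C.f33_0, C.o0, C.o1, c220_1_1, c226_3_0, c234_3_0, s1] | (have q0 := C.f22_1; have q1 := C.f33_0; have q2 := C.o0; have q3 := C.o1; have q4 := c220_1_1; have q5 := c226_3_0; have q6 := c234_3_0; have q7 := s1; clear C; omega)
                              · rcases c0_13_22_33_k3_k_p11_23B C with c235_0_0 | c235_1_0 | c235_2_0 | c235_3_0 | c235_4_0 | c235_5_0
                                · rcases c0_13_22_33_k3_k_tzmp C with c242_0_0 | c242_1_0 | c242_2_0 | c242_3_0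
                                  · first | linarith only [c1_0_1, c242_0_0] | (have q0 := c1_0_1; have q1 := c242_0_0; clear C; omega)
                                  · first | linarith only [C.f22_1, C.f33_1, c220_1_1, c226_3_0, c234_4_0, c235_0_0, c242_1_0, e0, s1] | (have q0 := C.f22_1; have q1 := C.f33_1; have q2 := c220_1_1; have q3 := c226_3_0; have q4 := c234_4_0; have q5 := c235_0_0; have q6 := c242_1_0; have q7 := e0; have q8 := s1; clear C; omega)
                                  · first | linarith only [c242_2_0, c2_1_0] | (have q0 := c242_2_0; have q1 := c2_1_0; clear C; omega)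
                                  · rcases c0_13_22_33_k3_k_tzpm C with c243_0_0 | c243_1_0 | c243_2_0 | c243_3_0 | ⟨c243_4_0, c243_4_1⟩
                                    · first | linarith only [C.f13_0, C.f22_1, C.f33_1, c218_1_1, c227_1_1, c233_3_0, c243_0_0, s1] | (have q0 := C.f13_0; have q1 := C.f22_1; have q2 := C.f33_1; have q3 := c218_1_1; have q4 := c227_1_1; have q5 := c233_3_0; have q6 := c243_0_0; have q7 := s1; clear C; omega)
                                    · first | linarith only [C.f13_0, C.f22_1, C.f33_1, C.o2, c218_1_1, c227_1_1, c233_3_0, c234_4_0, c235_0_0, c243_1_0, c2_1_1, e0, s1] | (have q0 := C.f13_0; have q1 := C.f22_1; have q2 := C.f33_1; have q3 := C.o2; have q4 := c218_1_1; have q5 := c227_1_1; have q6 := c233_3_0; have q7 := c234_4_0; have q8 := c235_0_0; have q9 := c243_1_0; have q10 := c2_1_1; have q11 := e0; have q12 := s1; clear C; omega)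
                                    · first | linarith only [C.f13_0, C.f13_3, C.f22_1, C.f33_1, C.o2, c133_1_1, c234_4_0, c235_0_0, c243_2_0, e0, s1] | (have q0 := C.f13_0; have q1 := C.f13_3; have q2 := C.f22_1; have q3 := C.f33_1; have q4 := C.o2; have q5 := c133_1_1; have q6 := c234_4_0; have q7 := c235_0_0; have q8 := c243_2_0; have q9 := e0; have q10 := s1; clear C; omega)
                                    · first | linarith only [C.f13_0, C.f22_1, C.f33_1, C.o2, c234_4_0, c235_0_0, c243_3_0, e0, s1] | (have q0 := C.f13_0; have q1 := C.f22_1; have q2 := C.f33_1; have q3 := C.o2; have q4 := c234_4_0; have q5 := c235_0_0; have q6 := c243_3_0; have q7 := e0; have q8 := s1; clear C; omega)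
                                    · rcases c0_13_22_33_k3_k_F2 hF2 with c245_0_0 | c245_1_0 | c245_2_0 | c245_3_0 | c245_4_0 | c245_5_0 | c245_6_0 | c245_7_0 | c245_8_0 | c245_9_0 | c245_10_0 | c245_11_0 | c245_12_0 | c245_13_0 | c245_14_0
                                      · first | linarith only [c245_0_0, e0] | (have q0 := c245_0_0; have q1 := e0; clear C; omega)
                                      · first | linarith only [C.f13_0, C.f22_1, C.f33_0, c234_4_0, c235_0_0, c245_1_0, s1] | (have q0 := C.f13_0; have q1 := C.f22_1; have q2 := C.f33_0; have q3 := c234_4_0; have q4 := c235_0_0; have q5 := c245_1_0; have q6 := s1; clear C; omega)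
                                      · first | linarith only [C.f13_0, C.f13_3, C.f22_1, C.f33_1, C.o2, c133_1_1, c234_4_0, c235_0_0, c245_2_0, e0, s1] | (have q0 := C.f13_0; have q1 := C.f13_3; have q2 := C.f22_1; have q3 := C.f33_1; have q4 := C.o2; have q5 := c133_1_1; have q6 := c234_4_0; have q7 := c235_0_0; have q8 := c245_2_0; have q9 := e0; have q10 := s1; clear C; omega)
                                      · first | linarith only [C.b0, c0_0_1, c218_1_1, c220_1_1, c226_3_0, c227_1_1, c233_3_0, c242_3_0, c243_4_1, c245_3_0, c2_1_0] | (have q0 := C.b0; have q1 := c0_0_1; have q2 := c218_1_1; have q3 := c220_1_1; have q4 := c226_3_0; have q5 := c227_1_1; have q6 := c233_3_0; have q7 := c242_3_0; have q8 := c243_4_1; have q9 := c245_3_0; have q10 := c2_1_0; clear C; omega)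
                                      · first | linarith only [C.f13_0, C.f22_1, C.f33_1, C.o2, c234_4_0, c235_0_0, c245_4_0, c2_1_1, s1] | (have q0 := C.f13_0; have q1 := C.f22_1; have q2 := C.f33_1; have q3 := C.o2; have q4 := c234_4_0; have q5 := c235_0_0; have q6 := c245_4_0; have q7 := c2_1_1; have q8 := s1; clear C; omega)
                                      · first | linarith only [c0_0_1, c220_1_1, c226_3_0, c245_5_0] | (have q0 := c0_0_1; have q1 := c220_1_1; have q2 := c226_3_0; have q3 := c245_5_0; clear C; omega)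
                                      · first | linarith only [C.f13_0, C.f22_1, C.f33_1, c218_1_1, c227_1_1, c233_3_0, c245_6_0, s1] | (have q0 := C.f13_0; have q1 := C.f22_1; have q2 := C.f33_1; have q3 := c218_1_1; have q4 := c227_1_1; have q5 := c233_3_0; have q6 := c245_6_0; have q7 := s1; clear C; omega)
                                      · first | linarith only [C.b0, c0_0_1, c218_1_1, c220_1_1, c226_3_0, c227_1_1, c233_3_0, c245_7_0, c2_1_0] | (have q0 := C.b0; have q1 := c0_0_1; have q2 := c218_1_1; have q3 := c220_1_1; have q4 := c226_3_0; have q5 := c227_1_1; have q6 := c233_3_0; have q7 := c245_7_0; have q8 := c2_1_0; clear C; omega)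
                                      · first | linarith only [C.f22_1, C.f33_1, c220_1_1, c226_3_0, c234_4_0, c235_0_0, c245_8_0, s1] | (have q0 := C.f22_1; have q1 := C.f33_1; have q2 := c220_1_1; have q3 := c226_3_0; have q4 := c234_4_0; have q5 := c235_0_0; have q6 := c245_8_0; have q7 := s1; clear C; omega)
                                      · first | linarith only [c235_0_0, c245_9_0] | (have q0 := c235_0_0; have q1 := c245_9_0; clear C; omega)
                                      · first | linarith only [C.b0, c245_10_0] | (have q0 := C.b0; have q1 := c245_10_0; clear C; omega)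
                                      · first | linarith only [c234_4_0, c245_11_0] | (have q0 := c234_4_0; have q1 := c245_11_0; clear C; omega)
                                      · first | linarith only [c245_12_0, c2_1_0] | (have q0 := c245_12_0; have q1 := c2_1_0; clear C; omega)
                                      · first | linarith only [C.b0, c0_0_1, c218_1_1, c220_1_1, c226_3_0, c227_1_1, c233_3_0, c243_4_1, c245_13_0, c2_1_0] | (have q0 := C.b0; have q1 := c0_0_1; have q2 := c218_1_1; have q3 := c220_1_1; have q4 := c226_3_0; have q5 := c227_1_1; have q6 := c233_3_0; have q7 := c243_4_1; have q8 := c245_13_0; have q9 := c2_1_0; clear C; omega)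
                                      · first | linarith only [C.f13_0, C.f22_1, C.f33_1, C.o2, c234_4_0, c235_0_0, c245_14_0, s1] | (have q0 := C.f13_0; have q1 := C.f22_1; have q2 := C.f33_1; have q3 := C.o2; have q4 := c234_4_0; have q5 := c235_0_0; have q6 := c245_14_0; have q7 := s1; clear C; omega)
                                · first | linarith only [C.a2, c235_1_0, e0] | (have q0 := C.a2; have q1 := c235_1_0; have q2 := e0; clear C; omega)
                                · first | linarith only [c235_2_0, e1] | (have q0 := c235_2_0; have q1 := e1; clear C; omega)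
                                · first | linarith only [C.f11_0, C.f13_0, C.f22_1, C.f33_1, C.o0, c218_1_1, c220_1_1, c227_1_1, c233_3_0, c235_3_0, s1] | (have q0 := C.f11_0; have q1 := C.f13_0; have q2 := C.f22_1; have q3 := C.f33_1; have q4 := C.o0; have q5 := c218_1_1; have q6 := c220_1_1; have q7 := c227_1_1; have q8 := c233_3_0; have q9 := c235_3_0; have q10 := s1; clear C; omega)
                                · first | linarith only [C.f11_0, C.f11_1, C.f13_0, C.f13_3, C.f22_1, C.f33_1, C.o0, C.o2, c133_1_1, c218_1_1, c224_1_1, c227_1_1, c233_3_0, c234_4_0, c235_4_0, s1] | (have q0 := C.f11_0; have q1 := C.f11_1; have q2 := C.f13_0; have q3 := C.f13_3; have q4 := C.f22_1; have q5 := C.f33_1; have q6 := C.o0; have q7 := C.o2; have q8 := c133_1_1; have q9 := c218_1_1; have q10 := c224_1_1; have q11 := c227_1_1; have q12 := c233_3_0; have q13 := c234_4_0; have q14 := c235_4_0; have q15 := s1; clear C; omega)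
                                · first | linarith only [C.f11_0, C.f11_1, C.f11_2, C.f13_0, C.f13_3, C.f22_1, C.f33_1, C.o0, C.o2, c133_1_1, c225_1_1, c234_4_0, c235_5_0, c2_1_1, s1] | (have q0 := C.f11_0; have q1 := C.f11_1; have q2 := C.f11_2; have q3 := C.f13_0; have q4 := C.f13_3; have q5 := C.f22_1; have q6 := C.f33_1; have q7 := C.o0; have q8 := C.o2; have q9 := c133_1_1; have q10 := c225_1_1; have q11 := c234_4_0; have q12 := c235_5_0; have q13 := c2_1_1; have q14 := s1; clear C; omega)
                              · first | linarith only [c234_5_0, c2_1_1] | (have q0 := c234_5_0; have q1 := c2_1_1; clear C; omega)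
                            · first | linarith only [C.f22_6, C.o2, c218_1_1, c228_1_1, c233_4_0, c2_1_1] | (have q0 := C.f22_6; have q1 := C.o2; have q2 := c218_1_1; have q3 := c228_1_1; have q4 := c233_4_0; have q5 := c2_1_1; clear C; omega)
                      · first | linarith only [C.f22_4, C.f33_4, C.o1, C.o2, c133_1_1, c224_1_1, c226_4_0, s2] | (have q0 := C.f22_4; have q1 := C.f33_4; have q2 := C.o1; have q3 := C.o2; have q4 := c133_1_1; have q5 := c224_1_1; have q6 := c226_4_0; have q7 := s2; clear C; omega)
                      · first | linarith only [C.o2, c206_1_1, c225_1_1, c226_5_0] | (have q0 := C.o2; have q1 := c206_1_1; have q2 := c225_1_1; have q3 := c226_5_0; clear C; omega)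
                  · first | linarith only [C.f13_4, C.f22_4, C.f23_5, C.f33_4, C.o1, C.o2, c224_2_1, s2] | (have q0 := C.f13_4; have q1 := C.f22_4; have q2 := C.f23_5; have q3 := C.f33_4; have q4 := C.o1; have q5 := C.o2; have q6 := c224_2_1; have q7 := s2; clear C; omega)
                · first | linarith only [C.f13_4, C.f22_4, C.f23_1, C.f33_4, C.o1, C.o2, c220_2_1, s2] | (have q0 := C.f13_4; have q1 := C.f22_4; have q2 := C.f23_1; have q3 := C.f33_4; have q4 := C.o1; have q5 := C.o2; have q6 := c220_2_1; have q7 := s2; clear C; omega)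
    · rcases c0_13_22_33_k3_k_t23 C with ⟨c246_0_0, c246_0_1⟩ | ⟨c246_1_0, c246_1_1⟩
      · rcases c0_13_22_33_k3_k_tzpm C with c247_0_0 | c247_1_0 | c247_2_0 | c247_3_0 | ⟨c247_4_0, c247_4_1⟩
        · first | linarith only [c246_0_0, c247_0_0] | (have q0 := c246_0_0; have q1 := c247_0_0; clear C; omega)
        · first | linarith only [C.b5, C.f13_7, C.f22_4, C.f22_6, C.f33_7, C.o1, c247_1_0, s3] | (have q0 := C.b5; have q1 := C.f13_7; have q2 := C.f22_4; have q3 := C.f22_6; have q4 := C.f33_7; have q5 := C.o1; have q6 := c247_1_0; have q7 := s3; clear C; omega)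
        · first | linarith only [c1_1_1, c247_2_0] | (have q0 := c1_1_1; have q1 := c247_2_0; clear C; omega)
        · first | linarith only [C.f13_4, C.f22_4, C.f33_4, C.o1, C.o2, c247_3_0, s2] | (have q0 := C.f13_4; have q1 := C.f22_4; have q2 := C.f33_4; have q3 := C.o1; have q4 := C.o2; have q5 := c247_3_0; have q6 := s2; clear C; omega)
        · rcases c0_13_22_33_k3_k_p22_33A C with c248_0_0 | c248_1_0 | c248_2_0 | c248_3_0 | c248_4_0
          · first | linarith only [c248_0_0, e2] | (have q0 := c248_0_0; have q1 := e2; clear C; omega)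
          · first | linarith only [c248_1_0, e3] | (have q0 := c248_1_0; have q1 := e3; clear C; omega)
          · first | linarith only [C.f13_0, c248_2_0, s1] | (have q0 := C.f13_0; have q1 := c248_2_0; have q2 := s1; clear C; omega)
          · rcases c0_13_22_33_k3_k_p11_13B C with c250_0_0 | c250_1_0 | c250_2_0 | c250_3_0 | c250_4_0 | c250_5_0
            · first | linarith only [c1_1_0, c250_0_0] | (have q0 := c1_1_0; have q1 := c250_0_0; clear C; omega)
            · first | linarith only [c250_1_0, e0] | (have q0 := c250_1_0; have q1 := e0; clear C; omega)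
            · first | linarith only [c250_2_0, e1] | (have q0 := c250_2_0; have q1 := e1; clear C; omega)
            · rcases c0_13_22_33_k3_k_p11_33A C with c252_0_0 | c252_1_0 | c252_2_0 | c252_3_0 | c252_4_0
              · first | linarith only [c1_1_0, c252_0_0] | (have q0 := c1_1_0; have q1 := c252_0_0; clear C; omega)
              · first | linarith only [c252_1_0, e3] | (have q0 := c252_1_0; have q1 := e3; clear C; omega)
              · rcases c0_13_22_33_k3_k_f22_5 C with ⟨c253_0_0, c253_0_1⟩ | ⟨c253_1_0, c253_1_1⟩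
                · first | linarith only [C.a3, C.f11_0, C.f22_4, c247_4_0, c250_3_0, c252_2_0, c253_0_1, s1] | (have q0 := C.a3; have q1 := C.f11_0; have q2 := C.f22_4; have q3 := c247_4_0; have q4 := c250_3_0; have q5 := c252_2_0; have q6 := c253_0_1; have q7 := s1; clear C; omega)
                · rcases c0_13_22_33_k3_k_p11_22B C with c255_0_0 | c255_1_0 | c255_2_0 | c255_3_0 | c255_4_0
                  · first | linarith only [c1_1_0, c255_0_0] | (have q0 := c1_1_0; have q1 := c255_0_0; clear C; omega)
                  · first | linarith only [c255_1_0, e2] | (have q0 := c255_1_0; have q1 := e2; clear C; omega)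
                  · first | linarith only [C.f11_0, C.f13_0, c252_2_0, c255_2_0, s1] | (have q0 := C.f11_0; have q1 := C.f13_0; have q2 := c252_2_0; have q3 := c255_2_0; have q4 := s1; clear C; omega)
                  · first | linarith only [C.f11_0, C.f11_1, C.f13_3, c247_4_0, c248_3_0, c250_3_0, c253_1_1, c255_3_0, s2] | (have q0 := C.f11_0; have q1 := C.f11_1; have q2 := C.f13_3; have q3 := c247_4_0; have q4 := c248_3_0; have q5 := c250_3_0; have q6 := c253_1_1; have q7 := c255_3_0; have q8 := s2; clear C; omega)
                  · first | linarith only [C.f11_0, C.f11_1, C.f11_2, C.f13_3, C.f13_7, C.f22_4, C.f22_6, C.f33_7, c247_4_0, c247_4_1, c248_3_0, c250_3_0, c255_4_0, s2, s3] | (have q0 := C.f11_0; have q1 := C.f11_1; have q2 := C.f11_2; have q3 := C.f13_3; have q4 := C.f13_7; have q5 := C.f22_4; have q6 := C.f22_6; have q7 := C.f33_7; have q8 := c247_4_0; have q9 := c247_4_1; have q10 := c248_3_0; have q11 := c250_3_0; have q12 := c255_4_0; have q13 := s2; have q14 := s3; clear C; omega)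
              · first | linarith only [C.f11_0, C.f11_1, C.f13_3, C.f22_4, c247_4_0, c250_3_0, c252_3_0, s2] | (have q0 := C.f11_0; have q1 := C.f11_1; have q2 := C.f13_3; have q3 := C.f22_4; have q4 := c247_4_0; have q5 := c250_3_0; have q6 := c252_3_0; have q7 := s2; clear C; omega)
              · first | linarith only [C.f11_0, C.f11_1, C.f11_2, C.f13_3, C.f13_7, C.f22_4, C.f22_6, c247_4_0, c247_4_1, c248_3_0, c250_3_0, c252_4_0, s2, s3] | (have q0 := C.f11_0; have q1 := C.f11_1; have q2 := C.f11_2; have q3 := C.f13_3; have q4 := C.f13_7; have q5 := C.f22_4; have q6 := C.f22_6; have q7 := c247_4_0; have q8 := c247_4_1; have q9 := c248_3_0; have q10 := c250_3_0; have q11 := c252_4_0; have q12 := s2; have q13 := s3; clear C; omega)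
            · first | linarith only [C.f11_0, C.f11_1, c1_1_1, c247_4_0, c248_3_0, c250_4_0, s2] | (have q0 := C.f11_0; have q1 := C.f11_1; have q2 := c1_1_1; have q3 := c247_4_0; have q4 := c248_3_0; have q5 := c250_4_0; have q6 := s2; clear C; omega)
            · first | linarith only [C.f11_0, C.f11_1, C.f11_2, C.f22_4, C.f22_6, C.f33_7, c1_1_1, c247_4_1, c250_5_0, s3] | (have q0 := C.f11_0; have q1 := C.f11_1; have q2 := C.f11_2; have q3 := C.f22_4; have q4 := C.f22_6; have q5 := C.f33_7; have q6 := c1_1_1; have q7 := c247_4_1; have q8 := c250_5_0; have q9 := s3; clear C; omega)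
          · first | linarith only [C.f13_7, c247_4_1, c248_4_0, s3] | (have q0 := C.f13_7; have q1 := c247_4_1; have q2 := c248_4_0; have q3 := s3; clear C; omega)
      · rcases c0_13_22_33_k3_k_f13_5 C with ⟨c256_0_0, c256_0_1⟩ | ⟨c256_1_0, c256_1_1⟩
        · rcases c0_13_22_33_k3_k_f13_8 C with ⟨c257_0_0, c257_0_1⟩ | ⟨c257_1_0, c257_1_1⟩
          · first | linarith only [C.f13_7, C.o0, c0_0_1, c1_1_1, c246_1_1, c256_0_1, c257_0_1] | (have q0 := C.f13_7; have q1 := C.o0; have q2 := c0_0_1; have q3 := c1_1_1; have q4 := c246_1_1; have q5 := c256_0_1; have q6 := c257_0_1; clear C; omega)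
          · rcases c0_13_22_33_k3_k_p11_13B C with c258_0_0 | c258_1_0 | c258_2_0 | c258_3_0 | c258_4_0 | c258_5_0
            · first | linarith only [c1_1_0, c258_0_0] | (have q0 := c1_1_0; have q1 := c258_0_0; clear C; omega)
            · first | linarith only [c258_1_0, e0] | (have q0 := c258_1_0; have q1 := e0; clear C; omega)
            · first | linarith only [c258_2_0, e1] | (have q0 := c258_2_0; have q1 := e1; clear C; omega)
            · rcases c0_13_22_33_k3_k_f22_2 C with ⟨c259_0_0, c259_0_1⟩ | ⟨c259_1_0, c259_1_1⟩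
              · rcases c0_13_22_33_k3_k_f22_5 C with ⟨c260_0_0, c260_0_1⟩ | ⟨c260_1_0, c260_1_1⟩
                · first | linarith only [C.a1, C.f22_4, C.o0, c1_1_1, c259_0_1, c260_0_1] | (have q0 := C.a1; have q1 := C.f22_4; have q2 := C.o0; have q3 := c1_1_1; have q4 := c259_0_1; have q5 := c260_0_1; clear C; omega)
                · rcases c0_13_22_33_k3_k_p11_22B C with c261_0_0 | c261_1_0 | c261_2_0 | c261_3_0 | c261_4_0
                  · first | linarith only [c1_1_0, c261_0_0] | (have q0 := c1_1_0; have q1 := c261_0_0; clear C; omega)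
                  · first | linarith only [c261_1_0, e2] | (have q0 := c261_1_0; have q1 := e2; clear C; omega)
                  · first | linarith only [C.a1, C.f11_0, C.o0, c259_0_1, c261_2_0] | (have q0 := C.a1; have q1 := C.f11_0; have q2 := C.o0; have q3 := c259_0_1; have q4 := c261_2_0; clear C; omega)
                  · rcases c0_13_22_33_k3_k_f33_2 C with ⟨c262_0_0, c262_0_1⟩ | ⟨c262_1_0, c262_1_1⟩
                    · rcases c0_13_22_33_k3_k_p11_33B C with c265_0_0 | c265_1_0 | c265_2_0 | c265_3_0 | c265_4_0
                      · first | linarith only [c1_1_0, c265_0_0] | (have q0 := c1_1_0; have q1 := c265_0_0; clear C; omega)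
                      · first | linarith only [c265_1_0, e3] | (have q0 := c265_1_0; have q1 := e3; clear C; omega)
                      · first | linarith only [C.f11_0, C.f13_0, C.f22_0, C.o0, c262_0_1, c265_2_0, s1] | (have q0 := C.f11_0; have q1 := C.f13_0; have q2 := C.f22_0; have q3 := C.o0; have q4 := c262_0_1; have q5 := c265_2_0; have q6 := s1; clear C; omega)
                      · first | linarith only [C.f11_0, C.f11_1, C.f13_3, C.f22_4, C.o1, c258_3_0, c265_3_0, s2] | (have q0 := C.f11_0; have q1 := C.f11_1; have q2 := C.f13_3; have q3 := C.f22_4; have q4 := C.o1; have q5 := c258_3_0; have q6 := c265_3_0; have q7 := s2; clear C; omega)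
                      · rcases c0_13_22_33_k3_k_p13_22A C with c266_0_0 | c266_1_0 | c266_2_0 | c266_3_0 | c266_4_0 | c266_5_0
                        · first | linarith only [c266_0_0, e0] | (have q0 := c266_0_0; have q1 := e0; clear C; omega)
                        · first | linarith only [c266_1_0, e1] | (have q0 := c266_1_0; have q1 := e1; clear C; omega)
                        · first | linarith only [c266_2_0, e2] | (have q0 := c266_2_0; have q1 := e2; clear C; omega)
                        · first | linarith only [C.f33_0, c0_0_1, c259_0_1, c266_3_0, s1] | (have q0 := C.f33_0; have q1 := c0_0_1; have q2 := c259_0_1; have q3 := c266_3_0; have q4 := s1; clear C; omega)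
                        · rcases c0_13_22_33_k3_k_f23_3 C with ⟨c267_0_0, c267_0_1⟩ | ⟨c267_1_0, c267_1_1⟩ | ⟨c267_2_0, c267_2_1⟩
                          · rcases c0_13_22_33_k3_k_f23_7 C with ⟨c268_0_0, c268_0_1⟩ | ⟨c268_1_0, c268_1_1⟩ | ⟨c268_2_0, c268_2_1⟩
                            · first | linarith only [C.a3, C.f13_0, C.f22_0, C.f23_5, C.f33_0, c267_0_1, c268_0_1, s1] | (have q0 := C.a3; have q1 := C.f13_0; have q2 := C.f22_0; have q3 := C.f23_5; have q4 := C.f33_0; have q5 := c267_0_1; have q6 := c268_0_1; have q7 := s1; clear C; omega)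
                            · rcases c0_13_22_33_k3_k_f23_10 C with ⟨c269_0_0, c269_0_1⟩ | ⟨c269_1_0, c269_1_1⟩
                              · first | linarith only [C.f23_9, C.o0, c0_0_1, c1_1_1, c246_1_1, c256_0_1, c260_1_1, c266_4_0, c268_1_1, c269_0_1] | (have q0 := C.f23_9; have q1 := C.o0; have q2 := c0_0_1; have q3 := c1_1_1; have q4 := c246_1_1; have q5 := c256_0_1; have q6 := c260_1_1; have q7 := c266_4_0; have q8 := c268_1_1; have q9 := c269_0_1; clear C; omega)
                              · rcases c0_13_22_33_k3_k_p11_23B C with c270_0_0 | c270_1_0 | c270_2_0 | c270_3_0 | c270_4_0 | c270_5_0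
                                · first | linarith only [c1_1_0, c270_0_0] | (have q0 := c1_1_0; have q1 := c270_0_0; clear C; omega)
                                · first | linarith only [C.a2, c270_1_0, e0] | (have q0 := C.a2; have q1 := c270_1_0; have q2 := e0; clear C; omega)
                                · first | linarith only [c270_2_0, e1] | (have q0 := c270_2_0; have q1 := e1; clear C; omega)
                                · first | linarith only [C.f11_0, C.f13_0, C.f22_0, C.f33_0, C.o0, c267_0_1, c270_3_0, s1] | (have q0 := C.f11_0; have q1 := C.f13_0; have q2 := C.f22_0; have q3 := C.f33_0; have q4 := C.o0; have q5 := c267_0_1; have q6 := c270_3_0; have q7 := s1; clear C; omega)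
                                · first | linarith only [C.f11_0, C.f11_1, C.o0, c0_0_1, c1_1_1, c256_0_1, c260_1_1, c266_4_0, c268_1_1, c270_4_0] | (have q0 := C.f11_0; have q1 := C.f11_1; have q2 := C.o0; have q3 := c0_0_1; have q4 := c1_1_1; have q5 := c256_0_1; have q6 := c260_1_1; have q7 := c266_4_0; have q8 := c268_1_1; have q9 := c270_4_0; clear C; omega)
                                · first | linarith only [C.f11_0, C.f11_1, C.f11_2, c1_1_1, c246_1_1, c269_1_1, c270_5_0] | (have q0 := C.f11_0; have q1 := C.f11_1; have q2 := C.f11_2; have q3 := c1_1_1; have q4 := c246_1_1; have q5 := c269_1_1; have q6 := c270_5_0; clear C; omega)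
                            · first | linarith only [C.f11_0, C.f11_1, C.f11_2, C.f13_4, C.f13_7, C.f22_4, C.f22_6, C.f23_5, C.f33_4, C.o0, c0_0_1, c1_1_1, c256_0_1, c265_4_0, c268_2_1, s2, s3] | (have q0 := C.f11_0; have q1 := C.f11_1; have q2 := C.f11_2; have q3 := C.f13_4; have q4 := C.f13_7; have q5 := C.f22_4; have q6 := C.f22_6; have q7 := C.f23_5; have q8 := C.f33_4; have q9 := C.o0; have q10 := c0_0_1; have q11 := c1_1_1; have q12 := c256_0_1; have q13 := c265_4_0; have q14 := c268_2_1; have q15 := s2; have q16 := s3; clear C; omega)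
                          · first | linarith only [C.f22_1, C.f23_0, C.o0, c0_0_1, c1_1_1, c256_0_1, c259_0_1, c260_1_1, c266_4_0, c267_1_1] | (have q0 := C.f22_1; have q1 := C.f23_0; have q2 := C.o0; have q3 := c0_0_1; have q4 := c1_1_1; have q5 := c256_0_1; have q6 := c259_0_1; have q7 := c260_1_1; have q8 := c266_4_0; have q9 := c267_1_1; clear C; omega)
                          · first | linarith only [C.f11_0, C.f11_1, C.f11_2, C.f13_7, C.f22_1, C.f22_6, C.f23_0, C.f33_4, C.o0, c0_0_1, c1_1_1, c256_0_1, c259_0_1, c260_1_1, c265_4_0, c266_4_0, c267_2_1, s2, s3] | (have q0 := C.f11_0; have q1 := C.f11_1; have q2 := C.f11_2; have q3 := C.f13_7; have q4 := C.f22_1; have q5 := C.f22_6; have q6 := C.f23_0; have q7 := C.f33_4; have q8 := C.o0; have q9 := c0_0_1; have q10 := c1_1_1; have q11 := c256_0_1; have q12 := c259_0_1; have q13 := c260_1_1; have q14 := c265_4_0; have q15 := c266_4_0; have q16 := c267_2_1; have q17 := s2; have q18 := s3; clear C; omega)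
                        · first | linarith only [C.f33_7, c266_5_0, s3] | (have q0 := C.f33_7; have q1 := c266_5_0; have q2 := s3; clear C; omega)
                    · first | linarith only [C.f11_0, C.f11_1, C.f13_3, C.f22_1, C.f33_0, C.f33_4, C.o1, c258_3_0, c259_0_1, c261_3_0, c262_1_1, s2] | (have q0 := C.f11_0; have q1 := C.f11_1; have q2 := C.f13_3; have q3 := C.f22_1; have q4 := C.f33_0; have q5 := C.f33_4; have q6 := C.o1; have q7 := c258_3_0; have q8 := c259_0_1; have q9 := c261_3_0; have q10 := c262_1_1; have q11 := s2; clear C; omega)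
                  · first | linarith only [C.f11_0, C.f11_1, C.f11_2, C.f22_6, c1_1_1, c246_1_1, c260_1_1, c261_4_0] | (have q0 := C.f11_0; have q1 := C.f11_1; have q2 := C.f11_2; have q3 := C.f22_6; have q4 := c1_1_1; have q5 := c246_1_1; have q6 := c260_1_1; have q7 := c261_4_0; clear C; omega)
              · rcases c0_13_22_33_k3_k_f22_5 C with ⟨c271_0_0, c271_0_1⟩ | ⟨c271_1_0, c271_1_1⟩
                · first | linarith only [C.f22_4, c1_1_1, c246_1_0, c259_1_1, c271_0_1] | (have q0 := C.f22_4; have q1 := c1_1_1; have q2 := c246_1_0; have q3 := c259_1_1; have q4 := c271_0_1; clear C; omega)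
                · rcases c0_13_22_33_k3_k_f23_3 C with ⟨c273_0_0, c273_0_1⟩ | ⟨c273_1_0, c273_1_1⟩ | ⟨c273_2_0, c273_2_1⟩
                  · rcases c0_13_22_33_k3_k_f23_7 C with ⟨c274_0_0, c274_0_1⟩ | ⟨c274_1_0, c274_1_1⟩ | ⟨c274_2_0, c274_2_1⟩
                    · first | linarith only [C.a1, C.a3, C.f23_5, c273_0_1, c274_0_1] | (have q0 := C.a1; have q1 := C.a3; have q2 := C.f23_5; have q3 := c273_0_1; have q4 := c274_0_1; clear C; omega)
                    · rcases c0_13_22_33_k3_k_f23_10 C with ⟨c275_0_0, c275_0_1⟩ | ⟨c275_1_0, c275_1_1⟩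
                      · first | linarith only [C.f23_9, C.o1, c246_1_1, c274_1_1, c275_0_1] | (have q0 := C.f23_9; have q1 := C.o1; have q2 := c246_1_1; have q3 := c274_1_1; have q4 := c275_0_1; clear C; omega)
                      · rcases c0_13_22_33_k3_k_p11_23B C with c276_0_0 | c276_1_0 | c276_2_0 | c276_3_0 | c276_4_0 | c276_5_0
                        · first | linarith only [c1_1_0, c276_0_0] | (have q0 := c1_1_0; have q1 := c276_0_0; clear C; omega)
                        · first | linarith only [C.a1, C.f23_1, C.o0, c1_1_0, c273_0_1, c276_1_0] | (have q0 := C.a1; have q1 := C.f23_1; have q2 := C.o0; have q3 := c1_1_0; have q4 := c273_0_1; have q5 := c276_1_0; clear C; omega)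
                        · first | linarith only [c276_2_0, e1] | (have q0 := c276_2_0; have q1 := e1; clear C; omega)
                        · first | linarith only [C.a1, C.f11_0, C.o0, c273_0_1, c276_3_0] | (have q0 := C.a1; have q1 := C.f11_0; have q2 := C.o0; have q3 := c273_0_1; have q4 := c276_3_0; clear C; omega)
                        · rcases c0_13_22_33_k3_k_f33_2 C with ⟨c277_0_0, c277_0_1⟩ | ⟨c277_1_0, c277_1_1⟩
                          · rcases c0_13_22_33_k3_k_f33_8 C with ⟨c278_0_0, c278_0_1⟩ | ⟨c278_1_0, c278_1_1⟩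
                            · first | linarith only [C.f11_0, C.f11_1, C.f13_3, C.f22_4, C.f33_7, C.o1, C.o2, c246_1_1, c258_3_0, c274_1_1, c276_4_0, c278_0_1, s2] | (have q0 := C.f11_0; have q1 := C.f11_1; have q2 := C.f13_3; have q3 := C.f22_4; have q4 := C.f33_7; have q5 := C.o1; have q6 := C.o2; have q7 := c246_1_1; have q8 := c258_3_0; have q9 := c274_1_1; have q10 := c276_4_0; have q11 := c278_0_1; have q12 := s2; clear C; omega)
                            · rcases c0_13_22_33_k3_k_p11_33B C with c282_0_0 | c282_1_0 | c282_2_0 | c282_3_0 | c282_4_0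
                              · first | linarith only [c1_1_0, c282_0_0] | (have q0 := c1_1_0; have q1 := c282_0_0; clear C; omega)
                              · first | linarith only [c282_1_0, e3] | (have q0 := c282_1_0; have q1 := e3; clear C; omega)
                              · first | linarith only [C.a1, C.f11_0, C.o0, c277_0_1, c282_2_0] | (have q0 := C.a1; have q1 := C.f11_0; have q2 := C.o0; have q3 := c277_0_1; have q4 := c282_2_0; clear C; omega)
                              · first | linarith only [C.f11_0, C.f11_1, C.f13_3, C.f22_4, C.o1, c258_3_0, c282_3_0, s2] | (have q0 := C.f11_0; have q1 := C.f11_1; have q2 := C.f13_3; have q3 := C.f22_4; have q4 := C.o1; have q5 := c258_3_0; have q6 := c282_3_0; have q7 := s2; clear C; omega)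
                              · rcases c0_13_22_33_k3_k_p13_22A C with c283_0_0 | c283_1_0 | c283_2_0 | c283_3_0 | c283_4_0 | c283_5_0
                                · first | linarith only [c283_0_0, e0] | (have q0 := c283_0_0; have q1 := e0; clear C; omega)
                                · first | linarith only [c283_1_0, e1] | (have q0 := c283_1_0; have q1 := e1; clear C; omega)
                                · first | linarith only [c283_2_0, e2] | (have q0 := c283_2_0; have q1 := e2; clear C; omega)
                                · first | linarith only [C.f11_0, C.f11_1, C.f23_1, C.f33_0, c0_0_1, c1_1_1, c259_1_1, c273_0_1, c274_1_1, c276_4_0, c283_3_0, s1] | (have q0 := C.f11_0; have q1 := C.f11_1; have q2 := C.f23_1; have q3 := C.f33_0; have q4 := c0_0_1; have q5 := c1_1_1; have q6 := c259_1_1; have q7 := c273_0_1; have q8 := c274_1_1; have q9 := c276_4_0; have q10 := c283_3_0; have q11 := s1; clear C; omega)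
                                · first | linarith only [C.f11_0, C.f11_1, C.o0, c0_0_1, c1_1_1, c256_0_1, c271_1_1, c274_1_1, c276_4_0, c283_4_0] | (have q0 := C.f11_0; have q1 := C.f11_1; have q2 := C.o0; have q3 := c0_0_1; have q4 := c1_1_1; have q5 := c256_0_1; have q6 := c271_1_1; have q7 := c274_1_1; have q8 := c276_4_0; have q9 := c283_4_0; clear C; omega)
                                · first | linarith only [C.f11_0, C.f11_1, C.f11_2, C.f22_6, c1_1_1, c246_1_1, c257_1_1, c271_1_1, c278_1_1, c282_4_0, c283_5_0] | (have q0 := C.f11_0; have q1 := C.f11_1; have q2 := C.f11_2; have q3 := C.f22_6; have q4 := c1_1_1; have q5 := c246_1_1; have q6 := c257_1_1; have q7 := c271_1_1; have q8 := c278_1_1; have q9 := c282_4_0; have q10 := c283_5_0; clear C; omega)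
                          · first | linarith only [C.f11_0, C.f11_1, C.f13_3, C.f22_4, C.f23_1, C.f33_0, C.f33_4, C.o1, c258_3_0, c273_0_1, c274_1_1, c276_4_0, c277_1_1, s2] | (have q0 := C.f11_0; have q1 := C.f11_1; have q2 := C.f13_3; have q3 := C.f22_4; have q4 := C.f23_1; have q5 := C.f33_0; have q6 := C.f33_4; have q7 := C.o1; have q8 := c258_3_0; have q9 := c273_0_1; have q10 := c274_1_1; have q11 := c276_4_0; have q12 := c277_1_1; have q13 := s2; clear C; omega)
                        · first | linarith only [C.f11_0, C.f11_1, C.f11_2, c1_1_1, c246_1_1, c275_1_1, c276_5_0] | (have q0 := C.f11_0; have q1 := C.f11_1; have q2 := C.f11_2; have q3 := c1_1_1; have q4 := c246_1_1; have q5 := c275_1_1; have q6 := c276_5_0; clear C; omega)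
                    · first | linarith only [C.f13_4, C.f22_4, C.f23_5, C.f33_4, C.o1, C.o2, c274_2_1, s2] | (have q0 := C.f13_4; have q1 := C.f22_4; have q2 := C.f23_5; have q3 := C.f33_4; have q4 := C.o1; have q5 := C.o2; have q6 := c274_2_1; have q7 := s2; clear C; omega)
                  · rcases c0_13_22_33_k3_k_f23_7 C with ⟨c284_0_0, c284_0_1⟩ | ⟨c284_1_0, c284_1_1⟩ | ⟨c284_2_0, c284_2_1⟩
                    · first | linarith only [C.f23_5, c1_1_1, c246_1_0, c273_1_1, c284_0_1] | (have q0 := C.f23_5; have q1 := c1_1_1; have q2 := c246_1_0; have q3 := c273_1_1; have q4 := c284_0_1; clear C; omega)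
                    · rcases c0_13_22_33_k3_k_f23_10 C with ⟨c285_0_0, c285_0_1⟩ | ⟨c285_1_0, c285_1_1⟩
                      · first | linarith only [C.f23_9, C.o1, c246_1_1, c284_1_1, c285_0_1] | (have q0 := C.f23_9; have q1 := C.o1; have q2 := c246_1_1; have q3 := c284_1_1; have q4 := c285_0_1; clear C; omega)
                      · rcases c0_13_22_33_k3_k_f33_2 C with ⟨c287_0_0, c287_0_1⟩ | ⟨c287_1_0, c287_1_1⟩
                        · rcases c0_13_22_33_k3_k_p11_33B C with c288_0_0 | c288_1_0 | c288_2_0 | c288_3_0 | c288_4_0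
                          · first | linarith only [c1_1_0, c288_0_0] | (have q0 := c1_1_0; have q1 := c288_0_0; clear C; omega)
                          · first | linarith only [c288_1_0, e3] | (have q0 := c288_1_0; have q1 := e3; clear C; omega)
                          · first | linarith only [C.a1, C.f11_0, C.o0, c287_0_1, c288_2_0] | (have q0 := C.a1; have q1 := C.f11_0; have q2 := C.o0; have q3 := c287_0_1; have q4 := c288_2_0; clear C; omega)
                          · first | linarith only [C.f11_0, C.f11_1, C.f13_3, C.f22_4, C.o1, c258_3_0, c288_3_0, s2] | (have q0 := C.f11_0; have q1 := C.f11_1; have q2 := C.f13_3; have q3 := C.f22_4; have q4 := C.o1; have q5 := c258_3_0; have q6 := c288_3_0; have q7 := s2; clear C; omega)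
                          · rcases c0_13_22_33_k3_k_f33_8 C with ⟨c289_0_0, c289_0_1⟩ | ⟨c289_1_0, c289_1_1⟩
                            · first | linarith only [C.f11_0, C.f11_1, C.f11_2, C.f13_3, C.f22_4, C.o1, c246_1_1, c258_3_0, c288_4_0, c289_0_1, s2] | (have q0 := C.f11_0; have q1 := C.f11_1; have q2 := C.f11_2; have q3 := C.f13_3; have q4 := C.f22_4; have q5 := C.o1; have q6 := c246_1_1; have q7 := c258_3_0; have q8 := c288_4_0; have q9 := c289_0_1; have q10 := s2; clear C; omega)
                            · rcases c0_13_22_33_k3_k_p11_33A C with c290_0_0 | c290_1_0 | c290_2_0 | c290_3_0 | c290_4_0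
                              · first | linarith only [c1_1_0, c290_0_0] | (have q0 := c1_1_0; have q1 := c290_0_0; clear C; omega)
                              · first | linarith only [c290_1_0, e3] | (have q0 := c290_1_0; have q1 := e3; clear C; omega)
                              · rcases c0_13_22_33_k3_k_p11_23B C with c292_0_0 | c292_1_0 | c292_2_0 | c292_3_0 | c292_4_0 | c292_5_0
                                · first | linarith only [c1_1_0, c292_0_0] | (have q0 := c1_1_0; have q1 := c292_0_0; clear C; omega)
                                · first | linarith only [C.f11_0, C.f13_0, C.f22_1, C.o1, c1_1_0, c290_2_0, c292_1_0, s1] | (have q0 := C.f11_0; have q1 := C.f13_0; have q2 := C.f22_1; have q3 := C.o1; have q4 := c1_1_0; have q5 := c290_2_0; have q6 := c292_1_0; have q7 := s1; clear C; omega)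
                                · first | linarith only [c292_2_0, e1] | (have q0 := c292_2_0; have q1 := e1; clear C; omega)
                                · first | linarith only [C.f11_0, C.f13_0, C.f22_1, C.o1, c273_1_1, c290_2_0, c292_3_0, s1] | (have q0 := C.f11_0; have q1 := C.f13_0; have q2 := C.f22_1; have q3 := C.o1; have q4 := c273_1_1; have q5 := c290_2_0; have q6 := c292_3_0; have q7 := s1; clear C; omega)
                                · rcases c0_13_22_33_k3_k_p13_22A C with c294_0_0 | c294_1_0 | c294_2_0 | c294_3_0 | c294_4_0 | c294_5_0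
                                  · first | linarith only [c294_0_0, e0] | (have q0 := c294_0_0; have q1 := e0; clear C; omega)
                                  · first | linarith only [c294_1_0, e1] | (have q0 := c294_1_0; have q1 := e1; clear C; omega)
                                  · first | linarith only [c294_2_0, e2] | (have q0 := c294_2_0; have q1 := e2; clear C; omega)
                                  · rcases c0_13_22_33_k3_k_p13_33A C with c296_0_0 | c296_1_0 | c296_2_0 | c296_3_0 | c296_4_0 | c296_5_0
                                    · first | linarith only [c296_0_0, e0] | (have q0 := c296_0_0; have q1 := e0; clear C; omega)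
                                    · first | linarith only [c296_1_0, e1] | (have q0 := c296_1_0; have q1 := e1; clear C; omega)
                                    · first | linarith only [c296_2_0, e3] | (have q0 := c296_2_0; have q1 := e3; clear C; omega)
                                    · first | linarith only [C.f22_0, c0_0_1, c287_0_1, c296_3_0, s1] | (have q0 := C.f22_0; have q1 := c0_0_1; have q2 := c287_0_1; have q3 := c296_3_0; have q4 := s1; clear C; omega)
                                    · first | linarith only [C.a2, C.f22_4, c0_0_1, c259_1_1, c294_3_0, c296_4_0, s2] | (have q0 := C.a2; have q1 := C.f22_4; have q2 := c0_0_1; have q3 := c259_1_1; have q4 := c294_3_0; have q5 := c296_4_0; have q6 := s2; clear C; omega)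
                                    · rcases c0_13_22_33_k3_k_p22_33A C with c299_0_0 | c299_1_0 | c299_2_0 | c299_3_0 | c299_4_0
                                      · first | linarith only [c299_0_0, e2] | (have q0 := c299_0_0; have q1 := e2; clear C; omega)
                                      · first | linarith only [c299_1_0, e3] | (have q0 := c299_1_0; have q1 := e3; clear C; omega)
                                      · first | linarith only [C.f13_0, c299_2_0, s1] | (have q0 := C.f13_0; have q1 := c299_2_0; have q2 := s1; clear C; omega)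
                                      · rcases c0_13_22_33_k3_k_f33_5 C with ⟨c300_0_0, c300_0_1⟩ | ⟨c300_1_0, c300_1_1⟩
                                        · first | linarith only [C.a1, C.f11_0, C.f11_1, C.f11_2, C.f13_0, C.f13_3, C.f22_6, c257_1_1, c258_3_0, c287_0_1, c288_4_0, c289_1_1, c296_5_0, c299_3_0, c300_0_1, s2, s3] | (have q0 := C.a1; have q1 := C.f11_0; have q2 := C.f11_1; have q3 := C.f11_2; have q4 := C.f13_0; have q5 := C.f13_3; have q6 := C.f22_6; have q7 := c257_1_1; have q8 := c258_3_0; have q9 := c287_0_1; have q10 := c288_4_0; have q11 := c289_1_1; have q12 := c296_5_0; have q13 := c299_3_0; have q14 := c300_0_1; have q15 := s2; have q16 := s3; clear C; omega)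
                                        · rcases c0_13_22_33_k3_k_tmzp C with c301_0_0 | c301_1_0 | c301_2_0 | c301_3_0 | c301_4_0 | c301_5_0
                                          · first | linarith only [C.f13_0, C.f22_0, C.f33_0, c301_0_0, s1] | (have q0 := C.f13_0; have q1 := C.f22_0; have q2 := C.f33_0; have q3 := c301_0_0; have q4 := s1; clear C; omega)
                                          · first | linarith only [C.f13_0, C.f22_1, C.f33_1, c271_1_1, c299_3_0, c300_1_1, c301_1_0, s1] | (have q0 := C.f13_0; have q1 := C.f22_1; have q2 := C.f33_1; have q3 := c271_1_1; have q4 := c299_3_0; have q5 := c300_1_1; have q6 := c301_1_0; have q7 := s1; clear C; omega)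
                                          · first | linarith only [C.f13_4, C.f22_4, C.f33_4, C.o1, c257_1_1, c289_1_1, c296_5_0, c301_2_0, s2] | (have q0 := C.f13_4; have q1 := C.f22_4; have q2 := C.f33_4; have q3 := C.o1; have q4 := c257_1_1; have q5 := c289_1_1; have q6 := c296_5_0; have q7 := c301_2_0; have q8 := s2; clear C; omega)
                                          · first | linarith only [c1_1_0, c301_3_0] | (have q0 := c1_1_0; have q1 := c301_3_0; clear C; omega)
                                          · first | linarith only [c1_1_1, c301_4_0] | (have q0 := c1_1_1; have q1 := c301_4_0; clear C; omega)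
                                          · first | linarith only [c246_1_1, c301_5_0] | (have q0 := c246_1_1; have q1 := c301_5_0; clear C; omega)
                                      · first | linarith only [c289_1_1, c296_5_0, c299_4_0, s3] | (have q0 := c289_1_1; have q1 := c296_5_0; have q2 := c299_4_0; have q3 := s3; clear C; omega)
                                  · first | linarith only [C.f11_0, C.f11_1, C.o0, c0_0_1, c1_1_1, c256_0_1, c271_1_1, c284_1_1, c292_4_0, c294_4_0] | (have q0 := C.f11_0; have q1 := C.f11_1; have q2 := C.o0; have q3 := c0_0_1; have q4 := c1_1_1; have q5 := c256_0_1; have q6 := c271_1_1; have q7 := c284_1_1; have q8 := c292_4_0; have q9 := c294_4_0; clear C; omega)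
                                  · first | linarith only [C.f11_0, C.f11_1, C.f11_2, C.f22_6, c1_1_1, c246_1_1, c257_1_1, c271_1_1, c288_4_0, c289_1_1, c294_5_0] | (have q0 := C.f11_0; have q1 := C.f11_1; have q2 := C.f11_2; have q3 := C.f22_6; have q4 := c1_1_1; have q5 := c246_1_1; have q6 := c257_1_1; have q7 := c271_1_1; have q8 := c288_4_0; have q9 := c289_1_1; have q10 := c294_5_0; clear C; omega)
                                · first | linarith only [C.f11_0, C.f11_1, C.f11_2, c1_1_1, c246_1_1, c285_1_1, c292_5_0] | (have q0 := C.f11_0; have q1 := C.f11_1; have q2 := C.f11_2; have q3 := c1_1_1; have q4 := c246_1_1; have q5 := c285_1_1; have q6 := c292_5_0; clear C; omega)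
                              · first | linarith only [C.f11_0, C.f11_1, C.f13_3, C.f22_4, C.o1, c258_3_0, c290_3_0, s2] | (have q0 := C.f11_0; have q1 := C.f11_1; have q2 := C.f13_3; have q3 := C.f22_4; have q4 := C.o1; have q5 := c258_3_0; have q6 := c290_3_0; have q7 := s2; clear C; omega)
                              · first | linarith only [C.f11_0, C.f11_1, C.f11_2, C.f13_7, C.f22_4, C.f22_6, c1_1_1, c246_1_1, c289_1_1, c290_4_0, s3] | (have q0 := C.f11_0; have q1 := C.f11_1; have q2 := C.f11_2; have q3 := C.f13_7; have q4 := C.f22_4; have q5 := C.f22_6; have q6 := c1_1_1; have q7 := c246_1_1; have q8 := c289_1_1; have q9 := c290_4_0; have q10 := s3; clear C; omega)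
                        · rcases c0_13_22_33_k3_k_f33_5 C with ⟨c302_0_0, c302_0_1⟩ | ⟨c302_1_0, c302_1_1⟩
                          · first | linarith only [C.f33_4, c1_1_1, c246_1_0, c287_1_1, c302_0_1] | (have q0 := C.f33_4; have q1 := c1_1_1; have q2 := c246_1_0; have q3 := c287_1_1; have q4 := c302_0_1; clear C; omega)
                          · rcases c0_13_22_33_k3_k_f33_8 C with ⟨c303_0_0, c303_0_1⟩ | ⟨c303_1_0, c303_1_1⟩
                            · first | linarith only [C.f13_4, C.f13_7, C.f22_4, C.f22_6, C.f23_5, C.f23_8, C.f33_7, C.o1, c285_1_1, c302_1_1, c303_0_1, s2, s3] | (have q0 := C.f13_4; have q1 := C.f13_7; have q2 := C.f22_4; have q3 := C.f22_6; have q4 := C.f23_5; have q5 := C.f23_8; have q6 := C.f33_7; have q7 := C.o1; have q8 := c285_1_1; have q9 := c302_1_1; have q10 := c303_0_1; have q11 := s2; have q12 := s3; clear C; omega)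
                            · rcases c0_13_22_33_k3_k_p11_33A C with c304_0_0 | c304_1_0 | c304_2_0 | c304_3_0 | c304_4_0
                              · first | linarith only [c1_1_0, c304_0_0] | (have q0 := c1_1_0; have q1 := c304_0_0; clear C; omega)
                              · first | linarith only [c304_1_0, e3] | (have q0 := c304_1_0; have q1 := e3; clear C; omega)
                              · rcases c0_13_22_33_k3_k_p11_22B C with c306_0_0 | c306_1_0 | c306_2_0 | c306_3_0 | c306_4_0
                                · first | linarith only [c1_1_0, c306_0_0] | (have q0 := c1_1_0; have q1 := c306_0_0; clear C; omega)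
                                · first | linarith only [c306_1_0, e2] | (have q0 := c306_1_0; have q1 := e2; clear C; omega)
                                · first | linarith only [C.f11_0, C.f13_0, c304_2_0, c306_2_0, s1] | (have q0 := C.f11_0; have q1 := C.f13_0; have q2 := c304_2_0; have q3 := c306_2_0; have q4 := s1; clear C; omega)
                                · rcases c0_13_22_33_k3_k_tmzp C with c315_0_0 | c315_1_0 | c315_2_0 | c315_3_0 | c315_4_0 | c315_5_0
                                  · first | linarith only [C.f13_0, C.f22_0, C.f33_0, c315_0_0, s1] | (have q0 := C.f13_0; have q1 := C.f22_0; have q2 := C.f33_0; have q3 := c315_0_0; have q4 := s1; clear C; omega)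
                                  · first | linarith only [C.f11_0, C.f22_1, C.o1, c258_3_0, c304_2_0, c315_1_0, s1] | (have q0 := C.f11_0; have q1 := C.f22_1; have q2 := C.o1; have q3 := c258_3_0; have q4 := c304_2_0; have q5 := c315_1_0; have q6 := s1; clear C; omega)
                                  · first | linarith only [C.f11_0, C.f11_1, C.f13_3, C.f33_4, C.o1, c258_3_0, c306_3_0, c315_2_0, s2] | (have q0 := C.f11_0; have q1 := C.f11_1; have q2 := C.f13_3; have q3 := C.f33_4; have q4 := C.o1; have q5 := c258_3_0; have q6 := c306_3_0; have q7 := c315_2_0; have q8 := s2; clear C; omega)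
                                  · first | linarith only [c1_1_0, c315_3_0] | (have q0 := c1_1_0; have q1 := c315_3_0; clear C; omega)
                                  · first | linarith only [c1_1_1, c315_4_0] | (have q0 := c1_1_1; have q1 := c315_4_0; clear C; omega)
                                  · first | linarith only [c246_1_1, c315_5_0] | (have q0 := c246_1_1; have q1 := c315_5_0; clear C; omega)
                                · first | linarith only [C.f11_0, C.f11_1, C.f11_2, C.f22_6, c1_1_1, c246_1_1, c271_1_1, c306_4_0] | (have q0 := C.f11_0; have q1 := C.f11_1; have q2 := C.f11_2; have q3 := C.f22_6; have q4 := c1_1_1; have q5 := c246_1_1; have q6 := c271_1_1; have q7 := c306_4_0; clear C; omega)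
                              · first | linarith only [C.f11_0, C.f11_1, C.f13_3, C.f22_4, C.o1, c258_3_0, c304_3_0, s2] | (have q0 := C.f11_0; have q1 := C.f11_1; have q2 := C.f13_3; have q3 := C.f22_4; have q4 := C.o1; have q5 := c258_3_0; have q6 := c304_3_0; have q7 := s2; clear C; omega)
                              · first | linarith only [C.f11_0, C.f11_1, C.f11_2, C.o2, c1_1_1, c246_1_1, c303_1_1, c304_4_0] | (have q0 := C.f11_0; have q1 := C.f11_1; have q2 := C.f11_2; have q3 := C.o2; have q4 := c1_1_1; have q5 := c246_1_1; have q6 := c303_1_1; have q7 := c304_4_0; clear C; omega)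
                    · first | linarith only [C.a4, C.f23_5, C.o2, c284_2_1] | (have q0 := C.a4; have q1 := C.f23_5; have q2 := C.o2; have q3 := c284_2_1; clear C; omega)
                  · first | linarith only [C.f13_4, C.f22_4, C.f23_1, C.f33_4, C.o1, C.o2, c273_2_1, s2] | (have q0 := C.f13_4; have q1 := C.f22_4; have q2 := C.f23_1; have q3 := C.f33_4; have q4 := C.o1; have q5 := C.o2; have q6 := c273_2_1; have q7 := s2; clear C; omega)
            · first | linarith only [C.f11_0, C.f11_1, C.o0, c0_0_1, c1_1_1, c256_0_1, c258_4_0] | (have q0 := C.f11_0; have q1 := C.f11_1; have q2 := C.o0; have q3 := c0_0_1; have q4 := c1_1_1; have q5 := c256_0_1; have q6 := c258_4_0; clear C; omega)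
            · first | linarith only [C.f11_0, C.f11_1, C.f11_2, c1_1_1, c246_1_1, c257_1_1, c258_5_0] | (have q0 := C.f11_0; have q1 := C.f11_1; have q2 := C.f11_2; have q3 := c1_1_1; have q4 := c246_1_1; have q5 := c257_1_1; have q6 := c258_5_0; clear C; omega)
        · rcases c0_13_22_33_k3_k_f13_8 C with ⟨c316_0_0, c316_0_1⟩ | ⟨c316_1_0, c316_1_1⟩
          · first | linarith only [C.f13_7, C.f22_4, C.f33_4, C.o1, C.o2, c246_1_1, c256_1_1, c316_0_1, s2] | (have q0 := C.f13_7; have q1 := C.f22_4; have q2 := C.f33_4; have q3 := C.o1; have q4 := C.o2; have q5 := c246_1_1; have q6 := c256_1_1; have q7 := c316_0_1; have q8 := s2; clear C; omega)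
          · rcases c0_13_22_33_k3_k_p11_13B C with c317_0_0 | c317_1_0 | c317_2_0 | c317_3_0 | c317_4_0 | c317_5_0
            · first | linarith only [c1_1_0, c317_0_0] | (have q0 := c1_1_0; have q1 := c317_0_0; clear C; omega)
            · first | linarith only [c317_1_0, e0] | (have q0 := c317_1_0; have q1 := e0; clear C; omega)
            · first | linarith only [c317_2_0, e1] | (have q0 := c317_2_0; have q1 := e1; clear C; omega)
            · rcases c0_13_22_33_k3_k_p11_33A C with c319_0_0 | c319_1_0 | c319_2_0 | c319_3_0 | c319_4_0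
              · first | linarith only [c1_1_0, c319_0_0] | (have q0 := c1_1_0; have q1 := c319_0_0; clear C; omega)
              · first | linarith only [c319_1_0, e3] | (have q0 := c319_1_0; have q1 := e3; clear C; omega)
              · rcases c0_13_22_33_k3_k_f22_5 C with ⟨c320_0_0, c320_0_1⟩ | ⟨c320_1_0, c320_1_1⟩
                · first | linarith only [C.f11_0, C.f13_0, C.f13_3, C.f22_4, C.f33_4, C.o1, C.o2, c256_1_1, c317_3_0, c319_2_0, c320_0_1, s1, s2] | (have q0 := C.f11_0; have q1 := C.f13_0; have q2 := C.f13_3; have q3 := C.f22_4; have q4 := C.f33_4; have q5 := C.o1; have q6 := C.o2; have q7 := c256_1_1; have q8 := c317_3_0; have q9 := c319_2_0; have q10 := c320_0_1; have q11 := s1; have q12 := s2; clear C; omega)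
                · rcases c0_13_22_33_k3_k_p11_22B C with c321_0_0 | c321_1_0 | c321_2_0 | c321_3_0 | c321_4_0
                  · first | linarith only [c1_1_0, c321_0_0] | (have q0 := c1_1_0; have q1 := c321_0_0; clear C; omega)
                  · first | linarith only [c321_1_0, e2] | (have q0 := c321_1_0; have q1 := e2; clear C; omega)
                  · first | linarith only [C.f11_0, C.f13_0, c319_2_0, c321_2_0, s1] | (have q0 := C.f11_0; have q1 := C.f13_0; have q2 := c319_2_0; have q3 := c321_2_0; have q4 := s1; clear C; omega)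
                  · rcases c0_13_22_33_k3_k_f33_8 C with ⟨c322_0_0, c322_0_1⟩ | ⟨c322_1_0, c322_1_1⟩
                    · first | linarith only [C.f11_0, C.f11_1, C.f13_3, C.f33_7, C.o1, C.o2, c246_1_1, c317_3_0, c321_3_0, c322_0_1, s2] | (have q0 := C.f11_0; have q1 := C.f11_1; have q2 := C.f13_3; have q3 := C.f33_7; have q4 := C.o1; have q5 := C.o2; have q6 := c246_1_1; have q7 := c317_3_0; have q8 := c321_3_0; have q9 := c322_0_1; have q10 := s2; clear C; omega)
                    · rcases c0_13_22_33_k3_k_p13_22A C with c323_0_0 | c323_1_0 | c323_2_0 | c323_3_0 | c323_4_0 | c323_5_0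
                      · first | linarith only [c323_0_0, e0] | (have q0 := c323_0_0; have q1 := e0; clear C; omega)
                      · first | linarith only [c323_1_0, e1] | (have q0 := c323_1_0; have q1 := e1; clear C; omega)
                      · first | linarith only [c323_2_0, e2] | (have q0 := c323_2_0; have q1 := e2; clear C; omega)
                      · rcases c0_13_22_33_k3_k_p11_33B C with c330_0_0 | c330_1_0 | c330_2_0 | c330_3_0 | c330_4_0
                        · first | linarith only [c1_1_0, c330_0_0] | (have q0 := c1_1_0; have q1 := c330_0_0; clear C; omega)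
                        · first | linarith only [c330_1_0, e3] | (have q0 := c330_1_0; have q1 := e3; clear C; omega)
                        · first | linarith only [C.f11_0, C.o0, c323_3_0, c330_2_0, s1] | (have q0 := C.f11_0; have q1 := C.o0; have q2 := c323_3_0; have q3 := c330_2_0; have q4 := s1; clear C; omega)
                        · first | linarith only [C.f11_0, C.f11_1, C.f13_3, C.f22_4, C.o1, c317_3_0, c330_3_0, s2] | (have q0 := C.f11_0; have q1 := C.f11_1; have q2 := C.f13_3; have q3 := C.f22_4; have q4 := C.o1; have q5 := c317_3_0; have q6 := c330_3_0; have q7 := s2; clear C; omega)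
                        · rcases c0_13_22_33_k3_k_tmzp C with c338_0_0 | c338_1_0 | c338_2_0 | c338_3_0 | c338_4_0 | c338_5_0
                          · first | linarith only [C.f13_0, C.f22_0, C.f33_0, c338_0_0, s1] | (have q0 := C.f13_0; have q1 := C.f22_0; have q2 := C.f33_0; have q3 := c338_0_0; have q4 := s1; clear C; omega)
                          · first | linarith only [C.f11_0, C.f11_1, C.f11_2, C.f13_0, C.f13_3, C.f22_1, C.f33_1, C.o1, c246_1_1, c256_1_1, c317_3_0, c322_1_1, c330_4_0, c338_1_0, s1] | (have q0 := C.f11_0; have q1 := C.f11_1; have q2 := C.f11_2; have q3 := C.f13_0; have q4 := C.f13_3; have q5 := C.f22_1; have q6 := C.f33_1; have q7 := C.o1; have q8 := c246_1_1; have q9 := c256_1_1; have q10 := c317_3_0; have q11 := c322_1_1; have q12 := c330_4_0; have q13 := c338_1_0; have q14 := s1; clear C; omega)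
                          · first | linarith only [C.f11_0, C.f11_1, C.f13_3, C.f33_4, C.o1, c317_3_0, c321_3_0, c338_2_0, s2] | (have q0 := C.f11_0; have q1 := C.f11_1; have q2 := C.f13_3; have q3 := C.f33_4; have q4 := C.o1; have q5 := c317_3_0; have q6 := c321_3_0; have q7 := c338_2_0; have q8 := s2; clear C; omega)
                          · first | linarith only [c1_1_0, c338_3_0] | (have q0 := c1_1_0; have q1 := c338_3_0; clear C; omega)
                          · first | linarith only [c1_1_1, c338_4_0] | (have q0 := c1_1_1; have q1 := c338_4_0; clear C; omega)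
                          · first | linarith only [c246_1_1, c338_5_0] | (have q0 := c246_1_1; have q1 := c338_5_0; clear C; omega)
                      · first | linarith only [C.f11_0, C.f11_1, C.f13_3, C.f33_4, C.o2, c256_1_1, c317_3_0, c320_1_1, c321_3_0, c323_4_0, s2] | (have q0 := C.f11_0; have q1 := C.f11_1; have q2 := C.f13_3; have q3 := C.f33_4; have q4 := C.o2; have q5 := c256_1_1; have q6 := c317_3_0; have q7 := c320_1_1; have q8 := c321_3_0; have q9 := c323_4_0; have q10 := s2; clear C; omega)
                      · first | linarith only [C.f22_6, C.o2, c246_1_1, c316_1_1, c320_1_1, c323_5_0] | (have q0 := C.f22_6; have q1 := C.o2; have q2 := c246_1_1; have q3 := c316_1_1; have q4 := c320_1_1; have q5 := c323_5_0; clear C; omega)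
                  · first | linarith only [C.f11_0, C.f11_1, C.f11_2, C.f13_3, C.f22_6, C.f33_4, C.o1, C.o2, c246_1_1, c256_1_1, c317_3_0, c320_1_1, c321_4_0, s2] | (have q0 := C.f11_0; have q1 := C.f11_1; have q2 := C.f11_2; have q3 := C.f13_3; have q4 := C.f22_6; have q5 := C.f33_4; have q6 := C.o1; have q7 := C.o2; have q8 := c246_1_1; have q9 := c256_1_1; have q10 := c317_3_0; have q11 := c320_1_1; have q12 := c321_4_0; have q13 := s2; clear C; omega)
              · first | linarith only [C.f11_0, C.f11_1, C.f13_3, C.f22_4, C.o1, c317_3_0, c319_3_0, s2] | (have q0 := C.f11_0; have q1 := C.f11_1; have q2 := C.f13_3; have q3 := C.f22_4; have q4 := C.o1; have q5 := c317_3_0; have q6 := c319_3_0; have q7 := s2; clear C; omega)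
              · first | linarith only [C.a4, C.f11_0, C.f11_1, C.f11_2, C.f13_3, C.f13_7, C.f22_4, C.f22_6, C.o1, c256_1_1, c317_3_0, c319_4_0, s3] | (have q0 := C.a4; have q1 := C.f11_0; have q2 := C.f11_1; have q3 := C.f11_2; have q4 := C.f13_3; have q5 := C.f13_7; have q6 := C.f22_4; have q7 := C.f22_6; have q8 := C.o1; have q9 := c256_1_1; have q10 := c317_3_0; have q11 := c319_4_0; have q12 := s3; clear C; omega)
            · first | linarith only [C.f11_0, C.f11_1, C.f22_4, C.f33_4, C.o1, C.o2, c1_1_1, c256_1_1, c317_4_0, s2] | (have q0 := C.f11_0; have q1 := C.f11_1; have q2 := C.f22_4; have q3 := C.f33_4; have q4 := C.o1; have q5 := C.o2; have q6 := c1_1_1; have q7 := c256_1_1; have q8 := c317_4_0; have q9 := s2; clear C; omega)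
            · first | linarith only [C.f11_0, C.f11_1, C.f11_2, c1_1_1, c246_1_1, c316_1_1, c317_5_0] | (have q0 := C.f11_0; have q1 := C.f11_1; have q2 := C.f11_2; have q3 := c1_1_1; have q4 := c246_1_1; have q5 := c316_1_1; have q6 := c317_5_0; clear C; omega)
  · first | linarith only [C.a2, C.f13_0, C.f13_4, C.f22_4, C.f33_4, C.o1, C.o2, c0_1_1, s2] | (have q0 := C.a2; have q1 := C.f13_0; have q2 := C.f13_4; have q3 := C.f22_4; have q4 := C.f33_4; have q5 := C.o1; have q6 := C.o2; have q7 := c0_1_1; have q8 := s2; clear C; omega)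

end Pool.Agent.Helper24.TQ
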