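import Pool.Agent.Helper89.TQ.Ctx

set_option autoImplicit false
set_option linter.all false
set_option maxHeartbeats 4000000

namespace Pool.Agent.Helper24.TQ

open Pool.Agent.Helper89.TQ

theorem c0_13_23_33_k2_k_t12 {n1 n2 n3 A1 A2 A3 B1 B2 B3 m11_1 m11_2 m11_3 m13_1 m13_2 m13_3 m22_1 m22_2 m22_3 m23_1 m23_2 m23_3 m33_1 m33_2 m33_3 : ℤ} (C : Ctx0 n1 n2 n3 A1 A2 A3 B1 B2 B3 m11_1 m11_2 m11_3 m13_1 m13_2 m13_3 m22_1 m22_2 m22_3 m23_1 m23_2 m23_3 m33_1 m33_2 m33_3) :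
    ((-1) * A1 ≤ -1 ∧ (-1) * A1 + 1 * A2 + (-1) * n2 ≤ -1) ∨ ((-1) * B1 ≤ -1 ∧ (-1) * B1 + 1 * B2 + (-1) * n2 ≤ -1) := by
  have h := C.t12
  clear C
  omega

theorem c0_13_23_33_k2_k_t23 {n1 n2 n3 A1 A2 A3 B1 B2 B3 m11_1 m11_2 m11_3 m13_1 m13_2 m13_3 m22_1 m22_2 m22_3 m23_1 m23_2 m23_3 m33_1 m33_2 m33_3 : ℤ} (C : Ctx0 n1 n2 n3 A1 A2 A3 B1 B2 B3 m11_1 m11_2 m11_3 m13_1 m13_2 m13_3 m22_1 m22_2 m22_3 m23_1 m23_2 m23_3 m33_1 m33_2 m33_3) :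
    (1 * A1 + (-1) * A2 ≤ -1 ∧ (-1) * A2 + 1 * A3 + (-1) * n3 ≤ -1) ∨ (1 * B1 + (-1) * B2 ≤ -1 ∧ (-1) * B2 + 1 * B3 + (-1) * n3 ≤ -1) := by
  have h := C.t23
  clear C
  omega

theorem c0_13_23_33_k2_k_p13_33A {n1 n2 n3 A1 A2 A3 B1 B2 B3 m11_1 m11_2 m11_3 m13_1 m13_2 m13_3 m22_1 m22_2 m22_3 m23_1 m23_2 m23_3 m33_1 m33_2 m33_3 : ℤ} (C : Ctx0 n1 n2 n3 A1 A2 A3 B1 B2 B3 m11_1 m11_2 m11_3 m13_1 m13_2 m13_3 m22_1 m22_2 m22_3 m23_1 m23_2 m23_3 m33_1 m33_2 m33_3) :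
    (1 * A1 ≤ 0) ∨ (1 * B3 ≤ 0) ∨ (1 * A3 ≤ 0) ∨ ((-2) * A1 + 1 * m13_1 + 1 * m33_1 ≤ -1) ∨ ((-2) * A2 + 1 * m13_2 + 1 * m33_2 ≤ -1) ∨ ((-2) * A3 + 1 * m13_3 + 1 * m33_3 ≤ -1) := by
  have h := C.p13_33A
  clear C
  omega

theorem c0_13_23_33_k2_k_p23_33A {n1 n2 n3 A1 A2 A3 B1 B2 B3 m11_1 m11_2 m11_3 m13_1 m13_2 m13_3 m22_1 m22_2 m22_3 m23_1 m23_2 m23_3 m33_1 m33_2 m33_3 : ℤ} (C : Ctx0 n1 n2 n3 A1 A2 A3 B1 B2 B3 m11_1 m11_2 m11_3 m13_1 m13_2 m13_3 m22_1 m22_2 m22_3 m23_1 m23_2 m23_3 m33_1 m33_2 m33_3) :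
    (1 * A2 ≤ 0) ∨ (1 * B3 ≤ 0) ∨ (1 * A3 ≤ 0) ∨ ((-2) * A1 + 1 * m23_1 + 1 * m33_1 ≤ -1) ∨ ((-2) * A2 + 1 * m23_2 + 1 * m33_2 ≤ -1) ∨ ((-2) * A3 + 1 * m23_3 + 1 * m33_3 ≤ -1) := by
  have h := C.p23_33A
  clear C
  omega

theorem c0_13_23_33_k2_k_tzpm {n1 n2 n3 A1 A2 A3 B1 B2 B3 m11_1 m11_2 m11_3 m13_1 m13_2 m13_3 m22_1 m22_2 m22_3 m23_1 m23_2 m23_3 m33_1 m33_2 m33_3 : ℤ} (C : Ctx0 n1 n2 n3 A1 A2 A3 B1 B2 B3 m11_1 m11_2 m11_3 m13_1 m13_2 m13_3 m22_1 m22_2 m22_3 m23_1 m23_2 m23_3 m33_1 m33_2 m33_3) :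
    ((-1) * A1 + 1 * A2 ≤ 0) ∨ (1 * A2 + (-1) * A3 + 1 * n3 ≤ 1) ∨ (1 * B1 + (-1) * B2 + 1 * n2 ≤ 0) ∨ ((-1) * B2 + 1 * B3 ≤ 1) ∨ ((-1) * A2 + 1 * B2 ≤ -1 ∧ (-1) * A3 + 1 * B3 ≤ 1) := by
  have h := C.tzpm
  clear C
  omega

theorem c0_13_23_33_k2_k_tpmm {n1 n2 n3 A1 A2 A3 B1 B2 B3 m11_1 m11_2 m11_3 m13_1 m13_2 m13_3 m22_1 m22_2 m22_3 m23_1 m23_2 m23_3 m33_1 m33_2 m33_3 : ℤ} (C : Ctx0 n1 n2 n3 A1 A2 A3 B1 B2 B3 m11_1 m11_2 m11_3 m13_1 m13_2 m13_3 m22_1 m22_2 m22_3 m23_1 m23_2 m23_3 m33_1 m33_2 m33_3) :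
    (1 * A1 ≤ 0) ∨ (1 * A1 + (-1) * A2 + 1 * n2 ≤ 1) ∨ ((-1) * B1 + 1 * n1 ≤ 0) ∨ ((-1) * B1 + 1 * B2 ≤ 1) ∨ ((-1) * A3 + 1 * B3 ≤ 1) := by
  have h := C.tpmm
  clear C
  omega

theorem c0_13_23_33_k2_k_tpzm {n1 n2 n3 A1 A2 A3 B1 B2 B3 m11_1 m11_2 m11_3 m13_1 m13_2 m13_3 m22_1 m22_2 m22_3 m23_1 m23_2 m23_3 m33_1 m33_2 m33_3 : ℤ} (C : Ctx0 n1 n2 n3 A1 A2 A3 B1 B2 B3 m11_1 m11_2 m11_3 m13_1 m13_2 m13_3 m22_1 m22_2 m22_3 m23_1 m23_2 m23_3 m33_1 m33_2 m33_3) :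
    (1 * A1 ≤ 0) ∨ (1 * A1 + (-1) * A2 + 1 * n2 ≤ 0) ∨ (1 * A2 + (-1) * A3 + 1 * n3 ≤ 0) ∨ ((-1) * B1 + 1 * n1 ≤ 0) ∨ ((-1) * B1 + 1 * B2 ≤ 0) ∨ ((-1) * B2 + 1 * B3 ≤ 0) ∨ ((-1) * A3 + 1 * B3 ≤ 1) ∨ (1 * A1 + (-1) * B1 ≤ 1 ∧ 1 * A2 + (-1) * B2 ≤ 0) := by
  have h := C.tpzm
  clear C
  omega

theorem c0_13_23_33_k2 {n1 n2 n3 A1 A2 A3 B1 B2 B3 m11_1 m11_2 m11_3 m13_1 m13_2 m13_3 m22_1 m22_2 m22_3 m23_1 m23_2 m23_3 m33_1 m33_2 m33_3 : ℤ}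
    (C : Ctx0 n1 n2 n3 A1 A2 A3 B1 B2 B3 m11_1 m11_2 m11_3 m13_1 m13_2 m13_3 m22_1 m22_2 m22_3 m23_1 m23_2 m23_3 m33_1 m33_2 m33_3)
    (e0 : 0 < A1)
    (e1 : 0 < B3)
    (e2 : 0 < A2)
    (e3 : 0 < A3)
    (s1 : 2 * A1 + 1 * B1 ≤ m13_1 + m23_1 + m33_1)
    (s2 : 2 * A2 + 1 * B2 ≤ m13_2 + m23_2 + m33_2)
    (s3 : 2 * A3 + 1 * B3 ≤ m13_3 + m23_3 + m33_3) : False := by
  rcases c0_13_23_33_k2_k_t12 C with ⟨c1_0_0, c1_0_1⟩ | ⟨c1_1_0, c1_1_1⟩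
  · rcases c0_13_23_33_k2_k_t23 C with ⟨c2_0_0, c2_0_1⟩ | ⟨c2_1_0, c2_1_1⟩
    · rcases c0_13_23_33_k2_k_tzpm C with c3_0_0 | c3_1_0 | c3_2_0 | c3_3_0 | ⟨c3_4_0, c3_4_1⟩
      · linarith only [c2_0_0, c3_0_0]
      · linarith only [C.f13_7, C.f23_5, C.f23_8, C.f33_7, c3_1_0, s3]
      · rcases c0_13_23_33_k2_k_tpmm C with c5_0_0 | c5_1_0 | c5_2_0 | c5_3_0 | c5_4_0
        · linarith only [c5_0_0, e0]
        · rcases c0_13_23_33_k2_k_tpzm C with c10_0_0 | c10_1_0 | c10_2_0 | c10_3_0 | c10_4_0 | c10_5_0 | c10_6_0 | ⟨c10_7_0, c10_7_1⟩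
          · linarith only [c10_0_0, e0]
          · linarith only [c10_1_0, c1_0_1]
          · linarith only [c10_2_0, c2_0_1]
          · linarith only [C.a1, C.o0, c10_3_0]
          · linarith only [c10_4_0, c1_0_1, c2_0_0, c3_2_0]
          · linarith only [C.f13_0, C.f13_3, C.f13_7, C.f23_5, C.f23_9, C.f33_4, C.f33_7, c10_5_0, c5_1_0, s2, s3]
          · linarith only [C.f13_7, C.f23_9, C.f33_7, c10_6_0, s3]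
          · rcases c0_13_23_33_k2_k_p23_33A C with c14_0_0 | c14_1_0 | c14_2_0 | c14_3_0 | c14_4_0 | c14_5_0
            · linarith only [c14_0_0, e2]
            · linarith only [c14_1_0, e1]
            · linarith only [c14_2_0, e3]
            · linarith only [C.f13_0, c10_7_0, c14_3_0, s1]
            · linarith only [C.f13_0, C.f13_3, c10_7_0, c14_4_0, c3_2_0, s2]
            · linarith only [C.f13_7, c14_5_0, s3]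
        · linarith only [C.a1, C.o0, c5_2_0]
        · linarith only [c1_0_1, c2_0_0, c3_2_0, c5_3_0]
        · linarith only [C.f13_7, C.f23_9, C.f33_7, c5_4_0, s3]
      · linarith only [C.f13_4, C.f13_7, C.f23_5, C.f23_9, C.f33_4, C.f33_7, C.o1, c3_3_0, s2, s3]
      · linarith only [C.f13_7, C.f23_9, C.f33_7, c3_4_1, s3]
    · rcases c0_13_23_33_k2_k_tpzm C with c15_0_0 | c15_1_0 | c15_2_0 | c15_3_0 | c15_4_0 | c15_5_0 | c15_6_0 | ⟨c15_7_0, c15_7_1⟩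
      · linarith only [c15_0_0, e0]
      · linarith only [c15_1_0, c1_0_1]
      · linarith only [C.f13_7, C.f23_9, C.f33_7, C.o1, c15_2_0, c2_1_1, s3]
      · linarith only [C.a1, C.o0, c15_3_0]
      · linarith only [c15_4_0, c2_1_0]
      · linarith only [C.f13_4, C.f13_7, C.f23_5, C.f23_9, C.f33_4, C.f33_7, C.o1, c15_5_0, s2, s3]
      · linarith only [C.f13_7, C.f23_9, C.f33_7, c15_6_0, s3]
      · rcases c0_13_23_33_k2_k_p13_33A C with c16_0_0 | c16_1_0 | c16_2_0 | c16_3_0 | c16_4_0 | c16_5_0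
        · linarith only [c16_0_0, e0]
        · linarith only [c16_1_0, e1]
        · linarith only [c16_2_0, e3]
        · rcases c0_13_23_33_k2_k_p23_33A C with c19_0_0 | c19_1_0 | c19_2_0 | c19_3_0 | c19_4_0 | c19_5_0
          · linarith only [c19_0_0, e2]
          · linarith only [c19_1_0, e1]
          · linarith only [c19_2_0, e3]
          · linarith only [C.f13_0, c15_7_0, c19_3_0, s1]
          · rcases c0_13_23_33_k2_k_tzpm C with c26_0_0 | c26_1_0 | c26_2_0 | c26_3_0 | ⟨c26_4_0, c26_4_1⟩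
            · linarith only [C.f23_1, c15_7_0, c16_3_0, c26_0_0, s1]
            · linarith only [C.f13_7, C.f23_9, C.f33_7, C.o1, c26_1_0, c2_1_1, s3]
            · linarith only [C.f13_0, C.f13_3, c15_7_0, c19_4_0, c26_2_0, s2]
            · linarith only [C.f13_4, C.f13_7, C.f23_5, C.f23_9, C.f33_4, C.f33_7, C.o1, c26_3_0, s2, s3]
            · linarith only [c15_7_1, c26_4_0]
          · linarith only [C.f13_7, c19_5_0, s3]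
        · linarith only [C.f23_5, c15_7_1, c16_4_0, s2]
        · linarith only [C.f23_9, c16_5_0, s3]
  · rcases c0_13_23_33_k2_k_tzpm C with c27_0_0 | c27_1_0 | c27_2_0 | c27_3_0 | ⟨c27_4_0, c27_4_1⟩
    · rcases c0_13_23_33_k2_k_t23 C with ⟨c28_0_0, c28_0_1⟩ | ⟨c28_1_0, c28_1_1⟩
      · linarith only [c27_0_0, c28_0_0]
      · rcases c0_13_23_33_k2_k_tpmm C with c35_0_0 | c35_1_0 | c35_2_0 | c35_3_0 | c35_4_0
        · linarith only [c35_0_0, e0]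
        · linarith only [c1_1_1, c27_0_0, c28_1_0, c35_1_0]
        · linarith only [C.a1, C.o0, c35_2_0]
        · rcases c0_13_23_33_k2_k_tpzm C with c38_0_0 | c38_1_0 | c38_2_0 | c38_3_0 | c38_4_0 | c38_5_0 | c38_6_0 | ⟨c38_7_0, c38_7_1⟩
          · linarith only [c38_0_0, e0]
          · linarith only [c1_1_1, c27_0_0, c28_1_0, c38_1_0]
          · linarith only [C.a2, C.f13_7, C.f23_9, C.f33_7, C.o0, c28_1_1, c35_3_0, c38_2_0, s3]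
          · linarith only [C.f13_0, C.f23_1, C.f33_0, c27_0_0, c38_3_0, s1]
          · linarith only [c28_1_0, c38_4_0]
          · linarith only [C.f13_0, C.f13_7, C.f23_1, C.f23_9, C.f33_1, C.f33_7, c27_0_0, c35_3_0, c38_5_0, s1, s3]
          · linarith only [C.f13_7, C.f23_9, C.f33_7, c38_6_0, s3]
          · rcases c0_13_23_33_k2_k_p13_33A C with c48_0_0 | c48_1_0 | c48_2_0 | c48_3_0 | c48_4_0 | c48_5_0
            · linarith only [c48_0_0, e0]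
            · linarith only [c48_1_0, e1]
            · linarith only [c48_2_0, e3]
            · linarith only [C.f23_1, c27_0_0, c38_7_0, c48_3_0, s1]
            · linarith only [C.f23_5, c27_0_0, c28_1_0, c38_7_0, c48_4_0, s2]
            · linarith only [C.f23_9, c48_5_0, s3]
        · linarith only [C.f13_7, C.f23_9, C.f33_7, c35_4_0, s3]
    · linarith only [C.b5, C.f13_7, C.f23_9, C.f33_7, C.o1, c27_1_0, s3]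
    · linarith only [c1_1_1, c27_2_0]
    · linarith only [C.a4, C.f13_7, C.f23_9, C.f33_7, C.o1, c27_3_0, s3]
    · linarith only [C.f13_7, C.f23_9, C.f33_7, c27_4_1, s3]

end Pool.Agent.Helper24.TQ
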