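import Pool.Agent.Helper89.TQ.Ctx

set_option autoImplicit false
set_option linter.all false
set_option maxHeartbeats 4000000

namespace Pool.Agent.Helper24.TQ

open Pool.Agent.Helper89.TQ

theorem c0_22_23_33_k3_k_t12 {n1 n2 n3 A1 A2 A3 B1 B2 B3 m11_1 m11_2 m11_3 m13_1 m13_2 m13_3 m22_1 m22_2 m22_3 m23_1 m23_2 m23_3 m33_1 m33_2 m33_3 : ℤ} (C : Ctx0 n1 n2 n3 A1 A2 A3 B1 B2 B3 m11_1 m11_2 m11_3 m13_1 m13_2 m13_3 m22_1 m22_2 m22_3 m23_1 m23_2 m23_3 m33_1 m33_2 m33_3) :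
    ((-1) * A1 ≤ -1 ∧ (-1) * A1 + 1 * A2 + (-1) * n2 ≤ -1) ∨ ((-1) * B1 ≤ -1 ∧ (-1) * B1 + 1 * B2 + (-1) * n2 ≤ -1) := by
  have h := C.t12
  clear C
  omega

theorem c0_22_23_33_k3_k_t23 {n1 n2 n3 A1 A2 A3 B1 B2 B3 m11_1 m11_2 m11_3 m13_1 m13_2 m13_3 m22_1 m22_2 m22_3 m23_1 m23_2 m23_3 m33_1 m33_2 m33_3 : ℤ} (C : Ctx0 n1 n2 n3 A1 A2 A3 B1 B2 B3 m11_1 m11_2 m11_3 m13_1 m13_2 m13_3 m22_1 m22_2 m22_3 m23_1 m23_2 m23_3 m33_1 m33_2 m33_3) :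
    (1 * A1 + (-1) * A2 ≤ -1 ∧ (-1) * A2 + 1 * A3 + (-1) * n3 ≤ -1) ∨ (1 * B1 + (-1) * B2 ≤ -1 ∧ (-1) * B2 + 1 * B3 + (-1) * n3 ≤ -1) := by
  have h := C.t23
  clear C
  omega

theorem c0_22_23_33_k3_k_f13_2 {n1 n2 n3 A1 A2 A3 B1 B2 B3 m11_1 m11_2 m11_3 m13_1 m13_2 m13_3 m22_1 m22_2 m22_3 m23_1 m23_2 m23_3 m33_1 m33_2 m33_3 : ℤ} (C : Ctx0 n1 n2 n3 A1 A2 A3 B1 B2 B3 m11_1 m11_2 m11_3 m13_1 m13_2 m13_3 m22_1 m22_2 m22_3 m23_1 m23_2 m23_3 m33_1 m33_2 m33_3) :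
    ((-1) * A1 + 1 * m13_1 ≤ -1 ∧ 1 * A1 + (-1) * m13_1 ≤ 1) ∨ ((-1) * B3 + 1 * m13_1 ≤ -1 ∧ 1 * B3 + (-1) * m13_1 ≤ 1) := by
  have h := C.f13_2
  clear C
  omega

theorem c0_22_23_33_k3_k_f13_5 {n1 n2 n3 A1 A2 A3 B1 B2 B3 m11_1 m11_2 m11_3 m13_1 m13_2 m13_3 m22_1 m22_2 m22_3 m23_1 m23_2 m23_3 m33_1 m33_2 m33_3 : ℤ} (C : Ctx0 n1 n2 n3 A1 A2 A3 B1 B2 B3 m11_1 m11_2 m11_3 m13_1 m13_2 m13_3 m22_1 m22_2 m22_3 m23_1 m23_2 m23_3 m33_1 m33_2 m33_3) :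
    ((-1) * m13_1 + 1 * m13_2 + (-1) * n2 ≤ 0 ∧ 1 * m13_1 + (-1) * m13_2 + 1 * n2 ≤ 0) ∨ ((-1) * B3 + 1 * m13_2 ≤ -1 ∧ 1 * B3 + (-1) * m13_2 ≤ 1) := by
  have h := C.f13_5
  clear C
  omega

theorem c0_22_23_33_k3_k_f13_8 {n1 n2 n3 A1 A2 A3 B1 B2 B3 m11_1 m11_2 m11_3 m13_1 m13_2 m13_3 m22_1 m22_2 m22_3 m23_1 m23_2 m23_3 m33_1 m33_2 m33_3 : ℤ} (C : Ctx0 n1 n2 n3 A1 A2 A3 B1 B2 B3 m11_1 m11_2 m11_3 m13_1 m13_2 m13_3 m22_1 m22_2 m22_3 m23_1 m23_2 m23_3 m33_1 m33_2 m33_3) :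
    ((-1) * m13_2 + 1 * m13_3 + (-1) * n3 ≤ 0 ∧ 1 * m13_2 + (-1) * m13_3 + 1 * n3 ≤ 0) ∨ ((-1) * B3 + 1 * m13_3 ≤ -1 ∧ 1 * B3 + (-1) * m13_3 ≤ 1) := by
  have h := C.f13_8
  clear C
  omega

theorem c0_22_23_33_k3_k_f22_2 {n1 n2 n3 A1 A2 A3 B1 B2 B3 m11_1 m11_2 m11_3 m13_1 m13_2 m13_3 m22_1 m22_2 m22_3 m23_1 m23_2 m23_3 m33_1 m33_2 m33_3 : ℤ} (C : Ctx0 n1 n2 n3 A1 A2 A3 B1 B2 B3 m11_1 m11_2 m11_3 m13_1 m13_2 m13_3 m22_1 m22_2 m22_3 m23_1 m23_2 m23_3 m33_1 m33_2 m33_3) :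
    (1 * m22_1 + (-1) * n1 ≤ 0 ∧ (-1) * m22_1 + 1 * n1 ≤ 0) ∨ ((-1) * B2 + 1 * m22_1 ≤ -1 ∧ 1 * B2 + (-1) * m22_1 ≤ 1) := by
  have h := C.f22_2
  clear C
  omega

theorem c0_22_23_33_k3_k_f22_5 {n1 n2 n3 A1 A2 A3 B1 B2 B3 m11_1 m11_2 m11_3 m13_1 m13_2 m13_3 m22_1 m22_2 m22_3 m23_1 m23_2 m23_3 m33_1 m33_2 m33_3 : ℤ} (C : Ctx0 n1 n2 n3 A1 A2 A3 B1 B2 B3 m11_1 m11_2 m11_3 m13_1 m13_2 m13_3 m22_1 m22_2 m22_3 m23_1 m23_2 m23_3 m33_1 m33_2 m33_3) :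
    ((-1) * m22_1 + 1 * m22_2 + (-1) * n2 ≤ 0 ∧ 1 * m22_1 + (-1) * m22_2 + 1 * n2 ≤ 0) ∨ ((-1) * B2 + 1 * m22_2 ≤ -1 ∧ 1 * B2 + (-1) * m22_2 ≤ 1) := by
  have h := C.f22_5
  clear C
  omega

theorem c0_22_23_33_k3_k_f23_7 {n1 n2 n3 A1 A2 A3 B1 B2 B3 m11_1 m11_2 m11_3 m13_1 m13_2 m13_3 m22_1 m22_2 m22_3 m23_1 m23_2 m23_3 m33_1 m33_2 m33_3 : ℤ} (C : Ctx0 n1 n2 n3 A1 A2 A3 B1 B2 B3 m11_1 m11_2 m11_3 m13_1 m13_2 m13_3 m22_1 m22_2 m22_3 m23_1 m23_2 m23_3 m33_1 m33_2 m33_3) :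
    ((-1) * m23_1 + 1 * m23_2 + (-1) * n2 ≤ 0 ∧ 1 * m23_1 + (-1) * m23_2 + 1 * n2 ≤ 0) ∨ ((-1) * A2 + 1 * m23_2 ≤ -1 ∧ 1 * A2 + (-1) * m23_2 ≤ 1) ∨ ((-1) * B3 + 1 * m23_2 ≤ -1 ∧ 1 * B3 + (-1) * m23_2 ≤ 1) := by
  have h := C.f23_7
  clear C
  omega

theorem c0_22_23_33_k3_k_f23_10 {n1 n2 n3 A1 A2 A3 B1 B2 B3 m11_1 m11_2 m11_3 m13_1 m13_2 m13_3 m22_1 m22_2 m22_3 m23_1 m23_2 m23_3 m33_1 m33_2 m33_3 : ℤ} (C : Ctx0 n1 n2 n3 A1 A2 A3 B1 B2 B3 m11_1 m11_2 m11_3 m13_1 m13_2 m13_3 m22_1 m22_2 m22_3 m23_1 m23_2 m23_3 m33_1 m33_2 m33_3) :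
    ((-1) * m23_2 + 1 * m23_3 + (-1) * n3 ≤ 0 ∧ 1 * m23_2 + (-1) * m23_3 + 1 * n3 ≤ 0) ∨ ((-1) * B3 + 1 * m23_3 ≤ -1 ∧ 1 * B3 + (-1) * m23_3 ≤ 1) := by
  have h := C.f23_10
  clear C
  omega

theorem c0_22_23_33_k3_k_f33_2 {n1 n2 n3 A1 A2 A3 B1 B2 B3 m11_1 m11_2 m11_3 m13_1 m13_2 m13_3 m22_1 m22_2 m22_3 m23_1 m23_2 m23_3 m33_1 m33_2 m33_3 : ℤ} (C : Ctx0 n1 n2 n3 A1 A2 A3 B1 B2 B3 m11_1 m11_2 m11_3 m13_1 m13_2 m13_3 m22_1 m22_2 m22_3 m23_1 m23_2 m23_3 m33_1 m33_2 m33_3) :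
    (1 * m33_1 + (-1) * n1 ≤ 0 ∧ (-1) * m33_1 + 1 * n1 ≤ 0) ∨ ((-1) * A3 + 1 * m33_1 ≤ -1 ∧ 1 * A3 + (-1) * m33_1 ≤ 1) := by
  have h := C.f33_2
  clear C
  omega

theorem c0_22_23_33_k3_k_f33_8 {n1 n2 n3 A1 A2 A3 B1 B2 B3 m11_1 m11_2 m11_3 m13_1 m13_2 m13_3 m22_1 m22_2 m22_3 m23_1 m23_2 m23_3 m33_1 m33_2 m33_3 : ℤ} (C : Ctx0 n1 n2 n3 A1 A2 A3 B1 B2 B3 m11_1 m11_2 m11_3 m13_1 m13_2 m13_3 m22_1 m22_2 m22_3 m23_1 m23_2 m23_3 m33_1 m33_2 m33_3) :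
    ((-1) * m33_2 + 1 * m33_3 + (-1) * n3 ≤ 0 ∧ 1 * m33_2 + (-1) * m33_3 + 1 * n3 ≤ 0) ∨ ((-1) * A3 + 1 * m33_3 ≤ -1 ∧ 1 * A3 + (-1) * m33_3 ≤ 1) := by
  have h := C.f33_8
  clear C
  omega

theorem c0_22_23_33_k3_k_p11_23B {n1 n2 n3 A1 A2 A3 B1 B2 B3 m11_1 m11_2 m11_3 m13_1 m13_2 m13_3 m22_1 m22_2 m22_3 m23_1 m23_2 m23_3 m33_1 m33_2 m33_3 : ℤ} (C : Ctx0 n1 n2 n3 A1 A2 A3 B1 B2 B3 m11_1 m11_2 m11_3 m13_1 m13_2 m13_3 m22_1 m22_2 m22_3 m23_1 m23_2 m23_3 m33_1 m33_2 m33_3) :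
    (1 * B1 ≤ 0) ∨ (1 * A2 ≤ 0) ∨ (1 * B3 ≤ 0) ∨ ((-2) * B1 + 1 * m11_1 + 1 * m23_1 ≤ -1) ∨ ((-2) * B2 + 1 * m11_2 + 1 * m23_2 ≤ -1) ∨ ((-2) * B3 + 1 * m11_3 + 1 * m23_3 ≤ -1) := by
  have h := C.p11_23B
  clear C
  omega

theorem c0_22_23_33_k3_k_p11_33A {n1 n2 n3 A1 A2 A3 B1 B2 B3 m11_1 m11_2 m11_3 m13_1 m13_2 m13_3 m22_1 m22_2 m22_3 m23_1 m23_2 m23_3 m33_1 m33_2 m33_3 : ℤ} (C : Ctx0 n1 n2 n3 A1 A2 A3 B1 B2 B3 m11_1 m11_2 m11_3 m13_1 m13_2 m13_3 m22_1 m22_2 m22_3 m23_1 m23_2 m23_3 m33_1 m33_2 m33_3) :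
    (1 * B1 ≤ 0) ∨ (1 * A3 ≤ 0) ∨ ((-2) * A1 + 1 * m11_1 + 1 * m33_1 ≤ -1) ∨ ((-2) * A2 + 1 * m11_2 + 1 * m33_2 ≤ -1) ∨ ((-2) * A3 + 1 * m11_3 + 1 * m33_3 ≤ -1) := by
  have h := C.p11_33A
  clear C
  omega

theorem c0_22_23_33_k3_k_p13_22A {n1 n2 n3 A1 A2 A3 B1 B2 B3 m11_1 m11_2 m11_3 m13_1 m13_2 m13_3 m22_1 m22_2 m22_3 m23_1 m23_2 m23_3 m33_1 m33_2 m33_3 : ℤ} (C : Ctx0 n1 n2 n3 A1 A2 A3 B1 B2 B3 m11_1 m11_2 m11_3 m13_1 m13_2 m13_3 m22_1 m22_2 m22_3 m23_1 m23_2 m23_3 m33_1 m33_2 m33_3) :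
    (1 * A1 ≤ 0) ∨ (1 * B3 ≤ 0) ∨ (1 * B2 ≤ 0) ∨ ((-2) * A1 + 1 * m13_1 + 1 * m22_1 ≤ -1) ∨ ((-2) * A2 + 1 * m13_2 + 1 * m22_2 ≤ -1) ∨ ((-2) * A3 + 1 * m13_3 + 1 * m22_3 ≤ -1) := by
  have h := C.p13_22A
  clear C
  omega

theorem c0_22_23_33_k3_k_p13_23A {n1 n2 n3 A1 A2 A3 B1 B2 B3 m11_1 m11_2 m11_3 m13_1 m13_2 m13_3 m22_1 m22_2 m22_3 m23_1 m23_2 m23_3 m33_1 m33_2 m33_3 : ℤ} (C : Ctx0 n1 n2 n3 A1 A2 A3 B1 B2 B3 m11_1 m11_2 m11_3 m13_1 m13_2 m13_3 m22_1 m22_2 m22_3 m23_1 m23_2 m23_3 m33_1 m33_2 m33_3) :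
    (1 * A1 ≤ 0) ∨ (1 * B3 ≤ 0) ∨ (1 * A2 ≤ 0) ∨ ((-2) * A1 + 1 * m13_1 + 1 * m23_1 ≤ -1) ∨ ((-2) * A2 + 1 * m13_2 + 1 * m23_2 ≤ -1) ∨ ((-2) * A3 + 1 * m13_3 + 1 * m23_3 ≤ -1) := by
  have h := C.p13_23A
  clear C
  omega

theorem c0_22_23_33_k3_k_p22_33A {n1 n2 n3 A1 A2 A3 B1 B2 B3 m11_1 m11_2 m11_3 m13_1 m13_2 m13_3 m22_1 m22_2 m22_3 m23_1 m23_2 m23_3 m33_1 m33_2 m33_3 : ℤ} (C : Ctx0 n1 n2 n3 A1 A2 A3 B1 B2 B3 m11_1 m11_2 m11_3 m13_1 m13_2 m13_3 m22_1 m22_2 m22_3 m23_1 m23_2 m23_3 m33_1 m33_2 m33_3) :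
    (1 * B2 ≤ 0) ∨ (1 * A3 ≤ 0) ∨ ((-2) * A1 + 1 * m22_1 + 1 * m33_1 ≤ -1) ∨ ((-2) * A2 + 1 * m22_2 + 1 * m33_2 ≤ -1) ∨ ((-2) * A3 + 1 * m22_3 + 1 * m33_3 ≤ -1) := by
  have h := C.p22_33A
  clear C
  omega

theorem c0_22_23_33_k3_k_p23_33A {n1 n2 n3 A1 A2 A3 B1 B2 B3 m11_1 m11_2 m11_3 m13_1 m13_2 m13_3 m22_1 m22_2 m22_3 m23_1 m23_2 m23_3 m33_1 m33_2 m33_3 : ℤ} (C : Ctx0 n1 n2 n3 A1 A2 A3 B1 B2 B3 m11_1 m11_2 m11_3 m13_1 m13_2 m13_3 m22_1 m22_2 m22_3 m23_1 m23_2 m23_3 m33_1 m33_2 m33_3) :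
    (1 * A2 ≤ 0) ∨ (1 * B3 ≤ 0) ∨ (1 * A3 ≤ 0) ∨ ((-2) * A1 + 1 * m23_1 + 1 * m33_1 ≤ -1) ∨ ((-2) * A2 + 1 * m23_2 + 1 * m33_2 ≤ -1) ∨ ((-2) * A3 + 1 * m23_3 + 1 * m33_3 ≤ -1) := by
  have h := C.p23_33A
  clear C
  omega

theorem c0_22_23_33_k3_k_tzmp {n1 n2 n3 A1 A2 A3 B1 B2 B3 m11_1 m11_2 m11_3 m13_1 m13_2 m13_3 m22_1 m22_2 m22_3 m23_1 m23_2 m23_3 m33_1 m33_2 m33_3 : ℤ} (C : Ctx0 n1 n2 n3 A1 A2 A3 B1 B2 B3 m11_1 m11_2 m11_3 m13_1 m13_2 m13_3 m22_1 m22_2 m22_3 m23_1 m23_2 m23_3 m33_1 m33_2 m33_3) :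
    (1 * A1 + (-1) * A2 + 1 * n2 ≤ 0) ∨ ((-1) * A2 + 1 * A3 ≤ 1) ∨ ((-1) * B1 + 1 * B2 ≤ 0) ∨ (1 * B2 + (-1) * B3 + 1 * n3 ≤ 1) := by
  have h := C.tzmp
  clear C
  omega

theorem c0_22_23_33_k3_k_tzpm {n1 n2 n3 A1 A2 A3 B1 B2 B3 m11_1 m11_2 m11_3 m13_1 m13_2 m13_3 m22_1 m22_2 m22_3 m23_1 m23_2 m23_3 m33_1 m33_2 m33_3 : ℤ} (C : Ctx0 n1 n2 n3 A1 A2 A3 B1 B2 B3 m11_1 m11_2 m11_3 m13_1 m13_2 m13_3 m22_1 m22_2 m22_3 m23_1 m23_2 m23_3 m33_1 m33_2 m33_3) :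
    ((-1) * A1 + 1 * A2 ≤ 0) ∨ (1 * A2 + (-1) * A3 + 1 * n3 ≤ 1) ∨ (1 * B1 + (-1) * B2 + 1 * n2 ≤ 0) ∨ ((-1) * B2 + 1 * B3 ≤ 1) ∨ ((-1) * A2 + 1 * B2 ≤ -1 ∧ (-1) * A3 + 1 * B3 ≤ 1) := by
  have h := C.tzpm
  clear C
  omega

theorem c0_22_23_33_k3_k_tpmz {n1 n2 n3 A1 A2 A3 B1 B2 B3 m11_1 m11_2 m11_3 m13_1 m13_2 m13_3 m22_1 m22_2 m22_3 m23_1 m23_2 m23_3 m33_1 m33_2 m33_3 : ℤ} (C : Ctx0 n1 n2 n3 A1 A2 A3 B1 B2 B3 m11_1 m11_2 m11_3 m13_1 m13_2 m13_3 m22_1 m22_2 m22_3 m23_1 m23_2 m23_3 m33_1 m33_2 m33_3) :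
    (1 * A1 ≤ 0) ∨ (1 * A1 + (-1) * A2 + 1 * n2 ≤ 1) ∨ ((-1) * A2 + 1 * A3 ≤ 0) ∨ ((-1) * B1 + 1 * n1 ≤ 0) ∨ ((-1) * B1 + 1 * B2 ≤ 1) ∨ (1 * B2 + (-1) * B3 + 1 * n3 ≤ 0) := by
  have h := C.tpmz
  clear C
  omega

theorem c0_22_23_33_k3 {n1 n2 n3 A1 A2 A3 B1 B2 B3 m11_1 m11_2 m11_3 m13_1 m13_2 m13_3 m22_1 m22_2 m22_3 m23_1 m23_2 m23_3 m33_1 m33_2 m33_3 : ℤ}
    (C : Ctx0 n1 n2 n3 A1 A2 A3 B1 B2 B3 m11_1 m11_2 m11_3 m13_1 m13_2 m13_3 m22_1 m22_2 m22_3 m23_1 m23_2 m23_3 m33_1 m33_2 m33_3)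
    (e0 : 0 < B2)
    (e1 : 0 < A2)
    (e2 : 0 < B3)
    (e3 : 0 < A3)
    (s1 : 3 * A1 + 0 * B1 ≤ m22_1 + m23_1 + m33_1)
    (s2 : 3 * A2 + 0 * B2 ≤ m22_2 + m23_2 + m33_2)
    (s3 : 3 * A3 + 0 * B3 ≤ m22_3 + m23_3 + m33_3) : False := by
  rcases c0_22_23_33_k3_k_f13_2 C with ⟨c0_0_0, c0_0_1⟩ | ⟨c0_1_0, c0_1_1⟩
  · rcases c0_22_23_33_k3_k_f33_8 C with ⟨c1_0_0, c1_0_1⟩ | ⟨c1_1_0, c1_1_1⟩
    · linarith only [C.b5, C.f22_4, C.f22_6, C.f23_5, C.f23_9, C.f33_7, C.o1, c1_0_1, s2, s3]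
    · rcases c0_22_23_33_k3_k_t12 C with ⟨c2_0_0, c2_0_1⟩ | ⟨c2_1_0, c2_1_1⟩
      · rcases c0_22_23_33_k3_k_t23 C with ⟨c3_0_0, c3_0_1⟩ | ⟨c3_1_0, c3_1_1⟩
        · rcases c0_22_23_33_k3_k_f13_5 C with ⟨c4_0_0, c4_0_1⟩ | ⟨c4_1_0, c4_1_1⟩
          · rcases c0_22_23_33_k3_k_f13_8 C with ⟨c5_0_0, c5_0_1⟩ | ⟨c5_1_0, c5_1_1⟩
            · linarith only [C.b5, C.f13_7, C.o1, c0_0_1, c2_0_1, c4_0_1, c5_0_1]
            · rcases c0_22_23_33_k3_k_f22_2 C with ⟨c6_0_0, c6_0_1⟩ | ⟨c6_1_0, c6_1_1⟩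
              · rcases c0_22_23_33_k3_k_f22_5 C with ⟨c7_0_0, c7_0_1⟩ | ⟨c7_1_0, c7_1_1⟩
                · linarith only [C.a1, C.f22_4, C.o1, c2_0_1, c6_0_1, c7_0_1]
                · rcases c0_22_23_33_k3_k_f33_2 C with ⟨c8_0_0, c8_0_1⟩ | ⟨c8_1_0, c8_1_1⟩
                  · rcases c0_22_23_33_k3_k_p22_33A C with c10_0_0 | c10_1_0 | c10_2_0 | c10_3_0 | c10_4_0
                    · linarith only [c10_0_0, e0]
                    · linarith only [c10_1_0, e3]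
                    · linarith only [C.a1, c10_2_0, c6_0_1, c8_0_1]
                    · linarith only [C.f23_5, c10_3_0, s2]
                    · linarith only [C.b5, C.f22_6, C.f23_9, c10_4_0, c1_1_1, c7_1_1, s3]
                  · linarith only [C.f22_1, C.f22_4, C.f23_5, C.f33_0, C.f33_4, C.o1, c6_0_1, c8_1_1, s2]
              · rcases c0_22_23_33_k3_k_f22_5 C with ⟨c11_0_0, c11_0_1⟩ | ⟨c11_1_0, c11_1_1⟩
                · linarith only [C.f22_4, c11_0_1, c2_0_1, c3_0_0, c6_1_1]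
                · rcases c0_22_23_33_k3_k_p22_33A C with c12_0_0 | c12_1_0 | c12_2_0 | c12_3_0 | c12_4_0
                  · linarith only [c12_0_0, e0]
                  · linarith only [c12_1_0, e3]
                  · rcases c0_22_23_33_k3_k_f23_7 C with ⟨c13_0_0, c13_0_1⟩ | ⟨c13_1_0, c13_1_1⟩ | ⟨c13_2_0, c13_2_1⟩
                    · linarith only [C.f22_4, C.f23_1, C.f23_5, C.f33_3, c12_2_0, c13_0_1, c6_1_1, s1, s2]
                    · rcases c0_22_23_33_k3_k_f33_2 C with ⟨c14_0_0, c14_0_1⟩ | ⟨c14_1_0, c14_1_1⟩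
                      · rcases c0_22_23_33_k3_k_f23_10 C with ⟨c15_0_0, c15_0_1⟩ | ⟨c15_1_0, c15_1_1⟩
                        · linarith only [C.b5, C.f23_0, C.f23_1, C.f23_9, c12_2_0, c13_1_1, c14_0_1, c15_0_1, c6_1_1, s1]
                        · rcases c0_22_23_33_k3_k_p13_23A C with c16_0_0 | c16_1_0 | c16_2_0 | c16_3_0 | c16_4_0 | c16_5_0
                          · linarith only [c16_0_0, c2_0_0]
                          · linarith only [c16_1_0, e2]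
                          · linarith only [c16_2_0, e1]
                          · linarith only [c0_0_1, c12_2_0, c16_3_0, s1]
                          · linarith only [C.f22_4, C.f23_1, C.f33_3, c0_0_1, c12_2_0, c16_4_0, c4_0_1, c6_1_1, s1, s2]
                          · linarith only [C.o2, c15_1_1, c16_5_0, c5_1_1]
                      · linarith only [C.f22_4, C.f23_1, C.f23_5, C.f33_4, c12_2_0, c14_1_1, c6_1_1, s1, s2]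
                    · linarith only [C.f22_4, C.f23_5, C.f33_4, C.o1, C.o2, c13_2_1, s2]
                  · linarith only [C.f23_5, c12_3_0, s2]
                  · linarith only [C.b5, C.f22_6, C.f23_9, c11_1_1, c12_4_0, c1_1_1, s3]
          · rcases c0_22_23_33_k3_k_f13_8 C with ⟨c17_0_0, c17_0_1⟩ | ⟨c17_1_0, c17_1_1⟩
            · linarith only [C.f13_7, C.f22_4, C.f22_6, C.f23_5, C.f23_8, C.f33_4, C.f33_7, C.o1, c17_0_1, c4_1_1, s2, s3]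
            · rcases c0_22_23_33_k3_k_p13_22A C with c18_0_0 | c18_1_0 | c18_2_0 | c18_3_0 | c18_4_0 | c18_5_0
              · linarith only [c18_0_0, c2_0_0]
              · linarith only [c18_1_0, e2]
              · linarith only [c18_2_0, e0]
              · rcases c0_22_23_33_k3_k_p23_33A C with c19_0_0 | c19_1_0 | c19_2_0 | c19_3_0 | c19_4_0 | c19_5_0
                · linarith only [c19_0_0, e1]
                · linarith only [c19_1_0, e2]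
                · linarith only [c19_2_0, e3]
                · linarith only [c0_0_1, c18_3_0, c19_3_0, s1]
                · linarith only [C.f22_4, C.o1, c19_4_0, s2]
                · rcases c0_22_23_33_k3_k_p22_33A C with c20_0_0 | c20_1_0 | c20_2_0 | c20_3_0 | c20_4_0
                  · linarith only [c20_0_0, e0]
                  · linarith only [c20_1_0, e3]
                  · rcases c0_22_23_33_k3_k_f22_2 C with ⟨c21_0_0, c21_0_1⟩ | ⟨c21_1_0, c21_1_1⟩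
                    · linarith only [C.f23_0, c0_0_1, c18_3_0, c20_2_0, c21_0_1, s1]
                    · rcases c0_22_23_33_k3_k_f23_7 C with ⟨c23_0_0, c23_0_1⟩ | ⟨c23_1_0, c23_1_1⟩ | ⟨c23_2_0, c23_2_1⟩
                      · linarith only [C.f13_3, C.f22_4, C.f23_1, C.f23_5, C.f33_4, C.o2, c18_3_0, c20_2_0, c21_1_1, c23_0_1, c4_1_1, s1, s2]
                      · rcases c0_22_23_33_k3_k_f23_10 C with ⟨c24_0_0, c24_0_1⟩ | ⟨c24_1_0, c24_1_1⟩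
                        · linarith only [C.f22_4, C.f22_6, C.f23_1, c0_0_1, c18_3_0, c19_5_0, c1_1_1, c20_2_0, c21_1_1, c23_1_1, c24_0_1, s1, s3]
                        · rcases c0_22_23_33_k3_k_f33_2 C with ⟨c25_0_0, c25_0_1⟩ | ⟨c25_1_0, c25_1_1⟩
                          · rcases c0_22_23_33_k3_k_p13_23A C with c27_0_0 | c27_1_0 | c27_2_0 | c27_3_0 | c27_4_0 | c27_5_0
                            · linarith only [c27_0_0, c2_0_0]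
                            · linarith only [c27_1_0, e2]
                            · linarith only [c27_2_0, e1]
                            · linarith only [c0_0_1, c20_2_0, c27_3_0, s1]
                            · linarith only [C.f22_4, C.f23_0, C.f23_1, C.f33_4, C.o2, c20_2_0, c21_1_1, c25_0_1, c27_4_0, c4_1_1, s1, s2]
                            · linarith only [C.o2, c17_1_1, c24_1_1, c27_5_0]
                          · linarith only [C.f22_4, C.f23_1, C.f23_5, C.f33_4, c20_2_0, c21_1_1, c25_1_1, s1, s2]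
                      · linarith only [C.f22_4, C.f23_1, C.f23_5, C.f33_4, C.o2, c0_0_1, c18_3_0, c20_2_0, c21_1_1, c23_2_1, s1, s2]
                  · linarith only [C.f23_5, c20_3_0, s2]
                  · linarith only [c19_5_0, c1_1_1, c20_4_0, s3]
              · linarith only [C.f23_5, C.f33_4, C.o2, c18_4_0, c4_1_1, s2]
              · linarith only [C.f23_9, C.f33_7, c17_1_1, c18_5_0, s3]
        · rcases c0_22_23_33_k3_k_tzmp C with c28_0_0 | c28_1_0 | c28_2_0 | c28_3_0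
          · linarith only [c28_0_0, c2_0_1]
          · linarith only [C.f22_4, C.f23_5, C.f33_4, C.o1, c28_1_0, s2]
          · linarith only [c28_2_0, c3_1_0]
          · rcases c0_22_23_33_k3_k_f13_5 C with ⟨c29_0_0, c29_0_1⟩ | ⟨c29_1_0, c29_1_1⟩
            · rcases c0_22_23_33_k3_k_f13_8 C with ⟨c30_0_0, c30_0_1⟩ | ⟨c30_1_0, c30_1_1⟩
              · linarith only [C.f13_7, C.o1, c0_0_1, c29_0_1, c2_0_1, c30_0_1, c3_1_1]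
              · rcases c0_22_23_33_k3_k_f22_2 C with ⟨c31_0_0, c31_0_1⟩ | ⟨c31_1_0, c31_1_1⟩
                · rcases c0_22_23_33_k3_k_f22_5 C with ⟨c32_0_0, c32_0_1⟩ | ⟨c32_1_0, c32_1_1⟩
                  · linarith only [C.f22_4, C.f23_5, C.f33_0, C.f33_3, C.o1, c31_0_1, c32_0_1, s2]
                  · rcases c0_22_23_33_k3_k_f33_2 C with ⟨c33_0_0, c33_0_1⟩ | ⟨c33_1_0, c33_1_1⟩
                    · rcases c0_22_23_33_k3_k_p22_33A C with c35_0_0 | c35_1_0 | c35_2_0 | c35_3_0 | c35_4_0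
                      · linarith only [c35_0_0, e0]
                      · linarith only [c35_1_0, e3]
                      · linarith only [C.a1, c31_0_1, c33_0_1, c35_2_0]
                      · linarith only [C.f23_5, c35_3_0, s2]
                      · linarith only [C.f22_6, C.o2, c1_1_1, c32_1_1, c35_4_0, c3_1_1]
                    · linarith only [C.f22_1, C.f22_4, C.f23_5, C.f33_0, C.f33_4, C.o1, c31_0_1, c33_1_1, s2]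
                · rcases c0_22_23_33_k3_k_f22_5 C with ⟨c36_0_0, c36_0_1⟩ | ⟨c36_1_0, c36_1_1⟩
                  · linarith only [C.a2, C.f22_4, c2_0_1, c31_1_1, c36_0_1]
                  · rcases c0_22_23_33_k3_k_p22_33A C with c37_0_0 | c37_1_0 | c37_2_0 | c37_3_0 | c37_4_0
                    · linarith only [c37_0_0, e0]
                    · linarith only [c37_1_0, e3]
                    · rcases c0_22_23_33_k3_k_f23_7 C with ⟨c38_0_0, c38_0_1⟩ | ⟨c38_1_0, c38_1_1⟩ | ⟨c38_2_0, c38_2_1⟩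
                      · linarith only [C.f22_4, C.f23_1, C.f23_5, C.f33_3, c31_1_1, c37_2_0, c38_0_1, s1, s2]
                      · rcases c0_22_23_33_k3_k_f23_10 C with ⟨c39_0_0, c39_0_1⟩ | ⟨c39_1_0, c39_1_1⟩
                        · linarith only [C.f23_9, C.o1, c38_1_1, c39_0_1, c3_1_1]
                        · rcases c0_22_23_33_k3_k_p13_23A C with c42_0_0 | c42_1_0 | c42_2_0 | c42_3_0 | c42_4_0 | c42_5_0
                          · linarith only [c2_0_0, c42_0_0]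
                          · linarith only [c42_1_0, e2]
                          · linarith only [c42_2_0, e1]
                          · linarith only [c0_0_1, c37_2_0, c42_3_0, s1]
                          · linarith only [C.f22_4, C.f23_1, C.f33_3, c0_0_1, c29_0_1, c31_1_1, c37_2_0, c42_4_0, s1, s2]
                          · linarith only [C.o2, c30_1_1, c39_1_1, c42_5_0]
                      · linarith only [C.f22_4, C.f23_5, C.f33_4, C.o1, C.o2, c38_2_1, s2]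
                    · linarith only [C.f23_5, c37_3_0, s2]
                    · linarith only [C.f22_6, C.o2, c1_1_1, c36_1_1, c37_4_0, c3_1_1]
            · rcases c0_22_23_33_k3_k_f13_8 C with ⟨c43_0_0, c43_0_1⟩ | ⟨c43_1_0, c43_1_1⟩
              · linarith only [C.f13_7, C.f22_4, C.f23_5, C.f33_4, C.o1, C.o2, c29_1_1, c3_1_1, c43_0_1, s2]
              · rcases c0_22_23_33_k3_k_p13_23A C with c45_0_0 | c45_1_0 | c45_2_0 | c45_3_0 | c45_4_0 | c45_5_0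
                · linarith only [c2_0_0, c45_0_0]
                · linarith only [c45_1_0, e2]
                · linarith only [c45_2_0, e1]
                · rcases c0_22_23_33_k3_k_p22_33A C with c48_0_0 | c48_1_0 | c48_2_0 | c48_3_0 | c48_4_0
                  · linarith only [c48_0_0, e0]
                  · linarith only [c48_1_0, e3]
                  · linarith only [c0_0_1, c45_3_0, c48_2_0, s1]
                  · linarith only [C.f23_5, c48_3_0, s2]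
                  · rcases c0_22_23_33_k3_k_f22_5 C with ⟨c49_0_0, c49_0_1⟩ | ⟨c49_1_0, c49_1_1⟩
                    · rcases c0_22_23_33_k3_k_f22_2 C with ⟨c50_0_0, c50_0_1⟩ | ⟨c50_1_0, c50_1_1⟩
                      · linarith only [C.f13_0, C.f13_3, C.f22_6, C.f23_5, C.f23_9, C.f33_0, C.f33_4, C.o1, c1_1_1, c29_1_1, c3_1_1, c45_3_0, c48_4_0, c49_0_1, c50_0_1, s1, s2, s3]
                      · linarith only [C.f13_0, C.f13_3, C.f22_6, C.f23_5, C.f23_9, C.f33_1, C.f33_4, C.o1, c1_1_1, c29_1_1, c3_1_1, c45_3_0, c48_4_0, c49_0_1, c50_1_1, s1, s2, s3]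
                    · linarith only [C.f22_6, C.f23_9, c1_1_1, c3_1_1, c48_4_0, c49_1_1, s3]
                · linarith only [C.f22_4, C.f33_4, C.o1, C.o2, c29_1_1, c45_4_0, s2]
                · linarith only [C.f22_4, C.f22_6, C.f33_7, c28_3_0, c43_1_1, c45_5_0, s3]
      · rcases c0_22_23_33_k3_k_p11_33A C with c51_0_0 | c51_1_0 | c51_2_0 | c51_3_0 | c51_4_0
        · linarith only [c2_1_0, c51_0_0]
        · linarith only [c51_1_0, e3]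
        · rcases c0_22_23_33_k3_k_t23 C with ⟨c52_0_0, c52_0_1⟩ | ⟨c52_1_0, c52_1_1⟩
          · rcases c0_22_23_33_k3_k_tzpm C with c53_0_0 | c53_1_0 | c53_2_0 | c53_3_0 | ⟨c53_4_0, c53_4_1⟩
            · linarith only [c52_0_0, c53_0_0]
            · linarith only [C.f22_4, C.f22_6, C.f23_5, C.f23_8, C.f33_7, C.o1, c53_1_0, s3]
            · linarith only [c2_1_1, c53_2_0]
            · linarith only [C.f22_4, C.f23_5, C.f33_4, C.o1, C.o2, c53_3_0, s2]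
            · rcases c0_22_23_33_k3_k_p22_33A C with c54_0_0 | c54_1_0 | c54_2_0 | c54_3_0 | c54_4_0
              · linarith only [c54_0_0, e0]
              · linarith only [c54_1_0, e3]
              · rcases c0_22_23_33_k3_k_f23_7 C with ⟨c55_0_0, c55_0_1⟩ | ⟨c55_1_0, c55_1_1⟩ | ⟨c55_2_0, c55_2_1⟩
                · linarith only [C.f11_0, C.f22_4, C.f23_5, C.f33_3, c2_1_1, c51_2_0, c54_2_0, c55_0_1, s1, s2]
                · rcases c0_22_23_33_k3_k_p11_23B C with c57_0_0 | c57_1_0 | c57_2_0 | c57_3_0 | c57_4_0 | c57_5_0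
                  · linarith only [c2_1_0, c57_0_0]
                  · linarith only [c57_1_0, e1]
                  · linarith only [c57_2_0, e2]
                  · linarith only [C.f11_0, C.o0, c54_2_0, c57_3_0, s1]
                  · linarith only [C.f11_0, C.f11_1, c2_1_1, c53_4_0, c55_1_1, c57_4_0]
                  · linarith only [C.f11_0, C.f11_1, C.f11_2, C.f22_4, C.f22_6, C.f33_7, c2_1_1, c53_4_1, c57_5_0, s3]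
                · linarith only [C.f22_4, C.f23_5, C.f33_4, C.o2, c53_4_0, c55_2_1, s2]
              · linarith only [C.f23_5, c54_3_0, s2]
              · linarith only [C.f23_9, c53_4_1, c54_4_0, s3]
          · rcases c0_22_23_33_k3_k_tpmz C with c59_0_0 | c59_1_0 | c59_2_0 | c59_3_0 | c59_4_0 | c59_5_0
            · linarith only [C.o0, c2_1_0, c59_0_0]
            · linarith only [C.f11_0, C.f22_4, C.f23_5, C.f33_3, c2_1_1, c51_2_0, c59_1_0, s2]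
            · linarith only [C.f22_4, C.f23_5, C.f33_4, C.o1, c59_2_0, s2]
            · linarith only [C.a1, C.o0, c59_3_0]
            · rcases c0_22_23_33_k3_k_f23_7 C with ⟨c62_0_0, c62_0_1⟩ | ⟨c62_1_0, c62_1_1⟩ | ⟨c62_2_0, c62_2_1⟩
              · linarith only [C.a2, C.f11_0, C.f22_1, C.f22_4, C.f23_5, C.f33_3, c51_2_0, c59_4_0, c62_0_1, s1, s2]
              · rcases c0_22_23_33_k3_k_f23_10 C with ⟨c63_0_0, c63_0_1⟩ | ⟨c63_1_0, c63_1_1⟩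
                · linarith only [C.a2, C.f23_9, C.o0, c52_1_1, c59_4_0, c62_1_1, c63_0_1]
                · rcases c0_22_23_33_k3_k_p11_23B C with c66_0_0 | c66_1_0 | c66_2_0 | c66_3_0 | c66_4_0 | c66_5_0
                  · linarith only [c2_1_0, c66_0_0]
                  · linarith only [c66_1_0, e1]
                  · linarith only [c66_2_0, e2]
                  · linarith only [C.f11_0, C.f22_1, C.o0, c51_2_0, c59_4_0, c66_3_0, s1]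
                  · linarith only [C.f11_0, C.f11_1, C.f22_1, C.f22_4, C.f23_1, C.f33_3, C.o0, c51_2_0, c59_4_0, c66_4_0, s1, s2]
                  · linarith only [C.f11_0, C.f11_1, C.f11_2, C.f22_1, C.f22_4, C.f23_1, C.f23_5, C.f33_3, c51_2_0, c52_1_1, c59_4_0, c63_1_1, c66_5_0, s1, s2]
              · linarith only [C.f11_0, C.f22_1, C.f22_4, C.f23_1, C.f23_5, C.f33_4, C.o0, C.o2, c51_2_0, c59_4_0, c62_2_1, s1, s2]
            · linarith only [c52_1_1, c59_5_0]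
        · linarith only [C.f11_0, C.f11_1, C.f22_4, C.f23_5, c2_1_1, c51_3_0, s2]
        · linarith only [C.b5, C.f11_0, C.f11_1, C.f11_2, C.f22_4, C.f22_6, C.f23_9, c1_1_1, c2_1_1, c51_4_0, s3]
  · linarith only [C.a2, C.a4, C.f13_0, C.o2, c0_1_1]

end Pool.Agent.Helper24.TQ
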