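import Pool.Agent.Helper89.TQ.Ctx

set_option autoImplicit false
set_option linter.all false
set_option maxHeartbeats 4000000

namespace Pool.Agent.Helper24.TQ

open Pool.Agent.Helper89.TQ

theorem c2_11_11_33_k0_k_t12 {n1 n2 n3 A1 A2 A3 B1 B2 B3 m11_1 m11_2 m11_3 m12_1 m12_2 m12_3 m13_1 m13_2 m13_3 m22_1 m22_2 m22_3 m33_1 m33_2 m33_3 : ℤ} (C : Ctx2 n1 n2 n3 A1 A2 A3 B1 B2 B3 m11_1 m11_2 m11_3 m12_1 m12_2 m12_3 m13_1 m13_2 m13_3 m22_1 m22_2 m22_3 m33_1 m33_2 m33_3) :
    ((-1) * A1 ≤ -1 ∧ (-1) * A1 + 1 * A2 + (-1) * n2 ≤ -1) ∨ ((-1) * B1 ≤ -1 ∧ (-1) * B1 + 1 * B2 + (-1) * n2 ≤ -1) := by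
  have h := C.t12
  clear C
  omega

theorem c2_11_11_33_k0_k_t23 {n1 n2 n3 A1 A2 A3 B1 B2 B3 m11_1 m11_2 m11_3 m12_1 m12_2 m12_3 m13_1 m13_2 m13_3 m22_1 m22_2 m22_3 m33_1 m33_2 m33_3 : ℤ} (C : Ctx2 n1 n2 n3 A1 A2 A3 B1 B2 B3 m11_1 m11_2 m11_3 m12_1 m12_2 m12_3 m13_1 m13_2 m13_3 m22_1 m22_2 m22_3 m33_1 m33_2 m33_3) :
    (1 * A1 + (-1) * A2 ≤ -1 ∧ (-1) * A2 + 1 * A3 + (-1) * n3 ≤ -1) ∨ (1 * B1 + (-1) * B2 ≤ -1 ∧ (-1) * B2 + 1 * B3 + (-1) * n3 ≤ -1) := by
  have h := C.t23
  clear C
  omega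

theorem c2_11_11_33_k0_k_f12_2 {n1 n2 n3 A1 A2 A3 B1 B2 B3 m11_1 m11_2 m11_3 m12_1 m12_2 m12_3 m13_1 m13_2 m13_3 m22_1 m22_2 m22_3 m33_1 m33_2 m33_3 : ℤ} (C : Ctx2 n1 n2 n3 A1 A2 A3 B1 B2 B3 m11_1 m11_2 m11_3 m12_1 m12_2 m12_3 m13_1 m13_2 m13_3 m22_1 m22_2 m22_3 m33_1 m33_2 m33_3) :
    ((-1) * A1 + 1 * m12_1 ≤ -1 ∧ 1 * A1 + (-1) * m12_1 ≤ 1) ∨ ((-1) * B2 + 1 * m12_1 ≤ -1 ∧ 1 * B2 + (-1) * m12_1 ≤ 1) := by
  have h := C.f12_2
  clear C
  omega

theorem c2_11_11_33_k0_k_f12_5 {n1 n2 n3 A1 A2 A3 B1 B2 B3 m11_1 m11_2 m11_3 m12_1 m12_2 m12_3 m13_1 m13_2 m13_3 m22_1 m22_2 m22_3 m33_1 m33_2 m33_3 : ℤ} (C : Ctx2 n1 n2 n3 A1 A2 A3 B1 B2 B3 m11_1 m11_2 m11_3 m12_1 m12_2 m12_3 m13_1 m13_2 m13_3 m22_1 m22_2 m22_3 m33_1 m33_2 m33_3) :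
    ((-1) * m12_1 + 1 * m12_2 + (-1) * n2 ≤ 0 ∧ 1 * m12_1 + (-1) * m12_2 + 1 * n2 ≤ 0) ∨ ((-1) * B2 + 1 * m12_2 ≤ -1 ∧ 1 * B2 + (-1) * m12_2 ≤ 1) := by
  have h := C.f12_5
  clear C
  omega

theorem c2_11_11_33_k0_k_f13_2 {n1 n2 n3 A1 A2 A3 B1 B2 B3 m11_1 m11_2 m11_3 m12_1 m12_2 m12_3 m13_1 m13_2 m13_3 m22_1 m22_2 m22_3 m33_1 m33_2 m33_3 : ℤ} (C : Ctx2 n1 n2 n3 A1 A2 A3 B1 B2 B3 m11_1 m11_2 m11_3 m12_1 m12_2 m12_3 m13_1 m13_2 m13_3 m22_1 m22_2 m22_3 m33_1 m33_2 m33_3) :
    ((-1) * A1 + 1 * m13_1 ≤ -1 ∧ 1 * A1 + (-1) * m13_1 ≤ 1) ∨ ((-1) * B3 + 1 * m13_1 ≤ -1 ∧ 1 * B3 + (-1) * m13_1 ≤ 1) := by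
  have h := C.f13_2
  clear C
  omega

theorem c2_11_11_33_k0_k_f13_5 {n1 n2 n3 A1 A2 A3 B1 B2 B3 m11_1 m11_2 m11_3 m12_1 m12_2 m12_3 m13_1 m13_2 m13_3 m22_1 m22_2 m22_3 m33_1 m33_2 m33_3 : ℤ} (C : Ctx2 n1 n2 n3 A1 A2 A3 B1 B2 B3 m11_1 m11_2 m11_3 m12_1 m12_2 m12_3 m13_1 m13_2 m13_3 m22_1 m22_2 m22_3 m33_1 m33_2 m33_3) :
    ((-1) * m13_1 + 1 * m13_2 + (-1) * n2 ≤ 0 ∧ 1 * m13_1 + (-1) * m13_2 + 1 * n2 ≤ 0) ∨ ((-1) * B3 + 1 * m13_2 ≤ -1 ∧ 1 * B3 + (-1) * m13_2 ≤ 1) := by
  have h := C.f13_5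
  clear C
  omega

theorem c2_11_11_33_k0_k_f13_8 {n1 n2 n3 A1 A2 A3 B1 B2 B3 m11_1 m11_2 m11_3 m12_1 m12_2 m12_3 m13_1 m13_2 m13_3 m22_1 m22_2 m22_3 m33_1 m33_2 m33_3 : ℤ} (C : Ctx2 n1 n2 n3 A1 A2 A3 B1 B2 B3 m11_1 m11_2 m11_3 m12_1 m12_2 m12_3 m13_1 m13_2 m13_3 m22_1 m22_2 m22_3 m33_1 m33_2 m33_3) :
    ((-1) * m13_2 + 1 * m13_3 + (-1) * n3 ≤ 0 ∧ 1 * m13_2 + (-1) * m13_3 + 1 * n3 ≤ 0) ∨ ((-1) * B3 + 1 * m13_3 ≤ -1 ∧ 1 * B3 + (-1) * m13_3 ≤ 1) := by
  have h := C.f13_8
  clear C
  omega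

theorem c2_11_11_33_k0_k_f22_2 {n1 n2 n3 A1 A2 A3 B1 B2 B3 m11_1 m11_2 m11_3 m12_1 m12_2 m12_3 m13_1 m13_2 m13_3 m22_1 m22_2 m22_3 m33_1 m33_2 m33_3 : ℤ} (C : Ctx2 n1 n2 n3 A1 A2 A3 B1 B2 B3 m11_1 m11_2 m11_3 m12_1 m12_2 m12_3 m13_1 m13_2 m13_3 m22_1 m22_2 m22_3 m33_1 m33_2 m33_3) :
    (1 * m22_1 + (-1) * n1 ≤ 0 ∧ (-1) * m22_1 + 1 * n1 ≤ 0) ∨ ((-1) * A2 + 1 * m22_1 ≤ -1 ∧ 1 * A2 + (-1) * m22_1 ≤ 1) := by
  have h := C.f22_2
  clear C
  omega

theorem c2_11_11_33_k0_k_f22_5 {n1 n2 n3 A1 A2 A3 B1 B2 B3 m11_1 m11_2 m11_3 m12_1 m12_2 m12_3 m13_1 m13_2 m13_3 m22_1 m22_2 m22_3 m33_1 m33_2 m33_3 : ℤ} (C : Ctx2 n1 n2 n3 A1 A2 A3 B1 B2 B3 m11_1 m11_2 m11_3 m12_1 m12_2 m12_3 m13_1 m13_2 m13_3 m22_1 m22_2 m22_3 m33_1 m33_2 m33_3) :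
    ((-1) * m22_1 + 1 * m22_2 + (-1) * n2 ≤ 0 ∧ 1 * m22_1 + (-1) * m22_2 + 1 * n2 ≤ 0) ∨ ((-1) * A2 + 1 * m22_2 ≤ -1 ∧ 1 * A2 + (-1) * m22_2 ≤ 1) := by
  have h := C.f22_5
  clear C
  omega

theorem c2_11_11_33_k0_k_f33_2 {n1 n2 n3 A1 A2 A3 B1 B2 B3 m11_1 m11_2 m11_3 m12_1 m12_2 m12_3 m13_1 m13_2 m13_3 m22_1 m22_2 m22_3 m33_1 m33_2 m33_3 : ℤ} (C : Ctx2 n1 n2 n3 A1 A2 A3 B1 B2 B3 m11_1 m11_2 m11_3 m12_1 m12_2 m12_3 m13_1 m13_2 m13_3 m22_1 m22_2 m22_3 m33_1 m33_2 m33_3) :
    (1 * m33_1 + (-1) * n1 ≤ 0 ∧ (-1) * m33_1 + 1 * n1 ≤ 0) ∨ ((-1) * A3 + 1 * m33_1 ≤ -1 ∧ 1 * A3 + (-1) * m33_1 ≤ 1) := by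
  have h := C.f33_2
  clear C
  omega

theorem c2_11_11_33_k0_k_f33_5 {n1 n2 n3 A1 A2 A3 B1 B2 B3 m11_1 m11_2 m11_3 m12_1 m12_2 m12_3 m13_1 m13_2 m13_3 m22_1 m22_2 m22_3 m33_1 m33_2 m33_3 : ℤ} (C : Ctx2 n1 n2 n3 A1 A2 A3 B1 B2 B3 m11_1 m11_2 m11_3 m12_1 m12_2 m12_3 m13_1 m13_2 m13_3 m22_1 m22_2 m22_3 m33_1 m33_2 m33_3) :
    ((-1) * m33_1 + 1 * m33_2 + (-1) * n2 ≤ 0 ∧ 1 * m33_1 + (-1) * m33_2 + 1 * n2 ≤ 0) ∨ ((-1) * A3 + 1 * m33_2 ≤ -1 ∧ 1 * A3 + (-1) * m33_2 ≤ 1) := by
  have h := C.f33_5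
  clear C
  omega

theorem c2_11_11_33_k0_k_f33_8 {n1 n2 n3 A1 A2 A3 B1 B2 B3 m11_1 m11_2 m11_3 m12_1 m12_2 m12_3 m13_1 m13_2 m13_3 m22_1 m22_2 m22_3 m33_1 m33_2 m33_3 : ℤ} (C : Ctx2 n1 n2 n3 A1 A2 A3 B1 B2 B3 m11_1 m11_2 m11_3 m12_1 m12_2 m12_3 m13_1 m13_2 m13_3 m22_1 m22_2 m22_3 m33_1 m33_2 m33_3) :
    ((-1) * m33_2 + 1 * m33_3 + (-1) * n3 ≤ 0 ∧ 1 * m33_2 + (-1) * m33_3 + 1 * n3 ≤ 0) ∨ ((-1) * A3 + 1 * m33_3 ≤ -1 ∧ 1 * A3 + (-1) * m33_3 ≤ 1) := by
  have h := C.f33_8
  clear C
  omega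

theorem c2_11_11_33_k0_k_p11_12B {n1 n2 n3 A1 A2 A3 B1 B2 B3 m11_1 m11_2 m11_3 m12_1 m12_2 m12_3 m13_1 m13_2 m13_3 m22_1 m22_2 m22_3 m33_1 m33_2 m33_3 : ℤ} (C : Ctx2 n1 n2 n3 A1 A2 A3 B1 B2 B3 m11_1 m11_2 m11_3 m12_1 m12_2 m12_3 m13_1 m13_2 m13_3 m22_1 m22_2 m22_3 m33_1 m33_2 m33_3) :
    (1 * B1 ≤ 0) ∨ (1 * A1 ≤ 0) ∨ (1 * B2 ≤ 0) ∨ ((-2) * B1 + 1 * m11_1 + 1 * m12_1 ≤ -1) ∨ ((-2) * B2 + 1 * m11_2 + 1 * m12_2 ≤ -1) ∨ ((-2) * B3 + 1 * m11_3 + 1 * m12_3 ≤ -1) := by
  have h := C.p11_12B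
  clear C
  omega

theorem c2_11_11_33_k0_k_p11_13B {n1 n2 n3 A1 A2 A3 B1 B2 B3 m11_1 m11_2 m11_3 m12_1 m12_2 m12_3 m13_1 m13_2 m13_3 m22_1 m22_2 m22_3 m33_1 m33_2 m33_3 : ℤ} (C : Ctx2 n1 n2 n3 A1 A2 A3 B1 B2 B3 m11_1 m11_2 m11_3 m12_1 m12_2 m12_3 m13_1 m13_2 m13_3 m22_1 m22_2 m22_3 m33_1 m33_2 m33_3) :
    (1 * B1 ≤ 0) ∨ (1 * A1 ≤ 0) ∨ (1 * B3 ≤ 0) ∨ ((-2) * B1 + 1 * m11_1 + 1 * m13_1 ≤ -1) ∨ ((-2) * B2 + 1 * m11_2 + 1 * m13_2 ≤ -1) ∨ ((-2) * B3 + 1 * m11_3 + 1 * m13_3 ≤ -1) := by
  have h := C.p11_13B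
  clear C
  omega

theorem c2_11_11_33_k0_k_p11_22B {n1 n2 n3 A1 A2 A3 B1 B2 B3 m11_1 m11_2 m11_3 m12_1 m12_2 m12_3 m13_1 m13_2 m13_3 m22_1 m22_2 m22_3 m33_1 m33_2 m33_3 : ℤ} (C : Ctx2 n1 n2 n3 A1 A2 A3 B1 B2 B3 m11_1 m11_2 m11_3 m12_1 m12_2 m12_3 m13_1 m13_2 m13_3 m22_1 m22_2 m22_3 m33_1 m33_2 m33_3) :
    (1 * B1 ≤ 0) ∨ (1 * A2 ≤ 0) ∨ ((-2) * B1 + 1 * m11_1 + 1 * m22_1 ≤ -1) ∨ ((-2) * B2 + 1 * m11_2 + 1 * m22_2 ≤ -1) ∨ ((-2) * B3 + 1 * m11_3 + 1 * m22_3 ≤ -1) := by
  have h := C.p11_22B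
  clear C
  omega

theorem c2_11_11_33_k0_k_p11_33A {n1 n2 n3 A1 A2 A3 B1 B2 B3 m11_1 m11_2 m11_3 m12_1 m12_2 m12_3 m13_1 m13_2 m13_3 m22_1 m22_2 m22_3 m33_1 m33_2 m33_3 : ℤ} (C : Ctx2 n1 n2 n3 A1 A2 A3 B1 B2 B3 m11_1 m11_2 m11_3 m12_1 m12_2 m12_3 m13_1 m13_2 m13_3 m22_1 m22_2 m22_3 m33_1 m33_2 m33_3) :
    (1 * B1 ≤ 0) ∨ (1 * A3 ≤ 0) ∨ ((-2) * A1 + 1 * m11_1 + 1 * m33_1 ≤ -1) ∨ ((-2) * A2 + 1 * m11_2 + 1 * m33_2 ≤ -1) ∨ ((-2) * A3 + 1 * m11_3 + 1 * m33_3 ≤ -1) := by
  have h := C.p11_33A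
  clear C
  omega

theorem c2_11_11_33_k0_k_p12_13B {n1 n2 n3 A1 A2 A3 B1 B2 B3 m11_1 m11_2 m11_3 m12_1 m12_2 m12_3 m13_1 m13_2 m13_3 m22_1 m22_2 m22_3 m33_1 m33_2 m33_3 : ℤ} (C : Ctx2 n1 n2 n3 A1 A2 A3 B1 B2 B3 m11_1 m11_2 m11_3 m12_1 m12_2 m12_3 m13_1 m13_2 m13_3 m22_1 m22_2 m22_3 m33_1 m33_2 m33_3) :
    (1 * A1 ≤ 0) ∨ (1 * B2 ≤ 0) ∨ (1 * B3 ≤ 0) ∨ ((-2) * B1 + 1 * m12_1 + 1 * m13_1 ≤ -1) ∨ ((-2) * B2 + 1 * m12_2 + 1 * m13_2 ≤ -1) ∨ ((-2) * B3 + 1 * m12_3 + 1 * m13_3 ≤ -1) := by
  have h := C.p12_13B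
  clear C
  omega

theorem c2_11_11_33_k0_k_p12_22A {n1 n2 n3 A1 A2 A3 B1 B2 B3 m11_1 m11_2 m11_3 m12_1 m12_2 m12_3 m13_1 m13_2 m13_3 m22_1 m22_2 m22_3 m33_1 m33_2 m33_3 : ℤ} (C : Ctx2 n1 n2 n3 A1 A2 A3 B1 B2 B3 m11_1 m11_2 m11_3 m12_1 m12_2 m12_3 m13_1 m13_2 m13_3 m22_1 m22_2 m22_3 m33_1 m33_2 m33_3) :
    (1 * A1 ≤ 0) ∨ (1 * B2 ≤ 0) ∨ (1 * A2 ≤ 0) ∨ ((-2) * A1 + 1 * m12_1 + 1 * m22_1 ≤ -1) ∨ ((-2) * A2 + 1 * m12_2 + 1 * m22_2 ≤ -1) ∨ ((-2) * A3 + 1 * m12_3 + 1 * m22_3 ≤ -1) := by
  have h := C.p12_22A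
  clear C
  omega

theorem c2_11_11_33_k0_k_p12_33A {n1 n2 n3 A1 A2 A3 B1 B2 B3 m11_1 m11_2 m11_3 m12_1 m12_2 m12_3 m13_1 m13_2 m13_3 m22_1 m22_2 m22_3 m33_1 m33_2 m33_3 : ℤ} (C : Ctx2 n1 n2 n3 A1 A2 A3 B1 B2 B3 m11_1 m11_2 m11_3 m12_1 m12_2 m12_3 m13_1 m13_2 m13_3 m22_1 m22_2 m22_3 m33_1 m33_2 m33_3) :
    (1 * A1 ≤ 0) ∨ (1 * B2 ≤ 0) ∨ (1 * A3 ≤ 0) ∨ ((-2) * A1 + 1 * m12_1 + 1 * m33_1 ≤ -1) ∨ ((-2) * A2 + 1 * m12_2 + 1 * m33_2 ≤ -1) ∨ ((-2) * A3 + 1 * m12_3 + 1 * m33_3 ≤ -1) := by
  have h := C.p12_33A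
  clear C
  omega

theorem c2_11_11_33_k0_k_p13_22A {n1 n2 n3 A1 A2 A3 B1 B2 B3 m11_1 m11_2 m11_3 m12_1 m12_2 m12_3 m13_1 m13_2 m13_3 m22_1 m22_2 m22_3 m33_1 m33_2 m33_3 : ℤ} (C : Ctx2 n1 n2 n3 A1 A2 A3 B1 B2 B3 m11_1 m11_2 m11_3 m12_1 m12_2 m12_3 m13_1 m13_2 m13_3 m22_1 m22_2 m22_3 m33_1 m33_2 m33_3) :
    (1 * A1 ≤ 0) ∨ (1 * B3 ≤ 0) ∨ (1 * A2 ≤ 0) ∨ ((-2) * A1 + 1 * m13_1 + 1 * m22_1 ≤ -1) ∨ ((-2) * A2 + 1 * m13_2 + 1 * m22_2 ≤ -1) ∨ ((-2) * A3 + 1 * m13_3 + 1 * m22_3 ≤ -1) := by
  have h := C.p13_22A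
  clear C
  omega

theorem c2_11_11_33_k0_k_tmzp {n1 n2 n3 A1 A2 A3 B1 B2 B3 m11_1 m11_2 m11_3 m12_1 m12_2 m12_3 m13_1 m13_2 m13_3 m22_1 m22_2 m22_3 m33_1 m33_2 m33_3 : ℤ} (C : Ctx2 n1 n2 n3 A1 A2 A3 B1 B2 B3 m11_1 m11_2 m11_3 m12_1 m12_2 m12_3 m13_1 m13_2 m13_3 m22_1 m22_2 m22_3 m33_1 m33_2 m33_3) :
    ((-1) * A1 + 1 * n1 ≤ 0) ∨ ((-1) * A1 + 1 * A2 ≤ 0) ∨ ((-1) * A2 + 1 * A3 ≤ 0) ∨ (1 * B1 ≤ 0) ∨ (1 * B1 + (-1) * B2 + 1 * n2 ≤ 0) ∨ (1 * B2 + (-1) * B3 + 1 * n3 ≤ 0) := by
  have h := C.tmzp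
  clear C
  omega

theorem c2_11_11_33_k0_k_tmpp {n1 n2 n3 A1 A2 A3 B1 B2 B3 m11_1 m11_2 m11_3 m12_1 m12_2 m12_3 m13_1 m13_2 m13_3 m22_1 m22_2 m22_3 m33_1 m33_2 m33_3 : ℤ} (C : Ctx2 n1 n2 n3 A1 A2 A3 B1 B2 B3 m11_1 m11_2 m11_3 m12_1 m12_2 m12_3 m13_1 m13_2 m13_3 m22_1 m22_2 m22_3 m33_1 m33_2 m33_3) :
    ((-1) * A1 + 1 * n1 ≤ 0) ∨ ((-1) * A1 + 1 * A2 ≤ 1) ∨ (1 * B1 ≤ 0) ∨ (1 * B1 + (-1) * B2 + 1 * n2 ≤ 1) := by
  have h := C.tmpp
  clear C
  omega

theorem c2_11_11_33_k0_k_tzpm {n1 n2 n3 A1 A2 A3 B1 B2 B3 m11_1 m11_2 m11_3 m12_1 m12_2 m12_3 m13_1 m13_2 m13_3 m22_1 m22_2 m22_3 m33_1 m33_2 m33_3 : ℤ} (C : Ctx2 n1 n2 n3 A1 A2 A3 B1 B2 B3 m11_1 m11_2 m11_3 m12_1 m12_2 m12_3 m13_1 m13_2 m13_3 m22_1 m22_2 m22_3 m33_1 m33_2 m33_3) :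
    ((-1) * A1 + 1 * A2 ≤ 0) ∨ (1 * A2 + (-1) * A3 + 1 * n3 ≤ 1) ∨ (1 * B1 + (-1) * B2 + 1 * n2 ≤ 0) ∨ ((-1) * B2 + 1 * B3 ≤ 1) := by
  have h := C.tzpm
  clear C
  omega

theorem c2_11_11_33_k0_k_tpmm {n1 n2 n3 A1 A2 A3 B1 B2 B3 m11_1 m11_2 m11_3 m12_1 m12_2 m12_3 m13_1 m13_2 m13_3 m22_1 m22_2 m22_3 m33_1 m33_2 m33_3 : ℤ} (C : Ctx2 n1 n2 n3 A1 A2 A3 B1 B2 B3 m11_1 m11_2 m11_3 m12_1 m12_2 m12_3 m13_1 m13_2 m13_3 m22_1 m22_2 m22_3 m33_1 m33_2 m33_3) :
    (1 * A1 ≤ 0) ∨ (1 * A1 + (-1) * A2 + 1 * n2 ≤ 1) ∨ ((-1) * B1 + 1 * n1 ≤ 0) ∨ ((-1) * B1 + 1 * B2 ≤ 1) ∨ ((-1) * A2 + 1 * B2 ≤ 1 ∧ (-1) * A3 + 1 * B3 ≤ 1) ∨ (1 * A1 + (-1) * B1 ≤ 1) := by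
  have h := C.tpmm
  clear C
  omega

theorem c2_11_11_33_k0_k_tpzm {n1 n2 n3 A1 A2 A3 B1 B2 B3 m11_1 m11_2 m11_3 m12_1 m12_2 m12_3 m13_1 m13_2 m13_3 m22_1 m22_2 m22_3 m33_1 m33_2 m33_3 : ℤ} (C : Ctx2 n1 n2 n3 A1 A2 A3 B1 B2 B3 m11_1 m11_2 m11_3 m12_1 m12_2 m12_3 m13_1 m13_2 m13_3 m22_1 m22_2 m22_3 m33_1 m33_2 m33_3) :
    (1 * A1 ≤ 0) ∨ (1 * A1 + (-1) * A2 + 1 * n2 ≤ 0) ∨ (1 * A2 + (-1) * A3 + 1 * n3 ≤ 0) ∨ ((-1) * B1 + 1 * n1 ≤ 0) ∨ ((-1) * B1 + 1 * B2 ≤ 0) ∨ ((-1) * B2 + 1 * B3 ≤ 0) ∨ (1 * A1 + (-1) * B1 ≤ 1) := by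
  have h := C.tpzm
  clear C
  omega

theorem c2_11_11_33_k0 {n1 n2 n3 A1 A2 A3 B1 B2 B3 m11_1 m11_2 m11_3 m12_1 m12_2 m12_3 m13_1 m13_2 m13_3 m22_1 m22_2 m22_3 m33_1 m33_2 m33_3 : ℤ}
    (C : Ctx2 n1 n2 n3 A1 A2 A3 B1 B2 B3 m11_1 m11_2 m11_3 m12_1 m12_2 m12_3 m13_1 m13_2 m13_3 m22_1 m22_2 m22_3 m33_1 m33_2 m33_3)
    (e0 : 0 < B1)
    (e1 : 0 < A3)
    (s1 : 0 * A1 + 3 * B1 ≤ m11_1 + m11_1 + m33_1)
    (s2 : 0 * A2 + 3 * B2 ≤ m11_2 + m11_2 + m33_2)
    (s3 : 0 * A3 + 3 * B3 ≤ m11_3 + m11_3 + m33_3) : False := by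
  rcases c2_11_11_33_k0_k_f12_2 C with ⟨c0_0_0, c0_0_1⟩ | ⟨c0_1_0, c0_1_1⟩
  · rcases c2_11_11_33_k0_k_f12_5 C with ⟨c1_0_0, c1_0_1⟩ | ⟨c1_1_0, c1_1_1⟩
    · linarith only [C.b3, C.f12_4, C.o0, c0_0_1, c1_0_1]
    · rcases c2_11_11_33_k0_k_f13_2 C with ⟨c2_0_0, c2_0_1⟩ | ⟨c2_1_0, c2_1_1⟩
      · rcases c2_11_11_33_k0_k_t12 C with ⟨c4_0_0, c4_0_1⟩ | ⟨c4_1_0, c4_1_1⟩
        · rcases c2_11_11_33_k0_k_t23 C with ⟨c5_0_0, c5_0_1⟩ | ⟨c5_1_0, c5_1_1⟩
          · rcases c2_11_11_33_k0_k_f13_5 C with ⟨c6_0_0, c6_0_1⟩ | ⟨c6_1_0, c6_1_1⟩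
            · rcases c2_11_11_33_k0_k_f13_8 C with ⟨c7_0_0, c7_0_1⟩ | ⟨c7_1_0, c7_1_1⟩
              · linarith only [C.f11_0, C.f11_1, C.f11_2, C.f13_7, C.f33_7, C.o0, C.o2, c2_0_1, c6_0_1, c7_0_1, s3]
              · rcases c2_11_11_33_k0_k_tpzm C with c10_0_0 | c10_1_0 | c10_2_0 | c10_3_0 | c10_4_0 | c10_5_0 | c10_6_0
                · linarith only [c10_0_0, c4_0_0]
                · linarith only [c10_1_0, c4_0_1]
                · linarith only [c10_2_0, c5_0_1]
                · linarith only [C.f11_0, C.f33_0, c10_3_0, s1]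
                · linarith only [C.o0, C.o1, c10_4_0, c5_0_0]
                · linarith only [C.f11_0, C.f11_1, C.f13_4, C.f33_4, C.o0, C.o2, c10_5_0, c2_0_1, c6_0_1, s2]
                · rcases c2_11_11_33_k0_k_f22_2 C with ⟨c11_0_0, c11_0_1⟩ | ⟨c11_1_0, c11_1_1⟩
                  · rcases c2_11_11_33_k0_k_f22_5 C with ⟨c12_0_0, c12_0_1⟩ | ⟨c12_1_0, c12_1_1⟩
                    · linarith only [C.f11_0, C.f12_0, C.f12_3, C.f22_4, C.f33_0, C.o1, c10_6_0, c11_0_1, c12_0_1, c1_1_1, s1]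
                    · rcases c2_11_11_33_k0_k_p12_22A C with c13_0_0 | c13_1_0 | c13_2_0 | c13_3_0 | c13_4_0 | c13_5_0
                      · linarith only [c13_0_0, c4_0_0]
                      · linarith only [C.f11_0, C.f22_1, C.f33_0, C.o1, c11_0_1, c13_1_0, e0, s1]
                      · linarith only [C.f11_0, C.f22_1, C.f33_0, c11_0_1, c13_2_0, e0, s1]
                      · linarith only [C.f11_0, C.f33_0, c0_0_1, c10_6_0, c11_0_1, c13_3_0, s1]
                      · rcases c2_11_11_33_k0_k_p11_22B C with c14_0_0 | c14_1_0 | c14_2_0 | c14_3_0 | c14_4_0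
                        · linarith only [c14_0_0, e0]
                        · linarith only [C.f11_0, C.f22_1, C.f33_0, c11_0_1, c14_1_0, e0, s1]
                        · linarith only [C.f11_0, C.f33_0, c11_0_1, c14_2_0, s1]
                        · rcases c2_11_11_33_k0_k_f33_8 C with ⟨c15_0_0, c15_0_1⟩ | ⟨c15_1_0, c15_1_1⟩
                          · linarith only [C.f33_7, c12_1_1, c13_4_0, c14_3_0, c15_0_1, c1_1_1, c5_0_1, s2]
                          · rcases c2_11_11_33_k0_k_p12_33A C with c17_0_0 | c17_1_0 | c17_2_0 | c17_3_0 | c17_4_0 | c17_5_0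
                            · linarith only [c17_0_0, c4_0_0]
                            · linarith only [C.f11_0, C.f22_1, C.f33_0, C.o1, c11_0_1, c17_1_0, e0, s1]
                            · linarith only [c17_2_0, e1]
                            · linarith only [C.f11_0, c0_0_1, c10_6_0, c17_3_0, s1]
                            · rcases c2_11_11_33_k0_k_f33_5 C with ⟨c18_0_0, c18_0_1⟩ | ⟨c18_1_0, c18_1_1⟩
                              · linarith only [C.f11_0, C.f11_1, C.o1, c17_4_0, c18_0_1, c1_1_1, s1, s2]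
                              · rcases c2_11_11_33_k0_k_p12_13B C with c22_0_0 | c22_1_0 | c22_2_0 | c22_3_0 | c22_4_0 | c22_5_0
                                · linarith only [c22_0_0, c4_0_0]
                                · linarith only [C.f11_0, C.f22_1, C.f33_0, C.o1, c11_0_1, c22_1_0, e0, s1]
                                · linarith only [C.f11_0, C.f11_1, C.f13_4, C.f22_1, C.f33_0, C.o0, C.o1, c11_0_1, c17_4_0, c1_1_1, c22_2_0, c2_0_1, c6_0_1, e0, s1, s2]
                                · linarith only [C.o0, c0_0_1, c22_3_0, c2_0_1]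
                                · linarith only [C.f11_0, C.f11_1, C.o0, C.o1, c17_4_0, c1_1_1, c22_4_0, c2_0_1, c6_0_1, s2]
                                · linarith only [C.f11_0, C.f11_1, C.f11_2, C.f12_6, C.f13_4, C.f33_7, C.o0, C.o1, c12_1_1, c14_3_0, c17_4_0, c18_1_1, c1_1_1, c22_5_0, c2_0_1, c6_0_1, c7_1_1, s3]
                            · linarith only [C.f12_6, C.o1, c15_1_1, c17_5_0, c1_1_1, c5_0_1]
                        · linarith only [C.b5, C.f22_6, C.f33_7, c12_1_1, c13_4_0, c14_4_0, c1_1_1, c5_0_1, s3]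
                      · linarith only [C.f12_6, C.f22_6, C.o1, c12_1_1, c13_5_0, c1_1_1, c5_0_1]
                  · rcases c2_11_11_33_k0_k_f22_5 C with ⟨c23_0_0, c23_0_1⟩ | ⟨c23_1_0, c23_1_1⟩
                    · linarith only [C.f12_0, C.f12_3, C.f22_4, C.o1, c11_1_1, c1_1_1, c23_0_1, c5_0_0]
                    · rcases c2_11_11_33_k0_k_p13_22A C with c24_0_0 | c24_1_0 | c24_2_0 | c24_3_0 | c24_4_0 | c24_5_0
                      · linarith only [c24_0_0, c4_0_0]
                      · linarith only [C.o2, c24_1_0, e1]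
                      · linarith only [C.o0, c24_2_0, c5_0_0, e0]
                      · rcases c2_11_11_33_k0_k_f33_5 C with ⟨c26_0_0, c26_0_1⟩ | ⟨c26_1_0, c26_1_1⟩
                        · rcases c2_11_11_33_k0_k_f33_8 C with ⟨c27_0_0, c27_0_1⟩ | ⟨c27_1_0, c27_1_1⟩
                          · linarith only [C.f11_0, C.f11_1, C.f11_2, C.f33_7, C.o2, c26_0_1, c27_0_1, s1, s3]
                          · rcases c2_11_11_33_k0_k_p12_33A C with c30_0_0 | c30_1_0 | c30_2_0 | c30_3_0 | c30_4_0 | c30_5_0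
                            · linarith only [c30_0_0, c4_0_0]
                            · linarith only [C.o0, C.o1, c30_1_0, c5_0_0, e0]
                            · linarith only [c30_2_0, e1]
                            · linarith only [C.f11_0, c0_0_1, c10_6_0, c30_3_0, s1]
                            · linarith only [C.f11_0, C.f12_0, C.f12_3, C.o1, c10_6_0, c1_1_1, c26_0_1, c30_4_0, s1]
                            · linarith only [C.f12_6, C.o1, c1_1_1, c27_1_1, c30_5_0, c5_0_1]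
                        · rcases c2_11_11_33_k0_k_f33_8 C with ⟨c31_0_0, c31_0_1⟩ | ⟨c31_1_0, c31_1_1⟩
                          · linarith only [C.f11_0, C.f11_1, C.f11_2, C.f13_4, C.f33_7, C.o0, C.o2, c26_1_1, c2_0_1, c31_0_1, c6_0_1, s3]
                          · rcases c2_11_11_33_k0_k_p12_33A C with c33_0_0 | c33_1_0 | c33_2_0 | c33_3_0 | c33_4_0 | c33_5_0
                            · linarith only [c33_0_0, c4_0_0]
                            · linarith only [C.o0, C.o1, c33_1_0, c5_0_0, e0]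
                            · linarith only [c33_2_0, e1]
                            · linarith only [C.f11_0, c0_0_1, c10_6_0, c33_3_0, s1]
                            · linarith only [C.f11_0, C.f33_1, C.o1, c10_6_0, c11_1_1, c1_1_1, c24_3_0, c26_1_1, c2_0_1, c33_4_0, s1]
                            · linarith only [C.f12_6, C.o1, c1_1_1, c31_1_1, c33_5_0, c5_0_1]
                      · linarith only [C.b3, C.o0, C.o1, c23_1_1, c24_4_0, c2_0_1, c6_0_1]
                      · linarith only [C.f22_6, C.o2, c23_1_1, c24_5_0, c5_0_1, c7_1_1]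
            · rcases c2_11_11_33_k0_k_f13_8 C with ⟨c34_0_0, c34_0_1⟩ | ⟨c34_1_0, c34_1_1⟩
              · linarith only [C.a4, C.f13_7, c34_0_1, c5_0_1, c6_1_1]
              · rcases c2_11_11_33_k0_k_p11_13B C with c36_0_0 | c36_1_0 | c36_2_0 | c36_3_0 | c36_4_0 | c36_5_0
                · linarith only [c36_0_0, e0]
                · linarith only [c36_1_0, c4_0_0]
                · linarith only [C.f11_0, C.f33_1, C.o2, c36_2_0, e0, s1]
                · rcases c2_11_11_33_k0_k_f33_5 C with ⟨c37_0_0, c37_0_1⟩ | ⟨c37_1_0, c37_1_1⟩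
                  · linarith only [C.f11_0, C.f13_3, C.f33_4, C.o2, c36_3_0, c37_0_1, c6_1_1, s1]
                  · rcases c2_11_11_33_k0_k_f33_8 C with ⟨c38_0_0, c38_0_1⟩ | ⟨c38_1_0, c38_1_1⟩
                    · linarith only [C.a4, C.f33_7, c37_1_1, c38_0_1, c5_0_1]
                    · rcases c2_11_11_33_k0_k_p12_33A C with c41_0_0 | c41_1_0 | c41_2_0 | c41_3_0 | c41_4_0 | c41_5_0
                      · linarith only [c41_0_0, c4_0_0]
                      · linarith only [C.o0, C.o1, c41_1_0, c5_0_0, e0]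
                      · linarith only [c41_2_0, e1]
                      · linarith only [C.f11_0, c0_0_1, c2_0_1, c36_3_0, c41_3_0, s1]
                      · rcases c2_11_11_33_k0_k_p11_12B C with c42_0_0 | c42_1_0 | c42_2_0 | c42_3_0 | c42_4_0 | c42_5_0
                        · linarith only [c42_0_0, e0]
                        · linarith only [c42_1_0, c4_0_0]
                        · linarith only [C.f11_0, C.f33_1, C.o1, c1_1_1, c37_1_1, c41_4_0, c42_2_0, e0, s1]
                        · rcases c2_11_11_33_k0_k_tmpp C with c43_0_0 | c43_1_0 | c43_2_0 | c43_3_0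
                          · linarith only [C.f11_0, C.f33_0, c0_0_1, c42_3_0, c43_0_0, s1]
                          · linarith only [C.f11_0, C.f33_1, C.o1, c0_0_1, c1_1_1, c37_1_1, c41_4_0, c42_3_0, c43_1_0, s1]
                          · linarith only [c43_2_0, e0]
                          · linarith only [C.f11_0, C.f11_1, C.o1, c1_1_1, c41_4_0, c43_3_0, s2]
                        · linarith only [C.o1, c1_1_1, c41_4_0, c42_4_0, s2]
                        · linarith only [C.b5, C.f12_6, C.f33_7, C.o1, c1_1_1, c42_5_0, c5_0_1, s3]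
                      · linarith only [C.f12_6, C.o1, c1_1_1, c38_1_1, c41_5_0, c5_0_1]
                · linarith only [C.b4, C.f33_4, C.o2, c36_4_0, c6_1_1, s2]
                · linarith only [C.f33_7, C.o2, c34_1_1, c36_5_0, s3]
          · rcases c2_11_11_33_k0_k_f13_5 C with ⟨c44_0_0, c44_0_1⟩ | ⟨c44_1_0, c44_1_1⟩
            · rcases c2_11_11_33_k0_k_f13_8 C with ⟨c45_0_0, c45_0_1⟩ | ⟨c45_1_0, c45_1_1⟩
              · linarith only [C.f12_0, C.f12_3, C.f13_7, c1_1_1, c2_0_1, c44_0_1, c45_0_1, c5_1_1]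
              · rcases c2_11_11_33_k0_k_f22_2 C with ⟨c48_0_0, c48_0_1⟩ | ⟨c48_1_0, c48_1_1⟩
                · rcases c2_11_11_33_k0_k_f22_5 C with ⟨c49_0_0, c49_0_1⟩ | ⟨c49_1_0, c49_1_1⟩
                  · linarith only [C.a1, C.f12_0, C.f12_3, C.f22_4, C.o1, c1_1_1, c48_0_1, c49_0_1]
                  · rcases c2_11_11_33_k0_k_f33_2 C with ⟨c50_0_0, c50_0_1⟩ | ⟨c50_1_0, c50_1_1⟩
                    · rcases c2_11_11_33_k0_k_f33_5 C with ⟨c51_0_0, c51_0_1⟩ | ⟨c51_1_0, c51_1_1⟩
                      · rcases c2_11_11_33_k0_k_f33_8 C with ⟨c52_0_0, c52_0_1⟩ | ⟨c52_1_0, c52_1_1⟩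
                        · linarith only [C.f11_0, C.f11_1, C.f11_2, C.f33_7, C.o2, c51_0_1, c52_0_1, s1, s3]
                        · rcases c2_11_11_33_k0_k_p12_33A C with c55_0_0 | c55_1_0 | c55_2_0 | c55_3_0 | c55_4_0 | c55_5_0
                          · linarith only [c4_0_0, c55_0_0]
                          · linarith only [C.f11_0, C.f22_1, C.f33_0, C.o1, c48_0_1, c55_1_0, e0, s1]
                          · linarith only [c55_2_0, e1]
                          · rcases c2_11_11_33_k0_k_p11_13B C with c57_0_0 | c57_1_0 | c57_2_0 | c57_3_0 | c57_4_0 | c57_5_0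
                            · linarith only [c57_0_0, e0]
                            · linarith only [c4_0_0, c57_1_0]
                            · linarith only [C.o2, c57_2_0, e1]
                            · linarith only [C.f11_0, c0_0_1, c2_0_1, c55_3_0, c57_3_0, s1]
                            · linarith only [C.f11_0, C.f11_1, C.f33_3, c0_0_1, c2_0_1, c44_0_1, c55_3_0, c57_4_0, s1, s2]
                            · linarith only [C.f33_7, C.o2, c45_1_1, c57_5_0, s3]
                          · linarith only [C.a1, C.f12_0, C.f12_3, C.o1, c1_1_1, c50_0_1, c51_0_1, c55_4_0]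
                          · linarith only [C.f12_6, C.o2, c1_1_1, c52_1_1, c55_5_0, c5_1_1]
                      · rcases c2_11_11_33_k0_k_f33_8 C with ⟨c58_0_0, c58_0_1⟩ | ⟨c58_1_0, c58_1_1⟩
                        · linarith only [C.f11_0, C.f11_1, C.f11_2, C.f13_4, C.f33_7, C.o0, C.o2, c2_0_1, c44_0_1, c51_1_1, c58_0_1, s3]
                        · rcases c2_11_11_33_k0_k_p11_12B C with c60_0_0 | c60_1_0 | c60_2_0 | c60_3_0 | c60_4_0 | c60_5_0
                          · linarith only [c60_0_0, e0]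
                          · linarith only [c4_0_0, c60_1_0]
                          · linarith only [C.f11_0, C.f22_1, C.f33_0, C.o1, c48_0_1, c60_2_0, e0, s1]
                          · rcases c2_11_11_33_k0_k_p12_22A C with c61_0_0 | c61_1_0 | c61_2_0 | c61_3_0 | c61_4_0 | c61_5_0
                            · linarith only [c4_0_0, c61_0_0]
                            · linarith only [C.f11_0, C.f22_1, C.f33_0, C.o1, c48_0_1, c61_1_0, e0, s1]
                            · linarith only [C.f11_0, C.f22_1, C.f33_0, c48_0_1, c61_2_0, e0, s1]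
                            · linarith only [C.f11_0, C.f33_0, c0_0_1, c48_0_1, c60_3_0, c61_3_0, s1]
                            · rcases c2_11_11_33_k0_k_p11_22B C with c62_0_0 | c62_1_0 | c62_2_0 | c62_3_0 | c62_4_0
                              · linarith only [c62_0_0, e0]
                              · linarith only [C.f11_0, C.f22_1, C.f33_0, c48_0_1, c62_1_0, e0, s1]
                              · linarith only [C.f11_0, C.f33_0, c48_0_1, c62_2_0, s1]
                              · rcases c2_11_11_33_k0_k_p12_33A C with c63_0_0 | c63_1_0 | c63_2_0 | c63_3_0 | c63_4_0 | c63_5_0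
                                · linarith only [c4_0_0, c63_0_0]
                                · linarith only [C.f11_0, C.f22_1, C.f33_0, C.o1, c48_0_1, c63_1_0, e0, s1]
                                · linarith only [c63_2_0, e1]
                                · linarith only [C.f11_0, c0_0_1, c60_3_0, c63_3_0, s1]
                                · rcases c2_11_11_33_k0_k_p12_13B C with c66_0_0 | c66_1_0 | c66_2_0 | c66_3_0 | c66_4_0 | c66_5_0
                                  · linarith only [c4_0_0, c66_0_0]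
                                  · linarith only [C.f11_0, C.f22_1, C.f33_0, C.o1, c48_0_1, c66_1_0, e0, s1]
                                  · linarith only [C.f11_0, C.f11_1, C.f13_4, C.f22_1, C.f33_0, C.o0, C.o1, c1_1_1, c2_0_1, c44_0_1, c48_0_1, c63_4_0, c66_2_0, e0, s1, s2]
                                  · linarith only [C.o0, c0_0_1, c2_0_1, c66_3_0]
                                  · linarith only [C.f11_0, C.f11_1, C.o0, C.o1, c1_1_1, c2_0_1, c44_0_1, c63_4_0, c66_4_0, s2]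
                                  · linarith only [C.f11_0, C.f11_1, C.f11_2, C.f12_6, C.f13_4, C.f33_7, C.o0, C.o1, c1_1_1, c2_0_1, c44_0_1, c45_1_1, c49_1_1, c51_1_1, c62_3_0, c63_4_0, c66_5_0, s3]
                                · linarith only [C.f12_6, C.o2, c1_1_1, c58_1_1, c5_1_1, c63_5_0]
                              · linarith only [C.f22_6, C.f33_7, C.o2, c1_1_1, c49_1_1, c5_1_1, c61_4_0, c62_4_0, s3]
                            · linarith only [C.a5, C.f12_6, C.f22_6, C.o2, c1_1_1, c49_1_1, c5_1_1, c61_5_0]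
                          · rcases c2_11_11_33_k0_k_p12_33A C with c68_0_0 | c68_1_0 | c68_2_0 | c68_3_0 | c68_4_0 | c68_5_0
                            · linarith only [c4_0_0, c68_0_0]
                            · linarith only [C.f11_0, C.f22_1, C.f33_0, C.o1, c48_0_1, c68_1_0, e0, s1]
                            · linarith only [c68_2_0, e1]
                            · rcases c2_11_11_33_k0_k_p11_13B C with c69_0_0 | c69_1_0 | c69_2_0 | c69_3_0 | c69_4_0 | c69_5_0
                              · linarith only [c69_0_0, e0]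
                              · linarith only [c4_0_0, c69_1_0]
                              · linarith only [C.o2, c69_2_0, e1]
                              · linarith only [C.f11_0, c0_0_1, c2_0_1, c68_3_0, c69_3_0, s1]
                              · linarith only [C.f11_0, C.f11_1, C.f33_3, c0_0_1, c2_0_1, c44_0_1, c68_3_0, c69_4_0, s1, s2]
                              · linarith only [C.f33_7, C.o2, c45_1_1, c69_5_0, s3]
                            · linarith only [C.o1, c1_1_1, c60_4_0, c68_4_0, s2]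
                            · linarith only [C.f11_2, C.f12_6, C.o2, c1_1_1, c58_1_1, c60_4_0, c68_5_0, s3]
                          · linarith only [C.a5, C.f12_6, C.f33_7, C.o1, c1_1_1, c5_1_1, c60_5_0, s3]
                    · rcases c2_11_11_33_k0_k_p11_22B C with c75_0_0 | c75_1_0 | c75_2_0 | c75_3_0 | c75_4_0
                      · linarith only [c75_0_0, e0]
                      · linarith only [C.f11_0, C.f22_1, C.f33_0, c48_0_1, c75_1_0, e0, s1]
                      · linarith only [C.f11_0, C.f33_0, c48_0_1, c75_2_0, s1]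
                      · rcases c2_11_11_33_k0_k_p12_13B C with c77_0_0 | c77_1_0 | c77_2_0 | c77_3_0 | c77_4_0 | c77_5_0
                        · linarith only [c4_0_0, c77_0_0]
                        · linarith only [C.f11_0, C.f22_1, C.f33_0, C.o1, c48_0_1, c77_1_0, e0, s1]
                        · linarith only [C.f11_0, C.f11_1, C.f13_4, C.f22_1, C.f33_0, C.f33_4, C.o0, C.o1, c2_0_1, c44_0_1, c48_0_1, c50_1_1, c77_2_0, e0, s1, s2]
                        · linarith only [C.o0, c0_0_1, c2_0_1, c77_3_0]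
                        · linarith only [C.f11_0, C.f11_1, C.f22_1, C.f33_0, C.f33_4, C.o0, C.o1, c1_1_1, c2_0_1, c44_0_1, c48_0_1, c50_1_1, c77_4_0, s2]
                        · linarith only [C.f11_0, C.f11_1, C.f11_2, C.f12_6, C.f13_4, C.f22_1, C.f33_0, C.f33_7, C.o0, c1_1_1, c2_0_1, c44_0_1, c45_1_1, c48_0_1, c49_1_1, c50_1_1, c75_3_0, c77_5_0, s3]
                      · linarith only [C.f11_0, C.f11_1, C.f11_2, C.f13_4, C.f22_1, C.f22_6, C.f33_0, C.f33_7, C.o0, c2_0_1, c44_0_1, c48_0_1, c49_1_1, c50_1_1, c75_4_0, s3]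
                · rcases c2_11_11_33_k0_k_f22_5 C with ⟨c78_0_0, c78_0_1⟩ | ⟨c78_1_0, c78_1_1⟩
                  · linarith only [C.a2, C.f12_0, C.f12_3, C.f22_4, C.o1, c1_1_1, c48_1_1, c78_0_1]
                  · rcases c2_11_11_33_k0_k_f33_2 C with ⟨c79_0_0, c79_0_1⟩ | ⟨c79_1_0, c79_1_1⟩
                    · rcases c2_11_11_33_k0_k_f33_5 C with ⟨c80_0_0, c80_0_1⟩ | ⟨c80_1_0, c80_1_1⟩
                      · rcases c2_11_11_33_k0_k_f33_8 C with ⟨c81_0_0, c81_0_1⟩ | ⟨c81_1_0, c81_1_1⟩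
                        · linarith only [C.f11_0, C.f11_1, C.f11_2, C.f33_7, C.o2, c80_0_1, c81_0_1, s1, s3]
                        · rcases c2_11_11_33_k0_k_p12_33A C with c84_0_0 | c84_1_0 | c84_2_0 | c84_3_0 | c84_4_0 | c84_5_0
                          · linarith only [c4_0_0, c84_0_0]
                          · linarith only [C.a2, C.o0, C.o1, c84_1_0, e0]
                          · linarith only [c84_2_0, e1]
                          · rcases c2_11_11_33_k0_k_p11_13B C with c86_0_0 | c86_1_0 | c86_2_0 | c86_3_0 | c86_4_0 | c86_5_0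
                            · linarith only [c86_0_0, e0]
                            · linarith only [c4_0_0, c86_1_0]
                            · linarith only [C.o2, c86_2_0, e1]
                            · linarith only [C.f11_0, c0_0_1, c2_0_1, c84_3_0, c86_3_0, s1]
                            · linarith only [C.f11_0, C.f11_1, C.f33_3, c0_0_1, c2_0_1, c44_0_1, c84_3_0, c86_4_0, s1, s2]
                            · linarith only [C.f33_7, C.o2, c45_1_1, c86_5_0, s3]
                          · linarith only [C.a1, C.f12_0, C.f12_3, C.o1, c1_1_1, c79_0_1, c80_0_1, c84_4_0]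
                          · linarith only [C.f12_6, C.o2, c1_1_1, c5_1_1, c81_1_1, c84_5_0]
                      · rcases c2_11_11_33_k0_k_f33_8 C with ⟨c87_0_0, c87_0_1⟩ | ⟨c87_1_0, c87_1_1⟩
                        · linarith only [C.f11_0, C.f11_1, C.f11_2, C.f13_4, C.f33_7, C.o0, C.o2, c2_0_1, c44_0_1, c80_1_1, c87_0_1, s3]
                        · rcases c2_11_11_33_k0_k_p11_12B C with c89_0_0 | c89_1_0 | c89_2_0 | c89_3_0 | c89_4_0 | c89_5_0
                          · linarith only [c89_0_0, e0]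
                          · linarith only [c4_0_0, c89_1_0]
                          · linarith only [C.a2, C.o0, C.o1, c89_2_0, e0]
                          · rcases c2_11_11_33_k0_k_p12_33A C with c90_0_0 | c90_1_0 | c90_2_0 | c90_3_0 | c90_4_0 | c90_5_0
                            · linarith only [c4_0_0, c90_0_0]
                            · linarith only [C.a2, C.o0, C.o1, c90_1_0, e0]
                            · linarith only [c90_2_0, e1]
                            · linarith only [C.f11_0, c0_0_1, c89_3_0, c90_3_0, s1]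
                            · rcases c2_11_11_33_k0_k_p11_22B C with c93_0_0 | c93_1_0 | c93_2_0 | c93_3_0 | c93_4_0
                              · linarith only [c93_0_0, e0]
                              · linarith only [C.f11_0, C.f33_1, C.o1, c1_1_1, c80_1_1, c90_4_0, c93_1_0, e0, s1]
                              · linarith only [C.f11_0, C.f33_1, C.o1, c1_1_1, c48_1_1, c80_1_1, c90_4_0, c93_2_0, s1]
                              · rcases c2_11_11_33_k0_k_p12_13B C with c94_0_0 | c94_1_0 | c94_2_0 | c94_3_0 | c94_4_0 | c94_5_0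
                                · linarith only [c4_0_0, c94_0_0]
                                · linarith only [C.f11_0, C.f33_1, C.o1, c1_1_1, c80_1_1, c90_4_0, c94_1_0, e0, s1]
                                · linarith only [C.f11_0, C.f11_1, C.f13_4, C.f33_1, C.o0, C.o1, c1_1_1, c2_0_1, c44_0_1, c80_1_1, c90_4_0, c94_2_0, e0, s1, s2]
                                · linarith only [C.o0, c0_0_1, c2_0_1, c94_3_0]
                                · linarith only [C.f11_0, C.f11_1, C.o0, C.o1, c1_1_1, c2_0_1, c44_0_1, c90_4_0, c94_4_0, s2]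
                                · linarith only [C.f11_0, C.f11_1, C.f11_2, C.f12_6, C.f13_4, C.f33_7, C.o0, C.o1, c1_1_1, c2_0_1, c44_0_1, c45_1_1, c78_1_1, c80_1_1, c90_4_0, c93_3_0, c94_5_0, s3]
                              · linarith only [C.f11_0, C.f11_1, C.f11_2, C.f13_4, C.f22_6, C.f33_7, C.o0, C.o1, c1_1_1, c2_0_1, c44_0_1, c78_1_1, c80_1_1, c90_4_0, c93_4_0, s3]
                            · linarith only [C.f12_6, C.o2, c1_1_1, c5_1_1, c87_1_1, c90_5_0]
                          · rcases c2_11_11_33_k0_k_p12_33A C with c96_0_0 | c96_1_0 | c96_2_0 | c96_3_0 | c96_4_0 | c96_5_0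
                            · linarith only [c4_0_0, c96_0_0]
                            · linarith only [C.a2, C.o0, C.o1, c96_1_0, e0]
                            · linarith only [c96_2_0, e1]
                            · rcases c2_11_11_33_k0_k_p11_13B C with c97_0_0 | c97_1_0 | c97_2_0 | c97_3_0 | c97_4_0 | c97_5_0
                              · linarith only [c97_0_0, e0]
                              · linarith only [c4_0_0, c97_1_0]
                              · linarith only [C.o2, c97_2_0, e1]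
                              · linarith only [C.f11_0, c0_0_1, c2_0_1, c96_3_0, c97_3_0, s1]
                              · linarith only [C.f11_0, C.f11_1, C.f33_3, c0_0_1, c2_0_1, c44_0_1, c96_3_0, c97_4_0, s1, s2]
                              · linarith only [C.f33_7, C.o2, c45_1_1, c97_5_0, s3]
                            · linarith only [C.o1, c1_1_1, c89_4_0, c96_4_0, s2]
                            · linarith only [C.f11_2, C.f12_6, C.o2, c1_1_1, c87_1_1, c89_4_0, c96_5_0, s3]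
                          · linarith only [C.a5, C.f12_6, C.f33_7, C.o1, c1_1_1, c5_1_1, c89_5_0, s3]
                    · rcases c2_11_11_33_k0_k_f33_5 C with ⟨c98_0_0, c98_0_1⟩ | ⟨c98_1_0, c98_1_1⟩
                      · linarith only [C.a2, C.f12_0, C.f12_3, C.f33_4, C.o1, c1_1_1, c79_1_1, c98_0_1]
                      · rcases c2_11_11_33_k0_k_f33_8 C with ⟨c99_0_0, c99_0_1⟩ | ⟨c99_1_0, c99_1_1⟩
                        · linarith only [C.f11_0, C.f11_1, C.f11_2, C.f13_4, C.f33_7, C.o0, C.o2, c2_0_1, c44_0_1, c98_1_1, c99_0_1, s3]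
                        · rcases c2_11_11_33_k0_k_p11_33A C with c100_0_0 | c100_1_0 | c100_2_0 | c100_3_0 | c100_4_0
                          · linarith only [c100_0_0, e0]
                          · linarith only [c100_1_0, e1]
                          · rcases c2_11_11_33_k0_k_p11_13B C with c101_0_0 | c101_1_0 | c101_2_0 | c101_3_0 | c101_4_0 | c101_5_0
                            · linarith only [c101_0_0, e0]
                            · linarith only [c101_1_0, c4_0_0]
                            · linarith only [C.a2, C.f11_0, C.f11_1, C.f13_4, C.f33_4, C.o0, C.o1, c100_2_0, c101_2_0, c2_0_1, c44_0_1, c79_1_1, e0, s2]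
                            · rcases c2_11_11_33_k0_k_p12_13B C with c103_0_0 | c103_1_0 | c103_2_0 | c103_3_0 | c103_4_0 | c103_5_0
                              · linarith only [c103_0_0, c4_0_0]
                              · linarith only [C.a2, C.o0, C.o1, c103_1_0, e0]
                              · linarith only [C.a2, C.f11_0, C.f11_1, C.f13_4, C.f33_4, C.o0, C.o1, C.o2, c103_2_0, c2_0_1, c44_0_1, e0, s2]
                              · linarith only [C.o0, c0_0_1, c103_3_0, c2_0_1]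
                              · linarith only [C.a2, C.f11_0, C.f11_1, C.f33_4, C.o0, C.o1, c100_2_0, c103_4_0, c1_1_1, c2_0_1, c44_0_1, c79_1_1, s2]
                              · rcases c2_11_11_33_k0_k_p12_33A C with c105_0_0 | c105_1_0 | c105_2_0 | c105_3_0 | c105_4_0 | c105_5_0
                                · linarith only [c105_0_0, c4_0_0]
                                · linarith only [C.a2, C.o0, C.o1, c105_1_0, e0]
                                · linarith only [c105_2_0, e1]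
                                · linarith only [C.f11_0, c0_0_1, c101_3_0, c105_3_0, c2_0_1, s1]
                                · rcases c2_11_11_33_k0_k_p11_22B C with c107_0_0 | c107_1_0 | c107_2_0 | c107_3_0 | c107_4_0
                                  · linarith only [c107_0_0, e0]
                                  · linarith only [C.f11_0, C.f33_1, C.o1, c105_4_0, c107_1_0, c1_1_1, c98_1_1, e0, s1]
                                  · linarith only [C.f11_0, C.f33_1, C.o1, c105_4_0, c107_2_0, c1_1_1, c48_1_1, c98_1_1, s1]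
                                  · linarith only [C.f11_0, C.f11_1, C.f11_2, C.f12_6, C.f13_4, C.f33_7, C.o0, C.o1, c103_5_0, c105_4_0, c107_3_0, c1_1_1, c2_0_1, c44_0_1, c45_1_1, c78_1_1, c98_1_1, s3]
                                  · linarith only [C.f11_0, C.f11_1, C.f11_2, C.f13_4, C.f22_6, C.f33_7, C.o0, C.o1, c105_4_0, c107_4_0, c1_1_1, c2_0_1, c44_0_1, c78_1_1, c98_1_1, s3]
                                · linarith only [C.a2, C.f11_1, C.f11_2, C.f12_6, C.f13_4, C.o1, C.o2, c100_2_0, c105_5_0, c1_1_1, c2_0_1, c44_0_1, c79_1_1, c99_1_1, s3]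
                            · linarith only [C.a2, C.f11_1, C.f33_4, C.o1, c100_2_0, c101_4_0, c2_0_1, c44_0_1, c79_1_1, s2]
                            · linarith only [C.f33_7, C.o2, c101_5_0, c45_1_1, s3]
                          · linarith only [C.a4, C.o1, c100_3_0, c98_1_1, s2]
                          · linarith only [C.o2, c100_4_0, c99_1_1, s3]
            · rcases c2_11_11_33_k0_k_f13_8 C with ⟨c108_0_0, c108_0_1⟩ | ⟨c108_1_0, c108_1_1⟩
              · linarith only [C.b4, C.f13_7, c108_0_1, c44_1_1, c5_1_1]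
              · rcases c2_11_11_33_k0_k_p11_13B C with c110_0_0 | c110_1_0 | c110_2_0 | c110_3_0 | c110_4_0 | c110_5_0
                · linarith only [c110_0_0, e0]
                · linarith only [c110_1_0, c4_0_0]
                · linarith only [C.o2, c110_2_0, e1]
                · rcases c2_11_11_33_k0_k_f33_5 C with ⟨c111_0_0, c111_0_1⟩ | ⟨c111_1_0, c111_1_1⟩
                  · linarith only [C.f11_0, C.f13_3, C.f33_4, C.o2, c110_3_0, c111_0_1, c44_1_1, s1]
                  · rcases c2_11_11_33_k0_k_f33_8 C with ⟨c112_0_0, c112_0_1⟩ | ⟨c112_1_0, c112_1_1⟩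
                    · linarith only [C.b4, C.f33_7, c111_1_1, c112_0_1, c5_1_1]
                    · rcases c2_11_11_33_k0_k_p12_33A C with c115_0_0 | c115_1_0 | c115_2_0 | c115_3_0 | c115_4_0 | c115_5_0
                      · linarith only [c115_0_0, c4_0_0]
                      · linarith only [C.a2, C.o0, C.o1, c115_1_0, e0]
                      · linarith only [c115_2_0, e1]
                      · linarith only [C.f11_0, c0_0_1, c110_3_0, c115_3_0, c2_0_1, s1]
                      · rcases c2_11_11_33_k0_k_p11_12B C with c116_0_0 | c116_1_0 | c116_2_0 | c116_3_0 | c116_4_0 | c116_5_0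
                        · linarith only [c116_0_0, e0]
                        · linarith only [c116_1_0, c4_0_0]
                        · linarith only [C.f11_0, C.f33_1, C.o1, c111_1_1, c115_4_0, c116_2_0, c1_1_1, e0, s1]
                        · rcases c2_11_11_33_k0_k_tmzp C with c117_0_0 | c117_1_0 | c117_2_0 | c117_3_0 | c117_4_0 | c117_5_0
                          · linarith only [C.f11_0, C.f33_0, c0_0_1, c116_3_0, c117_0_0, s1]
                          · linarith only [C.f11_0, C.f33_1, C.o1, c0_0_1, c111_1_1, c115_4_0, c116_3_0, c117_1_0, c1_1_1, s1]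
                          · rcases c2_11_11_33_k0_k_tmpp C with c118_0_0 | c118_1_0 | c118_2_0 | c118_3_0
                            · linarith only [C.f11_0, C.f33_0, c0_0_1, c116_3_0, c118_0_0, s1]
                            · linarith only [C.f11_0, C.f33_1, c0_0_1, c116_3_0, c117_2_0, c118_1_0, s1]
                            · linarith only [c118_2_0, e0]
                            · linarith only [C.f11_0, C.f11_1, C.f33_4, C.o1, c117_2_0, c118_3_0, s2]
                          · linarith only [c117_3_0, e0]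
                          · linarith only [C.f11_0, C.f11_1, C.o1, c115_4_0, c117_4_0, c1_1_1, s2]
                          · linarith only [c117_5_0, c5_1_1]
                        · linarith only [C.o1, c115_4_0, c116_4_0, c1_1_1, s2]
                        · linarith only [C.f11_2, C.f12_6, C.o1, c115_4_0, c116_5_0, c1_1_1, c5_1_1, s2]
                      · linarith only [C.f12_6, C.o2, c112_1_1, c115_5_0, c1_1_1, c5_1_1]
                · linarith only [C.b4, C.f33_4, C.o2, c110_4_0, c44_1_1, s2]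
                · linarith only [C.f33_7, C.o2, c108_1_1, c110_5_0, s3]
        · rcases c2_11_11_33_k0_k_t23 C with ⟨c119_0_0, c119_0_1⟩ | ⟨c119_1_0, c119_1_1⟩
          · rcases c2_11_11_33_k0_k_f13_5 C with ⟨c120_0_0, c120_0_1⟩ | ⟨c120_1_0, c120_1_1⟩
            · rcases c2_11_11_33_k0_k_f13_8 C with ⟨c121_0_0, c121_0_1⟩ | ⟨c121_1_0, c121_1_1⟩
              · linarith only [C.f11_0, C.f11_1, C.f11_2, C.f13_7, C.f33_7, C.o0, C.o2, c120_0_1, c121_0_1, c2_0_1, s3]
              · rcases c2_11_11_33_k0_k_p11_13B C with c123_0_0 | c123_1_0 | c123_2_0 | c123_3_0 | c123_4_0 | c123_5_0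
                · linarith only [c123_0_0, e0]
                · linarith only [C.o0, c123_1_0, e0]
                · linarith only [C.o2, c123_2_0, e1]
                · rcases c2_11_11_33_k0_k_p12_13B C with c125_0_0 | c125_1_0 | c125_2_0 | c125_3_0 | c125_4_0 | c125_5_0
                  · linarith only [C.o0, c125_0_0, e0]
                  · linarith only [C.o0, C.o1, c119_0_0, c125_1_0, e0]
                  · linarith only [C.o2, c125_2_0, e1]
                  · linarith only [C.o0, c0_0_1, c125_3_0, c2_0_1]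
                  · linarith only [C.o0, c120_0_1, c125_4_0, c1_1_1, c2_0_1, c4_1_1]
                  · rcases c2_11_11_33_k0_k_tzpm C with c126_0_0 | c126_1_0 | c126_2_0 | c126_3_0
                    · linarith only [c119_0_0, c126_0_0]
                    · rcases c2_11_11_33_k0_k_tmzp C with c127_0_0 | c127_1_0 | c127_2_0 | c127_3_0 | c127_4_0 | c127_5_0
                      · linarith only [C.f11_0, C.f33_0, c123_3_0, c127_0_0, c2_0_1, s1]
                      · linarith only [c119_0_0, c127_1_0]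
                      · linarith only [C.f11_0, C.f11_1, C.f11_2, C.f13_4, C.f33_7, C.o0, C.o2, c120_0_1, c126_1_0, c127_2_0, c2_0_1, s3]
                      · linarith only [c127_3_0, e0]
                      · linarith only [c127_4_0, c4_1_1]
                      · rcases c2_11_11_33_k0_k_tpmm C with c135_0_0 | c135_1_0 | c135_2_0 | c135_3_0 | ⟨c135_4_0, c135_4_1⟩ | c135_5_0
                        · linarith only [C.o0, c135_0_0, e0]
                        · linarith only [C.f11_0, C.f11_1, C.f11_2, C.f33_7, C.o0, C.o1, c119_0_1, c127_5_0, c135_1_0, s3]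
                        · linarith only [C.f11_0, C.f33_0, c135_2_0, s1]
                        · linarith only [C.o0, C.o1, c119_0_0, c135_3_0]
                        · linarith only [C.o1, c119_0_1, c127_5_0, c135_4_1]
                        · rcases c2_11_11_33_k0_k_f33_5 C with ⟨c138_0_0, c138_0_1⟩ | ⟨c138_1_0, c138_1_1⟩
                          · rcases c2_11_11_33_k0_k_f33_8 C with ⟨c139_0_0, c139_0_1⟩ | ⟨c139_1_0, c139_1_1⟩
                            · linarith only [C.f11_0, C.f11_1, C.f11_2, C.f33_7, C.o1, c119_0_1, c127_5_0, c138_0_1, c139_0_1, s1, s3]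
                            · rcases c2_11_11_33_k0_k_p12_33A C with c142_0_0 | c142_1_0 | c142_2_0 | c142_3_0 | c142_4_0 | c142_5_0
                              · linarith only [C.o0, c142_0_0, e0]
                              · linarith only [C.o0, C.o1, c119_0_0, c142_1_0, e0]
                              · linarith only [c142_2_0, e1]
                              · linarith only [C.f11_0, c0_0_1, c135_5_0, c142_3_0, s1]
                              · linarith only [C.f11_0, C.f11_1, C.f11_2, C.f33_7, C.o1, c119_0_1, c127_5_0, c138_0_1, c142_4_0, c1_1_1, s1, s3]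
                              · linarith only [C.f12_6, C.o1, c119_0_1, c139_1_1, c142_5_0, c1_1_1]
                          · rcases c2_11_11_33_k0_k_f33_8 C with ⟨c143_0_0, c143_0_1⟩ | ⟨c143_1_0, c143_1_1⟩
                            · linarith only [C.f11_0, C.f11_1, C.f11_2, C.f13_4, C.f33_7, C.o0, C.o1, c119_0_1, c120_0_1, c127_5_0, c138_1_1, c143_0_1, c2_0_1, s3]
                            · rcases c2_11_11_33_k0_k_p12_33A C with c146_0_0 | c146_1_0 | c146_2_0 | c146_3_0 | c146_4_0 | c146_5_0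
                              · linarith only [C.o0, c146_0_0, e0]
                              · linarith only [C.o0, C.o1, c119_0_0, c146_1_0, e0]
                              · linarith only [c146_2_0, e1]
                              · linarith only [C.f11_0, c0_0_1, c135_5_0, c146_3_0, s1]
                              · linarith only [C.f11_0, C.f11_1, C.f11_2, C.f13_4, C.f33_7, C.o0, C.o1, c120_0_1, c126_1_0, c127_5_0, c138_1_1, c146_4_0, c1_1_1, c2_0_1, s3]
                              · linarith only [C.f12_6, C.o1, c119_0_1, c143_1_1, c146_5_0, c1_1_1]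
                    · linarith only [c126_2_0, c4_1_1]
                    · linarith only [C.f11_0, C.f11_1, C.f11_2, C.f12_6, C.f13_4, C.f33_7, C.o0, C.o1, c119_0_1, c120_0_1, c121_1_1, c125_5_0, c126_3_0, c1_1_1, c2_0_1, s3]
                · linarith only [C.f11_0, C.f11_1, C.o0, c120_0_1, c123_4_0, c2_0_1, c4_1_1]
                · linarith only [C.f33_7, C.o2, c121_1_1, c123_5_0, s3]
            · rcases c2_11_11_33_k0_k_f13_8 C with ⟨c147_0_0, c147_0_1⟩ | ⟨c147_1_0, c147_1_1⟩
              · linarith only [C.a4, C.f13_7, c119_0_1, c120_1_1, c147_0_1]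
              · rcases c2_11_11_33_k0_k_p11_13B C with c149_0_0 | c149_1_0 | c149_2_0 | c149_3_0 | c149_4_0 | c149_5_0
                · linarith only [c149_0_0, e0]
                · linarith only [C.o0, c149_1_0, e0]
                · linarith only [C.f11_0, C.f33_1, C.o2, c149_2_0, e0, s1]
                · rcases c2_11_11_33_k0_k_f33_5 C with ⟨c150_0_0, c150_0_1⟩ | ⟨c150_1_0, c150_1_1⟩
                  · linarith only [C.f11_0, C.f13_3, C.f33_4, C.o2, c120_1_1, c149_3_0, c150_0_1, s1]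
                  · rcases c2_11_11_33_k0_k_f33_8 C with ⟨c151_0_0, c151_0_1⟩ | ⟨c151_1_0, c151_1_1⟩
                    · linarith only [C.a4, C.f33_7, c119_0_1, c150_1_1, c151_0_1]
                    · rcases c2_11_11_33_k0_k_p12_33A C with c154_0_0 | c154_1_0 | c154_2_0 | c154_3_0 | c154_4_0 | c154_5_0
                      · linarith only [C.o0, c154_0_0, e0]
                      · linarith only [C.o0, C.o1, c119_0_0, c154_1_0, e0]
                      · linarith only [c154_2_0, e1]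
                      · linarith only [C.f11_0, c0_0_1, c149_3_0, c154_3_0, c2_0_1, s1]
                      · rcases c2_11_11_33_k0_k_p11_12B C with c155_0_0 | c155_1_0 | c155_2_0 | c155_3_0 | c155_4_0 | c155_5_0
                        · linarith only [c155_0_0, e0]
                        · linarith only [C.o0, c155_1_0, e0]
                        · linarith only [C.f11_0, C.f33_1, C.o1, c150_1_1, c154_4_0, c155_2_0, c1_1_1, e0, s1]
                        · rcases c2_11_11_33_k0_k_tmpp C with c156_0_0 | c156_1_0 | c156_2_0 | c156_3_0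
                          · linarith only [C.f11_0, C.f33_0, c0_0_1, c155_3_0, c156_0_0, s1]
                          · linarith only [C.f11_0, C.f33_1, C.o1, c0_0_1, c150_1_1, c154_4_0, c155_3_0, c156_1_0, c1_1_1, s1]
                          · linarith only [c156_2_0, e0]
                          · linarith only [C.f11_0, C.f11_1, C.o1, c154_4_0, c156_3_0, c1_1_1, s2]
                        · linarith only [C.o1, c154_4_0, c155_4_0, c1_1_1, s2]
                        · linarith only [C.b5, C.f12_6, C.f33_7, C.o1, c119_0_1, c155_5_0, c1_1_1, s3]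
                      · linarith only [C.f12_6, C.o1, c119_0_1, c151_1_1, c154_5_0, c1_1_1]
                · linarith only [C.b4, C.f33_4, C.o2, c120_1_1, c149_4_0, s2]
                · linarith only [C.f33_7, C.o2, c147_1_1, c149_5_0, s3]
          · rcases c2_11_11_33_k0_k_f13_5 C with ⟨c157_0_0, c157_0_1⟩ | ⟨c157_1_0, c157_1_1⟩
            · rcases c2_11_11_33_k0_k_f13_8 C with ⟨c158_0_0, c158_0_1⟩ | ⟨c158_1_0, c158_1_1⟩
              · linarith only [C.f12_0, C.f12_3, C.f13_7, c119_1_1, c157_0_1, c158_0_1, c1_1_1, c2_0_1]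
              · rcases c2_11_11_33_k0_k_p11_13B C with c160_0_0 | c160_1_0 | c160_2_0 | c160_3_0 | c160_4_0 | c160_5_0
                · linarith only [c160_0_0, e0]
                · linarith only [C.o0, c160_1_0, e0]
                · linarith only [C.o2, c160_2_0, e1]
                · rcases c2_11_11_33_k0_k_p12_13B C with c162_0_0 | c162_1_0 | c162_2_0 | c162_3_0 | c162_4_0 | c162_5_0
                  · linarith only [C.o0, c162_0_0, e0]
                  · linarith only [C.a2, C.o0, C.o1, c162_1_0, e0]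
                  · linarith only [C.o2, c162_2_0, e1]
                  · linarith only [C.o0, c0_0_1, c162_3_0, c2_0_1]
                  · linarith only [C.o0, c157_0_1, c162_4_0, c1_1_1, c2_0_1, c4_1_1]
                  · rcases c2_11_11_33_k0_k_f22_2 C with ⟨c163_0_0, c163_0_1⟩ | ⟨c163_1_0, c163_1_1⟩
                    · rcases c2_11_11_33_k0_k_f22_5 C with ⟨c164_0_0, c164_0_1⟩ | ⟨c164_1_0, c164_1_1⟩
                      · linarith only [C.f11_0, C.f11_1, C.f11_2, C.f12_6, C.f22_4, C.f33_0, C.f33_7, C.o1, C.o2, c158_1_1, c162_5_0, c163_0_1, c164_0_1, c1_1_1, s1, s3]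
                      · rcases c2_11_11_33_k0_k_p12_22A C with c166_0_0 | c166_1_0 | c166_2_0 | c166_3_0 | c166_4_0 | c166_5_0
                        · linarith only [C.o0, c166_0_0, e0]
                        · linarith only [C.f11_0, C.f22_1, C.f33_0, C.o1, c163_0_1, c166_1_0, e0, s1]
                        · linarith only [C.f11_0, C.f22_1, C.f33_0, c163_0_1, c166_2_0, e0, s1]
                        · linarith only [C.f11_0, C.f33_0, c0_0_1, c160_3_0, c163_0_1, c166_3_0, c2_0_1, s1]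
                        · rcases c2_11_11_33_k0_k_p11_22B C with c167_0_0 | c167_1_0 | c167_2_0 | c167_3_0 | c167_4_0
                          · linarith only [c167_0_0, e0]
                          · linarith only [C.a0, C.a1, C.f22_1, c163_0_1, c167_1_0]
                          · linarith only [C.f11_0, C.f33_0, c163_0_1, c167_2_0, s1]
                          · rcases c2_11_11_33_k0_k_f33_8 C with ⟨c169_0_0, c169_0_1⟩ | ⟨c169_1_0, c169_1_1⟩
                            · linarith only [C.f33_7, C.o2, c119_1_1, c164_1_1, c166_4_0, c167_3_0, c169_0_1, c1_1_1, s2]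
                            · rcases c2_11_11_33_k0_k_p12_33A C with c171_0_0 | c171_1_0 | c171_2_0 | c171_3_0 | c171_4_0 | c171_5_0
                              · linarith only [C.o0, c171_0_0, e0]
                              · linarith only [C.f11_0, C.f22_1, C.f33_0, C.o1, c163_0_1, c171_1_0, e0, s1]
                              · linarith only [c171_2_0, e1]
                              · linarith only [C.f11_0, c0_0_1, c160_3_0, c171_3_0, c2_0_1, s1]
                              · rcases c2_11_11_33_k0_k_f33_5 C with ⟨c172_0_0, c172_0_1⟩ | ⟨c172_1_0, c172_1_1⟩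
                                · linarith only [C.f11_0, C.f12_0, C.f12_3, C.o1, c160_3_0, c171_4_0, c172_0_1, c1_1_1, c2_0_1, s1]
                                · linarith only [C.f11_0, C.f11_1, C.f11_2, C.f12_6, C.f13_4, C.f33_7, C.o0, C.o1, c157_0_1, c158_1_1, c162_5_0, c164_1_1, c167_3_0, c171_4_0, c172_1_1, c1_1_1, c2_0_1, s3]
                              · linarith only [C.f12_6, C.o2, c119_1_1, c169_1_1, c171_5_0, c1_1_1]
                          · linarith only [C.f22_6, C.f33_7, C.o2, c119_1_1, c164_1_1, c166_4_0, c167_4_0, c1_1_1, s3]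
                        · linarith only [C.a5, C.f12_6, C.f22_6, C.o2, c119_1_1, c164_1_1, c166_5_0, c1_1_1]
                    · rcases c2_11_11_33_k0_k_f22_5 C with ⟨c173_0_0, c173_0_1⟩ | ⟨c173_1_0, c173_1_1⟩
                      · linarith only [C.a2, C.f11_0, C.f11_1, C.f11_2, C.f12_6, C.f22_4, C.f33_7, C.o0, C.o1, C.o2, c158_1_1, c162_5_0, c163_1_1, c173_0_1, c1_1_1, s3]
                      · rcases c2_11_11_33_k0_k_f33_5 C with ⟨c176_0_0, c176_0_1⟩ | ⟨c176_1_0, c176_1_1⟩
                        · rcases c2_11_11_33_k0_k_f33_8 C with ⟨c177_0_0, c177_0_1⟩ | ⟨c177_1_0, c177_1_1⟩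
                          · linarith only [C.f11_0, C.f11_1, C.f11_2, C.f33_7, C.o2, c176_0_1, c177_0_1, s1, s3]
                          · rcases c2_11_11_33_k0_k_p12_33A C with c180_0_0 | c180_1_0 | c180_2_0 | c180_3_0 | c180_4_0 | c180_5_0
                            · linarith only [C.o0, c180_0_0, e0]
                            · linarith only [C.a2, C.o0, C.o1, c180_1_0, e0]
                            · linarith only [c180_2_0, e1]
                            · linarith only [C.f11_0, c0_0_1, c160_3_0, c180_3_0, c2_0_1, s1]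
                            · linarith only [C.f11_0, C.f12_0, C.f12_3, C.o1, c160_3_0, c176_0_1, c180_4_0, c1_1_1, c2_0_1, s1]
                            · linarith only [C.f12_6, C.o2, c119_1_1, c177_1_1, c180_5_0, c1_1_1]
                        · rcases c2_11_11_33_k0_k_f33_8 C with ⟨c181_0_0, c181_0_1⟩ | ⟨c181_1_0, c181_1_1⟩
                          · linarith only [C.f11_0, C.f11_1, C.f11_2, C.f13_4, C.f33_7, C.o0, C.o2, c157_0_1, c176_1_1, c181_0_1, c2_0_1, s3]
                          · rcases c2_11_11_33_k0_k_p12_33A C with c184_0_0 | c184_1_0 | c184_2_0 | c184_3_0 | c184_4_0 | c184_5_0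
                            · linarith only [C.o0, c184_0_0, e0]
                            · linarith only [C.a2, C.o0, C.o1, c184_1_0, e0]
                            · linarith only [c184_2_0, e1]
                            · linarith only [C.f11_0, c0_0_1, c160_3_0, c184_3_0, c2_0_1, s1]
                            · rcases c2_11_11_33_k0_k_p11_22B C with c186_0_0 | c186_1_0 | c186_2_0 | c186_3_0 | c186_4_0
                              · linarith only [c186_0_0, e0]
                              · linarith only [C.f11_0, C.f33_1, C.o1, c176_1_1, c184_4_0, c186_1_0, c1_1_1, e0, s1]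
                              · linarith only [C.f11_0, C.f33_1, C.o1, c163_1_1, c176_1_1, c184_4_0, c186_2_0, c1_1_1, s1]
                              · linarith only [C.f11_0, C.f11_1, C.f11_2, C.f12_6, C.f13_4, C.f33_7, C.o0, C.o1, c157_0_1, c158_1_1, c162_5_0, c173_1_1, c176_1_1, c184_4_0, c186_3_0, c1_1_1, c2_0_1, s3]
                              · linarith only [C.f11_0, C.f11_1, C.f11_2, C.f13_4, C.f22_6, C.f33_7, C.o0, C.o1, c157_0_1, c173_1_1, c176_1_1, c184_4_0, c186_4_0, c1_1_1, c2_0_1, s3]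
                            · linarith only [C.f12_6, C.o2, c119_1_1, c181_1_1, c184_5_0, c1_1_1]
                · linarith only [C.f11_0, C.f11_1, C.o0, c157_0_1, c160_4_0, c2_0_1, c4_1_1]
                · linarith only [C.f33_7, C.o2, c158_1_1, c160_5_0, s3]
            · rcases c2_11_11_33_k0_k_f13_8 C with ⟨c187_0_0, c187_0_1⟩ | ⟨c187_1_0, c187_1_1⟩
              · linarith only [C.b4, C.f13_7, c119_1_1, c157_1_1, c187_0_1]
              · rcases c2_11_11_33_k0_k_p11_13B C with c189_0_0 | c189_1_0 | c189_2_0 | c189_3_0 | c189_4_0 | c189_5_0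
                · linarith only [c189_0_0, e0]
                · linarith only [C.o0, c189_1_0, e0]
                · linarith only [C.o2, c189_2_0, e1]
                · rcases c2_11_11_33_k0_k_f33_5 C with ⟨c190_0_0, c190_0_1⟩ | ⟨c190_1_0, c190_1_1⟩
                  · linarith only [C.f11_0, C.f13_3, C.f33_4, C.o2, c157_1_1, c189_3_0, c190_0_1, s1]
                  · rcases c2_11_11_33_k0_k_f33_8 C with ⟨c191_0_0, c191_0_1⟩ | ⟨c191_1_0, c191_1_1⟩
                    · linarith only [C.b4, C.f33_7, c119_1_1, c190_1_1, c191_0_1]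
                    · rcases c2_11_11_33_k0_k_p12_33A C with c194_0_0 | c194_1_0 | c194_2_0 | c194_3_0 | c194_4_0 | c194_5_0
                      · linarith only [C.o0, c194_0_0, e0]
                      · linarith only [C.a2, C.o0, C.o1, c194_1_0, e0]
                      · linarith only [c194_2_0, e1]
                      · linarith only [C.f11_0, c0_0_1, c189_3_0, c194_3_0, c2_0_1, s1]
                      · rcases c2_11_11_33_k0_k_p11_12B C with c195_0_0 | c195_1_0 | c195_2_0 | c195_3_0 | c195_4_0 | c195_5_0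
                        · linarith only [c195_0_0, e0]
                        · linarith only [C.o0, c195_1_0, e0]
                        · linarith only [C.f11_0, C.f33_1, C.o1, c190_1_1, c194_4_0, c195_2_0, c1_1_1, e0, s1]
                        · rcases c2_11_11_33_k0_k_tmzp C with c196_0_0 | c196_1_0 | c196_2_0 | c196_3_0 | c196_4_0 | c196_5_0
                          · linarith only [C.f11_0, C.f33_0, c0_0_1, c195_3_0, c196_0_0, s1]
                          · linarith only [C.f11_0, C.f33_1, C.o1, c0_0_1, c190_1_1, c194_4_0, c195_3_0, c196_1_0, c1_1_1, s1]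
                          · rcases c2_11_11_33_k0_k_tmpp C with c197_0_0 | c197_1_0 | c197_2_0 | c197_3_0
                            · linarith only [C.f11_0, C.f33_0, c0_0_1, c195_3_0, c197_0_0, s1]
                            · linarith only [C.f11_0, C.f33_1, c0_0_1, c195_3_0, c196_2_0, c197_1_0, s1]
                            · linarith only [c197_2_0, e0]
                            · linarith only [C.f11_0, C.f11_1, C.f33_4, C.o1, c196_2_0, c197_3_0, s2]
                          · linarith only [c196_3_0, e0]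
                          · linarith only [c196_4_0, c4_1_1]
                          · linarith only [c119_1_1, c196_5_0]
                        · linarith only [C.o1, c194_4_0, c195_4_0, c1_1_1, s2]
                        · linarith only [C.f11_2, C.f12_6, C.o1, c119_1_1, c194_4_0, c195_5_0, c1_1_1, s2]
                      · linarith only [C.f12_6, C.o2, c119_1_1, c191_1_1, c194_5_0, c1_1_1]
                · linarith only [C.b4, C.f33_4, C.o2, c157_1_1, c189_4_0, s2]
                · linarith only [C.f33_7, C.o2, c187_1_1, c189_5_0, s3]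
      · linarith only [C.a2, C.a4, C.f13_0, C.o2, c2_1_1]
  · linarith only [C.a2, C.f12_0, C.o1, c0_1_1]

end Pool.Agent.Helper24.TQ
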