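import Pool.Agent.Helper89.TQ.Ctx

set_option autoImplicit false
set_option linter.all false
set_option maxHeartbeats 4000000

namespace Pool.Agent.Helper24.TQ

open Pool.Agent.Helper89.TQ

theorem c2_11_13_22_k0_k_t23 {n1 n2 n3 A1 A2 A3 B1 B2 B3 m11_1 m11_2 m11_3 m12_1 m12_2 m12_3 m13_1 m13_2 m13_3 m22_1 m22_2 m22_3 m33_1 m33_2 m33_3 : ℤ} (C : Ctx2 n1 n2 n3 A1 A2 A3 B1 B2 B3 m11_1 m11_2 m11_3 m12_1 m12_2 m12_3 m13_1 m13_2 m13_3 m22_1 m22_2 m22_3 m33_1 m33_2 m33_3) :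
    (1 * A1 + (-1) * A2 ≤ -1 ∧ (-1) * A2 + 1 * A3 + (-1) * n3 ≤ -1) ∨ (1 * B1 + (-1) * B2 ≤ -1 ∧ (-1) * B2 + 1 * B3 + (-1) * n3 ≤ -1) := by
  have h := C.t23
  clear C
  omega

theorem c2_11_13_22_k0_k_f12_2 {n1 n2 n3 A1 A2 A3 B1 B2 B3 m11_1 m11_2 m11_3 m12_1 m12_2 m12_3 m13_1 m13_2 m13_3 m22_1 m22_2 m22_3 m33_1 m33_2 m33_3 : ℤ} (C : Ctx2 n1 n2 n3 A1 A2 A3 B1 B2 B3 m11_1 m11_2 m11_3 m12_1 m12_2 m12_3 m13_1 m13_2 m13_3 m22_1 m22_2 m22_3 m33_1 m33_2 m33_3) :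
    ((-1) * A1 + 1 * m12_1 ≤ -1 ∧ 1 * A1 + (-1) * m12_1 ≤ 1) ∨ ((-1) * B2 + 1 * m12_1 ≤ -1 ∧ 1 * B2 + (-1) * m12_1 ≤ 1) := by
  have h := C.f12_2
  clear C
  omega

theorem c2_11_13_22_k0_k_f12_5 {n1 n2 n3 A1 A2 A3 B1 B2 B3 m11_1 m11_2 m11_3 m12_1 m12_2 m12_3 m13_1 m13_2 m13_3 m22_1 m22_2 m22_3 m33_1 m33_2 m33_3 : ℤ} (C : Ctx2 n1 n2 n3 A1 A2 A3 B1 B2 B3 m11_1 m11_2 m11_3 m12_1 m12_2 m12_3 m13_1 m13_2 m13_3 m22_1 m22_2 m22_3 m33_1 m33_2 m33_3) :
    ((-1) * m12_1 + 1 * m12_2 + (-1) * n2 ≤ 0 ∧ 1 * m12_1 + (-1) * m12_2 + 1 * n2 ≤ 0) ∨ ((-1) * B2 + 1 * m12_2 ≤ -1 ∧ 1 * B2 + (-1) * m12_2 ≤ 1) := by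
  have h := C.f12_5
  clear C
  omega

theorem c2_11_13_22_k0_k_f13_2 {n1 n2 n3 A1 A2 A3 B1 B2 B3 m11_1 m11_2 m11_3 m12_1 m12_2 m12_3 m13_1 m13_2 m13_3 m22_1 m22_2 m22_3 m33_1 m33_2 m33_3 : ℤ} (C : Ctx2 n1 n2 n3 A1 A2 A3 B1 B2 B3 m11_1 m11_2 m11_3 m12_1 m12_2 m12_3 m13_1 m13_2 m13_3 m22_1 m22_2 m22_3 m33_1 m33_2 m33_3) :
    ((-1) * A1 + 1 * m13_1 ≤ -1 ∧ 1 * A1 + (-1) * m13_1 ≤ 1) ∨ ((-1) * B3 + 1 * m13_1 ≤ -1 ∧ 1 * B3 + (-1) * m13_1 ≤ 1) := by
  have h := C.f13_2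
  clear C
  omega

theorem c2_11_13_22_k0_k_f13_5 {n1 n2 n3 A1 A2 A3 B1 B2 B3 m11_1 m11_2 m11_3 m12_1 m12_2 m12_3 m13_1 m13_2 m13_3 m22_1 m22_2 m22_3 m33_1 m33_2 m33_3 : ℤ} (C : Ctx2 n1 n2 n3 A1 A2 A3 B1 B2 B3 m11_1 m11_2 m11_3 m12_1 m12_2 m12_3 m13_1 m13_2 m13_3 m22_1 m22_2 m22_3 m33_1 m33_2 m33_3) :
    ((-1) * m13_1 + 1 * m13_2 + (-1) * n2 ≤ 0 ∧ 1 * m13_1 + (-1) * m13_2 + 1 * n2 ≤ 0) ∨ ((-1) * B3 + 1 * m13_2 ≤ -1 ∧ 1 * B3 + (-1) * m13_2 ≤ 1) := by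
  have h := C.f13_5
  clear C
  omega

theorem c2_11_13_22_k0_k_f13_8 {n1 n2 n3 A1 A2 A3 B1 B2 B3 m11_1 m11_2 m11_3 m12_1 m12_2 m12_3 m13_1 m13_2 m13_3 m22_1 m22_2 m22_3 m33_1 m33_2 m33_3 : ℤ} (C : Ctx2 n1 n2 n3 A1 A2 A3 B1 B2 B3 m11_1 m11_2 m11_3 m12_1 m12_2 m12_3 m13_1 m13_2 m13_3 m22_1 m22_2 m22_3 m33_1 m33_2 m33_3) :
    ((-1) * m13_2 + 1 * m13_3 + (-1) * n3 ≤ 0 ∧ 1 * m13_2 + (-1) * m13_3 + 1 * n3 ≤ 0) ∨ ((-1) * B3 + 1 * m13_3 ≤ -1 ∧ 1 * B3 + (-1) * m13_3 ≤ 1) := by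
  have h := C.f13_8
  clear C
  omega

theorem c2_11_13_22_k0_k_f33_2 {n1 n2 n3 A1 A2 A3 B1 B2 B3 m11_1 m11_2 m11_3 m12_1 m12_2 m12_3 m13_1 m13_2 m13_3 m22_1 m22_2 m22_3 m33_1 m33_2 m33_3 : ℤ} (C : Ctx2 n1 n2 n3 A1 A2 A3 B1 B2 B3 m11_1 m11_2 m11_3 m12_1 m12_2 m12_3 m13_1 m13_2 m13_3 m22_1 m22_2 m22_3 m33_1 m33_2 m33_3) :
    (1 * m33_1 + (-1) * n1 ≤ 0 ∧ (-1) * m33_1 + 1 * n1 ≤ 0) ∨ ((-1) * A3 + 1 * m33_1 ≤ -1 ∧ 1 * A3 + (-1) * m33_1 ≤ 1) := by
  have h := C.f33_2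
  clear C
  omega

theorem c2_11_13_22_k0_k_f33_5 {n1 n2 n3 A1 A2 A3 B1 B2 B3 m11_1 m11_2 m11_3 m12_1 m12_2 m12_3 m13_1 m13_2 m13_3 m22_1 m22_2 m22_3 m33_1 m33_2 m33_3 : ℤ} (C : Ctx2 n1 n2 n3 A1 A2 A3 B1 B2 B3 m11_1 m11_2 m11_3 m12_1 m12_2 m12_3 m13_1 m13_2 m13_3 m22_1 m22_2 m22_3 m33_1 m33_2 m33_3) :
    ((-1) * m33_1 + 1 * m33_2 + (-1) * n2 ≤ 0 ∧ 1 * m33_1 + (-1) * m33_2 + 1 * n2 ≤ 0) ∨ ((-1) * A3 + 1 * m33_2 ≤ -1 ∧ 1 * A3 + (-1) * m33_2 ≤ 1) := by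
  have h := C.f33_5
  clear C
  omega

theorem c2_11_13_22_k0_k_f33_8 {n1 n2 n3 A1 A2 A3 B1 B2 B3 m11_1 m11_2 m11_3 m12_1 m12_2 m12_3 m13_1 m13_2 m13_3 m22_1 m22_2 m22_3 m33_1 m33_2 m33_3 : ℤ} (C : Ctx2 n1 n2 n3 A1 A2 A3 B1 B2 B3 m11_1 m11_2 m11_3 m12_1 m12_2 m12_3 m13_1 m13_2 m13_3 m22_1 m22_2 m22_3 m33_1 m33_2 m33_3) :
    ((-1) * m33_2 + 1 * m33_3 + (-1) * n3 ≤ 0 ∧ 1 * m33_2 + (-1) * m33_3 + 1 * n3 ≤ 0) ∨ ((-1) * A3 + 1 * m33_3 ≤ -1 ∧ 1 * A3 + (-1) * m33_3 ≤ 1) := by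
  have h := C.f33_8
  clear C
  omega

theorem c2_11_13_22_k0_k_p11_12B {n1 n2 n3 A1 A2 A3 B1 B2 B3 m11_1 m11_2 m11_3 m12_1 m12_2 m12_3 m13_1 m13_2 m13_3 m22_1 m22_2 m22_3 m33_1 m33_2 m33_3 : ℤ} (C : Ctx2 n1 n2 n3 A1 A2 A3 B1 B2 B3 m11_1 m11_2 m11_3 m12_1 m12_2 m12_3 m13_1 m13_2 m13_3 m22_1 m22_2 m22_3 m33_1 m33_2 m33_3) :
    (1 * B1 ≤ 0) ∨ (1 * A1 ≤ 0) ∨ (1 * B2 ≤ 0) ∨ ((-2) * B1 + 1 * m11_1 + 1 * m12_1 ≤ -1) ∨ ((-2) * B2 + 1 * m11_2 + 1 * m12_2 ≤ -1) ∨ ((-2) * B3 + 1 * m11_3 + 1 * m12_3 ≤ -1) := by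
  have h := C.p11_12B
  clear C
  omega

theorem c2_11_13_22_k0_k_p11_13B {n1 n2 n3 A1 A2 A3 B1 B2 B3 m11_1 m11_2 m11_3 m12_1 m12_2 m12_3 m13_1 m13_2 m13_3 m22_1 m22_2 m22_3 m33_1 m33_2 m33_3 : ℤ} (C : Ctx2 n1 n2 n3 A1 A2 A3 B1 B2 B3 m11_1 m11_2 m11_3 m12_1 m12_2 m12_3 m13_1 m13_2 m13_3 m22_1 m22_2 m22_3 m33_1 m33_2 m33_3) :
    (1 * B1 ≤ 0) ∨ (1 * A1 ≤ 0) ∨ (1 * B3 ≤ 0) ∨ ((-2) * B1 + 1 * m11_1 + 1 * m13_1 ≤ -1) ∨ ((-2) * B2 + 1 * m11_2 + 1 * m13_2 ≤ -1) ∨ ((-2) * B3 + 1 * m11_3 + 1 * m13_3 ≤ -1) := by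
  have h := C.p11_13B
  clear C
  omega

theorem c2_11_13_22_k0_k_p11_22B {n1 n2 n3 A1 A2 A3 B1 B2 B3 m11_1 m11_2 m11_3 m12_1 m12_2 m12_3 m13_1 m13_2 m13_3 m22_1 m22_2 m22_3 m33_1 m33_2 m33_3 : ℤ} (C : Ctx2 n1 n2 n3 A1 A2 A3 B1 B2 B3 m11_1 m11_2 m11_3 m12_1 m12_2 m12_3 m13_1 m13_2 m13_3 m22_1 m22_2 m22_3 m33_1 m33_2 m33_3) :
    (1 * B1 ≤ 0) ∨ (1 * A2 ≤ 0) ∨ ((-2) * B1 + 1 * m11_1 + 1 * m22_1 ≤ -1) ∨ ((-2) * B2 + 1 * m11_2 + 1 * m22_2 ≤ -1) ∨ ((-2) * B3 + 1 * m11_3 + 1 * m22_3 ≤ -1) := by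
  have h := C.p11_22B
  clear C
  omega

theorem c2_11_13_22_k0_k_p11_33B {n1 n2 n3 A1 A2 A3 B1 B2 B3 m11_1 m11_2 m11_3 m12_1 m12_2 m12_3 m13_1 m13_2 m13_3 m22_1 m22_2 m22_3 m33_1 m33_2 m33_3 : ℤ} (C : Ctx2 n1 n2 n3 A1 A2 A3 B1 B2 B3 m11_1 m11_2 m11_3 m12_1 m12_2 m12_3 m13_1 m13_2 m13_3 m22_1 m22_2 m22_3 m33_1 m33_2 m33_3) :
    (1 * B1 ≤ 0) ∨ (1 * A3 ≤ 0) ∨ ((-2) * B1 + 1 * m11_1 + 1 * m33_1 ≤ -1) ∨ ((-2) * B2 + 1 * m11_2 + 1 * m33_2 ≤ -1) ∨ ((-2) * B3 + 1 * m11_3 + 1 * m33_3 ≤ -1) := by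
  have h := C.p11_33B
  clear C
  omega

theorem c2_11_13_22_k0_k_p12_13B {n1 n2 n3 A1 A2 A3 B1 B2 B3 m11_1 m11_2 m11_3 m12_1 m12_2 m12_3 m13_1 m13_2 m13_3 m22_1 m22_2 m22_3 m33_1 m33_2 m33_3 : ℤ} (C : Ctx2 n1 n2 n3 A1 A2 A3 B1 B2 B3 m11_1 m11_2 m11_3 m12_1 m12_2 m12_3 m13_1 m13_2 m13_3 m22_1 m22_2 m22_3 m33_1 m33_2 m33_3) :
    (1 * A1 ≤ 0) ∨ (1 * B2 ≤ 0) ∨ (1 * B3 ≤ 0) ∨ ((-2) * B1 + 1 * m12_1 + 1 * m13_1 ≤ -1) ∨ ((-2) * B2 + 1 * m12_2 + 1 * m13_2 ≤ -1) ∨ ((-2) * B3 + 1 * m12_3 + 1 * m13_3 ≤ -1) := by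
  have h := C.p12_13B
  clear C
  omega

theorem c2_11_13_22_k0_k_tmzp {n1 n2 n3 A1 A2 A3 B1 B2 B3 m11_1 m11_2 m11_3 m12_1 m12_2 m12_3 m13_1 m13_2 m13_3 m22_1 m22_2 m22_3 m33_1 m33_2 m33_3 : ℤ} (C : Ctx2 n1 n2 n3 A1 A2 A3 B1 B2 B3 m11_1 m11_2 m11_3 m12_1 m12_2 m12_3 m13_1 m13_2 m13_3 m22_1 m22_2 m22_3 m33_1 m33_2 m33_3) :
    ((-1) * A1 + 1 * n1 ≤ 0) ∨ ((-1) * A1 + 1 * A2 ≤ 0) ∨ ((-1) * A2 + 1 * A3 ≤ 0) ∨ (1 * B1 ≤ 0) ∨ (1 * B1 + (-1) * B2 + 1 * n2 ≤ 0) ∨ (1 * B2 + (-1) * B3 + 1 * n3 ≤ 0) := by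
  have h := C.tmzp
  clear C
  omega

theorem c2_11_13_22_k0_k_tzpm {n1 n2 n3 A1 A2 A3 B1 B2 B3 m11_1 m11_2 m11_3 m12_1 m12_2 m12_3 m13_1 m13_2 m13_3 m22_1 m22_2 m22_3 m33_1 m33_2 m33_3 : ℤ} (C : Ctx2 n1 n2 n3 A1 A2 A3 B1 B2 B3 m11_1 m11_2 m11_3 m12_1 m12_2 m12_3 m13_1 m13_2 m13_3 m22_1 m22_2 m22_3 m33_1 m33_2 m33_3) :
    ((-1) * A1 + 1 * A2 ≤ 0) ∨ (1 * A2 + (-1) * A3 + 1 * n3 ≤ 1) ∨ (1 * B1 + (-1) * B2 + 1 * n2 ≤ 0) ∨ ((-1) * B2 + 1 * B3 ≤ 1) := by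
  have h := C.tzpm
  clear C
  omega

theorem c2_11_13_22_k0 {n1 n2 n3 A1 A2 A3 B1 B2 B3 m11_1 m11_2 m11_3 m12_1 m12_2 m12_3 m13_1 m13_2 m13_3 m22_1 m22_2 m22_3 m33_1 m33_2 m33_3 : ℤ}
    (C : Ctx2 n1 n2 n3 A1 A2 A3 B1 B2 B3 m11_1 m11_2 m11_3 m12_1 m12_2 m12_3 m13_1 m13_2 m13_3 m22_1 m22_2 m22_3 m33_1 m33_2 m33_3)
    (e0 : 0 < B1)
    (e1 : 0 < A1)
    (e2 : 0 < B3)
    (e3 : 0 < A2)
    (s1 : 0 * A1 + 3 * B1 ≤ m11_1 + m13_1 + m22_1)
    (s2 : 0 * A2 + 3 * B2 ≤ m11_2 + m13_2 + m22_2)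
    (s3 : 0 * A3 + 3 * B3 ≤ m11_3 + m13_3 + m22_3) : False := by
  rcases c2_11_13_22_k0_k_f12_2 C with ⟨c0_0_0, c0_0_1⟩ | ⟨c0_1_0, c0_1_1⟩
  · rcases c2_11_13_22_k0_k_f12_5 C with ⟨c1_0_0, c1_0_1⟩ | ⟨c1_1_0, c1_1_1⟩
    · linarith only [C.f11_0, C.f11_1, C.f12_4, C.f13_0, C.f13_3, C.f22_4, C.o0, C.o1, c0_0_1, c1_0_1, s2]
    · rcases c2_11_13_22_k0_k_f13_2 C with ⟨c2_0_0, c2_0_1⟩ | ⟨c2_1_0, c2_1_1⟩
      · rcases c2_11_13_22_k0_k_t23 C with ⟨c5_0_0, c5_0_1⟩ | ⟨c5_1_0, c5_1_1⟩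
        · rcases c2_11_13_22_k0_k_f13_5 C with ⟨c6_0_0, c6_0_1⟩ | ⟨c6_1_0, c6_1_1⟩
          · rcases c2_11_13_22_k0_k_f13_8 C with ⟨c7_0_0, c7_0_1⟩ | ⟨c7_1_0, c7_1_1⟩
            · linarith only [C.f11_0, C.f11_1, C.f11_2, C.f13_7, C.f22_4, C.f22_6, C.o0, C.o1, c2_0_1, c6_0_1, c7_0_1, s2, s3]
            · rcases c2_11_13_22_k0_k_p11_13B C with c9_0_0 | c9_1_0 | c9_2_0 | c9_3_0 | c9_4_0 | c9_5_0
              · linarith only [c9_0_0, e0]
              · linarith only [c9_1_0, e1]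
              · linarith only [c9_2_0, e2]
              · rcases c2_11_13_22_k0_k_p11_12B C with c11_0_0 | c11_1_0 | c11_2_0 | c11_3_0 | c11_4_0 | c11_5_0
                · linarith only [c11_0_0, e0]
                · linarith only [c11_1_0, e1]
                · linarith only [C.o1, c11_2_0, c5_0_0, e1]
                · rcases c2_11_13_22_k0_k_p11_22B C with c13_0_0 | c13_1_0 | c13_2_0 | c13_3_0 | c13_4_0
                  · linarith only [c13_0_0, e0]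
                  · linarith only [c13_1_0, e3]
                  · linarith only [C.f11_0, C.f13_0, c0_0_1, c11_3_0, c13_2_0, s1]
                  · rcases c2_11_13_22_k0_k_p12_13B C with c15_0_0 | c15_1_0 | c15_2_0 | c15_3_0 | c15_4_0 | c15_5_0
                    · linarith only [c15_0_0, e1]
                    · linarith only [C.o0, C.o1, c15_1_0, c5_0_0, e0]
                    · linarith only [c15_2_0, e2]
                    · linarith only [C.o0, c0_0_1, c15_3_0, c2_0_1]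
                    · linarith only [C.f11_0, C.f11_1, C.f22_4, C.o0, C.o1, c15_4_0, c1_1_1, c2_0_1, c6_0_1, s2]
                    · rcases c2_11_13_22_k0_k_tzpm C with c18_0_0 | c18_1_0 | c18_2_0 | c18_3_0
                      · linarith only [c18_0_0, c5_0_0]
                      · rcases c2_11_13_22_k0_k_tmzp C with c19_0_0 | c19_1_0 | c19_2_0 | c19_3_0 | c19_4_0 | c19_5_0
                        · rcases c2_11_13_22_k0_k_f33_2 C with ⟨c20_0_0, c20_0_1⟩ | ⟨c20_1_0, c20_1_1⟩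
                          · rcases c2_11_13_22_k0_k_f33_5 C with ⟨c25_0_0, c25_0_1⟩ | ⟨c25_1_0, c25_1_1⟩
                            · rcases c2_11_13_22_k0_k_f33_8 C with ⟨c26_0_0, c26_0_1⟩ | ⟨c26_1_0, c26_1_1⟩
                              · linarith only [C.a1, C.f11_0, C.f11_1, C.f11_2, C.f13_7, C.f22_4, C.f22_6, C.f33_7, C.o0, C.o2, c18_1_0, c20_0_1, c25_0_1, c26_0_1, s3]
                              · rcases c2_11_13_22_k0_k_p11_33B C with c28_0_0 | c28_1_0 | c28_2_0 | c28_3_0 | c28_4_0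
                                · linarith only [c28_0_0, e0]
                                · linarith only [C.a1, C.f11_0, C.f11_1, C.f11_2, C.f13_7, C.f22_4, C.f22_6, C.f33_4, C.o0, C.o2, c18_1_0, c20_0_1, c25_0_1, c28_1_0, c5_0_0, e0, s3]
                                · linarith only [C.a1, C.f11_0, C.o0, c20_0_1, c28_2_0]
                                · linarith only [C.a1, C.f11_0, C.f11_1, C.f11_2, C.f13_0, C.f13_3, C.f13_7, C.f22_4, C.f22_6, C.o0, C.o2, c18_1_0, c20_0_1, c25_0_1, c28_3_0, s2, s3]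
                                · linarith only [C.f13_7, C.f22_4, C.f22_6, c18_1_0, c26_1_1, c28_4_0, s3]
                            · rcases c2_11_13_22_k0_k_f33_8 C with ⟨c29_0_0, c29_0_1⟩ | ⟨c29_1_0, c29_1_1⟩
                              · linarith only [C.f11_0, C.f11_1, C.f11_2, C.f13_4, C.f13_7, C.f22_4, C.f22_6, C.f33_7, C.o0, C.o2, c18_1_0, c25_1_1, c29_0_1, c2_0_1, c6_0_1, s3]
                              · rcases c2_11_13_22_k0_k_p11_33B C with c31_0_0 | c31_1_0 | c31_2_0 | c31_3_0 | c31_4_0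
                                · linarith only [c31_0_0, e0]
                                · linarith only [C.f11_0, C.f11_1, C.f11_2, C.f13_4, C.f13_7, C.f22_4, C.f22_6, C.o0, C.o2, c18_1_0, c2_0_1, c31_1_0, c5_0_0, c6_0_1, e0, s3]
                                · linarith only [C.a1, C.f11_0, C.o0, c20_0_1, c31_2_0]
                                · linarith only [C.f11_0, C.f11_1, C.f11_2, C.f12_6, C.f13_4, C.f22_4, C.f22_6, C.o0, C.o2, c15_5_0, c18_1_0, c1_1_1, c25_1_1, c2_0_1, c31_3_0, c6_0_1, s3]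
                                · linarith only [C.f13_7, C.f22_4, C.f22_6, c18_1_0, c29_1_1, c31_4_0, s3]
                          · linarith only [C.f11_0, C.f11_1, C.f11_2, C.f13_4, C.f13_7, C.f22_4, C.f22_6, C.f33_0, C.o0, C.o2, c18_1_0, c19_0_0, c20_1_1, c2_0_1, c5_0_0, c6_0_1, s3]
                        · linarith only [c19_1_0, c5_0_0]
                        · linarith only [C.f11_0, C.f11_1, C.f11_2, C.f12_6, C.f13_4, C.f22_4, C.f22_6, C.o0, C.o1, c15_5_0, c18_1_0, c19_2_0, c1_1_1, c2_0_1, c6_0_1, s3]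
                        · linarith only [c19_3_0, e0]
                        · linarith only [C.f11_0, C.f11_1, C.f11_2, C.f12_6, C.f22_4, C.f22_6, C.o1, c15_5_0, c19_4_0, c1_1_1, c7_1_1, s3]
                        · linarith only [C.f11_2, C.f13_7, C.f22_6, c13_3_0, c19_5_0, s3]
                      · linarith only [C.f11_0, C.f11_1, C.f11_2, C.f12_6, C.f22_4, C.f22_6, C.o1, c15_5_0, c18_2_0, c1_1_1, c7_1_1, s3]
                      · linarith only [C.f11_0, C.f11_1, C.f11_2, C.f12_6, C.f13_4, C.f22_4, C.f22_6, C.o0, C.o1, c15_5_0, c18_3_0, c1_1_1, c2_0_1, c6_0_1, c7_1_1, s3]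
                  · linarith only [C.f13_7, c13_4_0, s3]
                · linarith only [C.f11_0, C.f11_1, C.f13_3, C.f22_4, C.o1, c11_4_0, c1_1_1, c9_3_0, s2]
                · linarith only [C.f12_6, C.f13_7, C.f22_4, C.f22_6, C.o1, c11_5_0, c1_1_1, s3]
              · linarith only [C.f22_4, C.o1, c9_4_0, s2]
              · linarith only [C.b3, C.f11_0, C.f11_1, C.f11_2, C.f22_4, C.f22_6, C.o1, c7_1_1, c9_5_0, s3]
          · rcases c2_11_13_22_k0_k_f13_8 C with ⟨c32_0_0, c32_0_1⟩ | ⟨c32_1_0, c32_1_1⟩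
            · linarith only [C.a4, C.f13_7, c32_0_1, c5_0_1, c6_1_1]
            · rcases c2_11_13_22_k0_k_p11_13B C with c34_0_0 | c34_1_0 | c34_2_0 | c34_3_0 | c34_4_0 | c34_5_0
              · linarith only [c34_0_0, e0]
              · linarith only [c34_1_0, e1]
              · linarith only [c34_2_0, e2]
              · rcases c2_11_13_22_k0_k_p11_12B C with c36_0_0 | c36_1_0 | c36_2_0 | c36_3_0 | c36_4_0 | c36_5_0
                · linarith only [c36_0_0, e0]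
                · linarith only [c36_1_0, e1]
                · linarith only [C.o1, c36_2_0, c5_0_0, e1]
                · rcases c2_11_13_22_k0_k_p11_22B C with c38_0_0 | c38_1_0 | c38_2_0 | c38_3_0 | c38_4_0
                  · linarith only [c38_0_0, e0]
                  · linarith only [c38_1_0, e3]
                  · linarith only [C.f11_0, c34_3_0, c38_2_0, s1]
                  · rcases c2_11_13_22_k0_k_p12_13B C with c40_0_0 | c40_1_0 | c40_2_0 | c40_3_0 | c40_4_0 | c40_5_0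
                    · linarith only [c40_0_0, e1]
                    · linarith only [C.o0, C.o1, c40_1_0, c5_0_0, e0]
                    · linarith only [c40_2_0, e2]
                    · linarith only [C.o0, c0_0_1, c2_0_1, c40_3_0]
                    · linarith only [c1_1_1, c38_3_0, c40_4_0, s2]
                    · rcases c2_11_13_22_k0_k_tzpm C with c42_0_0 | c42_1_0 | c42_2_0 | c42_3_0
                      · linarith only [c42_0_0, c5_0_0]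
                      · rcases c2_11_13_22_k0_k_tmzp C with c43_0_0 | c43_1_0 | c43_2_0 | c43_3_0 | c43_4_0 | c43_5_0
                        · rcases c2_11_13_22_k0_k_f33_2 C with ⟨c44_0_0, c44_0_1⟩ | ⟨c44_1_0, c44_1_1⟩
                          · rcases c2_11_13_22_k0_k_f33_5 C with ⟨c45_0_0, c45_0_1⟩ | ⟨c45_1_0, c45_1_1⟩
                            · linarith only [C.a1, C.f13_0, C.f13_3, C.f33_4, C.o2, c44_0_1, c45_0_1, c6_1_1]
                            · rcases c2_11_13_22_k0_k_f33_8 C with ⟨c46_0_0, c46_0_1⟩ | ⟨c46_1_0, c46_1_1⟩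
                              · linarith only [C.a4, C.f33_7, c45_1_1, c46_0_1, c5_0_1]
                              · rcases c2_11_13_22_k0_k_p11_33B C with c48_0_0 | c48_1_0 | c48_2_0 | c48_3_0 | c48_4_0
                                · linarith only [c48_0_0, e0]
                                · linarith only [C.f13_4, C.f13_6, C.o0, c32_1_1, c42_1_0, c48_1_0, c5_0_0, e0]
                                · linarith only [C.a1, C.f11_0, C.o0, c44_0_1, c48_2_0]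
                                · linarith only [C.f11_2, C.f13_4, C.f13_7, C.f22_4, C.f22_6, c38_3_0, c42_1_0, c45_1_1, c48_3_0, s2, s3]
                                · linarith only [C.f13_7, C.f22_4, C.f22_6, c42_1_0, c46_1_1, c48_4_0, s3]
                          · linarith only [C.f11_2, C.f13_4, C.f13_7, C.f22_6, C.f33_0, c38_3_0, c42_1_0, c43_0_0, c44_1_1, c5_0_0, s2, s3]
                        · linarith only [c43_1_0, c5_0_0]
                        · linarith only [C.f11_2, C.f13_4, C.f13_7, C.f22_6, c38_3_0, c42_1_0, c43_2_0, s2, s3]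
                        · linarith only [c43_3_0, e0]
                        · linarith only [C.f11_0, C.f11_1, C.f11_2, C.f13_0, C.f13_3, C.f13_7, C.f22_4, C.f22_6, C.o2, c0_0_1, c36_3_0, c42_1_0, c43_4_0, s2, s3]
                        · linarith only [C.f11_2, C.f13_7, C.f22_6, c38_3_0, c43_5_0, s3]
                      · linarith only [C.f11_0, C.f11_1, C.f11_2, C.f12_6, C.f22_4, C.f22_6, C.o1, c1_1_1, c32_1_1, c40_5_0, c42_2_0, s3]
                      · linarith only [C.f13_4, c38_3_0, c42_3_0, s2]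
                  · linarith only [C.f13_7, c38_4_0, s3]
                · linarith only [C.f11_0, C.f11_1, C.f13_3, C.f22_4, C.o1, c1_1_1, c34_3_0, c36_4_0, s2]
                · linarith only [C.f12_6, C.f13_7, C.f22_4, C.f22_6, C.o1, c1_1_1, c36_5_0, s3]
              · linarith only [C.f22_4, C.o1, c34_4_0, s2]
              · linarith only [C.b3, C.f11_0, C.f11_1, C.f11_2, C.f22_4, C.f22_6, C.o1, c32_1_1, c34_5_0, s3]
        · rcases c2_11_13_22_k0_k_f13_5 C with ⟨c49_0_0, c49_0_1⟩ | ⟨c49_1_0, c49_1_1⟩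
          · rcases c2_11_13_22_k0_k_f13_8 C with ⟨c50_0_0, c50_0_1⟩ | ⟨c50_1_0, c50_1_1⟩
            · linarith only [C.f11_0, C.f11_1, C.f11_2, C.f12_0, C.f12_3, C.f13_7, C.f22_4, C.f22_6, C.o0, C.o1, c1_1_1, c2_0_1, c49_0_1, c50_0_1, s3]
            · rcases c2_11_13_22_k0_k_p11_13B C with c52_0_0 | c52_1_0 | c52_2_0 | c52_3_0 | c52_4_0 | c52_5_0
              · linarith only [c52_0_0, e0]
              · linarith only [c52_1_0, e1]
              · linarith only [c52_2_0, e2]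
              · rcases c2_11_13_22_k0_k_p11_12B C with c54_0_0 | c54_1_0 | c54_2_0 | c54_3_0 | c54_4_0 | c54_5_0
                · linarith only [c54_0_0, e0]
                · linarith only [c54_1_0, e1]
                · linarith only [C.f22_1, C.o1, c52_3_0, c54_2_0, e0, s1]
                · rcases c2_11_13_22_k0_k_p12_13B C with c58_0_0 | c58_1_0 | c58_2_0 | c58_3_0 | c58_4_0 | c58_5_0
                  · linarith only [c58_0_0, e1]
                  · linarith only [C.f13_0, C.f22_1, C.o1, c0_0_1, c54_3_0, c58_1_0, e0, s1]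
                  · linarith only [c58_2_0, e2]
                  · linarith only [C.o0, c0_0_1, c2_0_1, c58_3_0]
                  · linarith only [C.f11_0, C.f11_1, C.f22_4, C.o0, C.o1, c1_1_1, c2_0_1, c49_0_1, c58_4_0, s2]
                  · rcases c2_11_13_22_k0_k_tzpm C with c60_0_0 | c60_1_0 | c60_2_0 | c60_3_0
                    · linarith only [C.f11_0, C.f13_0, C.f22_1, c0_0_1, c54_3_0, c60_0_0, s1]
                    · rcases c2_11_13_22_k0_k_tmzp C with c61_0_0 | c61_1_0 | c61_2_0 | c61_3_0 | c61_4_0 | c61_5_0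
                      · rcases c2_11_13_22_k0_k_f33_2 C with ⟨c62_0_0, c62_0_1⟩ | ⟨c62_1_0, c62_1_1⟩
                        · rcases c2_11_13_22_k0_k_f33_5 C with ⟨c66_0_0, c66_0_1⟩ | ⟨c66_1_0, c66_1_1⟩
                          · rcases c2_11_13_22_k0_k_f33_8 C with ⟨c67_0_0, c67_0_1⟩ | ⟨c67_1_0, c67_1_1⟩
                            · linarith only [C.a1, C.f11_0, C.f11_1, C.f11_2, C.f13_7, C.f22_4, C.f22_6, C.f33_7, C.o0, C.o2, c60_1_0, c62_0_1, c66_0_1, c67_0_1, s3]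
                            · rcases c2_11_13_22_k0_k_p11_33B C with c69_0_0 | c69_1_0 | c69_2_0 | c69_3_0 | c69_4_0
                              · linarith only [c69_0_0, e0]
                              · linarith only [C.a1, C.f11_0, C.f11_1, C.f11_2, C.f13_0, C.f13_7, C.f22_1, C.f22_4, C.f22_6, C.f33_4, C.o2, c60_1_0, c62_0_1, c66_0_1, c69_1_0, e0, s1, s3]
                              · linarith only [C.a1, C.f11_0, C.o0, c62_0_1, c69_2_0]
                              · linarith only [C.a1, C.f11_0, C.f11_1, C.f11_2, C.f12_6, C.f22_4, C.f22_6, C.o0, C.o2, c1_1_1, c58_5_0, c60_1_0, c62_0_1, c66_0_1, c69_3_0, s3]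
                              · linarith only [C.f13_7, C.f22_4, C.f22_6, c60_1_0, c67_1_1, c69_4_0, s3]
                          · rcases c2_11_13_22_k0_k_f33_8 C with ⟨c70_0_0, c70_0_1⟩ | ⟨c70_1_0, c70_1_1⟩
                            · linarith only [C.f11_0, C.f11_1, C.f11_2, C.f13_4, C.f13_7, C.f22_4, C.f22_6, C.f33_7, C.o0, C.o2, c2_0_1, c49_0_1, c60_1_0, c66_1_1, c70_0_1, s3]
                            · rcases c2_11_13_22_k0_k_p11_33B C with c72_0_0 | c72_1_0 | c72_2_0 | c72_3_0 | c72_4_0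
                              · linarith only [c72_0_0, e0]
                              · linarith only [C.f11_0, C.f11_1, C.f11_2, C.f13_4, C.f13_7, C.f22_1, C.f22_4, C.f22_6, C.o2, c49_0_1, c60_1_0, c72_1_0, e0, s1, s3]
                              · linarith only [C.a1, C.f11_0, C.o0, c62_0_1, c72_2_0]
                              · linarith only [C.f11_0, C.f11_1, C.f11_2, C.f12_6, C.f13_4, C.f22_4, C.f22_6, C.o0, C.o2, c1_1_1, c2_0_1, c49_0_1, c58_5_0, c60_1_0, c66_1_1, c72_3_0, s3]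
                              · linarith only [C.f13_7, C.f22_4, C.f22_6, c60_1_0, c70_1_1, c72_4_0, s3]
                        · linarith only [C.f11_0, C.f11_1, C.f11_2, C.f13_4, C.f13_7, C.f22_1, C.f22_4, C.f22_6, C.f33_0, C.o2, c0_0_1, c49_0_1, c54_3_0, c60_1_0, c61_0_0, c62_1_1, s1, s3]
                      · linarith only [C.f11_0, C.f13_0, C.f22_1, c0_0_1, c54_3_0, c61_1_0, s1]
                      · linarith only [C.f11_0, C.f11_1, C.f11_2, C.f13_4, C.f13_7, C.f22_4, C.f22_6, C.o0, C.o2, c2_0_1, c49_0_1, c60_1_0, c61_2_0, s3]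
                      · linarith only [c61_3_0, e0]
                      · linarith only [C.f11_0, C.f11_1, C.f11_2, C.f13_0, C.f13_3, C.f13_7, C.f22_4, C.f22_6, C.o2, c0_0_1, c54_3_0, c60_1_0, c61_4_0, s2, s3]
                      · linarith only [c5_1_1, c61_5_0]
                    · linarith only [C.f11_0, C.f11_1, C.f11_2, C.f12_6, C.f22_4, C.f22_6, C.o1, c1_1_1, c50_1_1, c58_5_0, c60_2_0, s3]
                    · linarith only [C.f11_0, C.f11_1, C.f11_2, C.f12_6, C.f13_4, C.f22_4, C.f22_6, C.o0, C.o1, c1_1_1, c2_0_1, c49_0_1, c50_1_1, c58_5_0, c60_3_0, s3]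
                · linarith only [C.f11_0, C.f11_1, C.f13_3, C.f22_4, C.o1, c1_1_1, c52_3_0, c54_4_0, s2]
                · linarith only [C.f12_6, C.f13_7, C.f22_4, C.f22_6, C.o1, c1_1_1, c54_5_0, s3]
              · linarith only [C.f22_4, C.o1, c52_4_0, s2]
              · linarith only [C.b3, C.f11_0, C.f11_1, C.f11_2, C.f22_4, C.f22_6, C.o1, c50_1_1, c52_5_0, s3]
          · rcases c2_11_13_22_k0_k_f13_8 C with ⟨c73_0_0, c73_0_1⟩ | ⟨c73_1_0, c73_1_1⟩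
            · linarith only [C.b4, C.f13_7, c49_1_1, c5_1_1, c73_0_1]
            · rcases c2_11_13_22_k0_k_p11_13B C with c75_0_0 | c75_1_0 | c75_2_0 | c75_3_0 | c75_4_0 | c75_5_0
              · linarith only [c75_0_0, e0]
              · linarith only [c75_1_0, e1]
              · linarith only [c75_2_0, e2]
              · rcases c2_11_13_22_k0_k_p11_12B C with c77_0_0 | c77_1_0 | c77_2_0 | c77_3_0 | c77_4_0 | c77_5_0
                · linarith only [c77_0_0, e0]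
                · linarith only [c77_1_0, e1]
                · linarith only [C.f22_1, C.o1, c75_3_0, c77_2_0, e0, s1]
                · rcases c2_11_13_22_k0_k_p11_22B C with c79_0_0 | c79_1_0 | c79_2_0 | c79_3_0 | c79_4_0
                  · linarith only [c79_0_0, e0]
                  · linarith only [c79_1_0, e3]
                  · linarith only [C.f11_0, c75_3_0, c79_2_0, s1]
                  · rcases c2_11_13_22_k0_k_p12_13B C with c81_0_0 | c81_1_0 | c81_2_0 | c81_3_0 | c81_4_0 | c81_5_0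
                    · linarith only [c81_0_0, e1]
                    · linarith only [C.f22_1, C.o1, c75_3_0, c81_1_0, e0, s1]
                    · linarith only [c81_2_0, e2]
                    · linarith only [C.o0, c0_0_1, c2_0_1, c81_3_0]
                    · linarith only [c1_1_1, c79_3_0, c81_4_0, s2]
                    · rcases c2_11_13_22_k0_k_tzpm C with c82_0_0 | c82_1_0 | c82_2_0 | c82_3_0
                      · linarith only [C.f11_0, C.f13_0, C.f22_1, c0_0_1, c77_3_0, c82_0_0, s1]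
                      · rcases c2_11_13_22_k0_k_tmzp C with c83_0_0 | c83_1_0 | c83_2_0 | c83_3_0 | c83_4_0 | c83_5_0
                        · rcases c2_11_13_22_k0_k_f33_2 C with ⟨c84_0_0, c84_0_1⟩ | ⟨c84_1_0, c84_1_1⟩
                          · rcases c2_11_13_22_k0_k_f33_5 C with ⟨c85_0_0, c85_0_1⟩ | ⟨c85_1_0, c85_1_1⟩
                            · linarith only [C.a1, C.f13_0, C.f13_3, C.f33_4, C.o2, c49_1_1, c84_0_1, c85_0_1]
                            · rcases c2_11_13_22_k0_k_f33_8 C with ⟨c86_0_0, c86_0_1⟩ | ⟨c86_1_0, c86_1_1⟩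
                              · linarith only [C.f11_2, C.f13_4, C.f13_7, C.f22_6, C.f33_7, c79_3_0, c85_1_1, c86_0_1, s2, s3]
                              · rcases c2_11_13_22_k0_k_p11_33B C with c88_0_0 | c88_1_0 | c88_2_0 | c88_3_0 | c88_4_0
                                · linarith only [c88_0_0, e0]
                                · linarith only [C.f13_0, C.f13_4, C.f13_6, C.f22_1, c0_0_1, c73_1_1, c77_3_0, c82_1_0, c88_1_0, e0, s1]
                                · linarith only [C.a1, C.f11_0, C.o0, c84_0_1, c88_2_0]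
                                · linarith only [C.f11_2, C.f13_4, C.f13_7, C.f22_4, C.f22_6, c79_3_0, c82_1_0, c85_1_1, c88_3_0, s2, s3]
                                · linarith only [C.f13_7, C.f22_4, C.f22_6, c82_1_0, c86_1_1, c88_4_0, s3]
                          · linarith only [C.f11_0, C.f11_2, C.f13_0, C.f13_4, C.f13_7, C.f22_1, C.f22_6, C.f33_0, c0_0_1, c77_3_0, c79_3_0, c82_1_0, c83_0_0, c84_1_1, s1, s2, s3]
                        · linarith only [C.f11_0, C.f13_0, C.f22_1, c0_0_1, c77_3_0, c83_1_0, s1]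
                        · linarith only [C.f11_2, C.f13_4, C.f13_7, C.f22_6, c79_3_0, c82_1_0, c83_2_0, s2, s3]
                        · linarith only [c83_3_0, e0]
                        · linarith only [C.f11_0, C.f11_1, C.f11_2, C.f13_0, C.f13_3, C.f13_7, C.f22_4, C.f22_6, C.o2, c0_0_1, c77_3_0, c82_1_0, c83_4_0, s2, s3]
                        · linarith only [c5_1_1, c83_5_0]
                      · linarith only [C.f11_0, C.f11_1, C.f11_2, C.f12_6, C.f22_4, C.f22_6, C.o1, c1_1_1, c73_1_1, c81_5_0, c82_2_0, s3]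
                      · linarith only [C.f13_4, c79_3_0, c82_3_0, s2]
                  · linarith only [C.f13_7, c79_4_0, s3]
                · linarith only [C.f11_0, C.f11_1, C.f13_3, C.f22_4, C.o1, c1_1_1, c75_3_0, c77_4_0, s2]
                · linarith only [C.f12_6, C.f13_7, C.f22_4, C.f22_6, C.o1, c1_1_1, c77_5_0, s3]
              · linarith only [C.f22_4, C.o1, c75_4_0, s2]
              · linarith only [C.b3, C.f11_0, C.f11_1, C.f11_2, C.f22_4, C.f22_6, C.o1, c73_1_1, c75_5_0, s3]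
      · linarith only [C.a2, C.a4, C.f13_0, C.o2, c2_1_1]
  · linarith only [C.a2, C.f12_0, C.o1, c0_1_1]

end Pool.Agent.Helper24.TQ
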