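import Pool.Agent.Helper89.TQ.Ctx

set_option autoImplicit false
set_option linter.all false
set_option maxHeartbeats 4000000

namespace Pool.Agent.Helper24.TQ

open Pool.Agent.Helper89.TQ

theorem c2_11_22_33_k0_k_t12 {n1 n2 n3 A1 A2 A3 B1 B2 B3 m11_1 m11_2 m11_3 m12_1 m12_2 m12_3 m13_1 m13_2 m13_3 m22_1 m22_2 m22_3 m33_1 m33_2 m33_3 : ℤ} (C : Ctx2 n1 n2 n3 A1 A2 A3 B1 B2 B3 m11_1 m11_2 m11_3 m12_1 m12_2 m12_3 m13_1 m13_2 m13_3 m22_1 m22_2 m22_3 m33_1 m33_2 m33_3) :
    ((-1) * A1 ≤ -1 ∧ (-1) * A1 + 1 * A2 + (-1) * n2 ≤ -1) ∨ ((-1) * B1 ≤ -1 ∧ (-1) * B1 + 1 * B2 + (-1) * n2 ≤ -1) := by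
  have h := C.t12
  clear C
  omega

theorem c2_11_22_33_k0_k_t23 {n1 n2 n3 A1 A2 A3 B1 B2 B3 m11_1 m11_2 m11_3 m12_1 m12_2 m12_3 m13_1 m13_2 m13_3 m22_1 m22_2 m22_3 m33_1 m33_2 m33_3 : ℤ} (C : Ctx2 n1 n2 n3 A1 A2 A3 B1 B2 B3 m11_1 m11_2 m11_3 m12_1 m12_2 m12_3 m13_1 m13_2 m13_3 m22_1 m22_2 m22_3 m33_1 m33_2 m33_3) :
    (1 * A1 + (-1) * A2 ≤ -1 ∧ (-1) * A2 + 1 * A3 + (-1) * n3 ≤ -1) ∨ (1 * B1 + (-1) * B2 ≤ -1 ∧ (-1) * B2 + 1 * B3 + (-1) * n3 ≤ -1) := by
  have h := C.t23
  clear C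
  omega

theorem c2_11_22_33_k0_k_f12_2 {n1 n2 n3 A1 A2 A3 B1 B2 B3 m11_1 m11_2 m11_3 m12_1 m12_2 m12_3 m13_1 m13_2 m13_3 m22_1 m22_2 m22_3 m33_1 m33_2 m33_3 : ℤ} (C : Ctx2 n1 n2 n3 A1 A2 A3 B1 B2 B3 m11_1 m11_2 m11_3 m12_1 m12_2 m12_3 m13_1 m13_2 m13_3 m22_1 m22_2 m22_3 m33_1 m33_2 m33_3) :
    ((-1) * A1 + 1 * m12_1 ≤ -1 ∧ 1 * A1 + (-1) * m12_1 ≤ 1) ∨ ((-1) * B2 + 1 * m12_1 ≤ -1 ∧ 1 * B2 + (-1) * m12_1 ≤ 1) := by
  have h := C.f12_2
  clear C
  omega

theorem c2_11_22_33_k0_k_f12_5 {n1 n2 n3 A1 A2 A3 B1 B2 B3 m11_1 m11_2 m11_3 m12_1 m12_2 m12_3 m13_1 m13_2 m13_3 m22_1 m22_2 m22_3 m33_1 m33_2 m33_3 : ℤ} (C : Ctx2 n1 n2 n3 A1 A2 A3 B1 B2 B3 m11_1 m11_2 m11_3 m12_1 m12_2 m12_3 m13_1 m13_2 m13_3 m22_1 m22_2 m22_3 m33_1 m33_2 m33_3) :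
    ((-1) * m12_1 + 1 * m12_2 + (-1) * n2 ≤ 0 ∧ 1 * m12_1 + (-1) * m12_2 + 1 * n2 ≤ 0) ∨ ((-1) * B2 + 1 * m12_2 ≤ -1 ∧ 1 * B2 + (-1) * m12_2 ≤ 1) := by
  have h := C.f12_5
  clear C
  omega

theorem c2_11_22_33_k0_k_f13_2 {n1 n2 n3 A1 A2 A3 B1 B2 B3 m11_1 m11_2 m11_3 m12_1 m12_2 m12_3 m13_1 m13_2 m13_3 m22_1 m22_2 m22_3 m33_1 m33_2 m33_3 : ℤ} (C : Ctx2 n1 n2 n3 A1 A2 A3 B1 B2 B3 m11_1 m11_2 m11_3 m12_1 m12_2 m12_3 m13_1 m13_2 m13_3 m22_1 m22_2 m22_3 m33_1 m33_2 m33_3) :
    ((-1) * A1 + 1 * m13_1 ≤ -1 ∧ 1 * A1 + (-1) * m13_1 ≤ 1) ∨ ((-1) * B3 + 1 * m13_1 ≤ -1 ∧ 1 * B3 + (-1) * m13_1 ≤ 1) := by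
  have h := C.f13_2
  clear C
  omega

theorem c2_11_22_33_k0_k_f13_5 {n1 n2 n3 A1 A2 A3 B1 B2 B3 m11_1 m11_2 m11_3 m12_1 m12_2 m12_3 m13_1 m13_2 m13_3 m22_1 m22_2 m22_3 m33_1 m33_2 m33_3 : ℤ} (C : Ctx2 n1 n2 n3 A1 A2 A3 B1 B2 B3 m11_1 m11_2 m11_3 m12_1 m12_2 m12_3 m13_1 m13_2 m13_3 m22_1 m22_2 m22_3 m33_1 m33_2 m33_3) :
    ((-1) * m13_1 + 1 * m13_2 + (-1) * n2 ≤ 0 ∧ 1 * m13_1 + (-1) * m13_2 + 1 * n2 ≤ 0) ∨ ((-1) * B3 + 1 * m13_2 ≤ -1 ∧ 1 * B3 + (-1) * m13_2 ≤ 1) := by
  have h := C.f13_5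
  clear C
  omega

theorem c2_11_22_33_k0_k_f13_8 {n1 n2 n3 A1 A2 A3 B1 B2 B3 m11_1 m11_2 m11_3 m12_1 m12_2 m12_3 m13_1 m13_2 m13_3 m22_1 m22_2 m22_3 m33_1 m33_2 m33_3 : ℤ} (C : Ctx2 n1 n2 n3 A1 A2 A3 B1 B2 B3 m11_1 m11_2 m11_3 m12_1 m12_2 m12_3 m13_1 m13_2 m13_3 m22_1 m22_2 m22_3 m33_1 m33_2 m33_3) :
    ((-1) * m13_2 + 1 * m13_3 + (-1) * n3 ≤ 0 ∧ 1 * m13_2 + (-1) * m13_3 + 1 * n3 ≤ 0) ∨ ((-1) * B3 + 1 * m13_3 ≤ -1 ∧ 1 * B3 + (-1) * m13_3 ≤ 1) := by
  have h := C.f13_8
  clear C
  omega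

theorem c2_11_22_33_k0_k_f22_2 {n1 n2 n3 A1 A2 A3 B1 B2 B3 m11_1 m11_2 m11_3 m12_1 m12_2 m12_3 m13_1 m13_2 m13_3 m22_1 m22_2 m22_3 m33_1 m33_2 m33_3 : ℤ} (C : Ctx2 n1 n2 n3 A1 A2 A3 B1 B2 B3 m11_1 m11_2 m11_3 m12_1 m12_2 m12_3 m13_1 m13_2 m13_3 m22_1 m22_2 m22_3 m33_1 m33_2 m33_3) :
    (1 * m22_1 + (-1) * n1 ≤ 0 ∧ (-1) * m22_1 + 1 * n1 ≤ 0) ∨ ((-1) * A2 + 1 * m22_1 ≤ -1 ∧ 1 * A2 + (-1) * m22_1 ≤ 1) := by
  have h := C.f22_2
  clear C
  omega

theorem c2_11_22_33_k0_k_f22_5 {n1 n2 n3 A1 A2 A3 B1 B2 B3 m11_1 m11_2 m11_3 m12_1 m12_2 m12_3 m13_1 m13_2 m13_3 m22_1 m22_2 m22_3 m33_1 m33_2 m33_3 : ℤ} (C : Ctx2 n1 n2 n3 A1 A2 A3 B1 B2 B3 m11_1 m11_2 m11_3 m12_1 m12_2 m12_3 m13_1 m13_2 m13_3 m22_1 m22_2 m22_3 m33_1 m33_2 m33_3) :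
    ((-1) * m22_1 + 1 * m22_2 + (-1) * n2 ≤ 0 ∧ 1 * m22_1 + (-1) * m22_2 + 1 * n2 ≤ 0) ∨ ((-1) * A2 + 1 * m22_2 ≤ -1 ∧ 1 * A2 + (-1) * m22_2 ≤ 1) := by
  have h := C.f22_5
  clear C
  omega

theorem c2_11_22_33_k0_k_f33_2 {n1 n2 n3 A1 A2 A3 B1 B2 B3 m11_1 m11_2 m11_3 m12_1 m12_2 m12_3 m13_1 m13_2 m13_3 m22_1 m22_2 m22_3 m33_1 m33_2 m33_3 : ℤ} (C : Ctx2 n1 n2 n3 A1 A2 A3 B1 B2 B3 m11_1 m11_2 m11_3 m12_1 m12_2 m12_3 m13_1 m13_2 m13_3 m22_1 m22_2 m22_3 m33_1 m33_2 m33_3) :
    (1 * m33_1 + (-1) * n1 ≤ 0 ∧ (-1) * m33_1 + 1 * n1 ≤ 0) ∨ ((-1) * A3 + 1 * m33_1 ≤ -1 ∧ 1 * A3 + (-1) * m33_1 ≤ 1) := by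
  have h := C.f33_2
  clear C
  omega

theorem c2_11_22_33_k0_k_f33_5 {n1 n2 n3 A1 A2 A3 B1 B2 B3 m11_1 m11_2 m11_3 m12_1 m12_2 m12_3 m13_1 m13_2 m13_3 m22_1 m22_2 m22_3 m33_1 m33_2 m33_3 : ℤ} (C : Ctx2 n1 n2 n3 A1 A2 A3 B1 B2 B3 m11_1 m11_2 m11_3 m12_1 m12_2 m12_3 m13_1 m13_2 m13_3 m22_1 m22_2 m22_3 m33_1 m33_2 m33_3) :
    ((-1) * m33_1 + 1 * m33_2 + (-1) * n2 ≤ 0 ∧ 1 * m33_1 + (-1) * m33_2 + 1 * n2 ≤ 0) ∨ ((-1) * A3 + 1 * m33_2 ≤ -1 ∧ 1 * A3 + (-1) * m33_2 ≤ 1) := by
  have h := C.f33_5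
  clear C
  omega

theorem c2_11_22_33_k0_k_f33_8 {n1 n2 n3 A1 A2 A3 B1 B2 B3 m11_1 m11_2 m11_3 m12_1 m12_2 m12_3 m13_1 m13_2 m13_3 m22_1 m22_2 m22_3 m33_1 m33_2 m33_3 : ℤ} (C : Ctx2 n1 n2 n3 A1 A2 A3 B1 B2 B3 m11_1 m11_2 m11_3 m12_1 m12_2 m12_3 m13_1 m13_2 m13_3 m22_1 m22_2 m22_3 m33_1 m33_2 m33_3) :
    ((-1) * m33_2 + 1 * m33_3 + (-1) * n3 ≤ 0 ∧ 1 * m33_2 + (-1) * m33_3 + 1 * n3 ≤ 0) ∨ ((-1) * A3 + 1 * m33_3 ≤ -1 ∧ 1 * A3 + (-1) * m33_3 ≤ 1) := by
  have h := C.f33_8
  clear C
  omega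

theorem c2_11_22_33_k0_k_p11_12B {n1 n2 n3 A1 A2 A3 B1 B2 B3 m11_1 m11_2 m11_3 m12_1 m12_2 m12_3 m13_1 m13_2 m13_3 m22_1 m22_2 m22_3 m33_1 m33_2 m33_3 : ℤ} (C : Ctx2 n1 n2 n3 A1 A2 A3 B1 B2 B3 m11_1 m11_2 m11_3 m12_1 m12_2 m12_3 m13_1 m13_2 m13_3 m22_1 m22_2 m22_3 m33_1 m33_2 m33_3) :
    (1 * B1 ≤ 0) ∨ (1 * A1 ≤ 0) ∨ (1 * B2 ≤ 0) ∨ ((-2) * B1 + 1 * m11_1 + 1 * m12_1 ≤ -1) ∨ ((-2) * B2 + 1 * m11_2 + 1 * m12_2 ≤ -1) ∨ ((-2) * B3 + 1 * m11_3 + 1 * m12_3 ≤ -1) := by
  have h := C.p11_12B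
  clear C
  omega

theorem c2_11_22_33_k0_k_p11_13B {n1 n2 n3 A1 A2 A3 B1 B2 B3 m11_1 m11_2 m11_3 m12_1 m12_2 m12_3 m13_1 m13_2 m13_3 m22_1 m22_2 m22_3 m33_1 m33_2 m33_3 : ℤ} (C : Ctx2 n1 n2 n3 A1 A2 A3 B1 B2 B3 m11_1 m11_2 m11_3 m12_1 m12_2 m12_3 m13_1 m13_2 m13_3 m22_1 m22_2 m22_3 m33_1 m33_2 m33_3) :
    (1 * B1 ≤ 0) ∨ (1 * A1 ≤ 0) ∨ (1 * B3 ≤ 0) ∨ ((-2) * B1 + 1 * m11_1 + 1 * m13_1 ≤ -1) ∨ ((-2) * B2 + 1 * m11_2 + 1 * m13_2 ≤ -1) ∨ ((-2) * B3 + 1 * m11_3 + 1 * m13_3 ≤ -1) := by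
  have h := C.p11_13B
  clear C
  omega

theorem c2_11_22_33_k0_k_p11_22A {n1 n2 n3 A1 A2 A3 B1 B2 B3 m11_1 m11_2 m11_3 m12_1 m12_2 m12_3 m13_1 m13_2 m13_3 m22_1 m22_2 m22_3 m33_1 m33_2 m33_3 : ℤ} (C : Ctx2 n1 n2 n3 A1 A2 A3 B1 B2 B3 m11_1 m11_2 m11_3 m12_1 m12_2 m12_3 m13_1 m13_2 m13_3 m22_1 m22_2 m22_3 m33_1 m33_2 m33_3) :
    (1 * B1 ≤ 0) ∨ (1 * A2 ≤ 0) ∨ ((-2) * A1 + 1 * m11_1 + 1 * m22_1 ≤ -1) ∨ ((-2) * A2 + 1 * m11_2 + 1 * m22_2 ≤ -1) ∨ ((-2) * A3 + 1 * m11_3 + 1 * m22_3 ≤ -1) := by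
  have h := C.p11_22A
  clear C
  omega

theorem c2_11_22_33_k0_k_p11_22B {n1 n2 n3 A1 A2 A3 B1 B2 B3 m11_1 m11_2 m11_3 m12_1 m12_2 m12_3 m13_1 m13_2 m13_3 m22_1 m22_2 m22_3 m33_1 m33_2 m33_3 : ℤ} (C : Ctx2 n1 n2 n3 A1 A2 A3 B1 B2 B3 m11_1 m11_2 m11_3 m12_1 m12_2 m12_3 m13_1 m13_2 m13_3 m22_1 m22_2 m22_3 m33_1 m33_2 m33_3) :
    (1 * B1 ≤ 0) ∨ (1 * A2 ≤ 0) ∨ ((-2) * B1 + 1 * m11_1 + 1 * m22_1 ≤ -1) ∨ ((-2) * B2 + 1 * m11_2 + 1 * m22_2 ≤ -1) ∨ ((-2) * B3 + 1 * m11_3 + 1 * m22_3 ≤ -1) := by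
  have h := C.p11_22B
  clear C
  omega

theorem c2_11_22_33_k0_k_p11_33A {n1 n2 n3 A1 A2 A3 B1 B2 B3 m11_1 m11_2 m11_3 m12_1 m12_2 m12_3 m13_1 m13_2 m13_3 m22_1 m22_2 m22_3 m33_1 m33_2 m33_3 : ℤ} (C : Ctx2 n1 n2 n3 A1 A2 A3 B1 B2 B3 m11_1 m11_2 m11_3 m12_1 m12_2 m12_3 m13_1 m13_2 m13_3 m22_1 m22_2 m22_3 m33_1 m33_2 m33_3) :
    (1 * B1 ≤ 0) ∨ (1 * A3 ≤ 0) ∨ ((-2) * A1 + 1 * m11_1 + 1 * m33_1 ≤ -1) ∨ ((-2) * A2 + 1 * m11_2 + 1 * m33_2 ≤ -1) ∨ ((-2) * A3 + 1 * m11_3 + 1 * m33_3 ≤ -1) := by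
  have h := C.p11_33A
  clear C
  omega

theorem c2_11_22_33_k0_k_p11_33B {n1 n2 n3 A1 A2 A3 B1 B2 B3 m11_1 m11_2 m11_3 m12_1 m12_2 m12_3 m13_1 m13_2 m13_3 m22_1 m22_2 m22_3 m33_1 m33_2 m33_3 : ℤ} (C : Ctx2 n1 n2 n3 A1 A2 A3 B1 B2 B3 m11_1 m11_2 m11_3 m12_1 m12_2 m12_3 m13_1 m13_2 m13_3 m22_1 m22_2 m22_3 m33_1 m33_2 m33_3) :
    (1 * B1 ≤ 0) ∨ (1 * A3 ≤ 0) ∨ ((-2) * B1 + 1 * m11_1 + 1 * m33_1 ≤ -1) ∨ ((-2) * B2 + 1 * m11_2 + 1 * m33_2 ≤ -1) ∨ ((-2) * B3 + 1 * m11_3 + 1 * m33_3 ≤ -1) := by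
  have h := C.p11_33B
  clear C
  omega

theorem c2_11_22_33_k0_k_p12_13B {n1 n2 n3 A1 A2 A3 B1 B2 B3 m11_1 m11_2 m11_3 m12_1 m12_2 m12_3 m13_1 m13_2 m13_3 m22_1 m22_2 m22_3 m33_1 m33_2 m33_3 : ℤ} (C : Ctx2 n1 n2 n3 A1 A2 A3 B1 B2 B3 m11_1 m11_2 m11_3 m12_1 m12_2 m12_3 m13_1 m13_2 m13_3 m22_1 m22_2 m22_3 m33_1 m33_2 m33_3) :
    (1 * A1 ≤ 0) ∨ (1 * B2 ≤ 0) ∨ (1 * B3 ≤ 0) ∨ ((-2) * B1 + 1 * m12_1 + 1 * m13_1 ≤ -1) ∨ ((-2) * B2 + 1 * m12_2 + 1 * m13_2 ≤ -1) ∨ ((-2) * B3 + 1 * m12_3 + 1 * m13_3 ≤ -1) := by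
  have h := C.p12_13B
  clear C
  omega

theorem c2_11_22_33_k0_k_tpzm {n1 n2 n3 A1 A2 A3 B1 B2 B3 m11_1 m11_2 m11_3 m12_1 m12_2 m12_3 m13_1 m13_2 m13_3 m22_1 m22_2 m22_3 m33_1 m33_2 m33_3 : ℤ} (C : Ctx2 n1 n2 n3 A1 A2 A3 B1 B2 B3 m11_1 m11_2 m11_3 m12_1 m12_2 m12_3 m13_1 m13_2 m13_3 m22_1 m22_2 m22_3 m33_1 m33_2 m33_3) :
    (1 * A1 ≤ 0) ∨ (1 * A1 + (-1) * A2 + 1 * n2 ≤ 0) ∨ (1 * A2 + (-1) * A3 + 1 * n3 ≤ 0) ∨ ((-1) * B1 + 1 * n1 ≤ 0) ∨ ((-1) * B1 + 1 * B2 ≤ 0) ∨ ((-1) * B2 + 1 * B3 ≤ 0) ∨ (1 * A1 + (-1) * B1 ≤ 1) := by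
  have h := C.tpzm
  clear C
  omega

theorem c2_11_22_33_k0 {n1 n2 n3 A1 A2 A3 B1 B2 B3 m11_1 m11_2 m11_3 m12_1 m12_2 m12_3 m13_1 m13_2 m13_3 m22_1 m22_2 m22_3 m33_1 m33_2 m33_3 : ℤ}
    (C : Ctx2 n1 n2 n3 A1 A2 A3 B1 B2 B3 m11_1 m11_2 m11_3 m12_1 m12_2 m12_3 m13_1 m13_2 m13_3 m22_1 m22_2 m22_3 m33_1 m33_2 m33_3)
    (e0 : 0 < B1)
    (e1 : 0 < A2)
    (e2 : 0 < A3)
    (s1 : 0 * A1 + 3 * B1 ≤ m11_1 + m22_1 + m33_1)
    (s2 : 0 * A2 + 3 * B2 ≤ m11_2 + m22_2 + m33_2)
    (s3 : 0 * A3 + 3 * B3 ≤ m11_3 + m22_3 + m33_3) : False := by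
  rcases c2_11_22_33_k0_k_f12_2 C with ⟨c0_0_0, c0_0_1⟩ | ⟨c0_1_0, c0_1_1⟩
  · rcases c2_11_22_33_k0_k_f12_5 C with ⟨c1_0_0, c1_0_1⟩ | ⟨c1_1_0, c1_1_1⟩
    · linarith only [C.b3, C.f12_4, C.o0, c0_0_1, c1_0_1]
    · rcases c2_11_22_33_k0_k_f13_2 C with ⟨c2_0_0, c2_0_1⟩ | ⟨c2_1_0, c2_1_1⟩
      · rcases c2_11_22_33_k0_k_t12 C with ⟨c4_0_0, c4_0_1⟩ | ⟨c4_1_0, c4_1_1⟩
        · rcases c2_11_22_33_k0_k_t23 C with ⟨c5_0_0, c5_0_1⟩ | ⟨c5_1_0, c5_1_1⟩
          · rcases c2_11_22_33_k0_k_f13_5 C with ⟨c6_0_0, c6_0_1⟩ | ⟨c6_1_0, c6_1_1⟩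
            · rcases c2_11_22_33_k0_k_f13_8 C with ⟨c7_0_0, c7_0_1⟩ | ⟨c7_1_0, c7_1_1⟩
              · linarith only [C.f11_0, C.f11_1, C.f11_2, C.f12_0, C.f12_3, C.f13_7, C.f22_4, C.f22_6, C.f33_7, C.o0, C.o1, C.o2, c1_1_1, c2_0_1, c6_0_1, c7_0_1, s3]
              · rcases c2_11_22_33_k0_k_tpzm C with c10_0_0 | c10_1_0 | c10_2_0 | c10_3_0 | c10_4_0 | c10_5_0 | c10_6_0
                · linarith only [c10_0_0, c4_0_0]
                · linarith only [c10_1_0, c4_0_1]
                · linarith only [c10_2_0, c5_0_1]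
                · linarith only [C.a1, C.o0, c10_3_0]
                · linarith only [C.o0, C.o1, c10_4_0, c5_0_0]
                · linarith only [C.f11_0, C.f11_1, C.f13_4, C.f22_4, C.f33_4, C.o0, C.o1, C.o2, c10_5_0, c2_0_1, c6_0_1, s2]
                · rcases c2_11_22_33_k0_k_f22_2 C with ⟨c11_0_0, c11_0_1⟩ | ⟨c11_1_0, c11_1_1⟩
                  · rcases c2_11_22_33_k0_k_f22_5 C with ⟨c12_0_0, c12_0_1⟩ | ⟨c12_1_0, c12_1_1⟩
                    · linarith only [C.a1, C.f12_0, C.f12_3, C.f22_4, C.o1, c11_0_1, c12_0_1, c1_1_1]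
                    · rcases c2_11_22_33_k0_k_p11_22B C with c13_0_0 | c13_1_0 | c13_2_0 | c13_3_0 | c13_4_0
                      · linarith only [c13_0_0, e0]
                      · linarith only [c13_1_0, e1]
                      · linarith only [C.a1, C.f11_0, C.o0, c11_0_1, c13_2_0]
                      · rcases c2_11_22_33_k0_k_f33_2 C with ⟨c14_0_0, c14_0_1⟩ | ⟨c14_1_0, c14_1_1⟩
                        · rcases c2_11_22_33_k0_k_f33_8 C with ⟨c15_0_0, c15_0_1⟩ | ⟨c15_1_0, c15_1_1⟩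
                          · linarith only [C.f11_2, C.f22_6, C.f33_7, C.o2, c13_3_0, c15_0_1, s2, s3]
                          · rcases c2_11_22_33_k0_k_p11_33A C with c16_0_0 | c16_1_0 | c16_2_0 | c16_3_0 | c16_4_0
                            · linarith only [c16_0_0, e0]
                            · linarith only [c16_1_0, e2]
                            · rcases c2_11_22_33_k0_k_p11_22A C with c18_0_0 | c18_1_0 | c18_2_0 | c18_3_0 | c18_4_0
                              · linarith only [c18_0_0, e0]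
                              · linarith only [c18_1_0, e1]
                              · rcases c2_11_22_33_k0_k_p11_33B C with c19_0_0 | c19_1_0 | c19_2_0 | c19_3_0 | c19_4_0
                                · linarith only [c19_0_0, e0]
                                · linarith only [c19_1_0, e2]
                                · linarith only [C.a1, C.f11_0, C.o0, c14_0_1, c19_2_0]
                                · linarith only [C.f22_4, C.o1, c19_3_0, s2]
                                · rcases c2_11_22_33_k0_k_p12_13B C with c20_0_0 | c20_1_0 | c20_2_0 | c20_3_0 | c20_4_0 | c20_5_0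
                                  · linarith only [c20_0_0, c4_0_0]
                                  · linarith only [C.o1, c20_1_0, e1]
                                  · linarith only [C.f11_2, C.f22_4, C.f22_6, C.f33_4, C.o1, c15_1_1, c19_4_0, c20_2_0, e1, s2, s3]
                                  · linarith only [C.o0, c0_0_1, c20_3_0, c2_0_1]
                                  · linarith only [C.f11_1, C.f22_4, C.f33_0, C.f33_3, C.o1, c11_0_1, c18_2_0, c1_1_1, c20_4_0, c2_0_1, c6_0_1, s2]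
                                  · linarith only [C.f12_6, C.f22_4, C.f22_6, C.o1, c19_4_0, c1_1_1, c20_5_0, c7_1_1, s3]
                              · linarith only [C.f11_0, C.f11_1, C.f33_3, C.o1, c10_6_0, c12_1_1, c16_2_0, c18_3_0, s2]
                              · linarith only [C.f33_7, C.o2, c18_4_0, s3]
                            · linarith only [C.f22_4, C.o1, c16_3_0, s2]
                            · linarith only [C.f11_0, C.f11_1, C.f11_2, C.f12_0, C.f12_3, C.f22_4, C.f22_6, C.o1, C.o2, c10_6_0, c15_1_1, c16_4_0, c1_1_1, s3]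
                        · linarith only [C.f22_1, C.f33_0, C.f33_4, C.o1, c11_0_1, c13_3_0, c14_1_1, s2]
                      · linarith only [C.f33_7, C.o2, c13_4_0, s3]
                  · rcases c2_11_22_33_k0_k_p11_22B C with c22_0_0 | c22_1_0 | c22_2_0 | c22_3_0 | c22_4_0
                    · linarith only [c22_0_0, e0]
                    · linarith only [c22_1_0, e1]
                    · linarith only [C.f11_0, C.o0, c11_1_1, c22_2_0, c5_0_0]
                    · rcases c2_11_22_33_k0_k_f33_8 C with ⟨c23_0_0, c23_0_1⟩ | ⟨c23_1_0, c23_1_1⟩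
                      · linarith only [C.f33_7, C.o1, c22_3_0, c23_0_1, c5_0_1, s2]
                      · rcases c2_11_22_33_k0_k_p11_33A C with c24_0_0 | c24_1_0 | c24_2_0 | c24_3_0 | c24_4_0
                        · linarith only [c24_0_0, e0]
                        · linarith only [c24_1_0, e2]
                        · rcases c2_11_22_33_k0_k_f33_2 C with ⟨c25_0_0, c25_0_1⟩ | ⟨c25_1_0, c25_1_1⟩
                          · rcases c2_11_22_33_k0_k_p11_33B C with c28_0_0 | c28_1_0 | c28_2_0 | c28_3_0 | c28_4_0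
                            · linarith only [c28_0_0, e0]
                            · linarith only [c28_1_0, e2]
                            · linarith only [C.a1, C.f11_0, C.o0, c25_0_1, c28_2_0]
                            · linarith only [C.f22_4, C.o1, c28_3_0, s2]
                            · rcases c2_11_22_33_k0_k_p12_13B C with c29_0_0 | c29_1_0 | c29_2_0 | c29_3_0 | c29_4_0 | c29_5_0
                              · linarith only [c29_0_0, c4_0_0]
                              · linarith only [C.o0, C.o1, c29_1_0, c5_0_0, e0]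
                              · linarith only [C.f11_2, C.f22_4, C.f22_6, C.f33_4, C.o0, C.o1, c23_1_1, c28_4_0, c29_2_0, c5_0_0, e0, s2, s3]
                              · linarith only [C.o0, c0_0_1, c29_3_0, c2_0_1]
                              · linarith only [C.f11_1, C.f22_4, C.f33_3, C.o1, c1_1_1, c24_2_0, c29_4_0, c2_0_1, c6_0_1, s2]
                              · linarith only [C.f12_6, C.f22_4, C.f22_6, C.o1, c1_1_1, c28_4_0, c29_5_0, c7_1_1, s3]
                          · linarith only [C.f11_0, C.f33_4, C.o1, c10_6_0, c22_3_0, c24_2_0, c25_1_1, c5_0_0, s2]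
                        · linarith only [C.f22_4, C.o1, c24_3_0, s2]
                        · linarith only [C.f11_0, C.f11_1, C.f11_2, C.f12_0, C.f12_3, C.f22_4, C.f22_6, C.o1, C.o2, c10_6_0, c1_1_1, c23_1_1, c24_4_0, s3]
                    · linarith only [C.f33_7, C.o2, c22_4_0, s3]
            · rcases c2_11_22_33_k0_k_f13_8 C with ⟨c30_0_0, c30_0_1⟩ | ⟨c30_1_0, c30_1_1⟩
              · linarith only [C.a4, C.f13_7, c30_0_1, c5_0_1, c6_1_1]
              · rcases c2_11_22_33_k0_k_p11_13B C with c32_0_0 | c32_1_0 | c32_2_0 | c32_3_0 | c32_4_0 | c32_5_0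
                · linarith only [c32_0_0, e0]
                · linarith only [c32_1_0, c4_0_0]
                · linarith only [C.o2, c32_2_0, e2]
                · rcases c2_11_22_33_k0_k_p11_12B C with c33_0_0 | c33_1_0 | c33_2_0 | c33_3_0 | c33_4_0 | c33_5_0
                  · linarith only [c33_0_0, e0]
                  · linarith only [c33_1_0, c4_0_0]
                  · linarith only [C.o1, c33_2_0, e1]
                  · rcases c2_11_22_33_k0_k_f22_2 C with ⟨c35_0_0, c35_0_1⟩ | ⟨c35_1_0, c35_1_1⟩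
                    · rcases c2_11_22_33_k0_k_p11_22B C with c38_0_0 | c38_1_0 | c38_2_0 | c38_3_0 | c38_4_0
                      · linarith only [c38_0_0, e0]
                      · linarith only [c38_1_0, e1]
                      · linarith only [C.a1, C.f11_0, C.o0, c35_0_1, c38_2_0]
                      · rcases c2_11_22_33_k0_k_f33_2 C with ⟨c39_0_0, c39_0_1⟩ | ⟨c39_1_0, c39_1_1⟩
                        · rcases c2_11_22_33_k0_k_f33_8 C with ⟨c41_0_0, c41_0_1⟩ | ⟨c41_1_0, c41_1_1⟩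
                          · linarith only [C.f11_2, C.f22_6, C.f33_7, C.o2, c38_3_0, c41_0_1, s2, s3]
                          · rcases c2_11_22_33_k0_k_p11_33B C with c43_0_0 | c43_1_0 | c43_2_0 | c43_3_0 | c43_4_0
                            · linarith only [c43_0_0, e0]
                            · linarith only [c43_1_0, e2]
                            · linarith only [C.a1, C.f11_0, C.o0, c39_0_1, c43_2_0]
                            · linarith only [C.f22_4, C.o1, c43_3_0, s2]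
                            · linarith only [C.f11_0, C.f11_1, C.f11_2, C.f13_0, C.f13_3, C.f22_4, C.f22_6, C.f33_4, C.o1, c0_0_1, c33_3_0, c38_3_0, c41_1_1, c43_4_0, c6_1_1, s2, s3]
                        · linarith only [C.f22_1, C.f33_0, C.f33_4, C.o1, c35_0_1, c38_3_0, c39_1_1, s2]
                      · linarith only [C.f33_7, C.o2, c38_4_0, s3]
                    · rcases c2_11_22_33_k0_k_p11_22B C with c46_0_0 | c46_1_0 | c46_2_0 | c46_3_0 | c46_4_0
                      · linarith only [c46_0_0, e0]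
                      · linarith only [c46_1_0, e1]
                      · linarith only [C.f11_0, C.o0, c35_1_1, c46_2_0, c5_0_0]
                      · rcases c2_11_22_33_k0_k_f33_8 C with ⟨c47_0_0, c47_0_1⟩ | ⟨c47_1_0, c47_1_1⟩
                        · linarith only [C.f11_2, C.f22_6, C.f33_7, C.o2, c46_3_0, c47_0_1, s2, s3]
                        · rcases c2_11_22_33_k0_k_p11_33A C with c48_0_0 | c48_1_0 | c48_2_0 | c48_3_0 | c48_4_0
                          · linarith only [c48_0_0, e0]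
                          · linarith only [c48_1_0, e2]
                          · rcases c2_11_22_33_k0_k_f33_2 C with ⟨c49_0_0, c49_0_1⟩ | ⟨c49_1_0, c49_1_1⟩
                            · rcases c2_11_22_33_k0_k_p11_33B C with c51_0_0 | c51_1_0 | c51_2_0 | c51_3_0 | c51_4_0
                              · linarith only [c51_0_0, e0]
                              · linarith only [c51_1_0, e2]
                              · linarith only [C.a1, C.f11_0, C.o0, c49_0_1, c51_2_0]
                              · linarith only [C.f22_4, C.o1, c51_3_0, s2]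
                              · linarith only [C.f11_0, C.f11_1, C.f11_2, C.f13_0, C.f13_3, C.f22_4, C.f22_6, C.f33_4, C.o1, c0_0_1, c33_3_0, c46_3_0, c47_1_1, c51_4_0, c6_1_1, s2, s3]
                            · linarith only [C.f11_0, C.f33_4, C.o1, c0_0_1, c33_3_0, c46_3_0, c48_2_0, c49_1_1, c5_0_0, s2]
                          · linarith only [C.f22_4, C.o1, c48_3_0, s2]
                          · linarith only [C.f11_0, C.f11_1, C.f11_2, C.f12_3, C.f22_4, C.f22_6, C.o1, C.o2, c1_1_1, c33_3_0, c47_1_1, c48_4_0, s3]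
                      · linarith only [C.f33_7, C.o2, c46_4_0, s3]
                  · linarith only [C.f11_0, C.f11_1, C.f13_3, C.f22_4, C.f33_4, C.o1, C.o2, c1_1_1, c32_3_0, c33_4_0, c6_1_1, s2]
                  · linarith only [C.f12_6, C.f22_4, C.f22_6, C.f33_7, C.o1, C.o2, c1_1_1, c33_5_0, s3]
                · linarith only [C.f22_4, C.f33_4, C.o1, C.o2, c32_4_0, c6_1_1, s2]
                · linarith only [C.b3, C.f11_0, C.f11_1, C.f11_2, C.f22_4, C.f22_6, C.f33_7, C.o1, C.o2, c30_1_1, c32_5_0, s3]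
          · rcases c2_11_22_33_k0_k_f13_5 C with ⟨c52_0_0, c52_0_1⟩ | ⟨c52_1_0, c52_1_1⟩
            · rcases c2_11_22_33_k0_k_f13_8 C with ⟨c53_0_0, c53_0_1⟩ | ⟨c53_1_0, c53_1_1⟩
              · linarith only [C.f11_0, C.f11_1, C.f11_2, C.f12_0, C.f12_3, C.f13_7, C.f22_4, C.f22_6, C.f33_7, C.o0, C.o1, C.o2, c1_1_1, c2_0_1, c52_0_1, c53_0_1, s3]
              · rcases c2_11_22_33_k0_k_f33_2 C with ⟨c67_0_0, c67_0_1⟩ | ⟨c67_1_0, c67_1_1⟩
                · rcases c2_11_22_33_k0_k_p11_33B C with c68_0_0 | c68_1_0 | c68_2_0 | c68_3_0 | c68_4_0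
                  · linarith only [c68_0_0, e0]
                  · linarith only [c68_1_0, e2]
                  · linarith only [C.a1, C.f11_0, C.o0, c67_0_1, c68_2_0]
                  · linarith only [C.f22_4, C.o1, c68_3_0, s2]
                  · rcases c2_11_22_33_k0_k_f33_8 C with ⟨c69_0_0, c69_0_1⟩ | ⟨c69_1_0, c69_1_1⟩
                    · linarith only [C.f11_2, C.f22_4, C.f22_6, C.o1, c68_4_0, c69_0_1, s2, s3]
                    · rcases c2_11_22_33_k0_k_p11_33A C with c70_0_0 | c70_1_0 | c70_2_0 | c70_3_0 | c70_4_0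
                      · linarith only [c70_0_0, e0]
                      · linarith only [c70_1_0, e2]
                      · rcases c2_11_22_33_k0_k_p12_13B C with c73_0_0 | c73_1_0 | c73_2_0 | c73_3_0 | c73_4_0 | c73_5_0
                        · linarith only [c4_0_0, c73_0_0]
                        · linarith only [C.a2, C.o1, c4_0_0, c73_1_0]
                        · linarith only [C.a2, C.f11_2, C.f22_4, C.f22_6, C.f33_4, C.o1, c4_0_0, c68_4_0, c69_1_1, c73_2_0, s2, s3]
                        · linarith only [C.o0, c0_0_1, c2_0_1, c73_3_0]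
                        · linarith only [C.f11_1, C.f22_4, C.f33_3, C.o1, c1_1_1, c2_0_1, c52_0_1, c70_2_0, c73_4_0, s2]
                        · linarith only [C.f12_6, C.f22_4, C.f22_6, C.o1, c1_1_1, c53_1_1, c68_4_0, c73_5_0, s3]
                      · linarith only [C.f22_4, C.o1, c70_3_0, s2]
                      · linarith only [C.b3, C.f11_0, C.f11_1, C.f11_2, C.f22_4, C.f22_6, C.o1, c68_4_0, c69_1_1, c70_4_0, s3]
                · rcases c2_11_22_33_k0_k_f33_5 C with ⟨c74_0_0, c74_0_1⟩ | ⟨c74_1_0, c74_1_1⟩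
                  · linarith only [C.a2, C.f12_0, C.f12_3, C.f33_4, C.o1, c1_1_1, c67_1_1, c74_0_1]
                  · rcases c2_11_22_33_k0_k_f33_8 C with ⟨c75_0_0, c75_0_1⟩ | ⟨c75_1_0, c75_1_1⟩
                    · linarith only [C.f11_0, C.f11_1, C.f11_2, C.f13_4, C.f22_4, C.f22_6, C.f33_7, C.o0, C.o1, C.o2, c2_0_1, c52_0_1, c74_1_1, c75_0_1, s2, s3]
                    · rcases c2_11_22_33_k0_k_p11_33A C with c76_0_0 | c76_1_0 | c76_2_0 | c76_3_0 | c76_4_0
                      · linarith only [c76_0_0, e0]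
                      · linarith only [c76_1_0, e2]
                      · rcases c2_11_22_33_k0_k_p11_33B C with c81_0_0 | c81_1_0 | c81_2_0 | c81_3_0 | c81_4_0
                        · linarith only [c81_0_0, e0]
                        · linarith only [c81_1_0, e2]
                        · linarith only [C.a4, C.f11_0, C.f22_1, c67_1_1, c81_2_0, s1]
                        · linarith only [C.f22_4, C.o1, c81_3_0, s2]
                        · rcases c2_11_22_33_k0_k_p12_13B C with c82_0_0 | c82_1_0 | c82_2_0 | c82_3_0 | c82_4_0 | c82_5_0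
                          · linarith only [c4_0_0, c82_0_0]
                          · linarith only [C.a2, C.o1, c4_0_0, c82_1_0]
                          · linarith only [C.a2, C.f11_2, C.f22_4, C.f22_6, C.f33_4, C.o1, c4_0_0, c75_1_1, c81_4_0, c82_2_0, s2, s3]
                          · linarith only [C.o0, c0_0_1, c2_0_1, c82_3_0]
                          · linarith only [C.a2, C.f11_1, C.f22_4, C.f33_4, C.o1, c1_1_1, c2_0_1, c52_0_1, c67_1_1, c76_2_0, c82_4_0, s2]
                          · linarith only [C.f12_6, C.f22_4, C.f22_6, C.o1, c1_1_1, c53_1_1, c81_4_0, c82_5_0, s3]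
                      · linarith only [C.f22_4, C.o1, c76_3_0, s2]
                      · linarith only [C.b3, C.f11_0, C.f11_1, C.f11_2, C.f22_4, C.f22_6, C.o1, C.o2, c75_1_1, c76_4_0, s3]
            · rcases c2_11_22_33_k0_k_f13_8 C with ⟨c83_0_0, c83_0_1⟩ | ⟨c83_1_0, c83_1_1⟩
              · linarith only [C.b4, C.f13_7, c52_1_1, c5_1_1, c83_0_1]
              · rcases c2_11_22_33_k0_k_p11_13B C with c85_0_0 | c85_1_0 | c85_2_0 | c85_3_0 | c85_4_0 | c85_5_0
                · linarith only [c85_0_0, e0]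
                · linarith only [c4_0_0, c85_1_0]
                · linarith only [C.o2, c85_2_0, e2]
                · rcases c2_11_22_33_k0_k_p11_12B C with c86_0_0 | c86_1_0 | c86_2_0 | c86_3_0 | c86_4_0 | c86_5_0
                  · linarith only [c86_0_0, e0]
                  · linarith only [c4_0_0, c86_1_0]
                  · linarith only [C.o1, c86_2_0, e1]
                  · rcases c2_11_22_33_k0_k_f22_2 C with ⟨c88_0_0, c88_0_1⟩ | ⟨c88_1_0, c88_1_1⟩
                    · rcases c2_11_22_33_k0_k_p11_22B C with c91_0_0 | c91_1_0 | c91_2_0 | c91_3_0 | c91_4_0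
                      · linarith only [c91_0_0, e0]
                      · linarith only [c91_1_0, e1]
                      · linarith only [C.a1, C.f11_0, C.o0, c88_0_1, c91_2_0]
                      · rcases c2_11_22_33_k0_k_f33_2 C with ⟨c92_0_0, c92_0_1⟩ | ⟨c92_1_0, c92_1_1⟩
                        · rcases c2_11_22_33_k0_k_f33_8 C with ⟨c94_0_0, c94_0_1⟩ | ⟨c94_1_0, c94_1_1⟩
                          · linarith only [C.f11_2, C.f22_6, C.f33_7, C.o2, c91_3_0, c94_0_1, s2, s3]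
                          · rcases c2_11_22_33_k0_k_p11_33B C with c96_0_0 | c96_1_0 | c96_2_0 | c96_3_0 | c96_4_0
                            · linarith only [c96_0_0, e0]
                            · linarith only [c96_1_0, e2]
                            · linarith only [C.a1, C.f11_0, C.o0, c92_0_1, c96_2_0]
                            · linarith only [C.f22_4, C.o1, c96_3_0, s2]
                            · linarith only [C.f11_0, C.f11_1, C.f11_2, C.f13_0, C.f13_3, C.f22_4, C.f22_6, C.f33_4, C.o1, c0_0_1, c52_1_1, c86_3_0, c91_3_0, c94_1_1, c96_4_0, s2, s3]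
                        · linarith only [C.f22_1, C.f33_0, C.f33_4, C.o1, c88_0_1, c91_3_0, c92_1_1, s2]
                      · linarith only [C.f33_7, C.o2, c91_4_0, s3]
                    · rcases c2_11_22_33_k0_k_f33_2 C with ⟨c99_0_0, c99_0_1⟩ | ⟨c99_1_0, c99_1_1⟩
                      · rcases c2_11_22_33_k0_k_f33_5 C with ⟨c100_0_0, c100_0_1⟩ | ⟨c100_1_0, c100_1_1⟩
                        · linarith only [C.a1, C.f13_0, C.f13_3, C.f33_4, C.o2, c100_0_1, c52_1_1, c99_0_1]
                        · rcases c2_11_22_33_k0_k_f33_8 C with ⟨c101_0_0, c101_0_1⟩ | ⟨c101_1_0, c101_1_1⟩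
                          · linarith only [C.b4, C.f33_7, c100_1_1, c101_0_1, c5_1_1]
                          · rcases c2_11_22_33_k0_k_p11_33B C with c103_0_0 | c103_1_0 | c103_2_0 | c103_3_0 | c103_4_0
                            · linarith only [c103_0_0, e0]
                            · linarith only [c103_1_0, e2]
                            · linarith only [C.a1, C.f11_0, C.o0, c103_2_0, c99_0_1]
                            · linarith only [C.f22_4, C.o1, c103_3_0, s2]
                            · rcases c2_11_22_33_k0_k_p11_22B C with c104_0_0 | c104_1_0 | c104_2_0 | c104_3_0 | c104_4_0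
                              · linarith only [c104_0_0, e0]
                              · linarith only [c104_1_0, e1]
                              · linarith only [C.a1, C.f11_0, C.f11_1, C.f11_2, C.f13_0, C.f13_3, C.f22_4, C.f22_6, C.f33_1, c101_1_1, c103_4_0, c104_2_0, c52_1_1, c88_1_1, c99_0_1, s3]
                              · linarith only [C.f11_0, C.f11_1, C.f11_2, C.f13_0, C.f13_3, C.f22_4, C.f22_6, C.f33_4, C.o1, c0_0_1, c101_1_1, c103_4_0, c104_3_0, c52_1_1, c86_3_0, s2, s3]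
                              · linarith only [C.f11_0, C.f11_1, C.f11_2, C.f13_0, C.f13_3, C.f22_4, C.f22_6, C.f33_4, C.o1, c0_0_1, c101_1_1, c103_4_0, c104_4_0, c52_1_1, c86_3_0, s2, s3]
                      · rcases c2_11_22_33_k0_k_f33_5 C with ⟨c105_0_0, c105_0_1⟩ | ⟨c105_1_0, c105_1_1⟩
                        · linarith only [C.a2, C.f11_0, C.f11_1, C.f13_0, C.f13_3, C.f22_4, C.f33_4, C.o0, C.o1, C.o2, c105_0_1, c52_1_1, c99_1_1, s2]
                        · rcases c2_11_22_33_k0_k_f33_8 C with ⟨c106_0_0, c106_0_1⟩ | ⟨c106_1_0, c106_1_1⟩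
                          · linarith only [C.b4, C.f33_7, c105_1_1, c106_0_1, c5_1_1]
                          · rcases c2_11_22_33_k0_k_p11_33A C with c107_0_0 | c107_1_0 | c107_2_0 | c107_3_0 | c107_4_0
                            · linarith only [c107_0_0, e0]
                            · linarith only [c107_1_0, e2]
                            · rcases c2_11_22_33_k0_k_p11_22B C with c108_0_0 | c108_1_0 | c108_2_0 | c108_3_0 | c108_4_0
                              · linarith only [c108_0_0, e0]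
                              · linarith only [c108_1_0, e1]
                              · rcases c2_11_22_33_k0_k_p11_33B C with c109_0_0 | c109_1_0 | c109_2_0 | c109_3_0 | c109_4_0
                                · linarith only [c109_0_0, e0]
                                · linarith only [c109_1_0, e2]
                                · linarith only [C.a4, C.f11_0, C.f22_1, c109_2_0, c99_1_1, s1]
                                · linarith only [C.f22_4, C.o1, c109_3_0, s2]
                                · linarith only [C.a2, C.f11_0, C.f11_1, C.f11_2, C.f13_0, C.f13_3, C.f22_4, C.f22_6, C.f33_1, c106_1_1, c108_2_0, c109_4_0, c52_1_1, c88_1_1, s1, s3]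
                              · linarith only [C.a2, C.f11_0, C.f33_4, C.o1, c0_0_1, c107_2_0, c108_3_0, c86_3_0, c99_1_1, s2]
                              · linarith only [C.f33_7, C.o2, c108_4_0, s3]
                            · linarith only [C.f22_4, C.o1, c107_3_0, s2]
                            · linarith only [C.f11_0, C.f11_1, C.f11_2, C.f12_3, C.f22_4, C.f22_6, C.o1, C.o2, c106_1_1, c107_4_0, c1_1_1, c86_3_0, s3]
                  · linarith only [C.f11_0, C.f11_1, C.f13_3, C.f22_4, C.f33_4, C.o1, C.o2, c1_1_1, c52_1_1, c85_3_0, c86_4_0, s2]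
                  · linarith only [C.f12_6, C.f22_4, C.f22_6, C.f33_7, C.o1, C.o2, c1_1_1, c86_5_0, s3]
                · linarith only [C.f22_4, C.f33_4, C.o1, C.o2, c52_1_1, c85_4_0, s2]
                · linarith only [C.b3, C.f11_0, C.f11_1, C.f11_2, C.f22_4, C.f22_6, C.f33_7, C.o1, C.o2, c83_1_1, c85_5_0, s3]
        · rcases c2_11_22_33_k0_k_t23 C with ⟨c110_0_0, c110_0_1⟩ | ⟨c110_1_0, c110_1_1⟩
          · rcases c2_11_22_33_k0_k_f13_5 C with ⟨c111_0_0, c111_0_1⟩ | ⟨c111_1_0, c111_1_1⟩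
            · rcases c2_11_22_33_k0_k_f13_8 C with ⟨c112_0_0, c112_0_1⟩ | ⟨c112_1_0, c112_1_1⟩
              · linarith only [C.f11_0, C.f11_1, C.f11_2, C.f12_0, C.f12_3, C.f13_7, C.f22_4, C.f22_6, C.f33_7, C.o0, C.o1, C.o2, c111_0_1, c112_0_1, c1_1_1, c2_0_1, s3]
              · rcases c2_11_22_33_k0_k_p12_13B C with c116_0_0 | c116_1_0 | c116_2_0 | c116_3_0 | c116_4_0 | c116_5_0
                · linarith only [C.o0, c116_0_0, e0]
                · linarith only [C.a0, C.o1, c110_0_0, c116_1_0]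
                · linarith only [C.o2, c116_2_0, e2]
                · linarith only [C.o0, c0_0_1, c116_3_0, c2_0_1]
                · linarith only [C.o0, c111_0_1, c116_4_0, c1_1_1, c2_0_1, c4_1_1]
                · rcases c2_11_22_33_k0_k_p11_22B C with c119_0_0 | c119_1_0 | c119_2_0 | c119_3_0 | c119_4_0
                  · linarith only [c119_0_0, e0]
                  · linarith only [c119_1_0, e1]
                  · rcases c2_11_22_33_k0_k_f22_2 C with ⟨c120_0_0, c120_0_1⟩ | ⟨c120_1_0, c120_1_1⟩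
                    · linarith only [C.a1, C.f11_0, C.o0, c119_2_0, c120_0_1]
                    · linarith only [C.f11_0, C.o0, c110_0_0, c119_2_0, c120_1_1]
                  · linarith only [C.f11_2, C.f12_6, C.f22_6, C.f33_7, C.o2, c112_1_1, c116_5_0, c119_3_0, c1_1_1, s3]
                  · linarith only [C.f33_7, C.o2, c119_4_0, s3]
            · rcases c2_11_22_33_k0_k_f13_8 C with ⟨c121_0_0, c121_0_1⟩ | ⟨c121_1_0, c121_1_1⟩
              · linarith only [C.a4, C.f13_7, c110_0_1, c111_1_1, c121_0_1]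
              · rcases c2_11_22_33_k0_k_p11_13B C with c123_0_0 | c123_1_0 | c123_2_0 | c123_3_0 | c123_4_0 | c123_5_0
                · linarith only [c123_0_0, e0]
                · linarith only [C.o0, c123_1_0, e0]
                · linarith only [C.o2, c123_2_0, e2]
                · rcases c2_11_22_33_k0_k_p11_12B C with c124_0_0 | c124_1_0 | c124_2_0 | c124_3_0 | c124_4_0 | c124_5_0
                  · linarith only [c124_0_0, e0]
                  · linarith only [C.o0, c124_1_0, e0]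
                  · linarith only [C.o1, c124_2_0, e1]
                  · rcases c2_11_22_33_k0_k_f22_2 C with ⟨c126_0_0, c126_0_1⟩ | ⟨c126_1_0, c126_1_1⟩
                    · rcases c2_11_22_33_k0_k_p11_22B C with c129_0_0 | c129_1_0 | c129_2_0 | c129_3_0 | c129_4_0
                      · linarith only [c129_0_0, e0]
                      · linarith only [c129_1_0, e1]
                      · linarith only [C.a1, C.f11_0, C.o0, c126_0_1, c129_2_0]
                      · rcases c2_11_22_33_k0_k_f33_2 C with ⟨c130_0_0, c130_0_1⟩ | ⟨c130_1_0, c130_1_1⟩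
                        · rcases c2_11_22_33_k0_k_f33_8 C with ⟨c132_0_0, c132_0_1⟩ | ⟨c132_1_0, c132_1_1⟩
                          · linarith only [C.f11_2, C.f22_6, C.f33_7, C.o2, c129_3_0, c132_0_1, s2, s3]
                          · rcases c2_11_22_33_k0_k_p11_33B C with c134_0_0 | c134_1_0 | c134_2_0 | c134_3_0 | c134_4_0
                            · linarith only [c134_0_0, e0]
                            · linarith only [c134_1_0, e2]
                            · linarith only [C.a1, C.f11_0, C.o0, c130_0_1, c134_2_0]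
                            · linarith only [C.f22_4, C.o1, c134_3_0, s2]
                            · linarith only [C.f11_0, C.f11_1, C.f11_2, C.f13_0, C.f13_3, C.f22_4, C.f22_6, C.f33_4, C.o1, c0_0_1, c111_1_1, c124_3_0, c129_3_0, c132_1_1, c134_4_0, s2, s3]
                        · linarith only [C.f22_1, C.f33_0, C.f33_4, C.o1, c126_0_1, c129_3_0, c130_1_1, s2]
                      · linarith only [C.f33_7, C.o2, c129_4_0, s3]
                    · rcases c2_11_22_33_k0_k_p11_22B C with c137_0_0 | c137_1_0 | c137_2_0 | c137_3_0 | c137_4_0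
                      · linarith only [c137_0_0, e0]
                      · linarith only [c137_1_0, e1]
                      · linarith only [C.f11_0, C.o0, c110_0_0, c126_1_1, c137_2_0]
                      · rcases c2_11_22_33_k0_k_f33_8 C with ⟨c138_0_0, c138_0_1⟩ | ⟨c138_1_0, c138_1_1⟩
                        · linarith only [C.f11_2, C.f22_6, C.f33_7, C.o2, c137_3_0, c138_0_1, s2, s3]
                        · rcases c2_11_22_33_k0_k_p11_33A C with c139_0_0 | c139_1_0 | c139_2_0 | c139_3_0 | c139_4_0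
                          · linarith only [c139_0_0, e0]
                          · linarith only [c139_1_0, e2]
                          · rcases c2_11_22_33_k0_k_f33_2 C with ⟨c140_0_0, c140_0_1⟩ | ⟨c140_1_0, c140_1_1⟩
                            · rcases c2_11_22_33_k0_k_p11_33B C with c142_0_0 | c142_1_0 | c142_2_0 | c142_3_0 | c142_4_0
                              · linarith only [c142_0_0, e0]
                              · linarith only [c142_1_0, e2]
                              · linarith only [C.a1, C.f11_0, C.o0, c140_0_1, c142_2_0]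
                              · linarith only [C.f22_4, C.o1, c142_3_0, s2]
                              · linarith only [C.f11_0, C.f11_1, C.f11_2, C.f13_0, C.f13_3, C.f22_4, C.f22_6, C.f33_4, C.o1, c0_0_1, c111_1_1, c124_3_0, c137_3_0, c138_1_1, c142_4_0, s2, s3]
                            · linarith only [C.f11_0, C.f33_4, C.o1, c0_0_1, c110_0_0, c124_3_0, c137_3_0, c139_2_0, c140_1_1, s2]
                          · linarith only [C.f22_4, C.o1, c139_3_0, s2]
                          · linarith only [C.f11_0, C.f11_1, C.f11_2, C.f12_3, C.f22_4, C.f22_6, C.o1, C.o2, c124_3_0, c138_1_1, c139_4_0, c1_1_1, s3]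
                      · linarith only [C.f33_7, C.o2, c137_4_0, s3]
                  · linarith only [C.f11_0, C.f11_1, C.f13_3, C.f22_4, C.f33_4, C.o1, C.o2, c111_1_1, c123_3_0, c124_4_0, c1_1_1, s2]
                  · linarith only [C.f12_6, C.f22_4, C.f22_6, C.f33_7, C.o1, C.o2, c124_5_0, c1_1_1, s3]
                · linarith only [C.f22_4, C.f33_4, C.o1, C.o2, c111_1_1, c123_4_0, s2]
                · linarith only [C.f11_0, C.f11_1, C.f11_2, C.f22_4, C.f22_6, C.f33_7, C.o1, C.o2, c121_1_1, c123_5_0, c4_1_1, s3]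
          · rcases c2_11_22_33_k0_k_f13_5 C with ⟨c143_0_0, c143_0_1⟩ | ⟨c143_1_0, c143_1_1⟩
            · rcases c2_11_22_33_k0_k_f13_8 C with ⟨c144_0_0, c144_0_1⟩ | ⟨c144_1_0, c144_1_1⟩
              · linarith only [C.f11_0, C.f11_1, C.f11_2, C.f12_0, C.f12_3, C.f13_7, C.f22_4, C.f22_6, C.f33_7, C.o0, C.o1, C.o2, c143_0_1, c144_0_1, c1_1_1, c2_0_1, s3]
              · rcases c2_11_22_33_k0_k_p12_13B C with c148_0_0 | c148_1_0 | c148_2_0 | c148_3_0 | c148_4_0 | c148_5_0
                · linarith only [C.o0, c148_0_0, e0]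
                · linarith only [C.o1, c148_1_0, e1]
                · linarith only [C.o2, c148_2_0, e2]
                · linarith only [C.o0, c0_0_1, c148_3_0, c2_0_1]
                · linarith only [C.o0, c143_0_1, c148_4_0, c1_1_1, c2_0_1, c4_1_1]
                · rcases c2_11_22_33_k0_k_p11_33A C with c154_0_0 | c154_1_0 | c154_2_0 | c154_3_0 | c154_4_0
                  · linarith only [c154_0_0, e0]
                  · linarith only [c154_1_0, e2]
                  · rcases c2_11_22_33_k0_k_f33_2 C with ⟨c155_0_0, c155_0_1⟩ | ⟨c155_1_0, c155_1_1⟩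
                    · rcases c2_11_22_33_k0_k_p11_33B C with c156_0_0 | c156_1_0 | c156_2_0 | c156_3_0 | c156_4_0
                      · linarith only [c156_0_0, e0]
                      · linarith only [c156_1_0, e2]
                      · linarith only [C.a1, C.f11_0, C.o0, c155_0_1, c156_2_0]
                      · linarith only [C.f22_4, C.o1, c156_3_0, s2]
                      · linarith only [C.f12_6, C.f22_4, C.f22_6, C.o1, c144_1_1, c148_5_0, c156_4_0, c1_1_1, s3]
                    · linarith only [C.a2, C.f11_1, C.f11_2, C.f12_6, C.f13_4, C.f22_4, C.f22_6, C.f33_7, C.o1, c143_0_1, c144_1_1, c148_5_0, c154_2_0, c155_1_1, c1_1_1, c2_0_1, s3]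
                  · linarith only [C.f22_4, C.o1, c154_3_0, s2]
                  · linarith only [C.f12_6, C.f22_4, C.f22_6, C.o1, C.o2, c144_1_1, c148_5_0, c154_4_0, c1_1_1, s3]
            · rcases c2_11_22_33_k0_k_f13_8 C with ⟨c157_0_0, c157_0_1⟩ | ⟨c157_1_0, c157_1_1⟩
              · linarith only [C.b4, C.f13_7, c110_1_1, c143_1_1, c157_0_1]
              · rcases c2_11_22_33_k0_k_p11_13B C with c159_0_0 | c159_1_0 | c159_2_0 | c159_3_0 | c159_4_0 | c159_5_0
                · linarith only [c159_0_0, e0]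
                · linarith only [C.o0, c159_1_0, e0]
                · linarith only [C.o2, c159_2_0, e2]
                · rcases c2_11_22_33_k0_k_p11_12B C with c160_0_0 | c160_1_0 | c160_2_0 | c160_3_0 | c160_4_0 | c160_5_0
                  · linarith only [c160_0_0, e0]
                  · linarith only [C.o0, c160_1_0, e0]
                  · linarith only [C.o1, c160_2_0, e1]
                  · rcases c2_11_22_33_k0_k_f22_2 C with ⟨c162_0_0, c162_0_1⟩ | ⟨c162_1_0, c162_1_1⟩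
                    · rcases c2_11_22_33_k0_k_p11_22B C with c165_0_0 | c165_1_0 | c165_2_0 | c165_3_0 | c165_4_0
                      · linarith only [c165_0_0, e0]
                      · linarith only [c165_1_0, e1]
                      · linarith only [C.a1, C.f11_0, C.o0, c162_0_1, c165_2_0]
                      · rcases c2_11_22_33_k0_k_f33_2 C with ⟨c166_0_0, c166_0_1⟩ | ⟨c166_1_0, c166_1_1⟩
                        · rcases c2_11_22_33_k0_k_f33_8 C with ⟨c168_0_0, c168_0_1⟩ | ⟨c168_1_0, c168_1_1⟩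
                          · linarith only [C.f11_2, C.f22_6, C.f33_7, C.o2, c165_3_0, c168_0_1, s2, s3]
                          · rcases c2_11_22_33_k0_k_p11_33B C with c170_0_0 | c170_1_0 | c170_2_0 | c170_3_0 | c170_4_0
                            · linarith only [c170_0_0, e0]
                            · linarith only [c170_1_0, e2]
                            · linarith only [C.a1, C.f11_0, C.o0, c166_0_1, c170_2_0]
                            · linarith only [C.f22_4, C.o1, c170_3_0, s2]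
                            · linarith only [C.f11_0, C.f11_1, C.f11_2, C.f13_0, C.f13_3, C.f22_4, C.f22_6, C.f33_4, C.o1, c0_0_1, c143_1_1, c160_3_0, c165_3_0, c168_1_1, c170_4_0, s2, s3]
                        · linarith only [C.f22_1, C.f33_0, C.f33_4, C.o1, c162_0_1, c165_3_0, c166_1_1, s2]
                      · linarith only [C.f33_7, C.o2, c165_4_0, s3]
                    · rcases c2_11_22_33_k0_k_f33_2 C with ⟨c173_0_0, c173_0_1⟩ | ⟨c173_1_0, c173_1_1⟩
                      · rcases c2_11_22_33_k0_k_f33_5 C with ⟨c174_0_0, c174_0_1⟩ | ⟨c174_1_0, c174_1_1⟩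
                        · linarith only [C.a1, C.f13_0, C.f13_3, C.f33_4, C.o2, c143_1_1, c173_0_1, c174_0_1]
                        · rcases c2_11_22_33_k0_k_f33_8 C with ⟨c175_0_0, c175_0_1⟩ | ⟨c175_1_0, c175_1_1⟩
                          · linarith only [C.b4, C.f33_7, c110_1_1, c174_1_1, c175_0_1]
                          · rcases c2_11_22_33_k0_k_p11_33B C with c177_0_0 | c177_1_0 | c177_2_0 | c177_3_0 | c177_4_0
                            · linarith only [c177_0_0, e0]
                            · linarith only [c177_1_0, e2]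
                            · linarith only [C.a1, C.f11_0, C.o0, c173_0_1, c177_2_0]
                            · linarith only [C.f22_4, C.o1, c177_3_0, s2]
                            · rcases c2_11_22_33_k0_k_p11_22B C with c178_0_0 | c178_1_0 | c178_2_0 | c178_3_0 | c178_4_0
                              · linarith only [c178_0_0, e0]
                              · linarith only [c178_1_0, e1]
                              · linarith only [C.a1, C.f11_0, C.f11_1, C.f11_2, C.f13_0, C.f13_3, C.f22_4, C.f22_6, C.f33_1, c143_1_1, c162_1_1, c173_0_1, c175_1_1, c177_4_0, c178_2_0, s3]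
                              · linarith only [C.f11_0, C.f11_1, C.f11_2, C.f13_0, C.f13_3, C.f22_4, C.f22_6, C.f33_4, C.o1, c0_0_1, c143_1_1, c160_3_0, c175_1_1, c177_4_0, c178_3_0, s2, s3]
                              · linarith only [C.f11_0, C.f11_1, C.f11_2, C.f13_0, C.f13_3, C.f22_4, C.f22_6, C.f33_4, C.o1, c0_0_1, c143_1_1, c160_3_0, c175_1_1, c177_4_0, c178_4_0, s2, s3]
                      · rcases c2_11_22_33_k0_k_f33_5 C with ⟨c179_0_0, c179_0_1⟩ | ⟨c179_1_0, c179_1_1⟩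
                        · linarith only [C.a2, C.f11_0, C.f11_1, C.f13_0, C.f13_3, C.f22_4, C.f33_4, C.o0, C.o1, C.o2, c143_1_1, c173_1_1, c179_0_1, s2]
                        · rcases c2_11_22_33_k0_k_f33_8 C with ⟨c180_0_0, c180_0_1⟩ | ⟨c180_1_0, c180_1_1⟩
                          · linarith only [C.b4, C.f33_7, c110_1_1, c179_1_1, c180_0_1]
                          · rcases c2_11_22_33_k0_k_p11_33A C with c181_0_0 | c181_1_0 | c181_2_0 | c181_3_0 | c181_4_0
                            · linarith only [c181_0_0, e0]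
                            · linarith only [c181_1_0, e2]
                            · rcases c2_11_22_33_k0_k_p11_22B C with c182_0_0 | c182_1_0 | c182_2_0 | c182_3_0 | c182_4_0
                              · linarith only [c182_0_0, e0]
                              · linarith only [c182_1_0, e1]
                              · rcases c2_11_22_33_k0_k_p11_33B C with c183_0_0 | c183_1_0 | c183_2_0 | c183_3_0 | c183_4_0
                                · linarith only [c183_0_0, e0]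
                                · linarith only [c183_1_0, e2]
                                · linarith only [C.a4, C.f11_0, C.f22_1, c173_1_1, c183_2_0, s1]
                                · linarith only [C.f22_4, C.o1, c183_3_0, s2]
                                · linarith only [C.a2, C.f11_0, C.f11_1, C.f11_2, C.f13_0, C.f13_3, C.f22_4, C.f22_6, C.f33_1, c143_1_1, c162_1_1, c180_1_1, c182_2_0, c183_4_0, s1, s3]
                              · linarith only [C.a2, C.f11_0, C.f33_4, C.o1, c0_0_1, c160_3_0, c173_1_1, c181_2_0, c182_3_0, s2]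
                              · linarith only [C.f33_7, C.o2, c182_4_0, s3]
                            · linarith only [C.f22_4, C.o1, c181_3_0, s2]
                            · linarith only [C.f11_0, C.f11_1, C.f11_2, C.f12_3, C.f22_4, C.f22_6, C.o1, C.o2, c160_3_0, c180_1_1, c181_4_0, c1_1_1, s3]
                  · linarith only [C.f11_0, C.f11_1, C.f13_3, C.f22_4, C.f33_4, C.o1, C.o2, c143_1_1, c159_3_0, c160_4_0, c1_1_1, s2]
                  · linarith only [C.f12_6, C.f22_4, C.f22_6, C.f33_7, C.o1, C.o2, c160_5_0, c1_1_1, s3]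
                · linarith only [C.f22_4, C.f33_4, C.o1, C.o2, c143_1_1, c159_4_0, s2]
                · linarith only [C.f11_0, C.f11_1, C.f11_2, C.f22_4, C.f22_6, C.f33_7, C.o1, C.o2, c157_1_1, c159_5_0, c4_1_1, s3]
      · linarith only [C.a2, C.a4, C.f13_0, C.o2, c2_1_1]
  · linarith only [C.a2, C.f12_0, C.o1, c0_1_1]

end Pool.Agent.Helper24.TQ
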