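import Pool.Agent.Helper89.TQ.Ctx

set_option autoImplicit false
set_option linter.all false
set_option maxHeartbeats 4000000

namespace Pool.Agent.Helper24.TQ

open Pool.Agent.Helper89.TQ

theorem c2_11_22_33_k2_k_t12 {n1 n2 n3 A1 A2 A3 B1 B2 B3 m11_1 m11_2 m11_3 m12_1 m12_2 m12_3 m13_1 m13_2 m13_3 m22_1 m22_2 m22_3 m33_1 m33_2 m33_3 : ℤ} (C : Ctx2 n1 n2 n3 A1 A2 A3 B1 B2 B3 m11_1 m11_2 m11_3 m12_1 m12_2 m12_3 m13_1 m13_2 m13_3 m22_1 m22_2 m22_3 m33_1 m33_2 m33_3) :
    ((-1) * A1 ≤ -1 ∧ (-1) * A1 + 1 * A2 + (-1) * n2 ≤ -1) ∨ ((-1) * B1 ≤ -1 ∧ (-1) * B1 + 1 * B2 + (-1) * n2 ≤ -1) := by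
  have h := C.t12
  clear C
  omega

theorem c2_11_22_33_k2_k_t23 {n1 n2 n3 A1 A2 A3 B1 B2 B3 m11_1 m11_2 m11_3 m12_1 m12_2 m12_3 m13_1 m13_2 m13_3 m22_1 m22_2 m22_3 m33_1 m33_2 m33_3 : ℤ} (C : Ctx2 n1 n2 n3 A1 A2 A3 B1 B2 B3 m11_1 m11_2 m11_3 m12_1 m12_2 m12_3 m13_1 m13_2 m13_3 m22_1 m22_2 m22_3 m33_1 m33_2 m33_3) :
    (1 * A1 + (-1) * A2 ≤ -1 ∧ (-1) * A2 + 1 * A3 + (-1) * n3 ≤ -1) ∨ (1 * B1 + (-1) * B2 ≤ -1 ∧ (-1) * B2 + 1 * B3 + (-1) * n3 ≤ -1) := by
  have h := C.t23
  clear C
  omega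

theorem c2_11_22_33_k2_k_f12_2 {n1 n2 n3 A1 A2 A3 B1 B2 B3 m11_1 m11_2 m11_3 m12_1 m12_2 m12_3 m13_1 m13_2 m13_3 m22_1 m22_2 m22_3 m33_1 m33_2 m33_3 : ℤ} (C : Ctx2 n1 n2 n3 A1 A2 A3 B1 B2 B3 m11_1 m11_2 m11_3 m12_1 m12_2 m12_3 m13_1 m13_2 m13_3 m22_1 m22_2 m22_3 m33_1 m33_2 m33_3) :
    ((-1) * A1 + 1 * m12_1 ≤ -1 ∧ 1 * A1 + (-1) * m12_1 ≤ 1) ∨ ((-1) * B2 + 1 * m12_1 ≤ -1 ∧ 1 * B2 + (-1) * m12_1 ≤ 1) := by
  have h := C.f12_2
  clear C
  omega

theorem c2_11_22_33_k2_k_f12_5 {n1 n2 n3 A1 A2 A3 B1 B2 B3 m11_1 m11_2 m11_3 m12_1 m12_2 m12_3 m13_1 m13_2 m13_3 m22_1 m22_2 m22_3 m33_1 m33_2 m33_3 : ℤ} (C : Ctx2 n1 n2 n3 A1 A2 A3 B1 B2 B3 m11_1 m11_2 m11_3 m12_1 m12_2 m12_3 m13_1 m13_2 m13_3 m22_1 m22_2 m22_3 m33_1 m33_2 m33_3) :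
    ((-1) * m12_1 + 1 * m12_2 + (-1) * n2 ≤ 0 ∧ 1 * m12_1 + (-1) * m12_2 + 1 * n2 ≤ 0) ∨ ((-1) * B2 + 1 * m12_2 ≤ -1 ∧ 1 * B2 + (-1) * m12_2 ≤ 1) := by
  have h := C.f12_5
  clear C
  omega

theorem c2_11_22_33_k2_k_f13_2 {n1 n2 n3 A1 A2 A3 B1 B2 B3 m11_1 m11_2 m11_3 m12_1 m12_2 m12_3 m13_1 m13_2 m13_3 m22_1 m22_2 m22_3 m33_1 m33_2 m33_3 : ℤ} (C : Ctx2 n1 n2 n3 A1 A2 A3 B1 B2 B3 m11_1 m11_2 m11_3 m12_1 m12_2 m12_3 m13_1 m13_2 m13_3 m22_1 m22_2 m22_3 m33_1 m33_2 m33_3) :
    ((-1) * A1 + 1 * m13_1 ≤ -1 ∧ 1 * A1 + (-1) * m13_1 ≤ 1) ∨ ((-1) * B3 + 1 * m13_1 ≤ -1 ∧ 1 * B3 + (-1) * m13_1 ≤ 1) := by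
  have h := C.f13_2
  clear C
  omega

theorem c2_11_22_33_k2_k_f13_5 {n1 n2 n3 A1 A2 A3 B1 B2 B3 m11_1 m11_2 m11_3 m12_1 m12_2 m12_3 m13_1 m13_2 m13_3 m22_1 m22_2 m22_3 m33_1 m33_2 m33_3 : ℤ} (C : Ctx2 n1 n2 n3 A1 A2 A3 B1 B2 B3 m11_1 m11_2 m11_3 m12_1 m12_2 m12_3 m13_1 m13_2 m13_3 m22_1 m22_2 m22_3 m33_1 m33_2 m33_3) :
    ((-1) * m13_1 + 1 * m13_2 + (-1) * n2 ≤ 0 ∧ 1 * m13_1 + (-1) * m13_2 + 1 * n2 ≤ 0) ∨ ((-1) * B3 + 1 * m13_2 ≤ -1 ∧ 1 * B3 + (-1) * m13_2 ≤ 1) := by
  have h := C.f13_5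
  clear C
  omega

theorem c2_11_22_33_k2_k_f13_8 {n1 n2 n3 A1 A2 A3 B1 B2 B3 m11_1 m11_2 m11_3 m12_1 m12_2 m12_3 m13_1 m13_2 m13_3 m22_1 m22_2 m22_3 m33_1 m33_2 m33_3 : ℤ} (C : Ctx2 n1 n2 n3 A1 A2 A3 B1 B2 B3 m11_1 m11_2 m11_3 m12_1 m12_2 m12_3 m13_1 m13_2 m13_3 m22_1 m22_2 m22_3 m33_1 m33_2 m33_3) :
    ((-1) * m13_2 + 1 * m13_3 + (-1) * n3 ≤ 0 ∧ 1 * m13_2 + (-1) * m13_3 + 1 * n3 ≤ 0) ∨ ((-1) * B3 + 1 * m13_3 ≤ -1 ∧ 1 * B3 + (-1) * m13_3 ≤ 1) := by
  have h := C.f13_8
  clear C
  omega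

theorem c2_11_22_33_k2_k_f22_2 {n1 n2 n3 A1 A2 A3 B1 B2 B3 m11_1 m11_2 m11_3 m12_1 m12_2 m12_3 m13_1 m13_2 m13_3 m22_1 m22_2 m22_3 m33_1 m33_2 m33_3 : ℤ} (C : Ctx2 n1 n2 n3 A1 A2 A3 B1 B2 B3 m11_1 m11_2 m11_3 m12_1 m12_2 m12_3 m13_1 m13_2 m13_3 m22_1 m22_2 m22_3 m33_1 m33_2 m33_3) :
    (1 * m22_1 + (-1) * n1 ≤ 0 ∧ (-1) * m22_1 + 1 * n1 ≤ 0) ∨ ((-1) * A2 + 1 * m22_1 ≤ -1 ∧ 1 * A2 + (-1) * m22_1 ≤ 1) := by
  have h := C.f22_2
  clear C
  omega

theorem c2_11_22_33_k2_k_f22_5 {n1 n2 n3 A1 A2 A3 B1 B2 B3 m11_1 m11_2 m11_3 m12_1 m12_2 m12_3 m13_1 m13_2 m13_3 m22_1 m22_2 m22_3 m33_1 m33_2 m33_3 : ℤ} (C : Ctx2 n1 n2 n3 A1 A2 A3 B1 B2 B3 m11_1 m11_2 m11_3 m12_1 m12_2 m12_3 m13_1 m13_2 m13_3 m22_1 m22_2 m22_3 m33_1 m33_2 m33_3) :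
    ((-1) * m22_1 + 1 * m22_2 + (-1) * n2 ≤ 0 ∧ 1 * m22_1 + (-1) * m22_2 + 1 * n2 ≤ 0) ∨ ((-1) * A2 + 1 * m22_2 ≤ -1 ∧ 1 * A2 + (-1) * m22_2 ≤ 1) := by
  have h := C.f22_5
  clear C
  omega

theorem c2_11_22_33_k2_k_f33_2 {n1 n2 n3 A1 A2 A3 B1 B2 B3 m11_1 m11_2 m11_3 m12_1 m12_2 m12_3 m13_1 m13_2 m13_3 m22_1 m22_2 m22_3 m33_1 m33_2 m33_3 : ℤ} (C : Ctx2 n1 n2 n3 A1 A2 A3 B1 B2 B3 m11_1 m11_2 m11_3 m12_1 m12_2 m12_3 m13_1 m13_2 m13_3 m22_1 m22_2 m22_3 m33_1 m33_2 m33_3) :
    (1 * m33_1 + (-1) * n1 ≤ 0 ∧ (-1) * m33_1 + 1 * n1 ≤ 0) ∨ ((-1) * A3 + 1 * m33_1 ≤ -1 ∧ 1 * A3 + (-1) * m33_1 ≤ 1) := by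
  have h := C.f33_2
  clear C
  omega

theorem c2_11_22_33_k2_k_f33_5 {n1 n2 n3 A1 A2 A3 B1 B2 B3 m11_1 m11_2 m11_3 m12_1 m12_2 m12_3 m13_1 m13_2 m13_3 m22_1 m22_2 m22_3 m33_1 m33_2 m33_3 : ℤ} (C : Ctx2 n1 n2 n3 A1 A2 A3 B1 B2 B3 m11_1 m11_2 m11_3 m12_1 m12_2 m12_3 m13_1 m13_2 m13_3 m22_1 m22_2 m22_3 m33_1 m33_2 m33_3) :
    ((-1) * m33_1 + 1 * m33_2 + (-1) * n2 ≤ 0 ∧ 1 * m33_1 + (-1) * m33_2 + 1 * n2 ≤ 0) ∨ ((-1) * A3 + 1 * m33_2 ≤ -1 ∧ 1 * A3 + (-1) * m33_2 ≤ 1) := by
  have h := C.f33_5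
  clear C
  omega

theorem c2_11_22_33_k2_k_f33_8 {n1 n2 n3 A1 A2 A3 B1 B2 B3 m11_1 m11_2 m11_3 m12_1 m12_2 m12_3 m13_1 m13_2 m13_3 m22_1 m22_2 m22_3 m33_1 m33_2 m33_3 : ℤ} (C : Ctx2 n1 n2 n3 A1 A2 A3 B1 B2 B3 m11_1 m11_2 m11_3 m12_1 m12_2 m12_3 m13_1 m13_2 m13_3 m22_1 m22_2 m22_3 m33_1 m33_2 m33_3) :
    ((-1) * m33_2 + 1 * m33_3 + (-1) * n3 ≤ 0 ∧ 1 * m33_2 + (-1) * m33_3 + 1 * n3 ≤ 0) ∨ ((-1) * A3 + 1 * m33_3 ≤ -1 ∧ 1 * A3 + (-1) * m33_3 ≤ 1) := by
  have h := C.f33_8
  clear C
  omega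

theorem c2_11_22_33_k2_k_p11_12B {n1 n2 n3 A1 A2 A3 B1 B2 B3 m11_1 m11_2 m11_3 m12_1 m12_2 m12_3 m13_1 m13_2 m13_3 m22_1 m22_2 m22_3 m33_1 m33_2 m33_3 : ℤ} (C : Ctx2 n1 n2 n3 A1 A2 A3 B1 B2 B3 m11_1 m11_2 m11_3 m12_1 m12_2 m12_3 m13_1 m13_2 m13_3 m22_1 m22_2 m22_3 m33_1 m33_2 m33_3) :
    (1 * B1 ≤ 0) ∨ (1 * A1 ≤ 0) ∨ (1 * B2 ≤ 0) ∨ ((-2) * B1 + 1 * m11_1 + 1 * m12_1 ≤ -1) ∨ ((-2) * B2 + 1 * m11_2 + 1 * m12_2 ≤ -1) ∨ ((-2) * B3 + 1 * m11_3 + 1 * m12_3 ≤ -1) := by
  have h := C.p11_12B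
  clear C
  omega

theorem c2_11_22_33_k2_k_p11_13B {n1 n2 n3 A1 A2 A3 B1 B2 B3 m11_1 m11_2 m11_3 m12_1 m12_2 m12_3 m13_1 m13_2 m13_3 m22_1 m22_2 m22_3 m33_1 m33_2 m33_3 : ℤ} (C : Ctx2 n1 n2 n3 A1 A2 A3 B1 B2 B3 m11_1 m11_2 m11_3 m12_1 m12_2 m12_3 m13_1 m13_2 m13_3 m22_1 m22_2 m22_3 m33_1 m33_2 m33_3) :
    (1 * B1 ≤ 0) ∨ (1 * A1 ≤ 0) ∨ (1 * B3 ≤ 0) ∨ ((-2) * B1 + 1 * m11_1 + 1 * m13_1 ≤ -1) ∨ ((-2) * B2 + 1 * m11_2 + 1 * m13_2 ≤ -1) ∨ ((-2) * B3 + 1 * m11_3 + 1 * m13_3 ≤ -1) := by
  have h := C.p11_13B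
  clear C
  omega

theorem c2_11_22_33_k2_k_p11_22A {n1 n2 n3 A1 A2 A3 B1 B2 B3 m11_1 m11_2 m11_3 m12_1 m12_2 m12_3 m13_1 m13_2 m13_3 m22_1 m22_2 m22_3 m33_1 m33_2 m33_3 : ℤ} (C : Ctx2 n1 n2 n3 A1 A2 A3 B1 B2 B3 m11_1 m11_2 m11_3 m12_1 m12_2 m12_3 m13_1 m13_2 m13_3 m22_1 m22_2 m22_3 m33_1 m33_2 m33_3) :
    (1 * B1 ≤ 0) ∨ (1 * A2 ≤ 0) ∨ ((-2) * A1 + 1 * m11_1 + 1 * m22_1 ≤ -1) ∨ ((-2) * A2 + 1 * m11_2 + 1 * m22_2 ≤ -1) ∨ ((-2) * A3 + 1 * m11_3 + 1 * m22_3 ≤ -1) := by
  have h := C.p11_22A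
  clear C
  omega

theorem c2_11_22_33_k2_k_p11_22B {n1 n2 n3 A1 A2 A3 B1 B2 B3 m11_1 m11_2 m11_3 m12_1 m12_2 m12_3 m13_1 m13_2 m13_3 m22_1 m22_2 m22_3 m33_1 m33_2 m33_3 : ℤ} (C : Ctx2 n1 n2 n3 A1 A2 A3 B1 B2 B3 m11_1 m11_2 m11_3 m12_1 m12_2 m12_3 m13_1 m13_2 m13_3 m22_1 m22_2 m22_3 m33_1 m33_2 m33_3) :
    (1 * B1 ≤ 0) ∨ (1 * A2 ≤ 0) ∨ ((-2) * B1 + 1 * m11_1 + 1 * m22_1 ≤ -1) ∨ ((-2) * B2 + 1 * m11_2 + 1 * m22_2 ≤ -1) ∨ ((-2) * B3 + 1 * m11_3 + 1 * m22_3 ≤ -1) := by
  have h := C.p11_22B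
  clear C
  omega

theorem c2_11_22_33_k2_k_p11_33A {n1 n2 n3 A1 A2 A3 B1 B2 B3 m11_1 m11_2 m11_3 m12_1 m12_2 m12_3 m13_1 m13_2 m13_3 m22_1 m22_2 m22_3 m33_1 m33_2 m33_3 : ℤ} (C : Ctx2 n1 n2 n3 A1 A2 A3 B1 B2 B3 m11_1 m11_2 m11_3 m12_1 m12_2 m12_3 m13_1 m13_2 m13_3 m22_1 m22_2 m22_3 m33_1 m33_2 m33_3) :
    (1 * B1 ≤ 0) ∨ (1 * A3 ≤ 0) ∨ ((-2) * A1 + 1 * m11_1 + 1 * m33_1 ≤ -1) ∨ ((-2) * A2 + 1 * m11_2 + 1 * m33_2 ≤ -1) ∨ ((-2) * A3 + 1 * m11_3 + 1 * m33_3 ≤ -1) := by
  have h := C.p11_33A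
  clear C
  omega

theorem c2_11_22_33_k2_k_p11_33B {n1 n2 n3 A1 A2 A3 B1 B2 B3 m11_1 m11_2 m11_3 m12_1 m12_2 m12_3 m13_1 m13_2 m13_3 m22_1 m22_2 m22_3 m33_1 m33_2 m33_3 : ℤ} (C : Ctx2 n1 n2 n3 A1 A2 A3 B1 B2 B3 m11_1 m11_2 m11_3 m12_1 m12_2 m12_3 m13_1 m13_2 m13_3 m22_1 m22_2 m22_3 m33_1 m33_2 m33_3) :
    (1 * B1 ≤ 0) ∨ (1 * A3 ≤ 0) ∨ ((-2) * B1 + 1 * m11_1 + 1 * m33_1 ≤ -1) ∨ ((-2) * B2 + 1 * m11_2 + 1 * m33_2 ≤ -1) ∨ ((-2) * B3 + 1 * m11_3 + 1 * m33_3 ≤ -1) := by
  have h := C.p11_33B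
  clear C
  omega

theorem c2_11_22_33_k2_k_p12_13B {n1 n2 n3 A1 A2 A3 B1 B2 B3 m11_1 m11_2 m11_3 m12_1 m12_2 m12_3 m13_1 m13_2 m13_3 m22_1 m22_2 m22_3 m33_1 m33_2 m33_3 : ℤ} (C : Ctx2 n1 n2 n3 A1 A2 A3 B1 B2 B3 m11_1 m11_2 m11_3 m12_1 m12_2 m12_3 m13_1 m13_2 m13_3 m22_1 m22_2 m22_3 m33_1 m33_2 m33_3) :
    (1 * A1 ≤ 0) ∨ (1 * B2 ≤ 0) ∨ (1 * B3 ≤ 0) ∨ ((-2) * B1 + 1 * m12_1 + 1 * m13_1 ≤ -1) ∨ ((-2) * B2 + 1 * m12_2 + 1 * m13_2 ≤ -1) ∨ ((-2) * B3 + 1 * m12_3 + 1 * m13_3 ≤ -1) := by
  have h := C.p12_13B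
  clear C
  omega

theorem c2_11_22_33_k2_k_p12_22A {n1 n2 n3 A1 A2 A3 B1 B2 B3 m11_1 m11_2 m11_3 m12_1 m12_2 m12_3 m13_1 m13_2 m13_3 m22_1 m22_2 m22_3 m33_1 m33_2 m33_3 : ℤ} (C : Ctx2 n1 n2 n3 A1 A2 A3 B1 B2 B3 m11_1 m11_2 m11_3 m12_1 m12_2 m12_3 m13_1 m13_2 m13_3 m22_1 m22_2 m22_3 m33_1 m33_2 m33_3) :
    (1 * A1 ≤ 0) ∨ (1 * B2 ≤ 0) ∨ (1 * A2 ≤ 0) ∨ ((-2) * A1 + 1 * m12_1 + 1 * m22_1 ≤ -1) ∨ ((-2) * A2 + 1 * m12_2 + 1 * m22_2 ≤ -1) ∨ ((-2) * A3 + 1 * m12_3 + 1 * m22_3 ≤ -1) := by
  have h := C.p12_22A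
  clear C
  omega

theorem c2_11_22_33_k2_k_p12_33A {n1 n2 n3 A1 A2 A3 B1 B2 B3 m11_1 m11_2 m11_3 m12_1 m12_2 m12_3 m13_1 m13_2 m13_3 m22_1 m22_2 m22_3 m33_1 m33_2 m33_3 : ℤ} (C : Ctx2 n1 n2 n3 A1 A2 A3 B1 B2 B3 m11_1 m11_2 m11_3 m12_1 m12_2 m12_3 m13_1 m13_2 m13_3 m22_1 m22_2 m22_3 m33_1 m33_2 m33_3) :
    (1 * A1 ≤ 0) ∨ (1 * B2 ≤ 0) ∨ (1 * A3 ≤ 0) ∨ ((-2) * A1 + 1 * m12_1 + 1 * m33_1 ≤ -1) ∨ ((-2) * A2 + 1 * m12_2 + 1 * m33_2 ≤ -1) ∨ ((-2) * A3 + 1 * m12_3 + 1 * m33_3 ≤ -1) := by
  have h := C.p12_33A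
  clear C
  omega

theorem c2_11_22_33_k2_k_p13_22A {n1 n2 n3 A1 A2 A3 B1 B2 B3 m11_1 m11_2 m11_3 m12_1 m12_2 m12_3 m13_1 m13_2 m13_3 m22_1 m22_2 m22_3 m33_1 m33_2 m33_3 : ℤ} (C : Ctx2 n1 n2 n3 A1 A2 A3 B1 B2 B3 m11_1 m11_2 m11_3 m12_1 m12_2 m12_3 m13_1 m13_2 m13_3 m22_1 m22_2 m22_3 m33_1 m33_2 m33_3) :
    (1 * A1 ≤ 0) ∨ (1 * B3 ≤ 0) ∨ (1 * A2 ≤ 0) ∨ ((-2) * A1 + 1 * m13_1 + 1 * m22_1 ≤ -1) ∨ ((-2) * A2 + 1 * m13_2 + 1 * m22_2 ≤ -1) ∨ ((-2) * A3 + 1 * m13_3 + 1 * m22_3 ≤ -1) := by
  have h := C.p13_22A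
  clear C
  omega

theorem c2_11_22_33_k2_k_p13_33A {n1 n2 n3 A1 A2 A3 B1 B2 B3 m11_1 m11_2 m11_3 m12_1 m12_2 m12_3 m13_1 m13_2 m13_3 m22_1 m22_2 m22_3 m33_1 m33_2 m33_3 : ℤ} (C : Ctx2 n1 n2 n3 A1 A2 A3 B1 B2 B3 m11_1 m11_2 m11_3 m12_1 m12_2 m12_3 m13_1 m13_2 m13_3 m22_1 m22_2 m22_3 m33_1 m33_2 m33_3) :
    (1 * A1 ≤ 0) ∨ (1 * B3 ≤ 0) ∨ (1 * A3 ≤ 0) ∨ ((-2) * A1 + 1 * m13_1 + 1 * m33_1 ≤ -1) ∨ ((-2) * A2 + 1 * m13_2 + 1 * m33_2 ≤ -1) ∨ ((-2) * A3 + 1 * m13_3 + 1 * m33_3 ≤ -1) := by
  have h := C.p13_33A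
  clear C
  omega

theorem c2_11_22_33_k2_k_tmzp {n1 n2 n3 A1 A2 A3 B1 B2 B3 m11_1 m11_2 m11_3 m12_1 m12_2 m12_3 m13_1 m13_2 m13_3 m22_1 m22_2 m22_3 m33_1 m33_2 m33_3 : ℤ} (C : Ctx2 n1 n2 n3 A1 A2 A3 B1 B2 B3 m11_1 m11_2 m11_3 m12_1 m12_2 m12_3 m13_1 m13_2 m13_3 m22_1 m22_2 m22_3 m33_1 m33_2 m33_3) :
    ((-1) * A1 + 1 * n1 ≤ 0) ∨ ((-1) * A1 + 1 * A2 ≤ 0) ∨ ((-1) * A2 + 1 * A3 ≤ 0) ∨ (1 * B1 ≤ 0) ∨ (1 * B1 + (-1) * B2 + 1 * n2 ≤ 0) ∨ (1 * B2 + (-1) * B3 + 1 * n3 ≤ 0) := by
  have h := C.tmzp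
  clear C
  omega

theorem c2_11_22_33_k2 {n1 n2 n3 A1 A2 A3 B1 B2 B3 m11_1 m11_2 m11_3 m12_1 m12_2 m12_3 m13_1 m13_2 m13_3 m22_1 m22_2 m22_3 m33_1 m33_2 m33_3 : ℤ}
    (C : Ctx2 n1 n2 n3 A1 A2 A3 B1 B2 B3 m11_1 m11_2 m11_3 m12_1 m12_2 m12_3 m13_1 m13_2 m13_3 m22_1 m22_2 m22_3 m33_1 m33_2 m33_3)
    (e0 : 0 < B1)
    (e1 : 0 < A2)
    (e2 : 0 < A3)
    (s1 : 2 * A1 + 1 * B1 ≤ m11_1 + m22_1 + m33_1)
    (s2 : 2 * A2 + 1 * B2 ≤ m11_2 + m22_2 + m33_2)
    (s3 : 2 * A3 + 1 * B3 ≤ m11_3 + m22_3 + m33_3) : False := by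
  rcases c2_11_22_33_k2_k_f12_2 C with ⟨c0_0_0, c0_0_1⟩ | ⟨c0_1_0, c0_1_1⟩
  · rcases c2_11_22_33_k2_k_f12_5 C with ⟨c1_0_0, c1_0_1⟩ | ⟨c1_1_0, c1_1_1⟩
    · linarith only [C.b3, C.f12_4, C.o0, c0_0_1, c1_0_1]
    · rcases c2_11_22_33_k2_k_f13_2 C with ⟨c2_0_0, c2_0_1⟩ | ⟨c2_1_0, c2_1_1⟩
      · rcases c2_11_22_33_k2_k_t12 C with ⟨c4_0_0, c4_0_1⟩ | ⟨c4_1_0, c4_1_1⟩
        · rcases c2_11_22_33_k2_k_t23 C with ⟨c5_0_0, c5_0_1⟩ | ⟨c5_1_0, c5_1_1⟩
          · rcases c2_11_22_33_k2_k_f13_5 C with ⟨c6_0_0, c6_0_1⟩ | ⟨c6_1_0, c6_1_1⟩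
            · rcases c2_11_22_33_k2_k_f13_8 C with ⟨c7_0_0, c7_0_1⟩ | ⟨c7_1_0, c7_1_1⟩
              · linarith only [C.b3, C.b5, C.f13_7, C.o0, c2_0_1, c6_0_1, c7_0_1]
              · rcases c2_11_22_33_k2_k_f22_2 C with ⟨c11_0_0, c11_0_1⟩ | ⟨c11_1_0, c11_1_1⟩
                · rcases c2_11_22_33_k2_k_f22_5 C with ⟨c12_0_0, c12_0_1⟩ | ⟨c12_1_0, c12_1_1⟩
                  · linarith only [C.f11_0, C.f12_0, C.f12_3, C.f22_4, C.f33_0, C.o1, c11_0_1, c12_0_1, c1_1_1, s1]
                  · rcases c2_11_22_33_k2_k_p13_22A C with c14_0_0 | c14_1_0 | c14_2_0 | c14_3_0 | c14_4_0 | c14_5_0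
                    · linarith only [c14_0_0, c4_0_0]
                    · linarith only [C.f11_0, C.f11_1, C.f13_4, C.f22_4, C.f33_4, C.o0, C.o1, C.o2, c14_1_0, c2_0_1, c6_0_1, e1, s2]
                    · linarith only [c14_2_0, e1]
                    · linarith only [C.f11_0, C.f33_0, c11_0_1, c14_3_0, c2_0_1, s1]
                    · linarith only [C.b3, C.o0, C.o1, c12_1_1, c14_4_0, c2_0_1, c6_0_1]
                    · linarith only [C.f22_6, C.o2, c12_1_1, c14_5_0, c5_0_1, c7_1_1]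
                · rcases c2_11_22_33_k2_k_f22_5 C with ⟨c15_0_0, c15_0_1⟩ | ⟨c15_1_0, c15_1_1⟩
                  · linarith only [C.f12_0, C.f12_3, C.f22_4, C.o1, c11_1_1, c15_0_1, c1_1_1, c5_0_0]
                  · rcases c2_11_22_33_k2_k_p13_22A C with c16_0_0 | c16_1_0 | c16_2_0 | c16_3_0 | c16_4_0 | c16_5_0
                    · linarith only [c16_0_0, c4_0_0]
                    · linarith only [C.o2, c16_1_0, e2]
                    · linarith only [c16_2_0, e1]
                    · rcases c2_11_22_33_k2_k_p13_33A C with c17_0_0 | c17_1_0 | c17_2_0 | c17_3_0 | c17_4_0 | c17_5_0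
                      · linarith only [c17_0_0, c4_0_0]
                      · linarith only [C.f11_0, C.f11_1, C.f13_4, C.f22_4, C.f33_4, C.o0, C.o1, C.o2, c17_1_0, c2_0_1, c5_0_0, c6_0_1, e0, s2]
                      · linarith only [c17_2_0, e2]
                      · linarith only [C.f11_0, c16_3_0, c17_3_0, c2_0_1, s1]
                      · linarith only [C.f11_0, C.f11_1, C.f22_4, C.o0, C.o1, c17_4_0, c2_0_1, c6_0_1, s2]
                      · rcases c2_11_22_33_k2_k_p11_22B C with c18_0_0 | c18_1_0 | c18_2_0 | c18_3_0 | c18_4_0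
                        · linarith only [c18_0_0, e0]
                        · linarith only [c18_1_0, e1]
                        · linarith only [C.f11_0, C.o0, c11_1_1, c18_2_0, c5_0_0]
                        · rcases c2_11_22_33_k2_k_p12_33A C with c19_0_0 | c19_1_0 | c19_2_0 | c19_3_0 | c19_4_0 | c19_5_0
                          · linarith only [c19_0_0, c4_0_0]
                          · linarith only [C.o0, C.o1, c19_1_0, c5_0_0, e0]
                          · linarith only [c19_2_0, e2]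
                          · linarith only [C.f11_0, c0_0_1, c16_3_0, c19_3_0, c2_0_1, s1]
                          · linarith only [c18_3_0, c19_4_0, c1_1_1, s2]
                          · rcases c2_11_22_33_k2_k_f33_8 C with ⟨c20_0_0, c20_0_1⟩ | ⟨c20_1_0, c20_1_1⟩
                            · linarith only [C.f12_6, c18_3_0, c19_5_0, c1_1_1, c20_0_1, c5_0_1, s2]
                            · linarith only [C.f12_6, C.o1, c19_5_0, c1_1_1, c20_1_1, c5_0_1]
                        · linarith only [c17_5_0, c18_4_0, c7_1_1, s3]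
                    · linarith only [C.b3, C.o0, C.o1, c15_1_1, c16_4_0, c2_0_1, c6_0_1]
                    · linarith only [C.f22_6, C.o2, c15_1_1, c16_5_0, c5_0_1, c7_1_1]
            · rcases c2_11_22_33_k2_k_f13_8 C with ⟨c21_0_0, c21_0_1⟩ | ⟨c21_1_0, c21_1_1⟩
              · linarith only [C.a4, C.f13_7, c21_0_1, c5_0_1, c6_1_1]
              · rcases c2_11_22_33_k2_k_f22_2 C with ⟨c24_0_0, c24_0_1⟩ | ⟨c24_1_0, c24_1_1⟩
                · rcases c2_11_22_33_k2_k_f22_5 C with ⟨c25_0_0, c25_0_1⟩ | ⟨c25_1_0, c25_1_1⟩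
                  · linarith only [C.f11_0, C.f12_0, C.f12_3, C.f22_4, C.f33_0, C.o1, c1_1_1, c24_0_1, c25_0_1, s1]
                  · rcases c2_11_22_33_k2_k_p12_22A C with c26_0_0 | c26_1_0 | c26_2_0 | c26_3_0 | c26_4_0 | c26_5_0
                    · linarith only [c26_0_0, c4_0_0]
                    · linarith only [C.f11_0, C.f22_1, C.f33_0, C.o0, C.o1, c24_0_1, c26_1_0, e0, s1]
                    · linarith only [c26_2_0, e1]
                    · linarith only [C.f11_0, C.f33_0, c0_0_1, c24_0_1, c26_3_0, s1]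
                    · rcases c2_11_22_33_k2_k_p13_22A C with c27_0_0 | c27_1_0 | c27_2_0 | c27_3_0 | c27_4_0 | c27_5_0
                      · linarith only [c27_0_0, c4_0_0]
                      · linarith only [C.a4, C.o2, c27_1_0, e1]
                      · linarith only [c27_2_0, e1]
                      · linarith only [C.f11_0, C.f33_0, c24_0_1, c27_3_0, c2_0_1, s1]
                      · rcases c2_11_22_33_k2_k_p11_22B C with c33_0_0 | c33_1_0 | c33_2_0 | c33_3_0 | c33_4_0
                        · linarith only [c33_0_0, e0]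
                        · linarith only [c33_1_0, e1]
                        · linarith only [C.a1, C.f11_0, C.o0, c24_0_1, c33_2_0]
                        · linarith only [C.f33_4, C.o2, c1_1_1, c25_1_1, c26_4_0, c27_4_0, c33_3_0, c6_1_1, s2]
                        · linarith only [C.f11_2, C.f13_6, C.f22_6, C.f33_4, C.o1, c21_1_1, c25_1_1, c27_4_0, c33_4_0, c5_0_1, c6_1_1, s2]
                      · linarith only [C.f22_6, C.o2, c21_1_1, c25_1_1, c27_5_0, c5_0_1]
                    · linarith only [C.f12_6, C.f22_6, C.o1, c1_1_1, c25_1_1, c26_5_0, c5_0_1]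
                · rcases c2_11_22_33_k2_k_f33_2 C with ⟨c35_0_0, c35_0_1⟩ | ⟨c35_1_0, c35_1_1⟩
                  · rcases c2_11_22_33_k2_k_f33_5 C with ⟨c36_0_0, c36_0_1⟩ | ⟨c36_1_0, c36_1_1⟩
                    · linarith only [C.a1, C.f13_0, C.f13_3, C.f33_4, C.o2, c35_0_1, c36_0_1, c6_1_1]
                    · rcases c2_11_22_33_k2_k_f33_8 C with ⟨c37_0_0, c37_0_1⟩ | ⟨c37_1_0, c37_1_1⟩
                      · linarith only [C.a4, C.f33_7, c36_1_1, c37_0_1, c5_0_1]
                      · rcases c2_11_22_33_k2_k_p12_33A C with c39_0_0 | c39_1_0 | c39_2_0 | c39_3_0 | c39_4_0 | c39_5_0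
                        · linarith only [c39_0_0, c4_0_0]
                        · linarith only [C.o0, C.o1, c39_1_0, c5_0_0, e0]
                        · linarith only [c39_2_0, e2]
                        · linarith only [C.f11_0, C.f22_0, c0_0_1, c35_0_1, c39_3_0, s1]
                        · rcases c2_11_22_33_k2_k_p11_22B C with c43_0_0 | c43_1_0 | c43_2_0 | c43_3_0 | c43_4_0
                          · linarith only [c43_0_0, e0]
                          · linarith only [c43_1_0, e1]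
                          · linarith only [C.f11_0, C.f33_1, C.o0, C.o1, c1_1_1, c24_1_1, c36_1_1, c39_4_0, c43_2_0, s1]
                          · linarith only [c1_1_1, c39_4_0, c43_3_0, s2]
                          · linarith only [C.b5, C.f11_2, C.f22_6, c1_1_1, c39_4_0, c43_4_0, s2]
                        · linarith only [C.f12_6, C.o1, c1_1_1, c37_1_1, c39_5_0, c5_0_1]
                  · rcases c2_11_22_33_k2_k_f33_5 C with ⟨c44_0_0, c44_0_1⟩ | ⟨c44_1_0, c44_1_1⟩
                    · linarith only [C.f12_0, C.f12_3, C.f33_4, C.o1, c1_1_1, c35_1_1, c44_0_1, c5_0_0]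
                    · rcases c2_11_22_33_k2_k_f33_8 C with ⟨c45_0_0, c45_0_1⟩ | ⟨c45_1_0, c45_1_1⟩
                      · linarith only [C.a4, C.f33_7, c44_1_1, c45_0_1, c5_0_1]
                      · rcases c2_11_22_33_k2_k_p12_33A C with c47_0_0 | c47_1_0 | c47_2_0 | c47_3_0 | c47_4_0 | c47_5_0
                        · linarith only [c47_0_0, c4_0_0]
                        · linarith only [C.o0, C.o1, c47_1_0, c5_0_0, e0]
                        · linarith only [c47_2_0, e2]
                        · linarith only [C.a4, C.f11_0, C.f22_1, c0_0_1, c35_1_1, c47_3_0, s1]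
                        · rcases c2_11_22_33_k2_k_p11_22B C with c51_0_0 | c51_1_0 | c51_2_0 | c51_3_0 | c51_4_0
                          · linarith only [c51_0_0, e0]
                          · linarith only [c51_1_0, e1]
                          · linarith only [C.f11_0, C.f33_1, C.o0, C.o1, c1_1_1, c24_1_1, c44_1_1, c47_4_0, c51_2_0, s1]
                          · linarith only [c1_1_1, c47_4_0, c51_3_0, s2]
                          · linarith only [C.b5, C.f11_2, C.f22_6, c1_1_1, c47_4_0, c51_4_0, s2]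
                        · linarith only [C.f12_6, C.o1, c1_1_1, c45_1_1, c47_5_0, c5_0_1]
          · rcases c2_11_22_33_k2_k_f13_5 C with ⟨c52_0_0, c52_0_1⟩ | ⟨c52_1_0, c52_1_1⟩
            · rcases c2_11_22_33_k2_k_f13_8 C with ⟨c53_0_0, c53_0_1⟩ | ⟨c53_1_0, c53_1_1⟩
              · linarith only [C.f12_0, C.f12_3, C.f13_7, c1_1_1, c2_0_1, c52_0_1, c53_0_1, c5_1_1]
              · rcases c2_11_22_33_k2_k_f22_2 C with ⟨c56_0_0, c56_0_1⟩ | ⟨c56_1_0, c56_1_1⟩
                · rcases c2_11_22_33_k2_k_f22_5 C with ⟨c57_0_0, c57_0_1⟩ | ⟨c57_1_0, c57_1_1⟩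
                  · linarith only [C.a1, C.b3, C.f22_4, C.o0, C.o1, c56_0_1, c57_0_1]
                  · rcases c2_11_22_33_k2_k_p12_22A C with c58_0_0 | c58_1_0 | c58_2_0 | c58_3_0 | c58_4_0 | c58_5_0
                    · linarith only [c4_0_0, c58_0_0]
                    · linarith only [C.o1, c58_1_0, e1]
                    · linarith only [c58_2_0, e1]
                    · linarith only [C.f11_0, C.f33_0, c0_0_1, c56_0_1, c58_3_0, s1]
                    · rcases c2_11_22_33_k2_k_p13_22A C with c59_0_0 | c59_1_0 | c59_2_0 | c59_3_0 | c59_4_0 | c59_5_0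
                      · linarith only [c4_0_0, c59_0_0]
                      · linarith only [C.f11_0, C.f11_1, C.f13_4, C.f22_4, C.f33_4, C.o0, C.o1, C.o2, c2_0_1, c52_0_1, c59_1_0, e1, s2]
                      · linarith only [c59_2_0, e1]
                      · linarith only [C.f11_0, C.f33_0, c2_0_1, c56_0_1, c59_3_0, s1]
                      · linarith only [C.b3, C.o0, C.o1, c2_0_1, c52_0_1, c57_1_1, c59_4_0]
                      · linarith only [C.f22_6, C.o2, c1_1_1, c53_1_1, c57_1_1, c58_4_0, c59_5_0, c5_1_1]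
                    · linarith only [C.a5, C.f12_6, C.f22_6, C.o2, c1_1_1, c57_1_1, c58_5_0, c5_1_1]
                · rcases c2_11_22_33_k2_k_f33_2 C with ⟨c61_0_0, c61_0_1⟩ | ⟨c61_1_0, c61_1_1⟩
                  · rcases c2_11_22_33_k2_k_p13_33A C with c62_0_0 | c62_1_0 | c62_2_0 | c62_3_0 | c62_4_0 | c62_5_0
                    · linarith only [c4_0_0, c62_0_0]
                    · linarith only [C.o2, c62_1_0, e2]
                    · linarith only [c62_2_0, e2]
                    · linarith only [C.f11_0, C.f22_0, c2_0_1, c61_0_1, c62_3_0, s1]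
                    · linarith only [C.f11_0, C.f11_1, C.f22_4, C.o0, C.o1, c2_0_1, c52_0_1, c62_4_0, s2]
                    · rcases c2_11_22_33_k2_k_f33_5 C with ⟨c63_0_0, c63_0_1⟩ | ⟨c63_1_0, c63_1_1⟩
                      · rcases c2_11_22_33_k2_k_f33_8 C with ⟨c64_0_0, c64_0_1⟩ | ⟨c64_1_0, c64_1_1⟩
                        · linarith only [C.b3, C.f11_0, C.f11_1, C.f11_2, C.f22_0, C.f22_4, C.f22_6, C.o0, C.o1, C.o2, c53_1_1, c61_0_1, c62_5_0, c63_0_1, c64_0_1, s1, s3]
                        · rcases c2_11_22_33_k2_k_p11_33A C with c65_0_0 | c65_1_0 | c65_2_0 | c65_3_0 | c65_4_0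
                          · linarith only [c65_0_0, e0]
                          · linarith only [c65_1_0, e2]
                          · rcases c2_11_22_33_k2_k_p11_33B C with c67_0_0 | c67_1_0 | c67_2_0 | c67_3_0 | c67_4_0
                            · linarith only [c67_0_0, e0]
                            · linarith only [c67_1_0, e2]
                            · linarith only [C.a1, C.f11_0, C.o0, c61_0_1, c67_2_0]
                            · linarith only [C.b3, C.f11_0, C.f11_1, C.f22_0, C.o0, c61_0_1, c63_0_1, c67_3_0, s1]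
                            · rcases c2_11_22_33_k2_k_p12_33A C with c68_0_0 | c68_1_0 | c68_2_0 | c68_3_0 | c68_4_0 | c68_5_0
                              · linarith only [c4_0_0, c68_0_0]
                              · linarith only [C.f22_1, C.o1, c65_2_0, c68_1_0, e0, s1]
                              · linarith only [c68_2_0, e2]
                              · linarith only [C.f11_0, C.f22_0, c0_0_1, c61_0_1, c68_3_0, s1]
                              · linarith only [C.f11_0, C.f12_0, C.f12_3, C.f22_0, C.o1, c1_1_1, c61_0_1, c63_0_1, c68_4_0, s1]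
                              · linarith only [C.f12_6, C.f22_4, C.f22_6, C.o1, c1_1_1, c5_1_1, c64_1_1, c67_4_0, c68_5_0, s3]
                          · linarith only [C.a1, C.b3, C.f11_0, C.f11_1, C.o0, C.o1, c61_0_1, c63_0_1, c65_3_0]
                          · linarith only [C.b3, C.f11_0, C.f11_1, C.f11_2, C.f22_4, C.f22_6, C.o1, C.o2, c64_1_1, c65_4_0, s3]
                      · rcases c2_11_22_33_k2_k_f33_8 C with ⟨c69_0_0, c69_0_1⟩ | ⟨c69_1_0, c69_1_1⟩
                        · linarith only [C.f12_0, C.f12_3, C.f13_4, C.f33_7, c1_1_1, c2_0_1, c52_0_1, c5_1_1, c63_1_1, c69_0_1]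
                        · rcases c2_11_22_33_k2_k_p11_33A C with c70_0_0 | c70_1_0 | c70_2_0 | c70_3_0 | c70_4_0
                          · linarith only [c70_0_0, e0]
                          · linarith only [c70_1_0, e2]
                          · rcases c2_11_22_33_k2_k_p11_22B C with c71_0_0 | c71_1_0 | c71_2_0 | c71_3_0 | c71_4_0
                            · linarith only [c71_0_0, e0]
                            · linarith only [c71_1_0, e1]
                            · linarith only [C.f11_0, c70_2_0, c71_2_0, s1]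
                            · rcases c2_11_22_33_k2_k_p12_33A C with c72_0_0 | c72_1_0 | c72_2_0 | c72_3_0 | c72_4_0 | c72_5_0
                              · linarith only [c4_0_0, c72_0_0]
                              · linarith only [C.f22_1, C.o1, c70_2_0, c72_1_0, e0, s1]
                              · linarith only [c72_2_0, e2]
                              · linarith only [C.f11_0, C.f22_0, c0_0_1, c61_0_1, c72_3_0, s1]
                              · linarith only [c1_1_1, c71_3_0, c72_4_0, s2]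
                              · linarith only [C.f12_6, C.o2, c1_1_1, c5_1_1, c69_1_1, c72_5_0]
                            · linarith only [c53_1_1, c62_5_0, c71_4_0, s3]
                          · linarith only [C.f22_4, C.o1, c70_3_0, s2]
                          · linarith only [C.b3, C.f11_0, C.f11_1, C.f11_2, C.f22_4, C.f22_6, C.o1, C.o2, c69_1_1, c70_4_0, s3]
                  · rcases c2_11_22_33_k2_k_f33_5 C with ⟨c73_0_0, c73_0_1⟩ | ⟨c73_1_0, c73_1_1⟩
                    · linarith only [C.a2, C.f12_0, C.f12_3, C.f33_4, C.o1, c1_1_1, c61_1_1, c73_0_1]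
                    · rcases c2_11_22_33_k2_k_f33_8 C with ⟨c74_0_0, c74_0_1⟩ | ⟨c74_1_0, c74_1_1⟩
                      · linarith only [C.f12_0, C.f12_3, C.f13_4, C.f33_7, c1_1_1, c2_0_1, c52_0_1, c5_1_1, c73_1_1, c74_0_1]
                      · rcases c2_11_22_33_k2_k_p11_33A C with c75_0_0 | c75_1_0 | c75_2_0 | c75_3_0 | c75_4_0
                        · linarith only [c75_0_0, e0]
                        · linarith only [c75_1_0, e2]
                        · rcases c2_11_22_33_k2_k_p12_33A C with c77_0_0 | c77_1_0 | c77_2_0 | c77_3_0 | c77_4_0 | c77_5_0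
                          · linarith only [c4_0_0, c77_0_0]
                          · linarith only [C.f22_1, C.o1, c75_2_0, c77_1_0, e0, s1]
                          · linarith only [c77_2_0, e2]
                          · linarith only [C.a4, C.f11_0, C.f22_1, c0_0_1, c61_1_1, c77_3_0, s1]
                          · rcases c2_11_22_33_k2_k_p11_22B C with c81_0_0 | c81_1_0 | c81_2_0 | c81_3_0 | c81_4_0
                            · linarith only [c81_0_0, e0]
                            · linarith only [c81_1_0, e1]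
                            · linarith only [C.f11_0, C.f33_1, C.o0, C.o1, c1_1_1, c56_1_1, c73_1_1, c77_4_0, c81_2_0, s1]
                            · linarith only [c1_1_1, c77_4_0, c81_3_0, s2]
                            · linarith only [C.f11_2, C.f22_6, c1_1_1, c5_1_1, c77_4_0, c81_4_0, s2]
                          · linarith only [C.f12_6, C.o2, c1_1_1, c5_1_1, c74_1_1, c77_5_0]
                        · linarith only [C.f22_4, C.o1, c75_3_0, s2]
                        · linarith only [C.b3, C.f11_0, C.f11_1, C.f11_2, C.f22_4, C.f22_6, C.o1, C.o2, c74_1_1, c75_4_0, s3]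
            · rcases c2_11_22_33_k2_k_f13_8 C with ⟨c82_0_0, c82_0_1⟩ | ⟨c82_1_0, c82_1_1⟩
              · linarith only [C.b4, C.f13_7, c52_1_1, c5_1_1, c82_0_1]
              · rcases c2_11_22_33_k2_k_f22_2 C with ⟨c85_0_0, c85_0_1⟩ | ⟨c85_1_0, c85_1_1⟩
                · rcases c2_11_22_33_k2_k_f22_5 C with ⟨c86_0_0, c86_0_1⟩ | ⟨c86_1_0, c86_1_1⟩
                  · linarith only [C.f11_0, C.f12_0, C.f12_3, C.f22_4, C.f33_0, C.o1, c1_1_1, c85_0_1, c86_0_1, s1]
                  · rcases c2_11_22_33_k2_k_p12_22A C with c87_0_0 | c87_1_0 | c87_2_0 | c87_3_0 | c87_4_0 | c87_5_0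
                    · linarith only [c4_0_0, c87_0_0]
                    · linarith only [C.f11_0, C.f22_1, C.f33_0, C.o0, C.o1, c85_0_1, c87_1_0, e0, s1]
                    · linarith only [c87_2_0, e1]
                    · linarith only [C.f11_0, C.f33_0, c0_0_1, c85_0_1, c87_3_0, s1]
                    · rcases c2_11_22_33_k2_k_p13_22A C with c88_0_0 | c88_1_0 | c88_2_0 | c88_3_0 | c88_4_0 | c88_5_0
                      · linarith only [c4_0_0, c88_0_0]
                      · linarith only [C.a4, C.o2, c88_1_0, e1]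
                      · linarith only [c88_2_0, e1]
                      · linarith only [C.f11_0, C.f33_0, c2_0_1, c85_0_1, c88_3_0, s1]
                      · rcases c2_11_22_33_k2_k_p11_12B C with c89_0_0 | c89_1_0 | c89_2_0 | c89_3_0 | c89_4_0 | c89_5_0
                        · linarith only [c89_0_0, e0]
                        · linarith only [c4_0_0, c89_1_0]
                        · linarith only [C.a1, C.f22_1, C.o0, C.o1, c85_0_1, c89_2_0, e0]
                        · rcases c2_11_22_33_k2_k_p11_22B C with c94_0_0 | c94_1_0 | c94_2_0 | c94_3_0 | c94_4_0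
                          · linarith only [c94_0_0, e0]
                          · linarith only [c94_1_0, e1]
                          · linarith only [C.a1, C.f11_0, C.o0, c85_0_1, c94_2_0]
                          · linarith only [C.f33_4, C.o2, c1_1_1, c52_1_1, c86_1_1, c87_4_0, c88_4_0, c94_3_0, s2]
                          · linarith only [C.f11_0, C.f11_1, C.f11_2, C.f13_0, C.f13_3, C.f22_6, C.f33_4, C.f33_7, c0_0_1, c1_1_1, c52_1_1, c5_1_1, c86_1_1, c87_4_0, c89_3_0, c94_4_0, s2, s3]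
                        · linarith only [C.f33_4, C.o2, c1_1_1, c52_1_1, c88_4_0, c89_4_0, s2]
                        · linarith only [C.f11_2, C.f12_6, C.f33_4, C.o2, c1_1_1, c52_1_1, c5_1_1, c88_4_0, c89_5_0, s2]
                      · linarith only [C.f22_6, C.o2, c1_1_1, c5_1_1, c82_1_1, c86_1_1, c87_4_0, c88_5_0]
                    · linarith only [C.a5, C.f12_6, C.f22_6, C.o2, c1_1_1, c5_1_1, c86_1_1, c87_5_0]
                · rcases c2_11_22_33_k2_k_f33_2 C with ⟨c96_0_0, c96_0_1⟩ | ⟨c96_1_0, c96_1_1⟩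
                  · rcases c2_11_22_33_k2_k_f33_5 C with ⟨c97_0_0, c97_0_1⟩ | ⟨c97_1_0, c97_1_1⟩
                    · linarith only [C.f11_0, C.f13_0, C.f13_3, C.f22_0, C.f33_4, C.o2, c52_1_1, c96_0_1, c97_0_1, s1]
                    · rcases c2_11_22_33_k2_k_f33_8 C with ⟨c98_0_0, c98_0_1⟩ | ⟨c98_1_0, c98_1_1⟩
                      · linarith only [C.b4, C.f33_7, c5_1_1, c97_1_1, c98_0_1]
                      · rcases c2_11_22_33_k2_k_p11_33A C with c99_0_0 | c99_1_0 | c99_2_0 | c99_3_0 | c99_4_0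
                        · linarith only [c99_0_0, e0]
                        · linarith only [c99_1_0, e2]
                        · rcases c2_11_22_33_k2_k_p12_33A C with c100_0_0 | c100_1_0 | c100_2_0 | c100_3_0 | c100_4_0 | c100_5_0
                          · linarith only [c100_0_0, c4_0_0]
                          · linarith only [C.f22_1, C.o1, c100_1_0, c99_2_0, e0, s1]
                          · linarith only [c100_2_0, e2]
                          · linarith only [C.f11_0, C.f22_0, c0_0_1, c100_3_0, c96_0_1, s1]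
                          · rcases c2_11_22_33_k2_k_p11_22B C with c104_0_0 | c104_1_0 | c104_2_0 | c104_3_0 | c104_4_0
                            · linarith only [c104_0_0, e0]
                            · linarith only [c104_1_0, e1]
                            · linarith only [C.f11_0, C.f33_1, C.o0, C.o1, c100_4_0, c104_2_0, c1_1_1, c85_1_1, c97_1_1, s1]
                            · linarith only [c100_4_0, c104_3_0, c1_1_1, s2]
                            · linarith only [C.f11_2, C.f22_6, c100_4_0, c104_4_0, c1_1_1, c5_1_1, s2]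
                          · linarith only [C.f12_6, C.o2, c100_5_0, c1_1_1, c5_1_1, c98_1_1]
                        · linarith only [C.f22_4, C.o1, c99_3_0, s2]
                        · linarith only [C.b3, C.f11_0, C.f11_1, C.f11_2, C.f22_4, C.f22_6, C.o1, C.o2, c98_1_1, c99_4_0, s3]
                  · rcases c2_11_22_33_k2_k_f33_5 C with ⟨c105_0_0, c105_0_1⟩ | ⟨c105_1_0, c105_1_1⟩
                    · linarith only [C.a2, C.f12_0, C.f12_3, C.f33_4, C.o1, c105_0_1, c1_1_1, c96_1_1]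
                    · rcases c2_11_22_33_k2_k_f33_8 C with ⟨c106_0_0, c106_0_1⟩ | ⟨c106_1_0, c106_1_1⟩
                      · linarith only [C.b4, C.f33_7, c105_1_1, c106_0_1, c5_1_1]
                      · rcases c2_11_22_33_k2_k_p11_33A C with c107_0_0 | c107_1_0 | c107_2_0 | c107_3_0 | c107_4_0
                        · linarith only [c107_0_0, e0]
                        · linarith only [c107_1_0, e2]
                        · rcases c2_11_22_33_k2_k_p12_33A C with c108_0_0 | c108_1_0 | c108_2_0 | c108_3_0 | c108_4_0 | c108_5_0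
                          · linarith only [c108_0_0, c4_0_0]
                          · linarith only [C.f22_1, C.o1, c107_2_0, c108_1_0, e0, s1]
                          · linarith only [c108_2_0, e2]
                          · linarith only [C.a4, C.f11_0, C.f22_1, c0_0_1, c108_3_0, c96_1_1, s1]
                          · rcases c2_11_22_33_k2_k_p11_22B C with c112_0_0 | c112_1_0 | c112_2_0 | c112_3_0 | c112_4_0
                            · linarith only [c112_0_0, e0]
                            · linarith only [c112_1_0, e1]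
                            · linarith only [C.f11_0, C.f33_1, C.o0, C.o1, c105_1_1, c108_4_0, c112_2_0, c1_1_1, c85_1_1, s1]
                            · linarith only [c108_4_0, c112_3_0, c1_1_1, s2]
                            · linarith only [C.f11_2, C.f22_6, c108_4_0, c112_4_0, c1_1_1, c5_1_1, s2]
                          · linarith only [C.f12_6, C.o2, c106_1_1, c108_5_0, c1_1_1, c5_1_1]
                        · linarith only [C.f22_4, C.o1, c107_3_0, s2]
                        · linarith only [C.b3, C.f11_0, C.f11_1, C.f11_2, C.f22_4, C.f22_6, C.o1, C.o2, c106_1_1, c107_4_0, s3]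
        · rcases c2_11_22_33_k2_k_t23 C with ⟨c113_0_0, c113_0_1⟩ | ⟨c113_1_0, c113_1_1⟩
          · rcases c2_11_22_33_k2_k_f13_5 C with ⟨c114_0_0, c114_0_1⟩ | ⟨c114_1_0, c114_1_1⟩
            · rcases c2_11_22_33_k2_k_f13_8 C with ⟨c115_0_0, c115_0_1⟩ | ⟨c115_1_0, c115_1_1⟩
              · linarith only [C.b5, C.f13_7, C.o0, c114_0_1, c115_0_1, c2_0_1, c4_1_1]
              · rcases c2_11_22_33_k2_k_p12_13B C with c118_0_0 | c118_1_0 | c118_2_0 | c118_3_0 | c118_4_0 | c118_5_0
                · linarith only [C.o0, c118_0_0, e0]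
                · linarith only [C.o1, c118_1_0, e1]
                · linarith only [C.f13_4, C.o0, C.o1, c114_0_1, c118_2_0, c2_0_1, c4_1_1, e1]
                · linarith only [C.o0, c0_0_1, c118_3_0, c2_0_1]
                · linarith only [C.o0, c114_0_1, c118_4_0, c1_1_1, c2_0_1, c4_1_1]
                · rcases c2_11_22_33_k2_k_p11_33A C with c119_0_0 | c119_1_0 | c119_2_0 | c119_3_0 | c119_4_0
                  · linarith only [c119_0_0, e0]
                  · linarith only [c119_1_0, e2]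
                  · rcases c2_11_22_33_k2_k_f22_5 C with ⟨c120_0_0, c120_0_1⟩ | ⟨c120_1_0, c120_1_1⟩
                    · linarith only [C.f22_4, C.o1, c119_2_0, c120_0_1, c4_1_1, s1]
                    · rcases c2_11_22_33_k2_k_p13_22A C with c122_0_0 | c122_1_0 | c122_2_0 | c122_3_0 | c122_4_0 | c122_5_0
                      · linarith only [C.o0, c122_0_0, e0]
                      · linarith only [C.o2, c122_1_0, e2]
                      · linarith only [c122_2_0, e1]
                      · rcases c2_11_22_33_k2_k_f22_2 C with ⟨c123_0_0, c123_0_1⟩ | ⟨c123_1_0, c123_1_1⟩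
                        · linarith only [C.f11_0, C.f33_0, c122_3_0, c123_0_1, c2_0_1, s1]
                        · rcases c2_11_22_33_k2_k_p13_33A C with c124_0_0 | c124_1_0 | c124_2_0 | c124_3_0 | c124_4_0 | c124_5_0
                          · linarith only [C.o0, c124_0_0, e0]
                          · linarith only [C.f11_0, C.f11_1, C.f13_4, C.f22_4, C.f33_4, C.o0, C.o1, C.o2, c113_0_0, c114_0_1, c124_1_0, c2_0_1, e0, s2]
                          · linarith only [c124_2_0, e2]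
                          · linarith only [C.f11_0, c122_3_0, c124_3_0, c2_0_1, s1]
                          · linarith only [C.f11_0, C.f11_1, C.f22_4, C.o0, C.o1, c114_0_1, c124_4_0, c2_0_1, s2]
                          · rcases c2_11_22_33_k2_k_p11_13B C with c125_0_0 | c125_1_0 | c125_2_0 | c125_3_0 | c125_4_0 | c125_5_0
                            · linarith only [c125_0_0, e0]
                            · linarith only [C.o0, c125_1_0, e0]
                            · linarith only [C.o2, c125_2_0, e2]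
                            · rcases c2_11_22_33_k2_k_p11_22B C with c126_0_0 | c126_1_0 | c126_2_0 | c126_3_0 | c126_4_0
                              · linarith only [c126_0_0, e0]
                              · linarith only [c126_1_0, e1]
                              · linarith only [C.f11_0, C.o0, c113_0_0, c123_1_1, c126_2_0]
                              · rcases c2_11_22_33_k2_k_f33_8 C with ⟨c127_0_0, c127_0_1⟩ | ⟨c127_1_0, c127_1_1⟩
                                · linarith only [C.f12_6, c113_0_1, c115_1_1, c118_5_0, c124_5_0, c126_3_0, c127_0_1, c1_1_1, s2]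
                                · rcases c2_11_22_33_k2_k_f33_2 C with ⟨c128_0_0, c128_0_1⟩ | ⟨c128_1_0, c128_1_1⟩
                                  · rcases c2_11_22_33_k2_k_p12_33A C with c130_0_0 | c130_1_0 | c130_2_0 | c130_3_0 | c130_4_0 | c130_5_0
                                    · linarith only [C.o0, c130_0_0, e0]
                                    · linarith only [C.o0, C.o1, c113_0_0, c130_1_0, e0]
                                    · linarith only [c130_2_0, e2]
                                    · linarith only [C.f11_0, C.f22_0, c0_0_1, c128_0_1, c130_3_0, s1]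
                                    · linarith only [c126_3_0, c130_4_0, c1_1_1, s2]
                                    · linarith only [C.f12_6, C.o1, c113_0_1, c127_1_1, c130_5_0, c1_1_1]
                                  · linarith only [C.f11_0, C.f11_1, C.f13_4, C.f22_4, C.f33_4, C.o1, c113_0_0, c114_0_1, c115_1_1, c119_2_0, c124_5_0, c125_3_0, c127_1_1, c128_1_1, c2_0_1, s2]
                              · linarith only [c115_1_1, c124_5_0, c126_4_0, s3]
                            · linarith only [C.f11_0, C.f11_1, C.o0, c114_0_1, c125_4_0, c2_0_1, c4_1_1]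
                            · linarith only [C.f11_0, C.f11_1, C.f11_2, C.f22_4, C.f22_6, C.o1, c115_1_1, c124_5_0, c125_5_0, c4_1_1, s3]
                      · linarith only [C.o0, C.o1, c114_0_1, c120_1_1, c122_4_0, c2_0_1, c4_1_1]
                      · linarith only [C.f22_6, C.o2, c113_0_1, c115_1_1, c120_1_1, c122_5_0]
                  · linarith only [C.f22_4, C.o1, c119_3_0, s2]
                  · linarith only [C.f12_6, C.f22_4, C.f22_6, C.o1, c115_1_1, c118_5_0, c119_4_0, c1_1_1, s3]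
            · rcases c2_11_22_33_k2_k_f13_8 C with ⟨c131_0_0, c131_0_1⟩ | ⟨c131_1_0, c131_1_1⟩
              · linarith only [C.a4, C.f13_7, c113_0_1, c114_1_1, c131_0_1]
              · rcases c2_11_22_33_k2_k_f22_2 C with ⟨c134_0_0, c134_0_1⟩ | ⟨c134_1_0, c134_1_1⟩
                · rcases c2_11_22_33_k2_k_f22_5 C with ⟨c135_0_0, c135_0_1⟩ | ⟨c135_1_0, c135_1_1⟩
                  · linarith only [C.f11_0, C.f12_0, C.f12_3, C.f22_4, C.f33_0, C.o1, c134_0_1, c135_0_1, c1_1_1, s1]
                  · rcases c2_11_22_33_k2_k_p11_22A C with c136_0_0 | c136_1_0 | c136_2_0 | c136_3_0 | c136_4_0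
                    · linarith only [c136_0_0, e0]
                    · linarith only [c136_1_0, e1]
                    · rcases c2_11_22_33_k2_k_p12_22A C with c137_0_0 | c137_1_0 | c137_2_0 | c137_3_0 | c137_4_0 | c137_5_0
                      · linarith only [C.o0, c137_0_0, e0]
                      · linarith only [C.f11_0, C.f22_1, C.f33_0, C.o0, C.o1, c134_0_1, c137_1_0, e0, s1]
                      · linarith only [c137_2_0, e1]
                      · linarith only [C.f11_0, C.f33_0, c0_0_1, c134_0_1, c137_3_0, s1]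
                      · rcases c2_11_22_33_k2_k_p11_33B C with c138_0_0 | c138_1_0 | c138_2_0 | c138_3_0 | c138_4_0
                        · linarith only [c138_0_0, e0]
                        · linarith only [c138_1_0, e2]
                        · linarith only [C.f11_0, c136_2_0, c138_2_0, s1]
                        · linarith only [c137_4_0, c138_3_0, c1_1_1, s2]
                        · rcases c2_11_22_33_k2_k_f33_8 C with ⟨c139_0_0, c139_0_1⟩ | ⟨c139_1_0, c139_1_1⟩
                          · linarith only [C.b5, C.f11_2, c137_4_0, c138_4_0, c139_0_1, c1_1_1, s2]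
                          · rcases c2_11_22_33_k2_k_p13_22A C with c141_0_0 | c141_1_0 | c141_2_0 | c141_3_0 | c141_4_0 | c141_5_0
                            · linarith only [C.o0, c141_0_0, e0]
                            · linarith only [C.a1, C.a4, C.f22_1, C.o0, C.o2, c134_0_1, c141_1_0, e0]
                            · linarith only [c141_2_0, e1]
                            · linarith only [C.f11_0, C.f33_0, c134_0_1, c141_3_0, c2_0_1, s1]
                            · linarith only [C.a4, C.f11_2, C.f33_4, C.o1, c113_0_1, c114_1_1, c135_1_1, c138_4_0, c139_1_1, c141_4_0, s2]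
                            · linarith only [C.f22_6, C.o2, c113_0_1, c131_1_1, c135_1_1, c141_5_0]
                      · linarith only [C.f12_6, C.f22_6, C.o1, c113_0_1, c135_1_1, c137_5_0, c1_1_1]
                    · linarith only [C.f11_0, C.f11_1, C.o1, c135_1_1, c136_3_0, c4_1_1]
                    · linarith only [C.f33_7, C.o2, c136_4_0, s3]
                · rcases c2_11_22_33_k2_k_f33_2 C with ⟨c144_0_0, c144_0_1⟩ | ⟨c144_1_0, c144_1_1⟩
                  · rcases c2_11_22_33_k2_k_f33_5 C with ⟨c145_0_0, c145_0_1⟩ | ⟨c145_1_0, c145_1_1⟩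
                    · linarith only [C.a1, C.f13_0, C.f13_3, C.f33_4, C.o2, c114_1_1, c144_0_1, c145_0_1]
                    · rcases c2_11_22_33_k2_k_f33_8 C with ⟨c146_0_0, c146_0_1⟩ | ⟨c146_1_0, c146_1_1⟩
                      · linarith only [C.a4, C.f33_7, c113_0_1, c145_1_1, c146_0_1]
                      · rcases c2_11_22_33_k2_k_p12_33A C with c148_0_0 | c148_1_0 | c148_2_0 | c148_3_0 | c148_4_0 | c148_5_0
                        · linarith only [C.o0, c148_0_0, e0]
                        · linarith only [C.o0, C.o1, c113_0_0, c148_1_0, e0]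
                        · linarith only [c148_2_0, e2]
                        · linarith only [C.f11_0, C.f22_0, c0_0_1, c144_0_1, c148_3_0, s1]
                        · rcases c2_11_22_33_k2_k_p11_22B C with c151_0_0 | c151_1_0 | c151_2_0 | c151_3_0 | c151_4_0
                          · linarith only [c151_0_0, e0]
                          · linarith only [c151_1_0, e1]
                          · linarith only [C.f11_0, C.f33_1, C.o0, C.o1, c134_1_1, c145_1_1, c148_4_0, c151_2_0, c1_1_1, s1]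
                          · linarith only [c148_4_0, c151_3_0, c1_1_1, s2]
                          · linarith only [C.b5, C.f11_2, C.f22_6, c148_4_0, c151_4_0, c1_1_1, s2]
                        · linarith only [C.f12_6, C.o1, c113_0_1, c146_1_1, c148_5_0, c1_1_1]
                  · rcases c2_11_22_33_k2_k_f33_5 C with ⟨c152_0_0, c152_0_1⟩ | ⟨c152_1_0, c152_1_1⟩
                    · linarith only [C.f12_0, C.f12_3, C.f33_4, C.o1, c113_0_0, c144_1_1, c152_0_1, c1_1_1]
                    · rcases c2_11_22_33_k2_k_f33_8 C with ⟨c153_0_0, c153_0_1⟩ | ⟨c153_1_0, c153_1_1⟩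
                      · linarith only [C.a4, C.f33_7, c113_0_1, c152_1_1, c153_0_1]
                      · rcases c2_11_22_33_k2_k_p12_33A C with c155_0_0 | c155_1_0 | c155_2_0 | c155_3_0 | c155_4_0 | c155_5_0
                        · linarith only [C.o0, c155_0_0, e0]
                        · linarith only [C.o0, C.o1, c113_0_0, c155_1_0, e0]
                        · linarith only [c155_2_0, e2]
                        · linarith only [C.a4, C.f11_0, C.f22_1, c0_0_1, c144_1_1, c155_3_0, s1]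
                        · rcases c2_11_22_33_k2_k_p11_22B C with c158_0_0 | c158_1_0 | c158_2_0 | c158_3_0 | c158_4_0
                          · linarith only [c158_0_0, e0]
                          · linarith only [c158_1_0, e1]
                          · linarith only [C.f11_0, C.f33_1, C.o0, C.o1, c134_1_1, c152_1_1, c155_4_0, c158_2_0, c1_1_1, s1]
                          · linarith only [c155_4_0, c158_3_0, c1_1_1, s2]
                          · linarith only [C.b5, C.f11_2, C.f22_6, c155_4_0, c158_4_0, c1_1_1, s2]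
                        · linarith only [C.f12_6, C.o1, c113_0_1, c153_1_1, c155_5_0, c1_1_1]
          · rcases c2_11_22_33_k2_k_f13_5 C with ⟨c159_0_0, c159_0_1⟩ | ⟨c159_1_0, c159_1_1⟩
            · rcases c2_11_22_33_k2_k_f13_8 C with ⟨c160_0_0, c160_0_1⟩ | ⟨c160_1_0, c160_1_1⟩
              · linarith only [C.f12_0, C.f12_3, C.f13_7, c113_1_1, c159_0_1, c160_0_1, c1_1_1, c2_0_1]
              · rcases c2_11_22_33_k2_k_p11_13B C with c162_0_0 | c162_1_0 | c162_2_0 | c162_3_0 | c162_4_0 | c162_5_0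
                · linarith only [c162_0_0, e0]
                · linarith only [C.o0, c162_1_0, e0]
                · linarith only [C.o2, c162_2_0, e2]
                · rcases c2_11_22_33_k2_k_p12_13B C with c164_0_0 | c164_1_0 | c164_2_0 | c164_3_0 | c164_4_0 | c164_5_0
                  · linarith only [C.o0, c164_0_0, e0]
                  · linarith only [C.o1, c164_1_0, e1]
                  · linarith only [C.f13_4, C.o0, C.o1, c159_0_1, c164_2_0, c2_0_1, c4_1_1, e1]
                  · linarith only [C.o0, c0_0_1, c164_3_0, c2_0_1]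
                  · linarith only [C.o0, c159_0_1, c164_4_0, c1_1_1, c2_0_1, c4_1_1]
                  · rcases c2_11_22_33_k2_k_p11_33A C with c165_0_0 | c165_1_0 | c165_2_0 | c165_3_0 | c165_4_0
                    · linarith only [c165_0_0, e0]
                    · linarith only [c165_1_0, e2]
                    · rcases c2_11_22_33_k2_k_tmzp C with c168_0_0 | c168_1_0 | c168_2_0 | c168_3_0 | c168_4_0 | c168_5_0
                      · linarith only [C.f11_0, C.f22_0, C.f33_0, c168_0_0, s1]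
                      · linarith only [C.f11_0, C.f22_1, c162_3_0, c165_2_0, c168_1_0, c2_0_1, s1]
                      · rcases c2_11_22_33_k2_k_p13_22A C with c172_0_0 | c172_1_0 | c172_2_0 | c172_3_0 | c172_4_0 | c172_5_0
                        · linarith only [C.o0, c172_0_0, e0]
                        · linarith only [C.f11_0, C.f11_1, C.f13_4, C.f22_4, C.f33_4, C.o0, C.o1, c159_0_1, c168_2_0, c172_1_0, c2_0_1, e1, s2]
                        · linarith only [c172_2_0, e1]
                        · rcases c2_11_22_33_k2_k_f22_2 C with ⟨c173_0_0, c173_0_1⟩ | ⟨c173_1_0, c173_1_1⟩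
                          · linarith only [C.f11_0, C.f33_0, c172_3_0, c173_0_1, c2_0_1, s1]
                          · linarith only [C.f11_0, C.f33_1, c168_2_0, c172_3_0, c173_1_1, c2_0_1, s1]
                        · linarith only [C.f11_0, C.f11_1, C.f33_4, C.o0, C.o1, c159_0_1, c168_2_0, c172_4_0, c2_0_1, s2]
                        · linarith only [C.f11_0, C.f11_1, C.f13_4, C.f22_4, C.f22_6, C.f33_4, C.o0, C.o1, c113_1_1, c159_0_1, c160_1_1, c168_2_0, c172_5_0, c2_0_1, s2]
                      · linarith only [c168_3_0, e0]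
                      · linarith only [c168_4_0, c4_1_1]
                      · linarith only [c113_1_1, c168_5_0]
                    · linarith only [C.f22_4, C.o1, c165_3_0, s2]
                    · linarith only [C.f12_6, C.f22_4, C.f22_6, C.o1, c160_1_1, c164_5_0, c165_4_0, c1_1_1, s3]
                · linarith only [C.f11_0, C.f11_1, C.o0, c159_0_1, c162_4_0, c2_0_1, c4_1_1]
                · linarith only [C.f11_0, C.f11_1, C.f11_2, c113_1_1, c160_1_1, c162_5_0, c4_1_1]
            · rcases c2_11_22_33_k2_k_f13_8 C with ⟨c174_0_0, c174_0_1⟩ | ⟨c174_1_0, c174_1_1⟩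
              · linarith only [C.b4, C.f13_7, c113_1_1, c159_1_1, c174_0_1]
              · rcases c2_11_22_33_k2_k_f22_2 C with ⟨c177_0_0, c177_0_1⟩ | ⟨c177_1_0, c177_1_1⟩
                · rcases c2_11_22_33_k2_k_f22_5 C with ⟨c178_0_0, c178_0_1⟩ | ⟨c178_1_0, c178_1_1⟩
                  · linarith only [C.f11_0, C.f12_0, C.f12_3, C.f22_4, C.f33_0, C.o1, c177_0_1, c178_0_1, c1_1_1, s1]
                  · rcases c2_11_22_33_k2_k_p11_22A C with c179_0_0 | c179_1_0 | c179_2_0 | c179_3_0 | c179_4_0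
                    · linarith only [c179_0_0, e0]
                    · linarith only [c179_1_0, e1]
                    · rcases c2_11_22_33_k2_k_p12_22A C with c180_0_0 | c180_1_0 | c180_2_0 | c180_3_0 | c180_4_0 | c180_5_0
                      · linarith only [C.o0, c180_0_0, e0]
                      · linarith only [C.f11_0, C.f22_1, C.f33_0, C.o0, C.o1, c177_0_1, c180_1_0, e0, s1]
                      · linarith only [c180_2_0, e1]
                      · linarith only [C.f11_0, C.f33_0, c0_0_1, c177_0_1, c180_3_0, s1]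
                      · rcases c2_11_22_33_k2_k_p11_13B C with c181_0_0 | c181_1_0 | c181_2_0 | c181_3_0 | c181_4_0 | c181_5_0
                        · linarith only [c181_0_0, e0]
                        · linarith only [C.o0, c181_1_0, e0]
                        · linarith only [C.o2, c181_2_0, e2]
                        · rcases c2_11_22_33_k2_k_f33_5 C with ⟨c182_0_0, c182_0_1⟩ | ⟨c182_1_0, c182_1_1⟩
                          · linarith only [C.f11_0, C.f13_3, C.f33_4, C.o2, c159_1_1, c179_2_0, c181_3_0, c182_0_1, s1]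
                          · rcases c2_11_22_33_k2_k_f33_8 C with ⟨c183_0_0, c183_0_1⟩ | ⟨c183_1_0, c183_1_1⟩
                            · linarith only [C.a4, C.f33_7, C.o2, c113_1_1, c178_1_1, c180_4_0, c182_1_1, c183_0_1, c1_1_1]
                            · rcases c2_11_22_33_k2_k_p11_22B C with c184_0_0 | c184_1_0 | c184_2_0 | c184_3_0 | c184_4_0
                              · linarith only [c184_0_0, e0]
                              · linarith only [c184_1_0, e1]
                              · linarith only [C.a1, C.f11_0, C.o0, c177_0_1, c184_2_0]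
                              · rcases c2_11_22_33_k2_k_f33_2 C with ⟨c185_0_0, c185_0_1⟩ | ⟨c185_1_0, c185_1_1⟩
                                · rcases c2_11_22_33_k2_k_p12_33A C with c189_0_0 | c189_1_0 | c189_2_0 | c189_3_0 | c189_4_0 | c189_5_0
                                  · linarith only [C.o0, c189_0_0, e0]
                                  · linarith only [C.f11_0, C.f22_1, C.f33_0, C.o0, C.o1, c177_0_1, c189_1_0, e0, s1]
                                  · linarith only [c189_2_0, e2]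
                                  · linarith only [C.f11_0, C.f22_0, c0_0_1, c185_0_1, c189_3_0, s1]
                                  · linarith only [c184_3_0, c189_4_0, c1_1_1, s2]
                                  · linarith only [C.f12_6, C.o2, c113_1_1, c183_1_1, c189_5_0, c1_1_1]
                                · linarith only [C.f22_1, C.f33_0, C.f33_4, c177_0_1, c178_1_1, c180_4_0, c184_3_0, c185_1_1, c1_1_1, s2]
                              · linarith only [C.f11_0, C.f11_1, C.f11_2, C.f13_3, C.f22_6, C.f33_4, C.f33_7, c113_1_1, c159_1_1, c178_1_1, c180_4_0, c181_3_0, c184_4_0, c1_1_1, s2, s3]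
                        · linarith only [C.f33_4, C.o2, c159_1_1, c180_4_0, c181_4_0, c1_1_1, s2]
                        · linarith only [C.f11_0, C.f11_1, C.f11_2, c113_1_1, c174_1_1, c181_5_0, c4_1_1]
                      · linarith only [C.a5, C.f12_6, C.f22_6, C.o2, c113_1_1, c178_1_1, c180_5_0, c1_1_1]
                    · linarith only [C.f11_0, C.f11_1, C.o1, c178_1_1, c179_3_0, c4_1_1]
                    · linarith only [C.f33_7, C.o2, c179_4_0, s3]
                · rcases c2_11_22_33_k2_k_f33_2 C with ⟨c192_0_0, c192_0_1⟩ | ⟨c192_1_0, c192_1_1⟩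
                  · rcases c2_11_22_33_k2_k_f33_5 C with ⟨c193_0_0, c193_0_1⟩ | ⟨c193_1_0, c193_1_1⟩
                    · linarith only [C.f11_0, C.f13_0, C.f13_3, C.f22_0, C.f33_4, C.o2, c159_1_1, c192_0_1, c193_0_1, s1]
                    · rcases c2_11_22_33_k2_k_f33_8 C with ⟨c194_0_0, c194_0_1⟩ | ⟨c194_1_0, c194_1_1⟩
                      · linarith only [C.b4, C.f33_7, c113_1_1, c193_1_1, c194_0_1]
                      · rcases c2_11_22_33_k2_k_p11_33A C with c195_0_0 | c195_1_0 | c195_2_0 | c195_3_0 | c195_4_0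
                        · linarith only [c195_0_0, e0]
                        · linarith only [c195_1_0, e2]
                        · rcases c2_11_22_33_k2_k_p12_33A C with c196_0_0 | c196_1_0 | c196_2_0 | c196_3_0 | c196_4_0 | c196_5_0
                          · linarith only [C.o0, c196_0_0, e0]
                          · linarith only [C.f22_1, C.o1, c195_2_0, c196_1_0, e0, s1]
                          · linarith only [c196_2_0, e2]
                          · linarith only [C.f11_0, C.f22_0, c0_0_1, c192_0_1, c196_3_0, s1]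
                          · rcases c2_11_22_33_k2_k_p11_22B C with c199_0_0 | c199_1_0 | c199_2_0 | c199_3_0 | c199_4_0
                            · linarith only [c199_0_0, e0]
                            · linarith only [c199_1_0, e1]
                            · linarith only [C.f11_0, C.f33_1, C.o0, C.o1, c177_1_1, c193_1_1, c196_4_0, c199_2_0, c1_1_1, s1]
                            · linarith only [c196_4_0, c199_3_0, c1_1_1, s2]
                            · linarith only [C.f11_2, C.f22_6, c113_1_1, c196_4_0, c199_4_0, c1_1_1, s2]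
                          · linarith only [C.f12_6, C.o2, c113_1_1, c194_1_1, c196_5_0, c1_1_1]
                        · linarith only [C.f22_4, C.o1, c195_3_0, s2]
                        · linarith only [C.f11_0, C.f11_1, C.f11_2, C.f22_4, C.f22_6, C.o1, C.o2, c194_1_1, c195_4_0, c4_1_1, s3]
                  · rcases c2_11_22_33_k2_k_f33_5 C with ⟨c200_0_0, c200_0_1⟩ | ⟨c200_1_0, c200_1_1⟩
                    · linarith only [C.a2, C.f12_0, C.f12_3, C.f33_4, C.o1, c192_1_1, c1_1_1, c200_0_1]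
                    · rcases c2_11_22_33_k2_k_f33_8 C with ⟨c201_0_0, c201_0_1⟩ | ⟨c201_1_0, c201_1_1⟩
                      · linarith only [C.b4, C.f33_7, c113_1_1, c200_1_1, c201_0_1]
                      · rcases c2_11_22_33_k2_k_p11_33A C with c202_0_0 | c202_1_0 | c202_2_0 | c202_3_0 | c202_4_0
                        · linarith only [c202_0_0, e0]
                        · linarith only [c202_1_0, e2]
                        · rcases c2_11_22_33_k2_k_p12_33A C with c203_0_0 | c203_1_0 | c203_2_0 | c203_3_0 | c203_4_0 | c203_5_0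
                          · linarith only [C.o0, c203_0_0, e0]
                          · linarith only [C.f22_1, C.o1, c202_2_0, c203_1_0, e0, s1]
                          · linarith only [c203_2_0, e2]
                          · linarith only [C.a4, C.f11_0, C.f22_1, c0_0_1, c192_1_1, c203_3_0, s1]
                          · rcases c2_11_22_33_k2_k_p11_22B C with c206_0_0 | c206_1_0 | c206_2_0 | c206_3_0 | c206_4_0
                            · linarith only [c206_0_0, e0]
                            · linarith only [c206_1_0, e1]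
                            · linarith only [C.f11_0, C.f33_1, C.o0, C.o1, c177_1_1, c1_1_1, c200_1_1, c203_4_0, c206_2_0, s1]
                            · linarith only [c1_1_1, c203_4_0, c206_3_0, s2]
                            · linarith only [C.f11_2, C.f22_6, c113_1_1, c1_1_1, c203_4_0, c206_4_0, s2]
                          · linarith only [C.f12_6, C.o2, c113_1_1, c1_1_1, c201_1_1, c203_5_0]
                        · linarith only [C.f22_4, C.o1, c202_3_0, s2]
                        · linarith only [C.f11_0, C.f11_1, C.f11_2, C.f22_4, C.f22_6, C.o1, C.o2, c201_1_1, c202_4_0, c4_1_1, s3]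
      · linarith only [C.a4, C.f11_0, C.f13_0, C.f22_1, C.f33_1, C.o2, c2_1_1, s1]
  · linarith only [C.a2, C.f12_0, C.o1, c0_1_1]

end Pool.Agent.Helper24.TQ
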