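import Pool.Agent.Helper89.TQ.Ctx

set_option autoImplicit false
set_option linter.all false
set_option maxHeartbeats 4000000

namespace Pool.Agent.Helper24.TQ

open Pool.Agent.Helper89.TQ

theorem c2_11_22_33_k3_k_t12 {n1 n2 n3 A1 A2 A3 B1 B2 B3 m11_1 m11_2 m11_3 m12_1 m12_2 m12_3 m13_1 m13_2 m13_3 m22_1 m22_2 m22_3 m33_1 m33_2 m33_3 : ℤ} (C : Ctx2 n1 n2 n3 A1 A2 A3 B1 B2 B3 m11_1 m11_2 m11_3 m12_1 m12_2 m12_3 m13_1 m13_2 m13_3 m22_1 m22_2 m22_3 m33_1 m33_2 m33_3) :
    ((-1) * A1 ≤ -1 ∧ (-1) * A1 + 1 * A2 + (-1) * n2 ≤ -1) ∨ ((-1) * B1 ≤ -1 ∧ (-1) * B1 + 1 * B2 + (-1) * n2 ≤ -1) := by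
  have h := C.t12
  clear C
  omega

theorem c2_11_22_33_k3_k_t23 {n1 n2 n3 A1 A2 A3 B1 B2 B3 m11_1 m11_2 m11_3 m12_1 m12_2 m12_3 m13_1 m13_2 m13_3 m22_1 m22_2 m22_3 m33_1 m33_2 m33_3 : ℤ} (C : Ctx2 n1 n2 n3 A1 A2 A3 B1 B2 B3 m11_1 m11_2 m11_3 m12_1 m12_2 m12_3 m13_1 m13_2 m13_3 m22_1 m22_2 m22_3 m33_1 m33_2 m33_3) :
    (1 * A1 + (-1) * A2 ≤ -1 ∧ (-1) * A2 + 1 * A3 + (-1) * n3 ≤ -1) ∨ (1 * B1 + (-1) * B2 ≤ -1 ∧ (-1) * B2 + 1 * B3 + (-1) * n3 ≤ -1) := by
  have h := C.t23
  clear C
  omega

theorem c2_11_22_33_k3_k_f12_2 {n1 n2 n3 A1 A2 A3 B1 B2 B3 m11_1 m11_2 m11_3 m12_1 m12_2 m12_3 m13_1 m13_2 m13_3 m22_1 m22_2 m22_3 m33_1 m33_2 m33_3 : ℤ} (C : Ctx2 n1 n2 n3 A1 A2 A3 B1 B2 B3 m11_1 m11_2 m11_3 m12_1 m12_2 m12_3 m13_1 m13_2 m13_3 m22_1 m22_2 m22_3 m33_1 m33_2 m33_3) :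
    ((-1) * A1 + 1 * m12_1 ≤ -1 ∧ 1 * A1 + (-1) * m12_1 ≤ 1) ∨ ((-1) * B2 + 1 * m12_1 ≤ -1 ∧ 1 * B2 + (-1) * m12_1 ≤ 1) := by
  have h := C.f12_2
  clear C
  omega

theorem c2_11_22_33_k3_k_f12_5 {n1 n2 n3 A1 A2 A3 B1 B2 B3 m11_1 m11_2 m11_3 m12_1 m12_2 m12_3 m13_1 m13_2 m13_3 m22_1 m22_2 m22_3 m33_1 m33_2 m33_3 : ℤ} (C : Ctx2 n1 n2 n3 A1 A2 A3 B1 B2 B3 m11_1 m11_2 m11_3 m12_1 m12_2 m12_3 m13_1 m13_2 m13_3 m22_1 m22_2 m22_3 m33_1 m33_2 m33_3) :
    ((-1) * m12_1 + 1 * m12_2 + (-1) * n2 ≤ 0 ∧ 1 * m12_1 + (-1) * m12_2 + 1 * n2 ≤ 0) ∨ ((-1) * B2 + 1 * m12_2 ≤ -1 ∧ 1 * B2 + (-1) * m12_2 ≤ 1) := by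
  have h := C.f12_5
  clear C
  omega

theorem c2_11_22_33_k3_k_f13_2 {n1 n2 n3 A1 A2 A3 B1 B2 B3 m11_1 m11_2 m11_3 m12_1 m12_2 m12_3 m13_1 m13_2 m13_3 m22_1 m22_2 m22_3 m33_1 m33_2 m33_3 : ℤ} (C : Ctx2 n1 n2 n3 A1 A2 A3 B1 B2 B3 m11_1 m11_2 m11_3 m12_1 m12_2 m12_3 m13_1 m13_2 m13_3 m22_1 m22_2 m22_3 m33_1 m33_2 m33_3) :
    ((-1) * A1 + 1 * m13_1 ≤ -1 ∧ 1 * A1 + (-1) * m13_1 ≤ 1) ∨ ((-1) * B3 + 1 * m13_1 ≤ -1 ∧ 1 * B3 + (-1) * m13_1 ≤ 1) := by
  have h := C.f13_2
  clear C
  omega

theorem c2_11_22_33_k3_k_f13_5 {n1 n2 n3 A1 A2 A3 B1 B2 B3 m11_1 m11_2 m11_3 m12_1 m12_2 m12_3 m13_1 m13_2 m13_3 m22_1 m22_2 m22_3 m33_1 m33_2 m33_3 : ℤ} (C : Ctx2 n1 n2 n3 A1 A2 A3 B1 B2 B3 m11_1 m11_2 m11_3 m12_1 m12_2 m12_3 m13_1 m13_2 m13_3 m22_1 m22_2 m22_3 m33_1 m33_2 m33_3) :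
    ((-1) * m13_1 + 1 * m13_2 + (-1) * n2 ≤ 0 ∧ 1 * m13_1 + (-1) * m13_2 + 1 * n2 ≤ 0) ∨ ((-1) * B3 + 1 * m13_2 ≤ -1 ∧ 1 * B3 + (-1) * m13_2 ≤ 1) := by
  have h := C.f13_5
  clear C
  omega

theorem c2_11_22_33_k3_k_f13_8 {n1 n2 n3 A1 A2 A3 B1 B2 B3 m11_1 m11_2 m11_3 m12_1 m12_2 m12_3 m13_1 m13_2 m13_3 m22_1 m22_2 m22_3 m33_1 m33_2 m33_3 : ℤ} (C : Ctx2 n1 n2 n3 A1 A2 A3 B1 B2 B3 m11_1 m11_2 m11_3 m12_1 m12_2 m12_3 m13_1 m13_2 m13_3 m22_1 m22_2 m22_3 m33_1 m33_2 m33_3) :
    ((-1) * m13_2 + 1 * m13_3 + (-1) * n3 ≤ 0 ∧ 1 * m13_2 + (-1) * m13_3 + 1 * n3 ≤ 0) ∨ ((-1) * B3 + 1 * m13_3 ≤ -1 ∧ 1 * B3 + (-1) * m13_3 ≤ 1) := by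
  have h := C.f13_8
  clear C
  omega

theorem c2_11_22_33_k3_k_f22_2 {n1 n2 n3 A1 A2 A3 B1 B2 B3 m11_1 m11_2 m11_3 m12_1 m12_2 m12_3 m13_1 m13_2 m13_3 m22_1 m22_2 m22_3 m33_1 m33_2 m33_3 : ℤ} (C : Ctx2 n1 n2 n3 A1 A2 A3 B1 B2 B3 m11_1 m11_2 m11_3 m12_1 m12_2 m12_3 m13_1 m13_2 m13_3 m22_1 m22_2 m22_3 m33_1 m33_2 m33_3) :
    (1 * m22_1 + (-1) * n1 ≤ 0 ∧ (-1) * m22_1 + 1 * n1 ≤ 0) ∨ ((-1) * A2 + 1 * m22_1 ≤ -1 ∧ 1 * A2 + (-1) * m22_1 ≤ 1) := by
  have h := C.f22_2
  clear C
  omega

theorem c2_11_22_33_k3_k_f22_5 {n1 n2 n3 A1 A2 A3 B1 B2 B3 m11_1 m11_2 m11_3 m12_1 m12_2 m12_3 m13_1 m13_2 m13_3 m22_1 m22_2 m22_3 m33_1 m33_2 m33_3 : ℤ} (C : Ctx2 n1 n2 n3 A1 A2 A3 B1 B2 B3 m11_1 m11_2 m11_3 m12_1 m12_2 m12_3 m13_1 m13_2 m13_3 m22_1 m22_2 m22_3 m33_1 m33_2 m33_3) :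
    ((-1) * m22_1 + 1 * m22_2 + (-1) * n2 ≤ 0 ∧ 1 * m22_1 + (-1) * m22_2 + 1 * n2 ≤ 0) ∨ ((-1) * A2 + 1 * m22_2 ≤ -1 ∧ 1 * A2 + (-1) * m22_2 ≤ 1) := by
  have h := C.f22_5
  clear C
  omega

theorem c2_11_22_33_k3_k_f33_2 {n1 n2 n3 A1 A2 A3 B1 B2 B3 m11_1 m11_2 m11_3 m12_1 m12_2 m12_3 m13_1 m13_2 m13_3 m22_1 m22_2 m22_3 m33_1 m33_2 m33_3 : ℤ} (C : Ctx2 n1 n2 n3 A1 A2 A3 B1 B2 B3 m11_1 m11_2 m11_3 m12_1 m12_2 m12_3 m13_1 m13_2 m13_3 m22_1 m22_2 m22_3 m33_1 m33_2 m33_3) :
    (1 * m33_1 + (-1) * n1 ≤ 0 ∧ (-1) * m33_1 + 1 * n1 ≤ 0) ∨ ((-1) * A3 + 1 * m33_1 ≤ -1 ∧ 1 * A3 + (-1) * m33_1 ≤ 1) := by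
  have h := C.f33_2
  clear C
  omega

theorem c2_11_22_33_k3_k_f33_5 {n1 n2 n3 A1 A2 A3 B1 B2 B3 m11_1 m11_2 m11_3 m12_1 m12_2 m12_3 m13_1 m13_2 m13_3 m22_1 m22_2 m22_3 m33_1 m33_2 m33_3 : ℤ} (C : Ctx2 n1 n2 n3 A1 A2 A3 B1 B2 B3 m11_1 m11_2 m11_3 m12_1 m12_2 m12_3 m13_1 m13_2 m13_3 m22_1 m22_2 m22_3 m33_1 m33_2 m33_3) :
    ((-1) * m33_1 + 1 * m33_2 + (-1) * n2 ≤ 0 ∧ 1 * m33_1 + (-1) * m33_2 + 1 * n2 ≤ 0) ∨ ((-1) * A3 + 1 * m33_2 ≤ -1 ∧ 1 * A3 + (-1) * m33_2 ≤ 1) := by
  have h := C.f33_5
  clear C
  omega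

theorem c2_11_22_33_k3_k_f33_8 {n1 n2 n3 A1 A2 A3 B1 B2 B3 m11_1 m11_2 m11_3 m12_1 m12_2 m12_3 m13_1 m13_2 m13_3 m22_1 m22_2 m22_3 m33_1 m33_2 m33_3 : ℤ} (C : Ctx2 n1 n2 n3 A1 A2 A3 B1 B2 B3 m11_1 m11_2 m11_3 m12_1 m12_2 m12_3 m13_1 m13_2 m13_3 m22_1 m22_2 m22_3 m33_1 m33_2 m33_3) :
    ((-1) * m33_2 + 1 * m33_3 + (-1) * n3 ≤ 0 ∧ 1 * m33_2 + (-1) * m33_3 + 1 * n3 ≤ 0) ∨ ((-1) * A3 + 1 * m33_3 ≤ -1 ∧ 1 * A3 + (-1) * m33_3 ≤ 1) := by
  have h := C.f33_8
  clear C
  omega

theorem c2_11_22_33_k3_k_p11_12B {n1 n2 n3 A1 A2 A3 B1 B2 B3 m11_1 m11_2 m11_3 m12_1 m12_2 m12_3 m13_1 m13_2 m13_3 m22_1 m22_2 m22_3 m33_1 m33_2 m33_3 : ℤ} (C : Ctx2 n1 n2 n3 A1 A2 A3 B1 B2 B3 m11_1 m11_2 m11_3 m12_1 m12_2 m12_3 m13_1 m13_2 m13_3 m22_1 m22_2 m22_3 m33_1 m33_2 m33_3) :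
    (1 * B1 ≤ 0) ∨ (1 * A1 ≤ 0) ∨ (1 * B2 ≤ 0) ∨ ((-2) * B1 + 1 * m11_1 + 1 * m12_1 ≤ -1) ∨ ((-2) * B2 + 1 * m11_2 + 1 * m12_2 ≤ -1) ∨ ((-2) * B3 + 1 * m11_3 + 1 * m12_3 ≤ -1) := by
  have h := C.p11_12B
  clear C
  omega

theorem c2_11_22_33_k3_k_p11_22A {n1 n2 n3 A1 A2 A3 B1 B2 B3 m11_1 m11_2 m11_3 m12_1 m12_2 m12_3 m13_1 m13_2 m13_3 m22_1 m22_2 m22_3 m33_1 m33_2 m33_3 : ℤ} (C : Ctx2 n1 n2 n3 A1 A2 A3 B1 B2 B3 m11_1 m11_2 m11_3 m12_1 m12_2 m12_3 m13_1 m13_2 m13_3 m22_1 m22_2 m22_3 m33_1 m33_2 m33_3) :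
    (1 * B1 ≤ 0) ∨ (1 * A2 ≤ 0) ∨ ((-2) * A1 + 1 * m11_1 + 1 * m22_1 ≤ -1) ∨ ((-2) * A2 + 1 * m11_2 + 1 * m22_2 ≤ -1) ∨ ((-2) * A3 + 1 * m11_3 + 1 * m22_3 ≤ -1) := by
  have h := C.p11_22A
  clear C
  omega

theorem c2_11_22_33_k3_k_p11_22B {n1 n2 n3 A1 A2 A3 B1 B2 B3 m11_1 m11_2 m11_3 m12_1 m12_2 m12_3 m13_1 m13_2 m13_3 m22_1 m22_2 m22_3 m33_1 m33_2 m33_3 : ℤ} (C : Ctx2 n1 n2 n3 A1 A2 A3 B1 B2 B3 m11_1 m11_2 m11_3 m12_1 m12_2 m12_3 m13_1 m13_2 m13_3 m22_1 m22_2 m22_3 m33_1 m33_2 m33_3) :
    (1 * B1 ≤ 0) ∨ (1 * A2 ≤ 0) ∨ ((-2) * B1 + 1 * m11_1 + 1 * m22_1 ≤ -1) ∨ ((-2) * B2 + 1 * m11_2 + 1 * m22_2 ≤ -1) ∨ ((-2) * B3 + 1 * m11_3 + 1 * m22_3 ≤ -1) := by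
  have h := C.p11_22B
  clear C
  omega

theorem c2_11_22_33_k3_k_p11_33A {n1 n2 n3 A1 A2 A3 B1 B2 B3 m11_1 m11_2 m11_3 m12_1 m12_2 m12_3 m13_1 m13_2 m13_3 m22_1 m22_2 m22_3 m33_1 m33_2 m33_3 : ℤ} (C : Ctx2 n1 n2 n3 A1 A2 A3 B1 B2 B3 m11_1 m11_2 m11_3 m12_1 m12_2 m12_3 m13_1 m13_2 m13_3 m22_1 m22_2 m22_3 m33_1 m33_2 m33_3) :
    (1 * B1 ≤ 0) ∨ (1 * A3 ≤ 0) ∨ ((-2) * A1 + 1 * m11_1 + 1 * m33_1 ≤ -1) ∨ ((-2) * A2 + 1 * m11_2 + 1 * m33_2 ≤ -1) ∨ ((-2) * A3 + 1 * m11_3 + 1 * m33_3 ≤ -1) := by
  have h := C.p11_33A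
  clear C
  omega

theorem c2_11_22_33_k3_k_p12_22A {n1 n2 n3 A1 A2 A3 B1 B2 B3 m11_1 m11_2 m11_3 m12_1 m12_2 m12_3 m13_1 m13_2 m13_3 m22_1 m22_2 m22_3 m33_1 m33_2 m33_3 : ℤ} (C : Ctx2 n1 n2 n3 A1 A2 A3 B1 B2 B3 m11_1 m11_2 m11_3 m12_1 m12_2 m12_3 m13_1 m13_2 m13_3 m22_1 m22_2 m22_3 m33_1 m33_2 m33_3) :
    (1 * A1 ≤ 0) ∨ (1 * B2 ≤ 0) ∨ (1 * A2 ≤ 0) ∨ ((-2) * A1 + 1 * m12_1 + 1 * m22_1 ≤ -1) ∨ ((-2) * A2 + 1 * m12_2 + 1 * m22_2 ≤ -1) ∨ ((-2) * A3 + 1 * m12_3 + 1 * m22_3 ≤ -1) := by
  have h := C.p12_22A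
  clear C
  omega

theorem c2_11_22_33_k3_k_p12_33A {n1 n2 n3 A1 A2 A3 B1 B2 B3 m11_1 m11_2 m11_3 m12_1 m12_2 m12_3 m13_1 m13_2 m13_3 m22_1 m22_2 m22_3 m33_1 m33_2 m33_3 : ℤ} (C : Ctx2 n1 n2 n3 A1 A2 A3 B1 B2 B3 m11_1 m11_2 m11_3 m12_1 m12_2 m12_3 m13_1 m13_2 m13_3 m22_1 m22_2 m22_3 m33_1 m33_2 m33_3) :
    (1 * A1 ≤ 0) ∨ (1 * B2 ≤ 0) ∨ (1 * A3 ≤ 0) ∨ ((-2) * A1 + 1 * m12_1 + 1 * m33_1 ≤ -1) ∨ ((-2) * A2 + 1 * m12_2 + 1 * m33_2 ≤ -1) ∨ ((-2) * A3 + 1 * m12_3 + 1 * m33_3 ≤ -1) := by
  have h := C.p12_33A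
  clear C
  omega

theorem c2_11_22_33_k3_k_p13_22A {n1 n2 n3 A1 A2 A3 B1 B2 B3 m11_1 m11_2 m11_3 m12_1 m12_2 m12_3 m13_1 m13_2 m13_3 m22_1 m22_2 m22_3 m33_1 m33_2 m33_3 : ℤ} (C : Ctx2 n1 n2 n3 A1 A2 A3 B1 B2 B3 m11_1 m11_2 m11_3 m12_1 m12_2 m12_3 m13_1 m13_2 m13_3 m22_1 m22_2 m22_3 m33_1 m33_2 m33_3) :
    (1 * A1 ≤ 0) ∨ (1 * B3 ≤ 0) ∨ (1 * A2 ≤ 0) ∨ ((-2) * A1 + 1 * m13_1 + 1 * m22_1 ≤ -1) ∨ ((-2) * A2 + 1 * m13_2 + 1 * m22_2 ≤ -1) ∨ ((-2) * A3 + 1 * m13_3 + 1 * m22_3 ≤ -1) := by
  have h := C.p13_22A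
  clear C
  omega

theorem c2_11_22_33_k3_k_p13_33A {n1 n2 n3 A1 A2 A3 B1 B2 B3 m11_1 m11_2 m11_3 m12_1 m12_2 m12_3 m13_1 m13_2 m13_3 m22_1 m22_2 m22_3 m33_1 m33_2 m33_3 : ℤ} (C : Ctx2 n1 n2 n3 A1 A2 A3 B1 B2 B3 m11_1 m11_2 m11_3 m12_1 m12_2 m12_3 m13_1 m13_2 m13_3 m22_1 m22_2 m22_3 m33_1 m33_2 m33_3) :
    (1 * A1 ≤ 0) ∨ (1 * B3 ≤ 0) ∨ (1 * A3 ≤ 0) ∨ ((-2) * A1 + 1 * m13_1 + 1 * m33_1 ≤ -1) ∨ ((-2) * A2 + 1 * m13_2 + 1 * m33_2 ≤ -1) ∨ ((-2) * A3 + 1 * m13_3 + 1 * m33_3 ≤ -1) := by
  have h := C.p13_33A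
  clear C
  omega

theorem c2_11_22_33_k3_k_tmzp {n1 n2 n3 A1 A2 A3 B1 B2 B3 m11_1 m11_2 m11_3 m12_1 m12_2 m12_3 m13_1 m13_2 m13_3 m22_1 m22_2 m22_3 m33_1 m33_2 m33_3 : ℤ} (C : Ctx2 n1 n2 n3 A1 A2 A3 B1 B2 B3 m11_1 m11_2 m11_3 m12_1 m12_2 m12_3 m13_1 m13_2 m13_3 m22_1 m22_2 m22_3 m33_1 m33_2 m33_3) :
    ((-1) * A1 + 1 * n1 ≤ 0) ∨ ((-1) * A1 + 1 * A2 ≤ 0) ∨ ((-1) * A2 + 1 * A3 ≤ 0) ∨ (1 * B1 ≤ 0) ∨ (1 * B1 + (-1) * B2 + 1 * n2 ≤ 0) ∨ (1 * B2 + (-1) * B3 + 1 * n3 ≤ 0) := by
  have h := C.tmzp
  clear C
  omega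

theorem c2_11_22_33_k3_k_tmpp {n1 n2 n3 A1 A2 A3 B1 B2 B3 m11_1 m11_2 m11_3 m12_1 m12_2 m12_3 m13_1 m13_2 m13_3 m22_1 m22_2 m22_3 m33_1 m33_2 m33_3 : ℤ} (C : Ctx2 n1 n2 n3 A1 A2 A3 B1 B2 B3 m11_1 m11_2 m11_3 m12_1 m12_2 m12_3 m13_1 m13_2 m13_3 m22_1 m22_2 m22_3 m33_1 m33_2 m33_3) :
    ((-1) * A1 + 1 * n1 ≤ 0) ∨ ((-1) * A1 + 1 * A2 ≤ 1) ∨ (1 * B1 ≤ 0) ∨ (1 * B1 + (-1) * B2 + 1 * n2 ≤ 1) := by
  have h := C.tmpp
  clear C
  omega

theorem c2_11_22_33_k3_k_tzpm {n1 n2 n3 A1 A2 A3 B1 B2 B3 m11_1 m11_2 m11_3 m12_1 m12_2 m12_3 m13_1 m13_2 m13_3 m22_1 m22_2 m22_3 m33_1 m33_2 m33_3 : ℤ} (C : Ctx2 n1 n2 n3 A1 A2 A3 B1 B2 B3 m11_1 m11_2 m11_3 m12_1 m12_2 m12_3 m13_1 m13_2 m13_3 m22_1 m22_2 m22_3 m33_1 m33_2 m33_3) :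
    ((-1) * A1 + 1 * A2 ≤ 0) ∨ (1 * A2 + (-1) * A3 + 1 * n3 ≤ 1) ∨ (1 * B1 + (-1) * B2 + 1 * n2 ≤ 0) ∨ ((-1) * B2 + 1 * B3 ≤ 1) := by
  have h := C.tzpm
  clear C
  omega

theorem c2_11_22_33_k3 {n1 n2 n3 A1 A2 A3 B1 B2 B3 m11_1 m11_2 m11_3 m12_1 m12_2 m12_3 m13_1 m13_2 m13_3 m22_1 m22_2 m22_3 m33_1 m33_2 m33_3 : ℤ}
    (C : Ctx2 n1 n2 n3 A1 A2 A3 B1 B2 B3 m11_1 m11_2 m11_3 m12_1 m12_2 m12_3 m13_1 m13_2 m13_3 m22_1 m22_2 m22_3 m33_1 m33_2 m33_3)
    (e0 : 0 < B1)
    (e1 : 0 < A2)
    (e2 : 0 < A3)
    (s1 : 3 * A1 + 0 * B1 ≤ m11_1 + m22_1 + m33_1)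
    (s2 : 3 * A2 + 0 * B2 ≤ m11_2 + m22_2 + m33_2)
    (s3 : 3 * A3 + 0 * B3 ≤ m11_3 + m22_3 + m33_3) : False := by
  rcases c2_11_22_33_k3_k_f12_2 C with ⟨c0_0_0, c0_0_1⟩ | ⟨c0_1_0, c0_1_1⟩
  · rcases c2_11_22_33_k3_k_f12_5 C with ⟨c1_0_0, c1_0_1⟩ | ⟨c1_1_0, c1_1_1⟩
    · linarith only [C.b3, C.f12_4, C.o0, c0_0_1, c1_0_1]
    · rcases c2_11_22_33_k3_k_f13_2 C with ⟨c2_0_0, c2_0_1⟩ | ⟨c2_1_0, c2_1_1⟩
      · rcases c2_11_22_33_k3_k_t12 C with ⟨c4_0_0, c4_0_1⟩ | ⟨c4_1_0, c4_1_1⟩
        · rcases c2_11_22_33_k3_k_t23 C with ⟨c5_0_0, c5_0_1⟩ | ⟨c5_1_0, c5_1_1⟩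
          · rcases c2_11_22_33_k3_k_f13_5 C with ⟨c6_0_0, c6_0_1⟩ | ⟨c6_1_0, c6_1_1⟩
            · rcases c2_11_22_33_k3_k_f13_8 C with ⟨c7_0_0, c7_0_1⟩ | ⟨c7_1_0, c7_1_1⟩
              · linarith only [C.b3, C.b5, C.f13_7, C.o0, c2_0_1, c6_0_1, c7_0_1]
              · rcases c2_11_22_33_k3_k_f22_2 C with ⟨c11_0_0, c11_0_1⟩ | ⟨c11_1_0, c11_1_1⟩
                · rcases c2_11_22_33_k3_k_f22_5 C with ⟨c12_0_0, c12_0_1⟩ | ⟨c12_1_0, c12_1_1⟩
                  · linarith only [C.b3, C.f11_0, C.f22_4, C.f33_0, C.o0, C.o1, c11_0_1, c12_0_1, s1]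
                  · rcases c2_11_22_33_k3_k_p13_22A C with c14_0_0 | c14_1_0 | c14_2_0 | c14_3_0 | c14_4_0 | c14_5_0
                    · linarith only [c14_0_0, c4_0_0]
                    · linarith only [C.o2, c14_1_0, e2]
                    · linarith only [c14_2_0, e1]
                    · linarith only [C.f11_0, C.f33_0, C.o0, c11_0_1, c14_3_0, c2_0_1, s1]
                    · linarith only [C.b3, C.o0, C.o1, c12_1_1, c14_4_0, c2_0_1, c6_0_1]
                    · linarith only [C.f22_6, C.o2, c12_1_1, c14_5_0, c5_0_1, c7_1_1]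
                · rcases c2_11_22_33_k3_k_f22_5 C with ⟨c15_0_0, c15_0_1⟩ | ⟨c15_1_0, c15_1_1⟩
                  · linarith only [C.f12_0, C.f12_3, C.f22_4, C.o1, c11_1_1, c15_0_1, c1_1_1, c5_0_0]
                  · rcases c2_11_22_33_k3_k_p13_22A C with c16_0_0 | c16_1_0 | c16_2_0 | c16_3_0 | c16_4_0 | c16_5_0
                    · linarith only [c16_0_0, c4_0_0]
                    · linarith only [C.o2, c16_1_0, e2]
                    · linarith only [c16_2_0, e1]
                    · rcases c2_11_22_33_k3_k_p11_33A C with c17_0_0 | c17_1_0 | c17_2_0 | c17_3_0 | c17_4_0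
                      · linarith only [c17_0_0, e0]
                      · linarith only [c17_1_0, e2]
                      · linarith only [c16_3_0, c17_2_0, c2_0_1, s1]
                      · linarith only [C.f22_4, c17_3_0, s2]
                      · rcases c2_11_22_33_k3_k_f33_8 C with ⟨c18_0_0, c18_0_1⟩ | ⟨c18_1_0, c18_1_1⟩
                        · linarith only [C.f11_2, C.f22_4, C.f22_6, c17_4_0, c18_0_1, s2, s3]
                        · linarith only [C.b3, C.f11_0, C.f11_1, C.f11_2, C.f22_4, C.f22_6, C.o1, c17_4_0, c18_1_1, s3]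
                    · linarith only [C.b3, C.o0, C.o1, c15_1_1, c16_4_0, c2_0_1, c6_0_1]
                    · linarith only [C.f22_6, C.o2, c15_1_1, c16_5_0, c5_0_1, c7_1_1]
            · rcases c2_11_22_33_k3_k_f13_8 C with ⟨c19_0_0, c19_0_1⟩ | ⟨c19_1_0, c19_1_1⟩
              · linarith only [C.a4, C.f13_7, c19_0_1, c5_0_1, c6_1_1]
              · rcases c2_11_22_33_k3_k_f22_2 C with ⟨c22_0_0, c22_0_1⟩ | ⟨c22_1_0, c22_1_1⟩
                · rcases c2_11_22_33_k3_k_f22_5 C with ⟨c23_0_0, c23_0_1⟩ | ⟨c23_1_0, c23_1_1⟩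
                  · linarith only [C.f11_0, C.f12_0, C.f12_3, C.f22_4, C.f33_0, C.o0, C.o1, c1_1_1, c22_0_1, c23_0_1, s1]
                  · rcases c2_11_22_33_k3_k_p12_22A C with c24_0_0 | c24_1_0 | c24_2_0 | c24_3_0 | c24_4_0 | c24_5_0
                    · linarith only [c24_0_0, c4_0_0]
                    · linarith only [C.f11_0, C.f22_1, C.f33_0, C.o0, C.o1, c22_0_1, c24_1_0, e0, s1]
                    · linarith only [c24_2_0, e1]
                    · linarith only [C.f11_0, C.f33_0, C.o0, c0_0_1, c22_0_1, c24_3_0, s1]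
                    · rcases c2_11_22_33_k3_k_p13_22A C with c25_0_0 | c25_1_0 | c25_2_0 | c25_3_0 | c25_4_0 | c25_5_0
                      · linarith only [c25_0_0, c4_0_0]
                      · linarith only [C.a1, C.a4, C.f22_1, C.o0, C.o2, c22_0_1, c25_1_0, e0]
                      · linarith only [c25_2_0, e1]
                      · linarith only [C.f11_0, C.f33_0, C.o0, c22_0_1, c25_3_0, c2_0_1, s1]
                      · rcases c2_11_22_33_k3_k_p11_12B C with c26_0_0 | c26_1_0 | c26_2_0 | c26_3_0 | c26_4_0 | c26_5_0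
                        · linarith only [c26_0_0, e0]
                        · linarith only [c26_1_0, c4_0_0]
                        · linarith only [C.o1, c26_2_0, e1]
                        · rcases c2_11_22_33_k3_k_tmzp C with c35_0_0 | c35_1_0 | c35_2_0 | c35_3_0 | c35_4_0 | c35_5_0
                          · linarith only [C.f11_0, C.f22_0, C.f33_0, C.o0, c35_0_0, s1]
                          · linarith only [c35_1_0, c5_0_0]
                          · rcases c2_11_22_33_k3_k_tmpp C with c36_0_0 | c36_1_0 | c36_2_0 | c36_3_0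
                            · linarith only [C.f11_0, C.f22_0, C.f33_0, C.o0, c36_0_0, s1]
                            · linarith only [C.f11_0, C.f22_1, C.f33_0, C.o0, c22_0_1, c36_1_0, s1]
                            · linarith only [c36_2_0, e0]
                            · linarith only [C.f11_0, C.f11_1, C.f33_4, c1_1_1, c24_4_0, c35_2_0, c36_3_0, s2]
                          · linarith only [c35_3_0, e0]
                          · linarith only [C.f11_1, C.f13_0, C.f13_3, C.f33_4, C.o2, c0_0_1, c1_1_1, c23_1_1, c24_4_0, c26_3_0, c35_4_0, c6_1_1, s2]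
                          · linarith only [C.a4, C.o1, c23_1_1, c25_4_0, c35_5_0, c5_0_1, c6_1_1]
                        · linarith only [C.f33_4, C.o2, c1_1_1, c23_1_1, c24_4_0, c25_4_0, c26_4_0, c6_1_1, s2]
                        · linarith only [C.f11_2, C.f12_6, C.f13_6, C.f33_4, C.o1, c19_1_1, c1_1_1, c23_1_1, c25_4_0, c26_5_0, c5_0_1, c6_1_1, s2]
                      · linarith only [C.f22_6, C.o2, c19_1_1, c23_1_1, c25_5_0, c5_0_1]
                    · linarith only [C.f12_6, C.f22_6, C.o1, c1_1_1, c23_1_1, c24_5_0, c5_0_1]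
                · rcases c2_11_22_33_k3_k_f22_5 C with ⟨c37_0_0, c37_0_1⟩ | ⟨c37_1_0, c37_1_1⟩
                  · linarith only [C.f12_0, C.f12_3, C.f22_4, C.o1, c1_1_1, c22_1_1, c37_0_1, c5_0_0]
                  · rcases c2_11_22_33_k3_k_f33_2 C with ⟨c38_0_0, c38_0_1⟩ | ⟨c38_1_0, c38_1_1⟩
                    · rcases c2_11_22_33_k3_k_f33_5 C with ⟨c39_0_0, c39_0_1⟩ | ⟨c39_1_0, c39_1_1⟩
                      · linarith only [C.a1, C.f13_0, C.f13_3, C.f33_4, C.o2, c38_0_1, c39_0_1, c6_1_1]
                      · rcases c2_11_22_33_k3_k_f33_8 C with ⟨c40_0_0, c40_0_1⟩ | ⟨c40_1_0, c40_1_1⟩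
                        · linarith only [C.a4, C.f33_7, c39_1_1, c40_0_1, c5_0_1]
                        · rcases c2_11_22_33_k3_k_p11_33A C with c41_0_0 | c41_1_0 | c41_2_0 | c41_3_0 | c41_4_0
                          · linarith only [c41_0_0, e0]
                          · linarith only [c41_1_0, e2]
                          · rcases c2_11_22_33_k3_k_p12_22A C with c42_0_0 | c42_1_0 | c42_2_0 | c42_3_0 | c42_4_0 | c42_5_0
                            · linarith only [c42_0_0, c4_0_0]
                            · linarith only [C.o0, C.o1, c42_1_0, c5_0_0, e0]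
                            · linarith only [c42_2_0, e1]
                            · linarith only [c0_0_1, c41_2_0, c42_3_0, s1]
                            · rcases c2_11_22_33_k3_k_p12_33A C with c43_0_0 | c43_1_0 | c43_2_0 | c43_3_0 | c43_4_0 | c43_5_0
                              · linarith only [c43_0_0, c4_0_0]
                              · linarith only [C.f22_1, C.o1, c41_2_0, c43_1_0, c4_0_0, s1]
                              · linarith only [c43_2_0, e2]
                              · linarith only [C.f11_0, C.f22_0, C.o0, c0_0_1, c38_0_1, c43_3_0, s1]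
                              · rcases c2_11_22_33_k3_k_p13_22A C with c47_0_0 | c47_1_0 | c47_2_0 | c47_3_0 | c47_4_0 | c47_5_0
                                · linarith only [c47_0_0, c4_0_0]
                                · linarith only [C.o2, c47_1_0, e2]
                                · linarith only [c47_2_0, e1]
                                · linarith only [c2_0_1, c41_2_0, c47_3_0, s1]
                                · rcases c2_11_22_33_k3_k_tmzp C with c50_0_0 | c50_1_0 | c50_2_0 | c50_3_0 | c50_4_0 | c50_5_0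
                                  · linarith only [C.f11_0, C.f22_0, C.f33_0, C.o0, c50_0_0, s1]
                                  · linarith only [c50_1_0, c5_0_0]
                                  · rcases c2_11_22_33_k3_k_tmpp C with c51_0_0 | c51_1_0 | c51_2_0 | c51_3_0
                                    · linarith only [C.f11_0, C.f22_0, C.f33_0, C.o0, c51_0_0, s1]
                                    · linarith only [C.f11_0, C.f22_1, C.f33_1, C.o0, c50_2_0, c51_1_0, s1]
                                    · linarith only [c51_2_0, e0]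
                                    · linarith only [C.f11_0, C.f11_1, C.f33_4, c1_1_1, c42_4_0, c50_2_0, c51_3_0, s2]
                                  · linarith only [c50_3_0, e0]
                                  · linarith only [C.f11_0, C.f11_1, C.f22_4, c1_1_1, c43_4_0, c50_4_0, s2]
                                  · linarith only [C.f22_0, C.f33_1, C.o1, c22_1_1, c37_1_1, c38_0_1, c47_4_0, c50_5_0, c5_0_1, c6_1_1]
                                · linarith only [C.f22_6, C.o2, c19_1_1, c37_1_1, c47_5_0, c5_0_1]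
                              · linarith only [C.f12_6, C.o1, c1_1_1, c40_1_1, c43_5_0, c5_0_1]
                            · linarith only [C.f12_6, C.f22_6, C.o1, c1_1_1, c37_1_1, c42_5_0, c5_0_1]
                          · linarith only [C.f22_4, c41_3_0, s2]
                          · linarith only [C.b3, C.f11_0, C.f11_1, C.f11_2, C.o1, c40_1_1, c41_4_0, c5_0_1]
                    · rcases c2_11_22_33_k3_k_f33_5 C with ⟨c52_0_0, c52_0_1⟩ | ⟨c52_1_0, c52_1_1⟩
                      · linarith only [C.f12_0, C.f12_3, C.f33_4, C.o1, c1_1_1, c38_1_1, c52_0_1, c5_0_0]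
                      · rcases c2_11_22_33_k3_k_f33_8 C with ⟨c53_0_0, c53_0_1⟩ | ⟨c53_1_0, c53_1_1⟩
                        · linarith only [C.a4, C.f33_7, c52_1_1, c53_0_1, c5_0_1]
                        · rcases c2_11_22_33_k3_k_p11_33A C with c54_0_0 | c54_1_0 | c54_2_0 | c54_3_0 | c54_4_0
                          · linarith only [c54_0_0, e0]
                          · linarith only [c54_1_0, e2]
                          · rcases c2_11_22_33_k3_k_p12_22A C with c55_0_0 | c55_1_0 | c55_2_0 | c55_3_0 | c55_4_0 | c55_5_0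
                            · linarith only [c4_0_0, c55_0_0]
                            · linarith only [C.f22_1, C.o0, C.o1, c54_2_0, c55_1_0, e0, s1]
                            · linarith only [c55_2_0, e1]
                            · linarith only [c0_0_1, c54_2_0, c55_3_0, s1]
                            · rcases c2_11_22_33_k3_k_p13_22A C with c60_0_0 | c60_1_0 | c60_2_0 | c60_3_0 | c60_4_0 | c60_5_0
                              · linarith only [c4_0_0, c60_0_0]
                              · linarith only [C.a4, C.f11_0, C.f22_1, C.f33_1, C.o0, C.o2, c60_1_0, e0, s1]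
                              · linarith only [c60_2_0, e1]
                              · linarith only [c2_0_1, c54_2_0, c60_3_0, s1]
                              · rcases c2_11_22_33_k3_k_tmzp C with c63_0_0 | c63_1_0 | c63_2_0 | c63_3_0 | c63_4_0 | c63_5_0
                                · linarith only [C.f11_0, C.f22_0, C.f33_0, C.o0, c63_0_0, s1]
                                · linarith only [c5_0_0, c63_1_0]
                                · rcases c2_11_22_33_k3_k_tmpp C with c64_0_0 | c64_1_0 | c64_2_0 | c64_3_0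
                                  · linarith only [C.f11_0, C.f22_0, C.f33_1, C.o0, c22_1_1, c63_2_0, c64_0_0, s1]
                                  · linarith only [C.f11_0, C.f22_1, C.f33_1, C.o0, c63_2_0, c64_1_0, s1]
                                  · linarith only [c64_2_0, e0]
                                  · linarith only [C.f11_0, C.f11_1, C.f33_4, c1_1_1, c55_4_0, c63_2_0, c64_3_0, s2]
                                · linarith only [c63_3_0, e0]
                                · linarith only [C.f11_0, C.f11_1, C.f33_4, C.o2, c1_1_1, c37_1_1, c55_4_0, c60_4_0, c63_4_0, c6_1_1, s2]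
                                · linarith only [C.a4, C.o1, c37_1_1, c5_0_1, c60_4_0, c63_5_0, c6_1_1]
                              · linarith only [C.f22_6, C.o2, c19_1_1, c37_1_1, c5_0_1, c60_5_0]
                            · linarith only [C.f12_6, C.f22_6, C.o1, c1_1_1, c37_1_1, c55_5_0, c5_0_1]
                          · linarith only [C.f22_4, c54_3_0, s2]
                          · linarith only [C.b3, C.f11_0, C.f11_1, C.f11_2, C.o1, c53_1_1, c54_4_0, c5_0_1]
          · rcases c2_11_22_33_k3_k_f13_5 C with ⟨c65_0_0, c65_0_1⟩ | ⟨c65_1_0, c65_1_1⟩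
            · rcases c2_11_22_33_k3_k_f13_8 C with ⟨c66_0_0, c66_0_1⟩ | ⟨c66_1_0, c66_1_1⟩
              · linarith only [C.b3, C.f13_7, C.o0, c2_0_1, c5_1_1, c65_0_1, c66_0_1]
              · rcases c2_11_22_33_k3_k_f22_2 C with ⟨c69_0_0, c69_0_1⟩ | ⟨c69_1_0, c69_1_1⟩
                · rcases c2_11_22_33_k3_k_f22_5 C with ⟨c70_0_0, c70_0_1⟩ | ⟨c70_1_0, c70_1_1⟩
                  · linarith only [C.b3, C.f11_0, C.f22_4, C.f33_0, C.o0, C.o1, c69_0_1, c70_0_1, s1]
                  · rcases c2_11_22_33_k3_k_p12_22A C with c71_0_0 | c71_1_0 | c71_2_0 | c71_3_0 | c71_4_0 | c71_5_0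
                    · linarith only [c4_0_0, c71_0_0]
                    · linarith only [C.f11_0, C.f22_1, C.f33_0, C.o0, C.o1, c69_0_1, c71_1_0, e0, s1]
                    · linarith only [c71_2_0, e1]
                    · linarith only [C.f11_0, C.f33_0, C.o0, c0_0_1, c69_0_1, c71_3_0, s1]
                    · rcases c2_11_22_33_k3_k_p13_22A C with c72_0_0 | c72_1_0 | c72_2_0 | c72_3_0 | c72_4_0 | c72_5_0
                      · linarith only [c4_0_0, c72_0_0]
                      · linarith only [C.o2, c72_1_0, e2]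
                      · linarith only [c72_2_0, e1]
                      · linarith only [C.f11_0, C.f33_0, C.o0, c2_0_1, c69_0_1, c72_3_0, s1]
                      · linarith only [C.b3, C.o0, C.o1, c2_0_1, c65_0_1, c70_1_1, c72_4_0]
                      · linarith only [C.f22_6, C.o2, c1_1_1, c5_1_1, c66_1_1, c70_1_1, c71_4_0, c72_5_0]
                    · linarith only [C.a5, C.f12_6, C.f22_6, C.o2, c1_1_1, c5_1_1, c70_1_1, c71_5_0]
                · rcases c2_11_22_33_k3_k_f22_5 C with ⟨c73_0_0, c73_0_1⟩ | ⟨c73_1_0, c73_1_1⟩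
                  · linarith only [C.a2, C.f12_0, C.f12_3, C.f22_4, C.o1, c1_1_1, c69_1_1, c73_0_1]
                  · rcases c2_11_22_33_k3_k_f33_2 C with ⟨c74_0_0, c74_0_1⟩ | ⟨c74_1_0, c74_1_1⟩
                    · rcases c2_11_22_33_k3_k_p13_33A C with c75_0_0 | c75_1_0 | c75_2_0 | c75_3_0 | c75_4_0 | c75_5_0
                      · linarith only [c4_0_0, c75_0_0]
                      · linarith only [C.o2, c75_1_0, e2]
                      · linarith only [c75_2_0, e2]
                      · linarith only [C.f11_0, C.f22_0, C.o0, c2_0_1, c74_0_1, c75_3_0, s1]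
                      · linarith only [C.f11_0, C.f11_1, C.f22_4, C.o0, c2_0_1, c65_0_1, c75_4_0, s2]
                      · rcases c2_11_22_33_k3_k_f33_5 C with ⟨c76_0_0, c76_0_1⟩ | ⟨c76_1_0, c76_1_1⟩
                        · rcases c2_11_22_33_k3_k_f33_8 C with ⟨c77_0_0, c77_0_1⟩ | ⟨c77_1_0, c77_1_1⟩
                          · linarith only [C.f11_0, C.f11_1, C.f11_2, C.f12_0, C.f12_3, C.f22_0, C.f22_4, C.f22_6, C.o0, C.o1, C.o2, c1_1_1, c66_1_1, c74_0_1, c75_5_0, c76_0_1, c77_0_1, s1, s3]
                          · rcases c2_11_22_33_k3_k_p11_33A C with c78_0_0 | c78_1_0 | c78_2_0 | c78_3_0 | c78_4_0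
                            · linarith only [c78_0_0, e0]
                            · linarith only [c78_1_0, e2]
                            · rcases c2_11_22_33_k3_k_p12_33A C with c81_0_0 | c81_1_0 | c81_2_0 | c81_3_0 | c81_4_0 | c81_5_0
                              · linarith only [c4_0_0, c81_0_0]
                              · linarith only [C.f22_1, C.o0, C.o1, c78_2_0, c81_1_0, e0, s1]
                              · linarith only [c81_2_0, e2]
                              · linarith only [C.f11_0, C.f22_0, C.o0, c0_0_1, c74_0_1, c81_3_0, s1]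
                              · linarith only [C.b3, C.f11_0, C.f22_0, C.o0, C.o1, c1_1_1, c74_0_1, c76_0_1, c81_4_0, s1]
                              · linarith only [C.f12_6, C.o2, c1_1_1, c5_1_1, c77_1_1, c81_5_0]
                            · linarith only [C.a1, C.b3, C.f11_0, C.f11_1, C.o0, C.o1, c74_0_1, c76_0_1, c78_3_0]
                            · linarith only [C.b3, C.f11_0, C.f11_1, C.f11_2, C.f22_4, C.f22_6, C.o1, c77_1_1, c78_4_0, s3]
                        · rcases c2_11_22_33_k3_k_f33_8 C with ⟨c82_0_0, c82_0_1⟩ | ⟨c82_1_0, c82_1_1⟩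
                          · linarith only [C.f12_0, C.f12_3, C.f13_4, C.f33_7, c1_1_1, c2_0_1, c5_1_1, c65_0_1, c76_1_1, c82_0_1]
                          · rcases c2_11_22_33_k3_k_p11_33A C with c83_0_0 | c83_1_0 | c83_2_0 | c83_3_0 | c83_4_0
                            · linarith only [c83_0_0, e0]
                            · linarith only [c83_1_0, e2]
                            · rcases c2_11_22_33_k3_k_p12_33A C with c85_0_0 | c85_1_0 | c85_2_0 | c85_3_0 | c85_4_0 | c85_5_0
                              · linarith only [c4_0_0, c85_0_0]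
                              · linarith only [C.f22_1, C.o0, C.o1, c83_2_0, c85_1_0, e0, s1]
                              · linarith only [c85_2_0, e2]
                              · linarith only [C.f11_0, C.f22_0, C.o0, c0_0_1, c74_0_1, c85_3_0, s1]
                              · linarith only [C.f11_0, C.f11_1, C.f13_4, C.f22_4, C.o0, C.o1, c1_1_1, c2_0_1, c65_0_1, c66_1_1, c75_5_0, c76_1_1, c82_1_1, c85_4_0, s2]
                              · linarith only [C.f12_6, C.o2, c1_1_1, c5_1_1, c82_1_1, c85_5_0]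
                            · linarith only [C.f22_4, c83_3_0, s2]
                            · linarith only [C.b3, C.f11_0, C.f11_1, C.f11_2, C.f22_4, C.f22_6, C.o1, c82_1_1, c83_4_0, s3]
                    · rcases c2_11_22_33_k3_k_f33_5 C with ⟨c86_0_0, c86_0_1⟩ | ⟨c86_1_0, c86_1_1⟩
                      · linarith only [C.a2, C.f12_0, C.f12_3, C.f33_4, C.o1, c1_1_1, c74_1_1, c86_0_1]
                      · rcases c2_11_22_33_k3_k_f33_8 C with ⟨c87_0_0, c87_0_1⟩ | ⟨c87_1_0, c87_1_1⟩
                        · linarith only [C.b3, C.f13_4, C.f33_7, C.o0, c2_0_1, c5_1_1, c65_0_1, c86_1_1, c87_0_1]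
                        · rcases c2_11_22_33_k3_k_p11_33A C with c88_0_0 | c88_1_0 | c88_2_0 | c88_3_0 | c88_4_0
                          · linarith only [c88_0_0, e0]
                          · linarith only [c88_1_0, e2]
                          · rcases c2_11_22_33_k3_k_p12_22A C with c89_0_0 | c89_1_0 | c89_2_0 | c89_3_0 | c89_4_0 | c89_5_0
                            · linarith only [c4_0_0, c89_0_0]
                            · linarith only [C.f22_1, C.o0, C.o1, c88_2_0, c89_1_0, e0, s1]
                            · linarith only [c89_2_0, e1]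
                            · linarith only [c0_0_1, c88_2_0, c89_3_0, s1]
                            · rcases c2_11_22_33_k3_k_p12_33A C with c91_0_0 | c91_1_0 | c91_2_0 | c91_3_0 | c91_4_0 | c91_5_0
                              · linarith only [c4_0_0, c91_0_0]
                              · linarith only [C.f22_1, C.o1, c4_0_0, c88_2_0, c91_1_0, s1]
                              · linarith only [c91_2_0, e2]
                              · linarith only [C.a4, C.f11_0, C.f22_1, C.o0, c0_0_1, c74_1_1, c91_3_0, s1]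
                              · rcases c2_11_22_33_k3_k_p11_12B C with c92_0_0 | c92_1_0 | c92_2_0 | c92_3_0 | c92_4_0 | c92_5_0
                                · linarith only [c92_0_0, e0]
                                · linarith only [c4_0_0, c92_1_0]
                                · linarith only [C.o1, c92_2_0, e1]
                                · rcases c2_11_22_33_k3_k_p13_22A C with c96_0_0 | c96_1_0 | c96_2_0 | c96_3_0 | c96_4_0 | c96_5_0
                                  · linarith only [c4_0_0, c96_0_0]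
                                  · linarith only [C.a2, C.f11_0, C.f11_1, C.f13_4, C.f22_4, C.f33_4, C.o0, C.o2, c2_0_1, c65_0_1, c96_1_0, e0, s2]
                                  · linarith only [c96_2_0, e1]
                                  · linarith only [c2_0_1, c88_2_0, c96_3_0, s1]
                                  · linarith only [C.f11_1, C.f22_1, C.f33_4, c2_0_1, c65_0_1, c74_1_1, c88_2_0, c96_4_0, s1, s2]
                                  · linarith only [C.f11_0, C.f11_1, C.f13_4, C.f22_1, C.f22_6, C.f33_4, c0_0_1, c1_1_1, c2_0_1, c5_1_1, c65_0_1, c66_1_1, c74_1_1, c88_2_0, c89_4_0, c92_3_0, c96_5_0, s1, s2]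
                                · linarith only [C.f22_4, c1_1_1, c91_4_0, c92_4_0, s2]
                                · linarith only [C.b3, C.f11_0, C.f11_1, C.f11_2, C.f12_6, c1_1_1, c5_1_1, c92_5_0]
                              · linarith only [C.f12_6, C.o2, c1_1_1, c5_1_1, c87_1_1, c91_5_0]
                            · linarith only [C.a5, C.f12_6, C.f22_6, C.o2, c1_1_1, c5_1_1, c73_1_1, c89_5_0]
                          · linarith only [C.f22_4, c88_3_0, s2]
                          · linarith only [C.b3, C.f11_0, C.f11_1, C.f11_2, C.o2, c5_1_1, c87_1_1, c88_4_0]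
            · rcases c2_11_22_33_k3_k_f13_8 C with ⟨c97_0_0, c97_0_1⟩ | ⟨c97_1_0, c97_1_1⟩
              · linarith only [C.b4, C.f13_7, c5_1_1, c65_1_1, c97_0_1]
              · rcases c2_11_22_33_k3_k_f22_2 C with ⟨c100_0_0, c100_0_1⟩ | ⟨c100_1_0, c100_1_1⟩
                · rcases c2_11_22_33_k3_k_f22_5 C with ⟨c101_0_0, c101_0_1⟩ | ⟨c101_1_0, c101_1_1⟩
                  · linarith only [C.b3, C.f11_0, C.f22_4, C.f33_0, C.o0, C.o1, c100_0_1, c101_0_1, s1]
                  · rcases c2_11_22_33_k3_k_p12_22A C with c102_0_0 | c102_1_0 | c102_2_0 | c102_3_0 | c102_4_0 | c102_5_0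
                    · linarith only [c102_0_0, c4_0_0]
                    · linarith only [C.a1, C.f22_1, C.o0, C.o1, c100_0_1, c102_1_0, e0]
                    · linarith only [c102_2_0, e1]
                    · linarith only [C.f11_0, C.f33_0, C.o0, c0_0_1, c100_0_1, c102_3_0, s1]
                    · rcases c2_11_22_33_k3_k_p13_22A C with c103_0_0 | c103_1_0 | c103_2_0 | c103_3_0 | c103_4_0 | c103_5_0
                      · linarith only [c103_0_0, c4_0_0]
                      · linarith only [C.a4, C.o2, c103_1_0, e1]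
                      · linarith only [c103_2_0, e1]
                      · linarith only [C.f11_0, C.f33_0, C.o0, c100_0_1, c103_3_0, c2_0_1, s1]
                      · rcases c2_11_22_33_k3_k_p11_12B C with c104_0_0 | c104_1_0 | c104_2_0 | c104_3_0 | c104_4_0 | c104_5_0
                        · linarith only [c104_0_0, e0]
                        · linarith only [c104_1_0, c4_0_0]
                        · linarith only [C.a1, C.f22_1, C.o0, C.o1, c100_0_1, c104_2_0, e0]
                        · rcases c2_11_22_33_k3_k_tmzp C with c113_0_0 | c113_1_0 | c113_2_0 | c113_3_0 | c113_4_0 | c113_5_0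
                          · linarith only [C.f11_0, C.f22_0, C.f33_0, C.o0, c113_0_0, s1]
                          · linarith only [C.a1, C.f22_1, c100_0_1, c113_1_0]
                          · rcases c2_11_22_33_k3_k_tmpp C with c114_0_0 | c114_1_0 | c114_2_0 | c114_3_0
                            · linarith only [C.f11_0, C.f22_0, C.f33_0, C.o0, c114_0_0, s1]
                            · linarith only [C.f11_0, C.f22_1, C.f33_0, C.o0, c100_0_1, c114_1_0, s1]
                            · linarith only [c114_2_0, e0]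
                            · linarith only [C.f11_0, C.f11_1, C.f33_4, c102_4_0, c113_2_0, c114_3_0, c1_1_1, s2]
                          · linarith only [c113_3_0, e0]
                          · linarith only [C.f11_1, C.f13_0, C.f13_3, C.f33_4, C.o2, c0_0_1, c101_1_1, c102_4_0, c104_3_0, c113_4_0, c1_1_1, c65_1_1, s2]
                          · linarith only [c113_5_0, c5_1_1]
                        · linarith only [C.f33_4, C.o2, c101_1_1, c102_4_0, c103_4_0, c104_4_0, c1_1_1, c65_1_1, s2]
                        · linarith only [C.f11_2, C.f12_6, C.f33_4, C.o2, c101_1_1, c102_4_0, c103_4_0, c104_5_0, c1_1_1, c5_1_1, c65_1_1, s2]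
                      · linarith only [C.f22_6, C.o2, c101_1_1, c102_4_0, c103_5_0, c1_1_1, c5_1_1, c97_1_1]
                    · linarith only [C.a5, C.f12_6, C.f22_6, C.o2, c101_1_1, c102_5_0, c1_1_1, c5_1_1]
                · rcases c2_11_22_33_k3_k_f22_5 C with ⟨c115_0_0, c115_0_1⟩ | ⟨c115_1_0, c115_1_1⟩
                  · linarith only [C.a2, C.f12_0, C.f12_3, C.f22_4, C.o1, c100_1_1, c115_0_1, c1_1_1]
                  · rcases c2_11_22_33_k3_k_f33_2 C with ⟨c116_0_0, c116_0_1⟩ | ⟨c116_1_0, c116_1_1⟩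
                    · rcases c2_11_22_33_k3_k_f33_5 C with ⟨c117_0_0, c117_0_1⟩ | ⟨c117_1_0, c117_1_1⟩
                      · linarith only [C.f11_0, C.f13_0, C.f13_3, C.f22_0, C.f33_4, C.o0, C.o2, c116_0_1, c117_0_1, c65_1_1, s1]
                      · rcases c2_11_22_33_k3_k_f33_8 C with ⟨c118_0_0, c118_0_1⟩ | ⟨c118_1_0, c118_1_1⟩
                        · linarith only [C.b4, C.f33_7, c117_1_1, c118_0_1, c5_1_1]
                        · rcases c2_11_22_33_k3_k_p11_33A C with c119_0_0 | c119_1_0 | c119_2_0 | c119_3_0 | c119_4_0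
                          · linarith only [c119_0_0, e0]
                          · linarith only [c119_1_0, e2]
                          · rcases c2_11_22_33_k3_k_p12_33A C with c121_0_0 | c121_1_0 | c121_2_0 | c121_3_0 | c121_4_0 | c121_5_0
                            · linarith only [c121_0_0, c4_0_0]
                            · linarith only [C.f22_1, C.o0, C.o1, c119_2_0, c121_1_0, e0, s1]
                            · linarith only [c121_2_0, e2]
                            · linarith only [C.f11_0, C.f22_0, C.o0, c0_0_1, c116_0_1, c121_3_0, s1]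
                            · rcases c2_11_22_33_k3_k_tmpp C with c129_0_0 | c129_1_0 | c129_2_0 | c129_3_0
                              · linarith only [C.f11_0, C.f22_0, C.f33_0, C.o0, c129_0_0, s1]
                              · linarith only [C.f11_0, C.f22_1, C.f33_1, C.o0, C.o1, c117_1_1, c121_4_0, c129_1_0, c1_1_1, s1]
                              · linarith only [c129_2_0, e0]
                              · linarith only [C.f11_0, C.f11_1, C.f22_4, c121_4_0, c129_3_0, c1_1_1, s2]
                            · linarith only [C.f12_6, C.o2, c118_1_1, c121_5_0, c1_1_1, c5_1_1]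
                          · linarith only [C.f22_4, c119_3_0, s2]
                          · linarith only [C.b3, C.f11_0, C.f11_1, C.f11_2, C.f22_4, C.f22_6, C.o1, c118_1_1, c119_4_0, s3]
                    · rcases c2_11_22_33_k3_k_f33_5 C with ⟨c130_0_0, c130_0_1⟩ | ⟨c130_1_0, c130_1_1⟩
                      · linarith only [C.a2, C.f12_0, C.f12_3, C.f33_4, C.o1, c116_1_1, c130_0_1, c1_1_1]
                      · rcases c2_11_22_33_k3_k_f33_8 C with ⟨c131_0_0, c131_0_1⟩ | ⟨c131_1_0, c131_1_1⟩
                        · linarith only [C.b4, C.f33_7, c130_1_1, c131_0_1, c5_1_1]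
                        · rcases c2_11_22_33_k3_k_p11_33A C with c132_0_0 | c132_1_0 | c132_2_0 | c132_3_0 | c132_4_0
                          · linarith only [c132_0_0, e0]
                          · linarith only [c132_1_0, e2]
                          · rcases c2_11_22_33_k3_k_p12_22A C with c133_0_0 | c133_1_0 | c133_2_0 | c133_3_0 | c133_4_0 | c133_5_0
                            · linarith only [c133_0_0, c4_0_0]
                            · linarith only [C.a2, C.o0, C.o1, c133_1_0, e0]
                            · linarith only [c133_2_0, e1]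
                            · linarith only [c0_0_1, c132_2_0, c133_3_0, s1]
                            · rcases c2_11_22_33_k3_k_p12_33A C with c134_0_0 | c134_1_0 | c134_2_0 | c134_3_0 | c134_4_0 | c134_5_0
                              · linarith only [c134_0_0, c4_0_0]
                              · linarith only [C.f22_1, C.o0, C.o1, c132_2_0, c134_1_0, e0, s1]
                              · linarith only [c134_2_0, e2]
                              · linarith only [C.a4, C.f11_0, C.f22_1, C.o0, c0_0_1, c116_1_1, c134_3_0, s1]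
                              · rcases c2_11_22_33_k3_k_p11_12B C with c135_0_0 | c135_1_0 | c135_2_0 | c135_3_0 | c135_4_0 | c135_5_0
                                · linarith only [c135_0_0, e0]
                                · linarith only [c135_1_0, c4_0_0]
                                · linarith only [C.o1, c135_2_0, e1]
                                · rcases c2_11_22_33_k3_k_p11_22B C with c138_0_0 | c138_1_0 | c138_2_0 | c138_3_0 | c138_4_0
                                  · linarith only [c138_0_0, e0]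
                                  · linarith only [c138_1_0, e1]
                                  · linarith only [C.f11_0, C.o0, c132_2_0, c138_2_0, s1]
                                  · rcases c2_11_22_33_k3_k_p13_22A C with c139_0_0 | c139_1_0 | c139_2_0 | c139_3_0 | c139_4_0 | c139_5_0
                                    · linarith only [c139_0_0, c4_0_0]
                                    · linarith only [C.a4, C.f11_0, C.f22_1, C.f33_1, C.o0, C.o2, c139_1_0, e0, s1]
                                    · linarith only [c139_2_0, e1]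
                                    · linarith only [c132_2_0, c139_3_0, c2_0_1, s1]
                                    · rcases c2_11_22_33_k3_k_tmzp C with c141_0_0 | c141_1_0 | c141_2_0 | c141_3_0 | c141_4_0 | c141_5_0
                                      · linarith only [C.f11_0, C.f22_0, C.f33_0, C.o0, c141_0_0, s1]
                                      · linarith only [C.f11_1, C.f13_0, C.f13_3, C.f22_1, C.f33_1, C.o2, c115_1_1, c133_4_0, c138_3_0, c141_1_0, c1_1_1, c65_1_1, s1]
                                      · rcases c2_11_22_33_k3_k_tmpp C with c142_0_0 | c142_1_0 | c142_2_0 | c142_3_0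
                                        · linarith only [C.a4, C.f11_0, C.f22_1, C.f33_0, C.o0, c116_1_1, c142_0_0, s1]
                                        · linarith only [C.f11_0, C.f22_1, C.f33_1, C.o0, c141_2_0, c142_1_0, s1]
                                        · linarith only [c142_2_0, e0]
                                        · linarith only [C.f11_0, C.f11_1, C.f33_4, c133_4_0, c141_2_0, c142_3_0, c1_1_1, s2]
                                      · linarith only [c141_3_0, e0]
                                      · linarith only [C.f11_0, C.f11_1, C.f33_4, C.o2, c115_1_1, c133_4_0, c139_4_0, c141_4_0, c1_1_1, c65_1_1, s2]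
                                      · linarith only [c141_5_0, c5_1_1]
                                    · linarith only [C.f22_6, C.o2, c115_1_1, c133_4_0, c139_5_0, c1_1_1, c5_1_1, c97_1_1]
                                  · linarith only [C.f11_0, C.f11_2, C.f22_1, C.f22_6, C.f33_4, c0_0_1, c115_1_1, c116_1_1, c132_2_0, c133_4_0, c135_3_0, c138_4_0, c1_1_1, c5_1_1, s1, s2]
                                · linarith only [C.f22_4, c134_4_0, c135_4_0, c1_1_1, s2]
                                · linarith only [C.b3, C.f11_0, C.f11_1, C.f11_2, C.f12_6, c135_5_0, c1_1_1, c5_1_1]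
                              · linarith only [C.f12_6, C.o2, c131_1_1, c134_5_0, c1_1_1, c5_1_1]
                            · linarith only [C.a5, C.f12_6, C.f22_6, C.o2, c115_1_1, c133_5_0, c1_1_1, c5_1_1]
                          · linarith only [C.f22_4, c132_3_0, s2]
                          · linarith only [C.b3, C.f11_0, C.f11_1, C.f11_2, C.f22_4, C.f22_6, C.o1, c131_1_1, c132_4_0, s3]
        · rcases c2_11_22_33_k3_k_t23 C with ⟨c143_0_0, c143_0_1⟩ | ⟨c143_1_0, c143_1_1⟩
          · rcases c2_11_22_33_k3_k_f13_5 C with ⟨c144_0_0, c144_0_1⟩ | ⟨c144_1_0, c144_1_1⟩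
            · rcases c2_11_22_33_k3_k_f13_8 C with ⟨c145_0_0, c145_0_1⟩ | ⟨c145_1_0, c145_1_1⟩
              · linarith only [C.b5, C.f13_7, C.o0, c144_0_1, c145_0_1, c2_0_1, c4_1_1]
              · rcases c2_11_22_33_k3_k_tzpm C with c149_0_0 | c149_1_0 | c149_2_0 | c149_3_0
                · linarith only [c143_0_0, c149_0_0]
                · rcases c2_11_22_33_k3_k_p11_33A C with c150_0_0 | c150_1_0 | c150_2_0 | c150_3_0 | c150_4_0
                  · linarith only [c150_0_0, e0]
                  · linarith only [c150_1_0, e2]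
                  · rcases c2_11_22_33_k3_k_f22_5 C with ⟨c151_0_0, c151_0_1⟩ | ⟨c151_1_0, c151_1_1⟩
                    · linarith only [C.f22_4, C.o0, C.o1, c150_2_0, c151_0_1, c4_1_1, s1]
                    · rcases c2_11_22_33_k3_k_p13_22A C with c155_0_0 | c155_1_0 | c155_2_0 | c155_3_0 | c155_4_0 | c155_5_0
                      · linarith only [C.o0, c155_0_0, e0]
                      · linarith only [C.o2, c155_1_0, e2]
                      · linarith only [c155_2_0, e1]
                      · linarith only [c150_2_0, c155_3_0, c2_0_1, s1]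
                      · linarith only [C.f11_0, C.f11_1, C.f11_2, C.f22_6, C.f33_7, C.o0, c144_0_1, c149_1_0, c155_4_0, c2_0_1, s3]
                      · linarith only [C.f22_6, C.o2, c143_0_1, c145_1_1, c151_1_1, c155_5_0]
                  · linarith only [C.f22_4, c150_3_0, s2]
                  · linarith only [C.f22_4, C.f22_6, c149_1_0, c150_4_0, s3]
                · linarith only [c149_2_0, c4_1_1]
                · linarith only [C.f13_4, C.o0, c144_0_1, c149_3_0, c2_0_1, c4_1_1]
            · rcases c2_11_22_33_k3_k_f13_8 C with ⟨c156_0_0, c156_0_1⟩ | ⟨c156_1_0, c156_1_1⟩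
              · linarith only [C.a4, C.f13_7, c143_0_1, c144_1_1, c156_0_1]
              · rcases c2_11_22_33_k3_k_f22_2 C with ⟨c159_0_0, c159_0_1⟩ | ⟨c159_1_0, c159_1_1⟩
                · rcases c2_11_22_33_k3_k_f22_5 C with ⟨c160_0_0, c160_0_1⟩ | ⟨c160_1_0, c160_1_1⟩
                  · linarith only [C.f11_0, C.f22_4, C.f33_0, C.o0, C.o1, c159_0_1, c160_0_1, c4_1_1, s1]
                  · rcases c2_11_22_33_k3_k_p12_22A C with c165_0_0 | c165_1_0 | c165_2_0 | c165_3_0 | c165_4_0 | c165_5_0
                    · linarith only [C.o0, c165_0_0, e0]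
                    · linarith only [C.f11_0, C.f22_1, C.f33_0, C.o0, C.o1, c159_0_1, c165_1_0, e0, s1]
                    · linarith only [c165_2_0, e1]
                    · linarith only [C.f11_0, C.f33_0, C.o0, c0_0_1, c159_0_1, c165_3_0, s1]
                    · rcases c2_11_22_33_k3_k_p13_22A C with c169_0_0 | c169_1_0 | c169_2_0 | c169_3_0 | c169_4_0 | c169_5_0
                      · linarith only [C.o0, c169_0_0, e0]
                      · linarith only [C.a4, C.o2, c169_1_0, e1]
                      · linarith only [c169_2_0, e1]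
                      · linarith only [C.f11_0, C.f33_0, C.o0, c159_0_1, c169_3_0, c2_0_1, s1]
                      · rcases c2_11_22_33_k3_k_tmzp C with c172_0_0 | c172_1_0 | c172_2_0 | c172_3_0 | c172_4_0 | c172_5_0
                        · linarith only [C.f11_0, C.f22_0, C.f33_0, C.o0, c172_0_0, s1]
                        · linarith only [c143_0_0, c172_1_0]
                        · rcases c2_11_22_33_k3_k_tmpp C with c173_0_0 | c173_1_0 | c173_2_0 | c173_3_0
                          · linarith only [C.f11_0, C.f22_0, C.f33_0, C.o0, c173_0_0, s1]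
                          · linarith only [C.f11_0, C.f22_1, C.f33_0, C.o0, c159_0_1, c173_1_0, s1]
                          · linarith only [c173_2_0, e0]
                          · linarith only [C.f11_0, C.f11_1, C.f33_4, c165_4_0, c172_2_0, c173_3_0, c1_1_1, s2]
                        · linarith only [c172_3_0, e0]
                        · linarith only [c172_4_0, c4_1_1]
                        · linarith only [C.a4, C.o1, c143_0_1, c144_1_1, c160_1_1, c169_4_0, c172_5_0]
                      · linarith only [C.f22_6, C.o2, c143_0_1, c156_1_1, c160_1_1, c169_5_0]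
                    · linarith only [C.f12_6, C.f22_6, C.o1, c143_0_1, c160_1_1, c165_5_0, c1_1_1]
                · rcases c2_11_22_33_k3_k_f22_5 C with ⟨c174_0_0, c174_0_1⟩ | ⟨c174_1_0, c174_1_1⟩
                  · linarith only [C.f22_4, C.o0, C.o1, c143_0_0, c159_1_1, c174_0_1, c4_1_1]
                  · rcases c2_11_22_33_k3_k_p11_22A C with c175_0_0 | c175_1_0 | c175_2_0 | c175_3_0 | c175_4_0
                    · linarith only [c175_0_0, e0]
                    · linarith only [c175_1_0, e1]
                    · rcases c2_11_22_33_k3_k_f33_5 C with ⟨c176_0_0, c176_0_1⟩ | ⟨c176_1_0, c176_1_1⟩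
                      · linarith only [C.f13_0, C.f13_3, C.f33_4, C.o2, c144_1_1, c175_2_0, c176_0_1, s1]
                      · rcases c2_11_22_33_k3_k_f33_8 C with ⟨c177_0_0, c177_0_1⟩ | ⟨c177_1_0, c177_1_1⟩
                        · linarith only [C.a4, C.f33_7, c143_0_1, c176_1_1, c177_0_1]
                        · rcases c2_11_22_33_k3_k_p11_33A C with c178_0_0 | c178_1_0 | c178_2_0 | c178_3_0 | c178_4_0
                          · linarith only [c178_0_0, e0]
                          · linarith only [c178_1_0, e2]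
                          · rcases c2_11_22_33_k3_k_p12_22A C with c179_0_0 | c179_1_0 | c179_2_0 | c179_3_0 | c179_4_0 | c179_5_0
                            · linarith only [C.o0, c179_0_0, e0]
                            · linarith only [C.o0, C.o1, c143_0_0, c179_1_0, e0]
                            · linarith only [c179_2_0, e1]
                            · linarith only [c0_0_1, c178_2_0, c179_3_0, s1]
                            · rcases c2_11_22_33_k3_k_p13_22A C with c183_0_0 | c183_1_0 | c183_2_0 | c183_3_0 | c183_4_0 | c183_5_0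
                              · linarith only [C.o0, c183_0_0, e0]
                              · linarith only [C.o2, c183_1_0, e2]
                              · linarith only [c183_2_0, e1]
                              · linarith only [c178_2_0, c183_3_0, c2_0_1, s1]
                              · rcases c2_11_22_33_k3_k_tmzp C with c186_0_0 | c186_1_0 | c186_2_0 | c186_3_0 | c186_4_0 | c186_5_0
                                · linarith only [C.f11_0, C.f22_0, C.f33_0, C.o0, c186_0_0, s1]
                                · linarith only [c143_0_0, c186_1_0]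
                                · rcases c2_11_22_33_k3_k_tmpp C with c187_0_0 | c187_1_0 | c187_2_0 | c187_3_0
                                  · linarith only [C.f11_0, C.f22_0, C.f33_0, C.o0, c187_0_0, s1]
                                  · linarith only [C.f11_0, C.f22_1, C.f33_1, C.o0, c186_2_0, c187_1_0, s1]
                                  · linarith only [c187_2_0, e0]
                                  · linarith only [C.f11_0, C.f11_1, C.f33_4, c179_4_0, c186_2_0, c187_3_0, c1_1_1, s2]
                                · linarith only [c186_3_0, e0]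
                                · linarith only [c186_4_0, c4_1_1]
                                · linarith only [C.a4, C.o1, c143_0_1, c144_1_1, c174_1_1, c183_4_0, c186_5_0]
                              · linarith only [C.f22_6, C.o2, c143_0_1, c156_1_1, c174_1_1, c183_5_0]
                            · linarith only [C.f12_6, C.f22_6, C.o1, c143_0_1, c174_1_1, c179_5_0, c1_1_1]
                          · linarith only [C.f22_4, c178_3_0, s2]
                          · linarith only [C.f11_0, C.f11_1, C.f11_2, C.o1, c143_0_1, c177_1_1, c178_4_0, c4_1_1]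
                    · linarith only [C.f11_0, C.f11_1, C.o1, c174_1_1, c175_3_0, c4_1_1]
                    · linarith only [C.f11_0, C.f11_1, C.f11_2, C.f22_6, C.o1, c143_0_1, c174_1_1, c175_4_0, c4_1_1]
          · rcases c2_11_22_33_k3_k_f13_5 C with ⟨c188_0_0, c188_0_1⟩ | ⟨c188_1_0, c188_1_1⟩
            · rcases c2_11_22_33_k3_k_f13_8 C with ⟨c189_0_0, c189_0_1⟩ | ⟨c189_1_0, c189_1_1⟩
              · linarith only [C.f13_7, C.o0, c143_1_1, c188_0_1, c189_0_1, c2_0_1, c4_1_1]
              · rcases c2_11_22_33_k3_k_f22_2 C with ⟨c194_0_0, c194_0_1⟩ | ⟨c194_1_0, c194_1_1⟩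
                · rcases c2_11_22_33_k3_k_f22_5 C with ⟨c195_0_0, c195_0_1⟩ | ⟨c195_1_0, c195_1_1⟩
                  · linarith only [C.f11_0, C.f22_4, C.f33_0, C.o0, C.o1, c194_0_1, c195_0_1, c4_1_1, s1]
                  · rcases c2_11_22_33_k3_k_p11_22A C with c196_0_0 | c196_1_0 | c196_2_0 | c196_3_0 | c196_4_0
                    · linarith only [c196_0_0, e0]
                    · linarith only [c196_1_0, e1]
                    · rcases c2_11_22_33_k3_k_p12_22A C with c197_0_0 | c197_1_0 | c197_2_0 | c197_3_0 | c197_4_0 | c197_5_0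
                      · linarith only [C.o0, c197_0_0, e0]
                      · linarith only [C.o1, c197_1_0, e1]
                      · linarith only [c197_2_0, e1]
                      · linarith only [C.f11_0, C.f33_0, C.o0, c0_0_1, c194_0_1, c197_3_0, s1]
                      · rcases c2_11_22_33_k3_k_p11_22B C with c198_0_0 | c198_1_0 | c198_2_0 | c198_3_0 | c198_4_0
                        · linarith only [c198_0_0, e0]
                        · linarith only [c198_1_0, e1]
                        · linarith only [C.a1, C.f11_0, C.o0, c194_0_1, c198_2_0]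
                        · rcases c2_11_22_33_k3_k_f33_8 C with ⟨c199_0_0, c199_0_1⟩ | ⟨c199_1_0, c199_1_1⟩
                          · linarith only [C.f33_7, C.o2, c143_1_1, c195_1_1, c197_4_0, c198_3_0, c199_0_1, c1_1_1, s2]
                          · rcases c2_11_22_33_k3_k_p12_33A C with c201_0_0 | c201_1_0 | c201_2_0 | c201_3_0 | c201_4_0 | c201_5_0
                            · linarith only [C.o0, c201_0_0, e0]
                            · linarith only [C.f11_0, C.f22_1, C.f33_0, C.o0, C.o1, c194_0_1, c201_1_0, e0, s1]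
                            · linarith only [c201_2_0, e2]
                            · linarith only [c0_0_1, c196_2_0, c201_3_0, s1]
                            · rcases c2_11_22_33_k3_k_f33_5 C with ⟨c202_0_0, c202_0_1⟩ | ⟨c202_1_0, c202_1_1⟩
                              · linarith only [C.f11_0, C.f11_1, C.f22_4, C.o0, C.o1, c196_2_0, c1_1_1, c201_4_0, c202_0_1, s1, s2]
                              · rcases c2_11_22_33_k3_k_p13_22A C with c204_0_0 | c204_1_0 | c204_2_0 | c204_3_0 | c204_4_0 | c204_5_0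
                                · linarith only [C.o0, c204_0_0, e0]
                                · linarith only [C.f11_0, C.f11_1, C.f13_4, C.f22_4, C.o0, C.o1, c188_0_1, c1_1_1, c201_4_0, c204_1_0, c2_0_1, e1, s2]
                                · linarith only [c204_2_0, e1]
                                · linarith only [C.f11_0, C.f33_0, C.o0, c194_0_1, c204_3_0, c2_0_1, s1]
                                · linarith only [C.f11_0, C.f11_1, C.o0, C.o1, c188_0_1, c1_1_1, c201_4_0, c204_4_0, c2_0_1, s2]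
                                · linarith only [C.f11_0, C.f11_1, C.f13_4, C.f22_6, C.o0, C.o2, c143_1_1, c188_0_1, c189_1_1, c195_1_1, c1_1_1, c201_4_0, c202_1_1, c204_5_0, c2_0_1, s2]
                            · linarith only [C.f12_6, C.o2, c143_1_1, c199_1_1, c1_1_1, c201_5_0]
                        · linarith only [C.f11_0, C.f11_1, C.f11_2, C.f22_6, c143_1_1, c195_1_1, c197_4_0, c198_4_0, c1_1_1, c4_1_1]
                      · linarith only [C.a5, C.f12_6, C.f22_6, C.o2, c143_1_1, c195_1_1, c197_5_0, c1_1_1]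
                    · linarith only [C.f11_0, C.f11_1, C.o1, c195_1_1, c196_3_0, c4_1_1]
                    · linarith only [C.f33_7, c196_4_0, s3]
                · rcases c2_11_22_33_k3_k_f22_5 C with ⟨c205_0_0, c205_0_1⟩ | ⟨c205_1_0, c205_1_1⟩
                  · linarith only [C.a2, C.f12_0, C.f12_3, C.f22_4, C.o1, c194_1_1, c1_1_1, c205_0_1]
                  · rcases c2_11_22_33_k3_k_p11_22A C with c206_0_0 | c206_1_0 | c206_2_0 | c206_3_0 | c206_4_0
                    · linarith only [c206_0_0, e0]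
                    · linarith only [c206_1_0, e1]
                    · rcases c2_11_22_33_k3_k_p13_33A C with c207_0_0 | c207_1_0 | c207_2_0 | c207_3_0 | c207_4_0 | c207_5_0
                      · linarith only [C.o0, c207_0_0, e0]
                      · linarith only [C.f11_0, C.f13_4, C.f22_1, C.f33_1, C.o0, C.o1, C.o2, c188_0_1, c207_1_0, c2_0_1, c4_1_1, e0, s1]
                      · linarith only [c207_2_0, e2]
                      · linarith only [c206_2_0, c207_3_0, c2_0_1, s1]
                      · linarith only [C.f11_0, C.f11_1, C.f22_4, C.o0, c188_0_1, c207_4_0, c2_0_1, s2]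
                      · rcases c2_11_22_33_k3_k_f33_2 C with ⟨c208_0_0, c208_0_1⟩ | ⟨c208_1_0, c208_1_1⟩
                        · rcases c2_11_22_33_k3_k_f33_5 C with ⟨c209_0_0, c209_0_1⟩ | ⟨c209_1_0, c209_1_1⟩
                          · rcases c2_11_22_33_k3_k_f33_8 C with ⟨c210_0_0, c210_0_1⟩ | ⟨c210_1_0, c210_1_1⟩
                            · linarith only [C.f11_0, C.f22_0, C.f33_7, C.o0, C.o2, c143_1_1, c208_0_1, c209_0_1, c210_0_1, c4_1_1, s1]
                            · rcases c2_11_22_33_k3_k_p11_33A C with c211_0_0 | c211_1_0 | c211_2_0 | c211_3_0 | c211_4_0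
                              · linarith only [c211_0_0, e0]
                              · linarith only [c211_1_0, e2]
                              · rcases c2_11_22_33_k3_k_p12_33A C with c215_0_0 | c215_1_0 | c215_2_0 | c215_3_0 | c215_4_0 | c215_5_0
                                · linarith only [C.o0, c215_0_0, e0]
                                · linarith only [C.f22_1, C.o0, C.o1, c211_2_0, c215_1_0, e0, s1]
                                · linarith only [c215_2_0, e2]
                                · linarith only [C.f11_0, C.f22_0, C.o0, c0_0_1, c208_0_1, c215_3_0, s1]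
                                · linarith only [C.f11_0, C.f22_0, C.o0, C.o1, c1_1_1, c208_0_1, c209_0_1, c215_4_0, c4_1_1, s1]
                                · linarith only [C.f12_6, C.o2, c143_1_1, c1_1_1, c210_1_1, c215_5_0]
                              · linarith only [C.a1, C.f11_0, C.f11_1, C.o0, C.o1, c208_0_1, c209_0_1, c211_3_0, c4_1_1]
                              · linarith only [C.f11_0, C.f11_1, C.f11_2, C.o2, c143_1_1, c210_1_1, c211_4_0, c4_1_1]
                          · rcases c2_11_22_33_k3_k_f33_8 C with ⟨c216_0_0, c216_0_1⟩ | ⟨c216_1_0, c216_1_1⟩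
                            · linarith only [C.f13_4, C.f33_7, C.o0, c143_1_1, c188_0_1, c209_1_1, c216_0_1, c2_0_1, c4_1_1]
                            · rcases c2_11_22_33_k3_k_p11_33A C with c217_0_0 | c217_1_0 | c217_2_0 | c217_3_0 | c217_4_0
                              · linarith only [c217_0_0, e0]
                              · linarith only [c217_1_0, e2]
                              · rcases c2_11_22_33_k3_k_p12_33A C with c221_0_0 | c221_1_0 | c221_2_0 | c221_3_0 | c221_4_0 | c221_5_0
                                · linarith only [C.o0, c221_0_0, e0]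
                                · linarith only [C.f22_1, C.o0, C.o1, c217_2_0, c221_1_0, e0, s1]
                                · linarith only [c221_2_0, e2]
                                · linarith only [C.f11_0, C.f22_0, C.o0, c0_0_1, c208_0_1, c221_3_0, s1]
                                · linarith only [C.f11_0, C.f11_1, C.f13_4, C.f22_4, C.o0, C.o1, c188_0_1, c189_1_1, c1_1_1, c207_5_0, c209_1_1, c216_1_1, c221_4_0, c2_0_1, s2]
                                · linarith only [C.f12_6, C.o2, c143_1_1, c1_1_1, c216_1_1, c221_5_0]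
                              · linarith only [C.a4, C.f11_0, C.f11_1, C.o1, c209_1_1, c217_3_0, c4_1_1]
                              · linarith only [C.f11_0, C.f11_1, C.f11_2, C.o2, c143_1_1, c216_1_1, c217_4_0, c4_1_1]
                        · rcases c2_11_22_33_k3_k_f33_5 C with ⟨c222_0_0, c222_0_1⟩ | ⟨c222_1_0, c222_1_1⟩
                          · linarith only [C.a2, C.f12_0, C.f12_3, C.f33_4, C.o1, c1_1_1, c208_1_1, c222_0_1]
                          · rcases c2_11_22_33_k3_k_f33_8 C with ⟨c223_0_0, c223_0_1⟩ | ⟨c223_1_0, c223_1_1⟩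
                            · linarith only [C.f13_4, C.f33_7, C.o0, c143_1_1, c188_0_1, c222_1_1, c223_0_1, c2_0_1, c4_1_1]
                            · rcases c2_11_22_33_k3_k_p11_33A C with c224_0_0 | c224_1_0 | c224_2_0 | c224_3_0 | c224_4_0
                              · linarith only [c224_0_0, e0]
                              · linarith only [c224_1_0, e2]
                              · linarith only [C.f11_0, C.f13_4, C.f22_1, C.o1, c188_0_1, c189_1_1, c207_5_0, c208_1_1, c223_1_1, c224_2_0, c2_0_1, c4_1_1, s1]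
                              · linarith only [C.f11_0, C.f11_1, C.f13_4, C.o0, C.o1, c188_0_1, c189_1_1, c207_5_0, c222_1_1, c223_1_1, c224_3_0, c2_0_1, c4_1_1]
                              · linarith only [C.f11_0, C.f11_1, C.f11_2, C.o2, c143_1_1, c223_1_1, c224_4_0, c4_1_1]
                    · linarith only [C.f11_0, C.f11_1, C.o1, c205_1_1, c206_3_0, c4_1_1]
                    · linarith only [C.a5, C.f11_0, C.f11_1, C.f11_2, C.f22_6, C.o2, c143_1_1, c205_1_1, c206_4_0, c4_1_1]
            · rcases c2_11_22_33_k3_k_f22_2 C with ⟨c228_0_0, c228_0_1⟩ | ⟨c228_1_0, c228_1_1⟩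
              · rcases c2_11_22_33_k3_k_f22_5 C with ⟨c229_0_0, c229_0_1⟩ | ⟨c229_1_0, c229_1_1⟩
                · linarith only [C.f11_0, C.f22_4, C.f33_0, C.o0, C.o1, c228_0_1, c229_0_1, c4_1_1, s1]
                · rcases c2_11_22_33_k3_k_p12_22A C with c234_0_0 | c234_1_0 | c234_2_0 | c234_3_0 | c234_4_0 | c234_5_0
                  · linarith only [C.o0, c234_0_0, e0]
                  · linarith only [C.f11_0, C.f22_1, C.f33_0, C.o0, C.o1, c228_0_1, c234_1_0, e0, s1]
                  · linarith only [c234_2_0, e1]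
                  · linarith only [C.f11_0, C.f33_0, C.o0, c0_0_1, c228_0_1, c234_3_0, s1]
                  · rcases c2_11_22_33_k3_k_tmzp C with c241_0_0 | c241_1_0 | c241_2_0 | c241_3_0 | c241_4_0 | c241_5_0
                    · linarith only [C.f11_0, C.f22_0, C.f33_0, C.o0, c241_0_0, s1]
                    · linarith only [C.a1, C.f22_1, c228_0_1, c241_1_0]
                    · rcases c2_11_22_33_k3_k_tmpp C with c242_0_0 | c242_1_0 | c242_2_0 | c242_3_0
                      · linarith only [C.f11_0, C.f22_0, C.f33_0, C.o0, c242_0_0, s1]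
                      · linarith only [C.f11_0, C.f22_1, C.f33_0, C.o0, c228_0_1, c242_1_0, s1]
                      · linarith only [c242_2_0, e0]
                      · linarith only [C.f11_0, C.f11_1, C.f33_4, c1_1_1, c234_4_0, c241_2_0, c242_3_0, s2]
                    · linarith only [c241_3_0, e0]
                    · linarith only [c241_4_0, c4_1_1]
                    · linarith only [c143_1_1, c241_5_0]
                  · linarith only [C.a5, C.f12_6, C.f22_6, C.o2, c143_1_1, c1_1_1, c229_1_1, c234_5_0]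
              · rcases c2_11_22_33_k3_k_f22_5 C with ⟨c243_0_0, c243_0_1⟩ | ⟨c243_1_0, c243_1_1⟩
                · linarith only [C.a2, C.f22_4, C.o0, C.o1, c228_1_1, c243_0_1, c4_1_1]
                · rcases c2_11_22_33_k3_k_p11_22A C with c244_0_0 | c244_1_0 | c244_2_0 | c244_3_0 | c244_4_0
                  · linarith only [c244_0_0, e0]
                  · linarith only [c244_1_0, e1]
                  · rcases c2_11_22_33_k3_k_f33_5 C with ⟨c245_0_0, c245_0_1⟩ | ⟨c245_1_0, c245_1_1⟩
                    · linarith only [C.f13_0, C.f13_3, C.f33_4, C.o2, c188_1_1, c244_2_0, c245_0_1, s1]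
                    · rcases c2_11_22_33_k3_k_f33_8 C with ⟨c246_0_0, c246_0_1⟩ | ⟨c246_1_0, c246_1_1⟩
                      · linarith only [C.b4, C.f33_7, c143_1_1, c245_1_1, c246_0_1]
                      · rcases c2_11_22_33_k3_k_p11_33A C with c247_0_0 | c247_1_0 | c247_2_0 | c247_3_0 | c247_4_0
                        · linarith only [c247_0_0, e0]
                        · linarith only [c247_1_0, e2]
                        · rcases c2_11_22_33_k3_k_p12_33A C with c251_0_0 | c251_1_0 | c251_2_0 | c251_3_0 | c251_4_0 | c251_5_0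
                          · linarith only [C.o0, c251_0_0, e0]
                          · linarith only [C.f22_1, C.o0, C.o1, c247_2_0, c251_1_0, e0, s1]
                          · linarith only [c251_2_0, e2]
                          · linarith only [c0_0_1, c244_2_0, c251_3_0, s1]
                          · rcases c2_11_22_33_k3_k_tmzp C with c255_0_0 | c255_1_0 | c255_2_0 | c255_3_0 | c255_4_0 | c255_5_0
                            · linarith only [C.f11_0, C.f22_0, C.f33_0, C.o0, c255_0_0, s1]
                            · linarith only [C.f11_0, C.f22_1, C.f33_1, C.o0, C.o1, c1_1_1, c245_1_1, c251_4_0, c255_1_0, s1]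
                            · rcases c2_11_22_33_k3_k_tmpp C with c256_0_0 | c256_1_0 | c256_2_0 | c256_3_0
                              · linarith only [C.f11_0, C.f22_0, C.f33_0, C.o0, c256_0_0, s1]
                              · linarith only [C.f11_0, C.f22_1, C.f33_1, C.o0, c255_2_0, c256_1_0, s1]
                              · linarith only [c256_2_0, e0]
                              · linarith only [C.f11_0, C.f11_1, C.f22_4, c1_1_1, c251_4_0, c256_3_0, s2]
                            · linarith only [c255_3_0, e0]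
                            · linarith only [c255_4_0, c4_1_1]
                            · linarith only [c143_1_1, c255_5_0]
                          · linarith only [C.f12_6, C.o2, c143_1_1, c1_1_1, c246_1_1, c251_5_0]
                        · linarith only [C.f22_4, c247_3_0, s2]
                        · linarith only [C.f11_0, C.f11_1, C.f11_2, C.f22_4, C.f22_6, C.o1, c246_1_1, c247_4_0, c4_1_1, s3]
                  · linarith only [C.f11_0, C.f11_1, C.o1, c243_1_1, c244_3_0, c4_1_1]
                  · linarith only [C.a5, C.f11_0, C.f11_1, C.f11_2, C.f22_6, C.o2, c143_1_1, c243_1_1, c244_4_0, c4_1_1]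
      · linarith only [C.a2, C.b4, C.f13_0, C.o1, c2_1_1]
  · linarith only [C.a2, C.f12_0, C.o1, c0_1_1]

end Pool.Agent.Helper24.TQ
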