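import Pool.Agent.Helper89.TQ.Ctx

set_option autoImplicit false
set_option linter.all false
set_option maxHeartbeats 4000000

namespace Pool.Agent.Helper24.TQ

open Pool.Agent.Helper89.TQ

theorem c2_11_33_33_k3_k_t12 {n1 n2 n3 A1 A2 A3 B1 B2 B3 m11_1 m11_2 m11_3 m12_1 m12_2 m12_3 m13_1 m13_2 m13_3 m22_1 m22_2 m22_3 m33_1 m33_2 m33_3 : ℤ} (C : Ctx2 n1 n2 n3 A1 A2 A3 B1 B2 B3 m11_1 m11_2 m11_3 m12_1 m12_2 m12_3 m13_1 m13_2 m13_3 m22_1 m22_2 m22_3 m33_1 m33_2 m33_3) :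
    ((-1) * A1 ≤ -1 ∧ (-1) * A1 + 1 * A2 + (-1) * n2 ≤ -1) ∨ ((-1) * B1 ≤ -1 ∧ (-1) * B1 + 1 * B2 + (-1) * n2 ≤ -1) := by
  have h := C.t12
  clear C
  omega

theorem c2_11_33_33_k3_k_t23 {n1 n2 n3 A1 A2 A3 B1 B2 B3 m11_1 m11_2 m11_3 m12_1 m12_2 m12_3 m13_1 m13_2 m13_3 m22_1 m22_2 m22_3 m33_1 m33_2 m33_3 : ℤ} (C : Ctx2 n1 n2 n3 A1 A2 A3 B1 B2 B3 m11_1 m11_2 m11_3 m12_1 m12_2 m12_3 m13_1 m13_2 m13_3 m22_1 m22_2 m22_3 m33_1 m33_2 m33_3) :
    (1 * A1 + (-1) * A2 ≤ -1 ∧ (-1) * A2 + 1 * A3 + (-1) * n3 ≤ -1) ∨ (1 * B1 + (-1) * B2 ≤ -1 ∧ (-1) * B2 + 1 * B3 + (-1) * n3 ≤ -1) := by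
  have h := C.t23
  clear C
  omega

theorem c2_11_33_33_k3_k_f12_2 {n1 n2 n3 A1 A2 A3 B1 B2 B3 m11_1 m11_2 m11_3 m12_1 m12_2 m12_3 m13_1 m13_2 m13_3 m22_1 m22_2 m22_3 m33_1 m33_2 m33_3 : ℤ} (C : Ctx2 n1 n2 n3 A1 A2 A3 B1 B2 B3 m11_1 m11_2 m11_3 m12_1 m12_2 m12_3 m13_1 m13_2 m13_3 m22_1 m22_2 m22_3 m33_1 m33_2 m33_3) :
    ((-1) * A1 + 1 * m12_1 ≤ -1 ∧ 1 * A1 + (-1) * m12_1 ≤ 1) ∨ ((-1) * B2 + 1 * m12_1 ≤ -1 ∧ 1 * B2 + (-1) * m12_1 ≤ 1) := by
  have h := C.f12_2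
  clear C
  omega

theorem c2_11_33_33_k3_k_f12_5 {n1 n2 n3 A1 A2 A3 B1 B2 B3 m11_1 m11_2 m11_3 m12_1 m12_2 m12_3 m13_1 m13_2 m13_3 m22_1 m22_2 m22_3 m33_1 m33_2 m33_3 : ℤ} (C : Ctx2 n1 n2 n3 A1 A2 A3 B1 B2 B3 m11_1 m11_2 m11_3 m12_1 m12_2 m12_3 m13_1 m13_2 m13_3 m22_1 m22_2 m22_3 m33_1 m33_2 m33_3) :
    ((-1) * m12_1 + 1 * m12_2 + (-1) * n2 ≤ 0 ∧ 1 * m12_1 + (-1) * m12_2 + 1 * n2 ≤ 0) ∨ ((-1) * B2 + 1 * m12_2 ≤ -1 ∧ 1 * B2 + (-1) * m12_2 ≤ 1) := by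
  have h := C.f12_5
  clear C
  omega

theorem c2_11_33_33_k3_k_f13_2 {n1 n2 n3 A1 A2 A3 B1 B2 B3 m11_1 m11_2 m11_3 m12_1 m12_2 m12_3 m13_1 m13_2 m13_3 m22_1 m22_2 m22_3 m33_1 m33_2 m33_3 : ℤ} (C : Ctx2 n1 n2 n3 A1 A2 A3 B1 B2 B3 m11_1 m11_2 m11_3 m12_1 m12_2 m12_3 m13_1 m13_2 m13_3 m22_1 m22_2 m22_3 m33_1 m33_2 m33_3) :
    ((-1) * A1 + 1 * m13_1 ≤ -1 ∧ 1 * A1 + (-1) * m13_1 ≤ 1) ∨ ((-1) * B3 + 1 * m13_1 ≤ -1 ∧ 1 * B3 + (-1) * m13_1 ≤ 1) := by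
  have h := C.f13_2
  clear C
  omega

theorem c2_11_33_33_k3_k_f13_5 {n1 n2 n3 A1 A2 A3 B1 B2 B3 m11_1 m11_2 m11_3 m12_1 m12_2 m12_3 m13_1 m13_2 m13_3 m22_1 m22_2 m22_3 m33_1 m33_2 m33_3 : ℤ} (C : Ctx2 n1 n2 n3 A1 A2 A3 B1 B2 B3 m11_1 m11_2 m11_3 m12_1 m12_2 m12_3 m13_1 m13_2 m13_3 m22_1 m22_2 m22_3 m33_1 m33_2 m33_3) :
    ((-1) * m13_1 + 1 * m13_2 + (-1) * n2 ≤ 0 ∧ 1 * m13_1 + (-1) * m13_2 + 1 * n2 ≤ 0) ∨ ((-1) * B3 + 1 * m13_2 ≤ -1 ∧ 1 * B3 + (-1) * m13_2 ≤ 1) := by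
  have h := C.f13_5
  clear C
  omega

theorem c2_11_33_33_k3_k_f13_8 {n1 n2 n3 A1 A2 A3 B1 B2 B3 m11_1 m11_2 m11_3 m12_1 m12_2 m12_3 m13_1 m13_2 m13_3 m22_1 m22_2 m22_3 m33_1 m33_2 m33_3 : ℤ} (C : Ctx2 n1 n2 n3 A1 A2 A3 B1 B2 B3 m11_1 m11_2 m11_3 m12_1 m12_2 m12_3 m13_1 m13_2 m13_3 m22_1 m22_2 m22_3 m33_1 m33_2 m33_3) :
    ((-1) * m13_2 + 1 * m13_3 + (-1) * n3 ≤ 0 ∧ 1 * m13_2 + (-1) * m13_3 + 1 * n3 ≤ 0) ∨ ((-1) * B3 + 1 * m13_3 ≤ -1 ∧ 1 * B3 + (-1) * m13_3 ≤ 1) := by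
  have h := C.f13_8
  clear C
  omega

theorem c2_11_33_33_k3_k_f22_2 {n1 n2 n3 A1 A2 A3 B1 B2 B3 m11_1 m11_2 m11_3 m12_1 m12_2 m12_3 m13_1 m13_2 m13_3 m22_1 m22_2 m22_3 m33_1 m33_2 m33_3 : ℤ} (C : Ctx2 n1 n2 n3 A1 A2 A3 B1 B2 B3 m11_1 m11_2 m11_3 m12_1 m12_2 m12_3 m13_1 m13_2 m13_3 m22_1 m22_2 m22_3 m33_1 m33_2 m33_3) :
    (1 * m22_1 + (-1) * n1 ≤ 0 ∧ (-1) * m22_1 + 1 * n1 ≤ 0) ∨ ((-1) * A2 + 1 * m22_1 ≤ -1 ∧ 1 * A2 + (-1) * m22_1 ≤ 1) := by
  have h := C.f22_2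
  clear C
  omega

theorem c2_11_33_33_k3_k_f22_5 {n1 n2 n3 A1 A2 A3 B1 B2 B3 m11_1 m11_2 m11_3 m12_1 m12_2 m12_3 m13_1 m13_2 m13_3 m22_1 m22_2 m22_3 m33_1 m33_2 m33_3 : ℤ} (C : Ctx2 n1 n2 n3 A1 A2 A3 B1 B2 B3 m11_1 m11_2 m11_3 m12_1 m12_2 m12_3 m13_1 m13_2 m13_3 m22_1 m22_2 m22_3 m33_1 m33_2 m33_3) :
    ((-1) * m22_1 + 1 * m22_2 + (-1) * n2 ≤ 0 ∧ 1 * m22_1 + (-1) * m22_2 + 1 * n2 ≤ 0) ∨ ((-1) * A2 + 1 * m22_2 ≤ -1 ∧ 1 * A2 + (-1) * m22_2 ≤ 1) := by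
  have h := C.f22_5
  clear C
  omega

theorem c2_11_33_33_k3_k_f33_5 {n1 n2 n3 A1 A2 A3 B1 B2 B3 m11_1 m11_2 m11_3 m12_1 m12_2 m12_3 m13_1 m13_2 m13_3 m22_1 m22_2 m22_3 m33_1 m33_2 m33_3 : ℤ} (C : Ctx2 n1 n2 n3 A1 A2 A3 B1 B2 B3 m11_1 m11_2 m11_3 m12_1 m12_2 m12_3 m13_1 m13_2 m13_3 m22_1 m22_2 m22_3 m33_1 m33_2 m33_3) :
    ((-1) * m33_1 + 1 * m33_2 + (-1) * n2 ≤ 0 ∧ 1 * m33_1 + (-1) * m33_2 + 1 * n2 ≤ 0) ∨ ((-1) * A3 + 1 * m33_2 ≤ -1 ∧ 1 * A3 + (-1) * m33_2 ≤ 1) := by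
  have h := C.f33_5
  clear C
  omega

theorem c2_11_33_33_k3_k_f33_8 {n1 n2 n3 A1 A2 A3 B1 B2 B3 m11_1 m11_2 m11_3 m12_1 m12_2 m12_3 m13_1 m13_2 m13_3 m22_1 m22_2 m22_3 m33_1 m33_2 m33_3 : ℤ} (C : Ctx2 n1 n2 n3 A1 A2 A3 B1 B2 B3 m11_1 m11_2 m11_3 m12_1 m12_2 m12_3 m13_1 m13_2 m13_3 m22_1 m22_2 m22_3 m33_1 m33_2 m33_3) :
    ((-1) * m33_2 + 1 * m33_3 + (-1) * n3 ≤ 0 ∧ 1 * m33_2 + (-1) * m33_3 + 1 * n3 ≤ 0) ∨ ((-1) * A3 + 1 * m33_3 ≤ -1 ∧ 1 * A3 + (-1) * m33_3 ≤ 1) := by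
  have h := C.f33_8
  clear C
  omega

theorem c2_11_33_33_k3_k_p11_22B {n1 n2 n3 A1 A2 A3 B1 B2 B3 m11_1 m11_2 m11_3 m12_1 m12_2 m12_3 m13_1 m13_2 m13_3 m22_1 m22_2 m22_3 m33_1 m33_2 m33_3 : ℤ} (C : Ctx2 n1 n2 n3 A1 A2 A3 B1 B2 B3 m11_1 m11_2 m11_3 m12_1 m12_2 m12_3 m13_1 m13_2 m13_3 m22_1 m22_2 m22_3 m33_1 m33_2 m33_3) :
    (1 * B1 ≤ 0) ∨ (1 * A2 ≤ 0) ∨ ((-2) * B1 + 1 * m11_1 + 1 * m22_1 ≤ -1) ∨ ((-2) * B2 + 1 * m11_2 + 1 * m22_2 ≤ -1) ∨ ((-2) * B3 + 1 * m11_3 + 1 * m22_3 ≤ -1) := by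
  have h := C.p11_22B
  clear C
  omega

theorem c2_11_33_33_k3_k_p12_13B {n1 n2 n3 A1 A2 A3 B1 B2 B3 m11_1 m11_2 m11_3 m12_1 m12_2 m12_3 m13_1 m13_2 m13_3 m22_1 m22_2 m22_3 m33_1 m33_2 m33_3 : ℤ} (C : Ctx2 n1 n2 n3 A1 A2 A3 B1 B2 B3 m11_1 m11_2 m11_3 m12_1 m12_2 m12_3 m13_1 m13_2 m13_3 m22_1 m22_2 m22_3 m33_1 m33_2 m33_3) :
    (1 * A1 ≤ 0) ∨ (1 * B2 ≤ 0) ∨ (1 * B3 ≤ 0) ∨ ((-2) * B1 + 1 * m12_1 + 1 * m13_1 ≤ -1) ∨ ((-2) * B2 + 1 * m12_2 + 1 * m13_2 ≤ -1) ∨ ((-2) * B3 + 1 * m12_3 + 1 * m13_3 ≤ -1) := by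
  have h := C.p12_13B
  clear C
  omega

theorem c2_11_33_33_k3_k_p12_22A {n1 n2 n3 A1 A2 A3 B1 B2 B3 m11_1 m11_2 m11_3 m12_1 m12_2 m12_3 m13_1 m13_2 m13_3 m22_1 m22_2 m22_3 m33_1 m33_2 m33_3 : ℤ} (C : Ctx2 n1 n2 n3 A1 A2 A3 B1 B2 B3 m11_1 m11_2 m11_3 m12_1 m12_2 m12_3 m13_1 m13_2 m13_3 m22_1 m22_2 m22_3 m33_1 m33_2 m33_3) :
    (1 * A1 ≤ 0) ∨ (1 * B2 ≤ 0) ∨ (1 * A2 ≤ 0) ∨ ((-2) * A1 + 1 * m12_1 + 1 * m22_1 ≤ -1) ∨ ((-2) * A2 + 1 * m12_2 + 1 * m22_2 ≤ -1) ∨ ((-2) * A3 + 1 * m12_3 + 1 * m22_3 ≤ -1) := by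
  have h := C.p12_22A
  clear C
  omega

theorem c2_11_33_33_k3_k_p12_33A {n1 n2 n3 A1 A2 A3 B1 B2 B3 m11_1 m11_2 m11_3 m12_1 m12_2 m12_3 m13_1 m13_2 m13_3 m22_1 m22_2 m22_3 m33_1 m33_2 m33_3 : ℤ} (C : Ctx2 n1 n2 n3 A1 A2 A3 B1 B2 B3 m11_1 m11_2 m11_3 m12_1 m12_2 m12_3 m13_1 m13_2 m13_3 m22_1 m22_2 m22_3 m33_1 m33_2 m33_3) :
    (1 * A1 ≤ 0) ∨ (1 * B2 ≤ 0) ∨ (1 * A3 ≤ 0) ∨ ((-2) * A1 + 1 * m12_1 + 1 * m33_1 ≤ -1) ∨ ((-2) * A2 + 1 * m12_2 + 1 * m33_2 ≤ -1) ∨ ((-2) * A3 + 1 * m12_3 + 1 * m33_3 ≤ -1) := by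
  have h := C.p12_33A
  clear C
  omega

theorem c2_11_33_33_k3_k_p13_33A {n1 n2 n3 A1 A2 A3 B1 B2 B3 m11_1 m11_2 m11_3 m12_1 m12_2 m12_3 m13_1 m13_2 m13_3 m22_1 m22_2 m22_3 m33_1 m33_2 m33_3 : ℤ} (C : Ctx2 n1 n2 n3 A1 A2 A3 B1 B2 B3 m11_1 m11_2 m11_3 m12_1 m12_2 m12_3 m13_1 m13_2 m13_3 m22_1 m22_2 m22_3 m33_1 m33_2 m33_3) :
    (1 * A1 ≤ 0) ∨ (1 * B3 ≤ 0) ∨ (1 * A3 ≤ 0) ∨ ((-2) * A1 + 1 * m13_1 + 1 * m33_1 ≤ -1) ∨ ((-2) * A2 + 1 * m13_2 + 1 * m33_2 ≤ -1) ∨ ((-2) * A3 + 1 * m13_3 + 1 * m33_3 ≤ -1) := by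
  have h := C.p13_33A
  clear C
  omega

theorem c2_11_33_33_k3_k_tmzp {n1 n2 n3 A1 A2 A3 B1 B2 B3 m11_1 m11_2 m11_3 m12_1 m12_2 m12_3 m13_1 m13_2 m13_3 m22_1 m22_2 m22_3 m33_1 m33_2 m33_3 : ℤ} (C : Ctx2 n1 n2 n3 A1 A2 A3 B1 B2 B3 m11_1 m11_2 m11_3 m12_1 m12_2 m12_3 m13_1 m13_2 m13_3 m22_1 m22_2 m22_3 m33_1 m33_2 m33_3) :
    ((-1) * A1 + 1 * n1 ≤ 0) ∨ ((-1) * A1 + 1 * A2 ≤ 0) ∨ ((-1) * A2 + 1 * A3 ≤ 0) ∨ (1 * B1 ≤ 0) ∨ (1 * B1 + (-1) * B2 + 1 * n2 ≤ 0) ∨ (1 * B2 + (-1) * B3 + 1 * n3 ≤ 0) := by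
  have h := C.tmzp
  clear C
  omega

theorem c2_11_33_33_k3_k_tmpp {n1 n2 n3 A1 A2 A3 B1 B2 B3 m11_1 m11_2 m11_3 m12_1 m12_2 m12_3 m13_1 m13_2 m13_3 m22_1 m22_2 m22_3 m33_1 m33_2 m33_3 : ℤ} (C : Ctx2 n1 n2 n3 A1 A2 A3 B1 B2 B3 m11_1 m11_2 m11_3 m12_1 m12_2 m12_3 m13_1 m13_2 m13_3 m22_1 m22_2 m22_3 m33_1 m33_2 m33_3) :
    ((-1) * A1 + 1 * n1 ≤ 0) ∨ ((-1) * A1 + 1 * A2 ≤ 1) ∨ (1 * B1 ≤ 0) ∨ (1 * B1 + (-1) * B2 + 1 * n2 ≤ 1) := by
  have h := C.tmpp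
  clear C
  omega

theorem c2_11_33_33_k3 {n1 n2 n3 A1 A2 A3 B1 B2 B3 m11_1 m11_2 m11_3 m12_1 m12_2 m12_3 m13_1 m13_2 m13_3 m22_1 m22_2 m22_3 m33_1 m33_2 m33_3 : ℤ}
    (C : Ctx2 n1 n2 n3 A1 A2 A3 B1 B2 B3 m11_1 m11_2 m11_3 m12_1 m12_2 m12_3 m13_1 m13_2 m13_3 m22_1 m22_2 m22_3 m33_1 m33_2 m33_3)
    (e0 : 0 < B1)
    (e1 : 0 < A3)
    (s1 : 3 * A1 + 0 * B1 ≤ m11_1 + m33_1 + m33_1)
    (s2 : 3 * A2 + 0 * B2 ≤ m11_2 + m33_2 + m33_2)
    (s3 : 3 * A3 + 0 * B3 ≤ m11_3 + m33_3 + m33_3) : False := by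
  rcases c2_11_33_33_k3_k_f12_2 C with ⟨c0_0_0, c0_0_1⟩ | ⟨c0_1_0, c0_1_1⟩
  · rcases c2_11_33_33_k3_k_f12_5 C with ⟨c1_0_0, c1_0_1⟩ | ⟨c1_1_0, c1_1_1⟩
    · linarith only [C.b3, C.f12_4, C.o0, c0_0_1, c1_0_1]
    · rcases c2_11_33_33_k3_k_f13_2 C with ⟨c2_0_0, c2_0_1⟩ | ⟨c2_1_0, c2_1_1⟩
      · rcases c2_11_33_33_k3_k_t12 C with ⟨c5_0_0, c5_0_1⟩ | ⟨c5_1_0, c5_1_1⟩
        · rcases c2_11_33_33_k3_k_t23 C with ⟨c6_0_0, c6_0_1⟩ | ⟨c6_1_0, c6_1_1⟩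
          · rcases c2_11_33_33_k3_k_f13_5 C with ⟨c7_0_0, c7_0_1⟩ | ⟨c7_1_0, c7_1_1⟩
            · rcases c2_11_33_33_k3_k_f13_8 C with ⟨c8_0_0, c8_0_1⟩ | ⟨c8_1_0, c8_1_1⟩
              · linarith only [C.b3, C.b5, C.f13_7, C.o0, c2_0_1, c7_0_1, c8_0_1]
              · rcases c2_11_33_33_k3_k_p13_33A C with c11_0_0 | c11_1_0 | c11_2_0 | c11_3_0 | c11_4_0 | c11_5_0
                · linarith only [c11_0_0, c5_0_0]
                · linarith only [C.o2, c11_1_0, e1]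
                · linarith only [c11_2_0, e1]
                · linarith only [C.f11_0, C.o0, c11_3_0, c2_0_1, s1]
                · linarith only [C.b3, C.f11_0, C.f11_1, C.o0, C.o1, c11_4_0, c2_0_1, c7_0_1, s2]
                · rcases c2_11_33_33_k3_k_f22_2 C with ⟨c13_0_0, c13_0_1⟩ | ⟨c13_1_0, c13_1_1⟩
                  · rcases c2_11_33_33_k3_k_f22_5 C with ⟨c14_0_0, c14_0_1⟩ | ⟨c14_1_0, c14_1_1⟩
                    · linarith only [C.f11_0, C.f12_0, C.f12_3, C.f22_4, C.f33_0, C.o0, C.o1, c13_0_1, c14_0_1, c1_1_1, s1]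
                    · rcases c2_11_33_33_k3_k_p11_22B C with c15_0_0 | c15_1_0 | c15_2_0 | c15_3_0 | c15_4_0
                      · linarith only [c15_0_0, e0]
                      · linarith only [C.f11_0, C.f22_1, C.f33_0, C.o0, c13_0_1, c15_1_0, e0, s1]
                      · linarith only [C.f11_0, C.f33_0, C.o0, c13_0_1, c15_2_0, s1]
                      · rcases c2_11_33_33_k3_k_p12_22A C with c16_0_0 | c16_1_0 | c16_2_0 | c16_3_0 | c16_4_0 | c16_5_0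
                        · linarith only [c16_0_0, c5_0_0]
                        · linarith only [C.f11_0, C.f22_1, C.f33_0, C.o0, C.o1, c13_0_1, c16_1_0, e0, s1]
                        · linarith only [C.f11_0, C.f22_1, C.f33_0, C.o0, c13_0_1, c16_2_0, e0, s1]
                        · linarith only [C.f11_0, C.f33_0, C.o0, c0_0_1, c13_0_1, c16_3_0, s1]
                        · rcases c2_11_33_33_k3_k_f33_8 C with ⟨c17_0_0, c17_0_1⟩ | ⟨c17_1_0, c17_1_1⟩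
                          · linarith only [C.o2, c11_5_0, c14_1_1, c15_3_0, c16_4_0, c17_0_1, c1_1_1, c6_0_1, c8_1_1, s2]
                          · rcases c2_11_33_33_k3_k_p12_33A C with c19_0_0 | c19_1_0 | c19_2_0 | c19_3_0 | c19_4_0 | c19_5_0
                            · linarith only [c19_0_0, c5_0_0]
                            · linarith only [C.f11_0, C.f22_1, C.f33_0, C.o0, C.o1, c13_0_1, c19_1_0, e0, s1]
                            · linarith only [c19_2_0, e1]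
                            · linarith only [C.f11_0, C.o0, c0_0_1, c19_3_0, s1]
                            · rcases c2_11_33_33_k3_k_f33_5 C with ⟨c20_0_0, c20_0_1⟩ | ⟨c20_1_0, c20_1_1⟩
                              · linarith only [C.f11_0, C.f11_1, C.o0, C.o1, c19_4_0, c1_1_1, c20_0_1, s1, s2]
                              · linarith only [C.f11_0, C.f11_1, C.f13_4, C.o0, C.o1, c11_5_0, c17_1_1, c19_4_0, c1_1_1, c20_1_1, c2_0_1, c7_0_1, c8_1_1, s2]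
                            · linarith only [C.f12_6, C.o1, c17_1_1, c19_5_0, c1_1_1, c6_0_1]
                        · linarith only [C.f12_6, C.f22_6, C.o1, c14_1_1, c16_5_0, c1_1_1, c6_0_1]
                      · linarith only [C.f22_6, c11_5_0, c14_1_1, c15_4_0, c6_0_1, c8_1_1, s3]
                  · rcases c2_11_33_33_k3_k_f22_5 C with ⟨c21_0_0, c21_0_1⟩ | ⟨c21_1_0, c21_1_1⟩
                    · linarith only [C.f12_0, C.f12_3, C.f22_4, C.o1, c13_1_1, c1_1_1, c21_0_1, c6_0_0]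
                    · rcases c2_11_33_33_k3_k_p11_22B C with c22_0_0 | c22_1_0 | c22_2_0 | c22_3_0 | c22_4_0
                      · linarith only [c22_0_0, e0]
                      · linarith only [C.o0, c22_1_0, c6_0_0, e0]
                      · linarith only [C.f11_0, C.o0, c13_1_1, c22_2_0, c6_0_0]
                      · rcases c2_11_33_33_k3_k_p12_33A C with c23_0_0 | c23_1_0 | c23_2_0 | c23_3_0 | c23_4_0 | c23_5_0
                        · linarith only [c23_0_0, c5_0_0]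
                        · linarith only [C.o0, C.o1, c23_1_0, c6_0_0, e0]
                        · linarith only [c23_2_0, e1]
                        · linarith only [C.f11_0, C.o0, c0_0_1, c23_3_0, s1]
                        · rcases c2_11_33_33_k3_k_f33_5 C with ⟨c24_0_0, c24_0_1⟩ | ⟨c24_1_0, c24_1_1⟩
                          · linarith only [C.f11_0, C.f12_0, C.f12_3, C.o0, C.o1, c1_1_1, c23_4_0, c24_0_1, s1]
                          · rcases c2_11_33_33_k3_k_f33_8 C with ⟨c25_0_0, c25_0_1⟩ | ⟨c25_1_0, c25_1_1⟩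
                            · linarith only [C.f11_0, C.f11_1, C.f11_2, C.f13_4, C.o0, C.o1, c11_5_0, c1_1_1, c23_4_0, c24_1_1, c25_0_1, c2_0_1, c7_0_1, c8_1_1, s2, s3]
                            · linarith only [C.f11_0, C.f11_1, C.f13_4, C.o0, C.o1, c11_5_0, c1_1_1, c23_4_0, c24_1_1, c25_1_1, c2_0_1, c7_0_1, c8_1_1, s2]
                        · linarith only [C.f11_2, C.f12_6, c1_1_1, c21_1_1, c22_3_0, c23_5_0, c6_0_1, s3]
                      · linarith only [C.f22_6, c11_5_0, c21_1_1, c22_4_0, c6_0_1, c8_1_1, s3]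
            · rcases c2_11_33_33_k3_k_f33_5 C with ⟨c27_0_0, c27_0_1⟩ | ⟨c27_1_0, c27_1_1⟩
              · linarith only [C.f11_0, C.f13_0, C.f13_3, C.f33_4, C.o0, C.o2, c27_0_1, c7_1_1, s1]
              · rcases c2_11_33_33_k3_k_f33_8 C with ⟨c28_0_0, c28_0_1⟩ | ⟨c28_1_0, c28_1_1⟩
                · linarith only [C.a4, C.f33_7, c27_1_1, c28_0_1, c6_0_1]
                · rcases c2_11_33_33_k3_k_p12_33A C with c31_0_0 | c31_1_0 | c31_2_0 | c31_3_0 | c31_4_0 | c31_5_0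
                  · linarith only [c31_0_0, c5_0_0]
                  · linarith only [C.o0, C.o1, c31_1_0, c6_0_0, e0]
                  · linarith only [c31_2_0, e1]
                  · linarith only [C.f11_0, C.o0, c0_0_1, c31_3_0, s1]
                  · rcases c2_11_33_33_k3_k_tmpp C with c34_0_0 | c34_1_0 | c34_2_0 | c34_3_0
                    · linarith only [C.f11_0, C.f33_0, C.o0, c34_0_0, s1]
                    · linarith only [C.f11_0, C.f33_1, C.o0, C.o1, c1_1_1, c27_1_1, c31_4_0, c34_1_0, s1]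
                    · linarith only [c34_2_0, e0]
                    · linarith only [C.f11_0, C.f11_1, C.o1, c1_1_1, c31_4_0, c34_3_0, s2]
                  · linarith only [C.f12_6, C.o1, c1_1_1, c28_1_1, c31_5_0, c6_0_1]
          · rcases c2_11_33_33_k3_k_f13_5 C with ⟨c35_0_0, c35_0_1⟩ | ⟨c35_1_0, c35_1_1⟩
            · rcases c2_11_33_33_k3_k_f13_8 C with ⟨c36_0_0, c36_0_1⟩ | ⟨c36_1_0, c36_1_1⟩
              · linarith only [C.b3, C.f13_7, C.o0, c2_0_1, c35_0_1, c36_0_1, c6_1_1]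
              · rcases c2_11_33_33_k3_k_p13_33A C with c39_0_0 | c39_1_0 | c39_2_0 | c39_3_0 | c39_4_0 | c39_5_0
                · linarith only [c39_0_0, c5_0_0]
                · linarith only [C.o2, c39_1_0, e1]
                · linarith only [c39_2_0, e1]
                · linarith only [C.f11_0, C.o0, c2_0_1, c39_3_0, s1]
                · linarith only [C.f11_0, C.f11_1, C.f12_0, C.f12_3, C.o0, C.o1, c1_1_1, c2_0_1, c35_0_1, c39_4_0, s2]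
                · rcases c2_11_33_33_k3_k_f33_5 C with ⟨c50_0_0, c50_0_1⟩ | ⟨c50_1_0, c50_1_1⟩
                  · rcases c2_11_33_33_k3_k_f33_8 C with ⟨c51_0_0, c51_0_1⟩ | ⟨c51_1_0, c51_1_1⟩
                    · linarith only [C.f11_0, C.f11_1, C.f11_2, C.o0, C.o2, c36_1_1, c39_5_0, c50_0_1, c51_0_1, s1, s3]
                    · rcases c2_11_33_33_k3_k_p12_33A C with c53_0_0 | c53_1_0 | c53_2_0 | c53_3_0 | c53_4_0 | c53_5_0
                      · linarith only [c53_0_0, c5_0_0]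
                      · linarith only [C.a2, C.o0, C.o1, c53_1_0, e0]
                      · linarith only [c53_2_0, e1]
                      · linarith only [C.f11_0, C.o0, c0_0_1, c53_3_0, s1]
                      · linarith only [C.f11_0, C.f12_0, C.f12_3, C.o0, C.o1, c1_1_1, c50_0_1, c53_4_0, s1]
                      · linarith only [C.f12_6, C.o2, c1_1_1, c51_1_1, c53_5_0, c6_1_1]
                  · rcases c2_11_33_33_k3_k_f33_8 C with ⟨c54_0_0, c54_0_1⟩ | ⟨c54_1_0, c54_1_1⟩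
                    · linarith only [C.f12_0, C.f12_3, C.f13_4, C.f33_7, c1_1_1, c2_0_1, c35_0_1, c50_1_1, c54_0_1, c6_1_1]
                    · rcases c2_11_33_33_k3_k_p12_33A C with c55_0_0 | c55_1_0 | c55_2_0 | c55_3_0 | c55_4_0 | c55_5_0
                      · linarith only [c55_0_0, c5_0_0]
                      · linarith only [C.a2, C.o0, C.o1, c55_1_0, e0]
                      · linarith only [c55_2_0, e1]
                      · linarith only [C.f11_0, C.o0, c0_0_1, c55_3_0, s1]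
                      · linarith only [C.f11_0, C.f11_1, C.f13_4, C.o0, C.o1, c1_1_1, c2_0_1, c35_0_1, c36_1_1, c39_5_0, c50_1_1, c54_1_1, c55_4_0, s2]
                      · linarith only [C.f12_6, C.o2, c1_1_1, c54_1_1, c55_5_0, c6_1_1]
            · rcases c2_11_33_33_k3_k_f33_5 C with ⟨c57_0_0, c57_0_1⟩ | ⟨c57_1_0, c57_1_1⟩
              · linarith only [C.f11_0, C.f13_0, C.f13_3, C.f33_4, C.o0, C.o2, c35_1_1, c57_0_1, s1]
              · rcases c2_11_33_33_k3_k_f33_8 C with ⟨c58_0_0, c58_0_1⟩ | ⟨c58_1_0, c58_1_1⟩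
                · linarith only [C.b4, C.f33_7, c57_1_1, c58_0_1, c6_1_1]
                · rcases c2_11_33_33_k3_k_p12_33A C with c61_0_0 | c61_1_0 | c61_2_0 | c61_3_0 | c61_4_0 | c61_5_0
                  · linarith only [c5_0_0, c61_0_0]
                  · linarith only [C.a2, C.o0, C.o1, c61_1_0, e0]
                  · linarith only [c61_2_0, e1]
                  · linarith only [C.f11_0, C.o0, c0_0_1, c61_3_0, s1]
                  · rcases c2_11_33_33_k3_k_tmzp C with c64_0_0 | c64_1_0 | c64_2_0 | c64_3_0 | c64_4_0 | c64_5_0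
                    · linarith only [C.f11_0, C.f33_0, C.o0, c64_0_0, s1]
                    · linarith only [C.f11_0, C.f33_1, C.o0, C.o1, c1_1_1, c57_1_1, c61_4_0, c64_1_0, s1]
                    · rcases c2_11_33_33_k3_k_tmpp C with c65_0_0 | c65_1_0 | c65_2_0 | c65_3_0
                      · linarith only [C.f11_0, C.f33_0, C.o0, c65_0_0, s1]
                      · linarith only [C.f11_0, C.f33_1, C.o0, c64_2_0, c65_1_0, s1]
                      · linarith only [c65_2_0, e0]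
                      · linarith only [C.f11_0, C.f11_1, C.f33_4, c1_1_1, c61_4_0, c64_2_0, c65_3_0, s2]
                    · linarith only [c64_3_0, e0]
                    · linarith only [C.f11_0, C.f11_1, C.o1, c1_1_1, c61_4_0, c64_4_0, s2]
                    · linarith only [c64_5_0, c6_1_1]
                  · linarith only [C.f12_6, C.o2, c1_1_1, c58_1_1, c61_5_0, c6_1_1]
        · rcases c2_11_33_33_k3_k_t23 C with ⟨c66_0_0, c66_0_1⟩ | ⟨c66_1_0, c66_1_1⟩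
          · rcases c2_11_33_33_k3_k_f13_5 C with ⟨c67_0_0, c67_0_1⟩ | ⟨c67_1_0, c67_1_1⟩
            · rcases c2_11_33_33_k3_k_f13_8 C with ⟨c68_0_0, c68_0_1⟩ | ⟨c68_1_0, c68_1_1⟩
              · linarith only [C.b5, C.f13_7, C.o0, c2_0_1, c5_1_1, c67_0_1, c68_0_1]
              · rcases c2_11_33_33_k3_k_p12_13B C with c71_0_0 | c71_1_0 | c71_2_0 | c71_3_0 | c71_4_0 | c71_5_0
                · linarith only [C.o0, c71_0_0, e0]
                · linarith only [C.o0, C.o1, c66_0_0, c71_1_0, e0]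
                · linarith only [C.f13_4, C.o0, C.o1, c2_0_1, c5_1_1, c66_0_0, c67_0_1, c71_2_0, e0]
                · linarith only [C.o0, c0_0_1, c2_0_1, c71_3_0]
                · linarith only [C.o0, c1_1_1, c2_0_1, c5_1_1, c67_0_1, c71_4_0]
                · rcases c2_11_33_33_k3_k_p13_33A C with c72_0_0 | c72_1_0 | c72_2_0 | c72_3_0 | c72_4_0 | c72_5_0
                  · linarith only [C.o0, c72_0_0, e0]
                  · linarith only [C.f11_0, C.f33_1, C.o0, C.o2, c72_1_0, e0, s1]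
                  · linarith only [c72_2_0, e1]
                  · linarith only [C.f11_0, C.o0, c2_0_1, c72_3_0, s1]
                  · linarith only [C.f11_0, C.f11_1, C.o0, C.o1, c2_0_1, c5_1_1, c67_0_1, c72_4_0, s2]
                  · rcases c2_11_33_33_k3_k_tmzp C with c75_0_0 | c75_1_0 | c75_2_0 | c75_3_0 | c75_4_0 | c75_5_0
                    · linarith only [C.f11_0, C.f33_0, C.o0, c75_0_0, s1]
                    · linarith only [c66_0_0, c75_1_0]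
                    · linarith only [C.f11_0, C.f11_1, C.f11_2, C.f12_6, C.f13_4, C.o0, C.o1, c1_1_1, c2_0_1, c67_0_1, c68_1_1, c71_5_0, c72_5_0, c75_2_0, s3]
                    · linarith only [c75_3_0, e0]
                    · linarith only [c5_1_1, c75_4_0]
                    · rcases c2_11_33_33_k3_k_f33_8 C with ⟨c76_0_0, c76_0_1⟩ | ⟨c76_1_0, c76_1_1⟩
                      · rcases c2_11_33_33_k3_k_f33_5 C with ⟨c77_0_0, c77_0_1⟩ | ⟨c77_1_0, c77_1_1⟩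
                        · linarith only [C.f11_0, C.f11_1, C.o0, C.o1, c66_0_1, c68_1_1, c72_5_0, c75_5_0, c76_0_1, c77_0_1, s1, s2]
                        · linarith only [C.f11_0, C.f11_1, C.f13_4, C.o0, C.o1, c2_0_1, c66_0_1, c67_0_1, c68_1_1, c72_5_0, c75_5_0, c76_0_1, c77_1_1, s2]
                      · linarith only [C.o1, c66_0_1, c68_1_1, c72_5_0, c75_5_0, c76_1_1]
            · rcases c2_11_33_33_k3_k_f33_5 C with ⟨c79_0_0, c79_0_1⟩ | ⟨c79_1_0, c79_1_1⟩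
              · linarith only [C.f11_0, C.f13_0, C.f13_3, C.f33_4, C.o0, C.o2, c67_1_1, c79_0_1, s1]
              · rcases c2_11_33_33_k3_k_f33_8 C with ⟨c80_0_0, c80_0_1⟩ | ⟨c80_1_0, c80_1_1⟩
                · linarith only [C.a4, C.f33_7, c66_0_1, c79_1_1, c80_0_1]
                · rcases c2_11_33_33_k3_k_p12_33A C with c83_0_0 | c83_1_0 | c83_2_0 | c83_3_0 | c83_4_0 | c83_5_0
                  · linarith only [C.o0, c83_0_0, e0]
                  · linarith only [C.o0, C.o1, c66_0_0, c83_1_0, e0]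
                  · linarith only [c83_2_0, e1]
                  · linarith only [C.f11_0, C.o0, c0_0_1, c83_3_0, s1]
                  · rcases c2_11_33_33_k3_k_tmpp C with c86_0_0 | c86_1_0 | c86_2_0 | c86_3_0
                    · linarith only [C.f11_0, C.f33_0, C.o0, c86_0_0, s1]
                    · linarith only [C.f11_0, C.f33_1, C.o0, C.o1, c1_1_1, c79_1_1, c83_4_0, c86_1_0, s1]
                    · linarith only [c86_2_0, e0]
                    · linarith only [C.f11_0, C.f11_1, C.o1, c1_1_1, c83_4_0, c86_3_0, s2]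
                  · linarith only [C.f12_6, C.o1, c1_1_1, c66_0_1, c80_1_1, c83_5_0]
          · rcases c2_11_33_33_k3_k_f13_5 C with ⟨c87_0_0, c87_0_1⟩ | ⟨c87_1_0, c87_1_1⟩
            · rcases c2_11_33_33_k3_k_f13_8 C with ⟨c88_0_0, c88_0_1⟩ | ⟨c88_1_0, c88_1_1⟩
              · linarith only [C.f13_7, C.o0, c2_0_1, c5_1_1, c66_1_1, c87_0_1, c88_0_1]
              · rcases c2_11_33_33_k3_k_p12_13B C with c92_0_0 | c92_1_0 | c92_2_0 | c92_3_0 | c92_4_0 | c92_5_0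
                · linarith only [C.o0, c92_0_0, e0]
                · linarith only [C.a2, C.o0, C.o1, c92_1_0, e0]
                · linarith only [C.o2, c92_2_0, e1]
                · linarith only [C.o0, c0_0_1, c2_0_1, c92_3_0]
                · linarith only [C.o0, c1_1_1, c2_0_1, c5_1_1, c87_0_1, c92_4_0]
                · rcases c2_11_33_33_k3_k_p13_33A C with c93_0_0 | c93_1_0 | c93_2_0 | c93_3_0 | c93_4_0 | c93_5_0
                  · linarith only [C.o0, c93_0_0, e0]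
                  · linarith only [C.f11_0, C.f33_1, C.o0, C.o2, c93_1_0, e0, s1]
                  · linarith only [c93_2_0, e1]
                  · linarith only [C.f11_0, C.o0, c2_0_1, c93_3_0, s1]
                  · linarith only [C.f11_0, C.f11_1, C.f12_0, C.f12_3, C.o0, C.o1, c1_1_1, c2_0_1, c87_0_1, c93_4_0, s2]
                  · rcases c2_11_33_33_k3_k_tmzp C with c94_0_0 | c94_1_0 | c94_2_0 | c94_3_0 | c94_4_0 | c94_5_0
                    · linarith only [C.f11_0, C.f33_0, C.o0, c94_0_0, s1]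
                    · rcases c2_11_33_33_k3_k_f33_5 C with ⟨c101_0_0, c101_0_1⟩ | ⟨c101_1_0, c101_1_1⟩
                      · rcases c2_11_33_33_k3_k_f33_8 C with ⟨c102_0_0, c102_0_1⟩ | ⟨c102_1_0, c102_1_1⟩
                        · linarith only [C.f11_0, C.f11_1, C.f11_2, C.f33_7, C.o0, c101_0_1, c102_0_1, s1, s3]
                        · rcases c2_11_33_33_k3_k_p12_33A C with c104_0_0 | c104_1_0 | c104_2_0 | c104_3_0 | c104_4_0 | c104_5_0
                          · linarith only [C.o0, c104_0_0, e0]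
                          · linarith only [C.a2, C.o0, C.o1, c104_1_0, e0]
                          · linarith only [c104_2_0, e1]
                          · linarith only [C.f11_0, C.o0, c0_0_1, c104_3_0, s1]
                          · linarith only [C.f11_0, C.f12_0, C.f12_3, C.o0, C.o1, c101_0_1, c104_4_0, c1_1_1, s1]
                          · linarith only [C.f12_6, C.o2, c102_1_1, c104_5_0, c1_1_1, c66_1_1]
                      · rcases c2_11_33_33_k3_k_f33_8 C with ⟨c105_0_0, c105_0_1⟩ | ⟨c105_1_0, c105_1_1⟩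
                        · linarith only [C.f12_0, C.f12_3, C.f13_4, C.f33_7, c101_1_1, c105_0_1, c1_1_1, c2_0_1, c66_1_1, c87_0_1]
                        · rcases c2_11_33_33_k3_k_p12_33A C with c107_0_0 | c107_1_0 | c107_2_0 | c107_3_0 | c107_4_0 | c107_5_0
                          · linarith only [C.o0, c107_0_0, e0]
                          · linarith only [C.a2, C.o0, C.o1, c107_1_0, e0]
                          · linarith only [c107_2_0, e1]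
                          · linarith only [C.f11_0, C.o0, c0_0_1, c107_3_0, s1]
                          · linarith only [C.f11_0, C.f33_1, C.o0, C.o1, c101_1_1, c107_4_0, c1_1_1, c94_1_0, s1]
                          · linarith only [C.f12_6, C.o2, c105_1_1, c107_5_0, c1_1_1, c66_1_1]
                    · linarith only [C.f11_0, C.f11_1, C.f11_2, C.f12_6, C.f13_4, C.o0, C.o1, c1_1_1, c2_0_1, c87_0_1, c88_1_1, c92_5_0, c93_5_0, c94_2_0, s3]
                    · linarith only [c94_3_0, e0]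
                    · linarith only [c5_1_1, c94_4_0]
                    · linarith only [c66_1_1, c94_5_0]
            · rcases c2_11_33_33_k3_k_f33_5 C with ⟨c109_0_0, c109_0_1⟩ | ⟨c109_1_0, c109_1_1⟩
              · linarith only [C.f11_0, C.f13_0, C.f13_3, C.f33_4, C.o0, C.o2, c109_0_1, c87_1_1, s1]
              · rcases c2_11_33_33_k3_k_f33_8 C with ⟨c110_0_0, c110_0_1⟩ | ⟨c110_1_0, c110_1_1⟩
                · linarith only [C.b4, C.f33_7, c109_1_1, c110_0_1, c66_1_1]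
                · rcases c2_11_33_33_k3_k_p12_33A C with c113_0_0 | c113_1_0 | c113_2_0 | c113_3_0 | c113_4_0 | c113_5_0
                  · linarith only [C.o0, c113_0_0, e0]
                  · linarith only [C.a2, C.o0, C.o1, c113_1_0, e0]
                  · linarith only [c113_2_0, e1]
                  · linarith only [C.f11_0, C.o0, c0_0_1, c113_3_0, s1]
                  · rcases c2_11_33_33_k3_k_tmzp C with c116_0_0 | c116_1_0 | c116_2_0 | c116_3_0 | c116_4_0 | c116_5_0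
                    · linarith only [C.f11_0, C.f33_0, C.o0, c116_0_0, s1]
                    · linarith only [C.f11_0, C.f33_1, C.o0, C.o1, c109_1_1, c113_4_0, c116_1_0, c1_1_1, s1]
                    · rcases c2_11_33_33_k3_k_tmpp C with c117_0_0 | c117_1_0 | c117_2_0 | c117_3_0
                      · linarith only [C.f11_0, C.f33_0, C.o0, c117_0_0, s1]
                      · linarith only [C.f11_0, C.f33_1, C.o0, c116_2_0, c117_1_0, s1]
                      · linarith only [c117_2_0, e0]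
                      · linarith only [C.f11_0, C.f11_1, C.f33_4, c113_4_0, c116_2_0, c117_3_0, c1_1_1, s2]
                    · linarith only [c116_3_0, e0]
                    · linarith only [c116_4_0, c5_1_1]
                    · linarith only [c116_5_0, c66_1_1]
                  · linarith only [C.f12_6, C.o2, c110_1_1, c113_5_0, c1_1_1, c66_1_1]
      · linarith only [C.f11_0, C.f13_0, C.f33_1, C.o0, C.o2, c2_1_1, s1]
  · linarith only [C.a2, C.f12_0, C.o1, c0_1_1]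

end Pool.Agent.Helper24.TQ
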