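import Pool.Agent.Helper89.TQ.Ctx

set_option autoImplicit false
set_option linter.all false
set_option maxHeartbeats 4000000

namespace Pool.Agent.Helper24.TQ

open Pool.Agent.Helper89.TQ

theorem c2_13_22_33_k3_k_t23 {n1 n2 n3 A1 A2 A3 B1 B2 B3 m11_1 m11_2 m11_3 m12_1 m12_2 m12_3 m13_1 m13_2 m13_3 m22_1 m22_2 m22_3 m33_1 m33_2 m33_3 : ℤ} (C : Ctx2 n1 n2 n3 A1 A2 A3 B1 B2 B3 m11_1 m11_2 m11_3 m12_1 m12_2 m12_3 m13_1 m13_2 m13_3 m22_1 m22_2 m22_3 m33_1 m33_2 m33_3) :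
    (1 * A1 + (-1) * A2 ≤ -1 ∧ (-1) * A2 + 1 * A3 + (-1) * n3 ≤ -1) ∨ (1 * B1 + (-1) * B2 ≤ -1 ∧ (-1) * B2 + 1 * B3 + (-1) * n3 ≤ -1) := by
  have h := C.t23
  clear C
  omega

theorem c2_13_22_33_k3_k_f12_2 {n1 n2 n3 A1 A2 A3 B1 B2 B3 m11_1 m11_2 m11_3 m12_1 m12_2 m12_3 m13_1 m13_2 m13_3 m22_1 m22_2 m22_3 m33_1 m33_2 m33_3 : ℤ} (C : Ctx2 n1 n2 n3 A1 A2 A3 B1 B2 B3 m11_1 m11_2 m11_3 m12_1 m12_2 m12_3 m13_1 m13_2 m13_3 m22_1 m22_2 m22_3 m33_1 m33_2 m33_3) :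
    ((-1) * A1 + 1 * m12_1 ≤ -1 ∧ 1 * A1 + (-1) * m12_1 ≤ 1) ∨ ((-1) * B2 + 1 * m12_1 ≤ -1 ∧ 1 * B2 + (-1) * m12_1 ≤ 1) := by
  have h := C.f12_2
  clear C
  omega

theorem c2_13_22_33_k3_k_f12_5 {n1 n2 n3 A1 A2 A3 B1 B2 B3 m11_1 m11_2 m11_3 m12_1 m12_2 m12_3 m13_1 m13_2 m13_3 m22_1 m22_2 m22_3 m33_1 m33_2 m33_3 : ℤ} (C : Ctx2 n1 n2 n3 A1 A2 A3 B1 B2 B3 m11_1 m11_2 m11_3 m12_1 m12_2 m12_3 m13_1 m13_2 m13_3 m22_1 m22_2 m22_3 m33_1 m33_2 m33_3) :
    ((-1) * m12_1 + 1 * m12_2 + (-1) * n2 ≤ 0 ∧ 1 * m12_1 + (-1) * m12_2 + 1 * n2 ≤ 0) ∨ ((-1) * B2 + 1 * m12_2 ≤ -1 ∧ 1 * B2 + (-1) * m12_2 ≤ 1) := by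
  have h := C.f12_5
  clear C
  omega

theorem c2_13_22_33_k3_k_f13_2 {n1 n2 n3 A1 A2 A3 B1 B2 B3 m11_1 m11_2 m11_3 m12_1 m12_2 m12_3 m13_1 m13_2 m13_3 m22_1 m22_2 m22_3 m33_1 m33_2 m33_3 : ℤ} (C : Ctx2 n1 n2 n3 A1 A2 A3 B1 B2 B3 m11_1 m11_2 m11_3 m12_1 m12_2 m12_3 m13_1 m13_2 m13_3 m22_1 m22_2 m22_3 m33_1 m33_2 m33_3) :
    ((-1) * A1 + 1 * m13_1 ≤ -1 ∧ 1 * A1 + (-1) * m13_1 ≤ 1) ∨ ((-1) * B3 + 1 * m13_1 ≤ -1 ∧ 1 * B3 + (-1) * m13_1 ≤ 1) := by
  have h := C.f13_2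
  clear C
  omega

theorem c2_13_22_33_k3_k_f13_5 {n1 n2 n3 A1 A2 A3 B1 B2 B3 m11_1 m11_2 m11_3 m12_1 m12_2 m12_3 m13_1 m13_2 m13_3 m22_1 m22_2 m22_3 m33_1 m33_2 m33_3 : ℤ} (C : Ctx2 n1 n2 n3 A1 A2 A3 B1 B2 B3 m11_1 m11_2 m11_3 m12_1 m12_2 m12_3 m13_1 m13_2 m13_3 m22_1 m22_2 m22_3 m33_1 m33_2 m33_3) :
    ((-1) * m13_1 + 1 * m13_2 + (-1) * n2 ≤ 0 ∧ 1 * m13_1 + (-1) * m13_2 + 1 * n2 ≤ 0) ∨ ((-1) * B3 + 1 * m13_2 ≤ -1 ∧ 1 * B3 + (-1) * m13_2 ≤ 1) := by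
  have h := C.f13_5
  clear C
  omega

theorem c2_13_22_33_k3_k_f13_8 {n1 n2 n3 A1 A2 A3 B1 B2 B3 m11_1 m11_2 m11_3 m12_1 m12_2 m12_3 m13_1 m13_2 m13_3 m22_1 m22_2 m22_3 m33_1 m33_2 m33_3 : ℤ} (C : Ctx2 n1 n2 n3 A1 A2 A3 B1 B2 B3 m11_1 m11_2 m11_3 m12_1 m12_2 m12_3 m13_1 m13_2 m13_3 m22_1 m22_2 m22_3 m33_1 m33_2 m33_3) :
    ((-1) * m13_2 + 1 * m13_3 + (-1) * n3 ≤ 0 ∧ 1 * m13_2 + (-1) * m13_3 + 1 * n3 ≤ 0) ∨ ((-1) * B3 + 1 * m13_3 ≤ -1 ∧ 1 * B3 + (-1) * m13_3 ≤ 1) := by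
  have h := C.f13_8
  clear C
  omega

theorem c2_13_22_33_k3_k_f22_2 {n1 n2 n3 A1 A2 A3 B1 B2 B3 m11_1 m11_2 m11_3 m12_1 m12_2 m12_3 m13_1 m13_2 m13_3 m22_1 m22_2 m22_3 m33_1 m33_2 m33_3 : ℤ} (C : Ctx2 n1 n2 n3 A1 A2 A3 B1 B2 B3 m11_1 m11_2 m11_3 m12_1 m12_2 m12_3 m13_1 m13_2 m13_3 m22_1 m22_2 m22_3 m33_1 m33_2 m33_3) :
    (1 * m22_1 + (-1) * n1 ≤ 0 ∧ (-1) * m22_1 + 1 * n1 ≤ 0) ∨ ((-1) * A2 + 1 * m22_1 ≤ -1 ∧ 1 * A2 + (-1) * m22_1 ≤ 1) := by
  have h := C.f22_2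
  clear C
  omega

theorem c2_13_22_33_k3_k_f22_5 {n1 n2 n3 A1 A2 A3 B1 B2 B3 m11_1 m11_2 m11_3 m12_1 m12_2 m12_3 m13_1 m13_2 m13_3 m22_1 m22_2 m22_3 m33_1 m33_2 m33_3 : ℤ} (C : Ctx2 n1 n2 n3 A1 A2 A3 B1 B2 B3 m11_1 m11_2 m11_3 m12_1 m12_2 m12_3 m13_1 m13_2 m13_3 m22_1 m22_2 m22_3 m33_1 m33_2 m33_3) :
    ((-1) * m22_1 + 1 * m22_2 + (-1) * n2 ≤ 0 ∧ 1 * m22_1 + (-1) * m22_2 + 1 * n2 ≤ 0) ∨ ((-1) * A2 + 1 * m22_2 ≤ -1 ∧ 1 * A2 + (-1) * m22_2 ≤ 1) := by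
  have h := C.f22_5
  clear C
  omega

theorem c2_13_22_33_k3_k_f33_2 {n1 n2 n3 A1 A2 A3 B1 B2 B3 m11_1 m11_2 m11_3 m12_1 m12_2 m12_3 m13_1 m13_2 m13_3 m22_1 m22_2 m22_3 m33_1 m33_2 m33_3 : ℤ} (C : Ctx2 n1 n2 n3 A1 A2 A3 B1 B2 B3 m11_1 m11_2 m11_3 m12_1 m12_2 m12_3 m13_1 m13_2 m13_3 m22_1 m22_2 m22_3 m33_1 m33_2 m33_3) :
    (1 * m33_1 + (-1) * n1 ≤ 0 ∧ (-1) * m33_1 + 1 * n1 ≤ 0) ∨ ((-1) * A3 + 1 * m33_1 ≤ -1 ∧ 1 * A3 + (-1) * m33_1 ≤ 1) := by
  have h := C.f33_2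
  clear C
  omega

theorem c2_13_22_33_k3_k_f33_5 {n1 n2 n3 A1 A2 A3 B1 B2 B3 m11_1 m11_2 m11_3 m12_1 m12_2 m12_3 m13_1 m13_2 m13_3 m22_1 m22_2 m22_3 m33_1 m33_2 m33_3 : ℤ} (C : Ctx2 n1 n2 n3 A1 A2 A3 B1 B2 B3 m11_1 m11_2 m11_3 m12_1 m12_2 m12_3 m13_1 m13_2 m13_3 m22_1 m22_2 m22_3 m33_1 m33_2 m33_3) :
    ((-1) * m33_1 + 1 * m33_2 + (-1) * n2 ≤ 0 ∧ 1 * m33_1 + (-1) * m33_2 + 1 * n2 ≤ 0) ∨ ((-1) * A3 + 1 * m33_2 ≤ -1 ∧ 1 * A3 + (-1) * m33_2 ≤ 1) := by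
  have h := C.f33_5
  clear C
  omega

theorem c2_13_22_33_k3_k_f33_8 {n1 n2 n3 A1 A2 A3 B1 B2 B3 m11_1 m11_2 m11_3 m12_1 m12_2 m12_3 m13_1 m13_2 m13_3 m22_1 m22_2 m22_3 m33_1 m33_2 m33_3 : ℤ} (C : Ctx2 n1 n2 n3 A1 A2 A3 B1 B2 B3 m11_1 m11_2 m11_3 m12_1 m12_2 m12_3 m13_1 m13_2 m13_3 m22_1 m22_2 m22_3 m33_1 m33_2 m33_3) :
    ((-1) * m33_2 + 1 * m33_3 + (-1) * n3 ≤ 0 ∧ 1 * m33_2 + (-1) * m33_3 + 1 * n3 ≤ 0) ∨ ((-1) * A3 + 1 * m33_3 ≤ -1 ∧ 1 * A3 + (-1) * m33_3 ≤ 1) := by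
  have h := C.f33_8
  clear C
  omega

theorem c2_13_22_33_k3_k_p12_33A {n1 n2 n3 A1 A2 A3 B1 B2 B3 m11_1 m11_2 m11_3 m12_1 m12_2 m12_3 m13_1 m13_2 m13_3 m22_1 m22_2 m22_3 m33_1 m33_2 m33_3 : ℤ} (C : Ctx2 n1 n2 n3 A1 A2 A3 B1 B2 B3 m11_1 m11_2 m11_3 m12_1 m12_2 m12_3 m13_1 m13_2 m13_3 m22_1 m22_2 m22_3 m33_1 m33_2 m33_3) :
    (1 * A1 ≤ 0) ∨ (1 * B2 ≤ 0) ∨ (1 * A3 ≤ 0) ∨ ((-2) * A1 + 1 * m12_1 + 1 * m33_1 ≤ -1) ∨ ((-2) * A2 + 1 * m12_2 + 1 * m33_2 ≤ -1) ∨ ((-2) * A3 + 1 * m12_3 + 1 * m33_3 ≤ -1) := by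
  have h := C.p12_33A
  clear C
  omega

theorem c2_13_22_33_k3_k_p13_22A {n1 n2 n3 A1 A2 A3 B1 B2 B3 m11_1 m11_2 m11_3 m12_1 m12_2 m12_3 m13_1 m13_2 m13_3 m22_1 m22_2 m22_3 m33_1 m33_2 m33_3 : ℤ} (C : Ctx2 n1 n2 n3 A1 A2 A3 B1 B2 B3 m11_1 m11_2 m11_3 m12_1 m12_2 m12_3 m13_1 m13_2 m13_3 m22_1 m22_2 m22_3 m33_1 m33_2 m33_3) :
    (1 * A1 ≤ 0) ∨ (1 * B3 ≤ 0) ∨ (1 * A2 ≤ 0) ∨ ((-2) * A1 + 1 * m13_1 + 1 * m22_1 ≤ -1) ∨ ((-2) * A2 + 1 * m13_2 + 1 * m22_2 ≤ -1) ∨ ((-2) * A3 + 1 * m13_3 + 1 * m22_3 ≤ -1) := by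
  have h := C.p13_22A
  clear C
  omega

theorem c2_13_22_33_k3_k_p13_33A {n1 n2 n3 A1 A2 A3 B1 B2 B3 m11_1 m11_2 m11_3 m12_1 m12_2 m12_3 m13_1 m13_2 m13_3 m22_1 m22_2 m22_3 m33_1 m33_2 m33_3 : ℤ} (C : Ctx2 n1 n2 n3 A1 A2 A3 B1 B2 B3 m11_1 m11_2 m11_3 m12_1 m12_2 m12_3 m13_1 m13_2 m13_3 m22_1 m22_2 m22_3 m33_1 m33_2 m33_3) :
    (1 * A1 ≤ 0) ∨ (1 * B3 ≤ 0) ∨ (1 * A3 ≤ 0) ∨ ((-2) * A1 + 1 * m13_1 + 1 * m33_1 ≤ -1) ∨ ((-2) * A2 + 1 * m13_2 + 1 * m33_2 ≤ -1) ∨ ((-2) * A3 + 1 * m13_3 + 1 * m33_3 ≤ -1) := by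
  have h := C.p13_33A
  clear C
  omega

theorem c2_13_22_33_k3 {n1 n2 n3 A1 A2 A3 B1 B2 B3 m11_1 m11_2 m11_3 m12_1 m12_2 m12_3 m13_1 m13_2 m13_3 m22_1 m22_2 m22_3 m33_1 m33_2 m33_3 : ℤ}
    (C : Ctx2 n1 n2 n3 A1 A2 A3 B1 B2 B3 m11_1 m11_2 m11_3 m12_1 m12_2 m12_3 m13_1 m13_2 m13_3 m22_1 m22_2 m22_3 m33_1 m33_2 m33_3)
    (e0 : 0 < A1)
    (e1 : 0 < B3)
    (e2 : 0 < A2)
    (e3 : 0 < A3)
    (s1 : 3 * A1 + 0 * B1 ≤ m13_1 + m22_1 + m33_1)
    (s2 : 3 * A2 + 0 * B2 ≤ m13_2 + m22_2 + m33_2)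
    (s3 : 3 * A3 + 0 * B3 ≤ m13_3 + m22_3 + m33_3) : False := by
  rcases c2_13_22_33_k3_k_f12_2 C with ⟨c0_0_0, c0_0_1⟩ | ⟨c0_1_0, c0_1_1⟩
  · rcases c2_13_22_33_k3_k_f12_5 C with ⟨c1_0_0, c1_0_1⟩ | ⟨c1_1_0, c1_1_1⟩
    · linarith only [C.b3, C.f12_4, C.o0, c0_0_1, c1_0_1]
    · rcases c2_13_22_33_k3_k_f13_2 C with ⟨c2_0_0, c2_0_1⟩ | ⟨c2_1_0, c2_1_1⟩
      · rcases c2_13_22_33_k3_k_t23 C with ⟨c4_0_0, c4_0_1⟩ | ⟨c4_1_0, c4_1_1⟩
        · rcases c2_13_22_33_k3_k_f13_5 C with ⟨c5_0_0, c5_0_1⟩ | ⟨c5_1_0, c5_1_1⟩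
          · rcases c2_13_22_33_k3_k_f13_8 C with ⟨c6_0_0, c6_0_1⟩ | ⟨c6_1_0, c6_1_1⟩
            · linarith only [C.b3, C.b5, C.f13_7, C.o0, c2_0_1, c5_0_1, c6_0_1]
            · rcases c2_13_22_33_k3_k_f22_2 C with ⟨c9_0_0, c9_0_1⟩ | ⟨c9_1_0, c9_1_1⟩
              · rcases c2_13_22_33_k3_k_f22_5 C with ⟨c10_0_0, c10_0_1⟩ | ⟨c10_1_0, c10_1_1⟩
                · linarith only [C.b3, C.f13_0, C.f22_4, C.f33_0, C.o0, C.o1, c10_0_1, c9_0_1, s1]
                · rcases c2_13_22_33_k3_k_p13_22A C with c12_0_0 | c12_1_0 | c12_2_0 | c12_3_0 | c12_4_0 | c12_5_0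
                  · linarith only [c12_0_0, e0]
                  · linarith only [c12_1_0, e1]
                  · linarith only [c12_2_0, e2]
                  · linarith only [C.f33_0, c12_3_0, c2_0_1, c9_0_1, s1]
                  · linarith only [C.b3, C.o0, C.o1, c10_1_1, c12_4_0, c2_0_1, c5_0_1]
                  · linarith only [C.f33_7, c12_5_0, s3]
              · rcases c2_13_22_33_k3_k_f22_5 C with ⟨c13_0_0, c13_0_1⟩ | ⟨c13_1_0, c13_1_1⟩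
                · linarith only [C.b3, C.f22_4, C.o0, C.o1, c13_0_1, c4_0_0, c9_1_1]
                · rcases c2_13_22_33_k3_k_p13_22A C with c14_0_0 | c14_1_0 | c14_2_0 | c14_3_0 | c14_4_0 | c14_5_0
                  · linarith only [c14_0_0, e0]
                  · linarith only [c14_1_0, e1]
                  · linarith only [c14_2_0, e2]
                  · rcases c2_13_22_33_k3_k_p13_33A C with c15_0_0 | c15_1_0 | c15_2_0 | c15_3_0 | c15_4_0 | c15_5_0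
                    · linarith only [c15_0_0, e0]
                    · linarith only [c15_1_0, e1]
                    · linarith only [c15_2_0, e3]
                    · linarith only [c14_3_0, c15_3_0, c2_0_1, s1]
                    · linarith only [C.f22_4, c15_4_0, s2]
                    · rcases c2_13_22_33_k3_k_f33_2 C with ⟨c16_0_0, c16_0_1⟩ | ⟨c16_1_0, c16_1_1⟩
                      · rcases c2_13_22_33_k3_k_f33_5 C with ⟨c17_0_0, c17_0_1⟩ | ⟨c17_1_0, c17_1_1⟩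
                        · rcases c2_13_22_33_k3_k_f33_8 C with ⟨c18_0_0, c18_0_1⟩ | ⟨c18_1_0, c18_1_1⟩
                          · linarith only [C.b3, C.f22_4, C.f22_6, C.o0, C.o1, C.o2, c14_3_0, c15_5_0, c17_0_1, c18_0_1, c6_1_1, s1, s3]
                          · rcases c2_13_22_33_k3_k_p12_33A C with c21_0_0 | c21_1_0 | c21_2_0 | c21_3_0 | c21_4_0 | c21_5_0
                            · linarith only [c21_0_0, e0]
                            · linarith only [C.o1, c21_1_0, c4_0_0, e0]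
                            · linarith only [c21_2_0, e3]
                            · linarith only [C.f13_0, C.f22_0, c0_0_1, c16_0_1, c21_3_0, s1]
                            · linarith only [C.b3, C.f13_0, C.f22_0, C.o0, C.o1, c16_0_1, c17_0_1, c1_1_1, c21_4_0, s1]
                            · linarith only [C.f12_6, C.f22_4, C.f22_6, C.o1, c15_5_0, c18_1_1, c1_1_1, c21_5_0, s3]
                        · rcases c2_13_22_33_k3_k_f33_8 C with ⟨c22_0_0, c22_0_1⟩ | ⟨c22_1_0, c22_1_1⟩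
                          · linarith only [C.b3, C.f13_4, C.f22_4, C.f22_6, C.o0, C.o1, c15_5_0, c17_1_1, c22_0_1, c2_0_1, c5_0_1, c6_1_1, s3]
                          · rcases c2_13_22_33_k3_k_p12_33A C with c25_0_0 | c25_1_0 | c25_2_0 | c25_3_0 | c25_4_0 | c25_5_0
                            · linarith only [c25_0_0, e0]
                            · linarith only [C.o1, c25_1_0, c4_0_0, e0]
                            · linarith only [c25_2_0, e3]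
                            · linarith only [C.f13_0, C.f22_0, c0_0_1, c16_0_1, c25_3_0, s1]
                            · linarith only [C.b3, C.f13_4, C.o0, C.o1, c15_5_0, c17_1_1, c1_1_1, c22_1_1, c25_4_0, c2_0_1, c5_0_1, c6_1_1]
                            · linarith only [C.f12_6, C.f22_4, C.f22_6, C.o1, c15_5_0, c1_1_1, c22_1_1, c25_5_0, s3]
                      · rcases c2_13_22_33_k3_k_f33_5 C with ⟨c26_0_0, c26_0_1⟩ | ⟨c26_1_0, c26_1_1⟩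
                        · linarith only [C.b3, C.f33_4, C.o0, C.o1, c16_1_1, c26_0_1, c4_0_0]
                        · rcases c2_13_22_33_k3_k_f33_8 C with ⟨c27_0_0, c27_0_1⟩ | ⟨c27_1_0, c27_1_1⟩
                          · linarith only [C.b3, C.f13_4, C.f22_4, C.f22_6, C.o0, C.o1, c15_5_0, c26_1_1, c27_0_1, c2_0_1, c5_0_1, c6_1_1, s3]
                          · rcases c2_13_22_33_k3_k_p12_33A C with c30_0_0 | c30_1_0 | c30_2_0 | c30_3_0 | c30_4_0 | c30_5_0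
                            · linarith only [c30_0_0, e0]
                            · linarith only [C.o1, c30_1_0, c4_0_0, e0]
                            · linarith only [c30_2_0, e3]
                            · linarith only [C.b3, C.f13_4, C.f22_1, C.o0, C.o1, c0_0_1, c15_5_0, c16_1_1, c27_1_1, c30_3_0, c5_0_1, c6_1_1, s1]
                            · linarith only [C.b3, C.f13_4, C.o0, C.o1, c15_5_0, c1_1_1, c26_1_1, c27_1_1, c2_0_1, c30_4_0, c5_0_1, c6_1_1]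
                            · linarith only [C.f12_6, C.f22_4, C.f22_6, C.o1, c15_5_0, c1_1_1, c27_1_1, c30_5_0, s3]
                  · linarith only [C.b3, C.o0, C.o1, c13_1_1, c14_4_0, c2_0_1, c5_0_1]
                  · linarith only [C.f33_7, c14_5_0, s3]
          · rcases c2_13_22_33_k3_k_f22_2 C with ⟨c33_0_0, c33_0_1⟩ | ⟨c33_1_0, c33_1_1⟩
            · rcases c2_13_22_33_k3_k_f22_5 C with ⟨c34_0_0, c34_0_1⟩ | ⟨c34_1_0, c34_1_1⟩
              · linarith only [C.b3, C.f13_0, C.f22_4, C.f33_0, C.o0, C.o1, c33_0_1, c34_0_1, s1]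
              · rcases c2_13_22_33_k3_k_p13_22A C with c36_0_0 | c36_1_0 | c36_2_0 | c36_3_0 | c36_4_0 | c36_5_0
                · linarith only [c36_0_0, e0]
                · linarith only [c36_1_0, e1]
                · linarith only [c36_2_0, e2]
                · linarith only [C.f33_0, c2_0_1, c33_0_1, c36_3_0, s1]
                · linarith only [C.f33_4, C.o2, c34_1_1, c36_4_0, c5_1_1, s2]
                · linarith only [C.f33_7, c36_5_0, s3]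
            · rcases c2_13_22_33_k3_k_f22_5 C with ⟨c37_0_0, c37_0_1⟩ | ⟨c37_1_0, c37_1_1⟩
              · linarith only [C.f12_0, C.f12_3, C.f22_4, C.o1, c1_1_1, c33_1_1, c37_0_1, c4_0_0]
              · rcases c2_13_22_33_k3_k_p13_22A C with c38_0_0 | c38_1_0 | c38_2_0 | c38_3_0 | c38_4_0 | c38_5_0
                · linarith only [c38_0_0, e0]
                · linarith only [c38_1_0, e1]
                · linarith only [c38_2_0, e2]
                · rcases c2_13_22_33_k3_k_f33_5 C with ⟨c39_0_0, c39_0_1⟩ | ⟨c39_1_0, c39_1_1⟩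
                  · linarith only [C.f13_0, C.f13_3, C.f33_4, C.o2, c38_3_0, c39_0_1, c5_1_1, s1]
                  · rcases c2_13_22_33_k3_k_f33_8 C with ⟨c40_0_0, c40_0_1⟩ | ⟨c40_1_0, c40_1_1⟩
                    · linarith only [C.f33_1, C.f33_7, c2_0_1, c33_1_1, c38_3_0, c39_1_1, c40_0_1, c4_0_1, s1]
                    · rcases c2_13_22_33_k3_k_p12_33A C with c41_0_0 | c41_1_0 | c41_2_0 | c41_3_0 | c41_4_0 | c41_5_0
                      · linarith only [c41_0_0, e0]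
                      · linarith only [C.o1, c41_1_0, e2]
                      · linarith only [c41_2_0, e3]
                      · linarith only [c0_0_1, c38_3_0, c41_3_0, s1]
                      · linarith only [C.f33_1, C.o1, c1_1_1, c2_0_1, c33_1_1, c38_3_0, c39_1_1, c41_4_0, s1]
                      · linarith only [C.f12_6, C.o1, c1_1_1, c40_1_1, c41_5_0, c4_0_1]
                · linarith only [C.f33_4, C.o2, c37_1_1, c38_4_0, c5_1_1, s2]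
                · linarith only [C.f33_7, c38_5_0, s3]
        · rcases c2_13_22_33_k3_k_f13_5 C with ⟨c42_0_0, c42_0_1⟩ | ⟨c42_1_0, c42_1_1⟩
          · rcases c2_13_22_33_k3_k_f13_8 C with ⟨c43_0_0, c43_0_1⟩ | ⟨c43_1_0, c43_1_1⟩
            · linarith only [C.b3, C.f13_7, C.o0, c2_0_1, c42_0_1, c43_0_1, c4_1_1]
            · rcases c2_13_22_33_k3_k_f22_2 C with ⟨c45_0_0, c45_0_1⟩ | ⟨c45_1_0, c45_1_1⟩
              · rcases c2_13_22_33_k3_k_f22_5 C with ⟨c46_0_0, c46_0_1⟩ | ⟨c46_1_0, c46_1_1⟩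
                · linarith only [C.b3, C.f13_0, C.f22_4, C.f33_0, C.o0, C.o1, c45_0_1, c46_0_1, s1]
                · rcases c2_13_22_33_k3_k_p13_22A C with c48_0_0 | c48_1_0 | c48_2_0 | c48_3_0 | c48_4_0 | c48_5_0
                  · linarith only [c48_0_0, e0]
                  · linarith only [c48_1_0, e1]
                  · linarith only [c48_2_0, e2]
                  · linarith only [C.f33_0, c2_0_1, c45_0_1, c48_3_0, s1]
                  · linarith only [C.b3, C.o0, C.o1, c2_0_1, c42_0_1, c46_1_1, c48_4_0]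
                  · linarith only [C.f33_7, c48_5_0, s3]
              · rcases c2_13_22_33_k3_k_f22_5 C with ⟨c49_0_0, c49_0_1⟩ | ⟨c49_1_0, c49_1_1⟩
                · linarith only [C.a2, C.b3, C.f22_4, C.o0, C.o1, c45_1_1, c49_0_1]
                · rcases c2_13_22_33_k3_k_p13_22A C with c50_0_0 | c50_1_0 | c50_2_0 | c50_3_0 | c50_4_0 | c50_5_0
                  · linarith only [c50_0_0, e0]
                  · linarith only [c50_1_0, e1]
                  · linarith only [c50_2_0, e2]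
                  · rcases c2_13_22_33_k3_k_p13_33A C with c51_0_0 | c51_1_0 | c51_2_0 | c51_3_0 | c51_4_0 | c51_5_0
                    · linarith only [c51_0_0, e0]
                    · linarith only [c51_1_0, e1]
                    · linarith only [c51_2_0, e3]
                    · linarith only [c2_0_1, c50_3_0, c51_3_0, s1]
                    · linarith only [C.f22_4, c51_4_0, s2]
                    · rcases c2_13_22_33_k3_k_f33_2 C with ⟨c54_0_0, c54_0_1⟩ | ⟨c54_1_0, c54_1_1⟩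
                      · rcases c2_13_22_33_k3_k_f33_5 C with ⟨c55_0_0, c55_0_1⟩ | ⟨c55_1_0, c55_1_1⟩
                        · rcases c2_13_22_33_k3_k_f33_8 C with ⟨c56_0_0, c56_0_1⟩ | ⟨c56_1_0, c56_1_1⟩
                          · linarith only [C.b3, C.f22_4, C.f22_6, C.o0, C.o1, C.o2, c43_1_1, c50_3_0, c51_5_0, c55_0_1, c56_0_1, s1, s3]
                          · rcases c2_13_22_33_k3_k_p12_33A C with c59_0_0 | c59_1_0 | c59_2_0 | c59_3_0 | c59_4_0 | c59_5_0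
                            · linarith only [c59_0_0, e0]
                            · linarith only [C.o1, c59_1_0, e2]
                            · linarith only [c59_2_0, e3]
                            · linarith only [C.f13_0, C.f22_0, c0_0_1, c54_0_1, c59_3_0, s1]
                            · linarith only [C.b3, C.f13_0, C.f22_0, C.o0, C.o1, c1_1_1, c54_0_1, c55_0_1, c59_4_0, s1]
                            · linarith only [C.f12_6, C.f22_4, C.f22_6, C.o1, c1_1_1, c51_5_0, c56_1_1, c59_5_0, s3]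
                        · rcases c2_13_22_33_k3_k_f33_8 C with ⟨c60_0_0, c60_0_1⟩ | ⟨c60_1_0, c60_1_1⟩
                          · linarith only [C.b3, C.f13_4, C.f22_4, C.f22_6, C.o0, C.o1, c2_0_1, c42_0_1, c43_1_1, c51_5_0, c55_1_1, c60_0_1, s3]
                          · rcases c2_13_22_33_k3_k_p12_33A C with c63_0_0 | c63_1_0 | c63_2_0 | c63_3_0 | c63_4_0 | c63_5_0
                            · linarith only [c63_0_0, e0]
                            · linarith only [C.o1, c63_1_0, e2]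
                            · linarith only [c63_2_0, e3]
                            · linarith only [C.f13_0, C.f22_0, c0_0_1, c54_0_1, c63_3_0, s1]
                            · linarith only [C.b3, C.f13_4, C.o0, C.o1, c1_1_1, c2_0_1, c42_0_1, c43_1_1, c51_5_0, c55_1_1, c60_1_1, c63_4_0]
                            · linarith only [C.f12_6, C.f22_4, C.f22_6, C.o1, c1_1_1, c51_5_0, c60_1_1, c63_5_0, s3]
                      · rcases c2_13_22_33_k3_k_f33_5 C with ⟨c64_0_0, c64_0_1⟩ | ⟨c64_1_0, c64_1_1⟩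
                        · linarith only [C.a2, C.b3, C.f33_4, C.o0, C.o1, c54_1_1, c64_0_1]
                        · rcases c2_13_22_33_k3_k_f33_8 C with ⟨c65_0_0, c65_0_1⟩ | ⟨c65_1_0, c65_1_1⟩
                          · linarith only [C.b3, C.f13_4, C.f22_4, C.f22_6, C.o0, C.o1, c2_0_1, c42_0_1, c43_1_1, c51_5_0, c64_1_1, c65_0_1, s3]
                          · rcases c2_13_22_33_k3_k_p12_33A C with c68_0_0 | c68_1_0 | c68_2_0 | c68_3_0 | c68_4_0 | c68_5_0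
                            · linarith only [c68_0_0, e0]
                            · linarith only [C.o1, c68_1_0, e2]
                            · linarith only [c68_2_0, e3]
                            · linarith only [C.b3, C.f13_4, C.f22_1, C.o0, C.o1, c0_0_1, c42_0_1, c43_1_1, c51_5_0, c54_1_1, c65_1_1, c68_3_0, s1]
                            · linarith only [C.b3, C.f13_4, C.o0, C.o1, c1_1_1, c2_0_1, c42_0_1, c43_1_1, c51_5_0, c64_1_1, c65_1_1, c68_4_0]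
                            · linarith only [C.f12_6, C.f22_4, C.f22_6, C.o1, c1_1_1, c51_5_0, c65_1_1, c68_5_0, s3]
                  · linarith only [C.b3, C.o0, C.o1, c2_0_1, c42_0_1, c49_1_1, c50_4_0]
                  · linarith only [C.f33_7, c50_5_0, s3]
          · rcases c2_13_22_33_k3_k_f22_2 C with ⟨c71_0_0, c71_0_1⟩ | ⟨c71_1_0, c71_1_1⟩
            · rcases c2_13_22_33_k3_k_f22_5 C with ⟨c72_0_0, c72_0_1⟩ | ⟨c72_1_0, c72_1_1⟩
              · linarith only [C.b3, C.f13_0, C.f22_4, C.f33_0, C.o0, C.o1, c71_0_1, c72_0_1, s1]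
              · rcases c2_13_22_33_k3_k_p13_22A C with c74_0_0 | c74_1_0 | c74_2_0 | c74_3_0 | c74_4_0 | c74_5_0
                · linarith only [c74_0_0, e0]
                · linarith only [c74_1_0, e1]
                · linarith only [c74_2_0, e2]
                · linarith only [C.f33_0, c2_0_1, c71_0_1, c74_3_0, s1]
                · linarith only [C.f33_4, C.o2, c42_1_1, c72_1_1, c74_4_0, s2]
                · linarith only [C.f33_7, c74_5_0, s3]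
            · rcases c2_13_22_33_k3_k_f22_5 C with ⟨c75_0_0, c75_0_1⟩ | ⟨c75_1_0, c75_1_1⟩
              · linarith only [C.a2, C.f13_0, C.f13_3, C.f22_4, C.f33_4, C.o2, c42_1_1, c71_1_1, c75_0_1, s2]
              · rcases c2_13_22_33_k3_k_p13_22A C with c76_0_0 | c76_1_0 | c76_2_0 | c76_3_0 | c76_4_0 | c76_5_0
                · linarith only [c76_0_0, e0]
                · linarith only [c76_1_0, e1]
                · linarith only [c76_2_0, e2]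
                · rcases c2_13_22_33_k3_k_f33_5 C with ⟨c77_0_0, c77_0_1⟩ | ⟨c77_1_0, c77_1_1⟩
                  · linarith only [C.f13_0, C.f13_3, C.f33_4, C.o2, c42_1_1, c76_3_0, c77_0_1, s1]
                  · rcases c2_13_22_33_k3_k_f33_8 C with ⟨c78_0_0, c78_0_1⟩ | ⟨c78_1_0, c78_1_1⟩
                    · linarith only [C.a5, C.f33_1, C.f33_7, c2_0_1, c71_1_1, c76_3_0, c77_1_1, c78_0_1, s1]
                    · rcases c2_13_22_33_k3_k_p12_33A C with c79_0_0 | c79_1_0 | c79_2_0 | c79_3_0 | c79_4_0 | c79_5_0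
                      · linarith only [c79_0_0, e0]
                      · linarith only [C.o1, c79_1_0, e2]
                      · linarith only [c79_2_0, e3]
                      · linarith only [c0_0_1, c76_3_0, c79_3_0, s1]
                      · linarith only [C.f33_1, C.o1, c1_1_1, c2_0_1, c71_1_1, c76_3_0, c77_1_1, c79_4_0, s1]
                      · linarith only [C.f12_6, C.f13_7, C.f22_4, C.f22_6, C.o1, c1_1_1, c4_1_1, c78_1_1, c79_5_0, s3]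
                · linarith only [C.f33_4, C.o2, c42_1_1, c75_1_1, c76_4_0, s2]
                · linarith only [C.f33_7, c76_5_0, s3]
      · linarith only [C.a2, C.f13_0, C.f13_4, C.f22_4, C.f33_4, C.o2, c2_1_1, s2]
  · linarith only [C.a2, C.f12_0, C.o1, c0_1_1]

end Pool.Agent.Helper24.TQ
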