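import Pool.Agent.Helper89.TQ.Ctx

set_option autoImplicit false
set_option linter.all false
set_option maxHeartbeats 4000000

namespace Pool.Agent.Helper24.TQ

open Pool.Agent.Helper89.TQ

theorem c3_22_22_33_k0_k_t12 {n1 n2 n3 A1 A2 A3 B1 B2 B3 m11_1 m11_2 m11_3 m22_1 m22_2 m22_3 m23_1 m23_2 m23_3 m33_1 m33_2 m33_3 : ℤ} (C : Ctx3 n1 n2 n3 A1 A2 A3 B1 B2 B3 m11_1 m11_2 m11_3 m22_1 m22_2 m22_3 m23_1 m23_2 m23_3 m33_1 m33_2 m33_3) :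
    ((-1) * A1 ≤ -1 ∧ (-1) * A1 + 1 * A2 + (-1) * n2 ≤ -1) ∨ ((-1) * B1 ≤ -1 ∧ (-1) * B1 + 1 * B2 + (-1) * n2 ≤ -1) := by
  have h := C.t12
  clear C
  omega

theorem c3_22_22_33_k0_k_t23 {n1 n2 n3 A1 A2 A3 B1 B2 B3 m11_1 m11_2 m11_3 m22_1 m22_2 m22_3 m23_1 m23_2 m23_3 m33_1 m33_2 m33_3 : ℤ} (C : Ctx3 n1 n2 n3 A1 A2 A3 B1 B2 B3 m11_1 m11_2 m11_3 m22_1 m22_2 m22_3 m23_1 m23_2 m23_3 m33_1 m33_2 m33_3) :
    (1 * A1 + (-1) * A2 ≤ -1 ∧ (-1) * A2 + 1 * A3 + (-1) * n3 ≤ -1) ∨ (1 * B1 + (-1) * B2 ≤ -1 ∧ (-1) * B2 + 1 * B3 + (-1) * n3 ≤ -1) := by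
  have h := C.t23
  clear C
  omega

theorem c3_22_22_33_k0_k_f22_2 {n1 n2 n3 A1 A2 A3 B1 B2 B3 m11_1 m11_2 m11_3 m22_1 m22_2 m22_3 m23_1 m23_2 m23_3 m33_1 m33_2 m33_3 : ℤ} (C : Ctx3 n1 n2 n3 A1 A2 A3 B1 B2 B3 m11_1 m11_2 m11_3 m22_1 m22_2 m22_3 m23_1 m23_2 m23_3 m33_1 m33_2 m33_3) :
    (1 * m22_1 + (-1) * n1 ≤ 0 ∧ (-1) * m22_1 + 1 * n1 ≤ 0) ∨ ((-1) * B2 + 1 * m22_1 ≤ -1 ∧ 1 * B2 + (-1) * m22_1 ≤ 1) := by
  have h := C.f22_2
  clear C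
  omega

theorem c3_22_22_33_k0_k_f22_5 {n1 n2 n3 A1 A2 A3 B1 B2 B3 m11_1 m11_2 m11_3 m22_1 m22_2 m22_3 m23_1 m23_2 m23_3 m33_1 m33_2 m33_3 : ℤ} (C : Ctx3 n1 n2 n3 A1 A2 A3 B1 B2 B3 m11_1 m11_2 m11_3 m22_1 m22_2 m22_3 m23_1 m23_2 m23_3 m33_1 m33_2 m33_3) :
    ((-1) * m22_1 + 1 * m22_2 + (-1) * n2 ≤ 0 ∧ 1 * m22_1 + (-1) * m22_2 + 1 * n2 ≤ 0) ∨ ((-1) * B2 + 1 * m22_2 ≤ -1 ∧ 1 * B2 + (-1) * m22_2 ≤ 1) := by
  have h := C.f22_5
  clear C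
  omega

theorem c3_22_22_33_k0_k_f23_3 {n1 n2 n3 A1 A2 A3 B1 B2 B3 m11_1 m11_2 m11_3 m22_1 m22_2 m22_3 m23_1 m23_2 m23_3 m33_1 m33_2 m33_3 : ℤ} (C : Ctx3 n1 n2 n3 A1 A2 A3 B1 B2 B3 m11_1 m11_2 m11_3 m22_1 m22_2 m22_3 m23_1 m23_2 m23_3 m33_1 m33_2 m33_3) :
    (1 * m23_1 + (-1) * n1 ≤ 0 ∧ (-1) * m23_1 + 1 * n1 ≤ 0) ∨ ((-1) * A2 + 1 * m23_1 ≤ -1 ∧ 1 * A2 + (-1) * m23_1 ≤ 1) ∨ ((-1) * B3 + 1 * m23_1 ≤ -1 ∧ 1 * B3 + (-1) * m23_1 ≤ 1) := by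
  have h := C.f23_3
  clear C
  omega

theorem c3_22_22_33_k0_k_f23_7 {n1 n2 n3 A1 A2 A3 B1 B2 B3 m11_1 m11_2 m11_3 m22_1 m22_2 m22_3 m23_1 m23_2 m23_3 m33_1 m33_2 m33_3 : ℤ} (C : Ctx3 n1 n2 n3 A1 A2 A3 B1 B2 B3 m11_1 m11_2 m11_3 m22_1 m22_2 m22_3 m23_1 m23_2 m23_3 m33_1 m33_2 m33_3) :
    ((-1) * m23_1 + 1 * m23_2 + (-1) * n2 ≤ 0 ∧ 1 * m23_1 + (-1) * m23_2 + 1 * n2 ≤ 0) ∨ ((-1) * A2 + 1 * m23_2 ≤ -1 ∧ 1 * A2 + (-1) * m23_2 ≤ 1) ∨ ((-1) * B3 + 1 * m23_2 ≤ -1 ∧ 1 * B3 + (-1) * m23_2 ≤ 1) := by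
  have h := C.f23_7
  clear C
  omega

theorem c3_22_22_33_k0_k_f23_10 {n1 n2 n3 A1 A2 A3 B1 B2 B3 m11_1 m11_2 m11_3 m22_1 m22_2 m22_3 m23_1 m23_2 m23_3 m33_1 m33_2 m33_3 : ℤ} (C : Ctx3 n1 n2 n3 A1 A2 A3 B1 B2 B3 m11_1 m11_2 m11_3 m22_1 m22_2 m22_3 m23_1 m23_2 m23_3 m33_1 m33_2 m33_3) :
    ((-1) * m23_2 + 1 * m23_3 + (-1) * n3 ≤ 0 ∧ 1 * m23_2 + (-1) * m23_3 + 1 * n3 ≤ 0) ∨ ((-1) * B3 + 1 * m23_3 ≤ -1 ∧ 1 * B3 + (-1) * m23_3 ≤ 1) := by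
  have h := C.f23_10
  clear C
  omega

theorem c3_22_22_33_k0_k_f33_5 {n1 n2 n3 A1 A2 A3 B1 B2 B3 m11_1 m11_2 m11_3 m22_1 m22_2 m22_3 m23_1 m23_2 m23_3 m33_1 m33_2 m33_3 : ℤ} (C : Ctx3 n1 n2 n3 A1 A2 A3 B1 B2 B3 m11_1 m11_2 m11_3 m22_1 m22_2 m22_3 m23_1 m23_2 m23_3 m33_1 m33_2 m33_3) :
    ((-1) * m33_1 + 1 * m33_2 + (-1) * n2 ≤ 0 ∧ 1 * m33_1 + (-1) * m33_2 + 1 * n2 ≤ 0) ∨ ((-1) * A3 + 1 * m33_2 ≤ -1 ∧ 1 * A3 + (-1) * m33_2 ≤ 1) := by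
  have h := C.f33_5
  clear C
  omega

theorem c3_22_22_33_k0_k_f33_8 {n1 n2 n3 A1 A2 A3 B1 B2 B3 m11_1 m11_2 m11_3 m22_1 m22_2 m22_3 m23_1 m23_2 m23_3 m33_1 m33_2 m33_3 : ℤ} (C : Ctx3 n1 n2 n3 A1 A2 A3 B1 B2 B3 m11_1 m11_2 m11_3 m22_1 m22_2 m22_3 m23_1 m23_2 m23_3 m33_1 m33_2 m33_3) :
    ((-1) * m33_2 + 1 * m33_3 + (-1) * n3 ≤ 0 ∧ 1 * m33_2 + (-1) * m33_3 + 1 * n3 ≤ 0) ∨ ((-1) * A3 + 1 * m33_3 ≤ -1 ∧ 1 * A3 + (-1) * m33_3 ≤ 1) := by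
  have h := C.f33_8
  clear C
  omega

theorem c3_22_22_33_k0_k_p11_22B {n1 n2 n3 A1 A2 A3 B1 B2 B3 m11_1 m11_2 m11_3 m22_1 m22_2 m22_3 m23_1 m23_2 m23_3 m33_1 m33_2 m33_3 : ℤ} (C : Ctx3 n1 n2 n3 A1 A2 A3 B1 B2 B3 m11_1 m11_2 m11_3 m22_1 m22_2 m22_3 m23_1 m23_2 m23_3 m33_1 m33_2 m33_3) :
    (1 * B1 ≤ 0) ∨ (1 * B2 ≤ 0) ∨ ((-2) * B1 + 1 * m11_1 + 1 * m22_1 ≤ -1) ∨ ((-2) * B2 + 1 * m11_2 + 1 * m22_2 ≤ -1) ∨ ((-2) * B3 + 1 * m11_3 + 1 * m22_3 ≤ -1) := by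
  have h := C.p11_22B
  clear C
  omega

theorem c3_22_22_33_k0_k_p11_23B {n1 n2 n3 A1 A2 A3 B1 B2 B3 m11_1 m11_2 m11_3 m22_1 m22_2 m22_3 m23_1 m23_2 m23_3 m33_1 m33_2 m33_3 : ℤ} (C : Ctx3 n1 n2 n3 A1 A2 A3 B1 B2 B3 m11_1 m11_2 m11_3 m22_1 m22_2 m22_3 m23_1 m23_2 m23_3 m33_1 m33_2 m33_3) :
    (1 * B1 ≤ 0) ∨ (1 * A2 ≤ 0) ∨ (1 * B3 ≤ 0) ∨ ((-2) * B1 + 1 * m11_1 + 1 * m23_1 ≤ -1) ∨ ((-2) * B2 + 1 * m11_2 + 1 * m23_2 ≤ -1) ∨ ((-2) * B3 + 1 * m11_3 + 1 * m23_3 ≤ -1) := by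
  have h := C.p11_23B
  clear C
  omega

theorem c3_22_22_33_k0_k_p11_33A {n1 n2 n3 A1 A2 A3 B1 B2 B3 m11_1 m11_2 m11_3 m22_1 m22_2 m22_3 m23_1 m23_2 m23_3 m33_1 m33_2 m33_3 : ℤ} (C : Ctx3 n1 n2 n3 A1 A2 A3 B1 B2 B3 m11_1 m11_2 m11_3 m22_1 m22_2 m22_3 m23_1 m23_2 m23_3 m33_1 m33_2 m33_3) :
    (1 * B1 ≤ 0) ∨ (1 * A3 ≤ 0) ∨ ((-2) * A1 + 1 * m11_1 + 1 * m33_1 ≤ -1) ∨ ((-2) * A2 + 1 * m11_2 + 1 * m33_2 ≤ -1) ∨ ((-2) * A3 + 1 * m11_3 + 1 * m33_3 ≤ -1) := by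
  have h := C.p11_33A
  clear C
  omega

theorem c3_22_22_33_k0_k_p22_23B {n1 n2 n3 A1 A2 A3 B1 B2 B3 m11_1 m11_2 m11_3 m22_1 m22_2 m22_3 m23_1 m23_2 m23_3 m33_1 m33_2 m33_3 : ℤ} (C : Ctx3 n1 n2 n3 A1 A2 A3 B1 B2 B3 m11_1 m11_2 m11_3 m22_1 m22_2 m22_3 m23_1 m23_2 m23_3 m33_1 m33_2 m33_3) :
    (1 * B2 ≤ 0) ∨ (1 * A2 ≤ 0) ∨ (1 * B3 ≤ 0) ∨ ((-2) * B1 + 1 * m22_1 + 1 * m23_1 ≤ -1) ∨ ((-2) * B2 + 1 * m22_2 + 1 * m23_2 ≤ -1) ∨ ((-2) * B3 + 1 * m22_3 + 1 * m23_3 ≤ -1) := by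
  have h := C.p22_23B
  clear C
  omega

theorem c3_22_22_33_k0_k_p22_33A {n1 n2 n3 A1 A2 A3 B1 B2 B3 m11_1 m11_2 m11_3 m22_1 m22_2 m22_3 m23_1 m23_2 m23_3 m33_1 m33_2 m33_3 : ℤ} (C : Ctx3 n1 n2 n3 A1 A2 A3 B1 B2 B3 m11_1 m11_2 m11_3 m22_1 m22_2 m22_3 m23_1 m23_2 m23_3 m33_1 m33_2 m33_3) :
    (1 * B2 ≤ 0) ∨ (1 * A3 ≤ 0) ∨ ((-2) * A1 + 1 * m22_1 + 1 * m33_1 ≤ -1) ∨ ((-2) * A2 + 1 * m22_2 + 1 * m33_2 ≤ -1) ∨ ((-2) * A3 + 1 * m22_3 + 1 * m33_3 ≤ -1) := by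
  have h := C.p22_33A
  clear C
  omega

theorem c3_22_22_33_k0_k_tmzp {n1 n2 n3 A1 A2 A3 B1 B2 B3 m11_1 m11_2 m11_3 m22_1 m22_2 m22_3 m23_1 m23_2 m23_3 m33_1 m33_2 m33_3 : ℤ} (C : Ctx3 n1 n2 n3 A1 A2 A3 B1 B2 B3 m11_1 m11_2 m11_3 m22_1 m22_2 m22_3 m23_1 m23_2 m23_3 m33_1 m33_2 m33_3) :
    ((-1) * A1 + 1 * n1 ≤ 0) ∨ ((-1) * A1 + 1 * A2 ≤ 0) ∨ ((-1) * A2 + 1 * A3 ≤ 0) ∨ (1 * B1 ≤ 0) ∨ (1 * B1 + (-1) * B2 + 1 * n2 ≤ 0) ∨ (1 * B2 + (-1) * B3 + 1 * n3 ≤ 0) := by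
  have h := C.tmzp
  clear C
  omega

theorem c3_22_22_33_k0_k_tmpp {n1 n2 n3 A1 A2 A3 B1 B2 B3 m11_1 m11_2 m11_3 m22_1 m22_2 m22_3 m23_1 m23_2 m23_3 m33_1 m33_2 m33_3 : ℤ} (C : Ctx3 n1 n2 n3 A1 A2 A3 B1 B2 B3 m11_1 m11_2 m11_3 m22_1 m22_2 m22_3 m23_1 m23_2 m23_3 m33_1 m33_2 m33_3) :
    ((-1) * A1 + 1 * n1 ≤ 0) ∨ ((-1) * A1 + 1 * A2 ≤ 1) ∨ (1 * B1 ≤ 0) ∨ (1 * B1 + (-1) * B2 + 1 * n2 ≤ 1) := by
  have h := C.tmpp
  clear C
  omega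

theorem c3_22_22_33_k0_k_tzmp {n1 n2 n3 A1 A2 A3 B1 B2 B3 m11_1 m11_2 m11_3 m22_1 m22_2 m22_3 m23_1 m23_2 m23_3 m33_1 m33_2 m33_3 : ℤ} (C : Ctx3 n1 n2 n3 A1 A2 A3 B1 B2 B3 m11_1 m11_2 m11_3 m22_1 m22_2 m22_3 m23_1 m23_2 m23_3 m33_1 m33_2 m33_3) :
    (1 * A1 + (-1) * A2 + 1 * n2 ≤ 0) ∨ ((-1) * A2 + 1 * A3 ≤ 1) ∨ ((-1) * B1 + 1 * B2 ≤ 0) ∨ (1 * B2 + (-1) * B3 + 1 * n3 ≤ 1) := by
  have h := C.tzmp
  clear C
  omega

theorem c3_22_22_33_k0 {n1 n2 n3 A1 A2 A3 B1 B2 B3 m11_1 m11_2 m11_3 m22_1 m22_2 m22_3 m23_1 m23_2 m23_3 m33_1 m33_2 m33_3 : ℤ}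
    (C : Ctx3 n1 n2 n3 A1 A2 A3 B1 B2 B3 m11_1 m11_2 m11_3 m22_1 m22_2 m22_3 m23_1 m23_2 m23_3 m33_1 m33_2 m33_3)
    (e0 : 0 < B2)
    (e1 : 0 < A3)
    (s1 : 0 * A1 + 3 * B1 ≤ m22_1 + m22_1 + m33_1)
    (s2 : 0 * A2 + 3 * B2 ≤ m22_2 + m22_2 + m33_2)
    (s3 : 0 * A3 + 3 * B3 ≤ m22_3 + m22_3 + m33_3) : False := by
  rcases c3_22_22_33_k0_k_f33_8 C with ⟨c0_0_0, c0_0_1⟩ | ⟨c0_1_0, c0_1_1⟩
  · linarith only [C.f22_4, C.f22_6, C.f33_7, C.o2, c0_0_1, s2, s3]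
  · rcases c3_22_22_33_k0_k_t12 C with ⟨c1_0_0, c1_0_1⟩ | ⟨c1_1_0, c1_1_1⟩
    · rcases c3_22_22_33_k0_k_t23 C with ⟨c2_0_0, c2_0_1⟩ | ⟨c2_1_0, c2_1_1⟩
      · rcases c3_22_22_33_k0_k_f22_2 C with ⟨c3_0_0, c3_0_1⟩ | ⟨c3_1_0, c3_1_1⟩
        · rcases c3_22_22_33_k0_k_f23_3 C with ⟨c5_0_0, c5_0_1⟩ | ⟨c5_1_0, c5_1_1⟩ | ⟨c5_2_0, c5_2_1⟩
          · rcases c3_22_22_33_k0_k_f23_7 C with ⟨c6_0_0, c6_0_1⟩ | ⟨c6_1_0, c6_1_1⟩ | ⟨c6_2_0, c6_2_1⟩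
            · linarith only [C.f22_0, C.f23_5, C.f33_0, C.o0, c1_0_1, c5_0_1, c6_0_1, s1]
            · rcases c3_22_22_33_k0_k_f23_10 C with ⟨c7_0_0, c7_0_1⟩ | ⟨c7_1_0, c7_1_1⟩
              · linarith only [C.f22_4, C.f22_6, C.f23_9, C.f33_7, C.o1, C.o2, c6_1_1, c7_0_1, s3]
              · rcases c3_22_22_33_k0_k_p22_23B C with c12_0_0 | c12_1_0 | c12_2_0 | c12_3_0 | c12_4_0 | c12_5_0
                · linarith only [c12_0_0, e0]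
                · linarith only [C.f22_1, C.f33_0, C.o0, C.o1, c12_1_0, c1_0_0, c3_0_1, s1]
                · linarith only [C.f22_1, C.f22_4, C.f33_0, C.f33_4, C.o0, C.o2, c12_2_0, c1_0_0, c3_0_1, s1, s2]
                · linarith only [C.f22_0, C.f33_0, c12_3_0, c5_0_1, s1]
                · rcases c3_22_22_33_k0_k_tzmp C with c21_0_0 | c21_1_0 | c21_2_0 | c21_3_0
                  · linarith only [c1_0_1, c21_0_0]
                  · linarith only [C.f22_4, C.f33_4, c12_4_0, c21_1_0, c6_1_1, s2]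
                  · linarith only [C.f22_1, C.f33_0, c21_2_0, c3_0_1, s1]
                  · linarith only [C.f22_4, C.f22_6, C.f33_7, C.o2, c21_3_0, s3]
                · linarith only [C.f33_7, C.o2, c12_5_0, c7_1_1, s3]
            · linarith only [C.a4, C.f23_5, C.o2, c6_2_1]
          · linarith only [C.f22_1, C.f23_0, C.o1, c3_0_1, c5_1_1]
          · linarith only [C.f22_1, C.f22_4, C.f23_0, C.f33_4, C.o2, c3_0_1, c5_2_1, s2]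
        · rcases c3_22_22_33_k0_k_f22_5 C with ⟨c22_0_0, c22_0_1⟩ | ⟨c22_1_0, c22_1_1⟩
          · linarith only [C.f22_4, c1_0_1, c22_0_1, c2_0_0, c3_1_1]
          · rcases c3_22_22_33_k0_k_p11_22B C with c23_0_0 | c23_1_0 | c23_2_0 | c23_3_0 | c23_4_0
            · linarith only [C.o0, c1_0_0, c23_0_0]
            · linarith only [c23_1_0, e0]
            · rcases c3_22_22_33_k0_k_p22_33A C with c24_0_0 | c24_1_0 | c24_2_0 | c24_3_0 | c24_4_0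
              · linarith only [c24_0_0, e0]
              · linarith only [c24_1_0, e1]
              · linarith only [C.f11_0, C.o0, c23_2_0, c24_2_0, s1]
              · rcases c3_22_22_33_k0_k_f23_3 C with ⟨c26_0_0, c26_0_1⟩ | ⟨c26_1_0, c26_1_1⟩ | ⟨c26_2_0, c26_2_1⟩
                · rcases c3_22_22_33_k0_k_f23_7 C with ⟨c27_0_0, c27_0_1⟩ | ⟨c27_1_0, c27_1_1⟩ | ⟨c27_2_0, c27_2_1⟩
                  · linarith only [C.a1, C.f23_5, c1_0_1, c26_0_1, c27_0_1]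
                  · rcases c3_22_22_33_k0_k_f23_10 C with ⟨c28_0_0, c28_0_1⟩ | ⟨c28_1_0, c28_1_1⟩
                    · linarith only [C.f22_4, C.f22_6, C.f23_9, C.f33_7, C.o1, C.o2, c27_1_1, c28_0_1, s3]
                    · rcases c3_22_22_33_k0_k_p22_23B C with c32_0_0 | c32_1_0 | c32_2_0 | c32_3_0 | c32_4_0 | c32_5_0
                      · linarith only [c32_0_0, e0]
                      · linarith only [C.o1, c32_1_0, e0]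
                      · linarith only [C.f22_4, C.f33_4, C.o2, c32_2_0, e0, s2]
                      · linarith only [C.a1, C.f33_0, C.o0, c26_0_1, c32_3_0, s1]
                      · rcases c3_22_22_33_k0_k_tmzp C with c37_0_0 | c37_1_0 | c37_2_0 | c37_3_0 | c37_4_0 | c37_5_0
                        · rcases c3_22_22_33_k0_k_tzmp C with c39_0_0 | c39_1_0 | c39_2_0 | c39_3_0
                          · linarith only [c1_0_1, c39_0_0]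
                          · linarith only [C.f22_4, C.f33_4, c27_1_1, c32_4_0, c39_1_0, s2]
                          · linarith only [C.f22_1, C.f33_0, C.o0, c37_0_0, c39_2_0, s1]
                          · linarith only [C.f22_4, C.f22_6, C.f33_7, C.o2, c39_3_0, s3]
                        · linarith only [c2_0_0, c37_1_0]
                        · linarith only [C.f22_4, C.f33_4, c27_1_1, c32_4_0, c37_2_0, s2]
                        · linarith only [C.o0, c1_0_0, c37_3_0]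
                        · linarith only [C.o0, C.o1, c1_0_1, c37_4_0]
                        · linarith only [C.f22_4, C.f22_6, C.f33_7, C.o2, c37_5_0, s3]
                      · linarith only [C.f33_7, C.o2, c28_1_1, c32_5_0, s3]
                  · linarith only [C.a4, C.f23_5, C.o2, c27_2_1]
                · rcases c3_22_22_33_k0_k_f23_7 C with ⟨c40_0_0, c40_0_1⟩ | ⟨c40_1_0, c40_1_1⟩ | ⟨c40_2_0, c40_2_1⟩
                  · linarith only [C.f23_5, c1_0_1, c26_1_1, c2_0_0, c40_0_1]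
                  · rcases c3_22_22_33_k0_k_f23_10 C with ⟨c41_0_0, c41_0_1⟩ | ⟨c41_1_0, c41_1_1⟩
                    · linarith only [C.f22_4, C.f22_6, C.f23_9, C.f33_7, C.o1, C.o2, c40_1_1, c41_0_1, s3]
                    · rcases c3_22_22_33_k0_k_p11_23B C with c42_0_0 | c42_1_0 | c42_2_0 | c42_3_0 | c42_4_0 | c42_5_0
                      · linarith only [C.o0, c1_0_0, c42_0_0]
                      · linarith only [C.o1, c42_1_0, e0]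
                      · linarith only [C.f22_4, C.f33_4, C.o2, c42_2_0, e0, s2]
                      · rcases c3_22_22_33_k0_k_f33_5 C with ⟨c43_0_0, c43_0_1⟩ | ⟨c43_1_0, c43_1_1⟩
                        · linarith only [C.f11_0, C.f22_1, C.o0, C.o1, c1_0_1, c22_1_1, c24_3_0, c26_1_1, c42_3_0, c43_0_1, s1]
                        · rcases c3_22_22_33_k0_k_p11_33A C with c44_0_0 | c44_1_0 | c44_2_0 | c44_3_0 | c44_4_0
                          · linarith only [C.o0, c1_0_0, c44_0_0]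
                          · linarith only [c44_1_0, e1]
                          · linarith only [C.f11_0, C.f22_1, C.o0, C.o1, c26_1_1, c42_3_0, c44_2_0, s1]
                          · linarith only [C.f11_0, C.f11_1, C.f22_1, C.f22_4, C.f33_1, C.o0, c1_0_1, c26_1_1, c42_3_0, c43_1_1, c44_3_0, s1, s2]
                          · linarith only [C.f11_0, C.f11_1, C.f11_2, C.f22_4, C.f22_6, C.o0, C.o1, C.o2, c0_1_1, c1_0_1, c44_4_0, s3]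
                      · linarith only [C.f11_0, C.f11_1, C.o0, C.o1, c1_0_1, c40_1_1, c42_4_0]
                      · linarith only [C.f11_0, C.f11_1, C.f11_2, C.f22_4, C.f22_6, C.f33_7, C.o0, C.o1, C.o2, c1_0_1, c41_1_1, c42_5_0, s3]
                  · linarith only [C.a4, C.f23_5, C.o2, c40_2_1]
                · linarith only [C.a4, C.f23_1, C.o2, c26_2_1]
              · linarith only [C.o2, c0_1_1, c24_4_0, s3]
            · linarith only [C.f11_0, C.f11_1, C.o0, C.o1, c1_0_1, c22_1_1, c23_3_0]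
            · linarith only [C.f11_0, C.f11_1, C.f11_2, C.f22_4, C.f22_6, C.f33_7, C.o0, C.o1, C.o2, c1_0_1, c23_4_0, s3]
      · rcases c3_22_22_33_k0_k_tmpp C with c45_0_0 | c45_1_0 | c45_2_0 | c45_3_0
        · rcases c3_22_22_33_k0_k_f23_3 C with ⟨c47_0_0, c47_0_1⟩ | ⟨c47_1_0, c47_1_1⟩ | ⟨c47_2_0, c47_2_1⟩
          · rcases c3_22_22_33_k0_k_f23_7 C with ⟨c48_0_0, c48_0_1⟩ | ⟨c48_1_0, c48_1_1⟩ | ⟨c48_2_0, c48_2_1⟩
            · linarith only [C.a1, C.f23_5, c1_0_1, c47_0_1, c48_0_1]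
            · rcases c3_22_22_33_k0_k_f23_10 C with ⟨c49_0_0, c49_0_1⟩ | ⟨c49_1_0, c49_1_1⟩
              · linarith only [C.f22_4, C.f22_6, C.f23_9, C.f33_7, C.o1, C.o2, c48_1_1, c49_0_1, s3]
              · rcases c3_22_22_33_k0_k_p22_23B C with c54_0_0 | c54_1_0 | c54_2_0 | c54_3_0 | c54_4_0 | c54_5_0
                · linarith only [c54_0_0, e0]
                · linarith only [C.f22_1, C.f33_0, C.o0, C.o1, c1_0_0, c45_0_0, c54_1_0, s1]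
                · linarith only [C.f22_1, C.f22_4, C.f33_0, C.f33_4, C.o0, C.o2, c1_0_0, c45_0_0, c54_2_0, s1, s2]
                · linarith only [C.a1, C.f33_0, C.o0, c47_0_1, c54_3_0, s1]
                · rcases c3_22_22_33_k0_k_tzmp C with c62_0_0 | c62_1_0 | c62_2_0 | c62_3_0
                  · linarith only [c1_0_1, c62_0_0]
                  · linarith only [C.f22_4, C.f33_4, c48_1_1, c54_4_0, c62_1_0, s2]
                  · linarith only [c2_1_0, c62_2_0]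
                  · linarith only [C.f22_4, C.f22_6, C.f33_7, C.o2, c62_3_0, s3]
                · linarith only [C.f33_7, C.o2, c49_1_1, c54_5_0, s3]
            · linarith only [C.a4, C.f23_5, C.o2, c48_2_1]
          · linarith only [C.f23_0, C.o0, C.o1, c2_1_0, c45_0_0, c47_1_1]
          · linarith only [C.f22_4, C.f23_0, C.f33_4, C.o0, C.o2, c2_1_0, c45_0_0, c47_2_1, s2]
        · linarith only [C.o0, C.o1, c2_1_0, c45_1_0]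
        · linarith only [C.o0, c1_0_0, c45_2_0]
        · linarith only [C.o0, C.o1, c1_0_1, c45_3_0]
    · rcases c3_22_22_33_k0_k_t23 C with ⟨c63_0_0, c63_0_1⟩ | ⟨c63_1_0, c63_1_1⟩
      · rcases c3_22_22_33_k0_k_f23_3 C with ⟨c84_0_0, c84_0_1⟩ | ⟨c84_1_0, c84_1_1⟩ | ⟨c84_2_0, c84_2_1⟩
        · rcases c3_22_22_33_k0_k_f23_7 C with ⟨c85_0_0, c85_0_1⟩ | ⟨c85_1_0, c85_1_1⟩ | ⟨c85_2_0, c85_2_1⟩
          · linarith only [C.a1, C.a3, C.f23_5, c84_0_1, c85_0_1]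
          · rcases c3_22_22_33_k0_k_f23_10 C with ⟨c86_0_0, c86_0_1⟩ | ⟨c86_1_0, c86_1_1⟩
            · linarith only [C.f22_4, C.f22_6, C.f23_9, C.f33_7, C.o1, C.o2, c85_1_1, c86_0_1, s3]
            · rcases c3_22_22_33_k0_k_p11_23B C with c87_0_0 | c87_1_0 | c87_2_0 | c87_3_0 | c87_4_0 | c87_5_0
              · linarith only [c1_1_0, c87_0_0]
              · linarith only [C.o1, c87_1_0, e0]
              · linarith only [C.f22_4, C.f33_4, C.o2, c87_2_0, e0, s2]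
              · rcases c3_22_22_33_k0_k_p22_23B C with c91_0_0 | c91_1_0 | c91_2_0 | c91_3_0 | c91_4_0 | c91_5_0
                · linarith only [c91_0_0, e0]
                · linarith only [C.o0, c1_1_0, c63_0_0, c91_1_0]
                · linarith only [C.f11_0, C.f22_1, C.f22_4, C.f33_0, C.f33_4, C.o2, c1_1_0, c84_0_1, c87_3_0, c91_2_0, s1, s2]
                · linarith only [C.a1, C.f33_0, C.o0, c84_0_1, c91_3_0, s1]
                · rcases c3_22_22_33_k0_k_tmzp C with c98_0_0 | c98_1_0 | c98_2_0 | c98_3_0 | c98_4_0 | c98_5_0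
                  · rcases c3_22_22_33_k0_k_tzmp C with c100_0_0 | c100_1_0 | c100_2_0 | c100_3_0
                    · linarith only [C.f22_4, C.f33_0, C.f33_3, c100_0_0, c85_1_1, c91_4_0, c98_0_0, s2]
                    · linarith only [C.f22_4, C.f33_4, c100_1_0, c85_1_1, c91_4_0, s2]
                    · linarith only [C.f22_1, C.f33_0, C.o0, c100_2_0, c98_0_0, s1]
                    · linarith only [C.f22_4, C.f22_6, C.f33_7, C.o2, c100_3_0, s3]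
                  · linarith only [c63_0_0, c98_1_0]
                  · linarith only [C.f22_4, C.f33_4, c85_1_1, c91_4_0, c98_2_0, s2]
                  · linarith only [c1_1_0, c98_3_0]
                  · linarith only [c1_1_1, c98_4_0]
                  · linarith only [C.f22_4, C.f22_6, C.f33_7, C.o2, c98_5_0, s3]
                · linarith only [C.f33_7, C.o2, c86_1_1, c91_5_0, s3]
              · linarith only [C.a3, C.f11_0, C.f11_1, C.o0, C.o1, c85_1_1, c87_4_0]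
              · linarith only [C.a3, C.f11_0, C.f11_1, C.f11_2, C.f22_4, C.f22_6, C.f33_7, C.o0, C.o1, C.o2, c86_1_1, c87_5_0, s3]
          · linarith only [C.a4, C.f23_5, C.o2, c85_2_1]
        · rcases c3_22_22_33_k0_k_f23_7 C with ⟨c101_0_0, c101_0_1⟩ | ⟨c101_1_0, c101_1_1⟩ | ⟨c101_2_0, c101_2_1⟩
          · linarith only [C.a3, C.f23_5, c101_0_1, c63_0_0, c84_1_1]
          · rcases c3_22_22_33_k0_k_f23_10 C with ⟨c102_0_0, c102_0_1⟩ | ⟨c102_1_0, c102_1_1⟩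
            · linarith only [C.f22_4, C.f22_6, C.f23_9, C.f33_7, C.o1, C.o2, c101_1_1, c102_0_1, s3]
            · rcases c3_22_22_33_k0_k_p11_23B C with c103_0_0 | c103_1_0 | c103_2_0 | c103_3_0 | c103_4_0 | c103_5_0
              · linarith only [c103_0_0, c1_1_0]
              · linarith only [C.o1, c103_1_0, e0]
              · linarith only [C.f22_4, C.f33_4, C.o2, c103_2_0, e0, s2]
              · rcases c3_22_22_33_k0_k_p11_33A C with c104_0_0 | c104_1_0 | c104_2_0 | c104_3_0 | c104_4_0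
                · linarith only [c104_0_0, c1_1_0]
                · linarith only [c104_1_0, e1]
                · linarith only [C.f11_0, C.f22_1, C.o0, C.o1, c103_3_0, c104_2_0, c84_1_1, s1]
                · linarith only [C.a3, C.b2, C.f11_0, C.f11_1, C.f22_4, C.o0, c103_3_0, c104_3_0, c84_1_1, s2]
                · linarith only [C.a3, C.f11_0, C.f11_1, C.f11_2, C.f22_4, C.f22_6, C.o0, C.o1, C.o2, c0_1_1, c104_4_0, s3]
              · linarith only [C.a3, C.f11_0, C.f11_1, C.o0, C.o1, c101_1_1, c103_4_0]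
              · linarith only [C.a3, C.f11_0, C.f11_1, C.f11_2, C.f22_4, C.f22_6, C.f33_7, C.o0, C.o1, C.o2, c102_1_1, c103_5_0, s3]
          · linarith only [C.a4, C.f23_5, C.o2, c101_2_1]
        · linarith only [C.a4, C.f23_1, C.o2, c84_2_1]
      · rcases c3_22_22_33_k0_k_f23_3 C with ⟨c125_0_0, c125_0_1⟩ | ⟨c125_1_0, c125_1_1⟩ | ⟨c125_2_0, c125_2_1⟩
        · rcases c3_22_22_33_k0_k_f23_7 C with ⟨c126_0_0, c126_0_1⟩ | ⟨c126_1_0, c126_1_1⟩ | ⟨c126_2_0, c126_2_1⟩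
          · linarith only [C.a3, C.b1, C.f23_5, C.o0, c125_0_1, c126_0_1]
          · rcases c3_22_22_33_k0_k_f23_10 C with ⟨c127_0_0, c127_0_1⟩ | ⟨c127_1_0, c127_1_1⟩
            · linarith only [C.f22_4, C.f22_6, C.f23_9, C.f33_7, C.o1, C.o2, c126_1_1, c127_0_1, s3]
            · rcases c3_22_22_33_k0_k_p11_23B C with c128_0_0 | c128_1_0 | c128_2_0 | c128_3_0 | c128_4_0 | c128_5_0
              · linarith only [c128_0_0, c1_1_0]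
              · linarith only [C.o1, c128_1_0, e0]
              · linarith only [C.f22_4, C.f33_4, C.o2, c128_2_0, e0, s2]
              · rcases c3_22_22_33_k0_k_p22_23B C with c132_0_0 | c132_1_0 | c132_2_0 | c132_3_0 | c132_4_0 | c132_5_0
                · linarith only [c132_0_0, e0]
                · linarith only [C.a2, C.o0, c132_1_0, c1_1_0]
                · linarith only [C.f11_0, C.f22_1, C.f22_4, C.f33_0, C.f33_4, C.o2, c125_0_1, c128_3_0, c132_2_0, c1_1_0, s1, s2]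
                · linarith only [C.a1, C.f33_0, C.o0, c125_0_1, c132_3_0, s1]
                · rcases c3_22_22_33_k0_k_tzmp C with c141_0_0 | c141_1_0 | c141_2_0 | c141_3_0
                  · linarith only [C.f11_0, C.f22_4, C.f33_0, C.f33_3, C.o0, c125_0_1, c126_1_1, c128_3_0, c132_4_0, c141_0_0, s2]
                  · linarith only [C.f22_4, C.f33_4, c126_1_1, c132_4_0, c141_1_0, s2]
                  · linarith only [c141_2_0, c63_1_0]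
                  · linarith only [C.f22_4, C.f22_6, C.f33_7, C.o2, c141_3_0, s3]
                · linarith only [C.f33_7, C.o2, c127_1_1, c132_5_0, s3]
              · linarith only [C.a3, C.f11_0, C.f11_1, C.o0, C.o1, c126_1_1, c128_4_0]
              · linarith only [C.a3, C.f11_0, C.f11_1, C.f11_2, C.f22_4, C.f22_6, C.f33_7, C.o0, C.o1, C.o2, c127_1_1, c128_5_0, s3]
          · linarith only [C.a4, C.f23_5, C.o2, c126_2_1]
        · rcases c3_22_22_33_k0_k_f23_7 C with ⟨c142_0_0, c142_0_1⟩ | ⟨c142_1_0, c142_1_1⟩ | ⟨c142_2_0, c142_2_1⟩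
          · linarith only [C.a3, C.f23_5, C.o0, C.o1, c125_1_1, c142_0_1, c63_1_0]
          · rcases c3_22_22_33_k0_k_f23_10 C with ⟨c143_0_0, c143_0_1⟩ | ⟨c143_1_0, c143_1_1⟩
            · linarith only [C.f22_4, C.f22_6, C.f23_9, C.f33_7, C.o1, C.o2, c142_1_1, c143_0_1, s3]
            · rcases c3_22_22_33_k0_k_p11_23B C with c145_0_0 | c145_1_0 | c145_2_0 | c145_3_0 | c145_4_0 | c145_5_0
              · linarith only [c145_0_0, c1_1_0]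
              · linarith only [C.o1, c145_1_0, c1_1_0, c63_1_0]
              · linarith only [C.f22_4, C.f33_4, C.o2, c145_2_0, c1_1_0, c63_1_0, s2]
              · linarith only [C.f11_0, C.o1, c125_1_1, c145_3_0, c63_1_0]
              · linarith only [C.a3, C.f11_0, C.f11_1, C.o0, C.o1, c142_1_1, c145_4_0]
              · linarith only [C.a3, C.f11_0, C.f11_1, C.f11_2, C.f22_4, C.f22_6, C.f33_7, C.o0, C.o1, C.o2, c143_1_1, c145_5_0, s3]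
          · linarith only [C.a4, C.f23_5, C.o2, c142_2_1]
        · linarith only [C.a4, C.f23_1, C.o2, c125_2_1]

end Pool.Agent.Helper24.TQ
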