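import Pool.Agent.Helper89.TQ.Ctx

set_option autoImplicit false
set_option linter.all false
set_option maxHeartbeats 4000000

namespace Pool.Agent.Helper24.TQ

open Pool.Agent.Helper89.TQ

theorem c3_22_33_33_k3_k_t12 {n1 n2 n3 A1 A2 A3 B1 B2 B3 m11_1 m11_2 m11_3 m22_1 m22_2 m22_3 m23_1 m23_2 m23_3 m33_1 m33_2 m33_3 : ℤ} (C : Ctx3 n1 n2 n3 A1 A2 A3 B1 B2 B3 m11_1 m11_2 m11_3 m22_1 m22_2 m22_3 m23_1 m23_2 m23_3 m33_1 m33_2 m33_3) :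
    ((-1) * A1 ≤ -1 ∧ (-1) * A1 + 1 * A2 + (-1) * n2 ≤ -1) ∨ ((-1) * B1 ≤ -1 ∧ (-1) * B1 + 1 * B2 + (-1) * n2 ≤ -1) := by
  have h := C.t12
  clear C
  omega

theorem c3_22_33_33_k3_k_f23_3 {n1 n2 n3 A1 A2 A3 B1 B2 B3 m11_1 m11_2 m11_3 m22_1 m22_2 m22_3 m23_1 m23_2 m23_3 m33_1 m33_2 m33_3 : ℤ} (C : Ctx3 n1 n2 n3 A1 A2 A3 B1 B2 B3 m11_1 m11_2 m11_3 m22_1 m22_2 m22_3 m23_1 m23_2 m23_3 m33_1 m33_2 m33_3) :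
    (1 * m23_1 + (-1) * n1 ≤ 0 ∧ (-1) * m23_1 + 1 * n1 ≤ 0) ∨ ((-1) * A2 + 1 * m23_1 ≤ -1 ∧ 1 * A2 + (-1) * m23_1 ≤ 1) ∨ ((-1) * B3 + 1 * m23_1 ≤ -1 ∧ 1 * B3 + (-1) * m23_1 ≤ 1) := by
  have h := C.f23_3
  clear C
  omega

theorem c3_22_33_33_k3_k_f23_7 {n1 n2 n3 A1 A2 A3 B1 B2 B3 m11_1 m11_2 m11_3 m22_1 m22_2 m22_3 m23_1 m23_2 m23_3 m33_1 m33_2 m33_3 : ℤ} (C : Ctx3 n1 n2 n3 A1 A2 A3 B1 B2 B3 m11_1 m11_2 m11_3 m22_1 m22_2 m22_3 m23_1 m23_2 m23_3 m33_1 m33_2 m33_3) :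
    ((-1) * m23_1 + 1 * m23_2 + (-1) * n2 ≤ 0 ∧ 1 * m23_1 + (-1) * m23_2 + 1 * n2 ≤ 0) ∨ ((-1) * A2 + 1 * m23_2 ≤ -1 ∧ 1 * A2 + (-1) * m23_2 ≤ 1) ∨ ((-1) * B3 + 1 * m23_2 ≤ -1 ∧ 1 * B3 + (-1) * m23_2 ≤ 1) := by
  have h := C.f23_7
  clear C
  omega

theorem c3_22_33_33_k3_k_f23_10 {n1 n2 n3 A1 A2 A3 B1 B2 B3 m11_1 m11_2 m11_3 m22_1 m22_2 m22_3 m23_1 m23_2 m23_3 m33_1 m33_2 m33_3 : ℤ} (C : Ctx3 n1 n2 n3 A1 A2 A3 B1 B2 B3 m11_1 m11_2 m11_3 m22_1 m22_2 m22_3 m23_1 m23_2 m23_3 m33_1 m33_2 m33_3) :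
    ((-1) * m23_2 + 1 * m23_3 + (-1) * n3 ≤ 0 ∧ 1 * m23_2 + (-1) * m23_3 + 1 * n3 ≤ 0) ∨ ((-1) * B3 + 1 * m23_3 ≤ -1 ∧ 1 * B3 + (-1) * m23_3 ≤ 1) := by
  have h := C.f23_10
  clear C
  omega

theorem c3_22_33_33_k3_k_f33_2 {n1 n2 n3 A1 A2 A3 B1 B2 B3 m11_1 m11_2 m11_3 m22_1 m22_2 m22_3 m23_1 m23_2 m23_3 m33_1 m33_2 m33_3 : ℤ} (C : Ctx3 n1 n2 n3 A1 A2 A3 B1 B2 B3 m11_1 m11_2 m11_3 m22_1 m22_2 m22_3 m23_1 m23_2 m23_3 m33_1 m33_2 m33_3) :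
    (1 * m33_1 + (-1) * n1 ≤ 0 ∧ (-1) * m33_1 + 1 * n1 ≤ 0) ∨ ((-1) * A3 + 1 * m33_1 ≤ -1 ∧ 1 * A3 + (-1) * m33_1 ≤ 1) := by
  have h := C.f33_2
  clear C
  omega

theorem c3_22_33_33_k3_k_p11_23B {n1 n2 n3 A1 A2 A3 B1 B2 B3 m11_1 m11_2 m11_3 m22_1 m22_2 m22_3 m23_1 m23_2 m23_3 m33_1 m33_2 m33_3 : ℤ} (C : Ctx3 n1 n2 n3 A1 A2 A3 B1 B2 B3 m11_1 m11_2 m11_3 m22_1 m22_2 m22_3 m23_1 m23_2 m23_3 m33_1 m33_2 m33_3) :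
    (1 * B1 ≤ 0) ∨ (1 * A2 ≤ 0) ∨ (1 * B3 ≤ 0) ∨ ((-2) * B1 + 1 * m11_1 + 1 * m23_1 ≤ -1) ∨ ((-2) * B2 + 1 * m11_2 + 1 * m23_2 ≤ -1) ∨ ((-2) * B3 + 1 * m11_3 + 1 * m23_3 ≤ -1) := by
  have h := C.p11_23B
  clear C
  omega

theorem c3_22_33_33_k3_k_p11_33A {n1 n2 n3 A1 A2 A3 B1 B2 B3 m11_1 m11_2 m11_3 m22_1 m22_2 m22_3 m23_1 m23_2 m23_3 m33_1 m33_2 m33_3 : ℤ} (C : Ctx3 n1 n2 n3 A1 A2 A3 B1 B2 B3 m11_1 m11_2 m11_3 m22_1 m22_2 m22_3 m23_1 m23_2 m23_3 m33_1 m33_2 m33_3) :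
    (1 * B1 ≤ 0) ∨ (1 * A3 ≤ 0) ∨ ((-2) * A1 + 1 * m11_1 + 1 * m33_1 ≤ -1) ∨ ((-2) * A2 + 1 * m11_2 + 1 * m33_2 ≤ -1) ∨ ((-2) * A3 + 1 * m11_3 + 1 * m33_3 ≤ -1) := by
  have h := C.p11_33A
  clear C
  omega

theorem c3_22_33_33_k3_k_p23_33A {n1 n2 n3 A1 A2 A3 B1 B2 B3 m11_1 m11_2 m11_3 m22_1 m22_2 m22_3 m23_1 m23_2 m23_3 m33_1 m33_2 m33_3 : ℤ} (C : Ctx3 n1 n2 n3 A1 A2 A3 B1 B2 B3 m11_1 m11_2 m11_3 m22_1 m22_2 m22_3 m23_1 m23_2 m23_3 m33_1 m33_2 m33_3) :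
    (1 * A2 ≤ 0) ∨ (1 * B3 ≤ 0) ∨ (1 * A3 ≤ 0) ∨ ((-2) * A1 + 1 * m23_1 + 1 * m33_1 ≤ -1) ∨ ((-2) * A2 + 1 * m23_2 + 1 * m33_2 ≤ -1) ∨ ((-2) * A3 + 1 * m23_3 + 1 * m33_3 ≤ -1) := by
  have h := C.p23_33A
  clear C
  omega

theorem c3_22_33_33_k3_k_tzmp {n1 n2 n3 A1 A2 A3 B1 B2 B3 m11_1 m11_2 m11_3 m22_1 m22_2 m22_3 m23_1 m23_2 m23_3 m33_1 m33_2 m33_3 : ℤ} (C : Ctx3 n1 n2 n3 A1 A2 A3 B1 B2 B3 m11_1 m11_2 m11_3 m22_1 m22_2 m22_3 m23_1 m23_2 m23_3 m33_1 m33_2 m33_3) :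
    (1 * A1 + (-1) * A2 + 1 * n2 ≤ 0) ∨ ((-1) * A2 + 1 * A3 ≤ 1) ∨ ((-1) * B1 + 1 * B2 ≤ 0) ∨ (1 * B2 + (-1) * B3 + 1 * n3 ≤ 1) := by
  have h := C.tzmp
  clear C
  omega

theorem c3_22_33_33_k3 {n1 n2 n3 A1 A2 A3 B1 B2 B3 m11_1 m11_2 m11_3 m22_1 m22_2 m22_3 m23_1 m23_2 m23_3 m33_1 m33_2 m33_3 : ℤ}
    (C : Ctx3 n1 n2 n3 A1 A2 A3 B1 B2 B3 m11_1 m11_2 m11_3 m22_1 m22_2 m22_3 m23_1 m23_2 m23_3 m33_1 m33_2 m33_3)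
    (e0 : 0 < B2)
    (e1 : 0 < A3)
    (s1 : 3 * A1 + 0 * B1 ≤ m22_1 + m33_1 + m33_1)
    (s2 : 3 * A2 + 0 * B2 ≤ m22_2 + m33_2 + m33_2)
    (s3 : 3 * A3 + 0 * B3 ≤ m22_3 + m33_3 + m33_3) : False := by
  rcases c3_22_33_33_k3_k_t12 C with ⟨c1_0_0, c1_0_1⟩ | ⟨c1_1_0, c1_1_1⟩
  · rcases c3_22_33_33_k3_k_p11_33A C with c2_0_0 | c2_1_0 | c2_2_0 | c2_3_0 | c2_4_0
    · linarith only [C.o0, c1_0_0, c2_0_0]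
    · linarith only [c2_1_0, e1]
    · rcases c3_22_33_33_k3_k_f33_2 C with ⟨c4_0_0, c4_0_1⟩ | ⟨c4_1_0, c4_1_1⟩
      · rcases c3_22_33_33_k3_k_f23_3 C with ⟨c5_0_0, c5_0_1⟩ | ⟨c5_1_0, c5_1_1⟩ | ⟨c5_2_0, c5_2_1⟩
        · rcases c3_22_33_33_k3_k_f23_7 C with ⟨c6_0_0, c6_0_1⟩ | ⟨c6_1_0, c6_1_1⟩ | ⟨c6_2_0, c6_2_1⟩
          · linarith only [C.f22_4, C.f23_5, C.f33_0, C.f33_3, C.o1, c5_0_1, c6_0_1, s2]
          · rcases c3_22_33_33_k3_k_f23_10 C with ⟨c7_0_0, c7_0_1⟩ | ⟨c7_1_0, c7_1_1⟩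
            · linarith only [C.b5, C.f23_9, C.o1, c6_1_1, c7_0_1]
            · rcases c3_22_33_33_k3_k_p11_23B C with c9_0_0 | c9_1_0 | c9_2_0 | c9_3_0 | c9_4_0 | c9_5_0
              · linarith only [C.o0, c1_0_0, c9_0_0]
              · linarith only [C.f11_0, C.f22_1, C.o0, C.o1, c1_0_0, c2_2_0, c9_1_0, s1]
              · linarith only [C.f11_0, C.f22_1, C.f22_4, C.f33_4, C.o0, C.o1, C.o2, c1_0_0, c2_2_0, c9_2_0, s1, s2]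
              · rcases c3_22_33_33_k3_k_p23_33A C with c13_0_0 | c13_1_0 | c13_2_0 | c13_3_0 | c13_4_0 | c13_5_0
                · linarith only [C.f11_0, C.f22_1, C.o0, C.o1, c13_0_0, c1_0_0, c2_2_0, s1]
                · linarith only [C.f11_0, C.f22_1, C.f22_4, C.f33_4, C.o0, C.o1, C.o2, c13_1_0, c1_0_0, c2_2_0, s1, s2]
                · linarith only [c13_2_0, e1]
                · linarith only [C.a1, c13_3_0, c4_0_1, c5_0_1]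
                · linarith only [C.f22_4, C.o1, c13_4_0, c6_1_1, s2]
                · rcases c3_22_33_33_k3_k_tzmp C with c19_0_0 | c19_1_0 | c19_2_0 | c19_3_0
                  · linarith only [c19_0_0, c1_0_1]
                  · linarith only [C.f22_4, C.f33_4, C.o1, c19_1_0, s2]
                  · linarith only [C.f11_0, C.f22_1, C.f33_0, C.o0, c19_2_0, c5_0_1, c9_3_0, s1]
                  · linarith only [C.f22_4, C.f22_6, C.f33_7, c13_5_0, c19_3_0, c7_1_1, s3]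
              · linarith only [C.f11_0, C.f11_1, C.f22_4, C.f33_3, C.o0, C.o1, c2_2_0, c6_1_1, c9_4_0, s2]
              · linarith only [C.b5, C.f11_0, C.f11_1, C.f11_2, C.f22_4, C.f33_3, C.o0, C.o1, c2_2_0, c7_1_1, c9_5_0, s2]
          · linarith only [C.f22_4, C.f23_5, C.f33_4, C.o1, C.o2, c6_2_1, s2]
        · linarith only [C.f11_0, C.f22_1, C.f23_0, C.o0, C.o1, c2_2_0, c4_0_1, c5_1_1, s1]
        · linarith only [C.f22_4, C.f23_1, C.f33_4, C.o1, C.o2, c5_2_1, s2]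
      · linarith only [C.f11_0, C.f22_1, C.f22_4, C.f33_4, C.o0, C.o1, c2_2_0, c4_1_1, s1, s2]
    · linarith only [C.f11_0, C.f11_1, C.f22_4, C.o0, C.o1, c1_0_1, c2_3_0, s2]
    · linarith only [C.f11_0, C.f11_1, C.f11_2, C.f22_4, C.f22_6, C.f33_7, C.o0, C.o1, c1_0_1, c2_4_0, s3]
  · rcases c3_22_33_33_k3_k_p11_33A C with c20_0_0 | c20_1_0 | c20_2_0 | c20_3_0 | c20_4_0
    · linarith only [c1_1_0, c20_0_0]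
    · linarith only [c20_1_0, e1]
    · rcases c3_22_33_33_k3_k_f33_2 C with ⟨c22_0_0, c22_0_1⟩ | ⟨c22_1_0, c22_1_1⟩
      · rcases c3_22_33_33_k3_k_f23_3 C with ⟨c23_0_0, c23_0_1⟩ | ⟨c23_1_0, c23_1_1⟩ | ⟨c23_2_0, c23_2_1⟩
        · rcases c3_22_33_33_k3_k_f23_7 C with ⟨c24_0_0, c24_0_1⟩ | ⟨c24_1_0, c24_1_1⟩ | ⟨c24_2_0, c24_2_1⟩
          · linarith only [C.f22_4, C.f23_5, C.f33_0, C.f33_3, C.o1, c23_0_1, c24_0_1, s2]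
          · rcases c3_22_33_33_k3_k_f23_10 C with ⟨c25_0_0, c25_0_1⟩ | ⟨c25_1_0, c25_1_1⟩
            · linarith only [C.b5, C.f23_9, C.o1, c24_1_1, c25_0_1]
            · rcases c3_22_33_33_k3_k_p11_23B C with c27_0_0 | c27_1_0 | c27_2_0 | c27_3_0 | c27_4_0 | c27_5_0
              · linarith only [c1_1_0, c27_0_0]
              · linarith only [C.f11_0, C.f22_1, C.o0, C.o1, c1_1_0, c20_2_0, c27_1_0, s1]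
              · linarith only [C.f11_0, C.f22_1, C.f22_4, C.f33_4, C.o0, C.o1, C.o2, c1_1_0, c20_2_0, c27_2_0, s1, s2]
              · rcases c3_22_33_33_k3_k_p23_33A C with c31_0_0 | c31_1_0 | c31_2_0 | c31_3_0 | c31_4_0 | c31_5_0
                · linarith only [C.f11_0, C.f22_1, C.o0, C.o1, c1_1_0, c20_2_0, c31_0_0, s1]
                · linarith only [C.f11_0, C.f22_1, C.f22_4, C.f33_4, C.o0, C.o1, C.o2, c1_1_0, c20_2_0, c31_1_0, s1, s2]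
                · linarith only [c31_2_0, e1]
                · linarith only [C.a1, c22_0_1, c23_0_1, c31_3_0]
                · linarith only [C.f22_4, C.o1, c24_1_1, c31_4_0, s2]
                · rcases c3_22_33_33_k3_k_tzmp C with c37_0_0 | c37_1_0 | c37_2_0 | c37_3_0
                  · linarith only [C.f11_0, C.f22_4, C.f33_0, C.f33_3, C.o0, C.o1, c23_0_1, c27_3_0, c37_0_0, s2]
                  · linarith only [C.f22_4, C.f33_4, C.o1, c37_1_0, s2]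
                  · linarith only [C.f11_0, C.f22_1, C.f33_0, C.o0, c23_0_1, c27_3_0, c37_2_0, s1]
                  · linarith only [C.f22_4, C.f22_6, C.f33_7, c25_1_1, c31_5_0, c37_3_0, s3]
              · linarith only [C.f11_0, C.f11_1, C.f22_4, C.f33_3, C.o0, C.o1, c20_2_0, c24_1_1, c27_4_0, s2]
              · linarith only [C.b5, C.f11_0, C.f11_1, C.f11_2, C.f22_4, C.f33_3, C.o0, C.o1, c20_2_0, c25_1_1, c27_5_0, s2]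
          · linarith only [C.f22_4, C.f23_5, C.f33_4, C.o1, C.o2, c24_2_1, s2]
        · linarith only [C.f11_0, C.f22_1, C.f23_0, C.o0, C.o1, c20_2_0, c22_0_1, c23_1_1, s1]
        · linarith only [C.f22_4, C.f23_1, C.f33_4, C.o1, C.o2, c23_2_1, s2]
      · linarith only [C.f11_0, C.f22_1, C.f22_4, C.f33_4, C.o0, C.o1, c20_2_0, c22_1_1, s1, s2]
    · linarith only [C.a3, C.f11_0, C.f11_1, C.f22_4, C.o0, C.o1, c20_3_0, s2]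
    · linarith only [C.a3, C.f11_0, C.f11_1, C.f11_2, C.f22_4, C.f22_6, C.f33_7, C.o0, C.o1, c20_4_0, s3]

end Pool.Agent.Helper24.TQ
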